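import Mathlib
import Pool.Agent.Lib.RG.Defs
import Pool.Agent.Lib.RG.HDefs
import Pool.Agent.Lib.RG.H01

/-!
RG v4 (all number fields), PART C (class field theory modulo `p`): definitions.

Throughout `p` is an odd prime. `Pr K` are the maximal ideals of the ring of integers, `vl v` the additive
valuations, `UU v n` the units at `v` congruent to `1` modulo `v ^ n` (`UU v 0`: all units at `v`),
`PP K p` the `p`-th powers, `below w` the prime below `w` (HDefs).
-/

set_option autoImplicit false

namespace Pool.Agent.RGK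

open NumberField IsDedekindDomain
open Pool.Agent.RG (Above IsDec IsInert IsFrob)
open Pool.Agent.RG.H (Pr vl UU PP SU ev below nrm emb NS)

section one

variable {K : Type} [Field K] [NumberField K]

/-- The absolute norm of a prime. -/
noncomputable def nm (v : Pr K) : ℕ := Ideal.absNorm v.asIdeal

/-- The characters with values in `ZMod p` of the ray class group of modulus `T`, as functions on the
primes outside `T`. -/
noncomputable def RC (p : ℕ) [Fact p.Prime] (T : Set (Pr K)) : Submodule (ZMod p) (Pr K → ZMod p) where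
  carrier := {ξ | (∀ v ∈ T, ξ v = 0) ∧ ∀ x : Kˣ, (∀ v ∈ T, x ∈ UU v 1) →
    ∑ᶠ v, ((vl v x : ℤ) : ZMod p) * ξ v = 0}
  zero_mem' := ⟨fun v _ => rfl, fun x _ => by simp⟩
  add_mem' := by
    rintro ξ ξ' ⟨h1, h2⟩ ⟨h1', h2'⟩
    refine ⟨fun v hv => by rw [Pi.add_apply, h1 v hv, h1' v hv, add_zero], fun x hx => ?_⟩
    obtain ⟨S, hS⟩ := RG.H.fin_vl x
    have hfin : ∀ η : Pr K → ZMod p,
        (Function.support fun v => ((vl v x : ℤ) : ZMod p) * η v).Finite := fun η =>
      S.finite_toSet.subset fun v hv => by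
        by_contra hvS
        rw [Function.mem_support] at hv
        exact hv (by rw [RG.H.mem_SU.1 hS v hvS, Int.cast_zero, zero_mul])
    have e : (fun v => ((vl v x : ℤ) : ZMod p) * (ξ + ξ') v) = fun v =>
        ((vl v x : ℤ) : ZMod p) * ξ v + ((vl v x : ℤ) : ZMod p) * ξ' v := by
      funext v
      rw [Pi.add_apply, mul_add]
    rw [e, finsum_add_distrib (hfin ξ) (hfin ξ'), h2 x hx, h2' x hx, add_zero]
  smul_mem' := by
    rintro c ξ ⟨h1, h2⟩
    refine ⟨fun v hv => by rw [Pi.smul_apply, h1 v hv, smul_zero], fun x hx => ?_⟩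
    have e : (fun v => ((vl v x : ℤ) : ZMod p) * (c • ξ) v) = fun v =>
        c * (((vl v x : ℤ) : ZMod p) * ξ v) := by
      funext v
      rw [Pi.smul_apply, smul_eq_mul]
      ring
    rw [e, ← mul_finsum, h2 x hx, mul_zero]

/-- `x` is locally at `v` a `p`-th power up to units congruent to `1`. -/
def PU (p : ℕ) (v : Pr K) : Subgroup Kˣ := PP K p ⊔ UU v 1

/-- The elements with valuation divisible by `p` outside `T`. -/
def VS (p : ℕ) (T : Set (Pr K)) : Subgroup Kˣ where
  carrier := {x | ∀ v, v ∉ T → (p : ℤ) ∣ vl v x}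
  one_mem' := fun v _ => by rw [Pool.Agent.RG.H.vl_one]; exact dvd_zero _
  mul_mem' := fun {x y} hx hy v hv => by
    rw [Pool.Agent.RG.H.vl_mul]; exact dvd_add (hx v hv) (hy v hv)
  inv_mem' := fun {x} hx v hv => by
    rw [Pool.Agent.RG.H.vl_inv]; exact (dvd_neg).2 (hx v hv)

/-- The group `V_T`: all valuations divisible by `p`, locally a `p`-th power at the primes of `T`. -/
def VT (p : ℕ) (T : Set (Pr K)) : Subgroup Kˣ := VS p ∅ ⊓ ⨅ v ∈ T, PU p v

end one

section two

variable {K L : Type} [Field K] [NumberField K] [Field L] [NumberField L] [Algebra K L]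

variable (K) in
/-- The residue degree of `w` over `K`. -/
noncomputable def fd (w : Pr L) : ℕ := w.asIdeal.inertiaDeg (𝓞 K)

variable (L) in
/-- The primes of `K` which are ramified in the Galois extension `L / K`. -/
def RamS : Set (Pr K) :=
  {v | ∃ w : Pr L, (below w : Pr K) = v ∧ ∃ σ : L ≃ₐ[K] L, IsInert w σ ∧ σ ≠ 1}

/-- The character `θ` of `Gal(L / K)` is unramified outside `T`. -/
def UnrCh {p : ℕ} (T : Set (Pr K)) (θ : (L ≃ₐ[K] L) →* Multiplicative (ZMod p)) : Prop :=
  ∀ w : Pr L, (below w : Pr K) ∉ T → ∀ σ : L ≃ₐ[K] L, IsInert w σ → θ σ = 1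

/-- `ξ` gives the values of the character `θ` at the Frobenius elements of the primes outside `T`, it
is zero on `T`. -/
structure FV {p : ℕ} (T : Set (Pr K)) (θ : (L ≃ₐ[K] L) →* Multiplicative (ZMod p))
    (ξ : Pr K → ZMod p) : Prop where
  zero : ∀ v ∈ T, ξ v = 0
  frob : ∀ w : Pr L, (below w : Pr K) ∉ T → ∀ σ : L ≃ₐ[K] L,
    IsFrob w (nm (below w : Pr K)) σ → θ σ = Multiplicative.ofAdd (ξ (below w))

end two

/-- `ξ` is the family of the Frobenius values of a character of order `p` (or `1`) of a cyclic extension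
of degree `p` (or `1`), unramified outside `T`. -/
def Rl {K : Type} [Field K] [NumberField K] (p : ℕ) (T : Set (Pr K)) (ξ : Pr K → ZMod p) : Prop :=
  ∃ (L : Type) (_ : Field L) (_ : NumberField L) (_ : Algebra K L) (_ : IsGalois K L)
    (θ : (L ≃ₐ[K] L) →* Multiplicative (ZMod p)), Function.Injective θ ∧ UnrCh T θ ∧ FV T θ ξ

end Pool.Agent.RGK
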