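import Mathlib
import Pool.Agent.Lib.RG.G01
import Pool.Agent.Lib.RGK.CDefs

/-!
RG v4, PART B (basic facts on Galois extensions of a number field `K`): definitions.
-/

set_option autoImplicit false

namespace Pool.Agent.RGK

open NumberField IsDedekindDomain
open Pool.Agent.RG (Above IsDec IsInert IsFrob Lies)
open Pool.Agent.RG.H (Pr below)

section

variable {K M₁ M₂ : Type} [Field K] [Field M₁] [NumberField M₁] [Field M₂]
  [NumberField M₂] [Algebra K M₁] [Algebra K M₂]

/-- `w₂` lies over `w₁` with respect to the embedding `j` -/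
abbrev LiesA (j : M₁ →ₐ[K] M₂) (w₂ : Pr M₂) (w₁ : Pr M₁) : Prop := Lies (j : M₁ →+* M₂) w₂ w₁

end

section

variable {K : Type} [Field K] [NumberField K]

/-- the Galois extension `N / K` is unramified above `v` -/
def UnrAtK (v : Pr K) (N : Type) [Field N] [NumberField N] [Algebra K N] : Prop :=
  ∀ w : Pr N, (below w : Pr K) = v → ∀ σ : N ≃ₐ[K] N, IsInert w σ → σ = 1

/-- the Galois extension `N / K` is unramified outside `T` -/
def UnrOutK (T : Set (Pr K)) (N : Type) [Field N] [NumberField N] [Algebra K N] : Prop :=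
  ∀ w : Pr N, (below w : Pr K) ∉ T → ∀ σ : N ≃ₐ[K] N, IsInert w σ → σ = 1

end

end Pool.Agent.RGK
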