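import Mathlib
import Pool.Agent.Lib.RG.G01
import Pool.Agent.Lib.RG.G02
import Pool.Agent.Lib.RGK.BDefs

/-!
RG v4, row B1: primes above and below.

`not_above_of_nm`: `nm v` is a power of the residue characteristic `q` of `v`; if `q = p` then `nm v % p`
is `0` (`nm v ≠ 1`).
`lies_iff_below`: `Lies (algebraMap K L) w v` compares the valuation rings and their maximal ideals; both
sides are equivalent to `w.asIdeal.under (𝓞 K) = v.asIdeal` (`exists_below`, `Lies.unique` of G01: it is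
enough that `below w` is below `w` in the sense of `Lies`; `H.exists_e_val` (H01) gives this).
`LiesA.below_eq`: `Lies.trans` with the structure map (`j.comp_algebraMap`), then `lies_iff_below`.
The rest are G01/G02 in the relative setting: copy the proofs of G02 (`IsDec.restrict`, `IsInert.restrict`,
`IsFrob.restrict`, `IsInert.conj_to`) and of E33 (`IsFrob.conj_to`), replacing `ℚ` by `K`.
-/

set_option autoImplicit false

namespace Pool.Agent.RGK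

open NumberField IsDedekindDomain
open Pool.Agent.RG (Above IsDec IsInert IsFrob Lies)
open Pool.Agent.RG.H (Pr below)

section

variable {K L : Type} [Field K] [NumberField K] [Field L] [NumberField L] [Algebra K L]

theorem not_above_of_nm {p : ℕ} (hp : p.Prime) {v : Pr K} (hv : nm v % p = 1) : ¬ Above v p := by
  intro h
  have h1 : (p : 𝓞 K) ∈ v.asIdeal := (RG.G01aux.above_iff_mem v p).1 h
  have h2 : ((nm v : ℕ) : 𝓞 K) ∈ v.asIdeal := Ideal.absNorm_mem _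
  refine RG.G01aux.one_mem_of_coprime ((Nat.Prime.coprime_iff_not_dvd hp).2 fun hd => ?_) h1 h2
  rw [Nat.mod_eq_zero_of_dvd hd] at hv
  exact zero_ne_one hv

private theorem B1_lies (w : Pr L) : Lies (algebraMap K L) w (below w : Pr K) :=
  RG.G01aux.lies_of_comap fun _ => Iff.rfl

theorem lies_iff_below (w : Pr L) (v : Pr K) :
    Lies (algebraMap K L) w v ↔ (below w : Pr K) = v := by
  constructor
  · intro h
    exact (B1_lies w).unique h
  · rintro rfl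
    exact B1_lies w

variable {M₁ M₂ : Type} [Field M₁] [NumberField M₁] [Field M₂] [NumberField M₂] [Algebra K M₁]
  [Algebra K M₂] {j : M₁ →ₐ[K] M₂} {w₂ : Pr M₂} {w₁ : Pr M₁}

theorem LiesA.below_eq (h : LiesA j w₂ w₁) : (below w₂ : Pr K) = below w₁ := by
  have h1 := RG.Lies.trans h (B1_lies (K := K) w₁)
  rw [AlgHom.comp_algebraMap] at h1
  exact (lies_iff_below w₂ _).1 h1

theorem IsDec.restrictK {σ₁ : M₁ ≃ₐ[K] M₁} {σ₂ : M₂ ≃ₐ[K] M₂} (h : LiesA j w₂ w₁)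
    (hc : ∀ x, σ₂ (j x) = j (σ₁ x)) (hσ : IsDec w₂ σ₂) : IsDec w₁ σ₁ := by
  intro x
  change w₁.valuation M₁ (σ₁ x) = w₁.valuation M₁ x
  by_cases hx : x = 0
  · rw [hx, map_zero]
  have hjx : j x ≠ 0 := fun h0 => hx (j.toRingHom.injective (by
    change j x = j 0
    rw [h0, map_zero]))
  have hv1 : w₁.valuation M₁ x ≠ 0 := (Valuation.ne_zero_iff _).2 hx
  have hv2 : w₂.valuation M₂ (j x) ≠ 0 := (Valuation.ne_zero_iff _).2 hjx
  have h2 : w₂.valuation M₂ (j (σ₁ x / x)) = 1 := by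
    rw [map_div₀, ← hc, map_div₀]
    have h3 : w₂.valuation M₂ (σ₂ (j x)) = w₂.valuation M₂ (j x) := hσ (j x)
    rw [h3, div_self hv2]
  have h3 : w₁.valuation M₁ (σ₁ x / x) ≤ 1 := (h _).1.1 h2.le
  have h4 : ¬ w₁.valuation M₁ (σ₁ x / x) < 1 := fun h5 => by
    have h6 : w₂.valuation M₂ (j (σ₁ x / x)) < 1 := (h _).2.2 h5
    rw [h2] at h6
    exact lt_irrefl _ h6
  have h5 : w₁.valuation M₁ (σ₁ x / x) = 1 := le_antisymm h3 (not_lt.1 h4)
  rw [map_div₀, div_eq_one_iff_eq hv1] at h5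
  exact h5

theorem IsInert.restrictK {σ₁ : M₁ ≃ₐ[K] M₁} {σ₂ : M₂ ≃ₐ[K] M₂} (h : LiesA j w₂ w₁)
    (hc : ∀ x, σ₂ (j x) = j (σ₁ x)) (hσ : IsInert w₂ σ₂) : IsInert w₁ σ₁ := by
  refine ⟨IsDec.restrictK h hc hσ.1, fun x hx => ?_⟩
  have h1 := hσ.2 (j x) ((h x).1.2 hx)
  change w₂.valuation M₂ (σ₂ (j x) - j x) < 1 at h1
  rw [hc, ← map_sub] at h1
  exact (h _).2.1 h1

theorem IsFrob.restrictK {q : ℕ} {σ₁ : M₁ ≃ₐ[K] M₁} {σ₂ : M₂ ≃ₐ[K] M₂} (h : LiesA j w₂ w₁)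
    (hc : ∀ x, σ₂ (j x) = j (σ₁ x)) (hσ : IsFrob w₂ q σ₂) : IsFrob w₁ q σ₁ := by
  refine ⟨IsDec.restrictK h hc hσ.1, fun x hx => ?_⟩
  have h1 := hσ.2 (j x) ((h x).1.2 hx)
  change w₂.valuation M₂ (σ₂ (j x) - (j x) ^ q) < 1 at h1
  rw [hc, ← map_pow, ← map_sub] at h1
  exact (h _).2.1 h1

private theorem B1_inv {w w' : Pr L} {τ : L ≃ₐ[K] L}
    (hτ : ∀ x, w'.valuation L (τ x) = w.valuation L x) (x : L) :
    w.valuation L (τ⁻¹ x) = w'.valuation L x := by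
  rw [← hτ]
  exact congrArg _ (AlgEquiv.apply_symm_apply τ x)

theorem IsInert.conj_toK {w w' : Pr L} {τ σ : L ≃ₐ[K] L}
    (hτ : ∀ x, w'.valuation L (τ x) = w.valuation L x) (hσ : IsInert w σ) :
    IsInert w' (τ * σ * τ⁻¹) := by
  have hτ' := B1_inv hτ
  refine ⟨fun x => ?_, fun x hx => ?_⟩
  · change w'.valuation L (τ (σ (τ⁻¹ x))) = w'.valuation L x
    have h1 : w.valuation L (σ (τ⁻¹ x)) = w.valuation L (τ⁻¹ x) := hσ.1 _
    rw [hτ, h1, hτ']
  · change w'.valuation L (τ (σ (τ⁻¹ x)) - x) < 1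
    have h1 : x = τ (τ⁻¹ x) := (AlgEquiv.apply_symm_apply τ x).symm
    have h2 : τ (σ (τ⁻¹ x)) - x = τ (σ (τ⁻¹ x) - τ⁻¹ x) := by
      rw [map_sub, ← h1]
    rw [h2, hτ]
    refine hσ.2 _ ?_
    rw [hτ']
    exact hx

theorem IsFrob.conj_toK {w w' : Pr L} {q : ℕ} {τ σ : L ≃ₐ[K] L}
    (hτ : ∀ x, w'.valuation L (τ x) = w.valuation L x) (hσ : IsFrob w q σ) :
    IsFrob w' q (τ * σ * τ⁻¹) := by
  have hτ' := B1_inv hτ
  refine ⟨fun x => ?_, fun x hx => ?_⟩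
  · change w'.valuation L (τ (σ (τ⁻¹ x))) = w'.valuation L x
    have h1 : w.valuation L (σ (τ⁻¹ x)) = w.valuation L (τ⁻¹ x) := hσ.1 _
    rw [hτ, h1, hτ']
  · change w'.valuation L (τ (σ (τ⁻¹ x)) - x ^ q) < 1
    have h1 : x = τ (τ⁻¹ x) := (AlgEquiv.apply_symm_apply τ x).symm
    have h2 : τ (σ (τ⁻¹ x)) - x ^ q = τ (σ (τ⁻¹ x) - (τ⁻¹ x) ^ q) := by
      rw [map_sub, map_pow, ← h1]
    rw [h2, hτ]
    refine hσ.2 _ ?_
    rw [hτ']
    exact hx

end

end Pool.Agent.RGK
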