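import Mathlib
import Pool.Agent.Lib.RG.G02
import Pool.Agent.Lib.RG.G03
import Pool.Agent.Lib.RG.H02
import Pool.Agent.Lib.RGK.BDefs
import Pool.Agent.Lib.RGK.B1

/-!
RG v4, row B2: conjugation of primes, Frobenius elements, lifting of inertia, in Galois extensions of `K`.
-/

set_option autoImplicit false

namespace Pool.Agent.RGK

open NumberField IsDedekindDomain
open Pool.Agent.RG (Above IsDec IsInert IsFrob Lies)
open Pool.Agent.RG.H (Pr below)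

section

variable {K L : Type} [Field K] [NumberField K] [Field L] [NumberField L] [Algebra K L]

theorem exists_conjK [IsGalois K L] {w w' : Pr L} (h : (below w : Pr K) = below w') :
    ∃ τ : L ≃ₐ[K] L, ∀ x, w'.valuation L (τ x) = w.valuation L x := by
  obtain ⟨σ, hσ⟩ := RG.H.exists_conj (K := K) w w' h
  refine ⟨σ⁻¹, fun x => ?_⟩
  rw [hσ]
  exact congrArg _ (AlgEquiv.apply_symm_apply σ x)

theorem exists_translateK (w : Pr L) (g : L ≃ₐ[K] L) :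
    ∃ w' : Pr L, (below w' : Pr K) = below w ∧ ∀ x, w'.valuation L (g x) = w.valuation L x := by
  obtain ⟨w', h1, h2⟩ := RG.H.exists_translate (K := K) w g⁻¹
  refine ⟨w', h1, fun x => ?_⟩
  rw [h2]
  exact congrArg _ (AlgEquiv.symm_apply_apply g x)

open Pool.Agent.RG.G03aux Pointwise in
theorem exists_frobK [IsGalois K L] (w : Pr L) :
    ∃ σ : L ≃ₐ[K] L, IsFrob w (nm (below w : Pr K)) σ := by
  have hfin : Finite (𝓞 L ⧸ w.asIdeal) := by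
    have := w.asIdeal.finiteQuotientOfFreeOfNeBot w.ne_bot
    exact this
  obtain ⟨σ, hσ⟩ := IsArithFrobAt.exists_of_isInvariant (𝓞 K) (L ≃ₐ[K] L) w.asIdeal
  have hcard : Nat.card (𝓞 K ⧸ w.asIdeal.under (𝓞 K)) = nm (below w : Pr K) := rfl
  have h0 : 0 < nm (below w : Pr K) := by
    have h1 : nm (below w : Pr K) ≠ 0 := by
      unfold nm
      rw [Ne, Ideal.absNorm_eq_zero_iff]
      exact (below w : Pr K).ne_bot
    exact Nat.pos_of_ne_zero h1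
  have h1 : ∀ x : 𝓞 L, σ • x - x ^ (nm (below w : Pr K)) ∈ w.asIdeal := fun x => by
    have := hσ x
    rw [hcard] at this
    exact this
  have hdec : IsDec w σ := fun x => val_eq (smul_eq fun x hx => by
    have h2 := h1 x
    have h3 : x ^ (nm (below w : Pr K)) ∈ w.asIdeal := w.asIdeal.pow_mem_of_mem hx _ h0
    have := w.asIdeal.add_mem h2 h3
    simpa using this) x
  refine ⟨σ, (RG.isFrob_iff_of_isDec hdec).2 fun x => ?_⟩
  have := (mem_iff w _).1 (h1 x)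
  simpa [coe_smul] using this

open Pool.Agent.RG.G03aux Pointwise in
/-- An element of the decomposition group acts on the residue field as a power. -/
private theorem B2_dec_pow [IsGalois K L] {w : Pr L} {σ : L ≃ₐ[K] L} (hσ : IsDec w σ) :
    ∃ k : ℕ, ∀ b : 𝓞 L, σ • b - b ^ (nm (below w : Pr K)) ^ k ∈ w.asIdeal := by
  classical
  have hmaxL : w.asIdeal.IsMaximal := w.isMaximal
  have hmaxK : (below w : Pr K).asIdeal.IsMaximal := (below w : Pr K).isMaximal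
  have hlies : w.asIdeal.LiesOver (below w : Pr K).asIdeal := ⟨rfl⟩
  let _ : Field (𝓞 L ⧸ w.asIdeal) := Ideal.Quotient.field w.asIdeal
  let _ : Field (𝓞 K ⧸ (below w : Pr K).asIdeal) := Ideal.Quotient.field (below w : Pr K).asIdeal
  have hfinL : Finite (𝓞 L ⧸ w.asIdeal) := Ideal.finiteQuotientOfFreeOfNeBot w.asIdeal w.ne_bot
  have hfinK : Finite (𝓞 K ⧸ (below w : Pr K).asIdeal) :=
    Ideal.finiteQuotientOfFreeOfNeBot (below w : Pr K).asIdeal (below w : Pr K).ne_bot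
  let _ : Fintype (𝓞 K ⧸ (below w : Pr K).asIdeal) := Fintype.ofFinite _
  have hQ : σ • w.asIdeal = w.asIdeal := smul_eq fun x hx => by
    rw [mem_iff] at hx ⊢
    have := hσ (x : L)
    rw [coe_smul, this]
    exact hx
  let f : (𝓞 L ⧸ w.asIdeal) ≃ₐ[𝓞 K ⧸ (below w : Pr K).asIdeal] (𝓞 L ⧸ w.asIdeal) :=
    AlgEquiv.ofRingEquiv (f := Ideal.quotientEquiv w.asIdeal w.asIdeal
      (MulSemiringAction.toRingEquiv (L ≃ₐ[K] L) (𝓞 L) σ) hQ.symm) (by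
        intro x
        obtain ⟨a, rfl⟩ := Ideal.Quotient.mk_surjective x
        change Ideal.Quotient.mk w.asIdeal (σ • algebraMap (𝓞 K) (𝓞 L) a) =
          Ideal.Quotient.mk w.asIdeal (algebraMap (𝓞 K) (𝓞 L) a)
        congr 1
        apply RingOfIntegers.ext
        exact σ.commutes (a : K))
  have hf : ∀ b : 𝓞 L, f (Ideal.Quotient.mk w.asIdeal b) = Ideal.Quotient.mk w.asIdeal (σ • b) :=
    fun b => rfl
  obtain ⟨k, hk⟩ := (FiniteField.bijective_frobeniusAlgEquivOfAlgebraic_pow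
    (𝓞 K ⧸ (below w : Pr K).asIdeal) (𝓞 L ⧸ w.asIdeal)).2 f
  refine ⟨k.1, fun b => ?_⟩
  have h1 := hf b
  have hk' : (FiniteField.frobeniusAlgEquivOfAlgebraic (𝓞 K ⧸ (below w : Pr K).asIdeal)
    (𝓞 L ⧸ w.asIdeal)) ^ k.1 = f := hk
  have hcard : Fintype.card (𝓞 K ⧸ (below w : Pr K).asIdeal) = nm (below w : Pr K) := by
    rw [← Nat.card_eq_fintype_card]
    rfl
  rw [← hk', AlgEquiv.coe_pow, FiniteField.coe_frobeniusAlgEquivOfAlgebraic_iterate, hcard] at h1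
  rw [← Ideal.Quotient.eq, map_pow]
  exact h1.symm

private theorem B2_frob_pow {w : Pr L} {φ : L ≃ₐ[K] L} {q : ℕ}
    (hφ : ∀ b : 𝓞 L, φ • b - b ^ q ∈ w.asIdeal) (k : ℕ) (b : 𝓞 L) :
    φ ^ k • b - b ^ q ^ k ∈ w.asIdeal := by
  induction k generalizing b with
  | zero => simp
  | succ k ih =>
    have h1 : φ ^ (k + 1) • b = φ ^ k • (φ • b) := by rw [pow_succ, mul_smul]
    have h2 := ih (φ • b)
    have h3 : (φ • b) ^ q ^ k - (b ^ q) ^ q ^ k ∈ w.asIdeal :=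
      w.asIdeal.mem_of_dvd (sub_dvd_pow_sub_pow _ _ _) (hφ b)
    have h4 : φ ^ (k + 1) • b - b ^ q ^ (k + 1) =
        (φ ^ k • (φ • b) - (φ • b) ^ q ^ k) + ((φ • b) ^ q ^ k - (b ^ q) ^ q ^ k) := by
      rw [h1, ← pow_mul b q (q ^ k), pow_succ, mul_comm (q ^ k) q]
      ring
    rw [h4]
    exact w.asIdeal.add_mem h2 h3

open Pool.Agent.RG.G03aux Pointwise in
theorem dec_frob [IsGalois K L] {w : Pr L} {φ σ : L ≃ₐ[K] L}
    (hφ : IsFrob w (nm (below w : Pr K)) φ) (hσ : IsDec w σ) : ∃ k : ℕ, IsInert w (σ⁻¹ * φ ^ k) := by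
  obtain ⟨k, hk⟩ := B2_dec_pow (K := K) hσ
  have hφ' : ∀ b : 𝓞 L, φ • b - b ^ (nm (below w : Pr K)) ∈ w.asIdeal := fun b => by
    rw [mem_iff]
    have := (RG.isFrob_iff_of_isDec hφ.1).1 hφ b
    simpa [coe_smul] using this
  have hdecφ : ∀ n : ℕ, IsDec w (φ ^ n) := by
    intro n
    induction n with
    | zero => rw [pow_zero]; exact RG.IsDec.one w
    | succ n ih => rw [pow_succ]; exact ih.mul hφ.1
  have hdec : IsDec w (σ⁻¹ * φ ^ k) := hσ.inv.mul (hdecφ k)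
  refine ⟨k, (RG.isInert_iff_of_isDec hdec).2 fun x => ?_⟩
  have h1 := w.asIdeal.sub_mem (B2_frob_pow hφ' k x) (hk x)
  have h2 : φ ^ k • x - σ • x ∈ w.asIdeal := by
    have e : φ ^ k • x - x ^ (nm (below w : Pr K)) ^ k - (σ • x - x ^ (nm (below w : Pr K)) ^ k) =
      φ ^ k • x - σ • x := by ring
    rwa [e] at h1
  rw [mem_iff] at h2
  have e1 : (σ⁻¹ * φ ^ k) • (x : L) - (x : L) = σ⁻¹ • (((φ ^ k • x - σ • x : 𝓞 L)) : L) := by
    have e2 : ((φ ^ k • x - σ • x : 𝓞 L) : L) = φ ^ k • (x : L) - σ • (x : L) := by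
      simp [coe_smul]
    rw [e2, smul_sub, inv_smul_smul, mul_smul]
  rw [e1, hσ.inv]
  exact h2

variable {M₁ M₂ : Type} [Field M₁] [NumberField M₁] [Field M₂] [NumberField M₂] [Algebra K M₁]
  [Algebra K M₂] [IsGalois K M₁] [IsGalois K M₂] {j : M₁ →ₐ[K] M₂} {w₂ : Pr M₂} {w₁ : Pr M₁}

open Pool.Agent.RG.G03aux Pointwise in
theorem exists_inert_liftK (h : LiesA j w₂ w₁) {σ₁ : M₁ ≃ₐ[K] M₁} (hσ : IsInert w₁ σ₁) :
    ∃ σ₂ : M₂ ≃ₐ[K] M₂, (∀ x, σ₂ (j x) = j (σ₁ x)) ∧ IsInert w₂ σ₂ := by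
  let : Algebra M₁ M₂ := (j : M₁ →+* M₂).toAlgebra
  have : IsScalarTower K M₁ M₂ := IsScalarTower.of_algebraMap_eq fun x => (j.commutes x).symm
  have : IsGalois M₁ M₂ := IsGalois.tower_top_of_isGalois K M₁ M₂
  -- the prime below
  have hu : ∀ a : 𝓞 M₁, algebraMap (𝓞 M₁) (𝓞 M₂) a ∈ w₂.asIdeal ↔ a ∈ w₁.asIdeal := fun a => by
    rw [mem_iff, mem_iff]
    have h1 : ((algebraMap (𝓞 M₁) (𝓞 M₂) a : 𝓞 M₂) : M₂) = j (a : M₁) := rfl
    rw [h1]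
    exact (h _).2
  have hunder : w₂.asIdeal.under (𝓞 M₁) = w₁.asIdeal := by
    ext a
    rw [Ideal.under_def, Ideal.mem_comap]
    exact hu a
  -- lift
  set σ : M₂ ≃ₐ[K] M₂ := AlgEquiv.liftNormal σ₁ M₂ with hσd
  have hσj : ∀ x, σ (j x) = j (σ₁ x) := fun x => AlgEquiv.liftNormal_commutes σ₁ M₂ x
  have hσa : ∀ a : 𝓞 M₁, σ • algebraMap (𝓞 M₁) (𝓞 M₂) a = algebraMap (𝓞 M₁) (𝓞 M₂) (σ₁ • a) := by
    intro a
    apply RingOfIntegers.ext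
    exact hσj a
  have hdec₁ : ∀ a : 𝓞 M₁, σ₁ • a ∈ w₁.asIdeal ↔ a ∈ w₁.asIdeal := fun a => by
    rw [mem_iff, mem_iff, coe_smul]
    exact (hσ.1 (a : M₁)) ▸ Iff.rfl
  have hin₁ : ∀ a : 𝓞 M₁, σ₁ • a - a ∈ w₁.asIdeal := fun a => by
    rw [mem_iff]
    have := hσ.2 (a : M₁) (w₁.valuation_le_one a)
    simpa [coe_smul] using this
  -- move the prime back
  have hpr : (σ • w₂.asIdeal).IsPrime := Ideal.IsPrime.smul _
  have hsu : (σ • w₂.asIdeal).under (𝓞 M₁) = w₂.asIdeal.under (𝓞 M₁) := by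
    ext a
    rw [Ideal.under_def, Ideal.mem_comap, Ideal.under_def, Ideal.mem_comap, hu,
      Ideal.mem_pointwise_smul_iff_inv_smul_mem]
    have h1 : σ⁻¹ • algebraMap (𝓞 M₁) (𝓞 M₂) a = algebraMap (𝓞 M₁) (𝓞 M₂) (σ₁⁻¹ • a) := by
      rw [inv_smul_eq_iff, hσa, smul_inv_smul]
    rw [h1, hu, ← hdec₁, smul_inv_smul]
  obtain ⟨τ, hτ⟩ := Algebra.IsInvariant.exists_smul_of_under_eq (𝓞 M₁) (𝓞 M₂) (M₂ ≃ₐ[M₁] M₂)
    (σ • w₂.asIdeal) w₂.asIdeal hsu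
  set τ' : M₂ ≃ₐ[K] M₂ := τ.restrictScalars K with hτd
  have hτs : ∀ b : 𝓞 M₂, τ' • b = τ • b := fun b => rfl
  have hτa : ∀ a : 𝓞 M₁, τ' • algebraMap (𝓞 M₁) (𝓞 M₂) a = algebraMap (𝓞 M₁) (𝓞 M₂) a := by
    intro a
    apply RingOfIntegers.ext
    exact τ.commutes (a : M₁)
  set π : M₂ ≃ₐ[K] M₂ := τ' * σ with hπd
  have hπQ : π • w₂.asIdeal = w₂.asIdeal := by
    rw [hπd, mul_smul]
    have h1 : τ' • (σ • w₂.asIdeal) = τ • (σ • w₂.asIdeal) := rfl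
    rw [h1, ← hτ]
  have hπa : ∀ a : 𝓞 M₁, π • algebraMap (𝓞 M₁) (𝓞 M₂) a = algebraMap (𝓞 M₁) (𝓞 M₂) (σ₁ • a) := by
    intro a
    rw [hπd, mul_smul, hσa, hτa]
  -- the action on the residue field
  have : w₂.asIdeal.LiesOver w₁.asIdeal := ⟨hunder.symm⟩
  let f : (𝓞 M₂ ⧸ w₂.asIdeal) ≃ₐ[𝓞 M₁ ⧸ w₁.asIdeal] (𝓞 M₂ ⧸ w₂.asIdeal) :=
    AlgEquiv.ofRingEquiv (f := Ideal.quotientEquiv w₂.asIdeal w₂.asIdeal
      (MulSemiringAction.toRingEquiv (M₂ ≃ₐ[K] M₂) (𝓞 M₂) π) hπQ.symm) (by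
        intro x
        obtain ⟨a, rfl⟩ := Ideal.Quotient.mk_surjective x
        have h1 : algebraMap (𝓞 M₁ ⧸ w₁.asIdeal) (𝓞 M₂ ⧸ w₂.asIdeal)
            (Ideal.Quotient.mk w₁.asIdeal a) =
            Ideal.Quotient.mk w₂.asIdeal (algebraMap (𝓞 M₁) (𝓞 M₂) a) := rfl
        rw [h1]
        change Ideal.Quotient.mk w₂.asIdeal (π • algebraMap (𝓞 M₁) (𝓞 M₂) a) = _
        rw [hπa, Ideal.Quotient.eq, ← map_sub, hu]
        exact hin₁ a)
  obtain ⟨ρ, hρ⟩ := Ideal.Quotient.stabilizerHom_surjective (M₂ ≃ₐ[M₁] M₂) w₁.asIdeal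
    w₂.asIdeal f
  have hρf : ∀ b : 𝓞 M₂, π • b - ρ.1 • b ∈ w₂.asIdeal := fun b => by
    rw [← Ideal.Quotient.eq]
    exact (DFunLike.congr_fun hρ (Ideal.Quotient.mk w₂.asIdeal b)).symm
  set ρ' : M₂ ≃ₐ[K] M₂ := ρ.1.restrictScalars K with hρd
  have hρs : ∀ b : 𝓞 M₂, ρ' • b = ρ.1 • b := fun b => rfl
  have hρQ : ρ'⁻¹ • w₂.asIdeal = w₂.asIdeal := by
    rw [inv_smul_eq_iff]
    exact ρ.2.symm
  set σ₂ : M₂ ≃ₐ[K] M₂ := ρ'⁻¹ * π with hσ₂d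
  have hin₂ : ∀ b : 𝓞 M₂, σ₂ • b - b ∈ w₂.asIdeal := fun b => by
    have h1 : σ₂ • b - b = ρ'⁻¹ • (π • b - ρ.1 • b) := by
      rw [smul_sub, hσ₂d, mul_smul, ← hρs, inv_smul_smul]
    rw [h1]
    have h2 : ρ'⁻¹ • (π • b - ρ.1 • b) ∈ ρ'⁻¹ • w₂.asIdeal :=
      Ideal.smul_mem_pointwise_smul _ _ _ (hρf b)
    exact hρQ.le h2
  have hdec₂ : IsDec w₂ σ₂ := fun x => val_eq (smul_eq fun x hx => by
    have := w₂.asIdeal.add_mem (hin₂ x) hx
    simpa using this) x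
  refine ⟨σ₂, fun x => ?_, (RG.isInert_iff_of_isDec hdec₂).2 fun x => ?_⟩
  · have h1 : π (j x) = j (σ₁ x) := by
      change τ (σ (j x)) = _
      rw [hσj]
      exact τ.commutes (σ₁ x)
    change ρ'⁻¹ (π (j x)) = _
    rw [h1]
    have h2 : ρ' (j (σ₁ x)) = j (σ₁ x) := ρ.1.commutes (σ₁ x)
    conv_lhs => rw [← h2]
    exact ρ'.symm_apply_apply _
  · have := (mem_iff w₂ _).1 (hin₂ x)
    simpa [coe_smul] using this

end

end Pool.Agent.RGK
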