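import Mathlib
import Pool.Agent.Lib.RG.E30
import Pool.Agent.Lib.RG.E33
import Pool.Agent.Lib.RGK.BDefs

/-!
RG v4, row B4: restriction to Galois subextensions of `K` and compositum: copy E30
(`exists_compositum`; the private theorem `e30_gen` there is already relative) and E33
(`exists_restr`), replacing `ℚ` by `K`.
-/

set_option autoImplicit false

namespace Pool.Agent.RGK

open NumberField IsDedekindDomain

private theorem b4_gen (k N F : Type) [Field k] [Field N] [Field F] [Algebra k N] [Algebra k F]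
    [FiniteDimensional k N] [FiniteDimensional k F] [IsGalois k N] [IsGalois k F] :
    ∃ (K : Type) (_ : Field K) (_ : Algebra k K) (_ : FiniteDimensional k K) (_ : IsGalois k K)
      (i₁ : N →ₐ[k] K) (i₂ : F →ₐ[k] K),
      ∀ g : K ≃ₐ[k] K, (∀ x, g (i₁ x) = i₁ x) → (∀ x, g (i₂ x) = i₂ x) → g = 1 := by
  let Ω := AlgebraicClosure k
  let e₁ : N →ₐ[k] Ω := IsAlgClosed.lift
  let e₂ : F →ₐ[k] Ω := IsAlgClosed.lift
  let K₁ : IntermediateField k Ω := e₁.fieldRange
  let K₂ : IntermediateField k Ω := e₂.fieldRange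
  have hg₁ : IsGalois k K₁ := IsGalois.of_algEquiv (AlgEquiv.ofInjectiveField e₁)
  have hg₂ : IsGalois k K₂ := IsGalois.of_algEquiv (AlgEquiv.ofInjectiveField e₂)
  have hf₁ : FiniteDimensional k K₁ :=
    (AlgEquiv.ofInjectiveField e₁).toLinearEquiv.finiteDimensional
  have hf₂ : FiniteDimensional k K₂ :=
    (AlgEquiv.ofInjectiveField e₂).toLinearEquiv.finiteDimensional
  let K : IntermediateField k Ω := K₁ ⊔ K₂
  have hf : FiniteDimensional k K := IntermediateField.finiteDimensional_sup K₁ K₂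
  have hg : IsGalois k K := inferInstanceAs (IsGalois k ↥(K₁ ⊔ K₂))
  let i₁ : N →ₐ[k] K := (IntermediateField.inclusion (le_sup_left : K₁ ≤ K)).comp
    (AlgEquiv.ofInjectiveField e₁).toAlgHom
  let i₂ : F →ₐ[k] K := (IntermediateField.inclusion (le_sup_right : K₂ ≤ K)).comp
    (AlgEquiv.ofInjectiveField e₂).toAlgHom
  refine ⟨K, inferInstance, inferInstance, hf, hg, i₁, i₂, ?_⟩
  intro g h1 h2
  let L : IntermediateField k Ω :=
    IntermediateField.map K.val (IntermediateField.fixedField (Subgroup.zpowers g))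
  have hL : ∀ z : K, g z = z → (z : Ω) ∈ L := by
    intro z hz
    refine ⟨z, ?_, rfl⟩
    change z ∈ IntermediateField.fixedField (Subgroup.zpowers g)
    rw [IntermediateField.mem_fixedField_iff]
    intro f hf
    have h3 : Subgroup.zpowers g ≤ MulAction.stabilizer (K ≃ₐ[k] K) z := by
      rw [Subgroup.zpowers_le]
      exact hz
    exact h3 hf
  have h3 : K ≤ L := by
    refine sup_le ?_ ?_
    · rintro _ ⟨x, rfl⟩
      exact hL (i₁ x) (h1 x)
    · rintro _ ⟨x, rfl⟩
      exact hL (i₂ x) (h2 x)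
  ext x
  obtain ⟨z, hz, hzx⟩ := h3 x.2
  have hzx' : z = x := Subtype.ext hzx
  subst hzx'
  have hz' : z ∈ IntermediateField.fixedField (Subgroup.zpowers g) := hz
  rw [IntermediateField.mem_fixedField_iff] at hz'
  rw [hz' g (Subgroup.mem_zpowers g), AlgEquiv.one_apply]

private theorem b4_restr {K L N : Type} [Field K] [Field L] [Algebra K L] [IsGalois K L] [Field N]
    [Algebra K N] [IsGalois K N] (i : L →ₐ[K] N) :
    ∃ r : (N ≃ₐ[K] N) →* (L ≃ₐ[K] L), (∀ g x, g (i x) = i (r g x)) ∧ Function.Surjective r := by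
  let _ : Algebra L N := i.toRingHom.toAlgebra
  have _ : IsScalarTower K L N := IsScalarTower.of_algebraMap_eq (fun x => (i.commutes x).symm)
  refine ⟨AlgEquiv.restrictNormalHom L, ?_, AlgEquiv.restrictNormalHom_surjective N⟩
  intro g x
  exact (AlgEquiv.restrictNormal_commutes g L x).symm

theorem exists_restrK {K L N : Type} [Field K] [NumberField K] [Field L] [NumberField L]
    [Algebra K L] [IsGalois K L] [Field N] [NumberField N] [Algebra K N] (i : L →ₐ[K] N) :
    ∃ r : (N ≃ₐ[K] N) →* (L ≃ₐ[K] L), ∀ g x, g (i x) = i (r g x) := by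
  let _ : Algebra L N := i.toRingHom.toAlgebra
  have _ : IsScalarTower K L N := IsScalarTower.of_algebraMap_eq (fun x => (i.commutes x).symm)
  refine ⟨AlgEquiv.restrictNormalHom L, fun g x => ?_⟩
  exact (AlgEquiv.restrictNormal_commutes g L x).symm

theorem exists_compositumK (K N F : Type) [Field K] [NumberField K] [Field N] [NumberField N]
    [Algebra K N] [IsGalois K N] [Field F] [NumberField F] [Algebra K F] [IsGalois K F] :
    ∃ (R : Type) (_ : Field R) (_ : NumberField R) (_ : Algebra K R) (_ : IsGalois K R)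
      (i₁ : N →ₐ[K] R) (i₂ : F →ₐ[K] R) (r₁ : (R ≃ₐ[K] R) →* (N ≃ₐ[K] N))
      (r₂ : (R ≃ₐ[K] R) →* (F ≃ₐ[K] F)),
      (∀ g x, g (i₁ x) = i₁ (r₁ g x)) ∧ (∀ g x, g (i₂ x) = i₂ (r₂ g x)) ∧
      Function.Surjective r₁ ∧ Function.Surjective r₂ ∧
      ∀ g, r₁ g = 1 → r₂ g = 1 → g = 1 := by
  have hN : FiniteDimensional K N := Module.Finite.of_restrictScalars_finite ℚ K N
  have hF : FiniteDimensional K F := Module.Finite.of_restrictScalars_finite ℚ K F
  obtain ⟨R, fR, a, hf, hg, i₁, i₂, h⟩ := b4_gen K N F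
  have hR : NumberField R := NumberField.of_module_finite K R
  obtain ⟨r₁, hr₁, hs₁⟩ := b4_restr i₁
  obtain ⟨r₂, hr₂, hs₂⟩ := b4_restr i₂
  refine ⟨R, fR, hR, a, hg, i₁, i₂, r₁, r₂, hr₁, hr₂, hs₁, hs₂, ?_⟩
  intro g h1 h2
  refine h g (fun x => ?_) (fun x => ?_)
  · rw [hr₁, h1, AlgEquiv.one_apply]
  · rw [hr₂, h2, AlgEquiv.one_apply]

end Pool.Agent.RGK
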