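import Mathlib
import Pool.Agent.Lib.RG.RDefs
import Pool.Agent.Lib.RG.G07
import Pool.Agent.Lib.RG.K01
import Pool.Agent.Lib.RGK.BDefs
import Pool.Agent.Lib.RGK.B1
import Pool.Agent.Lib.RGK.B2
import Pool.Agent.Lib.RGK.B4

/-!
RG v4, row G01: the maximal `p`-extension of `K` unramified outside `T`: port of RG/G07 (`KS`, `MaxExt`,
`maxExt_KS`) from `ℚ` to `K`, with `maxExtP p T` (RG/RDefs) in the role of `KS p S`.

`unrP_iff`: `UnrP` (RDefs) and `UnrOutK` (BDefs) agree by `lies_iff_below` (B1).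
-/

set_option autoImplicit false

namespace Pool.Agent.RGK

open NumberField IsDedekindDomain
open Pool.Agent.RG (Above IsDec IsInert IsFrob Lies UnrP InCP maxExtP GP)
open Pool.Agent.RG.H (Pr below)

variable {K : Type} [Field K] [NumberField K]

theorem unrP_iff (T : Set (Pr K)) (L : Type) [Field L] [NumberField L] [Algebra K L] :
    UnrP T L ↔ UnrOutK T L := by
  constructor
  · intro h w hw σ hσ
    refine h w (fun v hv hl => hw ?_) σ hσ
    rw [(lies_iff_below w v).1 hl]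
    exact hv
  · intro h w hw σ hσ
    refine h w (fun hb => hw _ hb ((lies_iff_below w _).2 rfl)) σ hσ

/-- the characteristic properties of the maximal `p`-extension of `K` unramified outside `T` -/
structure MaxExtK (p : ℕ) (T : Set (Pr K)) (X : Type) [Field X] [Algebra K X] : Prop where
  gal : IsGalois K X
  deg : ∀ (L : IntermediateField K X) [NumberField L] [IsGalois K L],
    ∃ k, Module.finrank K L = p ^ k
  unr : ∀ (L : IntermediateField K X) [NumberField L] [IsGalois K L], UnrOutK T L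
  max : ∀ (M : Type) [Field M] [NumberField M] [Algebra K M] [IsGalois K M],
    (∃ k, Module.finrank K M = p ^ k) → UnrOutK T M → Nonempty (M →ₐ[K] X)

private theorem G01_sub {M₁ M₂ : Type} [Field M₁] [NumberField M₁] [Field M₂] [NumberField M₂]
    [Algebra K M₁] [Algebra K M₂] [IsGalois K M₁] [IsGalois K M₂] (j : M₁ →ₐ[K] M₂)
    {T : Set (Pr K)} (h : UnrOutK T M₂) : UnrOutK T M₁ := by
  intro w₁ hw₁ σ₁ hσ₁
  obtain ⟨w₂, hw₂⟩ := RG.exists_above (j : M₁ →+* M₂) w₁
  have hl : LiesA j w₂ w₁ := hw₂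
  obtain ⟨σ₂, hc, hσ₂⟩ := exists_inert_liftK hl hσ₁
  have h1 : σ₂ = 1 := h w₂ (by rw [LiesA.below_eq hl]; exact hw₁) σ₂ hσ₂
  refine AlgEquiv.ext fun x => ?_
  have h2 := hc x
  rw [h1, AlgEquiv.one_apply] at h2
  exact (j : M₁ →+* M₂).injective h2.symm

omit [NumberField K] in
private theorem G01_eq_one {M₁ M₂ : IntermediateField K (AlgebraicClosure K)}
    {σ : ↥(M₁ ⊔ M₂) ≃ₐ[K] ↥(M₁ ⊔ M₂)}
    (h₁ : ∀ (x : AlgebraicClosure K) (hx : x ∈ M₁),
      (σ ⟨x, (le_sup_left : M₁ ≤ M₁ ⊔ M₂) hx⟩ : AlgebraicClosure K) = x)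
    (h₂ : ∀ (x : AlgebraicClosure K) (hx : x ∈ M₂),
      (σ ⟨x, (le_sup_right : M₂ ≤ M₁ ⊔ M₂) hx⟩ : AlgebraicClosure K) = x) :
    σ = 1 := by
  have hn : Normal K (AlgebraicClosure K) := IsAlgClosure.normal K (AlgebraicClosure K)
  let τ : AlgebraicClosure K ≃ₐ[K] AlgebraicClosure K := σ.liftNormal (AlgebraicClosure K)
  have hτ : ∀ y : ↥(M₁ ⊔ M₂), τ (y : AlgebraicClosure K) = (σ y : AlgebraicClosure K) :=
    fun y => σ.liftNormal_commutes (AlgebraicClosure K) y
  have t₁ : τ ∈ M₁.fixingSubgroup := by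
    rw [IntermediateField.mem_fixingSubgroup_iff]
    intro x hx
    exact (hτ ⟨x, (le_sup_left : M₁ ≤ M₁ ⊔ M₂) hx⟩).trans (h₁ x hx)
  have t₂ : τ ∈ M₂.fixingSubgroup := by
    rw [IntermediateField.mem_fixingSubgroup_iff]
    intro x hx
    exact (hτ ⟨x, (le_sup_right : M₂ ≤ M₁ ⊔ M₂) hx⟩).trans (h₂ x hx)
  have t : τ ∈ (M₁ ⊔ M₂).fixingSubgroup := by
    rw [IntermediateField.fixingSubgroup_sup]
    exact ⟨t₁, t₂⟩
  rw [IntermediateField.mem_fixingSubgroup_iff] at t
  refine AlgEquiv.ext fun y => Subtype.ext ?_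
  exact (hτ y).symm.trans (t y y.2)

private theorem G01_finrank_dvd {M N : Type} [Field M] [NumberField M] [Field N] [NumberField N]
    [Algebra K M] [Algebra K N] (j : M →ₐ[K] N) : Module.finrank K M ∣ Module.finrank K N := by
  let _ : Algebra M N := (j : M →+* N).toAlgebra
  have _ : IsScalarTower K M N := IsScalarTower.of_algebraMap_eq fun x => (j.commutes x).symm
  exact ⟨_, (Module.finrank_mul_finrank K M N).symm⟩

private theorem G01_unr_res {M N : Type} [Field M] [NumberField M] [Field N] [NumberField N]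
    [Algebra K M] [Algebra K N] [IsGalois K M] {T : Set (Pr K)} (hM : UnrOutK T M)
    (j : M →ₐ[K] N) {w : Pr N} (hw : (below w : Pr K) ∉ T) {σ : N ≃ₐ[K] N}
    (hσ : IsInert w σ) (x : M) : σ (j x) = j x := by
  obtain ⟨w₁, hl⟩ := RG.exists_below (j : M →+* N) w
  have hl' : LiesA j w w₁ := hl
  obtain ⟨r, hr⟩ := exists_restrK j
  have h := hM w₁ (by rw [← LiesA.below_eq hl']; exact hw) (r σ)
    (IsInert.restrictK hl' (hr σ) hσ)
  rw [hr, h]
  rfl

private theorem G01_sup {p : ℕ} [Fact p.Prime] {T : Set (Pr K)}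
    {M₁ M₂ : IntermediateField K (AlgebraicClosure K)}
    (h₁ : InCP p T M₁) (h₂ : InCP p T M₂) : InCP p T (M₁ ⊔ M₂) := by
  obtain ⟨n₁, g₁, ⟨k₁, f₁⟩, u₁⟩ := h₁
  obtain ⟨n₂, g₂, ⟨k₂, f₂⟩, u₂⟩ := h₂
  have fd₁ : FiniteDimensional K M₁ := Module.Finite.of_restrictScalars_finite ℚ K M₁
  have fd₂ : FiniteDimensional K M₂ := Module.Finite.of_restrictScalars_finite ℚ K M₂
  have fd : FiniteDimensional K ↥(M₁ ⊔ M₂) := IntermediateField.finiteDimensional_sup M₁ M₂
  have nf : NumberField ↥(M₁ ⊔ M₂) := NumberField.of_module_finite K ↥(M₁ ⊔ M₂)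
  have nm₁ : Normal K M₁ := g₁.to_normal
  have nm₂ : Normal K M₂ := g₂.to_normal
  have nm : Normal K ↥(M₁ ⊔ M₂) :=
    @IntermediateField.normal_sup K (AlgebraicClosure K) _ _ _ M₁ M₂ nm₁ nm₂
  have gal : IsGalois K ↥(M₁ ⊔ M₂) := ⟨⟩
  rw [unrP_iff] at u₁ u₂
  let j₁ : M₁ →ₐ[K] ↥(M₁ ⊔ M₂) :=
    IntermediateField.inclusion (le_sup_left : M₁ ≤ M₁ ⊔ M₂)
  let j₂ : M₂ →ₐ[K] ↥(M₁ ⊔ M₂) :=
    IntermediateField.inclusion (le_sup_right : M₂ ≤ M₁ ⊔ M₂)
  have key : ∀ σ : ↥(M₁ ⊔ M₂) ≃ₐ[K] ↥(M₁ ⊔ M₂), (∀ x, σ (j₁ x) = j₁ x) →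
      (∀ x, σ (j₂ x) = j₂ x) → σ = 1 := by
    intro σ a b
    refine G01_eq_one (fun x hx => ?_) fun x hx => ?_
    · exact congrArg Subtype.val (a ⟨x, hx⟩)
    · exact congrArg Subtype.val (b ⟨x, hx⟩)
  refine ⟨nf, gal, ?_, ?_⟩
  · have hp : IsPGroup p (↥(M₁ ⊔ M₂) ≃ₐ[K] ↥(M₁ ⊔ M₂)) := by
      intro σ
      refine ⟨k₁ + k₂, key _ (fun x => ?_) fun x => ?_⟩
      · obtain ⟨r, hr⟩ := exists_restrK j₁
        have e : (r σ) ^ p ^ k₁ = 1 := by
          rw [← f₁, ← IsGalois.card_aut_eq_finrank]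
          exact pow_card_eq_one'
        rw [hr, map_pow, pow_add, pow_mul, e, one_pow]
        rfl
      · obtain ⟨r, hr⟩ := exists_restrK j₂
        have e : (r σ) ^ p ^ k₂ = 1 := by
          rw [← f₂, ← IsGalois.card_aut_eq_finrank]
          exact pow_card_eq_one'
        rw [hr, map_pow, pow_add, mul_comm, pow_mul, e, one_pow]
        rfl
    obtain ⟨k, hk⟩ := IsPGroup.iff_card.1 hp
    exact ⟨k, by rw [← hk, IsGalois.card_aut_eq_finrank]⟩
  · rw [unrP_iff]
    intro w hw σ hσ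
    exact key σ (G01_unr_res u₁ j₁ hw hσ) (G01_unr_res u₂ j₂ hw hσ)

private theorem G01_image {p : ℕ} [Fact p.Prime] {T : Set (Pr K)} {M : Type} [Field M]
    [NumberField M] [Algebra K M] [IsGalois K M] (hk : ∃ k, Module.finrank K M = p ^ k)
    (hu : UnrOutK T M) (f : M →ₐ[K] AlgebraicClosure K) : InCP p T f.fieldRange := by
  let e : M ≃ₐ[K] f.fieldRange := AlgEquiv.ofInjectiveField f
  have nf : NumberField f.fieldRange := NumberField.of_ringEquiv M f.fieldRange e.toRingEquiv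
  have hg : IsGalois K f.fieldRange := IsGalois.of_algEquiv e
  refine ⟨nf, hg, ?_, ?_⟩
  · obtain ⟨k, hk⟩ := hk
    exact ⟨k, by rw [← hk]; exact e.symm.toLinearEquiv.finrank_eq⟩
  · rw [unrP_iff]
    exact G01_sub (e.symm : f.fieldRange →ₐ[K] M) hu

private theorem G01_bot (p : ℕ) (T : Set (Pr K)) :
    InCP p T (⊥ : IntermediateField K (AlgebraicClosure K)) := by
  have fr : Module.finrank K (⊥ : IntermediateField K (AlgebraicClosure K)) = 1 :=
    IntermediateField.finrank_bot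
  have fd : FiniteDimensional K (⊥ : IntermediateField K (AlgebraicClosure K)) :=
    FiniteDimensional.of_finrank_pos (by rw [fr]; exact one_pos)
  have nf : NumberField (⊥ : IntermediateField K (AlgebraicClosure K)) :=
    NumberField.of_module_finite K (⊥ : IntermediateField K (AlgebraicClosure K))
  have gal : IsGalois K (⊥ : IntermediateField K (AlgebraicClosure K)) :=
    IsGalois.of_algEquiv (IntermediateField.botEquiv K (AlgebraicClosure K)).symm
  refine ⟨nf, gal, ⟨0, by rw [fr, pow_zero]⟩, ?_⟩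
  intro w hw σ hσ
  have hc : Nat.card ((⊥ : IntermediateField K (AlgebraicClosure K)) ≃ₐ[K]
      (⊥ : IntermediateField K (AlgebraicClosure K))) = 1 := by
    rw [IsGalois.card_aut_eq_finrank, fr]
  have : Subsingleton ((⊥ : IntermediateField K (AlgebraicClosure K)) ≃ₐ[K]
      (⊥ : IntermediateField K (AlgebraicClosure K))) := (Nat.card_eq_one_iff_unique.1 hc).1
  exact Subsingleton.elim _ _

private theorem G01_member {p : ℕ} [Fact p.Prime] {T : Set (Pr K)}
    (L : IntermediateField K (AlgebraicClosure K)) [FiniteDimensional K L]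
    (hL : L ≤ maxExtP p T) : ∃ M, InCP p T M ∧ L ≤ M := by
  obtain ⟨α, hα⟩ := Field.exists_primitive_element K L
  have hne : Nonempty {M : IntermediateField K (AlgebraicClosure K) // InCP p T M} :=
    ⟨⟨⊥, G01_bot p T⟩⟩
  have hdir : Directed (· ≤ ·)
      (fun M : {M : IntermediateField K (AlgebraicClosure K) // InCP p T M} =>
        (M : IntermediateField K (AlgebraicClosure K))) := by
    intro M N
    exact ⟨⟨M ⊔ N, G01_sup M.2 N.2⟩, le_sup_left, le_sup_right⟩
  have hmem : (α : AlgebraicClosure K) ∈ maxExtP p T := hL α.2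
  rw [maxExtP, sSup_eq_iSup'] at hmem
  have hmem' : (α : AlgebraicClosure K) ∈
    ((⨆ M : {M : IntermediateField K (AlgebraicClosure K) // InCP p T M},
      (M : IntermediateField K (AlgebraicClosure K))) :
      IntermediateField K (AlgebraicClosure K)) := hmem
  rw [← SetLike.mem_coe, IntermediateField.coe_iSup_of_directed hdir, Set.mem_iUnion] at hmem'
  obtain ⟨⟨M, hM⟩, hα'⟩ := hmem'
  refine ⟨M, hM, ?_⟩
  intro x hx
  have h1 : (⟨x, hx⟩ : L) ∈ (⊤ : IntermediateField K L) := trivial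
  rw [← hα] at h1
  have h2 : IntermediateField.adjoin K {α} ≤ M.comap L.val := by
    rw [IntermediateField.adjoin_simple_le_iff]
    exact hα'
  exact h2 h1

theorem maxExtK_maxExtP (p : ℕ) [Fact p.Prime] (T : Set (Pr K)) :
    MaxExtK p T (maxExtP p T) := by
  have hsub : ∀ (L : IntermediateField K (maxExtP p T)) [NumberField L],
      ∃ (M : IntermediateField K (AlgebraicClosure K)) (_ : L →ₐ[K] M), InCP p T M := by
    intro L hL
    let f : L →ₐ[K] AlgebraicClosure K := (maxExtP p T).val.comp L.val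
    let e : L ≃ₐ[K] f.fieldRange := AlgEquiv.ofInjectiveField f
    have fdL : FiniteDimensional K L := Module.Finite.of_restrictScalars_finite ℚ K L
    have fd : FiniteDimensional K f.fieldRange := e.toLinearEquiv.finiteDimensional
    obtain ⟨M, hM, hle⟩ := G01_member (p := p) (T := T) f.fieldRange (by
      rintro _ ⟨x, rfl⟩
      exact (x : maxExtP p T).2)
    exact ⟨M, (IntermediateField.inclusion hle).comp (e : L →ₐ[K] f.fieldRange), hM⟩
  refine ⟨?_, ?_, ?_, ?_⟩
  · have h : Normal K ↥(⨆ M : {M : IntermediateField K (AlgebraicClosure K) // InCP p T M},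
        (M : IntermediateField K (AlgebraicClosure K))) :=
      @IntermediateField.normal_iSup K (AlgebraicClosure K) _ _ _ _
        (fun M : {M : IntermediateField K (AlgebraicClosure K) // InCP p T M} =>
          (M : IntermediateField K (AlgebraicClosure K)))
        (fun M => M.2.choose_spec.1.to_normal)
    have nm : Normal K (maxExtP p T) := by
      rw [maxExtP, sSup_eq_iSup']
      exact h
    exact ⟨⟩
  · intro L _ _
    obtain ⟨M, j, nf, gal, ⟨k, hk⟩, hu⟩ := hsub L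
    have hd : Module.finrank K L ∣ p ^ k := by
      rw [← hk]
      exact G01_finrank_dvd j
    obtain ⟨i, -, hi⟩ := (Nat.dvd_prime_pow Fact.out).1 hd
    exact ⟨i, hi⟩
  · intro L _ _
    obtain ⟨M, j, nf, gal, hk, hu⟩ := hsub L
    rw [unrP_iff] at hu
    exact G01_sub j hu
  · intro M _ _ _ _ hk hu
    let f : M →ₐ[K] AlgebraicClosure K := IsAlgClosed.lift
    have hle : f.fieldRange ≤ maxExtP p T := le_sSup (G01_image hk hu f)
    let e : M ≃ₐ[K] f.fieldRange := AlgEquiv.ofInjectiveField f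
    exact ⟨(IntermediateField.inclusion hle).comp (e : M →ₐ[K] f.fieldRange)⟩

end Pool.Agent.RGK
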