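import Mathlib
import Pool.Agent.Lib.RG.G08
import Pool.Agent.Lib.RGK.BDefs
import Pool.Agent.Lib.RGK.G01

/-!
RG v4, row G02: infinite Galois theory of `X / K`: port of RG/G08 from `ℚ` to `K`. A finite extension of the
number field `K` is a number field (`NumberField.of_module_finite K L` or similar).
-/

set_option autoImplicit false

namespace Pool.Agent.RGK

open NumberField IsDedekindDomain
open Pool.Agent.RG (Above IsDec IsInert IsFrob Lies)
open Pool.Agent.RG.H (Pr below)

variable {K : Type} [Field K] [NumberField K] {X : Type} [Field X] [Algebra K X]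

private theorem G02_fin (L : IntermediateField K X) [NumberField L] : FiniteDimensional K L :=
  Module.Finite.of_restrictScalars_finite ℚ K L

section

variable [IsGalois K X]

private theorem G02_layer (U : Subgroup (X ≃ₐ[K] X)) [U.Normal]
    (hU : IsOpen (U : Set (X ≃ₐ[K] X))) :
    ∃ (L : IntermediateField K X), FiniteDimensional K L ∧ IsGalois K L ∧
      L.fixingSubgroup = U := by
  have hcl : IsClosed (U : Set (X ≃ₐ[K] X)) := Subgroup.isClosed_of_isOpen U hU
  let H : ClosedSubgroup (X ≃ₐ[K] X) := ⟨U, hcl⟩
  have h1 : (IntermediateField.fixedField (H : Subgroup (X ≃ₐ[K] X))).fixingSubgroup = U :=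
    InfiniteGalois.fixingSubgroup_fixedField H
  refine ⟨IntermediateField.fixedField (H : Subgroup (X ≃ₐ[K] X)), ?_, ?_, h1⟩
  · refine (InfiniteGalois.isOpen_iff_finite _).mp ?_
    rw [h1]
    exact hU
  · refine (InfiniteGalois.normal_iff_isGalois _).mp ?_
    rw [h1]
    infer_instance

/-- an open normal subgroup is the kernel of the restriction to a finite Galois extension -/
theorem exists_layerK (U : Subgroup (X ≃ₐ[K] X)) [U.Normal] (hU : IsOpen (U : Set (X ≃ₐ[K] X))) :
    ∃ (L : IntermediateField K X) (_ : NumberField L) (_ : IsGalois K L),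
      (∀ g : X ≃ₐ[K] X, AlgEquiv.restrictNormalHom L g = 1 ↔ g ∈ U) ∧
      U.index = Module.finrank K L := by
  obtain ⟨L, hfin, hgal, hL⟩ := G02_layer U hU
  have hnf : NumberField L := NumberField.of_module_finite K L
  refine ⟨L, hnf, hgal, ?_, ?_⟩
  · intro g
    have h := IntermediateField.restrictNormalHom_ker L
    rw [hL] at h
    rw [← h, MonoidHom.mem_ker]
  · rw [← hL]
    exact (IntermediateField.finrank_eq_fixingSubgroup_index X L).symm

theorem restrict_surjectiveK (L : IntermediateField K X) [IsGalois K L] :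
    Function.Surjective (AlgEquiv.restrictNormalHom L : (X ≃ₐ[K] X) →* (L ≃ₐ[K] L)) := by
  exact AlgEquiv.restrictNormalHom_surjective X

/-- the kernel of the restriction to a number field is open -/
theorem isOpen_ker_restrictK (L : IntermediateField K X) [NumberField L] [IsGalois K L] :
    IsOpen (((AlgEquiv.restrictNormalHom L : (X ≃ₐ[K] X) →* (L ≃ₐ[K] L)).ker :
      Set (X ≃ₐ[K] X))) := by
  have h : (AlgEquiv.restrictNormalHom L : (X ≃ₐ[K] X) →* (L ≃ₐ[K] L)).ker
      = L.fixingSubgroup := IntermediateField.restrictNormalHom_ker L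
  rw [h]
  haveI : FiniteDimensional K L := G02_fin L
  exact IntermediateField.fixingSubgroup_isOpen L

/-- the same for a number field which is only embedded into `X` -/
theorem exists_restrictK {M : Type} [Field M] [NumberField M] [Algebra K M] [IsGalois K M]
    (e : M →ₐ[K] X) :
    ∃ r : (X ≃ₐ[K] X) →* (M ≃ₐ[K] M), IsOpen (r.ker : Set (X ≃ₐ[K] X)) ∧
      Function.Surjective r ∧ ∀ g x, g (e x) = e (r g x) := by
  letI := e.toRingHom.toAlgebra
  haveI : IsScalarTower K M X := IsScalarTower.of_algebraMap_eq (fun x => (e.commutes x).symm)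
  have hr : ∀ (g : X ≃ₐ[K] X) (x : M), g (e x) = e (AlgEquiv.restrictNormalHom M g x) := by
    intro g x
    exact (AlgEquiv.restrictNormal_commutes g M x).symm
  refine ⟨AlgEquiv.restrictNormalHom M, ?_, AlgEquiv.restrictNormalHom_surjective X, hr⟩
  have hle : e.fieldRange.fixingSubgroup ≤
      (AlgEquiv.restrictNormalHom M : (X ≃ₐ[K] X) →* (M ≃ₐ[K] M)).ker := by
    intro g hg
    rw [MonoidHom.mem_ker]
    ext x
    have h1 : g (e x) = e x := by
      rw [IntermediateField.mem_fixingSubgroup_iff] at hg
      exact hg (e x) ⟨x, rfl⟩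
    have h2 := hr g x
    rw [h1] at h2
    exact (e.injective h2).symm
  haveI hM : FiniteDimensional K M := Module.Finite.of_restrictScalars_finite ℚ K M
  haveI : FiniteDimensional K e.fieldRange := by
    exact (AlgEquiv.ofInjectiveField e).toLinearEquiv.finiteDimensional
  exact Subgroup.isOpen_mono hle (IntermediateField.fixingSubgroup_isOpen e.fieldRange)

/-- elements which agree on all layers are equal -/
theorem eq_of_layersK {g h : X ≃ₐ[K] X}
    (H : ∀ (L : IntermediateField K X) [NumberField L] [IsGalois K L],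
      AlgEquiv.restrictNormalHom L g = AlgEquiv.restrictNormalHom L h) : g = h := by
  ext x
  let L := FiniteGaloisIntermediateField.adjoin K {x}
  have hx : x ∈ L.toIntermediateField := FiniteGaloisIntermediateField.subset_adjoin _ _ rfl
  haveI h0 : FiniteDimensional K L.toIntermediateField := L.finiteDimensional
  haveI h1 : NumberField L.toIntermediateField :=
    NumberField.of_module_finite K L.toIntermediateField
  haveI h2 : IsGalois K L.toIntermediateField := L.isGalois
  have h3 := H L.toIntermediateField
  have h4 : (AlgEquiv.restrictNormalHom L.toIntermediateField g ⟨x, hx⟩ : X) = g x :=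
    AlgEquiv.restrictNormal_commutes g L.toIntermediateField ⟨x, hx⟩
  have h5 : (AlgEquiv.restrictNormalHom L.toIntermediateField h ⟨x, hx⟩ : X) = h x :=
    AlgEquiv.restrictNormal_commutes h L.toIntermediateField ⟨x, hx⟩
  rw [← h4, ← h5, h3]

/-- layers are directed -/
theorem exists_layer_geK (L₁ L₂ : IntermediateField K X) [NumberField L₁] [NumberField L₂]
    [IsGalois K L₁] [IsGalois K L₂] :
    ∃ (L : IntermediateField K X) (_ : NumberField L) (_ : IsGalois K L), L₁ ≤ L ∧ L₂ ≤ L := by
  let M₁ : FiniteGaloisIntermediateField K X :=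
    { L₁ with finiteDimensional := G02_fin L₁, isGalois := inferInstance }
  let M₂ : FiniteGaloisIntermediateField K X :=
    { L₂ with finiteDimensional := G02_fin L₂, isGalois := inferInstance }
  let L := M₁ ⊔ M₂
  haveI h0 : FiniteDimensional K L.toIntermediateField := L.finiteDimensional
  haveI h1 : NumberField L.toIntermediateField :=
    NumberField.of_module_finite K L.toIntermediateField
  haveI h2 : IsGalois K L.toIntermediateField := L.isGalois
  refine ⟨L.toIntermediateField, h1, h2, ?_, ?_⟩
  · exact (le_sup_left : M₁ ≤ M₁ ⊔ M₂)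
  · exact (le_sup_right : M₂ ≤ M₁ ⊔ M₂)

end

theorem MaxExtK.pro_p {p : ℕ} {T : Set (Pr K)} (h : MaxExtK p T X) (U : Subgroup (X ≃ₐ[K] X))
    (hN : U.Normal) (hU : IsOpen (U : Set (X ≃ₐ[K] X))) : ∃ k, U.index = p ^ k := by
  haveI := h.gal
  obtain ⟨L, hnf, hgal, -, hidx⟩ := exists_layerK U hU
  rw [hidx]
  exact h.deg L

end Pool.Agent.RGK
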