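import Mathlib
import Pool.Agent.Lib.RG.G04
import Pool.Agent.Lib.RGK.BDefs
import Pool.Agent.Lib.RGK.B1
import Pool.Agent.Lib.RGK.B2

/-!
RG v4, row B3: tame inertia in Galois `p`-extensions of `K` (G04 with `ℚ`, `q` replaced by `K`,
`nm (below w)`).
-/

set_option autoImplicit false

namespace Pool.Agent.RGK

open NumberField IsDedekindDomain
open Pool.Agent.RG (Above IsDec IsInert IsFrob Lies inertiaGroup)
open Pool.Agent.RG.H (Pr below)

namespace B3aux

section

variable {K M : Type} [Field K] [Field M] [NumberField M] [Algebra K M]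
  {w : HeightOneSpectrum (𝓞 M)}

/-- one-units -/
def U1 (w : HeightOneSpectrum (𝓞 M)) (y : M) : Prop := w.valuation M (y - 1) < 1

theorem U1.val {y : M} (h : U1 w y) : w.valuation M y = 1 := by
  have h1 := (w.valuation M).map_one_add_of_lt (x := y - 1) h
  rwa [add_sub_cancel] at h1

theorem U1.ne {y : M} (h : U1 w y) : y ≠ 0 := by
  rintro rfl
  have := h.val
  simp at this

theorem U1.mul {y z : M} (hy : U1 w y) (hz : U1 w z) : U1 w (y * z) := by
  have h1 : y * z - 1 = y * (z - 1) + (y - 1) := by ring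
  unfold U1
  rw [h1]
  refine lt_of_le_of_lt ((w.valuation M).map_add _ _) (max_lt ?_ hy)
  rw [map_mul, hy.val, one_mul]
  exact hz

theorem U1.inv {y : M} (hy : U1 w y) : U1 w y⁻¹ := by
  have h1 : y⁻¹ - 1 = -((y - 1) * y⁻¹) := by
    have := hy.ne
    field_simp
    ring
  unfold U1
  rw [h1, Valuation.map_neg, map_mul, map_inv₀, hy.val, inv_one, mul_one]
  exact hy

theorem U1.one : U1 w (1 : M) := by
  unfold U1
  rw [sub_self, map_zero]
  exact zero_lt_one

theorem U1.pow {y : M} (hy : U1 w y) (n : ℕ) : U1 w (y ^ n) := by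
  induction n with
  | zero => rw [pow_zero]; exact U1.one
  | succ n ih => rw [pow_succ]; exact ih.mul hy

theorem U1.zpow {y : M} (hy : U1 w y) (n : ℤ) : U1 w (y ^ n) := by
  cases n with
  | ofNat n => rw [Int.ofNat_eq_natCast, zpow_natCast]; exact hy.pow n
  | negSucc n => rw [zpow_negSucc]; exact (hy.pow _).inv

variable {t s : M ≃ₐ[K] M}

theorem dec_val (ht : IsDec w t) (x : M) : w.valuation M (t x) = w.valuation M x := ht x

theorem unit_U1 (ht : IsInert w t) {x : M} (hx : w.valuation M x = 1) : U1 w (t x / x) := by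
  have hx0 : x ≠ 0 := by rintro rfl; simp at hx
  have h1 : t x / x - 1 = (t x - x) / x := by field_simp
  unfold U1
  rw [h1, map_div₀, hx, div_one]
  exact ht.2 x hx.le

/-- `t x / x` modulo one-units only depends on the value of `x` -/
theorem ratio_U1 (ht : IsInert w t) {x y : M} (hx : x ≠ 0)
    (h : w.valuation M x = w.valuation M y) : U1 w ((t x / x) / (t y / y)) := by
  have hvx : w.valuation M x ≠ 0 := (Valuation.ne_zero_iff _).2 hx
  have hy : y ≠ 0 := by
    rintro rfl
    rw [map_zero] at h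
    exact hvx h
  have h1 : w.valuation M (x / y) = 1 := by
    rw [map_div₀, h, div_self (h ▸ hvx)]
  have h2 := unit_U1 ht h1
  have h3 : t (x / y) / (x / y) = (t x / x) / (t y / y) := by
    rw [map_div₀]
    have : t y ≠ 0 := by simpa using hy
    field_simp
  rwa [h3] at h2

theorem wild_of_unif {π : M} (hπ : w.valuation M π = WithZero.exp (-1 : ℤ)) (ht : IsInert w t)
    (h : U1 w (t π / π)) {x : M} (hx : x ≠ 0) : w.valuation M (t x - x) < w.valuation M x := by
  have hπ0 : π ≠ 0 := by
    rintro rfl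
    rw [map_zero] at hπ
    exact WithZero.exp_ne_zero hπ.symm
  have hvx : w.valuation M x ≠ 0 := (Valuation.ne_zero_iff _).2 hx
  obtain ⟨n, hn⟩ : ∃ n : ℤ, w.valuation M x = WithZero.exp n :=
    ⟨WithZero.log (w.valuation M x), (WithZero.exp_log hvx).symm⟩
  have h1 : w.valuation M (x / π ^ (-n)) = 1 := by
    rw [map_div₀, map_zpow₀, hπ, hn, ← WithZero.exp_zsmul]
    have : -n • (-1 : ℤ) = n := by simp
    rw [this, div_self WithZero.exp_ne_zero]
  have h2 := unit_U1 ht h1
  have h3 := h.zpow (-n)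
  have h4 : t x / x = t (x / π ^ (-n)) / (x / π ^ (-n)) * (t π / π) ^ (-n) := by
    rw [map_div₀, map_zpow₀, div_zpow]
    have e1 : t π ≠ 0 := by simpa using hπ0
    have e2 : (t π) ^ (-n) ≠ 0 := zpow_ne_zero _ e1
    have e3 : π ^ (-n) ≠ 0 := zpow_ne_zero _ hπ0
    generalize (t π) ^ (-n) = A at *
    generalize π ^ (-n) = B at *
    field_simp
  have h5 : U1 w (t x / x) := by
    rw [h4]; exact h2.mul h3
  have h6 : t x - x = x * (t x / x - 1) := by field_simp
  rw [h6, map_mul]
  exact mul_lt_of_lt_one_right (lt_of_le_of_ne zero_le hvx.symm) h5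

theorem wild_pow (h : ∀ x : M, x ≠ 0 → w.valuation M (t x - x) < w.valuation M x) (n : ℕ) :
    ∀ x : M, x ≠ 0 → w.valuation M ((t ^ n) x - x) < w.valuation M x := by
  induction n with
  | zero =>
    intro x hx
    simp only [pow_zero, AlgEquiv.one_apply, sub_self, map_zero]
    exact lt_of_le_of_ne zero_le ((Valuation.ne_zero_iff _).2 hx).symm
  | succ n ih =>
    intro x hx
    have hval : w.valuation M (t x) = w.valuation M x := by
      have := (w.valuation M).map_add_eq_of_lt_left (x := x) (y := t x - x) (h x hx)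
      rwa [add_sub_cancel] at this
    have htx : t x ≠ 0 := by simpa using hx
    have h1 : (t ^ (n + 1)) x - x = ((t ^ n) (t x) - t x) + (t x - x) := by
      rw [pow_succ, AlgEquiv.mul_apply]; ring
    rw [h1]
    refine lt_of_le_of_lt ((w.valuation M).map_add _ _) (max_lt ?_ (h x hx))
    rw [← hval]
    exact ih _ htx

theorem wild_order_p {p : ℕ} (hp : w.valuation M (p : M) = 1)
    (h : ∀ x : M, x ≠ 0 → w.valuation M (t x - x) < w.valuation M x) (htp : t ^ p = 1) :
    t = 1 := by
  by_contra hne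
  obtain ⟨x, hx⟩ : ∃ x, t x ≠ x := by
    by_contra hcon
    push Not at hcon
    exact hne (AlgEquiv.ext fun x => by simpa using hcon x)
  set y := t x - x with hy
  have hy0 : y ≠ 0 := sub_ne_zero.2 hx
  have h1 : ∑ i ∈ Finset.range p, (t ^ i) y = 0 := by
    have h2 : ∀ i : ℕ, (t ^ i) y = (t ^ (i + 1)) x - (t ^ i) x := by
      intro i
      rw [hy, map_sub, pow_succ, AlgEquiv.mul_apply]
    simp_rw [h2]
    rw [Finset.sum_range_sub (fun i => (t ^ i) x), htp]
    simp
  have h3 : (p : M) * y = -∑ i ∈ Finset.range p, ((t ^ i) y - y) := by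
    rw [Finset.sum_sub_distrib, h1]
    simp
  have h4 : w.valuation M (∑ i ∈ Finset.range p, ((t ^ i) y - y)) < w.valuation M y :=
    (w.valuation M).map_sum_lt ((Valuation.ne_zero_iff _).2 hy0)
      fun i _ => wild_pow h i y hy0
  have h5 : w.valuation M ((p : M) * y) < w.valuation M y := by
    rw [h3, Valuation.map_neg]; exact h4
  rw [map_mul, hp, one_mul] at h5
  exact lt_irrefl _ h5

theorem wild_eq_one {p : ℕ} (hp : w.valuation M (p : M) = 1) (k : ℕ) :
    ∀ t : M ≃ₐ[K] M, (∀ x : M, x ≠ 0 → w.valuation M (t x - x) < w.valuation M x) →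
      t ^ (p ^ k) = 1 → t = 1 := by
  induction k with
  | zero =>
    intro t _ h
    simpa using h
  | succ k ih =>
    intro t h htp
    refine wild_order_p hp h (ih (t ^ p) (wild_pow h p) ?_)
    rw [← pow_mul, ← pow_succ']
    exact htp

theorem mem_max {a : (w.valuation M).valuationSubring} :
    a ∈ IsLocalRing.maximalIdeal (w.valuation M).valuationSubring ↔
      w.valuation M (a : M) < 1 := by
  rw [ValuationSubring.valuation_lt_one_iff]
  exact ((w.valuation M).isEquiv_valuation_valuationSubring.lt_one_iff_lt_one).symm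

theorem residue_eq {a b : (w.valuation M).valuationSubring} :
    IsLocalRing.residue _ a = IsLocalRing.residue _ b ↔
      w.valuation M ((a : M) - (b : M)) < 1 :=
  (Ideal.Quotient.eq (I := IsLocalRing.maximalIdeal (w.valuation M).valuationSubring)).trans
    (mem_max (a := a - b))

theorem ratio_val (ht : IsDec w t) {π : M} (hπ : π ≠ 0) : w.valuation M (t π / π) = 1 := by
  rw [map_div₀, dec_val ht, div_self ((Valuation.ne_zero_iff _).2 hπ)]

/-- the tame character -/
noncomputable def theta (w : HeightOneSpectrum (𝓞 M)) {π : M} (hπ : π ≠ 0) :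
    inertiaGroup (M ≃ₐ[K] M) w →*
      IsLocalRing.ResidueField (w.valuation M).valuationSubring where
  toFun g := IsLocalRing.residue _ ⟨(g : M ≃ₐ[K] M) π / π, (ratio_val g.2.1 hπ).le⟩
  map_one' := by
    rw [← map_one (IsLocalRing.residue (w.valuation M).valuationSubring), residue_eq]
    simp [hπ]
  map_mul' := by
    rintro ⟨g, hg⟩ ⟨h, hh⟩
    rw [← map_mul, residue_eq]
    change w.valuation M (g (h π) / π - g π / π * (h π / π)) < 1
    have hg0 : g π ≠ 0 := by simpa using hπ
    have h1 : g (h π) / π - g π / π * (h π / π) = g π / π * (g (h π / π) - h π / π) := by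
      rw [map_div₀]
      field_simp
    rw [h1, map_mul, ratio_val hg.1 hπ, one_mul]
    exact hg.2 _ (ratio_val hh.1 hπ).le

theorem theta_eq_one {π : M} (hπ : π ≠ 0) {g : inertiaGroup (M ≃ₐ[K] M) w}
    (h : theta w hπ g = 1) : U1 w ((g : M ≃ₐ[K] M) π / π) := by
  rw [← map_one (IsLocalRing.residue (w.valuation M).valuationSubring)] at h
  exact residue_eq.1 h

theorem val_p {p : ℕ} (h : ¬ Above w p) : w.valuation M (p : M) = 1 := by
  have h1 : w.valuation M (algebraMap (𝓞 M) M (p : 𝓞 M)) ≤ 1 := RG.G02aux.le_one w _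
  rw [map_natCast] at h1
  exact le_antisymm h1 (not_lt.1 h)

theorem pow_card {p : ℕ} [FiniteDimensional K M] [IsGalois K M] {k : ℕ}
    (hM : Module.finrank K M = p ^ k) (g : M ≃ₐ[K] M) : g ^ (p ^ k) = 1 := by
  rw [← hM, ← IsGalois.card_aut_eq_finrank]
  exact pow_card_eq_one'

end

end B3aux

open B3aux

variable {K M : Type} [Field K] [NumberField K] [Field M] [NumberField M] [Algebra K M]
  [IsGalois K M]

theorem exists_inert_generatorK {p k : ℕ} [Fact p.Prime] (hM : Module.finrank K M = p ^ k) {w : Pr M}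
    (hw : ¬ Above w p) :
    ∃ t : M ≃ₐ[K] M, ∀ σ : M ≃ₐ[K] M, IsInert w σ ↔ σ ∈ Subgroup.zpowers t := by
  obtain ⟨π, hπ⟩ := w.valuation_exists_uniformizer M
  have hπ0 : π ≠ 0 := by
    rintro rfl
    rw [map_zero] at hπ
    exact WithZero.exp_ne_zero hπ.symm
  have hinj : Function.Injective (theta (K := K) w hπ0) := by
    rw [injective_iff_map_eq_one]
    intro g hg
    have h1 := theta_eq_one hπ0 hg
    exact Subtype.ext (wild_eq_one (val_p hw) k _
      (fun x hx => wild_of_unif hπ g.2 h1 hx) (pow_card hM _))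
  have : IsCyclic (inertiaGroup (M ≃ₐ[K] M) w) :=
    isCyclic_of_injective_ringHom (theta (K := K) w hπ0) hinj
  obtain ⟨t, ht⟩ := IsCyclic.exists_generator (α := inertiaGroup (M ≃ₐ[K] M) w)
  refine ⟨t, fun σ => ⟨fun hσ => ?_, fun hσ => ?_⟩⟩
  · obtain ⟨n, hn⟩ := Subgroup.mem_zpowers_iff.1 (ht ⟨σ, hσ⟩)
    refine Subgroup.mem_zpowers_iff.2 ⟨n, ?_⟩
    have := congrArg Subtype.val hn
    simpa using this
  · obtain ⟨n, rfl⟩ := Subgroup.mem_zpowers_iff.1 hσ
    exact (t ^ n).2

theorem tame_relationK {p k : ℕ} [Fact p.Prime] (hM : Module.finrank K M = p ^ k) {w : Pr M}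
    (hw : ¬ Above w p) {s t : M ≃ₐ[K] M} (ht : IsInert w t)
    (hs : IsFrob w (nm (below w : Pr K)) s) : s * t * s⁻¹ = t ^ nm (below w : Pr K) := by
  set q := nm (below w : Pr K) with hq
  obtain ⟨π, hπ⟩ := w.valuation_exists_uniformizer M
  have hπ0 : π ≠ 0 := by
    rintro rfl
    rw [map_zero] at hπ
    exact WithZero.exp_ne_zero hπ.symm
  have hinj : Function.Injective (theta (K := K) w hπ0) := by
    rw [injective_iff_map_eq_one]
    intro g hg
    have h1 := theta_eq_one hπ0 hg
    exact Subtype.ext (wild_eq_one (val_p hw) k _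
      (fun x hx => wild_of_unif hπ g.2 h1 hx) (pow_card hM _))
  set T : inertiaGroup (M ≃ₐ[K] M) w := ⟨t, ht⟩ with hT
  set T' : inertiaGroup (M ≃ₐ[K] M) w := ⟨s * t * s⁻¹, ht.conj hs.1⟩ with hT'
  have key : T' = T ^ q := by
    apply hinj
    rw [map_pow]
    change IsLocalRing.residue _ _ = (IsLocalRing.residue _ _) ^ q
    rw [← map_pow, residue_eq]
    change w.valuation M ((s * t * s⁻¹) π / π - (t π / π) ^ q) < 1
    -- replace `π` by `s⁻¹ π`
    set π' := s⁻¹ π with hπ'
    have hsπ : s π' = π := by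
      rw [hπ', ← AlgEquiv.mul_apply, mul_inv_cancel, AlgEquiv.one_apply]
    have hπ'0 : π' ≠ 0 := by
      intro h0
      rw [h0, map_zero] at hsπ
      exact hπ0 hsπ.symm
    have hval : w.valuation M π' = w.valuation M π := by
      rw [← hsπ, dec_val hs.1]
    have e1 : (s * t * s⁻¹) π / π = s (t π' / π') := by
      rw [map_div₀, hsπ]
      rfl
    rw [e1]
    have h1 : w.valuation M (s (t π' / π') - (t π' / π') ^ q) < 1 :=
      hs.2 _ (ratio_val ht.1 hπ'0).le
    have h2 : U1 w (((t π' / π') / (t π / π)) ^ q) := (ratio_U1 ht hπ'0 hval).pow q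
    have h3 : (t π' / π') ^ q - (t π / π) ^ q =
        (t π / π) ^ q * (((t π' / π') / (t π / π)) ^ q - 1) := by
      have : t π / π ≠ 0 := div_ne_zero (by simpa using hπ0) hπ0
      have h4 : (t π / π) ^ q ≠ 0 := pow_ne_zero _ this
      rw [div_pow (t π' / π')]
      field_simp
    have h5 : w.valuation M ((t π' / π') ^ q - (t π / π) ^ q) < 1 := by
      rw [h3, map_mul, map_pow, ratio_val ht.1 hπ0, one_pow, one_mul]
      exact h2
    have h6 : s (t π' / π') - (t π / π) ^ q =
        (s (t π' / π') - (t π' / π') ^ q) + ((t π' / π') ^ q - (t π / π) ^ q) := by ring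
    rw [h6]
    exact lt_of_le_of_lt ((w.valuation M).map_add _ _) (max_lt h1 h5)
  have := congrArg Subtype.val key
  simpa [hT, hT'] using this

end Pool.Agent.RGK
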