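import Mathlib
import Pool.Agent.Lib.RG.G09
import Pool.Agent.Lib.RG.GX3
import Pool.Agent.Lib.RGK.BDefs
import Pool.Agent.Lib.RGK.B1
import Pool.Agent.Lib.RGK.B2
import Pool.Agent.Lib.RGK.B3
import Pool.Agent.Lib.RGK.G01
import Pool.Agent.Lib.RGK.G02

/-!
RG v4, row G03: compactness: inertia generators and Frobenius elements of the maximal extension: port of
RG/G09 (`InFr`, `exists_inFr`) from `ℚ`, `q` to `K`, `v`, `nm v` (B3: `exists_inert_generatorK`,
`tame_relationK`; B2: `exists_frobK`).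
`inFr_transport` is the port of `G11_transport` (RG/G11): the property for a number field which is only
embedded into `X`.
-/

set_option autoImplicit false

namespace Pool.Agent.RGK

open NumberField IsDedekindDomain
open Pool.Agent.RG (Above IsDec IsInert IsFrob Lies)
open Pool.Agent.RG.H (Pr below)

variable {K : Type} [Field K] [NumberField K] {X : Type} [Field X] [Algebra K X]

/-- On every layer `x` generates the inertia group and `y` is a Frobenius element of some prime
above `v`. -/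
def InFrK (v : Pr K) (x y : X ≃ₐ[K] X) : Prop :=
  ∀ (L : IntermediateField K X) [NumberField L] [IsGalois K L],
    ∃ w : Pr L, (below w : Pr K) = v ∧
      (∀ σ : L ≃ₐ[K] L, IsInert w σ ↔ σ ∈ Subgroup.zpowers (AlgEquiv.restrictNormalHom L x)) ∧
      IsFrob w (nm v) (AlgEquiv.restrictNormalHom L y)

namespace G03aux

/-- the condition of `InFrK` on one layer, for elements of the Galois group of the layer -/
def Good {M : Type} [Field M] [NumberField M] [Algebra K M] (v : Pr K) (s t : M ≃ₐ[K] M) : Prop :=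
  ∃ w : Pr M, (below w : Pr K) = v ∧
    (∀ σ : M ≃ₐ[K] M, IsInert w σ ↔ σ ∈ Subgroup.zpowers s) ∧ IsFrob w (nm v) t

theorem isInert_zpow {M : Type} [Field M] [NumberField M] [Algebra K M] {w : Pr M}
    {g : M ≃ₐ[K] M} (h : IsInert w g) (k : ℤ) : IsInert w (g ^ k) :=
  (RG.inertiaGroup (M ≃ₐ[K] M) w).zpow_mem (x := g) h k

theorem comm_restrict [Normal K X] {L₁ L : IntermediateField K X} [IsGalois K L₁] [IsGalois K L]
    (h : L₁ ≤ L) (g : X ≃ₐ[K] X) (x : L₁) :
    AlgEquiv.restrictNormalHom L g (IntermediateField.inclusion h x) =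
      IntermediateField.inclusion h (AlgEquiv.restrictNormalHom L₁ g x) := by
  apply Subtype.ext
  have h1 := AlgEquiv.restrictNormal_commutes g L (IntermediateField.inclusion h x)
  have h2 := AlgEquiv.restrictNormal_commutes g L₁ x
  exact h1.trans h2.symm

/-- the restriction to a layer -/
noncomputable abbrev res [Normal K X] (L : IntermediateField K X) [NumberField L] [IsGalois K L] :
    (X ≃ₐ[K] X) →* (L ≃ₐ[K] L) := AlgEquiv.restrictNormalHom L

theorem continuous_restrict [IsGalois K X] (L : IntermediateField K X) [NumberField L]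
    [h : IsGalois K L] : Continuous (res L) := by
  have : Normal K L := h.to_normal
  exact InfiniteGalois.restrictNormalHom_continuous L

theorem isClosed_good [IsGalois K X] (L : IntermediateField K X) [NumberField L] [IsGalois K L]
    (v : Pr K) : IsClosed {z : (X ≃ₐ[K] X) × (X ≃ₐ[K] X) | Good v (res L z.1) (res L z.2)} := by
  have hc := continuous_restrict (K := K) L
  have hc2 : Continuous fun z : (X ≃ₐ[K] X) × (X ≃ₐ[K] X) => (res L z.1, res L z.2) :=
    (hc.comp continuous_fst).prodMk (hc.comp continuous_snd)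
  have hfd : FiniteDimensional K L := Module.Finite.of_restrictScalars_finite ℚ K L
  have : DiscreteTopology (L ≃ₐ[K] L) := inferInstance
  exact (isClosed_discrete {u : (L ≃ₐ[K] L) × (L ≃ₐ[K] L) | Good v u.1 u.2}).preimage hc2

theorem not_above {L : Type} [Field L] [NumberField L] [Algebra K L] {v : Pr K} {p : ℕ}
    (hv : ¬ Above v p) {w : Pr L} (hw : (below w : Pr K) = v) : ¬ Above w p := by
  intro h
  rw [RG.H.above_iff (K := K), hw] at h
  exact hv h

theorem nonempty_good {p : ℕ} [Fact p.Prime] {T : Set (Pr K)} [IsGalois K X]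
    (hX : MaxExtK p T X) {v : Pr K} (hv : ¬ Above v p)
    (L : IntermediateField K X) [NumberField L] [IsGalois K L] :
    {z : (X ≃ₐ[K] X) × (X ≃ₐ[K] X) | Good v (res L z.1) (res L z.2)}.Nonempty := by
  obtain ⟨k, hk⟩ := hX.deg L
  obtain ⟨w, hw⟩ := RG.H.exists_above (L := L) v
  have hwp : ¬ Above w p := not_above hv hw
  obtain ⟨t, ht⟩ := exists_inert_generatorK (p := p) hk hwp
  obtain ⟨s, hs⟩ := exists_frobK (K := K) w
  obtain ⟨x, hx⟩ := restrict_surjectiveK (X := X) L t
  obtain ⟨y, hy⟩ := restrict_surjectiveK (X := X) L s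
  refine ⟨(x, y), w, hw, ?_, ?_⟩
  · show ∀ σ : L ≃ₐ[K] L, IsInert w σ ↔ σ ∈ Subgroup.zpowers (res L x)
    rw [show res L x = t from hx]
    exact ht
  · show IsFrob w (nm v) (res L y)
    rw [show res L y = s from hy, ← hw]
    exact hs

theorem zpow_comm {M₁ M : Type} [Field M₁] [Field M] [Algebra K M₁] [Algebra K M]
    {j : M₁ →ₐ[K] M} {σ₁ : M₁ ≃ₐ[K] M₁} {σ : M ≃ₐ[K] M} (h : ∀ x, σ (j x) = j (σ₁ x)) (k : ℤ)
    (x : M₁) : (σ ^ k) (j x) = j ((σ₁ ^ k) x) := by
  have hn : ∀ (n : ℕ) (x : M₁), (σ ^ n) (j x) = j ((σ₁ ^ n) x) := by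
    intro n
    induction n with
    | zero => intro x; simp
    | succ n ih =>
      intro x
      rw [pow_succ, pow_succ, AlgEquiv.mul_apply, AlgEquiv.mul_apply, h, ih]
  obtain ⟨n, rfl | rfl⟩ := k.eq_nat_or_neg
  · simpa using hn n x
  · rw [zpow_neg, zpow_neg, zpow_natCast, zpow_natCast]
    have h1 := hn n ((σ₁ ^ n)⁻¹ x)
    have h2 : (σ₁ ^ n) ((σ₁ ^ n)⁻¹ x) = x := by
      rw [← AlgEquiv.mul_apply, mul_inv_cancel, AlgEquiv.one_apply]
    rw [h2] at h1
    rw [← h1, ← AlgEquiv.mul_apply, inv_mul_cancel, AlgEquiv.one_apply]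

theorem good_restrict {M₁ M : Type} [Field M₁] [NumberField M₁] [Field M] [NumberField M]
    [Algebra K M₁] [Algebra K M] [IsGalois K M₁] [IsGalois K M] (j : M₁ →ₐ[K] M) {v : Pr K}
    {s t : M ≃ₐ[K] M} {s₁ t₁ : M₁ ≃ₐ[K] M₁} (hs : ∀ x, s (j x) = j (s₁ x))
    (ht : ∀ x, t (j x) = j (t₁ x)) (h : Good v s t) : Good v s₁ t₁ := by
  obtain ⟨w, hw, hin, hfr⟩ := h
  obtain ⟨w₁, hl⟩ := RG.exists_below (j : M₁ →+* M) w
  have hl' : LiesA j w w₁ := hl
  refine ⟨w₁, (LiesA.below_eq hl').symm.trans hw, ?_, IsFrob.restrictK hl' ht hfr⟩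
  intro σ
  constructor
  · intro hσ
    obtain ⟨σ₂, hc, hi⟩ := exists_inert_liftK hl' hσ
    obtain ⟨k, hk⟩ := Subgroup.mem_zpowers_iff.1 ((hin σ₂).1 hi)
    refine Subgroup.mem_zpowers_iff.2 ⟨k, ?_⟩
    ext x
    apply j.toRingHom.injective
    show j _ = j _
    rw [← hc x, ← hk, zpow_comm hs k x]
  · intro hσ
    obtain ⟨k, hk⟩ := Subgroup.mem_zpowers_iff.1 hσ
    have h1 : IsInert w (s ^ k) := isInert_zpow ((hin s).2 (Subgroup.mem_zpowers s)) k
    rw [← hk]
    exact IsInert.restrictK hl' (zpow_comm hs k) h1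

/-- index type of the layers -/
def Layer (K X : Type) [Field K] [NumberField K] [Field X] [Algebra K X] : Type :=
  {L : IntermediateField K X // NumberField L ∧ IsGalois K L}

/-- the pairs which are good on a layer -/
def T (v : Pr K) (L : Layer K X) [IsGalois K X] : Set ((X ≃ₐ[K] X) × (X ≃ₐ[K] X)) :=
  {z | ∃ (_ : NumberField L.1) (_ : IsGalois K L.1), Good v (res L.1 z.1) (res L.1 z.2)}

theorem T_eq [IsGalois K X] (v : Pr K) (L : Layer K X) [h1 : NumberField L.1]
    [h2 : IsGalois K L.1] : T v L = {z | Good v (res L.1 z.1) (res L.1 z.2)} := by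
  ext z
  constructor
  · rintro ⟨_, _, h⟩
    exact h
  · intro h
    exact ⟨h1, h2, h⟩

theorem isClosed_T (v : Pr K) (L : Layer K X) [IsGalois K X] : IsClosed (T v L) := by
  have := L.2.1
  have := L.2.2
  rw [T_eq]
  exact isClosed_good L.1 v

theorem nonempty_T {p : ℕ} [Fact p.Prime] {T₀ : Set (Pr K)} [IsGalois K X]
    (hX : MaxExtK p T₀ X) {v : Pr K} (hv : ¬ Above v p) (L : Layer K X) : (T v L).Nonempty := by
  have := L.2.1
  have := L.2.2
  rw [T_eq]
  exact nonempty_good hX hv L.1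

theorem T_mono (v : Pr K) [IsGalois K X] {L₁ L : Layer K X} (h : L₁.1 ≤ L.1) :
    T v L ⊆ T v L₁ := by
  have := L.2.1
  have := L.2.2
  have := L₁.2.1
  have := L₁.2.2
  rw [T_eq, T_eq]
  intro z hz
  exact good_restrict (IntermediateField.inclusion h : L₁.1 →ₐ[K] L.1)
    (fun x => comm_restrict h z.1 x) (fun x => comm_restrict h z.2 x) hz

end G03aux

open G03aux in
theorem exists_inFrK {p : ℕ} [Fact p.Prime] {T : Set (Pr K)} (hX : MaxExtK p T X) {v : Pr K}
    (hv : ¬ Above v p) : ∃ x y : X ≃ₐ[K] X, InFrK v x y ∧ y * x * y⁻¹ = x ^ nm v := by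
  have := hX.gal
  have hne : Nonempty (Layer K X) := by
    have hf : FiniteDimensional K (⊥ : IntermediateField K X) := inferInstance
    have hn : NumberField (⊥ : IntermediateField K X) := NumberField.of_module_finite K _
    have hg : IsGalois K (⊥ : IntermediateField K X) := inferInstance
    exact ⟨⟨⊥, hn, hg⟩⟩
  have hdir : Directed (· ⊇ ·) (fun L : Layer K X => G03aux.T v L) := by
    intro L₁ L₂
    have := L₁.2.1
    have := L₁.2.2
    have := L₂.2.1
    have := L₂.2.2
    obtain ⟨L, h1, h2, h3, h4⟩ := exists_layer_geK L₁.1 L₂.1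
    exact ⟨⟨L, h1, h2⟩, T_mono v h3, T_mono v h4⟩
  obtain ⟨z, hz⟩ := IsCompact.nonempty_iInter_of_directed_nonempty_isCompact_isClosed
    (fun L : Layer K X => G03aux.T v L) hdir (fun L => nonempty_T hX hv L)
    (fun L => (isClosed_T v L).isCompact) (fun L => isClosed_T v L)
  rw [Set.mem_iInter] at hz
  have hgood : InFrK v z.1 z.2 := by
    intro L _ _
    obtain ⟨_, _, h⟩ := hz ⟨L, inferInstance, inferInstance⟩
    exact h
  refine ⟨z.1, z.2, hgood, ?_⟩
  apply eq_of_layersK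
  intro L _ _
  obtain ⟨w, hw, hin, hfr⟩ := hgood L
  obtain ⟨k, hk⟩ := hX.deg L
  rw [map_mul, map_mul, map_inv, map_pow]
  have hwp : ¬ Above w p := not_above hv hw
  rw [← hw] at hfr ⊢
  exact tame_relationK (p := p) hk hwp ((hin _).2 (Subgroup.mem_zpowers _)) hfr

theorem inFr_transport {M : Type} [Field M] [NumberField M] [Algebra K M] [IsGalois K M]
    (e : M →ₐ[K] X) {r : (X ≃ₐ[K] X) →* (M ≃ₐ[K] M)} (hr : ∀ g x, g (e x) = e (r g x)) {v : Pr K}
    {x y : X ≃ₐ[K] X} (h : InFrK v x y) :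
    ∃ w : Pr M, (below w : Pr K) = v ∧
      (∀ σ : M ≃ₐ[K] M, IsInert w σ ↔ σ ∈ Subgroup.zpowers (r x)) ∧ IsFrob w (nm v) (r y) := by
  let L : IntermediateField K X := e.fieldRange
  let ε : M ≃ₐ[K] L := AlgEquiv.ofInjectiveField e
  have hfinM : FiniteDimensional K M := Module.Finite.of_restrictScalars_finite ℚ K M
  have hfin : FiniteDimensional K L := LinearEquiv.finiteDimensional ε.toLinearEquiv
  have hnf : NumberField L := NumberField.of_module_finite K L
  have hgal : IsGalois K L := IsGalois.of_algEquiv ε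
  obtain ⟨w', hw1, hw2, hw3⟩ := h L
  let j : M →ₐ[K] L := ε.toAlgHom
  have hj : ∀ z, ((j z : L) : X) = e z := fun z => rfl
  obtain ⟨w, hw0⟩ := RG.exists_below (j : M →+* L) w'
  have hw : LiesA j w' w := hw0
  have hcomp : ∀ (g : X ≃ₐ[K] X) (z : M),
      AlgEquiv.restrictNormalHom L g (j z) = j (r g z) := by
    intro g z
    have h1 : ((AlgEquiv.restrictNormalHom L g (j z) : L) : X) = g ((j z : L) : X) :=
      AlgEquiv.restrictNormal_commutes g L (j z)
    apply Subtype.ext
    rw [h1, hj, hj, hr]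
  refine ⟨w, (LiesA.below_eq hw).symm.trans hw1, fun σ => ⟨fun hσ => ?_, ?_⟩,
    IsFrob.restrictK hw (hcomp y) hw3⟩
  · obtain ⟨σ', h1, h2⟩ := exists_inert_liftK hw hσ
    obtain ⟨n, hn⟩ := Subgroup.mem_zpowers_iff.1 ((hw2 σ').1 h2)
    refine Subgroup.mem_zpowers_iff.2 ⟨n, ?_⟩
    refine AlgEquiv.ext fun z => j.toRingHom.injective ?_
    show j _ = j _
    rw [← h1, ← hn, ← map_zpow, ← map_zpow, hcomp]
  · intro hσ
    obtain ⟨n, rfl⟩ := Subgroup.mem_zpowers_iff.1 hσ
    have h1 : IsInert w' (AlgEquiv.restrictNormalHom L (x ^ n)) := by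
      rw [hw2, map_zpow]
      exact Subgroup.mem_zpowers_iff.2 ⟨n, rfl⟩
    have h2 := IsInert.restrictK hw (hcomp (x ^ n)) h1
    rwa [map_zpow] at h2

end Pool.Agent.RGK
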