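import Mathlib
import Pool.Agent.Lib.RGK.CDefs

/-!
RG v4, PART C (class field theory modulo `p`), definitions for the proof of the reciprocity law: the
crossing of a cyclic extension `L / F` of degree `p` with a cyclotomic extension of degree `p ^ k` and
prime conductor `ℓ`.
-/

set_option autoImplicit false

namespace Pool.Agent.RGK

open NumberField IsDedekindDomain
open Pool.Agent.RG (Above IsDec IsInert IsFrob)
open Pool.Agent.RG.H (Pr vl UU PP SU below nrm emb)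

open Classical in
/-- The value of the character `lam` of `(ZMod ℓ)ˣ` at the number `n` (`0` if `n` is divisible by `ℓ`). -/
noncomputable def jj {ℓ m : ℕ} (lam : (ZMod ℓ)ˣ →* Multiplicative (ZMod m)) (n : ℕ) : ZMod m :=
  if h : IsUnit (n : ZMod ℓ) then Multiplicative.toAdd (lam h.unit) else 0

theorem jj_eq {ℓ m : ℕ} (lam : (ZMod ℓ)ˣ →* Multiplicative (ZMod m)) {n : ℕ} (u : (ZMod ℓ)ˣ)
    (hu : (u : ZMod ℓ) = n) : jj lam n = Multiplicative.toAdd (lam u) := by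
  have h : IsUnit (n : ZMod ℓ) := hu ▸ u.isUnit
  unfold jj
  rw [dif_pos h]
  congr 2
  ext
  rw [IsUnit.unit_spec, hu]

theorem jj_eq_zero {ℓ m : ℕ} (lam : (ZMod ℓ)ˣ →* Multiplicative (ZMod m)) {n : ℕ}
    (h : ¬ IsUnit (n : ZMod ℓ)) : jj lam n = 0 := dif_neg h

theorem jj_mul {ℓ m : ℕ} (lam : (ZMod ℓ)ˣ →* Multiplicative (ZMod m)) {a b : ℕ}
    (ha : IsUnit (a : ZMod ℓ)) (hb : IsUnit (b : ZMod ℓ)) : jj lam (a * b) = jj lam a + jj lam b := by
  obtain ⟨u, hu⟩ := ha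
  obtain ⟨v, hv⟩ := hb
  rw [jj_eq lam u hu, jj_eq lam v hv, jj_eq lam (u * v) (by rw [Units.val_mul, hu, hv, Nat.cast_mul]),
    map_mul, toAdd_mul]

/-- The natural number `ℓ ≠ 0` as an element of `Fˣ`. -/
noncomputable def nu (F : Type) [Field F] [NumberField F] (ℓ : ℕ) : Fˣ :=
  if h : ℓ = 0 then 1 else Units.mk0 (ℓ : F) (Nat.cast_ne_zero.2 h)

theorem nu_val {F : Type} [Field F] [NumberField F] {ℓ : ℕ} (h : ℓ ≠ 0) :
    ((nu F ℓ : Fˣ) : F) = (ℓ : F) := by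
  unfold nu
  rw [dif_neg h, Units.val_mk0]

/-- The crossing `M = L · F(ψ)` of a cyclic extension `L / F` of degree `p` (character `θ`) with the
cyclic extension of degree `p ^ k` of `F` which is contained in `F(ζ_ℓ)`. The two characters of
`Gal(M / F)` are `Θ` (from `θ`) and `Ψ`. `R` are the ramified primes of `L / F`, `A` the Frobenius values
of `θ`, and `lam` the character of `(ZMod ℓ)ˣ` which describes the Frobenius elements for `Ψ`. The dual
generators of `Gal(M / F)` are `σ` and `τ`. -/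
structure Cross (p k ℓ : ℕ) {F M : Type} [Field F] [NumberField F] [Field M] [NumberField M]
    [Algebra F M] (R : Set (Pr F)) (A : Pr F → ZMod p)
    (lam : (ZMod ℓ)ˣ →* Multiplicative (ZMod (p ^ k)))
    (Θ : (M ≃ₐ[F] M) →* Multiplicative (ZMod p))
    (Ψ : (M ≃ₐ[F] M) →* Multiplicative (ZMod (p ^ k))) (σ τ : M ≃ₐ[F] M) : Prop where
  inj : ∀ g : M ≃ₐ[F] M, Θ g = 1 → Ψ g = 1 → g = 1
  sθ : Θ σ = Multiplicative.ofAdd 1
  sψ : Ψ σ = 1
  tθ : Θ τ = 1
  tψ : Ψ τ = Multiplicative.ofAdd 1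
  unr_theta : ∀ w : Pr M, (below w : Pr F) ∉ R → ∀ g : M ≃ₐ[F] M, IsInert w g → Θ g = 1
  unr_psi : ∀ w : Pr M, ¬ Above w ℓ → ∀ g : M ≃ₐ[F] M, IsInert w g → Ψ g = 1
  ram_sigma : ∀ w : Pr M, (below w : Pr F) ∈ R → IsInert w σ
  ram_tau : ∀ w : Pr M, Above w ℓ → IsInert w τ
  frob_theta : ∀ w : Pr M, (below w : Pr F) ∉ R → ∀ g : M ≃ₐ[F] M,
    IsFrob w (nm (below w : Pr F)) g → Θ g = Multiplicative.ofAdd (A (below w))
  frob_psi : ∀ w : Pr M, ¬ Above w ℓ → ∀ g : M ≃ₐ[F] M,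
    IsFrob w (nm (below w : Pr F)) g → Ψ g = Multiplicative.ofAdd (jj lam (nm (below w : Pr F)))
  unif : ∃ ϖ : M, σ ϖ = ϖ ∧ ∏ t ∈ Finset.range (p ^ k), (τ ^ t) ϖ = (ℓ : M)

/-- The elements `β`, `γ` of `M` and `c` of `F` in the proof of the reciprocity law for `a`. -/
structure BG (p k : ℕ) {F M : Type} [Field F] [NumberField F] [Field M] [NumberField M]
    [Algebra F M] (σ τ : M ≃ₐ[F] M) (a c : Fˣ) (β γ : Mˣ) : Prop where
  nβ : ∏ i ∈ Finset.range p, (σ ^ i) (β : M) = algebraMap F M a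
  nγ : ∏ t ∈ Finset.range (p ^ k), (τ ^ t) (γ : M) = algebraMap F M c
  rel : τ (β : M) * γ = σ (γ : M) * β

end Pool.Agent.RGK
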