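import Mathlib
import Pool.Agent.Lib.RG.G01
import Pool.Agent.Lib.RG.H01
import Pool.Agent.Lib.RGK.CXDefs

/-!
RG v4, row C00: absolute norms of primes.

`nm_pow`: `𝓞 K ⧸ v` is a finite field with `nm v` elements (`Ideal.absNorm_apply`,
`Submodule.cardQuot_apply`), its characteristic is the prime number `q` in `v` (`RG.exists_prime_above`,
`FiniteField.card` or `CharP`). `nm_tower`: `𝓞 L ⧸ w` is a vector space of dimension `fd K w` over
`𝓞 K ⧸ below w` (`Ideal.inertiaDeg_eq_of_isMaximal`; or `Ideal.absNorm_relNorm` and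
`Ideal.relNorm_eq_pow_of_isMaximal`). `nm_mod`: for `v` not above `p` the elements `ζ ^ i` (`i < p`) are
different modulo `v` (`ζ ^ i - ζ ^ j` divides `p`), so the multiplicative group of the residue field has an
element of order `p` and `p` divides `nm v - 1`. `isUnit_nm`: `nm v` is prime to `ℓ` iff `v` is not above
`ℓ`. `one_lt_nm` is clear.
-/

set_option autoImplicit false

namespace Pool.Agent.RGK

open NumberField IsDedekindDomain
open Pool.Agent.RG (Above IsDec IsInert IsFrob)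
open Pool.Agent.RG.H (Pr vl UU PP emb below)

theorem one_lt_nm {K : Type} [Field K] [NumberField K] (v : Pr K) : 1 < nm v := by
  unfold nm
  have h1 : Ideal.absNorm v.asIdeal ≠ 1 := fun h => v.isPrime.ne_top (Ideal.absNorm_eq_one_iff.1 h)
  have h0 : Ideal.absNorm v.asIdeal ≠ 0 := mt Ideal.absNorm_eq_zero_iff.1 v.ne_bot
  omega

theorem nm_pow {K : Type} [Field K] [NumberField K] (v : Pr K) {q : ℕ} (hq : q.Prime)
    (h : Above v q) : ∃ f : ℕ, 0 < f ∧ nm v = q ^ f := by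
  have hmax : v.asIdeal.IsMaximal := v.isMaximal
  let _ : Field (𝓞 K ⧸ v.asIdeal) := Ideal.Quotient.field v.asIdeal
  have hfin : Finite (𝓞 K ⧸ v.asIdeal) := Ideal.finiteQuotientOfFreeOfNeBot v.asIdeal v.ne_bot
  let _ : Fintype (𝓞 K ⧸ v.asIdeal) := Fintype.ofFinite _
  obtain ⟨r, hr⟩ := CharP.exists (𝓞 K ⧸ v.asIdeal)
  obtain ⟨n, hrp, hn⟩ := FiniteField.card (𝓞 K ⧸ v.asIdeal) r
  have h1 : Above v r := by
    rw [Pool.Agent.RG.G01aux.above_iff_mem, ← Ideal.Quotient.eq_zero_iff_mem, map_natCast]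
    exact CharP.cast_eq_zero _ r
  have h2 : r = q := Pool.Agent.RG.Above.unique hrp hq h1 h
  refine ⟨n, n.pos, ?_⟩
  unfold nm
  rw [Ideal.absNorm_apply, Submodule.cardQuot_apply, ← h2, ← hn, Nat.card_eq_fintype_card]

theorem nm_tower (K : Type) [Field K] [NumberField K] {L : Type} [Field L] [NumberField L]
    [Algebra K L] (w : Pr L) : 0 < fd K w ∧ nm w = nm (below w : Pr K) ^ fd K w := by
  have h1 : (below w : Pr K).asIdeal.IsMaximal := (below w : Pr K).isMaximal
  have h2 : w.asIdeal.IsPrime := w.isPrime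
  have h3 : w.asIdeal.IsMaximal := w.isMaximal
  have h4 : w.asIdeal.LiesOver (below w : Pr K).asIdeal := ⟨rfl⟩
  refine ⟨Ideal.inertiaDeg_pos w.asIdeal (𝓞 K), ?_⟩
  unfold nm fd
  rw [Ideal.absNorm_eq_pow_inertiaDeg'_of_liesOver w.asIdeal (below w : Pr K).asIdeal,
    Ideal.inertiaDeg'_eq_inertiaDeg]
  · exact (below w : Pr K).isPrime
  · exact (below w : Pr K).ne_bot

theorem nm_mod {F : Type} [Field F] [NumberField F] {p : ℕ} (hp : p.Prime) {ζ : F}
    (hζ : IsPrimitiveRoot ζ p) {v : Pr F} (hv : ¬ Above v p) : nm v % p = 1 := by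
  classical
  have hmax : v.asIdeal.IsMaximal := v.isMaximal
  let _ : Field (𝓞 F ⧸ v.asIdeal) := Ideal.Quotient.field v.asIdeal
  have hfin : Finite (𝓞 F ⧸ v.asIdeal) := Ideal.finiteQuotientOfFreeOfNeBot v.asIdeal v.ne_bot
  let _ : Fintype (𝓞 F ⧸ v.asIdeal) := Fintype.ofFinite _
  have hint : IsIntegral ℤ ζ := hζ.isIntegral hp.pos
  set z : 𝓞 F := ⟨ζ, hint⟩ with hz
  have hzv : (z : F) = ζ := rfl
  have hzp : z ^ p = 1 := by
    apply RingOfIntegers.ext
    exact (map_pow (algebraMap (𝓞 F) F) z p).trans (hζ.pow_eq_one.trans (map_one _).symm)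
  have hgeom : (∑ i ∈ Finset.range p, z ^ i) = 0 := by
    have h1 := geom_sum_mul z p
    rw [hzp, sub_self] at h1
    rcases mul_eq_zero.1 h1 with h2 | h2
    · exact h2
    · exfalso
      have h3 : z = 1 := sub_eq_zero.1 h2
      have h4 : ζ = 1 := by
        rw [← hzv, h3]
        rfl
      exact hζ.ne_one hp.one_lt h4
  set x : 𝓞 F ⧸ v.asIdeal := Ideal.Quotient.mk v.asIdeal z with hx
  have hx1 : x ≠ 1 := by
    intro h1
    apply hv
    rw [Pool.Agent.RG.G01aux.above_iff_mem, ← Ideal.Quotient.eq_zero_iff_mem, map_natCast]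
    have h2 := congrArg (Ideal.Quotient.mk v.asIdeal) hgeom
    rw [map_sum, map_zero] at h2
    rw [← h2, Finset.sum_congr rfl (g := fun _ => (1 : 𝓞 F ⧸ v.asIdeal))]
    · rw [Finset.sum_const, Finset.card_range, nsmul_eq_mul, mul_one]
    · intro i _
      rw [map_pow, ← hx, h1, one_pow]
  have hxp : x ^ p = 1 := by
    rw [hx, ← map_pow, hzp, map_one]
  have hu : IsUnit x := IsUnit.of_pow_eq_one hxp hp.ne_zero
  obtain ⟨u, hu⟩ := hu
  have hord : orderOf u = p := by
    refine orderOf_eq_prime_iff (hp := ⟨hp⟩) |>.2 ⟨?_, ?_⟩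
    · apply Units.ext
      rw [Units.val_pow_eq_pow_val, hu, hxp, Units.val_one]
    · intro h1
      apply hx1
      rw [← hu, h1, Units.val_one]
  have hdvd : p ∣ Fintype.card (𝓞 F ⧸ v.asIdeal) - 1 := by
    rw [← Fintype.card_units, ← hord]
    exact orderOf_dvd_card
  have hnm : nm v = Fintype.card (𝓞 F ⧸ v.asIdeal) := by
    unfold nm
    rw [Ideal.absNorm_apply, Submodule.cardQuot_apply, Nat.card_eq_fintype_card]
  rw [← hnm] at hdvd
  have h1 := one_lt_nm v
  obtain ⟨k, hk⟩ := hdvd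
  have h2 : nm v = 1 + p * k := by omega
  rw [h2, Nat.add_mul_mod_self_left]
  exact Nat.mod_eq_of_lt hp.one_lt

theorem isUnit_nm {F : Type} [Field F] [NumberField F] {ℓ : ℕ} (hℓ : ℓ.Prime) (v : Pr F) :
    IsUnit (nm v : ZMod ℓ) ↔ ¬ Above v ℓ := by
  obtain ⟨q, hq, hqv⟩ := Pool.Agent.RG.exists_prime_above v
  obtain ⟨f, hf, hnm⟩ := nm_pow v hq hqv
  rw [ZMod.isUnit_iff_coprime, hnm, Nat.coprime_pow_left_iff hf, Nat.coprime_primes hq hℓ]
  constructor
  · intro h1 h2
    exact h1 (Pool.Agent.RG.Above.unique hq hℓ hqv h2)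
  · intro h1 h2
    exact h1 (h2 ▸ hqv)

end Pool.Agent.RGK
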