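import Mathlib
import Pool.Agent.Lib.RG.M2
import Pool.Agent.Lib.RG.RDefs
import Pool.Agent.Lib.RGK.BDefs
import Pool.Agent.Lib.RGK.B1
import Pool.Agent.Lib.RGK.B2
import Pool.Agent.Lib.RGK.G01
import Pool.Agent.Lib.RGK.G02
import Pool.Agent.Lib.RGK.G03

/-!
RG v4, row MK2: restriction between maximal extensions: port of RG/M2 from `ℚ` to `K`.

`maxExtP_monoK`: `InCP p T L → InCP p S L` for `T ⊆ S`; `sSup_le_sSup`.
`exists_restrMaxK`: RG/M2 `exists_restrMax` with `K` instead of `ℚ` (or `exists_quot` in RG/R1).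
`InFrK.restr`: for a layer `L₁` of `X₁` apply `inFr_transport` (G03) to `L₁ → X₁ → X`.
`inFrK_eq_one`: on every layer `L` of `X₁` the restriction of `x` is inert at a prime above `v ∉ T`, so
trivial by `hX₁.unr`; `eq_of_layersK`.
-/

set_option autoImplicit false

namespace Pool.Agent.RGK

open NumberField IsDedekindDomain
open Pool.Agent.RG (Above IsDec IsInert IsFrob Lies UnrP InCP maxExtP GP)
open Pool.Agent.RG.H (Pr below)

variable {K : Type} [Field K] [NumberField K]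

theorem maxExtP_monoK (p : ℕ) {T S : Set (Pr K)} (h : T ⊆ S) :
    maxExtP p T ≤ maxExtP p S := by
  refine sSup_le ?_
  rintro L ⟨nf, gal, hk, hu⟩
  exact le_sSup ⟨nf, gal, hk, fun w hw σ hσ => hu w (fun v hv => hw v (h hv)) σ hσ⟩

theorem exists_restrMaxK {X₁ X : Type} [Field X₁] [Algebra K X₁] [IsGalois K X₁] [Field X]
    [Algebra K X] [IsGalois K X] (i : X₁ →ₐ[K] X) :
    ∃ π : (X ≃ₐ[K] X) →* (X₁ ≃ₐ[K] X₁), Continuous π ∧ Function.Surjective π ∧
      ∀ g x, g (i x) = i (π g x) := by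
  let _ : Algebra X₁ X := i.toRingHom.toAlgebra
  have : IsScalarTower K X₁ X := IsScalarTower.of_algebraMap_eq (fun x => (i.commutes x).symm)
  have hr : ∀ (g : X ≃ₐ[K] X) (x : X₁), g (i x) = i (AlgEquiv.restrictNormalHom X₁ g x) := by
    intro g x
    exact (AlgEquiv.restrictNormal_commutes g X₁ x).symm
  refine ⟨AlgEquiv.restrictNormalHom X₁, ?_, AlgEquiv.restrictNormalHom_surjective X, hr⟩
  refine continuous_of_continuousAt_one _ ?_
  rw [ContinuousAt, map_one, Filter.tendsto_def]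
  intro s hs
  obtain ⟨E, hE, hEs⟩ := (krullTopology_mem_nhds_one_iff K X₁ s).1 hs
  rw [krullTopology_mem_nhds_one_iff]
  refine ⟨E.map i, (E.equivMap i).toLinearEquiv.finiteDimensional, ?_⟩
  intro g hg
  refine hEs ?_
  rw [SetLike.mem_coe, IntermediateField.mem_fixingSubgroup_iff] at hg ⊢
  intro x hx
  have h1 := hg (i x) ⟨x, hx, rfl⟩
  rw [hr] at h1
  exact i.injective h1

theorem InFrK.restr {X₁ X : Type} [Field X₁] [Algebra K X₁] [IsGalois K X₁] [Field X]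
    [Algebra K X] [IsGalois K X] {i : X₁ →ₐ[K] X} {π : (X ≃ₐ[K] X) →* (X₁ ≃ₐ[K] X₁)}
    (hπ : ∀ g x, g (i x) = i (π g x)) {v : Pr K} {x y : X ≃ₐ[K] X} (h : InFrK v x y) :
    InFrK v (π x) (π y) := by
  intro L₁ _ _
  let e : L₁ →ₐ[K] X := i.comp L₁.val
  let r : (X ≃ₐ[K] X) →* (L₁ ≃ₐ[K] L₁) := (AlgEquiv.restrictNormalHom L₁).comp π
  have hr : ∀ g z, g (e z) = e (r g z) := by
    intro g z
    have h1 : ((AlgEquiv.restrictNormalHom L₁ (π g) z : L₁) : X₁) = π g (z : X₁) :=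
      AlgEquiv.restrictNormal_commutes (π g) L₁ z
    have h2 : e (r g z) = i ((AlgEquiv.restrictNormalHom L₁ (π g) z : L₁) : X₁) := rfl
    rw [h2, h1, ← hπ]
    rfl
  exact inFr_transport e hr h

theorem inFrK_eq_one {p : ℕ} {T : Set (Pr K)} {X₁ : Type} [Field X₁] [Algebra K X₁]
    (hX₁ : MaxExtK p T X₁) {v : Pr K} (hv : v ∉ T) {x y : X₁ ≃ₐ[K] X₁} (h : InFrK v x y) :
    x = 1 := by
  have := hX₁.gal
  refine eq_of_layersK fun L _ _ => ?_
  obtain ⟨w, hw1, hw2, -⟩ := h L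
  rw [map_one]
  subst hw1
  exact hX₁.unr L w hv _ ((hw2 _).2 (Subgroup.mem_zpowers _))

end Pool.Agent.RGK
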