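import Mathlib
import Pool.Agent.Lib.RG.M3
import Pool.Agent.Lib.RGK.BDefs
import Pool.Agent.Lib.RGK.B1
import Pool.Agent.Lib.RGK.B2
import Pool.Agent.Lib.RGK.G01
import Pool.Agent.Lib.RGK.G02
import Pool.Agent.Lib.RGK.G03
import Pool.Agent.Lib.RGK.MK2

/-!
RG v4, row MK3: the kernel of the restriction from the maximal `p`-extension `X` unramified outside
`S` to the maximal `p`-extension `X₁` unramified outside `T` is topologically normally generated by the
inertia generators at the primes of `S` not in `T`: port of RG/M3 from `ℚ` to `K` (same proof; `Pr K`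
instead of rational primes, `below w` instead of `Above`, `exists_conjK`, `IsInert.conj_toK`).
-/

set_option autoImplicit false

namespace Pool.Agent.RGK

open NumberField IsDedekindDomain
open Pool.Agent.RG (Above IsDec IsInert IsFrob Lies)
open Pool.Agent.RG.H (Pr below)

variable {K : Type} [Field K] [NumberField K]

/-- the layer on which the inertia at the primes of `S` not in `T` is trivial is unramified outside
`T` -/
private theorem MK3_unr {p : ℕ} {T S : Set (Pr K)} {X : Type} [Field X]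
    [Algebra K X] (hX : MaxExtK p S X) {ι : Type} (q : ι → Pr K)
    (hall : ∀ r ∈ S, r ∉ T → ∃ j, q j = r) (z g : ι → (X ≃ₐ[K] X))
    (hz : ∀ j, InFrK (q j) (z j) (g j)) (L : IntermediateField K X) [NumberField L] [IsGalois K L]
    (hL : ∀ j, AlgEquiv.restrictNormalHom L (z j) = 1) : UnrOutK T L := by
  intro w hw σ hσ
  by_cases hS : (below w : Pr K) ∈ S
  · obtain ⟨j, hj⟩ := hall _ hS hw
    obtain ⟨w', hw', hin, -⟩ := hz j L
    obtain ⟨τ, hτ⟩ := exists_conjK (K := K) (hj.symm.trans hw'.symm)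
    have h1 := IsInert.conj_toK hτ hσ
    rw [hin, hL j, Subgroup.zpowers_one_eq_bot, Subgroup.mem_bot] at h1
    have h2 : τ * σ = τ := by
      have := congrArg (fun z => z * τ) h1
      simpa [mul_assoc] using this
    exact mul_eq_left.1 h2
  · exact hX.unr L w hS σ hσ

/-- an element of the kernel of the restriction fixes every layer which embeds into `X₁` -/
private theorem MK3_fix {X₁ X : Type} [Field X₁] [Algebra K X₁] [Field X] [Algebra K X]
    {i : X₁ →ₐ[K] X} {π : (X ≃ₐ[K] X) →* (X₁ ≃ₐ[K] X₁)} (hπ : ∀ g x, g (i x) = i (π g x))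
    (L : IntermediateField K X) [hL : IsGalois K L] (f : L →ₐ[K] X₁) {g : X ≃ₐ[K] X}
    (hg : π g = 1) : AlgEquiv.restrictNormalHom L g = 1 := by
  have h1 : Normal K L := hL.to_normal
  have hrange : (i.comp f).fieldRange = L := AlgHom.fieldRange_of_normal _
  have hfix : ∀ x ∈ L, g x = x := by
    intro x hx
    rw [← hrange] at hx
    obtain ⟨y, hy⟩ := hx
    have h2 : i (f y) = x := hy
    rw [← h2, hπ, hg]
    rfl
  ext x
  have h3 : ((AlgEquiv.restrictNormalHom L g x : L) : X) = g (x : X) :=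
    AlgEquiv.restrictNormal_commutes g L x
  rw [h3, hfix _ x.2]
  rfl

theorem ker_restrK {p : ℕ} [Fact p.Prime] {T S : Set (Pr K)} (hsub : T ⊆ S)
    {X₁ X : Type} [Field X₁] [Algebra K X₁] [Field X] [Algebra K X]
    (hX₁ : MaxExtK p T X₁) (hX : MaxExtK p S X) {i : X₁ →ₐ[K] X}
    {π : (X ≃ₐ[K] X) →* (X₁ ≃ₐ[K] X₁)} (hc : Continuous π) (hπ : ∀ g x, g (i x) = i (π g x))
    {ι : Type} (q : ι → Pr K) (hq : ∀ j, q j ∈ S ∧ q j ∉ T)
    (hall : ∀ r ∈ S, r ∉ T → ∃ j, q j = r) (z g : ι → (X ≃ₐ[K] X))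
    (hz : ∀ j, InFrK (q j) (z j) (g j)) :
    π.ker = (Subgroup.normalClosure (Set.range z)).topologicalClosure := by
  have hgal := hX.gal
  have hgal₁ := hX₁.gal
  set R : Subgroup (X ≃ₐ[K] X) := (Subgroup.normalClosure (Set.range z)).topologicalClosure with hR
  have hRn : R.Normal := Subgroup.is_normal_topologicalClosure _
  have hRc : IsClosed (R : Set (X ≃ₐ[K] X)) := Subgroup.isClosed_topologicalClosure _
  have hzR : ∀ j, z j ∈ R := fun j =>
    Subgroup.le_topologicalClosure _ (Subgroup.subset_normalClosure ⟨j, rfl⟩)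
  refine le_antisymm ?_ ?_
  · intro g₀ hg₀
    by_contra hgR
    -- an open normal subgroup with `g₀ U ∩ R = ∅`
    obtain ⟨U, hU⟩ : ∃ U : OpenNormalSubgroup (X ≃ₐ[K] X), ∀ u ∈ U, g₀ * u ∉ R := by
      have h1 : IsOpen ((fun u : X ≃ₐ[K] X => g₀ * u) ⁻¹' (R : Set (X ≃ₐ[K] X))ᶜ) :=
        hRc.isOpen_compl.preimage (continuous_const.mul continuous_id)
      have h2 : (1 : X ≃ₐ[K] X) ∈ ((fun u : X ≃ₐ[K] X => g₀ * u) ⁻¹' (R : Set (X ≃ₐ[K] X))ᶜ) := by
        simpa using hgR
      obtain ⟨U, hU⟩ := ProfiniteGrp.exist_openNormalSubgroup_sub_open_nhds_of_one h1 h2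
      exact ⟨U, fun u hu => hU hu⟩
    have hUn : U.toSubgroup.Normal := U.isNormal'
    have hn : (R ⊔ U.toSubgroup).Normal := Subgroup.sup_normal _ _
    have ho : IsOpen ((R ⊔ U.toSubgroup : Subgroup (X ≃ₐ[K] X)) : Set (X ≃ₐ[K] X)) :=
      Subgroup.isOpen_mono le_sup_right U.isOpen'
    have hg' : g₀ ∉ R ⊔ U.toSubgroup := by
      intro h
      have h1 : g₀ ∈ ((R ⊔ U.toSubgroup : Subgroup (X ≃ₐ[K] X)) : Set (X ≃ₐ[K] X)) := h
      rw [Subgroup.mul_normal, Set.mem_mul] at h1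
      obtain ⟨r, hr, u, hu, hru⟩ := h1
      refine hU u⁻¹ (inv_mem hu) ?_
      rw [← hru, mul_inv_cancel_right]
      exact hr
    obtain ⟨L, _, _, hL1, -⟩ := exists_layerK (R ⊔ U.toSubgroup) ho
    have hLz : ∀ j, AlgEquiv.restrictNormalHom L (z j) = 1 := fun j =>
      (hL1 _).2 (le_sup_left (b := U.toSubgroup) (hzR j))
    obtain ⟨f⟩ := hX₁.max L (hX.deg L) (MK3_unr hX q hall z g hz L hLz)
    exact hg' ((hL1 _).1 (MK3_fix hπ L f (MonoidHom.mem_ker.1 hg₀)))
  · refine Subgroup.topologicalClosure_minimal _ ?_ ?_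
    · refine Subgroup.normalClosure_le_normal ?_
      rintro _ ⟨j, rfl⟩
      exact inFrK_eq_one hX₁ (hq j).2 ((hz j).restr hπ)
    · have h1 : T2Space (X₁ ≃ₐ[K] X₁) := krullTopology_t2
      have h2 : ((π.ker : Subgroup (X ≃ₐ[K] X)) : Set (X ≃ₐ[K] X)) = π ⁻¹' {1} := by
        ext x
        exact MonoidHom.mem_ker
      rw [h2]
      exact isClosed_singleton.preimage hc

end Pool.Agent.RGK
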