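import Mathlib
import Pool.Agent.Lib.RG.M1
import Pool.Agent.Lib.RG.G14
import Pool.Agent.Lib.RG.RDefs
import Pool.Agent.Lib.RG.R1
import Pool.Agent.Lib.RGK.BDefs
import Pool.Agent.Lib.RGK.B1
import Pool.Agent.Lib.RGK.G01
import Pool.Agent.Lib.RGK.G02
import Pool.Agent.Lib.RGK.G03
import Pool.Agent.Lib.RGK.MK2
import Pool.Agent.Lib.RGK.MK3

/-!
RG v4, row MK5: monotonicity over `K` (compare RG/M5): if the Frobenius elements of the primes of
`S` not in `T` are not trivial in `GP p T` then the rank gradient of `GP p S` is zero.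

`ι := {q // q ∈ S ∧ q ∉ T}` (finite), `z, g` from `exists_inFrK` (G03; `not_above_of_nm`, B1) in
`maxExtP p S` (`maxExtK_maxExtP`, G01), `a q := nm q`; `i` the inclusion (`maxExtP_monoK`), `π` from
`exists_restrMaxK` (MK2); `ker_restrK` (MK3); `π (g q)` has infinite order: it is `≠ 1` by `hfr`
(`InFrK.restr`) and `htf`. `M1c_group` (RG/M1) gives for every `ε` an open subgroup `V` with
`GenBy V n`, `n ≤ ε * V.index`; `GP p S` is infinite because `π` is surjective; `rankGradient_eq_zero`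
(RG/G14).
-/

set_option autoImplicit false

namespace Pool.Agent.RGK

open NumberField IsDedekindDomain
open Pool.Agent.RG (Above IsDec IsInert IsFrob Lies GenBy rankGradient maxExtP GP)
open Pool.Agent.RG.H (Pr below)

variable {K : Type} [Field K] [NumberField K]

theorem mono_K {p : ℕ} [Fact p.Prime] {T S : Set (Pr K)} (hsub : T ⊆ S) (hSf : S.Finite)
    (hS : ∀ q ∈ S, nm q % p = 1)
    (hfr : ∀ q ∈ S, q ∉ T → ∀ x y : GP p T, InFrK q x y → y ≠ 1) (hG : Infinite (GP p T))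
    (h : ∀ ε : ℝ, 0 < ε → ∃ (U : Subgroup (GP p T)) (n : ℕ),
      IsOpen (U : Set (GP p T)) ∧ GenBy U n ∧ ((n : ℝ) - 1) ≤ ε * U.index)
    (htf : ∀ g : GP p T, g ≠ 1 → ∀ n : ℕ, 0 < n → g ^ n ≠ 1) :
    Infinite (GP p S) ∧ rankGradient (GP p S) = 0 := by
  classical
  have hp : p.Prime := Fact.out
  have hX₁ := maxExtK_maxExtP (K := K) p T
  have hX := maxExtK_maxExtP (K := K) p S
  have hgal₁ := hX₁.gal
  have hgal := hX.gal
  obtain ⟨π, hc, hs, hπ⟩ :=
    exists_restrMaxK (IntermediateField.inclusion (maxExtP_monoK (K := K) p hsub))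
  have hinf : Infinite (GP p S) := Infinite.of_surjective π hs
  have hfin : Finite {q : Pr K // q ∈ S ∧ q ∉ T} :=
    Set.Finite.to_subtype (hSf.subset fun q hq => hq.1)
  have hft : Fintype {q : Pr K // q ∈ S ∧ q ∉ T} := Fintype.ofFinite _
  choose z g hzg hrel using fun q : {q : Pr K // q ∈ S ∧ q ∉ T} =>
    exists_inFrK hX (not_above_of_nm hp (hS q q.2.1))
  have hker := ker_restrK hsub hX₁ hX hc hπ
    (fun q : {q : Pr K // q ∈ S ∧ q ∉ T} => (q : Pr K)) (fun q => q.2)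
    (fun r hr hr1 => ⟨⟨r, hr, hr1⟩, rfl⟩) z g hzg
  refine ⟨hinf, RG.rankGradient_eq_zero hinf fun ε hε => ?_⟩
  obtain ⟨V, n, hV, -, hgen, hn⟩ := RG.M1c_group (fun U hN hU => hX.pro_p U hN hU) hG h π hc hs z g
    (fun q => nm (q : Pr K)) (fun q => hS q q.2.1) hrel hker (fun q n hn => htf _
      (hfr q q.2.1 q.2.2 _ _ ((hzg q).restr hπ)) n hn) ε hε
  exact ⟨V, n, hV, hgen, by linarith⟩

end Pool.Agent.RGK
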