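import Mathlib
import Pool.Agent.Lib.RG.QDefs

/-!
RG v4, PART QK: the cup product criterion for an arbitrary number of relations, definitions.
-/

set_option autoImplicit false

namespace Pool.Agent.RGK

open scoped Classical

section crit

variable {p : ℕ} {H : Type} [AddCommGroup H] [Module (ZMod p) H] {κ : Type}

/-- The cup product criterion on the space `G` of functionals, with the distinguished vector `v`. -/
def CritC (c : H → H → κ → ZMod p) (G : Submodule (ZMod p) H) (v : H) : Prop :=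
  ∃ U V : Submodule (ZMod p) H, U ⊔ V = G ∧ U ⊓ V = ⊥ ∧
    (∀ f ∈ V, ∀ g ∈ V, c f g = 0) ∧
    Submodule.span (ZMod p) {x | ∃ f ∈ U, ∃ g ∈ V, x = c f g} = ⊤ ∧
    v ∈ V ∧ v ≠ 0 ∧ ∃ u ∈ U, u ≠ 0 ∧
      Module.finrank (ZMod p) G ≤ Module.finrank (ZMod p) (Submodule.span (ZMod p)
        ({x | ∃ g ∈ V, x = c u g} ∪ {x | ∃ f ∈ U, x = c f v})) + 1

/-- the cup product of two functionals with respect to pairs of coordinate functionals -/
def cupL (X Y : κ → H →ₗ[ZMod p] ZMod p) (f g : H) (j : κ) : ZMod p :=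
  X j f * Y j g - X j g * Y j f

end crit

section grp

/-- The continuous homomorphisms `G → ZMod p`. -/
def H1 (p : ℕ) (G : Type) [Group G] [TopologicalSpace G] [IsTopologicalGroup G] :
    Submodule (ZMod p) (G → ZMod p) where
  carrier := {f | (∀ g h, f (g * h) = f g + f h) ∧
    ∃ N : Subgroup G, IsOpen (N : Set G) ∧ ∀ g ∈ N, f g = 0}
  zero_mem' := ⟨fun g h => by simp, ⟨⊤, by simp, fun g _ => rfl⟩⟩
  add_mem' := by
    rintro f f' ⟨h1, N, hN, h2⟩ ⟨h1', N', hN', h2'⟩
    refine ⟨fun g h => ?_, N ⊓ N', hN.inter hN', fun g hg => ?_⟩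
    · simp only [Pi.add_apply, h1 g h, h1' g h]
      abel
    · simp only [Pi.add_apply, h2 g hg.1, h2' g hg.2, add_zero]
  smul_mem' := by
    rintro c f ⟨h1, N, hN, h2⟩
    refine ⟨fun g h => ?_, N, hN, fun g hg => ?_⟩
    · simp only [Pi.smul_apply, h1 g h, smul_add]
    · simp only [Pi.smul_apply, h2 g hg, smul_zero]

/-- Local data: pairs `(x j, y j)` with `y x y⁻¹ = x ^ q` such that every central extension by a group
of order `p` of a finite quotient, to which all these pairs can be lifted, is solvable. -/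
structure KL (p : ℕ) (κ : Type) (G : Type) [Group G] [TopologicalSpace G]
    [IsTopologicalGroup G] where
  x : κ → G
  y : κ → G
  q : κ → ℕ
  hq : ∀ j, q j % p = 1
  tame : ∀ j, y j * x j * (y j)⁻¹ = x j ^ q j
  lift : ∀ (E H : Type) [Group E] [Finite E] [Group H] [Finite H] (π : E →* H),
    Function.Surjective π → π.ker ≤ Subgroup.center E → Nat.card π.ker = p →
    ∀ φ : G →* H, IsOpen (φ.ker : Set G) → Function.Surjective φ →
    ∀ ex ey : κ → E, (∀ j, π (ex j) = φ (x j)) → (∀ j, π (ey j) = φ (y j)) →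
      (∀ j, ey j * ex j * (ey j)⁻¹ = ex j ^ q j) →
      ∃ ψ : G →* E, IsOpen (ψ.ker : Set G) ∧ π.comp ψ = φ

variable {p : ℕ} {κ : Type} {G : Type} [Group G] [TopologicalSpace G] [IsTopologicalGroup G]

/-- the local cup product of two characters -/
def cupG (K : KL p κ G) (f g : H1 p G) (j : κ) : ZMod p :=
  (f : G → ZMod p) (K.x j) * (g : G → ZMod p) (K.y j) -
    (g : G → ZMod p) (K.x j) * (f : G → ZMod p) (K.y j)

end grp

end Pool.Agent.RGK
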