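import Mathlib
import Pool.Agent.Lib.RG.H10
import Pool.Agent.Lib.RGK.BDefs

/-!
RG v4, PART X (linear algebra of global characters modulo `p`): definitions.
-/

set_option autoImplicit false

namespace Pool.Agent.RGK

open NumberField IsDedekindDomain
open Pool.Agent.RG (Above IsDec IsInert IsFrob)
open Pool.Agent.RG.H (Pr vl UU PP SU ev below nrm emb NS)

section

variable {K : Type} [Field K] [NumberField K]

/-- a homomorphism `Kˣ → ZMod p` -/
abbrev Hm (K : Type) [Field K] (p : ℕ) : Type := Additive Kˣ →+ ZMod p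

/-- the value at `x` -/
def Hm.ev {p : ℕ} (f : Hm K p) (x : Kˣ) : ZMod p := f (Additive.ofMul x)

/-- the valuation of `v` modulo `p` -/
noncomputable def vp (p : ℕ) (v : Pr K) : Hm K p where
  toFun x := ((vl v (Additive.toMul x) : ℤ) : ZMod p)
  map_zero' := by
    rw [toMul_zero, RG.H.vl_one, Int.cast_zero]
  map_add' x y := by
    rw [toMul_add, RG.H.vl_mul, Int.cast_add]

/-- `f` kills the units congruent to `1` modulo `v ^ n` -/
def Kills {p : ℕ} (f : Hm K p) (v : Pr K) (n : ℕ) : Prop := ∀ x ∈ UU v n, f.ev x = 0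

/-- The space of the characters modulo `p` of the ideles, trivial on `Kˣ`, tamely ramified at `T`,
unramified outside `T`: families of local components. -/
noncomputable def GC (p : ℕ) (T : Set (Pr K)) : Submodule (ZMod p) (Pr K → Hm K p) where
  carrier := {f | (∀ v ∉ T, Kills (f v) v 0) ∧ (∀ v ∈ T, Kills (f v) v 1) ∧
    (∀ x : Kˣ, (Function.support fun v => (f v).ev x).Finite) ∧ ∀ x : Kˣ, ∑ᶠ v, (f v).ev x = 0}
  zero_mem' := by
    refine ⟨fun v _ x _ => rfl, fun v _ x _ => rfl, fun x => ?_, fun x => ?_⟩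
    · have : (Function.support fun v => ((0 : Pr K → Hm K p) v).ev x) = ∅ := by
        ext v; simp [Hm.ev]
      rw [this]; exact Set.finite_empty
    · have : (fun v => ((0 : Pr K → Hm K p) v).ev x) = fun _ => 0 := rfl
      rw [this, finsum_zero]
  add_mem' := by
    rintro f g ⟨h1, h2, h3, h4⟩ ⟨h1', h2', h3', h4'⟩
    refine ⟨fun v hv x hx => ?_, fun v hv x hx => ?_, fun x => ?_, fun x => ?_⟩
    · show (f v).ev x + (g v).ev x = 0
      rw [h1 v hv x hx, h1' v hv x hx, add_zero]
    · show (f v).ev x + (g v).ev x = 0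
      rw [h2 v hv x hx, h2' v hv x hx, add_zero]
    · exact ((h3 x).union (h3' x)).subset (Function.support_add _ _)
    · show ∑ᶠ v, ((f v).ev x + (g v).ev x) = 0
      rw [finsum_add_distrib (h3 x) (h3' x), h4 x, h4' x, add_zero]
  smul_mem' := by
    rintro c f ⟨h1, h2, h3, h4⟩
    refine ⟨fun v hv x hx => ?_, fun v hv x hx => ?_, fun x => ?_, fun x => ?_⟩
    · show c * (f v).ev x = 0
      rw [h1 v hv x hx, mul_zero]
    · show c * (f v).ev x = 0
      rw [h2 v hv x hx, mul_zero]
    · refine (h3 x).subset fun v hv => ?_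
      rw [Function.mem_support] at hv ⊢
      intro h0
      apply hv
      show c * (f v).ev x = 0
      rw [h0, mul_zero]
    · have h := (AddMonoidHom.mulLeft c).map_finsum (h3 x)
      rw [h4 x, map_zero] at h
      exact h.symm

/-- a uniformizer at `v` -/
noncomputable def piv (v : Pr K) : Kˣ := (RG.H.exists_unif v).choose

theorem vl_piv (v : Pr K) : vl v (piv v) = 1 := (RG.H.exists_unif v).choose_spec

open Classical in
/-- a unit at `v` whose residue class is not a `p`-th power (if there is one) -/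
noncomputable def gv (p : ℕ) (v : Pr K) : Kˣ :=
  if h : ∃ x : Kˣ, vl v x = 0 ∧ x ∉ PU p v then h.choose else 1

/-- the local cup product at `t` of two families -/
noncomputable def cupF (p : ℕ) (t : Pr K) (f g : Pr K → Hm K p) : ZMod p :=
  (f t).ev (gv p t) * (g t).ev (piv t) - (g t).ev (gv p t) * (f t).ev (piv t)

end

end Pool.Agent.RGK
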