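import Mathlib
import Pool.Agent.Lib.RGK.XDefs
import Pool.Agent.Lib.RGK.QKDefs

/-!
RG v4, PARTS D and N: densities of sets of primes of a number field `K`; choosing primes at random one
after another; the good subset.
-/

set_option autoImplicit false

namespace Pool.Agent.RGK

open NumberField IsDedekindDomain
open Pool.Agent.RG.H (Pr vl UU PP SU ev below nrm emb NS)

section

variable {K : Type} [Field K] [NumberField K]

/-- the primes of `K` with absolute norm congruent to `1` modulo `p` -/
def P1K (p : ℕ) : Set (Pr K) := {v | nm v % p = 1}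

/-- The lower mean value, in the sense of Dirichlet density, of the function `f` over the primes of `K`
with absolute norm congruent to `1` modulo `p`. -/
noncomputable def pmeanK (p : ℕ) (f : Pr K → ℝ) : ℝ :=
  Filter.liminf (fun s : ℝ => (∑' v : P1K (K := K) p, f v * (nm (v : Pr K) : ℝ) ^ (-s)) /
    ∑' v : P1K (K := K) p, (nm (v : Pr K) : ℝ) ^ (-s)) (nhdsWithin 1 (Set.Ioi 1))

open Classical in
/-- The probability that the set `S ∪ {v_1, .., v_k}` has the property `P` if the primes `v_1`,
`v_2`, .., `v_k` of `K` with norm congruent to `1` modulo `p` are chosen at random one after another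
(iterated lower Dirichlet density). -/
noncomputable def iterProbK (p : ℕ) (P : Finset (Pr K) → Prop) : ℕ → Finset (Pr K) → ℝ
  | 0, S => if P S then 1 else 0
  | k + 1, S => pmeanK p fun v => iterProbK p P k (insert v S)

/-- the set `A` of primes has density `c` with respect to `log (1 / (s - 1))` -/
def HasDK (A : Set (Pr K)) (c : ℝ) : Prop :=
  ∃ C : ℝ, ∀ s : ℝ, 1 < s → s ≤ 2 →
    |(∑' v : A, (nm (v : Pr K) : ℝ) ^ (-s)) - c * Real.log (1 / (s - 1))| ≤ C

/-- the primes with norm congruent to `1` modulo `p`, where the elements of `Λ` vanish and the elements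
of `B` are locally `p`-th powers -/
def DS (p : ℕ) (Λ : Submodule (ZMod p) (Pr K → Hm K p)) (B : Subgroup Kˣ) : Set (Pr K) :=
  {v | nm v % p = 1 ∧ (∀ f ∈ Λ, f v = 0) ∧ B ≤ PU p v}

variable (K) in
/-- the density of the primes with norm congruent to `1` modulo `p` -/
noncomputable def c0K (p : ℕ) [NeZero p] : ℝ := (Module.finrank K (CyclotomicField p K) : ℝ)⁻¹

variable (K) in
/-- The density theorem for the sets `DS p Λ B` (proved in DK3). -/
def DensK (p : ℕ) [Fact p.Prime] : Prop :=
  ∀ T : Set (Pr K), T.Finite → (∀ v ∈ T, nm v % p = 1) → ∀ Λ ≤ GC p T, ∀ B : Subgroup Kˣ,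
    PP K p ≤ B → (PP K p).relIndex B ≠ 0 →
    HasDK (DS p Λ B) (c0K K p * (((p : ℝ) ^ Module.finrank (ZMod p) Λ)⁻¹ *
      (((PP K p).relIndex B : ℕ) : ℝ)⁻¹))

/-- The cup product criterion for the set `T` and the distinguished character `ν`. -/
def CritF (p : ℕ) (T : Finset (Pr K)) (ν : Pr K → Hm K p) : Prop :=
  CritC (fun f g (t : T) => cupF p (t : Pr K) f g) (GC p (T : Set (Pr K))) ν

/-- `T` is a core with the distinguished character `ν`. -/
structure CoreK (p : ℕ) (T : Finset (Pr K)) (ν : Pr K → Hm K p) : Prop where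
  pr : ∀ t ∈ T, (nm t).Prime ∧ nm t % p = 1
  vt : VT p (T : Set (Pr K)) ≤ PP K p
  mem : ν ∈ GC p (T : Set (Pr K))
  crit : CritF p T ν

open Classical in
/-- the good subset of `S` -/
noncomputable def Gset (p : ℕ) (T : Finset (Pr K)) (ν : Pr K → Hm K p) (S : Finset (Pr K)) :
    Finset (Pr K) :=
  T ∪ S.filter fun b => (nm b).Prime ∧ nm b % p = 1 ∧ ν b ≠ 0

open Classical in
/-- the elements of `S` outside the good subset which are not seen by its characters -/
noncomputable def Uset (p : ℕ) (T : Finset (Pr K)) (ν : Pr K → Hm K p) (S : Finset (Pr K)) :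
    Finset (Pr K) :=
  S.filter fun u => u ∉ Gset p T ν S ∧ ∀ f ∈ GC p (Gset p T ν S : Set (Pr K)), f u = 0

/-- The combinatorial condition on `S`. -/
def CritK (p : ℕ) (S : Finset (Pr K)) : Prop :=
  ∃ T ⊆ S, ∃ ν, CoreK p T ν ∧ Uset p T ν S = ∅

end

end Pool.Agent.RGK
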