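import Mathlib
import Pool.Agent.Lib.RGK.NKDefs

/-!
RG v5 (number fields containing a primitive `p`-th root of unity), definitions: cores with one omitted
prime; densities.
-/

set_option autoImplicit false

namespace Pool.Agent.RGK

open NumberField IsDedekindDomain
open Pool.Agent.RG.H (Pr vl UU PP SU ev below nrm emb NS)

section

variable {K : Type} [Field K] [NumberField K]

variable (K) in
/-- the density theorem for the sets `DS p ⊥ B` -/
def DensB (p : ℕ) [Fact p.Prime] : Prop :=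
  ∀ B : Subgroup Kˣ, PP K p ≤ B → (PP K p).relIndex B ≠ 0 →
    HasDK (DS p ⊥ B) (c0K K p * (((PP K p).relIndex B : ℕ) : ℝ)⁻¹)

variable (K) in
/-- the density theorem for the sets `DS p Λ B` if `B` meets `VS p T` only in `p`-th powers -/
def DensI (p : ℕ) [Fact p.Prime] : Prop :=
  ∀ T : Set (Pr K), T.Finite → (∀ v ∈ T, nm v % p = 1) → ∀ Λ ≤ GC p T, ∀ B : Subgroup Kˣ,
    PP K p ≤ B → (PP K p).relIndex B ≠ 0 → (∀ x ∈ B, x ∈ VS p T → x ∈ PP K p) →
    HasDK (DS p Λ B) (c0K K p * (((p : ℝ) ^ Module.finrank (ZMod p) Λ)⁻¹ *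
      (((PP K p).relIndex B : ℕ) : ℝ)⁻¹))

/-- The cup product criterion for the set `T`, the omitted prime `o` and the distinguished
character `ν`. -/
def CritFO (p : ℕ) (o : Pr K) (T : Finset (Pr K)) (ν : Pr K → Hm K p) : Prop :=
  CritC (fun f g (t : {t : Pr K // t ∈ T ∧ t ≠ o}) => cupF p (t : Pr K) f g)
    (GC p (T : Set (Pr K))) ν

/-- `T` is a core with the omitted prime `o` and the distinguished character `ν`. -/
structure CoreO (p : ℕ) (o : Pr K) (T : Finset (Pr K)) (ν : Pr K → Hm K p) : Prop where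
  mem_o : o ∈ T
  pr : ∀ t ∈ T, (nm t).Prime ∧ nm t % p = 1
  vt : VT p (T : Set (Pr K)) ≤ PP K p
  mem : ν ∈ GC p (T : Set (Pr K))
  crit : CritFO p o T ν

/-- The combinatorial condition on `S`. -/
def CritKO (p : ℕ) (S : Finset (Pr K)) : Prop :=
  ∃ T ⊆ S, ∃ o ν, CoreO p o T ν ∧ Uset p T ν S = ∅

end

end Pool.Agent.RGK
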