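import Mathlib
import Pool.Agent.Lib.RG.Zeta1
import Pool.Agent.Lib.RGK.NKDefs

/-!
RG v4, row DK0: elementary properties of densities of sets of primes of `K`; port of
`Pool/Agent/Lib/RG/N2.lean`.

The primes of `K` are countably many, `∑ nm v ^ (-s)` converges for `s > 1` (`RG.H.summable_primes`,
`Zeta1.lean`), the sum over the primes of non-prime norm is bounded (`RG.H.high_degree`, `Zeta1.lean`).
Use `Set.indicator` on `Pr K` instead of the indicators on `ℕ` in `N2.lean`.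
-/

set_option autoImplicit false

namespace Pool.Agent.RGK

open NumberField IsDedekindDomain
open Pool.Agent.RG.H (Pr vl UU PP SU ev below nrm emb NS)

variable {K : Type} [Field K] [NumberField K]

private theorem dk0_sum {s : ℝ} (hs : 1 < s) : Summable (fun v : Pr K => (nm v : ℝ) ^ (-s)) :=
  Pool.Agent.RG.H.summable_primes K hs

private theorem dk0_sumI {s : ℝ} (hs : 1 < s) (A : Set (Pr K)) :
    Summable (A.indicator (fun v : Pr K => (nm v : ℝ) ^ (-s))) :=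
  (dk0_sum hs).indicator A

private theorem dk0_nn (s : ℝ) (v : Pr K) : (0 : ℝ) ≤ (nm v : ℝ) ^ (-s) := by positivity

private theorem dk0_le {s : ℝ} (hs : 1 < s) (v : Pr K) : (nm v : ℝ) ^ (-s) ≤ 1 := by
  rcases Nat.eq_zero_or_pos (nm v) with h | h
  · rw [h, Nat.cast_zero, Real.zero_rpow (by linarith)]
    exact zero_le_one
  · apply Real.rpow_le_one_of_one_le_of_nonpos
    · exact_mod_cast h
    · linarith

private theorem dk0_T (A : Set (Pr K)) (s : ℝ) :
    (∑' v : A, (nm (v : Pr K) : ℝ) ^ (-s)) =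
      ∑' v : Pr K, A.indicator (fun v : Pr K => (nm v : ℝ) ^ (-s)) v :=
  tsum_subtype A (fun v : Pr K => (nm v : ℝ) ^ (-s))

private theorem dk0_nonempty : Nonempty (Pr K) :=
  ⟨(Pool.Agent.RG.exists_above_prime K Nat.prime_two).choose⟩

private theorem dk0_B {f : Pr K → ℝ} {B : ℝ} (hlo : ∀ v, -B ≤ f v) (hup : ∀ v, f v ≤ B) :
    0 ≤ B := by
  obtain ⟨v⟩ := dk0_nonempty (K := K)
  have h1 := hlo v
  have h2 := hup v
  linarith

theorem HasDK.diff {A B : Set (Pr K)} {a b : ℝ} (hA : HasDK A a) (hB : HasDK B b) (h : B ⊆ A) :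
    HasDK (A \ B) (a - b) := by
  obtain ⟨C, hC⟩ := hA
  obtain ⟨D, hD⟩ := hB
  refine ⟨C + D, fun s hs1 hs2 => ?_⟩
  have h1 := hC s hs1 hs2
  have h2 := hD s hs1 hs2
  have h3 : (∑' v : (A \ B : Set (Pr K)), (nm (v : Pr K) : ℝ) ^ (-s)) =
      (∑' v : A, (nm (v : Pr K) : ℝ) ^ (-s)) - ∑' v : B, (nm (v : Pr K) : ℝ) ^ (-s) := by
    rw [dk0_T, dk0_T, dk0_T, ← (dk0_sumI hs1 A).tsum_sub (dk0_sumI hs1 B), Set.indicator_sdiff h]
    rfl
  rw [h3]
  rw [abs_le] at *
  constructor <;> nlinarith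

theorem HasDK.union {A B : Set (Pr K)} {a b : ℝ} (hA : HasDK A a) (hB : HasDK B b)
    (h : Disjoint A B) : HasDK (A ∪ B) (a + b) := by
  obtain ⟨C, hC⟩ := hA
  obtain ⟨D, hD⟩ := hB
  refine ⟨C + D, fun s hs1 hs2 => ?_⟩
  have h1 := hC s hs1 hs2
  have h2 := hD s hs1 hs2
  have h3 : (∑' v : (A ∪ B : Set (Pr K)), (nm (v : Pr K) : ℝ) ^ (-s)) =
      (∑' v : A, (nm (v : Pr K) : ℝ) ^ (-s)) + ∑' v : B, (nm (v : Pr K) : ℝ) ^ (-s) := by
    rw [dk0_T, dk0_T, dk0_T, ← (dk0_sumI hs1 A).tsum_add (dk0_sumI hs1 B),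
      Set.indicator_union_of_disjoint h]
  rw [h3]
  rw [abs_le] at *
  constructor <;> nlinarith

private theorem dk0_zero {Z F : Set (Pr K)} (hF : F.Finite)
    (h : ∀ v ∈ Z, v ∈ F ∨ ¬ (nm v).Prime) : HasDK Z 0 := by
  classical
  obtain ⟨C, hC⟩ := Pool.Agent.RG.H.high_degree K
  refine ⟨hF.toFinset.card + C, fun s hs1 hs2 => ?_⟩
  rw [zero_mul, sub_zero, dk0_T, abs_of_nonneg
    (tsum_nonneg fun v => Set.indicator_nonneg (fun v _ => dk0_nn s v) v)]
  have hs0 := dk0_sum (K := K) hs1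
  have hs3 : Summable (fun v : Pr K => if (nm v).Prime then (0 : ℝ) else (nm v : ℝ) ^ (-s)) := by
    refine Summable.of_nonneg_of_le (fun v => ?_) (fun v => ?_) hs0
    · split_ifs
      · exact le_rfl
      · exact dk0_nn s v
    · split_ifs
      · exact dk0_nn s v
      · exact le_rfl
  have h1 : ∑' v : Pr K, Z.indicator (fun v : Pr K => (nm v : ℝ) ^ (-s)) v ≤
      ∑' v : Pr K, (F.indicator (fun v : Pr K => (nm v : ℝ) ^ (-s)) v +
        if (nm v).Prime then (0 : ℝ) else (nm v : ℝ) ^ (-s)) := by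
    refine (dk0_sumI hs1 Z).tsum_le_tsum (fun v => ?_) ((dk0_sumI hs1 F).add hs3)
    by_cases hv : v ∈ Z
    · rw [Set.indicator_of_mem hv]
      rcases h v hv with h2 | h2
      · rw [Set.indicator_of_mem h2]
        have : (0 : ℝ) ≤ if (nm v).Prime then (0 : ℝ) else (nm v : ℝ) ^ (-s) := by
          split_ifs
          · exact le_rfl
          · exact dk0_nn s v
        linarith
      · rw [if_neg h2]
        have : (0 : ℝ) ≤ F.indicator (fun v : Pr K => (nm v : ℝ) ^ (-s)) v :=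
          Set.indicator_nonneg (fun v _ => dk0_nn s v) v
        linarith
    · rw [Set.indicator_of_notMem hv]
      refine add_nonneg (Set.indicator_nonneg (fun v _ => dk0_nn s v) v) ?_
      split_ifs
      · exact le_rfl
      · exact dk0_nn s v
  refine h1.trans ?_
  rw [(dk0_sumI hs1 F).tsum_add hs3]
  refine add_le_add ?_ (hC s hs1)
  rw [tsum_eq_sum (s := hF.toFinset)]
  · calc ∑ v ∈ hF.toFinset, F.indicator (fun v : Pr K => (nm v : ℝ) ^ (-s)) v
        ≤ ∑ v ∈ hF.toFinset, (1 : ℝ) := by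
          refine Finset.sum_le_sum fun v _ => ?_
          exact Set.indicator_le_self' (fun _ _ => dk0_nn s v) v |>.trans (dk0_le hs1 v)
      _ = hF.toFinset.card := by simp
  · intro v hv
    exact Set.indicator_of_notMem (fun h => hv (hF.mem_toFinset.2 h)) _

theorem HasDK.diff_finite {A : Set (Pr K)} {a : ℝ} (hA : HasDK A a) {F : Set (Pr K)}
    (hF : F.Finite) : HasDK (A \ F) a := by
  have h := hA.diff (dk0_zero (Z := A ∩ F) hF fun v hv => Or.inl hv.2) Set.inter_subset_left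
  rwa [sub_zero, Set.sdiff_self_inter] at h

/-- a set which differs from `A` only in a finite set and in primes of non-prime norm -/
private theorem dk0_congr {A B : Set (Pr K)} {a : ℝ} (hA : HasDK A a) {F : Set (Pr K)}
    (hF : F.Finite) (h : ∀ v, (nm v).Prime → v ∉ F → (v ∈ A ↔ v ∈ B)) : HasDK B a := by
  set g : Set (Pr K) := {v | (nm v).Prime ∧ v ∉ F} with hg
  have hz : ∀ v, v ∉ g → v ∈ F ∨ ¬ (nm v).Prime := by
    intro v hv
    by_contra hcon
    rw [not_or, not_not] at hcon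
    exact hv ⟨hcon.2, hcon.1⟩
  have h1 := hA.diff (dk0_zero (Z := A \ g) hF fun v hv => hz v hv.2) Set.sdiff_subset
  rw [sub_zero] at h1
  have h2 : HasDK (B \ g) 0 := dk0_zero hF fun v hv => hz v hv.2
  have h3 : A \ (A \ g) = B ∩ g := by
    ext v
    constructor
    · rintro ⟨hv, hv'⟩
      have hvg : v ∈ g := by
        by_contra hc
        exact hv' ⟨hv, hc⟩
      exact ⟨(h v hvg.1 hvg.2).1 hv, hvg⟩
    · rintro ⟨hv, hvg⟩
      exact ⟨(h v hvg.1 hvg.2).2 hv, fun hc => hc.2 hvg⟩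
  rw [h3] at h1
  have h4 := h1.union h2 (by
    rw [Set.disjoint_left]
    rintro v ⟨_, hv⟩ ⟨_, hv'⟩
    exact hv' hv)
  rw [add_zero] at h4
  have h5 : B ∩ g ∪ B \ g = B := Set.inter_union_sdiff B g
  rwa [h5] at h4

/-- the primes of non-prime norm have density zero -/
theorem HasDK.prime {A : Set (Pr K)} {a : ℝ} (hA : HasDK A a) :
    HasDK {v | v ∈ A ∧ (nm v).Prime} a :=
  dk0_congr hA Set.finite_empty fun _ hv _ => ⟨fun h => ⟨h, hv⟩, fun h => h.1⟩

/-- a set which differs from `A` only in a finite set and in primes of non-prime norm -/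
theorem HasDK.congr {A B : Set (Pr K)} {a : ℝ} (hA : HasDK A a) {F : Set (Pr K)}
    (hF : F.Finite) (h : ∀ v, (nm v).Prime → v ∉ F → (v ∈ A ↔ v ∈ B)) : HasDK B a :=
  dk0_congr hA hF h

private theorem dk0_log : Filter.Tendsto (fun s : ℝ => Real.log (1 / (s - 1)))
    (nhdsWithin 1 (Set.Ioi 1)) Filter.atTop := by
  refine Real.tendsto_log_atTop.comp ?_
  have h1 : Filter.Tendsto (fun s : ℝ => s - 1) (nhdsWithin 1 (Set.Ioi 1))
      (nhdsWithin 0 (Set.Ioi 0)) := by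
    refine tendsto_nhdsWithin_iff.mpr ⟨?_, ?_⟩
    · have h2 : Filter.Tendsto (fun s : ℝ => s - 1) (nhds 1) (nhds (1 - 1)) :=
        (continuous_id.sub continuous_const).tendsto 1
      rw [sub_self] at h2
      exact h2.mono_left nhdsWithin_le_nhds
    · filter_upwards [self_mem_nhdsWithin] with s hs
      have : (1 : ℝ) < s := hs
      simp only [Set.mem_Ioi]
      linarith
  have h3 := tendsto_inv_nhdsGT_zero.comp h1
  refine h3.congr fun s => ?_
  simp [one_div]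

private theorem dk0_ev : ∀ᶠ s : ℝ in nhdsWithin 1 (Set.Ioi 1), 1 < s ∧ s ≤ 2 := by
  have h1 : Set.Iic (2 : ℝ) ∈ nhds (1 : ℝ) := Iic_mem_nhds (by norm_num)
  filter_upwards [self_mem_nhdsWithin, nhdsWithin_le_nhds h1] with s hs1 hs2
  exact ⟨hs1, hs2⟩

private theorem dk0_lim {A : Set (Pr K)} {a : ℝ} (hA : HasDK A a) :
    Filter.Tendsto (fun s : ℝ => (∑' l : A, (nm (l : Pr K) : ℝ) ^ (-s)) / Real.log (1 / (s - 1)))
      (nhdsWithin 1 (Set.Ioi 1)) (nhds a) := by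
  obtain ⟨C, hC⟩ := hA
  rw [tendsto_iff_norm_sub_tendsto_zero]
  have h0 : Filter.Tendsto (fun s : ℝ => C / Real.log (1 / (s - 1)))
      (nhdsWithin 1 (Set.Ioi 1)) (nhds 0) := dk0_log.const_div_atTop C
  refine squeeze_zero' (Filter.Eventually.of_forall fun s => norm_nonneg _) ?_ h0
  filter_upwards [dk0_ev, dk0_log.eventually_gt_atTop 0] with s hs hl
  have h1 := hC s hs.1 hs.2
  rw [Real.norm_eq_abs, div_sub' hl.ne', abs_div, abs_of_pos hl, mul_comm]
  exact div_le_div_of_nonneg_right h1 hl.le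

private theorem dk0_quot {A D : Set (Pr K)} {a d : ℝ} (hA : HasDK A a) (hD : HasDK D d)
    (hd : d ≠ 0) :
    Filter.Tendsto (fun s : ℝ => (∑' l : A, (nm (l : Pr K) : ℝ) ^ (-s)) /
      ∑' l : D, (nm (l : Pr K) : ℝ) ^ (-s))
      (nhdsWithin 1 (Set.Ioi 1)) (nhds (a / d)) := by
  refine ((dk0_lim hA).div (dk0_lim hD) hd).congr' ?_
  filter_upwards [dk0_log.eventually_gt_atTop 0] with s hl
  simp only [Pi.div_apply]
  rw [div_div_div_cancel_right₀ hl.ne']

private theorem dk0_inv {D : Set (Pr K)} {d : ℝ} (hD : HasDK D d) (hd : d ≠ 0) (M0 : ℝ) :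
    Filter.Tendsto (fun s : ℝ => M0 / ∑' l : D, (nm (l : Pr K) : ℝ) ^ (-s))
      (nhdsWithin 1 (Set.Ioi 1)) (nhds 0) := by
  have h := (dk0_log.const_div_atTop M0).div (dk0_lim hD) hd
  rw [zero_div] at h
  refine h.congr' ?_
  filter_upwards [dk0_log.eventually_gt_atTop 0] with s hl
  simp only [Pi.div_apply]
  rw [div_div_div_cancel_right₀ hl.ne']

private theorem dk0_sumf {s : ℝ} (hs : 1 < s) (A : Set (Pr K)) (f : Pr K → ℝ) (B : ℝ)
    (hf : ∀ q, |f q| ≤ B) : Summable (fun q : A => f q * (nm (q : Pr K) : ℝ) ^ (-s)) := by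
  have h1 : Summable (fun q : A => B * (nm (q : Pr K) : ℝ) ^ (-s)) :=
    ((dk0_sum (K := K) hs).comp_injective Subtype.val_injective).mul_left B
  refine Summable.of_norm_bounded h1 fun q => ?_
  rw [norm_mul, Real.norm_eq_abs, Real.norm_eq_abs, abs_of_nonneg (dk0_nn s (q : Pr K))]
  exact mul_le_mul_of_nonneg_right (hf q) (dk0_nn s (q : Pr K))

private theorem dk0_pos {p : ℕ} (s : ℝ) :
    0 ≤ ∑' q : P1K (K := K) p, (nm (q : Pr K) : ℝ) ^ (-s) := tsum_nonneg fun q => dk0_nn s (q : Pr K)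

private theorem dk0_up {p : ℕ} {s : ℝ} (hs : 1 < s) (f : Pr K → ℝ) (B : ℝ)
    (hlo : ∀ q, -B ≤ f q) (hup : ∀ q, f q ≤ B) :
    (∑' q : P1K (K := K) p, f q * (nm (q : Pr K) : ℝ) ^ (-s)) / (∑' q : P1K (K := K) p, (nm (q : Pr K) : ℝ) ^ (-s)) ≤ B := by
  have hB : 0 ≤ B := dk0_B hlo hup
  refine div_le_of_le_mul₀ (dk0_pos (K := K) (p := p) s) hB ?_
  rw [← tsum_mul_left]
  refine (dk0_sumf hs (P1K p) f B fun q => abs_le.mpr ⟨hlo q, hup q⟩).tsum_le_tsum (fun q => ?_)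
    (((dk0_sum (K := K) hs).comp_injective Subtype.val_injective).mul_left B)
  exact mul_le_mul_of_nonneg_right (hup q) (dk0_nn s (q : Pr K))

private theorem dk0_cob {p : ℕ} (f : Pr K → ℝ) (B : ℝ)
    (hlo : ∀ q, -B ≤ f q) (hup : ∀ q, f q ≤ B) :
    Filter.IsCoboundedUnder (· ≥ ·) (nhdsWithin 1 (Set.Ioi 1))
      (fun s : ℝ => (∑' q : P1K (K := K) p, f q * (nm (q : Pr K) : ℝ) ^ (-s)) /
        (∑' q : P1K (K := K) p, (nm (q : Pr K) : ℝ) ^ (-s))) := by
  have h : Filter.IsBoundedUnder (· ≤ ·) (nhdsWithin 1 (Set.Ioi 1))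
      (fun s : ℝ => (∑' q : P1K (K := K) p, f q * (nm (q : Pr K) : ℝ) ^ (-s)) /
        (∑' q : P1K (K := K) p, (nm (q : Pr K) : ℝ) ^ (-s))) := by
    refine ⟨B, ?_⟩
    rw [Filter.eventually_map]
    filter_upwards [dk0_ev] with s hs
    exact dk0_up hs.1 f B hlo hup
  exact h.isCoboundedUnder_ge

open Classical in
theorem pmeanK_ge {p : ℕ} {c : ℝ} (hc : 0 < c) (h1 : HasDK (P1K (K := K) p) c) {ι : Type}
    [Fintype ι] (A : ι → Set (Pr K)) (hA : ∀ i, A i ⊆ P1K p) (d : ι → ℝ)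
    (hd : ∀ i, HasDK (A i) (c * d i)) (c₀ : ℝ) (a : ι → ℝ) (F : Finset (Pr K))
    (f : Pr K → ℝ) (B : ℝ) (hlo : ∀ v, -B ≤ f v) (hup : ∀ v, f v ≤ B)
    (hf : ∀ v ∈ P1K p, v ∉ F → c₀ + ∑ i, a i * (if v ∈ A i then 1 else 0) ≤ f v) :
    c₀ + ∑ i, a i * d i ≤ pmeanK p f := by
  have hp1 : c ≠ 0 := hc.ne'
  -- the minorant
  set g : Pr K → ℝ := fun q => c₀ + ∑ i, a i * (if q ∈ A i then 1 else 0) with hg
  set G : ℝ := |c₀| + ∑ i, |a i| with hG
  have hgG : ∀ q, |g q| ≤ G := by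
    intro q
    simp only [hg, hG]
    refine (abs_add_le _ _).trans (add_le_add le_rfl ?_)
    refine (Finset.abs_sum_le_sum_abs _ _).trans (Finset.sum_le_sum fun i _ => ?_)
    rw [abs_mul]
    split_ifs
    · simp
    · simp
  have hB : 0 ≤ B := dk0_B hlo hup
  obtain ⟨v0⟩ := dk0_nonempty (K := K)
  have hG0 : 0 ≤ G := (abs_nonneg _).trans (hgG v0)
  set M0 : ℝ := F.card * (B + G) with hK
  -- the means of the minorant
  have hlim : Filter.Tendsto (fun s : ℝ =>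
      c₀ + ∑ i, a i * ((∑' l : A i, (nm (l : Pr K) : ℝ) ^ (-s)) / ∑' q : P1K (K := K) p, (nm (q : Pr K) : ℝ) ^ (-s)) -
        M0 / ∑' q : P1K (K := K) p, (nm (q : Pr K) : ℝ) ^ (-s)) (nhdsWithin 1 (Set.Ioi 1))
      (nhds (c₀ + ∑ i, a i * d i)) := by
    have h2 : Filter.Tendsto (fun s : ℝ =>
      c₀ + ∑ i, a i * ((∑' l : A i, (nm (l : Pr K) : ℝ) ^ (-s)) / ∑' q : P1K (K := K) p, (nm (q : Pr K) : ℝ) ^ (-s)))
      (nhdsWithin 1 (Set.Ioi 1)) (nhds (c₀ + ∑ i, a i * d i)) := by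
      refine tendsto_const_nhds.add (tendsto_finsetSum _ fun i _ => ?_)
      refine tendsto_const_nhds.mul ?_
      have h3 := dk0_quot (hd i) h1 hp1
      rwa [mul_div_cancel_left₀ _ hp1] at h3
    have h4 := h2.sub (dk0_inv h1 hc.ne' M0)
    rwa [sub_zero] at h4
  rw [← hlim.liminf_eq]
  refine Filter.liminf_le_liminf ?_ hlim.isBoundedUnder_ge (dk0_cob f B hlo hup)
  filter_upwards [dk0_ev, (dk0_lim h1).eventually_ne hp1] with s hs hne
  have hs1 := hs.1
  set Ds : ℝ := ∑' q : P1K (K := K) p, (nm (q : Pr K) : ℝ) ^ (-s) with hDs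
  have hDs0 : 0 < Ds := by
    refine lt_of_le_of_ne (dk0_pos (K := K) (p := p) s) fun h0 => hne ?_
    rw [← h0, zero_div]
  have hsumq : Summable (fun q : P1K (K := K) p => (nm (q : Pr K) : ℝ) ^ (-s)) :=
    (dk0_sum (K := K) hs1).comp_injective Subtype.val_injective
  have hsumA : ∀ i, (∑' l : A i, (nm (l : Pr K) : ℝ) ^ (-s)) =
      ∑' q : P1K (K := K) p, (if (q : Pr K) ∈ A i then (1 : ℝ) else 0) * (nm (q : Pr K) : ℝ) ^ (-s) := by
    intro i
    rw [dk0_T, tsum_subtype (P1K p)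
      (fun n : Pr K => (if n ∈ A i then (1 : ℝ) else 0) * (nm n : ℝ) ^ (-s))]
    refine tsum_congr fun n => ?_
    by_cases hn : n ∈ A i
    · rw [Set.indicator_of_mem hn, Set.indicator_of_mem (hA i hn), if_pos hn, one_mul]
    · rw [Set.indicator_of_notMem hn]
      by_cases hn' : n ∈ P1K p
      · rw [Set.indicator_of_mem hn', if_neg hn, zero_mul]
      · rw [Set.indicator_of_notMem hn']
  have hsi : ∀ i, Summable (fun q : P1K (K := K) p =>
      a i * ((if (q : Pr K) ∈ A i then (1 : ℝ) else 0) * (nm (q : Pr K) : ℝ) ^ (-s))) := by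
    intro i
    refine Summable.mul_left _ ?_
    refine dk0_sumf hs1 (P1K p) (fun q => if q ∈ A i then (1 : ℝ) else 0) 1 fun q => ?_
    split_ifs <;> simp
  have hgsum : (∑' q : P1K (K := K) p, g q * (nm (q : Pr K) : ℝ) ^ (-s)) =
      c₀ * Ds + ∑ i, a i * ∑' l : A i, (nm (l : Pr K) : ℝ) ^ (-s) := by
    have e1 : ∀ q : P1K (K := K) p, g q * (nm (q : Pr K) : ℝ) ^ (-s) = c₀ * (nm (q : Pr K) : ℝ) ^ (-s) +
        ∑ i, a i * ((if (q : Pr K) ∈ A i then (1 : ℝ) else 0) * (nm (q : Pr K) : ℝ) ^ (-s)) := by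
      intro q
      simp only [hg]
      rw [add_mul, Finset.sum_mul]
      congr 1
      refine Finset.sum_congr rfl fun i _ => ?_
      ring
    rw [tsum_congr e1, (hsumq.mul_left c₀).tsum_add (summable_sum fun i _ => hsi i), tsum_mul_left,
      Summable.tsum_finsetSum fun i _ => hsi i]
    congr 1
    refine Finset.sum_congr rfl fun i _ => ?_
    rw [tsum_mul_left, hsumA i]
  have hu : c₀ + ∑ i, a i * ((∑' l : A i, (nm (l : Pr K) : ℝ) ^ (-s)) / Ds) - M0 / Ds =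
      ((∑' q : P1K (K := K) p, g q * (nm (q : Pr K) : ℝ) ^ (-s)) - M0) / Ds := by
    rw [hgsum, sub_div, add_div, mul_div_cancel_right₀ _ hDs0.ne', Finset.sum_div]
    congr 2
    refine Finset.sum_congr rfl fun i _ => ?_
    rw [mul_div_assoc]
  rw [hu]
  refine div_le_div_of_nonneg_right ?_ hDs0.le
  have hsg : Summable (fun q : P1K (K := K) p => g q * (nm (q : Pr K) : ℝ) ^ (-s)) := dk0_sumf hs1 (P1K p) g G hgG
  have hsf : Summable (fun q : P1K (K := K) p => f q * (nm (q : Pr K) : ℝ) ^ (-s)) :=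
    dk0_sumf hs1 (P1K p) f B fun q => abs_le.mpr ⟨hlo q, hup q⟩
  have hw : ∀ q : P1K (K := K) p, g q * (nm (q : Pr K) : ℝ) ^ (-s) - f q * (nm (q : Pr K) : ℝ) ^ (-s) ≤
      if (q : Pr K) ∈ F then B + G else 0 := by
    intro q
    rw [← sub_mul]
    split_ifs with hqF
    · calc (g q - f q) * (nm (q : Pr K) : ℝ) ^ (-s) ≤ (B + G) * 1 := by
            refine mul_le_mul ?_ (dk0_le hs1 (q : Pr K)) (dk0_nn s (q : Pr K)) (by linarith)
            have h2 := (abs_le.mp (hgG q)).2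
            have h3 := hlo q
            linarith
        _ = B + G := mul_one _
    · refine mul_nonpos_of_nonpos_of_nonneg ?_ (dk0_nn s (q : Pr K))
      have h2 := hf q q.2 hqF
      simp only [hg]
      linarith
  set T : Finset (P1K (K := K) p) := F.subtype (fun l => l ∈ P1K p) with hT
  have hz : ∀ q : P1K (K := K) p, q ∉ T → (if (q : Pr K) ∈ F then B + G else 0) = 0 := by
    intro q hq
    rw [if_neg]
    intro h
    apply hq
    rw [hT, Finset.mem_subtype]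
    exact h
  have hsw : Summable (fun q : P1K (K := K) p => if (q : Pr K) ∈ F then B + G else 0) :=
    summable_of_ne_finset_zero (s := T) fun q hq => hz q hq
  have h5 : (∑' q : P1K (K := K) p, (g q * (nm (q : Pr K) : ℝ) ^ (-s) - f q * (nm (q : Pr K) : ℝ) ^ (-s))) ≤ M0 := by
    refine ((hsg.sub hsf).tsum_le_tsum hw hsw).trans ?_
    rw [tsum_eq_sum hz]
    calc ∑ q ∈ T, (if (q : Pr K) ∈ F then B + G else 0) ≤ ∑ q ∈ T, (B + G) := by
          refine Finset.sum_le_sum fun q _ => ?_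
          split_ifs
          · exact le_rfl
          · linarith
      _ = T.card * (B + G) := by rw [Finset.sum_const, nsmul_eq_mul]
      _ ≤ F.card * (B + G) := by
          have : T.card ≤ F.card := by
            rw [hT, Finset.card_subtype]
            exact Finset.card_filter_le _ _
          have h2 : (T.card : ℝ) ≤ F.card := by exact_mod_cast this
          exact mul_le_mul_of_nonneg_right h2 (by linarith)
  rw [hsg.tsum_sub hsf] at h5
  linarith

theorem pmeanK_le_one {p : ℕ} {c : ℝ} (hc : 0 < c) (h1 : HasDK (P1K (K := K) p) c)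
    {f : Pr K → ℝ} (h0 : ∀ v, 0 ≤ f v) (hf : ∀ v, f v ≤ 1) : pmeanK p f ≤ 1 := by
  have hlo : ∀ q, -(1 : ℝ) ≤ f q := fun q => by linarith [h0 q]
  have hc : Filter.Tendsto (fun _ : ℝ => (1 : ℝ)) (nhdsWithin 1 (Set.Ioi 1)) (nhds 1) :=
    tendsto_const_nhds
  unfold pmeanK
  conv_rhs => rw [← hc.liminf_eq]
  refine Filter.liminf_le_liminf ?_ ?_ hc.isCoboundedUnder_ge
  · filter_upwards [dk0_ev] with s hs
    exact dk0_up hs.1 f 1 hlo hf
  · refine ⟨0, ?_⟩
    rw [Filter.eventually_map]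
    refine Filter.Eventually.of_forall fun s => ?_
    exact div_nonneg (tsum_nonneg fun q => mul_nonneg (h0 q) (dk0_nn s (q : Pr K))) (dk0_pos (K := K) (p := p) s)

theorem pmeanK_nonneg {p : ℕ} {f : Pr K → ℝ} (h0 : ∀ v, 0 ≤ f v) (hf : ∀ v, f v ≤ 1) :
    0 ≤ pmeanK p f := by
  have hlo : ∀ q, -(1 : ℝ) ≤ f q := fun q => by linarith [h0 q]
  have hc : Filter.Tendsto (fun _ : ℝ => (0 : ℝ)) (nhdsWithin 1 (Set.Ioi 1)) (nhds 0) :=
    tendsto_const_nhds
  unfold pmeanK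
  conv_lhs => rw [← hc.liminf_eq]
  refine Filter.liminf_le_liminf ?_ hc.isBoundedUnder_ge (dk0_cob f 1 hlo hf)
  refine Filter.Eventually.of_forall fun s => ?_
  exact div_nonneg (tsum_nonneg fun q => mul_nonneg (h0 q) (dk0_nn s (q : Pr K))) (dk0_pos (K := K) (p := p) s)

theorem pmeanK_mono {p : ℕ} {f g : Pr K → ℝ} (h0 : ∀ v, 0 ≤ f v) (hg : ∀ v, g v ≤ 1)
    (h : ∀ v ∈ P1K p, f v ≤ g v) (hf : ∀ v, f v ≤ 1) (hg0 : ∀ v, 0 ≤ g v) :
    pmeanK p f ≤ pmeanK p g := by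
  have hlo : ∀ q, -(1 : ℝ) ≤ f q := fun q => by linarith [h0 q]
  have hlo' : ∀ q, -(1 : ℝ) ≤ g q := fun q => by linarith [hg0 q]
  unfold pmeanK
  refine Filter.liminf_le_liminf ?_ ?_ (dk0_cob g 1 hlo' hg)
  · filter_upwards [dk0_ev] with s hs
    refine div_le_div_of_nonneg_right ?_ (dk0_pos (K := K) (p := p) s)
    refine (dk0_sumf hs.1 (P1K p) f 1 fun q => abs_le.mpr ⟨hlo q, hf q⟩).tsum_le_tsum (fun q => ?_)
      (dk0_sumf hs.1 (P1K p) g 1 fun q => abs_le.mpr ⟨hlo' q, hg q⟩)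
    exact mul_le_mul_of_nonneg_right (h q q.2) (dk0_nn s (q : Pr K))
  · refine ⟨0, ?_⟩
    rw [Filter.eventually_map]
    refine Filter.Eventually.of_forall fun s => ?_
    exact div_nonneg (tsum_nonneg fun q => mul_nonneg (h0 q) (dk0_nn s (q : Pr K))) (dk0_pos (K := K) (p := p) s)


end Pool.Agent.RGK
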