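import Mathlib
import Pool.Agent.Lib.RG.H01
import Pool.Agent.Lib.RGK.XDefs

/-!
RG v4, row X1: duality. The group homomorphism `Kˣ → ∏ v, Kˣ ⧸ N v` has its image in the direct sum (all
`x` are in `UU v 0 ≤ N v` for almost all `v`, `H.fin_vl`), a vector space over the field with `p` elements
(`hPP`). `κ` kills the kernel, so it is a linear functional on the image; extend it to the whole direct
sum (`LinearMap.exists_extend`) and let `f v` be its restriction to the summand `v`.
-/

set_option autoImplicit false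

namespace Pool.Agent.RGK

open NumberField IsDedekindDomain
open Pool.Agent.RG (Above IsDec IsInert IsFrob)
open Pool.Agent.RG.H (Pr vl UU PP SU ev below nrm emb NS)

private theorem X1_lin {p : ℕ} [Fact p.Prime] {W I : Type} [AddCommGroup W] [Module (ZMod p) W]
    (B : I → Submodule (ZMod p) W) (hfin : ∀ x, {v | x ∉ B v}.Finite) (κ : W →ₗ[ZMod p] ZMod p)
    (h : ∀ x, (∀ v, x ∈ B v) → κ x = 0) :
    ∃ f : I → W →ₗ[ZMod p] ZMod p, (∀ v, ∀ x ∈ B v, f v x = 0) ∧
      (∀ x, (Function.support fun v => f v x).Finite) ∧ ∀ x, ∑ᶠ v, f v x = κ x := by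
  classical
  let F : W → (Π₀ v, W ⧸ B v) := fun x => DFinsupp.mk (hfin x).toFinset fun v => (B v).mkQ x
  have hF : ∀ x v, F x v = (B v).mkQ x := by
    intro x v
    simp only [F, DFinsupp.mk_apply]
    split_ifs with hv
    · rfl
    · have hv : x ∈ B v := by
        by_contra h0
        exact hv ((hfin x).mem_toFinset.2 h0)
      exact ((Submodule.Quotient.mk_eq_zero (B v)).2 hv).symm
  let Φ : W →ₗ[ZMod p] (Π₀ v, W ⧸ B v) :=
    { toFun := F
      map_add' := fun x y => by
        ext v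
        rw [DFinsupp.add_apply, hF, hF, hF, map_add]
      map_smul' := fun c x => by
        ext v
        rw [DFinsupp.smul_apply, hF, hF, map_smul, RingHom.id_apply] }
  have hΦ : ∀ x v, Φ x v = (B v).mkQ x := hF
  have hκ : κ ∈ LinearMap.range Φ.dualMap := by
    rw [LinearMap.range_dualMap_eq_dualAnnihilator_ker, Submodule.mem_dualAnnihilator]
    intro w hw
    refine h w fun v => ?_
    rw [LinearMap.mem_ker] at hw
    have h1 := hΦ w v
    rw [hw, DFinsupp.zero_apply] at h1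
    exact (Submodule.Quotient.mk_eq_zero (B v)).1 h1.symm
  obtain ⟨φ, hφ⟩ := hκ
  have hf : ∀ v x, φ (DFinsupp.single v ((B v).mkQ x)) ≠ 0 → v ∈ (Φ x).support := by
    intro v x hne
    rw [DFinsupp.mem_support_iff, hΦ]
    intro h0
    rw [h0, DFinsupp.single_zero, map_zero] at hne
    exact hne rfl
  refine ⟨fun v => φ.comp ((DFinsupp.lsingle v).comp (B v).mkQ), fun v x hx => ?_, fun x => ?_,
    fun x => ?_⟩
  · have h0 : (B v).mkQ x = 0 := (Submodule.Quotient.mk_eq_zero (B v)).2 hx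
    rw [LinearMap.comp_apply, LinearMap.comp_apply, h0, map_zero, map_zero]
  · exact (Φ x).support.finite_toSet.subset fun v hv => hf v x hv
  · have h1 : ∑ᶠ v, (φ.comp ((DFinsupp.lsingle v).comp (B v).mkQ)) x =
        ∑ v ∈ (Φ x).support, φ (DFinsupp.single v ((B v).mkQ x)) :=
      finsum_eq_sum_of_support_subset _ fun v hv => hf v x hv
    rw [h1, ← hφ, LinearMap.dualMap_apply]
    conv_rhs => rw [← DFinsupp.sum_single (f := Φ x)]
    rw [DFinsupp.sum, map_sum]
    exact Finset.sum_congr rfl fun v _ => by rw [hΦ]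

private theorem X1_mid {p : ℕ} [Fact p.Prime] {A W I : Type} [AddCommGroup A] [AddCommGroup W]
    [Module (ZMod p) W] (mk : A →+ W) (hmk : Function.Surjective mk)
    (B : I → AddSubgroup A) (hB : ∀ v x, mk x = 0 → x ∈ B v) (hfin : ∀ x, {v | x ∉ B v}.Finite)
    (κ : A →+ ZMod p) (hκ : ∀ x, mk x = 0 → κ x = 0) (h : ∀ x, (∀ v, x ∈ B v) → κ x = 0) :
    ∃ f : I → A →+ ZMod p, (∀ v, ∀ x ∈ B v, f v x = 0) ∧
      (∀ x, (Function.support fun v => f v x).Finite) ∧ ∀ x, ∑ᶠ v, f v x = κ x := by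
  let B' : I → Submodule (ZMod p) W := fun v => AddSubgroup.toZModSubmodule p ((B v).map mk)
  have hB' : ∀ (v : I) (x : A), mk x ∈ B' v ↔ x ∈ B v := by
    intro v x
    constructor
    · rintro ⟨y, hy, hxy⟩
      have h1 : mk (x - y) = 0 := by rw [map_sub, hxy, sub_self]
      have h2 := (B v).add_mem (hB v _ h1) hy
      rwa [sub_add_cancel] at h2
    · intro hx
      exact ⟨x, hx, rfl⟩
  have hs : Function.RightInverse (Function.surjInv hmk) mk := Function.rightInverse_surjInv hmk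
  have hd : ∀ x y, mk x = mk y → κ x = κ y := by
    intro x y hxy
    rw [← sub_eq_zero, ← map_sub]
    exact hκ _ (by rw [map_sub, hxy, sub_self])
  let κ' : W →+ ZMod p :=
    { toFun := fun w => κ (Function.surjInv hmk w)
      map_zero' := by
        rw [← κ.map_zero]
        exact hd _ _ (by rw [hs, map_zero])
      map_add' := fun a b => by
        rw [← map_add]
        exact hd _ _ (by rw [hs, map_add, hs, hs]) }
  have hκ' : ∀ x, κ' (mk x) = κ x := fun x => hd _ _ (hs _)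
  obtain ⟨f, h1, h2, h3⟩ := X1_lin B' (by
      intro x
      obtain ⟨x, rfl⟩ := hmk x
      refine (hfin x).subset fun v hv hx => hv ?_
      exact (hB' v x).2 hx) (κ'.toZModLinearMap p) (by
      intro x hx
      obtain ⟨x, rfl⟩ := hmk x
      exact (hκ' x).trans (h x fun v => (hB' v x).1 (hx v)))
  exact ⟨fun v => (f v).toAddMonoidHom.comp mk, fun v x hx => h1 v _ ((hB' v x).2 hx),
    fun x => h2 (mk x), fun x => (h3 (mk x)).trans (hκ' x)⟩

private theorem X1_grp {p : ℕ} [Fact p.Prime] {A I : Type} [AddCommGroup A]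
    (B : I → AddSubgroup A) (hB : ∀ v x, p • x ∈ B v) (hfin : ∀ x, {v | x ∉ B v}.Finite)
    (κ : A →+ ZMod p) (h : ∀ x, (∀ v, x ∈ B v) → κ x = 0) :
    ∃ f : I → A →+ ZMod p, (∀ v, ∀ x ∈ B v, f v x = 0) ∧
      (∀ x, (Function.support fun v => f v x).Finite) ∧ ∀ x, ∑ᶠ v, f v x = κ x := by
  let P : AddSubgroup A := (nsmulAddMonoidHom (α := A) p).range
  have hP0 : ∀ x : A, (QuotientAddGroup.mk' P) x = 0 ↔ ∃ y, p • y = x := by
    intro x
    rw [QuotientAddGroup.mk'_apply, QuotientAddGroup.eq_zero_iff]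
    exact Iff.rfl
  let _ : Module (ZMod p) (A ⧸ P) := AddCommGroup.zmodModule (by
    intro x
    induction x using QuotientAddGroup.induction_on with
    | H z =>
      rw [← QuotientAddGroup.mk_nsmul, QuotientAddGroup.eq_zero_iff]
      exact ⟨z, rfl⟩)
  refine X1_mid (QuotientAddGroup.mk' P) (QuotientAddGroup.mk'_surjective P) B ?_ hfin κ ?_ h
  · intro v x hx
    obtain ⟨y, rfl⟩ := (hP0 x).1 hx
    exact hB v y
  · intro x hx
    obtain ⟨y, rfl⟩ := (hP0 x).1 hx
    rw [map_nsmul]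
    simp

variable {K : Type} [Field K] [NumberField K]

private lemma mem_PP {p : ℕ} {x : Kˣ} : x ∈ PP K p ↔ ∃ y : Kˣ, y ^ p = x := RG.H.mem_PP

private lemma mem_UU_zero {v : Pr K} {x : Kˣ} (h : vl v x = 0) : x ∈ UU v 0 := by
  refine ⟨h, ?_⟩
  rw [Nat.cast_zero, neg_zero, WithZero.exp_zero]
  refine (Valuation.map_sub _ _ _).trans ?_
  rw [RG.H.vl_eq_zero.1 h, map_one, max_self]

theorem dual_loc {p : ℕ} [Fact p.Prime] (N : Pr K → Subgroup Kˣ) (hPP : ∀ v, PP K p ≤ N v)
    (F : Finset (Pr K)) (hF : ∀ v ∉ F, UU v 0 ≤ N v) (κ : Hm K p)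
    (h : ∀ x : Kˣ, (∀ v, x ∈ N v) → κ.ev x = 0) :
    ∃ f : Pr K → Hm K p, (∀ v, ∀ x ∈ N v, (f v).ev x = 0) ∧
      (∀ x, (Function.support fun v => (f v).ev x).Finite) ∧ ∀ x, ∑ᶠ v, (f v).ev x = κ.ev x := by
  classical
  obtain ⟨f, h1, h2, h3⟩ := X1_grp (A := Additive Kˣ) (fun v => (N v).toAddSubgroup)
    (by
      intro v x
      exact hPP v (mem_PP.2 ⟨Additive.toMul x, rfl⟩))
    (by
      intro x
      obtain ⟨S, hS⟩ := RG.H.fin_vl (Additive.toMul x)
      refine (F ∪ S).finite_toSet.subset fun v hv => ?_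
      by_contra h0
      rw [Finset.mem_coe, Finset.mem_union, not_or] at h0
      exact hv (hF v h0.1 (mem_UU_zero (hS v h0.2)))) κ (fun x hx => h (Additive.toMul x) hx)
  exact ⟨f, fun v x hx => h1 v (Additive.ofMul x) hx, fun x => h2 (Additive.ofMul x),
    fun x => h3 (Additive.ofMul x)⟩

end Pool.Agent.RGK
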