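import Mathlib
import Pool.Agent.Lib.RG.H10
import Pool.Agent.Lib.RG.H14
import Pool.Agent.Lib.RG.H15
import Pool.Agent.Lib.RG.HIdx
import Pool.Agent.Lib.RGK.XDefs

/-!
RG v4, row X2: local facts.

`index_PU`: `H.index_PU` (H11) with `n = 1`: the index is `p` times the number of elements of order
dividing `p` in the multiplicative group of the residue field (cyclic of order `nm v - 1`), i.e. `p`.
`gv_spec`: `UU v 0` is not contained in `PU p v`, because `PP ⊔ UU v 0` has index `p`.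
`unit_mem`: if `p ∣ vl v x` then `x = gv ^ k` modulo `PU p v` (`(PP ⊔ UU v 0) / PU p v` has order `p`).
`ev_PU`: a homomorphism to `ZMod p` which kills `UU v 1` kills `PU p v`.
`unram_iff`: `Kills f v 0 ↔ f = f(piv v) • vp`, also `↔ f (gv) = 0` if `Kills f v 1`.
`exists_tame`: a homomorphism `Kˣ → ZMod p` which kills `PU p v`, with value `1` at `gv`, `0` at `piv`
(`Kˣ ⧸ PU p v` is a vector space of dimension `2` with basis `gv`, `piv`).
-/

set_option autoImplicit false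

namespace Pool.Agent.RGK

open NumberField IsDedekindDomain
open Pool.Agent.RG (Above IsDec IsInert IsFrob)
open Pool.Agent.RG.H (Pr vl UU PP SU ev below nrm emb NS)

variable {K : Type} [Field K] [NumberField K]

private theorem mem_UU0_X2 {v : Pr K} {x : Kˣ} (h : vl v x = 0) : x ∈ UU v 0 :=
  RG.H.H11Aux.mem_A h

/-- a functional on a group of exponent `p` -/
private theorem exists_hom_X2 {G : Type} [AddCommGroup G] {p : ℕ} [Fact p.Prime]
    (hmod : ∀ x : G, p • x = 0) (g w : G) (hgw : ∀ c : ℕ, c • w ≠ g) :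
    ∃ f : G →+ ZMod p, f g = 1 ∧ f w = 0 := by
  have : Module (ZMod p) G := AddCommGroup.zmodModule (n := p) hmod
  have h1 : g ∉ (Submodule.span (ZMod p) ({w} : Set G) : Submodule (ZMod p) G) := by
    intro h
    obtain ⟨c, hc⟩ := Submodule.mem_span_singleton.1 h
    refine hgw c.val ?_
    rw [← hc, ← Nat.cast_smul_eq_nsmul (ZMod p), ZMod.natCast_zmod_val]
  obtain ⟨φ, hφ1, hφ2⟩ := Submodule.exists_le_ker_of_notMem h1
  refine ⟨((φ g)⁻¹ • φ).toAddMonoidHom, ?_, ?_⟩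
  · show (φ g)⁻¹ * φ g = 1
    exact inv_mul_cancel₀ hφ1
  · show (φ g)⁻¹ * φ w = 0
    have h1 : φ w = 0 := hφ2 (Submodule.mem_span_singleton_self w)
    rw [h1, mul_zero]

omit [NumberField K] in
private theorem ev_mul_X2 {p : ℕ} (f : Hm K p) (x y : Kˣ) : f.ev (x * y) = f.ev x + f.ev y := by
  unfold Hm.ev
  rw [ofMul_mul, map_add]

omit [NumberField K] in
private theorem ev_div_X2 {p : ℕ} (f : Hm K p) (x y : Kˣ) : f.ev (x / y) = f.ev x - f.ev y := by
  unfold Hm.ev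
  rw [ofMul_div, map_sub]

omit [NumberField K] in
private theorem ev_pow_X2 {p : ℕ} (f : Hm K p) (x : Kˣ) (n : ℕ) :
    f.ev (x ^ n) = (n : ZMod p) * f.ev x := by
  unfold Hm.ev
  rw [ofMul_pow, map_nsmul, nsmul_eq_mul]

omit [NumberField K] in
private theorem ev_zpow_X2 {p : ℕ} (f : Hm K p) (x : Kˣ) (n : ℤ) :
    f.ev (x ^ n) = (n : ZMod p) * f.ev x := by
  unfold Hm.ev
  rw [ofMul_zpow, map_zsmul, zsmul_eq_mul]

private theorem vl_zpow_X2 (v : Pr K) (x : Kˣ) (n : ℤ) : vl v (x ^ n) = n * vl v x := by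
  cases n with
  | ofNat n => rw [Int.ofNat_eq_natCast, zpow_natCast, RG.H.vl_pow]
  | negSucc n =>
    rw [zpow_negSucc, RG.H.vl_inv, RG.H.vl_pow, Int.negSucc_eq]
    push_cast
    ring

theorem index_PU1 {p : ℕ} [Fact p.Prime] {v : Pr K} (hv : nm v % p = 1) : (PU p v).index = p ^ 2 := by
  have hp : p.Prime := Fact.out
  unfold PU
  rw [RG.H.index_PU hp v le_rfl, pow_two]
  congr 1
  rw [pow_one]
  have : v.asIdeal.IsMaximal := v.isMaximal
  have : Finite (𝓞 K ⧸ v.asIdeal) := Ideal.finiteQuotientOfFreeOfNeBot _ v.ne_bot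
  let _ : Field (𝓞 K ⧸ v.asIdeal) := Ideal.Quotient.field _
  have h1 : Nat.card (𝓞 K ⧸ v.asIdeal) = nm v := by
    unfold nm
    rw [Ideal.absNorm_apply, Submodule.cardQuot_apply]
  have h2 : Nat.card (𝓞 K ⧸ v.asIdeal)ˣ = nm v - 1 := by
    rw [Nat.card_units, h1]
  have h3 : Nat.card {x : (𝓞 K ⧸ v.asIdeal)ˣ // x ^ p = 1} =
      Nat.card (powMonoidHom p : (𝓞 K ⧸ v.asIdeal)ˣ →* (𝓞 K ⧸ v.asIdeal)ˣ).ker := by
    refine Nat.card_congr (Equiv.subtypeEquivRight fun x => ?_)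
    rw [MonoidHom.mem_ker]
    rfl
  rw [h3, IsCyclic.card_powMonoidHom_ker, h2]
  refine Nat.gcd_eq_right ?_
  have h4 := Nat.div_add_mod (nm v) p
  rw [hv] at h4
  exact ⟨nm v / p, by omega⟩

private theorem PU_le_X2 {p : ℕ} (v : Pr K) : PU p v ≤ PP K p ⊔ UU v 0 :=
  sup_le_sup_left (RG.H.UU_mono v (Nat.zero_le 1)) _

private theorem mem_sup_X2 {p : ℕ} {v : Pr K} {x : Kˣ} (hx : (p : ℤ) ∣ vl v x) :
    x ∈ PP K p ⊔ UU v 0 := by
  have h := RG.H.H11Aux.sup_eq_ker (p := p) v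
  have h1 : x ∈ (RG.H.H11Aux.vlp p v).ker := by
    rw [MonoidHom.mem_ker]
    have h2 : ((vl v x : ℤ) : ZMod p) = 0 := (ZMod.intCast_zmod_eq_zero_iff_dvd _ _).2 hx
    show Multiplicative.ofAdd ((vl v x : ℤ) : ZMod p) = 1
    rw [h2, ofAdd_zero]
  rw [← h] at h1
  exact h1

theorem gv_spec {p : ℕ} [Fact p.Prime] {v : Pr K} (hv : nm v % p = 1) :
    vl v (gv p v) = 0 ∧ gv p v ∉ PU p v := by
  have hp : p.Prime := Fact.out
  have hex : ∃ x : Kˣ, vl v x = 0 ∧ x ∉ PU p v := by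
    by_contra hcon
    push Not at hcon
    have h1 : PP K p ⊔ UU v 0 ≤ PU p v := by
      refine sup_le le_sup_left fun x hx => hcon x hx.1
    have h2 : PU p v = PP K p ⊔ UU v 0 := le_antisymm (PU_le_X2 v) h1
    have h3 := index_PU1 hv
    rw [h2, RG.H.H11Aux.index_sup hp v, pow_two] at h3
    have h4 := hp.one_lt
    have h5 : p * 1 < p * p := Nat.mul_lt_mul_of_pos_left h4 hp.pos
    omega
  unfold gv
  rw [dif_pos hex]
  exact hex.choose_spec

theorem unit_mem {p : ℕ} [Fact p.Prime] {v : Pr K} (hv : nm v % p = 1) {x : Kˣ}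
    (hx : (p : ℤ) ∣ vl v x) : ∃ k : ℕ, x / gv p v ^ k ∈ PU p v := by
  have hp : p.Prime := Fact.out
  obtain ⟨hg0, hg1⟩ := gv_spec hv
  set M : Subgroup Kˣ := PU p v ⊔ Subgroup.zpowers (gv p v) with hM
  have hle1 : PU p v ≤ M := le_sup_left
  have hgM : gv p v ∈ M := (le_sup_right : Subgroup.zpowers (gv p v) ≤ M)
    (Subgroup.mem_zpowers _)
  have hle2 : M ≤ PP K p ⊔ UU v 0 := by
    refine sup_le (PU_le_X2 v) ?_
    rw [Subgroup.zpowers_le]
    exact mem_sup_X2 (by rw [hg0]; exact dvd_zero _)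
  have h1 : (PU p v).relIndex (PP K p ⊔ UU v 0) = p := by
    have h2 := Subgroup.relIndex_mul_index (PU_le_X2 (p := p) v)
    rw [index_PU1 hv, RG.H.H11Aux.index_sup hp v, pow_two] at h2
    exact Nat.eq_of_mul_eq_mul_right hp.pos h2
  have h2 := Subgroup.relIndex_mul_relIndex _ _ _ hle1 hle2
  rw [h1] at h2
  have h3 : M.relIndex (PP K p ⊔ UU v 0) = 1 := by
    have h4 : (PU p v).relIndex M ∣ p := ⟨_, h2.symm⟩
    rcases (Nat.dvd_prime hp).1 h4 with h5 | h5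
    · rw [Subgroup.relIndex_eq_one] at h5
      exact absurd (h5 hgM) hg1
    · rw [h5] at h2
      have h6 : p * M.relIndex (PP K p ⊔ UU v 0) = p * 1 := by rw [h2, mul_one]
      exact Nat.eq_of_mul_eq_mul_left hp.pos h6
  rw [Subgroup.relIndex_eq_one] at h3
  have hxM : x ∈ M := h3 (mem_sup_X2 hx)
  obtain ⟨a, ha, b, hb, hab⟩ := Subgroup.mem_sup.1 hxM
  obtain ⟨m, rfl⟩ := Subgroup.mem_zpowers_iff.1 hb
  have : NeZero p := ⟨hp.ne_zero⟩
  refine ⟨(m % (p : ℤ)).toNat, ?_⟩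
  have hm0 : 0 ≤ m % (p : ℤ) := Int.emod_nonneg _ (by exact_mod_cast hp.ne_zero)
  have e1 : gv p v ^ (m % (p : ℤ)).toNat = gv p v ^ (m % (p : ℤ)) := by
    rw [← zpow_natCast, Int.toNat_of_nonneg hm0]
  have e2 : x / gv p v ^ (m % (p : ℤ)).toNat = a * (gv p v ^ (m / (p : ℤ))) ^ p := by
    rw [e1, ← hab, mul_div_assoc, div_eq_mul_inv, ← zpow_sub, ← zpow_natCast, ← zpow_mul]
    congr 2
    have := Int.emod_add_mul_ediv m (p : ℤ)
    linarith [mul_comm (m / (p : ℤ)) (p : ℤ)]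
  rw [e2]
  refine (PU p v).mul_mem ha ?_
  exact (le_sup_left : PP K p ≤ PU p v) (RG.H.mem_PP.2 ⟨_, rfl⟩)

theorem ev_PU {p : ℕ} [Fact p.Prime] {v : Pr K} {f : Hm K p} (hf : Kills f v 1) {x : Kˣ}
    (hx : x ∈ PU p v) : f.ev x = 0 := by
  obtain ⟨a, ha, b, hb, rfl⟩ := Subgroup.mem_sup.1 hx
  obtain ⟨y, rfl⟩ := RG.H.mem_PP.1 ha
  rw [ev_mul_X2, ev_pow_X2, hf b hb, CharP.cast_eq_zero, zero_mul, zero_add]

theorem unram_iff {p : ℕ} [Fact p.Prime] {v : Pr K} {f : Hm K p} :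
    Kills f v 0 ↔ f = f.ev (piv v) • vp p v := by
  constructor
  · intro h
    ext x
    have h1 : vl v ((Additive.toMul x) / piv v ^ vl v (Additive.toMul x)) = 0 := by
      rw [RG.H.vl_div, vl_zpow_X2, vl_piv, mul_one, sub_self]
    have h2 := h _ (mem_UU0_X2 h1)
    rw [ev_div_X2, ev_zpow_X2, sub_eq_zero] at h2
    show f.ev (Additive.toMul x) = f.ev (piv v) * ((vl v (Additive.toMul x) : ℤ) : ZMod p)
    rw [h2, mul_comm]
  · intro h x hx
    rw [h]
    show f.ev (piv v) * ((vl v x : ℤ) : ZMod p) = 0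
    rw [hx.1, Int.cast_zero, mul_zero]

theorem unram_iff' {p : ℕ} [Fact p.Prime] {v : Pr K} (hv : nm v % p = 1) {f : Hm K p}
    (hf : Kills f v 1) : Kills f v 0 ↔ f.ev (gv p v) = 0 := by
  constructor
  · intro h
    exact h _ (mem_UU0_X2 (gv_spec hv).1)
  · intro h x hx
    obtain ⟨k, hk⟩ := unit_mem hv (x := x) (by rw [hx.1]; exact dvd_zero _)
    have h1 := ev_PU hf hk
    rw [ev_div_X2, ev_pow_X2, h, mul_zero, sub_zero] at h1
    exact h1

theorem exists_tame {p : ℕ} [Fact p.Prime] {v : Pr K} (hv : nm v % p = 1) :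
    ∃ f : Hm K p, Kills f v 1 ∧ f.ev (gv p v) = 1 ∧ f.ev (piv v) = 0 := by
  have hp : p.Prime := Fact.out
  obtain ⟨hg0, hg1⟩ := gv_spec hv
  have hmod : ∀ x : Additive (Kˣ ⧸ PU p v), p • x = 0 := by
    intro x
    obtain ⟨y, hy⟩ := QuotientGroup.mk_surjective (Additive.toMul x)
    have h1 : (Additive.toMul x) ^ p = 1 := by
      rw [← hy, ← QuotientGroup.mk_pow, QuotientGroup.eq_one_iff]
      exact (le_sup_left : PP K p ≤ PU p v) (RG.H.mem_PP.2 ⟨_, rfl⟩)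
    exact congrArg Additive.ofMul h1
  obtain ⟨φ, hφ1, hφ2⟩ := exists_hom_X2 hmod (Additive.ofMul (gv p v : Kˣ ⧸ PU p v))
    (Additive.ofMul (piv v : Kˣ ⧸ PU p v)) (by
      intro c hc
      have h1 : ((piv v ^ c : Kˣ) : Kˣ ⧸ PU p v) = (gv p v : Kˣ ⧸ PU p v) := by
        rw [QuotientGroup.mk_pow]
        exact congrArg Additive.toMul hc
      rw [QuotientGroup.eq] at h1
      have h2 := PU_le_X2 v h1
      rw [RG.H.H11Aux.sup_eq_ker, MonoidHom.mem_ker] at h2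
      have h3 : ((vl v ((piv v ^ c)⁻¹ * gv p v) : ℤ) : ZMod p) = 0 := h2
      rw [RG.H.vl_mul, RG.H.vl_inv, RG.H.vl_pow, vl_piv, hg0, add_zero, mul_one, Int.cast_neg,
        neg_eq_zero, Int.cast_natCast, ZMod.natCast_eq_zero_iff] at h3
      obtain ⟨d, rfl⟩ := h3
      apply hg1
      have h4 : gv p v = (piv v ^ d) ^ p * ((piv v ^ (p * d))⁻¹ * gv p v) := by
        rw [← pow_mul, mul_comm d p, mul_inv_cancel_left]
      rw [h4]
      exact (PU p v).mul_mem ((le_sup_left : PP K p ≤ PU p v) (RG.H.mem_PP.2 ⟨_, rfl⟩)) h1)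
  let q : Additive Kˣ →+ Additive (Kˣ ⧸ PU p v) :=
    MonoidHom.toAdditive (QuotientGroup.mk' (PU p v))
  refine ⟨φ.comp q, ?_, hφ1, hφ2⟩
  intro x hx
  have h1 : q (Additive.ofMul x) = 0 := by
    have h2 : (x : Kˣ ⧸ PU p v) = 1 :=
      (QuotientGroup.eq_one_iff x).2 ((le_sup_right : UU v 1 ≤ PU p v) hx)
    exact congrArg Additive.ofMul h2
  show φ (q (Additive.ofMul x)) = 0
  rw [h1, map_zero]

theorem PP_le_VS {p : ℕ} (T : Set (Pr K)) : PP K p ≤ VS p T := by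
  intro x hx v _
  obtain ⟨y, rfl⟩ := RG.H.mem_PP.1 hx
  rw [RG.H.vl_pow]
  exact dvd_mul_right _ _

end Pool.Agent.RGK
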