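import Mathlib
import Pool.Agent.Lib.RG.H10
import Pool.Agent.Lib.RG.H14
import Pool.Agent.Lib.RG.H15
import Pool.Agent.Lib.RG.HIdx
import Pool.Agent.Lib.RGK.XDefs

/-!
RG v4, row X2b: `VS p T / PP` is finite.

`finite_VS`: let `S` contain `T` and be such that the primes outside `S` are principal up to `S`
(`exists_principal` in H14 is private; `exists_good` (H14) for `L = K` or copy the proof): an element of
`VS p T` is a `p`-th power times an `S`-unit; `SU S` is finitely generated (`fg_SU`, H15).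
-/

set_option autoImplicit false

namespace Pool.Agent.RGK

open NumberField IsDedekindDomain
open Pool.Agent.RG (Above IsDec IsInert IsFrob)
open Pool.Agent.RG.H (Pr vl UU PP SU ev below nrm emb NS)

variable {K : Type} [Field K] [NumberField K]

private lemma X2b_vl_zpow (v : Pr K) (x : Kˣ) (n : ℤ) : vl v (x ^ n) = n * vl v x := by
  rcases n.eq_nat_or_neg with ⟨j, rfl | rfl⟩
  · rw [zpow_natCast, RG.H.vl_pow]
  · rw [zpow_neg, RG.H.vl_inv, zpow_natCast, RG.H.vl_pow]
    ring

private lemma X2b_vl_prod (v : Pr K) (F : Finset (Pr K)) (g : Pr K → Kˣ) :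
    vl v (∏ w ∈ F, g w) = ∑ w ∈ F, vl v (g w) := by
  classical
  induction F using Finset.induction_on with
  | empty => simp
  | insert a s ha ih => rw [Finset.prod_insert ha, Finset.sum_insert ha, RG.H.vl_mul, ih]

private lemma X2b_rel {p : ℕ} [Fact p.Prime] (S : Finset (Pr K)) :
    (PP K p).relIndex (SU S) ≠ 0 := by
  have hfg : Group.FG (SU S) := RG.H.fg_SU S
  have h1 : Group.FG (SU S ⧸ (PP K p).subgroupOf (SU S)) := QuotientGroup.fg _
  have h2 : Finite (SU S ⧸ (PP K p).subgroupOf (SU S)) := by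
    apply CommGroup.finite_of_fg_isMulTorsion
    intro q
    induction q using QuotientGroup.induction_on with
    | H x =>
      rw [isOfFinOrder_iff_pow_eq_one]
      refine ⟨p, (Fact.out : p.Prime).pos, ?_⟩
      rw [← QuotientGroup.mk_pow, QuotientGroup.eq_one_iff, Subgroup.mem_subgroupOf]
      exact RG.H.mem_PP.2 ⟨x.1, rfl⟩
  exact Subgroup.index_ne_zero_of_finite

theorem finite_VS {p : ℕ} [Fact p.Prime] {T : Set (Pr K)} (hT : T.Finite) :
    (PP K p).relIndex (VS p T) ≠ 0 := by
  classical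
  obtain ⟨S, hTS, hS⟩ := RG.H.exists_good (K := K) (L := K) (p := p) Fact.out hT.toFinset
  have hle : VS p T ≤ PP K p ⊔ SU S := by
    intro x hx
    obtain ⟨F, hF⟩ := RG.H.fin_vl x
    choose ϖ hϖ1 hϖ2 using hS.prK
    let g : Pr K → Kˣ := fun v => if h : v ∉ S then (ϖ v h) ^ (vl v x / p) else 1
    let y : Kˣ := ∏ v ∈ F, g v
    have hg : ∀ v ∉ S, ∀ w, w ≠ v → vl v (g w) = 0 := by
      intro v hv w hwv
      by_cases h : w ∉ S
      · have e : g w = (ϖ w h) ^ (vl w x / p) := dif_pos h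
        rw [e, X2b_vl_zpow, hϖ2 w h v hv hwv.symm, mul_zero]
      · have e : g w = 1 := dif_neg h
        rw [e, RG.H.vl_one]
    have hg' : ∀ v ∉ S, vl v (g v) = vl v x / p := by
      intro v hv
      have e : g v = (ϖ v hv) ^ (vl v x / p) := dif_pos hv
      rw [e, X2b_vl_zpow, hϖ1 v hv, mul_one]
    have hy : ∀ v ∉ S, vl v y = vl v x / p := by
      intro v hv
      rw [X2b_vl_prod]
      by_cases hvF : v ∈ F
      · rw [Finset.sum_eq_single_of_mem v hvF (fun w _ hw => hg v hv w hw), hg' v hv]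
      · rw [Finset.sum_eq_zero (fun w hw => hg v hv w (fun e => hvF (e ▸ hw))),
          RG.H.mem_SU.1 hF v hvF, Int.zero_ediv]
    rw [Subgroup.mem_sup]
    refine ⟨y ^ p, RG.H.mem_PP.2 ⟨y, rfl⟩, x / y ^ p, ?_, by simp⟩
    rw [RG.H.mem_SU]
    intro v hv
    have hvT : v ∉ T := fun h => hv (hTS (by simpa using h))
    have hdv : (p : ℤ) ∣ vl v x := hx v hvT
    rw [RG.H.vl_div, RG.H.vl_pow, hy v hv, Int.mul_ediv_cancel' hdv, sub_self]
  intro h0
  have h1 := Subgroup.relIndex_eq_zero_of_le_right hle h0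
  rw [Subgroup.relIndex_sup_left] at h1
  exact X2b_rel S h1

end Pool.Agent.RGK
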