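import Mathlib
import Pool.Agent.Lib.RG.H01
import Pool.Agent.Lib.RG.H10
import Pool.Agent.Lib.RG.H14
import Pool.Agent.Lib.RGK.XDefs
import Pool.Agent.Lib.RGK.X2

/-!
RG v4, row X3: elementary properties of the spaces `GC p T`.

`GC.ext_off`: `f - g` is zero outside `T`; for `t ∈ T` and `x : Kˣ` choose `y` with `y / x ∈ UU t 1` and
`y ∈ UU t' 1` for the other `t' ∈ T` (`H.weak_approx`): `0 = ∑ (f - g) v y = (f - g) t x`.
`finite_GC`: let `S` be finite, contain `T`, with all primes outside `S` principal up to `S` (H14); the map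
to the finite set of the families `(f v)_{v ∈ S}` of homomorphisms `Kˣ ⧸ (PP ⊔ UU v 1) → ZMod p`
is injective: for `w ∉ S`, `0 = ∑ f v (ϖ w) = f w (ϖ w) + (terms in S)`. (The space of the homomorphisms
`Kˣ → ZMod p` which kill `UU v 1` is finite, because `PP ⊔ UU v 1` has finite index: `H.index_PU`.)
-/

set_option autoImplicit false

namespace Pool.Agent.RGK

open NumberField IsDedekindDomain
open Pool.Agent.RG (Above IsDec IsInert IsFrob)
open Pool.Agent.RG.H (Pr vl UU PP SU ev below nrm emb NS)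

variable {K : Type} [Field K] [NumberField K]

private lemma X3_mul {p : ℕ} (f : Hm K p) (x y : Kˣ) : f.ev (x * y) = f.ev x + f.ev y :=
  map_add f (Additive.ofMul x) (Additive.ofMul y)

private lemma X3_div {p : ℕ} (f : Hm K p) (x y : Kˣ) : f.ev (x / y) = f.ev x - f.ev y :=
  map_sub f (Additive.ofMul x) (Additive.ofMul y)

private lemma X3_UU0 {v : Pr K} {x : Kˣ} (h : vl v x = 0) : x ∈ UU v 0 := by
  refine ⟨h, ?_⟩
  rw [Nat.cast_zero, neg_zero, WithZero.exp_zero]
  refine (Valuation.map_sub _ _ _).trans ?_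
  rw [RG.H.vl_eq_zero.1 h, map_one, max_self]

theorem GC.mono {p : ℕ} {T T' : Set (Pr K)} (h : T ⊆ T') : GC p T ≤ GC p T' := by
  classical
  rintro f ⟨h1, h2, h3, h4⟩
  refine ⟨fun v hv => h1 v (fun hh => hv (h hh)), fun v _ => ?_, h3, h4⟩
  by_cases hvT : v ∈ T
  · exact h2 v hvT
  · exact fun x hx => h1 v hvT x (RG.H.UU_mono v (Nat.zero_le 1) hx)

theorem GC.unram {p : ℕ} {T : Set (Pr K)} {f : Pr K → Hm K p} (hf : f ∈ GC p T) {v : Pr K}
    (h : Kills (f v) v 0) : f ∈ GC p (T \ {v}) := by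
  classical
  obtain ⟨h1, h2, h3, h4⟩ := hf
  refine ⟨fun w hw => ?_, fun w hw => h2 w hw.1, h3, h4⟩
  by_cases hwv : w = v
  · rw [hwv]
    exact h
  · exact h1 w (fun hwT => hw ⟨hwT, hwv⟩)

theorem GC.off {p : ℕ} [Fact p.Prime] {T : Set (Pr K)} {f : Pr K → Hm K p} (hf : f ∈ GC p T)
    {v : Pr K} (hv : v ∉ T) : f v = (f v).ev (piv v) • vp p v :=
  unram_iff.1 (hf.1 v hv)

private lemma X3_ev_of_single {p : ℕ} {T : Set (Pr K)} {d : Pr K → Hm K p} (hd : d ∈ GC p T)
    {t : Pr K} {y : Kˣ} (h : ∀ v, v ≠ t → (d v).ev y = 0) : (d t).ev y = 0 := by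
  have h4 := hd.2.2.2 y
  rw [finsum_eq_single _ t h] at h4
  exact h4

theorem GC.ext_off {p : ℕ} {T : Set (Pr K)} (hT : T.Finite) {f g : Pr K → Hm K p}
    (hf : f ∈ GC p T) (hg : g ∈ GC p T) (h : ∀ v ∉ T, f v = g v) : f = g := by
  classical
  have hd : f - g ∈ GC p T := Submodule.sub_mem _ hf hg
  rw [← sub_eq_zero]
  have hoff : ∀ v ∉ T, (f - g) v = 0 := by
    intro v hv
    rw [Pi.sub_apply, h v hv, sub_self]
  funext t
  by_cases ht : t ∈ T
  · have key : ∀ x : Kˣ, ((f - g) t).ev x = 0 := by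
      intro x
      obtain ⟨y, hy⟩ := RG.H.weak_approx hT.toFinset (fun v => if v = t then x else 1) 1
      have hyt : y / x ∈ UU t 1 := by
        have := hy t (by simpa using ht)
        simpa using this
      have hy' : ∀ v ∈ T, v ≠ t → y ∈ UU v 1 := by
        intro v hv hvt
        have := hy v (by simpa using hv)
        simpa [hvt] using this
      have h1 : ((f - g) t).ev y = 0 := by
        apply X3_ev_of_single hd
        intro v hvt
        by_cases hv : v ∈ T
        · exact hd.2.1 v hv y (hy' v hv hvt)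
        · rw [hoff v hv]
          rfl
      have h2 := hd.2.1 t ht _ hyt
      rw [X3_div, h1, zero_sub, neg_eq_zero] at h2
      exact h2
    ext x
    exact key (Additive.toMul x)
  · exact hoff t ht

private lemma X3_fin {p : ℕ} [Fact p.Prime] (v : Pr K) : Finite {h : Hm K p // Kills h v 1} := by
  classical
  have hidx : (PU p v).index ≠ 0 := by
    have h1 := RG.H.index_PU (Fact.out : p.Prime) v (le_refl 1)
    have h2 : (PU p v).index = _ := h1
    rw [h2]
    have h3 : Finite (𝓞 K ⧸ v.asIdeal ^ 1) := RG.H.H11Aux.finite_quot v 1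
    have h4 : Nonempty {x : (𝓞 K ⧸ v.asIdeal ^ 1)ˣ // x ^ p = 1} := ⟨⟨1, one_pow p⟩⟩
    exact Nat.mul_ne_zero (Fact.out : p.Prime).ne_zero Nat.card_pos.ne'
  have hfin : Finite (Kˣ ⧸ PU p v) := Nat.finite_of_card_ne_zero hidx
  have hp : Finite (ZMod p) := by
    have : NeZero p := ⟨(Fact.out : p.Prime).ne_zero⟩
    infer_instance
  refine Finite.of_injective
    (fun h : {h : Hm K p // Kills h v 1} => fun q : Kˣ ⧸ PU p v => h.1.ev (Quotient.out q)) ?_
  rintro ⟨f, hf⟩ ⟨g, hg⟩ hfg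
  apply Subtype.ext
  ext x
  have h1 := congrFun hfg (QuotientGroup.mk (Additive.toMul x))
  have h2 : (Quotient.out (QuotientGroup.mk (Additive.toMul x) : Kˣ ⧸ PU p v))⁻¹ * Additive.toMul x ∈
      PU p v := by
    rw [← QuotientGroup.eq]
    exact QuotientGroup.out_eq' _
  have h3 := ev_PU hf h2
  have h4 := ev_PU hg h2
  have h5 : ∀ k : Hm K p, k.ev (Additive.toMul x) =
      k.ev (Quotient.out (QuotientGroup.mk (Additive.toMul x) : Kˣ ⧸ PU p v)) +
      k.ev ((Quotient.out (QuotientGroup.mk (Additive.toMul x) : Kˣ ⧸ PU p v))⁻¹ *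
        Additive.toMul x) := by
    intro k
    rw [← X3_mul, mul_inv_cancel_left]
  have h6 : f.ev (Additive.toMul x) = g.ev (Additive.toMul x) := by
    rw [h5 f, h5 g, h3, h4]
    exact congrArg (fun z => z + 0) h1
  exact h6

theorem finite_GC {p : ℕ} [Fact p.Prime] {T : Set (Pr K)} (hT : T.Finite) :
    Finite (GC p T) := by
  classical
  obtain ⟨S, hTS, hS⟩ := RG.H.exists_good (K := K) (L := K) (p := p) Fact.out hT.toFinset
  have hTS' : ∀ v ∈ T, v ∈ S := fun v hv => hTS (by simpa using hv)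
  have hk : ∀ (f : GC p T) (v : Pr K), Kills (f.1 v) v 1 := by
    intro f v
    by_cases hv : v ∈ T
    · exact f.2.2.1 v hv
    · exact fun x hx => f.2.1 v hv x (RG.H.UU_mono v (Nat.zero_le 1) hx)
  have hfin : ∀ v : S, Finite {h : Hm K p // Kills h v.1 1} := fun v => X3_fin v.1
  refine Finite.of_injective
    (fun (f : GC p T) => fun v : S => (⟨f.1 v.1, hk f v.1⟩ : {h : Hm K p // Kills h v.1 1})) ?_
  intro f g hfg
  apply Subtype.ext
  have hd : f.1 - g.1 ∈ GC p T := Submodule.sub_mem _ f.2 g.2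
  rw [← sub_eq_zero]
  have hon : ∀ v ∈ S, (f.1 - g.1) v = 0 := by
    intro v hv
    have h1 := congrFun hfg ⟨v, hv⟩
    have h2 : f.1 v = g.1 v := congrArg Subtype.val h1
    rw [Pi.sub_apply, h2, sub_self]
  funext w
  by_cases hw : w ∈ S
  · exact hon w hw
  · obtain ⟨ϖ, hϖ1, hϖ2⟩ := hS.prK w hw
    have hwT : w ∉ T := fun h => hw (hTS' w h)
    have h1 : ((f.1 - g.1) w).ev ϖ = 0 := by
      apply X3_ev_of_single hd
      intro v hvw
      by_cases hv : v ∈ S
      · rw [hon v hv]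
        rfl
      · exact hd.1 v (fun h => hv (hTS' v h)) ϖ (X3_UU0 (hϖ2 v hv hvw))
    have h2 := GC.off hd hwT
    have h3 : ((f.1 - g.1) w).ev ϖ =
        ((f.1 - g.1) w).ev (piv w) * ((vl w ϖ : ℤ) : ZMod p) := by
      conv_lhs => rw [h2]
      rfl
    rw [h1, hϖ1, Int.cast_one, mul_one] at h3
    rw [h2, ← h3, zero_smul]
    rfl

end Pool.Agent.RGK
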