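import Mathlib
import Pool.Agent.Lib.RGK.XDefs
import Pool.Agent.Lib.RGK.X1
import Pool.Agent.Lib.RGK.X2
import Pool.Agent.Lib.RGK.X3

/-!
RG v4, row X4: characters ramified at one more prime.

`exists_next`: apply `dual_loc` (X1) to `N v := {x | p ∣ vl v x}` (`RG.H.Dv`) for `v ∉ T`, `N t := ⊤` for
`t ∈ T`, and the functional `- κ - ∑ t ∈ T, μ t`, which kills `VS p T`; add `κ` at `s` and `μ t` at `t ∈ T`.
`exists_ram`: `dual_loc` with `N v := Dv` for `v ∉ T`, `N t := PU p t` for `t ∈ T`, the intersection is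
`VT p T ≤ PP`, and the functional `- κ`, `κ` tamely ramified at `s` (`exists_tame`); add `κ` at `s`.
`finrank_insert`: `f ↦ (f s).ev (gv p s)` on `GC p (insert s T)` has kernel `GC p T` (`unram_iff'`,
`GC.unram`) and is not zero.
-/

set_option autoImplicit false

namespace Pool.Agent.RGK

open NumberField IsDedekindDomain
open Pool.Agent.RG (Above IsDec IsInert IsFrob)
open Pool.Agent.RG.H (Pr vl UU PP SU ev below nrm emb NS)

variable {K : Type} [Field K] [NumberField K]

private theorem X4_PP_Dv {p : ℕ} (v : Pr K) : PP K p ≤ RG.H.Dv p v := by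
  intro x hx
  obtain ⟨y, rfl⟩ := RG.H.mem_PP.1 hx
  rw [RG.H.mem_Dv, RG.H.vl_pow]
  exact dvd_mul_right _ _

private theorem X4_UU_Dv {p : ℕ} (v : Pr K) : UU v 0 ≤ RG.H.Dv p v := by
  intro x hx
  rw [RG.H.mem_Dv, (RG.H.mem_UU.1 hx).1]
  exact dvd_zero _

private theorem X4_UU1 (v : Pr K) : UU v 1 ≤ UU v 0 :=
  fun _ hx => RG.H.UU_mono v (Nat.zero_le 1) hx

private theorem X4_core {p : ℕ} [Fact p.Prime] (N : Pr K → Subgroup Kˣ)
    (hPP : ∀ v, PP K p ≤ N v) (hU1 : ∀ v, UU v 1 ≤ N v) (F : Finset (Pr K))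
    (hF : ∀ v ∉ F, UU v 0 ≤ N v) (g : Pr K → Hm K p) (hg0 : ∀ v ∉ F, g v = 0)
    (hg1 : ∀ v ∈ F, Kills (g v) v 1)
    (h : ∀ x : Kˣ, (∀ v, x ∈ N v) → ∑ v ∈ F, (g v).ev x = 0) :
    ∃ f' : Pr K → Hm K p, (∀ v, ∀ x ∈ N v, (f' v).ev x = 0) ∧ f' + g ∈ GC p (F : Set (Pr K)) := by
  classical
  have hsum : ∀ x : Kˣ, (-∑ v ∈ F, g v : Hm K p).ev x = - ∑ v ∈ F, (g v).ev x := by
    intro x
    show (-∑ v ∈ F, g v : Hm K p) (Additive.ofMul x) = _
    rw [AddMonoidHom.neg_apply, AddMonoidHom.finsetSum_apply]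
    rfl
  obtain ⟨f', h1, h2, h3⟩ := dual_loc N hPP F hF (-∑ v ∈ F, g v) (fun x hx => by
    rw [hsum, h x hx, neg_zero])
  have hgs : ∀ x : Kˣ, (Function.support fun v => (g v).ev x) ⊆ (F : Set (Pr K)) := by
    intro x v hv
    by_contra hvF
    rw [Function.mem_support] at hv
    apply hv
    rw [hg0 v hvF]
    rfl
  refine ⟨f', h1, fun v hv x hx => ?_, fun v hv x hx => ?_, fun x => ?_, fun x => ?_⟩
  · show (f' v).ev x + (g v).ev x = 0
    rw [h1 v x (hF v hv hx), hg0 v hv]
    exact add_zero _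
  · show (f' v).ev x + (g v).ev x = 0
    rw [h1 v x (hU1 v hx), hg1 v hv x hx, add_zero]
  · exact ((h2 x).union (F.finite_toSet.subset (hgs x))).subset (Function.support_add _ _)
  · show ∑ᶠ v, ((f' v).ev x + (g v).ev x) = 0
    rw [finsum_add_distrib (h2 x) (F.finite_toSet.subset (hgs x)), h3 x, hsum,
      finsum_eq_sum_of_support_subset _ (hgs x), neg_add_cancel]

theorem exists_next {p : ℕ} [Fact p.Prime] {T : Set (Pr K)} (hT : T.Finite) {s : Pr K} (hs : s ∉ T)
    (μ : Pr K → Hm K p) (hμ : ∀ t ∈ T, Kills (μ t) t 1) (κ : Hm K p) (hκ : Kills κ s 1)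
    (h : ∀ x ∈ VS p T, κ.ev x + ∑ t ∈ hT.toFinset, (μ t).ev x = 0) :
    ∃ f ∈ GC p (insert s T), (∀ t ∈ T, f t = μ t) ∧ ∃ c : ZMod p, f s = κ + c • vp p s := by
  classical
  set N : Pr K → Subgroup Kˣ := fun v => if v ∈ T then ⊤ else RG.H.Dv p v with hN
  have hNT : ∀ v ∈ T, N v = ⊤ := fun v hv => if_pos hv
  have hNv : ∀ v ∉ T, N v = RG.H.Dv p v := fun v hv => if_neg hv
  set g : Pr K → Hm K p := fun v => if v = s then κ else if v ∈ T then μ v else 0 with hg
  have hgs : g s = κ := if_pos rfl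
  have hgT : ∀ t ∈ T, g t = μ t := fun t ht => by
    rw [hg]; dsimp only
    rw [if_neg (show t ≠ s from fun e => hs (e ▸ ht)), if_pos ht]
  have hg0 : ∀ v, v ≠ s → v ∉ T → g v = 0 := fun v h1 h2 => by
    rw [hg]; dsimp only
    rw [if_neg h1, if_neg h2]
  have hsF : s ∉ hT.toFinset := by rwa [Set.Finite.mem_toFinset]
  have hU0 : ∀ v, UU v 0 ≤ N v := by
    intro v
    by_cases hv : v ∈ T
    · rw [hNT v hv]; exact le_top
    · rw [hNv v hv]; exact X4_UU_Dv v
  obtain ⟨f', h1, h2⟩ := X4_core N (fun v => by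
      by_cases hv : v ∈ T
      · rw [hNT v hv]; exact le_top
      · rw [hNv v hv]; exact X4_PP_Dv v)
    (fun v => (X4_UU1 v).trans (hU0 v)) (insert s hT.toFinset) (fun v _ => hU0 v) g
    (fun v hv => by
      rw [Finset.mem_insert, Set.Finite.mem_toFinset, not_or] at hv
      exact hg0 v hv.1 hv.2)
    (fun v hv => by
      rw [Finset.mem_insert, Set.Finite.mem_toFinset] at hv
      rcases hv with rfl | hv
      · rw [hgs]; exact hκ
      · rw [hgT v hv]; exact hμ v hv)
    (fun x hx => by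
      rw [Finset.sum_insert hsF, hgs]
      have e : ∑ t ∈ hT.toFinset, (g t).ev x = ∑ t ∈ hT.toFinset, (μ t).ev x :=
        Finset.sum_congr rfl fun t ht => by
          rw [hgT t (by rwa [Set.Finite.mem_toFinset] at ht)]
      rw [e]
      refine h x fun v hv => ?_
      have := hx v
      rw [hNv v hv, RG.H.mem_Dv] at this
      exact this)
  rw [Finset.coe_insert, Set.Finite.coe_toFinset] at h2
  refine ⟨f' + g, h2, fun t ht => ?_, (f' s).ev (piv s), ?_⟩
  · rw [Pi.add_apply, hgT t ht]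
    have : f' t = 0 := by
      ext x
      exact h1 t (Additive.toMul x) (by rw [hNT t ht]; exact Subgroup.mem_top _)
    rw [this, zero_add]
  · rw [Pi.add_apply, hgs, add_comm κ]
    congr 1
    exact unram_iff.1 (fun x hx => h1 s x (hU0 s hx))

theorem exists_ram {p : ℕ} [Fact p.Prime] {T : Set (Pr K)} (hT : T.Finite)
    (hV : VT p T ≤ PP K p) {s : Pr K} (hs : s ∉ T) (hs1 : nm s % p = 1) :
    ∃ f ∈ GC p (insert s T), ¬ Kills (f s) s 0 := by
  classical
  obtain ⟨κ, hκ1, hκ2, hκ3⟩ := exists_tame (K := K) hs1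
  set N : Pr K → Subgroup Kˣ := fun v => if v ∈ T then PU p v else RG.H.Dv p v with hN
  have hNT : ∀ v ∈ T, N v = PU p v := fun v hv => if_pos hv
  have hNv : ∀ v ∉ T, N v = RG.H.Dv p v := fun v hv => if_neg hv
  have hgs : (Pi.single s κ : Pr K → Hm K p) s = κ := by rw [Pi.single_eq_same]
  have hg0 : ∀ v, v ≠ s → (Pi.single s κ : Pr K → Hm K p) v = 0 := fun v hv =>
    by rw [Pi.single_eq_of_ne hv]
  have hsF : s ∉ hT.toFinset := by rwa [Set.Finite.mem_toFinset]
  have hsum : ∀ x : Kˣ, ∑ v ∈ insert s hT.toFinset, ((Pi.single s κ : Pr K → Hm K p) v).ev x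
      = κ.ev x := by
    intro x
    rw [Finset.sum_insert hsF, hgs]
    have e : ∑ t ∈ hT.toFinset, ((Pi.single s κ : Pr K → Hm K p) t).ev x = 0 :=
      Finset.sum_eq_zero fun t ht => by
        rw [hg0 t (fun e => hsF (e ▸ ht))]
        rfl
    rw [e, add_zero]
  have hNs : ∀ v, v ∉ T → UU v 0 ≤ N v := fun v hv => by
    rw [hNv v hv]; exact X4_UU_Dv v
  obtain ⟨f', h1, h2⟩ := X4_core N (fun v => by
      by_cases hv : v ∈ T
      · rw [hNT v hv]; exact le_sup_left
      · rw [hNv v hv]; exact X4_PP_Dv v)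
    (fun v => by
      by_cases hv : v ∈ T
      · rw [hNT v hv]; exact le_sup_right
      · rw [hNv v hv]; exact (X4_UU1 v).trans (X4_UU_Dv v))
    (insert s hT.toFinset) (fun v hv => by
      rw [Finset.mem_insert, Set.Finite.mem_toFinset, not_or] at hv
      exact hNs v hv.2) (Pi.single s κ)
    (fun v hv => by
      rw [Finset.mem_insert, Set.Finite.mem_toFinset, not_or] at hv
      exact hg0 v hv.1)
    (fun v hv => by
      by_cases hvs : v = s
      · subst hvs
        rw [hgs]; exact hκ1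
      · rw [hg0 v hvs]
        exact fun x _ => rfl)
    (fun x hx => by
      rw [hsum]
      have hxP : x ∈ PP K p := by
        apply hV
        refine Subgroup.mem_inf.2 ⟨fun v _ => ?_, ?_⟩
        · by_cases hv : v ∈ T
          · have h3 := hx v
            rw [hNT v hv] at h3
            have h4 : PU p v ≤ RG.H.Dv p v :=
              sup_le (X4_PP_Dv v) ((X4_UU1 v).trans (X4_UU_Dv v))
            exact RG.H.mem_Dv.1 (h4 h3)
          · have h3 := hx v
            rw [hNv v hv] at h3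
            exact RG.H.mem_Dv.1 h3
        · rw [Subgroup.mem_iInf]
          intro v
          rw [Subgroup.mem_iInf]
          intro hv
          have h3 := hx v
          rwa [hNT v hv] at h3
      exact ev_PU (v := s) hκ1 ((le_sup_left : PP K p ≤ PP K p ⊔ UU s 1) hxP))
  rw [Finset.coe_insert, Set.Finite.coe_toFinset] at h2
  refine ⟨_, h2, fun hk => ?_⟩
  have hgu : gv p s ∈ UU s 0 := by
    refine ⟨(gv_spec hs1).1, ?_⟩
    rw [Nat.cast_zero, neg_zero, WithZero.exp_zero]
    refine (Valuation.map_sub _ _ _).trans ?_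
    rw [RG.H.vl_eq_zero.1 (gv_spec hs1).1, map_one, max_self]
  have h3 := hk _ hgu
  rw [Pi.add_apply, hgs] at h3
  have h4 : (f' s + κ).ev (gv p s) = (f' s).ev (gv p s) + κ.ev (gv p s) := rfl
  rw [h4, h1 s _ (hNs s hs hgu), hκ2, zero_add] at h3
  exact one_ne_zero h3

theorem finrank_insert {p : ℕ} [Fact p.Prime] {T : Set (Pr K)} (hT : T.Finite)
    (hV : VT p T ≤ PP K p) {s : Pr K} (hs : s ∉ T) (hs1 : nm s % p = 1) :
    Module.finrank (ZMod p) (GC p (insert s T)) = Module.finrank (ZMod p) (GC p T) + 1 := by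
  classical
  have hfin : Finite (GC p (insert s T)) := finite_GC (hT.insert s)
  have hfd : FiniteDimensional (ZMod p) (GC p (insert s T)) := Module.Finite.of_finite
  let φ : GC p (insert s T) →ₗ[ZMod p] ZMod p :=
    { toFun := fun f => (f.1 s).ev (gv p s)
      map_add' := fun f g => rfl
      map_smul' := fun c f => rfl }
  have hφ : ∀ f : GC p (insert s T), φ f = 0 ↔ Kills (f.1 s) s 0 := fun f =>
    (unram_iff' hs1 (f.2.2.1 s (Set.mem_insert _ _))).symm
  have hsurj : LinearMap.range φ = ⊤ := by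
    obtain ⟨f, hf, hk⟩ := exists_ram hT hV hs hs1
    have h0 : φ ⟨f, hf⟩ ≠ 0 := fun h => hk ((hφ ⟨f, hf⟩).1 h)
    rw [LinearMap.range_eq_top]
    intro c
    refine ⟨(c * (φ ⟨f, hf⟩)⁻¹) • ⟨f, hf⟩, ?_⟩
    rw [map_smul, smul_eq_mul, mul_assoc, inv_mul_cancel₀ h0, mul_one]
  have hker : LinearMap.ker φ = LinearMap.range (Submodule.inclusion
      (GC.mono (p := p) (Set.subset_insert s T))) := by
    ext f
    rw [LinearMap.mem_ker, hφ, LinearMap.mem_range]
    constructor
    · intro h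
      have h1 := GC.unram f.2 h
      refine ⟨⟨f.1, ?_⟩, rfl⟩
      have e : insert s T \ {s} = T := by
        ext v
        simp only [Set.mem_sdiff, Set.mem_insert_iff, Set.mem_singleton_iff]
        constructor
        · rintro ⟨h2 | h2, h3⟩
          · exact absurd h2 h3
          · exact h2
        · exact fun h2 => ⟨Or.inr h2, fun e => hs (e ▸ h2)⟩
      rwa [e] at h1
    · rintro ⟨g, rfl⟩
      exact g.2.1 s hs
  have h1 := LinearMap.finrank_range_add_finrank_ker φ
  rw [hsurj, finrank_top, Module.finrank_self, hker,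
    LinearMap.finrank_range_of_inj (Submodule.inclusion_injective _)] at h1
  rw [← h1, add_comm]

end Pool.Agent.RGK
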