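import Mathlib
import Pool.Agent.Lib.RGK.NKDefs
import Pool.Agent.Lib.RGK.X1
import Pool.Agent.Lib.RGK.X2
import Pool.Agent.Lib.RGK.X2b
import Pool.Agent.Lib.RGK.X3
import Pool.Agent.Lib.RGK.X4
import Pool.Agent.Lib.RGK.DK0

/-!
RG v4, row DK4: densities of sets of primes with prescribed characters.

`dens_ne`: the set is `DS Λ₀ B₀ \ (DS Λ₁ B₀ ∪ DS Λ₀ B₁)`, with
`DS Λ₁ B₀ ∩ DS Λ₀ B₁ = DS Λ₁ B₁`: inclusion-exclusion with `HasDK.diff`, `HasDK.union`. The other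
statements are similar. (`GC p T` is finite, `finite_GC`.)
-/

set_option autoImplicit false

namespace Pool.Agent.RGK

open NumberField IsDedekindDomain
open Pool.Agent.RG.H (Pr vl UU PP SU ev below nrm emb NS)

variable {K : Type} [Field K] [NumberField K]

theorem hasDK_P1K {p : ℕ} [Fact p.Prime] (hD : DensK K p) : HasDK (P1K (K := K) p) (c0K K p) := by
  have h := hD ∅ Set.finite_empty (fun v hv => absurd hv (Set.notMem_empty v)) ⊥ bot_le (PP K p)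
    le_rfl (by rw [Subgroup.relIndex_self]; exact one_ne_zero)
  rw [finrank_bot, pow_zero, Subgroup.relIndex_self, Nat.cast_one, inv_one, one_mul, mul_one] at h
  have e : DS p (⊥ : Submodule (ZMod p) (Pr K → Hm K p)) (PP K p) = P1K p := by
    ext v
    refine ⟨fun hv => hv.1, fun hv => ⟨hv, fun f hf => ?_, le_sup_left⟩⟩
    rw [(Submodule.mem_bot _).1 hf]
    rfl
  rwa [e] at h

theorem c0K_pos {p : ℕ} [Fact p.Prime] : 0 < c0K K p := by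
  unfold c0K
  have h1 : FiniteDimensional K (CyclotomicField p K) :=
    IsCyclotomicExtension.finiteDimensional {p} K (CyclotomicField p K)
  have h2 : 0 < Module.finrank K (CyclotomicField p K) := Module.finrank_pos
  exact inv_pos.2 (by exact_mod_cast h2)

private theorem dk4_mono {p : ℕ} {Λ₀ Λ₁ : Submodule (ZMod p) (Pr K → Hm K p)} (h01 : Λ₀ ≤ Λ₁)
    {B₀ B₁ : Subgroup Kˣ} (hB01 : B₀ ≤ B₁) : DS p Λ₁ B₁ ⊆ DS p Λ₀ B₀ := fun _ hv =>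
  ⟨hv.1, fun f hf => hv.2.1 f (h01 hf), hB01.trans hv.2.2⟩

omit [NumberField K] in
private theorem dk4_rel {p : ℕ} {B₀ B₁ : Subgroup Kˣ} (hB0 : PP K p ≤ B₀) (hB01 : B₀ ≤ B₁)
    (hB1 : (PP K p).relIndex B₁ ≠ 0) : (PP K p).relIndex B₀ ≠ 0 := by
  intro h
  have h1 := Subgroup.relIndex_mul_relIndex (PP K p) B₀ B₁ hB0 hB01
  rw [h, zero_mul] at h1
  exact hB1 h1.symm

/-- `Λ₁` does not vanish, `B₁` is not locally a `p`-th power. -/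
theorem dens_ne {p : ℕ} [Fact p.Prime] (hD : DensK K p) {T : Set (Pr K)} (hT : T.Finite)
    (hT1 : ∀ v ∈ T, nm v % p = 1) {Λ₀ Λ₁ : Submodule (ZMod p) (Pr K → Hm K p)} (h01 : Λ₀ ≤ Λ₁)
    (h1 : Λ₁ ≤ GC p T) {B₀ B₁ : Subgroup Kˣ} (hB0 : PP K p ≤ B₀) (hB01 : B₀ ≤ B₁)
    (hB1 : (PP K p).relIndex B₁ ≠ 0) :
    HasDK {v | v ∈ DS p Λ₀ B₀ ∧ (¬ ∀ f ∈ Λ₁, f v = 0) ∧ ¬ B₁ ≤ PU p v}
      (c0K K p * ((((p : ℝ) ^ Module.finrank (ZMod p) Λ₀)⁻¹ -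
        ((p : ℝ) ^ Module.finrank (ZMod p) Λ₁)⁻¹) *
        ((((PP K p).relIndex B₀ : ℕ) : ℝ)⁻¹ - (((PP K p).relIndex B₁ : ℕ) : ℝ)⁻¹))) := by
  have hr0 := dk4_rel hB0 hB01 hB1
  have hPB1 : PP K p ≤ B₁ := hB0.trans hB01
  have h00 := hD T hT hT1 Λ₀ (h01.trans h1) B₀ hB0 hr0
  have h10 := hD T hT hT1 Λ₁ h1 B₀ hB0 hr0
  have h01' := hD T hT hT1 Λ₀ (h01.trans h1) B₁ hPB1 hB1
  have h11 := hD T hT hT1 Λ₁ h1 B₁ hPB1 hB1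
  have hX := h00.diff h10 (dk4_mono h01 le_rfl)
  have hY := h01'.diff h11 (dk4_mono h01 le_rfl)
  have hsub : DS p Λ₀ B₁ \ DS p Λ₁ B₁ ⊆ DS p Λ₀ B₀ \ DS p Λ₁ B₀ := by
    rintro v ⟨hv1, hv2⟩
    exact ⟨dk4_mono le_rfl hB01 hv1, fun hv3 => hv2 ⟨hv1.1, hv3.2.1, hv1.2.2⟩⟩
  have hZ := hX.diff hY hsub
  have e : (DS p Λ₀ B₀ \ DS p Λ₁ B₀) \ (DS p Λ₀ B₁ \ DS p Λ₁ B₁) =
      {v | v ∈ DS p Λ₀ B₀ ∧ (¬ ∀ f ∈ Λ₁, f v = 0) ∧ ¬ B₁ ≤ PU p v} := by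
    ext v
    constructor
    · rintro ⟨⟨hv1, hv2⟩, hv3⟩
      refine ⟨hv1, fun hv4 => hv2 ⟨hv1.1, hv4, hv1.2.2⟩, fun hv4 => hv3 ⟨⟨hv1.1, hv1.2.1, hv4⟩, ?_⟩⟩
      exact fun hv5 => hv2 ⟨hv1.1, hv5.2.1, hv1.2.2⟩
    · rintro ⟨hv1, hv2, hv3⟩
      exact ⟨⟨hv1, fun hv4 => hv2 hv4.2.1⟩, fun hv4 => hv3 hv4.1.2.2⟩
  rw [e] at hZ
  convert hZ using 1
  ring

/-- `B₁` is not locally a `p`-th power. -/
theorem dens_neB {p : ℕ} [Fact p.Prime] (hD : DensK K p) {T : Set (Pr K)} (hT : T.Finite)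
    (hT1 : ∀ v ∈ T, nm v % p = 1) {Λ : Submodule (ZMod p) (Pr K → Hm K p)}
    (h1 : Λ ≤ GC p T) {B₀ B₁ : Subgroup Kˣ} (hB0 : PP K p ≤ B₀) (hB01 : B₀ ≤ B₁)
    (hB1 : (PP K p).relIndex B₁ ≠ 0) :
    HasDK {v | v ∈ DS p Λ B₀ ∧ ¬ B₁ ≤ PU p v}
      (c0K K p * (((p : ℝ) ^ Module.finrank (ZMod p) Λ)⁻¹ *
        ((((PP K p).relIndex B₀ : ℕ) : ℝ)⁻¹ - (((PP K p).relIndex B₁ : ℕ) : ℝ)⁻¹))) := by
  have hr0 := dk4_rel hB0 hB01 hB1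
  have hPB1 : PP K p ≤ B₁ := hB0.trans hB01
  have h00 := hD T hT hT1 Λ h1 B₀ hB0 hr0
  have h01 := hD T hT hT1 Λ h1 B₁ hPB1 hB1
  have hX := h00.diff h01 (dk4_mono le_rfl hB01)
  have e : DS p Λ B₀ \ DS p Λ B₁ = {v | v ∈ DS p Λ B₀ ∧ ¬ B₁ ≤ PU p v} := by
    ext v
    constructor
    · rintro ⟨hv1, hv2⟩
      exact ⟨hv1, fun hv3 => hv2 ⟨hv1.1, hv1.2.1, hv3⟩⟩
    · rintro ⟨hv1, hv2⟩
      exact ⟨hv1, fun hv3 => hv2 hv3.2.2⟩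
  rw [e] at hX
  convert hX using 1
  ring

/-- `Λ₁` does not vanish. -/
theorem dens_neL {p : ℕ} [Fact p.Prime] (hD : DensK K p) {T : Set (Pr K)} (hT : T.Finite)
    (hT1 : ∀ v ∈ T, nm v % p = 1) {Λ₀ Λ₁ : Submodule (ZMod p) (Pr K → Hm K p)} (h01 : Λ₀ ≤ Λ₁)
    (h1 : Λ₁ ≤ GC p T) {B : Subgroup Kˣ} (hB : PP K p ≤ B) (hB1 : (PP K p).relIndex B ≠ 0) :
    HasDK {v | v ∈ DS p Λ₀ B ∧ ¬ ∀ f ∈ Λ₁, f v = 0}
      (c0K K p * ((((p : ℝ) ^ Module.finrank (ZMod p) Λ₀)⁻¹ -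
        ((p : ℝ) ^ Module.finrank (ZMod p) Λ₁)⁻¹) *
        (((PP K p).relIndex B : ℕ) : ℝ)⁻¹)) := by
  have h0 := hD T hT hT1 Λ₀ (h01.trans h1) B hB hB1
  have h10 := hD T hT hT1 Λ₁ h1 B hB hB1
  have hX := h0.diff h10 (dk4_mono h01 le_rfl)
  have e : DS p Λ₀ B \ DS p Λ₁ B = {v | v ∈ DS p Λ₀ B ∧ ¬ ∀ f ∈ Λ₁, f v = 0} := by
    ext v
    constructor
    · rintro ⟨hv1, hv2⟩
      exact ⟨hv1, fun hv3 => hv2 ⟨hv1.1, hv3, hv1.2.2⟩⟩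
    · rintro ⟨hv1, hv2⟩
      exact ⟨hv1, fun hv3 => hv2 hv3.2.1⟩
  rw [e] at hX
  convert hX using 1
  ring

end Pool.Agent.RGK
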