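import Mathlib
import Pool.Agent.Lib.RGK.NKDefs
import Pool.Agent.Lib.RGK.DK0

/-!
RG v4, row NK1: iterated probabilities; port of `Pool/Agent/Lib/RG/N3a.lean` and `N4a.lean`.

`chainK`: induction over `n` (shift the stages: `St' i := St (i + 1)`): by `pmeanK_step` with `A`,
`F := S`, `x' := δ ^ n * x + (1 - δ ^ n) * y` on `A` and `y` elsewhere (the bound `y` for
`iterProbK p P (k + n) (insert q S)` follows from `hy` by induction: a mean value of a function which is
`≥ y`; state this as a lemma first), `d * x' + (1 - d) * y ≥ δ * x' + (1 - δ) * y` as `x' ≥ y`.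
-/

set_option autoImplicit false

namespace Pool.Agent.RGK

open NumberField IsDedekindDomain
open Pool.Agent.RG.H (Pr vl UU PP SU ev below nrm emb NS)

variable {K : Type} [Field K] [NumberField K]

theorem iterProbK_bounds (p : ℕ) {c : ℝ} (hc : 0 < c) (h1 : HasDK (P1K (K := K) p) c)
    (P : Finset (Pr K) → Prop) (k : ℕ) (S : Finset (Pr K)) :
    0 ≤ iterProbK p P k S ∧ iterProbK p P k S ≤ 1 := by
  induction k generalizing S with
  | zero =>
    rw [iterProbK]
    split_ifs
    · exact ⟨zero_le_one, le_rfl⟩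
    · exact ⟨le_rfl, zero_le_one⟩
  | succ k ih =>
    rw [iterProbK]
    exact ⟨pmeanK_nonneg (fun q => (ih _).1) (fun q => (ih _).2),
      pmeanK_le_one hc h1 (fun q => (ih _).1) (fun q => (ih _).2)⟩

theorem iterProbK_mono (p : ℕ) {c : ℝ} (hc : 0 < c) (h1 : HasDK (P1K (K := K) p) c)
    {P Q : Finset (Pr K) → Prop} (h : ∀ S : Finset (Pr K), (∀ q ∈ S, nm q % p = 1) → P S → Q S)
    (k : ℕ) (S : Finset (Pr K)) (hS : ∀ q ∈ S, nm q % p = 1) :
    iterProbK p P k S ≤ iterProbK p Q k S := by
  induction k generalizing S with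
  | zero =>
    rw [iterProbK, iterProbK]
    by_cases hP : P S
    · rw [if_pos hP, if_pos (h S hS hP)]
    · rw [if_neg hP]
      split_ifs
      · exact zero_le_one
      · exact le_rfl
  | succ k ih =>
    classical
    rw [iterProbK, iterProbK]
    refine pmeanK_mono (fun q => (iterProbK_bounds p hc h1 P k _).1)
      (fun q => (iterProbK_bounds p hc h1 Q k _).2) (fun q hq => ih _ ?_)
      (fun q => (iterProbK_bounds p hc h1 P k _).2) (fun q => (iterProbK_bounds p hc h1 Q k _).1)
    intro r hr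
    rcases Finset.mem_insert.mp hr with rfl | hr
    · exact hq
    · exact hS r hr

theorem pmeanK_step {p : ℕ} {c : ℝ} (hc : 0 < c) (h1 : HasDK (P1K (K := K) p) c)
    {A : Set (Pr K)} (hA : A ⊆ P1K p) {d : ℝ} (hd : HasDK A (c * d)) (F : Finset (Pr K))
    {f : Pr K → ℝ} (h0 : ∀ q, 0 ≤ f q) (hf1 : ∀ q, f q ≤ 1) {x y : ℝ} (hyx : y ≤ x)
    (hx : ∀ q ∈ A, q ∉ F → x ≤ f q) (hy : ∀ q ∈ P1K p, q ∉ F → y ≤ f q) :
    d * x + (1 - d) * y ≤ pmeanK p f := by
  classical
  have h := pmeanK_ge hc h1 (ι := Unit) (fun _ => A) (fun _ => hA) (fun _ => d) (fun _ => hd) y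
    (fun _ => x - y) F f 1 (fun q => by linarith [h0 q]) hf1 (fun q hq hqF => by
      simp only [Finset.univ_unique, Finset.sum_singleton]
      by_cases hqA : q ∈ A
      · rw [if_pos hqA]
        have := hx q hqA hqF
        linarith
      · rw [if_neg hqA]
        have := hy q hq hqF
        linarith)
  simp only [Finset.univ_unique, Finset.sum_singleton] at h
  calc d * x + (1 - d) * y = y + (x - y) * d := by ring
    _ ≤ pmeanK p f := h

open Classical in
/-- A lower bound for all sets is a lower bound for the iterated mean values. -/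
private theorem NK1_low {p : ℕ} {c : ℝ} (hc : 0 < c) (h1 : HasDK (P1K (K := K) p) c) {n : ℕ}
    (P : Finset (Pr K) → Prop) (k : ℕ) {y : ℝ} (S : Finset (Pr K))
    (hS : ∀ v ∈ S, nm v % p = 1)
    (hy : ∀ S' : Finset (Pr K), S ⊆ S' → S'.card ≤ S.card + n → (∀ v ∈ S', nm v % p = 1) →
      y ≤ iterProbK p P k S') : y ≤ iterProbK p P (k + n) S := by
  induction n generalizing S with
  | zero => exact hy S subset_rfl le_rfl hS
  | succ n ih =>
    have e : iterProbK p P (k + (n + 1)) S =
        pmeanK p fun v => iterProbK p P (k + n) (insert v S) := by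
      rw [← add_assoc, iterProbK]
    rw [e]
    have h2 : ∀ q ∈ P1K (K := K) p, q ∉ S → y ≤ iterProbK p P (k + n) (insert q S) := by
      intro q hq _
      refine ih _ ?_ fun S' hS' hcard hS1 => hy S' ((Finset.subset_insert q S).trans hS') ?_ hS1
      · intro v hv
        rcases Finset.mem_insert.mp hv with rfl | hv
        · exact hq
        · exact hS v hv
      · have := Finset.card_insert_le q S
        omega
    have h3 := pmeanK_step hc h1 (A := P1K p) subset_rfl (d := 1) (by rwa [mul_one]) S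
      (f := fun v => iterProbK p P (k + n) (insert v S))
      (fun q => (iterProbK_bounds p hc h1 P _ _).1) (fun q => (iterProbK_bounds p hc h1 P _ _).2)
      (le_refl y) h2 h2
    linarith

open Classical in
theorem chainK {p : ℕ} {c : ℝ} (hc : 0 < c) (h1 : HasDK (P1K (K := K) p) c)
    {St : ℕ → Finset (Pr K) → Prop} {δ : ℝ} (hδ : 0 ≤ δ) {n : ℕ}
    (hstep : ∀ i < n, ∀ S : Finset (Pr K), (∀ v ∈ S, nm v % p = 1) → St i S →
      ∃ d : ℝ, δ ≤ d ∧ ∃ A ⊆ P1K (K := K) p, HasDK A (c * d) ∧
        ∀ q ∈ A, q ∉ S → St (i + 1) (insert q S))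
    (P : Finset (Pr K) → Prop) (k : ℕ) {x y : ℝ} (hyx : y ≤ x) (S : Finset (Pr K))
    (hS : ∀ v ∈ S, nm v % p = 1) (h0 : St 0 S)
    (hy : ∀ S' : Finset (Pr K), S ⊆ S' → S'.card ≤ S.card + n → (∀ v ∈ S', nm v % p = 1) →
      y ≤ iterProbK p P k S')
    (hx : ∀ S' : Finset (Pr K), S ⊆ S' → S'.card ≤ S.card + n → (∀ v ∈ S', nm v % p = 1) →
      St n S' → x ≤ iterProbK p P k S') :
    δ ^ n * x + (1 - δ ^ n) * y ≤ iterProbK p P (k + n) S := by
  induction n generalizing S St with
  | zero =>
    have := hx S subset_rfl le_rfl hS h0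
    rw [pow_zero, add_zero]
    linarith
  | succ n ih =>
    have e : iterProbK p P (k + (n + 1)) S =
        pmeanK p fun v => iterProbK p P (k + n) (insert v S) := by
      rw [← add_assoc, iterProbK]
    rw [e]
    obtain ⟨d, hd, A, hA, hAd, hAS⟩ := hstep 0 (Nat.succ_pos n) S hS h0
    have hins : ∀ q ∈ P1K (K := K) p, ∀ v ∈ insert q S, nm v % p = 1 := by
      intro q hq v hv
      rcases Finset.mem_insert.mp hv with rfl | hv
      · exact hq
      · exact hS v hv
    have hlow : ∀ q ∈ P1K (K := K) p, q ∉ S → y ≤ iterProbK p P (k + n) (insert q S) := by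
      intro q hq _
      refine NK1_low hc h1 P k _ (hins q hq) fun S' hS' hcard hS1 =>
        hy S' ((Finset.subset_insert q S).trans hS') ?_ hS1
      have := Finset.card_insert_le q S
      omega
    have hup : ∀ q ∈ A, q ∉ S → δ ^ n * x + (1 - δ ^ n) * y ≤
        iterProbK p P (k + n) (insert q S) := by
      intro q hq hqS
      have hc1 := Finset.card_insert_le q S
      refine ih (St := fun i => St (i + 1)) (fun i hi S' hS' hSt => hstep (i + 1) (by omega) S' hS' hSt)
        (insert q S) (hins q (hA hq)) (hAS q hq hqS)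
        (fun S' hS' hcard hS1 => hy S' ((Finset.subset_insert q S).trans hS') (by omega) hS1)
        (fun S' hS' hcard hS1 hSt => hx S' ((Finset.subset_insert q S).trans hS') (by omega) hS1 hSt)
    have hδn : 0 ≤ δ ^ n := pow_nonneg hδ n
    have hxy : 0 ≤ δ ^ n * (x - y) := mul_nonneg hδn (by linarith)
    have h3 := pmeanK_step hc h1 hA hAd S
      (f := fun v => iterProbK p P (k + n) (insert v S))
      (fun q => (iterProbK_bounds p hc h1 P _ _).1) (fun q => (iterProbK_bounds p hc h1 P _ _).2)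
      (x := δ ^ n * x + (1 - δ ^ n) * y) (y := y) (by linarith) hup hlow
    have h4 : δ * (δ ^ n * (x - y)) ≤ d * (δ ^ n * (x - y)) := mul_le_mul_of_nonneg_right hd hxy
    calc δ ^ (n + 1) * x + (1 - δ ^ (n + 1)) * y = y + δ * (δ ^ n * (x - y)) := by ring
      _ ≤ y + d * (δ ^ n * (x - y)) := by linarith
      _ = d * (δ ^ n * x + (1 - δ ^ n) * y) + (1 - d) * y := by ring
      _ ≤ _ := h3

end Pool.Agent.RGK
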