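import Mathlib
import Pool.Agent.Lib.RGK.XDefs
import Pool.Agent.Lib.RGK.X1
import Pool.Agent.Lib.RGK.X2
import Pool.Agent.Lib.RGK.X3

/-!
RG v4, row X4b: primes which are not seen by `GC p T`.

`exists_bad`: otherwise `vp p u` kills the intersection of `N v := Dv` (`v ∉ T`, `v ≠ u`), `N t := PU p t`
(`t ∈ T`), `N u := ⊤`; `dual_loc` gives `f' ` with `f' u = 0`; `f := f' - vp p u` at `u` is in `GC p T`.
`bad_killed`: `0 = ∑ f v x = f u x + f b x` (`ev_PU` at `T`; `p ∣ vl v x` elsewhere), `f b x ≠ 0` by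
`unit_mem` and `unram_iff'`.
-/

set_option autoImplicit false

namespace Pool.Agent.RGK

open NumberField IsDedekindDomain
open Pool.Agent.RG (Above IsDec IsInert IsFrob)
open Pool.Agent.RG.H (Pr vl UU PP SU ev below nrm emb NS)

variable {K : Type} [Field K] [NumberField K]

private theorem ev_mul4 {p : ℕ} (f : Hm K p) (x y : Kˣ) : f.ev (x * y) = f.ev x + f.ev y := by
  unfold Hm.ev
  rw [ofMul_mul, map_add]

private theorem ev_pow4 {p : ℕ} (f : Hm K p) (x : Kˣ) (k : ℕ) : f.ev (x ^ k) = k * f.ev x := by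
  unfold Hm.ev
  rw [ofMul_pow, map_nsmul, nsmul_eq_mul]

private theorem ev_vp4 (p : ℕ) (v : Pr K) (x : Kˣ) : (vp p v).ev x = ((vl v x : ℤ) : ZMod p) := rfl

private theorem ev_smul4 {p : ℕ} (c : ZMod p) (f : Hm K p) (x : Kˣ) : (c • f).ev x = c * f.ev x := rfl

private theorem ev_sub4 {p : ℕ} (f g : Hm K p) (x : Kˣ) : (f - g).ev x = f.ev x - g.ev x := rfl

theorem exists_bad {p : ℕ} [Fact p.Prime] {T : Set (Pr K)} (hT : T.Finite) {u : Pr K} (hu : u ∉ T)
    (h : ∀ f ∈ GC p T, f u = 0) :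
    ∃ x : Kˣ, (∀ t ∈ T, x ∈ PU p t) ∧ (∀ v ∉ T, v ≠ u → (p : ℤ) ∣ vl v x) ∧
      ¬ (p : ℤ) ∣ vl u x := by
  classical
  by_contra hcon
  push Not at hcon
  set N : Pr K → Subgroup Kˣ := fun v => if v ∈ T then PU p v else if v = u then ⊤ else RG.H.Dv p v
    with hN
  have hNT : ∀ v ∈ T, N v = PU p v := fun v hv => if_pos hv
  have hNu : N u = ⊤ := by rw [hN]; dsimp only; rw [if_neg hu, if_pos rfl]
  have hNv : ∀ v ∉ T, v ≠ u → N v = RG.H.Dv p v := fun v hv hvu => by
    rw [hN]; dsimp only; rw [if_neg hv, if_neg hvu]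
  have hPPD : ∀ v, PP K p ≤ RG.H.Dv p v := by
    intro v x hx
    obtain ⟨y, rfl⟩ := RG.H.mem_PP.1 hx
    rw [RG.H.mem_Dv, RG.H.vl_pow]
    exact dvd_mul_right _ _
  have hPP : ∀ v, PP K p ≤ N v := by
    intro v
    by_cases hv : v ∈ T
    · rw [hNT v hv]; exact le_sup_left
    · by_cases hvu : v = u
      · rw [hvu, hNu]; exact le_top
      · rw [hNv v hv hvu]; exact hPPD v
  have hUU : ∀ v ∉ T, UU v 0 ≤ N v := by
    intro v hv x hx
    by_cases hvu : v = u
    · rw [hvu, hNu]; exact Subgroup.mem_top _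
    · rw [hNv v hv hvu, RG.H.mem_Dv, (RG.H.mem_UU.1 hx).1]; exact dvd_zero _
  obtain ⟨f', hf1, hf2, hf3⟩ := dual_loc N hPP hT.toFinset
    (fun v hv => hUU v (by rwa [Set.Finite.mem_toFinset] at hv)) (vp p u) (fun x hx => by
      rw [ev_vp4, ZMod.intCast_zmod_eq_zero_iff_dvd]
      refine hcon x (fun t ht => ?_) (fun v hv hvu => ?_)
      · rw [← hNT t ht]; exact hx t
      · have := hx v
        rw [hNv v hv hvu, RG.H.mem_Dv] at this
        exact this)
  have hfu : f' u = 0 := by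
    ext x
    exact hf1 u (Additive.toMul x) (by rw [hNu]; exact Subgroup.mem_top _)
  have hupd : ∀ v, v ≠ u → (f' - Pi.single u (vp p u) : Pr K → Hm K p) v = f' v := by
    intro v hv
    rw [Pi.sub_apply, Pi.single_eq_of_ne hv, sub_zero]
  have hupu : (f' - Pi.single u (vp p u) : Pr K → Hm K p) u = - vp p u := by
    rw [Pi.sub_apply, Pi.single_eq_same, hfu, zero_sub]
  have hsupp : ∀ x : Kˣ, (Function.support fun v => ((Pi.single u (vp p u) : Pr K → Hm K p) v).ev x)
      ⊆ {u} := by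
    intro x v hv
    by_contra hvu
    rw [Function.mem_support] at hv
    apply hv
    rw [Pi.single_eq_of_ne (fun h => hvu h)]
    rfl
  have hmem : (f' - Pi.single u (vp p u) : Pr K → Hm K p) ∈ GC p T := by
    refine ⟨fun v hv x hx => ?_, fun v hv x hx => ?_, fun x => ?_, fun x => ?_⟩
    · by_cases hvu : v = u
      · subst hvu
        rw [hupu]
        show - (vp p v).ev x = 0
        rw [ev_vp4, (RG.H.mem_UU.1 hx).1, Int.cast_zero, neg_zero]
      · rw [hupd v hvu]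
        exact hf1 v x (hUU v hv hx)
    · have hvu : v ≠ u := fun h => hu (h ▸ hv)
      rw [hupd v hvu]
      refine hf1 v x ?_
      rw [hNT v hv]
      exact (le_sup_right : UU v 1 ≤ PP K p ⊔ UU v 1) hx
    · refine ((hf2 x).union (Set.finite_singleton u)).subset ?_
      intro v hv
      by_cases hvu : v = u
      · exact Or.inr hvu
      · left
        rw [Function.mem_support] at hv ⊢
        rwa [hupd v hvu] at hv
    · have e : (fun v => ((f' - Pi.single u (vp p u) : Pr K → Hm K p) v).ev x) = fun v =>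
          (f' v).ev x - ((Pi.single u (vp p u) : Pr K → Hm K p) v).ev x := rfl
      rw [e, finsum_sub_distrib (hf2 x) ((Set.finite_singleton u).subset (hsupp x)), hf3 x,
        finsum_eq_single _ u (fun v hv => by
          rw [Pi.single_eq_of_ne hv]; rfl), Pi.single_eq_same, sub_self]
  have h0 := h _ hmem
  rw [hupu, neg_eq_zero] at h0
  have h1 : (vp p u).ev (piv u) = 0 := by rw [h0]; rfl
  rw [ev_vp4, vl_piv, Int.cast_one] at h1
  exact one_ne_zero h1

theorem bad_killed {p : ℕ} [Fact p.Prime] {T : Set (Pr K)} {u b : Pr K}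
    (hb : b ∉ T) (hbu : b ≠ u) (hb1 : nm b % p = 1) {x : Kˣ} (h1 : ∀ t ∈ T, x ∈ PU p t)
    (h2 : ∀ v ∉ T, v ≠ u → (p : ℤ) ∣ vl v x) (h3 : x ∉ PU p b) {f : Pr K → Hm K p}
    (hf : f ∈ GC p (insert b T)) (hfb : ¬ Kills (f b) b 0) : f u ≠ 0 := by
  intro hfu
  have hsum := hf.2.2.2 x
  have hz : ∀ v, v ≠ b → (f v).ev x = 0 := by
    intro v hvb
    by_cases hvT : v ∈ T
    · exact ev_PU (hf.2.1 v (Set.mem_insert_of_mem _ hvT)) (h1 v hvT)
    · by_cases hvu : v = u
      · rw [hvu, hfu]; rfl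
      · have hv : v ∉ insert b T := by
          rw [Set.mem_insert_iff]
          rintro (h | h)
          · exact hvb h
          · exact hvT h
        rw [unram_iff.1 (hf.1 v hv), ev_smul4, ev_vp4,
          (ZMod.intCast_zmod_eq_zero_iff_dvd _ _).2 (h2 v hvT hvu), mul_zero]
  rw [finsum_eq_single _ b hz] at hsum
  obtain ⟨k, hk⟩ := unit_mem hb1 (h2 b hb hbu)
  have hK1 : Kills (f b) b 1 := hf.2.1 b (Set.mem_insert _ _)
  have h4 : (f b).ev x = k * (f b).ev (gv p b) := by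
    have e : x = (x / gv p b ^ k) * gv p b ^ k := by rw [div_mul_cancel]
    conv_lhs => rw [e]
    rw [ev_mul4, ev_PU hK1 hk, zero_add, ev_pow4]
  rw [h4, mul_eq_zero] at hsum
  rcases hsum with h | h
  · rw [ZMod.natCast_eq_zero_iff] at h
    obtain ⟨m, rfl⟩ := h
    apply h3
    have e : x = (x / gv p b ^ (p * m)) * gv p b ^ (p * m) := by rw [div_mul_cancel]
    rw [e]
    refine Subgroup.mul_mem _ hk ?_
    refine (le_sup_left : PP K p ≤ PP K p ⊔ UU b 1) ?_
    exact RG.H.mem_PP.2 ⟨gv p b ^ m, by rw [← pow_mul, mul_comm]⟩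
  · exact hfb ((unram_iff' hb1 hK1).2 h)

end Pool.Agent.RGK
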