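import Mathlib
import Pool.Agent.Lib.RGK.NKDefs
import Pool.Agent.Lib.RGK.X1
import Pool.Agent.Lib.RGK.X2
import Pool.Agent.Lib.RGK.X3
import Pool.Agent.Lib.RGK.X4

/-!
RG v4, row X5: adding a prime to a core.

`crit_insert`: let `U`, `V`, `u` be as in `CritC` for `T` (`c f g t = cupF p t f g`). Let `χ` be in
`GC p (insert b T)`, ramified at `b` (`exists_ram`, X4). Take `U' := U ⊔ span χ`, `V' := V`, the same
`u`. `GC p (insert b T) = GC p T ⊔ span χ` (for `f ∈ GC p (insert b T)` subtract the multiple of `χ` with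
the same value at `gv p b` (`unram_iff'`, `GC.unram`)), `χ ∉ GC p T`, so `U' ⊓ V' = ⊥`.
The elements of `GC p T` are unramified at `b`, so `cupF p b f g = 0` for `f, g ∈ GC p T`
(`vl b (gv p b) = 0`, `unram_iff`), and `cupF p b χ ν = χ b (gv) * ν b (piv) ≠ 0` because
`ν b = ν b (piv) • vp ≠ 0`. So the set of the cup products for `insert b T` contains the old ones,
extended by `0` at `b`, and one with nonzero coordinate `b`: it spans everything, and the dimension of the
double star grows by at least `1`; `finrank GC` grows by `1` (`finrank_insert`).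
-/

set_option autoImplicit false

namespace Pool.Agent.RGK

open NumberField IsDedekindDomain
open Pool.Agent.RG.H (Pr vl UU PP SU ev below nrm emb NS)

variable {K : Type} [Field K] [NumberField K]

private theorem X5_abs {p : ℕ} [Fact p.Prime] {H : Type} [AddCommGroup H] [Module (ZMod p) H]
    {κ κ' : Type} [Finite κ'] (i : κ → κ') (hi : Function.Injective i) (b : κ')
    (hib : ∀ j, j ≠ b → ∃ t, i t = j) (c : H → H → κ → ZMod p)
    (c' : H → H → κ' → ZMod p) (hc : ∀ f g t, c' f g (i t) = c f g t)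
    (G G' : Submodule (ZMod p) H) (hGG : G ≤ G') [FiniteDimensional (ZMod p) G']
    (hrank : Module.finrank (ZMod p) G' = Module.finrank (ZMod p) G + 1)
    (hb0 : ∀ f ∈ G, ∀ g ∈ G, c' f g b = 0) (χ : H) (hχ : χ ∈ G') (hχG : χ ∉ G) (ν : H)
    (hχν : c' χ ν b ≠ 0) (h : CritC c G ν) : CritC c' G' ν := by
  classical
  obtain ⟨U, V, hUV, hUV0, hVV, hspan, hνV, hν0, u, huU, hu0, hrk⟩ := h
  have hUG : U ≤ G := hUV ▸ le_sup_left
  have hVG : V ≤ G := hUV ▸ le_sup_right
  have hfin : Finite κ := Finite.of_injective i hi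
  -- restriction to the old coordinates
  let pr : (κ' → ZMod p) →ₗ[ZMod p] (κ → ZMod p) := LinearMap.funLeft (ZMod p) (ZMod p) i
  have hpr : ∀ x t, pr x t = x (i t) := fun x t => rfl
  let Z : Submodule (ZMod p) (κ' → ZMod p) := LinearMap.ker (LinearMap.proj b)
  have hZ : ∀ x : κ' → ZMod p, x ∈ Z ↔ x b = 0 := fun x => by
    show x ∈ LinearMap.ker (LinearMap.proj b) ↔ _
    rw [LinearMap.mem_ker, LinearMap.proj_apply]
  have hinj : ∀ x ∈ Z, pr x = 0 → x = 0 := by
    intro x hx h0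
    funext j
    by_cases hj : j = b
    · rw [hj]
      exact (hZ x).1 hx
    · obtain ⟨t, rfl⟩ := hib j hj
      have := congrFun h0 t
      exact this
  have hG' : G ⊔ Submodule.span (ZMod p) {χ} = G' := by
    have hle : G ⊔ Submodule.span (ZMod p) {χ} ≤ G' := by
      refine sup_le hGG ?_
      rw [Submodule.span_le]
      rintro _ rfl
      exact hχ
    refine Submodule.eq_of_le_of_finrank_le hle ?_
    rw [hrank]
    have hlt : G < G ⊔ Submodule.span (ZMod p) {χ} := by
      refine lt_of_le_of_ne le_sup_left fun heq => hχG ?_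
      rw [heq]
      exact Submodule.mem_sup_right (Submodule.mem_span_singleton_self χ)
    have : FiniteDimensional (ZMod p) ↥(G ⊔ Submodule.span (ZMod p) {χ}) :=
      Submodule.finiteDimensional_of_le hle
    exact Submodule.finrank_lt_finrank_of_lt hlt
  have hcpr : ∀ f g, pr (c' f g) = c f g := fun f g => by
    funext t
    exact hc f g t
  -- the span of the old products
  have hpre : ∀ S : Set (κ' → ZMod p), (∀ x ∈ S, x b = 0) →
      Submodule.span (ZMod p) S ≤ Z := by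
    intro S hS
    rw [Submodule.span_le]
    intro x hx
    exact (hZ x).2 (hS x hx)
  refine ⟨U ⊔ Submodule.span (ZMod p) {χ}, V, ?_, ?_, ?_, ?_, hνV, hν0, u,
    Submodule.mem_sup_left huU, hu0, ?_⟩
  · rw [sup_right_comm, hUV, hG']
  · rw [eq_bot_iff]
    rintro x ⟨hx1, hx2⟩
    obtain ⟨y, hy, z, hz, rfl⟩ := Submodule.mem_sup.1 hx1
    obtain ⟨a, rfl⟩ := Submodule.mem_span_singleton.1 hz
    have ha : a = 0 := by
      by_contra ha
      apply hχG
      have h1 : a • χ ∈ G := by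
        have h2 := Submodule.sub_mem G (hVG hx2) (hUG hy)
        rwa [add_sub_cancel_left] at h2
      have h3 := Submodule.smul_mem G a⁻¹ h1
      rwa [smul_smul, inv_mul_cancel₀ ha, one_smul] at h3
    subst ha
    rw [zero_smul, add_zero] at hx2 ⊢
    have : y ∈ U ⊓ V := ⟨hy, hx2⟩
    rw [hUV0] at this
    exact this
  · intro f hf g hg
    refine hinj _ ((hZ _).2 (hb0 f (hVG hf) g (hVG hg))) ?_
    rw [hcpr, hVV f hf g hg]
  · rw [eq_top_iff]
    intro x _
    set W := Submodule.span (ZMod p)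
      {x | ∃ f ∈ U ⊔ Submodule.span (ZMod p) {χ}, ∃ g ∈ V, x = c' f g} with hW
    have h1 : ∀ y ∈ Z, y ∈ W := by
      intro y hy
      have h2 : pr y ∈ Submodule.span (ZMod p) {x | ∃ f ∈ U, ∃ g ∈ V, x = c f g} := by
        rw [hspan]
        exact Submodule.mem_top
      have h3 : {x | ∃ f ∈ U, ∃ g ∈ V, x = c f g} =
          pr '' {x | ∃ f ∈ U, ∃ g ∈ V, x = c' f g} := by
        ext x
        constructor
        · rintro ⟨f, hf, g, hg, rfl⟩
          exact ⟨c' f g, ⟨f, hf, g, hg, rfl⟩, hcpr f g⟩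
        · rintro ⟨_, ⟨f, hf, g, hg, rfl⟩, rfl⟩
          exact ⟨f, hf, g, hg, hcpr f g⟩
      rw [h3, ← Submodule.map_span] at h2
      obtain ⟨z, hz, hzy⟩ := h2
      have hzZ : z ∈ Z := by
        refine hpre _ ?_ hz
        rintro x ⟨f, hf, g, hg, rfl⟩
        exact hb0 f (hUG hf) g (hVG hg)
      have h4 : y = z := by
        rw [← sub_eq_zero]
        exact hinj _ (Submodule.sub_mem _ hy hzZ) (by rw [map_sub, hzy, sub_self])
      rw [h4]
      refine Submodule.span_mono ?_ hz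
      rintro x ⟨f, hf, g, hg, rfl⟩
      exact ⟨f, Submodule.mem_sup_left hf, g, hg, rfl⟩
    have h2 : c' χ ν ∈ W := Submodule.subset_span
      ⟨χ, Submodule.mem_sup_right (Submodule.mem_span_singleton_self χ), ν, hνV, rfl⟩
    have h3 : x - (x b * (c' χ ν b)⁻¹) • c' χ ν ∈ W := by
      apply h1
      rw [hZ, Pi.sub_apply, Pi.smul_apply, smul_eq_mul, mul_assoc, inv_mul_cancel₀ hχν, mul_one,
        sub_self]
    have h4 := Submodule.add_mem _ h3 (Submodule.smul_mem _ (x b * (c' χ ν b)⁻¹) h2)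
    rwa [sub_add_cancel] at h4
  · rw [hrank]
    set S := Submodule.span (ZMod p) ({x | ∃ g ∈ V, x = c u g} ∪ {x | ∃ f ∈ U, x = c f ν}) with hS
    set S0 := Submodule.span (ZMod p) ({x | ∃ g ∈ V, x = c' u g} ∪ {x | ∃ f ∈ U, x = c' f ν})
      with hS0
    set S' := Submodule.span (ZMod p) ({x | ∃ g ∈ V, x = c' u g} ∪
      {x | ∃ f ∈ U ⊔ Submodule.span (ZMod p) {χ}, x = c' f ν}) with hS'
    have h1 : S = S0.map pr := by
      rw [hS0, Submodule.map_span, hS]
      congr 1
      ext x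
      constructor
      · rintro (⟨g, hg, rfl⟩ | ⟨f, hf, rfl⟩)
        · exact ⟨c' u g, Or.inl ⟨g, hg, rfl⟩, hcpr u g⟩
        · exact ⟨c' f ν, Or.inr ⟨f, hf, rfl⟩, hcpr f ν⟩
      · rintro ⟨_, (⟨g, hg, rfl⟩ | ⟨f, hf, rfl⟩), rfl⟩
        · exact Or.inl ⟨g, hg, hcpr u g⟩
        · exact Or.inr ⟨f, hf, hcpr f ν⟩
    have h2 : Module.finrank (ZMod p) S ≤ Module.finrank (ZMod p) S0 := by
      rw [h1]
      exact Submodule.finrank_map_le pr S0
    have hS0Z : S0 ≤ Z := by
      refine hpre _ ?_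
      rintro x (⟨g, hg, rfl⟩ | ⟨f, hf, rfl⟩)
      · exact hb0 u (hUG huU) g (hVG hg)
      · exact hb0 f (hUG hf) ν (hVG hνV)
    have h3 : S0 < S' := by
      refine lt_of_le_of_ne (Submodule.span_mono ?_) fun heq => ?_
      · rintro x (⟨g, hg, rfl⟩ | ⟨f, hf, rfl⟩)
        · exact Or.inl ⟨g, hg, rfl⟩
        · exact Or.inr ⟨f, Submodule.mem_sup_left hf, rfl⟩
      · have h4 : c' χ ν ∈ S' := Submodule.subset_span
          (Or.inr ⟨χ, Submodule.mem_sup_right (Submodule.mem_span_singleton_self χ), rfl⟩)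
        rw [← heq] at h4
        exact hχν ((hZ _).1 (hS0Z h4))
    have h4 := Submodule.finrank_lt_finrank_of_lt h3
    omega

open Classical in
theorem crit_insert {p : ℕ} [Fact p.Prime] {T : Finset (Pr K)} {ν : Pr K → Hm K p}
    (h : CoreK p T ν) {b : Pr K} (hb : b ∉ T) (hb1 : nm b % p = 1) (hν : ν b ≠ 0) :
    CritF p (insert b T) ν := by
  obtain ⟨χ, hχ, hχr⟩ := exists_ram T.finite_toSet h.vt (s := b) (by simpa using hb) hb1
  have hcoe : ((insert b T : Finset (Pr K)) : Set (Pr K)) = insert b (T : Set (Pr K)) :=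
    Finset.coe_insert b T
  have hbT : b ∉ (T : Set (Pr K)) := by simpa using hb
  have hgv0 : ∀ f ∈ GC p (T : Set (Pr K)), (f b).ev (gv p b) = 0 := by
    intro f hf
    rw [GC.off hf hbT]
    show _ * (((vl b (gv p b) : ℤ) : ZMod p)) = 0
    rw [(gv_spec hb1).1, Int.cast_zero, mul_zero]
  have hχ1 : Kills (χ b) b 1 := hχ.2.1 b (Set.mem_insert _ _)
  have hχg : (χ b).ev (gv p b) ≠ 0 := fun h0 => hχr ((unram_iff' hb1 hχ1).2 h0)
  have hνp : (ν b).ev (piv b) ≠ 0 := by
    intro h0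
    apply hν
    rw [GC.off h.mem hbT, h0, zero_smul]
  have hfin : Finite (GC p (insert b (T : Set (Pr K)))) := finite_GC (T.finite_toSet.insert b)
  unfold CritF
  rw [hcoe]
  have hfd : FiniteDimensional (ZMod p) (GC p (insert b (T : Set (Pr K)))) := Module.Finite.of_finite
  refine X5_abs (fun t : T => (⟨t.1, Finset.mem_insert_of_mem t.2⟩ : ↥(insert b T)))
    (fun s t hst => Subtype.ext (Subtype.mk.inj hst)) ⟨b, Finset.mem_insert_self b T⟩ ?_
    (fun f g (t : T) => cupF p (t : Pr K) f g) _ (fun f g t => rfl) (GC p (T : Set (Pr K))) _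
    (GC.mono (Set.subset_insert _ _)) (finrank_insert T.finite_toSet h.vt hbT hb1) ?_ χ hχ ?_ ν ?_
    h.crit
  · rintro ⟨j, hj⟩ hjb
    rcases Finset.mem_insert.1 hj with rfl | hjT
    · exact absurd rfl hjb
    · exact ⟨⟨j, hjT⟩, rfl⟩
  · intro f hf g hg
    show (f b).ev (gv p b) * (g b).ev (piv b) - (g b).ev (gv p b) * (f b).ev (piv b) = 0
    rw [hgv0 f hf, hgv0 g hg, zero_mul, zero_mul, sub_zero]
  · intro hχT
    exact hχr (hχT.1 b hbT)
  · show (χ b).ev (gv p b) * (ν b).ev (piv b) - (ν b).ev (gv p b) * (χ b).ev (piv b) ≠ 0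
    rw [hgv0 ν h.mem, zero_mul, sub_zero]
    exact mul_ne_zero hχg hνp

end Pool.Agent.RGK
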