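import Mathlib
import Pool.Agent.Lib.RGK.NKDefs
import Pool.Agent.Lib.RGK.X3
import Pool.Agent.Lib.RGK.X5

/-!
RG v4, row X5b: adding primes to a core.

`core_insert`: `crit_insert` (X5); the conditions `pr`, `vt` (`VT p (insert b T) ≤ VT p T`), `mem`
(`GC.mono`) are clear.
`core_Gset`: induction over the finite set `S.filter ..`.
-/

set_option autoImplicit false

namespace Pool.Agent.RGK

open NumberField IsDedekindDomain
open Pool.Agent.RG.H (Pr vl UU PP SU ev below nrm emb NS)

variable {K : Type} [Field K] [NumberField K]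

open Classical in
theorem core_insert {p : ℕ} [Fact p.Prime] {T : Finset (Pr K)} {ν : Pr K → Hm K p}
    (h : CoreK p T ν) {b : Pr K} (hb : b ∉ T) (hb0 : (nm b).Prime) (hb1 : nm b % p = 1)
    (hν : ν b ≠ 0) : CoreK p (insert b T) ν := by
  have hsub : (T : Set (Pr K)) ⊆ ((insert b T : Finset (Pr K)) : Set (Pr K)) := by
    rw [Finset.coe_insert]
    exact Set.subset_insert _ _
  refine ⟨?_, ?_, GC.mono hsub h.mem, crit_insert h hb hb1 hν⟩
  · intro t ht
    rcases Finset.mem_insert.1 ht with rfl | ht
    · exact ⟨hb0, hb1⟩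
    · exact h.pr t ht
  · refine le_trans ?_ h.vt
    unfold VT
    refine inf_le_inf_left _ ?_
    exact biInf_mono fun v hv => hsub hv

theorem core_Gset {p : ℕ} [Fact p.Prime] {T : Finset (Pr K)} {ν : Pr K → Hm K p}
    (h : CoreK p T ν) (S : Finset (Pr K)) : CoreK p (Gset p T ν S) ν := by
  classical
  have key : ∀ F : Finset (Pr K), (∀ b ∈ F, (nm b).Prime ∧ nm b % p = 1 ∧ ν b ≠ 0) →
      CoreK p (T ∪ F) ν := by
    intro F
    induction F using Finset.induction_on with
    | empty =>
      intro _
      rw [Finset.union_empty]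
      exact h
    | insert b F _ ih =>
      intro hF
      have h1 := ih fun c hc => hF c (Finset.mem_insert_of_mem hc)
      rw [Finset.union_insert]
      by_cases hb : b ∈ T ∪ F
      · rw [Finset.insert_eq_of_mem hb]
        exact h1
      · obtain ⟨hb0, hb1, hb2⟩ := hF b (Finset.mem_insert_self b F)
        exact core_insert h1 hb hb0 hb1 hb2
  unfold Gset
  convert key (S.filter fun b => (nm b).Prime ∧ nm b % p = 1 ∧ ν b ≠ 0)
    fun b hb => (Finset.mem_filter.1 hb).2

end Pool.Agent.RGK
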