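import Mathlib
import Pool.Agent.Lib.RGK.NKDefs
import Pool.Agent.Lib.RGK.X2
import Pool.Agent.Lib.RGK.X3
import Pool.Agent.Lib.RGK.X4
import Pool.Agent.Lib.RGK.X4b
import Pool.Agent.Lib.RGK.X5b
import Pool.Agent.Lib.RGK.DK0
import Pool.Agent.Lib.RGK.DK4
import Pool.Agent.Lib.RGK.NK1

/-!
RG v4, row NK2: once there is a core, the bad primes disappear; analog of `core_prob` in
`Pool/Agent/Lib/RG/N3b.lean` (read that proof).

Fix the core `T, ν`; `G := Gset p T ν S`, `U := Uset p T ν S`, `g := finrank (GC p G)`,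
`a := 1 / p`, `ρ := 1 - η = 1 - (1 - a) ^ 2`. Induction over `k`, for all `S ⊇ T`.
`k = 0`: if `U = ∅` then `CritK p S` and the value is `1`; otherwise `1 - card U ≤ 0`.
Step: for `q ∉ S`, `nm q % p = 1`, let `J q := (nm q).Prime ∧ ν q ≠ 0`.
* If `J q` then `Gset (insert q S) = insert q G` (`q ∉ T` as `T ⊆ S`), and
  `finrank (GC p (insert q G)) = g + 1` (`finrank_insert`, with `vt` of `core_Gset`); otherwise
  `Gset (insert q S) = G`. So `a ^ g' = a ^ g * (1 - (1 - a) * 1_{J q})`.
* For every `u ∈ U` choose `x u` by `exists_bad` (`T := G`, `u ∉ G`). If `J q` and `x u ∉ PU p q` then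
  `u ∉ Uset (insert q S)`: `exists_ram` gives `f ∈ GC p (insert q G)` ramified at `q`, `f u ≠ 0` by
  `bad_killed` (`b := q ≠ u` as `u ∈ S`). The only possibly new element is `q`, and only if
  `f q = 0` for all `f ∈ GC p G` (if `J q` then `q ∈ Gset (insert q S)`).
  `card U' ≤ card U - ∑ u ∈ U, 1_{J q, x u ∉ PU p q} + 1_{∀ f ∈ GC p G, f q = 0}`.
* The densities relative to `c0K` are: `{J}`: `1 - a`; `{J, x u ∉ PU}`: `(1 - a) ^ 2`;
  `{∀ f ∈ GC p G, f q = 0}`: `a ^ g`: `dens_ne`, `dens_neL` (`DK4`) with `Λ₀ = ⊥`, `Λ₁ = span {ν}`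
  (`ν ≠ 0` by `CritC`), `B₀ = PP`, `B₁ = PP ⊔ closure {x u}` of relIndex `p` over `PP` (`x u ∉ PP` because
  `p ∤ vl u (x u)`; `x u ^ p ∈ PP`), and `HasDK.prime`.
* By `pmeanK_ge` the mean value of `1 - ρ ^ k * (card U' + k / ρ * a ^ g')` is at least
  `1 - ρ ^ k * (ρ * card U + a ^ g + k / ρ * ρ * a ^ g)
    = 1 - ρ ^ (k+1) * (card U + (k+1) / ρ * a ^ g)`.
-/

set_option autoImplicit false

namespace Pool.Agent.RGK

open NumberField IsDedekindDomain
open Pool.Agent.RG.H (Pr vl UU PP SU ev below nrm emb NS)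

variable {K : Type} [Field K] [NumberField K]

noncomputable def etaK (p : ℕ) : ℝ := (1 - 1 / (p : ℝ)) ^ 2

section NK2

/-- the condition under which `q` is added to the good set -/
private def NK2_J (p : ℕ) (ν : Pr K → Hm K p) (q : Pr K) : Prop :=
  (nm q).Prime ∧ nm q % p = 1 ∧ ν q ≠ 0

open Classical in
private theorem NK2_G {p : ℕ} {T : Finset (Pr K)} {ν : Pr K → Hm K p} {S : Finset (Pr K)}
    {q : Pr K} (x : Pr K) : (x ∈ Gset p T ν (insert q S) ↔
      x ∈ Gset p T ν S ∨ (x = q ∧ NK2_J p ν q)) := by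
  unfold Gset NK2_J
  rw [Finset.mem_union, Finset.mem_union, Finset.mem_filter, Finset.mem_filter, Finset.mem_insert]
  constructor
  · rintro (h | ⟨rfl | h1, h2⟩)
    · exact Or.inl (Or.inl h)
    · exact Or.inr ⟨rfl, h2⟩
    · exact Or.inl (Or.inr ⟨h1, h2⟩)
  · rintro ((h | ⟨h1, h2⟩) | ⟨rfl, h2⟩)
    · exact Or.inl h
    · exact Or.inr ⟨Or.inr h1, h2⟩
    · exact Or.inr ⟨Or.inl rfl, h2⟩

private theorem NK2_Gsub {p : ℕ} {T : Finset (Pr K)} {ν : Pr K → Hm K p} {S : Finset (Pr K)}
    (hT : T ⊆ S) : Gset p T ν S ⊆ S := by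
  classical
  unfold Gset
  exact Finset.union_subset hT (Finset.filter_subset _ _)

open Classical in
private theorem NK2_Gins {p : ℕ} {T : Finset (Pr K)} {ν : Pr K → Hm K p} {S : Finset (Pr K)}
    {q : Pr K} (hJ : NK2_J p ν q) : (Gset p T ν (insert q S) : Set (Pr K)) =
      insert q (Gset p T ν S : Set (Pr K)) := by
  ext x
  rw [Finset.mem_coe, NK2_G, Set.mem_insert_iff, Finset.mem_coe]
  tauto

open Classical in
private theorem NK2_Gno {p : ℕ} {T : Finset (Pr K)} {ν : Pr K → Hm K p} {S : Finset (Pr K)}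
    {q : Pr K} (hJ : ¬ NK2_J p ν q) : Gset p T ν (insert q S) = Gset p T ν S := by
  ext x
  rw [NK2_G]
  tauto

open Classical in
private theorem NK2_fin {p : ℕ} [Fact p.Prime] {T : Finset (Pr K)} {ν : Pr K → Hm K p}
    (hc : CoreK p T ν) {S : Finset (Pr K)} (hT : T ⊆ S) {q : Pr K} (hq : q ∉ S)
    (hq1 : nm q % p = 1) :
    (1 / (p : ℝ)) ^ Module.finrank (ZMod p) (GC p (Gset p T ν (insert q S) : Set (Pr K))) =
      (1 / (p : ℝ)) ^ Module.finrank (ZMod p) (GC p (Gset p T ν S : Set (Pr K))) *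
        (1 - (1 - 1 / (p : ℝ)) * (if NK2_J p ν q then 1 else 0)) := by
  by_cases hJ : NK2_J p ν q
  · have h2 : q ∉ (Gset p T ν S : Set (Pr K)) := fun h => hq (NK2_Gsub hT (Finset.mem_coe.1 h))
    rw [NK2_Gins hJ, finrank_insert (Finset.finite_toSet _) (core_Gset hc S).vt h2 hq1, if_pos hJ,
      pow_succ]
    ring
  · rw [NK2_Gno hJ, if_neg hJ]
    ring

open Classical in
private theorem NK2_cardU {p : ℕ} [Fact p.Prime] {T : Finset (Pr K)} {ν : Pr K → Hm K p}
    (hc : CoreK p T ν) {S : Finset (Pr K)} (hT : T ⊆ S) {q : Pr K} (hq : q ∉ S)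
    (hq1 : nm q % p = 1) (xu : Pr K → Kˣ)
    (hxu : ∀ u ∈ Uset p T ν S, (∀ t ∈ (Gset p T ν S : Set (Pr K)), xu u ∈ PU p t) ∧
      (∀ v ∉ (Gset p T ν S : Set (Pr K)), v ≠ u → (p : ℤ) ∣ vl v (xu u))) :
    ((Uset p T ν (insert q S)).card : ℝ) ≤
      (Uset p T ν S).card -
        ∑ u ∈ Uset p T ν S, (if NK2_J p ν q ∧ xu u ∉ PU p q then (1 : ℝ) else 0) +
        (if ∀ f ∈ GC p (Gset p T ν S : Set (Pr K)), f q = 0 then 1 else 0) := by
  have hsub : (Gset p T ν S : Set (Pr K)) ⊆ (Gset p T ν (insert q S) : Set (Pr K)) := by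
    intro x hx
    rw [Finset.mem_coe] at hx ⊢
    rw [NK2_G]
    exact Or.inl hx
  have hqG : q ∉ (Gset p T ν S : Set (Pr K)) := fun h => hq (NK2_Gsub hT (Finset.mem_coe.1 h))
  have hmem : ∀ x, x ∈ Uset p T ν (insert q S) →
      (x = q ∨ x ∈ S) ∧ (x ∉ Gset p T ν S ∧ ∀ f ∈ GC p (Gset p T ν S : Set (Pr K)), f x = 0) ∧
        (NK2_J p ν q → x ≠ q ∧ (x ∈ Uset p T ν S → xu x ∈ PU p q)) := by
    intro x hx
    unfold Uset at hx
    rw [Finset.mem_filter, Finset.mem_insert] at hx
    obtain ⟨h1, h2, h3⟩ := hx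
    refine ⟨h1, ⟨fun h => h2 ?_, fun f hf => h3 f (GC.mono hsub hf)⟩, fun hJ => ⟨?_, fun hxU => ?_⟩⟩
    · rw [NK2_G]
      exact Or.inl h
    · rintro rfl
      exact h2 ((NK2_G _).2 (Or.inr ⟨rfl, hJ⟩))
    · by_contra hcon
      obtain ⟨f, hf, hfq⟩ := exists_ram (Finset.finite_toSet (Gset p T ν S)) (core_Gset hc S).vt
        hqG hq1
      have hxq : q ≠ x := by
        rintro rfl
        exact h2 ((NK2_G _).2 (Or.inr ⟨rfl, hJ⟩))
      have h4 := bad_killed hqG hxq hq1 (hxu x hxU).1 (hxu x hxU).2 hcon hf hfq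
      refine h4 (h3 f ?_)
      rw [NK2_Gins hJ]
      exact hf
  by_cases hJ : NK2_J p ν q
  · have h1 : Uset p T ν (insert q S) ⊆
        (Uset p T ν S).filter fun u => xu u ∈ PU p q := by
      intro x hx
      obtain ⟨h1, h2, h3⟩ := hmem x hx
      have hxU : x ∈ Uset p T ν S := by
        unfold Uset
        rw [Finset.mem_filter]
        exact ⟨h1.resolve_left (h3 hJ).1, h2⟩
      rw [Finset.mem_filter]
      exact ⟨hxU, (h3 hJ).2 hxU⟩
    have h2 : ((Uset p T ν (insert q S)).card : ℝ) ≤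
        ((Uset p T ν S).filter fun u => xu u ∈ PU p q).card := by
      exact_mod_cast Finset.card_le_card h1
    have h3 : (((Uset p T ν S).filter fun u => xu u ∈ PU p q).card : ℝ) =
        (Uset p T ν S).card -
          ∑ u ∈ Uset p T ν S, (if NK2_J p ν q ∧ xu u ∉ PU p q then (1 : ℝ) else 0) := by
      rw [Finset.card_filter, Finset.card_eq_sum_ones]
      push_cast
      rw [← Finset.sum_sub_distrib]
      refine Finset.sum_congr rfl fun u _ => ?_
      by_cases hu : xu u ∈ PU p q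
      · rw [if_pos hu, if_neg (fun h => h.2 hu)]
        ring
      · rw [if_neg hu, if_pos ⟨hJ, hu⟩]
        ring
    have h4 : (0 : ℝ) ≤ (if ∀ f ∈ GC p (Gset p T ν S : Set (Pr K)), f q = 0 then 1 else 0) := by
      split_ifs <;> norm_num
    linarith
  · have h0 : ∑ u ∈ Uset p T ν S,
        (if NK2_J p ν q ∧ xu u ∉ PU p q then (1 : ℝ) else 0) = 0 := by
      refine Finset.sum_eq_zero fun u _ => ?_
      rw [if_neg (fun h => hJ h.1)]
    rw [h0, sub_zero]
    by_cases hZ : ∀ f ∈ GC p (Gset p T ν S : Set (Pr K)), f q = 0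
    · rw [if_pos hZ]
      have h1 : Uset p T ν (insert q S) ⊆ insert q (Uset p T ν S) := by
        intro x hx
        obtain ⟨h1, h2, h3⟩ := hmem x hx
        rw [Finset.mem_insert]
        rcases h1 with h1 | h1
        · exact Or.inl h1
        · right
          unfold Uset
          rw [Finset.mem_filter]
          exact ⟨h1, h2⟩
      have h2 := (Finset.card_le_card h1).trans (Finset.card_insert_le _ _)
      exact_mod_cast h2
    · rw [if_neg hZ, add_zero]
      have h1 : Uset p T ν (insert q S) ⊆ Uset p T ν S := by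
        intro x hx
        obtain ⟨h1, h2, h3⟩ := hmem x hx
        unfold Uset
        rw [Finset.mem_filter]
        refine ⟨h1.resolve_left ?_, h2⟩
        rintro rfl
        exact hZ h2.2
      exact_mod_cast Finset.card_le_card h1

private theorem NK2_relIndex {p : ℕ} [Fact p.Prime] {x : Kˣ} {u : Pr K}
    (hx : ¬ (p : ℤ) ∣ vl u x) : (PP K p).relIndex (PP K p ⊔ Subgroup.zpowers x) = p := by
  have hp : p.Prime := Fact.out
  rw [Subgroup.relIndex_sup_left]
  have h1 := Subgroup.relIndex_ker (Subgroup.zpowers x) (QuotientGroup.mk' (PP K p))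
  rw [QuotientGroup.ker_mk', MonoidHom.map_zpowers, Nat.card_zpowers] at h1
  rw [h1]
  apply orderOf_eq_prime
  · rw [← map_pow, QuotientGroup.mk'_apply, QuotientGroup.eq_one_iff]
    exact RG.H.mem_PP.2 ⟨x, rfl⟩
  · rw [QuotientGroup.mk'_apply, Ne, QuotientGroup.eq_one_iff]
    intro h
    obtain ⟨y, rfl⟩ := RG.H.mem_PP.1 h
    apply hx
    rw [RG.H.vl_pow]
    exact dvd_mul_right _ _

end NK2

theorem core_probK {p : ℕ} [Fact p.Prime] (hD : DensK K p) {T : Finset (Pr K)}
    {ν : Pr K → Hm K p} (hc : CoreK p T ν) (k : ℕ) (S : Finset (Pr K))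
    (hS : ∀ v ∈ S, nm v % p = 1) (hT : T ⊆ S) :
    1 - (1 - etaK p) ^ k * (((Uset p T ν S).card : ℝ) + k / (1 - etaK p) *
      (1 / (p : ℝ)) ^ Module.finrank (ZMod p) (GC p (Gset p T ν S : Set (Pr K)))) ≤
      iterProbK p (CritK p) k S := by
  classical
  have hpp : p.Prime := Fact.out
  have hp2 : 2 ≤ p := hpp.two_le
  have hpR : (2 : ℝ) ≤ p := by exact_mod_cast hp2
  have hx0 : (0 : ℝ) < 1 / (p : ℝ) := by positivity
  have hx1 : 1 / (p : ℝ) ≤ 1 / 2 := one_div_le_one_div_of_le (by norm_num) hpR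
  have heta : etaK p = (1 - 1 / (p : ℝ)) ^ 2 := rfl
  have heta0 : 0 ≤ etaK p := by
    rw [heta]
    positivity
  have heta1 : etaK p < 1 := by
    rw [heta]
    nlinarith
  have h1 := hasDK_P1K (K := K) hD
  have hc0 := c0K_pos (K := K) (p := p)
  induction k generalizing S with
  | zero =>
    unfold iterProbK
    rw [pow_zero, Nat.cast_zero, zero_div, zero_mul, add_zero, one_mul]
    by_cases hU : Uset p T ν S = ∅
    · rw [if_pos ⟨T, hT, ν, hc, hU⟩, hU]
      simp
    · have h2 : 1 ≤ (Uset p T ν S).card :=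
        Finset.card_pos.2 (Finset.nonempty_iff_ne_empty.2 hU)
      have h3 : (1 : ℝ) ≤ (Uset p T ν S).card := by exact_mod_cast h2
      split_ifs <;> linarith
  | succ k ih =>
    have hv0 : 0 < 1 - etaK p := by linarith
    set U := Uset p T ν S with hU
    set G := Gset p T ν S with hG
    set g := Module.finrank (ZMod p) (GC p (G : Set (Pr K))) with hg
    set x : ℝ := 1 / (p : ℝ) with hx
    have hGc : CoreK p G ν := core_Gset hc S
    have hν0 : ν ≠ 0 := by
      obtain ⟨_, _, _, _, _, _, _, h0, _⟩ := hc.crit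
      exact h0
    -- the elements `xu`
    have hex : ∀ u : Pr K, ∃ y : Kˣ, u ∈ U → (∀ t ∈ (G : Set (Pr K)), y ∈ PU p t) ∧
        (∀ v ∉ (G : Set (Pr K)), v ≠ u → (p : ℤ) ∣ vl v y) ∧ ¬ (p : ℤ) ∣ vl u y := by
      intro u
      by_cases hu : u ∈ U
      · have hu' := hu
        rw [hU, Uset, Finset.mem_filter] at hu'
        obtain ⟨y, hy⟩ := exists_bad (p := p) (Finset.finite_toSet G)
          (fun h => hu'.2.1 (Finset.mem_coe.1 h)) hu'.2.2
        exact ⟨y, fun _ => hy⟩
      · exact ⟨1, fun h => absurd h hu⟩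
    choose xu hxu using hex
    -- densities
    have hΛ : Submodule.span (ZMod p) {ν} ≤ GC p (T : Set (Pr K)) := by
      rw [Submodule.span_le]
      rintro _ rfl
      exact hc.mem
    have hspan : ∀ v : Pr K, (¬ ∀ f ∈ Submodule.span (ZMod p) {ν}, f v = 0) ↔ ν v ≠ 0 := by
      intro v
      refine not_congr ⟨fun h => h ν (Submodule.mem_span_singleton_self ν), fun h f hf => ?_⟩
      obtain ⟨c, rfl⟩ := Submodule.mem_span_singleton.1 hf
      rw [Pi.smul_apply, h, smul_zero]
    have hfr : Module.finrank (ZMod p) (Submodule.span (ZMod p) {ν}) = 1 :=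
      finrank_span_singleton hν0
    have hDS : ∀ v : Pr K, v ∈ DS p (⊥ : Submodule (ZMod p) (Pr K → Hm K p)) (PP K p) ↔
        nm v % p = 1 := by
      intro v
      constructor
      · exact fun h => h.1
      · refine fun h => ⟨h, fun f hf => ?_, le_sup_left⟩
        rw [(Submodule.mem_bot _).1 hf]
        rfl
    have hT1 : ∀ v ∈ (T : Set (Pr K)), nm v % p = 1 := fun v hv => (hc.pr v (Finset.mem_coe.1 hv)).2
    have dJ : HasDK {v : Pr K | NK2_J p ν v} (c0K K p * (1 - x)) := by
      have h2 := (dens_neL hD (Finset.finite_toSet T) hT1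
        (bot_le : (⊥ : Submodule (ZMod p) (Pr K → Hm K p)) ≤ Submodule.span (ZMod p) {ν}) hΛ
        (B := PP K p) le_rfl (by rw [Subgroup.relIndex_self]; exact one_ne_zero)).prime
      rw [finrank_bot, hfr, Subgroup.relIndex_self, pow_zero, pow_one, Nat.cast_one, inv_one,
        mul_one, ← one_div (p : ℝ)] at h2
      convert h2 using 1
      ext v
      simp only [Set.mem_setOf_eq, hDS, hspan, NK2_J]
      tauto
    have dJu : ∀ u ∈ U, HasDK {v : Pr K | NK2_J p ν v ∧ xu u ∉ PU p v} (c0K K p * etaK p) := by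
      intro u hu
      have hri := NK2_relIndex (p := p) (hxu u hu).2.2
      have h2 := (dens_ne hD (Finset.finite_toSet T) hT1
        (bot_le : (⊥ : Submodule (ZMod p) (Pr K → Hm K p)) ≤ Submodule.span (ZMod p) {ν}) hΛ
        (B₀ := PP K p) (B₁ := PP K p ⊔ Subgroup.zpowers (xu u)) le_rfl le_sup_left
        (by rw [hri]; exact hpp.ne_zero)).prime
      rw [finrank_bot, hfr, Subgroup.relIndex_self, hri, pow_zero, pow_one, Nat.cast_one, inv_one,
        ← one_div (p : ℝ), ← pow_two] at h2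
      convert h2 using 1
      · ext v
        have h3 : (¬ PP K p ⊔ Subgroup.zpowers (xu u) ≤ PU p v) ↔ xu u ∉ PU p v := by
          refine not_congr ?_
          rw [sup_le_iff, Subgroup.zpowers_le]
          exact ⟨fun h => h.2, fun h => ⟨le_sup_left, h⟩⟩
        simp only [Set.mem_setOf_eq, hDS, hspan, NK2_J, h3]
        tauto
      · rw [heta]
    have dZ : HasDK (DS p (GC p (G : Set (Pr K))) (PP K p)) (c0K K p * x ^ g) := by
      have h2 := hD (G : Set (Pr K)) (Finset.finite_toSet G)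
        (fun v hv => (hGc.pr v (Finset.mem_coe.1 hv)).2) (GC p (G : Set (Pr K))) le_rfl (PP K p)
        le_rfl (by rw [Subgroup.relIndex_self]; exact one_ne_zero)
      rw [Subgroup.relIndex_self, Nat.cast_one, inv_one, mul_one, ← inv_pow,
        ← one_div (p : ℝ)] at h2
      exact h2
    -- the sets and coefficients
    let A : Option (Option U) → Set (Pr K) := fun i => match i with
      | none => {v : Pr K | NK2_J p ν v}
      | some none => DS p (GC p (G : Set (Pr K))) (PP K p)
      | some (some u) => {v : Pr K | NK2_J p ν v ∧ xu u.1 ∉ PU p v}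
    let d : Option (Option U) → ℝ := fun i => match i with
      | none => 1 - x
      | some none => x ^ g
      | some (some _) => etaK p
    let c : Option (Option U) → ℝ := fun i => match i with
      | none => (1 - etaK p) ^ k * (k / (1 - etaK p) * x ^ g * (1 - x))
      | some none => -(1 - etaK p) ^ k
      | some (some _) => (1 - etaK p) ^ k
    have hmain := pmeanK_ge hc0 h1 A (by
        rintro (_ | _ | u)
        · exact fun l hl => hl.2.1
        · exact fun l hl => hl.1
        · exact fun l hl => hl.1.2.1) d (by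
        rintro (_ | _ | u)
        · exact dJ
        · exact dZ
        · exact dJu u.1 u.2)
      (1 - (1 - etaK p) ^ k * (U.card + k / (1 - etaK p) * x ^ g)) c S
      (fun q => iterProbK p (CritK p) k (insert q S)) 1
      (fun q => by linarith [(iterProbK_bounds p hc0 h1 (CritK p) k (insert q S)).1])
      (fun q => (iterProbK_bounds p hc0 h1 (CritK p) k (insert q S)).2) (by
        intro q hq hqS
        have hq1 : nm q % p = 1 := hq
        have hS' : ∀ y ∈ insert q S, nm y % p = 1 := by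
          intro y hy
          rw [Finset.mem_insert] at hy
          rcases hy with rfl | hy
          · exact hq
          · exact hS y hy
        have h2 := ih (insert q S) hS' (hT.trans (Finset.subset_insert _ _))
        have h3 := NK2_cardU hc hT hqS hq1 xu (fun u hu => ⟨(hxu u hu).1, (hxu u hu).2.1⟩)
        rw [NK2_fin hc hT hqS hq1] at h2
        refine le_trans ?_ h2
        rw [Fintype.sum_option, Fintype.sum_option]
        have hJ : q ∈ A none ↔ NK2_J p ν q := Iff.rfl
        have hZ : q ∈ A (some none) ↔ ∀ f ∈ GC p (G : Set (Pr K)), f q = 0 :=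
          ⟨fun h => h.2.1, fun h => ⟨hq1, h, le_sup_left⟩⟩
        have hAu : ∀ u : U, q ∈ A (some (some u)) ↔ NK2_J p ν q ∧ xu u.1 ∉ PU p q :=
          fun u => Iff.rfl
        simp only [hJ, hZ, hAu]
        have h4 : ∑ u : U, c (some (some u)) *
            (if NK2_J p ν q ∧ xu u.1 ∉ PU p q then (1 : ℝ) else 0) = (1 - etaK p) ^ k *
              ∑ u ∈ U, (if NK2_J p ν q ∧ xu u ∉ PU p q then (1 : ℝ) else 0) := by
          rw [← Finset.sum_coe_sort U, Finset.mul_sum]
        rw [h4]
        change 1 - (1 - etaK p) ^ k * (U.card + k / (1 - etaK p) * x ^ g) +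
          ((1 - etaK p) ^ k * (k / (1 - etaK p) * x ^ g * (1 - x)) *
            (if NK2_J p ν q then 1 else 0) +
          (-(1 - etaK p) ^ k * (if ∀ f ∈ GC p (G : Set (Pr K)), f q = 0 then 1 else 0) +
            (1 - etaK p) ^ k *
              ∑ u ∈ U, (if NK2_J p ν q ∧ xu u ∉ PU p q then (1 : ℝ) else 0))) ≤ _
        have h5 := mul_le_mul_of_nonneg_left h3 (pow_nonneg hv0.le k)
        rw [← hU, ← hG] at h5
        have h6 : (1 - etaK p) ^ k * ((Uset p T ν (insert q S)).card +
            k / (1 - etaK p) * (x ^ g *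
              (1 - (1 - x) * (if NK2_J p ν q then 1 else 0)))) =
            (1 - etaK p) ^ k * (Uset p T ν (insert q S)).card +
            ((1 - etaK p) ^ k * (k / (1 - etaK p) * x ^ g) -
            (1 - etaK p) ^ k * (k / (1 - etaK p) * x ^ g * (1 - x)) *
              (if NK2_J p ν q then 1 else 0)) := by
          ring
        rw [h6]
        linarith)
    unfold iterProbK
    refine le_trans ?_ hmain
    rw [Fintype.sum_option, Fintype.sum_option]
    have h4 : ∑ u : U, c (some (some u)) * d (some (some u)) =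
        (1 - etaK p) ^ k * (etaK p * U.card) := by
      change ∑ u : U, (1 - etaK p) ^ k * etaK p = _
      rw [Finset.sum_const, Finset.card_univ, Fintype.card_coe, nsmul_eq_mul]
      ring
    rw [h4]
    change _ ≤ 1 - (1 - etaK p) ^ k * (U.card + k / (1 - etaK p) * x ^ g) +
      ((1 - etaK p) ^ k * (k / (1 - etaK p) * x ^ g * (1 - x)) * (1 - x) +
      (-(1 - etaK p) ^ k * x ^ g + (1 - etaK p) ^ k * (etaK p * U.card)))
    have h7 : (1 - etaK p) ^ (k + 1) * (U.card + ((k + 1 : ℕ) : ℝ) / (1 - etaK p) * x ^ g) =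
        (1 - etaK p) ^ k * ((1 - etaK p) * U.card + (k + 1) * x ^ g) := by
      rw [pow_succ]
      push_cast
      field_simp
    have h8 : (1 - etaK p) ^ k * (k / (1 - etaK p) * x ^ g * (1 - x)) * (1 - x) =
        (1 - etaK p) ^ k * (k / (1 - etaK p) * x ^ g) * etaK p := by
      rw [heta]
      ring
    have h9 : (1 - etaK p) ^ k * (k / (1 - etaK p) * x ^ g) * (1 - etaK p) =
        (1 - etaK p) ^ k * (k * x ^ g) := by
      field_simp
    rw [h7, h8]
    linarith

end Pool.Agent.RGK
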