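import Mathlib
import Pool.Agent.Lib.RG.Zeta
import Pool.Agent.Lib.RG.H03
import Pool.Agent.Lib.RG.H04
import Pool.Agent.Lib.RG.H05
import Pool.Agent.Lib.RGK.CXDefs
import Pool.Agent.Lib.RGK.B1
import Pool.Agent.Lib.RGK.B2
import Pool.Agent.Lib.RGK.B4
import Pool.Agent.Lib.RGK.C00

/-!
RG v4, rows C16a, C16b: a nontrivial character has nontrivial Frobenius values at primes of prime norm
(outside any finite set).

`exists_nonsplit` (row C16a): `L / K` Galois of prime degree `p`. Suppose that for all `v` of prime norm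
outside a finite set `F` the decomposition groups above `v` are trivial; enlarge `F` by the ramified primes (`H.fin_ram`). Then
above each such `v` there are exactly `p` primes of `L` (orbit of the Galois group with trivial
stabilizers: `H.split_card`, H04, in terms of `NS`), each of norm `nm v` (`H.split_norm`, H05). So
`∑_w (nm w)⁻ˢ ≥ p * ∑_{v ∉ F} (nm v)⁻ˢ` (sums over the primes of prime norm of `L` and of `K`), which
contradicts `RG.prime_sum` (Zeta.lean) for `K` and `L` when `s → 1` (compare H21, where this argument is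
carried out for Kummer extensions, or D09).

`cheb` (row C16b): `θ ≠ 1`. `H := θ.ker`, `L₀ := fixed field of H`, Galois of degree `p` over `K`
(`Gal(L₀ / K) = Gal(L / K) / H` is isomorphic to the image of `θ`, which is everything). C16a gives a
prime `w₀` of `L₀` with `nm (below w₀)` prime, `below w₀ ∉ F`, and `σ₀ ≠ 1` in its decomposition group,
the inertia group being trivial. Let `w` be a prime of `L` above `w₀`, `φ` a Frobenius element at `w`
(`exists_frobK`). Its restriction to `L₀` is a Frobenius element `φ₀` at `w₀` (`IsFrob.restrictK`),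
and `φ₀ ≠ 1`, since the decomposition group modulo inertia is generated by it (`dec_frob`). So
`φ ∉ H`.
-/

set_option autoImplicit false

namespace Pool.Agent.RGK

open NumberField IsDedekindDomain
open Pool.Agent.RG (Above IsDec IsInert IsFrob)
open Pool.Agent.RG.H (Pr vl UU PP emb below)

open Pool.Agent.RG.H (NS split_norm split_card fin_ram prime_sum) in
/-- The counting: if almost all primes of `M` of prime norm split completely in `L`, the sum over
the primes of prime norm of `L` is at least `p` times that of `M`, up to a constant. -/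
private theorem c16_sum_split {M : Type} [Field M] [NumberField M] {p : ℕ} (L : Type) [Field L] [NumberField L] [Algebra M L] [IsGalois M L]
    (hp : p.Prime) (hL : Module.finrank M L = p) (F : Finset (Pr M))
    (hsplit : ∀ v : Pr M, v ∉ F → (Ideal.absNorm v.asIdeal).Prime → ¬ NS L v)
    {s : ℝ} (hs : 1 < s)
    (hsumL : Summable (fun w : {w : HeightOneSpectrum (𝓞 L) // (Ideal.absNorm w.asIdeal).Prime} =>
        (Ideal.absNorm w.1.asIdeal : ℝ) ^ (-s)))
    (hsumM : Summable (fun w : {w : HeightOneSpectrum (𝓞 M) // (Ideal.absNorm w.asIdeal).Prime} =>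
        (Ideal.absNorm w.1.asIdeal : ℝ) ^ (-s))) :
    (p : ℝ) * (∑' w : {w : HeightOneSpectrum (𝓞 M) // (Ideal.absNorm w.asIdeal).Prime},
        (Ideal.absNorm w.1.asIdeal : ℝ) ^ (-s))
      ≤ (∑' w : {w : HeightOneSpectrum (𝓞 L) // (Ideal.absNorm w.asIdeal).Prime},
        (Ideal.absNorm w.1.asIdeal : ℝ) ^ (-s)) + p * F.card := by
  classical
  set f : {w : HeightOneSpectrum (𝓞 M) // (Ideal.absNorm w.asIdeal).Prime} → ℝ :=
    fun w => (Ideal.absNorm w.1.asIdeal : ℝ) ^ (-s) with hf
  set g : {w : HeightOneSpectrum (𝓞 L) // (Ideal.absNorm w.asIdeal).Prime} → ℝ :=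
    fun w => (Ideal.absNorm w.1.asIdeal : ℝ) ^ (-s) with hg
  have hg0 : ∀ w, 0 ≤ g w := fun w => Real.rpow_nonneg (Nat.cast_nonneg _) _
  have hf1 : ∀ w, f w ≤ 1 := by
    intro w
    apply Real.rpow_le_one_of_one_le_of_nonpos
    · exact_mod_cast w.2.one_lt.le
    · linarith
  rw [← tsum_mul_left]
  apply (hsumM.mul_left (p : ℝ)).tsum_le_of_sum_le
  intro T
  -- the good part of `T`
  set T' := T.filter (fun v => v.1 ∉ F) with hT'
  have hnorm : ∀ v ∈ T', ∀ w : {w : Pr L // (below w : Pr M) = v.1},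
      Ideal.absNorm w.1.asIdeal = Ideal.absNorm v.1.asIdeal := by
    intro v hv w
    have hv2 := (Finset.mem_filter.1 hv).2
    have h1 : ¬ NS L (below w.1 : Pr M) := by
      rw [w.2]
      exact hsplit v.1 hv2 v.2
    rw [split_norm hp hL w.1 h1, w.2]
  have hfin : ∀ v ∈ T', Finite {w : Pr L // (below w : Pr M) = v.1} := by
    intro v hv
    have hv2 := (Finset.mem_filter.1 hv).2
    apply Nat.finite_of_card_ne_zero
    rw [split_card hp hL (hsplit v.1 hv2 v.2)]
    exact hp.ne_zero
  -- the primes above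
  have hfib : ∀ v ∈ T', ∃ W : Finset {w : HeightOneSpectrum (𝓞 L) // (Ideal.absNorm w.asIdeal).Prime},
      (∀ w ∈ W, (below w.1 : Pr M) = v.1) ∧ ∑ w ∈ W, g w = p * f v := by
    intro v hv
    have := hfin v hv
    have hv2 := (Finset.mem_filter.1 hv).2
    let _ : Fintype {w : Pr L // (below w : Pr M) = v.1} := Fintype.ofFinite _
    let e : {w : Pr L // (below w : Pr M) = v.1} ↪
        {w : HeightOneSpectrum (𝓞 L) // (Ideal.absNorm w.asIdeal).Prime} :=
      ⟨fun w => ⟨w.1, by rw [hnorm v hv w]; exact v.2⟩, by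
        intro a b hab
        apply Subtype.ext
        exact congrArg (fun z => z.1) hab⟩
    refine ⟨Finset.univ.map e, ?_, ?_⟩
    · intro w hw
      obtain ⟨a, _, rfl⟩ := Finset.mem_map.1 hw
      exact a.2
    · rw [Finset.sum_map]
      have h1 : ∀ a : {w : Pr L // (below w : Pr M) = v.1}, g (e a) = f v := by
        intro a
        change (Ideal.absNorm a.1.asIdeal : ℝ) ^ (-s) = (Ideal.absNorm v.1.asIdeal : ℝ) ^ (-s)
        rw [hnorm v hv a]
      rw [Finset.sum_congr rfl (fun a _ => h1 a), Finset.sum_const, nsmul_eq_mul,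
        Finset.card_univ, ← Nat.card_eq_fintype_card, split_card hp hL (hsplit v.1 hv2 v.2)]
  choose! W hW1 hW2 using hfib
  have hdisj : Set.PairwiseDisjoint (T' : Set _) W := by
    intro v hv v' hv' hne
    rw [Function.onFun, Finset.disjoint_left]
    intro w hw hw'
    apply hne
    apply Subtype.ext
    rw [← hW1 v hv w hw, hW1 v' hv' w hw']
  have h1 : ∑ v ∈ T', (p : ℝ) * f v ≤ ∑' w, g w := by
    rw [← Finset.sum_congr rfl hW2, ← Finset.sum_biUnion hdisj]
    exact hsumL.sum_le_tsum _ (fun w _ => hg0 w)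
  have h2 : ∑ v ∈ T.filter (fun v => ¬ v.1 ∉ F), (p : ℝ) * f v ≤ p * F.card := by
    calc ∑ v ∈ T.filter (fun v => ¬ v.1 ∉ F), (p : ℝ) * f v
        ≤ ∑ v ∈ T.filter (fun v => ¬ v.1 ∉ F), (p : ℝ) := by
          apply Finset.sum_le_sum
          intro v _
          have : (0 : ℝ) ≤ p := Nat.cast_nonneg _
          nlinarith [hf1 v]
      _ = p * (T.filter (fun v => ¬ v.1 ∉ F)).card := by
          rw [Finset.sum_const, nsmul_eq_mul, mul_comm]
      _ ≤ p * F.card := by
          have h3 : (T.filter (fun v => ¬ v.1 ∉ F)).card ≤ F.card := by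
            apply Finset.card_le_card_of_injOn (fun v => v.1)
            · intro v hv
              have := (Finset.mem_filter.1 hv).2
              exact not_not.1 this
            · intro a _ b _ hab
              exact Subtype.ext hab
          have h4 : ((T.filter (fun v => ¬ v.1 ∉ F)).card : ℝ) ≤ F.card := by exact_mod_cast h3
          exact mul_le_mul_of_nonneg_left h4 (Nat.cast_nonneg _)
  rw [← Finset.sum_filter_add_sum_filter_not T (fun v => v.1 ∉ F)]
  exact add_le_add h1 h2


theorem exists_nonsplit {K L : Type} [Field K] [NumberField K] [Field L] [NumberField L]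
    [Algebra K L] [IsGalois K L] {p : ℕ} (hp : p.Prime) (hL : Module.finrank K L = p)
    {F : Set (Pr K)} (hF : F.Finite) :
    ∃ w : Pr L, (below w : Pr K) ∉ F ∧ (nm (below w : Pr K)).Prime ∧
      (∀ σ : L ≃ₐ[K] L, IsInert w σ → σ = 1) ∧ ∃ σ : L ≃ₐ[K] L, IsDec w σ ∧ σ ≠ 1 := by
  classical
  by_contra hcon
  push Not at hcon
  set R : Set (Pr L) := {w : Pr L | ∃ σ : L ≃ₐ[K] L, σ ≠ 1 ∧ IsInert w σ} with hR
  have hRfin : R.Finite := RG.H.fin_ram
  have hF1 : (F ∪ (fun w : Pr L => (below w : Pr K)) '' R).Finite := hF.union (hRfin.image _)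
  set F' : Finset (Pr K) := hF1.toFinset with hF'
  have hmem : ∀ v : Pr K, v ∈ F' ↔ v ∈ F ∨ ∃ w ∈ R, (below w : Pr K) = v := by
    intro v
    rw [hF', Set.Finite.mem_toFinset]
    rfl
  have hsplit : ∀ v : Pr K, v ∉ F' → (Ideal.absNorm v.asIdeal).Prime → ¬ RG.H.NS L v := by
    intro v hv hvp hNS
    rw [hmem] at hv
    push Not at hv
    obtain ⟨w, hw, hdec⟩ := hNS
    have hin : ∀ σ : L ≃ₐ[K] L, IsInert w σ → σ = 1 := by
      intro σ hσ
      by_contra hne
      exact hv.2 w ⟨σ, hne, hσ⟩ hw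
    have h8 : ∀ σ : L ≃ₐ[K] L, σ = 1 := fun σ =>
      hcon w (by rw [hw]; exact hv.1) (by rw [hw]; exact hvp) hin σ (hdec σ)
    have h9 : Nat.card (L ≃ₐ[K] L) = 1 := by
      rw [Nat.card_eq_one_iff_unique]
      exact ⟨⟨fun a b => by rw [h8 a, h8 b]⟩, ⟨1⟩⟩
    rw [IsGalois.card_aut_eq_finrank, hL] at h9
    exact hp.one_lt.ne' h9
  obtain ⟨C1, hC1⟩ := RG.H.prime_sum L
  obtain ⟨C2, hC2⟩ := RG.H.prime_sum K
  set T : ℝ := |C1| + p * |C2| + p * F'.card + 1 with hT
  have hT0 : 0 < T := by positivity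
  have hexp : Real.exp (-T) ≤ 1 := Real.exp_le_one_iff.2 (by linarith)
  have hexp0 : 0 < Real.exp (-T) := Real.exp_pos _
  obtain ⟨hsL, hbL⟩ := hC1 (1 + Real.exp (-T)) (by linarith) (by linarith)
  obtain ⟨hsM, hbM⟩ := hC2 (1 + Real.exp (-T)) (by linarith) (by linarith)
  have hlog : Real.log (1 / (1 + Real.exp (-T) - 1)) = T := by
    rw [add_sub_cancel_left, one_div, Real.log_inv, Real.log_exp, neg_neg]
  rw [hlog] at hbL hbM
  have hmain := c16_sum_split L hp hL F' hsplit (s := 1 + Real.exp (-T)) (by linarith) hsL hsM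
  have h1 := (abs_le.1 hbL).2
  have h2 := (abs_le.1 hbM).1
  have h3 : C1 ≤ |C1| := le_abs_self _
  have h4 : C2 ≤ |C2| := le_abs_self _
  have hp2' : (2 : ℝ) ≤ p := by exact_mod_cast hp.two_le
  set A := ∑' w : {w : HeightOneSpectrum (𝓞 K) // (Ideal.absNorm w.asIdeal).Prime},
        (Ideal.absNorm w.1.asIdeal : ℝ) ^ (-(1 + Real.exp (-T))) with hA
  set B := ∑' w : {w : HeightOneSpectrum (𝓞 L) // (Ideal.absNorm w.asIdeal).Prime},
        (Ideal.absNorm w.1.asIdeal : ℝ) ^ (-(1 + Real.exp (-T))) with hB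
  have h5 : T - |C2| ≤ A := by linarith
  have h6 : B ≤ T + |C1| := by linarith
  have h7 : (p : ℝ) * (T - |C2|) ≤ p * A := mul_le_mul_of_nonneg_left h5 (by linarith)
  have h8 : 2 * T ≤ p * T := mul_le_mul_of_nonneg_right hp2' hT0.le
  have h9 : (p : ℝ) * (T - |C2|) = p * T - p * |C2| := by ring
  linarith

theorem cheb {p : ℕ} [Fact p.Prime] {K L : Type} [Field K] [NumberField K] [Field L]
    [NumberField L] [Algebra K L] [IsGalois K L] (θ : (L ≃ₐ[K] L) →* Multiplicative (ZMod p))
    (hθ : θ ≠ 1) {F : Set (Pr K)} (hF : F.Finite) :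
    ∃ w : Pr L, (below w : Pr K) ∉ F ∧ (nm (below w : Pr K)).Prime ∧
      ∃ g : L ≃ₐ[K] L, IsFrob w (nm (below w : Pr K)) g ∧ θ g ≠ 1 := by
  classical
  have hp : p.Prime := Fact.out
  -- the image of the character is everything
  have hcard : θ.ker.index = p := by
    have h1 : Nat.card (Multiplicative (ZMod p)) = p := by
      rw [Nat.card_eq_fintype_card, Fintype.card_multiplicative, ZMod.card]
    have h2 : Nat.card θ.range ∣ p := by
      have h3 := Subgroup.card_subgroup_dvd_card θ.range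
      rwa [h1] at h3
    rw [Subgroup.index_ker]
    rcases (Nat.dvd_prime hp).1 h2 with h3 | h3
    · exfalso
      apply hθ
      have h4 : θ.range = ⊥ := Subgroup.card_eq_one.1 h3
      ext g
      have h5 : θ g ∈ θ.range := ⟨g, rfl⟩
      rw [h4, Subgroup.mem_bot] at h5
      rw [h5]
      rfl
    · exact h3
  set L₀ : IntermediateField K L := IntermediateField.fixedField θ.ker with hL₀
  have hN : (θ.ker).Normal := inferInstance
  have hgal : IsGalois K L₀ := IsGalois.of_fixedField_normal_subgroup θ.ker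
  have hnf : NumberField L₀ := NumberField.of_module_finite K L₀
  have hdeg : Module.finrank K L₀ = p := by
    have h1 : Module.finrank L₀ L = Nat.card θ.ker := IntermediateField.finrank_fixedField_eq_card _
    have h2 := Module.finrank_mul_finrank K L₀ L
    have h3 := Subgroup.card_mul_index θ.ker
    rw [hcard, IsGalois.card_aut_eq_finrank K L, ← h2, h1, mul_comm] at h3
    exact (Nat.eq_of_mul_eq_mul_right Nat.card_pos h3).symm
  obtain ⟨w₀, h1, h2, h3, σ₀, h4, h5⟩ := exists_nonsplit (K := K) (L := L₀) hp hdeg hF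
  obtain ⟨w, hw⟩ := RG.H.exists_above (K := L₀) (L := L) w₀
  have hlies : LiesA L₀.val w w₀ := (lies_iff_below w w₀).2 hw
  have hbel : (below w : Pr K) = below w₀ := hlies.below_eq
  obtain ⟨φ, hφ⟩ := exists_frobK (K := K) w
  obtain ⟨r, hr⟩ := exists_restrK (L₀.val)
  have hφ₀ : IsFrob w₀ (nm (below w₀ : Pr K)) (r φ) := by
    have h6 := IsFrob.restrictK hlies (fun x => hr φ x) hφ
    rwa [hbel] at h6
  refine ⟨w, by rw [hbel]; exact h1, by rw [hbel]; exact h2, φ, hφ, fun hker => ?_⟩
  -- `φ` would be trivial on `L₀`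
  have h7 : r φ = 1 := by
    ext x
    have h8 := hr φ x
    have h9 : φ (x : L) = x := by
      have h10 : (x : L) ∈ IntermediateField.fixedField θ.ker := x.2
      rw [IntermediateField.mem_fixedField_iff] at h10
      exact h10 φ hker
    rw [AlgEquiv.one_apply]
    exact h8.symm.trans h9
  obtain ⟨k, hk⟩ := dec_frob hφ₀ h4
  have h11 := h3 _ hk
  rw [h7, one_pow, mul_one, inv_eq_one] at h11
  exact h5 h11

end Pool.Agent.RGK
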