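import Mathlib
import Pool.Agent.Lib.RGK.CXDefs
import Pool.Agent.Lib.RGK.B1
import Pool.Agent.Lib.RGK.B2
import Pool.Agent.Lib.RGK.B4

/-!
RG v4, rows C18a, C18b: Frobenius values of characters.

`exists_phi` (row C18a): for each `v` choose a prime `w v` of `L` above `v` (`H.exists_above`) and a
Frobenius element `φ v` at `w v` (`exists_frobK`, B2). Let `θ` be unramified outside `T`, `w` a prime of `L`
with `v = below w ∉ T` and `g` a Frobenius element at `w`. Choose `τ` with `w (τ x) = (w v) x`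
(`exists_conjK`): `τ φ τ⁻¹` is a Frobenius element at `w` (`IsFrob.conj_toK`), so
`(τ φ τ⁻¹)⁻¹ g` is inert (`IsFrob.inv_mul`, G02), `θ` kills it, and `θ (τ φ τ⁻¹) = θ φ` (commutative
target).

`Rl_of_FV` (row C18b): `H = θ.ker`, `L₀ := IntermediateField.fixedField H`, Galois over `K`; the
restriction `r : Gal(L / K) → Gal(L₀ / K)` is surjective with kernel `H` (see the proof of GX1), so `θ`
induces an injective `θ₀` with `θ₀ (r g) = θ g`. Unramified outside `T`: lift an inert element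
(`exists_inert_liftK` with `j = L₀.val`). Frobenius values: if `g₀` is a Frobenius element at `w₀`, let `w` be
a prime of `L` above `w₀`, `g` a Frobenius element at `w`; `r g` is one at `w₀` (`IsFrob.restrictK`), and
`(r g)⁻¹ g₀` is inert, hence killed by `θ₀`.
-/

set_option autoImplicit false

namespace Pool.Agent.RGK

open NumberField IsDedekindDomain
open Pool.Agent.RG (Above IsDec IsInert IsFrob)
open Pool.Agent.RG.H (Pr vl UU PP emb below)

open Classical in
theorem exists_phi {K : Type} [Field K] [NumberField K] (L : Type) [Field L] [NumberField L]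
    [Algebra K L] [IsGalois K L] :
    ∃ φ : Pr K → (L ≃ₐ[K] L), ∀ (p : ℕ) (T : Set (Pr K))
      (θ : (L ≃ₐ[K] L) →* Multiplicative (ZMod p)), UnrCh T θ →
      FV T θ (fun v => if v ∈ T then 0 else Multiplicative.toAdd (θ (φ v))) := by
  have h0 : ∀ v : Pr K, ∃ (w : Pr L) (g : L ≃ₐ[K] L), (below w : Pr K) = v ∧
      IsFrob w (nm (below w : Pr K)) g := by
    intro v
    obtain ⟨w, hw⟩ := RG.exists_above (algebraMap K L) v
    have hb : (below w : Pr K) = v := (lies_iff_below w v).1 hw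
    obtain ⟨g, hg⟩ := exists_frobK (K := K) w
    exact ⟨w, g, hb, hg⟩
  choose W φ hW hφ using h0
  refine ⟨φ, fun p T θ hu => ⟨fun v hv => if_pos hv, fun w hw σ hσ => ?_⟩⟩
  have hb : (below (W (below w)) : Pr K) = below w := hW (below w)
  obtain ⟨τ, hτ⟩ := exists_conjK hb
  have h1 : IsFrob w (nm (below (W (below w)) : Pr K)) (τ * φ (below w) * τ⁻¹) :=
    IsFrob.conj_toK hτ (hφ (below w))
  rw [hb] at h1
  have h2 : IsInert w ((τ * φ (below w) * τ⁻¹)⁻¹ * σ) := h1.inv_mul hσ
  have h3 := hu w hw _ h2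
  rw [map_mul, map_inv, inv_mul_eq_one] at h3
  rw [← h3, map_mul, map_mul, map_inv, mul_comm (θ τ), mul_inv_cancel_right]
  simp only [if_neg hw, ofAdd_toAdd]

theorem Rl_of_FV {p : ℕ} [Fact p.Prime] {K L : Type} [Field K] [NumberField K] [Field L]
    [NumberField L] [Algebra K L] [IsGalois K L] {T : Set (Pr K)}
    (θ : (L ≃ₐ[K] L) →* Multiplicative (ZMod p)) (hu : UnrCh T θ) {ξ : Pr K → ZMod p}
    (hξ : FV T θ ξ) : Rl p T ξ := by
  classical
  set H : Subgroup (L ≃ₐ[K] L) := θ.ker with hH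
  have hHn : H.Normal := θ.normal_ker
  have hfd : FiniteDimensional K L := FiniteDimensional.right ℚ K L
  set F : IntermediateField K L := IntermediateField.fixedField H with hF
  have hFix : F.fixingSubgroup = H := IntermediateField.fixingSubgroup_fixedField H
  have hFn : F.fixingSubgroup.Normal := by rw [hFix]; exact hHn
  have : IsGalois K F := IsGalois.of_fixedField_normal_subgroup H
  set res : (L ≃ₐ[K] L) →* (F ≃ₐ[K] F) := AlgEquiv.restrictNormalHom F with hres
  have hress : Function.Surjective res := AlgEquiv.restrictNormalHom_surjective L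
  have hresc : ∀ (σ : L ≃ₐ[K] L) (x : F), σ (F.val x) = F.val (res σ x) := fun σ x =>
    (AlgEquiv.restrictNormal_commutes σ F x).symm
  have hker : res.ker = H := by
    rw [← hFix]
    ext σ
    rw [MonoidHom.mem_ker, IntermediateField.mem_fixingSubgroup_iff]
    constructor
    · intro h5 x hx
      have := hresc σ ⟨x, hx⟩
      rw [h5] at this
      exact this
    · intro h5
      ext x
      have := hresc σ x
      exact this.symm.trans (h5 _ x.2)
  let e1 : (L ≃ₐ[K] L) ⧸ res.ker ≃* (F ≃ₐ[K] F) :=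
    QuotientGroup.quotientKerEquivOfSurjective res hress
  let e3 : (L ≃ₐ[K] L) ⧸ res.ker ≃* (L ≃ₐ[K] L) ⧸ θ.ker :=
    QuotientGroup.quotientMulEquivOfEq hker
  let θ' : (F ≃ₐ[K] F) →* Multiplicative (ZMod p) :=
    (QuotientGroup.kerLift θ).comp (e3.toMonoidHom.comp e1.symm.toMonoidHom)
  have hinj : Function.Injective θ' := by
    intro x y hxy
    exact e1.symm.injective (e3.injective (QuotientGroup.kerLift_injective θ hxy))
  have hval : ∀ σ : L ≃ₐ[K] L, θ' (res σ) = θ σ := by
    intro σ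
    have h1 : e1.symm (res σ) = (QuotientGroup.mk σ : (L ≃ₐ[K] L) ⧸ res.ker) := by
      rw [MulEquiv.symm_apply_eq]
      rfl
    change QuotientGroup.kerLift θ (e3 (e1.symm (res σ))) = _
    rw [h1]
    rfl
  have hunF : UnrCh T θ' := by
    intro w₁ hw₁ σ₁ hσ₁
    obtain ⟨w₂, hw₂⟩ := Pool.Agent.RG.exists_above (F.val : F →+* L) w₁
    obtain ⟨σ₂, h1, h2⟩ := exists_inert_liftK (K := K) (j := F.val) (w₂ := w₂) (w₁ := w₁) hw₂ hσ₁
    have hb : (below w₂ : Pr K) = below w₁ := LiesA.below_eq (j := F.val) hw₂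
    have h3 : res σ₂ = σ₁ := by
      ext x
      have h4 := (hresc σ₂ x).symm.trans (h1 x)
      exact h4
    rw [← h3, hval]
    exact hu w₂ (hb ▸ hw₁) σ₂ h2
  refine ⟨F, inferInstance, inferInstance, inferInstance, inferInstance, θ', hinj, hunF,
    hξ.zero, ?_⟩
  intro w₁ hw₁ σ₁ hσ₁
  obtain ⟨w₂, hw₂⟩ := Pool.Agent.RG.exists_above (F.val : F →+* L) w₁
  have hb : (below w₂ : Pr K) = below w₁ := LiesA.below_eq (j := F.val) hw₂
  obtain ⟨σ₂, hσ₂⟩ := exists_frobK (K := K) w₂
  have h0 := hξ.frob w₂ (hb ▸ hw₁) σ₂ hσ₂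
  rw [hb] at hσ₂ h0
  have h1 : IsFrob w₁ (nm (below w₁ : Pr K)) (res σ₂) :=
    IsFrob.restrictK (j := F.val) hw₂ (hresc σ₂) hσ₂
  have h2 := hunF w₁ hw₁ _ (Pool.Agent.RG.IsFrob.inv_mul h1 hσ₁)
  rw [map_mul, map_inv, inv_mul_eq_one] at h2
  rw [← h2, hval, h0]

end Pool.Agent.RGK
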