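import Mathlib
import Pool.Agent.Lib.RG.H19
import Pool.Agent.Lib.RGK.CDefs

/-!
RG v4, row C01: adjoining the `p`-th roots of finitely many elements (`K` contains the `p`-th roots of
unity): the elements of `K` which become `p`-th powers are the products of these elements and `p`-th
powers.

Proof: induction on `s` (`Finset.induction_on`), for all fields `K` (or keep `K` fixed and build the
tower above). `s = ∅`: `M = K`. Step `insert c s`, `M` the field for `s`, `c' = emb K M c`. If
`c' ∈ PP M p`, then `M` works (for `b` with `emb b ∈ PP M p` use the induction hypothesis and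
`Subgroup.closure_mono`). Otherwise let `L / M` be the Kummer extension of degree `p` of `c'`
(`H.exists_kummer`, H19) and `a` the radical of `L` (`H.exists_rad`): `c' / a ^ i ∈ PP M p` for some
`i`, and `p` does not divide `i` because `c' ∉ PP M p`; with `i * m ≡ 1` modulo `p` one gets
`a / c' ^ m ∈ PP M p`. If `b : Kˣ` becomes a `p`-th power in `L`, then `emb K M b / a ^ j ∈ PP M p`, hence
`emb K M (b / c ^ (m * j)) ∈ PP M p`, and the induction hypothesis applies to `b / c ^ (m * j)`. The
algebra structure `K → L` is the composition; `emb` is functorial (`Units.ext`, `IsScalarTower` or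
`RingHom.toAlgebra` of the composition, in which case `emb K L x = emb M L (emb K M x)` is `rfl`-like).
-/

set_option autoImplicit false

namespace Pool.Agent.RGK

open NumberField IsDedekindDomain
open Pool.Agent.RG.H (Pr vl UU PP emb)

private theorem C01_pow {M : Type} [Field M] [NumberField M] {p : ℕ} (x : Mˣ) :
    x ^ p ∈ PP M p := RG.H.mem_PP.2 ⟨x, rfl⟩

private theorem C01_alg {M : Type} [Field M] [NumberField M] {p : ℕ} {a c : Mˣ} {i m t : ℕ}
    (him : i * m = p * t + 1) (h : c / a ^ i ∈ PP M p) : a / c ^ m ∈ PP M p := by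
  have h1 : (c / a ^ i) ^ m * (a ^ t) ^ p ∈ PP M p :=
    (PP M p).mul_mem ((PP M p).pow_mem h m) (C01_pow _)
  have h2 : (c / a ^ i) ^ m * (a ^ t) ^ p = c ^ m / a := by
    rw [div_pow, ← pow_mul, him, ← pow_mul, mul_comm t p, pow_succ]
    rw [div_mul_eq_mul_div, mul_comm (c ^ m) (a ^ (p * t)), mul_div_mul_left_eq_div]
  rw [h2] at h1
  have h3 := (PP M p).inv_mem h1
  rwa [inv_div] at h3

private theorem C01_step {K M : Type} [Field K] [NumberField K] [Field M] [NumberField M]
    [Algebra K M] {p : ℕ} {b c : Kˣ} {a : Mˣ} {m j : ℕ} (h1 : emb K M b / a ^ j ∈ PP M p)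
    (h2 : a / emb K M c ^ m ∈ PP M p) : emb K M (b / c ^ (m * j)) ∈ PP M p := by
  have h3 := (PP M p).mul_mem h1 ((PP M p).pow_mem h2 j)
  have h4 : emb K M b / a ^ j * (a / emb K M c ^ m) ^ j = emb K M (b / c ^ (m * j)) := by
    rw [map_div, map_pow, div_pow, ← pow_mul, div_mul_div_cancel]
  rwa [h4] at h3

theorem kummer_tower {K : Type} [Field K] [NumberField K] {p : ℕ} (hp : p.Prime) {ζ : K}
    (hζ : IsPrimitiveRoot ζ p) (s : Finset Kˣ) :
    ∃ (M : Type) (_ : Field M) (_ : NumberField M) (_ : Algebra K M),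
      (∀ c ∈ s, emb K M c ∈ PP M p) ∧
      ∀ b : Kˣ, emb K M b ∈ PP M p → b ∈ PP K p ⊔ Subgroup.closure (s : Set Kˣ) := by
  classical
  induction s using Finset.induction_on with
  | empty =>
    refine ⟨K, inferInstance, inferInstance, Algebra.id K, ?_, ?_⟩
    · intro c hc
      exact absurd hc (Finset.notMem_empty _)
    · intro b hb
      have h : emb K K b = b := by
        ext
        rfl
      rw [h] at hb
      exact Subgroup.mem_sup_left hb
  | insert c s hcs ih =>
    obtain ⟨M, hF, hN, hA, h1, h2⟩ := ih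
    have hcl : PP K p ⊔ Subgroup.closure (s : Set Kˣ) ≤
        PP K p ⊔ Subgroup.closure ((insert c s : Finset Kˣ) : Set Kˣ) := by
      refine sup_le_sup_left (Subgroup.closure_mono ?_) _
      rw [Finset.coe_insert]
      exact Set.subset_insert _ _
    have hcc : c ∈ PP K p ⊔ Subgroup.closure ((insert c s : Finset Kˣ) : Set Kˣ) :=
      Subgroup.mem_sup_right (Subgroup.subset_closure (by
        rw [Finset.coe_insert]
        exact Set.mem_insert _ _))
    by_cases hcM : emb K M c ∈ PP M p
    · refine ⟨M, hF, hN, hA, ?_, fun b hb => hcl (h2 b hb)⟩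
      intro x hx
      rcases Finset.mem_insert.1 hx with rfl | hx
      · exact hcM
      · exact h1 x hx
    · have hζM : IsPrimitiveRoot (algebraMap K M ζ) p :=
        hζ.map_of_injective (algebraMap K M).injective
      obtain ⟨L, hLF, hLN, hLA, hG, hdeg, β, hβ⟩ :=
        Pool.Agent.RG.H.exists_kummer hp hζM (emb K M c) hcM
      obtain ⟨a, ha, -, hrad⟩ := Pool.Agent.RG.H.exists_rad hp hζM L hdeg
      obtain ⟨i, hi⟩ := hrad (emb K M c) ⟨β, hβ⟩
      have hpi : ¬ p ∣ i := by
        rintro ⟨j, rfl⟩
        apply hcM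
        have h3 := (PP M p).mul_mem hi (C01_pow (a ^ j))
        rwa [← pow_mul, mul_comm j p, div_mul_cancel] at h3
      obtain ⟨m, t, him⟩ : ∃ m t : ℕ, i * m = p * t + 1 := by
        have hco : Nat.Coprime i p := ((Nat.Prime.coprime_iff_not_dvd hp).2 hpi).symm
        obtain ⟨m, hm⟩ := Nat.exists_mul_mod_eq_one_of_coprime hco hp.one_lt
        exact ⟨m, i * m / p, by rw [← hm.2]; exact (Nat.div_add_mod _ _).symm⟩
      have hac := C01_alg him hi
      letI algKL : Algebra K L := ((algebraMap M L).comp (algebraMap K M)).toAlgebra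
      have hval : ∀ x : Kˣ, ((emb K L x : Lˣ) : L) = algebraMap M L ((emb K M x : Mˣ) : M) :=
        fun x => rfl
      refine ⟨L, hLF, hLN, algKL, ?_, ?_⟩
      · intro x hx
        rcases Finset.mem_insert.1 hx with rfl | hx
        · have hβ0 : β ≠ 0 := by
            rintro rfl
            rw [zero_pow hp.ne_zero] at hβ
            exact (emb K L x).ne_zero ((hval x).trans hβ.symm)
          refine Pool.Agent.RG.H.mem_PP.2 ⟨Units.mk0 β hβ0, ?_⟩
          ext
          rw [Units.val_pow_eq_pow_val, Units.val_mk0, hβ, hval]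
        · obtain ⟨y, hy⟩ := Pool.Agent.RG.H.mem_PP.1 (h1 x hx)
          refine Pool.Agent.RG.H.mem_PP.2 ⟨emb M L y, ?_⟩
          rw [← map_pow, hy]
          ext
          rfl
      · intro b hb
        obtain ⟨y, hy⟩ := Pool.Agent.RG.H.mem_PP.1 hb
        obtain ⟨j, hj⟩ := hrad (emb K M b) ⟨(y : L), by
          rw [← hval, ← hy, Units.val_pow_eq_pow_val]⟩
        have h5 := hcl (h2 _ (C01_step hj hac))
        have h6 := Subgroup.mul_mem _ h5 (Subgroup.pow_mem _ hcc (m * j))
        rwa [div_mul_cancel] at h6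

end Pool.Agent.RGK
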