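import Mathlib
import Pool.Agent.Lib.RGK.CDefs

/-!
RG v4, row C02: a rational number which is a `p`-th power in an abelian number field is a `p`-th power
of a rational number (`p` odd), and the consequence for products of prime numbers.

`rat_pow_of_abelian`: if `r` is not a `p`-th power in `ℚ`, then `X ^ p - C r` is irreducible over `ℚ`
(`X_pow_sub_C_irreducible_of_prime`), so `ℚ(y)` has degree `p`. The subgroup of `Gal(K / ℚ)` fixing `y`
is normal (abelian group), so `ℚ(y) / ℚ` is Galois (normal), so it contains all the roots of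
`X ^ p - r` (its minimal polynomial splits), hence a primitive `p`-th root of unity `ζ` (quotient of two
different roots; `r ≠ 0`), and `p - 1 = [ℚ(ζ) : ℚ]` divides `p`; contradiction to `p ≠ 2`. A shorter way:
for `σ ∈ Gal(K / ℚ)` put `σ y = ζ_σ y` with `ζ_σ ^ p = 1`, `ζ_σ ∈ K`. The `p` roots of `X ^ p - r` in a
splitting field are conjugate; ... any argument is fine.

`dvd_of_prod_pow`: apply the first theorem to `r = ∏ q ∈ Q, q ^ n q` (`ℤ`-powers): `r = x ^ p` in `ℚ`; the
`q`-adic valuation (`padicValRat`) gives `n q = p * padicValRat q x`.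
-/

set_option autoImplicit false

namespace Pool.Agent.RGK

theorem rat_pow_of_abelian {p : ℕ} (hp : p.Prime) (hp2 : p ≠ 2) {K : Type} [Field K]
    [NumberField K] [IsGalois ℚ K] (hab : ∀ σ τ : K ≃ₐ[ℚ] K, σ * τ = τ * σ) {r : ℚ} {y : K}
    (hy : y ^ p = algebraMap ℚ K r) : ∃ x : ℚ, x ^ p = r := by
  classical
  by_contra hcon
  have hcon' : ∀ b : ℚ, b ^ p ≠ r := fun b hb => hcon ⟨b, hb⟩
  have hirr : Irreducible (Polynomial.X ^ p - Polynomial.C r : Polynomial ℚ) :=
    X_pow_sub_C_irreducible_of_prime hp hcon'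
  have hr0 : r ≠ 0 := by
    rintro rfl
    exact hcon' 0 (zero_pow hp.ne_zero)
  have hy0 : y ≠ 0 := by
    rintro rfl
    rw [zero_pow hp.ne_zero] at hy
    exact hr0 ((map_eq_zero_iff _ (algebraMap ℚ K).injective).1 hy.symm)
  have hmin : minpoly ℚ y = Polynomial.X ^ p - Polynomial.C r := by
    symm
    refine minpoly.eq_of_irreducible_of_monic hirr ?_ (Polynomial.monic_X_pow_sub_C r hp.ne_zero)
    rw [map_sub, map_pow, Polynomial.aeval_X, Polynomial.aeval_C, hy, sub_self]
  have hσ : ∃ σ : K ≃ₐ[ℚ] K, σ y ≠ y := by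
    by_contra hall
    push Not at hall
    have h1 := (IsGalois.mem_bot_iff_fixed (F := ℚ) y).2 hall
    rw [IntermediateField.mem_bot] at h1
    obtain ⟨x, hx⟩ := h1
    refine hcon' x ((algebraMap ℚ K).injective ?_)
    rw [map_pow, hx, hy]
  obtain ⟨σ, hσ⟩ := hσ
  have hζp : (σ y / y) ^ p = 1 := by
    rw [div_pow, ← map_pow, hy, AlgEquiv.commutes, div_self]
    exact fun h => hr0 ((map_eq_zero_iff _ (algebraMap ℚ K).injective).1 h)
  have hζ1 : σ y / y ≠ 1 := by
    intro h
    rw [div_eq_one_iff_eq hy0] at h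
    exact hσ h
  have hζ : IsPrimitiveRoot (σ y / y) p := by
    have h1 := orderOf_eq_prime hζp hζ1 (hp := ⟨hp⟩)
    rw [← h1]
    exact IsPrimitiveRoot.orderOf _
  have hmem : σ y / y ∈ IntermediateField.adjoin ℚ {y} := by
    rw [← IsGalois.fixedField_fixingSubgroup (IntermediateField.adjoin ℚ {y})]
    rw [IntermediateField.mem_fixedField_iff]
    intro τ hτ
    have h1 : τ y = y := by
      rw [IntermediateField.mem_fixingSubgroup_iff] at hτ
      exact hτ y (IntermediateField.mem_adjoin_simple_self ℚ y)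
    have h2 : τ (σ y) = σ (τ y) := by
      rw [← AlgEquiv.mul_apply, hab, AlgEquiv.mul_apply]
    rw [map_div₀, h2, h1]
  have hle : IntermediateField.adjoin ℚ {σ y / y} ≤ IntermediateField.adjoin ℚ {y} := by
    rw [IntermediateField.adjoin_simple_le_iff]
    exact hmem
  have hdvd := IntermediateField.finrank_dvd_of_le_right hle
  rw [IntermediateField.adjoin.finrank (IsIntegral.of_finite ℚ _),
    IntermediateField.adjoin.finrank (IsIntegral.of_finite ℚ _), hmin,
    ← Polynomial.cyclotomic_eq_minpoly_rat hζ hp.pos, Polynomial.natDegree_cyclotomic,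
    Polynomial.natDegree_X_pow_sub_C, Nat.totient_prime hp] at hdvd
  have h2 := hp.two_le
  rcases (Nat.dvd_prime hp).1 hdvd with h | h
  · omega
  · omega

theorem dvd_of_prod_pow {p : ℕ} (hp : p.Prime) (hp2 : p ≠ 2) {K : Type} [Field K]
    [NumberField K] [IsGalois ℚ K] (hab : ∀ σ τ : K ≃ₐ[ℚ] K, σ * τ = τ * σ) (Q : Finset ℕ)
    (hQ : ∀ q ∈ Q, q.Prime) (n : ℕ → ℤ) {y : K} (hy : y ^ p = ∏ q ∈ Q, (q : K) ^ n q) :
    ∀ q ∈ Q, (p : ℤ) ∣ n q := by
  classical
  intro q hq
  have hfq : Fact q.Prime := ⟨hQ q hq⟩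
  have h1 : y ^ p = algebraMap ℚ K (∏ q ∈ Q, (q : ℚ) ^ n q) := by
    rw [hy, map_prod]
    refine Finset.prod_congr rfl fun q _ => ?_
    rw [map_zpow₀, map_natCast]
  obtain ⟨x, hx⟩ := rat_pow_of_abelian hp hp2 hab h1
  have h2 : ∀ R : Finset ℕ, R ⊆ Q →
      padicValRat q (∏ q ∈ R, (q : ℚ) ^ n q) = if q ∈ R then n q else 0 := by
    intro R
    induction R using Finset.induction_on with
    | empty => intro _; simp
    | insert a s ha ih =>
      intro hR
      have haQ : a ∈ Q := hR (Finset.mem_insert_self a s)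
      have hsQ : s ⊆ Q := fun t ht => hR (Finset.mem_insert_of_mem ht)
      have hne : ∀ t ∈ Q, (t : ℚ) ^ n t ≠ 0 := fun t ht =>
        zpow_ne_zero _ (Nat.cast_ne_zero.2 (hQ t ht).ne_zero)
      rw [Finset.prod_insert ha, padicValRat.mul (hne a haQ)
        (Finset.prod_ne_zero_iff.2 fun t ht => hne t (hsQ ht)), ih hsQ, padicValRat.zpow,
        padicValRat.of_nat]
      by_cases haq : q = a
      · subst haq
        rw [padicValNat_self, if_neg ha, if_pos (Finset.mem_insert_self _ _)]
        simp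
      · have hfa : Fact a.Prime := ⟨hQ a haQ⟩
        rw [padicValNat_primes haq]
        simp [haq]
  have h3 := h2 Q (Finset.Subset.refl Q)
  rw [if_pos hq, ← hx, padicValRat.pow] at h3
  exact ⟨_, h3.symm⟩

end Pool.Agent.RGK
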