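import Mathlib
import Pool.Agent.Lib.RG.H21
import Pool.Agent.Lib.RG.H01
import Pool.Agent.Lib.RG.G01
import Pool.Agent.Lib.RGK.CDefs
import Pool.Agent.Lib.RGK.C01
import Pool.Agent.Lib.RGK.C02

/-!
RG v4, rows C03a, C03: prime numbers `ℓ ≡ 1` modulo `p ^ k` modulo which given prime numbers are not
`p`-th powers.

`exists_ell_field` (row C03a). `Q` nonempty, `q₀ ∈ Q`. `K := CyclotomicField (p ^ k) ℚ` (Galois, abelian:
`IsCyclotomicExtension.isGalois`, `IsCyclotomicExtension.isMulCommutative` or via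
`IsCyclotomicExtension.autEquivPow`; it contains a primitive `p`-th root of unity). Let
`s = {q / q₀ : q ∈ Q} ⊂ Kˣ` and `M` the field of C01. If `emb q₀ ∈ PP M p`, then
`q₀ ∈ PP K p ⊔ closure s`: `q₀ = y ^ p * ∏ (q / q₀) ^ n q` in `K` (with integers `n q`, e.g.
`Subgroup.mem_closure_finset` or an induction over the closure), that is
`y ^ p = ∏ q ∈ Q, q ^ m q` with `m q = - n q` for `q ≠ q₀` and `m q₀ = 1 + ∑ q ∈ Q \ {q₀}, n q`
(`n q₀` is irrelevant). By C02 `p` divides all the `n q` with `q ≠ q₀` and then `1`; contradiction.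

`exists_ell` (row C03). `Q = ∅`: `Nat.exists_prime_gt_modEq_one`. Otherwise `M`, `q₀` from C03a, and
`H.exists_nonpower` (H21) applied to `emb q₀` with the finite set of the primes of `M` above the elements
of `F`, of `Q` and above `p` (`H.fin_above`) gives `w` with `ℓ := nm w` prime, `vl w q₀ = 0`,
`q₀ ∉ PP M p ⊔ UU w 1`. `ℓ ∉ F`, `ℓ ∉ Q`, `ℓ ≠ p` because `Above w ℓ` (`Ideal.absNorm_mem`). The image
of the primitive `p ^ k`-th root of unity in the residue field with `ℓ` elements has order `p ^ k`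
(`ζ ^ (p ^ (k - 1)) - 1` divides a power of `p`... it is a unit at `w`, because `w` is not above `p`:
`1 - ξ` divides `p` for a primitive `p`-th root of unity `ξ`), so `p ^ k` divides `ℓ - 1`. If
`q = y ^ p` in `ZMod ℓ` with `q ∈ Q`, lift `y` to an integer `Y` prime to `ℓ`: `q / Y ^ p ∈ UU w 1`; and
`q / q₀ ∈ PP M p`; so `q₀ ∈ PP M p ⊔ UU w 1`, contradiction.
-/

set_option autoImplicit false

namespace Pool.Agent.RGK

open NumberField IsDedekindDomain
open Pool.Agent.RG.H (Pr vl UU PP emb)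

private theorem C03a_zpow {A : Type} [CommGroup A] (Q : Finset ℕ) (a : A) (n : ℕ → ℤ) :
    ∏ q ∈ Q, a ^ n q = a ^ (∑ q ∈ Q, n q) := by
  induction Q using Finset.induction_on with
  | empty => simp
  | insert b t hbt ih => rw [Finset.prod_insert hbt, Finset.sum_insert hbt, ih, zpow_add]

private theorem C03a_closure {A : Type} [CommGroup A] [DecidableEq A] (Q : Finset ℕ) (u : ℕ → A) {c : A}
    (hc : c ∈ Subgroup.closure ((Q.image u : Finset A) : Set A)) :
    ∃ n : ℕ → ℤ, c = ∏ q ∈ Q, u q ^ n q := by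
  induction hc using Subgroup.closure_induction with
  | mem x hx =>
    obtain ⟨q, hq, rfl⟩ := Finset.mem_image.1 (Finset.mem_coe.1 hx)
    refine ⟨fun j => if j = q then 1 else 0, ?_⟩
    rw [Finset.prod_eq_single_of_mem q hq]
    · simp
    · intro j _ hj
      simp [hj]
  | one => exact ⟨fun _ => 0, by simp⟩
  | mul x y _ _ hx hy =>
    obtain ⟨n, rfl⟩ := hx
    obtain ⟨m, rfl⟩ := hy
    refine ⟨fun q => n q + m q, ?_⟩
    rw [← Finset.prod_mul_distrib]
    exact Finset.prod_congr rfl fun q _ => (zpow_add _ _ _).symm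
  | inv x _ hx =>
    obtain ⟨n, rfl⟩ := hx
    refine ⟨fun q => - n q, ?_⟩
    rw [← Finset.prod_inv_distrib]
    exact Finset.prod_congr rfl fun q _ => (zpow_neg _ _).symm

theorem exists_ell_field {p : ℕ} (hp : p.Prime) (hp2 : p ≠ 2) {k : ℕ} (hk : 0 < k) (Q : Finset ℕ)
    (hQ : ∀ q ∈ Q, q.Prime) {q₀ : ℕ} (hq₀ : q₀ ∈ Q) :
    ∃ (M : Type) (_ : Field M) (_ : NumberField M) (ζ : M), IsPrimitiveRoot ζ (p ^ k) ∧
      (∀ q ∈ Q, ∃ y : M, y ^ p * (q₀ : M) = (q : M)) ∧ ¬ ∃ y : M, y ^ p = (q₀ : M) := by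
  classical
  have hpk : NeZero (p ^ k) := ⟨pow_ne_zero _ hp.ne_zero⟩
  let K : Type := CyclotomicField (p ^ k) ℚ
  have hpkQ : NeZero ((p ^ k : ℕ) : ℚ) := ⟨Nat.cast_ne_zero.2 hpk.ne⟩
  have hcyc : IsCyclotomicExtension {p ^ k} ℚ K := CyclotomicField.isCyclotomicExtension (p ^ k) ℚ
  have hgal : IsGalois ℚ K := IsCyclotomicExtension.isGalois {p ^ k} ℚ K
  have hab : ∀ σ τ : K ≃ₐ[ℚ] K, σ * τ = τ * σ := by
    have h1 : IsMulCommutative (K ≃ₐ[ℚ] K) := IsCyclotomicExtension.isMulCommutative {p ^ k} ℚ K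
    exact fun σ τ => h1.is_comm.comm σ τ
  have hζ : IsPrimitiveRoot (IsCyclotomicExtension.zeta (p ^ k) ℚ K) (p ^ k) :=
    IsCyclotomicExtension.zeta_spec (p ^ k) ℚ K
  set ζ : K := IsCyclotomicExtension.zeta (p ^ k) ℚ K with hζd
  have hζp : IsPrimitiveRoot (ζ ^ p ^ (k - 1)) p := by
    refine hζ.pow (pow_pos hp.pos k) ?_
    rw [← pow_succ, Nat.sub_add_cancel hk]
  have hne : ∀ q ∈ Q, (q : K) ≠ 0 := fun q hq => Nat.cast_ne_zero.2 (hQ q hq).ne_zero
  have h0 : (q₀ : K) ≠ 0 := hne q₀ hq₀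
  let v : ℕ → Kˣ := fun q => if h : (q : K) ≠ 0 then Units.mk0 (q : K) h else 1
  have hv : ∀ q ∈ Q, ((v q : Kˣ) : K) = (q : K) := by
    intro q hq
    show ((if h : (q : K) ≠ 0 then Units.mk0 (q : K) h else 1 : Kˣ) : K) = _
    rw [dif_pos (hne q hq), Units.val_mk0]
  let u : ℕ → Kˣ := fun q => v q / v q₀
  obtain ⟨M, iM, iN, iA, h1, h2⟩ := kummer_tower (K := K) hp hζp (Q.image u)
  have hval : ∀ q ∈ Q, ((emb K M (v q) : Mˣ) : M) = (q : M) := by
    intro q hq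
    rw [Pool.Agent.RG.H.emb_val, hv q hq, map_natCast]
  refine ⟨M, iM, iN, algebraMap K M ζ, hζ.map_of_injective (algebraMap K M).injective, ?_, ?_⟩
  · intro q hq
    obtain ⟨y, hy⟩ := Pool.Agent.RG.H.mem_PP.1 (h1 (u q) (Finset.mem_image_of_mem u hq))
    refine ⟨(y : M), ?_⟩
    have h3 : y ^ p * emb K M (v q₀) = emb K M (v q) := by
      rw [hy, ← map_mul]
      congr 1
      exact div_mul_cancel _ _
    have h4 := congrArg (fun z : Mˣ => (z : M)) h3
    simp only [Units.val_mul, Units.val_pow_eq_pow_val] at h4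
    rw [hval q₀ hq₀, hval q hq] at h4
    exact h4
  · rintro ⟨y, hy⟩
    have hM0 : (q₀ : M) ≠ 0 := Nat.cast_ne_zero.2 (hQ q₀ hq₀).ne_zero
    have hy0 : y ≠ 0 := by
      rintro rfl
      rw [zero_pow hp.ne_zero] at hy
      exact hM0 hy.symm
    have h3 : emb K M (v q₀) ∈ PP M p := by
      refine Pool.Agent.RG.H.mem_PP.2 ⟨Units.mk0 y hy0, ?_⟩
      ext
      rw [Units.val_pow_eq_pow_val, Units.val_mk0, hy, hval q₀ hq₀]
    obtain ⟨a, ha, c, hc, hac⟩ := Subgroup.mem_sup.1 (h2 _ h3)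
    obtain ⟨z, rfl⟩ := Pool.Agent.RG.H.mem_PP.1 ha
    obtain ⟨n, rfl⟩ := C03a_closure Q u hc
    -- the exponents
    let m : ℕ → ℤ := fun q => - n q + if q = q₀ then 1 + ∑ j ∈ Q, n j else 0
    have h5 : z ^ p = ∏ q ∈ Q, v q ^ m q := by
      have h6 : z ^ p = v q₀ * (∏ q ∈ Q, u q ^ n q)⁻¹ := by
        rw [← hac, mul_inv_cancel_right]
      have h7 : ∏ q ∈ Q, u q ^ n q = (∏ q ∈ Q, v q ^ n q) * (v q₀ ^ (∑ q ∈ Q, n q))⁻¹ := by
        have h8 : ∏ q ∈ Q, v q₀ ^ n q = v q₀ ^ (∑ q ∈ Q, n q) := by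
          exact C03a_zpow Q _ n
        rw [← h8, ← Finset.prod_inv_distrib, ← Finset.prod_mul_distrib]
        refine Finset.prod_congr rfl fun q _ => ?_
        show (v q / v q₀) ^ n q = _
        rw [div_zpow, div_eq_mul_inv]
      have h9 : ∏ q ∈ Q, v q ^ m q = (∏ q ∈ Q, v q ^ n q)⁻¹ *
          v q₀ ^ (1 + ∑ j ∈ Q, n j) := by
        have h10 : ∏ q ∈ Q, v q ^ (if q = q₀ then 1 + ∑ j ∈ Q, n j else 0) =
            v q₀ ^ (1 + ∑ j ∈ Q, n j) := by
          rw [Finset.prod_eq_single_of_mem q₀ hq₀]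
          · rw [if_pos rfl]
          · intro q _ hq
            rw [if_neg hq, zpow_zero]
        rw [← h10, ← Finset.prod_inv_distrib, ← Finset.prod_mul_distrib]
        refine Finset.prod_congr rfl fun q _ => ?_
        rw [← zpow_neg, ← zpow_add]
      rw [h6, h7, h9, mul_inv, inv_inv, zpow_add, zpow_one]
      rw [mul_left_comm]
    have h6 : (z : K) ^ p = ∏ q ∈ Q, (q : K) ^ m q := by
      have h7 := congrArg (fun z : Kˣ => (z : K)) h5
      simp only [Units.val_pow_eq_pow_val, Units.coe_prod, Units.val_zpow_eq_zpow_val] at h7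
      rw [h7]
      exact Finset.prod_congr rfl fun q hq => by rw [hv q hq]
    have h7 := dvd_of_prod_pow hp hp2 hab Q hQ m h6
    have h8 : ∀ q ∈ Q, q ≠ q₀ → (p : ℤ) ∣ n q := by
      intro q hq hne
      have h9 := h7 q hq
      have h10 : m q = - n q := by
        show - n q + (if q = q₀ then 1 + ∑ j ∈ Q, n j else 0) = _
        rw [if_neg hne, add_zero]
      rw [h10, dvd_neg] at h9
      exact h9
    have h9 := h7 q₀ hq₀
    have h10 : m q₀ = 1 + ∑ j ∈ Q.erase q₀, n j := by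
      show - n q₀ + (if q₀ = q₀ then 1 + ∑ j ∈ Q, n j else 0) = _
      rw [if_pos rfl, ← Finset.add_sum_erase Q n hq₀]
      ring
    rw [h10] at h9
    have h11 : (p : ℤ) ∣ ∑ j ∈ Q.erase q₀, n j := Finset.dvd_sum fun j hj =>
      h8 j (Finset.mem_of_mem_erase hj) (Finset.ne_of_mem_erase hj)
    have h12 : (p : ℤ) ∣ 1 := (Int.dvd_add_left h11).1 h9
    exact hp.one_lt.ne' (by exact_mod_cast Int.eq_one_of_dvd_one (by positivity) h12)

private theorem C03_le_exp {z : WithZero (Multiplicative ℤ)} (h : z < 1) :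
    z ≤ WithZero.exp (-((1 : ℕ) : ℤ)) := by
  by_cases hz : z = 0
  · rw [hz]
    exact zero_le
  · obtain ⟨n, hn⟩ : ∃ n : ℤ, z = WithZero.exp n := ⟨_, (WithZero.exp_log hz).symm⟩
    rw [hn] at h ⊢
    rw [← WithZero.exp_zero, WithZero.exp_lt_exp] at h
    rw [WithZero.exp_le_exp]
    push_cast
    omega

private theorem C03_mod {F : Type} [Field F] [NumberField F] {p : ℕ} (hp : p.Prime) {k : ℕ}
    (hk : 0 < k) {ζ : F} (hζ : IsPrimitiveRoot ζ (p ^ k)) {v : Pr F}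
    (hv : ¬ Pool.Agent.RG.Above v p) : nm v % p ^ k = 1 := by
  classical
  have hmax : v.asIdeal.IsMaximal := v.isMaximal
  let _ : Field (𝓞 F ⧸ v.asIdeal) := Ideal.Quotient.field v.asIdeal
  have hfin : Finite (𝓞 F ⧸ v.asIdeal) := Ideal.finiteQuotientOfFreeOfNeBot v.asIdeal v.ne_bot
  let _ : Fintype (𝓞 F ⧸ v.asIdeal) := Fintype.ofFinite _
  have hint : IsIntegral ℤ ζ := hζ.isIntegral (pow_pos hp.pos k)
  have hζp : IsPrimitiveRoot (ζ ^ p ^ (k - 1)) p := by
    refine hζ.pow (pow_pos hp.pos k) ?_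
    rw [← pow_succ, Nat.sub_add_cancel hk]
  set z : 𝓞 F := ⟨ζ, hint⟩ with hz
  have hzv : (z : F) = ζ := rfl
  have hzp : z ^ p ^ k = 1 := by
    apply RingOfIntegers.ext
    exact (map_pow (algebraMap (𝓞 F) F) z (p ^ k)).trans (hζ.pow_eq_one.trans (map_one _).symm)
  set z' : 𝓞 F := z ^ p ^ (k - 1) with hz'
  have hzv' : (z' : F) = ζ ^ p ^ (k - 1) := map_pow (algebraMap (𝓞 F) F) z (p ^ (k - 1))
  have hzp' : z' ^ p = 1 := by
    rw [hz', ← pow_mul, ← pow_succ, Nat.sub_add_cancel hk, hzp]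
  have hgeom : (∑ i ∈ Finset.range p, z' ^ i) = 0 := by
    have h1 := geom_sum_mul z' p
    rw [hzp', sub_self] at h1
    rcases mul_eq_zero.1 h1 with h2 | h2
    · exact h2
    · exfalso
      have h3 : z' = 1 := sub_eq_zero.1 h2
      have h4 : ζ ^ p ^ (k - 1) = 1 := by
        rw [← hzv', h3]
        rfl
      exact hζp.ne_one hp.one_lt h4
  set x : 𝓞 F ⧸ v.asIdeal := Ideal.Quotient.mk v.asIdeal z with hx
  have hx1 : x ^ p ^ (k - 1) ≠ 1 := by
    intro h1
    apply hv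
    rw [Pool.Agent.RG.G01aux.above_iff_mem, ← Ideal.Quotient.eq_zero_iff_mem, map_natCast]
    have h2 := congrArg (Ideal.Quotient.mk v.asIdeal) hgeom
    rw [map_sum, map_zero] at h2
    rw [← h2, Finset.sum_congr rfl (g := fun _ => (1 : 𝓞 F ⧸ v.asIdeal))]
    · rw [Finset.sum_const, Finset.card_range, nsmul_eq_mul, mul_one]
    · intro i _
      rw [map_pow, hz', map_pow, ← hx, h1, one_pow]
  have hxp : x ^ p ^ k = 1 := by
    rw [hx, ← map_pow, hzp, map_one]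
  have hu : IsUnit x := IsUnit.of_pow_eq_one hxp (pow_ne_zero _ hp.ne_zero)
  obtain ⟨u, hu⟩ := hu
  have hord : orderOf u = p ^ k := by
    have : Fact p.Prime := ⟨hp⟩
    have h1 : ¬ u ^ p ^ (k - 1) = 1 := by
      intro h1
      apply hx1
      rw [← hu, ← Units.val_pow_eq_pow_val, h1, Units.val_one]
    have h2 : u ^ p ^ (k - 1 + 1) = 1 := by
      apply Units.ext
      rw [Units.val_pow_eq_pow_val, hu, Nat.sub_add_cancel hk, hxp, Units.val_one]
    have h3 := orderOf_eq_prime_pow h1 h2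
    rwa [Nat.sub_add_cancel hk] at h3
  have hdvd : p ^ k ∣ Fintype.card (𝓞 F ⧸ v.asIdeal) - 1 := by
    rw [← Fintype.card_units, ← hord]
    exact orderOf_dvd_card
  have hnm : nm v = Fintype.card (𝓞 F ⧸ v.asIdeal) := by
    unfold nm
    rw [Ideal.absNorm_apply, Submodule.cardQuot_apply, Nat.card_eq_fintype_card]
  rw [← hnm] at hdvd
  have h1 : 1 < nm v := by
    rw [hnm]
    exact Fintype.one_lt_card
  obtain ⟨j, hj⟩ := hdvd
  have h2 : nm v = 1 + p ^ k * j := by omega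
  rw [h2, Nat.add_mul_mod_self_left]
  exact Nat.mod_eq_of_lt (Nat.one_lt_pow hk.ne' hp.one_lt)

theorem exists_ell {p : ℕ} (hp : p.Prime) (hp2 : p ≠ 2) {k : ℕ} (hk : 0 < k) (Q : Finset ℕ)
    (hQ : ∀ q ∈ Q, q.Prime) (F : Finset ℕ) :
    ∃ ℓ : ℕ, ℓ.Prime ∧ ℓ ∉ F ∧ ℓ ∉ Q ∧ ℓ ≠ p ∧ ℓ % p ^ k = 1 ∧
      ∀ q ∈ Q, ¬ ∃ y : ZMod ℓ, y ^ p = (q : ZMod ℓ) := by
  classical
  rcases Q.eq_empty_or_nonempty with rfl | ⟨q₀, hq₀⟩
  · obtain ⟨ℓ, h1, h2, h3⟩ := Nat.exists_prime_gt_modEq_one (k := p ^ k)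
      (F.sup id + p) (pow_ne_zero _ hp.ne_zero)
    refine ⟨ℓ, h1, ?_, Finset.notMem_empty _, by omega, ?_, fun q hq => absurd hq (Finset.notMem_empty _)⟩
    · intro h4
      have h5 : ℓ ≤ F.sup id := Finset.le_sup (f := id) h4
      omega
    · have h4 : ℓ % p ^ k = 1 % p ^ k := h3
      rwa [Nat.mod_eq_of_lt (Nat.one_lt_pow hk.ne' hp.one_lt)] at h4
  obtain ⟨M, iM, iN, ζ, hζ, hpow, hnon⟩ := exists_ell_field hp hp2 hk Q hQ hq₀
  have hζp : IsPrimitiveRoot (ζ ^ p ^ (k - 1)) p := by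
    refine hζ.pow (pow_pos hp.pos k) ?_
    rw [← pow_succ, Nat.sub_add_cancel hk]
  have hne : ∀ q ∈ Q, (q : M) ≠ 0 := fun q hq => Nat.cast_ne_zero.2 (hQ q hq).ne_zero
  set b : Mˣ := Units.mk0 (q₀ : M) (hne q₀ hq₀) with hb
  have hbPP : b ∉ PP M p := by
    intro h
    obtain ⟨y, hy⟩ := Pool.Agent.RG.H.mem_PP.1 h
    refine hnon ⟨(y : M), ?_⟩
    rw [← Units.val_pow_eq_pow_val, hy, hb, Units.val_mk0]
  choose Sf hSf using fun q : ℕ => fun hq : q ≠ 0 => Pool.Agent.RG.H.fin_above (K := M) q hq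
  set B : Finset (Pr M) := (insert p (F ∪ Q)).biUnion
    (fun q => if h : q ≠ 0 then Sf q h else ∅) with hB
  obtain ⟨w, hwB, hwp, hwb, hwn⟩ := Pool.Agent.RG.H.exists_nonpower hp hp2 hζp hbPP B
  have hnmw : nm w = Ideal.absNorm w.asIdeal := rfl
  rw [← hnmw] at hwp
  set ℓ := nm w with hℓ
  have habove : Pool.Agent.RG.Above w ℓ := by
    rw [Pool.Agent.RG.G01aux.above_iff_mem, hnmw]
    exact Ideal.absNorm_mem _
  have hnot : ∀ q ∈ insert p (F ∪ Q), ¬ Pool.Agent.RG.Above w q ∨ q = 0 := by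
    intro q hq
    by_cases h0 : q = 0
    · exact Or.inr h0
    · refine Or.inl fun h => hwB ?_
      rw [hB]
      refine Finset.mem_biUnion.2 ⟨q, hq, ?_⟩
      rw [dif_pos h0]
      exact hSf q h0 w h
  have hℓn : ℓ ∉ insert p (F ∪ Q) := by
    intro h
    rcases hnot ℓ h with h1 | h1
    · exact h1 habove
    · exact hwp.ne_zero h1
  have hwnp : ¬ Pool.Agent.RG.Above w p := by
    rcases hnot p (Finset.mem_insert_self _ _) with h1 | h1
    · exact h1
    · exact absurd h1 hp.ne_zero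
  refine ⟨ℓ, hwp, fun h => hℓn ?_, fun h => hℓn ?_, fun h => hℓn ?_, C03_mod hp hk hζ hwnp, ?_⟩
  · exact Finset.mem_insert_of_mem (Finset.mem_union_left _ h)
  · exact Finset.mem_insert_of_mem (Finset.mem_union_right _ h)
  · rw [h]
    exact Finset.mem_insert_self _ _
  · rintro q hq ⟨y, hy⟩
    have hℓF : Fact ℓ.Prime := ⟨hwp⟩
    have hℓ0 : NeZero ℓ := ⟨hwp.ne_zero⟩
    set Y : ℕ := y.val with hY
    have hqℓ : q ≠ ℓ := fun h => hℓn (h ▸ Finset.mem_insert_of_mem (Finset.mem_union_right _ hq))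
    have hqne : (q : ZMod ℓ) ≠ 0 := by
      rw [Ne, ZMod.natCast_eq_zero_iff]
      intro h
      exact hqℓ ((Nat.prime_dvd_prime_iff_eq hwp (hQ q hq)).1 h).symm
    have hy0 : y ≠ 0 := by
      rintro rfl
      rw [zero_pow hp.ne_zero] at hy
      exact hqne hy.symm
    have hYℓ : ¬ ℓ ∣ Y := by
      intro h
      apply hy0
      have h1 : (Y : ZMod ℓ) = 0 := (ZMod.natCast_eq_zero_iff _ _).2 h
      rwa [hY, ZMod.natCast_zmod_val] at h1
    have hdvd : (ℓ : ℤ) ∣ (q : ℤ) - (Y : ℤ) ^ p := by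
      rw [← ZMod.intCast_zmod_eq_zero_iff_dvd]
      push_cast
      rw [hY, ZMod.natCast_zmod_val, hy, sub_self]
    have hvalY : w.valuation M ((Y : ℕ) : M) = 1 := by
      refine le_antisymm ?_ ?_
      · have := w.valuation_le_one (K := M) (Y : 𝓞 M)
        simpa using this
      · by_contra hcon
        have h1 : Pool.Agent.RG.Above w Y := not_le.1 hcon
        have h2 := (Pool.Agent.RG.G01aux.above_iff_mem w Y).1 h1
        have h3 := (Pool.Agent.RG.G01aux.above_iff_mem w ℓ).1 habove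
        exact Pool.Agent.RG.G01aux.one_mem_of_coprime
          ((Nat.Prime.coprime_iff_not_dvd hwp).2 hYℓ) h3 h2
    have hY0 : ((Y : ℕ) : M) ≠ 0 := by
      intro h
      rw [h, map_zero] at hvalY
      exact zero_ne_one hvalY
    have hvaldiff : w.valuation M ((q : M) - (Y : M) ^ p) < 1 := by
      obtain ⟨c, hc⟩ := hdvd
      have h1 : ((q : M) - (Y : M) ^ p) = algebraMap (𝓞 M) M ((ℓ : 𝓞 M) * (c : 𝓞 M)) := by
        rw [map_mul, map_natCast, map_intCast]
        exact_mod_cast congrArg (Int.cast : ℤ → M) hc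
      rw [h1, HeightOneSpectrum.valuation_lt_one_iff_mem]
      exact Ideal.mul_mem_right _ _ ((Pool.Agent.RG.G01aux.above_iff_mem w ℓ).1 habove)
    set yY : Mˣ := Units.mk0 ((Y : ℕ) : M) hY0 with hyY
    set qM : Mˣ := Units.mk0 (q : M) (hne q hq) with hqM
    have hU : qM / yY ^ p ∈ UU w 1 := by
      have h1 : vl w yY = 0 := by
        rw [Pool.Agent.RG.H.vl_eq_zero, hyY, Units.val_mk0, hvalY]
      have h3 : (((qM / yY ^ p : Mˣ) : M) - 1) = ((q : M) - (Y : M) ^ p) / (Y : M) ^ p := by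
        rw [Units.val_div_eq_div_val, Units.val_pow_eq_pow_val, hyY, hqM, Units.val_mk0,
          Units.val_mk0, sub_div, div_self (pow_ne_zero _ hY0)]
      have h4 : w.valuation M (((qM / yY ^ p : Mˣ) : M) - 1) < 1 := by
        rw [h3, map_div₀, map_pow, hvalY, one_pow, div_one]
        exact hvaldiff
      have h5 : vl w (qM / yY ^ p) = 0 := by
        rw [Pool.Agent.RG.H.vl_eq_zero]
        have h6 : ((qM / yY ^ p : Mˣ) : M) = 1 + (((qM / yY ^ p : Mˣ) : M) - 1) := by ring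
        rw [h6]
        have h7 := Valuation.map_one_add_of_lt (v := w.valuation M) h4
        exact h7
      exact ⟨h5, C03_le_exp h4⟩
    obtain ⟨x, hx⟩ := hpow q hq
    have hx0 : x ≠ 0 := by
      rintro rfl
      rw [zero_pow hp.ne_zero, zero_mul] at hx
      exact hne q hq hx.symm
    set xM : Mˣ := Units.mk0 x hx0 with hxM
    have h1 : b = (yY / xM) ^ p * (qM / yY ^ p) := by
      have h2 : xM ^ p * b = qM := by
        ext
        rw [Units.val_mul, Units.val_pow_eq_pow_val, hxM, hb, hqM, Units.val_mk0, Units.val_mk0,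
          Units.val_mk0, hx]
      rw [← h2, div_pow, div_eq_mul_inv, div_eq_mul_inv, mul_assoc,
        ← mul_assoc (xM ^ p)⁻¹ (xM ^ p * b), inv_mul_cancel_left, mul_left_comm, mul_inv_cancel,
        mul_one]
    apply hwn
    rw [h1]
    exact Subgroup.mul_mem_sup (Pool.Agent.RG.H.mem_PP.2 ⟨_, rfl⟩) hU

end Pool.Agent.RGK
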