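import Mathlib
import Pool.Agent.Lib.RG.GX1
import Pool.Agent.Lib.RGK.CXDefs

/-!
RG v4, row C04: the cyclic field `C` of degree `p ^ k` and prime conductor `ℓ`.

Copy `exists_cyclic_field_val` (RG/GX1) with `Multiplicative (ZMod (p ^ k))` instead of
`Multiplicative (ZMod p)`, starting from the proof of `cyclotomic_facts` (RG/G06: `exists_cyc`,
`inert_of_above`, `theta_eq`), because the cyclotomic field `M` itself (`IsCyclotomicExtension {ℓ} ℚ M`)
is needed for the element `ϖ`: for a primitive `ℓ`-th root of unity `ζ` of `M`,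
`Algebra.norm ℚ (ζ - 1) = ℓ` (`IsPrimitiveRoot.norm_sub_one_of_prime_ne_two'` or similar, `ℓ ≠ 2` since
`p ^ k` divides `ℓ - 1` and `p` is odd), and `ϖ := Algebra.norm C (ζ - 1)` has
`Algebra.norm ℚ ϖ = ℓ` (`Algebra.norm_norm`). A surjective `lam` exists because `(ZMod ℓ)ˣ` is cyclic of
order `ℓ - 1` and `p ^ k` divides `ℓ - 1` (compare `exists_lam`, RG/N5a). Frobenius elements: the
hypothesis `IsFrob w n g` is for arbitrary powers `n = q ^ f` of the residue characteristic `q`: `g` is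
determined by `g ζ ≡ ζ ^ n` (`theta_eq`), so `ψ g = lam u` for `u = n` modulo `ℓ`.
-/

set_option autoImplicit false

namespace Pool.Agent.RGK

open NumberField IsDedekindDomain
open Pool.Agent.RG (Above IsDec IsInert IsFrob)
open Pool.Agent.RG.H (Pr)

private theorem C04_frob_one {M : Type} [Field M] [NumberField M] (w : Pr M) :
    IsFrob w 1 (1 : M ≃ₐ[ℚ] M) := by
  refine ⟨RG.IsDec.one w, fun x _ => ?_⟩
  rw [one_smul, pow_one, sub_self, map_zero]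
  exact zero_lt_one

private theorem C04_frob_mul {M : Type} [Field M] [NumberField M] {w : Pr M}
    {g h : M ≃ₐ[ℚ] M} {a b : ℕ} (hg : IsFrob w a g) (hh : IsFrob w b h) :
    IsFrob w (b * a) (g * h) := by
  refine ⟨RG.IsDec.mul hg.1 hh.1, fun x hx => ?_⟩
  have e : (g * h) • x - x ^ (b * a) = g • (h • x - x ^ b) + (g • (x ^ b) - (x ^ b) ^ a) := by
    rw [mul_smul, smul_sub, pow_mul]
    ring
  rw [e]
  refine Valuation.map_add_lt _ ?_ (hg.2 _ ?_)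
  · rw [hg.1]
    exact hh.2 x hx
  · rw [map_pow]
    exact pow_le_one' hx b

private theorem C04_frob_pow {M : Type} [Field M] [NumberField M] {w : Pr M}
    {g : M ≃ₐ[ℚ] M} {a : ℕ} (hg : IsFrob w a g) (f : ℕ) : IsFrob w (a ^ f) (g ^ f) := by
  induction f with
  | zero =>
    rw [pow_zero, pow_zero]
    exact C04_frob_one w
  | succ f ih =>
    rw [pow_succ', pow_succ]
    exact C04_frob_mul ih hg

/-- a surjective character to `ZMod m` for `m` dividing `ℓ - 1` -/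
private theorem C04_lam {m ℓ : ℕ} (hℓ : ℓ.Prime) (hm : m ∣ ℓ - 1) :
    ∃ lam : (ZMod ℓ)ˣ →* Multiplicative (ZMod m), Function.Surjective lam := by
  have : Fact ℓ.Prime := ⟨hℓ⟩
  have hd : m ∣ Nat.card (ZMod ℓ)ˣ := by
    rw [Nat.card_eq_fintype_card, ZMod.card_units_eq_totient, Nat.totient_prime hℓ]
    exact hm
  let e : Multiplicative (ZMod (Nat.card (ZMod ℓ)ˣ)) ≃* (ZMod ℓ)ˣ :=
    zmodCyclicMulEquiv inferInstance
  let f : Multiplicative (ZMod (Nat.card (ZMod ℓ)ˣ)) →* Multiplicative (ZMod m) :=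
    AddMonoidHom.toMultiplicative (ZMod.castHom hd (ZMod m)).toAddMonoidHom
  refine ⟨f.comp e.symm.toMonoidHom, ?_⟩
  have hf : Function.Surjective f := fun z => by
    obtain ⟨w, hw⟩ := ZMod.castHom_surjective hd (Multiplicative.toAdd z)
    exact ⟨Multiplicative.ofAdd w, congrArg Multiplicative.ofAdd hw⟩
  exact hf.comp e.symm.surjective

theorem exists_cyclic_pk {p k ℓ : ℕ} (hp : p.Prime) (hp2 : p ≠ 2) (hk : 0 < k) (hℓ : ℓ.Prime)
    (h : ℓ % p ^ k = 1) :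
    ∃ (C : Type) (_ : Field C) (_ : NumberField C) (_ : IsGalois ℚ C)
      (lam : (ZMod ℓ)ˣ →* Multiplicative (ZMod (p ^ k)))
      (ψ : (C ≃ₐ[ℚ] C) ≃* Multiplicative (ZMod (p ^ k))),
      Function.Surjective lam ∧
      (∀ w : Pr C, ¬ Above w ℓ → ∀ g : C ≃ₐ[ℚ] C, IsInert w g → g = 1) ∧
      (∀ w : Pr C, Above w ℓ → ∀ g : C ≃ₐ[ℚ] C, IsInert w g) ∧
      (∀ w : Pr C, ¬ Above w ℓ → ∀ q f : ℕ, q.Prime → Above w q → ∀ g : C ≃ₐ[ℚ] C,
        IsFrob w (q ^ f) g → ψ g = Multiplicative.ofAdd (jj lam (q ^ f))) ∧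
      ∃ ϖ : C, ∏ g : C ≃ₐ[ℚ] C, g ϖ = (ℓ : C) := by
  have : Fact ℓ.Prime := ⟨hℓ⟩
  have : NeZero ℓ := ⟨hℓ.ne_zero⟩
  have hpk : 2 < p ^ k := by
    have h1 : 2 < p := lt_of_le_of_ne hp.two_le (Ne.symm hp2)
    exact lt_of_lt_of_le h1 (Nat.le_self_pow hk.ne' p)
  have hℓ2 : ℓ ≠ 2 := by
    rintro rfl
    rw [Nat.mod_eq_of_lt hpk] at h
    exact absurd h (by norm_num)
  have hdvd : p ^ k ∣ ℓ - 1 := by
    have h2 := Nat.div_add_mod ℓ (p ^ k)
    rw [h] at h2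
    exact ⟨ℓ / p ^ k, by omega⟩
  obtain ⟨lam, hlam⟩ := C04_lam hℓ hdvd
  obtain ⟨M, _, _, _⟩ := RG.G06aux.exists_cyc hℓ
  have : IsGalois ℚ M := IsCyclotomicExtension.isGalois {ℓ} ℚ M
  set θ : (M ≃ₐ[ℚ] M) ≃* (ZMod ℓ)ˣ := IsCyclotomicExtension.Rat.galEquivZMod ℓ M with hθ
  have hun : ∀ w : Pr M, ¬ Above w ℓ → ∀ σ : M ≃ₐ[ℚ] M, IsInert w σ → σ = 1 := by
    intro w hw σ hσ
    have h2 := RG.G06aux.theta_eq (n := 1) hℓ hw (σ := σ) (fun x hx => by
      rw [pow_one]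
      exact hσ.2 x hx)
    have h3 : θ σ = 1 := by
      apply Units.ext
      rw [hθ, h2]
      simp
    exact (MulEquiv.map_eq_one_iff _).1 h3
  have hun' : RG.UnrOutside {ℓ} M := fun w hw σ hσ =>
    hun w (hw ℓ (Finset.mem_singleton_self ℓ)) σ hσ
  have hin : ∀ w : Pr M, Above w ℓ → ∀ σ : M ≃ₐ[ℚ] M, IsInert w σ := fun w hw σ =>
    RG.G06aux.inert_of_above hℓ hw σ
  -- the subgroup
  set f : (M ≃ₐ[ℚ] M) →* Multiplicative (ZMod (p ^ k)) := lam.comp θ.toMonoidHom with hf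
  have hfs : Function.Surjective f := hlam.comp θ.surjective
  set H : Subgroup (M ≃ₐ[ℚ] M) := f.ker with hH
  have hHn : H.Normal := f.normal_ker
  set F : IntermediateField ℚ M := IntermediateField.fixedField H with hF
  have hFix : F.fixingSubgroup = H := IntermediateField.fixingSubgroup_fixedField H
  have hFn : F.fixingSubgroup.Normal := by rw [hFix]; exact hHn
  have : IsGalois ℚ F := IsGalois.of_fixedField_normal_subgroup H
  set res : (M ≃ₐ[ℚ] M) →* (F ≃ₐ[ℚ] F) := AlgEquiv.restrictNormalHom F with hres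
  have hress : Function.Surjective res := AlgEquiv.restrictNormalHom_surjective M
  have hresc : ∀ (σ : M ≃ₐ[ℚ] M) (x : F), σ (F.val x) = F.val (res σ x) := fun σ x =>
    (AlgEquiv.restrictNormal_commutes σ F x).symm
  have hker : res.ker = H := by
    rw [← hFix]
    ext σ
    rw [MonoidHom.mem_ker, IntermediateField.mem_fixingSubgroup_iff]
    constructor
    · intro h5 x hx
      have := hresc σ ⟨x, hx⟩
      rw [h5] at this
      exact this
    · intro h5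
      ext x
      have := hresc σ x
      exact this.symm.trans (h5 _ x.2)
  -- the isomorphism
  let e1 : (M ≃ₐ[ℚ] M) ⧸ res.ker ≃* (F ≃ₐ[ℚ] F) :=
    QuotientGroup.quotientKerEquivOfSurjective res hress
  let e2 : (M ≃ₐ[ℚ] M) ⧸ f.ker ≃* Multiplicative (ZMod (p ^ k)) :=
    QuotientGroup.quotientKerEquivOfSurjective f hfs
  let e3 : (M ≃ₐ[ℚ] M) ⧸ res.ker ≃* (M ≃ₐ[ℚ] M) ⧸ f.ker :=
    QuotientGroup.quotientMulEquivOfEq hker
  let θ' : (F ≃ₐ[ℚ] F) ≃* Multiplicative (ZMod (p ^ k)) := e1.symm.trans (e3.trans e2)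
  have hval : ∀ σ : M ≃ₐ[ℚ] M, θ' (res σ) = lam (θ σ) := by
    intro σ
    have h1 : e1.symm (res σ) = (QuotientGroup.mk σ : (M ≃ₐ[ℚ] M) ⧸ res.ker) := by
      rw [MulEquiv.symm_apply_eq]
      rfl
    change e2 (e3 (e1.symm (res σ))) = _
    rw [h1]
    rfl
  have hunF : RG.UnrOutside {ℓ} F := RG.UnrOutside.sub (F.val : F →+* M) hun'
  have hunF' : ∀ w : Pr F, ¬ Above w ℓ → ∀ σ : F ≃ₐ[ℚ] F, IsInert w σ → σ = 1 := by
    intro w hw σ hσ
    refine hunF w ?_ σ hσ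
    intro q' hq' h3
    rw [Finset.mem_singleton] at hq'
    subst hq'
    exact hw h3
  refine ⟨F, inferInstance, inferInstance, inferInstance, lam, θ', hlam, hunF', ?_, ?_, ?_⟩
  · intro w₁ hw₁ σ₁
    obtain ⟨w₂, hw₂⟩ := RG.exists_above (F.val : F →+* M) w₁
    obtain ⟨σ₂, rfl⟩ := hress σ₁
    exact RG.IsInert.restrict hw₂ (hresc σ₂) (hin w₂ ((hw₂.above_iff ℓ).2 hw₁) σ₂)
  · intro w₁ hw₁ q n hq hqw σ₁ hσ₁
    obtain ⟨w₂, hw₂⟩ := RG.exists_above (F.val : F →+* M) w₁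
    have hw₂ℓ : ¬ Above w₂ ℓ := fun h' => hw₁ ((hw₂.above_iff ℓ).1 h')
    obtain ⟨φ, hφ⟩ := RG.exists_frob hq ((hw₂.above_iff q).2 hqw)
    have hσ₂ := C04_frob_pow hφ n
    set σ₂ := φ ^ n
    have h1 : IsFrob w₁ (q ^ n) (res σ₂) := RG.IsFrob.restrict hw₂ (hresc σ₂) hσ₂
    have h2 : (res σ₂)⁻¹ * σ₁ = 1 := hunF' w₁ hw₁ _ (h1.inv_mul hσ₁)
    have h3 : σ₁ = res σ₂ := (inv_mul_eq_one.1 h2).symm
    have h5 := RG.G06aux.theta_eq (n := q ^ n) hℓ hw₂ℓ (σ := σ₂) hσ₂.2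
    rw [h3, hval, jj_eq lam (θ σ₂) h5]
    rfl
  · obtain ⟨ζ, hζ⟩ : ∃ ζ : M, IsPrimitiveRoot ζ ℓ :=
      ⟨_, IsCyclotomicExtension.zeta_spec ℓ ℚ M⟩
    refine ⟨Algebra.norm F (ζ - 1), ?_⟩
    have h1 : Algebra.norm ℚ (ζ - 1) = (ℓ : ℚ) :=
      hζ.norm_sub_one_of_prime_ne_two' (Polynomial.cyclotomic.irreducible_rat hℓ.pos) hℓ2
    have h2 : Algebra.norm ℚ (Algebra.norm F (ζ - 1)) = (ℓ : ℚ) := by
      rw [Algebra.norm_norm, h1]
    have h3 := Algebra.norm_eq_prod_automorphisms ℚ (Algebra.norm F (ζ - 1))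
    rw [h2, map_natCast] at h3
    exact h3.symm

end Pool.Agent.RGK
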