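import Mathlib
import Pool.Agent.Lib.RG.G01
import Pool.Agent.Lib.RG.G02
import Pool.Agent.Lib.RG.H01
import Pool.Agent.Lib.RG.H03
import Pool.Agent.Lib.RGK.CXDefs
import Pool.Agent.Lib.RGK.B1
import Pool.Agent.Lib.RGK.B2
import Pool.Agent.Lib.RGK.B4

/-!
RG v4, rows C05a, C05b: the compositum `M` of `L / F` and `C / ℚ`, and its inertia groups above `ℓ`.

`exists_crossField` (row C05a). `Ω := AlgebraicClosure F`; an embedding `C →ₐ[ℚ] Ω`
(`IsAlgClosed.lift`); `F₂ := IntermediateField.adjoin F (range)`, Galois over `F`: it is the splitting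
field over `F` of the minimal polynomials over `ℚ` of the elements of `C` (normal; finite-dimensional;
number field). Every `F`-automorphism of `F₂` maps the image of `C` to itself (`C / ℚ` normal), which
gives `Gal(F₂ / F) → Gal(C / ℚ)`, injective because `F₂` is generated by `F` and the image of `C`. Then
`exists_compositumK F L F₂` (RGK/B4); compose.

`cross_inert` (row C05b). Let `v = below w`. `e := vl w (nu M ℓ)`. By `H.exists_e` (H01) and `hF` the
ramification index of `w` over `F` is `e`, so the inertia subgroup `I` of `Gal(M / F)` at `w` has order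
`e` (`Ideal.card_inertia_eq_ramificationIdxIn`; compare the proof of `H.e_one` in H03 and the proof of
`exists_e`; `H.isInert_of_mem` for the passage between `IsInert` and `Ideal.inertia`). The restriction
of `I` to `L` is trivial by `hL` (`IsInert.restrictK`), so `r₂` is injective on `I`. On the other hand all
`g : C ≃ₐ[ℚ] C` are in the decomposition group of the prime of `C` below `w`, so the elements `g ϖ` have
the same valuation at `w`, and `P = card` divides `vl w ℓ = e = card I`. Hence `r₂` maps `I` onto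
`Gal(C / ℚ)`.
-/

set_option autoImplicit false

namespace Pool.Agent.RGK

open NumberField IsDedekindDomain
open Pool.Agent.RG (Above IsDec IsInert IsFrob)
open Pool.Agent.RG.H (Pr vl UU PP emb below)

private theorem C05a_base (F C : Type) [Field F] [NumberField F] [Field C] [NumberField C] [IsGalois ℚ C] :
    ∃ (E : Type) (_ : Field E) (_ : NumberField E) (_ : Algebra F E) (_ : IsGalois F E)
      (j : C →+* E) (r : (E ≃ₐ[F] E) →* (C ≃ₐ[ℚ] C)),
      (∀ g x, g (j x) = j (r g x)) ∧ ∀ g, r g = 1 → g = 1 := by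
  obtain ⟨f, hfs, hsf⟩ := IsGalois.is_separable_splitting_field (F := ℚ) (E := C)
  have hfs' : (f.map (algebraMap ℚ F)).Separable := hfs.map
  let E := (f.map (algebraMap ℚ F)).SplittingField
  have hg : IsGalois F E := IsGalois.of_separable_splitting_field (p := f.map (algebraMap ℚ F)) hfs'
  have hcz : CharZero E := charZero_of_injective_algebraMap (algebraMap F E).injective
  have hfd : FiniteDimensional F E := inferInstance
  have hnf : NumberField E := NumberField.of_module_finite F E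
  have hsp : (f.map (algebraMap ℚ E)).Splits := by
    have h := Polynomial.SplittingField.splits (f.map (algebraMap ℚ F))
    rw [Polynomial.map_map] at h
    have e : (algebraMap F E).comp (algebraMap ℚ F) = algebraMap ℚ E := Subsingleton.elim _ _
    rwa [e] at h
  let j : C →ₐ[ℚ] E := Polynomial.IsSplittingField.lift C f hsp
  let _ : Algebra C E := j.toRingHom.toAlgebra
  have : IsScalarTower ℚ C E := IsScalarTower.of_algebraMap_eq' (Subsingleton.elim _ _)
  let rs : (E ≃ₐ[F] E) →* (E ≃ₐ[ℚ] E) :=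
    { toFun := fun g => g.restrictScalars ℚ
      map_one' := by ext; rfl
      map_mul' := fun a b => by ext; rfl }
  have hc : ∀ (g : E ≃ₐ[F] E) (x : C), g (j x) = j (((AlgEquiv.restrictNormalHom C).comp rs) g x) := by
    intro g x
    exact (AlgEquiv.restrictNormal_commutes (rs g) C x).symm
  refine ⟨E, inferInstance, hnf, inferInstance, hg, j.toRingHom, (AlgEquiv.restrictNormalHom C).comp rs,
    hc, ?_⟩
  intro g hg1
  have key : (g : E →ₐ[F] E) = AlgHom.id F E := by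
    refine AlgHom.ext_of_adjoin_eq_top (Polynomial.IsSplittingField.adjoin_rootSet E (f.map (algebraMap ℚ F))) ?_
    intro y hy
    have hne : f ≠ 0 := hfs.ne_zero
    have hy' : Polynomial.aeval y f = 0 := by
      have := (Polynomial.mem_rootSet.1 hy).2
      rwa [Polynomial.aeval_map_algebraMap] at this
    have hyr : y ∈ f.rootSet E := Polynomial.mem_rootSet.2 ⟨hne, hy'⟩
    have himg : j '' f.rootSet C = f.rootSet E :=
      Polynomial.Splits.image_rootSet hsf.splits' j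
    rw [← himg] at hyr
    obtain ⟨x, -, rfl⟩ := hyr
    have h := hc g x
    rw [hg1] at h
    exact h
  ext x
  exact DFunLike.congr_fun key x

theorem exists_crossField (F L C : Type) [Field F] [NumberField F] [Field L] [NumberField L]
    [Algebra F L] [IsGalois F L] [Field C] [NumberField C] [IsGalois ℚ C] :
    ∃ (M : Type) (_ : Field M) (_ : NumberField M) (_ : Algebra F M) (_ : IsGalois F M)
      (i₁ : L →ₐ[F] M) (i₂ : C →+* M) (r₁ : (M ≃ₐ[F] M) →* (L ≃ₐ[F] L))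
      (r₂ : (M ≃ₐ[F] M) →* (C ≃ₐ[ℚ] C)),
      (∀ g x, g (i₁ x) = i₁ (r₁ g x)) ∧ (∀ g x, g (i₂ x) = i₂ (r₂ g x)) ∧
      Function.Surjective r₁ ∧ ∀ g, r₁ g = 1 → r₂ g = 1 → g = 1 := by
  obtain ⟨E, _, _, _, _, j, r, hj, hr⟩ := C05a_base F C
  obtain ⟨M, _, _, _, _, i₁, i₂, r₁, r₂, h1, h2, hs1, -, hinj⟩ := exists_compositumK F L E
  refine ⟨M, inferInstance, inferInstance, inferInstance, inferInstance, i₁, i₂.toRingHom.comp j, r₁,
    r.comp r₂, h1, fun g x => ?_, hs1, fun g ha hb => hinj g ha (hr _ hb)⟩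
  have := h2 g (j x)
  rw [hj] at this
  exact this

theorem cross_inert {F L C M : Type} [Field F] [NumberField F] [Field L] [NumberField L]
    [Algebra F L] [IsGalois F L] [Field C] [NumberField C] [IsGalois ℚ C] [Field M]
    [NumberField M] [Algebra F M] [IsGalois F M] {i₁ : L →ₐ[F] M} {i₂ : C →+* M}
    {r₁ : (M ≃ₐ[F] M) →* (L ≃ₐ[F] L)} {r₂ : (M ≃ₐ[F] M) →* (C ≃ₐ[ℚ] C)}
    (h₁ : ∀ g x, g (i₁ x) = i₁ (r₁ g x)) (h₂ : ∀ g x, g (i₂ x) = i₂ (r₂ g x))
    (hinj : ∀ g, r₁ g = 1 → r₂ g = 1 → g = 1) {ℓ : ℕ} (hℓ : ℓ.Prime)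
    (hC : ∀ w : Pr C, Above w ℓ → ∀ g : C ≃ₐ[ℚ] C, IsInert w g)
    (hϖ : ∃ ϖ : C, ∏ g : C ≃ₐ[ℚ] C, g ϖ = (ℓ : C))
    (hF : ∀ v : Pr F, Above v ℓ → vl v (nu F ℓ) = 1)
    (hL : ∀ w : Pr L, Above w ℓ → ∀ g : L ≃ₐ[F] L, IsInert w g → g = 1)
    (w : Pr M) (hw : Above w ℓ) (c : C ≃ₐ[ℚ] C) :
    ∃ g : M ≃ₐ[F] M, IsInert w g ∧ r₁ g = 1 ∧ r₂ g = c := by
  have hlo : w.asIdeal.LiesOver (below w : Pr F).asIdeal := ⟨rfl⟩
  set I := w.asIdeal.inertia (M ≃ₐ[F] M) with hI
  have hcard := Ideal.card_inertia_eq_ramificationIdxIn (G := M ≃ₐ[F] M)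
    (below w : Pr F).asIdeal w.asIdeal
  rw [Ideal.ramificationIdxIn_eq_ramificationIdx (below w : Pr F).asIdeal w.asIdeal (M ≃ₐ[F] M),
    ← Ideal.ramificationIdx'_eq_ramificationIdx (below w : Pr F).asIdeal w.asIdeal
      (below w : Pr F).ne_bot, ← hI] at hcard
  have key := HeightOneSpectrum.valuation_liesOver M (below w : Pr F) w (nu F ℓ : F)
  rw [← hcard, RG.H.val_eq, hF _ ((RG.H.above_iff (K := F) w ℓ).1 hw), nu_val hℓ.ne_zero,
    map_natCast] at key
  obtain ⟨ϖ, hϖ⟩ := hϖ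
  obtain ⟨wC, hwC⟩ := RG.exists_below i₂ w
  have hAC : Above wC ℓ := (hwC.above_iff ℓ).1 hw
  have hϖ0 : ϖ ≠ 0 := by
    rintro rfl
    have h0 : ∏ g : C ≃ₐ[ℚ] C, g (0 : C) = 0 :=
      Finset.prod_eq_zero (Finset.mem_univ 1) (map_zero _)
    rw [h0] at hϖ
    exact (Nat.cast_ne_zero.2 hℓ.ne_zero) hϖ.symm
  have hall : ∀ g : C ≃ₐ[ℚ] C, w.valuation M (i₂ (g ϖ)) = w.valuation M (i₂ ϖ) := by
    intro g
    have h1 : wC.valuation C (g ϖ / ϖ) = 1 := by
      have h2 : wC.valuation C (g ϖ) = wC.valuation C ϖ := (hC wC hAC g).1 ϖ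
      rw [map_div₀, h2, div_self ((Valuation.ne_zero_iff _).2 hϖ0)]
    have h3 : w.valuation M (i₂ (g ϖ / ϖ)) ≤ 1 := (hwC _).1.2 h1.le
    have h4 : ¬ w.valuation M (i₂ (g ϖ / ϖ)) < 1 := fun h5 => by
      have h6 := (hwC _).2.1 h5
      rw [h1] at h6
      exact lt_irrefl _ h6
    have h5 : w.valuation M (i₂ (g ϖ / ϖ)) = 1 := le_antisymm h3 (not_lt.1 h4)
    rw [map_div₀, map_div₀, div_eq_one_iff_eq ((Valuation.ne_zero_iff _).2
      ((map_ne_zero i₂).2 hϖ0))] at h5
    exact h5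
  have hi0 : i₂ ϖ ≠ 0 := (map_ne_zero i₂).2 hϖ0
  have hprod : w.valuation M (ℓ : M) = w.valuation M (i₂ ϖ) ^ Nat.card (C ≃ₐ[ℚ] C) := by
    have h1 : (ℓ : M) = ∏ g : C ≃ₐ[ℚ] C, i₂ (g ϖ) := by
      rw [← map_prod, hϖ, map_natCast]
    rw [h1, map_prod, Finset.prod_congr rfl fun g _ => hall g, Finset.prod_const,
      Finset.card_univ, Nat.card_eq_fintype_card]
  have hdvd : (Nat.card (C ≃ₐ[ℚ] C) : ℤ) ∣ (Nat.card I : ℤ) := by
    rw [hprod, ← Units.val_mk0 hi0, RG.H.val_eq, ← WithZero.exp_nsmul, ← WithZero.exp_nsmul,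
      WithZero.exp_inj] at key
    refine ⟨vl w (Units.mk0 _ hi0), ?_⟩
    simp only [nsmul_eq_mul, mul_neg, mul_one] at key
    linarith
  have hdvd' : Nat.card (C ≃ₐ[ℚ] C) ∣ Nat.card I := Int.natCast_dvd_natCast.1 hdvd
  have hIin : ∀ g ∈ I, r₁ g = 1 := by
    intro g hg
    have h1 : IsInert w g := RG.H.H03aux.isInert_of_mem hg
    obtain ⟨wL, hwL⟩ := RG.exists_below (i₁ : L →+* M) w
    have hAL : Above wL ℓ := (hwL.above_iff ℓ).1 hw
    exact hL wL hAL (r₁ g) (IsInert.restrictK (j := i₁) hwL (fun x => h₁ g x) h1)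
  have hfinj : Function.Injective (fun g : I => r₂ g.1) := by
    intro g h hgh
    apply Subtype.ext
    have h1 : r₂ (g.1 * h.1⁻¹) = 1 := by
      rw [map_mul, map_inv]
      have : r₂ g.1 = r₂ h.1 := hgh
      rw [this, mul_inv_cancel]
    have h2 : r₁ (g.1 * h.1⁻¹) = 1 := hIin _ (I.mul_mem g.2 (I.inv_mem h.2))
    exact mul_inv_eq_one.1 (hinj _ h2 h1)
  have hle : Nat.card I ≤ Nat.card (C ≃ₐ[ℚ] C) := Nat.card_le_card_of_injective _ hfinj
  have hge : Nat.card (C ≃ₐ[ℚ] C) ≤ Nat.card I := Nat.le_of_dvd Nat.card_pos hdvd'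
  have hb := (Nat.bijective_iff_injective_and_card (fun g : I => r₂ g.1)).2
    ⟨hfinj, le_antisymm hle hge⟩
  obtain ⟨g, hg⟩ := hb.2 c
  exact ⟨g.1, RG.H.H03aux.isInert_of_mem g.2, hIin _ g.2, hg⟩

end Pool.Agent.RGK
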