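import Mathlib
import Pool.Agent.Lib.RG.H04
import Pool.Agent.Lib.RGK.CXDefs
import Pool.Agent.Lib.RGK.B1
import Pool.Agent.Lib.RGK.B2
import Pool.Agent.Lib.RGK.C00
import Pool.Agent.Lib.RGK.C04
import Pool.Agent.Lib.RGK.C05

/-!
RG v4, row C06: existence of the crossing (assembly of C04 and C05).
-/

set_option autoImplicit false

namespace Pool.Agent.RGK

open NumberField IsDedekindDomain
open Pool.Agent.RG (Above IsDec IsInert IsFrob)
open Pool.Agent.RG.H (Pr vl UU PP emb below)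

theorem exists_cross {p k ℓ : ℕ} [Fact p.Prime] (hp2 : p ≠ 2) (hk : 0 < k) (hℓ : ℓ.Prime)
    (hℓk : ℓ % p ^ k = 1) {F L : Type} [Field F] [NumberField F] [Field L] [NumberField L]
    [Algebra F L] [IsGalois F L] (hL : Module.finrank F L = p)
    (θ : (L ≃ₐ[F] L) →* Multiplicative (ZMod p)) (hθ : Function.Injective θ)
    (A : Pr F → ZMod p)
    (hA : ∀ w : Pr L, (below w : Pr F) ∉ RamS L → ∀ g : L ≃ₐ[F] L,
      IsFrob w (nm (below w : Pr F)) g → θ g = Multiplicative.ofAdd (A (below w)))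
    (hF : ∀ v : Pr F, Above v ℓ → vl v (nu F ℓ) = 1)
    (hRℓ : ∀ v : Pr F, Above v ℓ → v ∉ RamS L) :
    ∃ (M : Type) (_ : Field M) (_ : NumberField M) (_ : Algebra F M) (_ : IsGalois F M)
      (lam : (ZMod ℓ)ˣ →* Multiplicative (ZMod (p ^ k)))
      (Θ : (M ≃ₐ[F] M) →* Multiplicative (ZMod p))
      (Ψ : (M ≃ₐ[F] M) →* Multiplicative (ZMod (p ^ k))) (σ τ : M ≃ₐ[F] M),
      Function.Surjective lam ∧ Cross p k ℓ (RamS L) A lam Θ Ψ σ τ := by
  have hp : p.Prime := Fact.out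
  have hpk : p ^ k ≠ 0 := pow_ne_zero _ hp.ne_zero
  have : NeZero (p ^ k) := ⟨hpk⟩
  obtain ⟨C, iC1, iC2, iC3, lam, ψ, hlam, hC1, hC2, hC3, ϖ, hϖ⟩ :=
    exists_cyclic_pk hp hp2 hk hℓ hℓk
  obtain ⟨M, iM1, iM2, iM3, iM4, i₁, i₂, r₁, r₂, h₁, h₂, hr₁, hinj⟩ :=
    exists_crossField F L C
  -- `L / F` is unramified above `ℓ`
  have hLℓ : ∀ w : Pr L, Above w ℓ → ∀ g : L ≃ₐ[F] L, IsInert w g → g = 1 := by
    intro w hw g hg
    by_contra hne
    exact hRℓ (below w) ((RG.H.above_iff (K := F) w ℓ).1 hw) ⟨w, rfl, g, hg, hne⟩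
  have CI := fun w hw c => cross_inert (c := c) h₁ h₂ hinj hℓ hC2 ⟨ϖ, hϖ⟩ hF hLℓ w hw
  -- the primes of `L` and `C` below a prime of `M`
  have hbL : ∀ w : Pr M, ∃ w₁ : Pr L, LiesA i₁ w w₁ := fun w => RG.exists_below _ w
  have hbC : ∀ w : Pr M, ∃ w₁ : Pr C, RG.Lies i₂ w w₁ := fun w => RG.exists_below _ w
  obtain ⟨w₀, hw₀⟩ := RG.exists_above_prime M hℓ
  -- `θ` is bijective
  obtain ⟨t₁, ht₁⟩ : ∃ t, θ t = Multiplicative.ofAdd 1 := by
    have hc : Nat.card (L ≃ₐ[F] L) = Nat.card (Multiplicative (ZMod p)) := by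
      rw [IsGalois.card_aut_eq_finrank, hL]
      exact (Nat.card_zmod p).symm
    have hb : Function.Bijective θ := (Nat.bijective_iff_injective_and_card θ).2 ⟨hθ, hc⟩
    exact hb.2 _
  obtain ⟨τ, hτ0, hτ1, hτ2⟩ := CI w₀ hw₀ (ψ.symm (Multiplicative.ofAdd 1))
  obtain ⟨g₀, hg₀⟩ := hr₁ t₁
  obtain ⟨g₁, hg₁0, hg₁1, hg₁2⟩ := CI w₀ hw₀ (r₂ g₀)
  set σ : M ≃ₐ[F] M := g₀ * g₁⁻¹ with hσ
  have hσ1 : r₁ σ = t₁ := by rw [hσ, map_mul, map_inv, hg₀, hg₁1, inv_one, mul_one]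
  have hσ2 : r₂ σ = 1 := by rw [hσ, map_mul, map_inv, hg₁2, mul_inv_cancel]
  have hinj' : ∀ g h : M ≃ₐ[F] M, r₁ g = r₁ h → r₂ g = r₂ h → g = h := by
    intro g h e1 e2
    have := hinj (g * h⁻¹) (by rw [map_mul, map_inv, e1, mul_inv_cancel])
      (by rw [map_mul, map_inv, e2, mul_inv_cancel])
    exact mul_inv_eq_one.1 this
  have hunrψ : ∀ w : Pr M, ¬ Above w ℓ → ∀ g : M ≃ₐ[F] M, IsInert w g → r₂ g = 1 := by
    intro w hw g hg
    obtain ⟨wC, hwC⟩ := hbC w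
    refine hC1 wC (fun h => hw ((hwC.above_iff ℓ).2 h)) (r₂ g) ?_
    exact RG.IsInert.restrict (σ₂ := g.restrictScalars ℚ) hwC (fun x => h₂ g x) hg
  refine ⟨M, iM1, iM2, iM3, iM4, lam, θ.comp r₁, ψ.toMonoidHom.comp r₂, σ, τ, hlam, ?_⟩
  refine
    { inj := ?_
      sθ := ?_
      sψ := ?_
      tθ := ?_
      tψ := ?_
      unr_theta := ?_
      unr_psi := ?_
      ram_sigma := ?_
      ram_tau := ?_
      frob_theta := ?_
      frob_psi := ?_
      unif := ?_ }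
  · intro g h1 h2
    refine hinj g (hθ ?_) (ψ.injective ?_)
    · rw [map_one]; exact h1
    · rw [map_one]; exact h2
  · change θ (r₁ σ) = _
    rw [hσ1, ht₁]
  · change ψ (r₂ σ) = _
    rw [hσ2, map_one]
  · change θ (r₁ τ) = _
    rw [hτ1, map_one]
  · change ψ (r₂ τ) = _
    rw [hτ2, MulEquiv.apply_symm_apply]
  · intro w hw g hg
    obtain ⟨w₁, hw₁⟩ := hbL w
    have hb := hw₁.below_eq
    have h3 : IsInert w₁ (r₁ g) := IsInert.restrictK hw₁ (fun x => h₁ g x) hg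
    have h4 : r₁ g = 1 := by
      by_contra hne
      exact hw ⟨w₁, hb.symm, r₁ g, h3, hne⟩
    change θ (r₁ g) = 1
    rw [h4, map_one]
  · intro w hw g hg
    change ψ (r₂ g) = 1
    rw [hunrψ w hw g hg, map_one]
  · intro w hw
    obtain ⟨w₁, hw₁⟩ := hbL w
    have hb := hw₁.below_eq
    obtain ⟨w', hw', g', hg', hne⟩ := hw
    obtain ⟨c, hc⟩ := exists_conjK (K := F) (w := w') (w' := w₁) (by rw [hw', hb])
    have h3 : IsInert w₁ (c * g' * c⁻¹) := IsInert.conj_toK hc hg'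
    have h4 : c * g' * c⁻¹ ≠ 1 := by
      intro h5
      exact hne (by
        have : g' = c⁻¹ * (c * g' * c⁻¹) * c := by group
        rw [this, h5]; group)
    have h5 : IsInert w₁ t₁ := RG.H.inert_all hp hL w₁ h4 h3 t₁
    obtain ⟨σ₂, h6, h7⟩ := exists_inert_liftK hw₁ h5
    have h8 : r₁ σ₂ = t₁ := by
      ext x
      apply i₁.toRingHom.injective
      change i₁ (r₁ σ₂ x) = i₁ (t₁ x)
      rw [← h₁, h6]
    have h9 : ¬ Above w ℓ := by
      intro h10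
      refine hRℓ (below w) ((RG.H.above_iff (K := F) w ℓ).1 h10) ?_
      exact ⟨w', hw', g', hg', hne⟩
    have h10 : σ₂ = σ := hinj' _ _ (by rw [h8, hσ1]) (by rw [hunrψ w h9 σ₂ h7, hσ2])
    rw [← h10]
    exact h7
  · intro w hw
    obtain ⟨g, hg0, hg1, hg2⟩ := CI w hw (ψ.symm (Multiplicative.ofAdd 1))
    have : g = τ := hinj' _ _ (by rw [hg1, hτ1]) (by rw [hg2, hτ2])
    rw [← this]
    exact hg0
  · intro w hw g hg
    obtain ⟨w₁, hw₁⟩ := hbL w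
    have hb := hw₁.below_eq
    have h3 : IsFrob w₁ (nm (below w : Pr F)) (r₁ g) :=
      IsFrob.restrictK hw₁ (fun x => h₁ g x) hg
    change θ (r₁ g) = _
    rw [hb] at h3 hw ⊢
    exact hA w₁ hw (r₁ g) h3
  · intro w hw g hg
    obtain ⟨wC, hwC⟩ := hbC w
    obtain ⟨q, hq, hqw⟩ := RG.exists_prime_above wC
    have hqF : Above (below w : Pr F) q :=
      (RG.H.above_iff (K := F) w q).1 ((hwC.above_iff q).2 hqw)
    obtain ⟨f, hf, hnm⟩ := nm_pow (below w : Pr F) hq hqF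
    change ψ (r₂ g) = _
    rw [hnm] at hg ⊢
    refine hC3 wC (fun h => hw ((hwC.above_iff ℓ).2 h)) q f hq hqw (r₂ g) ?_
    exact RG.IsFrob.restrict (σ₂ := g.restrictScalars ℚ) hwC (fun x => h₂ g x) hg
  · refine ⟨i₂ ϖ, ?_, ?_⟩
    · rw [h₂, hσ2]
      rfl
    · have h3 : ∀ t : ℕ, (τ ^ t) (i₂ ϖ) = i₂ ((ψ.symm (Multiplicative.ofAdd (t : ZMod (p ^ k)))) ϖ) := by
        intro t
        rw [h₂, map_pow, hτ2, ← map_pow, ← ofAdd_nsmul, nsmul_one]
      rw [Finset.prod_congr rfl fun t _ => h3 t, ← map_prod]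
      have h4 : ∏ t ∈ Finset.range (p ^ k),
          (ψ.symm (Multiplicative.ofAdd (t : ZMod (p ^ k)))) ϖ = ∏ g : C ≃ₐ[ℚ] C, g ϖ := by
        refine Finset.prod_bij' (fun t _ => ψ.symm (Multiplicative.ofAdd (t : ZMod (p ^ k))))
          (fun g _ => (Multiplicative.toAdd (ψ g)).val) (fun _ _ => Finset.mem_univ _)
          (fun g _ => Finset.mem_range.2 (ZMod.val_lt _)) ?_ ?_ (fun _ _ => rfl)
        · intro t ht
          rw [MulEquiv.apply_symm_apply, toAdd_ofAdd, ZMod.val_natCast,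
            Nat.mod_eq_of_lt (Finset.mem_range.1 ht)]
        · intro g _
          rw [ZMod.natCast_val, ZMod.cast_id, ofAdd_toAdd, MulEquiv.symm_apply_apply]
      rw [h4, hϖ, map_natCast]

end Pool.Agent.RGK
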