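import Mathlib
import Pool.Agent.Lib.RG.HMain
import Pool.Agent.Lib.RG.H07
import Pool.Agent.Lib.RG.H09
import Pool.Agent.Lib.RGK.CXDefs
import Pool.Agent.Lib.RGK.B1
import Pool.Agent.Lib.RGK.B2
import Pool.Agent.Lib.RG.H04

/-!
RG v4, rows C07a, C07b: the element `a` of `F` is a norm from `M` to the fixed field of `σ`, and
Hilbert 90.

Preliminaries on a crossing `h : Cross ..`: `σ ^ i * τ ^ j` has `Θ = i`, `Ψ = j`; every `g` is
`σ ^ i * τ ^ j` with `i = (toAdd (Θ g)).val`, `j = (toAdd (Ψ g)).val` (by `inj`); the group is commutative;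
`σ ^ p = 1`, `τ ^ (p ^ k) = 1`; `g` is a power of `σ` iff `Ψ g = 1`.

`cross_dec` (row C07a). `w` a prime of `M` with `IsDec w σ` and `v = below w ∉ R`, not above `ℓ`. Let `φ`
be a Frobenius element at `w` (`exists_frobK`, B2). By `dec_frob` there is `m` with `σ⁻¹ * φ ^ m` inert, and
the inertia group is trivial (`unr_theta`, `unr_psi`, `inj`): `σ = φ ^ m`. Apply `Θ` and `Ψ`:
`m * A v = 1` in `ZMod p`, so `p` does not divide `m`, and `m * jj lam (nm v) = 0` in `ZMod (p ^ k)`, so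
`jj lam (nm v) = 0` (`m` is a unit).

`cross_norm` (row C07b). `F₂ := IntermediateField.fixedField (Subgroup.zpowers σ)` (over `F`); `M / F₂` is
Galois of degree `p` (`IntermediateField.finrank_fixedField_eq_card`, order of `σ`), `ζ ∈ F₂`; its
automorphisms are (restrictions of scalars of) the powers of `σ`. Apply `RG.hasse_norm` (HMain) to
`F₂ ⊂ M` and `c = a`. Unramified above `p`: `w` above `p`, `g` inert at `w` and a power of `σ`:
`below w ∉ R` by `hRp`, so `Θ g = 1`, and `Ψ g = 1`, `g = 1`. Let `w` be a prime of `M` with `IsDec w σ`,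
`v = below w`. If `v ∈ R` then `a ∈ UU v 1` (not above `p`): take `b = 1`: `w (1 / a - 1) < 1`
(`H.exists_e_val` or monotonicity of valuations in `M / F`). If `v ∉ R`: `vl v a = 0` (`haℓ` if `v` is
above `ℓ`; otherwise C07a and `haj`), so `a` is a unit at `w` (this settles the condition above `p` with
`x = 1`), `M / F₂` is unramified at `w` (an inert power `g` of `σ` has `Θ g = 1`, `Ψ g = 1`), and if `w` is
not above `p` then `a ∈ UU u 0 ≤ Nv M p u = (nrm F₂ M).range ⊔ UU u 1` for the prime `u` of `F₂` below `w`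
(`H.units_le_Nv`, H09, `Hyp F₂ M p`), which gives `b`. Finally
`Algebra.norm F₂ b = ∏ i ∈ range p, (σ ^ i) b` (`Algebra.norm_eq_prod_automorphisms`, reindexing).

`cross_h90` (row C07b, second part; or do it first, it is short). `x := τ β / β`; its norm to `F₂` is
`τ a / a = 1` (`σ`, `τ` commute); Mathlib `exists_div_of_norm_eq_one` (Hilbert90.lean) for the generator
`σ` of `Gal(M / F₂)` gives `y` with `y / σ y = x`; `γ := y⁻¹`. `∏ t, (τ ^ t) γ` is fixed by `τ` (reindexing,
`τ ^ (p ^ k) = 1`) and by `σ`: `σ (∏ τ^t γ) / ∏ τ^t γ = ∏ τ^t (σ γ / γ) = ∏ τ^t (τ β / β) = 1`; so it is in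
`F` (`IsGalois`, fixed by all automorphisms), not zero.
-/

set_option autoImplicit false

namespace Pool.Agent.RGK

open NumberField IsDedekindDomain
open Pool.Agent.RG (Above IsDec IsInert IsFrob)
open Pool.Agent.RG.H (Pr vl UU PP emb below)

theorem cross_dec {p k ℓ : ℕ} [Fact p.Prime] {F M : Type} [Field F] [NumberField F] [Field M]
    [NumberField M] [Algebra F M] [IsGalois F M] {R : Set (Pr F)} {A : Pr F → ZMod p}
    {lam : (ZMod ℓ)ˣ →* Multiplicative (ZMod (p ^ k))} {Θ : (M ≃ₐ[F] M) →* Multiplicative (ZMod p)}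
    {Ψ : (M ≃ₐ[F] M) →* Multiplicative (ZMod (p ^ k))} {σ τ : M ≃ₐ[F] M}
    (h : Cross p k ℓ R A lam Θ Ψ σ τ) {w : Pr M} (hw : IsDec w σ) (hR : (below w : Pr F) ∉ R)
    (hℓ : ¬ Above w ℓ) : jj lam (nm (below w : Pr F)) = 0 := by
  have hp : p.Prime := Fact.out
  obtain ⟨φ, hφ⟩ := exists_frobK (K := F) w
  obtain ⟨m, hm⟩ := dec_frob hφ hw
  have h1 : σ⁻¹ * φ ^ m = 1 := h.inj _ (h.unr_theta w hR _ hm) (h.unr_psi w hℓ _ hm)
  have h2 : φ ^ m = σ := (inv_mul_eq_one.1 h1).symm
  have h3 := h.frob_theta w hR φ hφ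
  have h4 := h.frob_psi w hℓ φ hφ
  have h5 : (m : ZMod p) * A (below w) = 1 := by
    have := h.sθ
    rw [← h2, map_pow, h3, ← ofAdd_nsmul, Multiplicative.ofAdd.apply_eq_iff_eq] at this
    rw [← this, nsmul_eq_mul]
  have h6 : (m : ZMod (p ^ k)) * jj lam (nm (below w : Pr F)) = 0 := by
    have := h.sψ
    rw [← h2, map_pow, h4, ← ofAdd_nsmul, ofAdd_eq_one] at this
    rw [← this, nsmul_eq_mul]
  have h7 : ¬ p ∣ m := by
    intro hd
    rw [(ZMod.natCast_eq_zero_iff m p).2 hd, zero_mul] at h5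
    have : Fact (1 < p) := ⟨hp.one_lt⟩
    exact zero_ne_one h5
  have h8 : IsUnit (m : ZMod (p ^ k)) := by
    rw [ZMod.isUnit_iff_coprime]
    exact ((Nat.Prime.coprime_iff_not_dvd hp).2 h7).symm.pow_right k
  exact (h8.mul_right_eq_zero).1 h6

theorem cross_norm {p k ℓ : ℕ} [Fact p.Prime] (hp2 : p ≠ 2) {F M : Type} [Field F]
    [NumberField F] [Field M]
    [NumberField M] [Algebra F M] [IsGalois F M] {R : Set (Pr F)} {A : Pr F → ZMod p}
    {lam : (ZMod ℓ)ˣ →* Multiplicative (ZMod (p ^ k))} {Θ : (M ≃ₐ[F] M) →* Multiplicative (ZMod p)}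
    {Ψ : (M ≃ₐ[F] M) →* Multiplicative (ZMod (p ^ k))} {σ τ : M ≃ₐ[F] M}
    (h : Cross p k ℓ R A lam Θ Ψ σ τ) {ζ : F} (hζ : IsPrimitiveRoot ζ p)
    (hRp : ∀ v ∈ R, ¬ Above v p) (a : Fˣ) (haR : ∀ v ∈ R, a ∈ UU v 1)
    (haℓ : ∀ v : Pr F, Above v ℓ → vl v a = 0)
    (haj : ∀ v : Pr F, vl v a ≠ 0 → jj lam (nm v) ≠ 0) :
    ∃ β : Mˣ, ∏ i ∈ Finset.range p, (σ ^ i) (β : M) = algebraMap F M a := by
  classical
  have hp : p.Prime := Fact.out
  have hp1 : Fact (1 < p) := ⟨hp.one_lt⟩
  -- order of `σ`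
  have hσp : σ ^ p = 1 := by
    refine h.inj _ ?_ ?_
    · rw [map_pow, h.sθ, ← ofAdd_nsmul, nsmul_one, CharP.cast_eq_zero, ofAdd_zero]
    · rw [map_pow, h.sψ, one_pow]
  have hσ1 : σ ≠ 1 := by
    intro h1
    have h2 := h.sθ
    rw [h1, map_one, eq_comm, ofAdd_eq_one] at h2
    exact one_ne_zero h2
  have hord : orderOf σ = p := orderOf_eq_prime hσp hσ1
  set H := Subgroup.zpowers σ with hH
  set F₂ : IntermediateField F M := IntermediateField.fixedField H with hF₂
  have hfix : IntermediateField.fixingSubgroup F₂ = H :=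
    IntermediateField.fixingSubgroup_fixedField H
  have hrank : Module.finrank F₂ M = p := by
    rw [hF₂, IntermediateField.finrank_fixedField_eq_card, hH, Nat.card_zpowers, hord]
  -- automorphisms of `M / F₂`
  have hres : ∀ g : M ≃ₐ[F₂] M, ∃ g' : M ≃ₐ[F] M, (∀ x, g' x = g x) ∧ Ψ g' = 1 := by
    intro g
    have h1 : g.restrictScalars F ∈ IntermediateField.fixingSubgroup F₂ := by
      rw [IntermediateField.mem_fixingSubgroup_iff]
      intro x hx
      exact g.commutes ⟨x, hx⟩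
    rw [hfix, hH, Subgroup.mem_zpowers_iff] at h1
    obtain ⟨n, hn⟩ := h1
    refine ⟨g.restrictScalars F, fun x => rfl, ?_⟩
    rw [← hn, map_zpow, h.sψ, one_zpow]
  have hσF : σ ∈ IntermediateField.fixingSubgroup F₂ := by
    rw [hfix]
    exact Subgroup.mem_zpowers σ
  set σ' : M ≃ₐ[F₂] M := IntermediateField.fixingSubgroupEquiv F₂ ⟨σ, hσF⟩ with hσ'
  have hσ'x : ∀ x, σ' x = σ x := fun x => rfl
  -- an inert automorphism of `M / F₂` at a prime not above `R` is trivial
  have hkill : ∀ w : Pr M, (below w : Pr F) ∉ R → ∀ g : M ≃ₐ[F₂] M, IsInert w g → g = 1 := by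
    intro w hw g hg
    obtain ⟨g', hg'1, hg'2⟩ := hres g
    have h1 : IsInert w g' := by
      refine ⟨fun x => ?_, fun x hx => ?_⟩
      · change w.valuation M (g' x) = _
        rw [hg'1]
        exact hg.1 x
      · change w.valuation M (g' x - x) < 1
        rw [hg'1]
        exact hg.2 x hx
    have h2 : g' = 1 := h.inj _ (h.unr_theta w hw g' h1) hg'2
    ext x
    rw [← hg'1, h2]
    rfl
  have hRp' : ∀ w : Pr M, Above w p → (below w : Pr F) ∉ R := by
    intro w hw hR
    exact hRp _ hR ((RG.H.above_iff (K := F) w p).1 hw)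
  -- valuation of `a`
  have hva : ∀ w : Pr M, (∀ g : M ≃ₐ[F₂] M, IsDec w g) → (below w : Pr F) ∉ R →
      vl (below w : Pr F) a = 0 := by
    intro w hw hR
    have hdec : IsDec w σ := fun x => hw σ' x
    by_cases hwℓ : Above w ℓ
    · exact haℓ _ ((RG.H.above_iff (K := F) w ℓ).1 hwℓ)
    · by_contra hne
      exact haj _ hne (cross_dec h hdec hR hwℓ)
  set a₂ : F₂ˣ := emb F F₂ a with ha₂
  have ha₂v : ((a₂ : F₂ˣ) : F₂) = algebraMap F F₂ a := rfl
  have hamap : algebraMap F₂ M (a₂ : F₂) = algebraMap F M a := by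
    rw [ha₂v]
    exact (IsScalarTower.algebraMap_apply F F₂ M (a : F)).symm
  have hembM : emb F₂ M a₂ = emb F M a := by
    apply Units.ext
    exact hamap
  have hHyp : RG.H.Hyp F₂ M p := by
    refine ⟨hp, hp2, hrank, ⟨algebraMap F F₂ ζ, ?_⟩, fun w hw g hg => hkill w (hRp' w hw) g hg⟩
    exact hζ.map_of_injective (algebraMap F F₂).injective
  -- the norm theorem
  obtain ⟨b, hb⟩ := RG.hasse_norm p hp2 F₂ M hrank (algebraMap F F₂ ζ)
    (hζ.map_of_injective (algebraMap F F₂).injective)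
    (fun w hw g hg => hkill w (hRp' w hw) g hg) (a₂ : F₂) a₂.ne_zero
    (by
      intro w hwp hw
      by_cases hR : (below w : Pr F) ∈ R
      · refine ⟨1, one_ne_zero, ?_⟩
        have h1 := haR _ hR
        have h2 := (UU (below w : Pr F) 1).inv_mem h1
        obtain ⟨e, he, hev⟩ := RG.H.exists_e_val (K := F) w
        have h3 : algebraMap F₂ M (Algebra.norm F₂ (1 : M) / (a₂ : F₂)) - 1 =
            algebraMap F M (((a⁻¹ : Fˣ) : F) - 1) := by
          rw [map_one, map_div₀, hamap, map_one, map_sub, map_one, Units.val_inv_eq_inv_val,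
            map_inv₀, one_div]
        rw [h3, hev]
        refine pow_lt_one' (lt_of_le_of_lt h2.2 ?_) (by omega)
        rw [← WithZero.exp_zero, WithZero.exp_lt_exp]
        norm_num
      · have hv := hva w hw hR
        set u : Pr F₂ := below w with hu
        have hvu : vl u a₂ = 0 := by
          obtain ⟨e, he, hev⟩ := RG.H.exists_e (K := F₂) w
          obtain ⟨e', he', hev'⟩ := RG.H.exists_e (K := F) w
          have h1 := hev a₂
          rw [hembM, hev', hv, mul_zero] at h1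
          rcases mul_eq_zero.1 h1.symm with h2 | h2
          · exfalso
            have : e = 0 := by exact_mod_cast h2
            omega
          · exact h2
        have hup : ¬ Above u p := fun h1 => hwp ((RG.H.above_iff (K := F₂) w p).2 h1)
        have hNS : RG.H.NS M u := ⟨w, rfl, hw⟩
        have hun : ∀ w' : Pr M, (below w' : Pr F₂) = u → ∀ g : M ≃ₐ[F₂] M, IsInert w' g →
            g = 1 := by
          intro w' hw' g hg
          have h1 : w' = w := RG.H.ns_unique hNS hw' rfl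
          subst h1
          exact hkill _ hR g hg
        have h1 : a₂ ∈ RG.H.Nv M p u := by
          refine RG.H.units_le_Nv hHyp hNS hup hun ?_
          refine ⟨hvu, ?_⟩
          rw [Nat.cast_zero, neg_zero, WithZero.exp_zero]
          refine (Valuation.map_sub_le _ ?_ ?_)
          · rw [RG.H.vl_eq_zero.1 hvu]
          · rw [map_one]
        unfold RG.H.Nv at h1
        rw [if_neg hup, Subgroup.mem_sup] at h1
        obtain ⟨x, ⟨b, rfl⟩, y, hy, hxy⟩ := h1
        refine ⟨b, b.ne_zero, ?_⟩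
        obtain ⟨e, he, hev⟩ := RG.H.exists_e_val (K := F₂) w
        have h2 := (UU u 1).inv_mem hy
        have h3 : Algebra.norm F₂ (b : M) / (a₂ : F₂) = ((y⁻¹ : F₂ˣ) : F₂) := by
          have h4 : ((RG.H.nrm F₂ M b * y : F₂ˣ) : F₂) = (a₂ : F₂) := by rw [hxy]
          rw [← h4, Units.val_mul, RG.H.nrm_val, Units.val_inv_eq_inv_val]
          have h5 : Algebra.norm F₂ (b : M) ≠ 0 := by
            rw [Algebra.norm_ne_zero_iff]
            exact b.ne_zero
          field_simp
        rw [h3, ← map_one (algebraMap F₂ M), ← map_sub, hev]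
        refine pow_lt_one' (lt_of_le_of_lt h2.2 ?_) (by omega)
        rw [← WithZero.exp_zero, WithZero.exp_lt_exp]
        norm_num)
    (by
      intro w hwp hw
      refine ⟨1, ?_⟩
      have hv := hva w hw (hRp' w hwp)
      obtain ⟨e, he, hev⟩ := RG.H.exists_e (K := F) w
      have h1 := hev a
      rw [hv, mul_zero, RG.H.vl_eq_zero] at h1
      rw [map_one, map_one, one_pow, hamap]
      exact h1)
  have hb0 : b ≠ 0 := by
    rintro rfl
    rw [Algebra.norm_zero] at hb
    exact a₂.ne_zero hb.symm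
  refine ⟨Units.mk0 b hb0, ?_⟩
  have h1 := Algebra.norm_eq_prod_automorphisms F₂ b
  rw [hb, hamap] at h1
  rw [h1, Units.val_mk0]
  -- reindexing
  have hordσ' : orderOf σ' = p := by
    rw [hσ', MulEquiv.orderOf_eq, Subgroup.orderOf_mk, hord]
  have hcard : Fintype.card (M ≃ₐ[F₂] M) = p := by
    rw [← Nat.card_eq_fintype_card, IsGalois.card_aut_eq_finrank, hrank]
  have himg : (Finset.range p).image (fun i => σ' ^ i) = Finset.univ := by
    apply Finset.eq_univ_of_card
    rw [hcard, Finset.card_image_of_injOn, Finset.card_range]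
    intro i hi j hj hij
    have hi' : i < orderOf σ' := by rw [hordσ']; exact Finset.mem_range.1 hi
    have hj' : j < orderOf σ' := by rw [hordσ']; exact Finset.mem_range.1 hj
    exact pow_injOn_Iio_orderOf hi' hj' hij
  have hpow : ∀ i : ℕ, ∀ x : M, (σ' ^ i) x = (σ ^ i) x := by
    intro i
    induction i with
    | zero => intro x; rfl
    | succ i ih =>
      intro x
      rw [pow_succ, pow_succ, AlgEquiv.mul_apply, AlgEquiv.mul_apply, ih, hσ'x]
  rw [← himg, Finset.prod_image]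
  · exact Finset.prod_congr rfl fun i _ => (hpow i b).symm
  · intro i hi j hj hij
    have hi' : i < orderOf σ' := by rw [hordσ']; exact Finset.mem_range.1 hi
    have hj' : j < orderOf σ' := by rw [hordσ']; exact Finset.mem_range.1 hj
    exact pow_injOn_Iio_orderOf hi' hj' hij

private theorem C07c_shift {M : Type} [Field M] (n : ℕ) (f : ℕ → M) (h : f n = f 0) (h0 : f 0 ≠ 0) :
    ∏ t ∈ Finset.range n, f (t + 1) = ∏ t ∈ Finset.range n, f t := by
  have h1 := Finset.prod_range_succ f n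
  rw [Finset.prod_range_succ', h] at h1
  exact mul_right_cancel₀ h0 h1

private theorem C07c_shiftS {M : Type} [Field M] (n : ℕ) (f : ℕ → M) (h : f n = f 0) :
    ∑ t ∈ Finset.range n, f (t + 1) = ∑ t ∈ Finset.range n, f t := by
  have h1 := Finset.sum_range_succ f n
  rw [Finset.sum_range_succ', h] at h1
  exact add_right_cancel h1

private theorem C07c_H90 {F M : Type} [Field F] [Field M] [Algebra F M] {p : ℕ} (hp : 0 < p)
    {σ : M ≃ₐ[F] M} (hσ : σ ^ p = 1) (hinj : ∀ i < p, ∀ j < p, σ ^ i = σ ^ j → i = j) {x : M}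
    (hx : ∏ i ∈ Finset.range p, (σ ^ i) x = 1) : ∃ y : M, y ≠ 0 ∧ x * σ y = y := by
  let c : ℕ → M := fun i => ∏ j ∈ Finset.range i, (σ ^ j) x
  have hc0 : c 0 = 1 := by simp [c]
  have hcp : c p = 1 := hx
  have hcs : ∀ i, x * σ (c i) = c (i + 1) := by
    intro i
    simp only [c]
    rw [Finset.prod_range_succ', map_prod, mul_comm]
    congr 1
    refine Finset.prod_congr rfl fun j _ => ?_
    rw [pow_succ', AlgEquiv.mul_apply]
  obtain ⟨z, hz⟩ : ∃ z : M, ∑ i ∈ Finset.range p, c i * (σ ^ i) z ≠ 0 := by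
    by_contra hcon
    push Not at hcon
    have hli : LinearIndependent M (fun i : Fin p =>
        ((MonoidHomClass.toMonoidHom (σ ^ (i : ℕ)) : M →* M) : M → M)) := by
      refine LinearIndependent.comp (linearIndependent_monoidHom M M)
        (fun i : Fin p => (MonoidHomClass.toMonoidHom (σ ^ (i : ℕ)) : M →* M)) ?_
      intro i j hij
      refine Fin.ext (hinj i i.2 j j.2 ?_)
      ext z
      exact DFunLike.congr_fun hij z
    have h0 := Fintype.linearIndependent_iff.1 hli (fun i => c i) (by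
      funext z
      have h1 := hcon z
      rw [Finset.sum_range] at h1
      simpa [Finset.sum_apply] using h1) ⟨0, hp⟩
    simp only [hc0] at h0
    exact one_ne_zero h0
  refine ⟨_, hz, ?_⟩
  rw [map_sum, Finset.mul_sum]
  refine Eq.trans (Finset.sum_congr rfl fun i _ => ?_) (C07c_shiftS p (fun i => c i * (σ ^ i) z) ?_)
  · rw [map_mul, ← mul_assoc, hcs, pow_succ', AlgEquiv.mul_apply]
  · simp only [hc0, hcp, hσ, pow_zero]

private theorem C07c_ofAdd {n : ℕ} [NeZero n] (a : Multiplicative (ZMod n)) :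
    (Multiplicative.ofAdd (1 : ZMod n)) ^ (Multiplicative.toAdd a).val = a := by
  rw [← ofAdd_nsmul, nsmul_eq_mul, mul_one, ZMod.natCast_zmod_val, ofAdd_toAdd]

private theorem C07c_ofAdd_n (n : ℕ) : (Multiplicative.ofAdd (1 : ZMod n)) ^ n = 1 := by
  rw [← ofAdd_nsmul, nsmul_eq_mul, mul_one, ZMod.natCast_self, ofAdd_zero]

theorem cross_h90 {p k ℓ : ℕ} [Fact p.Prime] {F M : Type} [Field F] [NumberField F] [Field M]
    [NumberField M] [Algebra F M] [IsGalois F M] {R : Set (Pr F)} {A : Pr F → ZMod p}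
    {lam : (ZMod ℓ)ˣ →* Multiplicative (ZMod (p ^ k))} {Θ : (M ≃ₐ[F] M) →* Multiplicative (ZMod p)}
    {Ψ : (M ≃ₐ[F] M) →* Multiplicative (ZMod (p ^ k))} {σ τ : M ≃ₐ[F] M}
    (h : Cross p k ℓ R A lam Θ Ψ σ τ) (a : Fˣ) (β : Mˣ)
    (hβ : ∏ i ∈ Finset.range p, (σ ^ i) (β : M) = algebraMap F M a) :
    ∃ (c : Fˣ) (γ : Mˣ), BG p k σ τ a c β γ := by
  have hpp : p.Prime := Fact.out
  have hp0 : NeZero p := ⟨hpp.ne_zero⟩
  have hk : NeZero (p ^ k) := ⟨pow_ne_zero _ hpp.ne_zero⟩
  have comm : σ * τ = τ * σ := by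
    have h1 : (σ * τ) * (τ * σ)⁻¹ = 1 := h.inj _
      (by rw [map_mul, map_inv, map_mul, map_mul, mul_comm (Θ τ), mul_inv_cancel])
      (by rw [map_mul, map_inv, map_mul, map_mul, mul_comm (Ψ τ), mul_inv_cancel])
    exact mul_inv_eq_one.mp h1
  have hσp : σ ^ p = 1 := h.inj _ (by rw [map_pow, h.sθ, C07c_ofAdd_n])
    (by rw [map_pow, h.sψ, one_pow])
  have hτp : τ ^ (p ^ k) = 1 := h.inj _ (by rw [map_pow, h.tθ, one_pow])
    (by rw [map_pow, h.tψ, C07c_ofAdd_n])
  have hinj : ∀ i < p, ∀ j < p, σ ^ i = σ ^ j → i = j := by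
    intro i hi j hj hij
    have h1 := congrArg (fun g => Multiplicative.toAdd (Θ g)) hij
    simp only [map_pow, h.sθ, toAdd_pow, toAdd_ofAdd, nsmul_eq_mul, mul_one] at h1
    rw [ZMod.natCast_eq_natCast_iff', Nat.mod_eq_of_lt hi, Nat.mod_eq_of_lt hj] at h1
    exact h1
  have hgen : ∀ g : M ≃ₐ[F] M, ∃ i j : ℕ, g = σ ^ i * τ ^ j := by
    intro g
    refine ⟨(Multiplicative.toAdd (Θ g)).val, (Multiplicative.toAdd (Ψ g)).val, ?_⟩
    have h1 : g * (σ ^ (Multiplicative.toAdd (Θ g)).val *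
        τ ^ (Multiplicative.toAdd (Ψ g)).val)⁻¹ = 1 := h.inj _
      (by rw [map_mul, map_inv, map_mul, map_pow, map_pow, h.sθ, h.tθ, one_pow, mul_one,
        C07c_ofAdd, mul_inv_cancel])
      (by rw [map_mul, map_inv, map_mul, map_pow, map_pow, h.sψ, h.tψ, one_pow, one_mul,
        C07c_ofAdd, mul_inv_cancel])
    exact mul_inv_eq_one.mp h1
  have hβ0 : (β : M) ≠ 0 := β.ne_zero
  have hτσ : ∀ z : M, τ (σ z) = σ (τ z) := by
    intro z
    rw [← AlgEquiv.mul_apply, ← AlgEquiv.mul_apply, comm]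
  have hpowc : ∀ (i : ℕ) (z : M), (σ ^ i) (τ z) = τ ((σ ^ i) z) := by
    intro i z
    have hc : (σ ^ i) * τ = τ * σ ^ i := ((show Commute σ τ from comm).pow_left i)
    rw [← AlgEquiv.mul_apply, ← AlgEquiv.mul_apply, hc]
  have hpowt : ∀ (i : ℕ) (z : M), (τ ^ i) (σ z) = σ ((τ ^ i) z) := by
    intro i z
    have hc : (τ ^ i) * σ = σ * τ ^ i := ((show Commute τ σ from comm.symm).pow_left i)
    rw [← AlgEquiv.mul_apply, ← AlgEquiv.mul_apply, hc]
  have hx : ∏ i ∈ Finset.range p, (σ ^ i) (τ (β : M) / β) = 1 := by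
    have h1 : ∏ i ∈ Finset.range p, (σ ^ i) (τ (β : M)) = algebraMap F M a := by
      rw [Finset.prod_congr rfl fun i _ => hpowc i (β : M), ← map_prod, hβ, AlgEquiv.commutes]
    simp only [map_div₀]
    rw [Finset.prod_div_distrib, h1, hβ, div_self]
    exact (map_ne_zero (algebraMap F M)).mpr a.ne_zero
  obtain ⟨y, hy0, hy⟩ := C07c_H90 hpp.pos hσp hinj hx
  have hσy : σ y ≠ 0 := (map_ne_zero σ).mpr hy0
  let γ : Mˣ := (Units.mk0 y hy0)⁻¹
  have hγ : (γ : M) = y⁻¹ := rfl
  have hrel : τ (β : M) * γ = σ (γ : M) * β := by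
    rw [hγ, map_inv₀]
    field_simp
    have h2 : τ (β : M) * σ y = y * β := by
      have h3 := congrArg (fun t => t * (β : M)) hy
      rw [← h3]
      field_simp
    linear_combination h2
  let P : M := ∏ t ∈ Finset.range (p ^ k), (τ ^ t) (γ : M)
  have hP0 : P ≠ 0 := Finset.prod_ne_zero_iff.mpr fun t _ => (map_ne_zero _).mpr γ.ne_zero
  have hτP : τ P = P := by
    simp only [P]
    rw [map_prod]
    refine Eq.trans (Finset.prod_congr rfl fun t _ => ?_)
      (C07c_shift (p ^ k) (fun t => (τ ^ t) (γ : M)) ?_ ?_)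
    · rw [pow_succ', AlgEquiv.mul_apply]
    · simp only [hτp, pow_zero]
    · simp only [pow_zero]
      exact γ.ne_zero
  have hB : ∏ t ∈ Finset.range (p ^ k), (τ ^ t) (τ (β : M)) =
      ∏ t ∈ Finset.range (p ^ k), (τ ^ t) (β : M) := by
    refine Eq.trans (Finset.prod_congr rfl fun t _ => ?_)
      (C07c_shift (p ^ k) (fun t => (τ ^ t) (β : M)) ?_ ?_)
    · rw [pow_succ, AlgEquiv.mul_apply]
    · simp only [hτp, pow_zero]
    · simp only [pow_zero]
      exact β.ne_zero
  have hσP : σ P = P := by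
    have h1 : ∀ t, (τ ^ t) (τ (β : M)) * (τ ^ t) (γ : M) = σ ((τ ^ t) (γ : M)) * (τ ^ t) (β : M) := by
      intro t
      rw [← map_mul, hrel, map_mul, hpowt]
    have h2 : (∏ t ∈ Finset.range (p ^ k), (τ ^ t) (τ (β : M))) * P =
        σ P * ∏ t ∈ Finset.range (p ^ k), (τ ^ t) (β : M) := by
      simp only [P]
      rw [map_prod, ← Finset.prod_mul_distrib, ← Finset.prod_mul_distrib]
      exact Finset.prod_congr rfl fun t _ => h1 t
    rw [hB, mul_comm] at h2
    exact (mul_right_cancel₀ (Finset.prod_ne_zero_iff.mpr fun t _ =>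
      (map_ne_zero _).mpr β.ne_zero) h2).symm
  have hfix : ∀ g : M ≃ₐ[F] M, g P = P := by
    intro g
    obtain ⟨i, j, rfl⟩ := hgen g
    have e1 : ∀ i, (σ ^ i) P = P := by
      intro i
      induction i with
      | zero => rfl
      | succ i ih => rw [pow_succ, AlgEquiv.mul_apply, hσP, ih]
    have e2 : ∀ i, (τ ^ i) P = P := by
      intro i
      induction i with
      | zero => rfl
      | succ i ih => rw [pow_succ, AlgEquiv.mul_apply, hτP, ih]
    rw [AlgEquiv.mul_apply, e2, e1]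
  obtain ⟨c, hc⟩ := (IsGalois.mem_range_algebraMap_iff_fixed P).mpr hfix
  have hc0 : c ≠ 0 := by
    rintro rfl
    rw [map_zero] at hc
    exact hP0 hc.symm
  exact ⟨Units.mk0 c hc0, γ, hβ, hc.symm, hrel⟩

end Pool.Agent.RGK
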