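import Mathlib

/-!
RG v4, row C08: two elementary facts on integer valued functions on `ZMod p × ZMod P`.

`comb_unr`: `a = i.val`, `b = j.val`. `H x y := ∑ s < b, m x (y + s) + ∑ t < a, n (x + t) (y + b)`. Then
`H x (y + 1) - H x y = (m x (y + b) - m x y) + ∑ t < a, (n (x + t) (y + b + 1) - n (x + t) (y + b))`, and the
last sum is `∑ t < a, (m (x + t + 1) (y + b) - m (x + t) (y + b)) = m (x + a) (y + b) - m x (y + b)` by
`h1`; since `m (x + a) (y + b) = m x y` (`hmφ`, `a = i`, `b = j` in `ZMod`) the difference is `0`. So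
`H 0 y` does not depend on `y`; summing over `y : ZMod P`: `b * C + ∑ t < a, ν t = P * H 0 0`, where
`ν x := ∑ y, n x y` (translation of the summation variable). `ν (x + i) = ν x` by `hnφ`. If `i = 0` then
`a = 0` and we are done. Otherwise `i` generates `ZMod p`, `ν` is constant, `p * ν 0 = ∑ x, ν x = P * A`,
so `ν 0 = (P / p) * A` (`P = p * (P / p)`), and the sum over `t` is `a * (P / p) * A`.

`comb_ram`: `h y := ∑ s < b, m (y + s)` is `p * h' y`, `h (y + 1) - h y = m (y + b) - m y = 0`, so `h y`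
is constant, `b * (p * C) = ∑ y, h y = P * h 0 = P * p * h' 0`; divide by `p`.
-/

set_option autoImplicit false

namespace Pool.Agent.RGK

private theorem C08_const {P : ℕ} [NeZero P] (H : ZMod P → ℤ) (hH : ∀ y, H (y + 1) = H y) (y : ZMod P) :
    H y = H 0 := by
  have key : ∀ k : ℕ, H (k : ZMod P) = H 0 := by
    intro k
    induction k with
    | zero => simp
    | succ k ih => rw [Nat.cast_succ, hH, ih]
  have := key y.val
  rwa [ZMod.natCast_zmod_val] at this

private theorem C08_tel {P : ℕ} (f : ZMod P → ℤ) (y : ZMod P) (b : ℕ) :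
    ∑ s ∈ Finset.range b, f (y + 1 + s) - ∑ s ∈ Finset.range b, f (y + s) = f (y + b) - f y := by
  rw [← Finset.sum_sub_distrib]
  have h := Finset.sum_range_sub (fun s : ℕ => f (y + (s : ZMod P))) b
  simp only [Nat.cast_zero, add_zero] at h
  rw [← h]
  refine Finset.sum_congr rfl fun s _ => ?_
  have e : y + 1 + (s : ZMod P) = y + ((s + 1 : ℕ) : ZMod P) := by push_cast; ring
  rw [e]

private theorem C08_shift {P : ℕ} [NeZero P] (f : ZMod P → ℤ) (c : ZMod P) :
    ∑ y, f (y + c) = ∑ y, f y :=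
  Fintype.sum_equiv (Equiv.addRight c) _ _ (fun _ => rfl)

theorem comb_unr {p P : ℕ} [NeZero P] (hp : p.Prime) (hP : p ∣ P) (n m : ZMod p → ZMod P → ℤ)
    (A C : ℤ) (i : ZMod p) (j : ZMod P)
    (h1 : ∀ x y, n x (y + 1) - n x y = m (x + 1) y - m x y)
    (hn : haveI : NeZero p := ⟨hp.ne_zero⟩; ∀ y, ∑ x, n x y = A) (hm : ∀ x, ∑ y, m x y = C)
    (hnφ : ∀ x y, n (x + i) (y + j) = n x y) (hmφ : ∀ x y, m (x + i) (y + j) = m x y) :
    (P : ℤ) ∣ (j.val : ℤ) * C + (i.val : ℤ) * ((P / p : ℕ) : ℤ) * A := by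
  haveI : NeZero p := ⟨hp.ne_zero⟩
  haveI : Fact p.Prime := ⟨hp⟩
  have hbj : ((j.val : ℕ) : ZMod P) = j := ZMod.natCast_zmod_val j
  have hai : ((i.val : ℕ) : ZMod p) = i := ZMod.natCast_zmod_val i
  have hH : ∀ y : ZMod P, (∑ s ∈ Finset.range j.val, m 0 (y + 1 + s) +
      ∑ t ∈ Finset.range i.val, n t (y + 1 + j.val)) =
      ∑ s ∈ Finset.range j.val, m 0 (y + s) + ∑ t ∈ Finset.range i.val, n t (y + j.val) := by
    intro y
    have e1 := C08_tel (fun z => m 0 z) y j.val
    have e2 : ∑ t ∈ Finset.range i.val, n t (y + 1 + j.val) -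
        ∑ t ∈ Finset.range i.val, n t (y + j.val) =
        m i.val (y + j.val) - m 0 (y + j.val) := by
      rw [← Finset.sum_sub_distrib]
      have h := Finset.sum_range_sub (fun t : ℕ => m (t : ZMod p) (y + j.val)) i.val
      simp only [Nat.cast_zero] at h
      rw [← h]
      refine Finset.sum_congr rfl fun t _ => ?_
      have e : y + 1 + (j.val : ZMod P) = (y + j.val) + 1 := by ring
      rw [e, h1, Nat.cast_succ]
    have e3 : m i.val (y + j.val) = m 0 y := by
      have := hmφ 0 y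
      rw [zero_add] at this
      rw [hai, hbj, this]
    linarith
  have hc := C08_const (fun y : ZMod P => ∑ s ∈ Finset.range j.val, m 0 (y + s) +
    ∑ t ∈ Finset.range i.val, n t (y + j.val)) hH
  have hs : ∑ y : ZMod P, (∑ s ∈ Finset.range j.val, m 0 (y + s) +
      ∑ t ∈ Finset.range i.val, n t (y + j.val)) =
      (P : ℤ) * (∑ s ∈ Finset.range j.val, m 0 (0 + s) +
      ∑ t ∈ Finset.range i.val, n t (0 + j.val)) := by
    rw [Finset.sum_congr rfl fun y _ => hc y]
    rw [Finset.sum_const, Finset.card_univ, ZMod.card, nsmul_eq_mul]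
  have hs1 : ∑ y : ZMod P, (∑ s ∈ Finset.range j.val, m 0 (y + s) +
      ∑ t ∈ Finset.range i.val, n t (y + j.val)) =
      j.val * C + ∑ t ∈ Finset.range i.val, ∑ y, n t y := by
    rw [Finset.sum_add_distrib, Finset.sum_comm, Finset.sum_comm (s := Finset.univ)]
    congr 1
    · have e4 : ∀ s ∈ Finset.range j.val, ∑ y : ZMod P, m 0 (y + (s : ZMod P)) = C :=
        fun s _ => (C08_shift (fun z => m 0 z) (s : ZMod P)).trans (hm 0)
      rw [Finset.sum_congr rfl e4]
      rw [Finset.sum_const, Finset.card_range, nsmul_eq_mul]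
    · exact Finset.sum_congr rfl fun t _ => C08_shift (fun z => n t z) (j.val : ZMod P)
  have hν : ∀ x, ∑ y, n (x + i) y = ∑ y, n x y := by
    intro x
    rw [← C08_shift (fun z => n (x + i) z) j]
    exact Finset.sum_congr rfl fun y _ => hnφ x y
  by_cases hi : i = 0
  · have : i.val = 0 := by rw [hi, ZMod.val_zero]
    rw [this] at hs hs1 ⊢
    simp only [Finset.range_zero, Finset.sum_empty, add_zero, Nat.cast_zero, zero_mul] at hs hs1 ⊢
    exact ⟨_, hs1.symm.trans hs⟩
  · -- ν is constant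
    have hk : ∀ k : ℕ, ∀ x, ∑ y, n (x + k * i) y = ∑ y, n x y := by
      intro k
      induction k with
      | zero => intro x; simp
      | succ k ih =>
        intro x
        have e : x + ((k + 1 : ℕ) : ZMod p) * i = (x + k * i) + i := by push_cast; ring
        rw [e, hν, ih]
    have hcst : ∀ x, ∑ y, n x y = ∑ y, n 0 y := by
      intro x
      have := hk (x * i⁻¹).val 0
      rw [ZMod.natCast_zmod_val, mul_assoc, inv_mul_cancel₀ hi, mul_one, zero_add] at this
      exact this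
    have hsum : (p : ℤ) * ∑ y, n 0 y = (P : ℤ) * A := by
      have h2 : ∑ x : ZMod p, ∑ y : ZMod P, n x y = (p : ℤ) * ∑ y, n 0 y := by
        rw [Finset.sum_congr rfl fun x _ => hcst x]
        rw [Finset.sum_const, Finset.card_univ, ZMod.card, nsmul_eq_mul]
      have h3 : ∑ x : ZMod p, ∑ y : ZMod P, n x y = (P : ℤ) * A := by
        rw [Finset.sum_comm, Finset.sum_congr rfl fun y _ => hn y]
        rw [Finset.sum_const, Finset.card_univ, ZMod.card, nsmul_eq_mul]
      rw [← h2, h3]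
    have hPp : (P : ℤ) = p * ((P / p : ℕ) : ℤ) := by
      exact_mod_cast (Nat.mul_div_cancel' hP).symm
    have hν0 : ∑ y, n 0 y = ((P / p : ℕ) : ℤ) * A := by
      have hp0 : (p : ℤ) ≠ 0 := by exact_mod_cast hp.ne_zero
      apply mul_left_cancel₀ hp0
      rw [hsum]
      rw [← mul_assoc, ← hPp]
    refine ⟨∑ s ∈ Finset.range j.val, m 0 (0 + s) +
      ∑ t ∈ Finset.range i.val, n t (0 + j.val), ?_⟩
    rw [← hs, hs1]
    have e5 : ∀ t ∈ Finset.range i.val, ∑ y, n (t : ZMod p) y = ((P / p : ℕ) : ℤ) * A :=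
      fun t _ => (hcst t).trans hν0
    rw [Finset.sum_congr rfl e5]
    rw [Finset.sum_const, Finset.card_range, nsmul_eq_mul]
    ring

theorem comb_ram {p P : ℕ} [NeZero P] (hp : p.Prime) (m : ZMod P → ℤ) (C : ℤ) (j : ZMod P)
    (hm : ∑ y, m y = p * C) (hmφ : ∀ y, m (y + j) = m y)
    (hd : ∀ y, (p : ℤ) ∣ ∑ s ∈ Finset.range j.val, m (y + s)) :
    (P : ℤ) ∣ (j.val : ℤ) * C := by
  have hbj : ((j.val : ℕ) : ZMod P) = j := ZMod.natCast_zmod_val j
  have hH : ∀ y : ZMod P, ∑ s ∈ Finset.range j.val, m (y + 1 + s) =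
      ∑ s ∈ Finset.range j.val, m (y + s) := by
    intro y
    have e1 := C08_tel m y j.val
    rw [hbj, hmφ, sub_self] at e1
    linarith
  have hc := C08_const (fun y : ZMod P => ∑ s ∈ Finset.range j.val, m (y + s)) hH
  have hs : ∑ y : ZMod P, (∑ s ∈ Finset.range j.val, m (y + s)) =
      (P : ℤ) * (∑ s ∈ Finset.range j.val, m (0 + s)) := by
    rw [Finset.sum_congr rfl fun y _ => hc y]
    rw [Finset.sum_const, Finset.card_univ, ZMod.card, nsmul_eq_mul]
  have hs1 : ∑ y : ZMod P, (∑ s ∈ Finset.range j.val, m (y + s)) = j.val * (p * C) := by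
    rw [Finset.sum_comm]
    have e4 : ∀ s ∈ Finset.range j.val, ∑ y : ZMod P, m (y + (s : ZMod P)) = p * C :=
      fun s _ => (C08_shift m (s : ZMod P)).trans hm
    rw [Finset.sum_congr rfl e4]
    rw [Finset.sum_const, Finset.card_range, nsmul_eq_mul]
  obtain ⟨h', hh⟩ := hd 0
  have hp0 : (p : ℤ) ≠ 0 := by exact_mod_cast hp.ne_zero
  refine ⟨h', ?_⟩
  apply mul_left_cancel₀ hp0
  rw [hs, hh] at hs1
  linarith

end Pool.Agent.RGK
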