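import Mathlib
import Pool.Agent.Lib.RG.H03
import Pool.Agent.Lib.RGK.CXDefs
import Pool.Agent.Lib.RGK.B1
import Pool.Agent.Lib.RGK.B2
import Pool.Agent.Lib.RGK.C00
import Pool.Agent.Lib.RGK.C08

/-!
RG v4, row C09: the local claim at the unramified primes.

Let `w` be a prime of `M` above `v` (`H.exists_above`), `φ` a Frobenius element at `w` (`exists_frobK`):
`Θ φ = A v`, `Ψ φ = jj lam (nm v)`. The group is commutative and `σ ^ p = 1`, `τ ^ (p ^ k) = 1` (`inj`).
Put `g x y := σ ^ x.val * τ ^ y.val` for `x : ZMod p`, `y : ZMod (p ^ k)` (`Θ (g x y) = x`, `Ψ (g x y) = y`,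
so `g (x + x') (y + y') = g x y * g x' y'` and `φ = g (A v) (jj ..)` by `inj`), and
`n x y := vl w (g x y β)`, `m x y := vl w (g x y γ)` (as units: `Units.map`, or write the valuation of
`g β` with `H.val_eq`). The relation `rel` of `BG`, after applying `g x y`, gives
`n x (y + 1) + m x y = m (x + 1) y + n x y`. `nβ` and `nγ`, after applying `g x y`, give
`∑ x, n x y = vl w a` and `∑ y, m x y = vl w c`, and `vl w (emb a) = vl v a`, `vl w (emb c) = vl v c`,
because the inertia group at `w` is trivial (`H.e_one`, H03; `unr_theta`, `unr_psi`, `inj`).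
`φ` is in the decomposition group of `w`: `n`, `m` are invariant under translation by
`(A v, jj lam (nm v))`. Apply `comb_unr` (C08) with `P = p ^ k`, `P / p = p ^ (k - 1)`.
-/

set_option autoImplicit false

namespace Pool.Agent.RGK

open NumberField IsDedekindDomain
open Pool.Agent.RG (Above IsDec IsInert IsFrob)
open Pool.Agent.RG.H (Pr vl UU PP emb below)

section C09aux

variable {F M : Type} [Field F] [NumberField F] [Field M] [NumberField M] [Algebra F M]

private noncomputable def C09_act (g : M ≃ₐ[F] M) : Mˣ →* Mˣ := Units.map (g : M →* M)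

private theorem C09_act_val (g : M ≃ₐ[F] M) (u : Mˣ) : ((C09_act g u : Mˣ) : M) = g (u : M) := rfl

private theorem C09_act_mul (g g' : M ≃ₐ[F] M) (u : Mˣ) :
    C09_act (g * g') u = C09_act g (C09_act g' u) := Units.ext rfl

private theorem C09_vl_act {w : Pr M} {g : M ≃ₐ[F] M} (hg : IsDec w g) (u : Mˣ) :
    vl w (C09_act g u) = vl w u := by
  unfold vl
  rw [C09_act_val]
  have := hg (u : M)
  rw [AlgEquiv.smul_def] at this
  rw [this]

private theorem C09_act_emb (g : M ≃ₐ[F] M) (a : Fˣ) : C09_act g (emb F M a) = emb F M a := by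
  apply Units.ext
  rw [C09_act_val, RG.H.emb_val, AlgEquiv.commutes]

private theorem C09_vl_prod (w : Pr M) (s : Finset ℕ) (f : ℕ → Mˣ) :
    vl w (∏ i ∈ s, f i) = ∑ i ∈ s, vl w (f i) := by
  classical
  induction s using Finset.induction_on with
  | empty => simp
  | insert a s ha ih => rw [Finset.prod_insert ha, Finset.sum_insert ha, RG.H.vl_mul, ih]

private theorem C09_sum_range {P : ℕ} [NeZero P] (f : ZMod P → ℤ) :
    ∑ x, f x = ∑ i ∈ Finset.range P, f (i : ZMod P) := by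
  refine Finset.sum_nbij' (fun x => x.val) (fun i => (i : ZMod P)) ?_ ?_ ?_ ?_ ?_
  · intro x _
    exact Finset.mem_range.2 (ZMod.val_lt x)
  · intro i _
    exact Finset.mem_univ _
  · intro x _
    exact ZMod.natCast_zmod_val x
  · intro i hi
    exact ZMod.val_cast_of_lt (Finset.mem_range.1 hi)
  · intro x _
    rw [ZMod.natCast_zmod_val]

end C09aux

theorem claim_unr {p k ℓ : ℕ} [Fact p.Prime] (hk : 0 < k) {F M : Type} [Field F] [NumberField F]
    [Field M] [NumberField M] [Algebra F M] [IsGalois F M] {R : Set (Pr F)} {A : Pr F → ZMod p}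
    {lam : (ZMod ℓ)ˣ →* Multiplicative (ZMod (p ^ k))} {Θ : (M ≃ₐ[F] M) →* Multiplicative (ZMod p)}
    {Ψ : (M ≃ₐ[F] M) →* Multiplicative (ZMod (p ^ k))} {σ τ : M ≃ₐ[F] M}
    (h : Cross p k ℓ R A lam Θ Ψ σ τ) {a c : Fˣ} {β γ : Mˣ} (hB : BG p k σ τ a c β γ) {v : Pr F}
    (hv : v ∉ R) (hℓ : ¬ Above v ℓ) :
    jj lam (nm v) * ((vl v c : ℤ) : ZMod (p ^ k)) +
      ((A v).val : ZMod (p ^ k)) * (p : ZMod (p ^ k)) ^ (k - 1) * ((vl v a : ℤ) : ZMod (p ^ k)) = 0 := by
  classical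
  have hp : p.Prime := Fact.out
  haveI : NeZero p := ⟨hp.ne_zero⟩
  haveI : NeZero (p ^ k) := ⟨pow_ne_zero _ hp.ne_zero⟩
  obtain ⟨w, hw⟩ := RG.H.exists_above (L := M) v
  obtain ⟨φ, hφ⟩ := exists_frobK (K := F) w
  have hRw : (below w : Pr F) ∉ R := by rw [hw]; exact hv
  have hℓw : ¬ Above w ℓ := by
    rw [RG.H.above_iff (K := F) w ℓ, hw]
    exact hℓ
  have hΘφ := h.frob_theta w hRw φ hφ
  have hΨφ := h.frob_psi w hℓw φ hφ
  rw [hw] at hΘφ hΨφ
  have hinert : ∀ g : M ≃ₐ[F] M, IsInert w g → g = 1 := fun g hg =>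
    h.inj g (h.unr_theta w hRw g hg) (h.unr_psi w hℓw g hg)
  have hext : ∀ g g' : M ≃ₐ[F] M, Θ g = Θ g' → Ψ g = Ψ g' → g = g' := by
    intro g g' h1 h2
    have : g * g'⁻¹ = 1 := h.inj _ (by rw [map_mul, map_inv, h1, mul_inv_cancel])
      (by rw [map_mul, map_inv, h2, mul_inv_cancel])
    exact mul_inv_eq_one.1 this
  have hΘσ : ∀ i : ℕ, Θ (σ ^ i) = Multiplicative.ofAdd (i : ZMod p) := by
    intro i
    rw [map_pow, h.sθ, ← ofAdd_nsmul, nsmul_eq_mul, mul_one]
  have hΨτ : ∀ i : ℕ, Ψ (τ ^ i) = Multiplicative.ofAdd (i : ZMod (p ^ k)) := by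
    intro i
    rw [map_pow, h.tψ, ← ofAdd_nsmul, nsmul_eq_mul, mul_one]
  have hΨσ : ∀ i : ℕ, Ψ (σ ^ i) = 1 := by
    intro i
    rw [map_pow, h.sψ, one_pow]
  have hΘτ : ∀ i : ℕ, Θ (τ ^ i) = 1 := by
    intro i
    rw [map_pow, h.tθ, one_pow]
  -- the elements of the group
  let g : ZMod p → ZMod (p ^ k) → (M ≃ₐ[F] M) := fun x y => σ ^ x.val * τ ^ y.val
  have hgΘ : ∀ x y, Θ (g x y) = Multiplicative.ofAdd x := by
    intro x y
    change Θ (σ ^ x.val * τ ^ y.val) = _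
    rw [map_mul, hΘσ, hΘτ, mul_one, ZMod.natCast_zmod_val]
  have hgΨ : ∀ x y, Ψ (g x y) = Multiplicative.ofAdd y := by
    intro x y
    change Ψ (σ ^ x.val * τ ^ y.val) = _
    rw [map_mul, hΨσ, hΨτ, one_mul, ZMod.natCast_zmod_val]
  have hgτ : ∀ x y, g x y * τ = g x (y + 1) := by
    intro x y
    apply hext
    · rw [map_mul, hgΘ, hgΘ, h.tθ, mul_one]
    · rw [map_mul, hgΨ, hgΨ, h.tψ, ofAdd_add]
  have hgσ : ∀ x y, g x y * σ = g (x + 1) y := by
    intro x y
    apply hext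
    · rw [map_mul, hgΘ, hgΘ, h.sθ, ofAdd_add]
    · rw [map_mul, hgΨ, hgΨ, h.sψ, mul_one]
  have hgσi : ∀ (i : ℕ) y, g 0 y * σ ^ i = g (i : ZMod p) y := by
    intro i y
    apply hext
    · rw [map_mul, hgΘ, hgΘ, hΘσ, ← ofAdd_add, zero_add]
    · rw [map_mul, hgΨ, hgΨ, hΨσ, mul_one]
  have hgτi : ∀ x (i : ℕ), g x 0 * τ ^ i = g x (i : ZMod (p ^ k)) := by
    intro x i
    apply hext
    · rw [map_mul, hgΘ, hgΘ, hΘτ, mul_one]
    · rw [map_mul, hgΨ, hgΨ, hΨτ, ← ofAdd_add, zero_add]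
  have hgφ : ∀ x y, g (x + A v) (y + jj lam (nm v)) = φ * g x y := by
    intro x y
    apply hext
    · rw [hgΘ, map_mul, hgΘ, hΘφ, ← ofAdd_add, add_comm]
    · rw [hgΨ, map_mul, hgΨ, hΨφ, ← ofAdd_add, add_comm]
  have hnβ : ∏ i ∈ Finset.range p, C09_act (σ ^ i) β = emb F M a := by
    apply Units.ext
    rw [Units.coe_prod, RG.H.emb_val, ← hB.nβ]
    rfl
  have hnγ : ∏ i ∈ Finset.range (p ^ k), C09_act (τ ^ i) γ = emb F M c := by
    apply Units.ext
    rw [Units.coe_prod, RG.H.emb_val, ← hB.nγ]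
    rfl
  have hrel : C09_act τ β * γ = C09_act σ γ * β := by
    apply Units.ext
    exact hB.rel
  have key := comb_unr (P := p ^ k) hp (dvd_pow_self p hk.ne')
    (fun x y => vl w (C09_act (g x y) β)) (fun x y => vl w (C09_act (g x y) γ))
    (vl v a) (vl v c) (A v) (jj lam (nm v)) ?_ ?_ ?_ ?_ ?_
  · have h2 := (ZMod.intCast_zmod_eq_zero_iff_dvd _ (p ^ k)).2 key
    have h3 : p ^ k / p = p ^ (k - 1) := by
      obtain ⟨k', rfl⟩ : ∃ k', k = k' + 1 := ⟨k - 1, by omega⟩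
      rw [Nat.add_sub_cancel, pow_succ, Nat.mul_div_cancel _ hp.pos]
    rw [h3] at h2
    push_cast at h2
    rw [ZMod.natCast_zmod_val] at h2
    exact h2
  · intro x y
    have h2 := congrArg (fun u => vl w (C09_act (g x y) u)) hrel
    simp only [map_mul, RG.H.vl_mul, ← C09_act_mul, hgτ, hgσ] at h2
    linarith
  · intro y
    rw [C09_sum_range]
    have h2 := congrArg (fun u => vl w (C09_act (g 0 y) u)) hnβ
    simp only [map_prod, C09_vl_prod, ← C09_act_mul, hgσi, C09_act_emb] at h2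
    rw [RG.H.e_one w hinert, hw] at h2
    exact h2
  · intro x
    rw [C09_sum_range]
    have h2 := congrArg (fun u => vl w (C09_act (g x 0) u)) hnγ
    simp only [map_prod, C09_vl_prod, ← C09_act_mul, hgτi, C09_act_emb] at h2
    rw [RG.H.e_one w hinert, hw] at h2
    exact h2
  · intro x y
    rw [hgφ, C09_act_mul, C09_vl_act hφ.1]
  · intro x y
    rw [hgφ, C09_act_mul, C09_vl_act hφ.1]

end Pool.Agent.RGK
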