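import Mathlib
import Pool.Agent.Lib.RG.G04
import Pool.Agent.Lib.RG.H03
import Pool.Agent.Lib.RGK.CXDefs
import Pool.Agent.Lib.RGK.B1
import Pool.Agent.Lib.RGK.B2
import Pool.Agent.Lib.RGK.C00
import Pool.Agent.Lib.RGK.C08

/-!
RG v4, row C10: the local claim at the primes ramified in `L / F`.

Let `w` be a prime of `M` above `v`; `σ` is inert at `w`. `I`, the inertia group at `w`, is the group
generated by `σ` (`unr_psi`: an inert `g` has `Ψ g = 1`, so it is a power of `σ`), of order `p`: so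
`vl w (emb x) = p * vl v x` for `x : Fˣ` (ramification index = order of the inertia group,
`Ideal.card_inertia_eq_ramificationIdxIn`, compare `H.exists_e`, `H.e_one`). Let `π` be an element with
`vl w π = 1`, `θ := σ π / π`. For `x : Mˣ`: `σ x / x ≡ θ ^ (vl w x)` modulo `w` (write
`x = π ^ (vl w x) * u`, `σ u ≡ u`; `ratio_U1` in G04). `θ ^ p ≡ 1` (`1 = σ ^ p π / π ≡ θ ^ p`), and
`θ ≢ 1` modulo `w`: otherwise `σ` would be wildly ramified, `σ = 1` (`wild_of_unif`, `wild_eq_one` in G04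
are stated for `≃ₐ[ℚ]`: use `AlgEquiv.restrictScalars ℚ`; `w` is not above `p`). So
`θ ^ s ≡ 1` iff `p ∣ s`.

1. For all `g`: `n g := vl w (g β)`. `vl w (g σ γ) = vl w (σ (g γ)) = vl w (g γ)`, so `rel` gives
`n (g τ) = n g`, and `n (g σ) = n g`, `∑ i < p, n (g σ ^ i) = vl w (emb a) = 0`; so `n g = 0`: all `g β`
are units at `w`.
2. `rel`, after `g`: `(g τ) β / (g β) = σ (g γ) / (g γ) ≡ θ ^ (m g)`, `m g := vl w (g γ)`. Iterating:
`(g τ ^ b) β / (g β) ≡ θ ^ (∑ s < b, m (g τ ^ s))`.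
3. `φ` a Frobenius element at `w` (`exists_frobK`), `b := (jj lam (nm v)).val`,
`φ = σ ^ i * τ ^ b` with `i = (Θ φ).val` (`frob_psi`, `inj`). With `q = nm v`:
`(g τ ^ b) β ≡ σ ^ i ((g τ ^ b) β) = φ (g β) ≡ (g β) ^ q` (`σ` is inert, the elements are units).
4. `∏ i < p, σ ^ i (g β) = g a = a ≡ 1` modulo `w`, and the left side is `≡ (g β) ^ p`. `p ∣ q - 1`, so
`(g β) ^ (q - 1) ≡ 1`. With 2 and 3: `θ ^ (∑ s < b, m (g τ ^ s)) ≡ 1`, so `p` divides the sum.
5. `∑ t < p ^ k, m (g τ ^ t) = vl w (emb c) = p * vl v c` (`nγ`), and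
`m (g τ ^ b) = vl w (σ ^ i τ ^ b g γ) = vl w (φ (g γ)) = m g`. Apply `comb_ram` (C08) to
`m y := vl w (τ ^ y.val γ)`, `j = jj lam (nm v)`, `P = p ^ k`.
-/

set_option autoImplicit false

namespace Pool.Agent.RGK

open NumberField IsDedekindDomain
open Pool.Agent.RG (Above IsDec IsInert IsFrob)
open Pool.Agent.RG.H (Pr vl UU PP emb below)

namespace C10aux

open Pool.Agent.RG.G04aux (U1)

section general

variable {F M : Type} [Field F] [Field M] [NumberField M] [Algebra F M]
  {w : Pr M}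

theorem dec_val {t : M ≃ₐ[F] M} (ht : IsDec w t) (x : M) :
    w.valuation M (t x) = w.valuation M x := ht x

theorem dec_pow {t : M ≃ₐ[F] M} (ht : IsDec w t) (n : ℕ) : IsDec w (t ^ n) := by
  induction n with
  | zero => rw [pow_zero]; exact RG.IsDec.one w
  | succ n ih => rw [pow_succ]; exact ih.mul ht

theorem inert_pow {t : M ≃ₐ[F] M} (ht : IsInert w t) (n : ℕ) : IsInert w (t ^ n) := by
  induction n with
  | zero => rw [pow_zero]; exact RG.IsInert.one w
  | succ n ih => rw [pow_succ]; exact ih.mul ht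

theorem unit_U1 {t : M ≃ₐ[F] M} (ht : IsInert w t) {x : M} (hx : w.valuation M x = 1) :
    U1 w (t x / x) := by
  have hx0 : x ≠ 0 := by rintro rfl; simp at hx
  have h1 : t x / x - 1 = (t x - x) / x := by field_simp
  unfold U1
  rw [h1, map_div₀, hx, div_one]
  exact ht.2 x hx.le

theorem U1.div {y z : M} (hy : U1 w y) (hz : U1 w z) : U1 w (y / z) := by
  rw [div_eq_mul_inv]
  exact hy.mul hz.inv

theorem U1.prod {ι : Type} (s : Finset ι) (f : ι → M) (h : ∀ i ∈ s, U1 w (f i)) :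
    U1 w (∏ i ∈ s, f i) := by
  classical
  induction s using Finset.induction_on with
  | empty => rw [Finset.prod_empty]; exact U1.one
  | insert a s ha ih =>
    rw [Finset.prod_insert ha]
    exact (h a (Finset.mem_insert_self _ _)).mul
      (ih fun i hi => h i (Finset.mem_insert_of_mem hi))

/-- the class of `t x / x` only depends on the value of `x` -/
theorem ratio_U1 {t : M ≃ₐ[F] M} (ht : IsInert w t) {x y : M} (hx : x ≠ 0)
    (h : w.valuation M x = w.valuation M y) : U1 w ((t x / x) / (t y / y)) := by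
  have hvx : w.valuation M x ≠ 0 := (Valuation.ne_zero_iff _).2 hx
  have hy : y ≠ 0 := by
    rintro rfl
    rw [map_zero] at h
    exact hvx h
  have h1 : w.valuation M (x / y) = 1 := by
    rw [map_div₀, h, div_self (h ▸ hvx)]
  have h2 := unit_U1 ht h1
  have h3 : t (x / y) / (x / y) = (t x / x) / (t y / y) := by
    rw [map_div₀]
    have : t y ≠ 0 := by simpa using hy
    field_simp
  rwa [h3] at h2

theorem ratio_zpow {t : M ≃ₐ[F] M} (ht : IsInert w t) {π : M}
    (hπ : w.valuation M π = WithZero.exp (-1 : ℤ)) (x : Mˣ) :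
    U1 w ((t x / x) / (t π / π) ^ (vl w x)) := by
  have hπ0 : π ≠ 0 := by
    rintro rfl
    rw [map_zero] at hπ
    exact WithZero.exp_ne_zero hπ.symm
  have h1 : w.valuation M (x : M) = w.valuation M (π ^ (vl w x)) := by
    rw [RG.H.val_eq, map_zpow₀, hπ, ← WithZero.exp_zsmul]
    congr 1
    simp
  have h2 := ratio_U1 ht x.ne_zero h1
  have h3 : t (π ^ vl w x) / π ^ vl w x = (t π / π) ^ (vl w x) := by
    rw [map_zpow₀, div_zpow]
  rwa [h3] at h2

theorem theta_val {t : M ≃ₐ[F] M} (ht : IsDec w t) {π : M} (hπ0 : π ≠ 0) :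
    w.valuation M (t π / π) = 1 := by
  rw [map_div₀, dec_val ht, div_self ((Valuation.ne_zero_iff _).2 hπ0)]

/-- the `p`-th power of the tame character -/
theorem theta_pow {t : M ≃ₐ[F] M} (ht : IsInert w t) {π : M} (hπ0 : π ≠ 0) (n : ℕ) :
    U1 w (((t ^ n) π / π) / (t π / π) ^ n) := by
  induction n with
  | zero =>
    simp only [pow_zero, AlgEquiv.one_apply, div_one]
    rw [div_self hπ0]
    exact U1.one
  | succ n ih =>
    have h1 : (t ^ (n + 1)) π / π = ((t ^ n) (t π / π) / (t π / π)) * (t π / π) *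
        ((t ^ n) π / π) := by
      have h2 : (t ^ (n + 1)) π = (t ^ n) (t π) := by rw [pow_succ, AlgEquiv.mul_apply]
      have h3 : (t ^ n) π ≠ 0 := fun h0 => hπ0 ((t ^ n).injective (by rw [h0, map_zero]))
      have h4 : t π ≠ 0 := by simpa using hπ0
      rw [h2, map_div₀]
      field_simp
    have h5 : t π / π ≠ 0 := div_ne_zero (by simpa using hπ0) hπ0
    have h6 := unit_U1 (inert_pow ht n) (theta_val ht.1 hπ0)
    have h7 := h6.mul ih
    have h8 : ((t ^ (n + 1)) π / π) / (t π / π) ^ (n + 1) =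
        ((t ^ n) (t π / π) / (t π / π)) * (((t ^ n) π / π) / (t π / π) ^ n) := by
      rw [h1]
      have h9 : (t π / π) ^ n ≠ 0 := pow_ne_zero _ h5
      rw [pow_succ]
      generalize (t π / π) ^ n = A at *
      generalize (t ^ n) (t π / π) = B at *
      generalize t π / π = C at *
      field_simp
    rw [h8]
    exact h7

theorem theta_ne [NumberField F] {t : M ≃ₐ[F] M} (ht : IsInert w t) {π : M}
    (hπ : w.valuation M π = WithZero.exp (-1 : ℤ)) {p : ℕ} (hp : w.valuation M (p : M) = 1)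
    (h1 : t ^ p = 1) (hne : t ≠ 1) : ¬ U1 w (t π / π) := by
  intro hU
  have hU' : U1 w ((t.restrictScalars ℚ) π / π) := hU
  have ht' : IsInert w (t.restrictScalars ℚ) := ht
  have h2 := RG.G04aux.wild_eq_one hp 1 (t.restrictScalars ℚ)
    (fun x hx => RG.G04aux.wild_of_unif hπ ht' hU' hx) (by
      rw [pow_one]
      apply AlgEquiv.ext
      intro x
      have h3 : ∀ n : ℕ, ((t.restrictScalars ℚ) ^ n) x = (t ^ n) x := by
        intro n
        induction n with
        | zero => rfl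
        | succ n ih =>
          rw [pow_succ', pow_succ', AlgEquiv.mul_apply, AlgEquiv.mul_apply, ih]
          rfl
      rw [h3, h1]
      rfl)
  apply hne
  apply AlgEquiv.ext
  intro x
  have h4 := congrArg (fun s : M ≃ₐ[ℚ] M => s x) h2
  exact h4

theorem theta_dvd {θ : M} {p : ℕ} (hp : p.Prime) (h1 : U1 w (θ ^ p)) (h2 : ¬ U1 w θ)
    (hθ : θ ≠ 0) {n : ℤ} (hn : U1 w (θ ^ n)) : (p : ℤ) ∣ n := by
  by_contra hnd
  apply h2
  have hcop : IsCoprime (p : ℤ) n := (Nat.prime_iff_prime_int.1 hp).coprime_iff_not_dvd.2 hnd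
  obtain ⟨a, b, hab⟩ := hcop
  have h3 : θ = (θ ^ p) ^ a * (θ ^ n) ^ b := by
    rw [← zpow_natCast θ p, ← zpow_mul, ← zpow_mul, ← zpow_add₀ hθ,
      show (p : ℤ) * a + n * b = 1 by linarith, zpow_one]
  rw [h3]
  exact (h1.zpow a).mul (hn.zpow b)

end general

section cross

variable {p k ℓ : ℕ} [Fact p.Prime] {F M : Type} [Field F] [NumberField F]
    [Field M] [NumberField M] [Algebra F M] {R : Set (Pr F)} {A : Pr F → ZMod p}
    {lam : (ZMod ℓ)ˣ →* Multiplicative (ZMod (p ^ k))} {Θ : (M ≃ₐ[F] M) →* Multiplicative (ZMod p)}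
    {Ψ : (M ≃ₐ[F] M) →* Multiplicative (ZMod (p ^ k))} {σ τ : M ≃ₐ[F] M}

theorem cross_ext (h : Cross p k ℓ R A lam Θ Ψ σ τ) {g g' : M ≃ₐ[F] M} (h1 : Θ g = Θ g')
    (h2 : Ψ g = Ψ g') : g = g' := by
  have h3 := h.inj (g * g'⁻¹) (by rw [map_mul, map_inv, h1, mul_inv_cancel])
    (by rw [map_mul, map_inv, h2, mul_inv_cancel])
  exact mul_inv_eq_one.1 h3

theorem cross_comm (h : Cross p k ℓ R A lam Θ Ψ σ τ) (g g' : M ≃ₐ[F] M) : g * g' = g' * g :=
  cross_ext h (by rw [map_mul, map_mul, mul_comm]) (by rw [map_mul, map_mul, mul_comm])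

theorem cross_sp (h : Cross p k ℓ R A lam Θ Ψ σ τ) : σ ^ p = 1 := by
  refine cross_ext h ?_ ?_
  · rw [map_pow, h.sθ, ← ofAdd_nsmul, nsmul_eq_mul, CharP.cast_eq_zero, zero_mul, map_one Θ]
    rfl
  · rw [map_pow, h.sψ, one_pow, map_one]

theorem cross_tp (h : Cross p k ℓ R A lam Θ Ψ σ τ) : τ ^ (p ^ k) = 1 := by
  refine cross_ext h ?_ ?_
  · rw [map_pow, h.tθ, one_pow, map_one]
  · rw [map_pow, h.tψ, ← ofAdd_nsmul, nsmul_eq_mul, CharP.cast_eq_zero, zero_mul, map_one Ψ]
    rfl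

theorem cross_ne (h : Cross p k ℓ R A lam Θ Ψ σ τ) : σ ≠ 1 := by
  rintro rfl
  have h1 := h.sθ
  rw [map_one] at h1
  have h2 : (1 : ZMod p) = 0 := Multiplicative.ofAdd.injective h1.symm
  exact one_ne_zero h2

theorem cross_expr [NeZero (p ^ k)] [NeZero p] (h : Cross p k ℓ R A lam Θ Ψ σ τ) (g : M ≃ₐ[F] M) :
    g = σ ^ (Multiplicative.toAdd (Θ g)).val * τ ^ (Multiplicative.toAdd (Ψ g)).val := by
  refine cross_ext h ?_ ?_
  · rw [map_mul, map_pow, map_pow, h.sθ, h.tθ, one_pow, mul_one, ← ofAdd_nsmul, nsmul_eq_mul,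
      mul_one, ZMod.natCast_zmod_val]
    rfl
  · rw [map_mul, map_pow, map_pow, h.sψ, h.tψ, one_pow, one_mul, ← ofAdd_nsmul, nsmul_eq_mul,
      mul_one, ZMod.natCast_zmod_val]
    rfl

/-- the ramification index is `p` -/
theorem cross_ram [IsGalois F M] [NeZero (p ^ k)] (h : Cross p k ℓ R A lam Θ Ψ σ τ) {w : Pr M}
    (hR : (below w : Pr F) ∈ R) (hℓ : ¬ Above w ℓ) (x : F) :
    w.valuation M (algebraMap F M x) = ((below w : Pr F).valuation F x) ^ p := by
  have hp : p.Prime := Fact.out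
  have : NeZero p := ⟨hp.ne_zero⟩
  have hlo : w.asIdeal.LiesOver (below w : Pr F).asIdeal := ⟨rfl⟩
  have hcard := Ideal.card_inertia_eq_ramificationIdxIn (G := M ≃ₐ[F] M)
    (below w : Pr F).asIdeal w.asIdeal
  have hin : w.asIdeal.inertia (M ≃ₐ[F] M) = Subgroup.zpowers σ := by
    ext g
    constructor
    · intro hg
      have h1 : IsInert w g := RG.H.H03aux.isInert_of_mem hg
      have h2 := h.unr_psi w hℓ g h1
      have h3 := cross_expr h g
      rw [h2, toAdd_one, ZMod.val_zero, pow_zero, mul_one] at h3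
      rw [h3]
      exact Subgroup.npow_mem_zpowers σ _
    · intro hg
      have h1 : σ ∈ w.asIdeal.inertia (M ≃ₐ[F] M) := by
        have h2 := h.ram_sigma w hR
        intro x
        change σ • x - x ∈ w.asIdeal
        rw [RG.H.H03aux.mem_iff]
        have h3 := h2.2 (x : M) (HeightOneSpectrum.valuation_le_one w x)
        have h4 : (((σ • x - x : 𝓞 M)) : M) = σ • (x : M) - (x : M) := by
          rw [← RG.H.H03aux.coe_smul]
          rfl
        rw [h4]
        exact h3
      exact (Subgroup.zpowers_le.2 h1) hg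
  have hord : orderOf σ = p :=
    orderOf_eq_prime (cross_sp h) (cross_ne h)
  rw [hin, Nat.card_zpowers, hord,
    Ideal.ramificationIdxIn_eq_ramificationIdx (below w : Pr F).asIdeal w.asIdeal (M ≃ₐ[F] M),
    ← Ideal.ramificationIdx'_eq_ramificationIdx (below w : Pr F).asIdeal w.asIdeal
      (below w : Pr F).ne_bot] at hcard
  rw [← HeightOneSpectrum.valuation_liesOver M (below w : Pr F) w x, ← hcard]

theorem sum_zmod {P : ℕ} [NeZero P] (f : ℕ → ℤ) :
    ∑ y : ZMod P, f y.val = ∑ s ∈ Finset.range P, f s := by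
  rw [← Fin.sum_univ_eq_sum_range]
  obtain ⟨n, rfl⟩ : ∃ n, P = n + 1 := ⟨P - 1, (Nat.succ_pred_eq_of_pos (NeZero.pos P)).symm⟩
  rfl

end cross

end C10aux

open C10aux in
open Pool.Agent.RG.G04aux (U1) in
theorem claim_ram {p k ℓ : ℕ} [Fact p.Prime] {F M : Type} [Field F] [NumberField F]
    [Field M] [NumberField M] [Algebra F M] [IsGalois F M] {R : Set (Pr F)} {A : Pr F → ZMod p}
    {lam : (ZMod ℓ)ˣ →* Multiplicative (ZMod (p ^ k))} {Θ : (M ≃ₐ[F] M) →* Multiplicative (ZMod p)}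
    {Ψ : (M ≃ₐ[F] M) →* Multiplicative (ZMod (p ^ k))} {σ τ : M ≃ₐ[F] M}
    (h : Cross p k ℓ R A lam Θ Ψ σ τ) {a c : Fˣ} {β γ : Mˣ} (hB : BG p k σ τ a c β γ) {v : Pr F}
    (hv : v ∈ R) (hℓ : ¬ Above v ℓ) (hvp : ¬ Above v p) (hq : nm v % p = 1) (ha : a ∈ UU v 1) :
    jj lam (nm v) * ((vl v c : ℤ) : ZMod (p ^ k)) = 0 := by
  have hp : p.Prime := Fact.out
  have hp0 : NeZero p := ⟨hp.ne_zero⟩
  have hP0 : NeZero (p ^ k) := ⟨pow_ne_zero _ hp.ne_zero⟩
  obtain ⟨w, rfl⟩ := RG.H.exists_above (L := M) v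
  have hℓw : ¬ Above w ℓ := (RG.H.above_iff (K := F) w ℓ).not.2 hℓ
  have hpw' : ¬ Above w p := (RG.H.above_iff (K := F) w p).not.2 hvp
  have hpw : w.valuation M (p : M) = 1 := by
    refine le_antisymm ?_ (not_lt.1 hpw')
    have h0 := HeightOneSpectrum.valuation_le_one (K := M) w ((p : ℕ) : 𝓞 M)
    have h1 : (((p : ℕ) : 𝓞 M) : M) = (p : M) := map_natCast _ p
    rw [← h1]
    exact h0
  have hσ := h.ram_sigma w hv
  obtain ⟨π, hπ⟩ := w.valuation_exists_uniformizer M
  have hπ0 : π ≠ 0 := by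
    rintro rfl
    rw [map_zero] at hπ
    exact WithZero.exp_ne_zero hπ.symm
  set θ : M := σ π / π with hθ
  have hθ0 : θ ≠ 0 := div_ne_zero (by simpa using hπ0) hπ0
  have hθ1 : ¬ U1 w θ := theta_ne hσ hπ hpw (cross_sp h) (cross_ne h)
  have hθp : U1 w (θ ^ p) := by
    have h1 := theta_pow hσ hπ0 p
    rw [cross_sp h, AlgEquiv.one_apply, div_self hπ0] at h1
    have h2 := h1.inv
    rwa [one_div, inv_inv] at h2
  -- the sequences
  obtain ⟨b, hb⟩ : ∃ b : ℕ → M, ∀ s, b s = (τ ^ s) (β : M) := ⟨_, fun _ => rfl⟩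
  obtain ⟨cu, hcv⟩ : ∃ cu : ℕ → Mˣ, ∀ s, ((cu s : Mˣ) : M) = (τ ^ s) (γ : M) :=
    ⟨fun s => Units.map ((τ ^ s : M ≃ₐ[F] M) : M →* M) γ, fun _ => rfl⟩
  obtain ⟨m, hm⟩ : ∃ m : ℕ → ℤ, ∀ s, m s = vl w (cu s) := ⟨_, fun _ => rfl⟩
  have hcomm : ∀ (g g' : M ≃ₐ[F] M) (x : M), g (g' x) = g' (g x) := fun g g' x => by
    rw [← AlgEquiv.mul_apply, cross_comm h g g', AlgEquiv.mul_apply]
  have hrel : ∀ s, b (s + 1) * (cu s : M) = σ (cu s : M) * b s := by
    intro s
    have h1 := congrArg (fun x => (τ ^ s) x) hB.rel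
    simp only [map_mul] at h1
    rw [hcomm (τ ^ s) σ] at h1
    have h2 : b (s + 1) = (τ ^ s) (τ (β : M)) := by
      rw [hb, pow_succ, AlgEquiv.mul_apply]
    rw [h2, hcv, hb]
    exact h1
  have hnb : ∀ s, ∏ i ∈ Finset.range p, (σ ^ i) (b s) = algebraMap F M a := by
    intro s
    have h1 := congrArg (fun x => (τ ^ s) x) hB.nβ
    simp only [map_prod] at h1
    rw [AlgEquiv.commutes] at h1
    rw [← h1]
    refine Finset.prod_congr rfl fun i _ => ?_
    rw [hb]
    exact hcomm _ _ _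
  have hva : w.valuation M (algebraMap F M a) = 1 := by
    rw [cross_ram h hv hℓw, RG.H.vl_eq_zero.1 ha.1, one_pow]
  have hbv : ∀ s, w.valuation M (b s) = 1 := by
    intro s
    have h1 := congrArg (w.valuation M) (hnb s)
    rw [map_prod, hva] at h1
    have h2 : ∀ i ∈ Finset.range p, w.valuation M ((σ ^ i) (b s)) = w.valuation M (b s) := by
      intro i _
      have h3 := dec_val (dec_pow hσ.1 i) (b s)
      exact h3
    rw [Finset.prod_congr rfl h2, Finset.prod_const, Finset.card_range] at h1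
    rcases lt_trichotomy (w.valuation M (b s)) 1 with h4 | h4 | h4
    · exact absurd h1 (pow_lt_one₀ zero_le h4 hp.ne_zero).ne
    · exact h4
    · exact absurd h1 (one_lt_pow₀ h4 hp.ne_zero).ne'
  have hb0 : ∀ s, b s ≠ 0 := fun s h0 => by
    have := hbv s
    rw [h0, map_zero] at this
    exact zero_ne_one this
  have hstep : ∀ s, U1 w ((b (s + 1) / b s) / θ ^ m s) := by
    intro s
    have h1 := ratio_zpow hσ hπ (cu s)
    have h2 : σ (cu s : M) / (cu s : M) = b (s + 1) / b s := by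
      rw [div_eq_div_iff (cu s).ne_zero (hb0 s)]
      exact (hrel s).symm
    rw [h2, ← hm, ← hθ] at h1
    exact h1
  have hsum : ∀ y n, U1 w ((b (y + n) / b y) / θ ^ (∑ s ∈ Finset.range n, m (y + s))) := by
    intro y n
    induction n with
    | zero =>
      rw [add_zero, div_self (hb0 y), Finset.sum_range_zero, zpow_zero, div_one]
      exact U1.one
    | succ n ih =>
      have h1 := ih.mul (hstep (y + n))
      rw [Finset.sum_range_succ, zpow_add₀ hθ0]
      have h2 : b (y + (n + 1)) / b y / (θ ^ (∑ s ∈ Finset.range n, m (y + s)) * θ ^ m (y + n)) =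
          b (y + n) / b y / θ ^ (∑ s ∈ Finset.range n, m (y + s)) *
          (b (y + n + 1) / b (y + n) / θ ^ m (y + n)) := by
        have e1 := hb0 (y + n)
        have e2 := hb0 y
        have e3 : θ ^ (∑ s ∈ Finset.range n, m (y + s)) ≠ 0 := zpow_ne_zero _ hθ0
        have e4 : θ ^ m (y + n) ≠ 0 := zpow_ne_zero _ hθ0
        rw [show y + (n + 1) = y + n + 1 from rfl]
        generalize b (y + n + 1) = B1 at *
        generalize b (y + n) = B2 at *
        generalize b y = B3 at *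
        generalize θ ^ (∑ s ∈ Finset.range n, m (y + s)) = B4 at *
        generalize θ ^ m (y + n) = B5 at *
        field_simp
      rw [h2]
      exact h1
  -- the Frobenius element
  obtain ⟨φ, hφ⟩ := exists_frobK (K := F) w
  set q := nm (below w : Pr F) with hqd
  set j := jj lam q with hj
  have hφe := cross_expr h φ
  rw [h.frob_psi w hℓw φ hφ, toAdd_ofAdd] at hφe
  set i := (Multiplicative.toAdd (Θ φ)).val with hi
  have hφx : ∀ x, φ x = (σ ^ i) ((τ ^ j.val) x) := fun x => by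
    rw [← AlgEquiv.mul_apply, ← hφe]
  have hφv : ∀ x, w.valuation M ((τ ^ j.val) x) = w.valuation M x := by
    intro x
    have h1 : w.valuation M (φ x) = w.valuation M x := hφ.1 x
    rw [hφx, dec_val (dec_pow hσ.1 i)] at h1
    exact h1
  have hby : ∀ y, (τ ^ j.val) (b y) = b (y + j.val) := by
    intro y
    rw [hb, hb, add_comm, pow_add, AlgEquiv.mul_apply]
  have haU : U1 w (algebraMap F M a) := by
    unfold U1
    have h1 : algebraMap F M a - 1 = algebraMap F M ((a : F) - 1) := by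
      rw [map_sub, map_one]
    rw [h1, cross_ram h hv hℓw]
    have h2 := ha.2
    have h3 : (below w : Pr F).valuation F ((a : F) - 1) < 1 := by
      refine lt_of_le_of_lt h2 ?_
      rw [← WithZero.exp_zero, WithZero.exp_lt_exp]
      norm_num
    exact pow_lt_one₀ zero_le h3 hp.ne_zero
  have hbp : ∀ y, U1 w (b y ^ p) := by
    intro y
    have h1 : U1 w (∏ i ∈ Finset.range p, ((σ ^ i) (b y) / b y)) :=
      U1.prod _ _ fun i _ => by
        have h3 := unit_U1 (inert_pow hσ i) (hbv y)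
        exact h3
    rw [Finset.prod_div_distrib, hnb, Finset.prod_const, Finset.card_range] at h1
    have h2 := U1.div haU h1
    rwa [div_div_cancel₀ haU.ne] at h2
  have hbq : ∀ y, U1 w (b y ^ (q - 1)) := by
    intro y
    have h1 : p ∣ q - 1 := by
      have := Nat.div_add_mod q p
      rw [hq] at this
      exact ⟨q / p, by omega⟩
    obtain ⟨r, hr⟩ := h1
    rw [hr, pow_mul]
    exact (hbp y).pow r
  have hq1 : 1 ≤ q := by
    by_contra h0
    have : q = 0 := by omega
    rw [this, Nat.zero_mod] at hq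
    omega
  have hkey : ∀ y, U1 w (b (y + j.val) / b y) := by
    intro y
    have h1 : w.valuation M (φ (b y) - b y ^ q) < 1 := hφ.2 _ (hbv y).le
    rw [hφx, hby] at h1
    have h2 : U1 w ((σ ^ i) (b (y + j.val)) / b y ^ q) := by
      unfold U1
      have h3 : (σ ^ i) (b (y + j.val)) / b y ^ q - 1 =
          ((σ ^ i) (b (y + j.val)) - b y ^ q) / b y ^ q := by
        have := pow_ne_zero q (hb0 y)
        field_simp
      rw [h3, map_div₀, map_pow, hbv, one_pow, div_one]
      exact h1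
    have h3 : U1 w ((σ ^ i) (b (y + j.val)) / b (y + j.val)) :=
      unit_U1 (inert_pow hσ i) (hbv _)
    have h4 := (U1.div h2 h3).mul (hbq y)
    have h5 : (σ ^ i) (b (y + j.val)) / b y ^ q / ((σ ^ i) (b (y + j.val)) / b (y + j.val)) *
        b y ^ (q - 1) = b (y + j.val) / b y := by
      have e1 : (σ ^ i) (b (y + j.val)) ≠ 0 := fun h0 =>
        hb0 (y + j.val) ((σ ^ i).injective (by rw [h0, map_zero]))
      have e2 := hb0 y
      have e3 := hb0 (y + j.val)
      have e4 : b y ^ q = b y ^ (q - 1) * b y := by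
        rw [← pow_succ, Nat.sub_add_cancel hq1]
      rw [e4]
      have e5 : b y ^ (q - 1) ≠ 0 := pow_ne_zero _ e2
      generalize b y ^ (q - 1) = B1 at *
      generalize (σ ^ i) (b (y + j.val)) = B2 at *
      field_simp
    rwa [h5] at h4
  have hdvd : ∀ y, (p : ℤ) ∣ ∑ s ∈ Finset.range j.val, m (y + s) := by
    intro y
    refine theta_dvd hp hθp hθ1 hθ0 ?_
    have h1 := U1.div (hkey y) (hsum y j.val)
    have e1 : b (y + j.val) / b y ≠ 0 := (hkey y).ne
    rwa [div_div_cancel₀ e1] at h1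
  -- periodicity
  have hper : ∀ s, m (s % p ^ k) = m s := by
    intro s
    have h1 : τ ^ (s % p ^ k) = τ ^ s := by
      conv_rhs => rw [← Nat.mod_add_div s (p ^ k), pow_add, pow_mul, cross_tp h, one_pow, mul_one]
    have h2 : cu (s % p ^ k) = cu s := by
      apply Units.ext
      rw [hcv, hcv, h1]
    rw [hm, hm, h2]
  have hmj : ∀ y, m (y + j.val) = m y := by
    intro y
    rw [hm, hm]
    unfold vl
    rw [hcv, hcv, add_comm, pow_add, AlgEquiv.mul_apply, hφv]
  have hcsum : ∑ s ∈ Finset.range (p ^ k), m s = p * vl (below w : Pr F) c := by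
    have h1 : vl w (∏ s ∈ Finset.range (p ^ k), cu s) = ∑ s ∈ Finset.range (p ^ k), m s := by
      clear hper hmj
      generalize p ^ k = N
      induction N with
      | zero => rw [Finset.prod_range_zero, Finset.sum_range_zero, RG.H.vl_one]
      | succ N ih => rw [Finset.prod_range_succ, Finset.sum_range_succ, RG.H.vl_mul, ih, hm]
    have h2 : ∏ s ∈ Finset.range (p ^ k), cu s = emb F M c := by
      apply Units.ext
      rw [Units.coe_prod, RG.H.emb_val, ← hB.nγ]
      exact Finset.prod_congr rfl fun s _ => hcv s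
    rw [← h1, h2, RG.H.vl_eq_iff, RG.H.emb_val, cross_ram h hv hℓw, RG.H.val_eq,
      ← WithZero.exp_nsmul]
    congr 1
    simp
  have hfin := comb_ram (P := p ^ k) hp (fun y : ZMod (p ^ k) => m y.val)
    (vl (below w : Pr F) c) j (by rw [sum_zmod m, hcsum])
    (fun y => by
      rw [ZMod.val_add, hper, hmj])
    (fun y => by
      have h1 : ∀ s ∈ Finset.range j.val, m (y + (s : ZMod (p ^ k))).val = m (y.val + s) := by
        intro s _
        rw [ZMod.val_add, ZMod.val_natCast, hper, ← hper (y.val + s % p ^ k), Nat.add_mod_mod, hper]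
      change (p : ℤ) ∣ ∑ s ∈ Finset.range j.val, m (y + (s : ZMod (p ^ k))).val
      rw [Finset.sum_congr rfl h1]
      exact hdvd _)
  have h9 := (ZMod.intCast_zmod_eq_zero_iff_dvd _ (p ^ k)).2 hfin
  push_cast at h9
  rw [ZMod.natCast_zmod_val] at h9
  exact h9

end Pool.Agent.RGK
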