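import Mathlib
import Pool.Agent.Lib.RG.H03
import Pool.Agent.Lib.RGK.CXDefs
import Pool.Agent.Lib.RGK.B1
import Pool.Agent.Lib.RGK.B2
import Pool.Agent.Lib.RGK.C00

/-!
RG v4, row C11: the local claim at the primes above `ℓ`.

Let `w` be a prime of `M` above `v`, `P = p ^ k`. `τ` is inert at `w`, and every `g` inert at `w` has
`Θ g = 1` (`unr_theta`), so the inertia group is generated by `τ` and has order `P`: the ramification
index of `w` over `v` is `P` (`Ideal.card_inertia_eq_ramificationIdxIn`; compare `H.exists_e`, `H.e_one`),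
`vl w (emb x) = P * vl v x`. With `ϖ` from `unif`: `P * vl w ϖ = vl w ℓ = P` (`τ` is in the decomposition
group), so `vl w ϖ = 1`. `r := vl w γ`: `P * r = vl w (emb c) = P * vl v c` (`nγ`), so `r = vl v c`.
`u := γ / ϖ ^ r` is a unit at `w`, `c = ℓ ^ r * ∏ t < P, τ ^ t u` (`nγ`, `unif`) and
`∏ t < P, τ ^ t u ≡ u ^ P` modulo `w` (`τ` inert).

Claim: `g u ≡ u` modulo `w` for all `g` in the decomposition group `D` of `w`. Such a `g` is
`σ ^ i * τ ^ t` and `σ ^ i ∈ D`. If `p ∣ i` then `g` is inert. Otherwise `σ ∈ D` (`i` is invertible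
modulo `p`, `σ ^ p = 1`). Then `p * vl w β = vl w (emb a) = 0` (`nβ`), `β` is a unit at `w`, and
`σ u / u = σ γ / γ = τ β / β ≡ 1` (`σ ϖ = ϖ`; `rel`; `τ` inert). So `σ ^ i u ≡ u`, and `τ ^ t` is inert.

Apply the claim to a Frobenius element `φ` at `w` (`exists_frobK`): `u ≡ φ u ≡ u ^ q`, `q = nm v`. So the
residue class of `u` is a root of `X ^ q - X`, which has already `q` roots in the image of the residue
field of `v`: there is `y₀ : 𝓞 F` with `w (y₀ - u) < 1` (approximate `u` by an element of `𝓞 M`: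
`H.exists_int_approx`, H09). `y := y₀` is a unit at `v`, and `c / (ℓ ^ r * y ^ P) ≡ 1` modulo `w`, hence
modulo `v` (`H.exists_e_val`).
-/

set_option autoImplicit false

namespace Pool.Agent.RGK

open NumberField IsDedekindDomain
open Pool.Agent.RG (Above IsDec IsInert IsFrob)
open Pool.Agent.RG.H (Pr vl UU PP emb below)

section C11

open WithZero

private lemma C11_vl_zpow {K : Type} [Field K] [NumberField K] (v : Pr K) (x : Kˣ) (n : ℤ) :
    vl v (x ^ n) = n * vl v x := by
  cases n with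
  | ofNat n =>
    rw [Int.ofNat_eq_natCast, zpow_natCast, RG.H.vl_pow]
  | negSucc n =>
    rw [zpow_negSucc, RG.H.vl_inv, RG.H.vl_pow, Int.negSucc_eq]
    push_cast
    ring

variable {p k ℓ : ℕ} [Fact p.Prime] {F M : Type} [Field F] [NumberField F]
    [Field M] [NumberField M] [Algebra F M] {R : Set (Pr F)} {A : Pr F → ZMod p}
    {lam : (ZMod ℓ)ˣ →* Multiplicative (ZMod (p ^ k))} {Θ : (M ≃ₐ[F] M) →* Multiplicative (ZMod p)}
    {Ψ : (M ≃ₐ[F] M) →* Multiplicative (ZMod (p ^ k))} {σ τ : M ≃ₐ[F] M}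

private lemma C11_ne : NeZero (p ^ k) := ⟨pow_ne_zero _ (Fact.out : p.Prime).ne_zero⟩

private lemma C11_pow_one (m n : ℕ) :
    (Multiplicative.ofAdd (1 : ZMod m)) ^ n = Multiplicative.ofAdd (n : ZMod m) := by
  rw [← ofAdd_nsmul, nsmul_eq_mul, mul_one]

private lemma C11_inj (h : Cross p k ℓ R A lam Θ Ψ σ τ) {g g' : M ≃ₐ[F] M} (h1 : Θ g = Θ g')
    (h2 : Ψ g = Ψ g') : g = g' := by
  have := h.inj (g * g'⁻¹) (by rw [map_mul, map_inv, h1, mul_inv_cancel])
    (by rw [map_mul, map_inv, h2, mul_inv_cancel])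
  exact mul_inv_eq_one.1 this

private lemma C11_dec (h : Cross p k ℓ R A lam Θ Ψ σ τ) (g : M ≃ₐ[F] M) :
    g = σ ^ (Multiplicative.toAdd (Θ g)).val * τ ^ (Multiplicative.toAdd (Ψ g)).val := by
  have : NeZero (p ^ k) := C11_ne
  apply C11_inj h
  · rw [map_mul, map_pow, map_pow, h.sθ, h.tθ, one_pow, mul_one, C11_pow_one,
      ZMod.natCast_zmod_val]
    rfl
  · rw [map_mul, map_pow, map_pow, h.sψ, h.tψ, one_pow, one_mul, C11_pow_one,
      ZMod.natCast_zmod_val]
    rfl

private lemma C11_sp (h : Cross p k ℓ R A lam Θ Ψ σ τ) : σ ^ p = 1 := by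
  apply C11_inj h
  · rw [map_pow, h.sθ, C11_pow_one, ZMod.natCast_self, map_one]
    rfl
  · rw [map_pow, h.sψ, one_pow, map_one]

private lemma C11_order (h : Cross p k ℓ R A lam Θ Ψ σ τ) : orderOf τ = p ^ k := by
  apply Nat.dvd_antisymm
  · apply orderOf_dvd_of_pow_eq_one
    apply C11_inj h
    · rw [map_pow, h.tθ, one_pow, map_one]
    · rw [map_pow, h.tψ, C11_pow_one, ZMod.natCast_self, map_one]
      rfl
  · have h1 := orderOf_map_dvd Ψ τ
    rw [h.tψ, orderOf_ofAdd_eq_addOrderOf, ZMod.addOrderOf_one] at h1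
    exact h1

open scoped Pointwise in
private lemma C11_ram [IsGalois F M] (h : Cross p k ℓ R A lam Θ Ψ σ τ) (w : Pr M)
    (hw : Above w ℓ) (hR : (below w : Pr F) ∉ R) (x : F) :
    w.valuation M (algebraMap F M x) = ((below w : Pr F).valuation F x) ^ (p ^ k) := by
  have hlo : w.asIdeal.LiesOver (below w : Pr F).asIdeal := ⟨rfl⟩
  have hcard := Ideal.card_inertia_eq_ramificationIdxIn (G := M ≃ₐ[F] M)
    (below w : Pr F).asIdeal w.asIdeal
  have hin : w.asIdeal.inertia (M ≃ₐ[F] M) = Subgroup.zpowers τ := by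
    apply le_antisymm
    · intro g hg
      have h1 := RG.H.H03aux.isInert_of_mem hg
      have h2 := h.unr_theta w hR g h1
      have h3 := C11_dec h g
      rw [h2] at h3
      have h4 : (Multiplicative.toAdd (1 : Multiplicative (ZMod p))).val = 0 := by
        rw [toAdd_one, ZMod.val_zero]
      rw [h4, pow_zero, one_mul] at h3
      rw [h3]
      exact Subgroup.npow_mem_zpowers τ _
    · rw [Subgroup.zpowers_le]
      have h1 := (h.ram_tau w hw).2
      change ∀ x : 𝓞 M, τ • x - x ∈ w.asIdeal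
      intro x
      rw [RG.H.H03aux.mem_iff]
      have h2 := h1 (x : M) (HeightOneSpectrum.valuation_le_one w x)
      simpa [RG.H.H03aux.coe_smul] using h2
  rw [hin, Nat.card_zpowers, C11_order h,
    Ideal.ramificationIdxIn_eq_ramificationIdx (below w : Pr F).asIdeal w.asIdeal (M ≃ₐ[F] M),
    ← Ideal.ramificationIdx'_eq_ramificationIdx (below w : Pr F).asIdeal w.asIdeal
      (below w : Pr F).ne_bot] at hcard
  have key := HeightOneSpectrum.valuation_liesOver M (below w : Pr F) w x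
  rw [← hcard] at key
  exact key.symm

private lemma C11_decpow {w : Pr M} {g : M ≃ₐ[F] M} (hg : IsDec w g) (n : ℕ) : IsDec w (g ^ n) := by
  induction n with
  | zero =>
    intro x
    rw [pow_zero, one_smul]
  | succ n ih =>
    intro x
    rw [pow_succ', mul_smul, hg, ih]

private lemma C11_inpow {w : Pr M} {g : M ≃ₐ[F] M} (hg : IsDec w g) {x : M}
    (hx : w.valuation M (g x - x) < 1) (n : ℕ) : w.valuation M ((g ^ n) x - x) < 1 := by
  induction n with
  | zero =>
    rw [pow_zero, AlgEquiv.one_apply, sub_self, map_zero]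
    exact zero_lt_one
  | succ n ih =>
    have e : (g ^ (n + 1)) x - x = g ((g ^ n) x - x) + (g x - x) := by
      rw [pow_succ', AlgEquiv.mul_apply, map_sub]
      ring
    rw [e]
    refine Valuation.map_add_lt _ ?_ hx
    have := hg ((g ^ n) x - x)
    rw [AlgEquiv.smul_def] at this
    rw [this]
    exact ih

private lemma C11_prodpow {w : Pr M} {u : M} (hu : w.valuation M u ≤ 1) (f : ℕ → M)
    (n : ℕ) (hf : ∀ i, w.valuation M (f i - u) < 1) :
    w.valuation M (∏ i ∈ Finset.range n, f i - u ^ n) < 1 := by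
  induction n with
  | zero =>
    rw [Finset.range_zero, Finset.prod_empty, pow_zero, sub_self, map_zero]
    exact zero_lt_one
  | succ n ih =>
    have e : ∏ i ∈ Finset.range (n + 1), f i - u ^ (n + 1) =
        (∏ i ∈ Finset.range n, f i - u ^ n) * f n + u ^ n * (f n - u) := by
      rw [Finset.prod_range_succ, pow_succ]
      ring
    have h1 : w.valuation M (f n) ≤ 1 := by
      have e2 : f n = (f n - u) + u := by ring
      rw [e2]
      exact Valuation.map_add_le _ (hf n).le hu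
    rw [e]
    refine Valuation.map_add_lt _ ?_ ?_
    · rw [map_mul]
      exact mul_lt_one_of_nonneg_of_lt_one_left zero_le ih h1
    · rw [map_mul, map_pow]
      exact mul_lt_one_of_nonneg_of_lt_one_right (pow_le_one₀ zero_le hu) zero_le (hf n)

private lemma C11_prodval {w : Pr M} {g : M ≃ₐ[F] M} (hg : IsDec w g) (x : M) (n : ℕ) :
    w.valuation M (∏ t ∈ Finset.range n, (g ^ t) x) = w.valuation M x ^ n := by
  rw [map_prod]
  have : ∀ t ∈ Finset.range n, w.valuation M ((g ^ t) x) = w.valuation M x := fun t _ => by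
    have := C11_decpow hg t x
    rwa [AlgEquiv.smul_def] at this
  rw [Finset.prod_congr rfl this, Finset.prod_const, Finset.card_range]

/-- An element whose residue class is fixed by the `nm v`-power map is congruent to an integer of the
base field. -/
private lemma C11_res (w : Pr M) {u : M} (hu : w.valuation M u ≤ 1)
    (h : w.valuation M (u ^ nm (below w : Pr F) - u) < 1) :
    ∃ y : 𝓞 F, w.valuation M (algebraMap F M (y : F) - u) < 1 := by
  classical
  obtain ⟨b, hb⟩ := HeightOneSpectrum.exists_valuation_sub_lt_of_integer w hu 1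
  replace hb : w.valuation M ((b : M) - u) < 1 := hb
  have hmax : w.asIdeal.IsMaximal := w.isMaximal
  have hmaxv : (below w : Pr F).asIdeal.IsMaximal := (below w : Pr F).isMaximal
  let _ : Field (𝓞 M ⧸ w.asIdeal) := Ideal.Quotient.field w.asIdeal
  let _ : Field (𝓞 F ⧸ (below w : Pr F).asIdeal) := Ideal.Quotient.field _
  have hfin : Finite (𝓞 F ⧸ (below w : Pr F).asIdeal) :=
    Ideal.finiteQuotientOfFreeOfNeBot _ (below w : Pr F).ne_bot
  let _ := Fintype.ofFinite (𝓞 F ⧸ (below w : Pr F).asIdeal)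
  let f : (𝓞 F ⧸ (below w : Pr F).asIdeal) →+* (𝓞 M ⧸ w.asIdeal) :=
    Ideal.quotientMap w.asIdeal (algebraMap (𝓞 F) (𝓞 M)) le_rfl
  have hq : Fintype.card (𝓞 F ⧸ (below w : Pr F).asIdeal) = nm (below w : Pr F) := by
    unfold nm
    rw [Ideal.absNorm_apply, Submodule.cardQuot_apply, Nat.card_eq_fintype_card]
  have h1q : 1 < nm (below w : Pr F) := one_lt_nm _
  have hP0 : (Polynomial.X ^ nm (below w : Pr F) - Polynomial.X :
      Polynomial (𝓞 M ⧸ w.asIdeal)) ≠ 0 := FiniteField.X_pow_card_sub_X_ne_zero _ h1q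
  have hdeg : (Polynomial.X ^ nm (below w : Pr F) - Polynomial.X :
      Polynomial (𝓞 M ⧸ w.asIdeal)).natDegree = nm (below w : Pr F) :=
    FiniteField.X_pow_card_sub_X_natDegree_eq _ h1q
  have hroot : ∀ x : 𝓞 M ⧸ w.asIdeal, x ∈ (Polynomial.X ^ nm (below w : Pr F) - Polynomial.X :
      Polynomial (𝓞 M ⧸ w.asIdeal)).roots.toFinset ↔ x ^ nm (below w : Pr F) = x := by
    intro x
    rw [Multiset.mem_toFinset, Polynomial.mem_roots hP0, Polynomial.IsRoot.def,
      Polynomial.eval_sub, Polynomial.eval_pow, Polynomial.eval_X, sub_eq_zero]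
  have hsub : Finset.univ.image f ⊆ (Polynomial.X ^ nm (below w : Pr F) - Polynomial.X :
      Polynomial (𝓞 M ⧸ w.asIdeal)).roots.toFinset := by
    intro x hx
    obtain ⟨z, -, rfl⟩ := Finset.mem_image.1 hx
    rw [hroot, ← map_pow, ← hq, FiniteField.pow_card]
  have hcard : (Finset.univ.image f).card = nm (below w : Pr F) := by
    rw [Finset.card_image_of_injective _ f.injective, Finset.card_univ, hq]
  have heq := Finset.eq_of_subset_of_card_le hsub ((Multiset.toFinset_card_le _).trans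
    ((Polynomial.card_roots' _).trans (hdeg.le.trans hcard.ge)))
  have hb1 : w.valuation M ((b : M) ^ nm (below w : Pr F) - b) < 1 := by
    have e1 := C11_prodpow (w := w) hu (fun _ => (b : M)) (nm (below w : Pr F)) (fun _ => hb)
    rw [Finset.prod_const, Finset.card_range] at e1
    have e2 : (b : M) ^ nm (below w : Pr F) - b =
        ((b : M) ^ nm (below w : Pr F) - u ^ nm (below w : Pr F)) +
          ((u ^ nm (below w : Pr F) - u) - ((b : M) - u)) := by ring
    rw [e2]
    exact Valuation.map_add_lt _ e1 (Valuation.map_sub_lt _ h hb)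
  have hbr : Ideal.Quotient.mk w.asIdeal b ∈ (Polynomial.X ^ nm (below w : Pr F) -
      Polynomial.X : Polynomial (𝓞 M ⧸ w.asIdeal)).roots.toFinset := by
    rw [hroot, ← map_pow, Ideal.Quotient.eq, RG.H.H03aux.mem_iff]
    simpa using hb1
  rw [← heq] at hbr
  obtain ⟨x, -, hx⟩ := Finset.mem_image.1 hbr
  obtain ⟨y, rfl⟩ := Ideal.Quotient.mk_surjective x
  have hx' : Ideal.Quotient.mk w.asIdeal (algebraMap (𝓞 F) (𝓞 M) y) =
      Ideal.Quotient.mk w.asIdeal b := hx
  rw [Ideal.Quotient.eq, RG.H.H03aux.mem_iff] at hx'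
  refine ⟨y, ?_⟩
  have e3 : algebraMap F M (y : F) - u =
      ((algebraMap (𝓞 F) (𝓞 M) y - b : 𝓞 M) : M) + ((b : M) - u) := by
    have : ((algebraMap (𝓞 F) (𝓞 M) y - b : 𝓞 M) : M) = algebraMap F M (y : F) - (b : M) := rfl
    rw [this]
    ring
  rw [e3]
  exact Valuation.map_add_lt _ hx' hb

private lemma C11_lt_one {a : ℤᵐ⁰} (h : a < 1) : a ≤ exp (-((1 : ℕ) : ℤ)) := by
  by_cases h0 : a = 0
  · rw [h0]
    exact zero_le
  · have h1 : a = exp (log a) := (exp_log h0).symm
    rw [h1] at h ⊢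
    rw [← exp_zero, exp_lt_exp] at h
    rw [exp_le_exp]
    push_cast
    omega

private lemma C11_sigma {w : Pr M} {a c : Fˣ} {β γ : Mˣ} (hB : BG p k σ τ a c β γ)
    (hτ : IsInert w τ) (hσ : IsDec w σ) (ha : w.valuation M (algebraMap F M a) = 1) {ϖ : M}
    (hϖ0 : ϖ ≠ 0) (hϖ : σ ϖ = ϖ) {r : ℤ} {u : M} (hu : u = γ / ϖ ^ r)
    (hwu : w.valuation M u = 1) : w.valuation M (σ u - u) < 1 := by
  have hβ : w.valuation M (β : M) = 1 := by
    have h1 := C11_prodval hσ (β : M) p
    rw [hB.nβ, ha] at h1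
    have hp0 : p ≠ 0 := (Fact.out : p.Prime).ne_zero
    refine (pow_left_inj₀ zero_le zero_le hp0).1 ?_
    rw [← h1, one_pow]
  have hβ0 : (β : M) ≠ 0 := β.ne_zero
  have hγ : σ (γ : M) = τ (β : M) * γ / β := by
    rw [eq_div_iff hβ0]
    exact hB.rel.symm
  have e : σ u - u = (τ (β : M) - β) / β * u := by
    have e1 : σ u = τ (β : M) / β * u := by
      rw [hu, map_div₀, map_zpow₀, hϖ, hγ]
      field_simp
    rw [e1]
    field_simp
  rw [e, map_mul, map_div₀, hβ, hwu, div_one, mul_one]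
  have := hτ.2 (β : M) hβ.le
  rwa [AlgEquiv.smul_def] at this

end C11

theorem claim_ell {p k ℓ : ℕ} [Fact p.Prime] (hℓ : ℓ.Prime) {F M : Type} [Field F] [NumberField F]
    [Field M] [NumberField M] [Algebra F M] [IsGalois F M] {R : Set (Pr F)} {A : Pr F → ZMod p}
    {lam : (ZMod ℓ)ˣ →* Multiplicative (ZMod (p ^ k))} {Θ : (M ≃ₐ[F] M) →* Multiplicative (ZMod p)}
    {Ψ : (M ≃ₐ[F] M) →* Multiplicative (ZMod (p ^ k))} {σ τ : M ≃ₐ[F] M}
    (h : Cross p k ℓ R A lam Θ Ψ σ τ) {a c : Fˣ} {β γ : Mˣ} (hB : BG p k σ τ a c β γ) {v : Pr F}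
    (hv : Above v ℓ) (hR : v ∉ R) (h1 : vl v (nu F ℓ) = 1) (ha : vl v a = 0) :
    ∃ y : Fˣ, vl v y = 0 ∧ c / (nu F ℓ ^ vl v c * y ^ p ^ k) ∈ UU v 1 := by
  obtain ⟨w, hwv⟩ := RG.H.exists_above (L := M) v
  subst hwv
  have hw : Above w ℓ := (RG.H.above_iff (K := F) w ℓ).2 hv
  have hτ := h.ram_tau w hw
  have hP : 0 < p ^ k := pow_pos (Fact.out : p.Prime).pos _
  have hram := C11_ram h w hw hR
  obtain ⟨ϖ, hσϖ, hϖ⟩ := h.unif
  have hℓ0 : ℓ ≠ 0 := hℓ.ne_zero
  have hℓM : (ℓ : M) ≠ 0 := Nat.cast_ne_zero.2 hℓ0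
  have hϖ0 : ϖ ≠ 0 := by
    rintro rfl
    apply hℓM
    rw [← hϖ]
    exact Finset.prod_eq_zero (Finset.mem_range.2 hP) (by rw [map_zero])
  have hwϖ : w.valuation M ϖ = (below w : Pr F).valuation F (ℓ : F) := by
    have h2 := C11_prodval hτ.1 ϖ (p ^ k)
    rw [hϖ, show (ℓ : M) = algebraMap F M (ℓ : F) from (map_natCast _ _).symm, hram] at h2
    exact ((pow_left_inj₀ zero_le zero_le hP.ne').1 h2).symm
  have hwγ : w.valuation M (γ : M) = (below w : Pr F).valuation F (c : F) := by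
    have h2 := C11_prodval hτ.1 (γ : M) (p ^ k)
    rw [hB.nγ, hram] at h2
    exact ((pow_left_inj₀ zero_le zero_le hP.ne').1 h2).symm
  have hvϖ : vl w (Units.mk0 ϖ hϖ0) = 1 := by
    rw [← h1]
    unfold vl
    rw [Units.val_mk0, hwϖ, nu_val hℓ0]
  have hvγ : vl w γ = vl (below w : Pr F) c := by
    unfold vl
    rw [hwγ]
  obtain ⟨u, hu⟩ : ∃ u : Mˣ, u = γ / Units.mk0 ϖ hϖ0 ^ vl (below w : Pr F) c := ⟨_, rfl⟩
  have hu0 : vl w u = 0 := by
    rw [hu, RG.H.vl_div, C11_vl_zpow, hvγ, hvϖ]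
    ring
  have hwu : w.valuation M (u : M) = 1 := RG.H.vl_eq_zero.1 hu0
  have hval : (u : M) = γ / ϖ ^ vl (below w : Pr F) c := by
    rw [hu, Units.val_div_eq_div_val, Units.val_zpow_eq_zpow_val, Units.val_mk0]
  have hprod : ∏ t ∈ Finset.range (p ^ k), (τ ^ t) (u : M) =
      algebraMap F M ((c : F) / (ℓ : F) ^ vl (below w : Pr F) c) := by
    simp_rw [hval, map_div₀, map_zpow₀]
    rw [Finset.prod_div_distrib, Finset.prod_zpow, hB.nγ, hϖ, map_natCast]
  have hτu : ∀ t : ℕ, w.valuation M ((τ ^ t) (u : M) - u) < 1 := fun t => by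
    refine C11_inpow hτ.1 ?_ t
    have := hτ.2 (u : M) hwu.le
    rwa [AlgEquiv.smul_def] at this
  have hcong : w.valuation M (∏ t ∈ Finset.range (p ^ k), (τ ^ t) (u : M) - u ^ (p ^ k)) < 1 :=
    C11_prodpow hwu.le (fun t => (τ ^ t) (u : M)) (p ^ k) hτu
  have hwa : w.valuation M (algebraMap F M a) = 1 := by
    rw [hram, RG.H.vl_eq_zero.1 ha, one_pow]
  have hclaim : ∀ g : M ≃ₐ[F] M, IsDec w g → w.valuation M (g (u : M) - u) < 1 := by
    intro g hg
    have hg' := C11_dec h g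
    generalize hi : (Multiplicative.toAdd (Θ g)).val = i at hg'
    generalize (Multiplicative.toAdd (Ψ g)).val = t at hg'
    have hσi : IsDec w (σ ^ i) := by
      intro x
      have e1 : (σ ^ i) = g * (τ ^ t)⁻¹ := by rw [hg', mul_inv_cancel_right]
      have e2 := C11_decpow hτ.1 t ((τ ^ t)⁻¹ • x)
      rw [smul_inv_smul] at e2
      rw [e1, mul_smul, hg, e2]
    have hσu : w.valuation M ((σ ^ i) (u : M) - u) < 1 := by
      rcases Nat.eq_zero_or_pos i with hi0 | hi0
      · rw [hi0, pow_zero, AlgEquiv.one_apply, sub_self, map_zero]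
        exact zero_lt_one
      · have hip : i < p := hi ▸ ZMod.val_lt _
        have hcop : Nat.Coprime i p :=
          (Nat.coprime_of_lt_prime hi0.ne' hip (Fact.out : p.Prime)).symm
        obtain ⟨j, -, hj⟩ := Nat.exists_mul_mod_eq_one_of_coprime hcop (Fact.out : p.Prime).one_lt
        have hσd : IsDec w σ := by
          have e : σ = (σ ^ i) ^ j := by
            rw [← pow_mul, ← Nat.mod_add_div (i * j) p, hj, pow_add, pow_one, pow_mul, C11_sp h,
              one_pow, mul_one]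
          rw [e]
          exact C11_decpow hσi j
        exact C11_inpow hσd (C11_sigma hB hτ hσd hwa hϖ0 hσϖ hval hwu) i
    have e : g (u : M) - u = (σ ^ i) ((τ ^ t) (u : M) - u) + ((σ ^ i) (u : M) - u) := by
      rw [hg', AlgEquiv.mul_apply, map_sub]
      ring
    rw [e]
    refine Valuation.map_add_lt _ ?_ hσu
    have := hσi ((τ ^ t) (u : M) - u)
    rw [AlgEquiv.smul_def] at this
    rw [this]
    exact hτu t
  obtain ⟨φ, hφ⟩ := exists_frobK (K := F) w
  have hq : w.valuation M ((u : M) ^ nm (below w : Pr F) - u) < 1 := by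
    have e1 := hφ.2 (u : M) hwu.le
    rw [AlgEquiv.smul_def] at e1
    have e2 : (u : M) ^ nm (below w : Pr F) - u =
        (φ (u : M) - u) - (φ (u : M) - (u : M) ^ nm (below w : Pr F)) := by ring
    rw [e2]
    exact Valuation.map_sub_lt _ (hclaim φ hφ.1) e1
  obtain ⟨y₀, hy₀⟩ := C11_res w hwu.le hq
  have hwy : w.valuation M (algebraMap F M (y₀ : F)) = 1 := by
    rw [← hwu]
    refine Valuation.map_eq_of_sub_lt _ ?_
    rw [hwu]
    exact hy₀
  have hy0 : (y₀ : F) ≠ 0 := by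
    intro h0
    rw [h0, map_zero, map_zero] at hwy
    exact zero_ne_one hwy
  have hvy : vl (below w : Pr F) (Units.mk0 (y₀ : F) hy0) = 0 := by
    rw [RG.H.vl_eq_zero, Units.val_mk0]
    rw [hram] at hwy
    refine (pow_left_inj₀ zero_le zero_le hP.ne').1 ?_
    rw [hwy, one_pow]
  refine ⟨Units.mk0 (y₀ : F) hy0, hvy, ?_, ?_⟩
  · rw [RG.H.vl_div, RG.H.vl_mul, C11_vl_zpow, RG.H.vl_pow, h1, hvy]
    ring
  · apply C11_lt_one
    rw [← pow_lt_one_iff hP.ne', ← hram, map_sub, map_one]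
    have e1 : algebraMap F M ((c / (nu F ℓ ^ vl (below w : Pr F) c *
        Units.mk0 (y₀ : F) hy0 ^ p ^ k) : Fˣ) : F) =
        (∏ t ∈ Finset.range (p ^ k), (τ ^ t) (u : M)) / (algebraMap F M (y₀ : F)) ^ p ^ k := by
      rw [hprod, Units.val_div_eq_div_val, Units.val_mul, Units.val_zpow_eq_zpow_val,
        Units.val_pow_eq_pow_val, Units.val_mk0, nu_val hℓ0, ← div_div]
      simp only [map_div₀, map_pow]
    have hyM : (algebraMap F M (y₀ : F)) ^ p ^ k ≠ 0 := by
      intro h0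
      have := congrArg (w.valuation M) h0
      rw [map_pow, hwy, one_pow, map_zero] at this
      exact one_ne_zero this
    have e2 := C11_prodpow hwu.le (fun _ => algebraMap F M (y₀ : F)) (p ^ k) (fun _ => hy₀)
    rw [Finset.prod_const, Finset.card_range] at e2
    have e3 : (∏ t ∈ Finset.range (p ^ k), (τ ^ t) (u : M)) / (algebraMap F M (y₀ : F)) ^ p ^ k - 1
        = ((∏ t ∈ Finset.range (p ^ k), (τ ^ t) (u : M) - u ^ p ^ k) -
          ((algebraMap F M (y₀ : F)) ^ p ^ k - u ^ p ^ k)) / (algebraMap F M (y₀ : F)) ^ p ^ k := by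
      rw [div_sub_one hyM]
      congr 1
      ring
    rw [e1, e3, map_div₀, map_pow, hwy, one_pow, div_one]
    exact Valuation.map_sub_lt _ hcong e2

end Pool.Agent.RGK
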