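import Mathlib
import Pool.Agent.Lib.RG.G01
import Pool.Agent.Lib.RG.H10
import Pool.Agent.Lib.RG.H24
import Pool.Agent.Lib.RGK.CXDefs
import Pool.Agent.Lib.RGK.C00

/-!
RG v4, rows C12a, C12b, C12c, C12: cyclotomic reciprocity over `F` by taking the norm to `ℚ`.

`abs_norm_prod` (row C12a). For an integral element `x ≠ 0`: `|N x| = absNorm (x)`
(`Ideal.absNorm_span_singleton`, `Algebra.coe_norm_int`) and the factorisation of the ideal `(x)`
(`Ideal.finprod_heightOneSpectrum_factorization`, the exponent of `v` is `vl v x`,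
`HeightOneSpectrum.intValuation_def`, `valuation_of_algebraMap`), `absNorm` is multiplicative. In general
`x = a / b` (`IsFractionRing.div_surjective`); both sides are multiplicative (the `finprod` has finite
support by `H.fin_vl`).

`norm_ell` (row C12b). Let `N` be a Galois closure of `F` over `ℚ` (or `N := AlgebraicClosure ℚ`
replaced by a number field containing all conjugates, e.g. `normalClosure ℚ F (AlgebraicClosure ℚ)`),
`𝔏` a prime of `N` above `ℓ`. `Algebra.norm_eq_prod_embeddings`-like: the norm of `x` is the product of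
`ι x` over the embeddings `ι : F →ₐ[ℚ] N`. For each `ι` let `v` be the prime of `F` with
`Lies ι 𝔏 v` (`RG.exists_below`, G01): `v` is above `ℓ`, `x = ℓ ^ r * u` with `u ∈ UU v 1`,
`ι x = ℓ ^ r * ι u` and `𝔏 (ι u - 1) < 1`. The product over `ι` is `ℓ ^ R * u'`, `𝔏 (u' - 1) < 1`, and
`u' = N x / ℓ ^ R` is rational: `u' = a / b` in lowest terms; `b` and `a - b`: `ℓ ∤ b` (otherwise `u'`
would not be integral at `𝔏`) and `ℓ ∣ a - b`.

`exists_Lam` (row C12c). `ℚˣ = {± 1} × free abelian group`; simplest: for `x : ℚˣ` with numerator `a` and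
denominator `b` write `a = ± ℓ ^ i * a'`, `b = ℓ ^ j * b'` and put
`Λ x = lam (a' modulo ℓ) / lam (b' modulo ℓ)`; or: `x ↦ x / ℓ ^ (padicValRat ℓ x)` is a homomorphism from
`ℚˣ` to the units of `ℤ_(ℓ)` (in `ℤ_[ℓ]ˣ`: `PadicInt`), followed by `PadicInt.toZMod` (or
`Localization`) to `(ZMod ℓ)ˣ` and `lam`. `Λ (-1) = 1` because its square is `1` and `m` is odd.

`cyc_rec` (row C12, assembly). Choose `y : Fˣ` with `y / y_v ∈ UU v 1` for the `v` above `ℓ`
(`H.weak_approx`, H10; finitely many `v`: `H.fin_above`), `x := c / y ^ m`: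
`x / ℓ ^ (vl v c) ∈ UU v 1` for `v` above `ℓ`. `norm_ell`: `N x = ℓ ^ R * z`, so
`Λ (N c) = Λ (N y) ^ m * Λ ℓ ^ R * Λ z = 1`. On the other hand `N c = ± ∏ nm v ^ vl v c` (C12a), so
`Λ (N c) = ∏ Λ (nm v) ^ vl v c` with `Λ (nm v) = jj lam (nm v)` for `v` not above `ℓ` (`isUnit_nm`) and
`nm v` a power of `ℓ` (`nm_pow`), `Λ (nm v) = 1`, `jj lam (nm v) = 0` for `v` above `ℓ`.
-/

set_option autoImplicit false

namespace Pool.Agent.RGK

open NumberField IsDedekindDomain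
open Pool.Agent.RG (Above IsDec IsInert IsFrob)
open Pool.Agent.RG.H (Pr vl UU PP emb below)

/-- the rational number `z` is a unit at `ℓ` congruent to `1` modulo `ℓ` -/
def ModOne (ℓ : ℕ) (z : ℚ) : Prop :=
  ∃ a b : ℤ, ¬ (ℓ : ℤ) ∣ b ∧ (ℓ : ℤ) ∣ a - b ∧ z = a / b

private theorem c12a_fin {F : Type} [Field F] [NumberField F] (c : Fˣ) :
    (Function.mulSupport fun v : Pr F => (nm v : ℚ) ^ vl v c).Finite := by
  obtain ⟨S, hS⟩ := RG.H.fin_vl c
  refine S.finite_toSet.subset fun v hv => ?_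
  by_contra h
  rw [Function.mem_mulSupport] at hv
  exact hv (by rw [RG.H.mem_SU.1 hS v h, zpow_zero])

private theorem c12a_nm {F : Type} [Field F] [NumberField F] (v : Pr F) : (nm v : ℚ) ≠ 0 := by
  have := one_lt_nm v
  exact_mod_cast (by omega : nm v ≠ 0)

private theorem c12a_mul {F : Type} [Field F] [NumberField F] (x y : Fˣ) :
    ∏ᶠ v : Pr F, (nm v : ℚ) ^ vl v (x * y) =
      (∏ᶠ v : Pr F, (nm v : ℚ) ^ vl v x) * ∏ᶠ v : Pr F, (nm v : ℚ) ^ vl v y := by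
  rw [← finprod_mul_distrib (c12a_fin x) (c12a_fin y)]
  refine finprod_congr fun v => ?_
  rw [RG.H.vl_mul, zpow_add₀ (c12a_nm v)]

private theorem c12a_int {F : Type} [Field F] [NumberField F] (x : 𝓞 F) (c : Fˣ)
    (h : (c : F) = algebraMap (𝓞 F) F x) :
    |Algebra.norm ℚ (c : F)| = ∏ᶠ v : Pr F, (nm v : ℚ) ^ vl v c := by
  classical
  have hx : x ≠ 0 := by
    rintro rfl
    rw [map_zero] at h
    exact c.ne_zero h
  have h1 : |Algebra.norm ℚ (c : F)| = ((Ideal.absNorm (Ideal.span {x}) : ℕ) : ℚ) := by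
    rw [Ideal.absNorm_span_singleton, h]
    have h2 : Algebra.norm ℚ (algebraMap (𝓞 F) F x) = ((Algebra.norm ℤ x : ℤ) : ℚ) :=
      (Algebra.coe_norm_int x).symm
    rw [h2, Nat.cast_natAbs]
    push_cast
    rfl
  have hI : Ideal.span {x} ≠ 0 := by
    rw [Ideal.zero_eq_bot, Ne, Ideal.span_singleton_eq_bot]
    exact hx
  rw [h1]
  set φ : Ideal (𝓞 F) →* ℚ := ((Nat.castRingHom ℚ : ℕ →+* ℚ) : ℕ →* ℚ).comp
    ((Ideal.absNorm : Ideal (𝓞 F) →*₀ ℕ) : Ideal (𝓞 F) →* ℕ) with hφ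
  have h3 : ((Ideal.absNorm (Ideal.span {x}) : ℕ) : ℚ) = φ (Ideal.span {x}) := rfl
  rw [h3]
  conv_lhs => rw [← Ideal.finprod_heightOneSpectrum_factorization hI]
  rw [MonoidHom.map_finprod φ (Ideal.hasFiniteMulSupport hI)]
  refine finprod_congr fun v => ?_
  have h4 : vl v c = ((Associates.mk v.asIdeal).count (Associates.mk (Ideal.span {x})).factors : ℤ) := by
    rw [RG.H.vl_eq_iff, h, HeightOneSpectrum.valuation_of_algebraMap,
      HeightOneSpectrum.intValuation_if_neg v hx]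
  rw [h4, HeightOneSpectrum.maxPowDividing, map_pow, zpow_natCast]
  rfl

theorem abs_norm_prod {F : Type} [Field F] [NumberField F] (c : Fˣ) :
    |Algebra.norm ℚ (c : F)| = ∏ᶠ v : Pr F, (nm v : ℚ) ^ vl v c := by
  obtain ⟨a, b, hb, hab⟩ := IsFractionRing.div_surjective (A := 𝓞 F) (c : F)
  have hb0 : b ≠ 0 := nonZeroDivisors.ne_zero hb
  have hbF : algebraMap (𝓞 F) F b ≠ 0 := by
    rw [Ne, FaithfulSMul.algebraMap_eq_zero_iff]
    exact hb0
  have haF : algebraMap (𝓞 F) F a ≠ 0 := by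
    intro h
    rw [h, zero_div] at hab
    exact c.ne_zero hab.symm
  set A : Fˣ := Units.mk0 _ haF with hA
  set B : Fˣ := Units.mk0 _ hbF with hB
  have hcB : c * B = A := by
    ext
    rw [Units.val_mul, hA, hB, Units.val_mk0, Units.val_mk0, ← hab, div_mul_cancel₀ _ hbF]
  have h1 := c12a_int a A rfl
  have h2 := c12a_int b B rfl
  have h3 := c12a_mul c B
  rw [hcB, ← h1, ← h2] at h3
  have h4 : |Algebra.norm ℚ (A : F)| = |Algebra.norm ℚ (c : F)| * |Algebra.norm ℚ (B : F)| := by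
    rw [← abs_mul, ← map_mul, ← Units.val_mul, hcB]
  have h5 : |Algebra.norm ℚ (B : F)| ≠ 0 := by
    rw [Ne, abs_eq_zero, Algebra.norm_eq_zero_iff]
    exact B.ne_zero
  rw [h4] at h3
  exact mul_right_cancel₀ h5 h3

private theorem C12b_int {N : Type} [Field N] [NumberField N] {w : Pr N} {ℓ : ℕ} (hℓ : ℓ.Prime)
    (hw : Above w ℓ) (n : ℤ) (hn : w.valuation N (n : N) < 1) : (ℓ : ℤ) ∣ n := by
  by_contra hcon
  have h1 : IsCoprime (ℓ : ℤ) n :=
    (Prime.coprime_iff_not_dvd (Nat.prime_iff_prime_int.1 hℓ)).2 hcon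
  obtain ⟨a, b, hab⟩ := h1
  have h2 : (a : N) * (ℓ : N) + (b : N) * (n : N) = 1 := by
    have := congrArg (fun z : ℤ => (z : N)) hab
    push_cast at this
    exact this
  have hint : ∀ m : ℤ, w.valuation N (m : N) ≤ 1 := by
    intro m
    have := HeightOneSpectrum.valuation_le_one (K := N) w (m : 𝓞 N)
    simpa using this
  have h3 : w.valuation N (1 : N) < 1 := by
    rw [← h2]
    refine Valuation.map_add_lt _ ?_ ?_
    · rw [map_mul]
      exact lt_of_le_of_lt (mul_le_of_le_one_left' (hint a)) hw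
    · rw [map_mul]
      exact lt_of_le_of_lt (mul_le_of_le_one_left' (hint b)) hn
  rw [map_one] at h3
  exact lt_irrefl _ h3

private theorem C12b_rat {N : Type} [Field N] [NumberField N] {w : Pr N} {ℓ : ℕ} (hℓ : ℓ.Prime)
    (hw : Above w ℓ) (z : ℚ) (hz : w.valuation N (algebraMap ℚ N z - 1) < 1) : ModOne ℓ z := by
  have hint : ∀ m : ℤ, w.valuation N (m : N) ≤ 1 := by
    intro m
    have := HeightOneSpectrum.valuation_le_one (K := N) w (m : 𝓞 N)
    simpa using this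
  have hden0 : (z.den : ℚ) ≠ 0 := by exact_mod_cast z.den_ne_zero
  have e1 : algebraMap ℚ N z * ((z.den : ℤ) : N) = ((z.num : ℤ) : N) := by
    have h1 : z * (z.den : ℚ) = (z.num : ℚ) := Rat.mul_den_eq_num z
    have h2 := congrArg (algebraMap ℚ N) h1
    rw [map_mul, map_natCast, map_intCast] at h2
    rw [← h2]
    push_cast
    rfl
  have hz1 : w.valuation N (algebraMap ℚ N z) = 1 := by
    have h1 : algebraMap ℚ N z = 1 + (algebraMap ℚ N z - 1) := by ring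
    rw [h1, Valuation.map_add_eq_of_lt_left, map_one]
    rw [map_one]
    exact hz
  have hval : w.valuation N ((z.den : ℤ) : N) = w.valuation N ((z.num : ℤ) : N) := by
    rw [← e1, map_mul, hz1, one_mul]
  have hden : ¬ (ℓ : ℤ) ∣ (z.den : ℤ) := by
    intro hd
    have h1 : w.valuation N ((z.den : ℤ) : N) < 1 := by
      obtain ⟨m, hm⟩ := hd
      rw [hm]
      push_cast
      rw [map_mul]
      exact lt_of_le_of_lt (mul_le_of_le_one_right' (hint m)) hw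
    rw [hval] at h1
    have h2 := C12b_int hℓ hw z.num h1
    have h3 : Nat.Coprime z.num.natAbs z.den := z.reduced
    have h4 : ℓ ∣ z.num.natAbs := Int.natCast_dvd.1 h2
    have h5 : ℓ ∣ z.den := Int.natCast_dvd_natCast.1 hd
    have h6 : ℓ ∣ 1 := by
      rw [← h3]
      exact Nat.dvd_gcd h4 h5
    exact hℓ.one_lt.ne' (Nat.dvd_one.1 h6)
  refine ⟨z.num, z.den, hden, ?_, ?_⟩
  · refine C12b_int hℓ hw _ ?_
    have e2 : ((z.num - (z.den : ℤ) : ℤ) : N) = (algebraMap ℚ N z - 1) * ((z.den : ℤ) : N) := by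
      rw [sub_mul, e1]
      push_cast
      ring
    rw [e2, map_mul]
    exact lt_of_le_of_lt (mul_le_of_le_one_right' (hint _)) hz
  · rw [Int.cast_natCast]
    exact (Rat.num_div_den z).symm

theorem norm_ell {ℓ : ℕ} (hℓ : ℓ.Prime) {F : Type} [Field F] [NumberField F] (x : Fˣ)
    (hx : ∀ v : Pr F, Above v ℓ → ∃ r : ℤ, x / nu F ℓ ^ r ∈ UU v 1) :
    ∃ (R : ℤ) (z : ℚ), ModOne ℓ z ∧ Algebra.norm ℚ (x : F) = (ℓ : ℚ) ^ R * z := by
  let Ω := AlgebraicClosure ℚ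
  let N := IntermediateField.normalClosure ℚ F Ω
  have : NumberField N := { to_charZero := inferInstance, to_finiteDimensional := inferInstance }
  obtain ⟨w, hw⟩ := RG.exists_above_prime N hℓ
  have hℓ0 : (ℓ : ℚ) ≠ 0 := by exact_mod_cast hℓ.ne_zero
  have hℓN : (ℓ : N) ≠ 0 := by exact_mod_cast hℓ.ne_zero
  -- every embedding
  have h1 : ∀ σ : F →ₐ[ℚ] N, ∃ (r : ℤ) (u : N), w.valuation N (u - 1) < 1 ∧
      σ (x : F) = (ℓ : N) ^ r * u := by
    intro σ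
    obtain ⟨v, hv⟩ := RG.exists_below (σ : F →+* N) w
    obtain ⟨r, hr⟩ := hx v ((hv.above_iff ℓ).1 hw)
    have hν : ((nu F ℓ : Fˣ) : F) = (ℓ : F) := nu_val hℓ.ne_zero
    refine ⟨r, σ ((x / nu F ℓ ^ r : Fˣ) : F), ?_, ?_⟩
    · have h2 : v.valuation F (((x / nu F ℓ ^ r : Fˣ) : F) - 1) < 1 := by
        refine lt_of_le_of_lt hr.2 ?_
        rw [← WithZero.exp_zero, WithZero.exp_lt_exp]
        norm_num
      have h3 := (hv (((x / nu F ℓ ^ r : Fˣ) : F) - 1)).2.2 h2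
      rw [map_sub, map_one] at h3
      exact h3
    · have h2 : (x : F) = (ℓ : F) ^ r * ((x / nu F ℓ ^ r : Fˣ) : F) := by
        rw [← hν, ← Units.val_zpow_eq_zpow_val, ← Units.val_mul, mul_div_cancel]
      conv_lhs => rw [h2]
      rw [map_mul, map_zpow₀, map_natCast]
  choose r u hu hr using h1
  -- the product
  have h2 : algebraMap ℚ N (Algebra.norm ℚ (x : F)) = ∏ σ : F →ₐ[ℚ] N, σ (x : F) := by
    apply (algebraMap N Ω).injective
    have h3 := Algebra.norm_eq_prod_embeddings ℚ Ω (x : F)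
    rw [← IsScalarTower.algebraMap_apply ℚ N Ω, h3, map_prod]
    refine (Fintype.prod_equiv (normalClosure.algHomEquiv ℚ F Ω) _ _ (fun σ => ?_)).symm
    rfl
  have h4 : algebraMap ℚ N (Algebra.norm ℚ (x : F)) =
      (ℓ : N) ^ (∑ σ : F →ₐ[ℚ] N, r σ) * ∏ σ : F →ₐ[ℚ] N, u σ := by
    rw [h2, Finset.prod_congr rfl (fun σ _ => hr σ), Finset.prod_mul_distrib]
    congr 1
    have h6 : ∀ s : Finset (F →ₐ[ℚ] N), ∏ σ ∈ s, (ℓ : N) ^ r σ = (ℓ : N) ^ ∑ σ ∈ s, r σ := by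
      intro s
      classical
      induction s using Finset.induction_on with
      | empty => simp
      | insert σ s hσ ih => rw [Finset.prod_insert hσ, Finset.sum_insert hσ, zpow_add₀ hℓN, ih]
    exact h6 _
  have h5 : w.valuation N ((∏ σ : F →ₐ[ℚ] N, u σ) - 1) < 1 := by
    have h6 : ∀ s : Finset (F →ₐ[ℚ] N), w.valuation N ((∏ σ ∈ s, u σ) - 1) < 1 := by
      intro s
      classical
      induction s using Finset.induction_on with
      | empty =>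
        rw [Finset.prod_empty, sub_self, map_zero]
        exact zero_lt_one
      | insert σ s hσ ih =>
        rw [Finset.prod_insert hσ]
        have e : u σ * (∏ σ ∈ s, u σ) - 1 = (u σ - 1) * (∏ σ ∈ s, u σ) +
            ((∏ σ ∈ s, u σ) - 1) := by ring
        rw [e]
        refine Valuation.map_add_lt _ ?_ ih
        have h7 : w.valuation N (∏ σ ∈ s, u σ) = 1 := by
          have h8 : (∏ σ ∈ s, u σ) = 1 + ((∏ σ ∈ s, u σ) - 1) := by ring
          rw [h8, Valuation.map_add_eq_of_lt_left, map_one]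
          rw [map_one]
          exact ih
        rw [map_mul, h7, mul_one]
        exact hu σ
    exact h6 _
  refine ⟨∑ σ : F →ₐ[ℚ] N, r σ, (ℓ : ℚ) ^ (-∑ σ : F →ₐ[ℚ] N, r σ) * Algebra.norm ℚ (x : F),
    C12b_rat hℓ hw _ ?_, ?_⟩
  · rw [map_mul, h4, map_zpow₀, map_natCast, ← mul_assoc, ← zpow_add₀ hℓN, neg_add_cancel,
      zpow_zero, one_mul]
    exact h5
  · rw [← mul_assoc, ← zpow_add₀ hℓ0, add_neg_cancel, zpow_zero, one_mul]

private theorem c12c_den {ℓ : ℕ} [Fact ℓ.Prime] {z : ℚ} (hz : z ≠ 0) (h : padicValRat ℓ z = 0) :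
    ¬ (ℓ : ℤ) ∣ z.num ∧ ¬ ℓ ∣ z.den := by
  have hℓ : ℓ.Prime := Fact.out
  have h1 : z.num ≠ 0 := Rat.num_ne_zero.2 hz
  have h2 : padicValInt ℓ z.num = (padicValNat ℓ z.den : ℕ) := by
    unfold padicValRat at h
    exact_mod_cast sub_eq_zero.1 h
  have h3 : z.num.natAbs.Coprime z.den := z.reduced
  by_cases h4 : ℓ ∣ z.den
  · exfalso
    have h5 : padicValNat ℓ z.den ≠ 0 := by
      have := one_le_padicValNat_of_dvd z.den_nz h4
      omega
    have h6 : padicValInt ℓ z.num ≠ 0 := by rwa [h2]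
    have h7 : ℓ ∣ z.num.natAbs := by
      by_contra h8
      exact h6 (padicValNat.eq_zero_of_not_dvd h8)
    have h8 := Nat.dvd_gcd h7 h4
    rw [h3] at h8
    exact hℓ.one_lt.ne' (Nat.dvd_one.1 h8)
  · refine ⟨fun h5 => ?_, h4⟩
    have h6 : padicValInt ℓ z.num = 0 := by
      rw [h2]
      exact padicValNat.eq_zero_of_not_dvd h4
    have h7 : ℓ ∣ z.num.natAbs := Int.natCast_dvd.1 h5
    have h8 : 1 ≤ padicValNat ℓ z.num.natAbs :=
      one_le_padicValNat_of_dvd (Int.natAbs_ne_zero.2 h1) h7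
    unfold padicValInt at h6
    omega

/-- the part prime to `ℓ` -/
private noncomputable def c12c_u (ℓ : ℕ) (x : ℚˣ) : ℚ := x * (ℓ : ℚ) ^ (-padicValRat ℓ (x : ℚ))

private theorem c12c_u_ne {ℓ : ℕ} [Fact ℓ.Prime] (x : ℚˣ) : c12c_u ℓ x ≠ 0 := by
  have hℓ : ℓ.Prime := Fact.out
  have h1 : (ℓ : ℚ) ≠ 0 := Nat.cast_ne_zero.2 hℓ.ne_zero
  exact mul_ne_zero x.ne_zero (zpow_ne_zero _ h1)

private theorem c12c_u_val {ℓ : ℕ} [Fact ℓ.Prime] (x : ℚˣ) : padicValRat ℓ (c12c_u ℓ x) = 0 := by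
  have hℓ : ℓ.Prime := Fact.out
  have h1 : (ℓ : ℚ) ≠ 0 := Nat.cast_ne_zero.2 hℓ.ne_zero
  unfold c12c_u
  rw [padicValRat.mul x.ne_zero (zpow_ne_zero _ h1), padicValRat.zpow,
    padicValRat.self hℓ.one_lt, mul_one, add_neg_cancel]

private theorem c12c_u_mul {ℓ : ℕ} [Fact ℓ.Prime] (x y : ℚˣ) :
    c12c_u ℓ (x * y) = c12c_u ℓ x * c12c_u ℓ y := by
  have hℓ : ℓ.Prime := Fact.out
  have h1 : (ℓ : ℚ) ≠ 0 := Nat.cast_ne_zero.2 hℓ.ne_zero
  unfold c12c_u
  rw [Units.val_mul, padicValRat.mul x.ne_zero y.ne_zero, neg_add, zpow_add₀ h1]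
  ring

private theorem c12c_cast_ne {ℓ : ℕ} [Fact ℓ.Prime] (x : ℚˣ) :
    (((c12c_u ℓ x).den : ℕ) : ZMod ℓ) ≠ 0 ∧ ((c12c_u ℓ x : ℚ) : ZMod ℓ) ≠ 0 := by
  obtain ⟨h1, h2⟩ := c12c_den (c12c_u_ne (ℓ := ℓ) x) (c12c_u_val x)
  have h3 : (((c12c_u ℓ x).den : ℕ) : ZMod ℓ) ≠ 0 := by
    rw [Ne, ZMod.natCast_eq_zero_iff]
    exact h2
  have h4 : (((c12c_u ℓ x).num : ℤ) : ZMod ℓ) ≠ 0 := by
    rw [Ne, ZMod.intCast_zmod_eq_zero_iff_dvd]
    exact h1
  refine ⟨h3, ?_⟩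
  rw [Rat.cast_def]
  exact div_ne_zero h4 h3

/-- the homomorphism to the units modulo `ℓ` -/
private noncomputable def c12c_g (ℓ : ℕ) [Fact ℓ.Prime] : ℚˣ →* (ZMod ℓ)ˣ :=
  MonoidHom.mk' (fun x => Units.mk0 ((c12c_u ℓ x : ℚ) : ZMod ℓ) (c12c_cast_ne x).2) (by
    intro x y
    ext
    rw [Units.val_mul, Units.val_mk0, Units.val_mk0, Units.val_mk0, c12c_u_mul,
      Rat.cast_mul_of_ne_zero (c12c_cast_ne x).1 (c12c_cast_ne y).1])

private theorem c12c_g_int {ℓ : ℕ} [Fact ℓ.Prime] (x : ℚˣ) (n : ℤ) (hn : ¬ (ℓ : ℤ) ∣ n)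
    (h : (x : ℚ) = n) : ((c12c_g ℓ x : (ZMod ℓ)ˣ) : ZMod ℓ) = n := by
  change ((c12c_u ℓ x : ℚ) : ZMod ℓ) = n
  have h1 : padicValRat ℓ (x : ℚ) = 0 := by
    rw [h, padicValRat.of_int]
    have h2 : padicValInt ℓ n = 0 := by
      unfold padicValInt
      exact padicValNat.eq_zero_of_not_dvd (fun h => hn (Int.natCast_dvd.2 h))
    rw [h2]
    rfl
  have h2 : c12c_u ℓ x = (n : ℚ) := by
    unfold c12c_u
    rw [h1, neg_zero, zpow_zero, mul_one, h]
  rw [h2, Rat.cast_intCast]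

theorem exists_Lam {ℓ m : ℕ} (hℓ : ℓ.Prime) (hm : Odd m)
    (lam : (ZMod ℓ)ˣ →* Multiplicative (ZMod m)) :
    ∃ Λ : ℚˣ →* Multiplicative (ZMod m), (∀ x : ℚˣ, (x : ℚ) = ℓ → Λ x = 1) ∧
      (∀ x : ℚˣ, (x : ℚ) = -1 → Λ x = 1) ∧
      (∀ (x : ℚˣ) (n : ℕ), IsUnit (n : ZMod ℓ) → (x : ℚ) = n →
        Λ x = Multiplicative.ofAdd (jj lam n)) ∧
      ∀ x : ℚˣ, ModOne ℓ (x : ℚ) → Λ x = 1 := by
  have : Fact ℓ.Prime := ⟨hℓ⟩
  have hℓ0 : (ℓ : ℚ) ≠ 0 := Nat.cast_ne_zero.2 hℓ.ne_zero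
  refine ⟨lam.comp (c12c_g ℓ), ?_, ?_, ?_, ?_⟩
  · intro x hx
    rw [MonoidHom.comp_apply]
    have h1 : c12c_g ℓ x = 1 := by
      ext
      change ((c12c_u ℓ x : ℚ) : ZMod ℓ) = 1
      unfold c12c_u
      rw [hx, padicValRat.self hℓ.one_lt, zpow_neg, zpow_one, mul_inv_cancel₀ hℓ0, Rat.cast_one]
    rw [h1, map_one]
  · intro x hx
    have h1 : x ^ 2 = 1 := by
      ext
      rw [Units.val_pow_eq_pow_val, hx, Units.val_one]
      norm_num
    have h2 : (lam.comp (c12c_g ℓ) x) ^ 2 = 1 := by rw [← map_pow, h1, map_one]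
    have h3 : (lam.comp (c12c_g ℓ) x) ^ m = 1 := by
      generalize lam.comp (c12c_g ℓ) x = z
      have h4 : (m : ℕ) • Multiplicative.toAdd z = 0 := by
        rw [nsmul_eq_mul, ZMod.natCast_self, zero_mul]
      exact h4
    have h5 := pow_gcd_eq_one.2 ⟨h2, h3⟩
    have h6 : Nat.gcd 2 m = 1 := (Nat.coprime_two_left.2 hm)
    rwa [h6, pow_one] at h5
  · intro x n hn hx
    have h1 : ¬ (ℓ : ℤ) ∣ (n : ℤ) := by
      intro h
      have h2 : ((n : ℕ) : ZMod ℓ) = 0 := (ZMod.natCast_eq_zero_iff _ _).2 (Int.natCast_dvd_natCast.1 h)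
      rw [h2] at hn
      exact not_isUnit_zero hn
    have h2 := c12c_g_int x (n : ℤ) h1 (by rw [hx]; norm_num)
    rw [MonoidHom.comp_apply]
    have h3 := jj_eq lam (c12c_g ℓ x) (n := n) (by rw [h2]; norm_num)
    rw [h3]
    rfl
  · rintro x ⟨a, b, hb, hab, hx⟩
    have ha : ¬ (ℓ : ℤ) ∣ a := by
      intro h
      exact hb ((dvd_sub_right h).1 hab)
    have ha0 : (a : ℚ) ≠ 0 := by
      intro h
      have : a = 0 := by exact_mod_cast h
      rw [this] at ha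
      exact ha (dvd_zero _)
    have hb0 : (b : ℚ) ≠ 0 := by
      intro h
      have : b = 0 := by exact_mod_cast h
      rw [this] at hb
      exact hb (dvd_zero _)
    have h1 : x * Units.mk0 (b : ℚ) hb0 = Units.mk0 (a : ℚ) ha0 := by
      ext
      rw [Units.val_mul, Units.val_mk0, Units.val_mk0, hx, div_mul_cancel₀ _ hb0]
    have h2 := c12c_g_int (Units.mk0 (a : ℚ) ha0) a ha rfl
    have h3 := c12c_g_int (Units.mk0 (b : ℚ) hb0) b hb rfl
    have h4 : ((a : ℤ) : ZMod ℓ) = b := by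
      rw [ZMod.intCast_eq_intCast_iff_dvd_sub]
      rwa [← dvd_neg, neg_sub]
    have h5 : c12c_g ℓ (Units.mk0 (a : ℚ) ha0) = c12c_g ℓ (Units.mk0 (b : ℚ) hb0) := by
      ext
      rw [h2, h3, h4]
    have h6 := map_mul (c12c_g ℓ) x (Units.mk0 (b : ℚ) hb0)
    rw [h1, h5] at h6
    have h7 : c12c_g ℓ x = 1 := by
      have := mul_right_cancel (a := 1) (b := c12c_g ℓ (Units.mk0 (b : ℚ) hb0)) (c := c12c_g ℓ x)
        (by rw [one_mul]; exact h6)
      exact this.symm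
    rw [MonoidHom.comp_apply, h7, map_one]

theorem cyc_rec {ℓ m : ℕ} (hℓ : ℓ.Prime) (hm : Odd m)
    (lam : (ZMod ℓ)ˣ →* Multiplicative (ZMod m)) {F : Type} [Field F] [NumberField F] (c : Fˣ)
    (hc : ∀ v : Pr F, Above v ℓ → ∃ y : Fˣ, vl v y = 0 ∧
      c / (nu F ℓ ^ vl v c * y ^ m) ∈ UU v 1) :
    ∑ᶠ v : Pr F, jj lam (nm v) * ((vl v c : ℤ) : ZMod m) = 0 := by
  classical
  obtain ⟨S, hS⟩ := Pool.Agent.RG.H.fin_above (K := F) ℓ hℓ.ne_zero
  have hch : ∀ v : Pr F, ∃ y : Fˣ, Above v ℓ → vl v y = 0 ∧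
      c / (nu F ℓ ^ vl v c * y ^ m) ∈ UU v 1 := by
    intro v
    by_cases hv : Above v ℓ
    · obtain ⟨y, hy⟩ := hc v hv
      exact ⟨y, fun _ => hy⟩
    · exact ⟨1, fun h => absurd h hv⟩
  choose y hy using hch
  obtain ⟨Y, hY⟩ := Pool.Agent.RG.H.weak_approx S y 1
  have hx : ∀ v : Pr F, Above v ℓ → ∃ r : ℤ, (c / Y ^ m) / nu F ℓ ^ r ∈ UU v 1 := by
    intro v hv
    refine ⟨vl v c, ?_⟩
    have h1 := (hy v hv).2
    have h2 := hY v (hS v hv)
    have h3 := (UU v 1).mul_mem h1 ((UU v 1).inv_mem ((UU v 1).pow_mem h2 m))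
    have h4 : (c / Y ^ m) / nu F ℓ ^ vl v c =
        c / (nu F ℓ ^ vl v c * y v ^ m) * ((Y / y v) ^ m)⁻¹ := by
      rw [div_pow, inv_div, div_mul_div_comm, div_div,
        mul_comm (nu F ℓ ^ vl v c) (y v ^ m), mul_comm c (y v ^ m), mul_assoc,
        mul_div_mul_left_eq_div, mul_comm (nu F ℓ ^ vl v c) (Y ^ m)]
    rw [h4]
    exact h3
  obtain ⟨R, z, hz, hN⟩ := norm_ell hℓ (c / Y ^ m) hx
  obtain ⟨Λ, hΛℓ, hΛ1, hΛn, hΛz⟩ := exists_Lam hℓ hm lam
  have hpm : ∀ g : Multiplicative (ZMod m), g ^ m = 1 := by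
    intro g
    rw [← ofAdd_toAdd g, ← ofAdd_nsmul, nsmul_eq_mul, ZMod.natCast_self, zero_mul, ofAdd_zero]
  have hℓ0 : (ℓ : ℚ) ≠ 0 := Nat.cast_ne_zero.2 hℓ.ne_zero
  have hNc : Λ (Pool.Agent.RG.H.nrm ℚ F c) = 1 := by
    have h1 : Pool.Agent.RG.H.nrm ℚ F c = Pool.Agent.RG.H.nrm ℚ F (c / Y ^ m) * (Pool.Agent.RG.H.nrm ℚ F Y) ^ m := by
      rw [← map_pow, ← map_mul, div_mul_cancel]
    have hz0 : z ≠ 0 := by
      intro h0
      have h2 : Algebra.norm ℚ (((c / Y ^ m : Fˣ)) : F) ≠ 0 := by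
        rw [← Pool.Agent.RG.H.nrm_val]
        exact Units.ne_zero _
      rw [hN, h0, mul_zero] at h2
      exact h2 rfl
    have h2 : Pool.Agent.RG.H.nrm ℚ F (c / Y ^ m) = (Units.mk0 (ℓ : ℚ) hℓ0) ^ R * Units.mk0 z hz0 := by
      ext
      rw [Pool.Agent.RG.H.nrm_val, hN, Units.val_mul, Units.val_zpow_eq_zpow_val, Units.val_mk0, Units.val_mk0]
    rw [h1, h2, map_mul, map_mul, map_zpow, map_pow, hpm, hΛℓ _ (Units.val_mk0 hℓ0), one_zpow,
      hΛz _ (by rw [Units.val_mk0]; exact hz), mul_one, mul_one]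
  have hnm0 : ∀ v : Pr F, (nm v : ℚ) ≠ 0 := fun v =>
    Nat.cast_ne_zero.2 (by have := one_lt_nm v; omega)
  have hΛv : ∀ v : Pr F, Λ (Units.mk0 (nm v : ℚ) (hnm0 v)) = Multiplicative.ofAdd (jj lam (nm v)) := by
    intro v
    by_cases hv : Above v ℓ
    · obtain ⟨f, hf, hnm⟩ := nm_pow v hℓ hv
      have h1 : ¬ IsUnit (nm v : ZMod ℓ) := by
        rw [isUnit_nm hℓ v]
        exact fun h => h hv
      rw [jj_eq_zero lam h1, ofAdd_zero]
      have h2 : Units.mk0 (nm v : ℚ) (hnm0 v) = (Units.mk0 (ℓ : ℚ) hℓ0) ^ f := by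
        ext
        rw [Units.val_pow_eq_pow_val, Units.val_mk0, Units.val_mk0, hnm, Nat.cast_pow]
      rw [h2, map_pow, hΛℓ _ (Units.val_mk0 hℓ0), one_pow]
    · exact hΛn _ _ ((isUnit_nm hℓ v).2 hv) (Units.val_mk0 _)
  obtain ⟨T, hT⟩ := Pool.Agent.RG.H.fin_vl c
  have hT' : ∀ v : Pr F, v ∉ T → vl v c = 0 := hT
  have h5 := abs_norm_prod c
  rw [finprod_eq_prod_of_mulSupport_subset (s := T) _ (by
    intro v hv
    rw [Function.mem_mulSupport] at hv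
    by_contra hvT
    exact hv (by rw [hT' v (by simpa using hvT), zpow_zero]))] at h5
  rw [finsum_eq_sum_of_support_subset (s := T) _ (by
    intro v hv
    rw [Function.mem_support] at hv
    by_contra hvT
    exact hv (by rw [hT' v (by simpa using hvT), Int.cast_zero, mul_zero]))]
  have h6 : Λ (∏ v ∈ T, Units.mk0 (nm v : ℚ) (hnm0 v) ^ vl v c) =
      Multiplicative.ofAdd (∑ v ∈ T, jj lam (nm v) * ((vl v c : ℤ) : ZMod m)) := by
    rw [map_prod, ofAdd_sum]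
    refine Finset.prod_congr rfl fun v _ => ?_
    rw [map_zpow, hΛv, ← ofAdd_zsmul, zsmul_eq_mul, mul_comm]
  have h7 : ((∏ v ∈ T, Units.mk0 (nm v : ℚ) (hnm0 v) ^ vl v c : ℚˣ) : ℚ) =
      ∏ v ∈ T, (nm v : ℚ) ^ vl v c := by
    rw [Units.coe_prod]
    refine Finset.prod_congr rfl fun v _ => ?_
    rw [Units.val_zpow_eq_zpow_val, Units.val_mk0]
  rw [← Pool.Agent.RG.H.nrm_val, ← h7] at h5
  have h8 : Λ (∏ v ∈ T, Units.mk0 (nm v : ℚ) (hnm0 v) ^ vl v c) = 1 := by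
    rcases abs_choice ((Pool.Agent.RG.H.nrm ℚ F c : ℚˣ) : ℚ) with h | h
    · rw [h] at h5
      rw [← Units.ext h5]
      exact hNc
    · rw [h] at h5
      have h9 : (∏ v ∈ T, Units.mk0 (nm v : ℚ) (hnm0 v) ^ vl v c) = (-1) * Pool.Agent.RG.H.nrm ℚ F c := by
        ext
        rw [← h5, Units.val_mul, Units.val_neg, Units.val_one, neg_one_mul]
      rw [h9, map_mul, hNc, hΛ1 _ (by rw [Units.val_neg, Units.val_one]), mul_one]
  rw [h6] at h8
  exact Multiplicative.ofAdd.injective (h8.trans ofAdd_zero.symm)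

end Pool.Agent.RGK
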