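import Mathlib
import Pool.Agent.Lib.RG.E32
import Pool.Agent.Lib.RG.G01
import Pool.Agent.Lib.RG.H03
import Pool.Agent.Lib.RGK.CXDefs

/-!
RG v4, rows C13a, C13b.

`fin_ram_rat` (row C13a): only finitely many prime numbers `ℓ` are ramified in the number field `F`. Let
`N` be a Galois closure of `F` over `ℚ` (`normalClosure ℚ F (AlgebraicClosure F)` or similar, with an
`F`-algebra structure). `RG.finite_ramified N` (E32): for `ℓ` outside a finite set all inertia groups of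
`N / ℚ` above `ℓ` are trivial, so the ramification index of `N / ℚ` is `1` there: `vl w ℓ = 1` (`H.e_one` with `K = ℚ`
and `vl v ℓ = 1` for the prime `v` of `ℚ` above `ℓ`; or `Ideal.card_inertia_eq_ramificationIdxIn`). For a
prime `v` of `F` above `ℓ` take `w` above `v` (`H.exists_above`): `1 = vl w ℓ = e * vl v ℓ` (`H.exists_e`),
`vl v ℓ ≥ 1`. Alternatively use the discriminant or the different of `F`.

`jj_ne_zero` (row C13b): `(ZMod ℓ)ˣ` is cyclic of order `ℓ - 1`, `lam` is onto a cyclic group of order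
`p ^ k`, so its kernel is the group of the `p ^ k`-th powers, and `lam u` is `p` times something iff `u` is
a `p`-th power (a generator `g` goes to a generator of `ZMod (p ^ k)`, i.e. to a unit; `u = g ^ s`;
`p ∣ s` iff `u` is a `p`-th power because `p ∣ ℓ - 1`). So the residue `s` of `jj lam q` is prime to `p`,
`jj lam (q ^ f) = f * jj lam q` (`jj_mul`), and `jj lam q` is a unit of `ZMod (p ^ k)`, so
`f * jj lam q = 0` iff `p ^ k ∣ f`.
-/

set_option autoImplicit false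

namespace Pool.Agent.RGK

open NumberField IsDedekindDomain
open Pool.Agent.RG (Above IsDec IsInert IsFrob)
open Pool.Agent.RG.H (Pr vl UU PP emb below)

private theorem C13a_unique {F : Type} [Field F] [NumberField F] (v : Pr F) {ℓ ℓ' : ℕ}
    (hℓ : ℓ.Prime) (hℓ' : ℓ'.Prime) (h : Above v ℓ) (h' : Above v ℓ') : ℓ = ℓ' := by
  by_contra hne
  have hco : Nat.Coprime ℓ ℓ' := (Nat.coprime_primes hℓ hℓ').2 hne
  have hb : (1 : ℤ) = ℓ * Nat.gcdA ℓ ℓ' + ℓ' * Nat.gcdB ℓ ℓ' := by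
    have h0 := Nat.gcd_eq_gcd_ab ℓ ℓ'
    rw [hco.gcd_eq_one] at h0
    exact_mod_cast h0
  have hF : (1 : F) = (ℓ : F) * (Nat.gcdA ℓ ℓ' : F) + (ℓ' : F) * (Nat.gcdB ℓ ℓ' : F) := by
    exact_mod_cast congrArg (Int.cast : ℤ → F) hb
  have hint : ∀ z : ℤ, v.valuation F (z : F) ≤ 1 := by
    intro z
    have e1 : ((z : 𝓞 F) : F) = (z : F) := map_intCast (algebraMap (𝓞 F) F) z
    rw [← e1]
    exact v.valuation_le_one (K := F) (z : 𝓞 F)
  have h1 : v.valuation F (1 : F) < 1 := by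
    rw [hF]
    refine Valuation.map_add_lt _ ?_ ?_
    · rw [map_mul]
      exact mul_lt_one_of_lt_of_le h (hint _)
    · rw [map_mul]
      exact mul_lt_one_of_lt_of_le h' (hint _)
  rw [map_one] at h1
  exact lt_irrefl _ h1

theorem fin_ram_rat (F : Type) [Field F] [NumberField F] :
    ∃ S : Finset ℕ, ∀ ℓ : ℕ, ℓ.Prime → ℓ ∉ S → ∀ v : Pr F, Above v ℓ → vl v (nu F ℓ) = 1 := by
  classical
  have hD : differentIdeal ℤ (𝓞 F) ≠ 0 := differentIdeal_ne_bot
  have hfin := Ideal.finite_factors hD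
  have hS : (⋃ v ∈ {v : Pr F | v.asIdeal ∣ differentIdeal ℤ (𝓞 F)},
      {ℓ : ℕ | ℓ.Prime ∧ Above v ℓ}).Finite :=
    hfin.biUnion fun v _ => Set.Subsingleton.finite
      (fun ℓ h ℓ' h' => C13a_unique v h.1 h'.1 h.2 h'.2)
  refine ⟨hS.toFinset, fun ℓ hℓ hnot v hv => ?_⟩
  have hnd : ¬ v.asIdeal ∣ differentIdeal ℤ (𝓞 F) := by
    intro hdvd
    apply hnot
    rw [Set.Finite.mem_toFinset]
    exact Set.mem_biUnion hdvd ⟨hℓ, hv⟩
  have hval : v.valuation F (ℓ : F) = v.intValuation (ℓ : 𝓞 F) := by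
    have e1 : ((ℓ : 𝓞 F) : F) = (ℓ : F) := map_natCast (algebraMap (𝓞 F) F) ℓ
    rw [← e1]
    exact v.valuation_of_algebraMap (K := F) (ℓ : 𝓞 F)
  have h2 : ¬ v.valuation F (ℓ : F) ≤ WithZero.exp (-((2 : ℕ) : ℤ)) := by
    rw [hval, HeightOneSpectrum.intValuation_le_pow_iff_dvd]
    intro h
    apply hnd
    have hmax : (Ideal.span {(ℓ : ℤ)}).IsMaximal :=
      PrincipalIdealRing.isMaximal_of_irreducible (Nat.prime_iff_prime_int.1 hℓ).irreducible
    have hne : Ideal.span {(ℓ : ℤ)} ≠ ⊥ := by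
      rw [Ne, Ideal.span_singleton_eq_bot]
      exact_mod_cast hℓ.ne_zero
    have h5 := pow_sub_one_dvd_differentIdeal ℤ (p := Ideal.span {(ℓ : ℤ)}) v.asIdeal 2 hne (by
      rw [Ideal.map_span, Set.image_singleton, map_natCast]
      exact h)
    rwa [show 2 - 1 = 1 from rfl, pow_one] at h5
  have e := RG.H.val_eq v (nu F ℓ)
  rw [nu_val hℓ.ne_zero] at e
  have h3 : 0 < vl v (nu F ℓ) := by
    have hv' : v.valuation F (ℓ : F) < 1 := hv
    rw [e, ← WithZero.exp_zero, WithZero.exp_lt_exp] at hv'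
    omega
  have h4 : ¬ 2 ≤ vl v (nu F ℓ) := by
    intro h4
    apply h2
    rw [e, WithZero.exp_le_exp]
    push_cast
    omega
  omega

theorem jj_ne_zero {p k ℓ : ℕ} (hp : p.Prime) (hk : 0 < k) (hℓ : ℓ.Prime) (hℓk : ℓ % p ^ k = 1)
    (lam : (ZMod ℓ)ˣ →* Multiplicative (ZMod (p ^ k))) (hlam : Function.Surjective lam) {q f : ℕ}
    (hq : ¬ ∃ y : ZMod ℓ, y ^ p = (q : ZMod ℓ)) (hf : ¬ p ^ k ∣ f) : jj lam (q ^ f) ≠ 0 := by
  classical
  have hfl : Fact ℓ.Prime := ⟨hℓ⟩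
  have hfp : Fact p.Prime := ⟨hp⟩
  have hpk0 : p ^ k ≠ 0 := pow_ne_zero _ hp.ne_zero
  have hne : NeZero (p ^ k) := ⟨hpk0⟩
  have hq0 : (q : ZMod ℓ) ≠ 0 := by
    intro h0
    exact hq ⟨0, by rw [h0, zero_pow hp.ne_zero]⟩
  set u : (ZMod ℓ)ˣ := Units.mk0 (q : ZMod ℓ) hq0 with hu
  have hker : ∀ x : (ZMod ℓ)ˣ, lam x = 1 → ∃ y : (ZMod ℓ)ˣ, y ^ p = x := by
    intro x hx
    obtain ⟨g, hg⟩ := IsCyclic.exists_generator (α := (ZMod ℓ)ˣ)
    obtain ⟨s, hs⟩ := Subgroup.mem_zpowers_iff.1 (hg x)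
    have hN : orderOf g = Nat.card (ZMod ℓ)ˣ := orderOf_eq_card_of_forall_mem_zpowers hg
    have hc := Subgroup.card_mul_index lam.ker
    rw [Subgroup.index_ker, MonoidHom.range_eq_top.2 hlam, Subgroup.card_top,
      Nat.card_congr Multiplicative.toAdd, Nat.card_zmod] at hc
    have hc0 : 0 < Nat.card lam.ker := Nat.card_pos
    have hxc : x ^ Nat.card lam.ker = 1 := by
      have h1 := pow_card_eq_one' (G := lam.ker) (x := ⟨x, MonoidHom.mem_ker.2 hx⟩)
      have h2 := congrArg Subtype.val h1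
      rw [Subgroup.coe_pow, Subgroup.coe_one] at h2
      exact h2
    have h3 : g ^ (s * (Nat.card lam.ker : ℤ)) = 1 := by
      rw [zpow_mul, hs, zpow_natCast, hxc]
    have h4 : ((orderOf g : ℕ) : ℤ) ∣ s * (Nat.card lam.ker : ℤ) :=
      orderOf_dvd_iff_zpow_eq_one.2 h3
    rw [hN, ← hc] at h4
    push_cast at h4
    rw [mul_comm s] at h4
    have h5 : ((p : ℤ) ^ k) ∣ s :=
      (mul_dvd_mul_iff_left (by exact_mod_cast hc0.ne')).1 h4
    have h6 : (p : ℤ) ∣ s := (dvd_pow_self (p : ℤ) hk.ne').trans h5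
    obtain ⟨r, hr⟩ := h6
    refine ⟨g ^ r, ?_⟩
    rw [← hs, hr, mul_comm (p : ℤ), zpow_mul, zpow_natCast]
  have hunit : IsUnit (Multiplicative.toAdd (lam u)) := by
    by_contra hnu
    set a : ZMod (p ^ k) := Multiplicative.toAdd (lam u) with ha
    have hpa : p ∣ a.val := by
      by_contra hpa
      apply hnu
      have h1 : Nat.Coprime a.val (p ^ k) :=
        Nat.Coprime.pow_right k ((Nat.Prime.coprime_iff_not_dvd hp).2 hpa).symm
      have h2 := (ZMod.isUnit_iff_coprime a.val (p ^ k)).2 h1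
      rw [ZMod.natCast_zmod_val] at h2
      exact h2
    obtain ⟨b, hb⟩ := hpa
    obtain ⟨w, hw⟩ := hlam (Multiplicative.ofAdd (b : ZMod (p ^ k)))
    have h1 : lam (u / w ^ p) = 1 := by
      rw [map_div, map_pow, hw, div_eq_one, ← ofAdd_nsmul, ← ofAdd_toAdd (lam u)]
      congr 1
      rw [← ha, ← ZMod.natCast_zmod_val a, hb, nsmul_eq_mul]
      push_cast
      ring
    obtain ⟨y, hy⟩ := hker _ h1
    refine hq ⟨((y * w : (ZMod ℓ)ˣ) : ZMod ℓ), ?_⟩
    rw [← Units.val_pow_eq_pow_val, mul_pow, hy, div_mul_cancel, hu, Units.val_mk0]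
  have hjj : jj lam (q ^ f) = (f : ZMod (p ^ k)) * Multiplicative.toAdd (lam u) := by
    rw [jj_eq lam (u ^ f) (by rw [Units.val_pow_eq_pow_val, hu, Units.val_mk0, Nat.cast_pow]),
      map_pow, toAdd_pow, nsmul_eq_mul]
  rw [hjj]
  intro h0
  have h1 : (f : ZMod (p ^ k)) = 0 := (hunit.mul_left_eq_zero).1 h0
  exact hf ((ZMod.natCast_eq_zero_iff f (p ^ k)).1 h1)

end Pool.Agent.RGK
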