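import Mathlib
import Pool.Agent.Lib.RGK.CXDefs
import Pool.Agent.Lib.RGK.C00
import Pool.Agent.Lib.RGK.C03
import Pool.Agent.Lib.RGK.C06
import Pool.Agent.Lib.RGK.C07
import Pool.Agent.Lib.RGK.C09
import Pool.Agent.Lib.RGK.C10
import Pool.Agent.Lib.RGK.C11
import Pool.Agent.Lib.RGK.C12
import Pool.Agent.Lib.RGK.C13

/-!
RG v4, row C14: the reciprocity law for cyclic extensions `L / F` of degree `p`, unramified above `p`,
of a number field which contains the `p`-th roots of unity (assembly).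

Let `B` be the finite set of the `v` with `vl v a ≠ 0` (`H.fin_vl`), `Q` the set of their residue
characteristics (`RG.exists_prime_above`). Choose `k > 0` such that `p ^ k` is larger than the exponents
`f` in `nm v = q ^ f` (`nm_pow`, C00) for `v ∈ B`. `exists_ell` (C03) for `k`, `Q` and the finite set of
the numbers in the set of C13a and of the residue characteristics of the primes in `B` and in `RamS L`
(finite: `H.fin_ram`, H03) gives `ℓ`. `exists_cross` (C06). `cross_norm`, `cross_h90` (C07): the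
condition `haj` is `jj_ne_zero` (C13b). `cyc_rec` (C12) with `m = p ^ k` (odd) and `claim_ell` (C11):
`∑ᶠ v, jj lam (nm v) * vl v c = 0`. Term by term: `v ∉ RamS L`, not above `ℓ`: C09; `v ∈ RamS L`: C10 gives
`0` (and `vl v a = 0`); `v` above `ℓ`: `jj lam (nm v) = 0` (`jj_eq_zero`, `isUnit_nm`) and `vl v a = 0`.
So `∑ᶠ v, (A v).val * p ^ (k - 1) * vl v a = 0` in `ZMod (p ^ k)`. All sums are over a finite set of
primes containing the supports of `a` and `c` (`finsum_eq_sum_of_support_subset`). As integers: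
`p ^ k ∣ p ^ (k - 1) * ∑ (A v).val * vl v a`, so `p ∣ ∑ (A v).val * vl v a`.
-/

set_option autoImplicit false

namespace Pool.Agent.RGK

open NumberField IsDedekindDomain
open Pool.Agent.RG (Above IsDec IsInert IsFrob)
open Pool.Agent.RG.H (Pr vl UU PP emb below)

theorem rec_F {p : ℕ} [Fact p.Prime] (hp2 : p ≠ 2) {F L : Type} [Field F] [NumberField F]
    [Field L] [NumberField L] [Algebra F L] [IsGalois F L] {ζ : F} (hζ : IsPrimitiveRoot ζ p)
    (hL : Module.finrank F L = p) (hRp : ∀ v ∈ (RamS L : Set (Pr F)), ¬ Above v p)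
    (θ : (L ≃ₐ[F] L) →* Multiplicative (ZMod p)) (hθ : Function.Injective θ)
    (A : Pr F → ZMod p)
    (hA : ∀ w : Pr L, (below w : Pr F) ∉ RamS L → ∀ g : L ≃ₐ[F] L,
      IsFrob w (nm (below w : Pr F)) g → θ g = Multiplicative.ofAdd (A (below w)))
    (a : Fˣ) (ha : ∀ v ∈ (RamS L : Set (Pr F)), a ∈ UU v 1) :
    ∑ᶠ v : Pr F, ((vl v a : ℤ) : ZMod p) * A v = 0 := by
  classical
  have hp : p.Prime := Fact.out
  obtain ⟨Sa, hSa⟩ := RG.H.fin_vl a
  have hSa' : ∀ v, v ∉ Sa → vl v a = 0 := RG.H.mem_SU.1 hSa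
  choose q hqp hqa using fun v : Pr F => RG.exists_prime_above v
  choose f hf0 hf using fun v : Pr F => nm_pow v (hqp v) (hqa v)
  obtain ⟨k, hk, hk'⟩ : ∃ k : ℕ, 0 < k ∧ ∀ v ∈ Sa, ¬ p ^ k ∣ f v := by
    refine ⟨Sa.sup f + 1, Nat.succ_pos _, fun v hv h => ?_⟩
    have h1 := Nat.le_of_dvd (hf0 v) h
    have h2 : f v ≤ Sa.sup f := Finset.le_sup hv
    have h3 : Sa.sup f + 1 < p ^ (Sa.sup f + 1) := Nat.lt_pow_self hp.one_lt
    omega
  obtain ⟨S13, hS13⟩ := fin_ram_rat F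
  have hfin : (RamS L : Set (Pr F)).Finite := by
    refine ((RG.H.fin_ram (K := F) (L := L)).image fun w : Pr L => (below w : Pr F)).subset ?_
    rintro v ⟨w, hw, g, hg, hg1⟩
    exact ⟨w, ⟨g, hg1, hg⟩, hw⟩
  obtain ⟨SR, hSR⟩ : ∃ SR : Finset (Pr F), SR = hfin.toFinset := ⟨_, rfl⟩
  have hSR' : ∀ v ∈ (RamS L : Set (Pr F)), v ∈ SR := fun v hv => by
    rw [hSR, Set.Finite.mem_toFinset]
    exact hv
  obtain ⟨ℓ, hℓ, hℓF, hℓQ, hℓp, hℓk, hℓq⟩ := exists_ell hp hp2 hk (Sa.image q) (fun r hr => by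
    obtain ⟨v, _, rfl⟩ := Finset.mem_image.1 hr
    exact hqp v) (S13 ∪ SR.image q)
  rw [Finset.mem_union, not_or] at hℓF
  have hF : ∀ v : Pr F, Above v ℓ → vl v (nu F ℓ) = 1 := hS13 ℓ hℓ hℓF.1
  have hRℓ : ∀ v : Pr F, Above v ℓ → v ∉ RamS L := by
    intro v hv hR
    apply hℓF.2
    rw [RG.Above.unique hℓ (hqp v) hv (hqa v)]
    exact Finset.mem_image_of_mem _ (hSR' v hR)
  have haℓ : ∀ v : Pr F, Above v ℓ → vl v a = 0 := by
    intro v hv
    apply hSa'
    intro h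
    apply hℓQ
    rw [RG.Above.unique hℓ (hqp v) hv (hqa v)]
    exact Finset.mem_image_of_mem _ h
  obtain ⟨M, _, _, _, _, lam, Θ, Ψ, σ, τ, hlam, h⟩ :=
    exists_cross hp2 hk hℓ hℓk hL θ hθ A hA hF hRℓ
  have haj : ∀ v : Pr F, vl v a ≠ 0 → jj lam (nm v) ≠ 0 := by
    intro v hv
    have hvS : v ∈ Sa := by
      by_contra hn
      exact hv (hSa' v hn)
    rw [hf v]
    exact jj_ne_zero hp hk hℓ hℓk lam hlam (hℓq _ (Finset.mem_image_of_mem _ hvS)) (hk' v hvS)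
  obtain ⟨β, hβ⟩ := cross_norm hp2 h hζ hRp a ha haℓ haj
  obtain ⟨c, γ, hB⟩ := cross_h90 h a β hβ
  have hodd : Odd (p ^ k) := (hp.odd_of_ne_two hp2).pow
  have h0 := cyc_rec hℓ hodd lam c (fun v hv =>
    claim_ell hℓ h hB hv (hRℓ v hv) (hF v hv) (haℓ v hv))
  have h1 : ∀ v : Pr F, jj lam (nm v) * ((vl v c : ℤ) : ZMod (p ^ k)) =
      - (((A v).val : ZMod (p ^ k)) * (p : ZMod (p ^ k)) ^ (k - 1) *
        ((vl v a : ℤ) : ZMod (p ^ k))) := by
    intro v
    by_cases hvℓ : Above v ℓ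
    · rw [jj_eq_zero lam (fun hu => (isUnit_nm hℓ v).1 hu hvℓ), haℓ v hvℓ, Int.cast_zero, zero_mul,
        mul_zero, neg_zero]
    · by_cases hvR : v ∈ (RamS L : Set (Pr F))
      · rw [claim_ram h hB hvR hvℓ (hRp v hvR) (nm_mod hp hζ (hRp v hvR)) (ha v hvR),
          (RG.H.mem_UU.1 (ha v hvR)).1, Int.cast_zero, mul_zero, neg_zero]
      · exact eq_neg_of_add_eq_zero_left (claim_unr hk h hB hvR hvℓ)
  have h2 : (fun v : Pr F => jj lam (nm v) * ((vl v c : ℤ) : ZMod (p ^ k))) = fun v : Pr F =>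
      - (((A v).val : ZMod (p ^ k)) * (p : ZMod (p ^ k)) ^ (k - 1) *
        ((vl v a : ℤ) : ZMod (p ^ k))) := funext h1
  rw [h2, finsum_eq_sum_of_support_subset (s := Sa) _ (fun v hv => by
    by_contra hn
    rw [Function.mem_support] at hv
    apply hv
    rw [hSa' v hn, Int.cast_zero, mul_zero, neg_zero])] at h0
  have h3 : (((p : ℤ) ^ (k - 1) * ∑ v ∈ Sa, ((A v).val : ℤ) * vl v a : ℤ) : ZMod (p ^ k)) = 0 := by
    rw [← neg_eq_zero, ← h0, Finset.sum_neg_distrib, neg_inj]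
    push_cast
    rw [Finset.mul_sum]
    refine Finset.sum_congr rfl fun v _ => ?_
    ring
  rw [ZMod.intCast_zmod_eq_zero_iff_dvd] at h3
  have h4 : ((p ^ k : ℕ) : ℤ) = (p : ℤ) ^ (k - 1) * p := by
    rw [← pow_succ, Nat.sub_add_cancel hk]
    push_cast
    rfl
  rw [h4] at h3
  have h5 : (p : ℤ) ∣ ∑ v ∈ Sa, ((A v).val : ℤ) * vl v a :=
    Int.dvd_of_mul_dvd_mul_left (pow_ne_zero _ (Int.natCast_ne_zero.2 hp.ne_zero)) h3
  rw [← ZMod.intCast_zmod_eq_zero_iff_dvd] at h5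
  rw [finsum_eq_sum_of_support_subset (s := Sa) _ (fun v hv => by
    by_contra hn
    rw [Function.mem_support] at hv
    apply hv
    rw [hSa' v hn, Int.cast_zero, zero_mul]), ← h5]
  push_cast
  refine Finset.sum_congr rfl fun v _ => ?_
  rw [ZMod.natCast_zmod_val, mul_comm]

end Pool.Agent.RGK
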