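import Mathlib
import Pool.Agent.Lib.RG.H06
import Pool.Agent.Lib.RGK.CXDefs
import Pool.Agent.Lib.RGK.C00

/-!
RG v4, row C15: valuations of norms.

`vl v (N x) = ∑_{w | v} fd K w * vl w x` for an extension `F / K` of number fields (any, not necessarily
Galois; only the Galois case is needed: add `[IsGalois K F]` if this is easier, it is in the statement).
For integral `x ≠ 0` use `Ideal.relNorm` (`Ideal.relNorm_singleton`,
`Ideal.relNorm_eq_pow_of_isMaximal` : `relNorm w = (below w) ^ fd`, multiplicativity, factorisation of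
`(x)` as in C12a), in general write `x = a / b`. `norm_sum` is the summation over `v`: both sides are sums
over a finite set (`H.fin_vl`, `H.fin_up`), group the `w` by `below w` (`Finset.sum_fiberwise_of_maps_to`).
`norm_UU`: an element which is congruent to `1` modulo all primes above `v` has norm congruent to `1`
modulo `v`: `emb_nrm` (H06) writes the norm as a product of conjugates; `exists_translate` (H02).
-/

set_option autoImplicit false

namespace Pool.Agent.RGK

open NumberField IsDedekindDomain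
open Pool.Agent.RG (Above IsDec IsInert IsFrob)
open Pool.Agent.RG.H (Pr vl UU PP emb nrm below)

private noncomputable def C15_mu {K : Type} [Field K] [NumberField K] (v : Pr K)
    (I : Ideal (𝓞 K)) : ℕ := multiplicity v.asIdeal I

private theorem C15_mul {K : Type} [Field K] [NumberField K] (v : Pr K) {I J : Ideal (𝓞 K)}
    (hI : I ≠ 0) (hJ : J ≠ 0) : C15_mu v (I * J) = C15_mu v I + C15_mu v J :=
  multiplicity_mul v.prime (FiniteMultiplicity.of_prime_left v.prime (mul_ne_zero hI hJ))

private theorem C15_top {K : Type} [Field K] [NumberField K] (v : Pr K) :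
    C15_mu v (⊤ : Ideal (𝓞 K)) = 0 := by
  have h := C15_mul v (I := ⊤) (J := ⊤) (by simp) (by simp)
  rw [← Ideal.one_eq_top, one_mul] at h
  rw [← Ideal.one_eq_top]
  omega

open Classical in
private theorem C15_prime {K : Type} [Field K] [NumberField K] (v w : Pr K) :
    C15_mu v w.asIdeal = if w = v then 1 else 0 := by
  split_ifs with h
  · subst h
    exact multiplicity_self
  · refine multiplicity_eq_zero.2 fun hd => h ?_
    have h1 : w.asIdeal ≤ v.asIdeal := Ideal.le_of_dvd hd
    exact HeightOneSpectrum.ext (w.isMaximal.eq_of_le v.isPrime.ne_top h1)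

open Classical in
private theorem C15_pow {K : Type} [Field K] [NumberField K] (v w : Pr K) (n : ℕ) :
    C15_mu v (w.asIdeal ^ n) = if w = v then n else 0 := by
  induction n with
  | zero =>
    rw [pow_zero, Ideal.one_eq_top, C15_top]
    split_ifs <;> rfl
  | succ n ih =>
    rw [pow_succ, C15_mul v (pow_ne_zero _ w.ne_bot) w.ne_bot, ih, C15_prime]
    split_ifs <;> rfl

private theorem C15_rel {K F : Type} [Field K] [NumberField K] [Field F] [NumberField F]
    [Algebra K F] (v : Pr K) (S : Finset (Pr F)) (hS : ∀ w, w ∈ S ↔ (below w : Pr K) = v)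
    (I : Ideal (𝓞 F)) (hI : I ≠ 0) :
    C15_mu v (Ideal.relNorm (𝓞 K) I) = ∑ w ∈ S, fd K w * C15_mu w I := by
  classical
  revert hI
  refine UniqueFactorizationMonoid.induction_on_prime (P := fun I : Ideal (𝓞 F) => I ≠ 0 →
    C15_mu v (Ideal.relNorm (𝓞 K) I) = ∑ w ∈ S, fd K w * C15_mu w I) I ?_ ?_ ?_
  · exact fun h => absurd rfl h
  · intro J hJ _
    rw [Ideal.isUnit_iff.1 hJ, Ideal.relNorm_top, C15_top]
    symm
    refine Finset.sum_eq_zero fun w _ => ?_
    rw [C15_top, mul_zero]
  · intro J P hJ hP ih _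
    let w₀ : Pr F := ⟨P, Ideal.isPrime_of_prime hP, hP.ne_zero⟩
    have hm : P.IsMaximal := w₀.isMaximal
    have hm' : (below w₀ : Pr K).asIdeal.IsMaximal := (below w₀ : Pr K).isMaximal
    have hl : P.LiesOver (below w₀ : Pr K).asIdeal := ⟨rfl⟩
    have h1 : Ideal.relNorm (𝓞 K) P = (below w₀ : Pr K).asIdeal ^ fd K w₀ :=
      Ideal.relNorm_eq_pow_of_isMaximal P (below w₀ : Pr K).asIdeal
    rw [map_mul, C15_mul v (by rw [h1]; exact pow_ne_zero _ (below w₀ : Pr K).ne_bot)
      (fun h => hJ (Ideal.relNorm_eq_bot_iff.1 h)), ih hJ, h1, C15_pow]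
    have h2 : ∀ w ∈ S, fd K w * C15_mu w (P * J) =
        fd K w * (if w₀ = w then 1 else 0) + fd K w * C15_mu w J := by
      intro w _
      rw [C15_mul w hP.ne_zero hJ, mul_add, ← C15_prime w w₀]
    rw [Finset.sum_congr rfl h2, Finset.sum_add_distrib]
    congr 1
    simp only [mul_ite, mul_one, mul_zero, Finset.sum_ite_eq, hS]

private theorem C15_int {K F : Type} [Field K] [NumberField K] [Field F] [NumberField F]
    [Algebra K F] (v : Pr K) (S : Finset (Pr F)) (hS : ∀ w, w ∈ S ↔ (below w : Pr K) = v)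
    (b : Fˣ) (b' : 𝓞 F) (hb : (b : F) = algebraMap (𝓞 F) F b') :
    vl v (nrm K F b) = ∑ w ∈ S, (fd K w : ℤ) * vl w b := by
  have hb0 : b' ≠ 0 := by
    rintro rfl
    rw [map_zero] at hb
    exact b.ne_zero hb
  have hn : (nrm K F b : K) = algebraMap (𝓞 K) K (Algebra.intNorm (𝓞 K) (𝓞 F) b') := by
    rw [RG.H.nrm_val, hb]
    exact (Algebra.algebraMap_intNorm (A := 𝓞 K) (K := K) (L := F) (B := 𝓞 F) b').symm
  have hn0 : Algebra.intNorm (𝓞 K) (𝓞 F) b' ≠ 0 := by
    intro h
    rw [h, map_zero] at hn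
    exact (nrm K F b).ne_zero hn
  have h1 : vl v (nrm K F b) =
      (C15_mu v (Ideal.relNorm (𝓞 K) (Ideal.span {b'})) : ℤ) := by
    rw [RG.H.vl_eq_iff, hn, HeightOneSpectrum.valuation_of_algebraMap,
      HeightOneSpectrum.intValuation_eq_exp_neg_multiplicity _ hn0, Ideal.relNorm_singleton]
    rfl
  have h2 : ∀ w : Pr F, vl w b = (C15_mu w (Ideal.span {b'}) : ℤ) := by
    intro w
    rw [RG.H.vl_eq_iff, hb, HeightOneSpectrum.valuation_of_algebraMap,
      HeightOneSpectrum.intValuation_eq_exp_neg_multiplicity _ hb0]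
    rfl
  rw [h1, C15_rel v S hS _ (by simpa using hb0)]
  push_cast
  refine Finset.sum_congr rfl fun w _ => ?_
  rw [h2]

private theorem C15_vl {K F : Type} [Field K] [NumberField K] [Field F] [NumberField F]
    [Algebra K F] (v : Pr K) (S : Finset (Pr F)) (hS : ∀ w, w ∈ S ↔ (below w : Pr K) = v)
    (x : Fˣ) : vl v (nrm K F x) = ∑ w ∈ S, (fd K w : ℤ) * vl w x := by
  obtain ⟨a, b, hb, hab⟩ := IsFractionRing.div_surjective (A := 𝓞 F) (x : F)
  have hb0 : algebraMap (𝓞 F) F b ≠ 0 := by
    intro h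
    rw [h, div_zero] at hab
    exact x.ne_zero hab.symm
  have ha0 : algebraMap (𝓞 F) F a ≠ 0 := by
    intro h
    rw [h, zero_div] at hab
    exact x.ne_zero hab.symm
  have hx : x = Units.mk0 _ ha0 / Units.mk0 _ hb0 := by
    ext
    rw [Units.val_div_eq_div_val, Units.val_mk0, Units.val_mk0, hab]
  rw [hx, map_div, RG.H.vl_div, C15_int v S hS _ a rfl, C15_int v S hS _ b rfl,
    ← Finset.sum_sub_distrib]
  refine Finset.sum_congr rfl fun w _ => ?_
  rw [RG.H.vl_div, mul_sub]

theorem norm_sum {p : ℕ} {K F : Type} [Field K] [NumberField K] [Field F] [NumberField F]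
    [Algebra K F] [IsGalois K F] (x : Fˣ) (η : Pr K → ZMod p) :
    ∑ᶠ w : Pr F, ((vl w x : ℤ) : ZMod p) * ((fd K w : ZMod p) * η (below w)) =
      ∑ᶠ v : Pr K, ((vl v (nrm K F x) : ℤ) : ZMod p) * η v := by
  classical
  obtain ⟨Sx, hSx⟩ := RG.H.fin_vl x
  obtain ⟨V, hV⟩ : ∃ V : Finset (Pr K), V = Sx.image fun w : Pr F => (below w : Pr K) := ⟨_, rfl⟩
  obtain ⟨Wf, hWf⟩ := RG.H.fin_up (L := F) V
  have hz : ∀ w : Pr F, w ∉ Wf → vl w x = 0 := by
    intro w hw
    refine RG.H.mem_SU.1 hSx w fun h => hw ((hWf w).2 ?_)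
    rw [hV]
    exact Finset.mem_image_of_mem _ h
  have hfib : ∀ v : Pr K, v ∈ V → vl v (nrm K F x) =
      ∑ w ∈ Wf.filter (fun w : Pr F => (below w : Pr K) = v), (fd K w : ℤ) * vl w x := by
    intro v hv
    refine C15_vl v _ (fun w => ?_) x
    rw [Finset.mem_filter]
    refine ⟨fun h => h.2, fun h => ⟨(hWf w).2 (h ▸ hv), h⟩⟩
  have hzK : ∀ v : Pr K, v ∉ V → vl v (nrm K F x) = 0 := by
    intro v hv
    obtain ⟨S, hS⟩ := RG.H.fin_up (L := F) {v}
    rw [C15_vl v S (fun w => by rw [hS, Finset.mem_singleton]) x]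
    refine Finset.sum_eq_zero fun w hw => ?_
    rw [hz w, mul_zero]
    intro h
    have h1 := (hS w).1 hw
    rw [Finset.mem_singleton] at h1
    exact hv (h1 ▸ (hWf w).1 h)
  rw [finsum_eq_sum_of_support_subset (s := Wf) _ (fun w hw => by
      by_contra hn
      rw [Function.mem_support] at hw
      apply hw
      rw [hz w hn, Int.cast_zero, zero_mul]),
    finsum_eq_sum_of_support_subset (s := V) _ (fun v hv => by
      by_contra hn
      rw [Function.mem_support] at hv
      apply hv
      rw [hzK v hn, Int.cast_zero, zero_mul]),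
    ← Finset.sum_fiberwise_of_maps_to (g := fun w : Pr F => (below w : Pr K)) (t := V)
      (fun w hw => (hWf w).1 hw)]
  refine Finset.sum_congr rfl fun v hv => ?_
  rw [hfib v hv]
  push_cast
  rw [Finset.sum_mul]
  refine Finset.sum_congr rfl fun w hw => ?_
  rw [(Finset.mem_filter.1 hw).2]
  ring

theorem norm_UU {K F : Type} [Field K] [NumberField K] [Field F] [NumberField F]
    [Algebra K F] [IsGalois K F] (v : Pr K) (x : Fˣ)
    (hx : ∀ w : Pr F, (below w : Pr K) = v → x ∈ UU w 1) : nrm K F x ∈ UU v 1 := by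
  classical
  obtain ⟨w, hw⟩ := RG.H.exists_above (L := F) v
  rw [RG.H.mem_UU]
  have hmem : emb K F (nrm K F x) ∈ UU w 1 := by
    have e : emb K F (nrm K F x) = ∏ σ : F ≃ₐ[K] F, Units.map (σ : F →* F) x := by
      ext
      rw [RG.H.emb_nrm, Units.coe_prod]
      rfl
    rw [e]
    refine Subgroup.prod_mem _ fun σ _ => ?_
    obtain ⟨w', hw', hx'⟩ := RG.H.exists_translate (K := K) w σ
    have h1 := RG.H.mem_UU.1 (hx w' (hw'.trans hw))
    rw [RG.H.mem_UU]
    constructor
    · rw [RG.H.vl_eq_iff]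
      have h2 := RG.H.vl_eq_iff.1 h1.1
      rw [hx'] at h2
      exact h2
    · have h2 := h1.2
      rw [hx', map_sub, map_one] at h2
      exact h2
  obtain ⟨e, he, h⟩ := RG.H.exists_e (K := K) w
  obtain ⟨e', he', h'⟩ := RG.H.exists_e_val (K := K) w
  constructor
  · have h1 := h (nrm K F x)
    rw [(RG.H.mem_UU.1 hmem).1, hw] at h1
    rcases mul_eq_zero.1 h1.symm with h2 | h2
    · exfalso
      have : e = 0 := by exact_mod_cast h2
      omega
    · exact h2
  · have h1 := (RG.H.mem_UU.1 hmem).2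
    have e1 : ((emb K F (nrm K F x) : Fˣ) : F) - 1 = algebraMap K F ((nrm K F x : K) - 1) := by
      rw [RG.H.emb_val, map_sub, map_one]
    rw [e1, h', hw] at h1
    have h2 : (WithZero.exp (-((1 : ℕ) : ℤ)) : WithZero (Multiplicative ℤ)) < 1 := by
      rw [← WithZero.exp_zero, WithZero.exp_lt_exp]
      omega
    have h3 : v.valuation K ((nrm K F x : K) - 1) < 1 :=
      (pow_lt_one_iff (by omega)).1 (h1.trans_lt h2)
    by_cases h0 : (nrm K F x : K) - 1 = 0
    · rw [h0, map_zero]
      exact zero_le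
    · have h4 := RG.H.val_eq v (Units.mk0 _ h0)
      rw [Units.val_mk0] at h4
      rw [h4] at h3 ⊢
      rw [← WithZero.exp_zero, WithZero.exp_lt_exp] at h3
      rw [WithZero.exp_le_exp]
      omega

end Pool.Agent.RGK
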