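import Mathlib
import Pool.Agent.Lib.RG.E20
import Pool.Agent.Lib.RGK.BDefs

/-!
RG v4, row E20: `M = L(ζ_p)`. Copy E20 of RG, replacing `ℚ` by `K`. Differences: if `K` contains the
`p`-th roots of unity then `M = L`; in general `[K(ζ) : K]` divides `p - 1` (and is prime to `p ^ k`), so
`L` and `K(ζ)` are linearly disjoint: restriction `Gal(L(ζ)/K(ζ)) → Gal(L/K)` is injective, and
`[L(ζ) : K(ζ)] [K(ζ) : K] = [L(ζ) : L] p ^ k` shows that `p ^ k` divides the order of the left side.
-/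

set_option autoImplicit false

namespace Pool.Agent.RGK

open NumberField IsDedekindDomain
open Pool.Agent.RG (Above IsDec IsInert IsFrob Lies)
open Pool.Agent.RG.H (Pr below)

private theorem E20K_aux (K : Type) [Field K] [NumberField K] (p : ℕ) [Fact p.Prime] (L M : Type)
    [Field L] [NumberField L] [Algebra K L] [IsGalois K L]
    [Field M] [NumberField M] [Algebra L M] [Algebra K M] [IsScalarTower K L M]
    [IsCyclotomicExtension {p} L M]
    (k : ℕ) (hL : Module.finrank K L = p ^ k) :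
    ∃ (_ : IsGalois K M) (j : L →ₐ[K] M) (ζ : M)
      (θ : (L ≃ₐ[K] L) →* (M ≃ₐ[K] M)), IsPrimitiveRoot ζ p ∧ (∀ h x, θ h (j x) = j (h x)) ∧
      (∀ h, θ h ζ = ζ) ∧ Function.Injective θ ∧ ∀ g : M ≃ₐ[K] M, g ζ = ζ → ∃ h, g = θ h := by
  have hp : p.Prime := Fact.out
  have hp0 : NeZero p := ⟨hp.ne_zero⟩
  have hfinL : FiniteDimensional K L := Module.Finite.of_restrictScalars_finite ℚ K L
  have hfinM : FiniteDimensional K M := Module.Finite.of_restrictScalars_finite ℚ K M
  have hnorm : Normal K M := by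
    obtain ⟨f, hf, hf'⟩ := IsGalois.is_separable_splitting_field K L
    have h1 : Polynomial.IsSplittingField L M
        ((Polynomial.X ^ p - 1 : Polynomial K).map (algebraMap K L)) := by
      have := IsCyclotomicExtension.isSplittingField_X_pow_sub_one p L M
      simpa using this
    have h2 : Polynomial.IsSplittingField K M (f * (Polynomial.X ^ p - 1)) :=
      Polynomial.IsSplittingField.mul (K := L) M f (Polynomial.X ^ p - 1) hf.ne_zero
        (Polynomial.X_pow_sub_C_ne_zero hp.pos 1)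
    exact Normal.of_isSplittingField (f * (Polynomial.X ^ p - 1))
  have hgal : IsGalois K M := ⟨⟩
  obtain ⟨ζ, hζ⟩ : ∃ ζ : M, IsPrimitiveRoot ζ p := ⟨_, IsCyclotomicExtension.zeta_spec p L M⟩
  obtain ⟨H, hH⟩ : ∃ H : Subgroup (M ≃ₐ[K] M), H = (hζ.autToPow K).ker := ⟨_, rfl⟩
  have hmem : ∀ g : M ≃ₐ[K] M, g ∈ H ↔ g ζ = ζ := by
    intro g
    have h1 := hζ.autToPow_spec K g
    rw [hH, MonoidHom.mem_ker]
    constructor
    · intro h
      rw [h, Units.val_one, ZMod.val_one'' hp.one_lt.ne', pow_one] at h1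
      exact h1.symm
    · intro h
      rw [h] at h1
      have h2 : ζ ^ ((hζ.autToPow K g : (ZMod p)ˣ) : ZMod p).val = ζ ^ 1 := by rw [h1, pow_one]
      have h3 := hζ.pow_inj (ZMod.val_lt _) hp.one_lt h2
      apply Units.ext
      rw [Units.val_one]
      have h4 : ((((hζ.autToPow K g : (ZMod p)ˣ) : ZMod p).val : ℕ) : ZMod p) = ((1 : ℕ) : ZMod p) := by
        rw [h3]
      rwa [ZMod.natCast_zmod_val, Nat.cast_one] at h4
  have hcard : p ^ k ≤ Nat.card H := by
    have h1 : Nat.card H * H.index = Module.finrank K M := by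
      rw [Subgroup.card_mul_index, IsGalois.card_aut_eq_finrank]
    have h2 : H.index ∣ p - 1 := by
      rw [hH, Subgroup.index_ker]
      have h3 := Subgroup.card_subgroup_dvd_card (hζ.autToPow K).range
      rwa [Nat.card_eq_fintype_card (α := (ZMod p)ˣ), ZMod.card_units p] at h3
    have h4 := Module.finrank_mul_finrank K L M
    rw [hL, ← h1] at h4
    have h5 : p ^ k ∣ Nat.card H * H.index := ⟨_, h4.symm⟩
    have h6 : Nat.Coprime (p ^ k) H.index := by
      apply Nat.Coprime.pow_left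
      rw [Nat.Prime.coprime_iff_not_dvd hp]
      intro h
      have := Nat.le_of_dvd (Nat.sub_pos_of_lt hp.one_lt) (h.trans h2)
      have := hp.one_lt
      omega
    exact Nat.le_of_dvd Nat.card_pos (h6.dvd_of_dvd_mul_right h5)
  obtain ⟨r, hr⟩ : ∃ r : H →* (L ≃ₐ[K] L), r = (AlgEquiv.restrictNormalHom L).comp H.subtype :=
    ⟨_, rfl⟩
  have hrj : ∀ (g : H) (x : L), algebraMap L M (r g x) = (g : M ≃ₐ[K] M) (algebraMap L M x) := by
    intro g x
    rw [hr]
    exact AlgEquiv.restrictNormal_commutes (g : M ≃ₐ[K] M) L x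
  have hinj : Function.Injective r := by
    rw [injective_iff_map_eq_one]
    intro g hg
    have h1 : ∀ x : L, (g : M ≃ₐ[K] M) (algebraMap L M x) = algebraMap L M x := by
      intro x
      rw [← hrj, hg]
      rfl
    obtain ⟨g', hg'⟩ : ∃ g' : M →ₐ[L] M, ∀ x, g' x = (g : M ≃ₐ[K] M) x :=
      ⟨{ toRingHom := ((g : M ≃ₐ[K] M) : M →+* M), commutes' := h1 }, fun x => rfl⟩
    have h2 : g' = AlgHom.id L M := by
      have h3 := IsCyclotomicExtension.adjoin_primitive_root_eq_top (A := L) hζ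
      apply AlgHom.ext_of_adjoin_eq_top h3
      intro x hx
      rw [Set.mem_singleton_iff.1 hx, hg', (hmem _).1 g.2]
      rfl
    apply Subtype.ext
    ext x
    rw [← hg', h2]
    rfl
  have hcardL : Nat.card (L ≃ₐ[K] L) = p ^ k := by
    rw [IsGalois.card_aut_eq_finrank, hL]
  have hbij : Function.Bijective r := by
    have h1 : Nat.card H ≤ Nat.card (L ≃ₐ[K] L) := Nat.card_le_card_of_injective r hinj
    exact (Nat.bijective_iff_injective_and_card r).2 ⟨hinj, by omega⟩
  obtain ⟨e, he⟩ : ∃ e : H ≃* (L ≃ₐ[K] L), ∀ g, e g = r g := ⟨MulEquiv.ofBijective r hbij, fun g => rfl⟩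
  refine ⟨hgal, IsScalarTower.toAlgHom K L M, ζ, H.subtype.comp e.symm.toMonoidHom, hζ, ?_, ?_, ?_, ?_⟩
  · intro h x
    have h1 := hrj (e.symm h) x
    rw [← he, MulEquiv.apply_symm_apply] at h1
    exact h1.symm
  · intro h
    exact (hmem _).1 (e.symm h).2
  · intro a b hab
    have h1 : e.symm a = e.symm b := Subtype.ext hab
    exact e.symm.injective h1
  · intro g hg
    refine ⟨e ⟨g, (hmem g).2 hg⟩, ?_⟩
    change g = ((e.symm (e ⟨g, (hmem g).2 hg⟩) : H) : M ≃ₐ[K] M)
    rw [MulEquiv.symm_apply_apply]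

theorem exists_MK (K : Type) [Field K] [NumberField K] (p : ℕ) [Fact p.Prime] (L : Type) [Field L]
    [NumberField L] [Algebra K L] [IsGalois K L] (k : ℕ) (hL : Module.finrank K L = p ^ k) :
    ∃ (M : Type) (_ : Field M) (_ : NumberField M) (_ : Algebra K M) (_ : IsGalois K M)
      (j : L →ₐ[K] M) (ζ : M) (θ : (L ≃ₐ[K] L) →* (M ≃ₐ[K] M)), IsPrimitiveRoot ζ p ∧
      (∀ h x, θ h (j x) = j (h x)) ∧ (∀ h, θ h ζ = ζ) ∧ Function.Injective θ ∧
      ∀ g : M ≃ₐ[K] M, g ζ = ζ → ∃ h, g = θ h := by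
  have hp : p.Prime := Fact.out
  have hp0 : NeZero p := ⟨hp.ne_zero⟩
  obtain ⟨h1, j, ζ, θ, h2⟩ := E20K_aux K p L (CyclotomicField p L) k hL
  exact ⟨CyclotomicField p L, inferInstance, inferInstance, inferInstance, h1, j, ζ, θ, h2⟩

end Pool.Agent.RGK
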