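import Mathlib
import Pool.Agent.Lib.RGK.CXDefs
import Pool.Agent.Lib.RGK.B1
import Pool.Agent.Lib.RGK.B2
import Pool.Agent.Lib.RGK.B4
import Pool.Agent.Lib.RGK.C00
import Pool.Agent.Lib.RGK.C14
import Pool.Agent.Lib.RGK.C15
import Pool.Agent.Lib.RGK.E20

/-!
RG v4, rows C17a, C17b, C17c: the reciprocity law (REC) for all characters of order `p` over all number
fields `K`, ramified at finitely many primes not above `p`.

Common set up. `N / K` Galois, `F` a subfield of `N` which is Galois over `K`; here `F` is a number field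
with `[Algebra K F] [Algebra F N] [IsScalarTower K F N]`; `res : (N ≃ₐ[F] N) →* (N ≃ₐ[K] N)` is
`AlgEquiv.restrictScalarsHom` (`fun g => g.restrictScalars K`).

`frob_up` (row C17a): `φ'` a Frobenius element of `Gal(N / F)` at `w`, `φ` a Frobenius element of
`Gal(N / K)` at `w`, `f = fd K (below w)` (residue degree of the prime of `F` below `w`): both
`φ ^ f` and `φ'` are in the decomposition group of `w` and act on the residue field as the power
`nm (below_F w) = nm (below_K w) ^ f` (`nm_tower`): `φ'⁻¹ φ ^ f` is inert (`IsFrob.inv_mul`, G02; the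
power of a Frobenius element is one for the power, by induction).

`rec_cyclic` (row C17b): `L / K` cyclic of degree `p`, `θ` injective, unramified outside `T`. Let `N` be a
splitting field over `L` of `X ^ p - 1` (as in E20: compositum of `L` and `K(ζ)`;
`exists_compositumK`), `F = K(ζ) ⊂ N`, Galois over `K` of degree prime to `p`, `N / F` is Galois of degree
`p` (`L ∩ F = K`; restriction `Gal(N / F) → Gal(L / K)` is an isomorphism: injective because `N = L F`,
and `[N : F] = p` by degrees). `θ' :=` the composition `Gal(N / F) → Gal(L / K) → ZMod p`. A prime `v'` of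
`F` ramified in `N` has `below v' ∈ T` (inertia elements restrict to inertia elements), so it is not
above `p`. `A v' := fd K v' * ξ (below v')`: `hA` of C14 holds by C17a and `IsFrob.restrictK` (for
`below v' ∉ T` because `θ` kills the inert elements there; for `below v' ∈ T`, `v'` unramified in `N`, one has
to use another `A`: let `A` be the true Frobenius values of `θ'` for all `v' ∉ RamS N` and note that the
terms with `below v' ∈ T` vanish because `vl v' x = 0` there). For `x : Kˣ`, `x ∈ UU v 1` for `v ∈ T`: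
`emb K F x ∈ UU v' 1` for `v'` ramified; C14 gives `∑ᶠ v', vl v' x * (fd K v' * ξ (below v')) = 0`, and by
`norm_sum` (C15) the left side is `∑ᶠ v, vl v (x ^ [F : K]) * ξ v = [F : K] * ∑ᶠ v, vl v x * ξ v`
(`H.nrm_emb`-like: `Algebra.norm_algebraMap`); `[F : K]` is invertible modulo `p`.

`REC` (row C17c): `θ = 1`: then `ξ = 0` (there are Frobenius elements, `exists_frobK`). `θ ≠ 1`: `L₀` the
fixed field of `θ.ker`, cyclic of degree `p` over `K`, `θ₀` the induced injective character; it is
unramified outside `T` and has the same Frobenius values (lift inert elements with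
`exists_inert_liftK` and Frobenius elements with `exists_frobK`, `IsFrob.inv_mul`).
-/

set_option autoImplicit false

namespace Pool.Agent.RGK

open NumberField IsDedekindDomain
open Pool.Agent.RG (Above IsDec IsInert IsFrob)
open Pool.Agent.RG.H (Pr vl UU PP emb nrm below)

private theorem C17a_pow {K N : Type} [Field K] [Field N] [NumberField N] [Algebra K N] {w : Pr N}
    {φ : N ≃ₐ[K] N} {q : ℕ} (h : IsFrob w q φ) (n : ℕ) : IsFrob w (q ^ n) (φ ^ n) := by
  induction n with
  | zero =>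
    refine ⟨fun x => by rw [pow_zero, one_smul], fun x _ => ?_⟩
    rw [pow_zero, pow_zero, one_smul, pow_one, sub_self, map_zero]
    exact zero_lt_one
  | succ n ih =>
    have hd : IsDec w (φ ^ (n + 1)) := by
      intro x
      rw [pow_succ, mul_smul, ih.1, h.1]
    refine ⟨hd, fun x hx => ?_⟩
    have e : (φ ^ (n + 1)) • x - x ^ q ^ (n + 1) =
        (φ ^ n) • (φ • x - x ^ q) + ((φ ^ n) • (x ^ q) - (x ^ q) ^ q ^ n) := by
      rw [pow_succ, mul_smul, smul_sub, ← pow_mul, pow_succ' q n]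
      ring
    rw [e]
    refine Valuation.map_add_lt _ ?_ ?_
    · rw [ih.1]
      exact h.2 x hx
    · refine ih.2 _ ?_
      rw [map_pow]
      exact pow_le_one₀ zero_le hx

theorem frob_up {K F N : Type} [Field K] [NumberField K] [Field F] [NumberField F] [Field N]
    [NumberField N] [Algebra K F] [Algebra F N] [Algebra K N] [IsScalarTower K F N]
    [IsGalois K N] {w : Pr N} {φ' : N ≃ₐ[F] N} {φ : N ≃ₐ[K] N}
    (h' : IsFrob w (nm (below w : Pr F)) φ') (h : IsFrob w (nm (below w : Pr K)) φ) :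
    IsInert w ((φ'.restrictScalars K)⁻¹ * φ ^ fd K (below w : Pr F)) := by
  have hbb : (below (below w : Pr F) : Pr K) = below w := by
    apply HeightOneSpectrum.ext
    exact Ideal.under_under (A := 𝓞 K) (B := 𝓞 F) w.asIdeal
  have h1 : IsFrob w (nm (below w : Pr F)) (φ'.restrictScalars K) :=
    ⟨fun x => h'.1 x, fun x hx => h'.2 x hx⟩
  have h2 := C17a_pow h (fd K (below w : Pr F))
  have h3 := (nm_tower K (below w : Pr F)).2
  rw [hbb] at h3
  rw [h3] at h1
  exact h1.inv_mul h2

private theorem C17b_tower {K F N : Type} [Field K] [NumberField K] [Field F] [NumberField F]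
    [Field N] [NumberField N] [Algebra K F] [Algebra F N] [Algebra K N] [IsScalarTower K F N]
    (w : Pr N) : (below (below w : Pr F) : Pr K) = below w := by
  have h1 : RG.Lies (algebraMap F N) w (below w : Pr F) := (lies_iff_below w _).2 rfl
  have h2 : RG.Lies (algebraMap K F) (below w : Pr F) (below (below w : Pr F) : Pr K) :=
    (lies_iff_below _ _).2 rfl
  have h3 := RG.Lies.trans h1 h2
  rw [← IsScalarTower.algebraMap_eq K F N] at h3
  exact ((lies_iff_below w _).1 h3).symm

private theorem C17b_UU {K F : Type} [Field K] [NumberField K] [Field F] [NumberField F]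
    [Algebra K F] {v' : Pr F} {x : Kˣ} (hx : x ∈ UU (below v' : Pr K) 1) :
    emb K F x ∈ UU v' 1 := by
  rw [RG.H.mem_UU] at hx ⊢
  constructor
  · obtain ⟨e, he, h⟩ := RG.H.exists_e (K := K) v'
    rw [h, hx.1, mul_zero]
  · obtain ⟨e, he, h⟩ := RG.H.exists_e_val (K := K) v'
    have e1 : ((emb K F x : Fˣ) : F) - 1 = algebraMap K F ((x : K) - 1) := by
      rw [RG.H.emb_val, map_sub, map_one]
    rw [e1, h]
    have h1 : (WithZero.exp (-((1 : ℕ) : ℤ)) : WithZero (Multiplicative ℤ)) ≤ 1 := by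
      rw [← WithZero.exp_zero, WithZero.exp_le_exp]
      omega
    calc (below v' : Pr K).valuation K ((x : K) - 1) ^ e
        ≤ (below v' : Pr K).valuation K ((x : K) - 1) ^ 1 :=
          pow_le_pow_right_of_le_one' (hx.2.trans h1) he
      _ = (below v' : Pr K).valuation K ((x : K) - 1) := pow_one _
      _ ≤ _ := hx.2

private theorem C17b_core {p : ℕ} [Fact p.Prime] (hp2 : p ≠ 2) {K L F N : Type} [Field K]
    [NumberField K] [Field L] [NumberField L] [Algebra K L] [IsGalois K L] [Field F] [NumberField F]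
    [Field N] [NumberField N] [Algebra K F] [Algebra F N] [Algebra K N] [IsScalarTower K F N]
    [IsGalois K N] [IsGalois K F] [IsGalois F N] (hFN : Module.finrank F N = p)
    (hKF : ¬ p ∣ Module.finrank K F) {ζ : F} (hζ : IsPrimitiveRoot ζ p) (j : L →ₐ[K] N)
    (r : (N ≃ₐ[K] N) →* (L ≃ₐ[K] L)) (hr : ∀ g x, g (j x) = j (r g x))
    (hinj : ∀ g : N ≃ₐ[F] N, r (g.restrictScalars K) = 1 → g = 1)
    {T : Set (Pr K)} (hT : ∀ v ∈ T, ¬ Above v p)
    (θ : (L ≃ₐ[K] L) →* Multiplicative (ZMod p)) (hθ : Function.Injective θ) (hu : UnrCh T θ)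
    {ξ : Pr K → ZMod p} (hξ : FV T θ ξ) : ξ ∈ RC p T := by
  refine ⟨hξ.zero, fun x hx => ?_⟩
  obtain ⟨θ', hθ'⟩ : ∃ θ' : (N ≃ₐ[F] N) →* Multiplicative (ZMod p),
      ∀ g, θ' g = θ (r (g.restrictScalars K)) :=
    ⟨θ.comp (r.comp (AlgEquiv.restrictScalarsHom K)), fun _ => rfl⟩
  have hθ'i : Function.Injective θ' := by
    rw [injective_iff_map_eq_one]
    intro g hg
    rw [hθ'] at hg
    exact hinj g ((injective_iff_map_eq_one θ).1 hθ _ hg)
  -- inertia outside T dies
  have hin : ∀ w : Pr N, (below w : Pr K) ∉ T → ∀ g : N ≃ₐ[K] N, IsInert w g → θ (r g) = 1 := by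
    intro w hw g hg
    obtain ⟨w₁, hw₁⟩ := RG.exists_below (j : L →+* N) w
    have hl : LiesA j w w₁ := hw₁
    refine hu w₁ ?_ _ (IsInert.restrictK hl (hr g) hg)
    rw [← LiesA.below_eq hl]
    exact hw
  have hRam : ∀ v' ∈ (RamS N : Set (Pr F)), (below v' : Pr K) ∈ T := by
    rintro v' ⟨w, hw, σ, hσ, hσ1⟩
    by_contra hn
    apply hσ1
    apply hθ'i
    rw [map_one, hθ']
    refine hin w ?_ _ hσ
    rw [← C17b_tower (K := K) (F := F) w, hw]
    exact hn
  -- the Frobenius values of the character upstairs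
  obtain ⟨A, hA⟩ : ∃ A : Pr F → ZMod p, ∀ w : Pr N, (below w : Pr F) ∉ RamS N →
      ∀ g : N ≃ₐ[F] N, IsFrob w (nm (below w : Pr F)) g →
        θ' g = Multiplicative.ofAdd (A (below w)) := by
    choose W hW using fun v' : Pr F => RG.H.exists_above (L := N) v'
    choose G hG using fun v' : Pr F => exists_frobK (K := F) (W v')
    refine ⟨fun v' => Multiplicative.toAdd (θ' (G v')), fun w hw g hg => ?_⟩
    rw [ofAdd_toAdd]
    obtain ⟨τ, hτ⟩ := exists_conjK (K := F) (w := W (below w)) (w' := w) (hW _)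
    have h1 := IsFrob.conj_toK hτ (hG (below w))
    rw [hW] at h1
    have h2 := hg.inv_mul h1
    have h3 : g⁻¹ * (τ * G (below w) * τ⁻¹) = 1 := by
      by_contra h4
      exact hw ⟨w, rfl, _, h2, h4⟩
    have h4 : g = τ * G (below w) * τ⁻¹ := inv_mul_eq_one.1 h3
    rw [h4, map_mul, map_mul, map_inv, mul_comm (θ' τ), mul_inv_cancel_right]
  have hA2 : ∀ v' : Pr F, (below v' : Pr K) ∉ T → A v' = (fd K v' : ZMod p) * ξ (below v') := by
    intro v' hv'
    obtain ⟨w, rfl⟩ := RG.H.exists_above (L := N) v'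
    have hwT : (below w : Pr K) ∉ T := by
      rw [← C17b_tower (K := K) (F := F) w]
      exact hv'
    obtain ⟨φ', hφ'⟩ := exists_frobK (K := F) w
    obtain ⟨φ, hφ⟩ := exists_frobK (K := K) w
    have h1 := hin w hwT _ (frob_up hφ' hφ)
    rw [map_mul, map_mul, map_inv, map_inv, map_pow, map_pow, ← hθ'] at h1
    have h2 : θ' φ' = θ (r φ) ^ fd K (below w : Pr F) := inv_mul_eq_one.1 h1
    obtain ⟨w₁, hw₁⟩ := RG.exists_below (j : L →+* N) w
    have hl : LiesA j w w₁ := hw₁
    have hb : (below w : Pr K) = below w₁ := LiesA.below_eq hl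
    have h3 : IsFrob w₁ (nm (below w₁ : Pr K)) (r φ) := by
      rw [← hb]
      exact IsFrob.restrictK hl (hr φ) hφ
    have h4 := hξ.frob w₁ (by rw [← hb]; exact hwT) (r φ) h3
    have h5 := hA w (fun h => hv' (hRam _ h)) φ' hφ'
    rw [h2, h4] at h5
    have h6 := congrArg Multiplicative.toAdd h5
    rw [toAdd_pow, toAdd_ofAdd, toAdd_ofAdd, nsmul_eq_mul] at h6
    rw [← h6, C17b_tower (K := K) (F := F) w, hb]
  have h0 := rec_F hp2 hζ hFN (fun v' hv' h => hT _ (hRam v' hv') ((RG.H.above_iff v' p).1 h)) θ'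
    hθ'i A hA (emb K F x) (fun v' hv' => C17b_UU (hx _ (hRam v' hv')))
  have h1 : (fun v' : Pr F => ((vl v' (emb K F x) : ℤ) : ZMod p) * A v') = fun v' : Pr F =>
      ((vl v' (emb K F x) : ℤ) : ZMod p) * ((fd K v' : ZMod p) * ξ (below v')) := by
    funext v'
    by_cases hv' : (below v' : Pr K) ∈ T
    · rw [(RG.H.mem_UU.1 (C17b_UU (hx _ hv'))).1, Int.cast_zero, zero_mul, zero_mul]
    · rw [hA2 v' hv']
  rw [h1, norm_sum, RG.H.nrm_emb rfl] at h0
  have h2 : (fun v : Pr K => ((vl v (x ^ Module.finrank K F) : ℤ) : ZMod p) * ξ v) = fun v =>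
      (Module.finrank K F : ZMod p) * (((vl v x : ℤ) : ZMod p) * ξ v) := by
    funext v
    rw [RG.H.vl_pow, Int.cast_mul, Int.cast_natCast, mul_assoc]
  rw [h2, ← mul_finsum, mul_eq_zero] at h0
  rcases h0 with h0 | h0
  · exact absurd ((ZMod.natCast_eq_zero_iff _ _).1 h0) hKF
  · exact h0

theorem rec_cyclic {p : ℕ} [Fact p.Prime] (hp2 : p ≠ 2) {K L : Type} [Field K] [NumberField K]
    [Field L] [NumberField L] [Algebra K L] [IsGalois K L] (hL : Module.finrank K L = p)
    {T : Set (Pr K)} (hT : ∀ v ∈ T, ¬ Above v p)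
    (θ : (L ≃ₐ[K] L) →* Multiplicative (ZMod p)) (hθ : Function.Injective θ) (hu : UnrCh T θ)
    {ξ : Pr K → ZMod p} (hξ : FV T θ ξ) : ξ ∈ RC p T := by
  have hp : p.Prime := Fact.out
  obtain ⟨N, _, _, _, _, j, ζ, Θ, hζ, hΘj, hΘζ, -, hsurj⟩ := exists_MK K p L 1 (by rw [hL, pow_one])
  have hfinN : FiniteDimensional K N := Module.Finite.of_restrictScalars_finite ℚ K N
  obtain ⟨H, hH⟩ : ∃ H : Subgroup (N ≃ₐ[K] N), H = (hζ.autToPow K).ker := ⟨_, rfl⟩
  have hmem : ∀ g : N ≃ₐ[K] N, g ∈ H ↔ g ζ = ζ := by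
    intro g
    have h1 := hζ.autToPow_spec K g
    rw [hH, MonoidHom.mem_ker]
    constructor
    · intro h
      rw [h, Units.val_one, ZMod.val_one'' hp.one_lt.ne', pow_one] at h1
      exact h1.symm
    · intro h
      rw [h] at h1
      have h2 : ζ ^ ((hζ.autToPow K g : (ZMod p)ˣ) : ZMod p).val = ζ ^ 1 := by rw [h1, pow_one]
      have h3 := hζ.pow_inj (ZMod.val_lt _) hp.one_lt h2
      apply Units.ext
      rw [Units.val_one]
      have h4 : ((((hζ.autToPow K g : (ZMod p)ˣ) : ZMod p).val : ℕ) : ZMod p) = ((1 : ℕ) : ZMod p) := by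
        rw [h3]
      rwa [ZMod.natCast_zmod_val, Nat.cast_one] at h4
  obtain ⟨r, hr⟩ := exists_restrK j
  have hrΘ : ∀ h, r (Θ h) = h := by
    intro h
    ext x
    have h1 : j (r (Θ h) x) = j (h x) := by rw [← hr, hΘj]
    exact j.toRingHom.injective h1
  have hHr : ∀ g ∈ H, r g = 1 → g = 1 := by
    intro g hg h1
    obtain ⟨h, rfl⟩ := hsurj g ((hmem g).1 hg)
    rw [hrΘ] at h1
    rw [h1, map_one]
  have hcard : Nat.card H = p := by
    have e : H ≃ (L ≃ₐ[K] L) :=
      { toFun := fun g => r g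
        invFun := fun h => ⟨Θ h, (hmem _).2 (hΘζ h)⟩
        left_inv := fun g => by
          obtain ⟨h, hh⟩ := hsurj g ((hmem g).1 g.2)
          apply Subtype.ext
          show Θ (r g) = g
          rw [hh, hrΘ]
        right_inv := fun h => hrΘ h }
    rw [Nat.card_congr e, IsGalois.card_aut_eq_finrank, hL]
  have hnH : H.Normal := by
    rw [hH]
    infer_instance
  let F : IntermediateField K N := IntermediateField.fixedField H
  have hF1 : NumberField F := NumberField.of_intermediateField F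
  have hF2 : IsGalois K F := IsGalois.of_fixedField_normal_subgroup H
  have hF3 : IsGalois F N := IsGalois.tower_top_of_isGalois K F N
  have hFN : Module.finrank F N = p := by
    rw [← hcard]
    exact IntermediateField.finrank_fixedField_eq_card H
  have hidx : H.index ∣ p - 1 := by
    rw [hH, Subgroup.index_ker]
    have h3 := Subgroup.card_subgroup_dvd_card (hζ.autToPow K).range
    rwa [Nat.card_eq_fintype_card (α := (ZMod p)ˣ), ZMod.card_units p] at h3
  have hKF : Module.finrank K F = H.index := by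
    have h1 : Nat.card H * H.index = Module.finrank K N := by
      rw [Subgroup.card_mul_index, IsGalois.card_aut_eq_finrank]
    have h2 := Module.finrank_mul_finrank K F N
    rw [hFN, ← h1, hcard, mul_comm] at h2
    exact Nat.eq_of_mul_eq_mul_left hp.pos h2
  have hKF2 : ¬ p ∣ Module.finrank K F := by
    rw [hKF]
    intro h
    have := Nat.le_of_dvd (Nat.sub_pos_of_lt hp.one_lt) (h.trans hidx)
    have := hp.one_lt
    omega
  have hζF : ζ ∈ F := by
    show ζ ∈ IntermediateField.fixedField H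
    rw [IntermediateField.mem_fixedField_iff]
    intro g hg
    exact (hmem g).1 hg
  have hζ' : IsPrimitiveRoot (⟨ζ, hζF⟩ : F) p :=
    IsPrimitiveRoot.of_map_of_injective (f := algebraMap F N) hζ (algebraMap F N).injective
  refine C17b_core hp2 (F := F) hFN hKF2 hζ' j r hr (fun g hg => ?_) hT θ hθ hu hξ
  have h1 : g.restrictScalars K ∈ H := (hmem _).2 (g.commutes (⟨ζ, hζF⟩ : F))
  have h2 := hHr _ h1 hg
  ext x
  exact AlgEquiv.congr_fun h2 x

/-- The reciprocity law. -/
theorem REC {p : ℕ} [Fact p.Prime] (hp2 : p ≠ 2) {K L : Type} [Field K] [NumberField K]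
    [Field L] [NumberField L] [Algebra K L] [IsGalois K L]
    {T : Set (Pr K)} (hT : ∀ v ∈ T, ¬ Above v p)
    (θ : (L ≃ₐ[K] L) →* Multiplicative (ZMod p)) (hu : UnrCh T θ)
    {ξ : Pr K → ZMod p} (hξ : FV T θ ξ) : ξ ∈ RC p T := by
  classical
  have hpp : p.Prime := Fact.out
  have hfd : FiniteDimensional K L := Module.Finite.of_restrictScalars_finite ℚ K L
  by_cases hθ : θ = 1
  · have h0 : ξ = 0 := by
      funext v
      by_cases hv : v ∈ T
      · exact hξ.zero v hv
      · obtain ⟨w, hw⟩ := RG.exists_above (algebraMap K L) v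
        have hb : (below w : Pr K) = v := (lies_iff_below w v).1 hw
        obtain ⟨σ, hσ⟩ := exists_frobK (K := K) w
        have h1 := hξ.frob w (by rw [hb]; exact hv) σ hσ
        rw [hθ, hb, MonoidHom.one_apply] at h1
        exact (ofAdd_eq_one.mp h1.symm)
    rw [h0]
    exact Submodule.zero_mem _
  · let L₀ : IntermediateField K L := IntermediateField.fixedField θ.ker
    have hgal : IsGalois K L₀ := inferInstance
    have hnf : NumberField L₀ := inferInstance
    let e : ((L ≃ₐ[K] L) ⧸ θ.ker) ≃* (L₀ ≃ₐ[K] L₀) := IsGalois.normalAutEquivQuotient θ.ker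
    let θ₀ : (L₀ ≃ₐ[K] L₀) →* Multiplicative (ZMod p) :=
      (QuotientGroup.kerLift θ).comp e.symm.toMonoidHom
    have hinj : Function.Injective θ₀ := by
      intro a b hab
      exact e.symm.injective (QuotientGroup.kerLift_injective θ hab)
    have hres : ∀ (σ : L ≃ₐ[K] L) (σ₀ : L₀ ≃ₐ[K] L₀),
        (∀ x : L₀, σ (L₀.val x) = L₀.val (σ₀ x)) → θ₀ σ₀ = θ σ := by
      intro σ σ₀ hσ
      have h1 : e (QuotientGroup.mk σ) = σ₀ := by
        rw [show e (QuotientGroup.mk σ) = AlgEquiv.restrictNormalHom L₀ σ from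
          IsGalois.normalAutEquivQuotient_apply θ.ker σ]
        ext x
        rw [AlgEquiv.restrictNormalHom_apply]
        exact hσ x
      rw [← h1]
      change (QuotientGroup.kerLift θ) (e.symm (e (QuotientGroup.mk σ))) = θ σ
      rw [MulEquiv.symm_apply_apply]
      exact QuotientGroup.kerLift_mk θ σ
    have hex : ∀ σ : L ≃ₐ[K] L, ∃ σ₀ : L₀ ≃ₐ[K] L₀, ∀ x : L₀, σ (L₀.val x) = L₀.val (σ₀ x) := by
      intro σ
      refine ⟨AlgEquiv.restrictNormalHom L₀ σ, fun x => ?_⟩
      exact (AlgEquiv.restrictNormalHom_apply L₀ σ x).symm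
    have hu₀ : UnrCh T θ₀ := by
      intro w₀ hw₀ σ₀ hσ₀
      obtain ⟨w, hw⟩ := RG.exists_above (L₀.val : L₀ →+* L) w₀
      have hw' : LiesA L₀.val w w₀ := hw
      obtain ⟨σ, hσ, hσi⟩ := exists_inert_liftK hw' hσ₀
      rw [hres σ σ₀ hσ]
      exact hu w (by rw [hw'.below_eq]; exact hw₀) σ hσi
    have hfv : FV T θ₀ ξ := by
      refine ⟨hξ.zero, ?_⟩
      intro w₀ hw₀ σ₀ hσ₀
      obtain ⟨w, hw⟩ := RG.exists_above (L₀.val : L₀ →+* L) w₀
      have hw' : LiesA L₀.val w w₀ := hw
      obtain ⟨σ, hσ⟩ := exists_frobK (K := K) w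
      obtain ⟨σ₁, hσ₁⟩ := hex σ
      have hb : (below w : Pr K) = below w₀ := hw'.below_eq
      have h1 : IsFrob w₀ (nm (below w : Pr K)) σ₁ := IsFrob.restrictK hw' hσ₁ hσ
      rw [hb] at h1
      have h2 : IsInert w₀ (σ₁⁻¹ * σ₀) := h1.inv_mul hσ₀
      have h3 : θ₀ (σ₁⁻¹ * σ₀) = 1 := hu₀ w₀ hw₀ _ h2
      rw [map_mul, map_inv, inv_mul_eq_one] at h3
      rw [← h3, hres σ σ₁ hσ₁]
      have h4 := hξ.frob w (by rw [hb]; exact hw₀) σ hσ
      rw [h4, hb]
    have hdeg : Module.finrank K L₀ = p := by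
      have h1 : Nat.card (L₀ ≃ₐ[K] L₀) = Module.finrank K L₀ := IsGalois.card_aut_eq_finrank K L₀
      have h2 : Nat.card (L₀ ≃ₐ[K] L₀) = Nat.card θ₀.range :=
        Nat.card_congr (MonoidHom.ofInjective hinj).toEquiv
      have h3 : Nat.card θ₀.range ∣ p := by
        have h3' := Subgroup.card_subgroup_dvd_card θ₀.range
        have h3'' : Nat.card (Multiplicative (ZMod p)) = p :=
          (Nat.card_congr Multiplicative.toAdd).trans (Nat.card_zmod p)
        rwa [h3''] at h3'
      rw [← h1]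
      rcases (Nat.dvd_prime hpp).1 (h2 ▸ h3) with h4 | h4
      · exfalso
        apply hθ
        ext σ
        obtain ⟨σ₀, hσ₀⟩ := hex σ
        have h5 : Subsingleton (L₀ ≃ₐ[K] L₀) := (Nat.card_eq_one_iff_unique.mp h4).1
        rw [← hres σ σ₀ hσ₀, Subsingleton.elim σ₀ 1, map_one, MonoidHom.one_apply]
      · exact h4
    exact rec_cyclic hp2 hdeg hT θ₀ hinj hu₀ hfv

end Pool.Agent.RGK
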