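import Mathlib
import Pool.Agent.Lib.RG.H11
import Pool.Agent.Lib.RG.H12
import Pool.Agent.Lib.RG.HIdx
import Pool.Agent.Lib.RGK.CXDefs

/-!
RG v4, row C20: the group of the primary elements at `v` and its index.

`Prm p ζ v = Fˣ ^ p * (1 + (1 - ζ) ^ p O_v)`; if `v` is not above `p`, this is the group of the elements
with valuation divisible by `p`.

`index_Prm`: `e = ez ζ v`. If `v` is not above `p`: `e = 0`, `ev p v = 0`, `Prm p ζ v = PP F p ⊔ UU v 0`
has index `p` (`H.index_sup`, H11). If `v` is above `p`: `e > 0`, `ev p v = (p - 1) * e` (`H.val_pow`-like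
lemmas of H12; `∏ (1 - ζ ^ i) = p`), and by `index_PU` (H11) with `n = p * e` the index is `p` times the
number of `x` in `(𝓞 F ⧸ v ^ n)ˣ` with `x ^ p = 1`. For `x : 𝓞 F` prime to `v`: `x ^ p - 1 ∈ v ^ (p * e)` iff
`x - 1 ∈ v ^ e`. (If `x = 1 + y`, `v (y) ≤ v (1 - ζ)`: the binomial expansion of `x ^ p - 1`; the terms
`p * y ^ i` have `v ≤ v (1 - ζ) ^ (p - 1) * v (1 - ζ)`. Conversely `x ^ p - 1 = ∏ (x - ζ ^ i)`; if
`v (x - 1) > v (1 - ζ)` then all factors have valuation `v (x - 1)` and the product is larger than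
`v (1 - ζ) ^ p`.) The number of the `x` modulo `v ^ (p * e)` with `x ≡ 1` modulo `v ^ e` is
`nm v ^ (p * e - e)` (kernel of `𝓞 F ⧸ v ^ (p * e) → 𝓞 F ⧸ v ^ e`, `Ideal.absNorm` of powers; they are
automatically units as `e > 0`).
-/

set_option autoImplicit false

namespace Pool.Agent.RGK

open NumberField IsDedekindDomain WithZero
open Pool.Agent.RG (Above IsDec IsInert IsFrob)
open Pool.Agent.RG.H (Pr vl UU PP emb below ev)

/-- The valuation of `1 - ζ` at `v`. -/
noncomputable def ez {F : Type} [Field F] [NumberField F] (ζ : F) (v : Pr F) : ℕ :=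
  (-log (v.valuation F (1 - ζ))).toNat

/-- The primary elements at `v`: `p`-th powers times units congruent to `1` modulo `(1 - ζ) ^ p`. -/
noncomputable def Prm (p : ℕ) {F : Type} [Field F] [NumberField F] (ζ : F) (v : Pr F) :
    Subgroup Fˣ := PP F p ⊔ UU v (p * ez ζ v)

section C20

variable {F : Type} [Field F] [NumberField F] {p : ℕ}

private theorem C20_ez (hp : p.Prime) {ζ : F} (hζ : IsPrimitiveRoot ζ p) (v : Pr F) :
    have : NeZero p := ⟨hp.ne_zero⟩
    v.intValuation (1 - hζ.toInteger) = exp (-(ez ζ v : ℤ)) := by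
  intro _
  have h1 : v.valuation F (1 - ζ) = v.intValuation (1 - hζ.toInteger) := by
    have h := HeightOneSpectrum.valuation_of_algebraMap (K := F) v (1 - hζ.toInteger)
    have h3 : (algebraMap (𝓞 F) F) (1 - hζ.toInteger) = 1 - ζ := by
      rw [map_sub, map_one]
      rfl
    rw [← h3]
    exact h
  have h0 : v.intValuation (1 - hζ.toInteger) ≠ 0 := by
    rw [← h1, Valuation.ne_zero_iff, sub_ne_zero]
    exact (hζ.ne_one hp.one_lt).symm
  have hle : v.intValuation (1 - hζ.toInteger) ≤ 1 := v.intValuation_le_one _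
  have hlog : log (v.intValuation (1 - hζ.toInteger)) ≤ 0 := by
    rw [← exp_log h0, ← exp_zero, exp_le_exp] at hle
    exact hle
  unfold ez
  rw [h1, Int.toNat_of_nonneg (by omega), neg_neg, exp_log h0]

private theorem C20_ev (hp : p.Prime) {ζ : F} (hζ : IsPrimitiveRoot ζ p) (v : Pr F) :
    ev p v = (p - 1) * ez ζ v := by
  have : NeZero p := ⟨hp.ne_zero⟩
  have h1 := RG.H.H12Aux.val_pow hp hζ.toInteger_isPrimitiveRoot v
  rw [C20_ez hp hζ v, ← exp_nsmul, exp_inj] at h1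
  have h2 : ((p - 1 : ℕ) : ℤ) * (ez ζ v : ℤ) = (ev p v : ℤ) := by
    rw [nsmul_eq_mul] at h1
    linarith
  exact_mod_cast h2.symm

private theorem C20_key (hp : p.Prime) {ζ : F} (hζ : IsPrimitiveRoot ζ p) (v : Pr F) (x : 𝓞 F) :
    x ^ p - 1 ∈ v.asIdeal ^ (p * ez ζ v) ↔ x - 1 ∈ v.asIdeal ^ ez ζ v := by
  classical
  have : NeZero p := ⟨hp.ne_zero⟩
  have hξ : IsPrimitiveRoot hζ.toInteger p := hζ.toInteger_isPrimitiveRoot
  have hprod : v.intValuation (x ^ p - 1) =
      ∏ α ∈ Polynomial.nthRootsFinset p (1 : 𝓞 F), v.intValuation (x - α) := by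
    have h1 := hξ.pow_sub_pow_eq_prod_sub_mul x 1 hp.pos
    rw [one_pow] at h1
    rw [h1, map_prod]
    simp only [mul_one]
  have hmem : ∀ α : 𝓞 F, α ∈ Polynomial.nthRootsFinset p (1 : 𝓞 F) ↔ α ^ p = 1 := fun α =>
    Polynomial.mem_nthRootsFinset hp.pos 1
  have hcard : (Polynomial.nthRootsFinset p (1 : 𝓞 F)).card = p := hξ.card_nthRootsFinset
  have hval := C20_ez hp hζ v
  have hdiff : ∀ α : 𝓞 F, α ^ p = 1 → v.intValuation (1 - α) ≤ exp (-(ez ζ v : ℤ)) := by
    intro α hα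
    by_cases h : (1 : 𝓞 F) = α
    · rw [← h, sub_self, map_zero]
      exact zero_le
    · rw [RG.H.H12Aux.val_sub hp hξ v (one_pow p) hα h, hval]
  rw [← HeightOneSpectrum.intValuation_le_pow_iff_mem,
    ← HeightOneSpectrum.intValuation_le_pow_iff_mem]
  have hexp : exp (-((p * ez ζ v : ℕ) : ℤ)) = exp (-(ez ζ v : ℤ)) ^ p := by
    rw [← exp_nsmul]
    congr 1
    rw [nsmul_eq_mul]
    push_cast
    ring
  rw [hexp]
  constructor
  · intro h
    by_contra hcon
    rw [not_le] at hcon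
    have h2 : v.intValuation (x ^ p - 1) = v.intValuation (x - 1) ^ p := by
      rw [hprod, Finset.prod_congr rfl (g := fun _ => v.intValuation (x - 1)), Finset.prod_const,
        hcard]
      intro α hα
      rw [hmem] at hα
      have h1 : x - α = (x - 1) + (1 - α) := by ring
      rw [h1, Valuation.map_add_eq_of_lt_left _ ((hdiff α hα).trans_lt hcon)]
    rw [h2] at h
    exact absurd h (not_le.2 (pow_lt_pow_left₀ hcon zero_le hp.ne_zero))
  · intro h
    have h2 : ∏ α ∈ Polynomial.nthRootsFinset p (1 : 𝓞 F), v.intValuation (x - α) ≤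
        ∏ _α ∈ Polynomial.nthRootsFinset p (1 : 𝓞 F), exp (-(ez ζ v : ℤ)) := by
      refine Finset.prod_le_prod' fun α hα => ?_
      rw [hmem] at hα
      have h1 : x - α = (x - 1) + (1 - α) := by ring
      rw [h1]
      exact Valuation.map_add_le _ h (hdiff α hα)
    rw [Finset.prod_const, hcard, ← hprod] at h2
    exact h2

private theorem C20_card (hp : p.Prime) {ζ : F} (hζ : IsPrimitiveRoot ζ p) (v : Pr F) :
    Nat.card {x : (𝓞 F ⧸ v.asIdeal ^ (p * ez ζ v))ˣ // x ^ p = 1} =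
      Ideal.absNorm v.asIdeal ^ ev p v := by
  classical
  have : NeZero p := ⟨hp.ne_zero⟩
  have hev := C20_ev hp hζ v
  set e := ez ζ v with he
  have hpe : e ≤ p * e := Nat.le_mul_of_pos_left e hp.pos
  let A := 𝓞 F ⧸ v.asIdeal ^ (p * e)
  let A' := 𝓞 F ⧸ v.asIdeal ^ e
  let π : A →+* A' := Ideal.Quotient.factor (Ideal.pow_le_pow_right hpe)
  have e1 : Nat.card {x : Aˣ // x ^ p = 1} = Nat.card {x : A // x ^ p = 1} := by
    refine Nat.card_congr (Equiv.ofBijective (fun x => ⟨((x.1 : Aˣ) : A), ?_⟩) ⟨?_, ?_⟩)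
    · rw [← Units.val_pow_eq_pow_val, x.2, Units.val_one]
    · intro x y h
      exact Subtype.ext (Units.ext (congrArg Subtype.val h))
    · rintro ⟨x, hx⟩
      refine ⟨⟨Units.ofPowEqOne x p hx hp.ne_zero, ?_⟩, rfl⟩
      exact Units.pow_ofPowEqOne hx hp.ne_zero
  have hker : ∀ x : 𝓞 F, (Ideal.Quotient.mk (v.asIdeal ^ (p * e)) x : A) ∈ RingHom.ker π ↔
      x ∈ v.asIdeal ^ e := by
    intro x
    rw [RingHom.mem_ker, Ideal.Quotient.factor_mk, Ideal.Quotient.eq_zero_iff_mem]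
  have hroot : ∀ x : 𝓞 F, (Ideal.Quotient.mk (v.asIdeal ^ (p * e)) x : A) ^ p = 1 ↔
      x - 1 ∈ v.asIdeal ^ e := by
    intro x
    rw [← C20_key hp hζ v x, ← map_pow, ← sub_eq_zero, ← map_one (Ideal.Quotient.mk _), ← map_sub,
      Ideal.Quotient.eq_zero_iff_mem]
  have e2 : Nat.card (RingHom.ker π) = Nat.card {x : A // x ^ p = 1} := by
    refine Nat.card_congr (Equiv.ofBijective (fun y => ⟨1 + y.1, ?_⟩) ⟨?_, ?_⟩)
    · obtain ⟨k, hk⟩ := y
      obtain ⟨b, rfl⟩ := Ideal.Quotient.mk_surjective k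
      have hk' := (hker b).1 hk
      change (1 + Ideal.Quotient.mk (v.asIdeal ^ (p * e)) b) ^ p = 1
      rw [← map_one (Ideal.Quotient.mk (v.asIdeal ^ (p * e))), ← map_add, map_one, hroot]
      rwa [add_sub_cancel_left]
    · rintro ⟨k, hk⟩ ⟨l, hl⟩ h
      have h' : (1 : A) + k = 1 + l := congrArg Subtype.val h
      exact Subtype.ext (add_left_cancel h')
    · rintro ⟨y, hy⟩
      obtain ⟨x, rfl⟩ := Ideal.Quotient.mk_surjective y
      refine ⟨⟨Ideal.Quotient.mk (v.asIdeal ^ (p * e)) (x - 1), (hker _).2 ((hroot x).1 hy)⟩,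
        Subtype.ext ?_⟩
      change 1 + Ideal.Quotient.mk (v.asIdeal ^ (p * e)) (x - 1) =
        Ideal.Quotient.mk (v.asIdeal ^ (p * e)) x
      rw [map_sub, map_one, add_sub_cancel]
  have hcard : ∀ n : ℕ, Nat.card (𝓞 F ⧸ v.asIdeal ^ n) = Ideal.absNorm v.asIdeal ^ n := by
    intro n
    rw [← map_pow, Ideal.absNorm_apply, Submodule.cardQuot_apply]
  have hq : 0 < Ideal.absNorm v.asIdeal := by
    rw [Nat.pos_iff_ne_zero, ne_eq, Ideal.absNorm_eq_zero_iff]
    exact v.ne_bot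
  change Nat.card {x : Aˣ // x ^ p = 1} = _
  rw [e1, ← e2]
  have h1 := AddSubgroup.card_mul_index (π : A →+ A').ker
  rw [AddSubgroup.index_ker, AddMonoidHom.range_eq_top.2
    (Ideal.Quotient.factor_surjective (Ideal.pow_le_pow_right hpe)),
    AddSubgroup.card_top] at h1
  have h2 : Nat.card A = Ideal.absNorm v.asIdeal ^ (p * e) := hcard _
  have h3 : Nat.card A' = Ideal.absNorm v.asIdeal ^ e := hcard _
  rw [h2, h3] at h1
  have h4 : Nat.card (RingHom.ker π) = Nat.card (π : A →+ A').ker :=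
    Nat.card_congr (Equiv.subtypeEquivRight fun x => by
      rw [RingHom.mem_ker, AddMonoidHom.mem_ker, AddMonoidHom.coe_coe])
  rw [h4]
  apply Nat.eq_of_mul_eq_mul_right (pow_pos hq e)
  rw [h1, ← pow_add, hev]
  congr 1
  have h5 : p - 1 + 1 = p := Nat.sub_add_cancel hp.one_le
  calc p * e = (p - 1 + 1) * e := by rw [h5]
    _ = (p - 1) * e + e := by ring

end C20

theorem index_Prm {p : ℕ} (hp : p.Prime) {F : Type} [Field F] [NumberField F] {ζ : F}
    (hζ : IsPrimitiveRoot ζ p) (v : Pr F) :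
    (Prm p ζ v).index = p * Ideal.absNorm v.asIdeal ^ ev p v := by
  unfold Prm
  rcases Nat.eq_zero_or_pos (ez ζ v) with h | h
  · have h1 := C20_ev hp hζ v
    rw [h, mul_zero] at h1
    rw [h, mul_zero, h1, pow_zero, mul_one]
    exact RG.H.H11Aux.index_sup hp v
  · have h2 : 1 ≤ p * ez ζ v := Nat.mul_pos hp.pos h
    rw [RG.H.index_PU hp v h2, C20_card hp hζ v]

end Pool.Agent.RGK
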