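import Mathlib
import Pool.Agent.Lib.RG.H01
import Pool.Agent.Lib.RG.H07
import Pool.Agent.Lib.RG.H10
import Pool.Agent.Lib.RG.H12
import Pool.Agent.Lib.RG.H13
import Pool.Agent.Lib.RG.H18
import Pool.Agent.Lib.RGK.CXDefs
import Pool.Agent.Lib.RGK.C20

/-!
RG v4, row C21: many elements which are primary outside `T`.
-/

set_option autoImplicit false

namespace Pool.Agent.RGK

open NumberField IsDedekindDomain
open Pool.Agent.RG (Above IsDec IsInert IsFrob)
open Pool.Agent.RG.H (Pr vl UU PP SU emb below ev)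

/-- The elements which are primary outside `T`. -/
noncomputable def XT (p : ℕ) {F : Type} [Field F] [NumberField F] (ζ : F) (T : Set (Pr F)) :
    Subgroup Fˣ := ⨅ v ∈ Tᶜ, Prm p ζ v

private theorem ez_eq_zero {p : ℕ} (hp : p.Prime) {F : Type} [Field F] [NumberField F] {ζ : F}
    (hζ : IsPrimitiveRoot ζ p) {v : Pr F} (hv : ¬ Above v p) : ez ζ v = 0 := by
  have : NeZero p := ⟨hp.ne_zero⟩
  have hξ : IsPrimitiveRoot hζ.toInteger p := hζ.toInteger_isPrimitiveRoot
  have h1 := RG.H.H12Aux.val_pow hp hξ v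
  rw [(RG.H.ev_eq_zero_iff hp.ne_zero v).2 hv, Nat.cast_zero, neg_zero, WithZero.exp_zero,
    pow_eq_one_iff] at h1
  have h2 : v.intValuation (1 - hζ.toInteger) = 1 := by
    rcases h1 with h1 | h1
    · exact h1
    · have := hp.two_le
      omega
  have h3 : v.valuation F (1 - ζ) = 1 := by
    rw [← h2, ← HeightOneSpectrum.valuation_of_algebraMap (K := F)]
    congr 1
  unfold ez
  rw [h3, WithZero.log_one]
  rfl

theorem exists_Y {p : ℕ} (hp : p.Prime) (hp2 : p ≠ 2) {F : Type} [Field F] [NumberField F] {ζ : F}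
    (hζ : IsPrimitiveRoot ζ p) {T : Finset (Pr F)} (hT : ∀ v ∈ T, ¬ Above v p) :
    ∃ Y : Subgroup Fˣ, PP F p ≤ Y ∧ Y ≤ XT p ζ T ∧ (PP F p).relIndex Y ≠ 0 ∧
      p ^ T.card ≤ p ^ InfinitePlace.nrComplexPlaces F * (PP F p).relIndex Y := by
  classical
  obtain ⟨S₁, hS₁⟩ := RG.H.fin_above (K := F) p hp.ne_zero
  set P := S₁.filter (fun v => Above v p) with hP
  have hPmem : ∀ v, v ∈ P ↔ Above v p := by
    intro v
    rw [hP, Finset.mem_filter]
    exact ⟨fun h => h.2, fun h => ⟨hS₁ v h, h⟩⟩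
  set I : Subgroup Fˣ := ⨅ v ∈ P, Prm p ζ v with hI
  have hPPPrm : ∀ v, PP F p ≤ Prm p ζ v := fun v => le_sup_left
  have hPPI : PP F p ≤ I := le_iInf₂ fun v _ => hPPPrm v
  set Y₀ : Subgroup Fˣ := SU (T ∪ P) ⊓ I with hY₀
  set r := InfinitePlace.nrComplexPlaces F with hr
  have hp0 : 0 < p := hp.pos
  -- index of `I`
  have hidx : I.index = p ^ (P.card + 2 * r) := by
    have h1 := RG.H.index_iInf P (fun v => Prm p ζ v) (P.sup fun v => p * ez ζ v) (by
      intro v hv
      exact (RG.H.UU_mono v (Finset.le_sup (f := fun v => p * ez ζ v) hv)).trans le_sup_right)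
    rw [hI, h1]
    have h2 : ∏ v ∈ P, (Prm p ζ v).index =
        ∏ v ∈ P, (p * Ideal.absNorm v.asIdeal ^ ev p v) :=
      Finset.prod_congr rfl fun v _ => index_Prm hp hζ v
    rw [h2, Finset.prod_mul_distrib, Finset.prod_const,
      RG.H.prod_ev hp (S := P) (fun v hv => (hPmem v).2 hv), (RG.H.finrank_eq hp hp2 hζ).1,
      ← pow_add]
  have hI0 : I.index ≠ 0 := by
    rw [hidx]
    exact (pow_pos hp0 _).ne'
  -- relative indices
  have e1 : (PP F p).relIndex (SU (T ∪ P)) = p ^ ((T ∪ P).card + r) :=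
    RG.H.index_PP hp hp2 hζ (T ∪ P)
  have hY₀S : Y₀ ≤ SU (T ∪ P) := inf_le_left
  have hle1 : PP F p ⊓ SU (T ∪ P) ≤ Y₀ := by
    rw [hY₀]
    exact le_inf inf_le_right (inf_le_left.trans hPPI)
  have e2 := Subgroup.relIndex_mul_relIndex (PP F p ⊓ SU (T ∪ P)) Y₀ (SU (T ∪ P)) hle1 hY₀S
  rw [Subgroup.inf_relIndex_right] at e2
  have e3 : (PP F p ⊓ SU (T ∪ P)).relIndex Y₀ = (PP F p).relIndex Y₀ := by
    rw [← Subgroup.inf_relIndex_right (PP F p ⊓ SU (T ∪ P)), inf_assoc,
      inf_eq_right.2 hY₀S, Subgroup.inf_relIndex_right]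
  have e4 : (PP F p).relIndex (Y₀ ⊔ PP F p) = (PP F p).relIndex Y₀ :=
    Subgroup.relIndex_sup_right Y₀ (PP F p)
  have e5 : Y₀.relIndex (SU (T ∪ P)) ≤ p ^ (P.card + 2 * r) := by
    have h1 : Y₀.relIndex (SU (T ∪ P)) = I.relIndex (SU (T ∪ P)) := by
      rw [hY₀, inf_comm, Subgroup.inf_relIndex_right]
    rw [h1, ← hidx]
    exact Nat.le_of_dvd (Nat.pos_of_ne_zero hI0) (Subgroup.relIndex_dvd_index_of_normal _ _)
  have hcard : (T ∪ P).card = T.card + P.card := by
    rw [Finset.card_union_of_disjoint]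
    rw [Finset.disjoint_left]
    intro v hv hv'
    exact hT v hv ((hPmem v).1 hv')
  rw [e3, e1, hcard] at e2
  refine ⟨Y₀ ⊔ PP F p, le_sup_right, ?_, ?_, ?_⟩
  · refine sup_le ?_ (le_iInf₂ fun v _ => hPPPrm v)
    refine le_iInf₂ fun v hv => ?_
    by_cases hvP : v ∈ P
    · exact inf_le_right.trans (iInf₂_le v hvP)
    · have hvT : v ∉ T := fun h => hv (by exact_mod_cast h)
      intro x hx
      have h1 : vl v x = 0 := hx.1 v (by
        rw [Finset.mem_union, not_or]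
        exact ⟨hvT, hvP⟩)
      have h2 : ez ζ v = 0 := ez_eq_zero hp hζ (fun h => hvP ((hPmem v).2 h))
      refine Subgroup.mem_sup_right ?_
      rw [h2, mul_zero]
      refine ⟨h1, ?_⟩
      rw [Nat.cast_zero, neg_zero, WithZero.exp_zero]
      refine (Valuation.map_sub _ _ _).trans ?_
      rw [RG.H.vl_eq_zero.1 h1, map_one, max_self]
  · rw [e4]
    intro h0
    rw [h0, zero_mul] at e2
    exact (pow_pos hp0 _).ne e2
  · rw [e4]
    have h1 : p ^ (T.card + P.card + r) ≤ (PP F p).relIndex Y₀ * p ^ (P.card + 2 * r) := by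
      rw [← e2]
      exact Nat.mul_le_mul_left _ e5
    have h2 : p ^ (T.card + P.card + r) = p ^ T.card * p ^ (P.card + r) := by
      rw [← pow_add]; congr 1; ring
    have h3 : (PP F p).relIndex Y₀ * p ^ (P.card + 2 * r) =
        (p ^ r * (PP F p).relIndex Y₀) * p ^ (P.card + r) := by
      have : P.card + 2 * r = r + (P.card + r) := by ring
      rw [this, pow_add]
      ring
    rw [h2, h3] at h1
    exact Nat.le_of_mul_le_mul_right h1 (pow_pos hp0 _)

end Pool.Agent.RGK
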