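import Mathlib
import Pool.Agent.Lib.RG.H10
import Pool.Agent.Lib.RG.H14
import Pool.Agent.Lib.RG.H18
import Pool.Agent.Lib.RG.H24
import Pool.Agent.Lib.RG.HIdx
import Pool.Agent.Lib.RGK.CXDefs

/-!
RG v4, rows C22a, C22b: upper bound for the number of the elements of `RC p T` if `V_T = 0`.

`card_hom_le` (row C22a): a finite commutative group `B` with `b ^ p = 1` has at most `card B`
homomorphisms to `Multiplicative (ZMod p)` (`Additive B` is a vector space over `ZMod p`,
`AddCommGroup.zmodModule`; dual space, `Subspace.dual_finrank_eq`, `Module.card_eq_pow_finrank`).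
General version: only the homomorphisms of `Fˣ` which kill a subgroup `N ≥ PP F p` of finite index are
needed.

`card_RC_le` (row C22b): `S` a finite set containing `T` and the primes above `p`, outside of which all
primes are principal up to `S` (`H.exists_good`, H14, with `L = K = F`; `prK`, `above`).
`N := ⨅ v ∈ S, N_v`, `N_v = PU p v` for `v ∈ T`, `N_v = Dv p v` for `v ∈ S \ T`: index
`p ^ (2 * card T + card (S \ T))` (`H.index_iInf`; `PU p v = NP p v` since `ev p v = 0`, `H.index_NP`;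
`H.index_Dv`; HIdx). `SU S ⊓ N ≤ VT p T ≤ PP F p` (the valuations outside `S` are `0`), and
`PP F p ≤ N`, so `N.relIndex (SU S) = (PP F p).relIndex (SU S) = p ^ (card S + r₂)` (`H.index_PP`) and
`(SU S ⊔ N).index * p ^ (card S + r₂) = p ^ (2 * card T + card (S \ T))`, that is
`(SU S ⊔ N).index * p ^ r₂ = p ^ card T` (compare the proof of `eq_of_indices` in HMain).
For `ξ ∈ RC p T` let `ψ x := ∑ᶠ v ∉ S, vl v x * ξ v` (as a homomorphism `Fˣ → Multiplicative (ZMod p)`).
It kills `SU S`. It kills `N`: `x ∈ N`; for `v ∈ T` write `x = y_v ^ p * u_v`, `u_v ∈ UU v 1`; let `y` be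
close to the `y_v` (`H.weak_approx`, `n = 1`): `x / y ^ p ∈ UU v 1` for `v ∈ T`, so
`0 = ∑ᶠ v, vl v (x / y ^ p) * ξ v`, where the terms for `v ∈ T` vanish, those for `v ∈ S \ T` are multiples
of `p`, so it is `ψ x`. `ξ ↦ ψ` is injective: if `ψ = 0` then `ξ v = 0` for `v ∉ S` (`prK`), and for
`v ∈ S \ T` use `x` with `vl v x = 1`, `vl v' x = 0` for the other `v' ∈ S \ T`, `x ∈ UU v' 1` for
`v' ∈ T` (`H.weak_approx`): `0 = ξ v`. So `RC p T` embeds into the homomorphisms killing `SU S ⊔ N`.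
-/

set_option autoImplicit false

namespace Pool.Agent.RGK

open NumberField IsDedekindDomain
open Pool.Agent.RG (Above IsDec IsInert IsFrob)
open Pool.Agent.RG.H (Pr vl UU PP emb below ev)

private theorem c22a_aux {p : ℕ} [Fact p.Prime] {V : Type} [AddCommGroup V] [Module (ZMod p) V] [Finite V] :
    Finite (V →+ ZMod p) ∧ Nat.card (V →+ ZMod p) ≤ Nat.card V := by
  have hp : p.Prime := Fact.out
  have : NeZero p := ⟨hp.ne_zero⟩
  have hfin : Finite (V →+ ZMod p) :=
    Finite.of_injective (fun f : V →+ ZMod p => (f : V → ZMod p)) DFunLike.coe_injective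
  refine ⟨hfin, ?_⟩
  have : Module.Finite (ZMod p) V := Module.Finite.of_finite
  let Φ : (V →+ ZMod p) → (V →ₗ[ZMod p] ZMod p) := fun f => AddMonoidHom.toZModLinearMap p f
  have hΦ : Function.Injective Φ := by
    intro f g hfg
    ext b
    have h1 : Φ f b = Φ g b := by rw [hfg]
    exact h1
  have hD : Finite (V →ₗ[ZMod p] ZMod p) := Module.finite_of_finite (ZMod p)
  refine (Nat.card_le_card_of_injective Φ hΦ).trans (le_of_eq ?_)
  have h1 : Nat.card (V →ₗ[ZMod p] ZMod p) = Nat.card (ZMod p) ^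
      Module.finrank (ZMod p) (V →ₗ[ZMod p] ZMod p) := Module.natCard_eq_pow_finrank
  have h2 : Nat.card V = Nat.card (ZMod p) ^
      Module.finrank (ZMod p) V := Module.natCard_eq_pow_finrank
  have h3 : Module.finrank (ZMod p) (V →ₗ[ZMod p] ZMod p) = Module.finrank (ZMod p) V :=
    Subspace.dual_finrank_eq (K := ZMod p) (V := V)
  rw [h1, h3, ← h2]

theorem card_hom_le {p : ℕ} [Fact p.Prime] {B : Type} [CommGroup B] [Finite B]
    (hB : ∀ b : B, b ^ p = 1) :
    Finite (B →* Multiplicative (ZMod p)) ∧ Nat.card (B →* Multiplicative (ZMod p)) ≤ Nat.card B := by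
  let M : Module (ZMod p) (Additive B) := AddCommGroup.zmodModule (n := p) (by
    intro x
    change Additive.ofMul ((Additive.toMul x) ^ p) = 0
    rw [hB]; rfl)
  have hfB : Finite (Additive B) := Finite.of_equiv B Additive.ofMul
  obtain ⟨h1, h2⟩ := c22a_aux (p := p) (V := Additive B)
  let Φ : (B →* Multiplicative (ZMod p)) → (Additive B →+ ZMod p) := fun f =>
    MonoidHom.toAdditiveLeft f
  have hΦ : Function.Injective Φ := by
    intro f g hfg
    ext b
    have h1 : Φ f (Additive.ofMul b) = Φ g (Additive.ofMul b) := by rw [hfg]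
    exact h1
  have h3 : Nat.card (Additive B) = Nat.card B := rfl
  exact ⟨Finite.of_injective Φ hΦ, (Nat.card_le_card_of_injective Φ hΦ).trans (h3 ▸ h2)⟩

/-- Row C22b: the local groups. -/
private noncomputable def C22b_N (p : ℕ) {F : Type} [Field F] [NumberField F] (T : Finset (Pr F))
    (v : Pr F) : Subgroup Fˣ :=
  @ite _ (v ∈ T) (Classical.propDecidable _) (PU p v) (RG.H.Dv p v)

private theorem C22b_N_mem {p : ℕ} {F : Type} [Field F] [NumberField F] {T : Finset (Pr F)}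
    {v : Pr F} (hv : v ∈ T) : C22b_N p T v = PU p v := if_pos hv

private theorem C22b_N_not {p : ℕ} {F : Type} [Field F] [NumberField F] {T : Finset (Pr F)}
    {v : Pr F} (hv : v ∉ T) : C22b_N p T v = RG.H.Dv p v := if_neg hv

private theorem C22b_PU_le {p : ℕ} {F : Type} [Field F] [NumberField F] (v : Pr F) :
    PU p v ≤ RG.H.Dv p v := by
  refine sup_le ?_ ?_
  · intro x hx
    obtain ⟨y, rfl⟩ := RG.H.mem_PP.mp hx
    rw [RG.H.mem_Dv, RG.H.vl_pow]
    exact dvd_mul_right _ _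
  · intro x hx
    rw [RG.H.mem_Dv, hx.1]
    exact dvd_zero _

private theorem C22b_index {p : ℕ} [Fact p.Prime] {F : Type} [Field F] [NumberField F] {ζ : F}
    (hζ : IsPrimitiveRoot ζ p) {T S : Finset (Pr F)} (hT : ∀ v ∈ T, ¬ Above v p) (hTS : T ⊆ S) :
    (⨅ v ∈ S, C22b_N p T v).index = p ^ (S.card + T.card) := by
  classical
  have hp : p.Prime := Fact.out
  rw [RG.H.index_iInf S (C22b_N p T) 1]
  · rw [← Finset.prod_sdiff hTS]
    have h1 : ∀ v ∈ T, (C22b_N p T v).index = p ^ 2 := by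
      intro v hv
      have h0 := (RG.H.ev_eq_zero_iff hp.ne_zero v).2 (hT v hv)
      have h2 : PU p v = RG.H.NP p v := by
        unfold PU RG.H.NP
        rw [h0]
      rw [C22b_N_mem hv, h2, RG.H.index_NP hp hζ, h0, pow_zero, mul_one]
    have h2 : ∀ v ∈ S \ T, (C22b_N p T v).index = p := by
      intro v hv
      rw [C22b_N_not (Finset.mem_sdiff.1 hv).2, RG.H.index_Dv hp]
    rw [Finset.prod_congr rfl h1, Finset.prod_congr rfl h2, Finset.prod_const, Finset.prod_const,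
      Finset.card_sdiff_of_subset hTS, ← pow_mul, ← pow_add]
    congr 1
    have := Finset.card_le_card hTS
    omega
  · intro v _
    by_cases hv : v ∈ T
    · rw [C22b_N_mem hv]
      exact le_sup_right
    · rw [C22b_N_not hv]
      intro x hx
      rw [RG.H.mem_Dv, hx.1]
      exact dvd_zero _

private theorem C22b_PP_le {p : ℕ} {F : Type} [Field F] [NumberField F] (T S : Finset (Pr F)) :
    PP F p ≤ ⨅ v ∈ S, C22b_N p T v := by
  refine le_iInf₂ fun v _ => ?_
  by_cases hv : v ∈ T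
  · rw [C22b_N_mem hv]
    exact le_sup_left
  · rw [C22b_N_not hv]
    exact le_sup_left.trans (C22b_PU_le v)

private theorem C22b_relIndex {p : ℕ} [Fact p.Prime] (hp2 : p ≠ 2) {F : Type} [Field F]
    [NumberField F] {ζ : F} (hζ : IsPrimitiveRoot ζ p) {T S : Finset (Pr F)}
    (hV : VT p (T : Set (Pr F)) ≤ PP F p) (hTS : T ⊆ S) :
    (⨅ v ∈ S, C22b_N p T v).relIndex (RG.H.SU S) =
      p ^ (S.card + InfinitePlace.nrComplexPlaces F) := by
  have hp : p.Prime := Fact.out
  rw [← RG.H.index_PP hp hp2 hζ S, ← Subgroup.inf_relIndex_right (⨅ v ∈ S, C22b_N p T v),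
    ← Subgroup.inf_relIndex_right (PP F p)]
  congr 1
  refine le_antisymm (le_inf ?_ inf_le_right) (inf_le_inf_right _ (C22b_PP_le T S))
  refine le_trans ?_ hV
  intro x hx
  obtain ⟨hx1, hx2⟩ := Subgroup.mem_inf.1 hx
  have hx1' : ∀ v ∈ S, x ∈ C22b_N p T v := by
    intro v hv
    simp only [Subgroup.mem_iInf] at hx1
    exact hx1 v hv
  refine Subgroup.mem_inf.2 ⟨?_, ?_⟩
  · intro v _
    by_cases hv : v ∈ S
    · have h := hx1' v hv
      by_cases hvT : v ∈ T
      · rw [C22b_N_mem hvT] at h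
        exact C22b_PU_le v h
      · rw [C22b_N_not hvT] at h
        exact h
    · rw [hx2 v hv]
      exact dvd_zero _
  · simp only [Subgroup.mem_iInf]
    intro v hv
    have hvT : v ∈ T := by simpa using hv
    have h := hx1' v (hTS hvT)
    rwa [C22b_N_mem hvT] at h

private theorem C22b_sup {p : ℕ} [Fact p.Prime] (hp2 : p ≠ 2) {F : Type} [Field F]
    [NumberField F] {ζ : F} (hζ : IsPrimitiveRoot ζ p) {T S : Finset (Pr F)}
    (hT : ∀ v ∈ T, ¬ Above v p) (hV : VT p (T : Set (Pr F)) ≤ PP F p) (hTS : T ⊆ S) :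
    p ^ InfinitePlace.nrComplexPlaces F * (RG.H.SU S ⊔ ⨅ v ∈ S, C22b_N p T v).index =
      p ^ T.card := by
  have hp : p.Prime := Fact.out
  set J := ⨅ v ∈ S, C22b_N p T v with hJ
  have e1 : J.relIndex (RG.H.SU S) * (RG.H.SU S ⊔ J).index = J.index := by
    rw [← Subgroup.relIndex_sup_right (RG.H.SU S) J]
    exact Subgroup.relIndex_mul_index le_sup_right
  rw [hJ, C22b_relIndex hp2 hζ hV hTS, C22b_index hζ hT hTS, pow_add, pow_add, mul_assoc] at e1
  exact Nat.eq_of_mul_eq_mul_left (pow_pos hp.pos _) e1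

/-- The terms of the sum. -/
private noncomputable def C22b_f {p : ℕ} {F : Type} [Field F] [NumberField F] (S : Finset (Pr F))
    (ξ : Pr F → ZMod p) (x : Fˣ) (v : Pr F) : ZMod p :=
  @ite _ (v ∈ S) (Classical.propDecidable _) 0 (((vl v x : ℤ) : ZMod p) * ξ v)

private theorem C22b_f_mem {p : ℕ} {F : Type} [Field F] [NumberField F] {S : Finset (Pr F)}
    (ξ : Pr F → ZMod p) (x : Fˣ) {v : Pr F} (hv : v ∈ S) : C22b_f S ξ x v = 0 := if_pos hv

private theorem C22b_f_not {p : ℕ} {F : Type} [Field F] [NumberField F] {S : Finset (Pr F)}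
    (ξ : Pr F → ZMod p) (x : Fˣ) {v : Pr F} (hv : v ∉ S) :
    C22b_f S ξ x v = ((vl v x : ℤ) : ZMod p) * ξ v := if_neg hv

private theorem C22b_f_zero {p : ℕ} {F : Type} [Field F] [NumberField F] (S : Finset (Pr F))
    (ξ : Pr F → ZMod p) {x : Fˣ} {v : Pr F} (h : v ∉ S → vl v x = 0) : C22b_f S ξ x v = 0 := by
  by_cases hv : v ∈ S
  · exact C22b_f_mem ξ x hv
  · rw [C22b_f_not ξ x hv, h hv, Int.cast_zero, zero_mul]

private theorem C22b_fin {p : ℕ} {F : Type} [Field F] [NumberField F] (S : Finset (Pr F))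
    (ξ : Pr F → ZMod p) (x : Fˣ) : (Function.support (C22b_f S ξ x)).Finite := by
  obtain ⟨S', hS'⟩ := RG.H.fin_vl x
  refine S'.finite_toSet.subset fun v hv => ?_
  by_contra hvS
  exact hv (C22b_f_zero S ξ fun _ => RG.H.mem_SU.1 hS' v hvS)

/-- The character given by `ξ`. -/
private noncomputable def C22b_psi {p : ℕ} {F : Type} [Field F] [NumberField F]
    (S : Finset (Pr F)) (ξ : Pr F → ZMod p) : Fˣ →* Multiplicative (ZMod p) where
  toFun x := Multiplicative.ofAdd (∑ᶠ v, C22b_f S ξ x v)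
  map_one' := by
    rw [finsum_congr (fun v => C22b_f_zero S ξ (x := 1) (v := v) fun _ => RG.H.vl_one v),
      finsum_zero, ofAdd_zero]
  map_mul' x y := by
    rw [← ofAdd_add, ← finsum_add_distrib (C22b_fin S ξ x) (C22b_fin S ξ y)]
    congr 1
    refine finsum_congr fun v => ?_
    by_cases hv : v ∈ S
    · rw [C22b_f_mem _ _ hv, C22b_f_mem _ _ hv, C22b_f_mem _ _ hv, add_zero]
    · rw [C22b_f_not _ _ hv, C22b_f_not _ _ hv, C22b_f_not _ _ hv, RG.H.vl_mul, Int.cast_add,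
        add_mul]

private theorem C22b_psi_apply {p : ℕ} {F : Type} [Field F] [NumberField F] (S : Finset (Pr F))
    (ξ : Pr F → ZMod p) (x : Fˣ) :
    C22b_psi S ξ x = Multiplicative.ofAdd (∑ᶠ v, C22b_f S ξ x v) := rfl

private theorem C22b_psi_SU {p : ℕ} {F : Type} [Field F] [NumberField F] (S : Finset (Pr F))
    (ξ : Pr F → ZMod p) {x : Fˣ} (hx : x ∈ RG.H.SU S) : C22b_psi S ξ x = 1 := by
  rw [C22b_psi_apply, finsum_congr (fun v => C22b_f_zero S ξ fun hv => hx v hv), finsum_zero,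
    ofAdd_zero]

private theorem C22b_psi_N {p : ℕ} [Fact p.Prime] {F : Type} [Field F] [NumberField F]
    {S T : Finset (Pr F)} (hTS : T ⊆ S) {ξ : Pr F → ZMod p} (hξ : ξ ∈ RC p (T : Set (Pr F)))
    {x : Fˣ} (hx : x ∈ ⨅ v ∈ S, C22b_N p T v) : C22b_psi S ξ x = 1 := by
  classical
  have hx1 : ∀ v ∈ S, x ∈ C22b_N p T v := by
    intro v hv
    simp only [Subgroup.mem_iInf] at hx
    exact hx v hv
  -- local p-th powers
  have h1 : ∀ v : Pr F, ∃ y : Fˣ, v ∈ T → x / y ^ p ∈ UU v 1 := by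
    intro v
    by_cases hv : v ∈ T
    · have h := hx1 v (hTS hv)
      rw [C22b_N_mem hv] at h
      obtain ⟨a, ha, b, hb, hab⟩ := Subgroup.mem_sup.1 h
      obtain ⟨y, rfl⟩ := RG.H.mem_PP.1 ha
      refine ⟨y, fun _ => ?_⟩
      rw [← hab, mul_comm, mul_div_assoc, div_self', mul_one]
      exact hb
    · exact ⟨1, fun h => absurd h hv⟩
  choose y hy using h1
  obtain ⟨z, hz⟩ := RG.H.weak_approx T y 1
  have h2 : ∀ v ∈ (T : Set (Pr F)), x / z ^ p ∈ UU v 1 := by
    intro v hv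
    have hv' : v ∈ T := by simpa using hv
    have e : x / z ^ p = x / y v ^ p * ((z / y v) ^ p)⁻¹ := by
      rw [div_pow, inv_div, div_mul_div_cancel]
    rw [e]
    exact (UU v 1).mul_mem (hy v hv') ((UU v 1).inv_mem ((UU v 1).pow_mem (hz v hv') p))
  have h3 := hξ.2 _ h2
  rw [C22b_psi_apply, ← ofAdd_zero]
  congr 1
  rw [← h3]
  refine finsum_congr fun v => ?_
  have hcast : ((vl v (x / z ^ p) : ℤ) : ZMod p) = ((vl v x : ℤ) : ZMod p) := by
    rw [RG.H.vl_div, RG.H.vl_pow, Int.cast_sub, Int.cast_mul, Int.cast_natCast,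
      ZMod.natCast_self, zero_mul, sub_zero]
  rw [hcast]
  by_cases hv : v ∈ S
  · rw [C22b_f_mem _ _ hv]
    by_cases hvT : v ∈ T
    · rw [hξ.1 v (by simpa using hvT), mul_zero]
    · have h := hx1 v hv
      rw [C22b_N_not hvT, RG.H.mem_Dv] at h
      rw [(ZMod.intCast_zmod_eq_zero_iff_dvd _ _).2 h, zero_mul]
  · rw [C22b_f_not _ _ hv]

private theorem C22b_inj {p : ℕ} [Fact p.Prime] {F : Type} [Field F] [NumberField F]
    {S T : Finset (Pr F)} (hTS : T ⊆ S) (hpr : ∀ v : Pr F, v ∉ S → ∃ ϖ : Fˣ, vl v ϖ = 1 ∧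
      ∀ v', v' ∉ S → v' ≠ v → vl v' ϖ = 0) {ξ ξ' : Pr F → ZMod p}
    (hξ : ξ ∈ RC p (T : Set (Pr F))) (hξ' : ξ' ∈ RC p (T : Set (Pr F)))
    (h : C22b_psi S ξ = C22b_psi S ξ') : ξ = ξ' := by
  classical
  have hval : ∀ (η : Pr F → ZMod p) (v : Pr F) (ϖ : Fˣ), v ∉ S → vl v ϖ = 1 →
      (∀ v', v' ∉ S → v' ≠ v → vl v' ϖ = 0) →
      C22b_psi S η ϖ = Multiplicative.ofAdd (η v) := by
    intro η v ϖ hv h1 h2
    rw [C22b_psi_apply, finsum_eq_single _ v]
    · rw [C22b_f_not _ _ hv, h1, Int.cast_one, one_mul]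
    · intro v' hne
      exact C22b_f_zero S η fun hv' => h2 v' hv' hne
  have hout : ∀ v, v ∉ S → ξ v = ξ' v := by
    intro v hv
    obtain ⟨ϖ, h1, h2⟩ := hpr v hv
    have e := DFunLike.congr_fun h ϖ
    rw [hval ξ v ϖ hv h1 h2, hval ξ' v ϖ hv h1 h2] at e
    exact Multiplicative.ofAdd.injective e
  have hη := (RC p (T : Set (Pr F))).sub_mem hξ hξ'
  funext v
  by_cases hv : v ∈ S
  swap
  · exact hout v hv
  by_cases hvT : v ∈ T
  · rw [hξ.1 v (by simpa using hvT), hξ'.1 v (by simpa using hvT)]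
  obtain ⟨ϖ, hϖ⟩ := RG.H.exists_unif v
  obtain ⟨x, hx⟩ := RG.H.weak_approx S (fun w => if w = v then ϖ else 1) 1
  have h1 : ∀ w ∈ (T : Set (Pr F)), x ∈ UU w 1 := by
    intro w hw
    have hw' : w ∈ T := by simpa using hw
    have hne : w ≠ v := fun e => hvT (e ▸ hw')
    have := hx w (hTS hw')
    rwa [if_neg hne, div_one] at this
  have h2 : vl v x = 1 := by
    have := (hx v hv).1
    rw [if_pos rfl, RG.H.vl_div, hϖ] at this
    omega
  have h3 := hη.2 x h1
  rw [finsum_eq_single _ v] at h3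
  · rw [h2, Int.cast_one, one_mul, Pi.sub_apply, sub_eq_zero] at h3
    exact h3
  · intro w hne
    by_cases hw : w ∈ S
    · have := (hx w hw).1
      rw [if_neg hne, div_one] at this
      rw [this, Int.cast_zero, zero_mul]
    · rw [Pi.sub_apply, hout w hw, sub_self, mul_zero]

theorem card_RC_le {p : ℕ} [Fact p.Prime] (hp2 : p ≠ 2) {F : Type} [Field F] [NumberField F] {ζ : F}
    (hζ : IsPrimitiveRoot ζ p) {T : Finset (Pr F)} (hT : ∀ v ∈ T, ¬ Above v p)
    (hV : VT p (T : Set (Pr F)) ≤ PP F p) :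
    Finite (RC p (T : Set (Pr F))) ∧
      p ^ InfinitePlace.nrComplexPlaces F * Nat.card (RC p (T : Set (Pr F))) ≤ p ^ T.card := by
  classical
  have hp : p.Prime := Fact.out
  obtain ⟨S, hTS, hS⟩ := RG.H.exists_good (K := F) (L := F) hp T
  set N := ⨅ v ∈ S, C22b_N p T v with hN
  set A := RG.H.SU S ⊔ N with hA
  have hidx := C22b_sup hp2 hζ hT hV hTS
  rw [← hN, ← hA] at hidx
  have hA0 : A.index ≠ 0 := by
    intro h
    rw [h, mul_zero] at hidx
    exact (pow_pos hp.pos _).ne hidx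
  have hfin : A.FiniteIndex := ⟨hA0⟩
  have hfq : Finite (Fˣ ⧸ A) := inferInstance
  have hexp : ∀ b : Fˣ ⧸ A, b ^ p = 1 := by
    intro b
    obtain ⟨x, rfl⟩ := QuotientGroup.mk_surjective b
    rw [← QuotientGroup.mk_pow, QuotientGroup.eq_one_iff]
    exact Subgroup.mem_sup_right (C22b_PP_le T S (RG.H.mem_PP.2 ⟨x, rfl⟩))
  obtain ⟨hF, hc⟩ := card_hom_le (B := Fˣ ⧸ A) hexp
  have hkill : ∀ ξ : RC p (T : Set (Pr F)), ∀ x ∈ A, C22b_psi S ξ.1 x = 1 := by
    intro ξ x hx
    have hle : A ≤ (C22b_psi S ξ.1).ker := by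
      rw [hA]
      refine sup_le (fun y hy => ?_) (fun y hy => ?_)
      · rw [MonoidHom.mem_ker]
        exact C22b_psi_SU S ξ.1 hy
      · rw [MonoidHom.mem_ker]
        exact C22b_psi_N hTS ξ.2 hy
    exact (MonoidHom.mem_ker).1 (hle hx)
  let Φ : RC p (T : Set (Pr F)) → ((Fˣ ⧸ A) →* Multiplicative (ZMod p)) := fun ξ =>
    QuotientGroup.lift A (C22b_psi S ξ.1) (hkill ξ)
  have hinj : Function.Injective Φ := by
    intro ξ ξ' h
    apply Subtype.ext
    refine C22b_inj hTS hS.prK ξ.2 ξ'.2 ?_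
    ext1 x
    have e := congrArg (fun f : (Fˣ ⧸ A) →* Multiplicative (ZMod p) => f (x : Fˣ ⧸ A)) h
    exact e
  refine ⟨Finite.of_injective Φ hinj, ?_⟩
  rw [← hidx]
  refine Nat.mul_le_mul_left _ ((Nat.card_le_card_of_injective Φ hinj).trans (hc.trans ?_))
  exact le_rfl

end Pool.Agent.RGK
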