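import Mathlib
import Pool.Agent.Lib.RG.E26
import Pool.Agent.Lib.RG.E22a
import Pool.Agent.Lib.RGK.BDefs

/-!
RG v4, row E26: `exists_alphaK`: copy E26 of RG, replacing `ℚ` by `K`. `kummer_unramifiedK`: copy E27 of
RG, replacing `ℚ` by `K` (`N ≃ₐ[ℚ] N` by `N ≃ₐ[K] N`).
-/

set_option autoImplicit false

namespace Pool.Agent.RGK

open NumberField IsDedekindDomain
open Pool.Agent.RG (Above IsDec IsInert IsFrob Lies)
open Pool.Agent.RG.H (Pr below)

theorem exists_alphaK {K : Type} [Field K] {p : ℕ} [Fact p.Prime] {M : Type} [Field M]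
    [NumberField M] [Algebra K M] {E : Type} [Group E] [Finite E] (ρ : E →* (M ≃ₐ[K] M))
    (b : E → M) (hb0 : ∀ e, b e ≠ 0) (hb : ∀ e f, b (e * f) = b e * ρ e (b f))
    (hz : ∀ z, ρ z = 1 → b z ^ p = 1) :
    ∃ α : M, α ≠ 0 ∧ ∀ e, b e ^ p * α = ρ e α := by
  classical
  have hF : Fintype E := Fintype.ofFinite E
  obtain ⟨μ, hμ⟩ : ∃ μ : E → (M →* M), ∀ e x, μ e x = ρ e x :=
    ⟨fun e => ((ρ e : M ≃ₐ[K] M) : M →+* M), fun e x => rfl⟩
  have hμ1 : ∀ e, μ e = μ 1 → ρ e = 1 := by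
    intro e he
    ext x
    rw [← hμ e x, he, hμ 1 x, map_one]
  -- a nonzero value
  obtain ⟨x, hx⟩ : ∃ x : M, ∑ e, b e ^ p * ρ e x ≠ 0 := by
    by_contra hcon
    push Not at hcon
    have h1 := linearIndependent_monoidHom M M
    rw [linearIndependent_iff'] at h1
    have h2 := h1 (Finset.univ.image μ) (fun χ => ∑ e ∈ Finset.univ.filter (fun e => μ e = χ), b e ^ p)
      ?_ (μ 1) (Finset.mem_image_of_mem _ (Finset.mem_univ _))
    · have h3 : ∑ e ∈ Finset.univ.filter (fun e => μ e = μ 1), b e ^ p =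
          ((Finset.univ.filter (fun e => μ e = μ 1)).card : M) := by
        rw [Finset.card_eq_sum_ones, Nat.cast_sum]
        refine Finset.sum_congr rfl fun e he => ?_
        rw [hz e (hμ1 e (Finset.mem_filter.1 he).2), Nat.cast_one]
      have h4 : ∑ e ∈ Finset.univ.filter (fun e => μ e = μ 1), b e ^ p = 0 := h2
      rw [h3, Nat.cast_eq_zero, Finset.card_eq_zero] at h4
      have h5 : (1 : E) ∈ Finset.univ.filter (fun e => μ e = μ 1) :=
        Finset.mem_filter.2 ⟨Finset.mem_univ _, rfl⟩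
      rw [h4] at h5
      exact absurd h5 (Finset.notMem_empty _)
    · funext x
      rw [Finset.sum_apply, Pi.zero_apply, ← hcon x,
        ← Finset.sum_fiberwise_of_maps_to (s := Finset.univ) (t := Finset.univ.image μ) (g := μ)
          (fun e _ => Finset.mem_image_of_mem _ (Finset.mem_univ _)) (fun e => b e ^ p * ρ e x)]
      refine Finset.sum_congr rfl fun χ _ => ?_
      rw [Pi.smul_apply, smul_eq_mul, Finset.sum_mul]
      refine Finset.sum_congr rfl fun e he => ?_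
      rw [← (Finset.mem_filter.1 he).2, hμ]
  refine ⟨(∑ e, b e ^ p * ρ e x)⁻¹, inv_ne_zero hx, fun e => ?_⟩
  have h1 : b e ^ p * ρ e (∑ f, b f ^ p * ρ f x) = ∑ f, b f ^ p * ρ f x := by
    rw [map_sum, Finset.mul_sum, ← Equiv.sum_comp (Equiv.mulLeft e) (fun f => b f ^ p * ρ f x)]
    refine Finset.sum_congr rfl fun f _ => ?_
    rw [Equiv.coe_mulLeft, hb, map_mul ρ, map_mul, map_pow, mul_pow, mul_assoc]
    rfl
  have h2 : b e ^ p ≠ 0 := pow_ne_zero _ (hb0 e)
  rw [map_inv₀]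
  have h3 : ρ e (∑ f, b f ^ p * ρ f x) = (∑ f, b f ^ p * ρ f x) / b e ^ p := by
    rw [eq_div_iff h2, mul_comm]
    exact h1
  rw [h3, inv_div, div_eq_mul_inv]

private theorem E26K_root {p : ℕ} [Fact p.Prime] {M : Type} [Field M] [NumberField M]
    {w : HeightOneSpectrum (𝓞 M)} {z : M} (hz : z ^ p = 1) : w.valuation M z = 1 := by
  have h1 : w.valuation M z ^ p = 1 := by rw [← map_pow, hz, map_one]
  exact (pow_eq_one_iff_of_nonneg zero_le (Fact.out : p.Prime).ne_zero).1 h1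

private theorem E26K_le {p : ℕ} [Fact p.Prime] {M : Type} [Field M] [NumberField M]
    {w : HeightOneSpectrum (𝓞 M)} {z : M} (hz : z ^ p = 1) (k : ℕ) :
    w.valuation M (1 - z ^ k) ≤ w.valuation M (1 - z) := by
  rw [← mul_neg_geom_sum, map_mul]
  have h1 : w.valuation M (∑ i ∈ Finset.range k, z ^ i) ≤ 1 := by
    refine Valuation.map_sum_le _ fun i _ => ?_
    rw [map_pow, E26K_root hz, one_pow]
  exact mul_le_of_le_one_right' h1

theorem kummer_unramifiedK {K : Type} [Field K] {p : ℕ} [Fact p.Prime] {N : Type} [Field N]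
    [NumberField N] [Algebra K N] {ζ : N} (hζ : IsPrimitiveRoot ζ p) {w : Pr N} (hw : Above w p)
    {g : N ≃ₐ[K] N} (hg : IsInert w g) (hgζ : g ζ = ζ) {A β x : N} (hA : A ^ p = β) (hβ0 : β ≠ 0)
    (hx0 : x ≠ 0) (hβ : g β = β) (hx : g x = x)
    (h : w.valuation N (β / x ^ p - 1) ≤ w.valuation N (1 - ζ) ^ p) : g A = A := by
  have hp : p.Prime := Fact.out
  have hA0 : A ≠ 0 := by
    rintro rfl
    rw [zero_pow hp.ne_zero] at hA
    exact hβ0 hA.symm
  have hζ1 : ζ ≠ 1 := fun h1 => hp.one_lt.ne' (by rw [h1] at hζ; exact hζ.unique IsPrimitiveRoot.one)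
  have hd0 : (1 : N) - ζ ≠ 0 := sub_ne_zero.2 hζ1.symm
  -- the quotient `z = g A / A` is a `p`-th root of unity
  obtain ⟨z, hz⟩ : ∃ z, g A = z * A := ⟨g A / A, by field_simp⟩
  have hzp : z ^ p = 1 := by
    have h1 : (g A) ^ p = A ^ p := by rw [← map_pow, hA, hβ]
    rw [hz, mul_pow] at h1
    exact mul_right_cancel₀ (pow_ne_zero p hA0) (h1.trans (one_mul _).symm)
  by_cases hz1 : z = 1
  · rw [hz, hz1, one_mul]
  exfalso
  have hzprim : IsPrimitiveRoot z p := by
    have h1 : orderOf z = p := orderOf_eq_prime hzp hz1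
    rw [← h1]
    exact IsPrimitiveRoot.orderOf z
  have hzle : w.valuation N (1 - ζ) ≤ w.valuation N (1 - z) := by
    have _ : NeZero p := ⟨hp.ne_zero⟩
    obtain ⟨i, -, rfl⟩ := hzprim.eq_pow_of_pow_eq_one hζ.pow_eq_one
    exact E26K_le hzp i
  set B : N := A / x with hB
  have hBp : B ^ p = β / x ^ p := by rw [hB, div_pow, hA]
  have hB1 : w.valuation N (B - 1) ≤ w.valuation N (1 - ζ) := by
    refine RG.val_sub_one_le_of_pow hζ hw ?_
    rw [hBp]
    exact h
  have hgB : g B = z * B := by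
    rw [hB, map_div₀, hz, hx, mul_div_assoc]
  have hlt : w.valuation N (1 - ζ) < 1 := RG.val_one_sub_lt hζ hw
  have hvB : w.valuation N B = 1 := by
    have h1 : w.valuation N (B - 1) < 1 := hB1.trans_lt hlt
    have h2 : B = 1 + (B - 1) := by ring
    rw [h2]
    exact Valuation.map_one_add_of_lt _ h1
  have hvd : w.valuation N (1 - ζ) ≠ 0 := (Valuation.ne_zero_iff _).2 hd0
  have hC : w.valuation N ((B - 1) / (1 - ζ)) ≤ 1 := by
    rw [map_div₀]
    exact div_le_one_of_le₀ hB1 zero_le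
  have h3 := hg.2 _ hC
  have h4 : g • ((B - 1) / (1 - ζ)) - (B - 1) / (1 - ζ) = -((1 - z) * B / (1 - ζ)) := by
    change g ((B - 1) / (1 - ζ)) - (B - 1) / (1 - ζ) = -((1 - z) * B / (1 - ζ))
    rw [map_div₀, map_sub, map_sub, map_one, hgζ, hgB]
    field_simp
    ring
  rw [h4, Valuation.map_neg, map_div₀, map_mul, hvB, mul_one] at h3
  refine absurd h3 (not_lt.2 ?_)
  rw [one_le_div₀ (zero_lt_iff.2 hvd)]
  exact hzle

end Pool.Agent.RGK
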