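import Mathlib
import Pool.Agent.Lib.RG.H19
import Pool.Agent.Lib.RGK.CXDefs
import Pool.Agent.Lib.RGK.E26
import Pool.Agent.Lib.RGK.C20
import Pool.Agent.Lib.RGK.C21

/-!
RG v4, rows C23a, C23b, C23c: Kummer characters.

`exists_kummer_field` (row C23a): the splitting field over `F` of `∏ b ∈ s, (X ^ p - C b)` (a number
field, Galois over `F`).

`exists_kappa` (row C23b): for `b ∈ Y`, `β ^ p = b`, `g β / β` is a `p`-th root of unity, hence
`ζ ^ i` with a unique `i : ZMod p` (`IsPrimitiveRoot.eq_pow_of_pow_eq_one`); it does not depend on `β` (two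
choices differ by a power of `ζ ∈ F`), it is multiplicative in `g` (because `g ζ = ζ`) and in `b`. If
`κ b = 1` then `β` is fixed by `Gal(M / F)`, so `β ∈ F` and `b ∈ PP F p`.

`kappa_unr` (row C23c): `b ∈ Prm p ζ v` for `v = below w ∉ T`: `b = y ^ p * u` with `u ∈ UU v (p * ez ζ v)`
(`Subgroup.mem_sup`, `mem_PP`); `B := β / y`, `B ^ p = u`; `g` inert at `w`, `g B = ζ ^ i * B`. If `w` is
not above `p`: `B` is a unit at `w`, `w (g B - B) < 1`, so `w (ζ ^ i - 1) < 1`, which implies
`ζ ^ i = 1` (as `1 - ζ ^ i` divides `p` otherwise). If `w` is above `p`: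
`w (u - 1) ≤ w (1 - ζ) ^ p` (`v (u - 1) ≤ exp (- p * ez ζ v) = v (1 - ζ) ^ p`, `H.exists_e_val` for the
passage to `w`), and `kummer_unramifiedK` (RGK/E26, with `K = F`, `β = u`, `x = 1`) gives
`g B = B`.
-/

set_option autoImplicit false

namespace Pool.Agent.RGK

open NumberField IsDedekindDomain
open Pool.Agent.RG (Above IsDec IsInert IsFrob)
open Pool.Agent.RG.H (Pr vl UU PP emb below ev)

theorem exists_kummer_field {p : ℕ} (hp : p.Prime) {F : Type} [Field F] [NumberField F]
    (s : Finset Fˣ) :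
    ∃ (M : Type) (_ : Field M) (_ : NumberField M) (_ : Algebra F M) (_ : IsGalois F M),
      ∀ b ∈ s, ∃ β : M, β ^ p = algebraMap F M b := by
  classical
  obtain ⟨f, hf⟩ : ∃ f : Polynomial F,
      f = ∏ b ∈ s, (Polynomial.X ^ p - Polynomial.C (b : F)) := ⟨_, rfl⟩
  have hdeg : ∀ b : Fˣ, (Polynomial.X ^ p - Polynomial.C (b : F)).degree = (p : WithBot ℕ) :=
    fun b => Polynomial.degree_X_pow_sub_C hp.pos _
  have hne : f ≠ 0 := by
    rw [hf, Finset.prod_ne_zero_iff]
    intro b _ h0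
    have := hdeg b
    rw [h0, Polynomial.degree_zero] at this
    exact absurd this (by simp)
  have : FiniteDimensional F f.SplittingField := inferInstance
  have hnf : NumberField f.SplittingField := NumberField.of_module_finite F f.SplittingField
  have : Normal F f.SplittingField := Normal.of_isSplittingField f
  have hg : IsGalois F f.SplittingField := { }
  refine ⟨f.SplittingField, inferInstance, hnf, inferInstance, hg, ?_⟩
  intro b hb
  have hdvd : (Polynomial.X ^ p - Polynomial.C (b : F)) ∣ f := by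
    rw [hf]
    exact Finset.dvd_prod_of_mem (fun b : Fˣ => Polynomial.X ^ p - Polynomial.C (b : F)) hb
  have hne' : f.map (algebraMap F f.SplittingField) ≠ 0 :=
    Polynomial.map_ne_zero hne
  have hs : ((Polynomial.X ^ p - Polynomial.C (b : F)).map
      (algebraMap F f.SplittingField)).Splits :=
    Polynomial.Splits.of_dvd (Polynomial.SplittingField.splits f) hne'
      (Polynomial.map_dvd _ hdvd)
  obtain ⟨β, hβ⟩ := hs.exists_eval_eq_zero (by
    rw [Polynomial.degree_map, hdeg b]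
    exact_mod_cast hp.ne_zero)
  refine ⟨β, ?_⟩
  rw [Polynomial.map_sub, Polynomial.map_pow, Polynomial.map_X, Polynomial.map_C,
    Polynomial.eval_sub, Polynomial.eval_pow, Polynomial.eval_X, Polynomial.eval_C] at hβ
  exact sub_eq_zero.1 hβ

private theorem c23b_pow {M : Type} [Field M] {p : ℕ} [Fact p.Prime] {z : M} (hz : z ^ p = 1)
    (a b : ZMod p) : z ^ (a + b).val = z ^ a.val * z ^ b.val := by
  have : NeZero p := ⟨(Fact.out : p.Prime).ne_zero⟩
  rw [ZMod.val_add, ← pow_add]
  exact (pow_eq_pow_mod (a.val + b.val) hz).symm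

private theorem c23b_inj {M : Type} [Field M] {p : ℕ} [Fact p.Prime] {z : M}
    (hz : IsPrimitiveRoot z p) {a b : ZMod p} (h : z ^ a.val = z ^ b.val) : a = b := by
  have : NeZero p := ⟨(Fact.out : p.Prime).ne_zero⟩
  exact ZMod.val_injective p (hz.pow_inj (ZMod.val_lt a) (ZMod.val_lt b) h)

private theorem c23b_ex {M : Type} [Field M] {p : ℕ} [Fact p.Prime] {z : M}
    (hz : IsPrimitiveRoot z p) {x y : M} (hy : y ≠ 0) (h : x ^ p = y ^ p) :
    ∃ a : ZMod p, x = z ^ a.val * y := by
  have : NeZero p := ⟨(Fact.out : p.Prime).ne_zero⟩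
  have h1 : (x / y) ^ p = 1 := by
    rw [div_pow, h, div_self (pow_ne_zero _ hy)]
  obtain ⟨i, hi, hiz⟩ := hz.eq_pow_of_pow_eq_one h1
  refine ⟨(i : ZMod p), ?_⟩
  rw [ZMod.val_cast_of_lt hi, hiz, div_mul_cancel₀ _ hy]

theorem exists_kappa {p : ℕ} [Fact p.Prime] {F M : Type} [Field F] [NumberField F] [Field M]
    [NumberField M] [Algebra F M] [IsGalois F M] {ζ : F} (hζ : IsPrimitiveRoot ζ p)
    (Y : Subgroup Fˣ) (hY : ∀ b ∈ Y, ∃ β : M, β ^ p = algebraMap F M b) :
    ∃ κ : Y →* ((M ≃ₐ[F] M) →* Multiplicative (ZMod p)),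
      (∀ (b : Y) (g : M ≃ₐ[F] M) (β : M), β ^ p = algebraMap F M (b : Fˣ) →
        g β = algebraMap F M ζ ^ (Multiplicative.toAdd (κ b g)).val * β) ∧
      ∀ b : Y, κ b = 1 → (b : Fˣ) ∈ PP F p := by
  classical
  have hp0 : p ≠ 0 := (Fact.out : p.Prime).ne_zero
  have hz : IsPrimitiveRoot (algebraMap F M ζ) p := hζ.map_of_injective (algebraMap F M).injective
  have hY' : ∀ b : Y, ∃ β : M, β ^ p = algebraMap F M (b : Fˣ) := fun b => hY b b.2
  choose B hB using hY'
  have hne : ∀ (b : Y) (β : M), β ^ p = algebraMap F M (b : Fˣ) → β ≠ 0 := by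
    intro b β h h0
    rw [h0, zero_pow hp0] at h
    have h2 : ((b : Fˣ) : F) = 0 := by
      apply (algebraMap F M).injective
      rw [← h, map_zero]
    exact (b : Fˣ).ne_zero h2
  have hk : ∀ (b : Y) (g : M ≃ₐ[F] M), ∃ a : ZMod p, g (B b) = algebraMap F M ζ ^ a.val * B b := by
    intro b g
    apply c23b_ex hz (hne b _ (hB b))
    rw [← map_pow, hB b, AlgEquiv.commutes]
  choose k hk using hk
  have key : ∀ (b : Y) (g : M ≃ₐ[F] M) (β : M), β ^ p = algebraMap F M (b : Fˣ) →
      g β = algebraMap F M ζ ^ (k b g).val * β := by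
    intro b g β hβ
    obtain ⟨j, hj⟩ := c23b_ex hz (hne b _ (hB b)) (hβ.trans (hB b).symm)
    rw [hj, map_mul, map_pow, AlgEquiv.commutes, hk]
    ring
  have uniq : ∀ (a c : ZMod p) (β : M), β ≠ 0 →
      algebraMap F M ζ ^ a.val * β = algebraMap F M ζ ^ c.val * β → a = c := by
    intro a c β hβ h
    exact c23b_inj hz (mul_right_cancel₀ hβ h)
  have hkmul : ∀ (b : Y) (g h : M ≃ₐ[F] M), k b (g * h) = k b g + k b h := by
    intro b g h
    apply uniq _ _ (B b) (hne b _ (hB b))
    rw [← key b (g * h) (B b) (hB b), AlgEquiv.mul_apply, hk b h, map_mul, map_pow,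
      AlgEquiv.commutes, hk b g, c23b_pow hz.pow_eq_one]
    ring
  have hkmul' : ∀ (b c : Y) (g : M ≃ₐ[F] M), k (b * c) g = k b g + k c g := by
    intro b c g
    have h1 : (B b * B c) ^ p = algebraMap F M ((b * c : Y) : Fˣ) := by
      rw [mul_pow, hB, hB, ← map_mul]
      rfl
    apply uniq _ _ (B b * B c) (hne (b * c) _ h1)
    rw [← key (b * c) g _ h1, map_mul, hk b g, hk c g, c23b_pow hz.pow_eq_one]
    ring
  let κ0 : Y → ((M ≃ₐ[F] M) →* Multiplicative (ZMod p)) := fun b =>
    MonoidHom.mk' (fun g => Multiplicative.ofAdd (k b g)) (fun g h => by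
      rw [hkmul, ofAdd_add])
  have hκ0 : ∀ b g, κ0 b g = Multiplicative.ofAdd (k b g) := fun _ _ => rfl
  let κ : Y →* ((M ≃ₐ[F] M) →* Multiplicative (ZMod p)) := MonoidHom.mk' κ0 (by
    intro b c
    ext g
    rw [MonoidHom.mul_apply, hκ0, hκ0, hκ0, hkmul', ofAdd_add])
  have hκ : ∀ b g, κ b g = Multiplicative.ofAdd (k b g) := fun _ _ => rfl
  refine ⟨κ, ?_, ?_⟩
  · intro b g β hβ
    rw [hκ, toAdd_ofAdd]
    exact key b g β hβ
  · intro b hb
    have h1 : ∀ g : M ≃ₐ[F] M, g (B b) = B b := by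
      intro g
      have h2 : κ b g = 1 := by rw [hb]; rfl
      rw [hκ] at h2
      have h3 : k b g = 0 := by
        have := congrArg Multiplicative.toAdd h2
        simpa using this
      rw [hk, h3, ZMod.val_zero, pow_zero, one_mul]
    have : FiniteDimensional F M := FiniteDimensional.right ℚ F M
    obtain ⟨x, hx⟩ := (IsGalois.mem_range_algebraMap_iff_fixed (F := F) (E := M) (B b)).2 h1
    have hx2 : x ^ p = ((b : Fˣ) : F) := by
      apply (algebraMap F M).injective
      rw [map_pow, hx, hB]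
    have hx0 : x ≠ 0 := by
      rintro rfl
      rw [zero_pow hp0] at hx2
      exact (b : Fˣ).ne_zero hx2.symm
    rw [Pool.Agent.RG.H.mem_PP]
    refine ⟨Units.mk0 x hx0, ?_⟩
    ext
    rw [Units.val_pow_eq_pow_val, Units.val_mk0, hx2]

private theorem C23c_root {p : ℕ} [Fact p.Prime] {M : Type} [Field M] [NumberField M]
    {w : HeightOneSpectrum (𝓞 M)} {z : M} (hz : z ^ p = 1) : w.valuation M z = 1 := by
  have h1 : w.valuation M z ^ p = 1 := by rw [← map_pow, hz, map_one]
  exact (pow_eq_one_iff_of_nonneg zero_le (Fact.out : p.Prime).ne_zero).1 h1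

private theorem C23c_le {p : ℕ} [Fact p.Prime] {M : Type} [Field M] [NumberField M]
    {w : HeightOneSpectrum (𝓞 M)} {z : M} (hz : z ^ p = 1) (k : ℕ) :
    w.valuation M (1 - z ^ k) ≤ w.valuation M (1 - z) := by
  rw [← mul_neg_geom_sum, map_mul]
  have h1 : w.valuation M (∑ i ∈ Finset.range k, z ^ i) ≤ 1 := by
    refine Valuation.map_sum_le _ fun i _ => ?_
    rw [map_pow, C23c_root hz, one_pow]
  exact mul_le_of_le_one_right' h1

/-- a root of unity of order `p` which is congruent to `1` at `w`: then `w` is above `p` -/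
private theorem C23c_above {p : ℕ} [Fact p.Prime] {M : Type} [Field M] [NumberField M]
    {w : HeightOneSpectrum (𝓞 M)} {z : M} (hz : z ^ p = 1) (hz1 : z ≠ 1)
    (h : w.valuation M (1 - z) < 1) : Above w p := by
  have hp : p.Prime := Fact.out
  have hprim : IsPrimitiveRoot z p := by
    have h1 : orderOf z = p := orderOf_eq_prime hz hz1
    rw [← h1]
    exact IsPrimitiveRoot.orderOf z
  have h2 : ∑ i ∈ Finset.range p, (1 - z ^ i) = (p : M) := by
    rw [Finset.sum_sub_distrib, hprim.geom_sum_eq_zero hp.one_lt, sub_zero, Finset.sum_const,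
      Finset.card_range, nsmul_eq_mul, mul_one]
  unfold Above
  rw [← h2]
  exact Valuation.map_sum_lt _ one_ne_zero fun i _ => (C23c_le hz i).trans_lt h

theorem kappa_unr {p : ℕ} [Fact p.Prime] (hp2 : p ≠ 2) {F M : Type} [Field F] [NumberField F]
    [Field M] [NumberField M] [Algebra F M] [IsGalois F M] {ζ : F} (hζ : IsPrimitiveRoot ζ p)
    {T : Set (Pr F)} {b : Fˣ} (hb : b ∈ XT p ζ T) {β : M} (hβ : β ^ p = algebraMap F M b)
    (θ : (M ≃ₐ[F] M) →* Multiplicative (ZMod p))
    (hθ : ∀ g : M ≃ₐ[F] M, g β = algebraMap F M ζ ^ (Multiplicative.toAdd (θ g)).val * β) :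
    UnrCh T θ := by
  have hp : p.Prime := Fact.out
  have _ : NeZero p := ⟨hp.ne_zero⟩
  intro w hw g hg
  obtain ⟨v, hv⟩ : ∃ v : Pr F, v = below w := ⟨_, rfl⟩
  rw [← hv] at hw
  -- `b = y ^ p * u`
  have hb1 : b ∈ Prm p ζ v := by
    unfold XT at hb
    rw [Subgroup.mem_iInf] at hb
    have h1 := hb v
    rw [Subgroup.mem_iInf] at h1
    exact h1 hw
  unfold Prm at hb1
  obtain ⟨y', hy', u, hu, hyu⟩ := Subgroup.mem_sup.1 hb1
  obtain ⟨y, rfl⟩ := Pool.Agent.RG.H.mem_PP.1 hy'
  have hζM : IsPrimitiveRoot (algebraMap F M ζ) p :=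
    hζ.map_of_injective (algebraMap F M).injective
  have hy0 : algebraMap F M (y : F) ≠ 0 := by
    rw [Ne, map_eq_zero]
    exact y.ne_zero
  have hu0 : algebraMap F M (u : F) ≠ 0 := by
    rw [Ne, map_eq_zero]
    exact u.ne_zero
  obtain ⟨B, hB⟩ : ∃ B : M, B = β / algebraMap F M (y : F) := ⟨_, rfl⟩
  have hBp : B ^ p = algebraMap F M (u : F) := by
    rw [hB, div_pow, hβ, ← hyu, Units.val_mul, Units.val_pow_eq_pow_val, map_mul, map_pow,
      mul_div_cancel_left₀ _ (pow_ne_zero p hy0)]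
  have hB0 : B ≠ 0 := by
    rintro rfl
    rw [zero_pow hp.ne_zero] at hBp
    exact hu0 hBp.symm
  have hgB : g B = algebraMap F M ζ ^ (Multiplicative.toAdd (θ g)).val * B := by
    rw [hB, map_div₀, hθ g, AlgEquiv.commutes, mul_div_assoc]
  obtain ⟨i, hi⟩ : ∃ i : ℕ, i = (Multiplicative.toAdd (θ g)).val := ⟨_, rfl⟩
  rw [← hi] at hgB
  -- it is enough to see that `g B = B`
  suffices hfix : g B = B by
    rw [hgB] at hfix
    have h1 : algebraMap F M ζ ^ i = 1 := mul_right_cancel₀ hB0 (hfix.trans (one_mul B).symm)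
    have h2 : p ∣ i := hζM.dvd_of_pow_eq_one _ h1
    have h3 : i < p := by
      rw [hi]
      exact ZMod.val_lt _
    have h4 : i = 0 := Nat.eq_zero_of_dvd_of_lt h2 h3
    rw [h4] at hi
    have h5 : Multiplicative.toAdd (θ g) = 0 := (ZMod.val_eq_zero _).1 hi.symm
    exact toAdd_eq_zero.1 h5
  obtain ⟨e, he, hval⟩ := Pool.Agent.RG.H.exists_e_val (K := F) w
  rw [← hv] at hval
  by_cases hwp : Above w p
  · -- above `p`
    have h1ζ : (1 : F) - ζ ≠ 0 := by
      rw [sub_ne_zero]
      rintro h1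
      rw [← h1] at hζ
      exact hp.one_lt.ne' (hζ.unique IsPrimitiveRoot.one)
    have hle : v.valuation F (1 - ζ) ≤ 1 := by
      have h2 : v.valuation F (1 - ζ ^ 1) ≤ 1 := by
        refine (Valuation.map_sub _ _ _).trans ?_
        rw [map_one, map_pow, C23c_root hζ.pow_eq_one, one_pow, max_self]
      rw [pow_one] at h2
      exact h2
    have hne : v.valuation F (1 - ζ) ≠ 0 := (Valuation.ne_zero_iff _).2 h1ζ
    have hez : v.valuation F (1 - ζ) = WithZero.exp (-(ez ζ v : ℤ)) := by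
      have h2 : 0 ≤ -WithZero.log (v.valuation F (1 - ζ)) := by
        rw [Left.nonneg_neg_iff, ← WithZero.log_one, WithZero.log_le_log hne one_ne_zero]
        exact hle
      unfold ez
      rw [Int.toNat_of_nonneg h2, neg_neg, WithZero.exp_log hne]
    have hu2 : v.valuation F ((u : F) - 1) ≤ v.valuation F (1 - ζ) ^ p := by
      refine (Pool.Agent.RG.H.mem_UU.1 hu).2.trans ?_
      rw [hez, ← WithZero.exp_nsmul, WithZero.exp_le_exp, nsmul_eq_mul]
      push_cast
      linarith
    have hu3 : w.valuation M (algebraMap F M (u : F) / 1 ^ p - 1) ≤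
        w.valuation M (1 - algebraMap F M ζ) ^ p := by
      have e1 : algebraMap F M (u : F) / 1 ^ p - 1 = algebraMap F M ((u : F) - 1) := by
        rw [one_pow, div_one, map_sub, map_one]
      have e2 : (1 : M) - algebraMap F M ζ = algebraMap F M (1 - ζ) := by
        rw [map_sub, map_one]
      rw [e1, e2, hval, hval, ← pow_mul, mul_comm e p, pow_mul]
      exact pow_le_pow_left₀ zero_le hu2 e
    exact kummer_unramifiedK (K := F) hζM hwp hg (AlgEquiv.commutes g ζ) hBp hu0 one_ne_zero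
      (AlgEquiv.commutes g (u : F)) (map_one g) hu3
  · -- not above `p`
    have hvu : v.valuation F (u : F) = 1 := Pool.Agent.RG.H.vl_eq_zero.1
      (Pool.Agent.RG.H.mem_UU.1 hu).1
    have hwB : w.valuation M B = 1 := by
      have h1 : w.valuation M B ^ p = 1 := by
        rw [← map_pow, hBp, hval, hvu, one_pow]
      exact (pow_eq_one_iff_of_nonneg zero_le hp.ne_zero).1 h1
    by_cases hz1 : algebraMap F M ζ ^ i = 1
    · rw [hgB, hz1, one_mul]
    exfalso
    apply hwp
    have hzp : (algebraMap F M ζ ^ i) ^ p = 1 := by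
      rw [← pow_mul, mul_comm, pow_mul, hζM.pow_eq_one, one_pow]
    apply C23c_above hzp hz1
    have h1 := hg.2 B hwB.le
    have h2 : g • B - B = -((1 - algebraMap F M ζ ^ i) * B) := by
      change g B - B = _
      rw [hgB]
      ring
    rw [h2, Valuation.map_neg, map_mul, hwB, mul_one] at h1
    exact h1

end Pool.Agent.RGK
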