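import Mathlib
import Pool.Agent.Lib.RGK.CXDefs
import Pool.Agent.Lib.RGK.C16
import Pool.Agent.Lib.RGK.C17
import Pool.Agent.Lib.RGK.C18
import Pool.Agent.Lib.RGK.C21
import Pool.Agent.Lib.RGK.C22
import Pool.Agent.Lib.RGK.C23

/-!
RG v4, row C25: the existence theorem over a field `F` which contains the `p`-th roots of unity, if
`V_T = 0` (assembly).
-/

set_option autoImplicit false

namespace Pool.Agent.RGK

open NumberField IsDedekindDomain
open Pool.Agent.RG (Above IsDec IsInert IsFrob)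
open Pool.Agent.RG.H (Pr vl UU PP emb below)

theorem EX_F {p : ℕ} [Fact p.Prime] (hp2 : p ≠ 2) {F : Type} [Field F] [NumberField F] {ζ : F}
    (hζ : IsPrimitiveRoot ζ p) {T : Finset (Pr F)} (hT : ∀ v ∈ T, ¬ Above v p)
    (hV : VT p (T : Set (Pr F)) ≤ PP F p) {ξ : Pr F → ZMod p} (hξ : ξ ∈ RC p (T : Set (Pr F))) :
    Rl p (T : Set (Pr F)) ξ := by
  classical
  have hp : p.Prime := Fact.out
  obtain ⟨Y, hPY, hYX, h0, hc⟩ := exists_Y hp hp2 hζ hT
  have hN : (PP F p).relIndex Y = ((PP F p).subgroupOf Y).index := rfl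
  have hfi : ((PP F p).subgroupOf Y).FiniteIndex := ⟨by rw [← hN]; exact h0⟩
  have hfin : Finite (Y ⧸ (PP F p).subgroupOf Y) := Subgroup.finite_quotient_of_finiteIndex
  have : Fintype (Y ⧸ (PP F p).subgroupOf Y) := Fintype.ofFinite _
  set s : Finset Fˣ := Finset.univ.image
    (fun q : Y ⧸ (PP F p).subgroupOf Y => ((q.out : Y) : Fˣ)) with hs
  obtain ⟨M, iM1, iM2, iM3, iM4, hM⟩ := exists_kummer_field hp s
  have hY : ∀ b ∈ Y, ∃ β : M, β ^ p = algebraMap F M (b : Fˣ) := by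
    intro b hb
    have h1 : (QuotientGroup.mk (⟨b, hb⟩ : Y) : Y ⧸ (PP F p).subgroupOf Y).out⁻¹ * ⟨b, hb⟩ ∈
        (PP F p).subgroupOf Y := by
      rw [← QuotientGroup.eq]
      exact Quotient.out_eq' _
    rw [Subgroup.mem_subgroupOf] at h1
    obtain ⟨c, hc⟩ := RG.H.mem_PP.1 h1
    obtain ⟨β, hβ⟩ := hM ((QuotientGroup.mk (⟨b, hb⟩ : Y) : Y ⧸ (PP F p).subgroupOf Y).out : Y)
      (Finset.mem_image_of_mem _ (Finset.mem_univ _))
    refine ⟨β * algebraMap F M c, ?_⟩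
    rw [mul_pow, hβ, ← map_pow, ← map_mul]
    congr 1
    have h2 : ((c ^ p : Fˣ) : F) = (c : F) ^ p := Units.val_pow_eq_pow_val c p
    rw [← h2, hc, ← Units.val_mul]
    congr 1
    rw [Subgroup.coe_mul, Subgroup.coe_inv]
    exact mul_inv_cancel_left _ _
  obtain ⟨κ, hκ, hκ1⟩ := exists_kappa hζ Y hY
  obtain ⟨φ, hφ⟩ := exists_phi (K := F) M
  have hunr : ∀ b : Y, UnrCh (T : Set (Pr F)) (κ b) := by
    intro b
    obtain ⟨β, hβ⟩ := hY b b.2
    exact kappa_unr hp2 hζ (hYX b.2) hβ (κ b) (fun g => hκ b g β hβ)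
  set Ξ : Y → Pr F → ZMod p := fun b v =>
    if v ∈ (T : Set (Pr F)) then 0 else Multiplicative.toAdd (κ b (φ v)) with hΞ
  have hFV : ∀ b : Y, FV (T : Set (Pr F)) (κ b) (Ξ b) := fun b => by
    have h := hφ p T (κ b) (hunr b)
    have e : Ξ b = fun v => @ite (ZMod p) (v ∈ (T : Set (Pr F))) (Classical.propDecidable _) 0
        (Multiplicative.toAdd (κ b (φ v))) := by
      funext v
      by_cases hv : v ∈ (T : Set (Pr F))
      · rw [if_pos hv]
        exact if_pos hv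
      · rw [if_neg hv]
        exact if_neg hv
    rw [e]
    exact h
  have hmem : ∀ b : Y, Ξ b ∈ RC p (T : Set (Pr F)) := fun b =>
    REC hp2 (fun v hv => hT v (by exact_mod_cast hv)) (κ b) (hunr b) (hFV b)
  have hinj : ∀ b b' : Y, Ξ b = Ξ b' → ((b⁻¹ * b' : Y) : Fˣ) ∈ PP F p := by
    intro b b' h
    apply hκ1
    by_contra hne
    obtain ⟨w, hw, -, g, hg, hne'⟩ := cheb (κ (b⁻¹ * b')) hne
      (F := (T : Set (Pr F))) T.finite_toSet
    apply hne'
    rw [map_mul, map_inv, MonoidHom.mul_apply, MonoidHom.inv_apply, (hFV b).frob w hw g hg,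
      (hFV b').frob w hw g hg, h, inv_mul_cancel]
  obtain ⟨hRfin, hRc⟩ := card_RC_le hp2 hζ hT hV
  set f : Y ⧸ (PP F p).subgroupOf Y → RC p (T : Set (Pr F)) := fun q => ⟨Ξ q.out, hmem q.out⟩
    with hf
  have hfinj : Function.Injective f := by
    intro q q' h
    have h1 : Ξ q.out = Ξ q'.out := congrArg Subtype.val h
    have h2 := hinj _ _ h1
    have h3 : (q.out : Y)⁻¹ * q'.out ∈ (PP F p).subgroupOf Y := by
      rw [Subgroup.mem_subgroupOf]
      exact h2
    rw [← QuotientGroup.eq] at h3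
    rw [← Quotient.out_eq' q, ← Quotient.out_eq' q']
    exact h3
  have hcard : Nat.card (RC p (T : Set (Pr F))) ≤ Nat.card (Y ⧸ (PP F p).subgroupOf Y) := by
    have h1 := hRc.trans hc
    have h2 := Nat.le_of_mul_le_mul_left h1 (pow_pos hp.pos _)
    exact h2
  have hbij : Function.Bijective f := by
    have hle := Nat.card_le_card_of_injective f hfinj
    exact (Nat.bijective_iff_injective_and_card f).2 ⟨hfinj, le_antisymm hle hcard⟩
  obtain ⟨q, hq⟩ := hbij.2 ⟨ξ, hξ⟩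
  have h1 : Ξ q.out = ξ := congrArg Subtype.val hq
  have h2 := hFV q.out
  rw [h1] at h2
  exact Rl_of_FV (κ q.out) (hunr _) h2

end Pool.Agent.RGK
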