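import Mathlib
import Pool.Agent.Lib.RG.E25
import Pool.Agent.Lib.RG.K03
import Pool.Agent.Lib.RGK.CXDefs
import Pool.Agent.Lib.RGK.B1
import Pool.Agent.Lib.RGK.B2
import Pool.Agent.Lib.RGK.B4
import Pool.Agent.Lib.RGK.C15
import Pool.Agent.Lib.RGK.C16
import Pool.Agent.Lib.RGK.C17
import Pool.Agent.Lib.RGK.C18

/-!
RG v4, rows C26a, C26b, C26c, C26d: descent of the existence theorem from `F = K(ζ)` to `K`.

`exists_zeta_field` (row C26a): a splitting field of `X ^ p - 1` over `K`; `Gal(F / K)` embeds into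
`(ZMod p)ˣ`, so the degree divides `p - 1`.

`RC_up` (row C26b): for `x : Fˣ` with `x ∈ UU w 1` for all `w` with `below w ∈ T`: `N x ∈ UU v 1` for
`v ∈ T` (`norm_UU`, C15) and `∑ᶠ w, vl w x * (fd K w * ξ (below w)) = ∑ᶠ v, vl v (N x) * ξ v = 0`
(`norm_sum`, C15).

`extend_char` (row C26c, group theory). `P` normal in `Γ` of index `n` prime to `p`, `χ : P → ZMod p`
invariant under conjugation by `Γ`. Schur-Zassenhaus is not needed: let `θ` be a suitable multiple of
the transfer (`MonoidHom.transfer`; on `P` it is `χ ^ n` because `χ` is invariant, `transfer_eq_prod...`),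
or follow `E25_extend` in E25 (there `P` is a `p`-group; here `P` is arbitrary finite, so use the
transfer, or apply `E25_extend` to `Γ / ker χ`: `ker χ` is normal in `Γ` by invariance, `P / ker χ` has
order `1` or `p`, complement by `Subgroup.exists_right_complement'_of_coprime`).

`desc_char` (row C26d). Let `L'`, `θ'` realise `ξ' w = fd K w * ξ (below w)` over `F`. `N` := a Galois
extension of `K` containing `L'` (an embedding `L' → AlgebraicClosure K` over `K`, normal closure;
`exists_galois_closure`, K03, is for `ℚ`), `Γ = Gal(N / K)`, `P = Gal(N / F)` (as the subgroup of `Γ`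
fixing the image of `F`), `χ = θ' ∘ restriction : P → ZMod p`. `χ` is unramified outside
`T' = {w | below w ∈ T}` and has Frobenius values `ξ'`. `χ` is `Γ`-invariant: for `γ ∈ Γ` the character
`g ↦ χ (γ g γ⁻¹) / χ g` of `Gal(N / F)` kills all Frobenius elements at primes `W` not above `T`: if `φ` is a
Frobenius element at `W` over `F` then `γ φ γ⁻¹` is one at `γ W`, and the primes of `F` below `W` and
`γ W` are conjugate over `K`, they have the same `below` and the same `fd K`. So this character is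
trivial by `cheb` (C16). `θ` from C26c. `UnrCh T θ`: `g` inert at `W` over `K`, `below W ∉ T`: `g ^ n ∈ P`
is inert, `n * θ g = χ (g ^ n) = 0`. Frobenius values: `φ` a Frobenius element over `K` at `W`,
`v = below W ∉ T`, `f = fd K (below_F W)`, `φ'` one over `F`: `φ ^ f = φ' * (inert)` (`frob_up`, C17a), so
`f * θ φ = θ φ' = χ φ' = ξ' (below_F W) = f * ξ v`, and `f` is prime to `p` (`fd` divides
`[F : K]`: or: `f * d = n`-type identity; `inertiaDeg` divides the degree, Mathlib, Galois case). Then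
`Rl_of_FV` (C18).
-/

set_option autoImplicit false

namespace Pool.Agent.RGK

open NumberField IsDedekindDomain
open Pool.Agent.RG (Above IsDec IsInert IsFrob)
open Pool.Agent.RG.H (Pr vl UU PP emb nrm below)

theorem exists_zeta_field {p : ℕ} (hp : p.Prime) (K : Type) [Field K] [NumberField K] :
    ∃ (F : Type) (_ : Field F) (_ : NumberField F) (_ : Algebra K F) (_ : IsGalois K F) (ζ : F),
      IsPrimitiveRoot ζ p ∧ (Module.finrank K F).Coprime p := by
  have : NeZero p := ⟨hp.ne_zero⟩
  have : NeZero ((p : ℕ) : K) := ⟨by exact_mod_cast hp.ne_zero⟩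
  have hF : NumberField (CyclotomicField p K) :=
    IsCyclotomicExtension.numberField {p} K (CyclotomicField p K)
  have hG : IsGalois K (CyclotomicField p K) :=
    IsCyclotomicExtension.isGalois {p} K (CyclotomicField p K)
  have hζ := IsCyclotomicExtension.zeta_spec p K (CyclotomicField p K)
  refine ⟨CyclotomicField p K, inferInstance, hF, inferInstance, hG, _, hζ, ?_⟩
  have h1 := Subgroup.card_dvd_of_injective (hζ.autToPow K) (hζ.autToPow_injective K)
  have : Fact p.Prime := ⟨hp⟩
  rw [IsGalois.card_aut_eq_finrank, Nat.card_eq_fintype_card, ZMod.card_units] at h1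
  refine Nat.Coprime.coprime_dvd_left h1 ?_
  have h2 := hp.one_lt
  refine ((Nat.Prime.coprime_iff_not_dvd hp).2 fun h3 => ?_).symm
  have := Nat.le_of_dvd (by omega) h3
  omega

theorem RC_up {p : ℕ} [Fact p.Prime] {K F : Type} [Field K] [NumberField K] [Field F]
    [NumberField F] [Algebra K F] [IsGalois K F] {T : Set (Pr K)} {ξ : Pr K → ZMod p}
    (hξ : ξ ∈ RC p T) :
    (fun w : Pr F => (fd K w : ZMod p) * ξ (below w)) ∈ RC p {w : Pr F | (below w : Pr K) ∈ T} := by
  refine ⟨fun w hw => ?_, fun x hx => ?_⟩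
  · change (fd K w : ZMod p) * ξ (below w) = 0
    rw [hξ.1 _ hw, mul_zero]
  · rw [norm_sum x ξ]
    refine hξ.2 (nrm K F x) fun v hv => norm_UU v x fun w hw => hx w ?_
    rw [Set.mem_ofPred_eq, hw]
    exact hv

private theorem C26c_pow {p : ℕ} [Fact p.Prime] {Γ : Type} [Group Γ] [Finite Γ] (P : Subgroup Γ)
    [P.Normal] (χ : P →* Multiplicative (ZMod p))
    (hχ : ∀ (γ : Γ) (x : P) (h : γ * x * γ⁻¹ ∈ P), χ ⟨γ * x * γ⁻¹, h⟩ = χ x) (x : P) :
    MonoidHom.transfer χ (x : Γ) = χ x ^ P.index := by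
  let _ : Fintype (Γ ⧸ P) := P.fintypeQuotientOfFiniteIndex
  change Subgroup.leftTransversals.diff χ default ((x : Γ) • default) = _
  unfold Subgroup.leftTransversals.diff
  simp only
  have h1 : ∀ q : Γ ⧸ P, (x : Γ)⁻¹ • q = q := by
    intro q
    induction q using QuotientGroup.induction_on with
    | H g =>
      rw [MulAction.Quotient.smul_mk, QuotientGroup.eq]
      have h2 := ‹P.Normal›.conj_mem x x.2 g⁻¹
      rw [inv_inv] at h2
      simpa [mul_assoc] using h2
  have h2 : P.index = Fintype.card (Γ ⧸ P) := by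
    rw [Subgroup.index, Nat.card_eq_fintype_card]
  rw [h2]
  rw [Finset.prod_congr rfl (g := fun _ => χ x), Finset.prod_const, Finset.card_univ]
  intro q _
  set α := (default : P.LeftTransversal).2.leftQuotientEquiv
  have h3 : (((x : Γ) • (default : P.LeftTransversal)).2.leftQuotientEquiv q : Γ) =
      x * (α q : Γ) := by
    rw [Subgroup.smul_apply_eq_smul_apply_inv_smul, h1]
    rfl
  have h4 := hχ ((α q : Γ)⁻¹) x (by
    have := ‹P.Normal›.conj_mem x x.2 ((α q : Γ)⁻¹)
    exact this)
  rw [← h4]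
  refine congrArg χ (Subtype.ext ?_)
  change (α q : Γ)⁻¹ * (((x : Γ) • (default : P.LeftTransversal)).2.leftQuotientEquiv q : Γ) =
    (α q : Γ)⁻¹ * x * (α q : Γ)⁻¹⁻¹
  rw [h3, inv_inv, mul_assoc]

theorem extend_char {p : ℕ} [Fact p.Prime] {Γ : Type} [Group Γ] [Finite Γ] (P : Subgroup Γ)
    [P.Normal] (hidx : P.index.Coprime p) (χ : P →* Multiplicative (ZMod p))
    (hχ : ∀ (γ : Γ) (x : P) (h : γ * x * γ⁻¹ ∈ P), χ ⟨γ * x * γ⁻¹, h⟩ = χ x) :
    ∃ θ : Γ →* Multiplicative (ZMod p), ∀ x : P, θ x = χ x := by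
  have hp : p.Prime := Fact.out
  obtain ⟨t, -, ht⟩ := Nat.exists_mul_mod_eq_one_of_coprime hidx hp.one_lt
  refine ⟨(powMonoidHom t).comp (MonoidHom.transfer χ), fun x => ?_⟩
  rw [MonoidHom.comp_apply, powMonoidHom_apply, C26c_pow P χ hχ x, ← pow_mul]
  have h1 : (χ x) ^ p = 1 := by
    rw [← ofAdd_toAdd (χ x), ← ofAdd_nsmul]
    simp
  rw [pow_eq_pow_mod _ h1, ht, pow_one]

private theorem C26d_bb {K F N : Type} [Field K] [NumberField K] [Field F] [NumberField F]
    [Field N] [NumberField N] [Algebra K F] [Algebra F N] [Algebra K N] [IsScalarTower K F N]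
    (w : Pr N) : (below (below w : Pr F) : Pr K) = below w := by
  apply HeightOneSpectrum.ext
  exact Ideal.under_under w.asIdeal

private theorem C26d_fd_eq {K F : Type} [Field K] [NumberField K] [Field F] [NumberField F]
    [Algebra K F] [IsGalois K F] {u u' : Pr F} (h : (below u : Pr K) = below u') :
    fd K u = fd K u' := by
  have : IsGaloisGroup (F ≃ₐ[K] F) (𝓞 K) (𝓞 F) := IsGaloisGroup.of_isFractionRing _ _ _ K F
  have h1 : u.asIdeal.LiesOver (below u : Pr K).asIdeal := ⟨rfl⟩
  have h2 : u'.asIdeal.LiesOver (below u : Pr K).asIdeal := by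
    rw [h]
    exact ⟨rfl⟩
  exact Ideal.inertiaDeg_eq_of_isGaloisGroup (below u : Pr K).asIdeal u.asIdeal u'.asIdeal
    (F ≃ₐ[K] F)

private theorem C26d_fd_dvd {K F : Type} [Field K] [NumberField K] [Field F] [NumberField F]
    [Algebra K F] [IsGalois K F] (u : Pr F) : fd K u ∣ Module.finrank K F := by
  have : IsGaloisGroup (F ≃ₐ[K] F) (𝓞 K) (𝓞 F) := IsGaloisGroup.of_isFractionRing _ _ _ K F
  have h1 : u.asIdeal.LiesOver (below u : Pr K).asIdeal := ⟨rfl⟩
  have h2 := Ideal.ncard_primesOver_mul_ramificationIdxIn_mul_inertiaDegIn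
    (below u : Pr K).asIdeal (𝓞 F) (F ≃ₐ[K] F)
  rw [Ideal.inertiaDegIn_eq_inertiaDeg (below u : Pr K).asIdeal u.asIdeal (F ≃ₐ[K] F),
    IsGalois.card_aut_eq_finrank] at h2
  rw [← h2]
  exact (dvd_mul_left _ _).mul_left _

private theorem C26d_pow_p {p : ℕ} (x : Multiplicative (ZMod p)) : x ^ p = 1 := by
  rw [← ofAdd_toAdd x, ← ofAdd_nsmul]
  simp

private theorem C26d_eq_one {p n : ℕ} [Fact p.Prime] (hn : n.Coprime p)
    {x : Multiplicative (ZMod p)} (h : x ^ n = 1) : x = 1 := by
  obtain ⟨t, -, ht⟩ := Nat.exists_mul_mod_eq_one_of_coprime hn (Fact.out : p.Prime).one_lt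
  have h1 : x ^ (n * t) = 1 := by rw [pow_mul, h, one_pow]
  rwa [pow_eq_pow_mod _ (C26d_pow_p x), ht, pow_one] at h1

private theorem C26d_tower {p : ℕ} [Fact p.Prime] {K F N : Type} [Field K] [NumberField K]
    [Field F] [NumberField F] [Field N] [NumberField N] [Algebra K F] [Algebra F N] [Algebra K N]
    [IsScalarTower K F N] [IsGalois K F] [IsGalois K N]
    (hF : (Module.finrank K F).Coprime p) {T : Set (Pr K)} (hTf : T.Finite)
    {ξ : Pr K → ZMod p} (hξ : ∀ v ∈ T, ξ v = 0) (χ₀ : (N ≃ₐ[F] N) →* Multiplicative (ZMod p))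
    (hu : UnrCh {w : Pr F | (below w : Pr K) ∈ T} χ₀)
    (hf : FV {w : Pr F | (below w : Pr K) ∈ T} χ₀ fun w => (fd K w : ZMod p) * ξ (below w)) :
    Rl p T ξ := by
  have : IsGalois F N := IsGalois.tower_top_of_isGalois K F N
  have hFK : FiniteDimensional K F := Module.Finite.of_restrictScalars_finite ℚ K F
  have hNK : FiniteDimensional K N := Module.Finite.of_restrictScalars_finite ℚ K N
  have hfin : Finite (N ≃ₐ[K] N) := inferInstance
  -- the subgroup
  set res : (N ≃ₐ[K] N) →* (F ≃ₐ[K] F) := AlgEquiv.restrictNormalHom F with hres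
  have hress : Function.Surjective res := AlgEquiv.restrictNormalHom_surjective N
  have hresc : ∀ (g : N ≃ₐ[K] N) (x : F), algebraMap F N (res g x) = g (algebraMap F N x) :=
    fun g x => AlgEquiv.restrictNormal_commutes g F x
  set P : Subgroup (N ≃ₐ[K] N) := res.ker with hP
  have hPn : P.Normal := res.normal_ker
  have hidx : P.index = Module.finrank K F := by
    rw [hP, Subgroup.index_ker, MonoidHom.range_eq_top.2 hress, Subgroup.card_top,
      IsGalois.card_aut_eq_finrank]
  have hidx' : P.index.Coprime p := by rw [hidx]; exact hF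
  have hPc : ∀ (g : P) (x : F), (g : N ≃ₐ[K] N) (algebraMap F N x) = algebraMap F N x := by
    intro g x
    have h1 : res (g : N ≃ₐ[K] N) = 1 := g.2
    rw [← hresc, h1]
    rfl
  let down : P →* (N ≃ₐ[F] N) :=
    { toFun := fun g => AlgEquiv.ofRingEquiv (f := (g : N ≃ₐ[K] N).toRingEquiv) (hPc g)
      map_one' := by ext; rfl
      map_mul' := fun g h => by ext; rfl }
  have hdown : ∀ (g : P) (x : N), down g x = (g : N ≃ₐ[K] N) x := fun g x => rfl
  have hupmem : ∀ g : N ≃ₐ[F] N, g.restrictScalars K ∈ P := by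
    intro g
    rw [hP, MonoidHom.mem_ker]
    ext x
    apply (algebraMap F N).injective
    rw [hresc]
    exact g.commutes x
  let up : (N ≃ₐ[F] N) →* P :=
    { toFun := fun g => ⟨g.restrictScalars K, hupmem g⟩
      map_one' := by ext; rfl
      map_mul' := fun g h => by ext; rfl }
  have hdu : ∀ g, down (up g) = g := fun g => by ext; rfl
  have hud : ∀ g, up (down g) = g := fun g => by ext; rfl
  set χ : P →* Multiplicative (ZMod p) := χ₀.comp down with hχd
  -- the finite set
  have hT'f : {w : Pr F | (below w : Pr K) ∈ T}.Finite := by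
    obtain ⟨S, hS⟩ := RG.H.fin_up (L := F) hTf.toFinset
    refine S.finite_toSet.subset fun w hw => ?_
    rw [Finset.mem_coe, hS, Set.Finite.mem_toFinset]
    exact hw
  -- invariance
  have hinv : ∀ (γ : N ≃ₐ[K] N) (g : P), χ (MulAut.conjNormal γ g) = χ g := by
    intro γ
    let cj : P →* P := (MulAut.conjNormal γ : P ≃* P).toMonoidHom
    let ψ : (N ≃ₐ[F] N) →* Multiplicative (ZMod p) := (χ.comp (cj.comp up)) / χ₀
    have hψ : ∀ g, ψ g = χ (MulAut.conjNormal γ (up g)) / χ₀ g := fun g => rfl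
    have h1 : ψ = 1 := by
      by_contra hne
      obtain ⟨w, hw, -, g, hg, hψg⟩ := cheb ψ hne hT'f
      apply hψg
      rw [hψ, div_eq_one]
      obtain ⟨w', hw'1, hw'2⟩ := exists_translateK w γ
      have e1 : (below (below w : Pr F) : Pr K) = below (below w' : Pr F) := by
        rw [C26d_bb, C26d_bb, hw'1]
      have e2 : fd K (below w : Pr F) = fd K (below w' : Pr F) := C26d_fd_eq e1
      have e3 : nm (below w : Pr F) = nm (below w' : Pr F) := by
        rw [(nm_tower K (below w : Pr F)).2, (nm_tower K (below w' : Pr F)).2, e1, e2]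
      have hg1 : IsFrob w (nm (below w : Pr F)) (g.restrictScalars K) := hg
      have hg2 : IsFrob w' (nm (below w : Pr F)) (γ * g.restrictScalars K * γ⁻¹) :=
        IsFrob.conj_toK hw'2 hg1
      rw [e3] at hg2
      have hg3 : IsFrob w' (nm (below w' : Pr F)) (down (MulAut.conjNormal γ (up g))) := hg2
      have hw3 : (below w' : Pr F) ∉ {w : Pr F | (below w : Pr K) ∈ T} := by
        rw [Set.mem_ofPred_eq, ← e1]
        exact hw
      have h2 := hf.frob w' hw3 _ hg3
      have h3 := hf.frob w hw _ hg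
      rw [hχd, MonoidHom.comp_apply, h2, h3, e1, e2]
    intro g
    have h2 : ψ (down g) = 1 := by rw [h1]; rfl
    rw [hψ, hud, div_eq_one] at h2
    exact h2
  obtain ⟨θ, hθ⟩ := extend_char P hidx' χ (fun γ x h => hinv γ x)
  -- unramified
  have hunr : UnrCh T θ := by
    intro w hw g hg
    refine C26d_eq_one hidx' ?_
    have h1 : g ^ P.index ∈ P := Subgroup.pow_index_mem P g
    rw [← map_pow]
    have h2 := hθ ⟨_, h1⟩
    change θ (g ^ P.index) = _ at h2
    rw [h2]
    have h3 : ∀ n : ℕ, IsInert w (g ^ n) := by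
      intro n
      induction n with
      | zero => rw [pow_zero]; exact RG.IsInert.one w
      | succ n ih => rw [pow_succ]; exact ih.mul hg
    have h4 : IsInert w (down ⟨g ^ P.index, h1⟩) := h3 P.index
    exact hu w (by
      rw [Set.mem_ofPred_eq, C26d_bb]
      exact hw) _ h4
  refine Rl_of_FV θ hunr ⟨hξ, fun w hw φ hφ => ?_⟩
  obtain ⟨φ', hφ'⟩ := exists_frobK (K := F) w
  have h1 := hunr w hw _ (frob_up hφ' hφ)
  rw [map_mul, map_inv, inv_mul_eq_one, map_pow] at h1
  have h2 := hθ (up φ')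
  change θ (φ'.restrictScalars K) = χ₀ (down (up φ')) at h2
  rw [hdu] at h2
  have hw' : (below w : Pr F) ∉ {w : Pr F | (below w : Pr K) ∈ T} := by
    rw [Set.mem_ofPred_eq, C26d_bb]
    exact hw
  have h3 := hf.frob w hw' φ' hφ'
  rw [h2, h3, C26d_bb] at h1
  have h4 : (fd K (below w : Pr F)).Coprime p :=
    Nat.Coprime.coprime_dvd_left (C26d_fd_dvd _) hF
  have h5 : IsUnit ((fd K (below w : Pr F) : ℕ) : ZMod p) := (ZMod.isUnit_iff_coprime _ _).2 h4
  have h6 := congrArg Multiplicative.toAdd h1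
  rw [toAdd_ofAdd, toAdd_pow, nsmul_eq_mul] at h6
  have h7 := h5.mul_left_cancel h6
  rw [h7, ofAdd_toAdd]

theorem desc_char {p : ℕ} [Fact p.Prime] {K F : Type} [Field K] [NumberField K] [Field F]
    [NumberField F] [Algebra K F] [IsGalois K F] (hF : (Module.finrank K F).Coprime p)
    {T : Set (Pr K)} (hTf : T.Finite) {ξ : Pr K → ZMod p} (hξ : ∀ v ∈ T, ξ v = 0)
    (h : Rl p {w : Pr F | (below w : Pr K) ∈ T} fun w => (fd K w : ZMod p) * ξ (below w)) :
    Rl p T ξ := by
  obtain ⟨L, _, _, _, _, θ, -, hu, hf⟩ := h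
  let _ : Algebra K L := ((algebraMap F L).comp (algebraMap K F)).toAlgebra
  have t1 : IsScalarTower K F L := IsScalarTower.of_algebraMap_eq (fun _ => rfl)
  have hKL : FiniteDimensional K L := Module.Finite.of_restrictScalars_finite ℚ K L
  let Ω := AlgebraicClosure L
  have t2 : IsScalarTower K L Ω := inferInstance
  have hKΩ : Algebra.IsAlgebraic K Ω := Algebra.IsAlgebraic.trans K L Ω
  have hcl : IsAlgClosure K Ω := ⟨inferInstance, hKΩ⟩
  have hnor : Normal K Ω := IsAlgClosure.normal K Ω
  let N := IntermediateField.normalClosure K L Ω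
  have hKN : FiniteDimensional K N := inferInstance
  have hN : NumberField N := NumberField.of_module_finite K N
  have hnN : Normal K N := inferInstance
  have hgN : IsGalois K N := ⟨⟩
  let _ : Algebra F N := ((algebraMap L N).comp (algebraMap F L)).toAlgebra
  have t3 : IsScalarTower F L N := IsScalarTower.of_algebraMap_eq (fun _ => rfl)
  have t4 : IsScalarTower K L N := inferInstance
  have t5 : IsScalarTower K F N := IsScalarTower.of_algebraMap_eq (fun x => by
    rw [IsScalarTower.algebraMap_apply K L N, IsScalarTower.algebraMap_apply K F L]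
    rfl)
  let j : L →ₐ[F] N := IsScalarTower.toAlgHom F L N
  have hj : ∀ w : Pr N, LiesA j w (below w : Pr L) := fun w => (lies_iff_below w _).2 rfl
  let r : (N ≃ₐ[F] N) →* (L ≃ₐ[F] L) := AlgEquiv.restrictNormalHom L
  have hr : ∀ (g : N ≃ₐ[F] N) (x : L), g (j x) = j (r g x) := fun g x =>
    (AlgEquiv.restrictNormal_commutes g L x).symm
  refine C26d_tower (N := N) hF hTf hξ (θ.comp r) ?_ ⟨hf.zero, ?_⟩
  · intro w hw g hg
    refine hu (below w) ?_ (r g) (IsInert.restrictK (hj w) (hr g) hg)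
    rw [C26d_bb]
    exact hw
  · intro w hw g hg
    have h1 : IsFrob (below w : Pr L) (nm (below w : Pr F)) (r g) :=
      IsFrob.restrictK (hj w) (hr g) hg
    have e : (below (below w : Pr L) : Pr F) = below w := C26d_bb w
    rw [← e] at h1 hw ⊢
    exact hf.frob (below w) hw (r g) h1

end Pool.Agent.RGK
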