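import Mathlib
import Pool.Agent.Lib.RG.H01
import Pool.Agent.Lib.RG.H14
import Pool.Agent.Lib.RG.H18
import Pool.Agent.Lib.RG.H21
import Pool.Agent.Lib.RG.H24
import Pool.Agent.Lib.RGK.CXDefs
import Pool.Agent.Lib.RGK.B4
import Pool.Agent.Lib.RGK.C16
import Pool.Agent.Lib.RGK.C18
import Pool.Agent.Lib.RGK.C25
import Pool.Agent.Lib.RGK.C26
import Pool.Agent.Lib.RGK.B1

/-!
RG v4, rows C27a, C27b, C27c: the existence theorem without condition on `V_T`.

`VS_le` (row C27a): over any number field `F`, `ζ ∈ F`, the group `VS p ∅` of the elements with all valuations divisible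
by `p` is finite modulo `PP F p`: let `S` be a finite set outside of which all primes are principal up
to `S` (`H.exists_good`, `prK`). For `x ∈ VS p ∅` let `z = ∏_{v ∉ S} ϖ_v ^ (vl v x / p)` (finite product,
`H.vl_prod_unif`, H24); `x / z ^ p ∈ SU S`. So `VS p ∅ ≤ PP F p ⊔ SU S` and the index of `PP F p` in it is
finite (`H.index_PP`).

`exists_aux` (row C27b): `K ⊂ F`, `G` a finite set of primes of `K`. Choose a finite set of
representatives `b ∉ PP F p` of the nontrivial classes of `VS p ∅` (over `F`) modulo `PP F p`; for each `b`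
`H.exists_nonpower` (H21) gives a prime `w` of `F`, not above `G` and not above `p` (finitely many primes
are excluded: `H.fin_up`, `H.fin_above`), with `b ∉ PP F p ⊔ UU w 1`. `B` is the set of the `below w`. An
element `x ∈ VT p {w | below w ∈ B}` outside `PP F p` would be `b * (p-th power)` for one of the `b`.

`EX` (row C27c, assembly). `T` finite. `F`, `ζ` from C26a. `B₁` from C27b for `G = T`, `B₂` for
`G = T ∪ B₁`. For `i = 1, 2`: `ξ_i := ξ` outside `B_i`, `0` on `B_i`, is in `RC p (T ∪ B_i)` (for `x` with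
`x ∈ UU v 1` for `v ∈ T ∪ B_i` the terms of `B_i` vanish). `RC_up`, `EX_F` (C25; `V = 0` because `VT` is
antitone in the set; the set of primes of `F` above `T ∪ B_i` is finite, `H.fin_up`) and `desc_char`
(C26d): characters `θ_i` of `Gal(L_i / K)`, unramified outside `T ∪ B_i`, with Frobenius values `ξ_i`.
Let `R` be the compositum of `L₁` and `L₂` (`exists_compositumK`), `θ_i' = θ_i ∘ r_i`. `θ₁' / θ₂'` kills the
Frobenius elements outside `T ∪ B₁ ∪ B₂` (restrictions of Frobenius elements), so `θ₁' = θ₂' =: θ` by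
`cheb` (C16). `θ` is unramified outside `T`: a prime outside `T` is not in `B₁` or not in `B₂`
(disjoint), and `θ_i'` is unramified there. In the same way `FV T θ ξ`. Then `Rl_of_FV` (C18).
-/

set_option autoImplicit false

namespace Pool.Agent.RGK

open NumberField IsDedekindDomain
open Pool.Agent.RG (Above IsDec IsInert IsFrob)
open Pool.Agent.RG.H (Pr vl UU PP emb nrm below)

theorem VS_index {p : ℕ} (hp : p.Prime) (hp2 : p ≠ 2) {F : Type} [Field F] [NumberField F] {ζ : F}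
    (hζ : IsPrimitiveRoot ζ p) : (PP F p).relIndex (VS p (∅ : Set (Pr F))) ≠ 0 := by
  classical
  obtain ⟨S, -, hS⟩ := RG.H.exists_good (K := F) (L := F) hp ∅
  have hle : VS p (∅ : Set (Pr F)) ≤ PP F p ⊔ RG.H.SU S := by
    intro x hx
    have hx' : ∀ v, (p : ℤ) ∣ vl v x := fun v => hx v (Set.notMem_empty v)
    obtain ⟨T, hT⟩ := RG.H.fin_vl x
    have hch : ∀ v : Pr F, ∃ ϖ : Fˣ, v ∉ S →
        vl v ϖ = 1 ∧ ∀ v', v' ∉ S → v' ≠ v → vl v' ϖ = 0 := by
      intro v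
      by_cases hv : v ∈ S
      · exact ⟨1, fun h => absurd hv h⟩
      · obtain ⟨ϖ, hϖ⟩ := hS.prK v hv
        exact ⟨ϖ, fun _ => hϖ⟩
    choose ϖ hϖ using hch
    let z : Fˣ := ∏ v ∈ T \ S, ϖ v ^ (vl v x / p)
    have hz : ∀ v', v' ∉ S → (p : ℤ) * vl v' z = vl v' x := by
      intro v' hv'
      have h1 : vl v' z = ∑ v ∈ T \ S, (vl v x / p) * vl v' (ϖ v) := by
        simp only [z]
        rw [RG.H.vl_prod]
        exact Finset.sum_congr rfl fun v _ => RG.H.vl_zpow _ _ _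
      have h2 : ∀ v ∈ T \ S, v ≠ v' → (vl v x / p) * vl v' (ϖ v) = 0 := by
        intro v hv hne
        rw [(hϖ v (Finset.mem_sdiff.1 hv).2).2 v' hv' hne.symm, mul_zero]
      by_cases hvT : v' ∈ T
      · rw [h1, Finset.sum_eq_single_of_mem v' (Finset.mem_sdiff.2 ⟨hvT, hv'⟩) h2,
          (hϖ v' hv').1, mul_one]
        exact Int.mul_ediv_cancel' (hx' v')
      · rw [h1, Finset.sum_eq_zero, mul_zero, RG.H.mem_SU.1 hT v' hvT]
        intro v hv
        refine h2 v hv ?_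
        rintro rfl
        exact hvT (Finset.mem_sdiff.1 hv).1
    have hu : x / z ^ p ∈ RG.H.SU S := by
      rw [RG.H.mem_SU]
      intro v hv
      rw [RG.H.vl_div, RG.H.vl_pow, hz v hv, sub_self]
    have hxe : x = z ^ p * (x / z ^ p) := by
      rw [mul_div_cancel]
    rw [hxe]
    exact Subgroup.mul_mem_sup (RG.H.mem_PP.2 ⟨z, rfl⟩) hu
  intro h0
  have h1 := Subgroup.relIndex_eq_zero_of_le_right hle h0
  rw [Subgroup.relIndex_sup_left, RG.H.index_PP hp hp2 hζ S] at h1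
  exact pow_ne_zero _ hp.ne_zero h1

private theorem C27b_reps {G : Type} [CommGroup G] (A V : Subgroup G) (h : A.relIndex V ≠ 0) :
    ∃ R : Finset G, (∀ b ∈ R, b ∉ A) ∧ ∀ x ∈ V, x ∉ A → ∃ b ∈ R, b⁻¹ * x ∈ A := by
  classical
  have hfin : Finite (V ⧸ A.subgroupOf V) := by
    have h1 : (A.subgroupOf V).index ≠ 0 := h
    have h2 : (A.subgroupOf V).FiniteIndex := ⟨h1⟩
    infer_instance
  have hf : Fintype (V ⧸ A.subgroupOf V) := Fintype.ofFinite _
  refine ⟨(Finset.univ.image fun q : V ⧸ A.subgroupOf V => ((Quotient.out q : V) : G)).filter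
    (fun b => b ∉ A), fun b hb => (Finset.mem_filter.1 hb).2, fun x hx hxA => ?_⟩
  obtain ⟨b, hb⟩ : ∃ b : V, b = Quotient.out (QuotientGroup.mk (s := A.subgroupOf V) ⟨x, hx⟩) :=
    ⟨_, rfl⟩
  have h1 : QuotientGroup.mk (s := A.subgroupOf V) b = QuotientGroup.mk ⟨x, hx⟩ := by
    rw [hb]
    exact Quotient.out_eq _
  have h2 : (b : G)⁻¹ * x ∈ A := by
    have h3 := QuotientGroup.eq.1 h1
    rw [Subgroup.mem_subgroupOf] at h3
    exact h3
  refine ⟨(b : G), Finset.mem_filter.2 ⟨Finset.mem_image.2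
    ⟨QuotientGroup.mk ⟨x, hx⟩, Finset.mem_univ _, ?_⟩, fun h3 => ?_⟩, h2⟩
  · rw [hb]
  · apply hxA
    have h4 := A.mul_mem h3 h2
    rwa [mul_inv_cancel_left] at h4

theorem exists_aux {p : ℕ} (hp : p.Prime) (hp2 : p ≠ 2) {K F : Type} [Field K] [NumberField K]
    [Field F] [NumberField F] [Algebra K F] {ζ : F} (hζ : IsPrimitiveRoot ζ p) {G : Set (Pr K)}
    (hG : G.Finite) :
    ∃ B : Set (Pr K), B.Finite ∧ Disjoint B G ∧ (∀ v ∈ B, ¬ Above v p) ∧
      VT p {w : Pr F | (below w : Pr K) ∈ B} ≤ PP F p := by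
  classical
  obtain ⟨R, hR1, hR2⟩ := C27b_reps (PP F p) (VS p (∅ : Set (Pr F))) (VS_index hp hp2 hζ)
  obtain ⟨S1, hS1⟩ := RG.H.fin_up (L := F) hG.toFinset
  obtain ⟨S2, hS2⟩ := RG.H.fin_above (K := F) p hp.ne_zero
  choose W hW1 hW2 hW3 hW4 using fun b : R =>
    RG.H.exists_nonpower hp hp2 hζ (hR1 b b.2) (S1 ∪ S2)
  refine ⟨Set.range (fun b : R => (below (W b) : Pr K)), Set.finite_range _, ?_, ?_, ?_⟩
  · rw [Set.disjoint_left]
    rintro _ ⟨b, rfl⟩ hbG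
    apply hW1 b
    refine Finset.mem_union_left _ ((hS1 _).2 ?_)
    rw [Set.Finite.mem_toFinset]
    exact hbG
  · rintro _ ⟨b, rfl⟩ hbp
    apply hW1 b
    exact Finset.mem_union_right _ (hS2 _ ((RG.H.above_iff _ _).2 hbp))
  · intro x hx
    by_contra hxP
    have hx1 : x ∈ VS p (∅ : Set (Pr F)) := hx.1
    have hx2 : ∀ w ∈ {w : Pr F | (below w : Pr K) ∈ Set.range fun b : R => (below (W b) : Pr K)},
        x ∈ PU p w := by
      intro w hw
      have h3 : x ∈ ⨅ v ∈ {w : Pr F | (below w : Pr K) ∈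
        Set.range fun b : R => (below (W b) : Pr K)}, PU p v := hx.2
      exact Subgroup.mem_iInf.1 (Subgroup.mem_iInf.1 h3 w) hw
    obtain ⟨b, hb, hbx⟩ := hR2 x hx1 hxP
    apply hW4 ⟨b, hb⟩
    have h4 : x ∈ PP F p ⊔ UU (W ⟨b, hb⟩) 1 := hx2 (W ⟨b, hb⟩) ⟨⟨b, hb⟩, rfl⟩
    have h5 : b⁻¹ * x ∈ PP F p ⊔ UU (W ⟨b, hb⟩) 1 :=
      (le_sup_left : PP F p ≤ PP F p ⊔ UU (W ⟨b, hb⟩) 1) hbx
    have h6 := Subgroup.mul_mem _ h4 (Subgroup.inv_mem _ h5)
    rw [mul_inv_rev, inv_inv, mul_inv_cancel_left] at h6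
    exact h6

private theorem VT_anti {p : ℕ} {F : Type} [Field F] [NumberField F] {T T' : Set (Pr F)}
    (h : T ⊆ T') : VT p T' ≤ VT p T := by
  refine inf_le_inf le_rfl ?_
  exact le_iInf₂ fun v hv => iInf₂_le v (h hv)

open Classical in
private theorem EX_aux {p : ℕ} [Fact p.Prime] (hp2 : p ≠ 2) {K F : Type} [Field K] [NumberField K]
    [Field F] [NumberField F] [Algebra K F] [IsGalois K F] {ζ : F} (hζ : IsPrimitiveRoot ζ p)
    (hF : (Module.finrank K F).Coprime p)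
    {T : Set (Pr K)} (hTf : T.Finite) (hT : ∀ v ∈ T, ¬ Above v p) {ξ : Pr K → ZMod p}
    (hξ : ξ ∈ RC p T) {B : Set (Pr K)} (hBf : B.Finite) (hB : ∀ v ∈ B, ¬ Above v p)
    (hV : VT p {w : Pr F | (below w : Pr K) ∈ B} ≤ PP F p) :
    Rl p (T ∪ B) (fun v => if v ∈ B then 0 else ξ v) := by
  set ξ' : Pr K → ZMod p := fun v => if v ∈ B then 0 else ξ v with hξ'
  have h0 : ∀ v ∈ T ∪ B, ξ' v = 0 := by
    intro v hv
    by_cases hvB : v ∈ B
    · rw [hξ']; exact if_pos hvB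
    · have : ξ' v = ξ v := if_neg hvB
      rw [this]
      exact hξ.1 v (hv.resolve_right hvB)
  have hRC : ξ' ∈ RC p (T ∪ B) := by
    refine ⟨h0, fun x hx => ?_⟩
    rw [← hξ.2 x (fun v hv => hx v (Or.inl hv))]
    refine finsum_congr fun v => ?_
    by_cases hvB : v ∈ B
    · rw [(hx v (Or.inr hvB)).1, Int.cast_zero, zero_mul, zero_mul]
    · have : ξ' v = ξ v := if_neg hvB
      rw [this]
  have hfin : (T ∪ B).Finite := hTf.union hBf
  obtain ⟨T', hT'⟩ := RG.H.fin_up (K := K) (L := F) hfin.toFinset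
  have hset : (T' : Set (Pr F)) = {w : Pr F | (below w : Pr K) ∈ T ∪ B} := by
    ext w
    rw [Finset.mem_coe, hT', Set.Finite.mem_toFinset]
    rfl
  have hup := RC_up (F := F) hRC
  rw [← hset] at hup
  have hRl : Rl p (T' : Set (Pr F)) fun w => (fd K w : ZMod p) * ξ' (below w) := by
    refine EX_F hp2 hζ ?_ ?_ hup
    · intro w hw hab
      rw [hT', Set.Finite.mem_toFinset] at hw
      have hab' := (RG.H.above_iff (K := K) w p).1 hab
      rcases hw with hw | hw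
      · exact hT _ hw hab'
      · exact hB _ hw hab'
    · refine le_trans (VT_anti ?_) hV
      rw [hset]
      intro w hw
      exact Or.inr hw
  rw [hset] at hRl
  exact desc_char hF hfin h0 hRl

/-- The existence theorem. -/
theorem EX {p : ℕ} [Fact p.Prime] (hp2 : p ≠ 2) {K : Type} [Field K] [NumberField K]
    {T : Set (Pr K)} (hTf : T.Finite) (hT : ∀ v ∈ T, ¬ Above v p) {ξ : Pr K → ZMod p}
    (hξ : ξ ∈ RC p T) : Rl p T ξ := by
  classical
  have hp : p.Prime := Fact.out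
  obtain ⟨F, iF1, iF2, iF3, iF4, ζ, hζ, hF⟩ := exists_zeta_field hp K
  obtain ⟨B₁, hB₁f, hB₁T, hB₁p, hV₁⟩ := exists_aux hp hp2 (K := K) hζ hTf
  obtain ⟨B₂, hB₂f, hB₂T, hB₂p, hV₂⟩ := exists_aux hp hp2 (K := K) hζ (hTf.union hB₁f)
  obtain ⟨L₁, _, _, _, _, θ₁, -, hu₁, hf₁⟩ := EX_aux hp2 hζ hF hTf hT hξ hB₁f hB₁p hV₁
  obtain ⟨L₂, _, _, _, _, θ₂, -, hu₂, hf₂⟩ := EX_aux hp2 hζ hF hTf hT hξ hB₂f hB₂p hV₂
  obtain ⟨M, _, _, _, _, i₁, i₂, r₁, r₂, h₁, h₂, -, -, -⟩ := exists_compositumK K L₁ L₂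
  have hb₁ : ∀ w : Pr M, ∃ w₁ : Pr L₁, LiesA i₁ w w₁ := fun w => RG.exists_below _ w
  have hb₂ : ∀ w : Pr M, ∃ w₂ : Pr L₂, LiesA i₂ w w₂ := fun w => RG.exists_below _ w
  have hfin : (T ∪ B₁ ∪ B₂).Finite := (hTf.union hB₁f).union hB₂f
  -- Frobenius values
  have F₁ : ∀ w : Pr M, (below w : Pr K) ∉ T ∪ B₁ → ∀ g : M ≃ₐ[K] M,
      IsFrob w (nm (below w : Pr K)) g →
      θ₁ (r₁ g) = Multiplicative.ofAdd (ξ (below w)) := by
    intro w hw g hg
    obtain ⟨w₁, hw₁⟩ := hb₁ w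
    have hb := hw₁.below_eq
    have h3 : IsFrob w₁ (nm (below w : Pr K)) (r₁ g) :=
      IsFrob.restrictK hw₁ (fun x => h₁ g x) hg
    rw [hb] at h3 hw ⊢
    rw [hf₁.frob w₁ hw (r₁ g) h3, if_neg (fun h => hw (Or.inr h))]
  have F₂ : ∀ w : Pr M, (below w : Pr K) ∉ T ∪ B₂ → ∀ g : M ≃ₐ[K] M,
      IsFrob w (nm (below w : Pr K)) g →
      θ₂ (r₂ g) = Multiplicative.ofAdd (ξ (below w)) := by
    intro w hw g hg
    obtain ⟨w₁, hw₁⟩ := hb₂ w
    have hb := hw₁.below_eq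
    have h3 : IsFrob w₁ (nm (below w : Pr K)) (r₂ g) :=
      IsFrob.restrictK hw₁ (fun x => h₂ g x) hg
    rw [hb] at h3 hw ⊢
    rw [hf₂.frob w₁ hw (r₂ g) h3, if_neg (fun h => hw (Or.inr h))]
  have U₁ : ∀ w : Pr M, (below w : Pr K) ∉ T ∪ B₁ → ∀ g : M ≃ₐ[K] M,
      IsInert w g → θ₁ (r₁ g) = 1 := by
    intro w hw g hg
    obtain ⟨w₁, hw₁⟩ := hb₁ w
    have hb := hw₁.below_eq
    rw [hb] at hw
    exact hu₁ w₁ hw (r₁ g) (IsInert.restrictK hw₁ (fun x => h₁ g x) hg)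
  have U₂ : ∀ w : Pr M, (below w : Pr K) ∉ T ∪ B₂ → ∀ g : M ≃ₐ[K] M,
      IsInert w g → θ₂ (r₂ g) = 1 := by
    intro w hw g hg
    obtain ⟨w₁, hw₁⟩ := hb₂ w
    have hb := hw₁.below_eq
    rw [hb] at hw
    exact hu₂ w₁ hw (r₂ g) (IsInert.restrictK hw₁ (fun x => h₂ g x) hg)
  -- the two characters coincide
  have heq : θ₁.comp r₁ = θ₂.comp r₂ := by
    by_contra hne
    have hne' : (θ₁.comp r₁) * (θ₂.comp r₂)⁻¹ ≠ 1 := fun h => hne (mul_inv_eq_one.1 h)
    obtain ⟨w, hw, -, g, hg, hne''⟩ := cheb _ hne' hfin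
    apply hne''
    rw [MonoidHom.mul_apply, MonoidHom.inv_apply, MonoidHom.comp_apply, MonoidHom.comp_apply,
      F₁ w (fun h => hw (Or.inl h)) g hg,
      F₂ w (fun h => hw (h.elim (fun h => Or.inl (Or.inl h)) Or.inr)) g hg, mul_inv_cancel]
  have hsplit : ∀ v : Pr K, v ∉ T → v ∉ T ∪ B₁ ∨ v ∉ T ∪ B₂ := by
    intro v hv
    by_cases h1 : v ∈ B₁
    · right
      rintro (h2 | h2)
      · exact hv h2
      · exact Set.disjoint_left.1 hB₂T h2 (Or.inr h1)
    · left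
      rintro (h2 | h2)
      · exact hv h2
      · exact h1 h2
  refine Rl_of_FV (θ₁.comp r₁) ?_ ⟨hξ.1, ?_⟩
  · intro w hw g hg
    rcases hsplit _ hw with h | h
    · exact U₁ w h g hg
    · rw [heq]
      exact U₂ w h g hg
  · intro w hw g hg
    rcases hsplit _ hw with h | h
    · exact F₁ w h g hg
    · rw [heq]
      exact F₂ w h g hg

end Pool.Agent.RGK
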