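import Mathlib
import Pool.Agent.Lib.RG.Zeta
import Pool.Agent.Lib.RG.H01
import Pool.Agent.Lib.RG.H02
import Pool.Agent.Lib.RG.H03
import Pool.Agent.Lib.RG.H05
import Pool.Agent.Lib.RG.H06
import Pool.Agent.Lib.RGK.NKDefs
import Pool.Agent.Lib.RGK.BDefs

/-!
RG v4, row DK1: the density of the completely split primes.

Let `E / K` be Galois of degree `d`. Except for finitely many `v` (the ramified ones): if `v` is
completely split there are exactly `d` primes `w` of `E` above `v` and `nm w = nm v`; otherwise the primes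
`w` above `v` have residue degree `> 1`, so their norm is not a prime number (it is `nm v ^ f`). So,
`∑_{w : nm w prime} nm w ^ (-s) = d * ∑_{v split, nm v prime} nm v ^ (-s) + O(1)`; apply
`RG.H.prime_sum` (`Zeta.lean`) to `E` and `RG.H.high_degree` (`Zeta1.lean`) to `K`. See how this is done
for `K = ℚ` or for `L / K` in the files `H03`-`H09`, `E31` of `Pool/Agent/Lib/RG`.
-/

set_option autoImplicit false

namespace Pool.Agent.RGK

open NumberField IsDedekindDomain
open Pool.Agent.RG (Above IsDec IsInert IsFrob)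
open Pool.Agent.RG.H (Pr vl UU PP SU ev below nrm emb NS)

/-- the primes of `K` which split completely in `E` -/
def SplK (K E : Type) [Field K] [NumberField K] [Field E] [NumberField E] [Algebra K E] :
    Set (Pr K) :=
  {v | ∀ w : Pr E, (below w : Pr K) = v → ∀ σ : E ≃ₐ[K] E, IsDec w σ → σ = 1}

section

variable {K E : Type} [Field K] [NumberField K] [Field E] [NumberField E] [Algebra K E]

private theorem DK1_finite (v : Pr K) : Finite {w : Pr E // (below w : Pr K) = v} := by
  classical
  obtain ⟨T, hT⟩ := Pool.Agent.RG.H.fin_up (K := K) (L := E) {v}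
  have h : {w : Pr E | (below w : Pr K) = v} ⊆ (T : Set (Pr E)) := by
    intro w hw
    exact (hT w).2 (by simpa using hw)
  exact (T.finite_toSet.subset h).to_subtype

variable [IsGalois K E]

/-- The number of primes above a completely split prime. -/
private theorem DK1_card {v : Pr K} (hv : v ∈ SplK K E) :
    Nat.card {w : Pr E // (below w : Pr K) = v} = Module.finrank K E := by
  classical
  obtain ⟨w0, hw0⟩ := Pool.Agent.RG.H.exists_above (K := K) (L := E) v
  rw [← IsGalois.card_aut_eq_finrank]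
  choose f hf1 hf2 using fun σ : E ≃ₐ[K] E => Pool.Agent.RG.H.exists_translate (K := K) w0 σ
  symm
  refine Nat.card_congr (Equiv.ofBijective
    (fun σ => (⟨f σ, (hf1 σ).trans hw0⟩ : {w : Pr E // (below w : Pr K) = v})) ⟨?_, ?_⟩)
  · intro σ τ h
    have h1 : f σ = f τ := congrArg Subtype.val h
    have h2 : ∀ x : E, w0.valuation E (σ x) = w0.valuation E (τ x) := fun x => by
      rw [← hf2 σ x, ← hf2 τ x, h1]
    have h3 : IsDec w0 (σ * τ⁻¹) := by
      intro x
      change w0.valuation E (σ (τ⁻¹ x)) = w0.valuation E x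
      rw [h2]
      congr 1
      exact AlgEquiv.apply_symm_apply τ x
    exact mul_inv_eq_one.1 (hv w0 hw0 _ h3)
  · rintro ⟨w, hw⟩
    obtain ⟨σ, hσ⟩ := Pool.Agent.RG.H.exists_conj (K := K) w0 w (hw0.trans hw.symm)
    refine ⟨σ, Subtype.ext ?_⟩
    apply Pool.Agent.RG.H.pr_ext
    intro x
    rw [hf2 σ x, hσ x]

/-- The norm of a prime above a completely split prime. -/
private theorem DK1_norm {v : Pr K} (hv : v ∈ SplK K E) (w : Pr E) (hw : (below w : Pr K) = v) :
    nm w = nm v := by
  classical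
  subst hw
  have : (below w : Pr K).asIdeal.IsPrime := (below w : Pr K).isPrime
  have : (below w : Pr K).asIdeal.IsMaximal := (below w : Pr K).isMaximal
  have : w.asIdeal.IsPrime := w.isPrime
  have : w.asIdeal.IsMaximal := w.isMaximal
  have : w.asIdeal.LiesOver (below w : Pr K).asIdeal := ⟨rfl⟩
  have : IsGaloisGroup Gal(E/K) (𝓞 K) (𝓞 E) := IsGaloisGroup.of_isFractionRing _ _ _ K E
  have hefg := Ideal.ncard_primesOver_mul_ramificationIdxIn_mul_inertiaDegIn
    (below w : Pr K).asIdeal (𝓞 E) Gal(E/K)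
  have hcard : Nat.card Gal(E/K) = Module.finrank K E := IsGalois.card_aut_eq_finrank K E
  rw [hcard] at hefg
  have hg : ((below w : Pr K).asIdeal.primesOver (𝓞 E)).ncard = Module.finrank K E := by
    rw [← DK1_card hv, ← Nat.card_coe_set_eq]
    symm
    refine Nat.card_congr (Equiv.ofBijective
      (fun u => (⟨u.1.asIdeal, u.1.isPrime, ⟨?_⟩⟩ :
        {I : Ideal (𝓞 E) // I ∈ (below w : Pr K).asIdeal.primesOver (𝓞 E)})) ⟨?_, ?_⟩)
    · exact (congrArg (fun z : Pr K => z.asIdeal) u.2).symm
    · intro a b h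
      apply Subtype.ext
      apply HeightOneSpectrum.ext
      exact congrArg Subtype.val h
    · rintro ⟨I, hI⟩
      have hI1 : I.IsPrime := hI.1
      have hI2 : I.LiesOver (below w : Pr K).asIdeal := hI.2
      have hI3 : I ≠ ⊥ := by
        intro h
        have h1 := hI2.over
        rw [h] at h1
        apply (below w : Pr K).ne_bot
        rw [h1, Ideal.under_bot]
      refine ⟨⟨⟨I, hI1, hI3⟩, ?_⟩, rfl⟩
      apply HeightOneSpectrum.ext
      exact hI2.over.symm
  have hd : 0 < Module.finrank K E := Module.finrank_pos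
  have h2 : Ideal.inertiaDegIn (below w : Pr K).asIdeal (𝓞 E) = 1 := by
    rw [hg] at hefg
    have h3 : Ideal.ramificationIdxIn (below w : Pr K).asIdeal (𝓞 E)
        * Ideal.inertiaDegIn (below w : Pr K).asIdeal (𝓞 E) = 1 :=
      Nat.eq_of_mul_eq_mul_left hd (by rw [hefg, mul_one])
    exact Nat.eq_one_of_mul_eq_one_left h3
  rw [Ideal.inertiaDegIn_eq_inertiaDeg (below w : Pr K).asIdeal w.asIdeal Gal(E/K)] at h2
  unfold nm
  rw [Ideal.absNorm_eq_pow_inertiaDeg'_of_liesOver w.asIdeal (below w : Pr K).asIdeal,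
    Ideal.inertiaDeg'_eq_inertiaDeg, h2, pow_one]
  · exact (below w : Pr K).isPrime
  · exact (below w : Pr K).ne_bot

/-- The decomposition groups of conjugate primes are conjugate. -/
private theorem DK1_spl {w : Pr E} (h : ∀ σ : E ≃ₐ[K] E, IsDec w σ → σ = 1) :
    (below w : Pr K) ∈ SplK K E := by
  intro w' hw' σ hσ
  obtain ⟨τ, hτ⟩ := Pool.Agent.RG.H.exists_conj (K := K) w w' hw'.symm
  have h1 : IsDec w (τ * σ * τ⁻¹) := by
    intro x
    change w.valuation E (τ (σ (τ⁻¹ x))) = w.valuation E x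
    rw [← hτ]
    have h2 : w'.valuation E (σ (τ⁻¹ x)) = w'.valuation E (τ⁻¹ x) := hσ _
    rw [h2, hτ]
    congr 1
    exact AlgEquiv.apply_symm_apply τ x
  have h2 := h _ h1
  have h3 : τ * σ = τ := by
    have := congrArg (· * τ) h2
    simpa [mul_assoc] using this
  exact mul_eq_left.1 h3

/-- The primes above a prime which is neither ramified nor completely split. -/
private theorem DK1_ns {v : Pr K} (hv : v ∉ SplK K E)
    (hu : ∀ w : Pr E, (below w : Pr K) = v → ∀ σ : E ≃ₐ[K] E, IsInert w σ → σ = 1) (w : Pr E)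
    (hw : (below w : Pr K) = v) : ¬ (nm w).Prime := by
  intro h
  apply hv
  rw [← hw]
  exact DK1_spl (Pool.Agent.RG.H.deg_one_dec (K := K) w h (hu w hw))

end

open Classical in
/-- The analytic part: grouping the sum over the primes above. -/
private theorem DK1_abs {V W : Type} (b : W → V) (hb : ∀ v, Finite {w // b w = v}) (nV : V → ℝ)
    (nW : W → ℝ) (hV0 : ∀ v, 0 ≤ nV v) (hW0 : ∀ w, 0 ≤ nW w) (hW1 : ∀ w, nW w ≤ 1)
    (PV : V → Prop) (PW : W → Prop) (S : Set V) (F : Finset V) (d : ℕ)
    (hsV : Summable nV) (hsW : Summable nW)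
    (h1 : ∀ v ∈ S, Nat.card {w // b w = v} = d)
    (h2 : ∀ v ∈ S, ∀ w, b w = v → nW w = nV v ∧ (PW w ↔ PV v))
    (h3 : ∀ v, v ∉ S → v ∉ F → ∀ w, b w = v → ¬ PW w) :
    |(∑' w : {w // PW w}, nW w) - d * ∑' v : S, nV v| ≤
      (∑ v ∈ F, ((Nat.card {w // b w = v} : ℝ) + d)) + d * ∑' v, (if PV v then 0 else nV v) := by
  have hdR : (0 : ℝ) ≤ d := Nat.cast_nonneg _
  set f : W → ℝ := fun w => if PW w then nW w else 0 with hf
  have hf0 : ∀ w, 0 ≤ f w := by
    intro w
    simp only [hf]
    split_ifs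
    · exact hW0 w
    · exact le_refl _
  have hf1 : ∀ w, f w ≤ 1 := by
    intro w
    simp only [hf]
    split_ifs
    · exact hW1 w
    · exact zero_le_one
  have hfs : Summable f := by
    refine Summable.of_nonneg_of_le hf0 (fun w => ?_) hsW
    simp only [hf]
    split_ifs
    · exact le_refl _
    · exact hW0 w
  have e1 : (∑' w : {w // PW w}, nW w) = ∑' w, f w := by
    have h := tsum_subtype {w | PW w} nW
    refine Eq.trans h (tsum_congr fun w => ?_)
    simp only [Set.indicator, Set.mem_ofPred_eq, hf]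
  have hsig : Summable (fun x : (Σ v : V, {w : W // b w = v}) => f x.2.1) :=
    (Equiv.sigmaFiberEquiv b).summable_iff.mpr hfs
  set G : V → ℝ := fun v => ∑' w : {w : W // b w = v}, f w.1 with hG
  have hGs : Summable G := hsig.sigma
  have e2 : (∑' w, f w) = ∑' v, G v := by
    rw [← (Equiv.sigmaFiberEquiv b).tsum_eq]
    exact hsig.tsum_sigma
  set g : V → ℝ := fun v => if v ∈ S then nV v else 0 with hg
  have e3 : (∑' v : S, nV v) = ∑' v, g v := by
    have h := tsum_subtype S nV
    refine Eq.trans h (tsum_congr fun v => ?_)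
    simp only [Set.indicator, hg]
  have hg0 : ∀ v, 0 ≤ g v := by
    intro v
    simp only [hg]
    split_ifs
    · exact hV0 v
    · exact le_refl _
  have hgs : Summable g := by
    refine Summable.of_nonneg_of_le hg0 (fun v => ?_) hsV
    simp only [hg]
    split_ifs
    · exact le_refl _
    · exact hV0 v
  set r1 : V → ℝ := fun v => if v ∈ F then ((Nat.card {w // b w = v} : ℝ) + d) else 0 with hr1
  set r2 : V → ℝ := fun v => if PV v then 0 else nV v with hr2
  have hr20 : ∀ v, 0 ≤ r2 v := by
    intro v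
    simp only [hr2]
    split_ifs
    · exact le_refl _
    · exact hV0 v
  have hr10 : ∀ v, 0 ≤ r1 v := by
    intro v
    simp only [hr1]
    split_ifs
    · positivity
    · exact le_refl _
  have hr2s : Summable r2 := by
    refine Summable.of_nonneg_of_le hr20 (fun v => ?_) hsV
    simp only [hr2]
    split_ifs
    · exact hV0 v
    · exact le_refl _
  have hr1s : Summable r1 := by
    refine summable_of_ne_finset_zero (s := F) fun v hv => ?_
    simp only [hr1]
    rw [if_neg hv]
  have er1 : ∑' v, r1 v = ∑ v ∈ F, ((Nat.card {w // b w = v} : ℝ) + d) := by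
    rw [tsum_eq_sum (s := F) (fun v hv => by simp only [hr1]; rw [if_neg hv])]
    refine Finset.sum_congr rfl fun v hv => ?_
    simp only [hr1]
    rw [if_pos hv]
  have hmain : ∀ v, |G v - d * g v| ≤ r1 v + d * r2 v := by
    intro v
    have hfinv := hb v
    let _ : Fintype {w // b w = v} := Fintype.ofFinite _
    have hGv : G v = ∑ w : {w // b w = v}, f w.1 := by
      simp only [hG]
      exact tsum_fintype _
    by_cases hv : v ∈ S
    · have hgv : g v = nV v := by simp only [hg]; rw [if_pos hv]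
      by_cases hpr : PV v
      · have h4 : G v = d * nV v := by
          rw [hGv, Finset.sum_congr rfl (g := fun _ => nV v)]
          · rw [Finset.sum_const, Finset.card_univ, nsmul_eq_mul, ← Nat.card_eq_fintype_card,
              h1 v hv]
          · intro w _
            simp only [hf]
            rw [if_pos ((h2 v hv w.1 w.2).2.2 hpr), (h2 v hv w.1 w.2).1]
        rw [h4, hgv, sub_self, abs_zero]
        exact add_nonneg (hr10 v) (mul_nonneg hdR (hr20 v))
      · have h4 : G v = 0 := by
          rw [hGv]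
          refine Finset.sum_eq_zero fun w _ => ?_
          simp only [hf]
          rw [if_neg (fun h => hpr ((h2 v hv w.1 w.2).2.1 h))]
        have h5 : r2 v = nV v := by simp only [hr2]; rw [if_neg hpr]
        rw [h4, hgv, h5, zero_sub, abs_neg, abs_of_nonneg (mul_nonneg hdR (hV0 v))]
        linarith [hr10 v]
    · have hgv : g v = 0 := by simp only [hg]; rw [if_neg hv]
      rw [hgv, mul_zero, sub_zero]
      by_cases hvF : v ∈ F
      · have h4 : G v ≤ (Nat.card {w // b w = v} : ℝ) := by
          rw [hGv, Nat.card_eq_fintype_card, ← Finset.card_univ, Finset.cast_card]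
          exact Finset.sum_le_sum fun w _ => hf1 w.1
        have h0 : 0 ≤ G v := by
          rw [hGv]
          exact Finset.sum_nonneg fun w _ => hf0 w.1
        have h5 : r1 v = (Nat.card {w // b w = v} : ℝ) + d := by
          simp only [hr1]
          rw [if_pos hvF]
        rw [abs_of_nonneg h0, h5]
        have h6 := mul_nonneg hdR (hr20 v)
        linarith
      · have h4 : G v = 0 := by
          rw [hGv]
          refine Finset.sum_eq_zero fun w _ => ?_
          simp only [hf]
          rw [if_neg (h3 v hv hvF w.1 w.2)]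
        rw [h4, abs_zero]
        exact add_nonneg (hr10 v) (mul_nonneg hdR (hr20 v))
  have hdg : Summable fun v => (d : ℝ) * g v := hgs.mul_left _
  have hdr : Summable fun v => r1 v + (d : ℝ) * r2 v := hr1s.add (hr2s.mul_left _)
  rw [e1, e2, e3, ← tsum_mul_left, ← hGs.tsum_sub hdg]
  have habs : Summable fun v => ‖G v - d * g v‖ :=
    Summable.of_nonneg_of_le (fun v => norm_nonneg _) (fun v => hmain v) hdr
  have h6 := norm_tsum_le_tsum_norm habs
  rw [Real.norm_eq_abs] at h6
  refine h6.trans ?_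
  have h7 := habs.tsum_le_tsum (fun v => hmain v) hdr
  refine h7.trans ?_
  rw [hr1s.tsum_add (hr2s.mul_left _), er1, tsum_mul_left]

private theorem DK1_nonneg {F : Type} [Field F] [NumberField F] (s : ℝ) (v : Pr F) :
    (0 : ℝ) ≤ (nm v : ℝ) ^ (-s) := Real.rpow_nonneg (Nat.cast_nonneg _) _

private theorem DK1_le {F : Type} [Field F] [NumberField F] {s : ℝ} (hs : 1 < s) (v : Pr F) :
    (nm v : ℝ) ^ (-s) ≤ 1 := by
  apply Real.rpow_le_one_of_one_le_of_nonpos
  · have h0 : Ideal.absNorm v.asIdeal ≠ 0 := mt Ideal.absNorm_eq_zero_iff.1 v.ne_bot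
    have h1 : 1 ≤ nm v := Nat.one_le_iff_ne_zero.2 h0
    exact_mod_cast h1
  · linarith

theorem hasDK_split (K E : Type) [Field K] [NumberField K] [Field E] [NumberField E] [Algebra K E]
    [IsGalois K E] : HasDK (SplK K E) ((Module.finrank K E : ℝ)⁻¹) := by
  classical
  obtain ⟨C, hC⟩ := Pool.Agent.RG.H.prime_sum E
  obtain ⟨C1, hC1⟩ := Pool.Agent.RG.H.high_degree K
  have hdR : (0 : ℝ) < Module.finrank K E := by exact_mod_cast Module.finrank_pos
  -- the ramified primes
  have hram : (Set.image (fun w : Pr E => (below w : Pr K))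
      {w : Pr E | ∃ σ : E ≃ₐ[K] E, σ ≠ 1 ∧ IsInert w σ}).Finite :=
    Pool.Agent.RG.H.fin_ram.image _
  obtain ⟨F, hF⟩ : ∃ F : Finset (Pr K), ∀ v, v ∉ F → ∀ w : Pr E, (below w : Pr K) = v →
      ∀ σ : E ≃ₐ[K] E, IsInert w σ → σ = 1 := by
    refine ⟨hram.toFinset, fun v hv w hw σ hσ => ?_⟩
    by_contra hne
    apply hv
    rw [Set.Finite.mem_toFinset]
    exact ⟨w, ⟨σ, hne, hσ⟩, hw⟩
  refine ⟨(Module.finrank K E : ℝ)⁻¹ *
    ((∑ v ∈ F, ((Nat.card {w : Pr E // (below w : Pr K) = v} : ℝ) + Module.finrank K E)) +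
      Module.finrank K E * C1 + C), fun s hs1 hs2 => ?_⟩
  obtain ⟨hsum, hbd⟩ := hC s hs1 hs2
  have hsE := Pool.Agent.RG.H.summable_primes E hs1
  have hsK := Pool.Agent.RG.H.summable_primes K hs1
  have h5 := DK1_abs (fun w : Pr E => (below w : Pr K)) (fun v => DK1_finite v)
    (fun v : Pr K => (nm v : ℝ) ^ (-s)) (fun w : Pr E => (nm w : ℝ) ^ (-s))
    (DK1_nonneg s) (DK1_nonneg s) (DK1_le hs1) (fun v => (nm v).Prime) (fun w => (nm w).Prime)
    (SplK K E) F (Module.finrank K E) hsK hsE (fun v hv => DK1_card hv)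
    (fun v hv w hw => by
      have h := DK1_norm hv w hw
      constructor
      · simp only [h]
      · rw [h])
    (fun v hv hvF w hw => DK1_ns hv (hF v hvF) w hw)
  have h4 : (∑' v : Pr K, @ite ℝ ((nm v).Prime) (Classical.propDecidable _) 0
      ((nm v : ℝ) ^ (-s))) ≤ C1 := by
    refine le_trans (le_of_eq (tsum_congr fun v => ?_)) (hC1 s hs1)
    unfold nm
    congr 1
  change |(∑' w : {w : Pr E // (nm w).Prime}, (nm w.1 : ℝ) ^ (-s)) - Real.log (1 / (s - 1))| ≤ C at hbd
  revert hbd h4 h5
  generalize (∑' w : {w : Pr E // (nm w).Prime}, (nm w.1 : ℝ) ^ (-s)) = A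
  generalize (∑' v : Pr K, @ite ℝ ((nm v).Prime) (Classical.propDecidable _) 0
      ((nm v : ℝ) ^ (-s))) = B
  generalize (∑' v : SplK K E, (nm (v : Pr K) : ℝ) ^ (-s)) = D
  generalize (∑ v ∈ F, ((Nat.card {w : Pr E // (below w : Pr K) = v} : ℝ) + Module.finrank K E)) = X
  intro hbd h4 h5
  have h8 : D - (Module.finrank K E : ℝ)⁻¹ * Real.log (1 / (s - 1)) =
      (Module.finrank K E : ℝ)⁻¹ * ((Module.finrank K E * D) - Real.log (1 / (s - 1))) := by
    field_simp
  rw [h8, abs_mul, abs_of_pos (inv_pos.mpr hdR)]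
  refine mul_le_mul_of_nonneg_left ?_ (inv_pos.mpr hdR).le
  have h9 : (Module.finrank K E * D) - Real.log (1 / (s - 1)) =
      -(A - Module.finrank K E * D) + (A - Real.log (1 / (s - 1))) := by ring
  rw [h9]
  refine (abs_add_le _ _).trans ?_
  rw [abs_neg]
  have h10 := mul_le_mul_of_nonneg_left h4 hdR.le
  linarith

end Pool.Agent.RGK
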