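import Mathlib
import Pool.Agent.Lib.RGK.NKDefs
import Pool.Agent.Lib.RGK.BDefs

/-!
RG v4, PART D: the field for the density theorem, definitions.
-/

set_option autoImplicit false

namespace Pool.Agent.RGK

open NumberField IsDedekindDomain
open Pool.Agent.RG (Above IsDec IsInert IsFrob)
open Pool.Agent.RG.H (Pr vl UU PP SU ev below nrm emb NS)

/-- The Galois extension `E / K` is generated by a primitive `p`-th root of unity `ζ`, by `p`-th roots
`β j` of the `b j` and by class fields: the characters `θ i` of `Gal(E / K)` are unramified outside `T`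
with Frobenius values `ξ i`. -/
structure CompF {K E : Type} [Field K] [NumberField K] [Field E] [NumberField E] [Algebra K E]
    {p n k : ℕ} (T : Set (Pr K)) (ξ : Fin n → Pr K → ZMod p) (b : Fin k → Kˣ) (ζ : E)
    (β : Fin k → Eˣ) (θ : Fin n → (E ≃ₐ[K] E) →* Multiplicative (ZMod p)) : Prop where
  prim : IsPrimitiveRoot ζ p
  root : ∀ j, β j ^ p = emb K E (b j)
  unr : ∀ i, UnrCh T (θ i)
  fv : ∀ i, FV T (θ i) (ξ i)
  gen : ∀ σ : E ≃ₐ[K] E, σ ζ = ζ → (∀ j, σ (β j : E) = β j) → (∀ i, θ i σ = 1) → σ = 1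

end Pool.Agent.RGK
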