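import Mathlib
import Pool.Agent.Lib.RG.H01
import Pool.Agent.Lib.RG.H04
import Pool.Agent.Lib.RGK.DKDefs
import Pool.Agent.Lib.RGK.B1
import Pool.Agent.Lib.RGK.B2
import Pool.Agent.Lib.RGK.B4

/-!
RG v4, row DK2a: existence of the field.

`Rl p T (ξ i)` gives a Galois number field `L i / K` with an injective character. Let `E` be the subfield of
`AlgebraicClosure K` generated by the `p`-th roots of `1` and of the `b j` and by the images of the `L i`;
it is finite and normal over `K` (the generating set is stable under all automorphisms: the image of a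
Galois `L i` does not depend on the embedding). (Or the splitting field of the product of
`X ^ p - 1`, `X ^ p - b j` and the minimal polynomials of primitive elements of the `L i`.)
`θ i` is the composite of the restriction `Gal(E/K) → Gal(L i/K)` with the given character; the
Frobenius and inertia elements restrict to such elements (`B1`, `B2`: look there for the restriction
lemmas). Choice over `Fin n` of the fields: induction over `n` is not needed if you first choose
`L : Fin n → Type` with its instances by `choose`.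
-/

set_option autoImplicit false

namespace Pool.Agent.RGK

open NumberField IsDedekindDomain
open Pool.Agent.RG (Above IsDec IsInert IsFrob)
open Pool.Agent.RG.H (Pr vl UU PP SU ev below nrm emb NS)

private theorem dk2a_base {K : Type} [Field K] [NumberField K] {p k : ℕ} [Fact p.Prime]
    (b : Fin k → Kˣ) :
    ∃ (E : Type) (_ : Field E) (_ : NumberField E) (_ : Algebra K E) (_ : IsGalois K E) (ζ : E)
      (β : Fin k → Eˣ), IsPrimitiveRoot ζ p ∧ (∀ j, β j ^ p = emb K E (b j)) ∧
      ∀ σ : E ≃ₐ[K] E, σ ζ = ζ → (∀ j, σ (β j : E) = β j) → σ = 1 := by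
  classical
  have hp : p.Prime := Fact.out
  have hp0 : p ≠ 0 := hp.ne_zero
  set f : Polynomial K := Polynomial.cyclotomic p K *
    ∏ j, (Polynomial.X ^ p - Polynomial.C ((b j : Kˣ) : K)) with hf
  have hfac : ∀ j, Polynomial.X ^ p - Polynomial.C ((b j : Kˣ) : K) ≠ 0 := fun j =>
    (Polynomial.monic_X_pow_sub_C _ hp0).ne_zero
  have hf0 : f ≠ 0 := mul_ne_zero (Polynomial.cyclotomic_ne_zero p K)
    (Finset.prod_ne_zero_iff.2 fun j _ => hfac j)
  let E : Type := f.SplittingField
  have hN : NumberField E := NumberField.of_module_finite K E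
  have hG : IsGalois K E := ⟨⟩
  have hspl : (f.map (algebraMap K E)).Splits := Polynomial.SplittingField.splits f
  have hfE : f.map (algebraMap K E) ≠ 0 := (Polynomial.map_ne_zero_iff (algebraMap K E).injective).2 hf0
  -- the root of unity
  have hs1 : ((Polynomial.cyclotomic p K).map (algebraMap K E)).Splits :=
    hspl.of_dvd hfE (Polynomial.map_dvd _ (Dvd.intro _ rfl))
  have hd1 : ((Polynomial.cyclotomic p K).map (algebraMap K E)).degree ≠ 0 := by
    rw [Polynomial.degree_map, Polynomial.degree_cyclotomic]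
    have : 0 < p.totient := Nat.totient_pos.2 hp.pos
    exact_mod_cast this.ne'
  obtain ⟨ζ, hζ⟩ := hs1.exists_eval_eq_zero hd1
  have hζp : IsPrimitiveRoot ζ p := by
    rw [Polynomial.map_cyclotomic] at hζ
    have : NeZero (p : E) := ⟨Nat.cast_ne_zero.2 hp0⟩
    exact (Polynomial.isRoot_cyclotomic_iff (n := p) (R := E)).1 hζ
  -- the roots of the elements
  have hroot : ∀ j, ∃ β : Eˣ, β ^ p = emb K E (b j) := by
    intro j
    have hs2 : ((Polynomial.X ^ p - Polynomial.C ((b j : Kˣ) : K)).map (algebraMap K E)).Splits :=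
      hspl.of_dvd hfE (Polynomial.map_dvd _ (dvd_mul_of_dvd_right
        (Finset.dvd_prod_of_mem _ (Finset.mem_univ j)) _))
    have hd2 : ((Polynomial.X ^ p - Polynomial.C ((b j : Kˣ) : K)).map (algebraMap K E)).degree ≠ 0 := by
      rw [Polynomial.degree_map, Polynomial.degree_X_pow_sub_C hp.pos]
      exact_mod_cast hp0
    obtain ⟨x, hx⟩ := hs2.exists_eval_eq_zero hd2
    rw [Polynomial.map_sub, Polynomial.map_pow, Polynomial.map_X, Polynomial.map_C,
      Polynomial.eval_sub, Polynomial.eval_pow, Polynomial.eval_X, Polynomial.eval_C,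
      sub_eq_zero] at hx
    have hx0 : x ≠ 0 := by
      rintro rfl
      rw [zero_pow hp0] at hx
      exact (emb K E (b j)).ne_zero hx.symm
    refine ⟨Units.mk0 x hx0, ?_⟩
    ext
    rw [Units.val_pow_eq_pow_val, Units.val_mk0, RG.H.emb_val]
    exact hx
  choose β hβ using hroot
  refine ⟨E, inferInstance, hN, inferInstance, hG, ζ, β, hζp, hβ, fun σ h1 h2 => ?_⟩
  have h3 : (σ : E →ₐ[K] E) = AlgHom.id K E := by
    refine AlgHom.ext_of_adjoin_eq_top (Polynomial.SplittingField.adjoin_rootSet f) fun x hx => ?_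
    have hx1 := (Polynomial.mem_rootSet.1 hx).2
    change σ x = x
    have hpow : ∀ y : E, y ^ p = 1 → σ y = y := by
      intro y hy
      obtain ⟨i, _, rfl⟩ := hζp.eq_pow_of_pow_eq_one hy
      rw [map_pow, h1]
    have hf1 := congrArg (Polynomial.aeval x) hf
    rw [hf1, map_mul, map_prod] at hx1
    rcases mul_eq_zero.1 hx1 with h4 | h4
    · apply hpow
      have h5 : (Polynomial.cyclotomic p E).IsRoot x := by
        rw [Polynomial.IsRoot.def, ← Polynomial.map_cyclotomic p (algebraMap K E),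
          Polynomial.eval_map_algebraMap]
        exact h4
      have : NeZero (p : E) := ⟨Nat.cast_ne_zero.2 hp0⟩
      exact ((Polynomial.isRoot_cyclotomic_iff (n := p) (R := E)).1 h5).pow_eq_one
    · obtain ⟨j, _, h5⟩ := Finset.prod_eq_zero_iff.1 h4
      rw [map_sub, map_pow, Polynomial.aeval_X, Polynomial.aeval_C, sub_eq_zero] at h5
      have h6 : ((β j : Eˣ) : E) ^ p = algebraMap K E (b j) := by
        rw [← Units.val_pow_eq_pow_val, hβ j, RG.H.emb_val]
      have h7 : (x / (β j : E)) ^ p = 1 := by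
        rw [div_pow, h5, h6, div_self]
        rw [← h6]
        exact pow_ne_zero _ (β j).ne_zero
      have h8 := hpow _ h7
      rw [map_div₀, h2 j] at h8
      have h9 := (β j).ne_zero
      rwa [div_left_inj' h9] at h8
  ext x
  exact DFunLike.congr_fun h3 x

private theorem dk2a_step {K : Type} [Field K] [NumberField K] {p n k : ℕ} [Fact p.Prime]
    {T : Set (Pr K)} (ξ : Fin (n + 1) → Pr K → ZMod p) (b : Fin k → Kˣ)
    (h0 : Rl p T (ξ 0)) (ih : ∃ (E : Type) (_ : Field E) (_ : NumberField E) (_ : Algebra K E)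
      (_ : IsGalois K E) (ζ : E) (β : Fin k → Eˣ)
      (θ : Fin n → (E ≃ₐ[K] E) →* Multiplicative (ZMod p)),
      CompF T (fun i => ξ i.succ) b ζ β θ) :
    ∃ (E : Type) (_ : Field E) (_ : NumberField E) (_ : Algebra K E) (_ : IsGalois K E) (ζ : E)
      (β : Fin k → Eˣ) (θ : Fin (n + 1) → (E ≃ₐ[K] E) →* Multiplicative (ZMod p)),
      CompF T ξ b ζ β θ := by
  classical
  have hp : p.Prime := Fact.out
  obtain ⟨E, iE1, iE2, iE3, iE4, ζ, β, θ, hC⟩ := ih
  obtain ⟨L, iL1, iL2, iL3, iL4, θ₀, hinj, hunr, hfv⟩ := h0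
  obtain ⟨R, iR1, iR2, iR3, iR4, i₁, i₂, r₁, r₂, hr1, hr2, hs1, hs2, hgen⟩ :=
    exists_compositumK K E L
  have hbelow : ∀ w : Pr R, ∃ w₁ : Pr E, LiesA i₁ w w₁ := fun w =>
    RG.exists_below (i₁ : E →+* R) w
  have hbelow2 : ∀ w : Pr R, ∃ w₂ : Pr L, LiesA i₂ w w₂ := fun w =>
    RG.exists_below (i₂ : L →+* R) w
  refine ⟨R, iR1, iR2, iR3, iR4, i₁ ζ, fun j => Units.map (i₁ : E →* R) (β j),
    Fin.cons (θ₀.comp r₂) (fun i => (θ i).comp r₁), ?_, ?_, ?_, ?_, ?_⟩
  · exact hC.prim.map_of_injective i₁.injective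
  · intro j
    rw [← map_pow, hC.root j]
    ext
    change i₁ (algebraMap K E (b j : K)) = algebraMap K R (b j : K)
    exact i₁.commutes _
  · intro i
    refine Fin.cases ?_ (fun i => ?_) i
    · intro w hw σ hσ
      rw [Fin.cons_zero]
      obtain ⟨w₂, hw₂⟩ := hbelow2 w
      have h1 : (below w₂ : Pr K) ∉ T := by
        rw [← hw₂.below_eq]
        exact hw
      exact hunr w₂ h1 (r₂ σ) (IsInert.restrictK hw₂ (fun x => hr2 σ x) hσ)
    · intro w hw σ hσ
      rw [Fin.cons_succ]
      obtain ⟨w₁, hw₁⟩ := hbelow w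
      have h1 : (below w₁ : Pr K) ∉ T := by
        rw [← hw₁.below_eq]
        exact hw
      exact hC.unr i w₁ h1 (r₁ σ) (IsInert.restrictK hw₁ (fun x => hr1 σ x) hσ)
  · intro i
    refine Fin.cases ?_ (fun i => ?_) i
    · refine ⟨hfv.zero, fun w hw σ hσ => ?_⟩
      rw [Fin.cons_zero]
      obtain ⟨w₂, hw₂⟩ := hbelow2 w
      have h2 := hw₂.below_eq
      have h1 : (below w₂ : Pr K) ∉ T := by
        rw [← h2]
        exact hw
      have h3 := IsFrob.restrictK hw₂ (fun x => hr2 σ x) hσ
      rw [h2] at h3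
      rw [h2]
      exact hfv.frob w₂ h1 (r₂ σ) h3
    · refine ⟨(hC.fv i).zero, fun w hw σ hσ => ?_⟩
      rw [Fin.cons_succ]
      obtain ⟨w₁, hw₁⟩ := hbelow w
      have h2 := hw₁.below_eq
      have h1 : (below w₁ : Pr K) ∉ T := by
        rw [← h2]
        exact hw
      have h3 := IsFrob.restrictK hw₁ (fun x => hr1 σ x) hσ
      rw [h2] at h3
      rw [h2]
      exact (hC.fv i).frob w₁ h1 (r₁ σ) h3
  · intro σ h1 h2 h3
    apply hgen
    · apply hC.gen
      · exact i₁.injective ((hr1 σ ζ).symm.trans h1)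
      · intro j
        exact i₁.injective ((hr1 σ (β j : E)).symm.trans (h2 j))
      · intro i
        have h4 := h3 i.succ
        rw [Fin.cons_succ] at h4
        exact h4
    · apply hinj
      have h4 := h3 0
      rw [Fin.cons_zero] at h4
      rw [map_one]
      exact h4

theorem exists_comp {K : Type} [Field K] [NumberField K] {p n k : ℕ} [Fact p.Prime]
    {T : Set (Pr K)} (ξ : Fin n → Pr K → ZMod p) (hξ : ∀ i, Rl p T (ξ i)) (b : Fin k → Kˣ) :
    ∃ (E : Type) (_ : Field E) (_ : NumberField E) (_ : Algebra K E) (_ : IsGalois K E) (ζ : E)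
      (β : Fin k → Eˣ) (θ : Fin n → (E ≃ₐ[K] E) →* Multiplicative (ZMod p)),
      CompF T ξ b ζ β θ := by
  induction n with
  | zero =>
    obtain ⟨E, h1, h2, h3, h4, ζ, β, hζ, hβ, hgen⟩ := dk2a_base (p := p) b
    exact ⟨E, h1, h2, h3, h4, ζ, β, fun i => i.elim0, hζ, hβ, fun i => i.elim0, fun i => i.elim0,
      fun σ ha hb _ => hgen σ ha hb⟩
  | succ n ih =>
    exact dk2a_step ξ b (hξ 0) (ih (fun i => ξ i.succ) (fun i => hξ i.succ))

end Pool.Agent.RGK
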