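import Mathlib
import Pool.Agent.Lib.RG.H01
import Pool.Agent.Lib.RG.H04
import Pool.Agent.Lib.RGK.DKDefs
import Pool.Agent.Lib.RGK.B1
import Pool.Agent.Lib.RGK.B2

/-!
RG v4, row DK2b: the degree of the field.

Let `G = Gal(E/K)`, `G₁` the stabilizer of `ζ`. `E ⊇ K(ζ)`, and `K(ζ) = IntermediateField.adjoin K {ζ}`
has degree `m := finrank K (CyclotomicField p K)` (uniqueness of cyclotomic extensions), so
`|G| = m * |G₁|` (`G₁` is the fixing subgroup of `K(ζ)`). The map
`Ψ : G₁ → (Fin n → ZMod p) × (Fin k → ZMod p)`, `σ ↦ (θ i σ, κ j σ)` with `σ (β j) = ζ ^ (κ j σ) * β j`, is an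
injective homomorphism (`gen`). It is surjective: otherwise its image is a proper subspace and there is
`(c, d) ≠ 0` with `∑ c i * θ i σ + ∑ d j * κ j σ = 0` for all `σ ∈ G₁`. Choose `τ ∈ G` with
`τ ζ = ζ ^ u`, `u ≢ 1` modulo `p` (`ζ ∉ K` by `hζ`, so some `τ` moves `ζ`). For `σ ∈ G₁` the conjugate
`τ σ τ⁻¹` is in `G₁`, `θ i (τ σ τ⁻¹) = θ i σ`, `κ j (τ σ τ⁻¹) = u * κ j σ`. Subtract:
`∑ d j * κ j σ = 0` and `∑ c i * θ i σ = 0` for all `σ ∈ G₁`.
(1) `x := ∏ β j ^ d j` (`d j` lifted to `ℕ`) is fixed by `G₁`, so it is in `K(ζ)`, and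
`x ^ p = ∏ b j ^ d j =: b`; take norms from `K(ζ)` to `K`: `N(x) ^ p = b ^ m`, `m ∣ p - 1` is
prime to `p`, so `b ∈ PP K p` (`b = (b ^ m) ^ r * (b ^ s) ^ p`), so all `d j = 0` by `hb`.
(`m ∣ p - 1`, or just `m < p`: `finrank K (CyclotomicField p K) ≤ p - 1`.)
(2) `θ := ∏ θ i ^ c i` is trivial on `G₁`, so it factors through `G / G₁` of order `m` prime to `p`
(`G₁` is normal; `σ ^ m ∈ G₁`, so `θ σ ^ m = 1`, `θ σ = 1`), so `θ = 1`; hence
`∑ c i * ξ i v = 0` for all `v` (`FV.zero` for `v ∈ T`; for `v ∉ T` choose `w` above `v`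
(`exists_above`, H01) and a Frobenius at `w` (H04, `B1`, or `AlgHom.IsArithFrobAt` existence)); `c = 0`
by `hξ`.
-/

set_option autoImplicit false

namespace Pool.Agent.RGK

open NumberField IsDedekindDomain
open Pool.Agent.RG (Above IsDec IsInert IsFrob)
open Pool.Agent.RG.H (Pr vl UU PP SU ev below nrm emb NS)

private def DK2b_pw {E : Type} [Field E] {p : ℕ} (ζ : E) (a : ZMod p) : E := ζ ^ a.val

private theorem DK2b_add {E : Type} [Field E] {p : ℕ} [Fact p.Prime] {ζ : E} (h : ζ ^ p = 1)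
    (a b : ZMod p) : DK2b_pw ζ (a + b) = DK2b_pw ζ a * DK2b_pw ζ b := by
  unfold DK2b_pw
  rw [ZMod.val_add, ← pow_add, ← pow_eq_pow_mod _ h]

private theorem DK2b_zero {E : Type} [Field E] {p : ℕ} [Fact p.Prime] (ζ : E) :
    DK2b_pw ζ (0 : ZMod p) = 1 := by
  unfold DK2b_pw
  rw [ZMod.val_zero, pow_zero]

private theorem DK2b_one {E : Type} [Field E] {p : ℕ} [hp : Fact p.Prime] (ζ : E) :
    DK2b_pw ζ (1 : ZMod p) = ζ := by
  unfold DK2b_pw
  rw [ZMod.val_one'' hp.out.one_lt.ne', pow_one]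

private theorem DK2b_mul {E : Type} [Field E] {p : ℕ} [Fact p.Prime] {ζ : E} (h : ζ ^ p = 1)
    (a b : ZMod p) : DK2b_pw ζ (a * b) = DK2b_pw ζ a ^ b.val := by
  unfold DK2b_pw
  rw [ZMod.val_mul, ← pow_mul, ← pow_eq_pow_mod _ h]

private theorem DK2b_inj {E : Type} [Field E] {p : ℕ} [Fact p.Prime] {ζ : E}
    (h : IsPrimitiveRoot ζ p) {a b : ZMod p} (hab : DK2b_pw ζ a = DK2b_pw ζ b) : a = b :=
  ZMod.val_injective p (h.pow_inj (ZMod.val_lt a) (ZMod.val_lt b) hab)

private theorem DK2b_ex {E : Type} [Field E] {p : ℕ} [hp : Fact p.Prime] {ζ : E}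
    (h : IsPrimitiveRoot ζ p) {z : E} (hz : z ^ p = 1) : ∃ a : ZMod p, z = DK2b_pw ζ a := by
  obtain ⟨i, hi, rfl⟩ := h.eq_pow_of_pow_eq_one hz
  refine ⟨(i : ZMod p), ?_⟩
  unfold DK2b_pw
  rw [ZMod.val_natCast_of_lt hi]

private theorem DK2b_ne {E : Type} [Field E] {p : ℕ} [hp : Fact p.Prime] {ζ : E}
    (h : ζ ^ p = 1) (a : ZMod p) : DK2b_pw ζ a ≠ 0 := by
  unfold DK2b_pw
  refine pow_ne_zero _ ?_
  rintro rfl
  rw [zero_pow hp.out.ne_zero] at h
  exact zero_ne_one h

private theorem DK2b_prod {E : Type} [Field E] {p : ℕ} [Fact p.Prime] {ζ : E} (h : ζ ^ p = 1)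
    {ι : Type} (s : Finset ι) (a : ι → ZMod p) :
    ∏ i ∈ s, DK2b_pw ζ (a i) = DK2b_pw ζ (∑ i ∈ s, a i) := by
  classical
  induction s using Finset.induction_on with
  | empty => rw [Finset.prod_empty, Finset.sum_empty, DK2b_zero]
  | insert i s hi ih => rw [Finset.prod_insert hi, Finset.sum_insert hi, DK2b_add h, ih]

private theorem DK2b_card (n p : ℕ) : Nat.card (Fin n → ZMod p) = p ^ n := by
  rw [Nat.card_fun, Nat.card_zmod, Nat.card_fin]

theorem finrank_comp {K E : Type} [Field K] [NumberField K] [Field E] [NumberField E]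
    [Algebra K E] [IsGalois K E] {p n k : ℕ} [Fact p.Prime]
    (hζ : ∀ z : K, ¬ IsPrimitiveRoot z p) {T : Set (Pr K)} {ξ : Fin n → Pr K → ZMod p}
    {b : Fin k → Kˣ} {ζ : E} {β : Fin k → Eˣ}
    {θ : Fin n → (E ≃ₐ[K] E) →* Multiplicative (ZMod p)} (h : CompF T ξ b ζ β θ)
    (hξ : LinearIndependent (ZMod p) ξ)
    (hb : ∀ d : Fin k → ℕ, ∏ j, b j ^ d j ∈ PP K p → ∀ j, p ∣ d j) :
    Module.finrank K E = Module.finrank K (CyclotomicField p K) * p ^ n * p ^ k := by
  classical
  have hp : p.Prime := Fact.out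
  have hfin : FiniteDimensional K E := Module.Finite.of_restrictScalars_finite ℚ K E
  have hz := h.prim
  have hz1 : ζ ^ p = 1 := hz.pow_eq_one
  -- the stabilizer of the root of unity
  obtain ⟨H, hH⟩ : ∃ H : Subgroup (E ≃ₐ[K] E), H = (hz.autToPow K).ker := ⟨_, rfl⟩
  have hnH : H.Normal := by
    rw [hH]
    infer_instance
  have hmem : ∀ g : E ≃ₐ[K] E, g ∈ H ↔ g ζ = ζ := by
    intro g
    have h1 := hz.autToPow_spec K g
    rw [hH, MonoidHom.mem_ker]
    constructor
    · intro h
      rw [h, Units.val_one, ZMod.val_one'' hp.one_lt.ne', pow_one] at h1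
      exact h1.symm
    · intro h
      rw [h] at h1
      have h2 : ζ ^ ((hz.autToPow K g : (ZMod p)ˣ) : ZMod p).val = ζ ^ 1 := by rw [h1, pow_one]
      have h3 := hz.pow_inj (ZMod.val_lt _) hp.one_lt h2
      apply Units.ext
      rw [Units.val_one]
      have h4 : ((((hz.autToPow K g : (ZMod p)ˣ) : ZMod p).val : ℕ) : ZMod p) = ((1 : ℕ) : ZMod p) := by
        rw [h3]
      rwa [ZMod.natCast_zmod_val, Nat.cast_one] at h4
  obtain ⟨F₁, hF₁⟩ : ∃ F₁ : IntermediateField K E, F₁ = IntermediateField.adjoin K {ζ} := ⟨_, rfl⟩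
  have hζF : ζ ∈ F₁ := by
    rw [hF₁]
    exact IntermediateField.mem_adjoin_simple_self K ζ
  have hfix : F₁.fixingSubgroup = H := by
    apply le_antisymm
    · intro g hg
      rw [hmem]
      exact (IntermediateField.mem_fixingSubgroup_iff F₁ g).1 hg ζ hζF
    · rw [← IntermediateField.le_iff_le, hF₁, IntermediateField.adjoin_simple_le_iff,
        IntermediateField.mem_fixedField_iff]
      exact fun g hg => (hmem g).1 hg
  have hdeg : Module.finrank K F₁ = Module.finrank K (CyclotomicField p K) := by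
    have : NeZero p := ⟨hp.ne_zero⟩
    have hc : IsCyclotomicExtension {p} K F₁ := by
      rw [hF₁]
      exact hz.intermediateField_adjoin_isCyclotomicExtension K
    exact (IsCyclotomicExtension.algEquiv {p} K F₁ (CyclotomicField p K)).toLinearEquiv.finrank_eq
  have hcard1 : Module.finrank K E = Module.finrank K F₁ * Nat.card H := by
    rw [← hfix, IsGalois.card_fixingSubgroup_eq_finrank, Module.finrank_mul_finrank]
  have hidx : H.index ∣ p - 1 := by
    rw [hH, Subgroup.index_ker]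
    have h3 := Subgroup.card_subgroup_dvd_card (hz.autToPow K).range
    rwa [Nat.card_eq_fintype_card (α := (ZMod p)ˣ), ZMod.card_units p] at h3
  have hidx2 : Module.finrank K F₁ = H.index := by
    have h1 : Nat.card H * H.index = Module.finrank K E := by
      rw [Subgroup.card_mul_index, IsGalois.card_aut_eq_finrank]
    rw [hcard1, mul_comm] at h1
    exact (Nat.eq_of_mul_eq_mul_right Nat.card_pos h1).symm
  have hcop : ¬ p ∣ H.index := by
    intro h
    have := Nat.le_of_dvd (Nat.sub_pos_of_lt hp.one_lt) (h.trans hidx)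
    have := hp.one_lt
    omega
  -- the cocycles
  have hκ' : ∀ (j : Fin k) (g : E ≃ₐ[K] E), ∃ a : ZMod p, g (β j : E) = DK2b_pw ζ a * β j := by
    intro j g
    have hb0 : (β j : E) ≠ 0 := (β j).ne_zero
    have hr : (β j : E) ^ p = algebraMap K E (b j) := by
      rw [← Units.val_pow_eq_pow_val, h.root j, RG.H.emb_val]
    obtain ⟨a, ha⟩ := DK2b_ex hz (z := g (β j : E) / β j) (by
      rw [div_pow, ← map_pow, hr, AlgEquiv.commutes, div_self]
      rw [← hr]
      exact pow_ne_zero _ hb0)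
    exact ⟨a, by rw [← ha, div_mul_cancel₀ _ hb0]⟩
  choose κ hκ using hκ'
  have hχ' : ∀ g : E ≃ₐ[K] E, ∃ a : ZMod p, g ζ = DK2b_pw ζ a := fun g =>
    DK2b_ex hz (by rw [← map_pow, hz1, map_one])
  choose χ hχ using hχ'
  have hpw : ∀ (g : E ≃ₐ[K] E) (a : ZMod p), g (DK2b_pw ζ a) = DK2b_pw ζ (χ g * a) := by
    intro g a
    rw [DK2b_mul hz1, ← hχ]
    unfold DK2b_pw
    rw [map_pow]
  have hco : ∀ (j : Fin k) (g g' : E ≃ₐ[K] E), κ j (g * g') = χ g * κ j g' + κ j g := by
    intro j g g'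
    apply DK2b_inj hz
    apply mul_right_cancel₀ (b := (β j : E)) (β j).ne_zero
    rw [← hκ, AlgEquiv.mul_apply, hκ j g', map_mul, hpw, hκ j g, DK2b_add hz1, mul_assoc]
  have hχH : ∀ g ∈ H, χ g = 1 := by
    intro g hg
    apply DK2b_inj hz
    rw [← hχ, (hmem g).1 hg, DK2b_one]
  have hκ1 : ∀ j, κ j 1 = 0 := by
    intro j
    apply DK2b_inj hz
    apply mul_right_cancel₀ (b := (β j : E)) (β j).ne_zero
    rw [← hκ, DK2b_zero, one_mul, AlgEquiv.one_apply]
  -- the homomorphism
  obtain ⟨Ψ, hΨ⟩ : ∃ Ψ : Additive H →+ (Fin n → ZMod p) × (Fin k → ZMod p),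
      ∀ g : H, Ψ (Additive.ofMul g) = (fun i => Multiplicative.toAdd (θ i g), fun j => κ j g) := by
    refine ⟨{ toFun := fun g => (fun i => Multiplicative.toAdd (θ i (Additive.toMul g : H)),
                fun j => κ j (Additive.toMul g : H))
              map_zero' := ?_
              map_add' := ?_ }, fun g => rfl⟩
    · ext i
      · show Multiplicative.toAdd (θ i ((1 : H) : E ≃ₐ[K] E)) = 0
        rw [Subgroup.coe_one, map_one, toAdd_one]
      · show κ i ((1 : H) : E ≃ₐ[K] E) = 0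
        rw [Subgroup.coe_one, hκ1]
    · intro g g'
      ext i
      · show Multiplicative.toAdd (θ i ((Additive.toMul g * Additive.toMul g' : H) : E ≃ₐ[K] E)) =
          Multiplicative.toAdd (θ i (Additive.toMul g : H)) +
            Multiplicative.toAdd (θ i (Additive.toMul g' : H))
        rw [Subgroup.coe_mul, map_mul, toAdd_mul]
      · show κ i ((Additive.toMul g * Additive.toMul g' : H) : E ≃ₐ[K] E) =
          κ i (Additive.toMul g : H) + κ i (Additive.toMul g' : H)
        rw [Subgroup.coe_mul, hco, hχH _ (Additive.toMul g).2, one_mul, add_comm]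
  have hΨi : Function.Injective Ψ := by
    rw [injective_iff_map_eq_zero]
    intro g hg
    have h1 : Ψ (Additive.ofMul (Additive.toMul g)) = 0 := hg
    rw [hΨ, Prod.mk_eq_zero] at h1
    have h2 : ((Additive.toMul g : H) : E ≃ₐ[K] E) = 1 := by
      refine h.gen _ ((hmem _).1 (Additive.toMul g).2) (fun j => ?_) fun i => ?_
      · rw [hκ, congrFun h1.2 j, Pi.zero_apply, DK2b_zero, one_mul]
      · have h3 := congrFun h1.1 i
        rw [Pi.zero_apply, toAdd_eq_zero] at h3
        exact h3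
    have h3 : (Additive.toMul g : H) = 1 := Subtype.ext h2
    exact h3
  have hΨs : Function.Surjective Ψ := by
    by_contra hns
    have hlt : AddSubgroup.toZModSubmodule p Ψ.range < ⊤ := by
      rw [lt_top_iff_ne_top]
      intro htop
      apply hns
      intro y
      have h1 : y ∈ AddSubgroup.toZModSubmodule p Ψ.range := by
        rw [htop]
        exact Submodule.mem_top
      exact h1
    obtain ⟨f, hf0, hf⟩ := Submodule.exists_le_ker_of_lt_top _ hlt
    obtain ⟨c, hc⟩ : ∃ c : Fin n → ZMod p, ∀ x, f (x, 0) = ∑ i, x i * c i := by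
      refine ⟨fun i => (f ∘ₗ LinearMap.inl (ZMod p) _ _) (fun j => if i = j then 1 else 0),
        fun x => ?_⟩
      have h1 := LinearMap.pi_apply_eq_sum_univ (f ∘ₗ LinearMap.inl (ZMod p) _ _) x
      exact h1
    obtain ⟨d, hd⟩ : ∃ d : Fin k → ZMod p, ∀ y, f (0, y) = ∑ j, y j * d j := by
      refine ⟨fun i => (f ∘ₗ LinearMap.inr (ZMod p) _ _) (fun j => if i = j then 1 else 0),
        fun x => ?_⟩
      have h1 := LinearMap.pi_apply_eq_sum_univ (f ∘ₗ LinearMap.inr (ZMod p) _ _) x
      exact h1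
    have hsplit : ∀ x y, f (x, y) = ∑ i, x i * c i + ∑ j, y j * d j := by
      intro x y
      rw [← hc, ← hd, ← map_add, Prod.mk_add_mk, add_zero, zero_add]
    have hrel : ∀ g ∈ H, ∑ i, Multiplicative.toAdd (θ i g) * c i + ∑ j, κ j g * d j = 0 := by
      intro g hg
      have h1 : Ψ (Additive.ofMul ⟨g, hg⟩) ∈ AddSubgroup.toZModSubmodule p Ψ.range :=
        ⟨_, rfl⟩
      have h2 : f (Ψ (Additive.ofMul ⟨g, hg⟩)) = 0 := hf h1
      rw [hΨ, hsplit] at h2
      exact h2
    -- an automorphism which moves the root of unity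
    obtain ⟨τ, hτ⟩ : ∃ τ : E ≃ₐ[K] E, χ τ ≠ 1 := by
      by_contra hcon
      push Not at hcon
      have h1 : ζ ∈ IntermediateField.fixedField (⊤ : Subgroup (E ≃ₐ[K] E)) := by
        rw [IntermediateField.mem_fixedField_iff]
        intro g _
        rw [hχ, hcon, DK2b_one]
      rw [IsGalois.fixedField_top, IntermediateField.mem_bot] at h1
      obtain ⟨z, hz'⟩ := h1
      refine hζ z (IsPrimitiveRoot.of_map_of_injective (f := algebraMap K E) ?_
        (algebraMap K E).injective)
      rw [hz']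
      exact hz
    have hconj : ∀ g ∈ H, ∀ j, κ j (τ * g * τ⁻¹) = χ τ * κ j g := by
      intro g hg j
      have h1 := hco j τ τ⁻¹
      rw [mul_inv_cancel, hκ1] at h1
      rw [mul_assoc, hco, hco, hχH g hg]
      linear_combination -h1
    have hd0 : ∀ g ∈ H, ∑ j, κ j g * d j = 0 := by
      intro g hg
      have h1 := hrel g hg
      have h2 := hrel _ (hnH.conj_mem g hg τ)
      have h3 : ∀ i, Multiplicative.toAdd (θ i (τ * g * τ⁻¹)) = Multiplicative.toAdd (θ i g) := by
        intro i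
        have h4 : θ i (τ * g * τ⁻¹) = θ i g := by
          rw [map_mul (θ i), map_mul (θ i), map_inv (θ i), mul_comm (θ i τ), mul_inv_cancel_right]
        rw [h4]
      simp only [h3, hconj g hg] at h2
      have h4 : ∑ j, χ τ * κ j g * d j = χ τ * ∑ j, κ j g * d j := by
        rw [Finset.mul_sum]
        exact Finset.sum_congr rfl fun j _ => by ring
      rw [h4] at h2
      have h5 : (χ τ - 1) * ∑ j, κ j g * d j = 0 := by linear_combination h2 - h1
      exact (mul_eq_zero.1 h5).resolve_left (sub_ne_zero.2 hτ)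
    have hc0 : ∀ g ∈ H, ∑ i, Multiplicative.toAdd (θ i g) * c i = 0 := by
      intro g hg
      have h1 := hrel g hg
      rwa [hd0 g hg, add_zero] at h1
    -- the Kummer part
    have hdz : ∀ j, d j = 0 := by
      have hx : (∏ j, (β j : E) ^ (d j).val) ∈ F₁ := by
        rw [← IsGalois.fixedField_fixingSubgroup F₁, hfix, IntermediateField.mem_fixedField_iff]
        intro g hg
        rw [map_prod]
        have h1 : ∀ j ∈ (Finset.univ : Finset (Fin k)), g ((β j : E) ^ (d j).val) =
            DK2b_pw ζ (κ j g * d j) * (β j : E) ^ (d j).val := by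
          intro j _
          rw [map_pow, hκ, mul_pow, DK2b_mul hz1]
        rw [Finset.prod_congr rfl h1, Finset.prod_mul_distrib, DK2b_prod hz1, hd0 g hg, DK2b_zero,
          one_mul]
      have hxp : (∏ j, (β j : E) ^ (d j).val) ^ p =
          algebraMap K E ((∏ j, b j ^ (d j).val : Kˣ) : K) := by
        rw [← Finset.prod_pow, Units.coe_prod, map_prod]
        refine Finset.prod_congr rfl fun j _ => ?_
        rw [← pow_mul, mul_comm, pow_mul, ← Units.val_pow_eq_pow_val, h.root j, RG.H.emb_val,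
          Units.val_pow_eq_pow_val, map_pow]
      obtain ⟨B, hB⟩ : ∃ B : Kˣ, B = ∏ j, b j ^ (d j).val := ⟨_, rfl⟩
      rw [← hB] at hxp
      have hnorm : (Algebra.norm K (⟨_, hx⟩ : F₁)) ^ p = (B : K) ^ H.index := by
        rw [← map_pow, ← hidx2, ← Algebra.norm_algebraMap]
        congr 1
        apply Subtype.ext
        exact hxp
      have hBm : B ^ H.index ∈ PP K p := by
        have hn0 : Algebra.norm K (⟨_, hx⟩ : F₁) ≠ 0 := by
          intro h0
          rw [h0, zero_pow hp.ne_zero] at hnorm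
          exact pow_ne_zero _ B.ne_zero hnorm.symm
        refine RG.H.mem_PP.2 ⟨Units.mk0 _ hn0, ?_⟩
        ext
        rw [Units.val_pow_eq_pow_val, Units.val_mk0, hnorm, Units.val_pow_eq_pow_val]
      have hBp : B ^ p ∈ PP K p := RG.H.mem_PP.2 ⟨B, rfl⟩
      have hB1 : B ∈ PP K p := by
        have hcop' : IsCoprime (H.index : ℤ) (p : ℤ) :=
          Nat.isCoprime_iff_coprime.2 ((Nat.Prime.coprime_iff_not_dvd hp).2 hcop).symm
        obtain ⟨r, t, hrt⟩ := hcop'
        have e : B = (B ^ H.index) ^ r * (B ^ p) ^ t := by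
          rw [← zpow_natCast, ← zpow_natCast, ← zpow_mul, ← zpow_mul, ← zpow_add,
            mul_comm (H.index : ℤ) r, mul_comm (p : ℤ) t, hrt, zpow_one]
        rw [e]
        exact Subgroup.mul_mem _ (Subgroup.zpow_mem _ hBm r) (Subgroup.zpow_mem _ hBp t)
      intro j
      have h1 := hb (fun j => (d j).val) (hB ▸ hB1) j
      rw [← ZMod.natCast_zmod_val (d j)]
      exact (ZMod.natCast_eq_zero_iff _ _).2 h1
    -- the class field part
    have hcz : ∀ i, c i = 0 := by
      have hall : ∀ g : E ≃ₐ[K] E, ∑ i, Multiplicative.toAdd (θ i g) * c i = 0 := by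
        intro g
        have h1 := hc0 _ (Subgroup.pow_index_mem H g)
        have h2 : ∀ i, Multiplicative.toAdd (θ i (g ^ H.index)) =
            (H.index : ZMod p) * Multiplicative.toAdd (θ i g) := by
          intro i
          rw [map_pow, toAdd_pow, nsmul_eq_mul]
        simp only [h2] at h1
        have h3 : ∑ i, (H.index : ZMod p) * Multiplicative.toAdd (θ i g) * c i =
            (H.index : ZMod p) * ∑ i, Multiplicative.toAdd (θ i g) * c i := by
          rw [Finset.mul_sum]
          exact Finset.sum_congr rfl fun i _ => by ring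
        rw [h3] at h1
        refine (mul_eq_zero.1 h1).resolve_left fun h4 => hcop ?_
        exact (ZMod.natCast_eq_zero_iff _ _).1 h4
      have hlin := Fintype.linearIndependent_iff.1 hξ c
      apply hlin
      funext v
      rw [Finset.sum_apply]
      by_cases hv : v ∈ T
      · refine Finset.sum_eq_zero fun i _ => ?_
        rw [Pi.smul_apply, (h.fv i).zero v hv, smul_zero]
      · obtain ⟨w, rfl⟩ := RG.H.exists_above (L := E) v
        obtain ⟨g, hg⟩ := exists_frobK (K := K) w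
        rw [Pi.zero_apply, ← hall g]
        refine Finset.sum_congr rfl fun i _ => ?_
        rw [(h.fv i).frob w hv g hg, toAdd_ofAdd, Pi.smul_apply, smul_eq_mul, mul_comm]
    apply hf0
    ext x
    · simp [hcz, hc]
    · simp [hdz, hd]
  have hcard2 : Nat.card H = p ^ n * p ^ k := by
    rw [Nat.card_congr (Additive.ofMul (α := H)), Nat.card_congr (Equiv.ofBijective Ψ ⟨hΨi, hΨs⟩),
      Nat.card_prod, DK2b_card, DK2b_card]
  rw [hcard1, hcard2, hdeg, mul_assoc]

end Pool.Agent.RGK
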