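import Mathlib
import Pool.Agent.Lib.RG.H01
import Pool.Agent.Lib.RG.H04
import Pool.Agent.Lib.RG.H11
import Pool.Agent.Lib.RGK.DKDefs
import Pool.Agent.Lib.RGK.B1
import Pool.Agent.Lib.RGK.B2
import Pool.Agent.Lib.RGK.DK1

/-!
RG v4, row DK2c: the completely split primes of the field.

`F` := the primes of `T` (`T` finite), those above `p`, those with `vl v (b j) ≠ 0`, and those ramified in `E`
(`fin_ram`, H03). For `v ∉ F` and `w` above `v` the inertia group is trivial and the decomposition group is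
generated by the Frobenius `σ` (H04; any element of the decomposition group acts on the finite residue
field like a power of the Frobenius), so `v ∈ SplK K E` iff `σ = 1` (for one, equivalently all `w`; for all
`w` it is the statement for each `w`) iff `σ ζ = ζ`, `σ (β j) = β j`, `θ i σ = 1` (`gen`).
`σ ζ = ζ ^ (nm v)` (both are `p`-th roots of unity, congruent modulo `w`, `w ∤ p`), so `σ ζ = ζ` iff
`nm v % p = 1`. If so, `σ (β j) / β j` is a `p`-th root of unity congruent to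
`β j ^ (nm v - 1) = (b j) ^ ((nm v - 1) / p)` modulo `w`, so it is `1` iff `(b j) ^ ((nm v - 1) / p) ≡ 1`
modulo `v` iff (cyclic group of order `nm v - 1`) `b j` is a `p`-th power modulo `v` iff `b j ∈ PU p v`
(`vl v (b j) = 0`). `θ i σ = ξ i v` by `FV`.
-/

set_option autoImplicit false

namespace Pool.Agent.RGK

open NumberField IsDedekindDomain
open Pool.Agent.RG (Above IsDec IsInert IsFrob)
open Pool.Agent.RG.H (Pr vl UU PP SU ev below nrm emb NS)

private theorem dk2c_lt {z : WithZero (Multiplicative ℤ)} : z < 1 ↔ z ≤ WithZero.exp (-(((1 : ℕ) : ℤ))) := by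
  constructor
  · intro h
    by_cases h0 : z = 0
    · rw [h0]
      exact zero_le
    · rw [← WithZero.exp_log h0] at h ⊢
      rw [← WithZero.exp_zero, WithZero.exp_lt_exp] at h
      rw [WithZero.exp_le_exp]
      push_cast
      omega
  · intro h
    refine lt_of_le_of_lt h ?_
    rw [← WithZero.exp_zero, WithZero.exp_lt_exp]
    norm_num

private theorem dk2c_group {G : Type} [CommGroup G] [Finite G] [IsCyclic G] {p m : ℕ} (hp : 0 < p)
    (hG : Nat.card G = p * m) (x : G) : (∃ y : G, y ^ p = x) ↔ x ^ m = 1 := by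
  constructor
  · rintro ⟨y, rfl⟩
    rw [← pow_mul, ← hG, pow_card_eq_one']
  · intro h
    obtain ⟨g, hg⟩ := IsCyclic.exists_generator (α := G)
    obtain ⟨k, hk⟩ := mem_powers_iff_mem_zpowers.2 (hg x)
    have hk' : g ^ k = x := hk
    rw [← hk', ← pow_mul] at h
    have h1 : orderOf g = p * m := by
      rw [← hG]
      exact orderOf_eq_card_of_forall_mem_zpowers hg
    have h2 : p * m ∣ k * m := by
      rw [← h1]
      exact orderOf_dvd_of_pow_eq_one h
    have hm : 0 < m := by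
      have h3 : 0 < Nat.card G := Nat.card_pos
      rw [hG] at h3
      exact Nat.pos_of_mul_pos_left h3
    have h3 : p ∣ k := Nat.dvd_of_mul_dvd_mul_right hm h2
    obtain ⟨l, rfl⟩ := h3
    refine ⟨g ^ l, ?_⟩
    rw [← hk', ← pow_mul, mul_comm]

private theorem dk2c_cyc {K : Type} [Field K] [NumberField K] (v : Pr K) (I : Ideal (𝓞 K))
    (hI : I = v.asIdeal) : Finite (𝓞 K ⧸ I)ˣ ∧ IsCyclic (𝓞 K ⧸ I)ˣ ∧ Nat.card (𝓞 K ⧸ I)ˣ = nm v - 1 := by
  subst hI
  have : v.asIdeal.IsMaximal := v.isMaximal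
  have : Finite (𝓞 K ⧸ v.asIdeal) := Ideal.finiteQuotientOfFreeOfNeBot _ v.ne_bot
  let _ : Field (𝓞 K ⧸ v.asIdeal) := Ideal.Quotient.field _
  have h1 : Nat.card (𝓞 K ⧸ v.asIdeal) = nm v := by
    unfold nm
    rw [Ideal.absNorm_apply, Submodule.cardQuot_apply]
  have h2 : Nat.card (𝓞 K ⧸ v.asIdeal)ˣ = nm v - 1 := by
    rw [Nat.card_units, h1]
  exact ⟨inferInstance, inferInstance, h2⟩

private theorem dk2c_PU {K : Type} [Field K] [NumberField K] {p : ℕ} (hp : p.Prime) {v : Pr K}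
    {m : ℕ} (hv : nm v - 1 = p * m) {b : Kˣ} (hb : vl v b = 0) :
    b ∈ PU p v ↔ b ^ m ∈ UU v 1 := by
  obtain ⟨hfin, hcyc, hcard⟩ := dk2c_cyc v (v.asIdeal ^ 1) (pow_one _)
  rw [hv] at hcard
  have hle : UU v 1 ≤ RG.H.H11Aux.A v := RG.H.UU_mono v (Nat.zero_le 1)
  have hgrp := dk2c_group hp.pos hcard (RG.H.H11Aux.red v 1 ⟨b, RG.H.H11Aux.mem_A hb⟩)
  have h1 : b ^ m ∈ UU v 1 ↔ (RG.H.H11Aux.red v 1 ⟨b, RG.H.H11Aux.mem_A hb⟩) ^ m = 1 := by
    rw [← map_pow, RG.H.H11Aux.red_eq_one_iff]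
    rfl
  rw [h1, ← hgrp]
  unfold PU
  rw [Subgroup.mem_sup]
  constructor
  · rintro ⟨y, hy, z, hz, hyz⟩
    obtain ⟨t, rfl⟩ := RG.H.mem_PP.1 hy
    have ht : vl v t = 0 := by
      have h4 : vl v (t ^ p * z) = 0 := by rw [hyz]; exact hb
      rw [RG.H.vl_mul, RG.H.vl_pow, hz.1, add_zero, mul_eq_zero] at h4
      exact h4.resolve_left (by exact_mod_cast hp.ne_zero)
    refine ⟨RG.H.H11Aux.red v 1 ⟨t, RG.H.H11Aux.mem_A ht⟩, ?_⟩
    have h5 : (⟨b, RG.H.H11Aux.mem_A hb⟩ : RG.H.H11Aux.A v) = ⟨t, RG.H.H11Aux.mem_A ht⟩ ^ p * ⟨z, hle hz⟩ :=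
      Subtype.ext hyz.symm
    rw [h5, map_mul, map_pow, (RG.H.H11Aux.red_eq_one_iff v 1 ⟨z, hle hz⟩).2 hz, mul_one]
  · rintro ⟨c, hc⟩
    obtain ⟨y, rfl⟩ := RG.H.H11Aux.red_surjective v le_rfl c
    have h4 : RG.H.H11Aux.red v 1 (⟨b, RG.H.H11Aux.mem_A hb⟩ / y ^ p) = 1 := by
      rw [map_div, map_pow, ← hc]
      exact div_self' _
    have h5 := (RG.H.H11Aux.red_eq_one_iff v 1 _).1 h4
    exact ⟨(y : Kˣ) ^ p, RG.H.mem_PP.2 ⟨_, rfl⟩, _, h5, by simp⟩

/-- A `p`-th root of unity which is congruent to `1` modulo a prime not above `p` is `1`. -/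
private theorem dk2c_root {E : Type} [Field E] [NumberField E] {p : ℕ} (hp : p.Prime) {w : Pr E}
    (hw : ¬ Above w p) {z : E} (hz : z ^ p = 1) (h : w.valuation E (z - 1) < 1) : z = 1 := by
  by_contra hne
  apply hw
  have h1 : w.valuation E z = 1 := by
    have h2 : w.valuation E z ^ p = 1 := by rw [← map_pow, hz, map_one]
    exact (pow_eq_one_iff.1 h2).resolve_right hp.ne_zero
  have hgeom : ∑ i ∈ Finset.range p, z ^ i = 0 := by
    have h3 := geom_sum_mul z p
    rw [hz, sub_self] at h3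
    exact (mul_eq_zero.1 h3).resolve_right (sub_ne_zero.2 hne)
  have h4 : (p : E) = -∑ i ∈ Finset.range p, (z ^ i - 1) := by
    rw [Finset.sum_sub_distrib, hgeom, Finset.sum_const, Finset.card_range, nsmul_eq_mul, mul_one]
    ring
  unfold Above
  rw [h4, Valuation.map_neg]
  refine Valuation.map_sum_lt _ one_ne_zero fun i _ => ?_
  have h5 : z ^ i - 1 = (∑ j ∈ Finset.range i, z ^ j) * (z - 1) := (geom_sum_mul z i).symm
  rw [h5, map_mul]
  have h6 : w.valuation E (∑ j ∈ Finset.range i, z ^ j) ≤ 1 := by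
    refine Valuation.map_sum_le _ fun j _ => ?_
    rw [map_pow, h1, one_pow]
  exact lt_of_le_of_lt (mul_le_of_le_one_left' h6) h

private theorem dk2c_fix {K E : Type} [Field K] [NumberField K] [Field E] [NumberField E]
    [Algebra K E] {p N : ℕ} (hp : p.Prime) {w : Pr E} (hw : ¬ Above w p) {σ : E ≃ₐ[K] E}
    (hσ : IsFrob w N σ) {z : E} (hz : w.valuation E z = 1) (hzp : (σ z / z) ^ p = 1) :
    σ z = z ↔ w.valuation E (z ^ N - z) < 1 := by
  have h1 : w.valuation E (σ z - z ^ N) < 1 := hσ.2 z hz.le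
  have hz0 : z ≠ 0 := by
    rintro rfl
    rw [map_zero] at hz
    exact zero_ne_one hz
  constructor
  · intro h
    rw [h] at h1
    rw [Valuation.map_sub_swap]
    exact h1
  · intro h
    have h2 : w.valuation E (σ z / z - 1) < 1 := by
      have h3 : σ z / z - 1 = (σ z - z ^ N + (z ^ N - z)) / z := by
        field_simp
        ring
      rw [h3, map_div₀, hz, div_one]
      exact Valuation.map_add_lt _ h1 h
    have h4 := dk2c_root hp hw hzp h2
    rwa [div_eq_one_iff_eq hz0] at h4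

private theorem dk2c_shift {E : Type} [Field E] [NumberField E] {N : ℕ} (hN : 0 < N) {w : Pr E}
    {z : E} (hz : w.valuation E z = 1) :
    w.valuation E (z ^ N - z) < 1 ↔ w.valuation E (z ^ (N - 1) - 1) < 1 := by
  have h1 : z ^ N - z = (z ^ (N - 1) - 1) * z := by
    rw [sub_mul, one_mul, ← pow_succ, Nat.sub_add_cancel hN]
  rw [h1, map_mul, hz, mul_one]

theorem split_comp {K E : Type} [Field K] [NumberField K] [Field E] [NumberField E]
    [Algebra K E] [IsGalois K E] {p n k : ℕ} [Fact p.Prime] {T : Set (Pr K)} (hT : T.Finite)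
    {ξ : Fin n → Pr K → ZMod p} {b : Fin k → Kˣ} {ζ : E} {β : Fin k → Eˣ}
    {θ : Fin n → (E ≃ₐ[K] E) →* Multiplicative (ZMod p)} (h : CompF T ξ b ζ β θ) :
    ∃ F : Finset (Pr K), ∀ v ∉ F, (v ∈ SplK K E ↔
      nm v % p = 1 ∧ (∀ i, ξ i v = 0) ∧ ∀ j, b j ∈ PU p v) := by
  classical
  have hp : p.Prime := Fact.out
  obtain ⟨Fp, hFp⟩ := RG.H.fin_above (K := K) p hp.ne_zero
  have hFb : ∀ j, ∃ S : Finset (Pr K), ∀ v ∉ S, vl v (b j) = 0 := fun j => by
    obtain ⟨S, hS⟩ := RG.H.fin_vl (b j)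
    exact ⟨S, fun v hv => RG.H.mem_SU.1 hS v hv⟩
  choose Fb hFb using hFb
  have hram : ((fun w : Pr E => (below w : Pr K)) ''
      {w : Pr E | ∃ σ : E ≃ₐ[K] E, σ ≠ 1 ∧ IsInert w σ}).Finite := RG.H.fin_ram.image _
  refine ⟨hT.toFinset ∪ Fp ∪ Finset.univ.biUnion Fb ∪ hram.toFinset, fun v hv => ?_⟩
  simp only [Finset.mem_union, Set.Finite.mem_toFinset, Finset.mem_biUnion, Finset.mem_univ,
    true_and, not_or, not_exists] at hv
  obtain ⟨⟨⟨hvT, hvp⟩, hvb⟩, hvr⟩ := hv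
  have hpv : ¬ Above v p := fun h1 => hvp (hFp v h1)
  have hbv : ∀ j, vl v (b j) = 0 := fun j => hFb j v (hvb j)
  have hin : ∀ w : Pr E, (below w : Pr K) = v → ∀ σ : E ≃ₐ[K] E, IsInert w σ → σ = 1 := by
    intro w hw σ hσ
    by_contra hne
    exact hvr ⟨w, ⟨σ, hne, hσ⟩, hw⟩
  have hN0 : 0 < nm v := Nat.pos_of_ne_zero (mt Ideal.absNorm_eq_zero_iff.1 v.ne_bot)
  -- facts about the primes above
  have hlies : ∀ w : Pr E, (below w : Pr K) = v → RG.Lies (algebraMap K E) w v := fun w hw =>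
    (lies_iff_below w v).2 hw
  have hpw : ∀ w : Pr E, (below w : Pr K) = v → ¬ Above w p := fun w hw h1 =>
    hpv (((hlies w hw).above_iff p).1 h1)
  have hζ1 : ∀ w : Pr E, w.valuation E ζ = 1 := by
    intro w
    have h2 : w.valuation E ζ ^ p = 1 := by rw [← map_pow, h.prim.pow_eq_one, map_one]
    exact (pow_eq_one_iff.1 h2).resolve_right hp.ne_zero
  have hβp : ∀ j, (β j : E) ^ p = algebraMap K E (b j : K) := by
    intro j
    rw [← Units.val_pow_eq_pow_val, h.root j, RG.H.emb_val]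
  have hβ1 : ∀ w : Pr E, (below w : Pr K) = v → ∀ j, w.valuation E (β j : E) = 1 := by
    intro w hw j
    have h1 : v.valuation K (b j : K) = 1 := RG.H.vl_eq_zero.1 (hbv j)
    have h2 := hlies w hw (b j : K)
    have h3 : w.valuation E (algebraMap K E (b j : K)) = 1 := by
      refine le_antisymm (h2.1.2 h1.le) (not_lt.1 fun h4 => ?_)
      exact (h2.2.1 h4).ne h1
    have h5 : w.valuation E (β j : E) ^ p = 1 := by rw [← map_pow, hβp j, h3]
    exact (pow_eq_one_iff.1 h5).resolve_right hp.ne_zero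
  have hζq : ∀ σ : E ≃ₐ[K] E, (σ ζ / ζ) ^ p = 1 := by
    intro σ
    rw [div_pow, ← map_pow, h.prim.pow_eq_one, map_one, div_one]
  have hβq : ∀ (σ : E ≃ₐ[K] E) (j : Fin k), (σ (β j : E) / (β j : E)) ^ p = 1 := by
    intro σ j
    rw [div_pow, ← map_pow, hβp j, σ.commutes, div_self]
    rw [← hβp j]
    exact pow_ne_zero _ (β j).ne_zero
  -- the local condition at `b j`
  have hPU : ∀ w : Pr E, (below w : Pr K) = v → ∀ j, ∀ m : ℕ, nm v - 1 = p * m →
      (b j ∈ PU p v ↔ w.valuation E ((β j : E) ^ nm v - (β j : E)) < 1) := by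
    intro w hw j m hm
    rw [dk2c_PU hp hm (hbv j), dk2c_shift hN0 (hβ1 w hw j), hm, pow_mul, hβp j, ← map_pow]
    have e : algebraMap K E ((b j : K) ^ m) - 1 = algebraMap K E ((b j : K) ^ m - 1) := by
      rw [map_sub, map_one]
    rw [e, (hlies w hw _).2, RG.H.mem_UU, RG.H.vl_pow, hbv j, mul_zero, dk2c_lt,
      Units.val_pow_eq_pow_val]
    exact ⟨fun h1 => h1.2, fun h1 => ⟨rfl, h1⟩⟩
  constructor
  · intro hv
    obtain ⟨w, hw⟩ := RG.H.exists_above (K := K) (L := E) v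
    obtain ⟨σ, hσ⟩ := exists_frobK (K := K) w
    rw [hw] at hσ
    have hσ1 : σ = 1 := hv w hw σ hσ.1
    have hζσ := (dk2c_fix hp (hpw w hw) hσ (hζ1 w) (hζq σ)).1 (by rw [hσ1]; rfl)
    rw [dk2c_shift hN0 (hζ1 w)] at hζσ
    have hN1 : ζ ^ (nm v - 1) = 1 := by
      refine dk2c_root hp (hpw w hw) ?_ hζσ
      rw [← pow_mul, mul_comm, pow_mul, h.prim.pow_eq_one, one_pow]
    have hdvd : p ∣ nm v - 1 := h.prim.dvd_of_pow_eq_one _ hN1
    obtain ⟨m, hm⟩ := hdvd
    refine ⟨?_, fun i => ?_, fun j => ?_⟩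
    · have h2 : nm v = 1 + p * m := by omega
      rw [h2, Nat.add_mul_mod_self_left]
      exact Nat.mod_eq_of_lt hp.one_lt
    · have h2 := (h.fv i).frob w (by rw [hw]; exact hvT) σ (by rw [hw]; exact hσ)
      rw [hσ1, map_one, hw] at h2
      exact (Multiplicative.ofAdd.injective h2).symm
    · rw [hPU w hw j m hm]
      exact (dk2c_fix hp (hpw w hw) hσ (hβ1 w hw j) (hβq σ j)).1 (by rw [hσ1]; rfl)
  · rintro ⟨h1, h2, h3⟩ w hw τ hτ
    obtain ⟨σ, hσ⟩ := exists_frobK (K := K) w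
    have hσ' := hσ
    rw [hw] at hσ'
    have hm : nm v - 1 = p * (nm v / p) := by
      have h4 := Nat.div_add_mod (nm v) p
      rw [h1] at h4
      omega
    have hσ1 : σ = 1 := by
      apply h.gen
      · rw [dk2c_fix hp (hpw w hw) hσ' (hζ1 w) (hζq σ), dk2c_shift hN0 (hζ1 w), hm, pow_mul,
          h.prim.pow_eq_one, one_pow, sub_self, map_zero]
        exact zero_lt_one
      · intro j
        rw [dk2c_fix hp (hpw w hw) hσ' (hβ1 w hw j) (hβq σ j), ← hPU w hw j _ hm]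
        exact h3 j
      · intro i
        have h4 := (h.fv i).frob w (by rw [hw]; exact hvT) σ hσ
        rw [h4, hw, h2 i]
        rfl
    obtain ⟨l, hl⟩ := dec_frob hσ hτ
    have h5 := hin w hw _ hl
    rw [hσ1, one_pow, mul_one, inv_eq_one] at h5
    exact h5

end Pool.Agent.RGK
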