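import Mathlib
import Pool.Agent.Lib.RG.H01
import Pool.Agent.Lib.RG.H10
import Pool.Agent.Lib.RG.H14
import Pool.Agent.Lib.RGK.XDefs
import Pool.Agent.Lib.RGK.X2

/-!
RG v4, row X3b: `GC p T` and `RC p T`.

`RC_of_GC`: `ξ v := (f v).ev (piv v)` outside `T`, `unram_iff`; if `x ∈ UU t 1` for `t ∈ T` then the terms
at `T` vanish.
`GC_of_RC`: for `t ∈ T` put `f t x := - ∑ᶠ v, vl v y * ξ v` where `y` is any element with `y / x ∈ UU t 1`
and `y ∈ UU t' 1` for the other `t' ∈ T` (`H.weak_approx`); independent of `y` because `ξ ∈ RC p T`.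
-/

set_option autoImplicit false

namespace Pool.Agent.RGK

open NumberField IsDedekindDomain
open Pool.Agent.RG (Above IsDec IsInert IsFrob)
open Pool.Agent.RG.H (Pr vl UU PP SU ev below nrm emb NS)

variable {K : Type} [Field K] [NumberField K]

omit [NumberField K] in
private theorem ev_mul_X3b {p : ℕ} (f : Hm K p) (x y : Kˣ) : f.ev (x * y) = f.ev x + f.ev y := by
  unfold Hm.ev
  rw [ofMul_mul, map_add]

private theorem fin_X3b (p : ℕ) (x : Kˣ) (η : Pr K → ZMod p) :
    (Function.support fun v => ((vl v x : ℤ) : ZMod p) * η v).Finite := by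
  obtain ⟨S, hS⟩ := RG.H.fin_vl x
  refine S.finite_toSet.subset fun v hv => ?_
  by_contra hvS
  rw [Function.mem_support] at hv
  exact hv (by rw [RG.H.mem_SU.1 hS v hvS, Int.cast_zero, zero_mul])

theorem RC_of_GC {p : ℕ} [Fact p.Prime] {T : Set (Pr K)} {f : Pr K → Hm K p} (hf : f ∈ GC p T) :
    ∃ ξ ∈ RC p T, ∀ v ∉ T, f v = ξ v • vp p v := by
  classical
  obtain ⟨h1, h2, h3, h4⟩ := hf
  refine ⟨fun v => if v ∈ T then 0 else (f v).ev (piv v), ⟨?_, ?_⟩, ?_⟩
  · intro v hv
    exact if_pos hv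
  · intro x hx
    refine Eq.trans (finsum_congr fun v => ?_) (h4 x)
    show ((vl v x : ℤ) : ZMod p) * (if v ∈ T then 0 else (f v).ev (piv v)) = (f v).ev x
    by_cases hv : v ∈ T
    · rw [if_pos hv, mul_zero]
      exact (h2 v hv x (hx v hv)).symm
    · rw [if_neg hv]
      conv_rhs => rw [unram_iff.1 (h1 v hv)]
      show ((vl v x : ℤ) : ZMod p) * (f v).ev (piv v) =
        (f v).ev (piv v) * ((vl v x : ℤ) : ZMod p)
      rw [mul_comm]
  · intro v hv
    show f v = (if v ∈ T then 0 else (f v).ev (piv v)) • vp p v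
    rw [if_neg hv]
    exact unram_iff.1 (h1 v hv)

/-- the pairing with `ξ` -/
private noncomputable def Lam_X3b (p : ℕ) (ξ : Pr K → ZMod p) (x : Kˣ) : ZMod p :=
  ∑ᶠ v, ((vl v x : ℤ) : ZMod p) * ξ v

private theorem Lam_mul_X3b {p : ℕ} (ξ : Pr K → ZMod p) (x y : Kˣ) :
    Lam_X3b p ξ (x * y) = Lam_X3b p ξ x + Lam_X3b p ξ y := by
  unfold Lam_X3b
  rw [← finsum_add_distrib (fin_X3b p x ξ) (fin_X3b p y ξ)]
  refine finsum_congr fun v => ?_
  rw [RG.H.vl_mul, Int.cast_add, add_mul]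

private theorem Lam_one_X3b {p : ℕ} (ξ : Pr K → ZMod p) : Lam_X3b (K := K) p ξ 1 = 0 := by
  have h := Lam_mul_X3b (K := K) ξ 1 1
  rw [mul_one] at h
  exact (add_eq_left.1 h.symm)

private theorem Lam_div_X3b {p : ℕ} (ξ : Pr K → ZMod p) (x y : Kˣ) :
    Lam_X3b p ξ (x / y) = Lam_X3b p ξ x - Lam_X3b p ξ y := by
  have h := Lam_mul_X3b ξ (x / y) y
  rw [div_mul_cancel] at h
  rw [h, add_sub_cancel_right]

private theorem Lam_prod_X3b {p : ℕ} (ξ : Pr K → ZMod p) (S : Finset (Pr K)) (y : Pr K → Kˣ) :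
    Lam_X3b p ξ (∏ t ∈ S, y t) = ∑ t ∈ S, Lam_X3b p ξ (y t) := by
  classical
  induction S using Finset.induction_on with
  | empty => rw [Finset.prod_empty, Finset.sum_empty, Lam_one_X3b]
  | insert t S ht ih => rw [Finset.prod_insert ht, Finset.sum_insert ht, Lam_mul_X3b, ih]

theorem GC_of_RC {p : ℕ} [Fact p.Prime] {T : Set (Pr K)} (hT : T.Finite) {ξ : Pr K → ZMod p}
    (hξ : ξ ∈ RC p T) : ∃ f ∈ GC p T, ∀ v ∉ T, f v = ξ v • vp p v := by
  classical
  obtain ⟨hξ1, hξ2⟩ := hξ
  have hL0 : ∀ x : Kˣ, (∀ v ∈ T, x ∈ UU v 1) → Lam_X3b p ξ x = 0 := hξ2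
  -- the approximation
  have hex : ∀ (t : Pr K) (x : Kˣ), ∃ y : Kˣ, ∀ v ∈ T, y / (if v = t then x else 1) ∈ UU v 1 := by
    intro t x
    obtain ⟨y, hy⟩ := RG.H.weak_approx hT.toFinset (fun v => if v = t then x else 1) 1
    exact ⟨y, fun v hv => hy v (hT.mem_toFinset.2 hv)⟩
  choose Y hY using hex
  have hind : ∀ (t : Pr K) (x y : Kˣ), (∀ v ∈ T, y / (if v = t then x else 1) ∈ UU v 1) →
      Lam_X3b p ξ y = Lam_X3b p ξ (Y t x) := by
    intro t x y hy
    have h1 : Lam_X3b p ξ (y / Y t x) = 0 := by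
      refine hL0 _ fun v hv => ?_
      have h2 := (UU v 1).div_mem (hy v hv) (hY t x v hv)
      rwa [div_div_div_cancel_right] at h2
    rw [Lam_div_X3b, sub_eq_zero] at h1
    exact h1
  let φ : Pr K → Hm K p := fun t =>
    { toFun := fun x => -Lam_X3b p ξ (Y t (Additive.toMul x))
      map_zero' := by
        rw [toMul_zero, ← hind t 1 1 fun v _ => ?_, Lam_one_X3b, neg_zero]
        rw [ite_self, div_one]
        exact (UU v 1).one_mem
      map_add' := fun x x' => by
        rw [toMul_add, ← hind t _ (Y t (Additive.toMul x) * Y t (Additive.toMul x')) fun v hv => ?_,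
          Lam_mul_X3b, neg_add]
        have h2 := (UU v 1).mul_mem (hY t (Additive.toMul x) v hv) (hY t (Additive.toMul x') v hv)
        rw [div_mul_div_comm] at h2
        by_cases hvt : v = t
        · rw [if_pos hvt, if_pos hvt] at h2
          rw [if_pos hvt]
          exact h2
        · rw [if_neg hvt, if_neg hvt, mul_one] at h2
          rw [if_neg hvt]
          exact h2 }
  have hφ : ∀ t x, (φ t).ev x = -Lam_X3b p ξ (Y t x) := fun t x => rfl
  have hfv : ∀ v x, ((if v ∈ T then φ v else ξ v • vp p v) : Hm K p).ev x =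
      ((vl v x : ℤ) : ZMod p) * ξ v + if v ∈ T then -Lam_X3b p ξ (Y v x) else 0 := by
    intro v x
    by_cases hv : v ∈ T
    · rw [if_pos hv, if_pos hv, hφ, hξ1 v hv, mul_zero, zero_add]
    · rw [if_neg hv, if_neg hv, add_zero]
      show ξ v * ((vl v x : ℤ) : ZMod p) = _
      rw [mul_comm]
  have hsup : ∀ x : Kˣ, (Function.support fun v : Pr K =>
      (if v ∈ T then -Lam_X3b p ξ (Y v x) else 0)).Finite := by
    intro x
    refine hT.subset fun v hv => ?_
    by_contra hvT
    rw [Function.mem_support, if_neg hvT] at hv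
    exact hv rfl
  refine ⟨fun v => if v ∈ T then φ v else ξ v • vp p v, ⟨?_, ?_, ?_, ?_⟩, ?_⟩
  · intro v hv x hx
    show ((if v ∈ T then φ v else ξ v • vp p v) : Hm K p).ev x = 0
    rw [hfv, if_neg hv, hx.1, Int.cast_zero, zero_mul, add_zero]
  · intro v hv x hx
    show ((if v ∈ T then φ v else ξ v • vp p v) : Hm K p).ev x = 0
    rw [if_pos hv, hφ]
    have h1 : Lam_X3b p ξ (Y v x) = 0 := by
      refine hL0 _ fun w hw => ?_
      have h2 := hY v x w hw
      by_cases hwv : w = v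
      · rw [if_pos hwv] at h2
        have h3 : x ∈ UU w 1 := by rw [hwv]; exact hx
        have h4 := (UU w 1).mul_mem h2 h3
        rwa [div_mul_cancel] at h4
      · rw [if_neg hwv, div_one] at h2
        exact h2
    rw [h1, neg_zero]
  · intro x
    show (Function.support fun v => ((if v ∈ T then φ v else ξ v • vp p v) : Hm K p).ev x).Finite
    simp only [hfv]
    exact ((fin_X3b p x ξ).union (hsup x)).subset (Function.support_add _ _)
  · intro x
    show ∑ᶠ v, ((if v ∈ T then φ v else ξ v • vp p v) : Hm K p).ev x = 0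
    simp only [hfv]
    rw [finsum_add_distrib (fin_X3b p x ξ) (hsup x)]
    have e1 : (∑ᶠ v : Pr K, if v ∈ T then -Lam_X3b p ξ (Y v x) else 0) =
        ∑ v ∈ hT.toFinset, -Lam_X3b p ξ (Y v x) := by
      rw [finsum_eq_sum_of_support_subset (s := hT.toFinset)]
      · exact Finset.sum_congr rfl fun v hv => if_pos (hT.mem_toFinset.1 hv)
      · intro v hv
        rw [Finset.mem_coe, hT.mem_toFinset]
        by_contra hvT
        rw [Function.mem_support, if_neg hvT] at hv
        exact hv rfl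
    rw [e1, Finset.sum_neg_distrib, ← Lam_prod_X3b, ← sub_eq_add_neg]
    show Lam_X3b p ξ x - Lam_X3b p ξ (∏ v ∈ hT.toFinset, Y v x) = 0
    rw [← Lam_div_X3b]
    refine hL0 _ fun w hw => ?_
    have hwT : w ∈ hT.toFinset := hT.mem_toFinset.2 hw
    rw [← Finset.mul_prod_erase _ _ hwT, ← div_div]
    refine (UU w 1).div_mem ?_ ((UU w 1).prod_mem fun v hv => ?_)
    · have h2 := hY w x w hw
      rw [if_pos rfl] at h2
      have h3 := (UU w 1).inv_mem h2
      rwa [inv_div] at h3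
    · have h2 := hY v x w hw
      rw [if_neg (Finset.ne_of_mem_erase hv).symm, div_one] at h2
      exact h2
  · intro v hv
    show (if v ∈ T then φ v else ξ v • vp p v) = _
    rw [if_neg hv]

end Pool.Agent.RGK
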