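import Mathlib
import Pool.Agent.Lib.RGK.DKDefs
import Pool.Agent.Lib.RGK.X2
import Pool.Agent.Lib.RGK.X3
import Pool.Agent.Lib.RGK.X3b
import Pool.Agent.Lib.RGK.DK0
import Pool.Agent.Lib.RGK.DK1
import Pool.Agent.Lib.RGK.DK2a
import Pool.Agent.Lib.RGK.DK2b
import Pool.Agent.Lib.RGK.DK2c

/-!
RG v4, row DK3: the density theorem.

Let `f i` (`i : Fin n`) be a basis of the finite-dimensional `Λ` (`finite_GC`), `ξ i ∈ RC p T` with
`f i v = ξ i v • vp p v` for `v ∉ T` (`RC_of_GC`); the `ξ i` are linearly independent (a relation between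
them is one between the `f i` outside `T`, use `GC.ext_off`). `B / PP` is a finite elementary abelian
`p`-group; let `b j` (`j : Fin k`) be lifts of a basis: `B = PP ⊔ closure (range b)`,
`(PP).relIndex B = p ^ k`, and `∏ b j ^ d j ∈ PP → ∀ j, p ∣ d j`. Apply `exists_comp`, `finrank_comp`,
`split_comp`, `hasDK_split` and `HasDK.congr`: outside a finite set `v ∈ DS p Λ B` iff `nm v % p = 1`,
all `ξ i v = 0` (`vp p v ≠ 0`), all `b j ∈ PU p v`.
-/

set_option autoImplicit false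

namespace Pool.Agent.RGK

open NumberField IsDedekindDomain
open Pool.Agent.RG (Above IsDec IsInert IsFrob)
open Pool.Agent.RG.H (Pr vl UU PP SU ev below nrm emb NS)

/-- a basis of a finite elementary abelian group -/
private theorem DK3_lin0 {A : Type} [AddCommGroup A] [Finite A] {p : ℕ} [Fact p.Prime]
    [Module (ZMod p) A] : ∃ (k : ℕ) (e : Fin k → A), Nat.card A = p ^ k ∧
      (∀ a, ∃ c : Fin k → ℕ, a = ∑ j, c j • e j) ∧
      ∀ d : Fin k → ℕ, ∑ j, d j • e j = 0 → ∀ j, p ∣ d j := by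
  classical
  have hMF : Module.Finite (ZMod p) A := Module.Finite.of_finite
  let bs := Module.finBasis (ZMod p) A
  refine ⟨Module.finrank (ZMod p) A, bs, ?_, fun a => ⟨fun j => (bs.repr a j).val, ?_⟩,
    fun d hd j => ?_⟩
  · have h1 := Module.natCard_eq_pow_finrank (K := ZMod p) (V := A)
    rwa [Nat.card_zmod] at h1
  · have h2 := bs.sum_repr a
    conv_lhs => rw [← h2]
    refine Finset.sum_congr rfl fun j _ => ?_
    rw [← Nat.cast_smul_eq_nsmul (ZMod p), ZMod.natCast_zmod_val]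
  · have h3 : ∑ j, ((d j : ℕ) : ZMod p) • bs j = 0 := by
      rw [← hd]
      refine Finset.sum_congr rfl fun j _ => ?_
      rw [Nat.cast_smul_eq_nsmul]
    have h4 := Fintype.linearIndependent_iff.1 bs.linearIndependent _ h3
    exact (ZMod.natCast_eq_zero_iff _ _).1 (h4 j)

private theorem DK3_lin {A : Type} [AddCommGroup A] [Finite A] {p : ℕ} [Fact p.Prime]
    (h : ∀ a : A, p • a = 0) : ∃ (k : ℕ) (e : Fin k → A), Nat.card A = p ^ k ∧
      (∀ a, ∃ c : Fin k → ℕ, a = ∑ j, c j • e j) ∧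
      ∀ d : Fin k → ℕ, ∑ j, d j • e j = 0 → ∀ j, p ∣ d j :=
  @DK3_lin0 A _ _ p _ (AddCommGroup.zmodModule h)

/-- Lifts of a basis of `B / P`, a finite elementary abelian `p`-group. -/
private theorem DK3_basis {G : Type} [CommGroup G] {p : ℕ} [Fact p.Prime] (P B : Subgroup G)
    (hpow : ∀ x : G, x ^ p ∈ P) (hfin : P.relIndex B ≠ 0) :
    ∃ (k : ℕ) (b : Fin k → G), (∀ Q : Subgroup G, P ≤ Q → (B ≤ Q ↔ ∀ j, b j ∈ Q)) ∧
      P.relIndex B = p ^ k ∧ ∀ d : Fin k → ℕ, ∏ j, b j ^ d j ∈ P → ∀ j, p ∣ d j := by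
  classical
  have hp : p.Prime := Fact.out
  set N : Subgroup B := P.subgroupOf B with hN
  have hidx : N.index = P.relIndex B := rfl
  have hfinQ : Finite (B ⧸ N) := by
    apply Nat.finite_of_card_ne_zero
    rw [← Subgroup.index_eq_card, hidx]
    exact hfin
  have hexp : ∀ a : Additive (B ⧸ N), p • a = 0 := by
    intro a
    obtain ⟨y, hy⟩ := QuotientGroup.mk'_surjective N (Additive.toMul a)
    apply Additive.toMul.injective
    rw [toMul_nsmul, ← hy, ← map_pow, toMul_zero]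
    exact (QuotientGroup.eq_one_iff _).2 (hpow (y : G))
  have hfinA : Finite (Additive (B ⧸ N)) := hfinQ
  obtain ⟨k, e, hcard, hspan, hind⟩ := DK3_lin hexp
  choose y hy using fun j => QuotientGroup.mk'_surjective N (Additive.toMul (e j))
  have hcoe : ∀ d : Fin k → ℕ, ((∏ j, y j ^ d j : B) : G) = ∏ j, (y j : G) ^ d j := by
    intro d
    simp only [Subgroup.val_finsetProd, Subgroup.coe_pow]
  have hmap : ∀ d : Fin k → ℕ, QuotientGroup.mk' N (∏ j, y j ^ d j) =
      Additive.toMul (∑ j, d j • e j) := by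
    intro d
    rw [map_prod, toMul_sum]
    refine Finset.prod_congr rfl fun j _ => ?_
    rw [map_pow, hy, toMul_nsmul]
  refine ⟨k, fun j => (y j : G), fun Q hQ => ⟨fun h j => h (y j).2, fun h x hx => ?_⟩, ?_, ?_⟩
  · obtain ⟨c, hc⟩ := hspan (Additive.ofMul (QuotientGroup.mk' N ⟨x, hx⟩))
    have h3 := hmap c
    rw [← hc] at h3
    have h4 : QuotientGroup.mk' N (∏ j, y j ^ c j) = QuotientGroup.mk' N ⟨x, hx⟩ := h3
    have h5 := (QuotientGroup.eq (s := N)).1 h4
    have h6 : (∏ j, (y j : G) ^ c j)⁻¹ * x ∈ P := by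
      rw [← hcoe]
      exact h5
    have h7 : x = (∏ j, (y j : G) ^ c j) * ((∏ j, (y j : G) ^ c j)⁻¹ * x) := by
      rw [mul_inv_cancel_left]
    rw [h7]
    exact Q.mul_mem (Q.prod_mem fun j _ => Q.pow_mem (h j) _) (hQ h6)
  · rw [← hidx, Subgroup.index_eq_card]
    exact hcard
  · intro d hd
    have h1 : (∏ j, y j ^ d j : B) ∈ N := by
      rw [hN, Subgroup.mem_subgroupOf, hcoe]
      exact hd
    have h2 : QuotientGroup.mk' N (∏ j, y j ^ d j) = 1 := (QuotientGroup.eq_one_iff _).2 h1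
    rw [hmap] at h2
    exact hind d h2

theorem density_DS {K : Type} [Field K] [NumberField K] {p : ℕ} [Fact p.Prime]
    (hζ : ∀ z : K, ¬ IsPrimitiveRoot z p)
    (hEX : ∀ T : Set (Pr K), T.Finite → (∀ v ∈ T, nm v % p = 1) → ∀ ξ ∈ RC p T, Rl p T ξ) :
    DensK K p := by
  classical
  intro T hT hTp Λ hΛ B hB hBi
  have hp : p.Prime := Fact.out
  -- the finite-dimensional space
  have hfinG : Finite (GC p T) := finite_GC hT
  have hfinΛ : Finite Λ := Finite.of_injective _ (Submodule.inclusion_injective hΛ)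
  have hMF : Module.Finite (ZMod p) Λ := Module.Finite.of_finite
  set n := Module.finrank (ZMod p) Λ with hn
  let bs : Module.Basis (Fin n) (ZMod p) Λ := Module.finBasis (ZMod p) Λ
  choose ξ hξ1 hξ2 using fun i : Fin n => RC_of_GC (p := p) (T := T) (f := (bs i : Pr K → Hm K p))
    (hΛ (bs i).2)
  have hRl : ∀ i, Rl p T (ξ i) := fun i => hEX T hT hTp (ξ i) (hξ1 i)
  have hvp : ∀ v : Pr K, vp p v ≠ 0 := by
    intro v h0
    have h1 : (vp p v).ev (piv v) = 0 := by rw [h0]; rfl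
    have h2 : (vp p v).ev (piv v) = ((vl v (piv v) : ℤ) : ZMod p) := rfl
    rw [h2, vl_piv, Int.cast_one] at h1
    exact one_ne_zero h1
  have hlin : LinearIndependent (ZMod p) ξ := by
    rw [Fintype.linearIndependent_iff]
    intro c hc
    have h1 : ((∑ i, c i • bs i : Λ) : Pr K → Hm K p) = 0 := by
      refine GC.ext_off (p := p) (T := T) hT (hΛ (∑ i, c i • bs i : Λ).2)
        (Submodule.zero_mem _) fun v hv => ?_
      have h2 : ((∑ i, c i • bs i : Λ) : Pr K → Hm K p) v = ∑ i, c i • (bs i : Pr K → Hm K p) v := by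
        rw [Submodule.coe_sum, Finset.sum_apply]
        rfl
      rw [h2, Pi.zero_apply]
      have h3 : ∀ i, c i • (bs i : Pr K → Hm K p) v = (c i * ξ i v) • vp p v := fun i => by
        rw [hξ2 i v hv, smul_smul]
      rw [Finset.sum_congr rfl fun i _ => h3 i, ← Finset.sum_smul]
      have h4 := congrFun hc v
      rw [Finset.sum_apply] at h4
      have h5 : ∑ i, c i * ξ i v = 0 := h4
      rw [h5, zero_smul]
    have h2 : (∑ i, c i • bs i : Λ) = 0 := Subtype.ext h1
    exact Fintype.linearIndependent_iff.1 bs.linearIndependent c h2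
  -- the group `B`
  obtain ⟨k, b, hb1, hb2, hb3⟩ := DK3_basis (p := p) (PP K p) B (fun x => RG.H.mem_PP.2 ⟨x, rfl⟩) hBi
  obtain ⟨E, _, _, _, _, ζ, β, θ, hcomp⟩ := exists_comp ξ hRl b
  have hdeg := finrank_comp hζ hcomp hlin hb3
  obtain ⟨F, hF⟩ := split_comp hT hcomp
  have hdk := hasDK_split K E
  have hc : c0K K p * (((p : ℝ) ^ n)⁻¹ * (((PP K p).relIndex B : ℕ) : ℝ)⁻¹) =
      (Module.finrank K E : ℝ)⁻¹ := by
    unfold c0K
    rw [hdeg, hb2]
    push_cast
    rw [mul_inv, mul_inv, mul_assoc]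
  rw [hc]
  refine hdk.congr (F := (F : Set (Pr K)) ∪ T) (F.finite_toSet.union hT) fun v _ hv => ?_
  have hvF : v ∉ F := fun h => hv (Or.inl h)
  have hvT : v ∉ T := fun h => hv (Or.inr h)
  rw [hF v hvF]
  change _ ↔ nm v % p = 1 ∧ (∀ f ∈ Λ, f v = 0) ∧ B ≤ PU p v
  refine and_congr Iff.rfl (and_congr ?_ ?_)
  · constructor
    · intro h f hf
      have h1 := bs.sum_repr ⟨f, hf⟩
      have h2 : f = ((∑ i, (bs.repr ⟨f, hf⟩ i) • bs i : Λ) : Pr K → Hm K p) := by
        rw [h1]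
      rw [h2, Submodule.coe_sum, Finset.sum_apply]
      refine Finset.sum_eq_zero fun i _ => ?_
      have h3 : (((bs.repr ⟨f, hf⟩ i) • bs i : Λ) : Pr K → Hm K p) v =
          (bs.repr ⟨f, hf⟩ i) • (bs i : Pr K → Hm K p) v := rfl
      rw [h3, hξ2 i v hvT, h i, zero_smul, smul_zero]
    · intro h i
      have h1 := h (bs i) (bs i).2
      rw [hξ2 i v hvT] at h1
      rcases smul_eq_zero.1 h1 with h2 | h2
      · exact h2
      · exact absurd h2 (hvp v)
  · exact (hb1 (PU p v) le_sup_left).symm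

end Pool.Agent.RGK
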