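import Mathlib
import Pool.Agent.Lib.RG.E29
import Pool.Agent.Lib.RGK.BDefs
import Pool.Agent.Lib.RGK.B1
import Pool.Agent.Lib.RGK.B2

/-!
RG v4, row E29: passing to the fixed field of the kernel of `Ψ`. Copy E29 of RG, replacing `ℚ` by `K`
(`LiesA.below_eq` for the primes of `K`).
-/

set_option autoImplicit false

namespace Pool.Agent.RGK

open NumberField IsDedekindDomain
open Pool.Agent.RG (Above IsDec IsInert IsFrob Lies)
open Pool.Agent.RG.H (Pr below)

theorem inj_reduceK {K : Type} [Field K] [NumberField K] {L : Type} [Field L] [NumberField L]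
    [Algebra K L] {E : Type} [Group E] (π : E →* (L ≃ₐ[K] L)) {N : Type} [Field N] [NumberField N]
    [Algebra K N] [IsGalois K N] (j : L →ₐ[K] N) (Ψ : (N ≃ₐ[K] N) →* E)
    (hΨ : ∀ (g : N ≃ₐ[K] N) (x : L), g (j x) = j (π (Ψ g) x)) :
    ∃ (N₀ : Type) (_ : Field N₀) (_ : NumberField N₀) (_ : Algebra K N₀) (_ : IsGalois K N₀)
      (j₀ : L →ₐ[K] N₀) (Ψ₀ : (N₀ ≃ₐ[K] N₀) →* E), Function.Injective Ψ₀ ∧
      (∀ (g : N₀ ≃ₐ[K] N₀) (x : L), g (j₀ x) = j₀ (π (Ψ₀ g) x)) ∧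
      ∀ v : Pr K, (∀ w : Pr N, (below w : Pr K) = v → ∀ g : N ≃ₐ[K] N, IsInert w g → Ψ g = 1) →
        UnrAtK v N₀ := by
  have hfin : FiniteDimensional K N := Module.Finite.of_restrictScalars_finite ℚ K N
  let F : IntermediateField K N := IntermediateField.fixedField Ψ.ker
  have hF : ∀ x : N, x ∈ F ↔ ∀ g : N ≃ₐ[K] N, Ψ g = 1 → g x = x := by
    intro x
    constructor
    · intro h g hg
      exact (IntermediateField.mem_fixedField_iff _ _).1 h g hg
    · intro h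
      exact (IntermediateField.mem_fixedField_iff _ _).2 (fun g hg => h g hg)
  have hgal : IsGalois K F := IsGalois.of_fixedField_normal_subgroup Ψ.ker
  have huniq : ∀ g h : N ≃ₐ[K] N, (∀ x ∈ F, g x = h x) → Ψ g = Ψ h := by
    intro g h hgh
    have h1 : h⁻¹ * g ∈ F.fixingSubgroup := by
      rw [IntermediateField.mem_fixingSubgroup_iff]
      intro x hx
      rw [AlgEquiv.mul_apply, hgh x hx, ← AlgEquiv.mul_apply, inv_mul_cancel, AlgEquiv.one_apply]
    rw [IntermediateField.fixingSubgroup_fixedField, MonoidHom.mem_ker, map_mul, map_inv] at h1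
    exact (inv_mul_eq_one.1 h1).symm
  have hlift : ∀ g₀ : F ≃ₐ[K] F, ∃ g : N ≃ₐ[K] N, ∀ x : F, g (x : N) = g₀ x := by
    intro g₀
    obtain ⟨g, hg⟩ := AlgEquiv.restrictNormalHom_surjective (F := K) (K₁ := F) N g₀
    refine ⟨g, fun x => ?_⟩
    have h1 := AlgEquiv.restrictNormal_commutes g F x
    rw [← hg]
    exact h1.symm
  choose s hs using hlift
  let Ψ₀ : (F ≃ₐ[K] F) →* E := MonoidHom.mk' (fun g => Ψ (s g)) (by
    intro g h
    rw [← map_mul]
    apply huniq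
    intro x hx
    rw [AlgEquiv.mul_apply, hs (g * h) ⟨x, hx⟩, hs h ⟨x, hx⟩, hs g, AlgEquiv.mul_apply])
  have hΨ₀ : ∀ g, Ψ₀ g = Ψ (s g) := fun g => rfl
  have hj : ∀ x : L, j x ∈ F := by
    intro x
    rw [hF]
    intro g hg
    rw [hΨ, hg, map_one, AlgEquiv.one_apply]
  let j₀ : L →ₐ[K] F := j.codRestrict F.toSubalgebra hj
  have hj₀ : ∀ x, ((j₀ x : F) : N) = j x := fun x => rfl
  have hinj : Function.Injective Ψ₀ := by
    intro g h hgh
    rw [hΨ₀, hΨ₀] at hgh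
    have h1 : Ψ ((s h)⁻¹ * s g) = 1 := by rw [map_mul, map_inv, hgh, inv_mul_cancel]
    ext x
    have h2 := (hF x).1 x.2 _ h1
    rw [AlgEquiv.mul_apply] at h2
    have h3 : s g x = s h x := by
      have h4 := congrArg (s h) h2
      rwa [← AlgEquiv.mul_apply, mul_inv_cancel, AlgEquiv.one_apply] at h4
    rw [← hs, ← hs, h3]
  have hnf : NumberField F := NumberField.of_module_finite K F
  refine ⟨F, inferInstance, hnf, inferInstance, hgal, j₀, Ψ₀, hinj, ?_, ?_⟩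
  · intro g x
    ext
    rw [← hs, hj₀, hΨ, hj₀, hΨ₀]
  · intro v hv w₀ hw₀ σ₀ hσ₀
    obtain ⟨w, hw⟩ := RG.exists_above (F.val : F →+* N) w₀
    have hw' : LiesA F.val w w₀ := hw
    obtain ⟨σ, hσ1, hσ2⟩ := exists_inert_liftK hw' hσ₀
    have h1 : Ψ σ = 1 := hv w (hw'.below_eq.trans hw₀) σ hσ2
    apply hinj
    rw [map_one, hΨ₀, ← h1]
    apply huniq
    intro x hx
    rw [hs σ₀ ⟨x, hx⟩]
    exact (hσ1 ⟨x, hx⟩).symm

end Pool.Agent.RGK
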