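import Mathlib
import Pool.Agent.Lib.RG.E28
import Pool.Agent.Lib.RG.H04
import Pool.Agent.Lib.RGK.BDefs
import Pool.Agent.Lib.RGK.B1
import Pool.Agent.Lib.RGK.B2
import Pool.Agent.Lib.RGK.B3
import Pool.Agent.Lib.RGK.B4
import Pool.Agent.Lib.RGK.E29

/-!
RG v4, row E28: removing the ramification at one prime `v` outside `T`, not above `p` (E28 of RG with
`ℚ`, `ℓ` replaced by `K`, `v`). The cyclic field `F` (`exists_cyclic_field` there) is supplied by
the hypothesis `hT`, applied after the congruence `nm v % p = 1` has been obtained from the tame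
relation.
-/

set_option autoImplicit false

namespace Pool.Agent.RGK

open NumberField IsDedekindDomain
open Pool.Agent.RG (Above IsDec IsInert IsFrob Lies)
open Pool.Agent.RG.H (Pr below)

/-- for every prime `v` outside `T` and not above `p` with `nm v` congruent to `1` there is a cyclic
extension of degree `p`, unramified outside `T` and `v`, ramified at `v` -/
def CycExt (p : ℕ) {K : Type} [Field K] [NumberField K] (T : Set (Pr K)) : Prop :=
  ∀ v : Pr K, v ∉ T → ¬ Above v p → nm v % p = 1 →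
    ∃ (F : Type) (_ : Field F) (_ : NumberField F) (_ : Algebra K F) (_ : IsGalois K F),
      Module.finrank K F = p ∧ UnrOutK (T ∪ {v}) F ∧ ¬ UnrAtK v F

private theorem e28_finrank {K : Type} [Field K] {p : ℕ} [Fact p.Prime] {M : Type} [Field M]
    [Algebra K M] [FiniteDimensional K M] [IsGalois K M] (h : IsPGroup p (M ≃ₐ[K] M)) :
    ∃ k : ℕ, Module.finrank K M = p ^ k := by
  obtain ⟨k, hk⟩ := IsPGroup.iff_card.1 h
  exact ⟨k, by rw [← IsGalois.card_aut_eq_finrank, hk]⟩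

private theorem e28_prod {p : ℕ} [Fact p.Prime] {G₁ G₂ G : Type} [Group G₁] [Group G₂] [Group G]
    (h₁ : IsPGroup p G₁) (h₂ : IsPGroup p G₂) (r₁ : G →* G₁) (r₂ : G →* G₂)
    (h : ∀ g, r₁ g = 1 → r₂ g = 1 → g = 1) : IsPGroup p G := by
  intro g
  obtain ⟨a, ha⟩ := h₁ (r₁ g)
  obtain ⟨b, hb⟩ := h₂ (r₂ g)
  refine ⟨a + b, h _ ?_ ?_⟩
  · rw [pow_add, pow_mul, map_pow, map_pow, ha, one_pow]
  · rw [pow_add, mul_comm, pow_mul, map_pow, map_pow, hb, one_pow]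

/-- the restriction of a generator of the inertia group generates the inertia group below -/
private theorem e28_gen {K R N : Type} [Field K] [NumberField K] [Field R] [NumberField R]
    [Algebra K R] [IsGalois K R] [Field N] [NumberField N] [Algebra K N] [IsGalois K N]
    (i : N →ₐ[K] R) (r : (R ≃ₐ[K] R) →* (N ≃ₐ[K] N))
    (hr : ∀ g x, g (i x) = i (r g x)) {w₂ : Pr R} {w₁ : Pr N} (h : LiesA i w₂ w₁) {t : R ≃ₐ[K] R}
    (ht : ∀ σ : R ≃ₐ[K] R, IsInert w₂ σ ↔ σ ∈ Subgroup.zpowers t) {σ : N ≃ₐ[K] N}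
    (hσ : IsInert w₁ σ) : σ ∈ Subgroup.zpowers (r t) := by
  obtain ⟨τ, hτ1, hτ2⟩ := exists_inert_liftK h hσ
  have h1 : r τ = σ := by
    ext x
    have h2 : i (r τ x) = i (σ x) := by rw [← hr, hτ1]
    exact i.injective h2
  rw [← h1, ← MonoidHom.map_zpowers]
  exact ⟨τ, (ht τ).1 hτ2, rfl⟩

theorem remove_oneK {K : Type} [Field K] [NumberField K] {p : ℕ} [Fact p.Prime] {T : Set (Pr K)}
    (hT : CycExt p T) {L : Type} [Field L] [NumberField L] [Algebra K L]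
    [IsGalois K L] {E : Type} [Group E] [Finite E] (hE : IsPGroup p E) (π : E →* (L ≃ₐ[K] L))
    (hker : π.ker ≤ Subgroup.center E) (hcard : Nat.card π.ker = p) (hunr : UnrOutK T L)
    {N : Type} [Field N] [NumberField N] [Algebra K N] [IsGalois K N] (j : L →ₐ[K] N)
    (Ψ : (N ≃ₐ[K] N) →* E) (hinj : Function.Injective Ψ)
    (hΨ : ∀ (g : N ≃ₐ[K] N) (x : L), g (j x) = j (π (Ψ g) x)) {v : Pr K} (hv : v ∉ T)
    (hvp : ¬ Above v p) :
    ∃ (N' : Type) (_ : Field N') (_ : NumberField N') (_ : Algebra K N') (_ : IsGalois K N')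
      (j' : L →ₐ[K] N') (Ψ' : (N' ≃ₐ[K] N') →* E), Function.Injective Ψ' ∧
      (∀ (g : N' ≃ₐ[K] N') (x : L), g (j' x) = j' (π (Ψ' g) x)) ∧ UnrAtK v N' ∧
      ∀ v' : Pr K, v' ∉ T → v' ≠ v → UnrAtK v' N → UnrAtK v' N' := by
  have hp : p.Prime := Fact.out
  by_cases hu : UnrAtK v N
  · exact ⟨N, inferInstance, inferInstance, inferInstance, inferInstance, j, Ψ, hinj, hΨ, hu,
      fun _ _ _ h => h⟩
  unfold UnrAtK at hu
  push Not at hu
  obtain ⟨w, hw, σ, hσ, hσ1⟩ := hu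
  have habove : ∀ {R : Type} [Field R] [NumberField R] [Algebra K R] (u : Pr R),
      (below u : Pr K) = v → ¬ Above u p := by
    intro R _ _ _ u hu h
    rw [RG.H.above_iff (K := K) u p, hu] at h
    exact hvp h
  have hpN : IsPGroup p (N ≃ₐ[K] N) := IsPGroup.of_injective hE Ψ hinj
  obtain ⟨k, hk⟩ := e28_finrank hpN
  obtain ⟨t, ht⟩ := exists_inert_generatorK hk (habove w hw)
  obtain ⟨s, hs⟩ := exists_frobK (K := K) w
  have htin : IsInert w t := (ht t).2 (Subgroup.mem_zpowers t)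
  -- inert elements go to the kernel of `π`
  have hkerin : ∀ τ : N ≃ₐ[K] N, IsInert w τ → Ψ τ ∈ π.ker := by
    intro τ hτ
    obtain ⟨w₁, hw₁⟩ := RG.exists_below (j : L →+* N) w
    have hw₁' : LiesA j w w₁ := hw₁
    rw [MonoidHom.mem_ker]
    refine hunr w₁ ?_ _ (IsInert.restrictK hw₁' (fun x => hΨ τ x) hτ)
    rw [← hw₁'.below_eq, hw]
    exact hv
  -- elements of the kernel of `π` have order dividing `p`
  have hkp : ∀ z ∈ π.ker, z ^ p = 1 := by
    intro z hz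
    have h1 : (⟨z, hz⟩ : π.ker) ^ Nat.card π.ker = 1 := pow_card_eq_one'
    rw [hcard] at h1
    exact congrArg Subtype.val h1
  have htp : t ^ p = 1 := hinj (by rw [map_pow, hkp _ (hkerin t htin), map_one])
  have ht1 : t ≠ 1 := by
    rintro rfl
    have h1 := (ht σ).1 hσ
    rw [Subgroup.zpowers_one_eq_bot, Subgroup.mem_bot] at h1
    exact hσ1 h1
  have hord : orderOf t = p := orderOf_eq_prime htp ht1
  -- the tame relation
  have htame := tame_relationK hk (habove w hw) htin hs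
  rw [hw] at htame
  have hℓ1 : nm v % p = 1 := by
    have h1 : t ^ nm v = t := by
      apply hinj
      rw [← htame, map_mul, map_mul, map_inv]
      have h2 := Subgroup.mem_center_iff.1 (hker (hkerin t htin)) (Ψ s)
      rw [h2, mul_inv_cancel_right]
    have h3 : t ^ nm v = t ^ 1 := by rw [h1, pow_one]
    rw [pow_eq_pow_iff_modEq, hord] at h3
    have h4 : nm v % p = 1 % p := h3
    rw [h4, Nat.mod_eq_of_lt hp.one_lt]
  obtain ⟨F, _, _, _, _, hF1, hF2, hF3⟩ := hT v hv hvp hℓ1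
  have hF4 : ∀ wF : Pr F, (below wF : Pr K) = v → ∀ τ : F ≃ₐ[K] F, IsInert wF τ := by
    intro wF hwF τ
    unfold UnrAtK at hF3
    push Not at hF3
    obtain ⟨w0, hw0, σ0, hσ0, hσ01⟩ := hF3
    obtain ⟨ρ, hρ⟩ := exists_conjK (K := K) (w := w0) (w' := wF) (by rw [hw0, hwF])
    have h1 := RG.H.inert_all hp hF1 w0 hσ01 hσ0 (ρ⁻¹ * τ * ρ)
    have h2 := IsInert.conj_toK hρ h1
    have h3 : ρ * (ρ⁻¹ * τ * ρ) * ρ⁻¹ = τ := by group
    rwa [h3] at h2
  obtain ⟨R, _, _, _, _, i₁, i₂, r₁, r₂, hr₁, hr₂, -, -, hr⟩ := exists_compositumK K N F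
  have hcardF : Nat.card (F ≃ₐ[K] F) = p := by rw [IsGalois.card_aut_eq_finrank, hF1]
  have hpF : IsPGroup p (F ≃ₐ[K] F) := IsPGroup.of_card (n := 1) (by rw [hcardF, pow_one])
  have hpK : IsPGroup p (R ≃ₐ[K] R) := e28_prod hpN hpF r₁ r₂ hr
  obtain ⟨k', hk'⟩ := e28_finrank hpK
  obtain ⟨w₂, hw₂'⟩ := RG.exists_above (i₁ : N →+* R) w
  have hw₂ : LiesA i₁ w₂ w := hw₂'
  have hw₂v : (below w₂ : Pr K) = v := by rw [hw₂.below_eq, hw]
  obtain ⟨wF, hwF'⟩ := RG.exists_below (i₂ : F →+* R) w₂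
  have hwF : LiesA i₂ w₂ wF := hwF'
  have hwFv : (below wF : Pr K) = v := by rw [← hwF.below_eq, hw₂v]
  obtain ⟨u, hu⟩ := exists_inert_generatorK hk' (habove w₂ hw₂v)
  have huin : IsInert w₂ u := (hu u).2 (Subgroup.mem_zpowers u)
  have hu1 : IsInert w (r₁ u) := IsInert.restrictK hw₂ (hr₁ u) huin
  have hgenF : ∀ τ : F ≃ₐ[K] F, τ ∈ Subgroup.zpowers (r₂ u) :=
    fun τ => e28_gen i₂ r₂ hr₂ hwF hu (hF4 wF hwFv τ)
  have hordF : orderOf (r₂ u) = p := by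
    rw [orderOf_eq_card_of_forall_mem_zpowers hgenF, hcardF]
  let z : π.ker := ⟨Ψ (r₁ u), hkerin _ hu1⟩
  have hz : orderOf z ∣ orderOf (r₂ u) := by
    rw [hordF, ← hcard]
    exact orderOf_dvd_natCard z
  let ω : (F ≃ₐ[K] F) →* π.ker := monoidHomOfForallMemZpowers hgenF hz
  have hω : ω (r₂ u) = z := monoidHomOfForallMemZpowers_apply_gen hgenF hz
  have hcen : ∀ (x : F ≃ₐ[K] F) (y : E), y * (ω x : E) = ω x * y := fun x y =>
    Subgroup.mem_center_iff.1 (hker (ω x).2) y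
  let Ψ₂ : (R ≃ₐ[K] R) →* E := MonoidHom.mk' (fun g => Ψ (r₁ g) * ((ω (r₂ g) : π.ker) : E)⁻¹) (by
    intro a b
    have h1 : ∀ (x : F ≃ₐ[K] F) (y : E), ((ω x : π.ker) : E)⁻¹ * y = y * ((ω x : π.ker) : E)⁻¹ := by
      intro x y
      rw [inv_mul_eq_iff_eq_mul, ← mul_assoc, ← hcen, mul_inv_cancel_right]
    rw [map_mul, map_mul, map_mul, map_mul, Subgroup.coe_mul, mul_inv_rev, h1 (r₂ b), mul_assoc,
      mul_assoc, ← mul_assoc (Ψ (r₁ b)), ← h1 (r₂ a), mul_assoc])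
  have hΨ₂ : ∀ g, Ψ₂ g = Ψ (r₁ g) * ((ω (r₂ g) : π.ker) : E)⁻¹ := fun g => rfl
  have hΨ₂u : Ψ₂ u = 1 := by
    rw [hΨ₂, hω]
    exact mul_inv_cancel _
  have hcompat : ∀ (g : R ≃ₐ[K] R) (x : L),
      g ((i₁.comp j) x) = (i₁.comp j) (π (Ψ₂ g) x) := by
    intro g x
    have h1 : π (Ψ₂ g) = π (Ψ (r₁ g)) := by
      rw [hΨ₂, map_mul, map_inv, (MonoidHom.mem_ker).1 (ω (r₂ g)).2, inv_one, mul_one]
    rw [h1, AlgHom.comp_apply, AlgHom.comp_apply, hr₁, hΨ]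
  obtain ⟨N₀, _, _, _, _, j₀, Ψ₀, hinj₀, hΨ₀, hred⟩ := inj_reduceK π (i₁.comp j) Ψ₂ hcompat
  refine ⟨N₀, inferInstance, inferInstance, inferInstance, inferInstance, j₀, Ψ₀, hinj₀, hΨ₀,
    hred v ?_, ?_⟩
  · intro v₁ hv₁ g hg
    obtain ⟨τ, hτ⟩ := exists_conjK (K := K) (w := v₁) (w' := w₂) (by rw [hv₁, hw₂v])
    have h1 : τ * g * τ⁻¹ ∈ Subgroup.zpowers u := (hu _).1 (IsInert.conj_toK hτ hg)
    have h2 : Ψ₂ (τ * g * τ⁻¹) = 1 := by
      have h3 : Subgroup.zpowers u ≤ Ψ₂.ker := by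
        rw [Subgroup.zpowers_le]
        exact hΨ₂u
      exact h3 h1
    rw [map_mul, map_mul, map_inv, mul_inv_eq_one, mul_eq_left] at h2
    exact h2
  · intro v' hv'T hne hun
    refine hred v' ?_
    intro v₀ hv₀ g hg
    obtain ⟨v₁, hv₁'⟩ := RG.exists_below (i₁ : N →+* R) v₀
    obtain ⟨v₂, hv₂'⟩ := RG.exists_below (i₂ : F →+* R) v₀
    have hv₁ : LiesA i₁ v₀ v₁ := hv₁'
    have hv₂ : LiesA i₂ v₀ v₂ := hv₂'
    have h1 : r₁ g = 1 := hun v₁ (by rw [← hv₁.below_eq, hv₀]) _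
      (IsInert.restrictK hv₁ (hr₁ g) hg)
    have h2 : r₂ g = 1 := by
      refine hF2 v₂ ?_ _ (IsInert.restrictK hv₂ (hr₂ g) hg)
      rw [← hv₂.below_eq, hv₀, Set.mem_union, Set.mem_singleton_iff]
      rintro (h3 | h3)
      · exact hv'T h3
      · exact hne h3
    rw [hΨ₂, h1, h2, map_one, map_one]
    exact mul_inv_cancel _

end Pool.Agent.RGK
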