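import Mathlib
import Pool.Agent.Lib.RGK.B1
import Pool.Agent.Lib.RGK.B2
import Pool.Agent.Lib.RGK.X2
import Pool.Agent.Lib.RGK.X3
import Pool.Agent.Lib.RGK.X3b
import Pool.Agent.Lib.RGK.X4
import Pool.Agent.Lib.RGK.C00
import Pool.Agent.Lib.RGK.C16
import Pool.Agent.Lib.RGK.C17
import Pool.Agent.Lib.RGK.C18
import Pool.Agent.Lib.RGK.C27
import Pool.Agent.Lib.RGK.E28

/-!
RG v4, row GL1: cyclic extensions ramified at one more prime.

`not_above`: `nm v` is a power of the residue characteristic, so `Above v p` implies `p ∣ nm v`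
(or: the residue field has `nm v` elements and characteristic `p`).

`cycExt_of_VT`: let `v ∉ T`, `nm v % p = 1`. `exists_ram` (X4): `f ∈ GC p (insert v T)` with `f v`
ramified. `RC_of_GC`: `ξ ∈ RC p (insert v T)` with `f u = ξ u • vp p u` outside `insert v T`. `EX` (C27):
`L`, `θ` (injective, unramified outside `insert v T`, Frobenius values `ξ`). `θ ≠ 1`: otherwise `ξ = 0`
(there is a Frobenius at every prime, `exists_frobK` in C00 and `H.exists_above`), so `f u = 0` outside
`insert v T` and `f = 0` by `GC.ext_off`, but `f v` is ramified. As `θ` is injective, `[L : K] = p`.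
`UnrOutK (T ∪ {v}) L` by `UnrCh` and injectivity. If `L` were unramified at `v` then `UnrCh T θ`; let
`ξ' := ξ` outside `insert v T`, `0` on `T`, and `ξ' v :=` the value of `θ` at a Frobenius above `v` (it does
not depend on the choice: conjugate primes, abelian group, trivial inertia; or use a lemma of the C files on
the existence of `FV`); `FV T θ ξ'`; `REC` (C17): `ξ' ∈ RC p T`; `GC_of_RC`: `f' ∈ GC p T`;
`f' = f` outside `insert v T`, so `f' = f` (`GC.ext_off` for `insert v T`, `GC.mono`); but `f' v` is
unramified. Contradiction.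
-/

set_option autoImplicit false

namespace Pool.Agent.RGK

open NumberField IsDedekindDomain
open Pool.Agent.RG (Above IsDec IsInert IsFrob)
open Pool.Agent.RG.H (Pr vl UU PP emb nrm below)

theorem not_above {K : Type} [Field K] [NumberField K] {p : ℕ} [Fact p.Prime] {v : Pr K}
    (h : nm v % p = 1) : ¬ Above v p := by
  exact not_above_of_nm Fact.out h

theorem cycExt_of_VT {K : Type} [Field K] [NumberField K] {p : ℕ} [Fact p.Prime] (hp : p ≠ 2)
    {T : Set (Pr K)} (hT : T.Finite) (hT1 : ∀ v ∈ T, nm v % p = 1) (hV : VT p T ≤ PP K p) :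
    CycExt p T := by
  classical
  have hpp : p.Prime := Fact.out
  intro v hv hpv hv1
  obtain ⟨f, hf, hram⟩ := exists_ram hT hV hv hv1
  obtain ⟨ξ, hξ, hfξ⟩ := RC_of_GC hf
  have hTp : ∀ u ∈ T, ¬ Above u p := fun u hu => not_above (hT1 u hu)
  have hTp' : ∀ u ∈ insert v T, ¬ Above u p := by
    intro u hu
    rcases Set.mem_insert_iff.1 hu with h | h
    · rw [h]
      exact hpv
    · exact hTp u h
  obtain ⟨L, iL1, iL2, iL3, iL4, θ, hinj, hunr, hfv⟩ := EX hp (hT.insert v) hTp' hξ
  -- the extension is ramified at `v`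
  have hnot : ¬ UnrAtK v L := by
    intro hun
    have hunr' : UnrCh T θ := by
      intro w hw σ hσ
      by_cases hwv : (below w : Pr K) = v
      · rw [hun w hwv σ hσ, map_one]
      · refine hunr w (fun h => ?_) σ hσ
        rcases Set.mem_insert_iff.1 h with h | h
        · exact hwv h
        · exact hw h
    obtain ⟨φ, hφ⟩ := exists_phi (K := K) L
    have hη := hφ p T θ hunr'
    set η : Pr K → ZMod p := fun u => if u ∈ T then 0 else Multiplicative.toAdd (θ (φ u)) with hηd
    have hηR : η ∈ RC p T := REC hp hTp θ hunr' hη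
    obtain ⟨g, hg, hgη⟩ := GC_of_RC hT hηR
    have hfg : f = g := by
      refine GC.ext_off (hT.insert v) hf (GC.mono (Set.subset_insert v T) hg) fun u hu => ?_
      have huT : u ∉ T := fun h => hu (Set.mem_insert_of_mem v h)
      obtain ⟨w, hw⟩ := RG.H.exists_above (K := K) (L := L) u
      obtain ⟨σ, hσ⟩ := exists_frobK (K := K) w
      have h1 := hη.frob w (by rw [hw]; exact huT) σ hσ
      have h2 := hfv.frob w (by rw [hw]; exact hu) σ hσ
      rw [h1, hw] at h2
      have h3 : η u = ξ u := Multiplicative.ofAdd.injective h2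
      rw [hfξ u hu, hgη u huT, h3]
    apply hram
    rw [hfg]
    exact hg.1 v hv
  -- the degree
  have hdeg : Module.finrank K L = p := by
    have h1 : Nat.card (Multiplicative (ZMod p)) = p := by
      rw [Nat.card_eq_fintype_card, Fintype.card_multiplicative, ZMod.card]
    have h2 : Nat.card (L ≃ₐ[K] L) ∣ p := by
      have h3 := Subgroup.card_subgroup_dvd_card θ.range
      rw [h1] at h3
      rwa [Nat.card_congr (MonoidHom.ofInjective hinj).toEquiv]
    rw [IsGalois.card_aut_eq_finrank] at h2
    rcases (Nat.dvd_prime hpp).1 h2 with h3 | h3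
    · exfalso
      apply hnot
      intro w _ σ _
      have h4 : Nat.card (L ≃ₐ[K] L) = 1 := by rw [IsGalois.card_aut_eq_finrank, h3]
      obtain ⟨h5, _⟩ := Nat.card_eq_one_iff_unique.1 h4
      exact h5.elim σ 1
    · exact h3
  refine ⟨L, iL1, iL2, iL3, iL4, hdeg, ?_, hnot⟩
  intro w hw σ hσ
  apply hinj
  rw [map_one]
  refine hunr w (fun h => hw ?_) σ hσ
  rwa [← Set.union_singleton] at h

end Pool.Agent.RGK
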