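import Mathlib
import Pool.Agent.Lib.RG.E22a
import Pool.Agent.Lib.RG.H10
import Pool.Agent.Lib.RGK.BDefs
import Pool.Agent.Lib.RGK.B1
import Pool.Agent.Lib.RGK.B2

/-!
RG v4, row E22a: valuations of `p`-th powers above `p`. Notation: `|x| = w.valuation M x`, values are
`exp (-n)`, `|1 - ζ| = exp (-e)`, `|p| = exp (-(p-1) e)` (`val_p_eq`, E22a of RG).

`pow_level`: `b` is a unit (`|b^p - 1| < 1`), `|b - 1| < 1` (`val_sub_one_lt_of_pow`); `b = 1 + y`,
`|y| = exp (-j)`, `j ≥ 1`. If `j ≥ e` then `|b ^ p - 1| ≤ |1 - ζ| ^ p` (`val_pow_sub_one_le`). If `j < e`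
then `(1+y)^p - 1 = y^p + p y (...)` and `|p y| = exp (-((p-1) e + j)) < exp (-p j) = |y ^ p|`, so
`|b^p - 1| = exp (-p j)` and `p j = i` is excluded, so `p j ≥ i + 1`.
-/

set_option autoImplicit false

namespace Pool.Agent.RGK

open NumberField IsDedekindDomain
open Pool.Agent.RG (Above IsDec IsInert IsFrob Lies)
open Pool.Agent.RG.H (Pr below)

open WithZero


private theorem E22a_val_nat_le {M : Type} [Field M] [NumberField M] {w : Pr M} (n : ℕ) :
    w.valuation M (n : M) ≤ 1 := by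
  induction n with
  | zero => simp
  | succ n ih =>
    rw [Nat.cast_succ]
    exact (Valuation.map_add _ _ _).trans (max_le ih (by rw [map_one]))

private theorem E22a_val_rest {p : ℕ} {M : Type} [Field M] [NumberField M] {w : Pr M} {x y : M}
    (hx : w.valuation M x ≤ 1) (hy : w.valuation M y ≤ 1) :
    w.valuation M (∑ k ∈ Finset.Ioo 0 p, x ^ (k - 1) * y ^ (p - k - 1) * ↑(p.choose k / p)) ≤ 1 := by
  refine Valuation.map_sum_le _ fun k _ => ?_
  rw [map_mul, map_mul, map_pow, map_pow]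
  exact mul_le_one' (mul_le_one' (pow_le_one' hx _) (pow_le_one' hy _)) (E22a_val_nat_le _)

private theorem E22a_succ_le {x : WithZero (Multiplicative ℤ)} {i : ℤ} (h : x < exp (-i)) :
    x ≤ exp (-(i + 1)) := by
  rcases eq_or_ne x 0 with rfl | hx
  · exact zero_le
  · rw [← exp_log hx] at h ⊢
    rw [exp_lt_exp] at h
    rw [exp_le_exp]
    omega

theorem pow_level {p : ℕ} [Fact p.Prime] {M : Type} [Field M] [NumberField M] {ζ : M}
    (hζ : IsPrimitiveRoot ζ p) {w : Pr M} (hw : Above w p) {b : M} {i : ℕ} (hi : ¬ p ∣ i)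
    (h1 : w.valuation M (1 - ζ) ^ p < exp (-(i : ℤ)))
    (h2 : w.valuation M (b ^ p - 1) ≤ exp (-(i : ℤ))) :
    w.valuation M (b ^ p - 1) ≤ exp (-((i : ℤ) + 1)) := by
  have hp : p.Prime := Fact.out
  have hi0 : 0 < i := by
    rcases Nat.eq_zero_or_pos i with h | h
    · exact absurd (by rw [h]; exact dvd_zero p) hi
    · exact h
  have hexp1 : exp (-(i : ℤ)) < (1 : WithZero (Multiplicative ℤ)) := by
    rw [← exp_zero, exp_lt_exp]
    omega
  have h3 : w.valuation M (b ^ p - 1) < 1 := lt_of_le_of_lt h2 hexp1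
  have h4 : w.valuation M (b ^ p) = 1 := by
    have h5 : b ^ p = (b ^ p - 1) + 1 := by ring
    rw [h5, Valuation.map_add_eq_of_lt_right _ (by rw [map_one]; exact h3), map_one]
  have h5 : w.valuation M b = 1 := by
    rw [map_pow] at h4
    exact (pow_eq_one_iff_of_nonneg zero_le hp.ne_zero).1 h4
  have h6 : w.valuation M (b - 1) < 1 := Pool.Agent.RG.val_sub_one_lt_of_pow hζ hw h5 h3
  have hz0 : (1 : M) - ζ ≠ 0 := by
    intro h
    have h7 : ζ = 1 := (sub_eq_zero.1 h).symm
    rw [h7] at hζ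
    exact hp.one_lt.ne' (hζ.unique IsPrimitiveRoot.one)
  rcases le_or_gt (w.valuation M (b - 1)) (w.valuation M (1 - ζ)) with h7 | h7
  · have h8 : w.valuation M ((b - 1) / (1 - ζ)) ≤ 1 := by
      rw [map_div₀]
      exact div_le_one_of_le₀ h7 zero_le
    have h9 := Pool.Agent.RG.val_pow_sub_one_le hζ hw h8
    have h10 : 1 + (1 - ζ) * ((b - 1) / (1 - ζ)) = b := by
      rw [mul_div_cancel₀ _ hz0]
      ring
    rw [h10] at h9
    exact E22a_succ_le (lt_of_le_of_lt h9 h1)
  · have hy0 : b - 1 ≠ 0 := by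
      intro h
      rw [h, map_zero] at h7
      exact absurd h7 (not_lt.2 zero_le)
    have hv0 : w.valuation M (b - 1) ≠ 0 := (Valuation.ne_zero_iff _).2 hy0
    have h8 := add_pow_prime_eq hp (b - 1) 1
    set R := ∑ k ∈ Finset.Ioo 0 p, (b - 1) ^ (k - 1) * (1 : M) ^ (p - k - 1) *
      ↑(p.choose k / p) with hR
    have hR1 : w.valuation M R ≤ 1 := E22a_val_rest h6.le (by rw [map_one])
    rw [sub_add_cancel, one_pow, mul_one] at h8
    have h9 : b ^ p - 1 = ↑p * (b - 1) * R + (b - 1) ^ p := by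
      rw [h8]
      ring
    have h10 : w.valuation M (↑p * (b - 1) * R) < w.valuation M ((b - 1) ^ p) := by
      rw [map_mul, map_mul, Pool.Agent.RG.val_p_eq hζ hw, map_pow]
      calc w.valuation M (1 - ζ) ^ (p - 1) * w.valuation M (b - 1) * w.valuation M R
          ≤ w.valuation M (1 - ζ) ^ (p - 1) * w.valuation M (b - 1) * 1 :=
            mul_le_mul' le_rfl hR1
        _ = w.valuation M (1 - ζ) ^ (p - 1) * w.valuation M (b - 1) := mul_one _
        _ < w.valuation M (b - 1) ^ (p - 1) * w.valuation M (b - 1) := by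
            have h11 : w.valuation M (1 - ζ) ^ (p - 1) < w.valuation M (b - 1) ^ (p - 1) :=
              pow_lt_pow_left₀ h7 zero_le (by have := hp.two_le; omega)
            exact mul_lt_mul_of_pos_right h11 (zero_lt_iff.2 hv0)
        _ = w.valuation M (b - 1) ^ p := by
            rw [← pow_succ, Nat.sub_add_cancel hp.one_le]
    have h11 : w.valuation M (b ^ p - 1) = w.valuation M (b - 1) ^ p := by
      rw [h9, Valuation.map_add_eq_of_lt_right _ h10, map_pow]
    rw [h11] at h2 ⊢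
    rw [← exp_log hv0, ← exp_nsmul] at h2 ⊢
    rw [exp_le_exp] at h2 ⊢
    set j := log (w.valuation M (b - 1)) with hj
    have h12 : p • j = (p : ℤ) * j := by rw [nsmul_eq_mul]
    rw [h12] at h2 ⊢
    have h13 : (p : ℤ) * j ≠ -(i : ℤ) := by
      intro h
      apply hi
      have h14 : (p : ℤ) ∣ (i : ℤ) := ⟨-j, by rw [mul_neg, h, neg_neg]⟩
      exact_mod_cast h14
    omega

end Pool.Agent.RGK
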