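import Mathlib
import Pool.Agent.Lib.RG.E22a
import Pool.Agent.Lib.RG.H03
import Pool.Agent.Lib.RG.H09
import Pool.Agent.Lib.RG.H10
import Pool.Agent.Lib.RGK.BDefs
import Pool.Agent.Lib.RGK.B1
import Pool.Agent.Lib.RGK.B2
import Pool.Agent.Lib.RGK.E22a

/-!
RG v4, row E22b: the local adjustment. `w` is a prime of `M` above `p`, unramified over `F`, `v = below w`,
`D` = decomposition group. Notation `|x| = w.valuation M x`, `|1 - ζ| = exp (-e)`.

Claim by induction on `i ≤ p e`: there are `c : F`, `x : M`, nonzero, with `|c α / x ^ p - 1| ≤ exp (-i)`.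
-/

set_option autoImplicit false

namespace Pool.Agent.RGK

open NumberField IsDedekindDomain
open Pool.Agent.RG (Above IsDec IsInert IsFrob Lies)
open Pool.Agent.RG.H (Pr below)

open WithZero

private theorem e22b_lt {a : ℤᵐ⁰} {n : ℤ} (h : a < exp n) : a ≤ exp (n - 1) := by
  by_cases h0 : a = 0
  · rw [h0]
    exact zero_le
  · rw [← exp_log h0] at h ⊢
    rw [exp_lt_exp] at h
    rw [exp_le_exp]
    omega

/-- an element fixed modulo `w` by a Frobenius element is congruent to an element of `F` -/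
theorem residue_below {F M : Type} [Field F] [NumberField F] [Field M] [NumberField M] [Algebra F M]
    [IsGalois F M] {w : Pr M} {φ : M ≃ₐ[F] M} (hφ : IsFrob w (nm (below w : Pr F)) φ) {y : M}
    (hy : w.valuation M y ≤ 1) (h : w.valuation M (φ y - y) < 1) :
    ∃ a : F, w.valuation M (y - algebraMap F M a) < 1 := by
  classical
  set q := nm (below w : Pr F) with hq
  obtain ⟨b, hb⟩ := RG.H.exists_int_approx w y hy
  have hb1 : w.valuation M (b : M) ≤ 1 := HeightOneSpectrum.valuation_le_one w b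
  -- `b ^ q - b` is in `w`
  have h1 : w.valuation M ((b : M) ^ q - b) < 1 := by
    have e1 : (b : M) ^ q - b = -(φ y - y ^ q) + (φ y - y) + (y - b) - (y ^ q - (b : M) ^ q) := by
      ring
    have h2 : w.valuation M (φ y - y ^ q) < 1 := hφ.2 y hy
    have h3 : w.valuation M (y ^ q - (b : M) ^ q) < 1 := by
      obtain ⟨r, hr⟩ : ∃ r, y ^ q - (b : M) ^ q = (y - b) * r ∧ w.valuation M r ≤ 1 := by
        refine ⟨∑ i ∈ Finset.range q, y ^ i * (b : M) ^ (q - 1 - i), ?_, ?_⟩
        · rw [mul_comm, geom_sum₂_mul]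
        · refine Valuation.map_sum_le _ fun i _ => ?_
          rw [map_mul, map_pow, map_pow]
          exact mul_le_one' (pow_le_one' hy _) (pow_le_one' hb1 _)
      rw [hr.1, map_mul]
      exact mul_lt_one_of_lt_of_le hb hr.2
    rw [e1]
    refine (Valuation.map_sub _ _ _).trans_lt (max_lt ?_ h3)
    refine (Valuation.map_add _ _ _).trans_lt (max_lt ?_ hb)
    refine (Valuation.map_add _ _ _).trans_lt (max_lt ?_ h)
    rw [Valuation.map_neg]
    exact h2
  have : w.asIdeal.IsMaximal := w.isMaximal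
  have : (below w : Pr F).asIdeal.IsMaximal := (below w : Pr F).isMaximal
  let _ : Field (𝓞 M ⧸ w.asIdeal) := Ideal.Quotient.field w.asIdeal
  let _ : Field (𝓞 F ⧸ (below w : Pr F).asIdeal) := Ideal.Quotient.field (below w : Pr F).asIdeal
  have hfin : Finite (𝓞 F ⧸ (below w : Pr F).asIdeal) :=
    Ideal.finiteQuotientOfFreeOfNeBot _ (below w : Pr F).ne_bot
  let _ : Fintype (𝓞 F ⧸ (below w : Pr F).asIdeal) := Fintype.ofFinite _
  have hcard : Fintype.card (𝓞 F ⧸ (below w : Pr F).asIdeal) = q := by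
    rw [← Nat.card_eq_fintype_card]
    rfl
  have hq1 : 1 < q := by
    rw [← hcard]
    exact Fintype.one_lt_card
  let ι : (𝓞 F ⧸ (below w : Pr F).asIdeal) →+* (𝓞 M ⧸ w.asIdeal) :=
    Ideal.quotientMap w.asIdeal (algebraMap (𝓞 F) (𝓞 M)) (le_refl _)
  have hιinj : Function.Injective ι := ι.injective
  set P : Polynomial (𝓞 M ⧸ w.asIdeal) := Polynomial.X ^ q - Polynomial.X with hP
  have hdeg : P.natDegree = q := FiniteField.X_pow_card_sub_X_natDegree_eq _ hq1
  have hP0 : P ≠ 0 := by
    intro h0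
    rw [h0, Polynomial.natDegree_zero] at hdeg
    omega
  have hsub : (Finset.univ.image ι) ⊆ P.roots.toFinset := by
    intro x hx
    obtain ⟨a, -, rfl⟩ := Finset.mem_image.1 hx
    rw [Multiset.mem_toFinset, Polynomial.mem_roots hP0, Polynomial.IsRoot.def, hP,
      Polynomial.eval_sub, Polynomial.eval_pow, Polynomial.eval_X, ← map_pow, ← hcard,
      FiniteField.pow_card, sub_self]
  have hle : P.roots.toFinset.card ≤ (Finset.univ.image ι).card := by
    rw [Finset.card_image_of_injective _ hιinj, Finset.card_univ, hcard]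
    refine (Multiset.toFinset_card_le _).trans ?_
    rw [← hdeg]
    exact Polynomial.card_roots' P
  have heq := Finset.eq_of_subset_of_card_le hsub hle
  have hbr : Ideal.Quotient.mk w.asIdeal b ∈ P.roots.toFinset := by
    rw [Multiset.mem_toFinset, Polynomial.mem_roots hP0, Polynomial.IsRoot.def, hP,
      Polynomial.eval_sub, Polynomial.eval_pow, Polynomial.eval_X, ← map_pow, ← map_sub,
      Ideal.Quotient.eq_zero_iff_mem, RG.H.h09_mem]
    have e2 : ((b ^ q - b : 𝓞 M) : M) = (b : M) ^ q - b := by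
      simp
    rw [e2]
    exact h1
  rw [← heq] at hbr
  obtain ⟨a', -, ha'⟩ := Finset.mem_image.1 hbr
  obtain ⟨a, rfl⟩ := Ideal.Quotient.mk_surjective a'
  refine ⟨(a : F), ?_⟩
  have h4 : Ideal.Quotient.mk w.asIdeal (algebraMap (𝓞 F) (𝓞 M) a) =
      Ideal.Quotient.mk w.asIdeal b := by
    rw [← ha']
    rfl
  rw [Ideal.Quotient.eq, RG.H.h09_mem] at h4
  have e3 : y - algebraMap F M (a : F) = (y - b) -
      ((algebraMap (𝓞 F) (𝓞 M) a - b : 𝓞 M) : M) := by
    have e4 : ((algebraMap (𝓞 F) (𝓞 M) a - b : 𝓞 M) : M) = algebraMap F M (a : F) - (b : M) := by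
      change algebraMap (𝓞 M) M (algebraMap (𝓞 F) (𝓞 M) a - b) = _
      rw [map_sub]
      rfl
    rw [e4]
    ring
  rw [e3]
  exact (Valuation.map_sub _ _ _).trans_lt (max_lt hb h4)

section local1

variable {M : Type} [Field M] [NumberField M]

/-- the residue field is perfect -/
private theorem e22b_root {p : ℕ} [Fact p.Prime] {w : Pr M} (hw : Above w p) {y : M}
    (hy : w.valuation M y ≤ 1) : ∃ z : M, w.valuation M z ≤ 1 ∧ w.valuation M (y - z ^ p) < 1 := by
  have hp : p.Prime := Fact.out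
  obtain ⟨b, hb⟩ := RG.H.exists_int_approx w y hy
  have : w.asIdeal.IsMaximal := w.isMaximal
  let _ : Field (𝓞 M ⧸ w.asIdeal) := Ideal.Quotient.field w.asIdeal
  have hfin : Finite (𝓞 M ⧸ w.asIdeal) := Ideal.finiteQuotientOfFreeOfNeBot _ w.ne_bot
  have hp0 : ((p : ℕ) : 𝓞 M ⧸ w.asIdeal) = 0 := by
    have h1 : (p : 𝓞 M) ∈ w.asIdeal := by
      rw [RG.H.h09_mem]
      have e1 : ((p : 𝓞 M) : M) = (p : M) := by simp
      rw [e1]
      exact hw
    rw [← map_natCast (Ideal.Quotient.mk w.asIdeal), Ideal.Quotient.eq_zero_iff_mem]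
    exact h1
  obtain ⟨r, hr⟩ := CharP.exists (𝓞 M ⧸ w.asIdeal)
  have hrp : r = p := by
    have h2 : r ∣ p := (CharP.cast_eq_zero_iff (𝓞 M ⧸ w.asIdeal) r p).1 hp0
    rcases (Nat.dvd_prime hp).1 h2 with h3 | h3
    · exact absurd h3 (CharP.char_ne_one (𝓞 M ⧸ w.asIdeal) r)
    · exact h3
  subst hrp
  have hsurj : Function.Surjective (frobenius (𝓞 M ⧸ w.asIdeal) r) :=
    Finite.injective_iff_surjective.1 (frobenius_inj (𝓞 M ⧸ w.asIdeal) r)
  obtain ⟨z', hz'⟩ := hsurj (Ideal.Quotient.mk w.asIdeal b)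
  obtain ⟨z, rfl⟩ := Ideal.Quotient.mk_surjective z'
  rw [frobenius_def, ← map_pow, Ideal.Quotient.eq, RG.H.h09_mem] at hz'
  refine ⟨(z : M), HeightOneSpectrum.valuation_le_one w z, ?_⟩
  have e3 : y - (z : M) ^ r = (y - b) - ((z ^ r - b : 𝓞 M) : M) := by
    have e4 : ((z ^ r - b : 𝓞 M) : M) = (z : M) ^ r - (b : M) := by
      simp
    rw [e4]
    ring
  rw [e3]
  exact (Valuation.map_sub _ _ _).trans_lt (max_lt hb hz')

private theorem e22b_nat {w : Pr M} (n : ℕ) : w.valuation M (n : M) ≤ 1 := by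
  induction n with
  | zero => simp
  | succ n ih =>
    rw [Nat.cast_succ]
    exact (Valuation.map_add _ _ _).trans (max_le ih (by rw [map_one]))

/-- `(1 + t) ^ p = 1 + t ^ p + p t R`, `R` integral -/
private theorem e22b_pow {p : ℕ} (hp : p.Prime) {w : Pr M} {t : M} (ht : w.valuation M t ≤ 1) :
    ∃ R : M, w.valuation M R ≤ 1 ∧ (1 + t) ^ p = 1 + t ^ p + p * t * R := by
  refine ⟨∑ k ∈ Finset.Ioo 0 p, (1 : M) ^ (k - 1) * t ^ (p - k - 1) * ↑(p.choose k / p), ?_, ?_⟩
  · refine Valuation.map_sum_le _ fun k _ => ?_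
    rw [map_mul, map_mul, map_pow, map_pow, map_one, one_pow, one_mul]
    exact mul_le_one' (pow_le_one' ht _) (e22b_nat _)
  · rw [add_pow_prime_eq hp, one_pow, mul_one]

end local1

private theorem e22b_one {M : Type} [Field M] [NumberField M] {w : Pr M} {t : M}
    (ht : w.valuation M (t - 1) < 1) : w.valuation M t = 1 := by
  have e1 : t = 1 + (t - 1) := by ring
  rw [e1]
  have h1 := Valuation.map_add_eq_of_lt_right (v := w.valuation M) (x := (t - 1)) (y := 1)
    (by rw [map_one]; exact ht)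
  rw [add_comm, h1, map_one]

private theorem e22b_step {p : ℕ} [Fact p.Prime] {F M : Type} [Field F] [NumberField F]
    [Field M] [NumberField M] [Algebra F M] [IsGalois F M] {ζ : F} (hζ : IsPrimitiveRoot ζ p)
    {w : Pr M} (hw : Above w p) {π : F} (hπ : w.valuation M (algebraMap F M π) = exp (-(1 : ℤ)))
    {e : ℕ} (he : w.valuation M (1 - algebraMap F M ζ) = exp (-(e : ℤ))) {i : ℕ} (hi1 : 1 ≤ i)
    (hi : i < p * e) {α : M}
    (h : ∀ σ : M ≃ₐ[F] M, ∃ b : M, σ α = b ^ p * α)
    (hα : w.valuation M (α - 1) ≤ exp (-(i : ℤ))) :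
    ∃ (c : F) (x : M), c ≠ 0 ∧ x ≠ 0 ∧
      w.valuation M (algebraMap F M c * α / x ^ p - 1) ≤ exp (-((i : ℤ) + 1)) := by
  have hp : p.Prime := Fact.out
  have hζM : IsPrimitiveRoot (algebraMap F M ζ) p := hζ.map_of_injective (algebraMap F M).injective
  have hvp : w.valuation M (p : M) = exp (-(((p - 1) * e : ℕ) : ℤ)) := by
    rw [RG.val_p_eq hζM hw, he, ← exp_nsmul]
    congr 1
    simp
  have hπi : ∀ n : ℕ, w.valuation M (algebraMap F M π ^ n) = exp (-(n : ℤ)) := by
    intro n
    rw [map_pow, hπ, ← exp_nsmul]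
    congr 1
    simp
  have hπ0 : algebraMap F M π ≠ 0 := by
    intro h0
    rw [h0, map_zero] at hπ
    exact exp_ne_zero hπ.symm
  have hαlt : w.valuation M (α - 1) < 1 := by
    refine hα.trans_lt ?_
    rw [← exp_zero, exp_lt_exp]
    omega
  have hα1 : w.valuation M α = 1 := e22b_one hαlt
  set y : M := (α - 1) / algebraMap F M π ^ i with hy
  have hyi : α - 1 = y * algebraMap F M π ^ i := by
    rw [hy, div_mul_cancel₀ _ (pow_ne_zero _ hπ0)]
  have hy1 : w.valuation M y ≤ 1 := by
    rw [hy, map_div₀, hπi]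
    exact div_le_one_of_le₀ hα zero_le
  by_cases hpi : p ∣ i
  · obtain ⟨j, rfl⟩ := hpi
    have hj1 : 1 ≤ j := by
      rcases Nat.eq_zero_or_pos j with h0 | h0
      · rw [h0, mul_zero] at hi1
        omega
      · exact h0
    have hje : j < e := lt_of_mul_lt_mul_left hi (Nat.zero_le p)
    obtain ⟨z, hz1, hz⟩ := e22b_root hw hy1
    have ht : w.valuation M (z * algebraMap F M π ^ j) ≤ exp (-(j : ℤ)) := by
      rw [map_mul, hπi]
      exact mul_le_of_le_one_left' hz1
    have ht1 : w.valuation M (z * algebraMap F M π ^ j) < 1 := by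
      refine ht.trans_lt ?_
      rw [← exp_zero, exp_lt_exp]
      omega
    obtain ⟨R, hR1, hR⟩ := e22b_pow (w := w) hp ht1.le
    have hx1 : w.valuation M (1 + z * algebraMap F M π ^ j) = 1 := by
      apply e22b_one
      rw [add_sub_cancel_left]
      exact ht1
    have hx0 : (1 + z * algebraMap F M π ^ j) ≠ 0 := by
      intro h0
      rw [h0, map_zero] at hx1
      exact zero_ne_one hx1
    refine ⟨1, 1 + z * algebraMap F M π ^ j, one_ne_zero, hx0, ?_⟩
    rw [map_one, one_mul, div_sub_one (pow_ne_zero _ hx0), map_div₀, map_pow, hx1, one_pow, div_one]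
    have e1 : α - (1 + z * algebraMap F M π ^ j) ^ p =
        (y - z ^ p) * algebraMap F M π ^ (p * j) - p * (z * algebraMap F M π ^ j) * R := by
      rw [hR]
      have : α = 1 + y * algebraMap F M π ^ (p * j) := by
        rw [← hyi]
        ring
      rw [this, mul_comm p j, pow_mul]
      ring
    rw [e1]
    refine (Valuation.map_sub _ _ _).trans (max_le ?_ ?_)
    · rw [map_mul, hπi]
      have h5 : w.valuation M (y - z ^ p) ≤ exp (-(1 : ℤ)) := by
        have := e22b_lt (n := 0) (by rw [exp_zero]; exact hz)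
        simpa using this
      calc w.valuation M (y - z ^ p) * exp (-((p * j : ℕ) : ℤ))
          ≤ exp (-(1 : ℤ)) * exp (-((p * j : ℕ) : ℤ)) := mul_le_mul' h5 le_rfl
        _ = exp (-(((p * j : ℕ) : ℤ) + 1)) := by
            rw [← exp_add]
            congr 1
            ring
    · rw [map_mul, map_mul, hvp]
      calc exp (-(((p - 1) * e : ℕ) : ℤ)) * w.valuation M (z * algebraMap F M π ^ j) *
            w.valuation M R
          ≤ exp (-(((p - 1) * e : ℕ) : ℤ)) * exp (-(j : ℤ)) * 1 :=
            mul_le_mul' (mul_le_mul' le_rfl ht) hR1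
        _ ≤ exp (-(((p * j : ℕ) : ℤ) + 1)) := by
            rw [mul_one, ← exp_add, exp_le_exp]
            have h2 := hp.two_le
            obtain ⟨P, rfl⟩ : ∃ P, p = P + 2 := ⟨p - 2, by omega⟩
            obtain ⟨E, rfl⟩ : ∃ E, e = j + 1 + E := ⟨e - (j + 1), by omega⟩
            have h3 : (P + 2 - 1) = P + 1 := by omega
            rw [h3]
            push_cast
            nlinarith [mul_nonneg (Int.natCast_nonneg P) (Int.natCast_nonneg E),
              Int.natCast_nonneg P, Int.natCast_nonneg E]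
  · obtain ⟨φ, hφ⟩ := exists_frobK (K := F) w
    obtain ⟨b, hb⟩ := h φ
    have hdec : ∀ x : M, w.valuation M (φ x) = w.valuation M x := hφ.1
    have hb1 : w.valuation M (b ^ p - 1) ≤ exp (-(i : ℤ)) := by
      have e1 : (b ^ p - 1) * α = φ (α - 1) - (α - 1) := by
        rw [map_sub, map_one, hb]
        ring
      have h1 : w.valuation M ((b ^ p - 1) * α) ≤ exp (-(i : ℤ)) := by
        rw [e1]
        refine (Valuation.map_sub _ _ _).trans (max_le ?_ hα)
        rw [hdec]
        exact hα
      rwa [map_mul, hα1, mul_one] at h1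
    have hlev := pow_level hζM hw (b := b) hpi (by
      rw [he, ← exp_nsmul, exp_lt_exp]
      simp only [nsmul_eq_mul]
      have : (i : ℤ) < (p : ℤ) * e := by exact_mod_cast hi
      linarith) hb1
    have hφy : w.valuation M (φ y - y) < 1 := by
      have e2 : φ y - y = (b ^ p - 1) * α / algebraMap F M π ^ i := by
        rw [hy, map_div₀, map_pow, AlgEquiv.commutes, map_sub, map_one, hb]
        ring
      rw [e2, map_div₀, map_mul, hα1, mul_one, hπi]
      have h6 : w.valuation M (b ^ p - 1) / exp (-(i : ℤ)) ≤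
          exp (-((i : ℤ) + 1)) / exp (-(i : ℤ)) := by
        rw [div_eq_mul_inv, div_eq_mul_inv]
        exact mul_le_mul' hlev le_rfl
      refine h6.trans_lt ?_
      rw [← exp_sub, ← exp_zero, exp_lt_exp]
      omega
    obtain ⟨a, ha⟩ := residue_below hφ hy1 hφy
    have ha1 : w.valuation M (algebraMap F M a) ≤ 1 := by
      have e3 : algebraMap F M a = y - (y - algebraMap F M a) := by ring
      rw [e3]
      exact (Valuation.map_sub _ _ _).trans (max_le hy1 ha.le)
    have hc1 : w.valuation M (algebraMap F M (1 - a * π ^ i)) = 1 := by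
      apply e22b_one
      have e4 : algebraMap F M (1 - a * π ^ i) - 1 = -(algebraMap F M a * algebraMap F M π ^ i) := by
        rw [map_sub, map_one, map_mul, map_pow]
        ring
      rw [e4, Valuation.map_neg, map_mul, hπi]
      refine (mul_le_of_le_one_left' ha1).trans_lt ?_
      rw [← exp_zero, exp_lt_exp]
      omega
    have hc0 : (1 - a * π ^ i) ≠ 0 := by
      intro h0
      rw [h0, map_zero, map_zero] at hc1
      exact zero_ne_one hc1
    refine ⟨1 - a * π ^ i, 1, hc0, one_ne_zero, ?_⟩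
    rw [one_pow, div_one]
    have e5 : algebraMap F M (1 - a * π ^ i) * α - 1 =
        (y - algebraMap F M a) * algebraMap F M π ^ i -
          algebraMap F M a * y * (algebraMap F M π ^ i * algebraMap F M π ^ i) := by
      have : α = 1 + y * algebraMap F M π ^ i := by
        rw [← hyi]
        ring
      rw [this, map_sub, map_one, map_mul, map_pow]
      ring
    rw [e5]
    refine (Valuation.map_sub _ _ _).trans (max_le ?_ ?_)
    · rw [map_mul, hπi]
      have h5 : w.valuation M (y - algebraMap F M a) ≤ exp (-(1 : ℤ)) := by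
        have := e22b_lt (n := 0) (by rw [exp_zero]; exact ha)
        simpa using this
      calc w.valuation M (y - algebraMap F M a) * exp (-(i : ℤ))
          ≤ exp (-(1 : ℤ)) * exp (-(i : ℤ)) := mul_le_mul' h5 le_rfl
        _ = exp (-((i : ℤ) + 1)) := by
            rw [← exp_add]
            congr 1
            ring
    · rw [map_mul, map_mul, map_mul, hπi]
      calc w.valuation M (algebraMap F M a) * w.valuation M y * (exp (-(i : ℤ)) * exp (-(i : ℤ)))
          ≤ 1 * 1 * (exp (-(i : ℤ)) * exp (-(i : ℤ))) :=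
            mul_le_mul' (mul_le_mul' ha1 hy1) le_rfl
        _ ≤ exp (-((i : ℤ) + 1)) := by
            rw [one_mul, one_mul, ← exp_add, exp_le_exp]
            omega

theorem padic_local {p : ℕ} [Fact p.Prime] (hp : p ≠ 2) {F M : Type} [Field F] [NumberField F]
    [Field M] [NumberField M] [Algebra F M] [IsGalois F M] {ζ : F} (hζ : IsPrimitiveRoot ζ p)
    {w : Pr M} (hw : Above w p) (hunr : ∀ σ : M ≃ₐ[F] M, IsInert w σ → σ = 1) {α : M} (hα : α ≠ 0)
    (h : ∀ σ : M ≃ₐ[F] M, ∃ b : M, σ α = b ^ p * α) :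
    ∃ (c : F) (x : M), c ≠ 0 ∧ x ≠ 0 ∧
      w.valuation M (algebraMap F M c * α / x ^ p - 1) ≤ w.valuation M (1 - algebraMap F M ζ) ^ p := by
  have hpp : p.Prime := Fact.out
  have hζM : IsPrimitiveRoot (algebraMap F M ζ) p := hζ.map_of_injective (algebraMap F M).injective
  -- the number `e`
  obtain ⟨e, he⟩ : ∃ e : ℕ, w.valuation M (1 - algebraMap F M ζ) = exp (-(e : ℤ)) := by
    have h0 : w.valuation M (1 - algebraMap F M ζ) ≠ 0 := by
      rw [Valuation.ne_zero_iff]
      intro h1
      have h2 : algebraMap F M ζ = 1 := (sub_eq_zero.1 h1).symm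
      rw [h2] at hζM
      exact hpp.one_lt.ne' (hζM.unique IsPrimitiveRoot.one)
    have h1 := RG.val_one_sub_lt hζM hw
    rw [← exp_log h0, ← exp_zero, exp_lt_exp] at h1
    refine ⟨(-log (w.valuation M (1 - algebraMap F M ζ))).toNat, ?_⟩
    rw [Int.toNat_of_nonneg (by omega), neg_neg, exp_log h0]
  -- the uniformizer
  obtain ⟨π, hπ⟩ : ∃ π : F, w.valuation M (algebraMap F M π) = exp (-(1 : ℤ)) := by
    obtain ⟨ϖ, hϖ⟩ := RG.H.exists_unif (below w : Pr F)
    refine ⟨(ϖ : F), ?_⟩
    have h1 := RG.H.e_one w hunr ϖ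
    rw [hϖ, RG.H.vl_eq_iff, RG.H.emb_val] at h1
    exact h1
  have hπ0 : π ≠ 0 := by
    intro h0
    rw [h0, map_zero, map_zero] at hπ
    exact exp_ne_zero hπ.symm
  have key : ∀ i : ℕ, 1 ≤ i → i ≤ p * e → ∃ (c : F) (x : M), c ≠ 0 ∧ x ≠ 0 ∧
      w.valuation M (algebraMap F M c * α / x ^ p - 1) ≤ exp (-(i : ℤ)) := by
    intro i hi1
    induction i, hi1 using Nat.le_induction with
    | base =>
      intro _
      have hα0 : w.valuation M α ≠ 0 := (Valuation.ne_zero_iff _).2 hα
      have h1 : w.valuation M (algebraMap F M (π ^ (log (w.valuation M α))) * α) = 1 := by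
        rw [map_mul, map_zpow₀, map_zpow₀, hπ]
        nth_rewrite 2 [← exp_log hα0]
        rw [← exp_zsmul, ← exp_add, ← exp_zero]
        congr 1
        simp
      obtain ⟨z, hz1, hz⟩ := e22b_root hw h1.le
      have hz2 : w.valuation M z = 1 := by
        rcases lt_or_eq_of_le hz1 with h2 | h2
        · exfalso
          have h3 : w.valuation M (z ^ p) < 1 := by
            rw [map_pow]
            exact pow_lt_one₀ zero_le h2 hpp.ne_zero
          have h4 : algebraMap F M (π ^ (log (w.valuation M α))) * α =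
              (algebraMap F M (π ^ (log (w.valuation M α))) * α - z ^ p) + z ^ p := by ring
          rw [h4] at h1
          exact absurd h1 ((Valuation.map_add _ _ _).trans_lt (max_lt hz h3)).ne
        · exact h2
      have hz0 : z ≠ 0 := by
        intro h0
        rw [h0, map_zero] at hz2
        exact zero_ne_one hz2
      refine ⟨π ^ (log (w.valuation M α)), z, zpow_ne_zero _ hπ0, hz0, ?_⟩
      rw [div_sub_one (pow_ne_zero _ hz0), map_div₀, map_pow, hz2, one_pow, div_one]
      have := e22b_lt (n := 0) (by rw [exp_zero]; exact hz)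
      simpa using this
    | succ i hi0 ih =>
      intro hi
      obtain ⟨c, x, hc, hx, hcx⟩ := ih (by omega)
      have hβh : ∀ σ : M ≃ₐ[F] M, ∃ b : M,
          σ (algebraMap F M c * α / x ^ p) = b ^ p * (algebraMap F M c * α / x ^ p) := by
        intro σ
        obtain ⟨b, hb⟩ := h σ
        refine ⟨b * x / σ x, ?_⟩
        have hσx : σ x ≠ 0 := by
          intro h0
          exact hx (by simpa using h0)
        rw [map_div₀, map_mul, AlgEquiv.commutes, hb, map_pow, div_pow, mul_pow]
        field_simp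
      obtain ⟨c', x', hc', hx', hcx'⟩ :=
        e22b_step hζ hw hπ he hi0 (by omega) hβh hcx
      refine ⟨c' * c, x' * x, mul_ne_zero hc' hc, mul_ne_zero hx' hx, ?_⟩
      have e1 : algebraMap F M (c' * c) * α / (x' * x) ^ p =
          algebraMap F M c' * (algebraMap F M c * α / x ^ p) / x' ^ p := by
        rw [map_mul, mul_pow]
        field_simp
      rw [e1]
      exact_mod_cast hcx'
  have he1 : 1 ≤ p * e := by
    have h1 := RG.val_one_sub_lt hζM hw
    rw [he, ← exp_zero, exp_lt_exp] at h1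
    exact Nat.mul_pos hpp.pos (by omega)
  obtain ⟨c, x, hc, hx, hcx⟩ := key (p * e) he1 le_rfl
  refine ⟨c, x, hc, hx, hcx.trans (le_of_eq ?_)⟩
  rw [he, ← exp_nsmul]
  congr 1
  simp

end Pool.Agent.RGK
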