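import Mathlib
import Pool.Agent.Lib.RG.E22a
import Pool.Agent.Lib.RG.H10
import Pool.Agent.Lib.RGK.BDefs
import Pool.Agent.Lib.RGK.B1
import Pool.Agent.Lib.RGK.B2
import Pool.Agent.Lib.RGK.E22b

/-!
RG v4, row E22: the `p`-adic adjustment. For every prime `v` of `F` above `p` choose a prime `w_v` of `M`
above it (`H.exists_above`) and `c_v`, `x_v` by `padic_local`. By weak approximation (`H.weak_approx`,
H10, applied to the finite set of primes above `p`, `H.fin_above`) there is `c : Fˣ` with `c / c_v` in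
`UU v n` for all `v` above `p`, `n` large. For
another prime `w` above the same `v` take `τ` with `w (τ y) = w_v y` (`exists_conjK`) and apply `τ`:
`τ α = b ^ p α`, `τ c = c`, `x := τ x_v / b`.
-/

set_option autoImplicit false

namespace Pool.Agent.RGK

open NumberField IsDedekindDomain
open Pool.Agent.RG (Above IsDec IsInert IsFrob Lies)
open Pool.Agent.RG.H (Pr below)

private theorem e22_loc {p : ℕ} [Fact p.Prime] (hp : p ≠ 2) {F M : Type} [Field F] [NumberField F]
    [Field M] [NumberField M] [Algebra F M] [IsGalois F M] {ζ : F} (hζ : IsPrimitiveRoot ζ p)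
    (hunr : ∀ w : Pr M, Above w p → ∀ σ : M ≃ₐ[F] M, IsInert w σ → σ = 1) {α : M} (hα : α ≠ 0)
    (h : ∀ σ : M ≃ₐ[F] M, ∃ b : M, σ α = b ^ p * α) (w : Pr M) :
    ∃ (c : Fˣ) (x : M) (n : ℕ), x ≠ 0 ∧ (Above w p →
      w.valuation M (algebraMap F M (c : F) * α / x ^ p - 1) ≤
        w.valuation M (1 - algebraMap F M ζ) ^ p ∧
      WithZero.exp (-(n : ℤ)) ≤ w.valuation M (1 - algebraMap F M ζ) ^ p) := by
  have hpp : p.Prime := Fact.out
  by_cases hw : Above w p
  · obtain ⟨c, x, hc, hx, hcx⟩ := padic_local hp hζ hw (hunr w hw) hα h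
    have h0 : w.valuation M (1 - algebraMap F M ζ) ^ p ≠ 0 := by
      apply pow_ne_zero
      rw [Valuation.ne_zero_iff]
      intro h1
      have h2 : algebraMap F M ζ = 1 := (sub_eq_zero.1 h1).symm
      have hζM : IsPrimitiveRoot (algebraMap F M ζ) p :=
        hζ.map_of_injective (algebraMap F M).injective
      rw [h2] at hζM
      exact hpp.one_lt.ne' (hζM.unique IsPrimitiveRoot.one)
    refine ⟨Units.mk0 c hc, x, (-(WithZero.log (w.valuation M (1 - algebraMap F M ζ) ^ p))).toNat,
      hx, fun _ => ⟨hcx, ?_⟩⟩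
    rw [← WithZero.exp_log h0, WithZero.exp_le_exp, WithZero.log_exp]
    have := Int.self_le_toNat (-(WithZero.log (w.valuation M (1 - algebraMap F M ζ) ^ p)))
    omega
  · exact ⟨1, 1, 0, one_ne_zero, fun h' => absurd h' hw⟩

theorem padic_adjustK {p : ℕ} [Fact p.Prime] (hp : p ≠ 2) {F M : Type} [Field F] [NumberField F]
    [Field M] [NumberField M] [Algebra F M] [IsGalois F M] {ζ : F} (hζ : IsPrimitiveRoot ζ p)
    (hunr : ∀ w : Pr M, Above w p → ∀ σ : M ≃ₐ[F] M, IsInert w σ → σ = 1) {α : M} (hα : α ≠ 0)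
    (h : ∀ σ : M ≃ₐ[F] M, ∃ b : M, σ α = b ^ p * α) :
    ∃ c : F, c ≠ 0 ∧ ∀ w : Pr M, Above w p → ∃ x : M, x ≠ 0 ∧
      w.valuation M (algebraMap F M c * α / x ^ p - 1) ≤ w.valuation M (1 - algebraMap F M ζ) ^ p := by
  classical
  have hpp : p.Prime := Fact.out
  have hζM : IsPrimitiveRoot (algebraMap F M ζ) p :=
    hζ.map_of_injective (algebraMap F M).injective
  obtain ⟨S, hS⟩ := RG.H.fin_above (K := F) p hpp.ne_zero
  have hW : ∀ v : Pr F, ∃ w : Pr M, (below w : Pr F) = v := fun v => RG.H.exists_above v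
  choose W hWv using hW
  choose c x n hx hc using fun w : Pr M => e22_loc hp hζ hunr hα h w
  obtain ⟨y, hy⟩ := RG.H.weak_approx S (fun v => c (W v)) (S.sup fun v => n (W v))
  refine ⟨(y : F), y.ne_zero, ?_⟩
  -- at the chosen primes
  have key : ∀ v : Pr F, Above v p →
      (W v).valuation M (algebraMap F M (y : F) * α / x (W v) ^ p - 1) ≤
        (W v).valuation M (1 - algebraMap F M ζ) ^ p := by
    intro v hv
    have hvS : v ∈ S := hS v hv
    have hWp : Above (W v) p := by
      rw [RG.H.above_iff (K := F) (W v) p, hWv]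
      exact hv
    obtain ⟨h1, h2⟩ := hc (W v) hWp
    have hlt1 : (W v).valuation M (1 - algebraMap F M ζ) ^ p ≤ 1 :=
      pow_le_one' (RG.val_one_sub_lt hζM hWp).le p
    obtain ⟨e, he, hev⟩ := RG.H.exists_e_val (K := F) (W v)
    rw [hWv] at hev
    have h3 := (hy v hvS).2
    have h4 : (W v).valuation M (algebraMap F M (((y / c (W v) : Fˣ) : F) - 1)) ≤
        (W v).valuation M (1 - algebraMap F M ζ) ^ p := by
      rw [hev]
      have h5 : v.valuation F (((y / c (W v) : Fˣ) : F) - 1) ≤ 1 := by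
        refine h3.trans ?_
        rw [← WithZero.exp_zero, WithZero.exp_le_exp]
        omega
      refine (pow_le_of_le_one zero_le h5 (by omega)).trans (h3.trans (le_trans ?_ h2))
      rw [WithZero.exp_le_exp]
      have h6 : n (W v) ≤ S.sup fun v => n (W v) := Finset.le_sup (f := fun v => n (W v)) hvS
      omega
    have h7 : (W v).valuation M (algebraMap F M (c (W v) : F) * α / x (W v) ^ p) ≤ 1 := by
      have e1 : algebraMap F M (c (W v) : F) * α / x (W v) ^ p =
          (algebraMap F M (c (W v) : F) * α / x (W v) ^ p - 1) + 1 := by ring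
      rw [e1]
      exact (Valuation.map_add _ _ _).trans (max_le (h1.trans hlt1) (by rw [map_one]))
    have e2 : algebraMap F M (y : F) * α / x (W v) ^ p - 1 =
        algebraMap F M (((y / c (W v) : Fˣ) : F) - 1) *
          (algebraMap F M (c (W v) : F) * α / x (W v) ^ p) +
          (algebraMap F M (c (W v) : F) * α / x (W v) ^ p - 1) := by
      have hc0 : algebraMap F M (c (W v) : F) ≠ 0 := by
        intro h0
        exact (c (W v)).ne_zero ((map_eq_zero _).1 h0)
      have hx0 := hx (W v)
      rw [map_sub, map_one, Units.val_div_eq_div_val, map_div₀]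
      field_simp
      ring
    rw [e2]
    refine (Valuation.map_add _ _ _).trans (max_le ?_ h1)
    rw [map_mul]
    exact (mul_le_mul' h4 h7).trans (by rw [mul_one])
  intro w hw
  have hv : Above (below w : Pr F) p := (RG.H.above_iff (K := F) w p).1 hw
  have h1 := key (below w) hv
  obtain ⟨τ, hτ⟩ := exists_conjK (K := F) (w := W (below w)) (w' := w) (hWv (below w))
  obtain ⟨b, hb⟩ := h τ
  have hb0 : b ≠ 0 := by
    rintro rfl
    rw [zero_pow hpp.ne_zero, zero_mul] at hb
    exact hα (by simpa using hb)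
  have hτx : τ (x (W (below w))) ≠ 0 := by
    intro h0
    exact hx (W (below w)) (by simpa using h0)
  refine ⟨τ (x (W (below w))) / b, div_ne_zero hτx hb0, ?_⟩
  have e3 : algebraMap F M (y : F) * α / (τ (x (W (below w))) / b) ^ p - 1 =
      τ (algebraMap F M (y : F) * α / x (W (below w)) ^ p - 1) := by
    rw [map_sub, map_one, map_div₀, map_mul, AlgEquiv.commutes, hb, map_pow, div_pow]
    field_simp
  have e4 : 1 - algebraMap F M ζ = τ (1 - algebraMap F M ζ) := by
    rw [map_sub, map_one, AlgEquiv.commutes]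
  rw [e3, e4, hτ, hτ]
  exact h1

end Pool.Agent.RGK
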