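import Mathlib
import Pool.Agent.Lib.RG.E23
import Pool.Agent.Lib.RGK.BDefs

/-!
RG v4, row E23: the Kummer field `N`. Copy E23 of RG, replacing `ℚ` by `K`.
-/

set_option autoImplicit false

namespace Pool.Agent.RGK

open NumberField IsDedekindDomain
open Pool.Agent.RG (Above IsDec IsInert IsFrob Lies)
open Pool.Agent.RG.H (Pr below)

/-- the automorphisms over `K` which fix the element `z` -/
def fixK (K : Type) [Field K] {N : Type} [Field N] [Algebra K N] (z : N) :
    Subgroup (N ≃ₐ[K] N) where
  carrier := {g | g z = z}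
  mul_mem' := fun {a b} ha hb => by
    show a (b z) = z
    rw [show b z = z from hb, show a z = z from ha]
  one_mem' := rfl
  inv_mem' := fun {a} ha => by
    show a.symm z = z
    rw [AlgEquiv.symm_apply_eq]
    exact (show a z = z from ha).symm

private theorem mem_fixK {K : Type} [Field K] {N : Type} [Field N] [Algebra K N] (z : N)
    (g : N ≃ₐ[K] N) : g ∈ fixK K z ↔ g z = z := Iff.rfl

private theorem fixK_eq_ker {K : Type} [Field K] {p : ℕ} [Fact p.Prime] {N : Type} [Field N]
    [Algebra K N] {z : N} (hz : IsPrimitiveRoot z p) : fixK K z = (hz.autToPow K).ker := by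
  ext g
  rw [mem_fixK, MonoidHom.mem_ker]
  have hs := hz.autToPow_spec K g
  constructor
  · intro hg
    apply Units.ext
    rw [hg] at hs
    have h1 : ((hz.autToPow K g : (ZMod p)ˣ) : ZMod p).val = 1 := by
      refine hz.pow_inj (ZMod.val_lt _) (Fact.out : p.Prime).one_lt ?_
      rw [hs, pow_one]
    have h2 : (((hz.autToPow K g : (ZMod p)ˣ) : ZMod p).val : ZMod p) = ((1 : ℕ) : ZMod p) := by
      rw [h1]
    rw [ZMod.natCast_zmod_val] at h2
    rw [h2]
    simp
  · intro hg
    rw [hg] at hs
    haveI : Fact (1 < p) := ⟨(Fact.out : p.Prime).one_lt⟩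
    rw [Units.val_one, ZMod.val_one, pow_one] at hs
    exact hs.symm

theorem fixK_normal {K : Type} [Field K] {p : ℕ} [Fact p.Prime] {N : Type} [Field N] [Algebra K N]
    {z : N} (hz : IsPrimitiveRoot z p) : (fixK K z).Normal := by
  rw [fixK_eq_ker hz]
  infer_instance

theorem fixK_index {K : Type} [Field K] {p : ℕ} [Fact p.Prime] {N : Type} [Field N] [Algebra K N]
    {z : N} (hz : IsPrimitiveRoot z p) : (fixK K z).index.Coprime p := by
  rw [fixK_eq_ker hz, Subgroup.index_ker]
  have h1 : Nat.card (hz.autToPow K).range ∣ p - 1 := by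
    have h2 := Subgroup.card_subgroup_dvd_card (hz.autToPow K).range
    rw [Nat.card_eq_fintype_card (α := (ZMod p)ˣ), ZMod.card_units] at h2
    exact h2
  have hp := (Fact.out : p.Prime)
  refine Nat.Coprime.coprime_dvd_left h1 ?_
  rw [Nat.coprime_comm, hp.coprime_iff_not_dvd]
  intro h
  have h3 := Nat.le_of_dvd (by have := hp.two_le; omega) h
  have := hp.two_le
  omega

private theorem pow_mem_rangeK {K M N : Type} [Field K] [NumberField K] [Field M] [NumberField M]
    [Algebra K M] [IsGalois K M] [Field N] [Algebra M N] [Algebra K N] [IsScalarTower K M N] (β : M) (b : N)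
    (hb : Polynomial.aeval b (minpoly K β) = 0) : ∃ m : M, algebraMap M N m = b := by
  have hsp : ((minpoly K β).map (algebraMap K M)).Splits := Normal.splits inferInstance β
  have h1 : Polynomial.aeval b ((minpoly K β).map (algebraMap K M)) = 0 := by
    rw [Polynomial.aeval_map_algebraMap]
    exact hb
  have hne : (minpoly K β).map (algebraMap K M) ≠ 0 := by
    rw [Ne, Polynomial.map_eq_zero]
    exact minpoly.ne_zero (Algebra.IsIntegral.isIntegral β)
  have hroot : b ∈ (((minpoly K β).map (algebraMap K M)).map (algebraMap M N)).roots := by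
    rw [Polynomial.mem_roots]
    · rw [Polynomial.IsRoot.def, Polynomial.eval_map, ← Polynomial.aeval_def]
      exact h1
    · rw [Ne, Polynomial.map_eq_zero]
      exact hne
  rw [hsp.roots_map] at hroot
  rw [Multiset.mem_map] at hroot
  obtain ⟨m, _, hm⟩ := hroot
  exact ⟨m, hm⟩

private theorem main_NK {K : Type} [Field K] [NumberField K] {p : ℕ} [Fact p.Prime] {M : Type}
    [Field M] [NumberField M] [Algebra K M] [IsGalois K M]
    {ζ : M} (hζ : IsPrimitiveRoot ζ p) (hM : IsPGroup p (fixK K ζ)) (β : M) (hβ : β ≠ 0)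
    (N : Type) [Field N] [NumberField N] [Algebra M N] [Algebra K N] [IsScalarTower K M N]
    (hN : (((minpoly K β).comp (Polynomial.X ^ p)).map (algebraMap K M)).IsSplittingField M N) :
    ∃ (_ : IsGalois K N) (i : M →ₐ[K] N) (A : N),
      A ^ p = i β ∧ IsPGroup p (fixK K (i ζ)) := by
  have hp := (Fact.out : p.Prime)
  set f₀ : Polynomial K := (minpoly K β).comp (Polynomial.X ^ p) with hf₀
  have hmin : minpoly K β ≠ 0 := minpoly.ne_zero (Algebra.IsIntegral.isIntegral β)
  have hf₀ne : f₀ ≠ 0 := by
    intro h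
    rw [hf₀, Polynomial.comp_eq_zero_iff] at h
    rcases h with h | ⟨_, h⟩
    · exact hmin h
    · have h2 : (Polynomial.X ^ p : Polynomial K).natDegree = p := by simp
      rw [h, Polynomial.natDegree_C] at h2
      exact hp.ne_zero h2.symm
  have hfne : f₀.map (algebraMap K M) ≠ 0 := by
    rw [Ne, Polynomial.map_eq_zero]
    exact hf₀ne
  have hfne' : (f₀.map (algebraMap K M)).map (algebraMap M N) ≠ 0 := by
    rw [Ne, Polynomial.map_eq_zero]
    exact hfne
  -- Galois
  have hgal : IsGalois K N := by
    obtain ⟨g₀, hg₀⟩ := Normal.exists_isSplittingField K M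
    by_cases hg : g₀ = 0
    · subst hg
      have h1 : (⊤ : Subalgebra K M) = ⊥ := by
        have h2 := hg₀.adjoin_rootSet
        rw [← h2]
        simp
      have h3 : Polynomial.IsSplittingField K M (1 : Polynomial K) := by
        refine ⟨by simp, ?_⟩
        rw [h1]
        simp
      haveI := h3
      haveI := hN
      haveI h4 := Polynomial.IsSplittingField.mul (F := K) (K := M) (L := N) 1 f₀ one_ne_zero hf₀ne
      haveI := Normal.of_isSplittingField (F := K) (E := N) (1 * f₀)
      exact ⟨⟩
    · haveI := hg₀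
      haveI := hN
      haveI h4 := Polynomial.IsSplittingField.mul (F := K) (K := M) (L := N) g₀ f₀ hg hf₀ne
      haveI := Normal.of_isSplittingField (F := K) (E := N) (g₀ * f₀)
      exact ⟨⟩
  refine ⟨hgal, IsScalarTower.toAlgHom K M N, ?_⟩
  -- the root
  have hdvd : (Polynomial.X ^ p - Polynomial.C β) ∣ f₀.map (algebraMap K M) := by
    have h1 : (Polynomial.X - Polynomial.C β) ∣ (minpoly K β).map (algebraMap K M) := by
      rw [Polynomial.dvd_iff_isRoot, Polynomial.IsRoot.def, Polynomial.eval_map_algebraMap]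
      exact minpoly.aeval K β
    obtain ⟨q, hq⟩ := h1
    refine ⟨q.comp (Polynomial.X ^ p), ?_⟩
    rw [hf₀, Polynomial.map_comp, hq, Polynomial.mul_comp, Polynomial.sub_comp, Polynomial.X_comp,
      Polynomial.C_comp, Polynomial.map_pow, Polynomial.map_X]
  have hsplit : ((Polynomial.X ^ p - Polynomial.C β : Polynomial M).map (algebraMap M N)).Splits := by
    refine Polynomial.Splits.of_dvd hN.splits hfne' ?_
    exact Polynomial.map_dvd _ hdvd
  obtain ⟨A, hA⟩ : ∃ A : N, A ^ p = algebraMap M N β := by
    have hdeg : ((Polynomial.X ^ p - Polynomial.C β : Polynomial M).map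
        (algebraMap M N)).degree ≠ 0 := by
      rw [Polynomial.degree_map, Polynomial.degree_X_pow_sub_C hp.pos]
      simpa using hp.ne_zero
    obtain ⟨A, hA⟩ := hsplit.exists_eval_eq_zero hdeg
    refine ⟨A, ?_⟩
    simpa [sub_eq_zero] using hA
  refine ⟨A, hA, ?_⟩
  rintro ⟨g, hg⟩
  rw [mem_fixK, IsScalarTower.coe_toAlgHom'] at hg
  have hζN : IsPrimitiveRoot (algebraMap M N ζ) p := hζ.map_of_injective (algebraMap M N).injective
  -- restriction to M
  have hcomm : ∀ (h : N ≃ₐ[K] N) (m : M), algebraMap M N ((AlgEquiv.restrictNormalHom M h) m) =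
      h (algebraMap M N m) := fun h m => AlgEquiv.restrictNormal_commutes h M m
  have hr : AlgEquiv.restrictNormalHom M g ∈ fixK K ζ := by
    rw [mem_fixK]
    apply (algebraMap M N).injective
    rw [hcomm, hg]
  obtain ⟨k, hk⟩ := hM ⟨_, hr⟩
  have hk' : (AlgEquiv.restrictNormalHom M g) ^ (p ^ k) = 1 := by
    have := congrArg Subtype.val hk
    simpa using this
  set h := g ^ (p ^ k) with hh
  have hfix : ∀ m : M, h (algebraMap M N m) = algebraMap M N m := by
    intro m
    rw [← hcomm, hh, map_pow, hk']
    rfl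
  have hroots : ∀ a : N, Polynomial.aeval a f₀ = 0 → (h ^ p) a = a := by
    intro a ha
    have hb : Polynomial.aeval (a ^ p) (minpoly K β) = 0 := by
      rw [hf₀, Polynomial.aeval_comp] at ha
      simpa using ha
    obtain ⟨m, hm⟩ := pow_mem_rangeK β (a ^ p) hb
    by_cases ha0 : a = 0
    · rw [ha0, map_zero]
    have h1 : (h a / a) ^ p = 1 := by
      rw [div_pow, ← map_pow, ← hm, hfix, div_self]
      rw [hm]
      exact pow_ne_zero _ ha0
    obtain ⟨j, _, hj⟩ := hζN.eq_pow_of_pow_eq_one h1
    have h2 : h a = a * (algebraMap M N ζ) ^ j := by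
      rw [hj]
      field_simp
    have h3 : ∀ n : ℕ, (h ^ n) a = a * ((algebraMap M N ζ) ^ j) ^ n := by
      intro n
      induction n with
      | zero => simp
      | succ n ih =>
        rw [pow_succ', AlgEquiv.mul_apply, ih, map_mul, h2, map_pow, map_pow, hfix]
        ring
    rw [h3, ← pow_mul, mul_comm j p, pow_mul, hζN.pow_eq_one, one_pow, mul_one]
  have hfixp : ∀ m : M, (h ^ p) (algebraMap M N m) = algebraMap M N m := by
    intro m
    have : ∀ n : ℕ, (h ^ n) (algebraMap M N m) = algebraMap M N m := by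
      intro n
      induction n with
      | zero => simp
      | succ n ih => rw [pow_succ', AlgEquiv.mul_apply, ih, hfix]
    exact this p
  let S : Subalgebra M N :=
    { carrier := {x | (h ^ p) x = x}
      mul_mem' := fun {a b} ha hb => by
        show (h ^ p) (a * b) = a * b
        rw [map_mul, show (h ^ p) a = a from ha, show (h ^ p) b = b from hb]
      add_mem' := fun {a b} ha hb => by
        show (h ^ p) (a + b) = a + b
        rw [map_add, show (h ^ p) a = a from ha, show (h ^ p) b = b from hb]
      algebraMap_mem' := fun m => hfixp m }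
  have hS : S = ⊤ := by
    rw [eq_top_iff, ← hN.adjoin_rootSet]
    apply Algebra.adjoin_le
    intro a ha
    rw [Polynomial.mem_rootSet] at ha
    show (h ^ p) a = a
    apply hroots
    have := ha.2
    rwa [Polynomial.aeval_map_algebraMap] at this
  refine ⟨k + 1, ?_⟩
  apply Subtype.ext
  show g ^ (p ^ (k + 1)) = 1
  rw [pow_succ, pow_mul]
  ext x
  have hx : x ∈ S := by rw [hS]; trivial
  exact hx

theorem exists_NK {K : Type} [Field K] [NumberField K] {p : ℕ} [Fact p.Prime] {M : Type} [Field M]
    [NumberField M] [Algebra K M] [IsGalois K M] {ζ : M} (hζ : IsPrimitiveRoot ζ p)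
    (hM : IsPGroup p (fixK K ζ)) (β : M) (hβ : β ≠ 0) :
    ∃ (N : Type) (_ : Field N) (_ : NumberField N) (_ : Algebra K N) (_ : IsGalois K N)
      (i : M →ₐ[K] N) (A : N), A ^ p = i β ∧ IsPGroup p (fixK K (i ζ)) := by
  let f : Polynomial M := ((minpoly K β).comp (Polynomial.X ^ p)).map (algebraMap K M)
  haveI : CharZero f.SplittingField :=
    charZero_of_injective_algebraMap (algebraMap M f.SplittingField).injective
  haveI h1 : FiniteDimensional M f.SplittingField := inferInstance
  haveI : NumberField f.SplittingField := by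
    haveI : IsScalarTower ℚ M f.SplittingField := IsScalarTower.rat
    exact { to_finiteDimensional := FiniteDimensional.trans ℚ M f.SplittingField }
  obtain ⟨hg, i, A, hA, hP⟩ := main_NK hζ hM β hβ f.SplittingField
    (Polynomial.IsSplittingField.splittingField f)
  exact ⟨f.SplittingField, inferInstance, inferInstance, inferInstance, hg, i, A, hA, hP⟩

end Pool.Agent.RGK
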