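import Mathlib
import Pool.Agent.Lib.RG.E24
import Pool.Agent.Lib.RGK.BDefs
import Pool.Agent.Lib.RGK.B4
import Pool.Agent.Lib.RGK.E23

/-!
RG v4, row E24: the homomorphism to `E` on the stabilizer of `ζ`. Copy E24 of RG, replacing `ℚ` by `K`.
-/

set_option autoImplicit false

namespace Pool.Agent.RGK

open NumberField IsDedekindDomain
open Pool.Agent.RG (Above IsDec IsInert IsFrob Lies)
open Pool.Agent.RG.H (Pr below)

private theorem E24_restrictK {K M N : Type} [Field K] [Field M] [Algebra K M] [IsGalois K M]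
    [Field N] [Algebra K N] (i : M →ₐ[K] N) (g : N ≃ₐ[K] N) :
    ∃ gM : M ≃ₐ[K] M, ∀ x, g (i x) = i (gM x) := by
  let _ : Algebra M N := i.toRingHom.toAlgebra
  have : IsScalarTower K M N := IsScalarTower.of_algebraMap_eq fun q => (i.commutes q).symm
  refine ⟨g.restrictNormal M, fun x => ?_⟩
  exact (AlgEquiv.restrictNormal_commutes g M x).symm

theorem exists_psiK {K : Type} [Field K] [NumberField K] {p : ℕ} [Fact p.Prime] {M N : Type}
    [Field M] [NumberField M] [Algebra K M] [IsGalois K M] [Field N] [NumberField N] [Algebra K N]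
    {ζ : M} (hζ : IsPrimitiveRoot ζ p) {E : Type} [Group E] [Finite E]
    {ρ : E →* (M ≃ₐ[K] M)} (hρ : ∀ e, ρ e ζ = ζ)
    (hsurj : ∀ g : M ≃ₐ[K] M, g ζ = ζ → ∃ e, g = ρ e) (hcard : Nat.card ρ.ker = p)
    (b : E → M) (hb0 : ∀ e, b e ≠ 0) (hb : ∀ e f, b (e * f) = b e * ρ e (b f))
    (hbinj : ∀ z ∈ ρ.ker, b z = 1 → z = 1) (β : M) (hβ : β ≠ 0)
    (hbβ : ∀ e, b e ^ p * β = ρ e β) (i : M →ₐ[K] N) (A : N) (hA : A ^ p = i β) :
    ∃ ψ : fixK K (i ζ) →* E,
      (∀ (g : fixK K (i ζ)) (x : M), (g : N ≃ₐ[K] N) (i x) = i (ρ (ψ g) x)) ∧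
      ∀ g : fixK K (i ζ), (g : N ≃ₐ[K] N) A = i (b (ψ g)) * A := by
  have hp : p.Prime := Fact.out
  have hi : Function.Injective i := i.injective
  have hA0 : A ≠ 0 := by
    rintro rfl
    rw [zero_pow hp.ne_zero] at hA
    exact hβ (hi (by rw [← hA, map_zero]))
  have hb1 : b 1 = 1 := by
    have h := hb 1 1
    rw [mul_one, map_one, AlgEquiv.one_apply] at h
    exact (mul_eq_left₀ (hb0 1)).1 h.symm
  have hbz : ∀ z ∈ ρ.ker, ∀ k : ℕ, b (z ^ k) = b z ^ k := by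
    intro z hz k
    induction k with
    | zero => rw [pow_zero, pow_zero, hb1]
    | succ k ih =>
      have h1 : ρ (z ^ k) = 1 := (MonoidHom.mem_ker).1 (ρ.ker.pow_mem hz k)
      rw [pow_succ, hb, ih, h1, AlgEquiv.one_apply, pow_succ]
  -- every root of unity is `b z`
  have hroot : ∀ c : ℕ, ∃ z ∈ ρ.ker, b z = ζ ^ c := by
    intro c
    have hnt : Nontrivial ρ.ker := by
      have : Finite ρ.ker := inferInstance
      rw [← Finite.one_lt_card_iff_nontrivial, hcard]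
      exact hp.one_lt
    obtain ⟨⟨z, hz⟩, hz1⟩ := exists_ne (1 : ρ.ker)
    have hz1' : z ≠ 1 := fun h => hz1 (Subtype.ext h)
    have h1 : b z ^ p = 1 := by
      have h := hbβ z
      rw [(MonoidHom.mem_ker).1 hz, AlgEquiv.one_apply] at h
      exact (mul_eq_right₀ hβ).1 h
    obtain ⟨j, _, hj⟩ := hζ.eq_pow_of_pow_eq_one h1
    have hjp : IsPrimitiveRoot (ζ ^ j) p := by
      refine hζ.pow_of_coprime j ?_
      rw [Nat.coprime_comm, hp.coprime_iff_not_dvd]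
      rintro ⟨c, rfl⟩
      apply hz1'
      apply hbinj z hz
      rw [← hj, pow_mul, hζ.pow_eq_one, one_pow]
    obtain ⟨k, _, hk⟩ := hjp.eq_pow_of_pow_eq_one (ξ := ζ ^ c)
      (by rw [← pow_mul, mul_comm, pow_mul, hζ.pow_eq_one, one_pow])
    exact ⟨z ^ k, ρ.ker.pow_mem hz k, by rw [hbz z hz, ← hj, hk]⟩
  -- existence
  have hex : ∀ g : N ≃ₐ[K] N, g (i ζ) = i ζ →
      ∃ e, (∀ x, g (i x) = i (ρ e x)) ∧ g A = i (b e) * A := by
    intro g hg
    obtain ⟨gM, hgM⟩ := E24_restrictK i g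
    obtain ⟨e, he⟩ := hsurj gM (hi (by rw [← hgM, hg]))
    have h1 : ∀ x, g (i x) = i (ρ e x) := fun x => by rw [hgM, he]
    have h2 : (g A / (i (b e) * A)) ^ p = 1 := by
      rw [div_pow, mul_pow, ← map_pow, hA, h1, ← map_pow, ← map_mul, hbβ, div_self]
      rw [Ne, map_eq_zero, map_eq_zero]
      exact hβ
    have hζN : IsPrimitiveRoot (i ζ) p := hζ.map_of_injective hi
    obtain ⟨c, _, hc⟩ := hζN.eq_pow_of_pow_eq_one h2
    obtain ⟨z, hz, hbzc⟩ := hroot c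
    have hden : i (b e) * A ≠ 0 := mul_ne_zero (by rw [Ne, map_eq_zero]; exact hb0 e) hA0
    refine ⟨e * z, ?_, ?_⟩
    · intro x
      rw [map_mul, (MonoidHom.mem_ker).1 hz, mul_one, h1]
    · rw [hb, hbzc, map_pow, hρ, map_mul, map_pow, hc, mul_right_comm,
        mul_comm (i (b e) * A) _, div_mul_cancel₀ _ hden]
  -- uniqueness
  have huniq : ∀ e f : E, ρ e = ρ f → b e = b f → e = f := by
    intro e f h1 h2
    have hz : e⁻¹ * f ∈ ρ.ker := by
      rw [MonoidHom.mem_ker, map_mul, map_inv, h1, inv_mul_cancel]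
    have h3 : b (e * (e⁻¹ * f)) = b e * ρ e (b (e⁻¹ * f)) := hb _ _
    rw [mul_inv_cancel_left, ← h2] at h3
    have h4 : ρ e (b (e⁻¹ * f)) = 1 := (mul_eq_left₀ (hb0 e)).1 h3.symm
    have h5 : b (e⁻¹ * f) = 1 := by
      apply (ρ e).injective
      rw [h4, map_one]
    have h6 := hbinj _ hz h5
    exact (inv_mul_eq_one.1 h6)
  choose ψ hψ1 hψ2 using fun g : fixK K (i ζ) => hex g g.2
  refine ⟨MonoidHom.mk' ψ ?_, hψ1, hψ2⟩
  intro g h
  apply huniq
  · ext x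
    apply hi
    rw [← hψ1, map_mul, AlgEquiv.mul_apply, ← hψ1, ← hψ1, Subgroup.coe_mul, AlgEquiv.mul_apply]
  · have h1 : i (b (ψ (g * h))) * A = i (b (ψ g * ψ h)) * A := by
      rw [← hψ2, Subgroup.coe_mul, AlgEquiv.mul_apply, hψ2, map_mul, hψ1, hψ2, hb, map_mul]
      ring
    exact hi (mul_right_cancel₀ hA0 h1)

end Pool.Agent.RGK
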