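import Mathlib
import Pool.Agent.Lib.RG.E31
import Pool.Agent.Lib.RG.H03
import Pool.Agent.Lib.RGK.BDefs
import Pool.Agent.Lib.RGK.E28

/-!
RG v4, row E31: removing all the ramification outside `T`. Copy E31 of RG, replacing `ℚ` by `K`: induction
on the number of primes `v` outside `T` at which `N` is ramified (finite by `H.fin_ram`, H03); they are
not above `p` by `hp`.
-/

set_option autoImplicit false

namespace Pool.Agent.RGK

open NumberField IsDedekindDomain
open Pool.Agent.RG (Above IsDec IsInert IsFrob Lies)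
open Pool.Agent.RG.H (Pr below)


/-- the primes outside `T` that ramify -/
private def E31_badK {K : Type} [Field K] [NumberField K] (T : Set (Pr K)) (N : Type) [Field N]
    [NumberField N] [Algebra K N] : Set (Pr K) :=
  {v : Pr K | v ∉ T ∧ ¬ UnrAtK v N}

private theorem E31_badK_fin {K : Type} [Field K] [NumberField K] (T : Set (Pr K)) (N : Type)
    [Field N] [NumberField N] [Algebra K N] [IsGalois K N] : (E31_badK T N).Finite := by
  have h0 : {w : Pr N | ∃ σ : N ≃ₐ[K] N, σ ≠ 1 ∧ IsInert w σ}.Finite := Pool.Agent.RG.H.fin_ram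
  refine (h0.image (fun w => (below w : Pr K))).subset ?_
  rintro v ⟨-, h2⟩
  unfold UnrAtK at h2
  push Not at h2
  obtain ⟨w, hw, σ, hσ1, hσ2⟩ := h2
  exact ⟨w, ⟨σ, hσ2, hσ1⟩, hw⟩

private theorem E31_auxK {K : Type} [Field K] [NumberField K] {p : ℕ} [Fact p.Prime]
    {T : Set (Pr K)} (hT : CycExt p T) {L : Type} [Field L] [NumberField L] [Algebra K L]
    [IsGalois K L] {E : Type} [Group E] [Finite E] (hE : IsPGroup p E) (π : E →* (L ≃ₐ[K] L))
    (hker : π.ker ≤ Subgroup.center E) (hcard : Nat.card π.ker = p) (hunr : UnrOutK T L)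
    (n : ℕ) :
    ∀ {N : Type} [Field N] [NumberField N] [Algebra K N] [IsGalois K N] (j : L →ₐ[K] N)
    (Ψ : (N ≃ₐ[K] N) →* E), Function.Injective Ψ →
    (∀ (g : N ≃ₐ[K] N) (x : L), g (j x) = j (π (Ψ g) x)) →
    (∀ v : Pr K, v ∉ T → Above v p → UnrAtK v N) →
    (E31_badK T N).ncard ≤ n →
    ∃ (N' : Type) (_ : Field N') (_ : NumberField N') (_ : Algebra K N') (_ : IsGalois K N')
      (j' : L →ₐ[K] N') (Ψ' : (N' ≃ₐ[K] N') →* E), Function.Injective Ψ' ∧
      (∀ (g : N' ≃ₐ[K] N') (x : L), g (j' x) = j' (π (Ψ' g) x)) ∧ UnrOutK T N' := by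
  induction n with
  | zero =>
    intro N _ _ _ _ j Ψ hinj hΨ hp hn
    refine ⟨N, inferInstance, inferInstance, inferInstance, inferInstance, j, Ψ, hinj, hΨ, ?_⟩
    intro w hw σ hσ
    have h0 : E31_badK T N = ∅ := by
      rwa [Nat.le_zero, Set.ncard_eq_zero (E31_badK_fin T N)] at hn
    by_contra hne
    have h1 : (below w : Pr K) ∈ E31_badK T N := ⟨hw, fun h => hne (h w rfl σ hσ)⟩
    rw [h0] at h1
    exact h1
  | succ n ih =>
    intro N _ _ _ _ j Ψ hinj hΨ hp hn
    by_cases hle : (E31_badK T N).ncard ≤ n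
    · exact ih j Ψ hinj hΨ hp hle
    · obtain ⟨v, hv2, hv3⟩ : (E31_badK T N).Nonempty := by
        rw [Set.nonempty_iff_ne_empty]
        intro h0
        rw [h0, Set.ncard_empty] at hle
        exact hle (Nat.zero_le _)
      have hvp : ¬ Above v p := fun h => hv3 (hp v hv2 h)
      obtain ⟨N', _, _, _, _, j', Ψ', h1, h2, h3, h4⟩ :=
        remove_oneK hT hE π hker hcard hunr j Ψ hinj hΨ hv2 hvp
      refine ih j' Ψ' h1 h2 (fun v' hv' hp' => h4 v' hv' (fun h => hvp (h ▸ hp')) (hp v' hv' hp')) ?_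
      have h5 : E31_badK T N' ⊂ E31_badK T N := by
        refine ⟨?_, ?_⟩
        · rintro v' ⟨hv'2, hv'3⟩
          refine ⟨hv'2, fun h => hv'3 ?_⟩
          by_cases hv' : v' = v
          · rw [hv']
            exact h3
          · exact h4 v' hv'2 hv' h
        · intro h
          exact (h (⟨hv2, hv3⟩ : v ∈ E31_badK T N)).2 h3
      have h6 := Set.ncard_lt_ncard h5 (E31_badK_fin T N)
      omega

theorem remove_allK {K : Type} [Field K] [NumberField K] {p : ℕ} [Fact p.Prime] {T : Set (Pr K)}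
    (hT : CycExt p T) {L : Type} [Field L] [NumberField L] [Algebra K L]
    [IsGalois K L] {E : Type} [Group E] [Finite E] (hE : IsPGroup p E) (π : E →* (L ≃ₐ[K] L))
    (hker : π.ker ≤ Subgroup.center E) (hcard : Nat.card π.ker = p) (hunr : UnrOutK T L)
    {N : Type} [Field N] [NumberField N] [Algebra K N] [IsGalois K N] (j : L →ₐ[K] N)
    (Ψ : (N ≃ₐ[K] N) →* E) (hinj : Function.Injective Ψ)
    (hΨ : ∀ (g : N ≃ₐ[K] N) (x : L), g (j x) = j (π (Ψ g) x))
    (hp : ∀ v : Pr K, Above v p → UnrAtK v N) :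
    ∃ (N' : Type) (_ : Field N') (_ : NumberField N') (_ : Algebra K N') (_ : IsGalois K N')
      (j' : L →ₐ[K] N') (Ψ' : (N' ≃ₐ[K] N') →* E), Function.Injective Ψ' ∧
      (∀ (g : N' ≃ₐ[K] N') (x : L), g (j' x) = j' (π (Ψ' g) x)) ∧ UnrOutK T N' :=
  E31_auxK hT hE π hker hcard hunr _ j Ψ hinj hΨ (fun v _ h => hp v h) le_rfl

end Pool.Agent.RGK
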