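import Mathlib
import Pool.Agent.Lib.RG.E21
import Pool.Agent.Lib.RGK.BDefs
import Pool.Agent.Lib.RGK.B1
import Pool.Agent.Lib.RGK.B2

/-!
RG v4, row E21: transfer of inertia and Frobenius elements from `L` to `M = L(ζ)`. Copy E21 of RG,
replacing `ℚ` by `K` (`exists_frobK`, `exists_inert_liftK`, `IsFrob.restrictK`).
-/

set_option autoImplicit false

namespace Pool.Agent.RGK

open NumberField IsDedekindDomain
open Pool.Agent.RG (Above IsDec IsInert IsFrob Lies)
open Pool.Agent.RG.H (Pr below)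

private theorem E21_nat_le {M : Type} [Field M] [NumberField M] (w : HeightOneSpectrum (𝓞 M))
    (n : ℕ) : w.valuation M (n : M) ≤ 1 := by
  induction n with
  | zero => simp
  | succ n ih =>
    rw [Nat.cast_succ]
    exact (Valuation.map_add _ _ _).trans (max_le ih (by rw [map_one]))

private theorem E21_root {p : ℕ} (hp : p.Prime) {M : Type} [Field M] [NumberField M]
    (w : HeightOneSpectrum (𝓞 M)) {z : M} (hz : z ^ p = 1) : w.valuation M z = 1 := by
  have h1 : w.valuation M z ^ p = 1 := by rw [← map_pow, hz, map_one]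
  exact (pow_eq_one_iff_of_nonneg zero_le hp.ne_zero).1 h1

/-- a p-th root of unity congruent to 1 modulo a prime not above p is 1 -/
private theorem E21_one {p : ℕ} (hp : p.Prime) {M : Type} [Field M] [NumberField M]
    {w : HeightOneSpectrum (𝓞 M)} (hwp : ¬ Above w p) {z : M} (hz : z ^ p = 1)
    (h : w.valuation M (1 - z) < 1) : z = 1 := by
  by_contra hz1
  have h1 : IsPrimitiveRoot z p := by
    have h2 : orderOf z = p := by
      haveI : Fact p.Prime := ⟨hp⟩
      exact orderOf_eq_prime hz hz1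
    have h3 := IsPrimitiveRoot.orderOf z
    rwa [h2] at h3
  apply hwp
  obtain ⟨n, rfl⟩ : ∃ n, p = n + 1 := ⟨p - 1, (Nat.succ_pred_eq_of_pos hp.pos).symm⟩
  have h2 := h1.prod_one_sub_pow_eq_order
  have hn : n ≠ 0 := by
    rintro rfl
    exact hp.one_lt.ne' rfl
  show w.valuation M ((n + 1 : ℕ) : M) < 1
  rw [Nat.cast_succ, ← h2, map_prod]
  have h3 : ∀ k ∈ Finset.range n, w.valuation M (1 - z ^ (k + 1)) ≤ w.valuation M (1 - z) := by
    intro k _
    rw [← mul_neg_geom_sum, map_mul]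
    have h4 : w.valuation M (∑ i ∈ Finset.range (k + 1), z ^ i) ≤ 1 := by
      refine Valuation.map_sum_le _ fun i _ => ?_
      rw [map_pow, E21_root hp w hz, one_pow]
    exact mul_le_of_le_one_right' h4
  calc ∏ k ∈ Finset.range n, w.valuation M (1 - z ^ (k + 1))
      ≤ ∏ _k ∈ Finset.range n, w.valuation M (1 - z) := Finset.prod_le_prod' h3
    _ = w.valuation M (1 - z) ^ n := by rw [Finset.prod_const, Finset.card_range]
    _ < 1 := pow_lt_one₀ zero_le h hn

private theorem E21_eq {p : ℕ} (hp : p.Prime) {M : Type} [Field M] [NumberField M]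
    {w : HeightOneSpectrum (𝓞 M)} (hwp : ¬ Above w p) {z ζ : M} (hz : z ^ p = 1) (hζ : ζ ^ p = 1)
    (h : w.valuation M (z - ζ) < 1) : z = ζ := by
  have hζ0 : ζ ≠ 0 := by
    rintro rfl
    rw [zero_pow hp.ne_zero] at hζ
    exact zero_ne_one hζ
  have h1 : z * ζ⁻¹ = 1 := by
    refine E21_one hp hwp (by rw [mul_pow, inv_pow, hz, hζ, inv_one, mul_one]) ?_
    have h2 : 1 - z * ζ⁻¹ = -((z - ζ) * ζ⁻¹) := by
      rw [sub_mul, mul_inv_cancel₀ hζ0]
      ring
    rw [h2, Valuation.map_neg, map_mul, map_inv₀, E21_root hp w hζ, inv_one, mul_one]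
    exact h
  rw [← div_eq_mul_inv] at h1
  exact (div_eq_one_iff_eq hζ0).1 h1

theorem inert_transferK {K : Type} [Field K] [NumberField K] {p : ℕ} [Fact p.Prime] {L M : Type}
    [Field L] [NumberField L] [Algebra K L] [IsGalois K L] [Field M] [NumberField M] [Algebra K M]
    [IsGalois K M] {j : L →ₐ[K] M} {ζ : M} {θ : (L ≃ₐ[K] L) →* (M ≃ₐ[K] M)}
    (hζ : IsPrimitiveRoot ζ p) (hθ : ∀ h x, θ h (j x) = j (h x))
    (hsurj : ∀ g : M ≃ₐ[K] M, g ζ = ζ → ∃ h, g = θ h) {w : Pr M} {w₁ : Pr L} (hw : LiesA j w w₁)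
    (hwp : ¬ Above w p) {h : L ≃ₐ[K] L} (hh : IsInert w₁ h) : IsInert w (θ h) := by
  have hp : p.Prime := Fact.out
  obtain ⟨g, hg1, hg2⟩ := exists_inert_liftK hw hh
  have h1 : g ζ = ζ := by
    refine E21_eq hp hwp (by rw [← map_pow, hζ.pow_eq_one, map_one]) hζ.pow_eq_one ?_
    exact hg2.2 ζ (E21_root hp w hζ.pow_eq_one).le
  obtain ⟨h', rfl⟩ := hsurj g h1
  have h2 : h' = h := by
    ext x
    have h3 : j (h' x) = j (h x) := by rw [← hθ, hg1]
    exact j.injective h3
  rw [← h2]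
  exact hg2

theorem frob_transferK {K : Type} [Field K] [NumberField K] {p : ℕ} [Fact p.Prime] {L M : Type}
    [Field L] [NumberField L] [Algebra K L] [IsGalois K L] [Field M] [NumberField M] [Algebra K M]
    [IsGalois K M] {j : L →ₐ[K] M} {ζ : M} {θ : (L ≃ₐ[K] L) →* (M ≃ₐ[K] M)}
    (hζ : IsPrimitiveRoot ζ p) (hθ : ∀ h x, θ h (j x) = j (h x))
    (hsurj : ∀ g : M ≃ₐ[K] M, g ζ = ζ → ∃ h, g = θ h) {w : Pr M} {w₁ : Pr L} (hw : LiesA j w w₁)
    (hq : nm (below w : Pr K) % p = 1) {h : L ≃ₐ[K] L}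
    (hh : IsFrob w₁ (nm (below w : Pr K)) h) : IsFrob w (nm (below w : Pr K)) (θ h) := by
  have hp : p.Prime := Fact.out
  have hwp : ¬ Above w p := by
    intro h1
    have h2 : ¬ Above (below w : Pr K) p := not_above_of_nm hp hq
    have h3 : Lies (algebraMap K M) w (below w : Pr K) := (lies_iff_below w _).2 rfl
    exact h2 ((h3.above_iff p).1 h1)
  obtain ⟨g, hg⟩ := exists_frobK (K := K) w
  have hζq : ζ ^ nm (below w : Pr K) = ζ := by
    conv_lhs => rw [← Nat.div_add_mod (nm (below w : Pr K)) p, hq, pow_succ, pow_mul,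
      hζ.pow_eq_one, one_pow, one_mul]
  have h1 : g ζ = ζ := by
    refine E21_eq hp hwp (by rw [← map_pow, hζ.pow_eq_one, map_one]) hζ.pow_eq_one ?_
    have h2 := hg.2 ζ (E21_root hp w hζ.pow_eq_one).le
    rw [hζq] at h2
    exact h2
  obtain ⟨h', rfl⟩ := hsurj g h1
  have h3 : IsFrob w₁ (nm (below w : Pr K)) h' := IsFrob.restrictK hw (fun x => hθ h' x) hg
  have h4 := h3.inv_mul hh
  have h5 := inert_transferK hζ hθ hsurj hw hwp h4
  have h6 := hg.mul_inert h5
  rwa [← map_mul, mul_inv_cancel_left] at h6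

end Pool.Agent.RGK
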