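import Mathlib
import Pool.Agent.Lib.RG.E33
import Pool.Agent.Lib.RG.H01
import Pool.Agent.Lib.RGK.BDefs
import Pool.Agent.Lib.RGK.B1
import Pool.Agent.Lib.RGK.B2
import Pool.Agent.Lib.RGK.E21

/-!
RG v4, row E33: the local hypothesis of `bhn`. Copy `local_hyp` (E33 of RG), replacing `ℚ` by `K` and
`q` by `nm (below w)` (a prime number by `hT`; `Above w (nm (below w))`: the absolute norm of an ideal
belongs to the ideal, `Ideal.absNorm_mem`; `H.above_iff`, H01).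
-/

set_option autoImplicit false

namespace Pool.Agent.RGK

open NumberField IsDedekindDomain
open Pool.Agent.RG (Above IsDec IsInert IsFrob Lies)
open Pool.Agent.RG.H (Pr below)

theorem local_hypK {K : Type} [Field K] [NumberField K] {p : ℕ} [Fact p.Prime] {T : Set (Pr K)}
    (hT : ∀ v ∈ T, (nm v).Prime ∧ nm v % p = 1)
    {L M : Type} [Field L] [NumberField L] [Algebra K L] [IsGalois K L] [Field M] [NumberField M]
    [Algebra K M] [IsGalois K M] {E : Type} [Group E] (π : E →* (L ≃ₐ[K] L))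
    (hπ : Function.Surjective π) (hunr : UnrOutK T L)
    (hloc : ∀ v ∈ T, ∃ w : Pr L, (below w : Pr K) = v ∧ ∃ t s : E,
      (∀ σ : L ≃ₐ[K] L, IsInert w σ ↔ σ ∈ Subgroup.zpowers (π t)) ∧ IsFrob w (nm v) (π s) ∧
      s * t * s⁻¹ = t ^ nm v) {j : L →ₐ[K] M} {ζ : M} {θ : (L ≃ₐ[K] L) →* (M ≃ₐ[K] M)}
    (hζ : IsPrimitiveRoot ζ p) (hθ : ∀ h x, θ h (j x) = j (h x))
    (hsurj : ∀ g : M ≃ₐ[K] M, g ζ = ζ → ∃ h, g = θ h)
    (w : Pr M) (hwp : ¬ Above w p) (hg : ∃ g : E, IsInert w (θ (π g)) ∧ π g ≠ 1) :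
    ∃ (q : ℕ) (t s : E), q.Prime ∧ q % p = 1 ∧ Above w q ∧ IsInert w (θ (π t)) ∧
      (∀ g : E, IsInert w (θ (π g)) → ∃ k : ℤ, ∃ z ∈ π.ker, g = t ^ k * z) ∧
      IsFrob w q (θ (π s)) ∧ s * t * s⁻¹ = t ^ q := by
  obtain ⟨w₁, hw₁⟩ := Pool.Agent.RG.exists_below (j : L →+* M) w
  have hw₁' : LiesA j w w₁ := hw₁
  obtain ⟨g, hg, hg1⟩ := hg
  have hres : ∀ e : E, IsInert w (θ (π e)) → IsInert w₁ (π e) := fun e he =>
    IsInert.restrictK hw₁' (fun x => hθ (π e) x) he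
  have hbe : (below w : Pr K) = below w₁ := LiesA.below_eq hw₁'
  -- `w₁` lies above a prime of `T`
  have hv : (below w : Pr K) ∈ T := by
    by_contra hcon
    rw [hbe] at hcon
    exact hg1 (hunr w₁ hcon (π g) (hres g hg))
  obtain ⟨hqp, hq1⟩ := hT _ hv
  obtain ⟨w₀, hw₀, t₀, s₀, ht₀, hs₀, hrel⟩ := hloc _ hv
  obtain ⟨τ, hτ⟩ := exists_conjK (K := K) (w := w₀) (w' := w₁) (hw₀.trans hbe)
  obtain ⟨e, he⟩ := hπ τ
  have hinert₀ : IsInert w₀ (π t₀) := (ht₀ (π t₀)).mpr (Subgroup.mem_zpowers _)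
  have hwq : Above w (nm (below w : Pr K)) := by
    have h3 : Lies (algebraMap K M) w (below w : Pr K) := (lies_iff_below w _).2 rfl
    rw [h3.above_iff]
    unfold Above
    have h4 : ((nm (below w : Pr K) : ℕ) : K) =
        algebraMap (𝓞 K) K ((nm (below w : Pr K) : ℕ) : 𝓞 K) := (map_natCast _ _).symm
    rw [h4, HeightOneSpectrum.valuation_lt_one_iff_mem]
    exact Ideal.absNorm_mem _
  have ht1 : π (e * t₀ * e⁻¹) = τ * π t₀ * τ⁻¹ := by
    rw [map_mul, map_mul, map_inv, he]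
  have hs1 : π (e * s₀ * e⁻¹) = τ * π s₀ * τ⁻¹ := by
    rw [map_mul, map_mul, map_inv, he]
  refine ⟨nm (below w : Pr K), e * t₀ * e⁻¹, e * s₀ * e⁻¹, hqp, hq1, hwq, ?_, ?_, ?_, ?_⟩
  · refine inert_transferK hζ hθ hsurj hw₁' hwp ?_
    rw [ht1]
    exact IsInert.conj_toK hτ hinert₀
  · intro g' hg'
    have h1 := hres g' hg'
    -- move back to `w₀`
    have hτ' : ∀ x, w₀.valuation L (τ⁻¹ x) = w₁.valuation L x := by
      intro x
      rw [← hτ]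
      congr 1
      exact AlgEquiv.apply_symm_apply τ x
    have h2 := IsInert.conj_toK hτ' h1
    rw [inv_inv, ht₀, Subgroup.mem_zpowers_iff] at h2
    obtain ⟨k, hk⟩ := h2
    refine ⟨k, (e * t₀ * e⁻¹) ^ (-k) * g', ?_, ?_⟩
    · rw [MonoidHom.mem_ker, map_mul, map_zpow, ht1, zpow_neg]
      rw [conj_zpow, hk]
      group
    · rw [zpow_neg, mul_inv_cancel_left]
  · refine frob_transferK hζ hθ hsurj hw₁' hq1 ?_
    rw [hs1]
    exact IsFrob.conj_toK hτ hs₀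
  · have h3 : e * s₀ * e⁻¹ * (e * t₀ * e⁻¹) * (e * s₀ * e⁻¹)⁻¹ = e * (s₀ * t₀ * s₀⁻¹) * e⁻¹ := by
      group
    rw [h3, hrel]
    rw [conj_pow]

end Pool.Agent.RGK
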