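import Mathlib
import Pool.Agent.Lib.RG.EMain
import Pool.Agent.Lib.RGK.BDefs
import Pool.Agent.Lib.RGK.B1
import Pool.Agent.Lib.RGK.B2
import Pool.Agent.Lib.RGK.B4
import Pool.Agent.Lib.RGK.E20
import Pool.Agent.Lib.RGK.E22
import Pool.Agent.Lib.RGK.E23
import Pool.Agent.Lib.RGK.E24
import Pool.Agent.Lib.RGK.E26
import Pool.Agent.Lib.RGK.E31
import Pool.Agent.Lib.RGK.E33

/-!
RG v4, PART E, export: central embedding problems with kernel of order `p` for `p`-extensions of `K`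
unramified outside `T`.
-/

set_option autoImplicit false

namespace Pool.Agent.RGK

open NumberField IsDedekindDomain
open Pool.Agent.RG (Above IsDec IsInert IsFrob Lies exists_iota bhn averaging exists_below lies_le
  inertiaGroup)
open Pool.Agent.RG.H (Pr below)

/-- first half: the data over `M = L(ζ)` -/
theorem emb_MK (p : ℕ) [Fact p.Prime] (hp : p ≠ 2) (K : Type) [Field K] [NumberField K]
    (T : Set (Pr K)) (hT : ∀ v ∈ T, (nm v).Prime ∧ nm v % p = 1)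
    (L : Type) [Field L] [NumberField L] [Algebra K L] [IsGalois K L]
    (E : Type) [Group E] [Finite E] (hE : IsPGroup p E)
    (π : E →* (L ≃ₐ[K] L)) (hπ : Function.Surjective π) (hker : π.ker ≤ Subgroup.center E)
    (hcard : Nat.card π.ker = p) (hunr : UnrOutK T L)
    (hloc : ∀ v ∈ T, ∃ w : Pr L, (below w : Pr K) = v ∧ ∃ t s : E,
      (∀ σ : L ≃ₐ[K] L, IsInert w σ ↔ σ ∈ Subgroup.zpowers (π t)) ∧ IsFrob w (nm v) (π s) ∧
      s * t * s⁻¹ = t ^ nm v) :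
    ∃ (M : Type) (_ : Field M) (_ : NumberField M) (_ : Algebra K M) (_ : IsGalois K M)
      (j : L →ₐ[K] M) (ζ : M)
      (ρ : E →* (M ≃ₐ[K] M)) (b : E → M), IsPrimitiveRoot ζ p ∧
      (∀ e x, ρ e (j x) = j (π e x)) ∧ (∀ e, ρ e ζ = ζ) ∧
      (∀ g : M ≃ₐ[K] M, g ζ = ζ → ∃ e, g = ρ e) ∧ ρ.ker = π.ker ∧
      (∀ w : Pr M, Above w p → ∀ e, IsInert w (ρ e) → ρ e = 1) ∧
      (∀ e, b e ≠ 0) ∧ (∀ e f, b (e * f) = b e * ρ e (b f)) ∧
      (∀ z ∈ ρ.ker, b z = 1 → z = 1) ∧ (∀ z ∈ ρ.ker, b z ^ p = 1) := by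
  classical
  have hpp : p.Prime := Fact.out
  obtain ⟨k, hk⟩ : ∃ k, Module.finrank K L = p ^ k := by
    have h1 : IsPGroup p (L ≃ₐ[K] L) := hE.of_surjective π hπ
    obtain ⟨k, hk⟩ := IsPGroup.iff_card.mp h1
    exact ⟨k, by rw [← hk]; exact (IsGalois.card_aut_eq_finrank K L).symm⟩
  obtain ⟨M, iM1, iM2, iM3, iM4, j, ζ, θ, hζ, hθ, hθζ, hinj, hsurj⟩ := exists_MK K p L k hk
  let ρ : E →* (M ≃ₐ[K] M) := θ.comp π
  have hρ : ∀ e, ρ e = θ (π e) := fun e => rfl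
  have hρ1 : ∀ e, ρ e = 1 ↔ π e = 1 := by
    intro e
    rw [hρ]
    constructor
    · intro h
      exact hinj (by rw [h, map_one])
    · intro h
      rw [h, map_one]
  have hρker : ρ.ker = π.ker := by
    ext z
    rw [MonoidHom.mem_ker, MonoidHom.mem_ker, hρ1]
  have hab : ∀ w : Pr M, Above w p → ∀ e, IsInert w (ρ e) → ρ e = 1 := by
    intro w hw e he
    obtain ⟨w₁, hw₁⟩ := exists_below (j : L →+* M) w
    have hw₁' : LiesA j w w₁ := hw₁
    have h1 : IsInert w₁ (π e) := IsInert.restrictK hw₁' (fun x => hθ (π e) x) he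
    have h2 : Above w₁ p := (hw₁.above_iff p).mp hw
    rw [hρ1]
    refine hunr w₁ ?_ (π e) h1
    intro hq
    have h3 := (hT _ hq)
    exact not_above_of_nm hpp h3.2 ((RG.H.above_iff w₁ p).mp h2)
  let act : MulSemiringAction E M := MulSemiringAction.compHom M ρ
  have hsmul : ∀ (e : E) (x : M), e • x = ρ e x := fun e x => rfl
  have hine : ∀ (w : Pr M) (e : E), IsInert w e ↔ IsInert w (ρ e) :=
    fun w e => Iff.rfl
  obtain ⟨ι, hι, hιk⟩ := exists_iota hζ hcard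
  have hkerπ : ∀ g : E, (∀ x : M, g • x = x) ↔ g ∈ π.ker := by
    intro g
    rw [MonoidHom.mem_ker, ← hρ1]
    constructor
    · intro h
      exact AlgEquiv.ext h
    · intro h x
      rw [hsmul, h]
      rfl
  obtain ⟨b, hb, hbι⟩ := bhn p hp M E hE π.ker hker hcard hkerπ ι hι
    (by
      intro g z
      obtain ⟨n, hn⟩ := hιk z
      rw [hn, hsmul, map_pow, hρ, hθζ])
    (by
      intro w hw g hg
      rw [MonoidHom.mem_ker, ← hρ1]
      exact hab w hw g ((hine w g).mp hg))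
    (by
      intro w hw hg
      obtain ⟨g, hg, hg1⟩ := hg
      obtain ⟨q, t, s, h1, h2, h3, h4, h5, h6, h7⟩ := local_hypK hT π hπ hunr hloc hζ hθ hsurj
        w hw ⟨g, (hine w g).mp hg, hg1⟩
      exact ⟨q, t, s, h1, h2, h3, h4, h5, h6, h7⟩)
  refine ⟨M, iM1, iM2, iM3, iM4, j, ζ, ρ, fun e => ((b e : Mˣ) : M), hζ, fun e x => hθ (π e) x,
    fun e => hθζ _, ?_, hρker, hab, fun e => (b e).ne_zero, hb, ?_, ?_⟩
  · intro g hg
    obtain ⟨h, hh⟩ := hsurj g hg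
    obtain ⟨e, he⟩ := hπ h
    exact ⟨e, by rw [hh, hρ, he]⟩
  · intro z hz h1
    rw [hρker] at hz
    have h2 := hbι ⟨z, hz⟩
    have h3 : b z = 1 := Units.ext h1
    have h4 : ι ⟨z, hz⟩ = 1 := by
      rw [← h2]
      exact h3
    have h5 : (⟨z, hz⟩ : π.ker) = 1 := hι (by rw [h4, map_one])
    exact congrArg Subtype.val h5
  · intro z hz
    rw [hρker] at hz
    have h2 := hbι ⟨z, hz⟩
    have h3 : (ι ⟨z, hz⟩) ^ p = 1 := by
      rw [← map_pow]
      have h4 : (⟨z, hz⟩ : π.ker) ^ p = 1 := by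
        rw [← hcard]
        exact pow_card_eq_one'
      rw [h4, map_one]
    have h5 : (b z) ^ p = 1 := by
      rw [← h3, ← h2]
    have h6 := congrArg Units.val h5
    simpa using h6

/-- the `p`-adic adjustment for `M` over the fixed field of the stabilizer of `ζ` -/
theorem adjustK {p : ℕ} [Fact p.Prime] (hp : p ≠ 2) {K : Type} [Field K] [NumberField K] {M : Type}
    [Field M] [NumberField M] [Algebra K M] [IsGalois K M] {ζ : M} {E : Type} [Group E]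
    {ρ : E →* (M ≃ₐ[K] M)} {b : E → M} (hζ : IsPrimitiveRoot ζ p)
    (hsurj : ∀ g : M ≃ₐ[K] M, g ζ = ζ → ∃ e, g = ρ e)
    (hρζ : ∀ e, ρ e ζ = ζ)
    (hab : ∀ w : Pr M, Above w p → ∀ e, IsInert w (ρ e) → ρ e = 1) {α : M} (hα : α ≠ 0)
    (hb : ∀ e, b e ^ p * α = ρ e α) :
    ∃ c : M, c ≠ 0 ∧ (∀ e, ρ e c = c) ∧ ∀ w : Pr M, Above w p →
      ∃ x : M, x ≠ 0 ∧ w.valuation M (c * α / x ^ p - 1) ≤ w.valuation M (1 - ζ) ^ p := by
  let F : IntermediateField K M := IntermediateField.fixedField (fixK K ζ)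
  have hζF : ζ ∈ F := (IntermediateField.mem_fixedField_iff _ _).2 fun g hg => hg
  let ζF : F := ⟨ζ, hζF⟩
  have hζF' : IsPrimitiveRoot ζF p := by
    have h1 : algebraMap F M ζF = ζ := rfl
    rw [← h1] at hζ
    exact IsPrimitiveRoot.of_map_of_injective (f := algebraMap F M) hζ (algebraMap F M).injective
  have hNF : NumberField F := NumberField.of_intermediateField F
  have hGF : IsGalois F M := inferInstance
  have hres : ∀ σ : M ≃ₐ[F] M, ∃ e, ∀ x, σ x = ρ e x := by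
    intro σ
    obtain ⟨e, he⟩ := hsurj (σ.restrictScalars K) (by
      have h1 := σ.commutes ζF
      exact h1)
    exact ⟨e, fun x => by rw [← he]; rfl⟩
  obtain ⟨c, hc, hcw⟩ := padic_adjustK hp hζF' (M := M)
    (by
      intro w hw σ hσ
      obtain ⟨e, he⟩ := hres σ
      have h1 : IsInert w (ρ e) := by
        refine ⟨fun x => ?_, fun x hx => ?_⟩
        · have h2 := hσ.1 x
          change w.valuation M (σ x) = _ at h2
          rw [he] at h2
          exact h2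
        · have h2 := hσ.2 x hx
          change w.valuation M (σ x - x) < 1 at h2
          rw [he] at h2
          exact h2
      have h2 := hab w hw e h1
      ext x
      rw [he, h2]
      rfl) hα
    (by
      intro σ
      obtain ⟨e, he⟩ := hres σ
      exact ⟨b e, by rw [he, hb]⟩)
  refine ⟨algebraMap F M c, (map_ne_zero _).2 hc, fun e => ?_, hcw⟩
  exact (IntermediateField.mem_fixedField_iff _ _).1 c.2 (ρ e) (hρζ e)

/-- second half: the Kummer extension `N` -/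
theorem emb_NK {p : ℕ} [Fact p.Prime] (hp : p ≠ 2) {K : Type} [Field K] [NumberField K] {M : Type}
    [Field M] [NumberField M] [Algebra K M]
    [IsGalois K M] {ζ : M} {E : Type} [Group E] [Finite E] (hE : IsPGroup p E)
    {ρ : E →* (M ≃ₐ[K] M)} {b : E → M}
    (hζ : IsPrimitiveRoot ζ p) (hρζ : ∀ e, ρ e ζ = ζ)
    (hsurj : ∀ g : M ≃ₐ[K] M, g ζ = ζ → ∃ e, g = ρ e) (hcard : Nat.card ρ.ker = p)
    (hab : ∀ w : Pr M, Above w p → ∀ e, IsInert w (ρ e) → ρ e = 1)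
    (hb0 : ∀ e, b e ≠ 0) (hb : ∀ e f, b (e * f) = b e * ρ e (b f))
    (hbinj : ∀ z ∈ ρ.ker, b z = 1 → z = 1) (hbp : ∀ z ∈ ρ.ker, b z ^ p = 1) :
    ∃ (N : Type) (_ : Field N) (_ : NumberField N) (_ : Algebra K N) (_ : IsGalois K N)
      (i : M →ₐ[K] N) (ψ : fixK K (i ζ) →* E), IsPGroup p (fixK K (i ζ)) ∧
      (∀ (g : fixK K (i ζ)) (x : M), (g : N ≃ₐ[K] N) (i x) = i (ρ (ψ g) x)) ∧
      ∀ w : Pr N, Above w p → ∀ g : fixK K (i ζ),
        IsInert w (g : N ≃ₐ[K] N) → ψ g = 1 := by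
  classical
  have hpp : p.Prime := Fact.out
  obtain ⟨α, hα, hbα⟩ := exists_alphaK (p := p) ρ b hb0 hb (fun z hz => hbp z hz)
  obtain ⟨c, hc, hcf, hcw⟩ := adjustK hp hζ hsurj hρζ hab hα hbα
  have hβ : c * α ≠ 0 := mul_ne_zero hc hα
  have hbβ : ∀ e, b e ^ p * (c * α) = ρ e (c * α) := by
    intro e
    rw [map_mul, hcf, ← hbα]
    ring
  have hM : IsPGroup p (fixK K ζ) := by
    rintro ⟨g, hg⟩
    obtain ⟨e, he⟩ := hsurj g hg
    obtain ⟨n, hn⟩ := hE e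
    refine ⟨n, Subtype.ext ?_⟩
    show g ^ p ^ n = 1
    rw [he, ← map_pow, hn, map_one]
  obtain ⟨N, iN1, iN2, iN3, iN4, i, A, hA, hN⟩ := exists_NK hζ hM (c * α) hβ
  obtain ⟨ψ, hψ1, hψ2⟩ := exists_psiK hζ hρζ hsurj hcard b hb0 hb hbinj (c * α) hβ hbβ i A hA
  refine ⟨N, iN1, iN2, iN3, iN4, i, ψ, hN, hψ1, ?_⟩
  intro w hw g hg
  obtain ⟨w₁, hw₁⟩ := exists_below (i : M →+* N) w
  have hw₁' : LiesA i w w₁ := hw₁
  have h1 : IsInert w₁ (ρ (ψ g)) := IsInert.restrictK hw₁' (fun x => hψ1 g x) hg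
  have h2 : Above w₁ p := (hw₁.above_iff p).mp hw
  have h3 : ρ (ψ g) = 1 := hab w₁ h2 _ h1
  have h4 : ∀ x : M, (g : N ≃ₐ[K] N) (i x) = i x := by
    intro x
    rw [hψ1, h3]
    rfl
  obtain ⟨x, hx, hx1⟩ := hcw w₁ h2
  have hζ1 : 1 - ζ ≠ 0 := by
    intro h
    exact hζ.ne_one hpp.one_lt (sub_eq_zero.mp h).symm
  have h5 : w.valuation N (i (c * α / x ^ p - 1)) ≤ w.valuation N (i ((1 - ζ) ^ p)) := by
    refine lies_le hw₁ (pow_ne_zero p hζ1) ?_
    rw [map_pow]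
    exact hx1
  have h6 : w.valuation N (i (c * α) / (i x) ^ p - 1) ≤ w.valuation N (1 - i ζ) ^ p := by
    rw [← map_pow (w.valuation N)]
    have e1 : i (c * α / x ^ p - 1) = i (c * α) / (i x) ^ p - 1 := by
      rw [map_sub, map_div₀, map_pow, map_one]
    have e2 : i ((1 - ζ) ^ p) = (1 - i ζ) ^ p := by
      rw [map_pow, map_sub, map_one]
    rw [← e1, ← e2]
    exact h5
  have hiinj : Function.Injective i := i.injective
  have h7 : (g : N ≃ₐ[K] N) A = A := by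
    refine kummer_unramifiedK (hζ.map_of_injective hiinj) hw hg (h4 ζ) hA ?_ ?_ (h4 _) (h4 x) h6
    · exact (map_ne_zero i).mpr hβ
    · exact (map_ne_zero i).mpr hx
  have hA0 : A ≠ 0 := by
    intro h
    rw [h, zero_pow hpp.ne_zero] at hA
    exact (map_ne_zero i).mpr hβ hA.symm
  have h8 : i (b (ψ g)) * A = A := by
    rw [← hψ2]
    exact h7
  have h9 : i (b (ψ g)) = 1 := by
    have := mul_right_cancel₀ hA0 (h8.trans (one_mul A).symm)
    exact this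
  have h10 : b (ψ g) = 1 := hiinj (by rw [h9, map_one])
  exact hbinj _ h3 h10

theorem embeddingK (p : ℕ) [Fact p.Prime] (hp : p ≠ 2) (K : Type) [Field K] [NumberField K]
    (T : Set (Pr K)) (hT : ∀ v ∈ T, (nm v).Prime ∧ nm v % p = 1) (hcyc : CycExt p T)
    (L : Type) [Field L] [NumberField L] [Algebra K L] [IsGalois K L]
    (E : Type) [Group E] [Finite E] (hE : IsPGroup p E)
    (π : E →* (L ≃ₐ[K] L)) (hπ : Function.Surjective π) (hker : π.ker ≤ Subgroup.center E)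
    (hcard : Nat.card π.ker = p) (hunr : UnrOutK T L)
    (hloc : ∀ v ∈ T, ∃ w : Pr L, (below w : Pr K) = v ∧ ∃ t s : E,
      (∀ σ : L ≃ₐ[K] L, IsInert w σ ↔ σ ∈ Subgroup.zpowers (π t)) ∧ IsFrob w (nm v) (π s) ∧
      s * t * s⁻¹ = t ^ nm v) :
    ∃ (L' : Type) (_ : Field L') (_ : NumberField L') (_ : Algebra K L') (_ : IsGalois K L')
      (j : L →ₐ[K] L') (ψ : (L' ≃ₐ[K] L') →* E), Function.Injective ψ ∧
      (∀ (g : L' ≃ₐ[K] L') (x : L), g (j x) = j (π (ψ g) x)) ∧ UnrOutK T L' := by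
  obtain ⟨M, _, _, _, _, j, ζ, ρ, b, hζ, hρj, hρζ, hsurj, hρker, hab, hb0, hb, hbinj, hbp⟩ :=
    emb_MK p hp K T hT L E hE π hπ hker hcard hunr hloc
  obtain ⟨N, _, _, _, _, i, ψ, hN, hψ1, hψ2⟩ := emb_NK hp hE hζ hρζ hsurj (by rw [hρker, hcard]) hab
    hb0 hb hbinj hbp
  obtain ⟨r, hr⟩ := exists_restrK (i.comp j)
  have hζ' : IsPrimitiveRoot (i ζ) p := hζ.map_of_injective i.injective
  have : (fixK K (i ζ)).Normal := fixK_normal hζ'
  have hinj : Function.Injective (i.comp j) := (i.comp j).injective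
  have hψr : ∀ x : fixK K (i ζ), π (ψ x) = r x := by
    intro x
    apply AlgEquiv.ext
    intro y
    apply hinj
    rw [← hr]
    show i (j (π (ψ x) y)) = (x : N ≃ₐ[K] N) (i (j y))
    rw [hψ1, hρj]
  obtain ⟨Ψ, hΨ1, hΨ2⟩ := averaging p (N ≃ₐ[K] N) (fixK K (i ζ)) hN (fixK_index hζ') E (L ≃ₐ[K] L)
    hE π hπ hker hcard r ψ hψr
  have hΨ3 : ∀ (g : N ≃ₐ[K] N) (x : L), g ((i.comp j) x) = (i.comp j) (π (Ψ g) x) := by
    intro g x
    rw [hΨ1, hr]
  have hΨ4 : ∀ w : Pr N, Above w p → ∀ g : N ≃ₐ[K] N, IsInert w g → Ψ g = 1 := by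
    intro w hw g hg
    refine hΨ2 (inertiaGroup (N ≃ₐ[K] N) w) ?_ g hg
    intro x hx y hy
    obtain ⟨w', hb', hw'⟩ := exists_translateK w y
    have h1 : IsInert w' (y * x * y⁻¹) := IsInert.conj_toK hw' hx
    have h2 : Above w' p := by
      have h3 := hw' (p : N)
      rw [map_natCast] at h3
      show w'.valuation N (p : N) < 1
      rw [h3]
      exact hw
    exact hψ2 w' h2 ⟨y * x * y⁻¹, hy⟩ h1
  obtain ⟨N₀, _, _, _, _, j₀, Ψ₀, hinj₀, hΨ₀, hunr₀⟩ := inj_reduceK π (i.comp j) Ψ hΨ3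
  refine remove_allK hcyc hE π hker hcard hunr j₀ Ψ₀ hinj₀ hΨ₀ fun v hv => hunr₀ v ?_
  intro w hw g hg
  refine hΨ4 w ?_ g hg
  rw [RG.H.above_iff w p (K := K), hw]
  exact hv

end Pool.Agent.RGK
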