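import Mathlib
import Pool.Agent.Lib.RGK.BDefs
import Pool.Agent.Lib.RGK.B1
import Pool.Agent.Lib.RGK.B2
import Pool.Agent.Lib.RGK.C16
import Pool.Agent.Lib.RGK.C17
import Pool.Agent.Lib.RGK.C18
import Pool.Agent.Lib.RGK.C27
import Pool.Agent.Lib.RGK.G01
import Pool.Agent.Lib.RGK.G02
import Pool.Agent.Lib.RGK.G03

/-!
RG v4, rows G05a, G05b, G05c, G05d: the characters of order `p` of the Galois group of the maximal
`p`-extension `X` of `K` unramified outside `T` correspond to the elements of `RC p T`.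

`ChV T χ ξ`: the Frobenius values of the continuous character `χ` are given by `ξ`.

`chV_unique` (row G05a): `χ / χ'` is a continuous character with values `1` at all Frobenius elements
outside `T`; it factors through the restriction to a layer `L` (`exists_layerK` for its kernel, which is
normal and open): `θ : Gal(L / K) → ZMod p`. If `θ ≠ 1`, `cheb` (C16) with the finite set `T ∪ {v above p}`
(`H.fin_above`) gives a prime `w` of `L`, `v = below w`, and a Frobenius element `g` at `w` with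
`θ g ≠ 1`. Let `x`, `y` be as in `exists_inFrK` for `v`; the restriction of `y` to `L` is a Frobenius element
at a prime `w'` above `v`. (The finite set has to contain also `T'`.) `L / K` is unramified at `v` (`hX.unr`), `w` and `w'` are conjugate
(`exists_conjK`, `IsFrob.conj_toK`), so `θ (y|L) = θ g ≠ 1`, contradiction.

`exists_chV` (row G05b): `EX` (C27) for `T₀` gives `L`, `θ` injective, unramified outside `T₀`, `FV T₀ θ ξ`.
`L / K` has degree `1` or `p` and is unramified outside `T₀ ⊆ T` (`θ` is injective), so it embeds into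
`X` (`hX.max`);
`χ := θ.comp r` with `r` from `exists_restrictK`. Values: `inFr_transport`; `r x` generates the inertia
group, which is trivial.

`chV_exists` (row G05c): `χ` factors through a layer `L` (as in G05a), `θ` is unramified outside `T`
(`hX.unr`), `FV T θ ξ` for some `ξ` (`exists_phi`, C18), `ξ ∈ RC p T` by `REC` (C17).

`chV_unr` (row G05d): `t ∈ T`, `InFrK t x y`, `χ x = 1`. As in G05c `χ` comes from `θ : Gal(L / K) → ZMod p`;
the inertia group of some prime of `L` above `t` is generated by `x|L`, so `θ` kills it and the conjugate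
ones: `θ` is unramified outside `T \ {t}`. `exists_phi` and `REC` for `T \ {t}` give
`η ∈ RC p (T \ {t})` with `FV (T \ {t}) θ η`. For `v ∉ T` both `ξ v` and `η v` are the value of `θ` at a
Frobenius element above `v` if `v` is not above `p` (`exists_inFrK`); for `v` above `p`: `ξ` and the
restriction `η'` of `η` (put `0` at `t`) are both in `RC p T` and `ξ - η'` vanishes at all `v` not above `p`,
so `ξ = η'` (for `v` above `p` choose by `H.weak_approx` an element `x : Kˣ` with `vl v x = 1`,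
`vl v' x = 0` for the other primes `v'` above `p` and `x ∈ UU v' 1` for `v' ∈ T`).

`chV_of_unr` (row G05e): `exists_chV` for `T₀ = T \ {t}` and `η` gives `χ'` with `ChV (T \ {t}) χ' η`; for
`v ∉ T` the values of `χ'` are `η v = ξ v`, so `ChV T χ' ξ` and `χ' = χ` (`chV_unique`). Now use
`ChV (T \ {t}) χ' η` at `v = t`.
-/

set_option autoImplicit false

namespace Pool.Agent.RGK

open NumberField IsDedekindDomain
open Pool.Agent.RG (Above IsDec IsInert IsFrob Lies)
open Pool.Agent.RG.H (Pr below)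

variable {K : Type} [Field K] [NumberField K] {X : Type} [Field X] [Algebra K X]

/-- The Frobenius values of the character `χ` outside `T` are given by `ξ`. -/
def ChV {p : ℕ} (T : Set (Pr K)) (χ : (X ≃ₐ[K] X) →* Multiplicative (ZMod p))
    (ξ : Pr K → ZMod p) : Prop :=
  ∀ v : Pr K, v ∉ T → ¬ Above v p → ∀ x y : X ≃ₐ[K] X, InFrK v x y →
    χ x = 1 ∧ χ y = Multiplicative.ofAdd (ξ v)

theorem chV_unique {p : ℕ} [Fact p.Prime] {T : Set (Pr K)} (hTf : T.Finite) (hX : MaxExtK p T X)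
    {χ χ' : (X ≃ₐ[K] X) →* Multiplicative (ZMod p)} (hχ : IsOpen (χ.ker : Set (X ≃ₐ[K] X)))
    (hχ' : IsOpen (χ'.ker : Set (X ≃ₐ[K] X))) {T' : Set (Pr K)} (hT' : T'.Finite)
    {ξ : Pr K → ZMod p} (h : ChV T' χ ξ) (h' : ChV T' χ' ξ) : χ = χ' := by
  have hp : p.Prime := Fact.out
  haveI : IsGalois K X := hX.gal
  set ψ : (X ≃ₐ[K] X) →* Multiplicative (ZMod p) := χ / χ' with hψ
  have hψa : ∀ g, ψ g = χ g / χ' g := fun g => rfl
  suffices hψ1 : ψ = 1 by
    ext1 g
    have h1 : ψ g = 1 := by rw [hψ1]; rfl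
    rw [hψa, div_eq_one] at h1
    exact h1
  by_contra hne
  have hopen : IsOpen (ψ.ker : Set (X ≃ₐ[K] X)) := by
    have h1 : χ.ker ⊓ χ'.ker ≤ ψ.ker := by
      intro g hg
      rw [Subgroup.mem_inf, MonoidHom.mem_ker, MonoidHom.mem_ker] at hg
      rw [MonoidHom.mem_ker, hψa, hg.1, hg.2, div_one]
    exact Subgroup.isOpen_mono h1 (hχ.inter hχ')
  obtain ⟨L, _, _, hL, _⟩ := exists_layerK ψ.ker hopen
  have hker : (AlgEquiv.restrictNormalHom L : (X ≃ₐ[K] X) →* (L ≃ₐ[K] L)).ker ≤ ψ.ker := by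
    intro g hg
    rw [MonoidHom.mem_ker] at hg
    exact (hL g).1 hg
  set θ : (L ≃ₐ[K] L) →* Multiplicative (ZMod p) :=
    (AlgEquiv.restrictNormalHom L : (X ≃ₐ[K] X) →* (L ≃ₐ[K] L)).liftOfSurjective
      (restrict_surjectiveK L) ⟨ψ, hker⟩ with hθ
  have hθr : ∀ g : X ≃ₐ[K] X, θ (AlgEquiv.restrictNormalHom L g) = ψ g := by
    intro g
    exact MonoidHom.liftOfRightInverse_comp_apply _ _ _ ⟨ψ, hker⟩ g
  have hθ1 : θ ≠ 1 := by
    intro h1
    apply hne
    ext1 g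
    rw [← hθr, h1]
    rfl
  obtain ⟨S, hS⟩ := RG.H.fin_above (K := K) p hp.ne_zero
  obtain ⟨w, hw, _, g, hg, hθg⟩ := cheb θ hθ1 (F := T ∪ T' ∪ (S : Set (Pr K)))
    ((hTf.union hT').union S.finite_toSet)
  have hwT : (below w : Pr K) ∉ T := fun h1 => hw (Or.inl (Or.inl h1))
  have hwT' : (below w : Pr K) ∉ T' := fun h1 => hw (Or.inl (Or.inr h1))
  have hwp : ¬ Above (below w : Pr K) p := fun h1 => hw (Or.inr (hS _ h1))
  obtain ⟨x, y, hxy, _⟩ := exists_inFrK hX hwp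
  obtain ⟨w', hw', _, hfr⟩ := hxy L
  have hψy : ψ y = 1 := by
    rw [hψa, (h _ hwT' hwp x y hxy).2, (h' _ hwT' hwp x y hxy).2, div_self']
  obtain ⟨τ, hτ⟩ := exists_conjK (K := K) (w := w) (w' := w') hw'.symm
  have h2 : IsFrob w' (nm (below w : Pr K)) (τ * g * τ⁻¹) := IsFrob.conj_toK hτ hg
  have h3 : IsInert w' ((AlgEquiv.restrictNormalHom L y)⁻¹ * (τ * g * τ⁻¹)) := hfr.inv_mul h2
  have h4 : (AlgEquiv.restrictNormalHom L y)⁻¹ * (τ * g * τ⁻¹) = 1 :=
    hX.unr L w' (by rw [hw']; exact hwT) _ h3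
  rw [inv_mul_eq_one] at h4
  apply hθg
  have h5 : θ (τ * g * τ⁻¹) = θ g := by
    rw [map_mul, map_mul, map_inv, mul_comm (θ τ) (θ g), mul_assoc, mul_inv_cancel, mul_one]
  rw [← h5, ← h4, hθr, hψy]

theorem exists_chV {p : ℕ} [Fact p.Prime] (hp : p ≠ 2) {T : Set (Pr K)} (hTf : T.Finite)
    (hT : ∀ v ∈ T, ¬ Above v p) (hX : MaxExtK p T X) {T₀ : Set (Pr K)} (hT₀ : T₀ ⊆ T)
    {ξ : Pr K → ZMod p} (hξ : ξ ∈ RC p T₀) :
    ∃ χ : (X ≃ₐ[K] X) →* Multiplicative (ZMod p), IsOpen (χ.ker : Set (X ≃ₐ[K] X)) ∧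
      ChV T₀ χ ξ := by
  obtain ⟨L, _, _, _, _, θ, hinj, hunr, hFV⟩ :=
    EX hp (hTf.subset hT₀) (fun v hv => hT v (hT₀ hv)) hξ
  haveI : FiniteDimensional K L := Module.Finite.of_restrictScalars_finite ℚ K L
  have hdeg : ∃ k, Module.finrank K L = p ^ k := by
    have h1 : Nat.card (L ≃ₐ[K] L) ∣ p := by
      have h := Subgroup.card_dvd_of_injective θ hinj
      rwa [Nat.card_congr Multiplicative.toAdd, Nat.card_zmod] at h
    rw [IsGalois.card_aut_eq_finrank] at h1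
    rcases (Nat.dvd_prime (Fact.out : p.Prime)).1 h1 with h | h
    · exact ⟨0, by rw [h, pow_zero]⟩
    · exact ⟨1, by rw [h, pow_one]⟩
  have hout : UnrOutK T L := fun w hw σ hσ =>
    hinj (by rw [hunr w (fun h => hw (hT₀ h)) σ hσ, map_one])
  obtain ⟨e⟩ := hX.max L hdeg hout
  haveI := hX.gal
  obtain ⟨r, hr, hrs, her⟩ := exists_restrictK e
  refine ⟨θ.comp r, ?_, ?_⟩
  · have hk : (θ.comp r).ker = r.ker := by
      ext g
      rw [MonoidHom.mem_ker, MonoidHom.mem_ker, MonoidHom.comp_apply]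
      exact ⟨fun h => hinj (by rw [h, map_one]), fun h => by rw [h, map_one]⟩
    rw [hk]
    exact hr
  · intro v hv hvp x y hxy
    obtain ⟨w, hw, hI, hF⟩ := inFr_transport e her hxy
    subst hw
    exact ⟨hunr w hv _ ((hI _).2 (Subgroup.mem_zpowers _)), hFV.frob w hv _ hF⟩

/-- an open subgroup kernel: the character comes from a finite layer -/
private theorem G05c_factor {p : ℕ} [Fact p.Prime] {T : Set (Pr K)} (hX : MaxExtK p T X)
    {χ : (X ≃ₐ[K] X) →* Multiplicative (ZMod p)} (hχ : IsOpen (χ.ker : Set (X ≃ₐ[K] X))) :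
    ∃ (L : IntermediateField K X) (_ : NumberField L) (_ : IsGalois K L)
      (θ : (L ≃ₐ[K] L) →* Multiplicative (ZMod p)),
      ∀ g : X ≃ₐ[K] X, θ (AlgEquiv.restrictNormalHom L g) = χ g := by
  have := hX.gal
  obtain ⟨L, hL1, hL2, hL3, -⟩ := exists_layerK χ.ker hχ
  have hs := restrict_surjectiveK (K := K) L
  refine ⟨L, hL1, hL2, MonoidHom.liftOfRightInverse (AlgEquiv.restrictNormalHom L)
    (Function.surjInv hs) (Function.rightInverse_surjInv hs) ⟨χ, fun g hg => (hL3 g).1 hg⟩, ?_⟩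
  intro g
  exact MonoidHom.liftOfRightInverse_comp_apply (AlgEquiv.restrictNormalHom L)
    (Function.surjInv hs) (Function.rightInverse_surjInv hs) ⟨χ, fun g hg => (hL3 g).1 hg⟩ g

/-- the values at the Frobenius elements of `X` -/
private theorem G05c_values {p : ℕ} {T : Set (Pr K)}
    {χ : (X ≃ₐ[K] X) →* Multiplicative (ZMod p)} {L : IntermediateField K X} [NumberField L]
    [IsGalois K L] {θ : (L ≃ₐ[K] L) →* Multiplicative (ZMod p)}
    (hθ : ∀ g : X ≃ₐ[K] X, θ (AlgEquiv.restrictNormalHom L g) = χ g) (hu : UnrCh T θ)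
    {ξ : Pr K → ZMod p} (hF : FV T θ ξ) {v : Pr K} (hv : v ∉ T) {x y : X ≃ₐ[K] X}
    (h : InFrK v x y) : χ x = 1 ∧ χ y = Multiplicative.ofAdd (ξ v) := by
  obtain ⟨w, hw1, hw2, hw3⟩ := h L
  subst hw1
  refine ⟨?_, ?_⟩
  · rw [← hθ]
    exact hu w hv _ ((hw2 _).2 (Subgroup.mem_zpowers _))
  · rw [← hθ]
    exact hF.frob w hv _ hw3

/-- extension by zero -/
private theorem G05d_ext_zero {p : ℕ} [Fact p.Prime] {T : Set (Pr K)} {t : Pr K} (ht : t ∈ T)
    {η : Pr K → ZMod p} (hη : η ∈ RC p (T \ {t})) :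
    ∃ η' ∈ RC p T, η' t = 0 ∧ ∀ v, v ≠ t → η' v = η v := by
  classical
  obtain ⟨h1, h2⟩ := hη
  refine ⟨fun v => if v = t then 0 else η v, ⟨fun v hv => ?_, fun x hx => ?_⟩, if_pos rfl,
    fun v hv => if_neg hv⟩
  · show (if v = t then (0 : ZMod p) else η v) = 0
    by_cases hvt : v = t
    · rw [if_pos hvt]
    · rw [if_neg hvt]
      exact h1 v ⟨hv, hvt⟩
  · refine Eq.trans (finsum_congr fun v => ?_) (h2 x fun v hv => hx v hv.1)
    show ((RG.H.vl v x : ℤ) : ZMod p) * (if v = t then (0 : ZMod p) else η v) = _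
    by_cases hvt : v = t
    · rw [if_pos hvt, hvt, (RG.H.mem_UU.1 (hx t ht)).1, Int.cast_zero, zero_mul,
        zero_mul]
    · rw [if_neg hvt]

/-- an element of `RC p T` is determined by the values at the primes not above `p` -/
private theorem G05d_zero {p : ℕ} [Fact p.Prime] {T : Set (Pr K)} (hTf : T.Finite)
    (hT : ∀ v ∈ T, ¬ Above v p) {d : Pr K → ZMod p} (hd : d ∈ RC p T)
    (h0 : ∀ v, ¬ Above v p → d v = 0) : d = 0 := by
  classical
  funext v
  by_cases hv : Above v p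
  swap
  · exact h0 v hv
  obtain ⟨S, hS⟩ := RG.H.fin_above (K := K) p (Fact.out : p.Prime).ne_zero
  obtain ⟨ϖ, hϖ⟩ := RG.H.exists_unif v
  obtain ⟨y, hy⟩ := RG.H.weak_approx (hTf.toFinset ∪ S) (fun w => if w = v then ϖ else 1) 1
  have hyv : RG.H.vl v y = 1 := by
    have h1 := hy v (Finset.mem_union_right _ (hS v hv))
    simp only [if_true] at h1
    have h2 := (RG.H.mem_UU.1 h1).1
    rw [RG.H.vl_div, hϖ] at h2
    omega
  have hyw : ∀ w, w ≠ v → w ∈ hTf.toFinset ∪ S → y ∈ RG.H.UU w 1 := by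
    intro w hw hwS
    have h1 := hy w hwS
    simp only [if_neg hw] at h1
    rwa [div_one] at h1
  have hs := hd.2 y fun w hw => hyw w (fun e => hT w hw (e ▸ hv))
    (Finset.mem_union_left _ (hTf.mem_toFinset.2 hw))
  rw [finsum_eq_single _ v] at hs
  · rw [hyv, Int.cast_one, one_mul] at hs
    exact hs
  · intro w hw
    by_cases hw' : Above w p
    · rw [(RG.H.mem_UU.1 (hyw w hw (Finset.mem_union_right _ (hS w hw')))).1,
        Int.cast_zero, zero_mul]
    · rw [h0 w hw', mul_zero]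

theorem chV_exists {p : ℕ} [Fact p.Prime] (hp : p ≠ 2) {T : Set (Pr K)} (hTf : T.Finite)
    (hT : ∀ v ∈ T, ¬ Above v p) (hX : MaxExtK p T X)
    {χ : (X ≃ₐ[K] X) →* Multiplicative (ZMod p)} (hχ : IsOpen (χ.ker : Set (X ≃ₐ[K] X))) :
    ∃ ξ ∈ RC p T, ChV T χ ξ := by
  classical
  obtain ⟨L, hL1, hL2, θ, hθ⟩ := G05c_factor hX hχ
  have hu : UnrCh T θ := fun w hw σ hσ => by rw [hX.unr L w hw σ hσ, map_one]
  obtain ⟨φ, hφ⟩ := exists_phi (K := K) L
  have hF := hφ p T θ hu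
  exact ⟨_, REC hp hT θ hu hF, fun v hv _ x y hxy => G05c_values hθ hu hF hv hxy⟩

theorem chV_unr {p : ℕ} [Fact p.Prime] (hp : p ≠ 2) {T : Set (Pr K)} (hTf : T.Finite)
    (hT : ∀ v ∈ T, ¬ Above v p) (hX : MaxExtK p T X)
    {χ : (X ≃ₐ[K] X) →* Multiplicative (ZMod p)} (hχ : IsOpen (χ.ker : Set (X ≃ₐ[K] X)))
    {ξ : Pr K → ZMod p} (hξ : ξ ∈ RC p T) (h : ChV T χ ξ) {t : Pr K} (ht : t ∈ T)
    {x y : X ≃ₐ[K] X} (hxy : InFrK t x y) (hx : χ x = 1) :
    ∃ η ∈ RC p (T \ {t}), (∀ v, v ≠ t → η v = ξ v) ∧ χ y = Multiplicative.ofAdd (η t) := by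
  classical
  obtain ⟨L, hL1, hL2, θ, hθ⟩ := G05c_factor hX hχ
  obtain ⟨w₀, hw1, hw2, hw3⟩ := hxy L
  have hu : UnrCh (T \ {t}) θ := by
    intro w hw σ hσ
    by_cases hwT : (below w : Pr K) ∈ T
    · have hwt : (below w : Pr K) = t := by
        by_contra h0
        exact hw ⟨hwT, h0⟩
      obtain ⟨τ, hτ⟩ := exists_conjK (K := K) (w := w) (w' := w₀) (hwt.trans hw1.symm)
      have h1 := (hw2 _).1 (IsInert.conj_toK hτ hσ)
      obtain ⟨n, hn⟩ := Subgroup.mem_zpowers_iff.1 h1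
      have h2 : θ (τ * σ * τ⁻¹) = 1 := by
        rw [← hn, map_zpow, hθ, hx, one_zpow]
      rwa [map_mul, map_mul, map_inv, mul_comm (θ τ), mul_inv_cancel_right] at h2
    · rw [hX.unr L w hwT σ hσ, map_one]
  obtain ⟨φ, hφ⟩ := exists_phi (K := K) L
  have hF := hφ p (T \ {t}) θ hu
  have hη := REC hp (fun v hv => hT v hv.1) θ hu hF
  refine ⟨_, hη, ?_, ?_⟩
  swap
  · have ht' : (below w₀ : Pr K) ∉ T \ {t} := fun h0 => h0.2 hw1
    have h1 := hF.frob w₀ ht' (AlgEquiv.restrictNormalHom L y) (by rw [hw1]; exact hw3)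
    rw [hθ] at h1
    rw [h1, hw1]
  · obtain ⟨η', h1, h2, h3⟩ := G05d_ext_zero ht hη
    have h4 : ξ - η' = 0 := by
      refine G05d_zero hTf hT (Submodule.sub_mem _ hξ h1) fun v hv => ?_
      rw [Pi.sub_apply, sub_eq_zero]
      by_cases hvT : v ∈ T
      · rw [hξ.1 v hvT, h1.1 v hvT]
      · have hvt : v ≠ t := fun e => hvT (e ▸ ht)
        rw [h3 v hvt]
        obtain ⟨x', y', hxy', -⟩ := exists_inFrK hX hv
        have h5 := (h v hvT hv x' y' hxy').2
        have h6 := (G05c_values hθ hu hF (fun h0 => hvT h0.1) hxy').2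
        exact Multiplicative.ofAdd.injective (h5.symm.trans h6)
    intro v hvt
    rw [← h3 v hvt, ← sub_eq_zero.1 h4]

theorem chV_of_unr {p : ℕ} [Fact p.Prime] (hp : p ≠ 2) {T : Set (Pr K)} (hTf : T.Finite)
    (hT : ∀ v ∈ T, ¬ Above v p) (hX : MaxExtK p T X)
    {χ : (X ≃ₐ[K] X) →* Multiplicative (ZMod p)} (hχ : IsOpen (χ.ker : Set (X ≃ₐ[K] X)))
    {ξ : Pr K → ZMod p} (h : ChV T χ ξ) {t : Pr K} (ht : t ∈ T)
    {x y : X ≃ₐ[K] X} (hxy : InFrK t x y) {η : Pr K → ZMod p} (hη : η ∈ RC p (T \ {t}))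
    (he : ∀ v, v ≠ t → η v = ξ v) : χ x = 1 ∧ χ y = Multiplicative.ofAdd (η t) := by
  obtain ⟨χ', hχ', hc⟩ := exists_chV hp hTf hT hX (T₀ := T \ {t}) Set.sdiff_subset hη
  have h1 : ChV T χ' ξ := by
    intro v hv hvp x' y' hxy'
    have hvt : v ≠ t := fun h0 => hv (h0 ▸ ht)
    have h2 := hc v (fun h0 => hv h0.1) hvp x' y' hxy'
    rw [he v hvt] at h2
    exact h2
  have h3 : χ' = χ := chV_unique hTf hX hχ' hχ hTf h1 h
  have h4 := hc t (fun h0 => h0.2 rfl) (hT t ht) x y hxy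
  rw [h3] at h4
  exact h4

end Pool.Agent.RGK
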