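import Mathlib
import Pool.Agent.Lib.RGK.QKDefs

/-!
RG v4, row QK1a: greedy choice of the edges.

`c : α → β → κ → F` spans `κ → F`, the weights `w a b` of the pairs are pairwise different. Call a pair
`(a, b)` selected if `c a b` is not in the span of the `c a' b'` with `w a' b' < w a b`. The selected
vectors are a basis of `κ → F` (linearly independent: look at the summand of the largest weight; spanning:
strong induction on `w a b` shows that `c a b` is in the span of the selected `c a' b'` with
`w a' b' ≤ w a b`). `ε` := the type of the selected pairs, `B k j := (dual basis functional of k)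
(Pi.single j 1)`, so that `∑ j, B k j * x j` is the coordinate `k` of `x` (see `QC_coord`, `QC_repr` in
`Pool/Agent/Lib/RG/QCrit.lean`, private, copy them).
-/

set_option autoImplicit false

namespace Pool.Agent.RGK

open scoped Classical

private theorem qk1a_li {F V ε : Type} [Field F] [AddCommGroup V] [Module F V] [Fintype ε]
    (v : ε → V) (u : ε → ℕ) (hu : ∀ k l, u k = u l → k = l)
    (hv : ∀ k, v k ∉ Submodule.span F {x | ∃ l, u l < u k ∧ x = v l}) :
    LinearIndependent F v := by
  rw [Fintype.linearIndependent_iff]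
  intro g hg
  by_contra hcon
  push Not at hcon
  have hne : (Finset.univ.filter fun k => g k ≠ 0).Nonempty := by
    obtain ⟨i, hi⟩ := hcon
    exact ⟨i, by simpa using hi⟩
  obtain ⟨k, hk, hmax⟩ := Finset.exists_max_image _ u hne
  have hk0 : g k ≠ 0 := by simpa using hk
  apply hv k
  have h1 : v k = -(g k)⁻¹ • ∑ l ∈ Finset.univ.erase k, g l • v l := by
    have h2 : g k • v k + ∑ l ∈ Finset.univ.erase k, g l • v l = 0 := by
      rw [Finset.add_sum_erase _ (fun l => g l • v l) (Finset.mem_univ k)]
      exact hg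
    have h3 : ∑ l ∈ Finset.univ.erase k, g l • v l = -(g k • v k) := by
      exact (neg_eq_of_add_eq_zero_right h2).symm
    rw [h3, neg_smul, smul_neg, neg_neg, smul_smul, inv_mul_cancel₀ hk0, one_smul]
  rw [h1]
  refine Submodule.smul_mem _ _ (Submodule.sum_mem _ fun l hl => ?_)
  by_cases hl0 : g l = 0
  · rw [hl0, zero_smul]
    exact Submodule.zero_mem _
  · refine Submodule.smul_mem _ _ (Submodule.subset_span ⟨l, ?_, rfl⟩)
    have h4 : u l ≤ u k := hmax l (by simpa using hl0)
    rcases lt_or_eq_of_le h4 with h5 | h5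
    · exact h5
    · exact absurd (hu l k h5) (Finset.ne_of_mem_erase hl)

theorem greedy {F : Type} [Field F] {α β κ : Type} [Fintype α] [Fintype β] [Fintype κ]
    (c : α → β → κ → F) (w : α → β → ℕ)
    (hw : ∀ a b a' b', w a b = w a' b' → a = a' ∧ b = b')
    (hc : Submodule.span F {x | ∃ a b, x = c a b} = ⊤) :
    ∃ (ε : Type) (_ : Fintype ε) (s : ε → α) (t : ε → β) (B : ε → κ → F) (B' : κ → ε → F),
      (∀ k l, s k = s l → t k = t l → k = l) ∧
      (∀ a b, c a b ∉ Submodule.span F {x | ∃ a' b', w a' b' < w a b ∧ x = c a' b'} →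
        ∃ k, s k = a ∧ t k = b) ∧
      (∀ j l, ∑ k, B' j k * B k l = if j = l then 1 else 0) ∧
      (∀ k, ∑ j, B k j * c (s k) (t k) j = 1) ∧
      ∀ k a b, w a b ≤ w (s k) (t k) → ¬ (a = s k ∧ b = t k) → ∑ j, B k j * c a b j = 0 := by
  let S : α × β → Prop := fun q =>
    c q.1 q.2 ∉ Submodule.span F {x | ∃ a' b', w a' b' < w q.1 q.2 ∧ x = c a' b'}
  let ε : Type := {q : α × β // S q}
  let v : ε → κ → F := fun k => c k.1.1 k.1.2
  let u : ε → ℕ := fun k => w k.1.1 k.1.2
  have hu : ∀ k l, u k = u l → k = l := by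
    intro k l h
    have h1 := hw _ _ _ _ h
    exact Subtype.ext (Prod.ext h1.1 h1.2)
  have hli : LinearIndependent F v := by
    refine qk1a_li v u hu fun k hk => ?_
    refine k.2 (Submodule.span_mono ?_ hk)
    rintro x ⟨l, hl, rfl⟩
    exact ⟨_, _, hl, rfl⟩
  -- every vector is in the span of the selected ones of at most its weight
  have hsp : ∀ n : ℕ, ∀ a b, w a b = n →
      c a b ∈ Submodule.span F {x | ∃ l, u l ≤ n ∧ x = v l} := by
    intro n
    induction n using Nat.strong_induction_on with
    | _ n ih =>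
      intro a b hab
      by_cases h : S (a, b)
      · exact Submodule.subset_span ⟨⟨(a, b), h⟩, hab.le, rfl⟩
      · have h1 : c a b ∈ Submodule.span F {x | ∃ a' b', w a' b' < w a b ∧ x = c a' b'} := by
          by_contra h2
          exact h h2
        refine Submodule.span_le.2 ?_ h1
        rintro x ⟨a', b', hlt, rfl⟩
        have h3 := ih (w a' b') (hab ▸ hlt) a' b' rfl
        refine Submodule.span_mono ?_ h3
        rintro x ⟨l, hl, rfl⟩
        exact ⟨l, hl.trans (hlt.le.trans hab.le), rfl⟩
  have htop : ⊤ ≤ Submodule.span F (Set.range v) := by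
    rw [← hc, Submodule.span_le]
    rintro x ⟨a, b, rfl⟩
    refine Submodule.span_mono ?_ (hsp _ a b rfl)
    rintro x ⟨l, hl, rfl⟩
    exact ⟨l, rfl⟩
  let bs : Module.Basis ε F (κ → F) := Module.Basis.mk hli htop
  have hbs : ∀ k, bs k = v k := fun k => Module.Basis.mk_apply hli htop k
  have hcoord : ∀ (k : ε) (x : κ → F), ∑ j, bs.coord k (Pi.single j 1) * x j = bs.coord k x := by
    intro k x
    have h1 : x = ∑ j, x j • (Pi.single j (1 : F) : κ → F) := by
      rw [← pi_eq_sum_univ' x]
    conv_rhs => rw [h1, map_sum]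
    refine Finset.sum_congr rfl fun j _ => ?_
    rw [map_smul, smul_eq_mul, mul_comm]
  refine ⟨ε, inferInstance, fun k => k.1.1, fun k => k.1.2,
    fun k j => bs.coord k (Pi.single j 1), fun j k => v k j, ?_, ?_, ?_, ?_, ?_⟩
  · intro k l h1 h2
    exact Subtype.ext (Prod.ext h1 h2)
  · intro a b h
    exact ⟨⟨(a, b), h⟩, rfl, rfl⟩
  · intro j l
    have h1 := bs.sum_repr (Pi.single l (1 : F))
    have h2 := congrFun h1 j
    rw [Finset.sum_apply] at h2
    rw [Pi.single_apply] at h2
    rw [← h2]
    refine Finset.sum_congr rfl fun k _ => ?_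
    rw [Pi.smul_apply, hbs, smul_eq_mul, mul_comm]
    rfl
  · intro k
    rw [hcoord]
    have : c k.1.1 k.1.2 = bs k := (hbs k).symm
    rw [this, Module.Basis.coord_apply, Module.Basis.repr_self, Finsupp.single_eq_same]
  · intro k a b hle hne
    rw [hcoord]
    have hlt : w a b < w k.1.1 k.1.2 := by
      rcases lt_or_eq_of_le hle with h | h
      · exact h
      · exact absurd (hw _ _ _ _ h) hne
    have h1 := hsp (w a b) a b rfl
    have h2 : Submodule.span F {x | ∃ l, u l ≤ w a b ∧ x = v l} ≤ LinearMap.ker (bs.coord k) := by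
      rw [Submodule.span_le]
      rintro x ⟨l, hl, rfl⟩
      have hlk : l ≠ k := by
        rintro rfl
        exact absurd hlt (not_lt.2 hl)
      change v l ∈ LinearMap.ker (bs.coord k)
      rw [LinearMap.mem_ker, ← hbs l, Module.Basis.coord_apply, Module.Basis.repr_self]
      exact Finsupp.single_eq_of_ne (Ne.symm hlk)
    exact LinearMap.mem_ker.1 (h2 h1)

end Pool.Agent.RGK
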