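import Mathlib
import Pool.Agent.Lib.RGK.QKDefs
import Pool.Agent.Lib.RGK.QK1a

/-!
RG v4, row QK1b: leading terms from the criterion.

Adapt `lead_of_criterion` in `Pool/Agent/Lib/RG/QCrit.lean` (507 lines). Let `bU ∋ u`, `bV ∋ v` be bases of
`U`, `V`; number `bU` and `bV` by injections `nU : bU → ℕ`, `nV : bV → ℕ` with values `< n` (`n` large).
Put `i a := nU a + 1 ≤ n` and `j b := (n + 1) * (nV b + 1)`, `A := (n + 1) ^ 3` (larger than all
`i a + j b`), `B := 3 * A`, `W := 100 * A` and the weights
`v: W`, other `b ∈ bV`: `W + A + j b`, `u: W + B`, other `a ∈ bU`: `W + B + A + i a`.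
All weights are in `[W, 3 W / 2)`. The weights of the pairs `(a, b)` are pairwise different:
`(u, v)`: `2 W + B`; `(u, b)`: `2 W + B + A + j b`; `(a, v)`: `2 W + B + A + i a`;
`(a, b)`: `2 W + B + 2 A + i a + j b`. Two different elements of `bU` have
together weight `≥ 2 W + 2 B + A`, larger than all pairs `(a, b)`. The cup products of the pairs containing
`u` or `v` (the double star, `#bU + #bV - 1` pairs) are linearly independent (they span a space of
dimension `≥ finrank H - 1 = #bU + #bV - 1`) and their weights are smaller than those of the other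
pairs, so each of them is not in the span of the cup products of smaller weight, hence it is selected in
`greedy`. So the graph is connected. Apply `greedy` to
`c a b := cupL X Y a b` (`α := bU`, `β := bV`); the pairs inside `bV` have cup product `0`.
-/

set_option autoImplicit false

namespace Pool.Agent.RGK

open scoped Classical
open Pool.Agent.RG.Q

private noncomputable def QK1b_L {p : ℕ} {H : Type} [AddCommGroup H] [Module (ZMod p) H]
    {κ : Type} (X Y : κ → H →ₗ[ZMod p] ZMod p) :
    H →ₗ[ZMod p] H →ₗ[ZMod p] (κ → ZMod p) :=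
  LinearMap.mk₂ (ZMod p) (cupL X Y)
    (by
      intro f f' g
      funext q
      simp only [cupL, Pi.add_apply, map_add]
      ring)
    (by
      intro c f g
      funext q
      simp only [cupL, Pi.smul_apply, smul_eq_mul, map_smul]
      ring)
    (by
      intro f g g'
      funext q
      simp only [cupL, Pi.add_apply, map_add]
      ring)
    (by
      intro c f g
      funext q
      simp only [cupL, Pi.smul_apply, smul_eq_mul, map_smul]
      ring)

private theorem QK1b_L_apply {p : ℕ} {H : Type} [AddCommGroup H] [Module (ZMod p) H]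
    {κ : Type} (X Y : κ → H →ₗ[ZMod p] ZMod p) (f g : H) :
    QK1b_L X Y f g = cupL X Y f g := rfl

private theorem QK1b_self {p : ℕ} {H : Type} [AddCommGroup H] [Module (ZMod p) H]
    {κ : Type} (X Y : κ → H →ₗ[ZMod p] ZMod p) (f : H) : cupL X Y f f = 0 := by
  funext q
  simp only [cupL, sub_self, Pi.zero_apply]

private theorem QK1b_swap {p : ℕ} {H : Type} [AddCommGroup H] [Module (ZMod p) H]
    {κ : Type} (X Y : κ → H →ₗ[ZMod p] ZMod p) (f g : H) :
    cupL X Y f g = -cupL X Y g f := by
  funext q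
  simp only [cupL, Pi.neg_apply]
  ring

private theorem QK1b_ext {p : ℕ} [Fact p.Prime] {H : Type} [AddCommGroup H] [Module (ZMod p) H]
    (U : Submodule (ZMod p) H) {u : H}
    (hu : u ∈ U) (hu0 : u ≠ 0) : ∃ b : Set H, u ∈ b ∧
      Submodule.span (ZMod p) b = U ∧ LinearIndependent (ZMod p) ((↑) : b → H) := by
  have h1 : LinearIndepOn (ZMod p) id ({u} : Set H) :=
    LinearIndepOn.singleton hu0
  obtain ⟨b, hb1, hb2, hb3, hb4⟩ := exists_linearIndepOn_id_extension h1
    (Set.singleton_subset_iff.2 hu : ({u} : Set H) ⊆ (U : Set H))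
  refine ⟨b, hb2 rfl, le_antisymm (Submodule.span_le.2 hb1) hb3, hb4⟩

private theorem QK1b_num {N x y x' y' : ℕ} (hx : x ≤ N) (hx' : x' ≤ N)
    (h : x + (N + 1) * y = x' + (N + 1) * y') : x = x' ∧ y = y' := by
  have h1 : x % (N + 1) = x' % (N + 1) := by
    have h2 := congrArg (fun z => z % (N + 1)) h
    simpa [Nat.add_mul_mod_self_left] using h2
  rw [Nat.mod_eq_of_lt (by omega), Nat.mod_eq_of_lt (by omega)] at h1
  refine ⟨h1, ?_⟩
  rw [h1] at h
  exact Nat.eq_of_mul_eq_mul_left (Nat.succ_pos N) (Nat.add_left_cancel h)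

theorem lead_of_crit {p : ℕ} [Fact p.Prime] {H : Type} [AddCommGroup H] [Module (ZMod p) H]
    [Finite H] {κ : Type} [Fintype κ] (X Y : κ → H →ₗ[ZMod p] ZMod p) (v : H)
    (h : CritC (cupL X Y) ⊤ v) :
    ∃ (α ε : Type) (_ : Fintype α) (_ : Fintype ε) (_ : Nonempty α) (Λ : LD α ε)
      (f : Module.Basis α (ZMod p) H) (B : ε → κ → ZMod p),
      Lead Λ (fun j a => X j (f a)) (fun j a => Y j (f a)) B ∧ Λ.Conn := by
  obtain ⟨U, V, hUV, hUV', hV, hs, hv, hv0, u, hu, hu0, hT⟩ := h
  obtain ⟨bU, hubU, hspU, hliU⟩ := QK1b_ext U hu hu0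
  obtain ⟨bV, hvbV, hspV, hliV⟩ := QK1b_ext V hv hv0
  let _ : Fintype bU := Fintype.ofFinite _
  let _ : Fintype bV := Fintype.ofFinite _
  let f : bU ⊕ bV → H := Sum.elim (↑) (↑)
  have hfli : LinearIndependent (ZMod p) f := by
    refine LinearIndependent.sum_type hliU hliV ?_
    rw [Subtype.range_coe, Subtype.range_coe, hspU, hspV]
    exact disjoint_iff.2 hUV'
  have hfsp : ⊤ ≤ Submodule.span (ZMod p) (Set.range f) := by
    have h1 : Set.range f = bU ∪ bV := by
      change Set.range (Sum.elim _ _) = _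
      rw [Set.Sum.elim_range, Subtype.range_coe, Subtype.range_coe]
    rw [h1, Submodule.span_union, hspU, hspV, hUV]
  let bas : Module.Basis (bU ⊕ bV) (ZMod p) H := Module.Basis.mk hfli hfsp
  have hbas : ∀ a, bas a = f a := fun a => Module.Basis.mk_apply hfli hfsp a
  have hcard : Fintype.card bU + Fintype.card bV = Module.finrank (ZMod p) H := by
    have h1 := Module.finrank_eq_card_basis bas
    rw [Fintype.card_sum] at h1
    exact h1.symm
  let u' : bU := ⟨u, hubU⟩
  let v' : bV := ⟨v, hvbV⟩
  have hmU : ∀ g : H, ∀ S : Submodule (ZMod p) (κ → ZMod p),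
      (∀ a ∈ bU, cupL X Y a g ∈ S) → ∀ f ∈ U, cupL X Y f g ∈ S := by
    intro g S hS f hf
    have h1 : U ≤ S.comap ((QK1b_L X Y).flip g) := by
      rw [← hspU, Submodule.span_le]
      intro a ha
      exact hS a ha
    exact h1 hf
  have hmV : ∀ f : H, ∀ S : Submodule (ZMod p) (κ → ZMod p),
      (∀ b ∈ bV, cupL X Y f b ∈ S) → ∀ g ∈ V, cupL X Y f g ∈ S := by
    intro f S hS g hg
    have h1 : V ≤ S.comap (QK1b_L X Y f) := by
      rw [← hspV, Submodule.span_le]
      intro b hb
      exact hS b hb
    exact h1 hg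
  -- the double star
  let e0 : bV ⊕ {a : bU // a ≠ u'} → κ → ZMod p :=
    Sum.elim (fun b => cupL X Y u b) (fun a => cupL X Y a.1 v)
  have hTe : Submodule.span (ZMod p)
      ({x | ∃ g ∈ V, x = cupL X Y u g} ∪ {x | ∃ f ∈ U, x = cupL X Y f v}) ≤
        Submodule.span (ZMod p) (Set.range e0) := by
    have h1 : ∀ b : bV, cupL X Y u b ∈ Submodule.span (ZMod p) (Set.range e0) := fun b =>
      Submodule.subset_span ⟨Sum.inl b, rfl⟩
    rw [Submodule.span_le]
    rintro _ (⟨g, hg, rfl⟩ | ⟨f, hf, rfl⟩)
    · exact hmV u _ (fun b hb => h1 ⟨b, hb⟩) g hg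
    · refine hmU v _ (fun a ha => ?_) f hf
      by_cases hau : (⟨a, ha⟩ : bU) = u'
      · have h2 : a = u := congrArg Subtype.val hau
        rw [h2]
        exact h1 v'
      · exact Submodule.subset_span ⟨Sum.inr ⟨⟨a, ha⟩, hau⟩, rfl⟩
  have hce : Fintype.card (bV ⊕ {a : bU // a ≠ u'}) + 1 = Module.finrank (ZMod p) H := by
    have h1 : Fintype.card {a : bU // a ≠ u'} = Fintype.card bU - 1 := by
      rw [Fintype.card_subtype_compl, Fintype.card_subtype_eq]
    have h2 : 0 < Fintype.card bU := Fintype.card_pos_iff.2 ⟨u'⟩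
    rw [Fintype.card_sum, h1]
    omega
  have he0 : LinearIndependent (ZMod p) e0 := by
    rw [linearIndependent_iff_card_le_finrank_span]
    have h1 := Submodule.finrank_mono hTe
    rw [finrank_top] at hT
    have h2 : Module.finrank (ZMod p) (Submodule.span (ZMod p) (Set.range e0)) =
      Set.finrank (ZMod p) (Set.range e0) := rfl
    omega
  -- weights
  obtain ⟨N, hN1, hN2⟩ : ∃ N : ℕ, Fintype.card bU ≤ N ∧ Fintype.card bV ≤ N :=
    ⟨_, le_max_left _ _, le_max_right _ _⟩
  let iU : bU → ℕ := fun a => (Fintype.equivFin bU a : ℕ) + 1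
  let jV : bV → ℕ := fun b => (Fintype.equivFin bV b : ℕ) + 1
  have hiU : ∀ a, 1 ≤ iU a ∧ iU a ≤ N := by
    intro a
    have := (Fintype.equivFin bU a).2
    change 1 ≤ (Fintype.equivFin bU a : ℕ) + 1 ∧ (Fintype.equivFin bU a : ℕ) + 1 ≤ N
    omega
  have hjV : ∀ b, 1 ≤ jV b ∧ jV b ≤ N := by
    intro b
    have := (Fintype.equivFin bV b).2
    change 1 ≤ (Fintype.equivFin bV b : ℕ) + 1 ∧ (Fintype.equivFin bV b : ℕ) + 1 ≤ N
    omega
  have hiinj : ∀ a a', iU a = iU a' → a = a' := by
    intro a a' h1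
    exact (Fintype.equivFin bU).injective (Fin.ext (Nat.add_right_cancel h1))
  have hjinj : ∀ b b', jV b = jV b' → b = b' := by
    intro b b' h1
    exact (Fintype.equivFin bV).injective (Fin.ext (Nat.add_right_cancel h1))
  obtain ⟨A, hA⟩ : ∃ A : ℕ, (N + 1) * (N + 1) ≤ A := ⟨_, le_rfl⟩
  have hjA : ∀ b, (N + 1) * jV b + N + 1 ≤ A := by
    intro b
    have h1 : (N + 1) * (jV b + 1) ≤ (N + 1) * (N + 1) :=
      Nat.mul_le_mul_left _ (Nat.succ_le_succ (hjV b).2)
    have h2 : (N + 1) * (jV b + 1) = (N + 1) * jV b + N + 1 := by ring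
    omega
  have hjlow : ∀ b, N + 1 ≤ (N + 1) * jV b := by
    intro b
    exact Nat.le_mul_of_pos_right _ (hjV b).1
  let wU : bU → ℕ := fun a => if a = u' then 103 * A else 104 * A + iU a
  let wV : bV → ℕ := fun b => if b = v' then 100 * A else 101 * A + (N + 1) * jV b
  have hwu : wU u' = 103 * A := if_pos rfl
  have hwv : wV v' = 100 * A := if_pos rfl
  have hwU : ∀ a, a ≠ u' → wU a = 104 * A + iU a := fun a ha => if_neg ha
  have hwV : ∀ b, b ≠ v' → wV b = 101 * A + (N + 1) * jV b := fun b hb => if_neg hb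
  have hwU2 : ∀ a, 103 * A ≤ wU a ∧ wU a ≤ 105 * A := by
    intro a
    have h1 := hiU a
    have h2 := hjA v'
    by_cases ha : a = u'
    · rw [ha, hwu]
      omega
    · rw [hwU a ha]
      omega
  have hwV2 : ∀ b, 100 * A ≤ wV b ∧ wV b ≤ 102 * A := by
    intro b
    have h2 := hjA b
    by_cases hb : b = v'
    · rw [hb, hwv]
      omega
    · rw [hwV b hb]
      omega
  have hdist : ∀ a b a' b', wU a + wV b = wU a' + wV b' → a = a' ∧ b = b' := by
    intro a b a' b' h1
    have hA1 := hjA b
    have hA2 := hjA b'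
    have hL1 := hjlow b
    have hL2 := hjlow b'
    have hi1 := hiU a
    have hi2 := hiU a'
    by_cases ha : a = u' <;> by_cases hb : b = v' <;> by_cases ha' : a' = u' <;>
      by_cases hb' : b' = v'
    · exact ⟨ha.trans ha'.symm, hb.trans hb'.symm⟩
    · exfalso
      rw [ha, hb, ha', hwu, hwv, hwV b' hb'] at h1
      omega
    · exfalso
      rw [ha, hb, hb', hwu, hwv, hwU a' ha'] at h1
      omega
    · exfalso
      rw [ha, hb, hwu, hwv, hwU a' ha', hwV b' hb'] at h1
      omega
    · exfalso
      rw [ha, ha', hb', hwu, hwv, hwV b hb] at h1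
      omega
    · rw [ha, ha', hwu, hwV b hb, hwV b' hb'] at h1
      refine ⟨ha.trans ha'.symm, hjinj _ _ ?_⟩
      have h2 : (N + 1) * jV b = (N + 1) * jV b' := by omega
      exact Nat.eq_of_mul_eq_mul_left (Nat.succ_pos N) h2
    · exfalso
      rw [ha, hb', hwu, hwv, hwV b hb, hwU a' ha'] at h1
      omega
    · exfalso
      rw [ha, hwu, hwV b hb, hwU a' ha', hwV b' hb'] at h1
      omega
    · exfalso
      rw [hb, ha', hb', hwu, hwv, hwU a ha] at h1
      omega
    · exfalso
      rw [hb, ha', hwu, hwv, hwU a ha, hwV b' hb'] at h1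
      omega
    · rw [hb, hb', hwv, hwU a ha, hwU a' ha'] at h1
      exact ⟨hiinj _ _ (by omega), hb.trans hb'.symm⟩
    · exfalso
      rw [hb, hwv, hwU a ha, hwU a' ha', hwV b' hb'] at h1
      omega
    · exfalso
      rw [ha', hb', hwu, hwv, hwU a ha, hwV b hb] at h1
      omega
    · exfalso
      rw [ha', hwu, hwU a ha, hwV b hb, hwV b' hb'] at h1
      omega
    · exfalso
      rw [hb', hwv, hwU a ha, hwV b hb, hwU a' ha'] at h1
      omega
    · rw [hwU a ha, hwV b hb, hwU a' ha', hwV b' hb'] at h1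
      have h2 : iU a + (N + 1) * jV b = iU a' + (N + 1) * jV b' := by omega
      obtain ⟨h3, h4⟩ := QK1b_num hi1.2 hi2.2 h2
      exact ⟨hiinj _ _ h3, hjinj _ _ h4⟩
  have hspan : Submodule.span (ZMod p) {x | ∃ (a : bU) (b : bV), x = cupL X Y a b} = ⊤ := by
    rw [eq_top_iff, ← hs, Submodule.span_le]
    rintro _ ⟨f, hf, g, hg, rfl⟩
    have h1 : ∀ a ∈ bU, ∀ b ∈ bV, cupL X Y a b ∈
        Submodule.span (ZMod p) {x | ∃ (a : bU) (b : bV), x = cupL X Y a b} := fun a ha b hb =>
      Submodule.subset_span ⟨⟨a, ha⟩, ⟨b, hb⟩, rfl⟩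
    exact hmU g _ (fun a ha => hmV a _ (fun b hb => h1 a ha b hb) g hg) f hf
  obtain ⟨ε, _, s, t, B, B', hinj, hsel, hBB, hB1, hB0⟩ := greedy
    (fun (a : bU) (b : bV) => cupL X Y a b) (fun a b => wU a + wV b) hdist hspan
  -- the pairs of the double star are selected
  have hstar : ∀ k0 : bV ⊕ {a : bU // a ≠ u'}, ∀ (a : bU) (b : bV),
      (a = u' ∨ b = v') → (Sum.elim (fun b => (u', b)) (fun a => (a.1, v')) k0 : bU × bV) = (a, b) →
        ∃ k, s k = a ∧ t k = b := by
    intro k0 a b hab hk0
    refine hsel a b ?_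
    have hle : wU a + wV b < 205 * A := by
      have h2 := hjA b
      have h3 := hiU a
      rcases hab with rfl | rfl
      · by_cases hb : b = v'
        · rw [hb, hwu, hwv]
          omega
        · rw [hwu, hwV b hb]
          omega
      · by_cases ha : a = u'
        · rw [ha, hwu, hwv]
          omega
        · rw [hwv, hwU a ha]
          omega
    have hval : e0 k0 = cupL X Y (a : H) (b : H) := by
      rcases k0 with b0 | a0
      · have h2 : u' = a := congrArg Prod.fst hk0
        have h3 : b0 = b := congrArg Prod.snd hk0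
        rw [← h2, ← h3]
        rfl
      · have h2 : a0.1 = a := congrArg Prod.fst hk0
        have h3 : v' = b := congrArg Prod.snd hk0
        rw [← h2, ← h3]
        rfl
    show cupL X Y (a : H) (b : H) ∉ _
    rw [← hval]
    intro hmem
    have h4 : e0 k0 ∉ Submodule.span (ZMod p) (e0 '' {k0}ᶜ) :=
      he0.notMem_span_image (fun hh => hh rfl)
    refine h4 (Submodule.span_mono ?_ hmem)
    rintro _ ⟨a', b', hlt, rfl⟩
    have hlt' : wU a' + wV b' < wU a + wV b := hlt
    by_cases ha' : a' = u'
    · refine ⟨Sum.inl b', ?_, ?_⟩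
      · intro hh
        rw [Set.mem_singleton_iff] at hh
        rw [← hh] at hk0
        have h2 : u' = a := congrArg Prod.fst hk0
        have h3 : b' = b := congrArg Prod.snd hk0
        rw [ha', h2, h3] at hlt'
        exact lt_irrefl _ hlt'
      · rw [ha']
        rfl
    · by_cases hb' : b' = v'
      · refine ⟨Sum.inr ⟨a', ha'⟩, ?_, ?_⟩
        · intro hh
          rw [Set.mem_singleton_iff] at hh
          rw [← hh] at hk0
          have h2 : a' = a := congrArg Prod.fst hk0
          have h3 : v' = b := congrArg Prod.snd hk0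
          rw [hb', h2, h3] at hlt'
          exact lt_irrefl _ hlt'
        · rw [hb']
          rfl
      · exfalso
        rw [hwU a' ha', hwV b' hb'] at hlt'
        omega
  have hedgeu : ∀ b : bV, ∃ k, s k = u' ∧ t k = b := fun b =>
    hstar (Sum.inl b) u' b (Or.inl rfl) rfl
  have hedgev : ∀ a : bU, ∃ k, s k = a ∧ t k = v' := by
    intro a
    by_cases ha : a = u'
    · rw [ha]
      exact hedgeu v'
    · exact hstar (Sum.inr ⟨a, ha⟩) a v' (Or.inr rfl) rfl
  let Λ : LD (bU ⊕ bV) ε :=
    { W := 100 * A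
      wt := Sum.elim wU wV
      s := fun k => Sum.inl (s k)
      t := fun k => Sum.inr (t k) }
  have hApos : 0 < A := by
    have := hjA v'
    omega
  have hwe : ∀ k, Λ.we k < 206 * A := by
    intro k
    change wU (s k) + wV (t k) < 206 * A
    have h1 := hjA (t k)
    have h2 := hiU (s k)
    by_cases ha : s k = u' <;> by_cases hb : t k = v'
    · rw [ha, hb, hwu, hwv]
      omega
    · rw [ha, hwu, hwV _ hb]
      omega
    · rw [hb, hwv, hwU _ ha]
      omega
    · rw [hwU _ ha, hwV _ hb]
      omega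
  have hadj : ∀ k, Λ.Adj (Sum.inl (s k)) (Sum.inr (t k)) := fun k => ⟨k, Or.inl ⟨rfl, rfl⟩⟩
  have hadj' : ∀ k, Λ.Adj (Sum.inr (t k)) (Sum.inl (s k)) := fun k => ⟨k, Or.inr ⟨rfl, rfl⟩⟩
  have hub : ∀ b, Λ.Adj (Sum.inr b) (Sum.inl u') ∧ Λ.Adj (Sum.inl u') (Sum.inr b) := by
    intro b
    obtain ⟨k, hk1, hk2⟩ := hedgeu b
    rw [← hk1, ← hk2]
    exact ⟨hadj' k, hadj k⟩
  have hav : ∀ a, Λ.Adj (Sum.inr v') (Sum.inl a) ∧ Λ.Adj (Sum.inl a) (Sum.inr v') := by
    intro a
    obtain ⟨k, hk1, hk2⟩ := hedgev a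
    rw [← hk1, ← hk2]
    exact ⟨hadj' k, hadj k⟩
  have htou : ∀ a, Relation.ReflTransGen Λ.Adj a (Sum.inl u') := by
    rintro (a | b)
    · exact Relation.ReflTransGen.head (hav a).2 (Relation.ReflTransGen.single (hub v').1)
    · exact Relation.ReflTransGen.single (hub b).1
  have hfrom : ∀ a, Relation.ReflTransGen Λ.Adj (Sum.inl u') a := by
    rintro (a | b)
    · exact Relation.ReflTransGen.tail (Relation.ReflTransGen.single (hub v').2) (hav a).1
    · exact Relation.ReflTransGen.single (hub b).2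
  have hok : Λ.Ok :=
    { lo := by
        rintro (a | b)
        · have := (hwU2 a).1
          change 100 * A ≤ wU a
          omega
        · exact (hwV2 b).1
      hi := by
        rintro (a | b)
        · have := (hwU2 a).2
          change 2 * wU a < 3 * (100 * A)
          omega
        · have := (hwV2 b).2
          change 2 * wV b < 3 * (100 * A)
          omega
      inj := fun k l h1 h2 => hinj k l (Sum.inl_injective h1) (Sum.inr_injective h2)
      col := fun k l h1 => Sum.inl_ne_inr h1 }
  have hq : ∀ (k : ε) (a b : bU ⊕ bV),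
      ∑ j, B k j * qd (fun j a => X j (bas a)) (fun j a => Y j (bas a)) j a b =
        -∑ j, B k j * cupL X Y (f a) (f b) j := by
    intro k a b
    rw [← Finset.sum_neg_distrib]
    refine Finset.sum_congr rfl fun j _ => ?_
    simp only [qd, cupL, hbas]
    ring
  refine ⟨bU ⊕ bV, ε, inferInstance, inferInstance, ⟨Sum.inl u'⟩, Λ, bas, B, ?_,
    fun a b => (htou a).trans (hfrom b)⟩
  exact
    { ok := hok
      inv := ⟨B', hBB⟩
      lead := by
        intro k
        rw [hq]
        have h1 : ∑ j, B k j * cupL X Y (f (Λ.s k)) (f (Λ.t k)) j = 1 := hB1 k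
        rw [h1]
        exact neg_ne_zero.2 one_ne_zero
      van := by
        intro k a b hle hne hne'
        rw [hq, neg_eq_zero]
        have h206 := hwe k
        rcases a with a | a <;> rcases b with b | b
        · -- both in `bU`
          by_cases h1 : a = b
          · rw [h1]
            refine Finset.sum_eq_zero fun j _ => ?_
            rw [QK1b_self, Pi.zero_apply, mul_zero]
          · exfalso
            change wU a + wU b ≤ Λ.we k at hle
            by_cases h4 : a = u'
            · have h5 : b ≠ u' := fun h => h1 (h4.trans h.symm)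
              rw [h4, hwu, hwU b h5] at hle
              omega
            · have h5 := (hwU2 b).1
              rw [hwU a h4] at hle
              omega
        · change wU a + wV b ≤ wU (s k) + wV (t k) at hle
          exact hB0 k a b hle fun hh => hne ⟨congrArg Sum.inl hh.1, congrArg Sum.inr hh.2⟩
        · change wV a + wU b ≤ wU (s k) + wV (t k) at hle
          have h1 := hB0 k b a (by rw [add_comm]; exact hle)
            fun hh => hne' ⟨congrArg Sum.inr hh.2, congrArg Sum.inl hh.1⟩
          have h2 : ∀ j, B k j * cupL X Y (f (Sum.inr a)) (f (Sum.inl b)) j =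
              -(B k j * cupL X Y (b : H) (a : H) j) := by
            intro j
            rw [QK1b_swap, Pi.neg_apply, mul_neg]
            rfl
          rw [Finset.sum_congr rfl (fun j _ => h2 j), Finset.sum_neg_distrib, neg_eq_zero]
          exact h1
        · have h1 : cupL X Y (f (Sum.inr a)) (f (Sum.inr b)) = 0 := by
            refine hV _ ?_ _ ?_
            · rw [← hspV]
              exact Submodule.subset_span a.2
            · rw [← hspV]
              exact Submodule.subset_span b.2
          refine Finset.sum_eq_zero fun j _ => ?_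
          rw [h1, Pi.zero_apply, mul_zero] }

end Pool.Agent.RGK
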