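import Mathlib
import Pool.Agent.Lib.RGK.QKDefs

/-!
RG v4, row QK2: dual generators.

The map `G → (H1 p G → ZMod p)`, `g ↦ (f ↦ f g)` has as image a subgroup, hence a subspace `W` of the dual
space of the finite-dimensional space `H1 p G` (scalars `ZMod p` are multiples). If `W` is not the whole
dual space there is `f ≠ 0` in `H1 p G` with `f g = 0` for all `g`, impossible. So there are `z a`
dual to the basis `f`. They generate topologically: see the proof of `hgen` in `base_change`
(`Pool/Agent/Lib/RG/QB.lean`; copy the private lemma `QB_hom`): otherwise there is a nonzero character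
`ψ` of `G` (open kernel, in `H1 p G`) which kills all `z a`; but `ψ` is a combination of the `f a`.
-/

set_option autoImplicit false

namespace Pool.Agent.RGK

open scoped Classical

/-- A proper subgroup of a finite `p`-group is contained in the kernel of a nontrivial homomorphism
to `ℤ / p`. -/
private theorem QK2_hom (p : ℕ) [Fact p.Prime] (Q : Type) [Group Q] [Finite Q] {n : ℕ}
    (hQ : Nat.card Q = p ^ n) (C : Subgroup Q) (hC : C ≠ ⊤) :
    ∃ h : Q →* Multiplicative (ZMod p), C ≤ h.ker ∧ h ≠ 1 := by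
  have hp : p.Prime := Fact.out
  obtain ⟨a, ha, hCa⟩ : ∃ a, a < n ∧ Nat.card C = p ^ a := by
    have h1 : Nat.card C ∣ p ^ n := hQ ▸ C.card_subgroup_dvd_card
    obtain ⟨a, ha, hCa⟩ := (Nat.dvd_prime_pow hp).mp h1
    refine ⟨a, lt_of_le_of_ne ha ?_, hCa⟩
    rintro rfl
    exact hC (Subgroup.eq_top_of_card_eq C (by rw [hCa, hQ]))
  obtain ⟨M, hM, hCM⟩ := Sylow.exists_subgroup_card_pow_prime_le (G := Q) p (n := a) (m := n - 1)
    (by rw [hQ]; exact pow_dvd_pow _ (by omega)) C hCa (by omega)
  have hidx : M.index = p := by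
    have h1 := M.card_mul_index
    rw [hM, hQ] at h1
    have h2 : p ^ n = p ^ (n - 1) * p := by
      rw [← pow_succ]
      congr 1
      omega
    rw [h2] at h1
    exact Nat.eq_of_mul_eq_mul_left (pow_pos hp.pos _) h1
  have hn : n ≠ 0 := by omega
  have hmf : (Nat.card Q).minFac = p := by
    rw [hQ, hp.pow_minFac hn]
  have hnor : M.Normal := Subgroup.normal_of_index_eq_minFac_card (by rw [hidx, hmf])
  have hcard : Nat.card (Q ⧸ M) = p := by rw [← hidx]; rfl
  have hcard' : Nat.card (Multiplicative (ZMod p)) = p := by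
    rw [Nat.card_congr Multiplicative.toAdd, Nat.card_zmod]
  let e : Q ⧸ M ≃* Multiplicative (ZMod p) := mulEquivOfPrimeCardEq hcard hcard'
  refine ⟨e.toMonoidHom.comp (QuotientGroup.mk' M), ?_, ?_⟩
  · intro g hg
    rw [MonoidHom.mem_ker]
    change e (QuotientGroup.mk g) = 1
    rw [(QuotientGroup.eq_one_iff g).mpr (hCM hg), map_one]
  · intro h1
    have h2 : M = ⊤ := by
      rw [eq_top_iff]
      intro g _
      have h3 := DFunLike.congr_fun h1 g
      change e (QuotientGroup.mk g) = 1 at h3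
      rw [map_eq_one_iff e e.injective] at h3
      exact (QuotientGroup.eq_one_iff g).mp h3
    rw [h2, Subgroup.index_top] at hidx
    exact hp.one_lt.ne hidx

/-- evaluation at a group element -/
private def QK2_ev (p : ℕ) (G : Type) [Group G] [TopologicalSpace G] [IsTopologicalGroup G] (g : G) :
    Module.Dual (ZMod p) (H1 p G) where
  toFun f := (f : G → ZMod p) g
  map_add' _ _ := rfl
  map_smul' _ _ := rfl

private theorem QK2_ev_mul (p : ℕ) (G : Type) [Group G] [TopologicalSpace G]
    [IsTopologicalGroup G] (g h : G) : QK2_ev p G (g * h) = QK2_ev p G g + QK2_ev p G h := by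
  ext f
  exact f.2.1 g h

private theorem QK2_ev_one (p : ℕ) (G : Type) [Group G] [TopologicalSpace G]
    [IsTopologicalGroup G] : QK2_ev p G 1 = 0 := by
  have h := QK2_ev_mul p G 1 1
  rw [mul_one] at h
  exact left_eq_add.mp h

private theorem QK2_ev_pow (p : ℕ) (G : Type) [Group G] [TopologicalSpace G]
    [IsTopologicalGroup G] (g : G) (n : ℕ) : QK2_ev p G (g ^ n) = n • QK2_ev p G g := by
  induction n with
  | zero => rw [pow_zero, zero_smul, QK2_ev_one]
  | succ n ih => rw [pow_succ, QK2_ev_mul, ih, succ_nsmul]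

/-- the image of the group in the dual of its characters -/
private def QK2_W (p : ℕ) [Fact p.Prime] (G : Type) [Group G] [TopologicalSpace G]
    [IsTopologicalGroup G] : Submodule (ZMod p) (Module.Dual (ZMod p) (H1 p G)) where
  carrier := Set.range (QK2_ev p G)
  zero_mem' := ⟨1, QK2_ev_one p G⟩
  add_mem' := by
    rintro _ _ ⟨g, rfl⟩ ⟨h, rfl⟩
    exact ⟨g * h, QK2_ev_mul p G g h⟩
  smul_mem' := by
    rintro c _ ⟨g, rfl⟩
    refine ⟨g ^ c.val, ?_⟩
    rw [QK2_ev_pow]
    ext f
    rw [LinearMap.smul_apply, LinearMap.smul_apply, nsmul_eq_mul, ZMod.natCast_val, ZMod.cast_id,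
      smul_eq_mul]

private theorem QK2_W_top (p : ℕ) [Fact p.Prime] (G : Type) [Group G] [TopologicalSpace G]
    [IsTopologicalGroup G] [Finite (H1 p G)] : QK2_W p G = ⊤ := by
  have h1 : (QK2_W p G).dualCoannihilator = ⊥ := by
    rw [eq_bot_iff]
    intro f hf
    rw [Submodule.mem_dualCoannihilator] at hf
    rw [Submodule.mem_bot]
    ext g
    exact hf _ ⟨g, rfl⟩
  have h2 := Subspace.dualCoannihilator_dualAnnihilator_eq (W := QK2_W p G)
  rw [← h2, h1, Submodule.dualAnnihilator_bot]

theorem dual_gen (p : ℕ) [Fact p.Prime] (G : Type) [Group G] [TopologicalSpace G]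
    [IsTopologicalGroup G] [CompactSpace G] [T2Space G] [TotallyDisconnectedSpace G]
    (hG : ∀ U : Subgroup G, U.Normal → IsOpen (U : Set G) → ∃ k, U.index = p ^ k)
    [Finite (H1 p G)] {α : Type} [Fintype α] (f : Module.Basis α (ZMod p) (H1 p G)) :
    ∃ z : α → G, (Subgroup.closure (Set.range z)).topologicalClosure = ⊤ ∧
      ∀ a b, (f b : G → ZMod p) (z a) = if a = b then 1 else 0 := by
  have hp : p.Prime := Fact.out
  have hz : ∀ a, ∃ g : G, QK2_ev p G g = f.coord a := by
    intro a
    have h1 : f.coord a ∈ QK2_W p G := by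
      rw [QK2_W_top]
      exact Submodule.mem_top
    exact h1
  choose z hz using hz
  have hdual : ∀ a b, (f b : G → ZMod p) (z a) = if a = b then 1 else 0 := by
    intro a b
    have h1 : (f b : G → ZMod p) (z a) = f.coord a (f b) := by
      rw [← hz a]
      rfl
    rw [h1, Module.Basis.coord_apply, Module.Basis.repr_self, Finsupp.single_apply]
    simp only [eq_comm]
  refine ⟨z, ?_, hdual⟩
  set C : Subgroup G := (Subgroup.closure (Set.range z)).topologicalClosure with hC
  have hCc : IsClosed (C : Set G) := Subgroup.isClosed_topologicalClosure _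
  have hzC : ∀ a, z a ∈ C := fun a =>
    Subgroup.le_topologicalClosure _ (Subgroup.subset_closure ⟨a, rfl⟩)
  rw [eq_top_iff]
  intro u _
  by_contra huC
  have hW : IsOpen {x : G | u * x ∉ C} :=
    (hCc.isOpen_compl).preimage (continuous_const_mul u)
  obtain ⟨N, hN⟩ := ProfiniteGrp.exist_openNormalSubgroup_sub_open_nhds_of_one hW
    (by simpa using huC)
  set N0 : Subgroup G := N.toSubgroup with hN0
  have hN0n : N0.Normal := N.isNormal'
  have hN0o : IsOpen (N0 : Set G) := N.isOpen'
  have hNC : ∀ x ∈ N0, u * x ∉ C := fun x hx => hN hx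
  obtain ⟨j, hj⟩ := hG N0 hN0n hN0o
  have hcardQ : Nat.card (G ⧸ N0) = p ^ j := hj
  have hfinQ : Finite (G ⧸ N0) := Nat.finite_of_card_ne_zero (by
    rw [hcardQ]
    exact pow_ne_zero _ hp.ne_zero)
  set C' : Subgroup (G ⧸ N0) := C.map (QuotientGroup.mk' N0) with hC'
  have hC'ne : C' ≠ ⊤ := by
    intro htop
    have h1 : (QuotientGroup.mk' N0 u) ∈ C' := htop ▸ Subgroup.mem_top _
    obtain ⟨c, hc, hcu⟩ := h1
    have h3 : u⁻¹ * c ∈ N0 := by
      rw [← QuotientGroup.eq]
      exact hcu.symm
    refine hNC _ h3 ?_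
    rw [mul_inv_cancel_left]
    exact hc
  obtain ⟨χ, hχC, hχ⟩ := QK2_hom p (G ⧸ N0) hcardQ C' hC'ne
  set ψ : G →* Multiplicative (ZMod p) := χ.comp (QuotientGroup.mk' N0) with hψ
  have hψ0 : ∀ g ∈ N0, ψ g = 1 := by
    intro x hx
    change χ (QuotientGroup.mk x) = 1
    rw [(QuotientGroup.eq_one_iff x).mpr hx, map_one]
  have hψz : ∀ a, ψ (z a) = 1 := fun a => by
    have h1 : QuotientGroup.mk' N0 (z a) ∈ C' := ⟨z a, hzC a, rfl⟩
    exact MonoidHom.mem_ker.mp (hχC h1)
  let ψ' : H1 p G := ⟨fun g => Multiplicative.toAdd (ψ g), fun g h => by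
    change Multiplicative.toAdd (ψ (g * h)) = _
    rw [map_mul, toAdd_mul], N0, hN0o, fun g hg => by
    change Multiplicative.toAdd (ψ g) = 0
    rw [hψ0 g hg, toAdd_one]⟩
  have hψ'z : ∀ a, f.coord a ψ' = 0 := by
    intro a
    rw [← hz a]
    change Multiplicative.toAdd (ψ (z a)) = 0
    rw [hψz a, toAdd_one]
  have hψ'0 : ψ' = 0 := by
    apply f.ext_elem
    intro a
    rw [← Module.Basis.coord_apply, hψ'z a, map_zero, Finsupp.zero_apply]
  apply hχ
  ext x
  have h1 : (ψ' : G → ZMod p) x = 0 := by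
    rw [hψ'0]
    rfl
  exact h1

end Pool.Agent.RGK
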