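import Mathlib
import Pool.Agent.Lib.RG.QMain
import Pool.Agent.Lib.RG.QTF
import Pool.Agent.Lib.RGK.QKDefs
import Pool.Agent.Lib.RGK.QK1b
import Pool.Agent.Lib.RGK.QK2

/-!
RG v4, row QK3: the criterion for groups with local data.
-/

set_option autoImplicit false

namespace Pool.Agent.RGK

open scoped Classical
open Pool.Agent.RG (GenBy)
open Pool.Agent.RG.Q

variable {p : ℕ} {κ : Type} {G : Type} [Group G] [TopologicalSpace G] [IsTopologicalGroup G]

/-- the homomorphism of an element of `H1 p G` -/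
def H1.hom (f : H1 p G) : G →* Multiplicative (ZMod p) where
  toFun g := Multiplicative.ofAdd ((f : G → ZMod p) g)
  map_one' := by
    have h : (f : G → ZMod p) (1 * 1) = (f : G → ZMod p) 1 + (f : G → ZMod p) 1 := f.2.1 1 1
    rw [mul_one, left_eq_add] at h
    rw [h]
    rfl
  map_mul' g h := by
    rw [f.2.1 g h, ofAdd_add]

theorem H1.isOpen_ker (f : H1 p G) : IsOpen ((H1.hom f).ker : Set G) := by
  obtain ⟨N, hN, h⟩ := f.2.2
  refine Subgroup.isOpen_mono (H₁ := N) (fun g hg => ?_) hN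
  rw [MonoidHom.mem_ker]
  show Multiplicative.ofAdd ((f : G → ZMod p) g) = 1
  rw [h g hg]
  rfl

theorem rank_gradientK (p : ℕ) [Fact p.Prime] (hp : p ≠ 2) {κ : Type} [Fintype κ] (G : Type)
    [Group G] [TopologicalSpace G] [IsTopologicalGroup G] [CompactSpace G] [T2Space G]
    [TotallyDisconnectedSpace G]
    (hG : ∀ U : Subgroup G, U.Normal → IsOpen (U : Set G) → ∃ k, U.index = p ^ k)
    (K : KL p κ G) [Finite (H1 p G)] (v : H1 p G) (h : CritC (cupG K) ⊤ v) :
    Infinite G ∧ (∀ e : ℝ, 0 < e → ∃ (U : Subgroup G) (n : ℕ), IsOpen (U : Set G) ∧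
      GenBy U n ∧ ((n : ℝ) - 1) ≤ e * U.index) ∧
    ∀ g : G, g ≠ 1 → ∀ n : ℕ, 0 < n → g ^ n ≠ 1 := by
  let X : κ → H1 p G →ₗ[ZMod p] ZMod p := fun j =>
    { toFun := fun f => (f : G → ZMod p) (K.x j)
      map_add' := fun f g => rfl
      map_smul' := fun c f => rfl }
  let Y : κ → H1 p G →ₗ[ZMod p] ZMod p := fun j =>
    { toFun := fun f => (f : G → ZMod p) (K.y j)
      map_add' := fun f g => rfl
      map_smul' := fun c f => rfl }
  have hXY : (cupG K : H1 p G → H1 p G → κ → ZMod p) = cupL X Y := rfl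
  rw [hXY] at h
  obtain ⟨α, ε, _, _, _, Λ, f, B, hL, hconn⟩ := lead_of_crit X Y v h
  obtain ⟨z, hz, hd⟩ := dual_gen p G hG f
  let K' : KD p α κ G :=
    { z := z
      x := K.x
      y := K.y
      q := K.q
      χ := fun a => H1.hom (f a)
      cont := fun a => H1.isOpen_ker (f a)
      gen := hz
      hq := K.hq
      tame := K.tame
      dual := fun a b => by
        show Multiplicative.ofAdd ((f b : G → ZMod p) (z a)) = _
        rw [hd a b]
      lift := K.lift }
  have hL' : Lead Λ K'.cx K'.cy B := hL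
  obtain ⟨h1, h2, -⟩ := rank_gradient p hp G hG K' Λ B hL' hconn
  exact ⟨h1, h2, fun g hg n hn => torsion_free p hp G hG K' Λ B hL' g hg n hn⟩

end Pool.Agent.RGK
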