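import Mathlib
import Pool.Agent.Lib.RGK.BDefs
import Pool.Agent.Lib.RGK.B1
import Pool.Agent.Lib.RGK.XDefs
import Pool.Agent.Lib.RGK.X2
import Pool.Agent.Lib.RGK.X3
import Pool.Agent.Lib.RGK.X3b
import Pool.Agent.Lib.RGK.QKDefs
import Pool.Agent.Lib.RGK.QK3
import Pool.Agent.Lib.RGK.G01
import Pool.Agent.Lib.RGK.G02
import Pool.Agent.Lib.RGK.G03
import Pool.Agent.Lib.RGK.G05

/-!
RG v4, rows G06a, G06b, G06c: `H1 p Gal(X / K)` and `GC p T`, `X` the maximal `p`-extension of `K`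
unramified outside `T`.

`RelE T f F`: for all `v ∉ T` not above `p` the component `F v` is `f` of a Frobenius element times `vp p v`
(and `f` kills the inertia generator). `H1.hom` (QK3) is the homomorphism to `Multiplicative (ZMod p)`
of an element of `H1`.

`exists_H1` (row G06a): `f g := toAdd (χ g)`.
`RelE.add`, `RelE.smul` (row G06a): immediate (`add_smul`, `mul_smul`).
`RelE.right_unique` (row G06a): `F - F'` is in `GC p T ≤ GC p (T ∪ {v | Above v p})` (`GC.mono`) and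
vanishes outside `T ∪ {v | Above v p}` (`exists_inFrK`), a finite set (`RG.H.fin_above`): `GC.ext_off`
(X3).
`RelE.left_unique` (row G06a): `f v = ξ v • vp p v` with `ξ v := (F v).ev (piv v)` for `v ∉ T`
(`GC.off`; `(vp p v).ev (piv v) = 1` by `vl_piv`), so `ChV T (H1.hom f) ξ` and the same for `f'`;
`chV_unique` (G05) with `T' := T`.
`exists_relE` (row G06a): `chV_exists` (G05) and `GC_of_RC` (X3b).
`exists_relE'` (row G06a): `RC_of_GC` (X3b), `exists_chV` (G05, `T₀ := T`), `exists_H1`.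

`exists_equivE` (row G06b): `e f` is chosen by `exists_relE`, linear by `RelE.add`, `RelE.smul`,
`RelE.right_unique`; injective by `RelE.left_unique`, surjective by `exists_relE'`, `RelE.right_unique`:
`LinearEquiv.ofBijective`.

`relE_local` (row G06c). Let `t ∈ T`, `InFrK t x y`, `RelE T f F`.
(a) `f x = 0` implies `F t = f y • vp p t` (so `Kills (F t) t 0`): take `ξ` with `ChV T (H1.hom f) ξ`,
`ξ ∈ RC p T` (`chV_exists`); `chV_unr` gives `η ∈ RC p (T \ {t})`, `η v = ξ v` for `v ≠ t`, `η t = f y`;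
`GC_of_RC` gives `F' ∈ GC p (T \ {t})`, `F' v = η v • vp p v` for `v ∉ T \ {t}`. `F' ∈ GC p T`
(`GC.mono`), `RelE T f F'`, so `F' = F` (`RelE.right_unique`).
(b) `Kills (F t) t 0` implies `f x = 0`: `F ∈ GC p (T \ {t})` (`GC.unram`), `RC_of_GC` gives
`η ∈ RC p (T \ {t})` with `F v = η v • vp p v` for `v ∉ T \ {t}`; put `ξ v := if v = t then 0 else η v`;
`ChV T (H1.hom f) ξ` (compare values at `piv v`), `chV_of_unr` (G05): `H1.hom f x = 1`.
-/

set_option autoImplicit false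

namespace Pool.Agent.RGK

open NumberField IsDedekindDomain
open Pool.Agent.RG (Above IsDec IsInert IsFrob Lies)
open Pool.Agent.RG.H (Pr vl UU PP SU ev below nrm emb NS)

theorem exists_H1 {p : ℕ} {G : Type} [Group G] [TopologicalSpace G] [IsTopologicalGroup G]
    {χ : G →* Multiplicative (ZMod p)} (h : IsOpen (χ.ker : Set G)) :
    ∃ f : H1 p G, H1.hom f = χ := by
  refine ⟨⟨fun g => Multiplicative.toAdd (χ g), fun g g' => ?_, χ.ker, h, fun g hg => ?_⟩, ?_⟩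
  · change Multiplicative.toAdd (χ (g * g')) = _
    rw [map_mul, toAdd_mul]
  · change Multiplicative.toAdd (χ g) = 0
    rw [MonoidHom.mem_ker.1 hg]
    rfl
  · ext g
    rfl

variable {K : Type} [Field K] [NumberField K] {X : Type} [Field X] [Algebra K X]

/-- `f` and `F` have the same Frobenius values outside `T`. -/
def RelE {p : ℕ} (T : Set (Pr K)) (f : H1 p (X ≃ₐ[K] X)) (F : Pr K → Hm K p) : Prop :=
  ∀ v : Pr K, v ∉ T → ¬ Above v p → ∀ x y : X ≃ₐ[K] X, InFrK v x y →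
    (f : (X ≃ₐ[K] X) → ZMod p) x = 0 ∧ F v = (f : (X ≃ₐ[K] X) → ZMod p) y • vp p v

theorem RelE.add {p : ℕ} {T : Set (Pr K)} {f f' : H1 p (X ≃ₐ[K] X)} {F F' : Pr K → Hm K p}
    (h : RelE T f F) (h' : RelE T f' F') : RelE T (f + f') (F + F') := by
  intro v hv hvp x y hxy
  obtain ⟨h1, h2⟩ := h v hv hvp x y hxy
  obtain ⟨h1', h2'⟩ := h' v hv hvp x y hxy
  have e : ∀ z, ((f + f' : H1 p (X ≃ₐ[K] X)) : (X ≃ₐ[K] X) → ZMod p) z =
      (f : (X ≃ₐ[K] X) → ZMod p) z + (f' : (X ≃ₐ[K] X) → ZMod p) z := fun z => rfl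
  refine ⟨by rw [e, h1, h1', add_zero], ?_⟩
  rw [e, add_smul, ← h2, ← h2']
  rfl

theorem RelE.smul {p : ℕ} {T : Set (Pr K)} {f : H1 p (X ≃ₐ[K] X)} {F : Pr K → Hm K p}
    (h : RelE T f F) (c : ZMod p) : RelE T (c • f) (c • F) := by
  intro v hv hvp x y hxy
  obtain ⟨h1, h2⟩ := h v hv hvp x y hxy
  have e : ∀ z, ((c • f : H1 p (X ≃ₐ[K] X)) : (X ≃ₐ[K] X) → ZMod p) z =
      c * (f : (X ≃ₐ[K] X) → ZMod p) z := fun z => rfl
  refine ⟨by rw [e, h1, mul_zero], ?_⟩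
  rw [e, mul_smul, ← h2]
  rfl

theorem RelE.right_unique {p : ℕ} [Fact p.Prime] {T : Set (Pr K)} (hTf : T.Finite)
    (hX : MaxExtK p T X) {f : H1 p (X ≃ₐ[K] X)} {F F' : Pr K → Hm K p} (hF : F ∈ GC p T)
    (hF' : F' ∈ GC p T) (h : RelE T f F) (h' : RelE T f F') : F = F' := by
  obtain ⟨S, hS⟩ := RG.H.fin_above (K := K) p (Fact.out : p.Prime).ne_zero
  have hfin : (T ∪ {v | Above v p}).Finite :=
    hTf.union (S.finite_toSet.subset fun v hv => hS v hv)
  refine GC.ext_off hfin (GC.mono Set.subset_union_left hF) (GC.mono Set.subset_union_left hF') ?_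
  intro v hv
  have hvT : v ∉ T := fun h0 => hv (Or.inl h0)
  have hvp : ¬ Above v p := fun h0 => hv (Or.inr h0)
  obtain ⟨x, y, hxy, -⟩ := exists_inFrK hX hvp
  rw [(h v hvT hvp x y hxy).2, (h' v hvT hvp x y hxy).2]

theorem RelE.left_unique {p : ℕ} [Fact p.Prime] {T : Set (Pr K)} (hTf : T.Finite)
    (hX : MaxExtK p T X) {f f' : H1 p (X ≃ₐ[K] X)} {F : Pr K → Hm K p} (hF : F ∈ GC p T)
    (h : RelE T f F) (h' : RelE T f' F) : f = f' := by
  have key : ∀ g : H1 p (X ≃ₐ[K] X), RelE T g F →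
      ChV T (H1.hom g) (fun v => (F v).ev (piv v)) := by
    intro g hg v hv hvp x y hxy
    obtain ⟨h1, h2⟩ := hg v hv hvp x y hxy
    refine ⟨?_, ?_⟩
    · change Multiplicative.ofAdd ((g : (X ≃ₐ[K] X) → ZMod p) x) = 1
      rw [h1]
      rfl
    · change Multiplicative.ofAdd ((g : (X ≃ₐ[K] X) → ZMod p) y) =
        Multiplicative.ofAdd ((F v).ev (piv v))
      congr 1
      rw [h2]
      change _ = (g : (X ≃ₐ[K] X) → ZMod p) y * ((vl v (piv v) : ℤ) : ZMod p)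
      rw [vl_piv, Int.cast_one, mul_one]
  have e := chV_unique hTf hX (H1.isOpen_ker f) (H1.isOpen_ker f') hTf (key f h) (key f' h')
  refine Subtype.ext (funext fun g => ?_)
  have h3 := DFunLike.congr_fun e g
  exact Multiplicative.ofAdd.injective h3

theorem exists_relE {p : ℕ} [Fact p.Prime] (hp : p ≠ 2) {T : Set (Pr K)} (hTf : T.Finite)
    (hT : ∀ v ∈ T, ¬ Above v p) (hX : MaxExtK p T X) (f : H1 p (X ≃ₐ[K] X)) :
    ∃ F ∈ GC p T, RelE T f F := by
  obtain ⟨ξ, hξ, hc⟩ := chV_exists hp hTf hT hX (H1.isOpen_ker f)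
  obtain ⟨F, hF, hFv⟩ := GC_of_RC hTf hξ
  refine ⟨F, hF, fun v hv hvp x y hxy => ?_⟩
  obtain ⟨h1, h2⟩ := hc v hv hvp x y hxy
  have h3 : (f : (X ≃ₐ[K] X) → ZMod p) y = ξ v := Multiplicative.ofAdd.injective h2
  refine ⟨Multiplicative.ofAdd.injective h1, ?_⟩
  rw [hFv v hv, h3]

theorem exists_relE' {p : ℕ} [Fact p.Prime] (hp : p ≠ 2) {T : Set (Pr K)} (hTf : T.Finite)
    (hT : ∀ v ∈ T, ¬ Above v p) (hX : MaxExtK p T X) {F : Pr K → Hm K p} (hF : F ∈ GC p T) :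
    ∃ f : H1 p (X ≃ₐ[K] X), RelE T f F := by
  obtain ⟨ξ, hξ, hFv⟩ := RC_of_GC hF
  obtain ⟨χ, hχ, hc⟩ := exists_chV hp hTf hT hX le_rfl hξ
  obtain ⟨f, rfl⟩ := exists_H1 hχ
  refine ⟨f, fun v hv hvp x y hxy => ?_⟩
  obtain ⟨h1, h2⟩ := hc v hv hvp x y hxy
  have h3 : (f : (X ≃ₐ[K] X) → ZMod p) y = ξ v := Multiplicative.ofAdd.injective h2
  refine ⟨Multiplicative.ofAdd.injective h1, ?_⟩
  rw [hFv v hv, h3]

theorem exists_equivE {p : ℕ} [Fact p.Prime] (hp : p ≠ 2) {T : Set (Pr K)} (hTf : T.Finite)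
    (hT : ∀ v ∈ T, ¬ Above v p) (hX : MaxExtK p T X) :
    ∃ e : H1 p (X ≃ₐ[K] X) ≃ₗ[ZMod p] GC p T, ∀ f, RelE T f (e f : Pr K → Hm K p) := by
  choose F hF hFr using fun f : H1 p (X ≃ₐ[K] X) => exists_relE hp hTf hT hX f
  let l : H1 p (X ≃ₐ[K] X) →ₗ[ZMod p] GC p T :=
    { toFun := fun f => ⟨F f, hF f⟩
      map_add' := fun f g => Subtype.ext (RelE.right_unique hTf hX (hF (f + g))
        (Submodule.add_mem _ (hF f) (hF g)) (hFr (f + g)) ((hFr f).add (hFr g)))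
      map_smul' := fun c f => Subtype.ext (RelE.right_unique hTf hX (hF (c • f))
        (Submodule.smul_mem _ c (hF f)) (hFr (c • f)) ((hFr f).smul c)) }
  have hl : ∀ f, ((l f : GC p T) : Pr K → Hm K p) = F f := fun f => rfl
  refine ⟨LinearEquiv.ofBijective l ⟨?_, ?_⟩, fun f => hFr f⟩
  · intro f f' hff
    have h1 : F f = F f' := congrArg Subtype.val hff
    refine RelE.left_unique hTf hX (hF f) (hFr f) ?_
    rw [h1]
    exact hFr f'
  · rintro ⟨F', hF'⟩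
    obtain ⟨f, hf⟩ := exists_relE' hp hTf hT hX hF'
    exact ⟨f, Subtype.ext (RelE.right_unique hTf hX (hF f) hF' (hFr f) hf)⟩

theorem relE_local {p : ℕ} [Fact p.Prime] (hp : p ≠ 2) {T : Set (Pr K)} (hTf : T.Finite)
    (hT : ∀ v ∈ T, ¬ Above v p) (hX : MaxExtK p T X) {f : H1 p (X ≃ₐ[K] X)}
    {F : Pr K → Hm K p} (hF : F ∈ GC p T) (h : RelE T f F) {t : Pr K} (ht : t ∈ T)
    {x y : X ≃ₐ[K] X} (hxy : InFrK t x y) :
    ((f : (X ≃ₐ[K] X) → ZMod p) x = 0 ↔ Kills (F t) t 0) ∧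
      ((f : (X ≃ₐ[K] X) → ZMod p) x = 0 → F t = (f : (X ≃ₐ[K] X) → ZMod p) y • vp p t) := by
  classical
  have happ : ∀ g : X ≃ₐ[K] X,
      H1.hom f g = Multiplicative.ofAdd ((f : (X ≃ₐ[K] X) → ZMod p) g) := fun g => rfl
  have hvp : ∀ v : Pr K, (vp p v).ev (piv v) = 1 := by
    intro v
    show ((vl v (piv v) : ℤ) : ZMod p) = 1
    rw [vl_piv, Int.cast_one]
  have hpart : (f : (X ≃ₐ[K] X) → ZMod p) x = 0 →
      F t = (f : (X ≃ₐ[K] X) → ZMod p) y • vp p t := by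
    intro hfx
    obtain ⟨ξ, hξ, hch⟩ := chV_exists hp hTf hT hX (H1.isOpen_ker f)
    have hx1 : H1.hom f x = 1 := by
      rw [happ, hfx]
      rfl
    obtain ⟨η, hη, he, hηt⟩ := chV_unr hp hTf hT hX (H1.isOpen_ker f) hξ hch ht hxy hx1
    obtain ⟨F', hF', hF'v⟩ := GC_of_RC (hTf.subset Set.sdiff_subset) hη
    have hF'T : F' ∈ GC p T := GC.mono Set.sdiff_subset hF'
    have hrel : RelE T f F' := by
      intro v hvT hvp' a b hab
      obtain ⟨h1, h2⟩ := hch v hvT hvp' a b hab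
      have hvt : v ≠ t := fun h0 => hvT (h0 ▸ ht)
      refine ⟨?_, ?_⟩
      · rw [happ] at h1
        exact Multiplicative.ofAdd.injective h1
      · rw [happ] at h2
        rw [hF'v v (fun h0 => hvT h0.1), he v hvt, Multiplicative.ofAdd.injective h2]
    have hFF : F = F' := RelE.right_unique hTf hX hF hF'T h hrel
    rw [happ] at hηt
    rw [hFF, hF'v t (fun h0 => h0.2 rfl), Multiplicative.ofAdd.injective hηt]
  refine ⟨⟨fun hfx => ?_, fun hk => ?_⟩, hpart⟩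
  · rw [hpart hfx]
    intro z hz
    show (f : (X ≃ₐ[K] X) → ZMod p) y * ((vl t z : ℤ) : ZMod p) = 0
    rw [hz.1, Int.cast_zero, mul_zero]
  · obtain ⟨η, hη, hηv⟩ := RC_of_GC (GC.unram hF hk)
    have hch : ChV T (H1.hom f) (fun v => if v = t then 0 else η v) := by
      intro v hvT hvp' a b hab
      obtain ⟨h1, h2⟩ := h v hvT hvp' a b hab
      have hvt : v ≠ t := fun h0 => hvT (h0 ▸ ht)
      refine ⟨?_, ?_⟩
      · rw [happ, h1]
        rfl
      · have h3 : (f : (X ≃ₐ[K] X) → ZMod p) b = η v := by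
          have h4 : (F v).ev (piv v) = η v * (vp p v).ev (piv v) := by
            rw [hηv v (fun h0 => hvT h0.1)]
            rfl
          have h5 : (F v).ev (piv v) = (f : (X ≃ₐ[K] X) → ZMod p) b * (vp p v).ev (piv v) := by
            rw [h2]
            rfl
          rw [hvp, mul_one] at h4 h5
          rw [← h5, h4]
        rw [happ, h3]
        show _ = Multiplicative.ofAdd (if v = t then 0 else η v)
        rw [if_neg hvt]
    have h6 := (chV_of_unr hp hTf hT hX (H1.isOpen_ker f) hch ht hxy hη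
      (fun v hv => (if_neg hv).symm)).1
    rw [happ] at h6
    exact Multiplicative.ofAdd.injective h6

end Pool.Agent.RGK
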