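import Mathlib
import Pool.Agent.Lib.RG.RDefs
import Pool.Agent.Lib.RGK.BDefs
import Pool.Agent.Lib.RGK.B1
import Pool.Agent.Lib.RGK.XDefs
import Pool.Agent.Lib.RGK.X2
import Pool.Agent.Lib.RGK.X3
import Pool.Agent.Lib.RGK.X4
import Pool.Agent.Lib.RGK.QKDefs
import Pool.Agent.Lib.RGK.QK3
import Pool.Agent.Lib.RGK.E28
import Pool.Agent.Lib.RGK.C17
import Pool.Agent.Lib.RGK.C18
import Pool.Agent.Lib.RGK.C27
import Pool.Agent.Lib.RGK.G01
import Pool.Agent.Lib.RGK.G02
import Pool.Agent.Lib.RGK.G03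
import Pool.Agent.Lib.RGK.G04
import Pool.Agent.Lib.RGK.G06
import Pool.Agent.Lib.RGK.GL1

/-!
RG v4, rows G07a, G07b, G07c: the local data of `GP p T` (glue).

`triangular` (row G07a), linear algebra over the field `ZMod p`. If `a = 0` then `a' = 0`, take `l = 1`.
Otherwise choose `u` with `a' u = 1` (scale), `l := a u ≠ 0`, `c := b u - b' u`; for every `f` the element
`f - a' f • u` is in the kernel of `a'`, hence of `a`: `a f = l * a' f`,
`b f - b' f = a' f * c`. Then compute.

`exists_glue` (row G07b). `hX := maxExtK_maxExtP p T` (G01). `x t`, `y t` from `exists_inFrK` (G03;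
`not_above_of_nm`, B1), `q t := nm t`, `lift` from `lift_propertyK` (G04; the index type is
`(T : Set (Pr K))` there), `e` from `exists_equivE` (G06). For every `t` `triangular` is applied to
`a f := f (x t)`, `b f := f (y t)`, `a' f := ((e f) t).ev (gv p t)`, `b' f := ((e f) t).ev (piv t)`:
`relE_local` (G06), `unram_iff'` (X2; `Kills ((e f) t) t 1` is part of `e f ∈ GC p T`),
`(vp p t).ev (piv t) = 1` (`vl_piv`).

`cycExt_of_VT` (row G07c). Let `s ∉ T`, `nm s % p = 1`. `exists_ram` (X4) gives `f ∈ GC p (insert s T)`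
with `¬ Kills (f s) s 0`; `RC_of_GC` (X3b) gives `ξ ∈ RC p (insert s T)`, `EX` (C27) a field `L` and an
injective `θ`, unramified outside `insert s T`, with the Frobenius values `ξ`. If `L / K` were
unramified at `s` then `θ` would be unramified outside `T`, `exists_phi` (C18) and `REC` (C17) give
`η ∈ RC p T` with `FV T θ η`, `GC_of_RC` gives `g ∈ GC p T` with `g v = η v • vp p v` for
`v ∉ T`. For `v ∉ insert s T` and `v` not above `p`: `η v = ξ v` (`exists_frobK`, B2: there is a
Frobenius element at some prime above `v`, and one can compare `FV.frob`; no need to exclude the primes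
above `p` if this holds for all `v`), so `f v = g v`
outside the finite set `insert s T ∪ {v | Above v p}`, `f = g` by `GC.ext_off` and `Kills (f s) s 0`,
contradiction. `finrank K L = p`: `θ` is injective, so the group has order `1` or `p`; order `1` would
be unramified at `s`.
-/

set_option autoImplicit false

namespace Pool.Agent.RGK

open NumberField IsDedekindDomain
open Pool.Agent.RG (Above IsDec IsInert IsFrob Lies maxExtP GP)
open Pool.Agent.RG.H (Pr vl UU PP SU ev below nrm emb NS)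

theorem triangular {p : ℕ} [Fact p.Prime] {V : Type} [AddCommGroup V] [Module (ZMod p) V]
    (a b a' b' : V →ₗ[ZMod p] ZMod p) (h1 : ∀ f, a f = 0 ↔ a' f = 0)
    (h2 : ∀ f, a f = 0 → b f = b' f) :
    ∃ l : ZMod p, l ≠ 0 ∧ ∀ f g, a f * b g - a g * b f = l * (a' f * b' g - a' g * b' f) := by
  by_cases ha : ∀ f, a f = 0
  · refine ⟨1, one_ne_zero, fun f g => ?_⟩
    rw [ha f, ha g, (h1 f).1 (ha f), (h1 g).1 (ha g)]
    ring
  · push Not at ha
    obtain ⟨u₀, hu₀⟩ := ha
    have hu₀' : a' u₀ ≠ 0 := fun h => hu₀ ((h1 u₀).2 h)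
    obtain ⟨u, hu1⟩ : ∃ u, a' u = 1 :=
      ⟨(a' u₀)⁻¹ • u₀, by rw [map_smul, smul_eq_mul, inv_mul_cancel₀ hu₀']⟩
    have hau : a u ≠ 0 := by
      intro h
      have h3 := (h1 u).1 h
      rw [hu1] at h3
      exact one_ne_zero h3
    have key : ∀ f, a f = a u * a' f ∧ b f = b' f + a' f * (b u - b' u) := by
      intro f
      have h3 : a' (f - a' f • u) = 0 := by
        rw [map_sub, map_smul, smul_eq_mul, hu1, mul_one, sub_self]
      have h4 := (h1 _).2 h3
      have h5 := h2 _ h4
      rw [map_sub, map_smul, smul_eq_mul] at h4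
      rw [map_sub, map_sub, map_smul, map_smul, smul_eq_mul, smul_eq_mul] at h5
      constructor
      · linear_combination h4
      · linear_combination h5
    refine ⟨a u, hau, fun f g => ?_⟩
    rw [(key f).1, (key g).1, (key f).2, (key g).2]
    ring

variable {K : Type} [Field K] [NumberField K]

/-- evaluation of the local component at `t` -/
private def G07b_ev {p : ℕ} (T : Set (Pr K)) (t : Pr K) (z : Kˣ) : GC p T →ₗ[ZMod p] ZMod p where
  toFun F := ((F : Pr K → Hm K p) t).ev z
  map_add' _ _ := rfl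
  map_smul' _ _ := rfl

theorem exists_glue {p : ℕ} [Fact p.Prime] (hp : p ≠ 2) {T : Finset (Pr K)}
    (hT : ∀ t ∈ T, (nm t).Prime ∧ nm t % p = 1) (hcyc : CycExt p (T : Set (Pr K))) :
    ∃ (k : KL p T (GP p (T : Set (Pr K))))
      (e : H1 p (GP p (T : Set (Pr K))) ≃ₗ[ZMod p] GC p (T : Set (Pr K))) (l : T → ZMod p),
      (∀ t, l t ≠ 0) ∧
      (∀ f g t, cupG k f g t = l t * cupF p (t : Pr K) (e f : Pr K → Hm K p) (e g)) ∧
      (∀ t : T, InFrK (t : Pr K) (k.x t) (k.y t)) ∧
      ∀ f, ∀ q : Pr K, q ∉ T → ¬ Above q p → ∀ x y : GP p (T : Set (Pr K)), InFrK q x y →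
        (e f : Pr K → Hm K p) q = (f : GP p (T : Set (Pr K)) → ZMod p) y • vp p q := by
  have hpp : p.Prime := Fact.out
  have hX := maxExtK_maxExtP p (T : Set (Pr K))
  have hab : ∀ v ∈ (T : Set (Pr K)), ¬ Above v p := fun v hv => not_above_of_nm hpp (hT v hv).2
  have hex : ∀ t : T, ∃ x y : GP p (T : Set (Pr K)), InFrK (t : Pr K) x y ∧
      y * x * y⁻¹ = x ^ nm (t : Pr K) := fun t => exists_inFrK hX (hab t t.2)
  choose x y hxy htame using hex
  let k : KL p T (GP p (T : Set (Pr K))) :=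
    { x := x
      y := y
      q := fun t => nm (t : Pr K)
      hq := fun t => (hT t t.2).2
      tame := htame
      lift := fun E H _ _ _ _ π hπ hker hcard φ hφ hφs ex ey hx hy hr =>
        lift_propertyK hp (T := (T : Set (Pr K))) hT hcyc hX x y hxy E H π hπ hker hcard φ hφ hφs
          ex ey hx hy hr }
  obtain ⟨e, he⟩ := exists_equivE hp T.finite_toSet hab hX
  have key : ∀ t : T, ∃ l : ZMod p, l ≠ 0 ∧ ∀ f g : H1 p (GP p (T : Set (Pr K))),
      cupG k f g t = l * cupF p (t : Pr K) (e f : Pr K → Hm K p) (e g) := by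
    intro t
    let a : H1 p (GP p (T : Set (Pr K))) →ₗ[ZMod p] ZMod p :=
      { toFun := fun f => (f : GP p (T : Set (Pr K)) → ZMod p) (x t)
        map_add' := fun _ _ => rfl
        map_smul' := fun _ _ => rfl }
    let b : H1 p (GP p (T : Set (Pr K))) →ₗ[ZMod p] ZMod p :=
      { toFun := fun f => (f : GP p (T : Set (Pr K)) → ZMod p) (y t)
        map_add' := fun _ _ => rfl
        map_smul' := fun _ _ => rfl }
    let a' : H1 p (GP p (T : Set (Pr K))) →ₗ[ZMod p] ZMod p :=
      (G07b_ev (T : Set (Pr K)) (t : Pr K) (gv p (t : Pr K))).comp e.toLinearMap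
    let b' : H1 p (GP p (T : Set (Pr K))) →ₗ[ZMod p] ZMod p :=
      (G07b_ev (T : Set (Pr K)) (t : Pr K) (piv (t : Pr K))).comp e.toLinearMap
    have hloc : ∀ f : H1 p (GP p (T : Set (Pr K))), (a f = 0 ↔ a' f = 0) ∧
        (a f = 0 → b f = b' f) := by
      intro f
      obtain ⟨g1, g2⟩ := relE_local hp T.finite_toSet hab hX (e f).2 (he f) t.2 (hxy t)
      have g3 := unram_iff' (hT t t.2).2 ((e f).2.2.1 (t : Pr K) t.2)
      refine ⟨g1.trans g3, fun h0 => ?_⟩
      have g4 : (e f : Pr K → Hm K p) t = (f : GP p (T : Set (Pr K)) → ZMod p) (y t) •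
        vp p (t : Pr K) := g2 h0
      show (f : GP p (T : Set (Pr K)) → ZMod p) (y t) =
        ((e f : Pr K → Hm K p) t).ev (piv (t : Pr K))
      rw [g4]
      show _ = (f : GP p (T : Set (Pr K)) → ZMod p) (y t) *
        ((vl (t : Pr K) (piv (t : Pr K)) : ℤ) : ZMod p)
      rw [vl_piv, Int.cast_one, mul_one]
    obtain ⟨l, hl, h⟩ := triangular a b a' b' (fun f => (hloc f).1) (fun f => (hloc f).2)
    exact ⟨l, hl, fun f g => h f g⟩
  choose l hl hcup using key
  exact ⟨k, e, l, hl, fun f g t => hcup t f g, hxy, fun f q hq hqp x' y' hxy' =>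
    (he f q hq hqp x' y' hxy').2⟩

end Pool.Agent.RGK
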