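import Mathlib
import Pool.Agent.Lib.RGK.QKDefs

/-!
RG v4, row QK4: the criterion under an isomorphism which scales the cup products.

Take `U' := U.comap (G.subtype ∘ e)`, `V' := V.comap ..` (as `U, V ≤ G` their images under
`f ↦ (e f : H)` are `U`, `V`); the linear automorphism `x ↦ fun j => l j * x j` of `κ → ZMod p` maps the
sets of cup products to each other, so it maps spans to spans and preserves dimensions
(`Submodule.map_span`, `LinearEquiv.finrank_map_eq`).
-/

set_option autoImplicit false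

namespace Pool.Agent.RGK

open scoped Classical

theorem critC_transfer {p : ℕ} [Fact p.Prime] {H H' : Type} [AddCommGroup H]
    [Module (ZMod p) H] [AddCommGroup H'] [Module (ZMod p) H'] {κ : Type}
    (c : H → H → κ → ZMod p) (c' : H' → H' → κ → ZMod p) (G : Submodule (ZMod p) H)
    (e : H' ≃ₗ[ZMod p] G) (l : κ → ZMod p) (hl : ∀ j, l j ≠ 0)
    (hc : ∀ f g j, c' f g j = l j * c (e f) (e g) j) (v : G) (h : CritC c G v) :
    CritC c' ⊤ (e.symm v) := by
  obtain ⟨U, V, hUV, hUV', hV, hs, hv, hv0, u, hu, hu0, hT⟩ := h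
  -- the map `H' → H`
  let i : H' →ₗ[ZMod p] H := G.subtype ∘ₗ (e : H' →ₗ[ZMod p] G)
  have hi : Function.Injective i := (Submodule.injective_subtype G).comp e.injective
  have hir : LinearMap.range i = G := by
    apply le_antisymm
    · rintro _ ⟨x, rfl⟩
      exact (e x).2
    · intro x hx
      refine ⟨e.symm ⟨x, hx⟩, ?_⟩
      show ((e (e.symm ⟨x, hx⟩) : G) : H) = x
      rw [LinearEquiv.apply_symm_apply]
  have hUG : U ≤ G := hUV ▸ le_sup_left
  have hVG : V ≤ G := hUV ▸ le_sup_right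
  have hmap : ∀ S : Submodule (ZMod p) H, S ≤ G → (S.comap i).map i = S := by
    intro S hS
    rw [Submodule.map_comap_eq, hir]
    exact inf_eq_right.2 hS
  have hlift : ∀ f ∈ G, ∃ f', i f' = f := by
    intro f hf
    rw [← hir] at hf
    exact hf
  -- the scaling
  let S : (κ → ZMod p) ≃ₗ[ZMod p] (κ → ZMod p) :=
    LinearEquiv.piCongrRight fun j =>
      LinearEquiv.smulOfNeZero (ZMod p) (ZMod p) (l j) (hl j)
  have hS : ∀ (x : κ → ZMod p) j, S x j = l j * x j := fun x j => rfl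
  have hcS : ∀ f g, c' f g = S (c (i f) (i g)) := by
    intro f g
    funext j
    rw [hS]
    exact hc f g j
  refine ⟨U.comap i, V.comap i, ?_, ?_, ?_, ?_, ?_, ?_, e.symm ⟨u, hUG hu⟩, ?_, ?_, ?_⟩
  · apply Submodule.map_injective_of_injective hi
    rw [Submodule.map_sup, hmap U hUG, hmap V hVG, hUV, Submodule.map_top, hir]
  · rw [← Submodule.comap_inf, hUV', Submodule.comap_bot, LinearMap.ker_eq_bot.2 hi]
  · intro f hf g hg
    rw [hcS, hV _ hf _ hg, map_zero]
  · have h1 : {x | ∃ f ∈ U.comap i, ∃ g ∈ V.comap i, x = c' f g} =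
        S '' {x | ∃ f ∈ U, ∃ g ∈ V, x = c f g} := by
      ext x
      constructor
      · rintro ⟨f, hf, g, hg, rfl⟩
        exact ⟨c (i f) (i g), ⟨i f, hf, i g, hg, rfl⟩, (hcS f g).symm⟩
      · rintro ⟨_, ⟨f, hf, g, hg, rfl⟩, rfl⟩
        obtain ⟨f', rfl⟩ := hlift f (hUG hf)
        obtain ⟨g', rfl⟩ := hlift g (hVG hg)
        exact ⟨f', hf, g', hg, (hcS f' g').symm⟩
    rw [h1]
    have h2 := Submodule.map_span (S : (κ → ZMod p) →ₗ[ZMod p] (κ → ZMod p))
      {x | ∃ f ∈ U, ∃ g ∈ V, x = c f g}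
    rw [hs, Submodule.map_top, LinearEquiv.range] at h2
    exact h2.symm
  · show ((e (e.symm v) : G) : H) ∈ V
    rw [LinearEquiv.apply_symm_apply]
    exact hv
  · intro h0
    rw [LinearEquiv.map_eq_zero_iff] at h0
    exact hv0 (by rw [h0]; rfl)
  · show ((e (e.symm ⟨u, hUG hu⟩) : G) : H) ∈ U
    rw [LinearEquiv.apply_symm_apply]
    exact hu
  · intro h0
    rw [LinearEquiv.map_eq_zero_iff] at h0
    exact hu0 (congrArg Subtype.val h0)
  · have h1 : ({x | ∃ g ∈ V.comap i, x = c' (e.symm ⟨u, hUG hu⟩) g} ∪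
        {x | ∃ f ∈ U.comap i, x = c' f (e.symm v)}) =
        S '' ({x | ∃ g ∈ V, x = c u g} ∪ {x | ∃ f ∈ U, x = c f v}) := by
      have hiu : i (e.symm ⟨u, hUG hu⟩) = u := by
        show ((e (e.symm ⟨u, hUG hu⟩) : G) : H) = u
        rw [LinearEquiv.apply_symm_apply]
      have hiv : i (e.symm v) = v := by
        show ((e (e.symm v) : G) : H) = v
        rw [LinearEquiv.apply_symm_apply]
      rw [Set.image_union]
      congr 1
      · ext x
        constructor
        · rintro ⟨g, hg, rfl⟩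
          refine ⟨c u (i g), ⟨i g, hg, rfl⟩, ?_⟩
          rw [hcS, hiu]
        · rintro ⟨_, ⟨g, hg, rfl⟩, rfl⟩
          obtain ⟨g', rfl⟩ := hlift g (hVG hg)
          refine ⟨g', hg, ?_⟩
          rw [hcS, hiu]
      · ext x
        constructor
        · rintro ⟨f, hf, rfl⟩
          refine ⟨c (i f) v, ⟨i f, hf, rfl⟩, ?_⟩
          rw [hcS, hiv]
        · rintro ⟨_, ⟨f, hf, rfl⟩, rfl⟩
          obtain ⟨f', rfl⟩ := hlift f (hUG hf)
          refine ⟨f', hf, ?_⟩
          rw [hcS, hiv]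
    rw [h1]
    have h2 := Submodule.map_span (S : (κ → ZMod p) →ₗ[ZMod p] (κ → ZMod p))
      ({x | ∃ g ∈ V, x = c u g} ∪ {x | ∃ f ∈ U, x = c f v})
    have h3 := LinearEquiv.finrank_map_eq S (Submodule.span (ZMod p)
      ({x | ∃ g ∈ V, x = c u g} ∪ {x | ∃ f ∈ U, x = c f v}))
    rw [h2] at h3
    have h4 : Module.finrank (ZMod p) (⊤ : Submodule (ZMod p) H') = Module.finrank (ZMod p) G := by
      rw [finrank_top]
      exact e.finrank_eq
    rw [h4]
    refine hT.trans ?_
    exact Nat.add_le_add_right h3.symm.le 1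

end Pool.Agent.RGK
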