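import Mathlib
import Pool.Agent.Lib.RG.G14
import Pool.Agent.Lib.RG.RDefs
import Pool.Agent.Lib.RG.R1
import Pool.Agent.Lib.RGK.BDefs
import Pool.Agent.Lib.RGK.B1
import Pool.Agent.Lib.RGK.XDefs
import Pool.Agent.Lib.RGK.X3
import Pool.Agent.Lib.RGK.X5
import Pool.Agent.Lib.RGK.X5b
import Pool.Agent.Lib.RGK.NKDefs
import Pool.Agent.Lib.RGK.QKDefs
import Pool.Agent.Lib.RGK.QK3
import Pool.Agent.Lib.RGK.QK4
import Pool.Agent.Lib.RGK.G01
import Pool.Agent.Lib.RGK.G02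
import Pool.Agent.Lib.RGK.G03
import Pool.Agent.Lib.RGK.G07
import Pool.Agent.Lib.RGK.MK5

/-!
RG v4, row MK6: the deterministic criterion.

`core_data`: `CycExt p T` by `cycExt_of_VT` (G07), `exists_glue` (G07), `critC_transfer` (QK4) for
`h.crit`, `rank_gradientK` (QK3); `Finite (H1 p _)` from `finite_GC` (X3) and `e`; compactness etc. of
`GP p T` from `isGalois_maxExtP` (RG/R1); `MaxExtK.pro_p` (G02) with `maxExtK_maxExtP` (G01). The last
property: `e.symm f` takes the value `0` at `1`, so `y = 1` would give `f q = 0`.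

`critK_main`: `T' := Gset p T ν S`, `core_Gset` (X5b), `T' ⊆ S`; for `q ∈ S`, `q ∉ T'` there is
`f ∈ GC p T'` with `f q ≠ 0` since `q ∉ Uset p T ν S = ∅`; `mono_K` (MK5).
-/

set_option autoImplicit false

namespace Pool.Agent.RGK

open NumberField IsDedekindDomain
open Pool.Agent.RG (Above IsDec IsInert IsFrob Lies GenBy rankGradient maxExtP GP)
open Pool.Agent.RG.H (Pr vl UU PP SU ev below nrm emb NS)

variable {K : Type} [Field K] [NumberField K]

theorem core_data {p : ℕ} [Fact p.Prime] (hp : p ≠ 2) {T : Finset (Pr K)} {ν : Pr K → Hm K p}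
    (h : CoreK p T ν) :
    Infinite (GP p (T : Set (Pr K))) ∧
    (∀ ε : ℝ, 0 < ε → ∃ (U : Subgroup (GP p (T : Set (Pr K)))) (n : ℕ),
      IsOpen (U : Set (GP p (T : Set (Pr K)))) ∧ GenBy U n ∧ ((n : ℝ) - 1) ≤ ε * U.index) ∧
    (∀ g : GP p (T : Set (Pr K)), g ≠ 1 → ∀ n : ℕ, 0 < n → g ^ n ≠ 1) ∧
    ∀ q : Pr K, q ∉ T → nm q % p = 1 → (∃ f ∈ GC p (T : Set (Pr K)), f q ≠ 0) →
      ∀ x y : GP p (T : Set (Pr K)), InFrK q x y → y ≠ 1 := by
  classical
  have hgal : IsGalois K (maxExtP p (T : Set (Pr K))) := RG.isGalois_maxExtP p _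
  have hX := maxExtK_maxExtP p (T : Set (Pr K))
  have hcyc : CycExt p (T : Set (Pr K)) :=
    cycExt_of_VT hp T.finite_toSet (fun v hv => (h.pr v hv).2) h.vt
  obtain ⟨k, e, l, hl, hc, hI, hF⟩ := exists_glue hp h.pr hcyc
  have hfin : Finite (GC p (T : Set (Pr K))) := finite_GC T.finite_toSet
  have hfin2 : Finite (H1 p (GP p (T : Set (Pr K)))) := Finite.of_equiv _ e.symm.toEquiv
  have hcr : CritC (cupG k) ⊤ (e.symm ⟨ν, h.mem⟩) :=
    critC_transfer (fun f g (t : T) => cupF p (t : Pr K) f g) (cupG k) (GC p (T : Set (Pr K))) e l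
      hl (fun f g j => hc f g j) ⟨ν, h.mem⟩ h.crit
  obtain ⟨h1, h2, h3⟩ := rank_gradientK p hp (GP p (T : Set (Pr K)))
    (fun U hN hU => hX.pro_p U hN hU) k _ hcr
  refine ⟨h1, h2, h3, ?_⟩
  rintro q hq hq1 ⟨f, hf, hfq⟩ x y hxy rfl
  have h4 := hF (e.symm ⟨f, hf⟩) q hq (not_above_of_nm Fact.out hq1) x 1 hxy
  rw [e.apply_symm_apply] at h4
  apply hfq
  have h5 : ((e.symm ⟨f, hf⟩ : H1 p (GP p (T : Set (Pr K)))) :
      GP p (T : Set (Pr K)) → ZMod p) 1 = 0 := by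
    have h6 := (e.symm ⟨f, hf⟩).2.1 1 1
    rw [mul_one, left_eq_add] at h6
    exact h6
  rw [h5, zero_smul] at h4
  exact h4

theorem critK_main {p : ℕ} [Fact p.Prime] (hp : p ≠ 2) {S : Finset (Pr K)}
    (hS : ∀ q ∈ S, nm q % p = 1) (h : CritK p S) :
    Infinite (GP p (S : Set (Pr K))) ∧ rankGradient (GP p (S : Set (Pr K))) = 0 := by
  classical
  obtain ⟨T, hTS, ν, hT, hU⟩ := h
  have hG := core_Gset hT S
  obtain ⟨h1, h2, h3, h4⟩ := core_data hp hG
  refine mono_K (T := (Gset p T ν S : Set (Pr K))) ?_ S.finite_toSet (fun q hq => hS q hq) ?_ h1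
    h2 h3
  · intro q hq
    rw [Finset.mem_coe] at hq ⊢
    unfold Gset at hq
    rcases Finset.mem_union.1 hq with h5 | h5
    · exact hTS h5
    · exact (Finset.mem_filter.1 h5).1
  · intro q hq hqG
    refine h4 q hqG (hS q hq) ?_
    by_contra hcon
    push Not at hcon
    have h5 : q ∈ Uset p T ν S := by
      unfold Uset
      exact Finset.mem_filter.2 ⟨hq, hqG, hcon⟩
    rw [hU] at h5
    exact absurd h5 (Finset.notMem_empty q)

end Pool.Agent.RGK
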