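import Mathlib
import Pool.Agent.Lib.RG.N4c
import Pool.Agent.Lib.RGK.NKDefs
import Pool.Agent.Lib.RGK.DK4
import Pool.Agent.Lib.RGK.NK1
import Pool.Agent.Lib.RGK.NK2

/-!
RG v4, row NK3: the limit; port of `crit_limit` in `Pool/Agent/Lib/RG/N4c.lean` (read it).

Replace the four steps by `chainK` with `δ ^ n` (`δ ≤ 1`: if `n > 0` there is a step with a set
`A ⊆ P1K` of density `c0K * d`, `δ ≤ d`, and `d ≤ 1`; or use `min δ 1`, or note that `δ ^ n ≤ 1` follows
from `chainK` itself with `P := fun _ => True`, `x = 1`, `y = 0`: `δ ^ n ≤ iterProbK .. ≤ 1`), and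
`core_prob` by `core_probK`. `card (Uset p T ν S) ≤ card S`. `RG.N4c_tendsto` can be used.
-/

set_option autoImplicit false

namespace Pool.Agent.RGK

open NumberField IsDedekindDomain
open Pool.Agent.RG.H (Pr vl UU PP SU ev below nrm emb NS)

variable {K : Type} [Field K] [NumberField K]

private theorem NK3_eta {p : ℕ} (hp2 : 2 ≤ p) : 0 < 1 - etaK p ∧ 1 - etaK p < 1 := by
  have h2 : (2 : ℝ) ≤ p := by exact_mod_cast hp2
  have h1 : 0 < 1 / (p : ℝ) := by positivity
  have h1' : 1 / (p : ℝ) ≤ 1 / 2 := one_div_le_one_div_of_le (by norm_num) h2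
  unfold etaK
  constructor <;> nlinarith

open Classical in
theorem crit_limitK {p : ℕ} [Fact p.Prime] (hp : p ≠ 2) (hD : DensK K p)
    {St : ℕ → Finset (Pr K) → Prop} {δ : ℝ} (hδ : 0 < δ) {n : ℕ}
    (h0 : ∀ S : Finset (Pr K), (∀ v ∈ S, nm v % p = 1) → St 0 S)
    (hstep : ∀ i < n, ∀ S : Finset (Pr K), (∀ v ∈ S, nm v % p = 1) → St i S →
      ∃ d : ℝ, δ ≤ d ∧ ∃ A ⊆ P1K (K := K) p, HasDK A (c0K K p * d) ∧
        ∀ q ∈ A, q ∉ S → St (i + 1) (insert q S))
    (hcore : ∀ S : Finset (Pr K), (∀ v ∈ S, nm v % p = 1) → St n S →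
      ∃ T ⊆ S, ∃ ν, CoreK p T ν)
    (S : Finset (Pr K)) (hS : ∀ v ∈ S, nm v % p = 1) :
    Filter.Tendsto (fun k => iterProbK p (CritK p) k S) Filter.atTop (nhds 1) := by
  have hpp : p.Prime := Fact.out
  have hc : 0 < c0K K p := c0K_pos
  have h1 : HasDK (P1K (K := K) p) (c0K K p) := hasDK_P1K hD
  have hbd := fun k S' => iterProbK_bounds p hc h1 (CritK (K := K) p) k S'
  obtain ⟨he0, he1⟩ := NK3_eta hpp.two_le
  have h2 : (2 : ℝ) ≤ p := by exact_mod_cast hpp.two_le
  have hx0 : 0 < 1 / (p : ℝ) := by positivity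
  have hx1 : 1 / (p : ℝ) ≤ 1 / 2 := one_div_le_one_div_of_le (by norm_num) h2
  have hδ0 : 0 < δ ^ n := pow_pos hδ n
  have hδ1 : δ ^ n ≤ 1 := by
    have h := chainK hc h1 hδ.le hstep (fun _ => True) 0 (x := 1) (y := 0) zero_le_one
      (∅ : Finset (Pr K)) (by simp) (h0 _ (by simp))
      (fun S' _ _ _ => (iterProbK_bounds p hc h1 _ 0 S').1)
      (fun S' _ _ _ _ => by rw [iterProbK, if_pos trivial])
    have h' := (iterProbK_bounds p hc h1 (fun _ : Finset (Pr K) => True) (0 + n) ∅).2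
    linarith
  -- the claim
  have claim : ∀ (j m : ℕ) (ε : ℝ), 0 < ε → ∃ k₀ : ℕ, ∀ k, k₀ ≤ k → ∀ S' : Finset (Pr K),
      (∀ q ∈ S', nm q % p = 1) → S'.card ≤ m →
        1 - (1 - δ ^ n) ^ j - ε ≤ iterProbK p (CritK p) k S' := by
    intro j
    induction j with
    | zero =>
      intro m ε hε
      refine ⟨0, fun k _ S' _ _ => ?_⟩
      have := (hbd k S').1
      simp only [pow_zero]
      linarith
    | succ j ih =>
      intro m ε hε
      obtain ⟨K1, hK1⟩ := ih (m + n) ε hε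
      have t := RG.N4c_tendsto he0 he1 ((m : ℝ) + n)
      have t2 : ∀ᶠ k : ℕ in Filter.atTop,
          (1 - etaK p) ^ k * ((m : ℝ) + n + k / (1 - etaK p)) < ε :=
        t.eventually (gt_mem_nhds hε)
      obtain ⟨K2, hK2⟩ := Filter.eventually_atTop.1 t2
      refine ⟨max K1 K2 + n, fun k' hk' S' hS' hcard => ?_⟩
      obtain ⟨k, rfl⟩ : ∃ k, k' = k + n := ⟨k' - n, by omega⟩
      have hk1 : K1 ≤ k := by omega
      have hk2 : K2 ≤ k := by omega
      have hpow : 0 ≤ (1 - δ ^ n) ^ j := pow_nonneg (by linarith) j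
      have key := chainK hc h1 hδ.le hstep (CritK p) k (x := 1 - ε)
        (y := 1 - (1 - δ ^ n) ^ j - ε) (by linarith) S' hS' (h0 S' hS') ?_ ?_
      · refine le_trans (le_of_eq ?_) key
        ring
      · intro S'' hsub hc' hS''
        exact hK1 k hk1 S'' hS'' (by omega)
      · intro S'' hsub hc' hS'' hSt
        obtain ⟨T, hTS, ν, hco⟩ := hcore S'' hS'' hSt
        have h4 := core_probK hD hco k S'' hS'' hTS
        refine le_trans ?_ h4
        have h5 : ((Uset p T ν S'').card : ℝ) ≤ (m : ℝ) + n := by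
          have : (Uset p T ν S'').card ≤ m + n := by
            calc (Uset p T ν S'').card ≤ S''.card := Finset.card_filter_le _ _
              _ ≤ m + n := by omega
          exact_mod_cast this
        have h6 : (k : ℝ) / (1 - etaK p) *
            (1 / (p : ℝ)) ^ Module.finrank (ZMod p) (GC p (Gset p T ν S'' : Set (Pr K))) ≤
            (k : ℝ) / (1 - etaK p) := by
          refine mul_le_of_le_one_right (by positivity) ?_
          exact pow_le_one₀ hx0.le (by linarith)
        have h7 := hK2 k hk2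
        have h8 : (1 - etaK p) ^ k * (((Uset p T ν S'').card : ℝ) + (k : ℝ) / (1 - etaK p) *
            (1 / (p : ℝ)) ^ Module.finrank (ZMod p) (GC p (Gset p T ν S'' : Set (Pr K)))) ≤
            (1 - etaK p) ^ k * ((m : ℝ) + n + k / (1 - etaK p)) :=
          mul_le_mul_of_nonneg_left (by linarith) (pow_nonneg he0.le k)
        linarith
  rw [tendsto_order]
  refine ⟨fun a ha => ?_, fun a ha => ?_⟩
  · have hε : 0 < (1 - a) / 2 := by linarith
    obtain ⟨j, hj⟩ := exists_pow_lt_of_lt_one hε (show 1 - δ ^ n < 1 by linarith)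
    obtain ⟨k₀, hK⟩ := claim j S.card ((1 - a) / 2) hε
    refine Filter.eventually_atTop.2 ⟨k₀, fun k hk => ?_⟩
    have := hK k hk S hS le_rfl
    linarith
  · exact Filter.Eventually.of_forall fun k => lt_of_le_of_lt (hbd k S).2 ha

end Pool.Agent.RGK
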