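import Mathlib
import Pool.Agent.Lib.RGK.NKDefs
import Pool.Agent.Lib.RGK.X1
import Pool.Agent.Lib.RGK.X2
import Pool.Agent.Lib.RGK.X2b
import Pool.Agent.Lib.RGK.X3
import Pool.Agent.Lib.RGK.X4
import Pool.Agent.Lib.RGK.DK0
import Pool.Agent.Lib.RGK.DK4

/-!
RG v4, row DK5: steps with prescribed characters.

`step_next`: put `ℓ x := ∑ t ∈ T, (μ t).ev x` (a homomorphism), `B₁ := VS p T` (finite over `PP`,
`finite_VS`), `B₀ := {x ∈ VS p T | ℓ x = 0} ⊇ PP`, `Λ₁ := GC p T`, `Λ₀ := {f ∈ GC p T | φ f = 0}`.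
Four cases: if `B₀ ≠ B₁` (then `relIndex B₁ = p * relIndex B₀`) require `¬ B₁ ≤ PU p q`; if
`Λ₀ ≠ Λ₁` (then the dimension of `Λ₁` is larger by `1`) require that not all elements of `Λ₁` vanish
at `q`; in all cases require `q ∈ DS p Λ₀ B₀` (`dens_ne`, `dens_neB`, `dens_neL`, `DensK`). The density is
`c0K * d` with `d ≥ p ^ (- finrank Λ₁) * (relIndex B₁)⁻¹`, because `p * x - x ≥ x`. Intersect with the
primes of prime norm (`HasDK.prime`) and remove `T` (`HasDK.diff_finite`).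
For `q` in this set: let `κ` kill `UU q 1` with `κ (gv) = 1`, `κ (piv) = 0` (`exists_tame`). On `VS p T`
(elements with `p ∣ vl q x`, as `q ∉ T`): `κ x = 0 ↔ x ∈ PU p q` (`unit_mem`, `ev_PU`), so the kernel of
`ℓ` on `VS p T` is contained in the one of `κ`, and `κ ≠ 0` on `VS p T` if `ℓ ≠ 0` on it, so
`κ = c' * ℓ` on `VS p T` with `c' ≠ 0` (or `ℓ = 0 = κ` there, `c' = 1`); apply `exists_next` to
`(- c'⁻¹) • κ` and `μ`: we get `χ` with `χ q = (- c'⁻¹) • κ + c'' • vp p q`, which is ramified.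
In the same way `f ↦ (f q).ev (piv q)` on `GC p T` (where `f q = (f q).ev (piv q) • vp p q`, `GC.off`) is
zero on the kernel of `φ` and not identically zero if `φ` is not zero on `GC p T`, so it is
`c * φ`, `c ≠ 0`.
`step_T0`: `B₁ := PP ⊔ closure {x}` has relIndex `p` over `PP`, `Λ := GC p ∅` (`dens_neB`).
-/

set_option autoImplicit false

namespace Pool.Agent.RGK

open NumberField IsDedekindDomain
open Pool.Agent.RG.H (Pr vl UU PP SU ev below nrm emb NS)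

variable {K : Type} [Field K] [NumberField K]

/-- two functionals on a group -/
private theorem DK5_prop {G : Type} [AddCommGroup G] {p : ℕ} [Fact p.Prime] (V : AddSubgroup G)
    (κ L : G →+ ZMod p) (h : ∀ x ∈ V, L x = 0 → κ x = 0)
    (h2 : (∀ x ∈ V, L x = 0) ∨ ∃ x ∈ V, κ x ≠ 0) :
    ∃ c : ZMod p, c ≠ 0 ∧ ∀ x ∈ V, κ x = c * L x := by
  rcases h2 with h2 | ⟨x₁, hx₁, hκ⟩
  · exact ⟨1, one_ne_zero, fun x hx => by rw [h2 x hx, mul_zero, h x hx (h2 x hx)]⟩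
  · have hL : L x₁ ≠ 0 := fun h0 => hκ (h x₁ hx₁ h0)
    refine ⟨κ x₁ / L x₁, div_ne_zero hκ hL, fun x hx => ?_⟩
    have h3 : L (x - (L x / L x₁).val • x₁) = 0 := by
      rw [map_sub, map_nsmul, nsmul_eq_mul, ZMod.natCast_zmod_val, div_mul_cancel₀ _ hL, sub_self]
    have h4 := h _ (V.sub_mem hx (V.nsmul_mem hx₁ _)) h3
    rw [map_sub, map_nsmul, nsmul_eq_mul, ZMod.natCast_zmod_val, sub_eq_zero] at h4
    rw [h4]
    field_simp

/-- the arithmetic of the densities -/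
private theorem DK5_arith {a b m : ℕ} (ha : 0 < a) (hm : 2 ≤ m) (hb : b = a * m) :
    ((b : ℝ))⁻¹ ≤ ((a : ℝ))⁻¹ - ((b : ℝ))⁻¹ := by
  have ha' : (0 : ℝ) < a := by exact_mod_cast ha
  have hm' : (2 : ℝ) ≤ m := by exact_mod_cast hm
  have hb' : (b : ℝ) = a * m := by exact_mod_cast hb
  have h1 : ((a : ℝ))⁻¹ = m * ((b : ℝ))⁻¹ := by
    rw [hb']
    field_simp
  have h2 : (0 : ℝ) ≤ ((b : ℝ))⁻¹ := by positivity
  rw [h1]
  nlinarith

private theorem DK5_arith2 {p m n : ℕ} [Fact p.Prime] (h : m < n) :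
    ((p : ℝ) ^ n)⁻¹ ≤ ((p : ℝ) ^ m)⁻¹ - ((p : ℝ) ^ n)⁻¹ := by
  have hp : p.Prime := Fact.out
  have h1 := DK5_arith (a := p ^ m) (b := p ^ n) (m := p ^ (n - m)) (pow_pos hp.pos _)
    (by
      calc 2 ≤ p := hp.two_le
        _ = p ^ 1 := (pow_one p).symm
        _ ≤ p ^ (n - m) := Nat.pow_le_pow_right hp.pos (by omega))
    (by rw [← pow_add]; congr 1; omega)
  push_cast at h1
  exact h1

/-- the set of the primes with all the conditions -/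
private theorem DK5_dens {p : ℕ} [Fact p.Prime] (hD : DensK K p) {T : Set (Pr K)} (hT : T.Finite)
    (hT1 : ∀ v ∈ T, nm v % p = 1) {Λ₀ Λ₁ : Submodule (ZMod p) (Pr K → Hm K p)} (h01 : Λ₀ ≤ Λ₁)
    (h1 : Λ₁ ≤ GC p T) {B₀ B₁ : Subgroup Kˣ} (hB0 : PP K p ≤ B₀) (hB01 : B₀ ≤ B₁)
    (hB1 : (PP K p).relIndex B₁ ≠ 0) :
    ∃ d : ℝ, ((p : ℝ) ^ Module.finrank (ZMod p) Λ₁)⁻¹ *
      (((PP K p).relIndex B₁ : ℕ) : ℝ)⁻¹ ≤ d ∧ ∃ C : Set (Pr K), HasDK C (c0K K p * d) ∧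
        ∀ v ∈ C, v ∈ DS p Λ₀ B₀ ∧ (Λ₀ = Λ₁ ∨ ¬ ∀ f ∈ Λ₁, f v = 0) ∧
          (B₀ = B₁ ∨ ¬ B₁ ≤ PU p v) := by
  have hp : p.Prime := Fact.out
  have hrel := Subgroup.relIndex_mul_relIndex (PP K p) B₀ B₁ hB0 hB01
  have hr0 : (PP K p).relIndex B₀ ≠ 0 := fun h => hB1 (by rw [← hrel, h, zero_mul])
  have hLpos : (0 : ℝ) ≤ ((p : ℝ) ^ Module.finrank (ZMod p) Λ₁)⁻¹ := by positivity
  have hBpos : (0 : ℝ) ≤ (((PP K p).relIndex B₁ : ℕ) : ℝ)⁻¹ := by positivity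
  have hΛ : Λ₀ ≠ Λ₁ → ((p : ℝ) ^ Module.finrank (ZMod p) Λ₁)⁻¹ ≤
      ((p : ℝ) ^ Module.finrank (ZMod p) Λ₀)⁻¹ -
        ((p : ℝ) ^ Module.finrank (ZMod p) Λ₁)⁻¹ := by
    intro hne
    have hfG : Finite (GC p T) := finite_GC hT
    have hf1 : Finite Λ₁ :=
      Finite.of_injective (fun f : Λ₁ => (⟨f.1, h1 f.2⟩ : GC p T)) (fun a b hab => by
        have h5 := congrArg Subtype.val hab
        exact Subtype.ext h5)
    have hfd : FiniteDimensional (ZMod p) Λ₁ := Module.Finite.of_finite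
    exact DK5_arith2 (Submodule.finrank_lt_finrank_of_lt (lt_of_le_of_ne h01 hne))
  have hB : B₀ ≠ B₁ → (((PP K p).relIndex B₁ : ℕ) : ℝ)⁻¹ ≤
      (((PP K p).relIndex B₀ : ℕ) : ℝ)⁻¹ - (((PP K p).relIndex B₁ : ℕ) : ℝ)⁻¹ := by
    intro hne
    refine DK5_arith (Nat.pos_of_ne_zero hr0) (m := B₀.relIndex B₁) ?_ hrel.symm
    have h5 : B₀.relIndex B₁ ≠ 0 := fun h => hB1 (by rw [← hrel, h, mul_zero])
    have h6 : B₀.relIndex B₁ ≠ 1 := fun h =>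
      hne (le_antisymm hB01 (Subgroup.relIndex_eq_one.1 h))
    omega
  by_cases hΛe : Λ₀ = Λ₁ <;> by_cases hBe : B₀ = B₁
  · subst hΛe hBe
    exact ⟨_, le_rfl, _, hD T hT hT1 Λ₀ h1 B₀ hB0 hB1, fun v hv => ⟨hv, Or.inl rfl, Or.inl rfl⟩⟩
  · subst hΛe
    exact ⟨_, mul_le_mul_of_nonneg_left (hB hBe) hLpos, _,
      dens_neB hD hT hT1 h1 hB0 hB01 hB1, fun v hv => ⟨hv.1, Or.inl rfl, Or.inr hv.2⟩⟩
  · subst hBe
    exact ⟨_, mul_le_mul_of_nonneg_right (hΛ hΛe) hBpos, _,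
      dens_neL hD hT hT1 h01 h1 hB0 hB1, fun v hv => ⟨hv.1, Or.inr hv.2, Or.inl rfl⟩⟩
  · exact ⟨_, mul_le_mul (hΛ hΛe) (hB hBe) hBpos (hLpos.trans (hΛ hΛe)), _,
      dens_ne hD hT hT1 h01 h1 hB0 hB01 hB1, fun v hv => ⟨hv.1, Or.inr hv.2.1, Or.inr hv.2.2⟩⟩

theorem step_next {p : ℕ} [Fact p.Prime] (hD : DensK K p) {T : Set (Pr K)} (hT : T.Finite)
    (hT1 : ∀ v ∈ T, nm v % p = 1) (μ : Pr K → Hm K p) (hμ : ∀ t ∈ T, Kills (μ t) t 1)
    (φ : (Pr K → Hm K p) →ₗ[ZMod p] ZMod p) :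
    ∃ d : ℝ, ((p : ℝ) ^ Module.finrank (ZMod p) (GC p T))⁻¹ *
      (((PP K p).relIndex (VS p T) : ℕ) : ℝ)⁻¹ ≤ d ∧ ∃ A ⊆ P1K (K := K) p,
      HasDK A (c0K K p * d) ∧ ∀ q ∈ A, q ∉ T ∧ (nm q).Prime ∧
        (∃ χ ∈ GC p (insert q T), ¬ Kills (χ q) q 0 ∧ ∀ t ∈ T, χ t = μ t) ∧
        ∃ c : ZMod p, c ≠ 0 ∧ ∀ f ∈ GC p T, f q = (c * φ f) • vp p q := by
  have hp : p.Prime := Fact.out
  -- the functional given by `μ`
  let L : Hm K p := ∑ t ∈ hT.toFinset, μ t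
  have hL : ∀ x : Kˣ, L.ev x = ∑ t ∈ hT.toFinset, (μ t).ev x := by
    intro x
    show (∑ t ∈ hT.toFinset, μ t) (Additive.ofMul x) = _
    rw [AddMonoidHom.finsetSum_apply]
    rfl
  let V : AddSubgroup (Additive Kˣ) := (VS p T).toAddSubgroup
  have hV : ∀ x : Kˣ, Additive.ofMul x ∈ V ↔ x ∈ VS p T := fun x => Iff.rfl
  let B₀ : Subgroup Kˣ :=
    { carrier := {x | x ∈ VS p T ∧ L (Additive.ofMul x) = 0}
      one_mem' := ⟨(VS p T).one_mem, by rw [ofMul_one, map_zero]⟩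
      mul_mem' := fun {x y} hx hy => ⟨(VS p T).mul_mem hx.1 hy.1, by
        rw [ofMul_mul, map_add, hx.2, hy.2, add_zero]⟩
      inv_mem' := fun {x} hx => ⟨(VS p T).inv_mem hx.1, by
        rw [ofMul_inv, map_neg, hx.2, neg_zero]⟩ }
  have hB₀ : ∀ x : Kˣ, x ∈ B₀ ↔ x ∈ VS p T ∧ L (Additive.ofMul x) = 0 := fun x => Iff.rfl
  have hPP : PP K p ≤ B₀ := by
    intro x hx
    rw [hB₀]
    refine ⟨PP_le_VS T hx, ?_⟩
    obtain ⟨y, rfl⟩ := RG.H.mem_PP.1 hx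
    rw [ofMul_pow, map_nsmul, nsmul_eq_mul, CharP.cast_eq_zero, zero_mul]
  obtain ⟨d, hd, C, hC, hCv⟩ := DK5_dens hD hT hT1 (Λ₀ := GC p T ⊓ LinearMap.ker φ)
    (Λ₁ := GC p T) inf_le_left le_rfl (B₀ := B₀) (B₁ := VS p T) hPP (fun x hx => hx.1)
    (finite_VS hT)
  refine ⟨d, hd, {v | v ∈ C ∧ (nm v).Prime} \ T, fun v hv => (hCv v hv.1.1).1.1,
    hC.prime.diff_finite hT, ?_⟩
  rintro q ⟨⟨hqC, hqp⟩, hqT⟩
  obtain ⟨⟨hq1, hq2, hq3⟩, hq4, hq5⟩ := hCv q hqC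
  refine ⟨hqT, hqp, ?_, ?_⟩
  · -- the character
    obtain ⟨κ, hκ1, hκ2, hκ3⟩ := exists_tame (K := K) hq1
    have hκV : ∀ x ∈ VS p T, κ (Additive.ofMul x) = 0 → x ∈ PU p q := by
      intro x hx h0
      obtain ⟨k, hk⟩ := unit_mem hq1 (hx q hqT)
      have h1 := ev_PU hκ1 hk
      unfold Hm.ev at h1 hκ2
      rw [ofMul_div, ofMul_pow, map_sub, map_nsmul, hκ2, h0, nsmul_eq_mul, mul_one, zero_sub,
        neg_eq_zero, ZMod.natCast_eq_zero_iff] at h1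
      obtain ⟨j, rfl⟩ := h1
      have h2 : gv p q ^ (p * j) ∈ PU p q :=
        (le_sup_left : PP K p ≤ PU p q) (RG.H.mem_PP.2 ⟨gv p q ^ j, by rw [← pow_mul, mul_comm]⟩)
      have h3 := (PU p q).mul_mem hk h2
      rwa [div_mul_cancel] at h3
    obtain ⟨c', hc', hcL⟩ := DK5_prop V κ L (by
        intro x hx h0
        exact ev_PU hκ1 (hq3 ((hB₀ _).2 ⟨hx, h0⟩)))
      (by
        rcases hq5 with h | h
        · left
          intro x hx
          have h1 : Additive.toMul x ∈ B₀ := by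
            rw [h]
            exact hx
          exact ((hB₀ _).1 h1).2
        · right
          obtain ⟨x, hx, hx'⟩ := Set.not_subset.1 h
          exact ⟨Additive.ofMul x, hx, fun h0 => hx' (hκV x hx h0)⟩)
    obtain ⟨f, hf, hft, c, hfc⟩ := exists_next hT hqT μ hμ ((-c'⁻¹) • κ)
      (by
        intro x hx
        show (-c'⁻¹) * κ.ev x = 0
        rw [hκ1 x hx, mul_zero])
      (by
        intro x hx
        rw [← hL]
        show (-c'⁻¹) * κ (Additive.ofMul x) + L (Additive.ofMul x) = 0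
        rw [hcL (Additive.ofMul x) hx, ← mul_assoc, neg_mul, inv_mul_cancel₀ hc', neg_mul, one_mul,
          neg_add_cancel])
    refine ⟨f, hf, ?_, hft⟩
    rw [unram_iff' hq1 (hf.2.1 q (Set.mem_insert _ _)), hfc]
    show ¬ (-c'⁻¹) * κ.ev (gv p q) + c * ((vl q (gv p q) : ℤ) : ZMod p) = 0
    rw [hκ2, (gv_spec hq1).1, Int.cast_zero, mul_zero, add_zero, mul_one, neg_eq_zero]
    exact inv_ne_zero hc'
  · -- the values at the uniformizer
    let ψ : (Pr K → Hm K p) →+ ZMod p :=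
      { toFun := fun f => (f q).ev (piv q)
        map_zero' := rfl
        map_add' := fun f g => rfl }
    obtain ⟨c, hc, hcψ⟩ := DK5_prop (GC p T).toAddSubgroup ψ φ.toAddMonoidHom (by
        intro f hf h0
        have h1 : f q = 0 := hq2 f ⟨hf, h0⟩
        show (f q).ev (piv q) = 0
        rw [h1]
        rfl)
      (by
        rcases hq4 with h | h
        · left
          intro f hf
          have h1 : f ∈ GC p T ⊓ LinearMap.ker φ := by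
            rw [h]
            exact hf
          exact h1.2
        · right
          push Not at h
          obtain ⟨f, hf, hf'⟩ := h
          refine ⟨f, hf, fun h0 => hf' ?_⟩
          rw [GC.off hf hqT]
          have h1 : (f q).ev (piv q) = 0 := h0
          rw [h1, zero_smul])
    refine ⟨c, hc, fun f hf => ?_⟩
    rw [GC.off hf hqT]
    congr 1
    exact hcψ f hf

private theorem DK5_rel {p : ℕ} [Fact p.Prime] {x : Kˣ} (hx : x ∉ PP K p) :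
    (PP K p).relIndex (PP K p ⊔ Subgroup.zpowers x) = p := by
  have h1 := Subgroup.relIndex_ker (K := PP K p ⊔ Subgroup.zpowers x)
    (QuotientGroup.mk' (PP K p))
  rw [QuotientGroup.ker_mk'] at h1
  rw [h1, Subgroup.map_sup, QuotientGroup.map_mk'_self, bot_sup_eq, MonoidHom.map_zpowers,
    Nat.card_zpowers]
  refine orderOf_eq_prime ?_ ?_
  · rw [← map_pow, QuotientGroup.mk'_apply, QuotientGroup.eq_one_iff]
    exact RG.H.mem_PP.2 ⟨x, rfl⟩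
  · rw [QuotientGroup.mk'_apply, Ne, QuotientGroup.eq_one_iff]
    exact hx

theorem step_T0 {p : ℕ} [Fact p.Prime] (hD : DensK K p) {T : Set (Pr K)} (hT : T.Finite)
    {x : Kˣ} (hx : x ∉ PP K p) :
    ∃ A ⊆ P1K (K := K) p, HasDK A (c0K K p *
      (((p : ℝ) ^ Module.finrank (ZMod p) (GC (K := K) p ∅))⁻¹ * (1 - (p : ℝ)⁻¹))) ∧
      ∀ q ∈ A, q ∉ T ∧ (nm q).Prime ∧ (∀ f ∈ GC p ∅, f q = 0) ∧ x ∉ PU p q := by
  have hp : p.Prime := Fact.out
  have hrel := DK5_rel (K := K) hx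
  have hd := dens_neB hD (T := ∅) Set.finite_empty (fun v hv => absurd hv (Set.notMem_empty v))
    (Λ := GC p ∅) le_rfl (B₀ := PP K p) (B₁ := PP K p ⊔ Subgroup.zpowers x) le_rfl le_sup_left
    (by rw [hrel]; exact hp.ne_zero)
  rw [hrel, Subgroup.relIndex_self, Nat.cast_one, inv_one] at hd
  refine ⟨{v | v ∈ {v | v ∈ DS p (GC p ∅) (PP K p) ∧ ¬ PP K p ⊔ Subgroup.zpowers x ≤ PU p v} ∧
    (nm v).Prime} \ T, fun v hv => hv.1.1.1.1, hd.prime.diff_finite hT, ?_⟩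
  rintro q ⟨⟨⟨hq1, hq2⟩, hqp⟩, hqT⟩
  refine ⟨hqT, hqp, hq1.2.1, fun hxq => hq2 (sup_le le_sup_left ?_)⟩
  rw [Subgroup.zpowers_le]
  exact hxq

end Pool.Agent.RGK
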