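import Mathlib
import Pool.Agent.Lib.RG.H01
import Pool.Agent.Lib.RG.H14
import Pool.Agent.Lib.RG.H15
import Pool.Agent.Lib.RG.H16
import Pool.Agent.Lib.RGK.XDefs
import Pool.Agent.Lib.RGK.X2
import Pool.Agent.Lib.RGK.X2b
import Pool.Agent.Lib.RGK.X3

/-!
RG v4, row X6b: `reflection`: the unramified characters.

`f ∈ GC p ∅` is `f v = ξ v • vp p v` with `ξ v := (f v).ev (piv v)`; it defines a homomorphism
from the group of the fractional ideals to `ZMod p` (`I ↦ ∑ v, (exponent of v in I) * ξ v`), trivial on the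
principal ones, so an (injective in `f`) linear map from `GC p ∅` to `Hom (ClassGroup (𝓞 K)) (ZMod p)`;
the latter has as many elements as the `p`-torsion of the class group (finite abelian group:
`|Hom(A, Z/p)| = |A / A^p| = |A[p]|`). The class of `a` with `(x) = a ^ p`, `x ∈ VS p ∅`, gives a
surjection of `VS p ∅ / PP` on the `p`-torsion. (Any other way to prove this inequality is fine, e.g. inside
`Kˣ` only: choose `S` finite with all primes outside `S` principal up to `S` (H14) and work with the
lattice `ℤ^S` and its quotient by the valuation vectors of the `S`-units.)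
-/

set_option autoImplicit false

namespace Pool.Agent.RGK

open NumberField IsDedekindDomain
open Pool.Agent.RG.H (Pr vl UU PP SU ev below nrm emb NS)

variable {K : Type} [Field K] [NumberField K]

private theorem X6b_index {p : ℕ} [Fact p.Prime] (S : Finset (Pr K)) :
    p ^ S.card ≤ (PP K p).relIndex (SU S) := by
  have hp : p.Prime := Fact.out
  have hfg : Group.FG (SU S) := RG.H.fg_SU S
  have h1 : (PP K p).relIndex (SU S) = (powMonoidHom p : SU S →* SU S).range.index := by
    unfold Subgroup.relIndex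
    congr 1
    ext x
    rw [Subgroup.mem_subgroupOf, RG.H.mem_PP, MonoidHom.mem_range]
    constructor
    · rintro ⟨y, hy⟩
      have hy' : y ∈ SU S := by
        intro v hv
        have h2 : vl v (y ^ p) = 0 := by
          rw [hy]
          exact x.2 v hv
        rw [RG.H.vl_pow] at h2
        rcases mul_eq_zero.1 h2 with h | h
        · exact absurd (Int.natCast_eq_zero.1 h) hp.ne_zero
        · exact h
      refine ⟨⟨y, hy'⟩, ?_⟩
      ext1
      exact hy
    · rintro ⟨y, hy⟩
      exact ⟨y, congrArg Subtype.val hy⟩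
  have h2 := RG.H.index_pow (B := SU S) hp
  rw [RG.H.rank_SU] at h2
  have h3 : (powMonoidHom p : SU S →* SU S).range.index ≠ 0 := by
    rw [← h1]
    intro h0
    have hf : Finite (SU S ⧸ (PP K p).subgroupOf (SU S)) := by
      have h4 : Group.FG (SU S ⧸ (PP K p).subgroupOf (SU S)) := QuotientGroup.fg _
      apply CommGroup.finite_of_fg_isMulTorsion
      intro q
      induction q using QuotientGroup.induction_on with
      | H x =>
        rw [isOfFinOrder_iff_pow_eq_one]
        refine ⟨p, hp.pos, ?_⟩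
        rw [← QuotientGroup.mk_pow, QuotientGroup.eq_one_iff, Subgroup.mem_subgroupOf]
        exact RG.H.mem_PP.2 ⟨x.1, rfl⟩
    exact Subgroup.index_ne_zero_of_finite h0
  rw [h1]
  rw [h2] at h3 ⊢
  have h4 : Nat.card {b : SU S // b ^ p = 1} ≠ 0 := fun h => h3 (by rw [h, mul_zero])
  calc p ^ S.card ≤ p ^ (Units.rank K + S.card) :=
        Nat.pow_le_pow_right hp.pos (Nat.le_add_left _ _)
    _ = p ^ (Units.rank K + S.card) * 1 := (mul_one _).symm
    _ ≤ _ := Nat.mul_le_mul_left _ (Nat.one_le_iff_ne_zero.2 h4)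

/-- the valuations modulo `p` of the `S`-units -/
private noncomputable def X6b_val (p : ℕ) (S : Finset (Pr K)) :
    SU S →* Multiplicative (S → ZMod p) where
  toFun x := Multiplicative.ofAdd fun v => ((vl (v : Pr K) (x : Kˣ) : ℤ) : ZMod p)
  map_one' := by
    rw [← ofAdd_zero]
    congr 1
    funext v
    show ((vl (v : Pr K) (1 : Kˣ) : ℤ) : ZMod p) = 0
    rw [RG.H.vl_one, Int.cast_zero]
  map_mul' x y := by
    rw [← ofAdd_add]
    congr 1
    funext v
    show ((vl (v : Pr K) ((x : Kˣ) * (y : Kˣ)) : ℤ) : ZMod p) = _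
    rw [RG.H.vl_mul, Int.cast_add]
    rfl

private noncomputable def X6b_L (p : ℕ) (S : Finset (Pr K)) : AddSubgroup (S → ZMod p) where
  carrier := {z | ∃ x : SU S, z = fun v : S => ((vl (v : Pr K) (x : Kˣ) : ℤ) : ZMod p)}
  zero_mem' := ⟨1, by
    funext v
    show (0 : ZMod p) = ((vl (v : Pr K) (1 : Kˣ) : ℤ) : ZMod p)
    rw [RG.H.vl_one, Int.cast_zero]⟩
  add_mem' := by
    rintro _ _ ⟨x, rfl⟩ ⟨y, rfl⟩
    refine ⟨x * y, ?_⟩
    funext v
    show _ = ((vl (v : Pr K) ((x : Kˣ) * (y : Kˣ)) : ℤ) : ZMod p)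
    rw [RG.H.vl_mul, Int.cast_add]
    rfl
  neg_mem' := by
    rintro _ ⟨x, rfl⟩
    refine ⟨x⁻¹, ?_⟩
    funext v
    show _ = ((vl (v : Pr K) ((x : Kˣ)⁻¹) : ℤ) : ZMod p)
    rw [RG.H.vl_inv, Int.cast_neg]
    rfl

theorem reflection {p : ℕ} [Fact p.Prime] :
    p ^ Module.finrank (ZMod p) (GC (K := K) p ∅) ≤ (PP K p).relIndex (VS p ∅) := by
  classical
  have hp : p.Prime := Fact.out
  obtain ⟨S, -, hS⟩ := RG.H.exists_good (K := K) (L := K) (p := p) hp ∅
  have hfin : Finite (GC (K := K) p ∅) := finite_GC Set.finite_empty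
  have hfd : FiniteDimensional (ZMod p) (GC (K := K) p ∅) := Module.Finite.of_finite
  set L : Submodule (ZMod p) (S → ZMod p) := AddSubgroup.toZModSubmodule p (X6b_L p S) with hL
  have hLmem : ∀ z : S → ZMod p, z ∈ L ↔ ∃ x : SU S,
      z = fun v : S => ((vl (v : Pr K) (x : Kˣ) : ℤ) : ZMod p) := fun z => Iff.rfl
  have hevp : ∀ (f : Pr K → Hm K p), f ∈ GC (K := K) p ∅ → ∀ v x,
      (f v).ev x = (f v).ev (piv v) * ((vl v x : ℤ) : ZMod p) := by
    intro f hf v x
    conv_lhs => rw [GC.off hf (Set.notMem_empty v)]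
    rfl
  -- the map to the annihilator
  let Φ : GC (K := K) p ∅ →ₗ[ZMod p] Module.Dual (ZMod p) (S → ZMod p) :=
    { toFun := fun f => ∑ v : S, ((f.1 v).ev (piv (v : Pr K))) • LinearMap.proj v
      map_add' := fun f g => by
        rw [← Finset.sum_add_distrib]
        refine Finset.sum_congr rfl fun v _ => ?_
        rw [← add_smul]
        rfl
      map_smul' := fun c f => by
        rw [Finset.smul_sum]
        refine Finset.sum_congr rfl fun v _ => ?_
        rw [smul_smul]
        rfl }
  have hΦ : ∀ (f : GC (K := K) p ∅) (z : S → ZMod p),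
      Φ f z = ∑ v : S, (f.1 v).ev (piv (v : Pr K)) * z v := by
    intro f z
    show (∑ v : S, ((f.1 v).ev (piv (v : Pr K))) • LinearMap.proj v :
      Module.Dual (ZMod p) (S → ZMod p)) z = _
    rw [LinearMap.sum_apply]
    rfl
  have hΦinj : Function.Injective Φ := by
    rw [injective_iff_map_eq_zero]
    intro f hf
    have h1 : ∀ v ∈ S, (f.1 v).ev (piv v) = 0 := by
      intro v hv
      have h2 := LinearMap.congr_fun hf (Pi.single (⟨v, hv⟩ : S) 1)
      rw [hΦ, Finset.sum_eq_single (⟨v, hv⟩ : S)] at h2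
      · rw [Pi.single_eq_same, mul_one] at h2
        exact h2
      · intro w _ hw
        rw [Pi.single_eq_of_ne hw, mul_zero]
      · intro h
        exact absurd (Finset.mem_univ _) h
    have h2 : ∀ v, (f.1 v).ev (piv v) = 0 := by
      intro v
      by_cases hv : v ∈ S
      · exact h1 v hv
      · obtain ⟨ϖ, ha, hb⟩ := hS.prK v hv
        have h4 := f.2.2.2.2 ϖ
        rw [finsum_eq_single _ v] at h4
        · rw [hevp f.1 f.2, ha, Int.cast_one, mul_one] at h4
          exact h4
        · intro w hw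
          rw [hevp f.1 f.2]
          by_cases hwS : w ∈ S
          · rw [h1 w hwS, zero_mul]
          · rw [hb w hwS hw, Int.cast_zero, mul_zero]
    refine Subtype.ext (funext fun v => ?_)
    show f.1 v = 0
    rw [GC.off f.2 (Set.notMem_empty v), h2 v, zero_smul]
  have hΦann : ∀ f, Φ f ∈ L.dualAnnihilator := by
    intro f
    rw [Submodule.mem_dualAnnihilator]
    rintro z hz
    obtain ⟨x, rfl⟩ := (hLmem z).1 hz
    rw [hΦ]
    have h4 := f.2.2.2.2 (x : Kˣ)
    have h5 : (Function.support fun v => (f.1 v).ev (x : Kˣ)) ⊆ (S : Set (Pr K)) := by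
      intro v hv
      by_contra hvS
      rw [Function.mem_support, hevp f.1 f.2] at hv
      apply hv
      rw [x.2 v (by simpa using hvS), Int.cast_zero, mul_zero]
    rw [finsum_eq_sum_of_support_subset _ h5] at h4
    rw [← h4, ← Finset.sum_coe_sort S]
    refine Finset.sum_congr rfl fun v _ => ?_
    exact (hevp f.1 f.2 _ _).symm
  have h1 : Module.finrank (ZMod p) (GC (K := K) p ∅) + Module.finrank (ZMod p) L ≤ S.card := by
    have h2 := LinearMap.finrank_le_finrank_of_injective
      (f := Φ.codRestrict L.dualAnnihilator hΦann)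
      (fun a b hab => hΦinj (congrArg Subtype.val hab))
    have h3 := Subspace.finrank_add_finrank_dualAnnihilator_eq L
    rw [Module.finrank_fintype_fun_eq_card, Fintype.card_coe] at h3
    omega
  -- the index
  have h2 : (VS p ∅).relIndex (SU S) = p ^ Module.finrank (ZMod p) L := by
    have h3 : (VS p ∅).subgroupOf (SU S) = (X6b_val p S).ker := by
      ext x
      rw [Subgroup.mem_subgroupOf, MonoidHom.mem_ker]
      constructor
      · intro hx
        show Multiplicative.ofAdd _ = 1
        rw [ofAdd_eq_one]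
        funext v
        exact (ZMod.intCast_zmod_eq_zero_iff_dvd _ _).2 (hx v (Set.notMem_empty _))
      · intro hx v _
        by_cases hv : v ∈ S
        · have h4 : (fun v : S => ((vl (v : Pr K) (x : Kˣ) : ℤ) : ZMod p)) = 0 := by
            exact ofAdd_eq_one.1 hx
          exact (ZMod.intCast_zmod_eq_zero_iff_dvd _ _).1 (congrFun h4 ⟨v, hv⟩)
        · rw [x.2 v hv]
          exact dvd_zero _
    have h4 : (VS p ∅).relIndex (SU S) = Nat.card (X6b_val p S).range := by
      unfold Subgroup.relIndex
      rw [h3, Subgroup.index_ker]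
    have h5 : Nat.card (X6b_val p S).range = Nat.card L := by
      refine Nat.card_congr
        { toFun := fun z => ⟨Multiplicative.toAdd z.1, by
            obtain ⟨x, hx⟩ := z.2
            rw [hLmem]
            exact ⟨x, by rw [← hx]; rfl⟩⟩
          invFun := fun z => ⟨Multiplicative.ofAdd z.1, by
            obtain ⟨x, hx⟩ := (hLmem z.1).1 z.2
            exact ⟨x, by rw [hx]; rfl⟩⟩
          left_inv := fun z => rfl
          right_inv := fun z => rfl }
    have h6 := Module.card_eq_pow_finrank (K := ZMod p) (V := L)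
    rw [h4, h5, Nat.card_eq_fintype_card, h6, ZMod.card]
  have h3 : (PP K p).relIndex (VS p ∅ ⊓ SU S) * (VS p ∅).relIndex (SU S) =
      (PP K p).relIndex (SU S) := by
    rw [Subgroup.relIndex_inf_mul_relIndex, inf_eq_left.2 (PP_le_VS (∅ : Set (Pr K)))]
  have h4 : (PP K p).relIndex (VS p ∅ ⊓ SU S) ≤ (PP K p).relIndex (VS p ∅) :=
    Subgroup.relIndex_le_of_le_right inf_le_left (finite_VS Set.finite_empty)
  have h5 := X6b_index (p := p) S
  rw [← h3, h2] at h5
  refine le_trans ?_ h4
  have h6 : p ^ Module.finrank (ZMod p) (GC (K := K) p ∅) * p ^ Module.finrank (ZMod p) L ≤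
      (PP K p).relIndex (VS p ∅ ⊓ SU S) * p ^ Module.finrank (ZMod p) L := by
    refine le_trans ?_ h5
    rw [← pow_add]
    exact Nat.pow_le_pow_right hp.pos h1
  exact Nat.le_of_mul_le_mul_right h6 (pow_pos hp.pos _)

end Pool.Agent.RGK
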