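import Mathlib
import Pool.Agent.Lib.RGK.NKDefs

/-!
RG v4, PART X, definitions for the construction of the core.

The primes `s 0, .., s (m - 1)` form `T₀`; then follow `s m = a₀`, `s (m + 1) = a₁`,
`s (m + 2) = b₀`, `s (m + 3) = b₁` and `s (m + 4 + t) = β t` for `t < m`; `χ i` is a character
ramified at `s (m + i)`.
-/

set_option autoImplicit false

namespace Pool.Agent.RGK

open NumberField IsDedekindDomain
open Pool.Agent.RG.H (Pr vl UU PP SU ev below nrm emb NS)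

variable {K : Type} [Field K] [NumberField K]

/-- the set of the first `n` primes -/
def fst (s : ℕ → Pr K) (n : ℕ) : Set (Pr K) := s '' Set.Iio n

/-- the first `i` primes of `T₀` -/
structure T0K (p : ℕ) (s : ℕ → Pr K) (i : ℕ) : Prop where
  inj : ∀ a < i, ∀ b < i, s a = s b → a = b
  pr : ∀ a < i, (nm (s a)).Prime ∧ nm (s a) % p = 1
  split : ∀ a < i, ∀ f ∈ GC p ∅, f (s a) = 0
  gc : GC p (fst s i) ≤ GC p ∅
  idx : (PP K p).relIndex (VS p ∅) = p ^ i * (PP K p).relIndex (VT p (fst s i))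

/-- The condition on the local component `f` at `v = s a` of the character `χ i`, for `a < m + i`. -/
def LocC {p : ℕ} (m i a : ℕ) (v : Pr K) (f : Hm K p) : Prop :=
  ((i < 2 ∧ a < m) → f = vp p v) ∧
  ((4 ≤ i ∧ a = i - 4) → ¬ Kills f v 0) ∧
  (((i = 2 ∧ a = m) ∨ (i = 3 ∧ a = m + 1)) → f = vp p v) ∧
  (¬ (i < 2 ∧ a < m) → ¬ (4 ≤ i ∧ a = i - 4) → ¬ ((i = 2 ∧ a = m) ∨ (i = 3 ∧ a = m + 1)) → f = 0)

/-- the Frobenius value at `s (m + i)` of `χ i'`, `i' < i`, up to a factor -/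
def PhiC (p i i' : ℕ) : ZMod p :=
  if (i = 2 ∧ i' = 1) ∨ (i = 3 ∧ i' = 0) ∨ (4 ≤ i ∧ i' = 1) then 1 else 0

/-- the Frobenius value at `s (m + i)` of the unramified characters, up to a factor -/
noncomputable def nuC {p : ℕ} (νs : ℕ → (Pr K → Hm K p) →ₗ[ZMod p] ZMod p) (i : ℕ) :
    (Pr K → Hm K p) →ₗ[ZMod p] ZMod p :=
  if i < 4 then 0 else νs (i - 4)

/-- the configuration up to `s (m + j - 1)`, `χ (j - 1)` -/
structure CfgK (p m : ℕ) (νs : ℕ → (Pr K → Hm K p) →ₗ[ZMod p] ZMod p) (s : ℕ → Pr K)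
    (χ : ℕ → Pr K → Hm K p) (j : ℕ) : Prop where
  inj : ∀ a < m + j, ∀ b < m + j, s a = s b → a = b
  pr : ∀ a < m + j, (nm (s a)).Prime ∧ nm (s a) % p = 1
  mem : ∀ i < j, χ i ∈ GC p (fst s (m + i + 1))
  ram : ∀ i < j, ¬ Kills (χ i (s (m + i))) (s (m + i)) 0
  loc : ∀ i < j, ∀ a < m + i, LocC m i a (s a) (χ i (s a))
  fr : ∀ i < j, ∃ c : ZMod p, c ≠ 0 ∧
    (∀ ν ∈ GC p ∅, ν (s (m + i)) = (c * nuC νs i ν) • vp p (s (m + i))) ∧
    ∀ i' < i, χ i' (s (m + i)) = (c * PhiC p i i') • vp p (s (m + i))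

end Pool.Agent.RGK
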