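import Mathlib
import Pool.Agent.Lib.RGK.X7Defs
import Pool.Agent.Lib.RGK.X2
import Pool.Agent.Lib.RGK.X3
import Pool.Agent.Lib.RGK.DK5

/-!
RG v4, row X7: one step of the construction of the configuration.

Apply `step_next` (DK5) to `T := fst s (m + j)` with
* `μ v := vp p v`, or `0`, or a ramified homomorphism at `v` (`exists_tame`, X2; `¬ Kills f v 0` as
  `gv p v ∈ UU v 0`), for `v = s a` (`a` unique by `inj`) according to `LocC m j a`;
* a linear functional `φ` on `Pr K → Hm K p` which agrees with `nuC νs j` on `GC p ∅` and has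
  `φ (χ i') = PhiC p j i'` for `i' < j`: let `ψ i f := (f (s (m + i))).ev (gv p (s (m + i)))`; it vanishes
  on `GC p ∅` and on the `χ i'`, `i' ≠ i` (`i' < i`: unramified at `s (m + i)` by `mem`; `i' > i`: by
  `loc`, `LocC` gives `vp` or `0`, because `i' < m + 4`), and `ψ i (χ i) ≠ 0` (`unram_iff'`); put
  `φ := nuC νs j + ∑ i < j, ((PhiC p j i - nuC νs j (χ i)) / ψ i (χ i)) • ψ i`.
For `q` in the resulting set, `s' := update s (m + j) q`, `χ' := update χ j χ_new`.
(`χ i' ∈ GC p (fst s (m + j))` for `i' < j`, `GC.mono`.)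
-/

set_option autoImplicit false

namespace Pool.Agent.RGK

open NumberField IsDedekindDomain
open Pool.Agent.RG.H (Pr vl UU PP SU ev below nrm emb NS)

variable {K : Type} [Field K] [NumberField K]

private theorem X7_mem {v : Pr K} {x : Kˣ} (h : vl v x = 0) : x ∈ UU v 0 :=
  RG.H.H11Aux.mem_A h

private theorem X7_fin (s : ℕ → Pr K) (n : ℕ) : (fst s n).Finite :=
  (Set.finite_Iio n).image s

private theorem X7_mono (s : ℕ → Pr K) {n n' : ℕ} (h : n ≤ n') : fst s n ⊆ fst s n' :=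
  Set.image_mono (Set.Iio_subset_Iio h)

private theorem X7_vp1 (p : ℕ) (v : Pr K) (n : ℕ) : Kills (vp p v) v n := by
  intro x hx
  change ((vl v x : ℤ) : ZMod p) = 0
  rw [hx.1, Int.cast_zero]

private theorem X7_loc {p : ℕ} [Fact p.Prime] (m j a : ℕ) {v : Pr K} (hv : nm v % p = 1) :
    ∃ f : Hm K p, Kills f v 1 ∧ LocC m j a v f := by
  by_cases h1 : j < 2 ∧ a < m
  · refine ⟨vp p v, X7_vp1 p v 1, fun _ => rfl, fun h => ?_, fun _ => rfl, fun h => absurd h1 h⟩
    omega
  · by_cases h2 : 4 ≤ j ∧ a = j - 4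
    · obtain ⟨f, hf1, hf2, _⟩ := exists_tame (K := K) hv
      refine ⟨f, hf1, fun h => absurd h h1, fun _ hk => ?_, fun h => ?_, fun _ h => absurd h2 h⟩
      · rw [unram_iff' hv hf1, hf2] at hk
        exact one_ne_zero hk
      · omega
    · by_cases h3 : (j = 2 ∧ a = m) ∨ (j = 3 ∧ a = m + 1)
      · exact ⟨vp p v, X7_vp1 p v 1, fun h => absurd h h1, fun h => absurd h h2, fun _ => rfl,
          fun _ _ h => absurd h3 h⟩
      · exact ⟨0, fun x _ => rfl, fun h => absurd h h1, fun h => absurd h h2,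
          fun h => absurd h h3, fun _ _ _ => rfl⟩

/-- the value at `gv` of the local component at `v` -/
private noncomputable def X7_psi (p : ℕ) (v : Pr K) : (Pr K → Hm K p) →ₗ[ZMod p] ZMod p where
  toFun f := (f v).ev (gv p v)
  map_add' f g := rfl
  map_smul' c f := rfl

private theorem X7_psi_apply (p : ℕ) (v : Pr K) (f : Pr K → Hm K p) :
    X7_psi p v f = (f v).ev (gv p v) := rfl

private theorem X7_psi_unr {p : ℕ} [Fact p.Prime] {v : Pr K} (hv : nm v % p = 1)
    {f : Pr K → Hm K p} (h : Kills (f v) v 0) : X7_psi p v f = 0 :=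
  h _ (X7_mem (gv_spec hv).1)

private theorem X7_phi {p : ℕ} [Fact p.Prime] {m : ℕ}
    {νs : ℕ → (Pr K → Hm K p) →ₗ[ZMod p] ZMod p} {s : ℕ → Pr K} {χ : ℕ → Pr K → Hm K p} {j : ℕ}
    (h : CfgK p m νs s χ j) (hj : j < m + 4) :
    ∃ φ : (Pr K → Hm K p) →ₗ[ZMod p] ZMod p, (∀ ν ∈ GC p ∅, φ ν = nuC νs j ν) ∧
      ∀ i < j, φ (χ i) = PhiC p j i := by
  have hs : ∀ i < j, nm (s (m + i)) % p = 1 := fun i hi => (h.pr (m + i) (by omega)).2
  have h0 : ∀ i < j, ∀ ν ∈ GC p ∅, X7_psi p (s (m + i)) ν = 0 := fun i hi ν hν =>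
    X7_psi_unr (hs i hi) (hν.1 _ (Set.notMem_empty _))
  have h1 : ∀ i < j, ∀ i' < j, i' ≠ i → X7_psi p (s (m + i)) (χ i') = 0 := by
    intro i hi i' hi' hne
    rcases lt_or_gt_of_ne hne with hlt | hlt
    · refine X7_psi_unr (hs i hi) ((h.mem i' hi').1 _ ?_)
      rintro ⟨a, ha, e⟩
      rw [Set.mem_Iio] at ha
      have := h.inj a (by omega) (m + i) (by omega) e
      omega
    · obtain ⟨l1, l2, l3, l4⟩ := h.loc i' hi' (m + i) (by omega)
      by_cases h3 : (i' = 2 ∧ m + i = m) ∨ (i' = 3 ∧ m + i = m + 1)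
      · refine X7_psi_unr (hs i hi) ?_
        rw [l3 h3]
        exact X7_vp1 p _ 0
      · refine X7_psi_unr (hs i hi) ?_
        rw [l4 (by omega) (by omega) h3]
        exact fun x _ => rfl
  have h2 : ∀ i < j, X7_psi p (s (m + i)) (χ i) ≠ 0 := by
    intro i hi h3
    have hk : Kills (χ i (s (m + i))) (s (m + i)) 1 :=
      (h.mem i hi).2.1 _ ⟨m + i, by rw [Set.mem_Iio]; omega, rfl⟩
    exact h.ram i hi ((unram_iff' (hs i hi) hk).2 h3)
  refine ⟨nuC νs j + ∑ i ∈ Finset.range j,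
    ((PhiC p j i - nuC νs j (χ i)) / X7_psi p (s (m + i)) (χ i)) • X7_psi p (s (m + i)),
    fun ν hν => ?_, fun i hi => ?_⟩
  · rw [LinearMap.add_apply, LinearMap.sum_apply, Finset.sum_eq_zero, add_zero]
    intro i hi
    rw [LinearMap.smul_apply, h0 i (Finset.mem_range.1 hi) ν hν, smul_zero]
  · rw [LinearMap.add_apply, LinearMap.sum_apply, Finset.sum_eq_single i]
    · rw [LinearMap.smul_apply, smul_eq_mul, div_mul_cancel₀ _ (h2 i hi)]
      ring
    · intro b hb hbi
      rw [LinearMap.smul_apply, h1 b (Finset.mem_range.1 hb) i hi hbi.symm, smul_zero]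
    · intro hi'
      exact absurd (Finset.mem_range.2 hi) hi'

private theorem X7_fst_update {s : ℕ → Pr K} {n n' : ℕ} (h : n' ≤ n) (q : Pr K) :
    fst (Function.update s n q) n' = fst s n' := by
  ext v
  constructor
  · rintro ⟨a, ha, rfl⟩
    rw [Set.mem_Iio] at ha
    rw [Function.update_of_ne (by omega)]
    exact ⟨a, ha, rfl⟩
  · rintro ⟨a, ha, rfl⟩
    have ha' := Set.mem_Iio.1 ha
    exact ⟨a, ha, by rw [Function.update_of_ne (by omega)]⟩

private theorem X7_fst_succ {s : ℕ → Pr K} {n : ℕ} (q : Pr K) :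
    fst (Function.update s n q) (n + 1) = insert q (fst s n) := by
  ext v
  rw [Set.mem_insert_iff]
  constructor
  · rintro ⟨a, ha, rfl⟩
    rw [Set.mem_Iio] at ha
    rcases eq_or_ne a n with rfl | hne
    · left
      rw [Function.update_self]
    · right
      rw [Function.update_of_ne hne]
      exact ⟨a, by rw [Set.mem_Iio]; omega, rfl⟩
  · rintro (rfl | ⟨a, ha, rfl⟩)
    · exact ⟨n, by rw [Set.mem_Iio]; omega, by rw [Function.update_self]⟩
    · have ha' := Set.mem_Iio.1 ha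
      exact ⟨a, by rw [Set.mem_Iio]; omega, by rw [Function.update_of_ne (by omega)]⟩

theorem cfg_step {p : ℕ} [Fact p.Prime] (hD : DensK K p) {m : ℕ}
    {νs : ℕ → (Pr K → Hm K p) →ₗ[ZMod p] ZMod p} {s : ℕ → Pr K} {χ : ℕ → Pr K → Hm K p} {j : ℕ}
    (h : CfgK p m νs s χ j) (hj : j < m + 4) :
    ∃ d : ℝ, ((p : ℝ) ^ Module.finrank (ZMod p) (GC p (fst s (m + j))))⁻¹ *
      (((PP K p).relIndex (VS p (fst s (m + j))) : ℕ) : ℝ)⁻¹ ≤ d ∧ ∃ A ⊆ P1K (K := K) p,
      HasDK A (c0K K p * d) ∧ ∀ q ∈ A, ∃ χ' : Pr K → Hm K p,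
        CfgK p m νs (Function.update s (m + j) q) (Function.update χ j χ') (j + 1) := by
  classical
  have hT1 : ∀ v ∈ fst s (m + j), nm v % p = 1 := by
    rintro _ ⟨a, ha, rfl⟩
    exact (h.pr a (Set.mem_Iio.1 ha)).2
  -- the local components
  have hμ : ∃ μ : Pr K → Hm K p, ∀ a < m + j, Kills (μ (s a)) (s a) 1 ∧
      LocC m j a (s a) (μ (s a)) := by
    have h1 : ∀ v : Pr K, ∃ f : Hm K p, ∀ a < m + j, s a = v → Kills f v 1 ∧ LocC m j a v f := by
      intro v
      by_cases hv : ∃ a < m + j, s a = v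
      · obtain ⟨a, ha, rfl⟩ := hv
        obtain ⟨f, hf1, hf2⟩ := X7_loc (p := p) m j a (h.pr a ha).2
        refine ⟨f, fun b hb e => ?_⟩
        rw [h.inj b hb a ha e]
        exact ⟨hf1, hf2⟩
      · exact ⟨0, fun a ha e => absurd ⟨a, ha, e⟩ hv⟩
    choose μ hμ using h1
    exact ⟨μ, fun a ha => hμ (s a) a ha rfl⟩
  obtain ⟨μ, hμ⟩ := hμ
  obtain ⟨φ, hφ1, hφ2⟩ := X7_phi h hj
  obtain ⟨d, hd, A, hA, hAd, hq⟩ := step_next hD (X7_fin s (m + j)) hT1 μ (by
    rintro _ ⟨a, ha, rfl⟩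
    exact (hμ a (Set.mem_Iio.1 ha)).1) φ
  refine ⟨d, hd, A, hA, hAd, fun q hqA => ?_⟩
  obtain ⟨hqT, hqp, ⟨χ', hχ1, hχ2, hχ3⟩, c, hc0, hc⟩ := hq q hqA
  have hsq : Function.update s (m + j) q (m + j) = q := Function.update_self _ _ _
  have hsa : ∀ a, a < m + j → Function.update s (m + j) q a = s a := fun a ha =>
    Function.update_of_ne (by omega) _ _
  have hχj : Function.update χ j χ' j = χ' := Function.update_self _ _ _
  have hχi : ∀ i, i < j → Function.update χ j χ' i = χ i := fun i hi =>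
    Function.update_of_ne (by omega) _ _
  have hqa : ∀ a < m + j, s a ≠ q := fun a ha e => hqT ⟨a, ha, e⟩
  refine ⟨χ', ?_, ?_, ?_, ?_, ?_, ?_⟩
  · intro a ha b hb e
    rcases Nat.lt_or_ge a (m + j) with ha' | ha'
    · rcases Nat.lt_or_ge b (m + j) with hb' | hb'
      · rw [hsa a ha', hsa b hb'] at e
        exact h.inj a ha' b hb' e
      · have : b = m + j := by omega
        rw [this, hsq, hsa a ha'] at e
        exact absurd e (hqa a ha')
    · have h1 : a = m + j := by omega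
      rcases Nat.lt_or_ge b (m + j) with hb' | hb'
      · rw [h1, hsq, hsa b hb'] at e
        exact absurd e.symm (hqa b hb')
      · omega
  · intro a ha
    rcases Nat.lt_or_ge a (m + j) with ha' | ha'
    · rw [hsa a ha']
      exact h.pr a ha'
    · have h1 : a = m + j := by omega
      rw [h1, hsq]
      exact ⟨hqp, hA hqA⟩
  · intro i hi
    rcases Nat.lt_or_ge i j with hi' | hi'
    · rw [hχi i hi', X7_fst_update (by omega)]
      exact h.mem i hi'
    · have h1 : i = j := by omega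
      rw [h1, hχj, X7_fst_succ]
      exact hχ1
  · intro i hi
    rcases Nat.lt_or_ge i j with hi' | hi'
    · rw [hχi i hi', hsa _ (by omega)]
      exact h.ram i hi'
    · have h1 : i = j := by omega
      rw [h1, hχj, hsq]
      exact hχ2
  · intro i hi a ha
    rcases Nat.lt_or_ge i j with hi' | hi'
    · rw [hχi i hi', hsa a (by omega)]
      exact h.loc i hi' a ha
    · have h1 : i = j := by omega
      subst h1
      rw [hχj, hsa a ha, hχ3 (s a) ⟨a, ha, rfl⟩]
      exact (hμ a ha).2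
  · intro i hi
    rcases Nat.lt_or_ge i j with hi' | hi'
    · obtain ⟨c', hc', h2, h3⟩ := h.fr i hi'
      refine ⟨c', hc', ?_, ?_⟩
      · rw [hsa _ (by omega)]
        exact h2
      · intro i' hi''
        rw [hχi i' (by omega), hsa _ (by omega)]
        exact h3 i' hi''
    · have h1 : i = j := by omega
      subst h1
      refine ⟨c, hc0, ?_, ?_⟩
      · intro ν hν
        rw [hsq, hc ν (GC.mono (Set.empty_subset _) hν), hφ1 ν hν]
      · intro i' hi''
        rw [hχi i' hi'', hsq, hc (χ i') (GC.mono (X7_mono s (by omega)) (h.mem i' hi'')),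
          hφ2 i' hi'']

end Pool.Agent.RGK
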