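import Mathlib
import Pool.Agent.Lib.RG.H01
import Pool.Agent.Lib.RG.H14
import Pool.Agent.Lib.RGK.XDefs
import Pool.Agent.Lib.RGK.X2
import Pool.Agent.Lib.RGK.X2b
import Pool.Agent.Lib.RGK.X3

/-!
RG v4, row X6: the unramified characters; the first part of the core.

`reflection`: `f ∈ GC p ∅` is `f v = ξ v • vp p v` with `ξ v := (f v).ev (piv v)`; it defines a homomorphism
from the group of the fractional ideals to `ZMod p` (`I ↦ ∑ v, (exponent of v in I) * ξ v`), trivial on the
principal ones, so an (injective in `f`) linear map from `GC p ∅` to `Hom (ClassGroup (𝓞 K)) (ZMod p)`;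
the latter has as many elements as the `p`-torsion of the class group (finite abelian group). The class of
`a` with `(x) = a ^ p`, `x ∈ VS p ∅`, gives a surjection of `VS p ∅ / PP` on the `p`-torsion. (Any other
way to prove this inequality is fine.)
`GC_le_of_VT`: for `f ∈ GC p (insert s T)`, `0 = ∑ f v x = f s x` (`ev_PU` at `T`, `p ∣ vl v x` and
`GC.off` elsewhere), so `f s (gv) = 0` by `unit_mem`; `unram_iff'`, `GC.unram`.
`relIndex_VT`: `PU p s` has index `p` in `{x | p ∣ vl s x}` (`unit_mem`), so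
`VT p (insert s T) = VT p T ⊓ PU p s` has index `1` or `p` in `VT p T`; it is not `1` because of `x`.
(`Subgroup.relIndex_mul_relIndex`.)
`finrank_insert_le`: `f ↦ (f s).ev (gv p s)` has kernel in `GC p T`.
`relIndex_VS`: `x ↦ vl s x mod p` on `VS p (insert s T)` has kernel `VS p T`.
-/

set_option autoImplicit false

namespace Pool.Agent.RGK

open NumberField IsDedekindDomain
open Pool.Agent.RG.H (Pr vl UU PP SU ev below nrm emb NS)

variable {K : Type} [Field K] [NumberField K]

omit [NumberField K] in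
private theorem X6_div {p : ℕ} (f : Hm K p) (x y : Kˣ) : f.ev (x / y) = f.ev x - f.ev y := by
  unfold Hm.ev
  rw [ofMul_div, map_sub]

omit [NumberField K] in
private theorem X6_pow {p : ℕ} (f : Hm K p) (x : Kˣ) (n : ℕ) :
    f.ev (x ^ n) = (n : ZMod p) * f.ev x := by
  unfold Hm.ev
  rw [ofMul_pow, map_nsmul, nsmul_eq_mul]

private theorem X6_VT {p : ℕ} {T : Set (Pr K)} {x : Kˣ} :
    x ∈ VT p T ↔ (∀ v, (p : ℤ) ∣ vl v x) ∧ ∀ v ∈ T, x ∈ PU p v := by
  unfold VT
  rw [Subgroup.mem_inf, Subgroup.mem_iInf]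
  constructor
  · rintro ⟨h1, h2⟩
    exact ⟨fun v => h1 v (Set.notMem_empty v), fun v hv => Subgroup.mem_iInf.1 (h2 v) hv⟩
  · rintro ⟨h1, h2⟩
    exact ⟨fun v _ => h1 v, fun v => Subgroup.mem_iInf.2 fun hv => h2 v hv⟩

private theorem X6_PU_le {p : ℕ} (v : Pr K) : PU p v ≤ RG.H.Dv p v := by
  unfold PU
  refine sup_le ?_ ?_
  · intro x hx
    obtain ⟨y, rfl⟩ := RG.H.mem_PP.1 hx
    rw [RG.H.mem_Dv, RG.H.vl_pow]
    exact dvd_mul_right _ _
  · intro x hx
    rw [RG.H.mem_Dv, hx.1]
    exact dvd_zero _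

theorem GC_le_of_VT {p : ℕ} [Fact p.Prime] {T : Set (Pr K)} {s : Pr K} (hs : s ∉ T)
    (hs1 : nm s % p = 1) {x : Kˣ} (hx : x ∈ VT p T) (hxs : x ∉ PU p s) :
    GC p (insert s T) ≤ GC p T := by
  classical
  intro f hf
  obtain ⟨hx1, hx2⟩ := X6_VT.1 hx
  have h0 : (f s).ev x = 0 := by
    have h4 := hf.2.2.2 x
    rw [finsum_eq_single _ s] at h4
    · exact h4
    · intro v hvs
      by_cases hvT : v ∈ T
      · exact ev_PU (hf.2.1 v (Set.mem_insert_of_mem _ hvT)) (hx2 v hvT)
      · rw [GC.off hf (v := v) (by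
          rintro (h | h)
          · exact hvs h
          · exact hvT h)]
        show _ * (((vl v x : ℤ) : ZMod p)) = 0
        rw [(ZMod.intCast_zmod_eq_zero_iff_dvd _ _).2 (hx1 v), mul_zero]
  have hk1 : Kills (f s) s 1 := hf.2.1 s (Set.mem_insert _ _)
  obtain ⟨k, hk⟩ := unit_mem hs1 (hx1 s)
  have h1 := ev_PU hk1 hk
  rw [X6_div, X6_pow, h0, zero_sub, neg_eq_zero, mul_eq_zero] at h1
  have h2 : (f s).ev (gv p s) = 0 := by
    rcases h1 with h1 | h1
    · exfalso
      apply hxs
      obtain ⟨m, rfl⟩ := (ZMod.natCast_eq_zero_iff k p).1 h1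
      have h3 : gv p s ^ (p * m) ∈ PU p s := by
        refine (le_sup_left : PP K p ≤ PU p s) (RG.H.mem_PP.2 ⟨gv p s ^ m, ?_⟩)
        rw [← pow_mul, mul_comm]
      have h4 := (PU p s).mul_mem hk h3
      rwa [div_mul_cancel] at h4
    · exact h1
  have h3 := GC.unram hf ((unram_iff' hs1 hk1).2 h2)
  rwa [Set.insert_sdiff_of_mem _ (Set.mem_singleton s), Set.sdiff_singleton_eq_self hs] at h3

theorem relIndex_VT {p : ℕ} [Fact p.Prime] {T : Set (Pr K)} {s : Pr K}
    (hs1 : nm s % p = 1) {x : Kˣ} (hx : x ∈ VT p T) (hxs : x ∉ PU p s) :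
    (PP K p).relIndex (VT p T) = p * (PP K p).relIndex (VT p (insert s T)) := by
  classical
  have hp : p.Prime := Fact.out
  have h1 : VT p (insert s T) = VT p T ⊓ PU p s := by
    ext y
    rw [Subgroup.mem_inf, X6_VT, X6_VT]
    constructor
    · rintro ⟨h1, h2⟩
      exact ⟨⟨h1, fun v hv => h2 v (Set.mem_insert_of_mem _ hv)⟩, h2 s (Set.mem_insert _ _)⟩
    · rintro ⟨⟨h1, h2⟩, h3⟩
      refine ⟨h1, fun v hv => ?_⟩
      rcases hv with rfl | hv
      · exact h3
      · exact h2 v hv
  have h2 : PP K p ≤ VT p (insert s T) := by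
    intro y hy
    rw [X6_VT]
    exact ⟨fun v => PP_le_VS (∅ : Set (Pr K)) hy v (Set.notMem_empty v),
      fun v _ => (le_sup_left : PP K p ≤ PU p v) hy⟩
  have h3 : (VT p (insert s T)).relIndex (VT p T) = (PU p s).relIndex (VT p T) := by
    rw [h1, Subgroup.inf_relIndex_left]
  have hD : VT p T ≤ RG.H.Dv p s := fun y hy => (X6_VT.1 hy).1 s
  have h4 : (PU p s).relIndex (RG.H.Dv p s) = p := by
    have h5 := Subgroup.relIndex_mul_index (X6_PU_le (p := p) s)
    rw [RG.H.index_Dv hp s, index_PU1 hs1, pow_two] at h5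
    exact Nat.eq_of_mul_eq_mul_right hp.pos h5
  have h5 : (PU p s).relIndex (VT p T) ∣ p := by
    rw [← Subgroup.relIndex_subgroupOf hD]
    refine (Subgroup.relIndex_dvd_index_of_normal _ _).trans ?_
    show (PU p s).relIndex (RG.H.Dv p s) ∣ p
    rw [h4]
  have h6 : (PU p s).relIndex (VT p T) = p := by
    rcases (Nat.dvd_prime hp).1 h5 with h | h
    · exact absurd (Subgroup.relIndex_eq_one.1 h hx) hxs
    · exact h
  have h7 := Subgroup.relIndex_mul_relIndex (PP K p) (VT p (insert s T)) (VT p T) h2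
    (h1 ▸ inf_le_left)
  rw [← h7, h3, h6, mul_comm]

theorem finrank_insert_le {p : ℕ} [Fact p.Prime] {T : Set (Pr K)} (hT : T.Finite) {s : Pr K}
    (hs1 : nm s % p = 1) :
    Module.finrank (ZMod p) (GC p (insert s T)) ≤ Module.finrank (ZMod p) (GC p T) + 1 := by
  classical
  have hfin : Finite (GC p (insert s T)) := finite_GC (hT.insert s)
  have hfd : FiniteDimensional (ZMod p) (GC p (insert s T)) := Module.Finite.of_finite
  have hfin' : Finite (GC p T) := finite_GC hT
  have hfd' : FiniteDimensional (ZMod p) (GC p T) := Module.Finite.of_finite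
  let φ : GC p (insert s T) →ₗ[ZMod p] ZMod p :=
    { toFun := fun f => (f.1 s).ev (gv p s)
      map_add' := fun f g => rfl
      map_smul' := fun c f => rfl }
  have h1 := LinearMap.finrank_range_add_finrank_ker φ
  have h2 : Module.finrank (ZMod p) (LinearMap.range φ) ≤ 1 := by
    have := Submodule.finrank_le (LinearMap.range φ)
    rwa [Module.finrank_self] at this
  have h3 : Module.finrank (ZMod p) (LinearMap.ker φ) ≤ Module.finrank (ZMod p) (GC p T) := by
    have hmem : ∀ f : LinearMap.ker φ, (f.1.1 : Pr K → Hm K p) ∈ GC p T := by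
      intro f
      have hk1 : Kills (f.1.1 s) s 1 := f.1.2.2.1 s (Set.mem_insert _ _)
      have h0 : (f.1.1 s).ev (gv p s) = 0 := f.2
      have h4 := GC.unram f.1.2 ((unram_iff' hs1 hk1).2 h0)
      rw [Set.insert_sdiff_of_mem _ (Set.mem_singleton s)] at h4
      exact GC.mono Set.sdiff_subset h4
    let ψ : LinearMap.ker φ →ₗ[ZMod p] GC p T :=
      { toFun := fun f => ⟨f.1.1, hmem f⟩
        map_add' := fun f g => rfl
        map_smul' := fun c f => rfl }
    refine LinearMap.finrank_le_finrank_of_injective (f := ψ) ?_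
    intro f g hfg
    have h5 : f.1.1 = g.1.1 := congrArg (fun z : GC p T => (z : Pr K → Hm K p)) hfg
    exact Subtype.ext (Subtype.ext h5)
  omega

theorem relIndex_VS {p : ℕ} [Fact p.Prime] {T : Set (Pr K)} (hT : T.Finite) (s : Pr K) :
    (PP K p).relIndex (VS p (insert s T)) ≤ p * (PP K p).relIndex (VS p T) := by
  classical
  have hp : p.Prime := Fact.out
  have h1 : VS p T ≤ VS p (insert s T) := fun y hy v hv =>
    hy v fun h => hv (Set.mem_insert_of_mem _ h)
  have h2 := Subgroup.relIndex_mul_relIndex (PP K p) (VS p T) (VS p (insert s T)) (PP_le_VS T) h1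
  have h3 : (RG.H.Dv p s : Subgroup Kˣ).relIndex (VS p (insert s T)) ∣ p := by
    refine (Subgroup.relIndex_dvd_index_of_normal _ _).trans ?_
    rw [RG.H.index_Dv hp s]
  have h4 : (RG.H.Dv p s : Subgroup Kˣ).relIndex (VS p (insert s T)) ≠ 0 := by
    intro h
    rw [h] at h3
    exact hp.ne_zero (Nat.eq_zero_of_zero_dvd h3)
  have h5 : (VS p T).relIndex (VS p (insert s T)) ≤ p := by
    have h6 : VS p (insert s T) ⊓ RG.H.Dv p s ≤ VS p T := by
      rintro y ⟨hy1, hy2⟩ v hv
      by_cases hvs : v = s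
      · rw [hvs]
        exact hy2
      · exact hy1 v (by
          rintro (h | h)
          · exact hvs h
          · exact hv h)
    have h7 : (VS p (insert s T) ⊓ RG.H.Dv p s).relIndex (VS p (insert s T)) =
        (RG.H.Dv p s : Subgroup Kˣ).relIndex (VS p (insert s T)) := Subgroup.inf_relIndex_left _ _
    refine (Subgroup.relIndex_le_of_le_left h6 (by rw [h7]; exact h4)).trans ?_
    rw [h7]
    exact Nat.le_of_dvd hp.pos h3
  rw [← h2, mul_comm]
  exact Nat.mul_le_mul_right _ h5

end Pool.Agent.RGK
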