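import Mathlib
import Pool.Agent.Lib.RGK.X7Defs
import Pool.Agent.Lib.RGK.X2
import Pool.Agent.Lib.RGK.X2b
import Pool.Agent.Lib.RGK.X3
import Pool.Agent.Lib.RGK.X6

/-!
RG v4, row X7a: bounds, and the steps which build `T₀`.

`bound_GC`, `bound_VS`: induction, `fst s (n + 1) = insert (s n) (fst s n)`, `finrank_insert_le`,
`relIndex_VS` (X6).
`relIndex_pow`: `VS p ∅ / PP` is a finite (`finite_VS`) group of exponent dividing `p`.
`T0_zero`: `fst s 0 = ∅`, `VT p ∅ = VS p ∅`.
`T0_step`: `GC_le_of_VT`, `relIndex_VT` (X6) with `fst s' (i + 1) = insert q (fst s i)`,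
`s' = Function.update s i q`.
`T0_next`: if `VT p (fst s i) ≤ PP` then the relIndex is `1` and `i = m`.
`T0_vt`: the converse.
-/

set_option autoImplicit false

namespace Pool.Agent.RGK

open NumberField IsDedekindDomain
open Pool.Agent.RG.H (Pr vl UU PP SU ev below nrm emb NS)

variable {K : Type} [Field K] [NumberField K]

private theorem X7a_zero (s : ℕ → Pr K) : fst s 0 = ∅ := by
  unfold fst
  rw [Set.image_eq_empty]
  ext a
  simp

private theorem X7a_succ (s : ℕ → Pr K) (n : ℕ) : fst s (n + 1) = insert (s n) (fst s n) := by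
  unfold fst
  rw [← Set.image_insert_eq]
  congr 1
  ext a
  rw [Set.mem_Iio, Set.mem_insert_iff, Set.mem_Iio]
  omega

private theorem X7a_fin (s : ℕ → Pr K) (n : ℕ) : (fst s n).Finite :=
  (Set.finite_Iio n).image s

theorem bound_GC {p : ℕ} [Fact p.Prime] {s : ℕ → Pr K} {n : ℕ}
    (hs : ∀ a < n, nm (s a) % p = 1) :
    Module.finrank (ZMod p) (GC p (fst s n)) ≤
      Module.finrank (ZMod p) (GC (K := K) p ∅) + n := by
  induction n with
  | zero => rw [X7a_zero, add_zero]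
  | succ n ih =>
    have h1 := ih fun a ha => hs a (Nat.lt_succ_of_lt ha)
    have h2 := finrank_insert_le (X7a_fin s n) (hs n (Nat.lt_succ_self n))
    rw [X7a_succ]
    omega

theorem bound_VS {p : ℕ} [Fact p.Prime] (s : ℕ → Pr K) (n : ℕ) :
    (PP K p).relIndex (VS p (fst s n)) ≤ p ^ n * (PP K p).relIndex (VS p ∅) := by
  induction n with
  | zero => rw [X7a_zero, pow_zero, one_mul]
  | succ n ih =>
    have h2 := relIndex_VS (p := p) (X7a_fin s n) (s n)
    rw [X7a_succ]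
    refine h2.trans ?_
    rw [pow_succ', mul_assoc]
    exact Nat.mul_le_mul_left p ih

variable (K) in
theorem relIndex_pow (p : ℕ) [Fact p.Prime] :
    ∃ m : ℕ, (PP K p).relIndex (VS p ∅) = p ^ m := by
  have h0 : (PP K p).relIndex (VS p (∅ : Set (Pr K))) ≠ 0 := finite_VS Set.finite_empty
  set Q := (VS p (∅ : Set (Pr K))) ⧸ (PP K p).subgroupOf (VS p ∅) with hQ
  have h1 : (PP K p).relIndex (VS p (∅ : Set (Pr K))) = Nat.card Q := rfl
  have hfin : Finite Q := Nat.finite_of_card_ne_zero (h1 ▸ h0)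
  have hpg : IsPGroup p Q := by
    intro g
    refine ⟨1, ?_⟩
    obtain ⟨y, rfl⟩ := QuotientGroup.mk_surjective g
    rw [pow_one, ← QuotientGroup.mk_pow, QuotientGroup.eq_one_iff, Subgroup.mem_subgroupOf]
    exact RG.H.mem_PP.2 ⟨(y : Kˣ), rfl⟩
  obtain ⟨m, hm⟩ := IsPGroup.iff_card.1 hpg
  exact ⟨m, h1.trans hm⟩

theorem T0_zero {p : ℕ} [Fact p.Prime] (s : ℕ → Pr K) : T0K p s 0 := by
  refine ⟨fun a ha => absurd ha (Nat.not_lt_zero a), fun a ha => absurd ha (Nat.not_lt_zero a),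
    fun a ha => absurd ha (Nat.not_lt_zero a), ?_, ?_⟩
  · rw [X7a_zero]
  · rw [X7a_zero, pow_zero, one_mul]
    have h1 : VT p (∅ : Set (Pr K)) = VS p ∅ := by
      unfold VT
      simp
    rw [h1]

theorem T0_next {p : ℕ} [Fact p.Prime] {s : ℕ → Pr K} {i m : ℕ} (h : T0K p s i)
    (hm : (PP K p).relIndex (VS p ∅) = p ^ m) (hi : i < m) :
    ∃ x ∈ VT p (fst s i), x ∉ PP K p := by
  by_contra hcon
  push Not at hcon
  have h1 : VT p (fst s i) ≤ PP K p := fun x hx => hcon x hx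
  have h2 := h.idx
  rw [Subgroup.relIndex_eq_one.2 h1, hm, mul_one] at h2
  have h3 := Nat.pow_right_injective (Fact.out : p.Prime).two_le h2
  omega

theorem T0_vt {p : ℕ} [Fact p.Prime] {s : ℕ → Pr K} {m : ℕ} (h : T0K p s m)
    (hm : (PP K p).relIndex (VS p ∅) = p ^ m) : VT p (fst s m) ≤ PP K p := by
  have h2 := h.idx
  rw [hm] at h2
  have h3 : p ^ m * (PP K p).relIndex (VT p (fst s m)) = p ^ m * 1 := by rw [← h2, mul_one]
  exact Subgroup.relIndex_eq_one.1
    (Nat.eq_of_mul_eq_mul_left (pow_pos (Fact.out : p.Prime).pos m) h3)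

private theorem X7a_upd (s : ℕ → Pr K) (i : ℕ) (q : Pr K) :
    fst (Function.update s i q) (i + 1) = insert q (fst s i) := by
  rw [X7a_succ, Function.update_self]
  congr 1
  unfold fst
  refine Set.image_congr fun a ha => ?_
  rw [Set.mem_Iio] at ha
  exact Function.update_of_ne ha.ne _ _

theorem T0_step {p : ℕ} [Fact p.Prime] {s : ℕ → Pr K} {i : ℕ} (h : T0K p s i) {x : Kˣ}
    (hx : x ∈ VT p (fst s i)) {q : Pr K} (hq : q ∉ fst s i) (hq0 : (nm q).Prime)
    (hq1 : nm q % p = 1) (hqf : ∀ f ∈ GC p ∅, f q = 0) (hxq : x ∉ PU p q) :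
    T0K p (Function.update s i q) (i + 1) := by
  have hcase : ∀ a < i + 1, (a = i ∧ Function.update s i q a = q) ∨
      (a < i ∧ Function.update s i q a = s a) := by
    intro a ha
    by_cases hai : a = i
    · left
      rw [hai, Function.update_self]
      exact ⟨rfl, rfl⟩
    · right
      exact ⟨by omega, Function.update_of_ne hai _ _⟩
  have hmem : ∀ a < i, q ≠ s a := fun a ha e => hq ⟨a, ha, e.symm⟩
  refine ⟨?_, ?_, ?_, ?_, ?_⟩
  · intro a ha b hb hab
    rcases hcase a ha with ⟨h1, h2⟩ | ⟨h1, h2⟩ <;> rcases hcase b hb with ⟨h3, h4⟩ | ⟨h3, h4⟩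
    · rw [h1, h3]
    · rw [h2, h4] at hab
      exact absurd hab (hmem b h3)
    · rw [h2, h4] at hab
      exact absurd hab.symm (hmem a h1)
    · rw [h2, h4] at hab
      exact h.inj a h1 b h3 hab
  · intro a ha
    rcases hcase a ha with ⟨h1, h2⟩ | ⟨h1, h2⟩
    · rw [h2]
      exact ⟨hq0, hq1⟩
    · rw [h2]
      exact h.pr a h1
  · intro a ha f hf
    rcases hcase a ha with ⟨h1, h2⟩ | ⟨h1, h2⟩
    · rw [h2]
      exact hqf f hf
    · rw [h2]
      exact h.split a h1 f hf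
  · rw [X7a_upd]
    exact (GC_le_of_VT hq hq1 hx hxq).trans h.gc
  · rw [X7a_upd, h.idx, relIndex_VT hq1 hx hxq, pow_succ, mul_assoc]

end Pool.Agent.RGK
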