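import Mathlib
import Pool.Agent.Lib.RGK.QKDefs

/-!
RG v4, row X8a: the criterion from the table of cup products (pure linear algebra).

`V := N ⊔ span {a0, a1}`, `U := span {b0, b1} ⊔ span (range β)`, `u := b0 + b1 + ∑ t, β t`,
`v := a0 + a1`. `c f g = 0` on `V × V` by the table (`c` is alternating: `c g f = - c f g`). The cup products
`c b0 a0`, `c b0 a1`, `c b1 a1`, `c b1 a0`, `c (β t) a0`, `c (β t) (a1 - a0)` span everything.
The double star: the `2 + m` vectors `c b0 v = w0 e_0 + w2 e_2`, `c b1 v = w1 e_1 + w3 e_3`,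
`c (β t) v = 2 r_t e_t + y_t e'_t`, and `c u a0 = w0 e_0 + w3 e_3 + ∑ r_t e_t` and the
`c u ν = ∑ y_t νs_t(ν) e'_t` for a basis of `N` are linearly independent: a vanishing combination with
coefficients `x0`, `x1`, `z_t`, `y`, and `ν ∈ N` has coordinate `e_0`: `x0 + y = 0`, `e_2`: `x0 = 0`, `e_1`:
`x1 = 0`, `e_3`: `x1 + y = 0`, `e_t`: `2 z_t + y = 0`, `e'_t`: `z_t + νs_t(ν) = 0`; so everything
is zero, as `2 ≠ 0` and `νs` separates `N`. So the dimension of the double star is at least
`2 + m + 1 + dim N = dim G - 1`. (Convenient: the linear map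
`(x0, x1, z, y, ν) ↦ x0 • c b0 v + x1 • c b1 v + ∑ z_t • c (β t) v + y • c u a0 + c u ν` from
`F × F × (Fin m → F) × F × N` is injective with image in the double star span.)
`finrank G = 4 + m + finrank N` by the independence. `u ≠ 0`, `v ≠ 0` by the independence.
-/

set_option autoImplicit false

namespace Pool.Agent.RGK

theorem crit_table {p : ℕ} [Fact p.Prime] (hp : p ≠ 2) {H : Type} [AddCommGroup H]
    [Module (ZMod p) H] {m : ℕ}
    (c : H →ₗ[ZMod p] H →ₗ[ZMod p] (Fin m ⊕ Fin 4 ⊕ Fin m → ZMod p)) (halt : ∀ f, c f f = 0)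
    (N : Submodule (ZMod p) H) [FiniteDimensional (ZMod p) N] (a0 a1 b0 b1 : H) (β : Fin m → H)
    (νs : Fin m → H →ₗ[ZMod p] ZMod p) (hsep : ∀ ν ∈ N, (∀ t, νs t ν = 0) → ν = 0)
    (hind : ∀ ν ∈ N, ∀ (x0 x1 y0 y1 : ZMod p) (z : Fin m → ZMod p),
      ν + x0 • a0 + x1 • a1 + y0 • b0 + y1 • b1 + ∑ t, z t • β t = 0 →
      ν = 0 ∧ x0 = 0 ∧ x1 = 0 ∧ y0 = 0 ∧ y1 = 0 ∧ ∀ t, z t = 0)
    (w : Fin 4 → ZMod p) (hw : ∀ i, w i ≠ 0) (r y : Fin m → ZMod p) (hr : ∀ t, r t ≠ 0)
    (hy : ∀ t, y t ≠ 0)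
    (h00 : c b0 a0 = Pi.single (Sum.inr (Sum.inl 0)) (w 0))
    (h01 : c b0 a1 = Pi.single (Sum.inr (Sum.inl 2)) (w 2))
    (h11 : c b1 a1 = Pi.single (Sum.inr (Sum.inl 1)) (w 1))
    (h10 : c b1 a0 = Pi.single (Sum.inr (Sum.inl 3)) (w 3))
    (hβ0 : ∀ t, c (β t) a0 = Pi.single (Sum.inl t) (r t))
    (hβ1 : ∀ t, c (β t) a1 = Pi.single (Sum.inl t) (r t) +
      Pi.single (Sum.inr (Sum.inr t)) (y t))
    (hβν : ∀ t, ∀ ν ∈ N, c (β t) ν = Pi.single (Sum.inr (Sum.inr t)) (y t * νs t ν))
    (hb : ∀ ν ∈ N, c b0 ν = 0 ∧ c b1 ν = 0) (hνν : ∀ ν ∈ N, ∀ ν' ∈ N, c ν ν' = 0)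
    (hνa : ∀ ν ∈ N, c ν a0 = 0 ∧ c ν a1 = 0) (haa : c a0 a1 = 0) :
    CritC (fun f g => c f g)
      (N ⊔ Submodule.span (ZMod p) {a0, a1} ⊔ (Submodule.span (ZMod p) {b0, b1} ⊔
        Submodule.span (ZMod p) (Set.range β))) (a0 + a1) := by
  classical
  have hprime : p.Prime := Fact.out
  have h2 : (2 : ZMod p) ≠ 0 := by
    intro h
    have h3 : ((2 : ℕ) : ZMod p) = 0 := by exact_mod_cast h
    rw [ZMod.natCast_eq_zero_iff] at h3
    exact hp ((Nat.prime_dvd_prime_iff_eq hprime Nat.prime_two).1 h3)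
  have hanti : ∀ f g, c g f = - c f g := by
    intro f g
    have h1 := halt (f + g)
    have h3 : c (f + g) (f + g) = c f f + c g f + (c f g + c g g) := by
      rw [map_add (c (f + g)) f g, map_add c f g, LinearMap.add_apply, LinearMap.add_apply]
    rw [h3, halt f, halt g, zero_add, add_zero] at h1
    exact eq_neg_of_add_eq_zero_left h1
  set V : Submodule (ZMod p) H := N ⊔ Submodule.span (ZMod p) {a0, a1} with hV
  set U : Submodule (ZMod p) H := Submodule.span (ZMod p) {b0, b1} ⊔
    Submodule.span (ZMod p) (Set.range β) with hU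
  have memV : ∀ f ∈ V, ∃ ν ∈ N, ∃ x0 x1 : ZMod p, f = ν + x0 • a0 + x1 • a1 := by
    intro f hf
    obtain ⟨ν, hν, g, hg, rfl⟩ := Submodule.mem_sup.1 hf
    obtain ⟨x0, x1, rfl⟩ := Submodule.mem_span_pair.1 hg
    exact ⟨ν, hν, x0, x1, by rw [add_assoc]⟩
  have memU : ∀ f ∈ U, ∃ (y0 y1 : ZMod p) (z : Fin m → ZMod p),
      f = y0 • b0 + y1 • b1 + ∑ t, z t • β t := by
    intro f hf
    obtain ⟨g, hg, k, hk, rfl⟩ := Submodule.mem_sup.1 hf
    obtain ⟨y0, y1, rfl⟩ := Submodule.mem_span_pair.1 hg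
    obtain ⟨z, rfl⟩ := (Submodule.mem_span_range_iff_exists_fun (ZMod p)).1 hk
    exact ⟨y0, y1, z, rfl⟩
  have hNV : ∀ ν ∈ N, ν ∈ V := fun ν hν => Submodule.mem_sup_left hν
  have ha0V : a0 ∈ V := Submodule.mem_sup_right (Submodule.subset_span (by simp))
  have ha1V : a1 ∈ V := Submodule.mem_sup_right (Submodule.subset_span (by simp))
  have hb0U : b0 ∈ U := Submodule.mem_sup_left (Submodule.subset_span (by simp))
  have hb1U : b1 ∈ U := Submodule.mem_sup_left (Submodule.subset_span (by simp))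
  have hβU : ∀ t, β t ∈ U := fun t => Submodule.mem_sup_right (Submodule.subset_span ⟨t, rfl⟩)
  set v : H := a0 + a1 with hv
  set u : H := b0 + b1 + ∑ t, β t with hu
  have hvV : v ∈ V := V.add_mem ha0V ha1V
  have huU : u ∈ U := U.add_mem (U.add_mem hb0U hb1U) (U.sum_mem fun t _ => hβU t)
  -- the values
  have c0v : c b0 v = Pi.single (Sum.inr (Sum.inl 0)) (w 0) + Pi.single (Sum.inr (Sum.inl 2)) (w 2) := by
    rw [hv, map_add, h00, h01]
  have c1v : c b1 v = Pi.single (Sum.inr (Sum.inl 3)) (w 3) + Pi.single (Sum.inr (Sum.inl 1)) (w 1) := by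
    rw [hv, map_add, h10, h11]
  have cβv : ∀ t, c (β t) v = Pi.single (Sum.inl t) (r t) + (Pi.single (Sum.inl t) (r t) +
      Pi.single (Sum.inr (Sum.inr t)) (y t)) := by
    intro t
    rw [hv, map_add, hβ0, hβ1]
  have cua : c u a0 = Pi.single (Sum.inr (Sum.inl 0)) (w 0) + Pi.single (Sum.inr (Sum.inl 3)) (w 3) +
      ∑ t, Pi.single (Sum.inl t) (r t) := by
    rw [hu, map_add, map_add, LinearMap.add_apply, LinearMap.add_apply, h00, h10, map_sum,
      LinearMap.sum_apply]
    congr 1
    exact Finset.sum_congr rfl fun t _ => hβ0 t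
  have cuν : ∀ ν ∈ N, c u ν = ∑ t, Pi.single (Sum.inr (Sum.inr t)) (y t * νs t ν) := by
    intro ν hν
    rw [hu, map_add, map_add, LinearMap.add_apply, LinearMap.add_apply, (hb ν hν).1, (hb ν hν).2,
      map_sum, LinearMap.sum_apply, zero_add, zero_add]
    exact Finset.sum_congr rfl fun t _ => hβν t ν hν
  set St : Submodule (ZMod p) (Fin m ⊕ Fin 4 ⊕ Fin m → ZMod p) := Submodule.span (ZMod p)
        ({x | ∃ g ∈ V, x = c u g} ∪ {x | ∃ f ∈ U, x = c f v}) with hSt
  have st1 : ∀ g ∈ V, c u g ∈ St := fun g hg => Submodule.subset_span (Or.inl ⟨g, hg, rfl⟩)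
  have st2 : ∀ f ∈ U, c f v ∈ St := fun f hf => Submodule.subset_span (Or.inr ⟨f, hf, rfl⟩)
  refine ⟨U, V, by rw [sup_comm], ?_, ?_, ?_, hvV, ?_, u, huU, ?_, ?_⟩
  · rw [Submodule.eq_bot_iff]
    rintro f ⟨hfU, hfV⟩
    obtain ⟨ν, hν, x0, x1, e1⟩ := memV f hfV
    obtain ⟨y0, y1, z, e2⟩ := memU f hfU
    have h3 := hind ν hν x0 x1 (-y0) (-y1) (fun t => -z t) (by
      have e3 : ν + x0 • a0 + x1 • a1 + -y0 • b0 + -y1 • b1 + ∑ t, -z t • β t =
          (ν + x0 • a0 + x1 • a1) - (y0 • b0 + y1 • b1 + ∑ t, z t • β t) := by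
        simp only [neg_smul, Finset.sum_neg_distrib]
        abel
      rw [e3, ← e1, ← e2, sub_self])
    rw [e1, h3.1, h3.2.1, h3.2.2.1]
    simp
  · intro f hf g hg
    obtain ⟨ν, hν, x0, x1, rfl⟩ := memV f hf
    obtain ⟨ν', hν', x0', x1', rfl⟩ := memV g hg
    have haa' : c a1 a0 = 0 := by rw [hanti, haa, neg_zero]
    have e1 : c a0 ν' = 0 := by rw [hanti, (hνa ν' hν').1, neg_zero]
    have e2 : c a1 ν' = 0 := by rw [hanti, (hνa ν' hν').2, neg_zero]
    simp only [map_add, map_smul, LinearMap.add_apply, LinearMap.smul_apply, hνν ν hν ν' hν',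
      (hνa ν hν).1, (hνa ν hν).2, e1, e2, halt, haa, haa', smul_zero, add_zero]
  · rw [eq_top_iff]
    rintro x -
    have hs : ∀ f ∈ U, ∀ g ∈ V, c f g ∈
        Submodule.span (ZMod p) {x | ∃ f ∈ U, ∃ g ∈ V, x = c f g} :=
      fun f hf g hg => Submodule.subset_span ⟨f, hf, g, hg, rfl⟩
    have key : ∀ (j : Fin m ⊕ Fin 4 ⊕ Fin m) (b : ZMod p), b ≠ 0 →
        (Pi.single j b : Fin m ⊕ Fin 4 ⊕ Fin m → ZMod p) ∈
          Submodule.span (ZMod p) {x | ∃ f ∈ U, ∃ g ∈ V, x = c f g} → ∀ a : ZMod p,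
        (Pi.single j a : Fin m ⊕ Fin 4 ⊕ Fin m → ZMod p) ∈
          Submodule.span (ZMod p) {x | ∃ f ∈ U, ∃ g ∈ V, x = c f g} := by
      intro j b hb hmem a
      have h3 := Submodule.smul_mem _ (a * b⁻¹) hmem
      rwa [← Pi.single_smul, smul_eq_mul, mul_assoc, inv_mul_cancel₀ hb, mul_one] at h3
    have all : ∀ (j : Fin m ⊕ Fin 4 ⊕ Fin m) (a : ZMod p),
        (Pi.single j a : Fin m ⊕ Fin 4 ⊕ Fin m → ZMod p) ∈
          Submodule.span (ZMod p) {x | ∃ f ∈ U, ∃ g ∈ V, x = c f g} := by
      rintro (t | i | t) a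
      · exact key _ (r t) (hr t) (hβ0 t ▸ hs _ (hβU t) _ ha0V) a
      · fin_cases i
        · exact key _ (w 0) (hw 0) (h00 ▸ hs _ hb0U _ ha0V) a
        · exact key _ (w 1) (hw 1) (h11 ▸ hs _ hb1U _ ha1V) a
        · exact key _ (w 2) (hw 2) (h01 ▸ hs _ hb0U _ ha1V) a
        · exact key _ (w 3) (hw 3) (h10 ▸ hs _ hb1U _ ha0V) a
      · refine key _ (y t) (hy t) ?_ a
        have h3 := Submodule.sub_mem _ (hs _ (hβU t) _ ha1V) (hs _ (hβU t) _ ha0V)
        rwa [hβ1 t, hβ0 t, add_sub_cancel_left] at h3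
    rw [← Finset.univ_sum_single x]
    exact Submodule.sum_mem _ fun j _ => all j _
  · intro h
    have h3 := hind 0 N.zero_mem 1 1 0 0 (fun _ => 0) (by
      simp only [zero_smul, Finset.sum_const_zero, add_zero, zero_add, one_smul]
      exact h)
    exact one_ne_zero h3.2.1
  · intro h
    have h3 := hind 0 N.zero_mem 0 0 1 1 (fun _ => 1) (by
      simp only [zero_smul, add_zero, zero_add, one_smul]
      exact h)
    exact one_ne_zero h3.2.2.2.1
  · -- the upper bound for `G`
    have fU1 : Module.finrank (ZMod p) (Submodule.span (ZMod p) {b0, b1}) ≤ 2 := by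
      have := finrank_span_finset_le_card (R := ZMod p) ({b0, b1} : Finset H)
      rw [Finset.coe_insert, Finset.coe_singleton] at this
      exact this.trans Finset.card_le_two
    have fV1 : Module.finrank (ZMod p) (Submodule.span (ZMod p) {a0, a1}) ≤ 2 := by
      have := finrank_span_finset_le_card (R := ZMod p) ({a0, a1} : Finset H)
      rw [Finset.coe_insert, Finset.coe_singleton] at this
      exact this.trans Finset.card_le_two
    have fβ : Module.finrank (ZMod p) (Submodule.span (ZMod p) (Set.range β)) ≤ m := by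
      have := finrank_range_le_card (R := ZMod p) β
      rwa [Fintype.card_fin] at this
    have i1 : FiniteDimensional (ZMod p) (Submodule.span (ZMod p) ({b0, b1} : Set H)) :=
      FiniteDimensional.span_of_finite _ (Set.toFinite _)
    have i2 : FiniteDimensional (ZMod p) (Submodule.span (ZMod p) ({a0, a1} : Set H)) :=
      FiniteDimensional.span_of_finite _ (Set.toFinite _)
    have i3 : FiniteDimensional (ZMod p) (Submodule.span (ZMod p) (Set.range β)) :=
      FiniteDimensional.span_of_finite _ (Set.toFinite _)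
    have g1 : Module.finrank (ZMod p) (V ⊔ U : Submodule (ZMod p) H) ≤
        Module.finrank (ZMod p) N + 2 + (2 + m) := by
      refine (Submodule.finrank_add_le_finrank_add_finrank V U).trans (Nat.add_le_add ?_ ?_)
      · exact (Submodule.finrank_add_le_finrank_add_finrank _ _).trans
          (Nat.add_le_add le_rfl fV1)
      · exact (Submodule.finrank_add_le_finrank_add_finrank _ _).trans (Nat.add_le_add fU1 fβ)
    -- the lower bound for the double star
    let Φ : (ZMod p × ZMod p × (Fin m → ZMod p) × ZMod p × N) →ₗ[ZMod p] St :=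
      { toFun := fun q => ⟨q.1 • c b0 v + q.2.1 • c b1 v + ∑ t, q.2.2.1 t • c (β t) v +
          q.2.2.2.1 • c u a0 + c u (q.2.2.2.2 : H), by
            refine St.add_mem (St.add_mem (St.add_mem (St.add_mem ?_ ?_) ?_) ?_) ?_
            · exact St.smul_mem _ (st2 _ hb0U)
            · exact St.smul_mem _ (st2 _ hb1U)
            · exact St.sum_mem fun t _ => St.smul_mem _ (st2 _ (hβU t))
            · exact St.smul_mem _ (st1 _ ha0V)
            · exact st1 _ (hNV _ q.2.2.2.2.2)⟩
        map_add' := by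
          intro q q'
          apply Subtype.ext
          simp only [Prod.fst_add, Prod.snd_add, Pi.add_apply, add_smul, Finset.sum_add_distrib,
            Submodule.coe_add, map_add]
          abel
        map_smul' := by
          intro a q
          apply Subtype.ext
          simp only [Prod.smul_fst, Prod.smul_snd, Pi.smul_apply, smul_assoc, ← Finset.smul_sum,
            Submodule.coe_smul, map_smul, RingHom.id_apply, smul_add] }
    have hΦ : Function.Injective Φ := by
      rw [← LinearMap.ker_eq_bot, Submodule.eq_bot_iff]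
      rintro ⟨x0, x1, z, s, ν, hν⟩ hq
      have hq' : x0 • c b0 v + x1 • c b1 v + ∑ t, z t • c (β t) v + s • c u a0 + c u ν = 0 :=
        congrArg Subtype.val (LinearMap.mem_ker.1 hq)
      rw [c0v, c1v, cua, cuν ν hν] at hq'
      simp only [cβv] at hq'
      have q0 := congrFun hq' (Sum.inr (Sum.inl 0))
      have q1 := congrFun hq' (Sum.inr (Sum.inl 1))
      have q2 := congrFun hq' (Sum.inr (Sum.inl 2))
      have q3 := congrFun hq' (Sum.inr (Sum.inl 3))
      have qt := fun t => congrFun hq' (Sum.inl t)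
      have qt' := fun t => congrFun hq' (Sum.inr (Sum.inr t))
      simp [Pi.single_apply, Finset.sum_apply] at q0 q1 q2 q3 qt qt'
      have x0z : x0 = 0 := by
        rcases q2 with h | h
        · exact h
        · exact absurd h (hw 2)
      have x1z : x1 = 0 := by
        rcases q1 with h | h
        · exact h
        · exact absurd h (hw 1)
      subst x0z x1z
      have sz : s = 0 := by
        have h3 : s * w 0 = 0 := by simpa using q0
        rcases mul_eq_zero.1 h3 with h | h
        · exact h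
        · exact absurd h (hw 0)
      subst sz
      have zz : ∀ t, z t = 0 := by
        intro t
        have h3 : z t * (2 * r t) = 0 := by
          have h4 := qt t
          rw [zero_mul, add_zero, Finset.sum_add_distrib, Finset.sum_ite_eq,
            if_pos (Finset.mem_univ t)] at h4
          linear_combination h4
        rcases mul_eq_zero.1 h3 with h | h
        · exact h
        · exact absurd h (mul_ne_zero h2 (hr t))
      have νz : ν = 0 := by
        refine hsep ν hν fun t => ?_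
        have h3 := qt' t
        rw [zz t] at h3
        have h4 : y t * νs t ν = 0 := by simpa using h3
        rcases mul_eq_zero.1 h4 with h | h
        · exact absurd h (hy t)
        · exact h
      subst νz
      have zz' : z = 0 := funext zz
      subst zz'
      rfl
    have g2 := LinearMap.finrank_le_finrank_of_injective hΦ
    rw [Module.finrank_prod, Module.finrank_prod, Module.finrank_prod, Module.finrank_prod,
      Module.finrank_self, Module.finrank_fin_fun] at g2
    change Module.finrank (ZMod p) (V ⊔ U : Submodule (ZMod p) H) ≤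
      Module.finrank (ZMod p) St + 1
    omega

end Pool.Agent.RGK
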