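import Mathlib
import Pool.Agent.Lib.RGK.X7Defs
import Pool.Agent.Lib.RGK.X2
import Pool.Agent.Lib.RGK.X3
import Pool.Agent.Lib.RGK.X7a
import Pool.Agent.Lib.RGK.X8a

/-!
RG v4, row X8: a complete configuration gives a core.

`T := (Finset.range (m + (m + 4))).image s`, `(T : Set _) = fst s (m + (m + 4))`. The conditions `pr`,
`vt` (`VT p T ≤ VT p (fst s m) ≤ PP`, `T0_vt`), `mem` (`GC.mono`) are clear.
`crit`: let `e : Fin m ⊕ Fin 4 ⊕ Fin m ≃ T` be `t ↦ s t`, `i ↦ s (m + i)`, `t ↦ s (m + 4 + t)`. Apply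
`crit_table` to `c f g k := cupF p (e k) f g` (bilinear, alternating), `N := GC p ∅`, `a0 := χ 0`, `a1 := χ 1`,
`b0 := χ 2`, `b1 := χ 3`, `β t := χ (4 + t)`, then transport `CritC` along `e` (the spans correspond under
the linear equivalence `LinearEquiv.funCongrLeft`).
Local components at `s a`: an element `f` of `GC p ∅` or of `GC p (fst s n)` with `a ≥ n` is unramified at
`s a` (`GC.off`, `f (s a) = x • vp`); two unramified components have cup product `0`
(`vl (gv) = 0`), and `cupF` of a ramified `f` and of `g = x • vp` is `(f t).ev (gv) * x`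
(`vl (piv) = 1`); `(f t).ev (gv p t) ≠ 0` iff ramified (`unram_iff'`).
Table: `N` is `0` at `s a`, `a < m` (`split`), and at `s m, .., s (m + 3)` (`fr`, `nuC = 0`). At `s a`, `a < m`:
`χ 0 = χ 1 = vp`, `χ 2 = χ 3 = 0`, `χ (4 + t)` is ramified if `t = a`, else `0`. At `s m`: `χ 0` ramified,
`χ 1 = 0`, `χ 2 = vp`, all others `0`. At `s (m + 1)`: `χ 0 = 0`, `χ 1` ramified, `χ 3 = vp`, the others
`0`. At `s (m + 2)`: `χ 0 = 0`, `χ 1 = c • vp`, `χ 2` ramified, later ones `0`. At `s (m + 3)`: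
`χ 0 = c • vp`, `χ 1 = 0`, `χ 2 = 0`, `χ 3` ramified, later ones `0`. At `s (m + 4 + t)`: `χ 0 = 0`,
`χ 1 = c • vp`, `ν = c * νs t ν • vp`, `χ (4 + t)` ramified, all others `0`. So `y t := χ(gv) * c` etc.
`GC p (fst s (m + j))` is `GC p ∅ ⊔ span {χ i | i < j}` (induction: `f ∈ GC p (insert q T')` minus a multiple
of `χ j` is unramified at `q`, `GC.unram`; `GC p (fst s m) = GC p ∅` by `T0K.gc`). Independence (`hind`):
evaluate at `gv` of `s (m + i)`, where only `χ i` is ramified.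
-/

set_option autoImplicit false

namespace Pool.Agent.RGK

open NumberField IsDedekindDomain
open Pool.Agent.RG.H (Pr vl UU PP SU ev below nrm emb NS)

private theorem CritC_idx_X8 {p : ℕ} [Fact p.Prime] {H κ κ' : Type} [AddCommGroup H]
    [Module (ZMod p) H] (e : κ ≃ κ') {c : H → H → κ → ZMod p} {c' : H → H → κ' → ZMod p}
    (hcc : ∀ f g k, c f g k = c' f g (e k)) {G : Submodule (ZMod p) H} {v : H}
    (h : CritC c G v) : CritC c' G v := by
  obtain ⟨U, V, h1, h2, h3, h4, h5, h6, u, hu, hu0, h7⟩ := h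
  let E : (κ' → ZMod p) ≃ₗ[ZMod p] (κ → ZMod p) := LinearEquiv.funCongrLeft (ZMod p) (ZMod p) e
  have hE : ∀ f g, E (c' f g) = c f g := fun f g => funext fun k => (hcc f g k).symm
  have hE0 : ∀ x, E x = 0 → x = 0 := fun x hx => E.injective (by rw [hx, map_zero])
  refine ⟨U, V, h1, h2, fun f hf g hg => ?_, ?_, h5, h6, u, hu, hu0, h7.trans ?_⟩
  · exact hE0 _ ((hE f g).trans (h3 f hf g hg))
  · have e1 : {x | ∃ f ∈ U, ∃ g ∈ V, x = c f g} =
        (E : (κ' → ZMod p) →ₗ[ZMod p] (κ → ZMod p)) '' {x | ∃ f ∈ U, ∃ g ∈ V, x = c' f g} := by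
      ext x
      constructor
      · rintro ⟨f, hf, g, hg, rfl⟩
        exact ⟨c' f g, ⟨f, hf, g, hg, rfl⟩, hE f g⟩
      · rintro ⟨y, ⟨f, hf, g, hg, rfl⟩, rfl⟩
        exact ⟨f, hf, g, hg, hE f g⟩
    rw [e1, Submodule.span_image] at h4
    refine Submodule.map_injective_of_injective
      (f := (E : (κ' → ZMod p) →ₗ[ZMod p] (κ → ZMod p))) E.injective ?_
    rw [h4, Submodule.map_top]
    exact (LinearEquiv.range E).symm
  · have e1 : ({x | ∃ g ∈ V, x = c u g} ∪ {x | ∃ f ∈ U, x = c f v}) =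
        (E : (κ' → ZMod p) →ₗ[ZMod p] (κ → ZMod p)) ''
          ({x | ∃ g ∈ V, x = c' u g} ∪ {x | ∃ f ∈ U, x = c' f v}) := by
      ext x
      constructor
      · rintro (⟨g, hg, rfl⟩ | ⟨f, hf, rfl⟩)
        · exact ⟨c' u g, Or.inl ⟨g, hg, rfl⟩, hE u g⟩
        · exact ⟨c' f v, Or.inr ⟨f, hf, rfl⟩, hE f v⟩
      · rintro ⟨y, (⟨g, hg, rfl⟩ | ⟨f, hf, rfl⟩), rfl⟩
        · exact Or.inl ⟨g, hg, hE u g⟩
        · exact Or.inr ⟨f, hf, hE f v⟩
    rw [e1, Submodule.span_image]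
    have := LinearEquiv.finrank_map_eq E (Submodule.span (ZMod p)
      ({x | ∃ g ∈ V, x = c' u g} ∪ {x | ∃ f ∈ U, x = c' f v}))
    rw [← this]

variable {K : Type} [Field K] [NumberField K]

/-- the value at `gv` -/
private noncomputable def Xv (p : ℕ) (v : Pr K) : (Pr K → Hm K p) →ₗ[ZMod p] ZMod p where
  toFun f := (f v).ev (gv p v)
  map_add' _ _ := rfl
  map_smul' _ _ := rfl

/-- the value at `piv` -/
private noncomputable def Yv (p : ℕ) (v : Pr K) : (Pr K → Hm K p) →ₗ[ZMod p] ZMod p where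
  toFun f := (f v).ev (piv v)
  map_add' _ _ := rfl
  map_smul' _ _ := rfl

private theorem XY_smul {p : ℕ} [Fact p.Prime] {v : Pr K} (hv : nm v % p = 1)
    {f : Pr K → Hm K p} {c : ZMod p} (h : f v = c • vp p v) : Xv p v f = 0 ∧ Yv p v f = c := by
  constructor
  · show (f v).ev (gv p v) = 0
    rw [h]
    show c * ((vl v (gv p v) : ℤ) : ZMod p) = 0
    rw [(gv_spec hv).1, Int.cast_zero, mul_zero]
  · show (f v).ev (piv v) = c
    rw [h]
    show c * ((vl v (piv v) : ℤ) : ZMod p) = c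
    rw [vl_piv, Int.cast_one, mul_one]

private theorem XY_zero {p : ℕ} {v : Pr K} {f : Pr K → Hm K p} (h : f v = 0) :
    Xv p v f = 0 ∧ Yv p v f = 0 := by
  constructor
  · show (f v).ev (gv p v) = 0
    rw [h]
    rfl
  · show (f v).ev (piv v) = 0
    rw [h]
    rfl

/-- the cup products -/
private noncomputable def cB {κ : Type} (p : ℕ) (q : κ → Pr K) :
    (Pr K → Hm K p) →ₗ[ZMod p] (Pr K → Hm K p) →ₗ[ZMod p] (κ → ZMod p) :=
  LinearMap.mk₂ (ZMod p)
    (fun f g k => Xv p (q k) f * Yv p (q k) g - Xv p (q k) g * Yv p (q k) f)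
    (fun f f' g => by funext k; simp only [map_add, Pi.add_apply]; ring)
    (fun c f g => by funext k; simp only [map_smul, smul_eq_mul, Pi.smul_apply]; ring)
    (fun f g g' => by funext k; simp only [map_add, Pi.add_apply]; ring)
    (fun c f g => by funext k; simp only [map_smul, smul_eq_mul, Pi.smul_apply]; ring)

private theorem cB_apply {κ : Type} (p : ℕ) (q : κ → Pr K) (f g : Pr K → Hm K p) (k : κ) :
    cB p q f g k = Xv p (q k) f * Yv p (q k) g - Xv p (q k) g * Yv p (q k) f := rfl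

/-- the indices -/
private def Fx (m : ℕ) : Fin m ⊕ Fin 4 ⊕ Fin m → ℕ
  | Sum.inl t => t
  | Sum.inr (Sum.inl i) => m + i
  | Sum.inr (Sum.inr t) => m + (4 + t)

private theorem Fx_lt {m : ℕ} (k : Fin m ⊕ Fin 4 ⊕ Fin m) : Fx m k < m + (m + 4) := by
  rcases k with t | i | t
  · show (t : ℕ) < _
    omega
  · show m + (i : ℕ) < _
    omega
  · show m + (4 + (t : ℕ)) < _
    omega

private theorem Fx_inj {m : ℕ} : Function.Injective (Fx m) := by
  intro k k' h
  rcases k with t | i | t <;> rcases k' with t' | i' | t'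
  · have h : (t : ℕ) = t' := h
    rw [Fin.ext h]
  · have h : (t : ℕ) = m + i' := h
    omega
  · have h : (t : ℕ) = m + (4 + t') := h
    omega
  · have h : m + (i : ℕ) = t' := h
    omega
  · have h : m + (i : ℕ) = m + i' := h
    rw [Fin.ext (by omega : (i : ℕ) = i')]
  · have h : m + (i : ℕ) = m + (4 + t') := h
    omega
  · have h : m + (4 + (t : ℕ)) = t' := h
    omega
  · have h : m + (4 + (t : ℕ)) = m + i' := h
    omega
  · have h : m + (4 + (t : ℕ)) = m + (4 + t') := h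
    rw [Fin.ext (by omega : (t : ℕ) = t')]

private theorem Fx_surj {m a : ℕ} (h : a < m + (m + 4)) : ∃ k, Fx m k = a := by
  by_cases h1 : a < m
  · exact ⟨Sum.inl ⟨a, h1⟩, rfl⟩
  · by_cases h2 : a < m + 4
    · refine ⟨Sum.inr (Sum.inl ⟨a - m, by omega⟩), ?_⟩
      show m + (a - m) = a
      omega
    · refine ⟨Sum.inr (Sum.inr ⟨a - m - 4, by omega⟩), ?_⟩
      show m + (4 + (a - m - 4)) = a
      omega

private theorem fst_succ_X8 (s : ℕ → Pr K) (n : ℕ) : fst s (n + 1) = insert (s n) (fst s n) := by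
  unfold fst
  ext v
  constructor
  · rintro ⟨a, ha, rfl⟩
    have ha : a < n + 1 := ha
    rcases Nat.lt_succ_iff_lt_or_eq.1 ha with h | h
    · exact Or.inr ⟨a, h, rfl⟩
    · exact Or.inl (by rw [h])
  · rintro (rfl | ⟨a, ha, rfl⟩)
    · exact ⟨n, Nat.lt_succ_self n, rfl⟩
    · exact ⟨a, Nat.lt_succ_of_lt ha, rfl⟩

private theorem fst_mono_X8 (s : ℕ → Pr K) {n n' : ℕ} (h : n ≤ n') : fst s n ⊆ fst s n' := by
  rintro v ⟨a, ha, rfl⟩
  exact ⟨a, lt_of_lt_of_le ha h, rfl⟩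

private theorem X_ram {p : ℕ} [Fact p.Prime] {T : Set (Pr K)} {f : Pr K → Hm K p}
    (hf : f ∈ GC p T) {v : Pr K} (hv : nm v % p = 1) (hvT : v ∈ T) (h : ¬ Kills (f v) v 0) :
    Xv p v f ≠ 0 := fun h0 => h ((unram_iff' hv (hf.2.1 v hvT)).2 h0)

/-- the structure of the space of characters -/
private theorem GC_span_X8 {p : ℕ} [Fact p.Prime] {m : ℕ}
    {νs : ℕ → (Pr K → Hm K p) →ₗ[ZMod p] ZMod p} {s : ℕ → Pr K}
    {χ : ℕ → Pr K → Hm K p} (h0 : T0K p s m) {n : ℕ} (h : CfgK p m νs s χ n) (j : ℕ) (hj : j ≤ n) :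
    GC p (fst s (m + j)) ≤ GC p ∅ ⊔ Submodule.span (ZMod p) (χ '' Set.Iio j) := by
  induction j with
  | zero => exact h0.gc.trans le_sup_left
  | succ j ih =>
    intro f hf
    have hjn : j < n := hj
    have hv : nm (s (m + j)) % p = 1 := (h.pr (m + j) (by omega)).2
    have hmem := h.mem j hjn
    have hin : s (m + j) ∈ fst s (m + j + 1) := ⟨m + j, Nat.lt_succ_self _, rfl⟩
    have hX := X_ram hmem hv hin (h.ram j hjn)
    set a : ZMod p := Xv p (s (m + j)) f / Xv p (s (m + j)) (χ j) with ha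
    have hf' : f - a • χ j ∈ GC p (fst s (m + j + 1)) :=
      Submodule.sub_mem _ hf (Submodule.smul_mem _ _ hmem)
    have hX' : Xv p (s (m + j)) (f - a • χ j) = 0 := by
      rw [map_sub, map_smul, smul_eq_mul, ha, div_mul_cancel₀ _ hX, sub_self]
    have hk : Kills ((f - a • χ j) (s (m + j))) (s (m + j)) 0 :=
      (unram_iff' hv (hf'.2.1 _ hin)).2 hX'
    have hf'' := GC.unram hf' hk
    have hsub : fst s (m + j + 1) \ {s (m + j)} ⊆ fst s (m + j) := by
      rw [fst_succ_X8]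
      rintro v ⟨hv1 | hv1, hv2⟩
      · exact absurd hv1 hv2
      · exact hv1
    have hmem2 := ih (by omega) (GC.mono hsub hf'')
    have hle : GC p ∅ ⊔ Submodule.span (ZMod p) (χ '' Set.Iio j) ≤
        GC p ∅ ⊔ Submodule.span (ZMod p) (χ '' Set.Iio (j + 1)) :=
      sup_le_sup_left (Submodule.span_mono (Set.image_mono
        (Set.Iio_subset_Iio (Nat.le_succ j)))) _
    have h3 : a • χ j ∈ GC p ∅ ⊔ Submodule.span (ZMod p) (χ '' Set.Iio (j + 1)) :=
      Submodule.smul_mem _ _ ((le_sup_right :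
        Submodule.span (ZMod p) (χ '' Set.Iio (j + 1)) ≤ _)
          (Submodule.subset_span ⟨j, Nat.lt_succ_self j, rfl⟩))
    have h4 := Submodule.add_mem _ (hle hmem2) h3
    rwa [sub_add_cancel] at h4

open Classical in
private theorem crit_X8 {p : ℕ} [Fact p.Prime] (hp : p ≠ 2) {m : ℕ}
    {νs : ℕ → (Pr K → Hm K p) →ₗ[ZMod p] ZMod p}
    (hsep : ∀ ν ∈ GC p ∅, (∀ t < m, νs t ν = 0) → ν = 0) {s : ℕ → Pr K}
    {χ : ℕ → Pr K → Hm K p} (h0 : T0K p s m) (h : CfgK p m νs s χ (m + 4))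
    {T : Finset (Pr K)} (hT : (T : Set (Pr K)) = fst s (m + (m + 4))) :
    CritC (fun f g (t : T) => cupF p (t : Pr K) f g) (GC p (fst s (m + (m + 4)))) (χ 0 + χ 1) := by
  have hmemT : ∀ i < m + 4, χ i ∈ GC p (fst s (m + (m + 4))) := fun i hi =>
    GC.mono (fst_mono_X8 s (by omega)) (h.mem i hi)
  have hsm : ∀ a < m + (m + 4), nm (s a) % p = 1 := fun a ha => (h.pr a ha).2
  -- the equivalence
  let q : Fin m ⊕ Fin 4 ⊕ Fin m → Pr K := fun k => s (Fx m k)
  have hqT : ∀ k, q k ∈ T := by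
    intro k
    rw [← Finset.mem_coe, hT]
    exact ⟨Fx m k, Fx_lt k, rfl⟩
  let e : Fin m ⊕ Fin 4 ⊕ Fin m ≃ T := Equiv.ofBijective (fun k => ⟨q k, hqT k⟩) (by
    constructor
    · intro k k' hk
      have h1 : s (Fx m k) = s (Fx m k') := congrArg Subtype.val hk
      exact Fx_inj (h.inj _ (Fx_lt k) _ (Fx_lt k') h1)
    · rintro ⟨t, ht⟩
      rw [← Finset.mem_coe, hT] at ht
      obtain ⟨a, ha, rfl⟩ := ht
      obtain ⟨k, rfl⟩ := Fx_surj ha
      exact ⟨k, rfl⟩)
  -- the local data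
  choose! cc hc0' hcν hcχ using h.fr
  have hN1 : ∀ ν ∈ GC p ∅, ∀ a < m, Xv p (s a) ν = 0 ∧ Yv p (s a) ν = 0 := fun ν hν a ha =>
    XY_zero (h0.split a ha ν hν)
  have hN2 : ∀ ν ∈ GC p ∅, ∀ i < m + 4, Xv p (s (m + i)) ν = 0 ∧
      Yv p (s (m + i)) ν = cc i * nuC νs i ν := fun ν hν i hi =>
    XY_smul (hsm _ (by omega)) (hcν i hi ν hν)
  have hC1 : ∀ i < m + 4, ∀ i' < i, Xv p (s (m + i)) (χ i') = 0 ∧
      Yv p (s (m + i)) (χ i') = cc i * PhiC p i i' := fun i hi i' hi' =>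
    XY_smul (hsm _ (by omega)) (hcχ i hi i' hi')
  have hC2 : ∀ i < m + 4, Xv p (s (m + i)) (χ i) ≠ 0 := fun i hi =>
    X_ram (h.mem i hi) (hsm _ (by omega)) ⟨m + i, Nat.lt_succ_self _, rfl⟩ (h.ram i hi)
  have hC3 : ∀ i < 2, ∀ a < m, Xv p (s a) (χ i) = 0 ∧ Yv p (s a) (χ i) = 1 := fun i hi a ha =>
    XY_smul (hsm _ (by omega))
      (((h.loc i (by omega) a (by omega)).1 ⟨hi, ha⟩).trans (one_smul _ _).symm)
  have hC4 : ∀ t < m, Xv p (s t) (χ (4 + t)) ≠ 0 := fun t ht =>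
    X_ram (hmemT (4 + t) (by omega)) (hsm _ (by omega)) ⟨t, by show t < _; omega, rfl⟩
      ((h.loc (4 + t) (by omega) t (by omega)).2.1 ⟨by omega, by omega⟩)
  have hC5 : ∀ i < m + 4, ∀ a < m + i, (i = 2 ∧ a = m) ∨ (i = 3 ∧ a = m + 1) →
      Xv p (s a) (χ i) = 0 ∧ Yv p (s a) (χ i) = 1 := fun i hi a ha hia =>
    XY_smul (hsm _ (by omega)) (((h.loc i hi a ha).2.2.1 hia).trans (one_smul _ _).symm)
  have hC6 : ∀ i < m + 4, ∀ a < m + i, ¬ (i < 2 ∧ a < m) → ¬ (4 ≤ i ∧ a = i - 4) →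
      ¬ ((i = 2 ∧ a = m) ∨ (i = 3 ∧ a = m + 1)) →
      Xv p (s a) (χ i) = 0 ∧ Yv p (s a) (χ i) = 0 := fun i hi a ha h1 h2 h3 =>
    XY_zero ((h.loc i hi a ha).2.2.2 h1 h2 h3)
  -- the table: primes of `T₀`
  have A0 : ∀ t : Fin m, Xv p (s t) (χ 0) = 0 ∧ Yv p (s t) (χ 0) = 1 := fun t =>
    hC3 0 (by omega) t t.2
  have A1 : ∀ t : Fin m, Xv p (s t) (χ 1) = 0 ∧ Yv p (s t) (χ 1) = 1 := fun t =>
    hC3 1 (by omega) t t.2
  have A2 : ∀ t : Fin m, Xv p (s t) (χ 2) = 0 ∧ Yv p (s t) (χ 2) = 0 := fun t =>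
    hC6 2 (by omega) t (by omega) (by omega) (by omega) (by omega)
  have A3 : ∀ t : Fin m, Xv p (s t) (χ 3) = 0 ∧ Yv p (s t) (χ 3) = 0 := fun t =>
    hC6 3 (by omega) t (by omega) (by omega) (by omega) (by omega)
  have A4 : ∀ t t' : Fin m, t ≠ t' → Xv p (s t) (χ (4 + t')) = 0 ∧ Yv p (s t) (χ (4 + t')) = 0 := by
    intro t t' htt
    have h1 : (t : ℕ) ≠ t' := fun h => htt (Fin.ext h)
    exact hC6 (4 + t') (by omega) t (by omega) (by omega) (by omega) (by omega)
  -- the prime `s m`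
  have B1 : Xv p (s (m + 0)) (χ 1) = 0 ∧ Yv p (s (m + 0)) (χ 1) = 0 :=
    hC6 1 (by omega) (m + 0) (by omega) (by omega) (by omega) (by omega)
  have B2 : Xv p (s (m + 0)) (χ 2) = 0 ∧ Yv p (s (m + 0)) (χ 2) = 1 :=
    hC5 2 (by omega) (m + 0) (by omega) (by omega)
  have B3 : Xv p (s (m + 0)) (χ 3) = 0 ∧ Yv p (s (m + 0)) (χ 3) = 0 :=
    hC6 3 (by omega) (m + 0) (by omega) (by omega) (by omega) (by omega)
  -- `i < 4` and `4 + t`
  have B4 : ∀ i < 4, ∀ t' : Fin m, Xv p (s (m + i)) (χ (4 + t')) = 0 ∧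
      Yv p (s (m + i)) (χ (4 + t')) = 0 := by
    intro i hi t'
    exact hC6 (4 + t') (by omega) (m + i) (by omega) (by omega) (by omega) (by omega)
  have B5 : ∀ i < 4, ∀ ν ∈ GC p ∅, Xv p (s (m + i)) ν = 0 ∧ Yv p (s (m + i)) ν = 0 := by
    intro i hi ν hν
    have h1 := hN2 ν hν i (by omega)
    unfold nuC at h1
    rw [if_pos hi, LinearMap.zero_apply, mul_zero] at h1
    exact h1
  -- the prime `s (m + 1)`
  have C0 : Xv p (s (m + 1)) (χ 0) = 0 ∧ Yv p (s (m + 1)) (χ 0) = 0 := by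
    have h1 := hC1 1 (by omega) 0 (by omega)
    simpa [PhiC] using h1
  have C2 : Xv p (s (m + 1)) (χ 2) = 0 ∧ Yv p (s (m + 1)) (χ 2) = 0 :=
    hC6 2 (by omega) (m + 1) (by omega) (by omega) (by omega) (by omega)
  have C3 : Xv p (s (m + 1)) (χ 3) = 0 ∧ Yv p (s (m + 1)) (χ 3) = 1 :=
    hC5 3 (by omega) (m + 1) (by omega) (by omega)
  -- the prime `s (m + 2)`
  have D0 : Xv p (s (m + 2)) (χ 0) = 0 ∧ Yv p (s (m + 2)) (χ 0) = 0 := by
    have h1 := hC1 2 (by omega) 0 (by omega)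
    simpa [PhiC] using h1
  have D1 : Xv p (s (m + 2)) (χ 1) = 0 ∧ Yv p (s (m + 2)) (χ 1) = cc 2 := by
    have h1 := hC1 2 (by omega) 1 (by omega)
    simpa [PhiC] using h1
  have D3 : Xv p (s (m + 2)) (χ 3) = 0 ∧ Yv p (s (m + 2)) (χ 3) = 0 :=
    hC6 3 (by omega) (m + 2) (by omega) (by omega) (by omega) (by omega)
  -- the prime `s (m + 3)`
  have E0 : Xv p (s (m + 3)) (χ 0) = 0 ∧ Yv p (s (m + 3)) (χ 0) = cc 3 := by
    have h1 := hC1 3 (by omega) 0 (by omega)
    simpa [PhiC] using h1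
  have E1 : Xv p (s (m + 3)) (χ 1) = 0 ∧ Yv p (s (m + 3)) (χ 1) = 0 := by
    have h1 := hC1 3 (by omega) 1 (by omega)
    simpa [PhiC] using h1
  have E2 : Xv p (s (m + 3)) (χ 2) = 0 ∧ Yv p (s (m + 3)) (χ 2) = 0 := by
    have h1 := hC1 3 (by omega) 2 (by omega)
    simpa [PhiC] using h1
  -- the primes `s (m + (4 + t))`
  have F0 : ∀ t : Fin m, Xv p (s (m + (4 + t))) (χ 0) = 0 ∧ Yv p (s (m + (4 + t))) (χ 0) = 0 := by
    intro t
    have h1 := hC1 (4 + t) (by omega) 0 (by omega)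
    have h2 : PhiC p (4 + t) 0 = 0 := by
      unfold PhiC
      exact if_neg (by omega)
    rw [h2, mul_zero] at h1
    exact h1
  have F1 : ∀ t : Fin m, Xv p (s (m + (4 + t))) (χ 1) = 0 ∧
      Yv p (s (m + (4 + t))) (χ 1) = cc (4 + t) := by
    intro t
    have h1 := hC1 (4 + t) (by omega) 1 (by omega)
    have h2 : PhiC p (4 + t) 1 = 1 := by
      unfold PhiC
      exact if_pos (by omega)
    rw [h2, mul_one] at h1
    exact h1
  have F2 : ∀ t : Fin m, Xv p (s (m + (4 + t))) (χ 2) = 0 ∧ Yv p (s (m + (4 + t))) (χ 2) = 0 := by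
    intro t
    have h1 := hC1 (4 + t) (by omega) 2 (by omega)
    have h2 : PhiC p (4 + t) 2 = 0 := by
      unfold PhiC
      exact if_neg (by omega)
    rw [h2, mul_zero] at h1
    exact h1
  have F3 : ∀ t : Fin m, Xv p (s (m + (4 + t))) (χ 3) = 0 ∧ Yv p (s (m + (4 + t))) (χ 3) = 0 := by
    intro t
    have h1 := hC1 (4 + t) (by omega) 3 (by omega)
    have h2 : PhiC p (4 + t) 3 = 0 := by
      unfold PhiC
      exact if_neg (by omega)
    rw [h2, mul_zero] at h1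
    exact h1
  have F4 : ∀ t t' : Fin m, t ≠ t' → Xv p (s (m + (4 + t))) (χ (4 + t')) = 0 ∧
      Yv p (s (m + (4 + t))) (χ (4 + t')) = 0 := by
    intro t t' htt
    have h3 : (t : ℕ) ≠ t' := fun h => htt (Fin.ext h)
    rcases Nat.lt_or_ge (t' : ℕ) t with hlt | hge
    · have h1 := hC1 (4 + t) (by omega) (4 + t') (by omega)
      have h2 : PhiC p (4 + t) (4 + t') = 0 := by
        unfold PhiC
        exact if_neg (by omega)
      rw [h2, mul_zero] at h1
      exact h1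
    · exact hC6 (4 + t') (by omega) (m + (4 + t)) (by omega) (by omega) (by omega) (by omega)
  have F5 : ∀ t : Fin m, ∀ ν ∈ GC p ∅, Xv p (s (m + (4 + t))) ν = 0 ∧
      Yv p (s (m + (4 + t))) ν = cc (4 + t) * νs t ν := by
    intro t ν hν
    have h1 := hN2 ν hν (4 + t) (by omega)
    unfold nuC at h1
    rw [if_neg (by omega), Nat.add_sub_cancel_left] at h1
    exact h1
  have A5 : ∀ t : Fin m, ∀ ν ∈ GC p ∅, Xv p (s t) ν = 0 ∧ Yv p (s t) ν = 0 := fun t ν hν =>
    hN1 ν hν t t.2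
  -- the cup products
  have hcl : ∀ f g (t : Fin m), cB p q f g (Sum.inl t) =
      Xv p (s t) f * Yv p (s t) g - Xv p (s t) g * Yv p (s t) f := fun _ _ _ => rfl
  have hc0 : ∀ f g, cB p q f g (Sum.inr (Sum.inl 0)) =
      Xv p (s (m + 0)) f * Yv p (s (m + 0)) g - Xv p (s (m + 0)) g * Yv p (s (m + 0)) f :=
    fun _ _ => rfl
  have hc1 : ∀ f g, cB p q f g (Sum.inr (Sum.inl 1)) =
      Xv p (s (m + 1)) f * Yv p (s (m + 1)) g - Xv p (s (m + 1)) g * Yv p (s (m + 1)) f :=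
    fun _ _ => rfl
  have hc2 : ∀ f g, cB p q f g (Sum.inr (Sum.inl 2)) =
      Xv p (s (m + 2)) f * Yv p (s (m + 2)) g - Xv p (s (m + 2)) g * Yv p (s (m + 2)) f :=
    fun _ _ => rfl
  have hc3 : ∀ f g, cB p q f g (Sum.inr (Sum.inl 3)) =
      Xv p (s (m + 3)) f * Yv p (s (m + 3)) g - Xv p (s (m + 3)) g * Yv p (s (m + 3)) f :=
    fun _ _ => rfl
  have hcr : ∀ f g (t : Fin m), cB p q f g (Sum.inr (Sum.inr t)) =
      Xv p (s (m + (4 + t))) f * Yv p (s (m + (4 + t))) g -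
        Xv p (s (m + (4 + t))) g * Yv p (s (m + (4 + t))) f := fun _ _ _ => rfl
  have hext : ∀ x y : Fin m ⊕ Fin 4 ⊕ Fin m → ZMod p, (∀ t, x (Sum.inl t) = y (Sum.inl t)) →
      x (Sum.inr (Sum.inl 0)) = y (Sum.inr (Sum.inl 0)) →
      x (Sum.inr (Sum.inl 1)) = y (Sum.inr (Sum.inl 1)) →
      x (Sum.inr (Sum.inl 2)) = y (Sum.inr (Sum.inl 2)) →
      x (Sum.inr (Sum.inl 3)) = y (Sum.inr (Sum.inl 3)) →
      (∀ t, x (Sum.inr (Sum.inr t)) = y (Sum.inr (Sum.inr t))) → x = y := by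
    intro x y k1 k2 k3 k4 k5 k6
    funext k
    rcases k with t | i | t
    · exact k1 t
    · fin_cases i
      · exact k2
      · exact k3
      · exact k4
      · exact k5
    · exact k6 t
  have hfin : Finite (GC (K := K) p ∅) := finite_GC Set.finite_empty
  have hfd : FiniteDimensional (ZMod p) (GC (K := K) p ∅) := Module.Finite.of_finite
  have key := crit_table hp (cB p q) (fun f => by
      funext k
      rw [cB_apply]
      exact sub_self _) (GC p ∅) (χ 0) (χ 1) (χ 2) (χ 3) (fun t : Fin m => χ (4 + t))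
    (fun t => νs t) (fun ν hν hν0 => hsep ν hν fun t ht => hν0 ⟨t, ht⟩)
    (by
      intro ν hν x0 x1 y0 y1 z hz
      have E : ∀ v, Xv p v ν + x0 * Xv p v (χ 0) + x1 * Xv p v (χ 1) + y0 * Xv p v (χ 2) +
          y1 * Xv p v (χ 3) + ∑ t : Fin m, z t * Xv p v (χ (4 + t)) = 0 := by
        intro v
        have h1 := congrArg (Xv p v) hz
        simpa only [map_add, map_smul, map_sum, map_zero, smul_eq_mul] using h1
      have hS : ∀ i < 4, ∑ t : Fin m, z t * Xv p (s (m + i)) (χ (4 + t)) = 0 := fun i hi =>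
        Finset.sum_eq_zero fun t _ => by rw [(B4 i hi t).1, mul_zero]
      have k0 : x0 = 0 := by
        have h1 := E (s (m + 0))
        rw [(B5 0 (by omega) ν hν).1, B1.1, B2.1, B3.1, hS 0 (by omega), mul_zero, mul_zero,
          mul_zero, add_zero, add_zero, add_zero, add_zero, zero_add] at h1
        exact (mul_eq_zero.1 h1).resolve_right (hC2 0 (by omega))
      have k1 : x1 = 0 := by
        have h1 := E (s (m + 1))
        rw [(B5 1 (by omega) ν hν).1, C0.1, C2.1, C3.1, hS 1 (by omega), mul_zero, mul_zero,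
          mul_zero, add_zero, add_zero, add_zero, add_zero, zero_add] at h1
        exact (mul_eq_zero.1 h1).resolve_right (hC2 1 (by omega))
      have k2 : y0 = 0 := by
        have h1 := E (s (m + 2))
        rw [(B5 2 (by omega) ν hν).1, D0.1, D1.1, D3.1, hS 2 (by omega), mul_zero, mul_zero,
          mul_zero, add_zero, add_zero, add_zero, add_zero, zero_add] at h1
        exact (mul_eq_zero.1 h1).resolve_right (hC2 2 (by omega))
      have k3 : y1 = 0 := by
        have h1 := E (s (m + 3))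
        rw [(B5 3 (by omega) ν hν).1, E0.1, E1.1, E2.1, hS 3 (by omega), mul_zero, mul_zero,
          mul_zero, add_zero, add_zero, add_zero, add_zero, zero_add] at h1
        exact (mul_eq_zero.1 h1).resolve_right (hC2 3 (by omega))
      have k4 : ∀ t, z t = 0 := by
        intro t
        have h1 := E (s (m + (4 + t)))
        rw [(F5 t ν hν).1, (F0 t).1, (F1 t).1, (F2 t).1, (F3 t).1, mul_zero, mul_zero, mul_zero,
          mul_zero, add_zero, add_zero, add_zero, add_zero, zero_add,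
          Finset.sum_eq_single t (fun t' _ htt => by rw [(F4 t t' htt.symm).1, mul_zero])
            (fun h => absurd (Finset.mem_univ t) h)] at h1
        exact (mul_eq_zero.1 h1).resolve_right (hC2 (4 + t) (by omega))
      refine ⟨?_, k0, k1, k2, k3, k4⟩
      rw [k0, k1, k2, k3, Finset.sum_eq_zero fun t _ => by rw [k4 t, zero_smul]] at hz
      simpa using hz)
    ![-Xv p (s (m + 0)) (χ 0), -Xv p (s (m + 1)) (χ 1), Xv p (s (m + 2)) (χ 2) * cc 2,
      Xv p (s (m + 3)) (χ 3) * cc 3]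
    (by
      intro i
      fin_cases i
      · exact neg_ne_zero.2 (hC2 0 (by omega))
      · exact neg_ne_zero.2 (hC2 1 (by omega))
      · exact mul_ne_zero (hC2 2 (by omega)) (hc0' 2 (by omega))
      · exact mul_ne_zero (hC2 3 (by omega)) (hc0' 3 (by omega)))
    (fun t => Xv p (s t) (χ (4 + t))) (fun t => Xv p (s (m + (4 + t))) (χ (4 + t)) * cc (4 + t))
    (fun t => hC4 t t.2)
    (fun t => mul_ne_zero (hC2 (4 + t) (by omega)) (hc0' (4 + t) (by omega)))
    (by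
      refine hext _ _ (fun t => ?_) ?_ ?_ ?_ ?_ (fun t => ?_)
      · rw [hcl, (A0 t).1, (A2 t).1]; simp
      · rw [hc0, B2.1, B2.2]; simp
      · rw [hc1, C0.1, C0.2]; simp
      · rw [hc2, D0.1, D0.2]; simp
      · rw [hc3, E2.1, E2.2]; simp
      · rw [hcr, (F0 t).1, (F2 t).1]; simp)
    (by
      refine hext _ _ (fun t => ?_) ?_ ?_ ?_ ?_ (fun t => ?_)
      · rw [hcl, (A1 t).1, (A2 t).1]; simp
      · rw [hc0, B1.1, B1.2]; simp
      · rw [hc1, C2.1, C2.2]; simp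
      · rw [hc2, D1.1, D1.2]; simp
      · rw [hc3, E2.1, E2.2]; simp
      · rw [hcr, (F1 t).1, (F2 t).1]; simp)
    (by
      refine hext _ _ (fun t => ?_) ?_ ?_ ?_ ?_ (fun t => ?_)
      · rw [hcl, (A1 t).1, (A3 t).1]; simp
      · rw [hc0, B1.1, B1.2]; simp
      · rw [hc1, C3.1, C3.2]; simp
      · rw [hc2, D3.1, D3.2]; simp
      · rw [hc3, E1.1, E1.2]; simp
      · rw [hcr, (F1 t).1, (F3 t).1]; simp)
    (by
      refine hext _ _ (fun t => ?_) ?_ ?_ ?_ ?_ (fun t => ?_)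
      · rw [hcl, (A0 t).1, (A3 t).1]; simp
      · rw [hc0, B3.1, B3.2]; simp
      · rw [hc1, C0.1, C0.2]; simp
      · rw [hc2, D0.1, D0.2]; simp
      · rw [hc3, E0.1, E0.2]; simp
      · rw [hcr, (F0 t).1, (F3 t).1]; simp)
    (by
      intro t
      refine hext _ _ (fun t' => ?_) ?_ ?_ ?_ ?_ (fun t' => ?_)
      · by_cases htt : t' = t
        · subst htt
          rw [hcl, (A0 t').1, (A0 t').2]; simp
        · rw [hcl, (A4 t' t htt).1, (A4 t' t htt).2]; simp [Pi.single_apply, htt]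
      · rw [hc0, (B4 0 (by omega) t).1, (B4 0 (by omega) t).2]; simp
      · rw [hc1, (B4 1 (by omega) t).1, (B4 1 (by omega) t).2]; simp
      · rw [hc2, (B4 2 (by omega) t).1, (B4 2 (by omega) t).2]; simp
      · rw [hc3, (B4 3 (by omega) t).1, (B4 3 (by omega) t).2]; simp
      · rw [hcr, (F0 t').1, (F0 t').2]; simp)
    (by
      intro t
      refine hext _ _ (fun t' => ?_) ?_ ?_ ?_ ?_ (fun t' => ?_)
      · by_cases htt : t' = t
        · subst htt
          rw [hcl, (A1 t').1, (A1 t').2]; simp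
        · rw [hcl, (A4 t' t htt).1, (A4 t' t htt).2]; simp [Pi.single_apply, htt]
      · rw [hc0, (B4 0 (by omega) t).1, (B4 0 (by omega) t).2]; simp
      · rw [hc1, (B4 1 (by omega) t).1, (B4 1 (by omega) t).2]; simp
      · rw [hc2, (B4 2 (by omega) t).1, (B4 2 (by omega) t).2]; simp
      · rw [hc3, (B4 3 (by omega) t).1, (B4 3 (by omega) t).2]; simp
      · by_cases htt : t' = t
        · subst htt
          rw [hcr, (F1 t').1, (F1 t').2]; simp
        · rw [hcr, (F4 t' t htt).1, (F4 t' t htt).2]; simp [Pi.single_apply, htt])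
    (by
      intro t ν hν
      refine hext _ _ (fun t' => ?_) ?_ ?_ ?_ ?_ (fun t' => ?_)
      · rw [hcl, (A5 t' ν hν).1, (A5 t' ν hν).2]; simp
      · rw [hc0, (B5 0 (by omega) ν hν).1, (B5 0 (by omega) ν hν).2]; simp
      · rw [hc1, (B5 1 (by omega) ν hν).1, (B5 1 (by omega) ν hν).2]; simp
      · rw [hc2, (B5 2 (by omega) ν hν).1, (B5 2 (by omega) ν hν).2]; simp
      · rw [hc3, (B5 3 (by omega) ν hν).1, (B5 3 (by omega) ν hν).2]; simp
      · by_cases htt : t' = t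
        · subst htt
          rw [hcr, (F5 t' ν hν).1, (F5 t' ν hν).2]; simp; ring
        · rw [hcr, (F4 t' t htt).1, (F4 t' t htt).2]; simp [Pi.single_apply, htt])
    (by
      intro ν hν
      constructor
      · refine hext _ _ (fun t => ?_) ?_ ?_ ?_ ?_ (fun t => ?_)
        · rw [hcl, (A5 t ν hν).1, (A5 t ν hν).2]; simp
        · rw [hc0, (B5 0 (by omega) ν hν).1, (B5 0 (by omega) ν hν).2]; simp
        · rw [hc1, (B5 1 (by omega) ν hν).1, (B5 1 (by omega) ν hν).2]; simp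
        · rw [hc2, (B5 2 (by omega) ν hν).1, (B5 2 (by omega) ν hν).2]; simp
        · rw [hc3, (B5 3 (by omega) ν hν).1, (B5 3 (by omega) ν hν).2]; simp
        · rw [hcr, (F2 t).1, (F2 t).2]; simp
      · refine hext _ _ (fun t => ?_) ?_ ?_ ?_ ?_ (fun t => ?_)
        · rw [hcl, (A5 t ν hν).1, (A5 t ν hν).2]; simp
        · rw [hc0, (B5 0 (by omega) ν hν).1, (B5 0 (by omega) ν hν).2]; simp
        · rw [hc1, (B5 1 (by omega) ν hν).1, (B5 1 (by omega) ν hν).2]; simp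
        · rw [hc2, (B5 2 (by omega) ν hν).1, (B5 2 (by omega) ν hν).2]; simp
        · rw [hc3, (B5 3 (by omega) ν hν).1, (B5 3 (by omega) ν hν).2]; simp
        · rw [hcr, (F3 t).1, (F3 t).2]; simp)
    (by
      intro ν hν ν' hν'
      refine hext _ _ (fun t => ?_) ?_ ?_ ?_ ?_ (fun t => ?_)
      · rw [hcl, (A5 t ν hν).1, (A5 t ν' hν').1]; simp
      · rw [hc0, (B5 0 (by omega) ν hν).1, (B5 0 (by omega) ν' hν').1]; simp
      · rw [hc1, (B5 1 (by omega) ν hν).1, (B5 1 (by omega) ν' hν').1]; simp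
      · rw [hc2, (B5 2 (by omega) ν hν).1, (B5 2 (by omega) ν' hν').1]; simp
      · rw [hc3, (B5 3 (by omega) ν hν).1, (B5 3 (by omega) ν' hν').1]; simp
      · rw [hcr, (F5 t ν hν).1, (F5 t ν' hν').1]; simp)
    (by
      intro ν hν
      constructor
      · refine hext _ _ (fun t => ?_) ?_ ?_ ?_ ?_ (fun t => ?_)
        · rw [hcl, (A5 t ν hν).1, (A5 t ν hν).2]; simp
        · rw [hc0, (B5 0 (by omega) ν hν).1, (B5 0 (by omega) ν hν).2]; simp
        · rw [hc1, (B5 1 (by omega) ν hν).1, (B5 1 (by omega) ν hν).2]; simp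
        · rw [hc2, (B5 2 (by omega) ν hν).1, (B5 2 (by omega) ν hν).2]; simp
        · rw [hc3, (B5 3 (by omega) ν hν).1, (B5 3 (by omega) ν hν).2]; simp
        · rw [hcr, (F0 t).1, (F0 t).2]; simp
      · refine hext _ _ (fun t => ?_) ?_ ?_ ?_ ?_ (fun t => ?_)
        · rw [hcl, (A5 t ν hν).1, (A5 t ν hν).2]; simp
        · rw [hc0, (B5 0 (by omega) ν hν).1, (B5 0 (by omega) ν hν).2]; simp
        · rw [hc1, (B5 1 (by omega) ν hν).1, (B5 1 (by omega) ν hν).2]; simp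
        · rw [hc2, (B5 2 (by omega) ν hν).1, (B5 2 (by omega) ν hν).2]; simp
        · rw [hc3, (B5 3 (by omega) ν hν).1, (B5 3 (by omega) ν hν).2]; simp
        · rw [hcr, (F1 t).1, (F5 t ν hν).1]; simp)
    (by
      refine hext _ _ (fun t => ?_) ?_ ?_ ?_ ?_ (fun t => ?_)
      · rw [hcl, (A0 t).1, (A1 t).1]; simp
      · rw [hc0, B1.1, B1.2]; simp
      · rw [hc1, C0.1, C0.2]; simp
      · rw [hc2, D0.1, D0.2]; simp
      · rw [hc3, E1.1, E1.2]; simp
      · rw [hcr, (F0 t).1, (F0 t).2]; simp)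
  have hG : GC p ∅ ⊔ Submodule.span (ZMod p) {χ 0, χ 1} ⊔ (Submodule.span (ZMod p) {χ 2, χ 3} ⊔
      Submodule.span (ZMod p) (Set.range fun t : Fin m => χ (4 + t))) =
      GC p (fst s (m + (m + 4))) := by
    apply le_antisymm
    · refine sup_le (sup_le (GC.mono (Set.empty_subset _)) ?_) (sup_le ?_ ?_)
      · rw [Submodule.span_le]
        rintro f (rfl | rfl)
        · exact hmemT 0 (by omega)
        · exact hmemT 1 (by omega)
      · rw [Submodule.span_le]
        rintro f (rfl | rfl)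
        · exact hmemT 2 (by omega)
        · exact hmemT 3 (by omega)
      · rw [Submodule.span_le]
        rintro f ⟨t, rfl⟩
        exact hmemT (4 + t) (by omega)
    · refine (GC_span_X8 h0 h (m + 4) le_rfl).trans (sup_le (le_sup_left.trans le_sup_left) ?_)
      rw [Submodule.span_le]
      rintro f ⟨i, hi, rfl⟩
      have hi : i < m + 4 := hi
      by_cases h1 : i < 2
      · refine (le_sup_right.trans le_sup_left :
          Submodule.span (ZMod p) {χ 0, χ 1} ≤ _) (Submodule.subset_span ?_)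
        interval_cases i
        · exact Or.inl rfl
        · exact Or.inr rfl
      · by_cases h2 : i < 4
        · refine (le_sup_left.trans le_sup_right :
            Submodule.span (ZMod p) {χ 2, χ 3} ≤ _) (Submodule.subset_span ?_)
          have h1' : 2 ≤ i := by omega
          interval_cases i
          · exact Or.inl rfl
          · exact Or.inr rfl
        · refine (le_sup_right.trans le_sup_right :
            Submodule.span (ZMod p) (Set.range fun t : Fin m => χ (4 + t)) ≤ _)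
              (Submodule.subset_span ⟨⟨i - 4, by omega⟩, ?_⟩)
          show χ (4 + (i - 4)) = χ i
          rw [show 4 + (i - 4) = i by omega]
  rw [hG] at key
  exact CritC_idx_X8 e (fun f g k => rfl) key

open Classical in
theorem core_of_cfg {p : ℕ} [Fact p.Prime] (hp : p ≠ 2) {m : ℕ}
    (hm : (PP K p).relIndex (VS p ∅) = p ^ m)
    {νs : ℕ → (Pr K → Hm K p) →ₗ[ZMod p] ZMod p}
    (hsep : ∀ ν ∈ GC p ∅, (∀ t < m, νs t ν = 0) → ν = 0) {s : ℕ → Pr K}
    {χ : ℕ → Pr K → Hm K p} (h0 : T0K p s m) (h : CfgK p m νs s χ (m + 4)) :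
    CoreK p ((Finset.range (m + (m + 4))).image s) (χ 0 + χ 1) := by
  have hT : (((Finset.range (m + (m + 4))).image s : Finset (Pr K)) : Set (Pr K)) =
      fst s (m + (m + 4)) := by
    rw [Finset.coe_image, Finset.coe_range]
    rfl
  have hmemT : ∀ i < m + 4, χ i ∈ GC p (fst s (m + (m + 4))) := fun i hi =>
    GC.mono (fst_mono_X8 s (by omega)) (h.mem i hi)
  have hsm : ∀ a < m + (m + 4), nm (s a) % p = 1 := fun a ha => (h.pr a ha).2
  refine ⟨?_, ?_, ?_, ?_⟩
  · intro t ht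
    obtain ⟨a, ha, rfl⟩ := Finset.mem_image.1 ht
    exact h.pr a (Finset.mem_range.1 ha)
  · refine le_trans ?_ (T0_vt h0 hm)
    rw [hT]
    unfold VT
    refine inf_le_inf_left _ ?_
    refine le_iInf₂ fun v hv => iInf₂_le_of_le v (fst_mono_X8 s (by omega) hv) le_rfl
  · rw [hT]
    exact Submodule.add_mem _ (hmemT 0 (by omega)) (hmemT 1 (by omega))
  · unfold CritF
    rw [hT]
    exact crit_X8 hp hsep h0 h hT

end Pool.Agent.RGK
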