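import Mathlib
import Pool.Agent.Lib.RGK.X7Defs
import Pool.Agent.Lib.RGK.X2b
import Pool.Agent.Lib.RGK.X3
import Pool.Agent.Lib.RGK.X6b
import Pool.Agent.Lib.RGK.X7a
import Pool.Agent.Lib.RGK.X7
import Pool.Agent.Lib.RGK.X8
import Pool.Agent.Lib.RGK.DK4
import Pool.Agent.Lib.RGK.DK5

/-!
RG v4, row X9: the chain which leads to a core.

Let `p ^ m = (PP).relIndex (VS p ∅)` (`relIndex_pow`), `g := finrank (GC p ∅) ≤ m` (`reflection`). Choose
`νs : ℕ → (Pr K → Hm K p) →ₗ ZMod p` such that the `νs t`, `t < m`, separate `GC p ∅` (the coordinate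
functionals of a basis of the subspace `GC p ∅`, extended to the whole space by
`LinearMap.exists_extend`, and `0` for the other indices). Stages:
`St i S := ∃ s, T0K p s i ∧ ∀ a < i, s a ∈ S` for `i < m`, and
`St (m + j) S := ∃ s χ, T0K p s m ∧ CfgK p m νs s χ j ∧ ∀ a < m + j, s a ∈ S`
(e.g. `St i S := if i < m then .. else ..` with `j = i - m`; at `i = m`, `CfgK p m νs s χ 0` follows from
`T0K p s m`). `n := m + (m + 4)`,
`δ := ((p : ℝ) ^ (g + n))⁻¹ * ((p : ℝ) ^ n * p ^ m)⁻¹ * (1 - (p : ℝ)⁻¹)`.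
Steps: `T0_next`, `step_T0` with `T := fst s i`, `T0_step`; `cfg_step`, with `bound_GC`, `bound_VS`.
(`T0K p (update s (m + j) q) m` follows from `T0K p s m`: the first `m` values do not change.)
`hcore`: `core_of_cfg`, the image is contained in `S`.
-/

set_option autoImplicit false

namespace Pool.Agent.RGK

open NumberField IsDedekindDomain
open Pool.Agent.RG.H (Pr vl UU PP SU ev below nrm emb NS)

variable {K : Type} [Field K] [NumberField K]

private theorem x9_fst {s s' : ℕ → Pr K} {i : ℕ} (h : ∀ a < i, s a = s' a) : fst s i = fst s' i := by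
  unfold fst
  exact Set.image_congr fun a ha => h a ha

private theorem x9_T0 {p : ℕ} {s s' : ℕ → Pr K} {i : ℕ} (hs : ∀ a < i, s a = s' a)
    (h : T0K p s i) : T0K p s' i := by
  have e := x9_fst hs
  refine ⟨fun a ha b hb hab => h.inj a ha b hb ?_, fun a ha => ?_, fun a ha f hf => ?_, ?_, ?_⟩
  · rw [hs a ha, hs b hb]
    exact hab
  · rw [← hs a ha]
    exact h.pr a ha
  · rw [← hs a ha]
    exact h.split a ha f hf
  · rw [← e]
    exact h.gc
  · rw [← e]
    exact h.idx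

private theorem x9_cfg0 {p m : ℕ} (νs : ℕ → (Pr K → Hm K p) →ₗ[ZMod p] ZMod p) {s : ℕ → Pr K}
    (χ : ℕ → Pr K → Hm K p) (h : T0K p s m) : CfgK p m νs s χ 0 :=
  ⟨h.inj, h.pr, fun i hi => absurd hi (Nat.not_lt_zero i), fun i hi => absurd hi (Nat.not_lt_zero i),
    fun i hi => absurd hi (Nat.not_lt_zero i), fun i hi => absurd hi (Nat.not_lt_zero i)⟩

/-- functionals which separate the unramified characters -/
private theorem x9_sep {p : ℕ} [Fact p.Prime] {m : ℕ}
    (hm : Module.finrank (ZMod p) (GC (K := K) p ∅) ≤ m) :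
    ∃ νs : ℕ → (Pr K → Hm K p) →ₗ[ZMod p] ZMod p,
      ∀ ν ∈ GC p ∅, (∀ t < m, νs t ν = 0) → ν = 0 := by
  classical
  have hfin : Finite (GC (K := K) p ∅) := finite_GC Set.finite_empty
  have hfd : Module.Finite (ZMod p) (GC (K := K) p ∅) := inferInstance
  let b := Module.finBasis (ZMod p) (GC (K := K) p ∅)
  have hex : ∀ t : Fin (Module.finrank (ZMod p) (GC (K := K) p ∅)),
      ∃ φ : (Pr K → Hm K p) →ₗ[ZMod p] ZMod p, φ.comp (GC (K := K) p ∅).subtype = b.coord t :=
    fun t => LinearMap.exists_extend (b.coord t)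
  choose φ hφ using hex
  refine ⟨fun t => if h : t < Module.finrank (ZMod p) (GC (K := K) p ∅) then φ ⟨t, h⟩ else 0,
    fun ν hν h => ?_⟩
  have h1 : (⟨ν, hν⟩ : GC (K := K) p ∅) = 0 := by
    apply b.ext_elem
    intro t
    have h2 := h t (t.2.trans_le hm)
    beta_reduce at h2
    rw [dif_pos t.2] at h2
    have h3 := LinearMap.congr_fun (hφ t) ⟨ν, hν⟩
    rw [LinearMap.comp_apply, Submodule.subtype_apply, Module.Basis.coord_apply] at h3
    rw [map_zero, Finsupp.zero_apply, ← h3]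
    exact h2
  exact congrArg Subtype.val h1

open Classical in
theorem core_chain {p : ℕ} [Fact p.Prime] (hp : p ≠ 2) (hD : DensK K p) :
    ∃ (St : ℕ → Finset (Pr K) → Prop) (δ : ℝ) (n : ℕ), 0 < δ ∧
      (∀ S : Finset (Pr K), (∀ v ∈ S, nm v % p = 1) → St 0 S) ∧
      (∀ i < n, ∀ S : Finset (Pr K), (∀ v ∈ S, nm v % p = 1) → St i S →
        ∃ d : ℝ, δ ≤ d ∧ ∃ A ⊆ P1K (K := K) p, HasDK A (c0K K p * d) ∧
          ∀ q ∈ A, q ∉ S → St (i + 1) (insert q S)) ∧
      ∀ S : Finset (Pr K), (∀ v ∈ S, nm v % p = 1) → St n S → ∃ T ⊆ S, ∃ ν, CoreK p T ν := by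
  classical
  have hpp : p.Prime := Fact.out
  have hp1 : (1 : ℝ) < p := by exact_mod_cast hpp.one_lt
  have hp0 : (0 : ℝ) < p := by linarith
  obtain ⟨m, hm⟩ := relIndex_pow K p
  set g := Module.finrank (ZMod p) (GC (K := K) p ∅) with hg
  have hgm : g ≤ m := by
    have h1 := reflection (K := K) (p := p)
    rw [hm, ← hg] at h1
    exact (Nat.pow_le_pow_iff_right hpp.one_lt).1 h1
  obtain ⟨νs, hsep⟩ := x9_sep (K := K) hgm
  obtain ⟨v₀, _⟩ := RG.exists_above_prime K hpp
  set n := m + (m + 4) with hn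
  set δ : ℝ := ((p : ℝ) ^ (g + n))⁻¹ * ((p : ℝ) ^ n * (p : ℝ) ^ m)⁻¹ * (1 - (p : ℝ)⁻¹) with hδ
  have hinv : 0 < 1 - (p : ℝ)⁻¹ := by
    have : (p : ℝ)⁻¹ < 1 := inv_lt_one_of_one_lt₀ hp1
    linarith
  have hinv1 : 1 - (p : ℝ)⁻¹ ≤ 1 := by
    have : 0 < (p : ℝ)⁻¹ := inv_pos.2 hp0
    linarith
  have hδ0 : 0 < δ := by positivity
  refine ⟨fun i S => ∃ (s : ℕ → Pr K) (χ : ℕ → Pr K → Hm K p), T0K p s (min i m) ∧
    (m ≤ i → CfgK p m νs s χ (i - m)) ∧ ∀ a < i, s a ∈ S, δ, n, hδ0, ?_, ?_, ?_⟩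
  · intro S _
    refine ⟨fun _ => v₀, fun _ => 0, ?_, fun h => ?_, fun a ha => absurd ha (Nat.not_lt_zero a)⟩
    · rw [Nat.zero_min]
      exact T0_zero _
    · have h0 : m = 0 := Nat.le_zero.1 h
      subst h0
      exact x9_cfg0 νs _ (T0_zero _)
  · rintro i hi S hS ⟨s, χ, hT0, hcfg, hsS⟩
    by_cases him : i < m
    · rw [min_eq_left him.le] at hT0
      obtain ⟨x, hx, hxP⟩ := T0_next hT0 hm him
      obtain ⟨A, hA, hdA, hAq⟩ := step_T0 hD (T := fst s i) ((Set.finite_Iio i).image s) hxP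
      refine ⟨((p : ℝ) ^ g)⁻¹ * (1 - (p : ℝ)⁻¹), ?_, A, hA, hdA, ?_⟩
      · have h1 : ((p : ℝ) ^ (g + n))⁻¹ ≤ ((p : ℝ) ^ g)⁻¹ := by
          apply inv_anti₀ (by positivity)
          exact pow_le_pow_right₀ hp1.le (Nat.le_add_right _ _)
        have h2 : ((p : ℝ) ^ n * (p : ℝ) ^ m)⁻¹ ≤ 1 := by
          apply inv_le_one_of_one_le₀
          exact one_le_mul_of_one_le_of_one_le (one_le_pow₀ hp1.le) (one_le_pow₀ hp1.le)
        rw [hδ]
        refine mul_le_mul_of_nonneg_right ?_ hinv.le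
        calc ((p : ℝ) ^ (g + n))⁻¹ * ((p : ℝ) ^ n * (p : ℝ) ^ m)⁻¹
            ≤ ((p : ℝ) ^ g)⁻¹ * 1 := mul_le_mul h1 h2 (by positivity) (by positivity)
          _ = ((p : ℝ) ^ g)⁻¹ := mul_one _
      · intro q hq _
        obtain ⟨h1, h2, h3, h4⟩ := hAq q hq
        have hT0' := T0_step hT0 hx h1 h2 (hA hq) h3 h4
        refine ⟨Function.update s i q, χ, ?_, fun h => ?_, fun a ha => ?_⟩
        · rw [min_eq_left (Nat.succ_le_of_lt him)]
          exact hT0'
        · have h5 : i + 1 = m := le_antisymm (Nat.succ_le_of_lt him) h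
          rw [h5, Nat.sub_self]
          rw [h5] at hT0'
          exact x9_cfg0 νs _ hT0'
        · rcases Nat.lt_succ_iff_lt_or_eq.1 ha with h5 | h5
          · rw [Function.update_of_ne h5.ne]
            exact Finset.mem_insert_of_mem (hsS a h5)
          · rw [h5, Function.update_self]
            exact Finset.mem_insert_self _ _
    · push Not at him
      obtain ⟨j, rfl⟩ := Nat.exists_eq_add_of_le him
      rw [min_eq_right him] at hT0
      have hj : j < m + 4 := by omega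
      have hc := hcfg him
      rw [Nat.add_sub_cancel_left] at hc
      obtain ⟨d, hd, A, hA, hdA, hAq⟩ := cfg_step hD hc hj
      refine ⟨d, le_trans ?_ hd, A, hA, hdA, ?_⟩
      · have h1 := bound_GC (p := p) (s := s) (n := m + j) (fun a ha => (hc.pr a ha).2)
        rw [← hg] at h1
        have h2 := bound_VS (p := p) s (m + j)
        rw [hm] at h2
        have h3 : (PP K p).relIndex (VS p (fst s (m + j))) ≠ 0 :=
          finite_VS ((Set.finite_Iio (m + j)).image s)
        have h4 : (0 : ℝ) < (((PP K p).relIndex (VS p (fst s (m + j))) : ℕ) : ℝ) := by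
          exact_mod_cast Nat.pos_of_ne_zero h3
        have h5 : (((PP K p).relIndex (VS p (fst s (m + j))) : ℕ) : ℝ) ≤
            (p : ℝ) ^ n * (p : ℝ) ^ m := by
          have h6 : (((PP K p).relIndex (VS p (fst s (m + j))) : ℕ) : ℝ) ≤
              (p : ℝ) ^ (m + j) * (p : ℝ) ^ m := by exact_mod_cast h2
          refine h6.trans (mul_le_mul_of_nonneg_right ?_ (by positivity))
          exact pow_le_pow_right₀ hp1.le hi.le
        have h6 : ((p : ℝ) ^ (g + n))⁻¹ ≤
            ((p : ℝ) ^ Module.finrank (ZMod p) (GC p (fst s (m + j))))⁻¹ := by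
          apply inv_anti₀ (by positivity)
          exact pow_le_pow_right₀ hp1.le (h1.trans (Nat.add_le_add_left hi.le g))
        have h7 : ((p : ℝ) ^ n * (p : ℝ) ^ m)⁻¹ ≤
            (((PP K p).relIndex (VS p (fst s (m + j))) : ℕ) : ℝ)⁻¹ := inv_anti₀ h4 h5
        calc δ ≤ ((p : ℝ) ^ (g + n))⁻¹ * ((p : ℝ) ^ n * (p : ℝ) ^ m)⁻¹ * 1 :=
              mul_le_mul_of_nonneg_left hinv1 (by positivity)
          _ = ((p : ℝ) ^ (g + n))⁻¹ * ((p : ℝ) ^ n * (p : ℝ) ^ m)⁻¹ := mul_one _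
          _ ≤ _ := mul_le_mul h6 h7 (by positivity) (by positivity)
      · intro q hq _
        obtain ⟨χ', hχ'⟩ := hAq q hq
        refine ⟨Function.update s (m + j) q, Function.update χ j χ', ?_, fun h => ?_, fun a ha => ?_⟩
        · rw [min_eq_right (by omega)]
          refine x9_T0 (fun a ha => ?_) hT0
          rw [Function.update_of_ne (by omega)]
        · have h5 : m + j + 1 - m = j + 1 := by omega
          rw [h5]
          exact hχ'
        · rcases Nat.lt_succ_iff_lt_or_eq.1 ha with h5 | h5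
          · rw [Function.update_of_ne h5.ne]
            exact Finset.mem_insert_of_mem (hsS a h5)
          · rw [h5, Function.update_self]
            exact Finset.mem_insert_self _ _
  · rintro S hS ⟨s, χ, hT0, hcfg, hsS⟩
    have hmn : m ≤ n := by omega
    rw [min_eq_right hmn] at hT0
    have hc := hcfg hmn
    have h5 : n - m = m + 4 := by omega
    rw [h5] at hc
    refine ⟨_, ?_, _, core_of_cfg hp hm hsep hT0 hc⟩
    intro v hv
    obtain ⟨a, ha, rfl⟩ := Finset.mem_image.1 hv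
    exact hsS a (Finset.mem_range.1 ha)

end Pool.Agent.RGK
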