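import Mathlib
import Pool.Agent.Lib.RG.RDefs
import Pool.Agent.Lib.RG.G14
import Pool.Agent.Lib.RGK.C27
import Pool.Agent.Lib.RGK.GL1
import Pool.Agent.Lib.RGK.NK3
import Pool.Agent.Lib.RGK.X9
import Pool.Agent.Lib.RGK.DK3
import Pool.Agent.Lib.RGK.MK6

/-!
RG v4: rank gradient zero for almost all tame sets of primes of a number field without `p`-th roots of
unity.
-/

set_option autoImplicit false

namespace Pool.Agent.RGK

open NumberField IsDedekindDomain
open Pool.Agent.RG (GP rankGradient)
open Pool.Agent.RG.H (Pr)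

theorem almost_allK {K : Type} [Field K] [NumberField K] {p : ℕ} [Fact p.Prime] (hp : p ≠ 2)
    (hζ : ∀ z : K, ¬ IsPrimitiveRoot z p) (S : Finset (Pr K)) (hS : ∀ v ∈ S, nm v % p = 1) :
    Filter.Tendsto (fun k => iterProbK p
      (fun S => Infinite (GP p (S : Set (Pr K))) ∧ rankGradient (GP p (S : Set (Pr K))) = 0) k S)
      Filter.atTop (nhds 1) := by
  have hD : DensK K p := density_DS hζ fun T hT hT1 ξ hξ =>
    EX hp hT (fun v hv => not_above (hT1 v hv)) hξ
  obtain ⟨St, δ, n, hδ, h0, hstep, hcore⟩ := core_chain (K := K) hp hD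
  have hlim := crit_limitK hp hD hδ h0 hstep hcore S hS
  have hc := c0K_pos (K := K) (p := p)
  have h1 := hasDK_P1K hD
  refine tendsto_of_tendsto_of_tendsto_of_le_of_le hlim tendsto_const_nhds ?_ ?_
  · intro k
    exact iterProbK_mono p hc h1 (fun S' hS' hcr => critK_main hp hS' hcr) k S hS
  · intro k
    exact (iterProbK_bounds p hc h1 _ k S).2

end Pool.Agent.RGK
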