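import Mathlib
import Pool.Agent.Lib.RG.HMain
import Pool.Agent.Lib.RG.H04
import Pool.Agent.Lib.RG.H06
import Pool.Agent.Lib.RG.H07
import Pool.Agent.Lib.RG.H08
import Pool.Agent.Lib.RG.HIdx
import Pool.Agent.Lib.RGK.X2
import Pool.Agent.Lib.RGK.X3
import Pool.Agent.Lib.RGK.X3b
import Pool.Agent.Lib.RGK.C00
import Pool.Agent.Lib.RGK.C16
import Pool.Agent.Lib.RGK.C17
import Pool.Agent.Lib.RGK.C18
import Pool.Agent.Lib.RGK.C27
import Pool.Agent.Lib.RGK.GL1
import Pool.Agent.Lib.RGK.ODefs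
import Pool.Agent.Lib.RGK.B3
import Pool.Agent.Lib.RGK.B4
import Pool.Agent.Lib.RGK.B2
import Pool.Agent.Lib.RGK.C15

/-!
RG v5, row OE1.

`norm_kill`: the local components of a global character kill the norms. `v ∉ T`:
`f v = ξ v • vp p v`; if `ξ v ≠ 0` then `v` does not split in `L` (`θ` of a Frobenius is not `1`), and
`p ∣ vl v (N y)` (`H.vl_nrm_ns` in H06: `NS` as `[L : K] = p`; `θ` injective, so `[L : K] = p` or `1`; or
`norm_sum`-like formulas in C15). `v = t ∈ T`: choose `z : Lˣ` with `z / y ∈ UU w 1` for all `w` above `t`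
(better `UU w n`, `n` large, so that `N z / N y ∈ UU t 1`: the norm is the product of the conjugates,
`H.emb_nrm`; `H.e_one`/`exists_e`: `UU w n ∩ K ⊆ UU t 1` for `n` large) and `z ∈ UU w n` for `w` above the
other `t' ∈ T` (`H.weak_approx`, `H.fin_up`); then `0 = ∑ f v (N z) = f t (N z) + ∑ v ∉ T, ..`, where all
terms for `v ∉ T` vanish by the first part; `f t (N z) = f t (N y)`.

`hasse_omit`: let `θ` be an isomorphism of `Gal(C / K)` with `Multiplicative (ZMod p)`, `T` the (finite)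
set of the primes ramified in `C` (not above `p`), `ξ` the Frobenius values (`FV T θ ξ`, existence: C18 or
G06), `ξ ∈ RC p T` by `REC` (C17), `f ∈ GC p T` by `GC_of_RC` (X3b). For `v ≠ o`: `f v c = 0`
(`v` split: `ξ v = 0` if `v ∉ T`; a ramified `v` is non-split; `v` non-split not above `p`:
`c ∈ nrm ⊔ UU v 1`, `norm_kill`, and `f v` kills `UU v 1`; `v` above `p`: unramified, `p ∣ vl v c` or `ξ v = 0`).
So `f o c = 0` (`∑ᶠ v, f v c = 0`). `f o ≠ 0`: otherwise `f ∈ GC p (T \ {o})` (`GC.unram`); `RC_of_GC`, `EX`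
(C27) for `T \ {o}` give another field with a character unramified at `o` with the same Frobenius values
outside `T`; by `cheb` (C16) in a compositum (`exists_compositumK`) the two characters agree, so `θ` is
unramified at `o`, contradiction (see how `cycExt_of_VT` in GL1 or G06/G07 deal with such arguments).
The subgroup `N := (nrm K C).range ⊔ UU o 1` is contained in `ker (f o)` of index `p`, contains
`NP p o = PP ⊔ UU o 1` (`H.nrm_emb`, `ev p o = 0`) of index `p ^ 2` (`H.index_NP`) and an element of valuation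
`1` at `o` (the norm of a uniformizer at the totally ramified `w`; or `a ∉ VS` by Kummer theory), so
`N ≠ NP p o` and the index of `N` is `p`: `N = ker (f o)`, `c ∈ N`. Now `H.hasse_norm` (its hypotheses in
terms of valuations: `c = N b * u`, `u ∈ UU v 1`).
-/

set_option autoImplicit false

namespace Pool.Agent.RGK

open NumberField IsDedekindDomain
open Pool.Agent.RG (Above IsDec IsInert IsFrob)
open Pool.Agent.RG.H (Pr vl UU PP SU ev below nrm emb NS)

private theorem inert_mul_frob_OE1a {K L : Type} [Field K] [NumberField K] [Field L] [NumberField L]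
    [Algebra K L] {w : Pr L} {q : ℕ} {φ σ : L ≃ₐ[K] L} (hφ : IsFrob w q φ) (hσ : IsInert w σ) :
    IsFrob w q (σ * φ) := by
  refine ⟨fun x => by rw [mul_smul, hσ.1, hφ.1], fun x hx => ?_⟩
  have e : (σ * φ) • x - x ^ q = (σ • (φ • x) - φ • x) + (φ • x - x ^ q) := by
    rw [mul_smul]; ring
  rw [e]
  refine lt_of_le_of_lt (Valuation.map_add _ _ _) (max_lt ?_ ?_)
  · exact hσ.2 _ (by rw [hφ.1]; exact hx)
  · exact hφ.2 _ hx

/-- outside `T` -/
private theorem norm_kill_out_OE1a {K L : Type} [Field K] [NumberField K] [Field L] [NumberField L]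
    [Algebra K L] [IsGalois K L] {p : ℕ} [Fact p.Prime] {T : Set (Pr K)}
    {θ : (L ≃ₐ[K] L) →* Multiplicative (ZMod p)} (hθ : Function.Injective θ)
    {ξ : Pr K → ZMod p} (hξ : FV T θ ξ) {v : Pr K} (hv : v ∉ T)
    (y : Lˣ) : ξ v * ((vl v (nrm K L y) : ℤ) : ZMod p) = 0 := by
  have hp : p.Prime := Fact.out
  by_cases h0 : ξ v = 0
  · rw [h0, zero_mul]
  · obtain ⟨w, hw⟩ := RG.H.exists_above (L := L) v
    obtain ⟨φ, hφ⟩ := exists_frobK (K := K) w
    have hwT : (below w : Pr K) ∉ T := by rw [hw]; exact hv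
    have hθφ := hξ.frob w hwT φ hφ
    rw [hw] at hθφ
    have hφ1 : φ ≠ 1 := by
      intro h
      rw [h, map_one] at hθφ
      apply h0
      have := congrArg Multiplicative.toAdd hθφ
      rw [toAdd_one, toAdd_ofAdd] at this
      exact this.symm
    -- inertia is trivial
    have hin : ∀ σ : L ≃ₐ[K] L, IsInert w σ → σ = 1 := by
      intro σ hσ
      have h1 := hξ.frob w hwT (σ * φ) (inert_mul_frob_OE1a hφ hσ)
      rw [map_mul, hw, hθφ] at h1
      have h2 : θ σ = 1 := by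
        exact mul_eq_right.1 h1
      exact hθ (by rw [h2, map_one])
    -- the degree is p
    have hcard : Nat.card (L ≃ₐ[K] L) ∣ p := by
      have h1 := Subgroup.card_subgroup_dvd_card θ.range
      rw [Nat.card_congr (MonoidHom.ofInjective hθ).toEquiv]
      have h2 : Nat.card (Multiplicative (ZMod p)) = p := by
        rw [Nat.card_congr Multiplicative.toAdd, Nat.card_zmod]
      rw [h2] at h1
      exact h1
    have hL : Module.finrank K L = p := by
      rw [← IsGalois.card_aut_eq_finrank K L]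
      rcases (Nat.dvd_prime hp).1 hcard with h | h
      · exfalso
        have := (Nat.card_eq_one_iff_unique.1 h).1
        exact hφ1 (Subsingleton.elim _ _)
      · exact h
    have hns : NS L v := ⟨w, hw, fun σ => RG.H.dec_all hp hL w hφ1 hφ.1 σ⟩
    have hns' : NS L (below w : Pr K) := by rw [hw]; exact hns
    have h1 := RG.H.vl_nrm_ns hL hns' y
    rw [RG.H.e_one w hin, hw] at h1
    rw [h1, Int.cast_mul, Int.cast_natCast, ZMod.natCast_self, zero_mul, mul_zero]

theorem norm_kill {K L : Type} [Field K] [NumberField K] [Field L] [NumberField L] [Algebra K L]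
    [IsGalois K L] {p : ℕ} [Fact p.Prime] {T : Set (Pr K)} (hT : T.Finite) {f : Pr K → Hm K p}
    (hf : f ∈ GC p T) {θ : (L ≃ₐ[K] L) →* Multiplicative (ZMod p)} (hθ : Function.Injective θ)
    {ξ : Pr K → ZMod p} (hξ : FV T θ ξ) (hfξ : ∀ v ∉ T, f v = ξ v • vp p v) (v : Pr K)
    (y : Lˣ) : (f v).ev (nrm K L y) = 0 := by
  classical
  have hout : ∀ v ∉ T, ∀ y : Lˣ, (f v).ev (nrm K L y) = 0 := by
    intro v hv y
    rw [hfξ v hv]
    exact norm_kill_out_OE1a hθ hξ hv y
  by_cases hv : v ∈ T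
  · obtain ⟨S, hS⟩ := RG.H.fin_up (L := L) hT.toFinset
    obtain ⟨z, hz⟩ := RG.H.weak_approx S (fun w => if (below w : Pr K) = v then y else 1) 1
    have hzv : ∀ w : Pr L, (below w : Pr K) = v → z / y ∈ UU w 1 := by
      intro w hw
      have h1 := hz w ((hS w).2 (by rw [Set.Finite.mem_toFinset, hw]; exact hv))
      simp only [hw, if_true] at h1
      exact h1
    have hzt : ∀ w : Pr L, (below w : Pr K) ∈ T → (below w : Pr K) ≠ v → z ∈ UU w 1 := by
      intro w hw hne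
      have h1 := hz w ((hS w).2 (by rw [Set.Finite.mem_toFinset]; exact hw))
      simp only [hne, if_false, div_one] at h1
      exact h1
    have h1 : (f v).ev (nrm K L z) = (f v).ev (nrm K L y) := by
      have h2 : nrm K L (z / y) ∈ UU v 1 := norm_UU v _ hzv
      have h3 := hf.2.1 v hv _ h2
      rw [map_div] at h3
      unfold Hm.ev at h3 ⊢
      rw [ofMul_div, map_sub, sub_eq_zero] at h3
      exact h3
    have h2 : ∑ᶠ u, (f u).ev (nrm K L z) = (f v).ev (nrm K L z) := by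
      refine finsum_eq_single _ v fun u hu => ?_
      by_cases huT : u ∈ T
      · refine hf.2.1 u huT _ (norm_UU u _ fun w hw => hzt w ?_ ?_)
        · rw [hw]; exact huT
        · rw [hw]; exact hu
      · exact hout u huT z
    rw [← h1, ← h2]
    exact hf.2.2.2 _
  · exact hout v hv y

private theorem OE1b_ram {K C : Type} [Field K] [NumberField K] [Field C] [NumberField C]
    [Algebra K C] [IsGalois K C] {p : ℕ} (hp : p.Prime) (hC : Module.finrank K C = p) {w : Pr C}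
    (hwp : ¬ Above w p) {σ : C ≃ₐ[K] C} (hσ : IsInert w σ) (h1 : σ ≠ 1) :
    ∃ y : Cˣ, vl (below w : Pr K) (nrm K C y) = 1 := by
  have hns : NS C (below w : Pr K) := ⟨w, rfl, fun τ => (RG.H.inert_all hp hC w h1 hσ τ).1⟩
  obtain ⟨y, hy⟩ := RG.H.exists_unif w
  obtain ⟨e, he, hex⟩ := RG.H.exists_e (K := K) w
  have h2 := RG.H.vl_nrm_ns hC hns y
  rw [hex, hy, mul_one] at h2
  have h3 : e ∣ p := by
    have h4 : (e : ℤ) ∣ (p : ℤ) := Dvd.intro _ h2
    exact_mod_cast h4
  rcases (Nat.dvd_prime hp).1 h3 with h4 | h4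
  · exfalso
    obtain ⟨π, hπ⟩ := RG.H.exists_unif (below w : Pr K)
    have h5 : w.valuation C (algebraMap K C (π : K)) = WithZero.exp (-1 : ℤ) := by
      have h6 : vl w (emb K C π) = 1 := by rw [hex, h4, hπ]; norm_num
      exact RG.H.vl_eq_iff.1 h6
    have h7 : algebraMap K C (π : K) ≠ 0 := (emb K C π).ne_zero
    have h8 : B3aux.U1 w (σ (algebraMap K C (π : K)) / algebraMap K C (π : K)) := by
      rw [AlgEquiv.commutes, div_self h7]
      exact B3aux.U1.one
    refine h1 (B3aux.wild_order_p (B3aux.val_p hwp)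
      (fun x hx => B3aux.wild_of_unif h5 hσ h8 hx) ?_)
    have hfin : FiniteDimensional K C := Module.Finite.of_restrictScalars_finite ℚ K C
    have h9 := B3aux.pow_card (k := 1) (by rw [hC, pow_one]) σ
    rwa [pow_one] at h9
  · refine ⟨y, ?_⟩
    rw [h4] at h2
    have hp0 : (p : ℤ) ≠ 0 := by exact_mod_cast hp.ne_zero
    exact mul_left_cancel₀ hp0 (h2.trans (mul_one _).symm)

private theorem OE1b_ne {K C : Type} [Field K] [NumberField K] [Field C] [NumberField C]
    [Algebra K C] [IsGalois K C] {p : ℕ} [Fact p.Prime] (hp : p ≠ 2) {T : Set (Pr K)}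
    (hTf : T.Finite) (hT : ∀ v ∈ T, ¬ Above v p) {θ : (C ≃ₐ[K] C) →* Multiplicative (ZMod p)}
    (hθ : Function.Injective θ) {ξ : Pr K → ZMod p} (hξ : FV T θ ξ) {f : Pr K → Hm K p}
    (hf : f ∈ GC p T) (hfξ : ∀ v ∉ T, f v = ξ v • vp p v) {o : Pr K}
    (hor : ∃ w : Pr C, (below w : Pr K) = o ∧ ∃ σ : C ≃ₐ[K] C, IsInert w σ ∧ σ ≠ 1) :
    f o ≠ 0 := by
  classical
  intro h0
  have hk : Kills (f o) o 0 := fun x _ => by rw [h0]; rfl
  obtain ⟨η, hη, hfη⟩ := RC_of_GC (GC.unram hf hk)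
  obtain ⟨L, iL1, iL2, iL3, iL4, ψ, hinj, hunr, hfv⟩ :=
    EX hp (hTf.subset Set.diff_subset) (fun v hv => hT v hv.1) hη
  obtain ⟨R, iR1, iR2, iR3, iR4, i₁, i₂, r₁, r₂, hr₁, hr₂, -, -, -⟩ := exists_compositumK K C L
  have heq : θ.comp r₁ = ψ.comp r₂ := by
    by_contra hne
    have hne' : θ.comp r₁ / ψ.comp r₂ ≠ 1 := fun h => hne (div_eq_one.1 h)
    obtain ⟨w, hw1, -, g, hg1, hg2⟩ := cheb (θ.comp r₁ / ψ.comp r₂) hne' hTf
    apply hg2
    obtain ⟨w₁, hw₁⟩ := RG.exists_below (i₁ : C →+* R) w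
    obtain ⟨w₂, hw₂⟩ := RG.exists_below (i₂ : L →+* R) w
    have hb1 := LiesA.below_eq (K := K) (j := i₁) hw₁
    have hb2 := LiesA.below_eq (K := K) (j := i₂) hw₂
    have h1 := hξ.frob w₁ (by rw [← hb1]; exact hw1) (r₁ g)
      (IsFrob.restrictK (j := i₁) hw₁ (hr₁ g) (by rw [← hb1]; exact hg1))
    have h2 := hfv.frob w₂ (by rw [← hb2]; exact fun h => hw1 h.1) (r₂ g)
      (IsFrob.restrictK (j := i₂) hw₂ (hr₂ g) (by rw [← hb2]; exact hg1))
    have h3 : ξ (below w) = η (below w) := by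
      have h4 := hfξ _ hw1
      rw [hfη _ (fun h => hw1 h.1)] at h4
      have h5 := congrArg (fun F : Hm K p => F.ev (piv (below w : Pr K))) h4
      have h6 : η (below w) * ((vl (below w : Pr K) (piv (below w : Pr K)) : ℤ) : ZMod p) =
          ξ (below w) * ((vl (below w : Pr K) (piv (below w : Pr K)) : ℤ) : ZMod p) := h5
      rw [vl_piv, Int.cast_one, mul_one, mul_one] at h6
      exact h6.symm
    show θ (r₁ g) / ψ (r₂ g) = 1
    rw [h1, h2, ← hb1, ← hb2, h3, div_self']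
  obtain ⟨w₁, hw₁, σ, hσ1, hσ2⟩ := hor
  obtain ⟨w, hw⟩ := RG.exists_above (i₁ : C →+* R) w₁
  obtain ⟨g, hg1, hg2⟩ := exists_inert_liftK (j := i₁) hw hσ1
  have hr : r₁ g = σ := AlgEquiv.ext fun x => i₁.toRingHom.injective (by
    change i₁ (r₁ g x) = i₁ (σ x)
    rw [← hr₁, hg1])
  obtain ⟨w₂, hw₂⟩ := RG.exists_below (i₂ : L →+* R) w
  have hb1 := LiesA.below_eq (K := K) (j := i₁) hw
  have hb2 := LiesA.below_eq (K := K) (j := i₂) hw₂
  have h1 := hunr w₂ (by rw [← hb2, hb1, hw₁]; exact fun h => h.2 rfl) (r₂ g)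
    (IsInert.restrictK (j := i₂) hw₂ (hr₂ g) hg2)
  apply hσ2
  apply hθ
  rw [map_one, ← hr]
  have h3 : θ (r₁ g) = ψ (r₂ g) := DFunLike.congr_fun heq g
  exact h3.trans h1

/-- the kernel of a nonzero homomorphism to `ZMod p` -/
private theorem OE1b_ker {K : Type} [Field K] {p : ℕ} [Fact p.Prime] {f : Hm K p} (hf : f ≠ 0) :
    ∃ M : Subgroup Kˣ, M.index = p ∧ ∀ x, x ∈ M ↔ f.ev x = 0 := by
  let F : Kˣ →* Multiplicative (ZMod p) :=
    { toFun := fun x => Multiplicative.ofAdd (f (Additive.ofMul x))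
      map_one' := by rw [ofMul_one, map_zero, ofAdd_zero]
      map_mul' := fun x y => by rw [ofMul_mul, map_add, ofAdd_add] }
  have hF : ∀ x, F x = Multiplicative.ofAdd (f.ev x) := fun _ => rfl
  refine ⟨F.ker, ?_, fun x => ?_⟩
  · have hcardZ : Nat.card (Multiplicative (ZMod p)) = p := by
      rw [Nat.card_eq_fintype_card, Fintype.card_multiplicative, ZMod.card]
    rw [Subgroup.index_ker]
    have h1 := Subgroup.card_subgroup_dvd_card F.range
    rw [hcardZ] at h1
    rcases (Nat.dvd_prime Fact.out).1 h1 with h2 | h2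
    · exfalso
      apply hf
      have h3 : F.range = ⊥ := Subgroup.card_eq_one.1 h2
      refine AddMonoidHom.ext fun x => ?_
      have h4 : F x.toMul ∈ F.range := ⟨_, rfl⟩
      rw [h3, Subgroup.mem_bot] at h4
      exact Multiplicative.ofAdd.injective h4
    · exact h2
  · rw [MonoidHom.mem_ker, hF]
    constructor
    · intro h
      exact Multiplicative.ofAdd.injective h
    · intro h
      rw [h, ofAdd_zero]

private theorem OE1b_NP {K : Type} [Field K] [NumberField K] {p : ℕ} {v : Pr K} {x : Kˣ}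
    (hx : x ∈ RG.H.NP p v) : (p : ℤ) ∣ vl v x := by
  unfold RG.H.NP at hx
  obtain ⟨a, ha, u, hu, rfl⟩ := Subgroup.mem_sup.1 hx
  obtain ⟨b, rfl⟩ := RG.H.mem_PP.1 ha
  rw [RG.H.vl_mul, RG.H.vl_pow, hu.1, add_zero]
  exact dvd_mul_right _ _

theorem hasse_omit {K C : Type} [Field K] [NumberField K] [Field C] [NumberField C] [Algebra K C]
    [IsGalois K C] {p : ℕ} [Fact p.Prime] (hp : p ≠ 2) (hC : Module.finrank K C = p) {ζ : K}
    (hζ : IsPrimitiveRoot ζ p)
    (hunr : ∀ w : Pr C, Above w p → ∀ σ : C ≃ₐ[K] C, IsInert w σ → σ = 1) {o : Pr K}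
    (ho : ¬ Above o p)
    (hor : ∃ w : Pr C, (below w : Pr K) = o ∧ ∃ σ : C ≃ₐ[K] C, IsInert w σ ∧ σ ≠ 1) {c : Kˣ}
    (h1 : ∀ v : Pr K, v ≠ o → ¬ Above v p → NS C v → c ∈ (nrm K C).range ⊔ UU v 1)
    (h2 : ∀ v : Pr K, Above v p → NS C v → (p : ℤ) ∣ vl v c) : c ∈ (nrm K C).range := by
  classical
  have hpp : p.Prime := Fact.out
  have H : RG.H.Hyp K C p := ⟨hpp, hp, hC, ⟨ζ, hζ⟩, hunr⟩
  have hcard : Nat.card (C ≃ₐ[K] C) = p := by rw [IsGalois.card_aut_eq_finrank, hC]
  have hcardZ : Nat.card (Multiplicative (ZMod p)) = p := by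
    rw [Nat.card_eq_fintype_card, Fintype.card_multiplicative, ZMod.card]
  obtain ⟨θ, hθ⟩ : ∃ θ : (C ≃ₐ[K] C) →* Multiplicative (ZMod p), Function.Injective θ :=
    ⟨(mulEquivOfPrimeCardEq hcard hcardZ).toMonoidHom, (mulEquivOfPrimeCardEq hcard hcardZ).injective⟩
  obtain ⟨T, hTd⟩ : ∃ T : Set (Pr K), T = RamS C := ⟨_, rfl⟩
  have hTf : T.Finite := by
    refine ((RG.H.fin_ram (K := K) (L := C)).image (fun w => (below w : Pr K))).subset ?_
    rw [hTd]
    rintro v ⟨w, hw, σ, h1, h2⟩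
    exact ⟨w, ⟨σ, h2, h1⟩, hw⟩
  have hTp : ∀ v ∈ T, ¬ Above v p := by
    rw [hTd]
    rintro v ⟨w, hw, σ, h1, h2⟩ h3
    subst hw
    exact h2 (hunr w ((RG.H.above_iff w p).2 h3) σ h1)
  have hu : UnrCh T θ := by
    intro w hw σ hσ
    by_contra h
    rw [hTd] at hw
    exact hw ⟨w, rfl, σ, hσ, fun h2 => h (by rw [h2, map_one])⟩
  obtain ⟨φ, hφ⟩ := exists_phi (K := K) C
  obtain ⟨ξ, hξ⟩ : ∃ ξ, FV T θ ξ := ⟨_, hφ p T θ hu⟩
  have hξR := REC hp hTp θ hu hξ
  obtain ⟨f, hf, hfξ⟩ := GC_of_RC hTf hξR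
  have hoT : o ∈ T := by rw [hTd]; exact hor
  have hkill : ∀ (v : Pr K) (x : Kˣ), x ∈ (nrm K C).range ⊔ UU v 1 → (f v).ev x = 0 := by
    intro v x hx
    obtain ⟨a, ⟨y, rfl⟩, u, hu1, rfl⟩ := Subgroup.mem_sup.1 hx
    have h3 : (f v).ev (nrm K C y * u) = (f v).ev (nrm K C y) + (f v).ev u :=
      map_add (f v) (Additive.ofMul (nrm K C y)) (Additive.ofMul u)
    rw [h3, norm_kill hTf hf hθ hξ hfξ v y, zero_add]
    by_cases hv : v ∈ T
    · exact hf.2.1 v hv u hu1
    · exact hf.1 v hv u (RG.H.UU_mono v (Nat.zero_le 1) hu1)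
  have hloc : ∀ v, v ≠ o → (f v).ev c = 0 := by
    intro v hvo
    by_cases hvT : v ∈ T
    · refine hkill v c (h1 v hvo (hTp v hvT) ?_)
      rw [hTd] at hvT
      obtain ⟨w, hw, σ, hσ, hσ1⟩ := hvT
      exact ⟨w, hw, fun τ => (RG.H.inert_all hpp hC w hσ1 hσ τ).1⟩
    · have hev : (f v).ev c = ξ v * ((vl v c : ℤ) : ZMod p) := by
        rw [hfξ v hvT]
        rfl
      by_cases hns : NS C v
      · by_cases hvp : Above v p
        · rw [hev, (ZMod.intCast_zmod_eq_zero_iff_dvd _ _).2 (h2 v hvp hns), mul_zero]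
        · exact hkill v c (h1 v hvo hvp hns)
      · obtain ⟨w, hw⟩ := RG.H.exists_above (K := K) (L := C) v
        obtain ⟨σ, hσ⟩ := exists_frobK (K := K) w
        have h3 := hξ.frob w (by rw [hw]; exact hvT) σ hσ
        rw [RG.H.split_dec hpp hC w (by rw [hw]; exact hns) σ hσ.1, map_one, hw] at h3
        have h4 : ξ v = 0 := (Multiplicative.ofAdd.injective h3).symm
        rw [hev, h4, zero_mul]
  have hfo : (f o).ev c = 0 := by
    have h3 := hf.2.2.2 c
    rwa [finsum_eq_single _ o (fun v hv => hloc v hv)] at h3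
  have hne := OE1b_ne hp hTf hTp hθ hξ hf hfξ hor
  obtain ⟨M, hM1, hM2⟩ := OE1b_ker hne
  have hNM : (nrm K C).range ⊔ UU o 1 ≤ M := fun x hx => (hM2 x).2 (hkill o x hx)
  have hNPN : RG.H.NP p o ≤ (nrm K C).range ⊔ UU o 1 := by
    have h3 := RG.H.NP_le_Nv H o
    unfold RG.H.Nv at h3
    rwa [if_neg ho] at h3
  have hNPi : (RG.H.NP p o).index = p ^ 2 := by
    rw [RG.H.index_NP hpp hζ o, (RG.H.ev_eq_zero_iff hpp.ne_zero o).2 ho, pow_zero, mul_one]
  have e1 := Subgroup.relIndex_mul_index hNPN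
  have e2 := Subgroup.relIndex_mul_index hNM
  rw [hM1] at e2
  rw [hNPi, ← e2, ← mul_assoc, pow_two] at e1
  have e3 := Nat.eq_of_mul_eq_mul_right hpp.pos e1
  have hcN : c ∈ (nrm K C).range ⊔ UU o 1 := by
    rcases (Nat.dvd_prime hpp).1 (Dvd.intro_left _ e3) with h3 | h3
    · exact Subgroup.relIndex_eq_one.1 h3 ((hM2 c).2 hfo)
    · exfalso
      rw [h3] at e3
      have h4 : (RG.H.NP p o).relIndex ((nrm K C).range ⊔ UU o 1) = 1 :=
        Nat.eq_of_mul_eq_mul_right hpp.pos (e3.trans (one_mul p).symm)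
      obtain ⟨w, hw, σ, hσ, hσ1⟩ := hor
      subst hw
      obtain ⟨y, hy⟩ := OE1b_ram hpp hC (mt (RG.H.above_iff w p).1 ho) hσ hσ1
      have h8 : nrm K C y ∈ (nrm K C).range ⊔ UU (below w : Pr K) 1 :=
        Subgroup.mem_sup_left ⟨y, rfl⟩
      have h5 := OE1b_NP (Subgroup.relIndex_eq_one.1 h4 h8)
      rw [hy] at h5
      have h6 : (p : ℤ) ≤ 1 := Int.le_of_dvd one_pos h5
      have h7 := hpp.two_le
      omega
  have h1' : ∀ v : Pr K, ¬ Above v p → NS C v → c ∈ (nrm K C).range ⊔ UU v 1 := by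
    intro v hvp hns
    by_cases hvo : v = o
    · rw [hvo]
      exact hcN
    · exact h1 v hvo hvp hns
  obtain ⟨b, hb⟩ := RG.hasse_norm p hp K C hC ζ hζ hunr (c : K) c.ne_zero
    (fun w hwp hdec => by
      obtain ⟨a, ⟨y, rfl⟩, u, hu1, hcu⟩ := Subgroup.mem_sup.1
        (h1' (below w) (mt (RG.H.above_iff w p).2 hwp) ⟨w, rfl, hdec⟩)
      refine ⟨(y : C), y.ne_zero, ?_⟩
      obtain ⟨e, he, hev⟩ := RG.H.exists_e_val (K := K) w
      have h3 : Algebra.norm K (y : C) / (c : K) = ((u⁻¹ : Kˣ) : K) := by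
        have h4 : (c : K) = Algebra.norm K (y : C) * (u : K) := by
          rw [← hcu]
          rfl
        have h5 : (u : K) ≠ 0 := u.ne_zero
        have h6 : Algebra.norm K (y : C) ≠ 0 := (nrm K C y).ne_zero
        rw [h4, Units.val_inv_eq_inv_val]
        field_simp
      rw [h3, ← map_one (algebraMap K C), ← map_sub, hev]
      have h6 := (Subgroup.inv_mem _ hu1 : u⁻¹ ∈ UU (below w : Pr K) 1).2
      have h7 : (below w : Pr K).valuation K (((u⁻¹ : Kˣ) : K) - 1) < 1 := by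
        refine lt_of_le_of_lt h6 ?_
        rw [← WithZero.exp_zero, WithZero.exp_lt_exp]
        norm_num
      exact pow_lt_one₀ zero_le h7 (by omega))
    (fun w hwp hdec => by
      obtain ⟨k, hk⟩ := h2 (below w) ((RG.H.above_iff w p).1 hwp) ⟨w, rfl, hdec⟩
      obtain ⟨ϖ, hϖ⟩ := RG.H.exists_unif (below w : Pr K)
      obtain ⟨e, he, hev⟩ := RG.H.exists_e_val (K := K) w
      refine ⟨((ϖ ^ k : Kˣ) : K), ?_⟩
      rw [hev, hev, ← pow_mul, mul_comm e p, pow_mul]
      congr 1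
      rw [RG.H.val_eq, RG.H.val_eq, RG.H.vl_zpow, hϖ, hk, ← WithZero.exp_nsmul]
      congr 1
      rw [nsmul_eq_mul]
      ring)
  have hb0 : b ≠ 0 := by
    rintro rfl
    rw [Algebra.norm_zero] at hb
    exact c.ne_zero hb.symm
  exact ⟨Units.mk0 b hb0, Units.ext hb⟩

end Pool.Agent.RGK
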