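import Mathlib
import Pool.Agent.Lib.RG.H19
import Pool.Agent.Lib.RG.H20
import Pool.Agent.Lib.RG.H21
import Pool.Agent.Lib.RGK.X2
import Pool.Agent.Lib.RGK.X3
import Pool.Agent.Lib.RGK.X3b
import Pool.Agent.Lib.RGK.C00
import Pool.Agent.Lib.RGK.C18
import Pool.Agent.Lib.RGK.C27
import Pool.Agent.Lib.RGK.GL1
import Pool.Agent.Lib.RGK.ODefs
import Pool.Agent.Lib.RGK.OE1

/-!
RG v5, row OR1: Kummer generators of global characters (`ζ ∈ K`).

`mem_PP_of_local`: `H.exists_nonpower` (H21; `PU p v = PP K p ⊔ UU v 1`).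

`exists_lam`, `exists_kum`: For `v` not above `p` let `lam v : ZMod p` be nonzero with the following
property: for `u ∈ UU v 0` (unit at `v`) and `k` with `u / gv p v ^ k ∈ PU p v` (`unit_mem`, X2;
`nm v % p = 1` by `nm_mod`, C00, as `ζ ∈ K`), `u ^ ((nm v - 1) / p) ≡ ζ ^ m` modulo `v` where `(k : ZMod p) = lam v * m`
(`gv ^ ((nm v - 1) / p) ≡ ζ ^ e`, `e ≢ 0`; `lam v := 1 / e`).
Let `f ∈ GC p T`, `ξ ∈ RC p T` with `f v = ξ v • vp p v` outside `T` (`RC_of_GC`), `L`, `θ` from `EX` (C27),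
`θ` injective. If `f = 0` take `a = 1`. Otherwise `[L : K] = p`; let `α : L`, `α ^ p = a ∈ Kˣ`, `a ∉ PP`
(`H.exists_rad`); replacing `a` by a power prime to `p` we may assume `σ α = ζ ^ θ(σ) α` (`θ(σ)` as an
element of `ZMod p`). (1) `a ∈ VS p T`: `H.dvd_of_unram` (H20) at the primes outside `T` (unramified: `UnrCh`
and injectivity). (2) `(f v).ev a = 0` for all `v`: `a` is the norm of `α` (`p` odd: the product of the
`ζ ^ i α` is `α ^ p`), `norm_kill` (OE1). (3) For `v ∉ T` not above `p`, let `w` be above `v`, `σ` a Frobenius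
at `w`: `ζ ^ (ξ v) = σ α / α ≡ α ^ (nm v - 1) = a ^ ((nm v - 1) / p)` modulo `w` if `vl v a = 0`; in
general `p ∣ vl v a`: multiply `a` by a `p`-th power of an element of `K` (and `α` by this element) to get
`vl v a = 0` (this does not change `σ α / α`, nor the class modulo `PU p v`). So
`a / gv ^ k ∈ PU p v` implies `(k : ZMod p) = lam v * ξ v`.
-/

set_option autoImplicit false

namespace Pool.Agent.RGK

open NumberField IsDedekindDomain
open Pool.Agent.RG (Above IsDec IsInert IsFrob)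
open Pool.Agent.RG.H (Pr vl UU PP SU ev below nrm emb NS)
open Pool.Agent.RG.H.H11Aux (A mem_A red red_eq_one_iff red_surjective)

variable {K : Type} [Field K] [NumberField K]

theorem mem_PP_of_local {p : ℕ} [Fact p.Prime] (hp : p ≠ 2) {ζ : K} (hζ : IsPrimitiveRoot ζ p)
    {F : Set (Pr K)} (hF : F.Finite) {x : Kˣ} (hx : ∀ v ∉ F, x ∈ PU p v) : x ∈ PP K p := by
  by_contra hcon
  obtain ⟨w, hw, -, -, h2⟩ := RG.H.exists_nonpower (Fact.out : p.Prime) hp hζ hcon hF.toFinset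
  exact h2 (hx w (fun h => hw (hF.mem_toFinset.2 h)))

private theorem or1_root {C : Type} [CommGroup C] [IsCyclic C] [Finite C] {j p : ℕ}
    (hp : 0 < p) (h : j * p ∣ Nat.card C) (c : C) (hc : c ^ p = 1) : ∃ u : C, u ^ j = c := by
  obtain ⟨g, hg⟩ := IsCyclic.exists_monoid_generator (α := C)
  obtain ⟨a, ha⟩ := hg c
  have ha' : g ^ a = c := ha
  have hord : orderOf g = Nat.card C := by
    refine orderOf_eq_card_of_forall_mem_zpowers (fun x => ?_)
    obtain ⟨b, hb⟩ := hg x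
    have hb' : g ^ b = x := hb
    rw [← hb']
    exact Subgroup.npow_mem_zpowers g b
  have h1 : orderOf g ∣ a * p := by
    rw [orderOf_dvd_iff_pow_eq_one, pow_mul, ha', hc]
  rw [hord] at h1
  obtain ⟨b, hb⟩ := Nat.dvd_of_mul_dvd_mul_right hp (h.trans h1)
  refine ⟨g ^ b, ?_⟩
  rw [← pow_mul, mul_comm b j, ← hb, ha']

private theorem or1_max (v : Pr K) : (v.asIdeal ^ 1).IsMaximal := by
  rw [pow_one]
  exact v.isMaximal

private theorem or1_card (v : Pr K) : Nat.card (𝓞 K ⧸ v.asIdeal ^ 1)ˣ = nm v - 1 ∧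
    IsCyclic (𝓞 K ⧸ v.asIdeal ^ 1)ˣ ∧ Finite (𝓞 K ⧸ v.asIdeal ^ 1)ˣ := by
  have hmax := or1_max v
  let _ : Field (𝓞 K ⧸ v.asIdeal ^ 1) := Ideal.Quotient.field _
  have hfin : Finite (𝓞 K ⧸ v.asIdeal ^ 1) := RG.H.H11Aux.finite_quot v 1
  refine ⟨?_, inferInstance, inferInstance⟩
  have h1 : nm v = Nat.card (𝓞 K ⧸ v.asIdeal ^ 1) := by
    unfold nm
    rw [pow_one]
    rfl
  rw [h1]
  exact Nat.card_units _

/-- Fermat -/
private theorem or1_fermat {v : Pr K} {x : Kˣ} (hx : vl v x = 0) : x ^ (nm v - 1) ∈ UU v 1 := by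
  obtain ⟨h1, h2, h3⟩ := or1_card v
  have h4 : red v 1 (⟨x, mem_A hx⟩ ^ (nm v - 1)) = 1 := by
    rw [map_pow, ← h1, pow_card_eq_one']
  have h5 := (red_eq_one_iff v 1 _).1 h4
  rw [SubmonoidClass.coe_pow] at h5
  exact h5

/-- `(nm v - 1) / p` -/
private theorem or1_div {p : ℕ} (v : Pr K) (hv : nm v % p = 1) :
    p * ((nm v - 1) / p) = nm v - 1 := by
  refine Nat.mul_div_cancel' ?_
  refine (Nat.modEq_iff_dvd' (one_lt_nm v).le).1 ?_
  unfold Nat.ModEq
  rw [hv]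
  rcases Nat.lt_or_ge 1 p with h | h
  · exact Nat.mod_eq_of_lt h
  · exfalso
    interval_cases p
    · rw [Nat.mod_zero] at hv
      have := one_lt_nm v
      omega
    · omega

private theorem or1_pos {p : ℕ} (v : Pr K) (hv : nm v % p = 1) : 0 < (nm v - 1) / p := by
  rcases Nat.eq_zero_or_pos ((nm v - 1) / p) with h | h
  · have h1 := or1_div v hv
    rw [h, mul_zero] at h1
    have := one_lt_nm v
    omega
  · exact h

/-- Lemma A -/
private theorem or1_A {p : ℕ} {v : Pr K} (hv : nm v % p = 1) {x : Kˣ} (hx : vl v x = 0)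
    (h : x ^ ((nm v - 1) / p) ∈ UU v 1) : x ∈ PU p v := by
  obtain ⟨h1, h2, h3⟩ := or1_card v
  have h4 : (red v 1 ⟨x, mem_A hx⟩) ^ ((nm v - 1) / p) = 1 := by
    rw [← map_pow, red_eq_one_iff, SubmonoidClass.coe_pow]
    exact h
  obtain ⟨u, hu⟩ := or1_root (or1_pos v hv) (by rw [h1, or1_div v hv]) _ h4
  obtain ⟨⟨y, hy⟩, rfl⟩ := red_surjective v le_rfl u
  have h5 : red v 1 (⟨x, mem_A hx⟩ / ⟨y, hy⟩ ^ p) = 1 := by
    rw [map_div, map_pow, hu, div_self']
  have h6 : x / y ^ p ∈ UU v 1 := by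
    have h6 := (red_eq_one_iff v 1 _).1 h5
    rw [Subgroup.coe_div, SubmonoidClass.coe_pow] at h6
    exact h6
  have h7 : x = y ^ p * (x / y ^ p) := by rw [mul_div_cancel]
  rw [h7]
  exact (PU p v).mul_mem ((le_sup_left : PP K p ≤ PU p v) (RG.H.mem_PP.2 ⟨y, rfl⟩))
    ((le_sup_right : UU v 1 ≤ PU p v) h6)

/-- Lemma C -/
private theorem or1_C {p : ℕ} [Fact p.Prime] {v : Pr K} (hv : nm v % p = 1) {x : Kˣ}
    (hx : vl v x = 0) (h : x ∈ PU p v) : x ^ ((nm v - 1) / p) ∈ UU v 1 := by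
  have hp : p.Prime := Fact.out
  obtain ⟨a, ha, b, hb, rfl⟩ := Subgroup.mem_sup.1 h
  obtain ⟨y, rfl⟩ := RG.H.mem_PP.1 ha
  rw [mul_pow]
  refine (UU v 1).mul_mem ?_ ((UU v 1).pow_mem hb _)
  rw [← pow_mul, or1_div v hv]
  refine or1_fermat ?_
  rw [RG.H.vl_mul, hb.1, add_zero, RG.H.vl_pow] at hx
  rcases mul_eq_zero.1 hx with h1 | h1
  · exact absurd (by exact_mod_cast h1) hp.ne_zero
  · exact h1

/-- the unit of `K` -/
private theorem or1_zu {p : ℕ} (hp : p.Prime) {ζ : K} (hζ : IsPrimitiveRoot ζ p) :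
    ∃ z : Kˣ, (z : K) = ζ ∧ z ^ p = 1 ∧ (∀ v : Pr K, vl v z = 0) ∧
      (∀ v : Pr K, ¬ Above v p → z ∉ UU v 1) := by
  have hz0 : ζ ≠ 0 := hζ.ne_zero hp.ne_zero
  have hzp : (Units.mk0 ζ hz0) ^ p = 1 := by
    ext
    rw [Units.val_pow_eq_pow_val, Units.val_mk0, hζ.pow_eq_one, Units.val_one]
  have hvl : ∀ v : Pr K, vl v (Units.mk0 ζ hz0) = 0 := by
    intro v
    have h1 := RG.H.vl_pow v (Units.mk0 ζ hz0) p
    rw [hzp, RG.H.vl_one] at h1
    rcases mul_eq_zero.1 h1.symm with h2 | h2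
    · exact absurd (by exact_mod_cast h2) hp.ne_zero
    · exact h2
  refine ⟨Units.mk0 ζ hz0, rfl, hzp, hvl, fun v hv hmem => hv ?_⟩
  -- all powers are congruent to `1`, so `p = ∑ (1 - ζ ^ i)`
  have hlt : ∀ i : ℕ, v.valuation K (1 - ζ ^ i) < 1 := by
    intro i
    have h1 : Units.mk0 ζ hz0 ^ i ∈ UU v 1 := (UU v 1).pow_mem hmem i
    have h2 := h1.2
    rw [Units.val_pow_eq_pow_val, Units.val_mk0, Valuation.map_sub_swap] at h2
    refine lt_of_le_of_lt h2 ?_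
    rw [← WithZero.exp_zero, WithZero.exp_lt_exp]
    norm_num
  have hsum : (p : K) = ∑ i ∈ Finset.range p, (1 - ζ ^ i) := by
    rw [Finset.sum_sub_distrib, hζ.geom_sum_eq_zero hp.one_lt, sub_zero, Finset.sum_const,
      Finset.card_range, nsmul_eq_mul, mul_one]
  show v.valuation K (p : K) < 1
  rw [hsum]
  exact Valuation.map_sum_lt _ one_ne_zero fun i _ => hlt i

/-- Lemma B -/
private theorem or1_B {p : ℕ} [Fact p.Prime] {z : Kˣ} (hzp : z ^ p = 1)
    (hz : ∀ v : Pr K, vl v z = 0) {v : Pr K} (hz1 : z ∉ UU v 1) (hv : nm v % p = 1) {x : Kˣ}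
    (hx : vl v x = 0) : ∃ e : ℕ, x ^ ((nm v - 1) / p) / z ^ e ∈ UU v 1 := by
  have hp : p.Prime := Fact.out
  have hmax := or1_max v
  let _ : Field (𝓞 K ⧸ v.asIdeal ^ 1) := Ideal.Quotient.field _
  obtain ⟨h1, h2, h3⟩ := or1_card v
  set r := red v 1 ⟨x, mem_A hx⟩ with hr
  set s := red v 1 ⟨z, mem_A (hz v)⟩ with hs
  have hs1 : s ≠ 1 := by
    intro h
    exact hz1 ((red_eq_one_iff v 1 _).1 h)
  have hsp : s ^ p = 1 := by
    rw [hs, ← map_pow, red_eq_one_iff, SubmonoidClass.coe_pow]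
    show z ^ p ∈ UU v 1
    rw [hzp]
    exact (UU v 1).one_mem
  have hprim : IsPrimitiveRoot s p := by
    have := IsPrimitiveRoot.orderOf s
    rwa [orderOf_eq_prime hsp hs1] at this
  have hprim' : IsPrimitiveRoot (s : 𝓞 K ⧸ v.asIdeal ^ 1) p := IsPrimitiveRoot.coe_units_iff.2 hprim
  have hrp : ((r ^ ((nm v - 1) / p) : (𝓞 K ⧸ v.asIdeal ^ 1)ˣ) : 𝓞 K ⧸ v.asIdeal ^ 1) ^ p = 1 := by
    rw [← Units.val_pow_eq_pow_val, ← pow_mul, mul_comm, or1_div v hv, ← h1, pow_card_eq_one',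
      Units.val_one]
  have : NeZero p := ⟨hp.ne_zero⟩
  obtain ⟨e, -, he⟩ := hprim'.eq_pow_of_pow_eq_one hrp
  refine ⟨e, ?_⟩
  have h5 : red v 1 (⟨x, mem_A hx⟩ ^ ((nm v - 1) / p) / ⟨z, mem_A (hz v)⟩ ^ e) = 1 := by
    rw [map_div, map_pow, map_pow, ← hr, ← hs, div_eq_one]
    apply Units.ext
    rw [← he, Units.val_pow_eq_pow_val]
  have h6 := (red_eq_one_iff v 1 _).1 h5
  rw [Subgroup.coe_div, SubmonoidClass.coe_pow, SubmonoidClass.coe_pow] at h6
  exact h6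

/-- injectivity of the exponents -/
private theorem or1_inj {p : ℕ} [Fact p.Prime] {z : Kˣ} (hzp : z ^ p = 1) {v : Pr K}
    (hz1 : z ∉ UU v 1) {a b : ℕ} (h : z ^ a / z ^ b ∈ UU v 1) : (a : ZMod p) = b := by
  have hp : p.Prime := Fact.out
  by_contra hne
  -- `c * (a - b) = 1`
  have h0 : ((a : ZMod p) - b) ≠ 0 := sub_ne_zero.2 hne
  set c : ZMod p := ((a : ZMod p) - b)⁻¹ with hc
  have h1 : ((c.val : ℤ) * ((a : ℤ) - b) - 1 : ℤ) = (((c.val : ℤ) * ((a : ℤ) - b) - 1) / p) * p := by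
    refine (Int.ediv_mul_cancel ?_).symm
    rw [← ZMod.intCast_zmod_eq_zero_iff_dvd]
    push_cast
    rw [ZMod.natCast_zmod_val, hc, inv_mul_cancel₀ h0, sub_self]
  have h2 : (z ^ a / z ^ b) ^ c.val = z := by
    have e1 : (z ^ a / z ^ b) ^ c.val = z ^ ((c.val : ℤ) * ((a : ℤ) - b)) := by
      rw [mul_comm, zpow_mul, zpow_sub, zpow_natCast, zpow_natCast, zpow_natCast, div_eq_mul_inv]
    rw [e1]
    have e2 : ((c.val : ℤ) * ((a : ℤ) - b) : ℤ) = (((c.val : ℤ) * ((a : ℤ) - b) - 1) / p) * p + 1 := by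
      linarith
    rw [e2, zpow_add, zpow_one, mul_comm _ (p : ℤ), zpow_mul, zpow_natCast, hzp, one_zpow, one_mul]
  apply hz1
  rw [← h2]
  exact (UU v 1).pow_mem h _

/-- powers of a root of unity -/
private theorem or1_powmod {M : Type} [Monoid M] {p : ℕ} {x : M} (hx : x ^ p = 1) {m n : ℕ}
    (h : (m : ZMod p) = n) : x ^ m = x ^ n := by
  have h1 : m ≡ n [MOD p] := (ZMod.natCast_eq_natCast_iff _ _ _).1 h
  rw [pow_eq_pow_mod m hx, pow_eq_pow_mod n hx, h1]

/-- the Kummer generator adapted to `θ` -/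
private theorem or1_gen {p : ℕ} [Fact p.Prime] {z : Kˣ} (hz : IsPrimitiveRoot (z : K) p)
    (L : Type) [Field L] [NumberField L] [Algebra K L] [IsGalois K L]
    (hL : Module.finrank K L = p) {θ : (L ≃ₐ[K] L) →* Multiplicative (ZMod p)}
    (hθ : Function.Injective θ) :
    ∃ (a : Kˣ) (α : Lˣ), (α : L) ^ p = algebraMap K L a ∧ ∀ σ : L ≃ₐ[K] L,
      σ (α : L) = algebraMap K L (z : K) ^ (Multiplicative.toAdd (θ σ)).val * α := by
  classical
  have hp : p.Prime := Fact.out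
  have : NeZero p := ⟨hp.ne_zero⟩
  have hcard : Nat.card (L ≃ₐ[K] L) = p := by
    rw [IsGalois.card_aut_eq_finrank, hL]
  have hbij : Function.Bijective θ := by
    have hfin : Finite (Multiplicative (ZMod p)) := inferInstance
    refine Function.Injective.bijective_of_nat_card_le hθ ?_
    rw [hcard, Nat.card_congr (Multiplicative.toAdd (α := ZMod p)), Nat.card_zmod]
  obtain ⟨a₀, ha₀, ⟨α₀, hα₀⟩, -⟩ := RG.H.exists_rad hp hz L hL
  have hα0 : α₀ ≠ 0 := by
    rintro rfl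
    rw [zero_pow hp.ne_zero] at hα₀
    exact a₀.ne_zero ((map_eq_zero (algebraMap K L)).1 hα₀.symm)
  obtain ⟨σ₀, hσ₀⟩ := hbij.2 (Multiplicative.ofAdd 1)
  have hgen : ∀ σ : L ≃ₐ[K] L, σ = σ₀ ^ (Multiplicative.toAdd (θ σ)).val := by
    intro σ
    apply hθ
    rw [map_pow, hσ₀, ← ofAdd_nsmul, nsmul_eq_mul, mul_one, ZMod.natCast_zmod_val, ofAdd_toAdd]
  have hzL : IsPrimitiveRoot (algebraMap K L (z : K)) p :=
    hz.map_of_injective (algebraMap K L).injective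
  have hzp : algebraMap K L (z : K) ^ p = 1 := hzL.pow_eq_one
  have hη : (σ₀ α₀ / α₀) ^ p = 1 := by
    rw [div_pow, ← map_pow, hα₀, AlgEquiv.commutes, div_self]
    rw [← hα₀]
    exact pow_ne_zero _ hα0
  obtain ⟨i, -, hi⟩ := hzL.eq_pow_of_pow_eq_one hη
  have hi' : σ₀ α₀ = algebraMap K L (z : K) ^ i * α₀ := by
    rw [hi, div_mul_cancel₀ _ hα0]
  have hi0 : (i : ZMod p) ≠ 0 := by
    intro h
    have h1 : σ₀ α₀ = α₀ := by
      rw [hi', or1_powmod hzp (n := 0) (by rw [h, Nat.cast_zero]), pow_zero, one_mul]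
    have hfix : ∀ τ : L ≃ₐ[K] L, τ α₀ = α₀ := by
      intro τ
      rw [hgen τ]
      have hst : σ₀ ∈ MulAction.stabilizer (L ≃ₐ[K] L) α₀ := h1
      exact (MulAction.stabilizer (L ≃ₐ[K] L) α₀).pow_mem hst _
    obtain ⟨y, hy⟩ : α₀ ∈ Set.range (algebraMap K L) :=
      (IsGalois.mem_range_algebraMap_iff_fixed (F := K) (E := L) α₀).2 hfix
    apply ha₀
    rw [RG.H.mem_PP]
    have hy0 : y ≠ 0 := by
      rintro rfl
      rw [map_zero] at hy
      exact hα0 hy.symm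
    refine ⟨Units.mk0 y hy0, ?_⟩
    ext
    apply (algebraMap K L).injective
    rw [← hα₀, ← hy]
    simp
  set c : ℕ := ((i : ZMod p)⁻¹).val with hc
  have hic : ((i * c : ℕ) : ZMod p) = (1 : ℕ) := by
    rw [Nat.cast_mul, hc, ZMod.natCast_zmod_val, mul_inv_cancel₀ hi0, Nat.cast_one]
  refine ⟨a₀ ^ c, Units.mk0 α₀ hα0 ^ c, ?_, fun σ => ?_⟩
  · rw [Units.val_pow_eq_pow_val, Units.val_mk0, ← pow_mul, mul_comm, pow_mul, hα₀,
      Units.val_pow_eq_pow_val, map_pow]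
  · have h1 : σ₀ (α₀ ^ c) = algebraMap K L (z : K) * α₀ ^ c := by
      rw [map_pow, hi', mul_pow, ← pow_mul, or1_powmod hzp hic, pow_one]
    have h2 : ∀ n : ℕ, (σ₀ ^ n) (α₀ ^ c) = algebraMap K L (z : K) ^ n * α₀ ^ c := by
      intro n
      induction n with
      | zero => rw [pow_zero, pow_zero, one_mul]; rfl
      | succ n ih =>
        rw [pow_succ', AlgEquiv.mul_apply, ih, map_mul, map_pow, AlgEquiv.commutes, h1, pow_succ]
        ring
    rw [Units.val_pow_eq_pow_val, Units.val_mk0]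
    have h3 := h2 (Multiplicative.toAdd (θ σ)).val
    rw [← hgen σ] at h3
    exact h3

/-- the norm of the Kummer generator -/
private theorem or1_nrm {p : ℕ} [Fact p.Prime] (hp2 : p ≠ 2) {z : Kˣ}
    (hz : IsPrimitiveRoot (z : K) p)
    {L : Type} [Field L] [NumberField L] [Algebra K L] [IsGalois K L]
    (hL : Module.finrank K L = p) {θ : (L ≃ₐ[K] L) →* Multiplicative (ZMod p)}
    {a : Kˣ} {α : Lˣ} (hα : (α : L) ^ p = algebraMap K L a)
    (h : ∀ σ : L ≃ₐ[K] L,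
      σ (α : L) = algebraMap K L (z : K) ^ (Multiplicative.toAdd (θ σ)).val * α) :
    nrm K L α = a := by
  classical
  have hp : p.Prime := Fact.out
  have : NeZero p := ⟨hp.ne_zero⟩
  have hcard : Nat.card (L ≃ₐ[K] L) = p := by
    rw [IsGalois.card_aut_eq_finrank, hL]
  have hzL : IsPrimitiveRoot (algebraMap K L (z : K)) p :=
    hz.map_of_injective (algebraMap K L).injective
  have hzp : algebraMap K L (z : K) ^ p = 1 := hzL.pow_eq_one
  set y : L := algebraMap K L (z : K) with hy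
  set P : L := ∏ σ : L ≃ₐ[K] L, y ^ (Multiplicative.toAdd (θ σ)).val with hP
  have h1 : P ^ p = 1 := by
    rw [hP, ← Finset.prod_pow]
    refine Finset.prod_eq_one fun σ _ => ?_
    rw [← pow_mul, mul_comm, pow_mul, hzp, one_pow]
  have h2 : P * P = 1 := by
    have e : P = ∏ σ : L ≃ₐ[K] L, y ^ (Multiplicative.toAdd (θ σ⁻¹)).val := by
      rw [hP]
      exact (Equiv.prod_comp (Equiv.inv (L ≃ₐ[K] L))
        (fun σ => y ^ (Multiplicative.toAdd (θ σ)).val)).symm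
    refine (congrArg₂ (· * ·) e hP).trans ?_
    rw [← Finset.prod_mul_distrib]
    refine Finset.prod_eq_one fun σ _ => ?_
    rw [← pow_add, or1_powmod hzp (n := 0), pow_zero]
    rw [Nat.cast_add, ZMod.natCast_zmod_val, ZMod.natCast_zmod_val, map_inv, toAdd_inv,
      neg_add_cancel, Nat.cast_zero]
  have h3 : P = 1 := by
    obtain ⟨k, hk⟩ := hp.odd_of_ne_two hp2
    rw [hk, pow_succ, pow_mul, pow_two, h2, one_pow, one_mul] at h1
    exact h1
  ext
  apply (algebraMap K L).injective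
  have h4 := RG.H.emb_nrm (K := K) α
  rw [RG.H.emb_val] at h4
  rw [h4, Finset.prod_congr rfl (fun σ _ => h σ), Finset.prod_mul_distrib, ← hP, h3, one_mul,
    Finset.prod_const, Finset.card_univ, ← Nat.card_eq_fintype_card, hcard, hα]

/-- `a` is a Kummer generator of the field belonging to the global character `f` -/
def IsKum {p : ℕ} (lam : Pr K → ZMod p) (T : Set (Pr K)) (f : Pr K → Hm K p) (a : Kˣ) : Prop :=
  a ∈ VS p T ∧ (∀ v, (f v).ev a = 0) ∧
    ∀ v ∉ T, ¬ Above v p → ∀ k : ℕ, a / gv p v ^ k ∈ PU p v →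
      (k : ZMod p) = lam v * (f v).ev (piv v)

/-- the Kummer symbol at `v` -/
private theorem or1_sym {p : ℕ} [Fact p.Prime] {z : Kˣ}
    {L : Type} [Field L] [NumberField L] [Algebra K L] [IsGalois K L]
    {θ : (L ≃ₐ[K] L) →* Multiplicative (ZMod p)}
    {a : Kˣ} {α : Lˣ} (hα : (α : L) ^ p = algebraMap K L a)
    (h : ∀ σ : L ≃ₐ[K] L,
      σ (α : L) = algebraMap K L (z : K) ^ (Multiplicative.toAdd (θ σ)).val * α)
    {v : Pr K} (hv : nm v % p = 1) (hzv : vl v z = 0) (hav : (p : ℤ) ∣ vl v a) {w : Pr L}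
    (hw : (below w : Pr K) = v) {σ : L ≃ₐ[K] L} (hσ : IsFrob w (nm v) σ) :
    ∃ c : Kˣ, vl v (a * c ^ p) = 0 ∧
      (a * c ^ p) ^ ((nm v - 1) / p) / z ^ (Multiplicative.toAdd (θ σ)).val ∈ UU v 1 := by
  have hp : p.Prime := Fact.out
  obtain ⟨n, hn⟩ := hav
  set c : Kˣ := (piv v ^ n)⁻¹ with hc
  have hpz : vl v (piv v ^ n) = n := by
    have hz1 : ∀ m : ℕ, vl v (piv v ^ m) = m := fun m => by
      rw [RG.H.vl_pow, vl_piv, mul_one]
    rcases Int.eq_nat_or_neg n with ⟨m, rfl | rfl⟩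
    · rw [zpow_natCast, hz1]
    · rw [zpow_neg, zpow_natCast, RG.H.vl_inv, hz1]
  have hvc : vl v (a * c ^ p) = 0 := by
    rw [RG.H.vl_mul, RG.H.vl_pow, hc, RG.H.vl_inv, hpz, hn]
    ring
  refine ⟨c, hvc, ?_⟩
  set b : Kˣ := a * c ^ p with hb
  set m : ℕ := (Multiplicative.toAdd (θ σ)).val with hm
  set N : ℕ := (nm v - 1) / p with hN
  have hNp : N * p + 1 = nm v := by
    have h1 := or1_div v hv
    have h2 := one_lt_nm v
    rw [mul_comm, ← hN] at h1
    omega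
  set β : L := (α : L) * algebraMap K L (c : K) with hβ
  have hβp : β ^ p = algebraMap K L (b : K) := by
    rw [hβ, hb, mul_pow, hα, Units.val_mul, Units.val_pow_eq_pow_val, map_mul, map_pow]
  obtain ⟨e, he, hev⟩ := RG.H.exists_e_val (K := K) w
  rw [hw] at hev
  have hwβ : w.valuation L β = 1 := by
    have h1 : (w.valuation L β) ^ p = 1 := by
      rw [← map_pow, hβp, hev, RG.H.vl_eq_zero.1 hvc, one_pow]
    exact (pow_eq_one_iff_of_nonneg zero_le hp.pos.ne').1 h1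
  have hσβ : σ β = algebraMap K L (z : K) ^ m * β := by
    rw [hβ, map_mul, h σ, AlgEquiv.commutes, ← hm]
    ring
  have h1 := hσ.2 β hwβ.le
  rw [show σ • β = σ β from rfl, hσβ, ← hNp, pow_succ, mul_comm N p, pow_mul, hβp] at h1
  have h2 : algebraMap K L (z : K) ^ m * β - algebraMap K L (b : K) ^ N * β =
      algebraMap K L ((z : K) ^ m - (b : K) ^ N) * β := by
    rw [map_sub, map_pow, map_pow]
    ring
  rw [h2, map_mul, hwβ, mul_one, hev] at h1
  have h3 : v.valuation K ((z : K) ^ m - (b : K) ^ N) < 1 := by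
    by_contra hcon
    push Not at hcon
    exact absurd h1 (not_lt.2 (one_le_pow₀ hcon))
  have hzm : vl v (z ^ m) = 0 := by rw [RG.H.vl_pow, hzv, mul_zero]
  refine ⟨?_, ?_⟩
  · rw [RG.H.vl_div, RG.H.vl_pow, hvc, hzm, mul_zero, sub_zero]
  · have h4 : (((b ^ N / z ^ m : Kˣ) : K) - 1) = ((b : K) ^ N - (z : K) ^ m) * ((z ^ m)⁻¹ : Kˣ) := by
      rw [Units.val_div_eq_div_val, Units.val_inv_eq_inv_val, Units.val_pow_eq_pow_val,
        Units.val_pow_eq_pow_val, sub_mul, mul_inv_cancel₀ (pow_ne_zero _ z.ne_zero),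
        div_eq_mul_inv]
    have h5 : vl v ((z ^ m)⁻¹ : Kˣ) = 0 := by rw [RG.H.vl_inv, hzm, neg_zero]
    rw [h4, map_mul, RG.H.vl_eq_zero.1 h5, mul_one, Valuation.map_sub_swap]
    have h6 : ∀ x : WithZero (Multiplicative ℤ), x < 1 → x ≤ WithZero.exp (-((1 : ℕ) : ℤ)) := by
      intro x hx
      rcases eq_or_ne x 0 with h0 | h0
      · rw [h0]
        exact zero_le
      · rw [← WithZero.exp_log h0] at hx ⊢
        rw [← WithZero.exp_zero, WithZero.exp_lt_exp] at hx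
        rw [WithZero.exp_le_exp]
        push_cast
        omega
    exact h6 _ h3

theorem exists_kum {p : ℕ} [Fact p.Prime] (hp : p ≠ 2) {ζ : K} (hζ : IsPrimitiveRoot ζ p) :
    ∃ lam : Pr K → ZMod p, (∀ v, ¬ Above v p → lam v ≠ 0) ∧
      ∀ T : Set (Pr K), T.Finite → (∀ v ∈ T, nm v % p = 1) → ∀ f ∈ GC p T,
        ∃ a : Kˣ, IsKum lam T f a := by
  classical
  have hpp : p.Prime := Fact.out
  have : NeZero p := ⟨hpp.ne_zero⟩
  obtain ⟨z, hzζ, hzp, hzv, hz1⟩ := or1_zu hpp hζ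
  subst hzζ
  have hE : ∀ v : Pr K, ∃ e : ℕ, ¬ Above v p →
      gv p v ^ ((nm v - 1) / p) / z ^ e ∈ UU v 1 := by
    intro v
    by_cases hv : Above v p
    · exact ⟨0, fun h => absurd hv h⟩
    · have hv1 := nm_mod hpp hζ hv
      obtain ⟨e, he⟩ := or1_B hzp hzv (hz1 v hv) hv1 (gv_spec hv1).1
      exact ⟨e, fun _ => he⟩
  choose E hE using hE
  have hE0 : ∀ v, ¬ Above v p → (E v : ZMod p) ≠ 0 := by
    intro v hv h0
    have hv1 := nm_mod hpp hζ hv
    have h1 := hE v hv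
    rw [or1_powmod hzp (n := 0) (by rw [h0, Nat.cast_zero]), pow_zero, div_one] at h1
    exact (gv_spec hv1).2 (or1_A hv1 (gv_spec hv1).1 h1)
  -- the main formula
  have hmain : ∀ v, ¬ Above v p → ∀ b : Kˣ, vl v b = 0 → ∀ k m : ℕ, b / gv p v ^ k ∈ PU p v →
      b ^ ((nm v - 1) / p) / z ^ m ∈ UU v 1 → (k : ZMod p) = (E v : ZMod p)⁻¹ * m := by
    intro v hv b hb k m hk hm
    have hv1 := nm_mod hpp hζ hv
    have h1 := or1_C hv1 (by
      rw [RG.H.vl_div, RG.H.vl_pow, (gv_spec hv1).1, hb, mul_zero, sub_zero]) hk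
    rw [div_pow, ← pow_mul, mul_comm, pow_mul] at h1
    have h2 := (UU v 1).pow_mem (hE v hv) k
    rw [div_pow, ← pow_mul z] at h2
    have h3 : z ^ (E v * k) / z ^ m ∈ UU v 1 := by
      have e : z ^ (E v * k) / z ^ m = (b ^ ((nm v - 1) / p) / z ^ m) /
          (b ^ ((nm v - 1) / p) / (gv p v ^ ((nm v - 1) / p)) ^ k) /
          ((gv p v ^ ((nm v - 1) / p)) ^ k / z ^ (E v * k)) := by
        rw [div_div_div_cancel_left, div_div_div_cancel_left]
      rw [e]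
      exact (UU v 1).div_mem ((UU v 1).div_mem hm h1) h2
    have h4 := or1_inj hzp (hz1 v hv) h3
    rw [← h4, Nat.cast_mul, ← mul_assoc, inv_mul_cancel₀ (hE0 v hv), one_mul]
  refine ⟨fun v => (E v : ZMod p)⁻¹, fun v hv => inv_ne_zero (hE0 v hv), ?_⟩
  intro T hT hT1 f hf
  obtain ⟨ξ, hξ, hfξ⟩ := RC_of_GC hf
  have hfp : ∀ v ∉ T, (f v).ev (piv v) = ξ v := by
    intro v hv
    rw [hfξ v hv]
    show ξ v * ((vl v (piv v) : ℤ) : ZMod p) = ξ v
    rw [vl_piv, Int.cast_one, mul_one]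
  obtain ⟨L, _, _, _, _, θ, hθ, hu, hFV⟩ := EX hp hT (fun v hv => not_above (hT1 v hv)) hξ
  by_cases htriv : ∀ σ : L ≃ₐ[K] L, σ = 1
  · -- the trivial extension
    have hξ0 : ∀ v ∉ T, ξ v = 0 := by
      intro v hv
      obtain ⟨w, hw⟩ := RG.H.exists_above (L := L) v
      obtain ⟨g, hg⟩ := exists_frobK (K := K) w
      have h1 := hFV.frob w (by rw [hw]; exact hv) g hg
      rw [htriv g, map_one, hw] at h1
      exact (Multiplicative.ofAdd.injective h1).symm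
    refine ⟨1, (VS p T).one_mem, fun v => ?_, fun v hv hvp k hk => ?_⟩
    · exact (f v).map_zero
    · rw [hfp v hv, hξ0 v hv, mul_zero]
      have h1 := hmain v hvp 1 (RG.H.vl_one v) k 0 hk (by
        rw [one_pow, pow_zero, div_one]
        exact (UU v 1).one_mem)
      rw [h1, Nat.cast_zero, mul_zero]
  · have hL : Module.finrank K L = p := by
      have h1 : Nat.card (L ≃ₐ[K] L) ∣ p := by
        have h2 := Subgroup.card_dvd_of_injective θ hθ
        rwa [Nat.card_congr (Multiplicative.toAdd (α := ZMod p)), Nat.card_zmod] at h2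
      rw [← IsGalois.card_aut_eq_finrank]
      rcases (Nat.dvd_prime hpp).1 h1 with h2 | h2
      · exfalso
        apply htriv
        intro σ
        have := (Nat.card_eq_one_iff_unique.1 h2).1
        exact Subsingleton.elim _ _
      · exact h2
    obtain ⟨a, α, hα, hσα⟩ := or1_gen hζ L hL hθ
    have haVS : a ∈ VS p T := by
      intro v hv
      obtain ⟨w, hw⟩ := RG.H.exists_above (L := L) v
      have h1 := RG.H.dvd_of_unram (K := K) hpp hL hα (w := w) (fun σ hσ => hθ (by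
        rw [map_one]
        exact hu w (by rw [hw]; exact hv) σ hσ))
      rwa [hw] at h1
    refine ⟨a, haVS, fun v => ?_, fun v hv hvp k hk => ?_⟩
    · have h1 := norm_kill hT hf hθ hFV hfξ v α
      rwa [or1_nrm hp hζ hL hα hσα] at h1
    · have hv1 := nm_mod hpp hζ hvp
      obtain ⟨w, hw⟩ := RG.H.exists_above (L := L) v
      obtain ⟨g, hg⟩ := exists_frobK (K := K) w
      have h1 := hFV.frob w (by rw [hw]; exact hv) g hg
      rw [hw] at hg h1
      obtain ⟨c, hc0, hc1⟩ := or1_sym hα hσα hv1 (hzv v) (haVS v hv) hw hg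
      have h2 : a * c ^ p / gv p v ^ k ∈ PU p v := by
        rw [mul_div_right_comm]
        exact (PU p v).mul_mem hk ((le_sup_left : PP K p ≤ PU p v) (RG.H.mem_PP.2 ⟨c, rfl⟩))
      have h3 := hmain v hvp _ hc0 k _ h2 hc1
      rw [ZMod.natCast_zmod_val, h1, toAdd_ofAdd] at h3
      rw [hfp v hv, h3]

end Pool.Agent.RGK
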