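import Mathlib
import Pool.Agent.Lib.RGK.X1
import Pool.Agent.Lib.RGK.X2
import Pool.Agent.Lib.RGK.X2b
import Pool.Agent.Lib.RGK.X3
import Pool.Agent.Lib.RGK.X4
import Pool.Agent.Lib.RGK.X4b
import Pool.Agent.Lib.RGK.GL1
import Pool.Agent.Lib.RGK.ODefs
import Pool.Agent.Lib.RGK.OR1

/-!
RG v5, row OR2: reciprocity of cup products (`ζ ∈ K`).

`kum_add`: if `a`, `b`, `c` are Kummer generators of `f`, `g`, `f + g` then `c / (a * b) ∈ PP K p`:
at every `v` outside `T` and not above `p`, `a ≡ gv ^ k`, `b ≡ gv ^ l`, `c ≡ gv ^ m` modulo `PU p v`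
(`unit_mem`, as `a, b, c ∈ VS p T`), `m = k + l` in `ZMod p`, `gv ^ p ∈ PU`; so `c / (a b) ∈ PU p v`;
`mem_PP_of_local`. `kum_zero`: if the Kummer generator of `f` is in `PP K p` then `f = 0`: at `v` as above
`k = 0`, so `f v = 0` (`GC.off`); `GC.ext_off` for the finite set `T ∪ {v | Above v p}`
(`GC.mono`; finite: `H.fin_above`).

`exists_unr`: for every `t` not above `p` there is a finite set `T'` of tame primes, `t ∉ T'`, and
`g ∈ GC p T'` with `(g t).ev (piv t) ≠ 0`: choose `T''` finite, tame, `t ∉ T''`, `VT p T'' ≤ PP`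
(successively by `H.exists_nonpower`, `finite_VS`), then choose `q ∉ T'' ∪ {t}` tame with
`gv p t ∉ PU p q` ... and an element of the required kind; e.g.: let `x : Kˣ` be a unit at all primes of
`T''`, in `PU p s` for `s ∈ T''`, `vl t x = 1` (`H.weak_approx`), `F` the finite set of the other primes
with `vl v x ≠ 0`; for `q` tame outside everything with `x ∉ PU p q` (`x ∉ PP`; `exists_nonpower`) take
`f ∈ GC p (insert q (T'' ∪ F))` ramified at `q`?? Simpler: the Kummer extension of a suitable `b`: if all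
`g ∈ GC p T'`, for all `T' ∌ t`, vanish at `t`, then by `exists_bad` (X4b) applied to
`T' ⊇ T''` ... Choose your own proof. (One proof: the function `v ↦ 0` for `v ≠ t`... by duality
`exists_bad`: for every finite tame `T' ∌ t` there is `x` with `x ∈ PU p s` for `s ∈ T'`,
`p ∣ vl v x` for `v ∉ T' ∪ {t}` and `p ∤ vl t x`. Modulo `PP` these `x` lie in the finite group
`VS p {t} / PP` (`x ∈ VS p {t}`, since `PU p s ⊆ {p ∣ vl s}`), so one of them works for arbitrarily large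
`T'`, i.e. there is `x ∈ VS p {t}`, `p ∤ vl t x`, `x ∈ PU p s` for all tame `s ≠ t`; `mem_PP_of_local`:
`x ∈ PP`, contradiction.)

`reciprocity`: let `lam` be from `exists_kum`, `T`, `f`, `g` given, `a` the Kummer generator of `f`.
Claim: `(g t).ev a = - lam t * cupF p t f g` for all `t ∈ T`. Then
`0 = ∑ᶠ v, (g v).ev a = ∑ t ∈ T, (g t).ev a` (outside `T`: `p ∣ vl v a`, `GC.off`).
Proof of the claim for `t ∈ T`: modulo `PU p t`, `a ≡ gv ^ A * piv ^ B` (`A B : ℕ`), so for every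
homomorphism `h` which kills `UU t 1`: `h a = A * h (gv) + B * h (piv)` (`ev_PU`). Want
`A = lam t * f t (piv)`, `B = - lam t * f t (gv)` in `ZMod p`. If `f t` is unramified (`f t (gv) = 0`,
`unram_iff'`), then `f ∈ GC p (T \ {t})`, its Kummer generator `a'` for this set differs from `a` by a
`p`-th power (the same argument as in `kum_add`), so `p ∣ vl t a`, `B = 0`, and `A = lam t * f t (piv)` by the
third property. In general let `h ∈ GC p T'` be as in `exists_unr`, with generator `b ≡ gv ^ A_h`,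
`A_h = lam t * h t (piv)`, and let `c` be the generator of `f + h ∈ GC p (T ∪ T')`; `c ≡ a b` modulo `PP`.
`f t a = 0`: `A * f(gv) + B * f(piv) = 0`. `(f + h) t c = 0`:
`(A + A_h) * f(gv) + B * (f(piv) + h(piv)) = 0`. Subtract: `A_h * f(gv) + B * h(piv) = 0`, so
`B = - lam t * f(gv)`; then `A * f(gv) = lam t * f(gv) * f(piv)`, and `A = lam t * f(piv)` if
`f(gv) ≠ 0` (the case `f(gv) = 0` is done).
-/

set_option autoImplicit false

namespace Pool.Agent.RGK

open NumberField IsDedekindDomain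
open Pool.Agent.RG (Above IsDec IsInert IsFrob)
open Pool.Agent.RG.H (Pr vl UU PP SU ev below nrm emb NS)

variable {K : Type} [Field K] [NumberField K]

private theorem OR2a_PP {p : ℕ} {x : Kˣ} {m n : ℕ} (h : (m : ZMod p) = (n : ZMod p)) :
    x ^ m / x ^ n ∈ PP K p := by
  have h1 : ((m : ℤ) : ZMod p) = ((n : ℤ) : ZMod p) := by exact_mod_cast h
  rw [ZMod.intCast_eq_intCast_iff_dvd_sub] at h1
  obtain ⟨j, hj⟩ := h1
  refine RG.H.mem_PP.2 ⟨x ^ (-j), ?_⟩
  rw [← zpow_natCast (x ^ (-j)), ← zpow_mul, ← zpow_natCast x m, ← zpow_natCast x n,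
    div_eq_mul_inv, ← zpow_sub]
  congr 1
  linarith

private theorem OR2a_dvd {p : ℕ} {v : Pr K} {x : Kˣ} (hx : x ∈ PU p v) : (p : ℤ) ∣ vl v x := by
  obtain ⟨a, ha, b, hb, rfl⟩ := Subgroup.mem_sup.1 hx
  obtain ⟨c, rfl⟩ := RG.H.mem_PP.1 ha
  rw [RG.H.vl_mul, RG.H.vl_pow, (RG.H.mem_UU.1 hb).1, add_zero]
  exact dvd_mul_right _ _

private theorem OR2a_zero {p : ℕ} [Fact p.Prime] {v : Pr K} (hv : nm v % p = 1) {a : Kˣ}
    (ha : (p : ℤ) ∣ vl v a) {c : ZMod p}
    (h : ∀ k : ℕ, a / gv p v ^ k ∈ PU p v → (k : ZMod p) = c) (hc : c = 0) : a ∈ PU p v := by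
  obtain ⟨k, hk⟩ := unit_mem hv ha
  have h1 : gv p v ^ k / gv p v ^ 0 ∈ PP K p := OR2a_PP (by rw [h k hk, hc, Nat.cast_zero])
  rw [pow_zero, div_one] at h1
  have h2 := mul_mem hk ((le_sup_left : PP K p ≤ PU p v) h1)
  rwa [div_mul_cancel] at h2

theorem kum_add {p : ℕ} [Fact p.Prime] (hp : p ≠ 2) {ζ : K} (hζ : IsPrimitiveRoot ζ p)
    {lam : Pr K → ZMod p} {T : Set (Pr K)} (hT : T.Finite) {f g : Pr K → Hm K p} {a b c : Kˣ}
    (ha : IsKum lam T f a) (hb : IsKum lam T g b) (hc : IsKum lam T (f + g) c) :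
    c / (a * b) ∈ PP K p := by
  obtain ⟨S, hS⟩ := RG.H.fin_above (K := K) p (Fact.out : p.Prime).ne_zero
  have hfin : (T ∪ {v | Above v p}).Finite :=
    hT.union (S.finite_toSet.subset fun v hv => hS v hv)
  refine mem_PP_of_local hp hζ hfin fun v hv => ?_
  have hvT : v ∉ T := fun h0 => hv (Or.inl h0)
  have hvp : ¬ Above v p := fun h0 => hv (Or.inr h0)
  have hv1 := nm_mod Fact.out hζ hvp
  obtain ⟨k, hk⟩ := unit_mem hv1 (ha.1 v hvT)
  obtain ⟨l, hl⟩ := unit_mem hv1 (hb.1 v hvT)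
  obtain ⟨m, hm⟩ := unit_mem hv1 (hc.1 v hvT)
  have h1 := ha.2.2 v hvT hvp k hk
  have h2 := hb.2.2 v hvT hvp l hl
  have h3 := hc.2.2 v hvT hvp m hm
  have h4 : gv p v ^ m / gv p v ^ (k + l) ∈ PP K p := by
    refine OR2a_PP ?_
    rw [h3, Nat.cast_add, h1, h2]
    show lam v * ((f v).ev (piv v) + (g v).ev (piv v)) = _
    ring
  have h5 := mul_mem (div_mem hm (mul_mem hk hl)) ((le_sup_left : PP K p ≤ PU p v) h4)
  have e : c / gv p v ^ m / (a / gv p v ^ k * (b / gv p v ^ l)) *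
      (gv p v ^ m / gv p v ^ (k + l)) = c / (a * b) := by
    rw [pow_add, div_mul_div_comm a, div_div_div_comm, div_mul_cancel]
  rwa [e] at h5

theorem kum_zero {p : ℕ} [Fact p.Prime] (hp : p ≠ 2) {ζ : K} (hζ : IsPrimitiveRoot ζ p)
    {lam : Pr K → ZMod p} (hlam : ∀ v, ¬ Above v p → lam v ≠ 0) {T : Set (Pr K)} (hT : T.Finite)
    {f : Pr K → Hm K p} (hf : f ∈ GC p T) {a : Kˣ} (ha : IsKum lam T f a) (h : a ∈ PP K p) :
    f = 0 := by
  obtain ⟨S, hS⟩ := RG.H.fin_above (K := K) p (Fact.out : p.Prime).ne_zero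
  have hfin : (T ∪ {v | Above v p}).Finite :=
    hT.union (S.finite_toSet.subset fun v hv => hS v hv)
  refine GC.ext_off hfin (GC.mono Set.subset_union_left hf) (Submodule.zero_mem _) ?_
  intro v hv
  have hvT : v ∉ T := fun h0 => hv (Or.inl h0)
  have hvp : ¬ Above v p := fun h0 => hv (Or.inr h0)
  have h1 := ha.2.2 v hvT hvp 0 (by
    rw [pow_zero, div_one]
    exact (le_sup_left : PP K p ≤ PU p v) h)
  rw [Nat.cast_zero] at h1
  have h2 := (mul_eq_zero.1 h1.symm).resolve_left (hlam v hvp)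
  rw [GC.off hf hvT, h2, zero_smul]
  rfl

theorem exists_unr {p : ℕ} [Fact p.Prime] (hp : p ≠ 2) {ζ : K} (hζ : IsPrimitiveRoot ζ p)
    {t : Pr K} (ht : ¬ Above t p) :
    ∃ T' : Set (Pr K), T'.Finite ∧ (∀ v ∈ T', nm v % p = 1) ∧ t ∉ T' ∧
      ∃ g ∈ GC p T', (g t).ev (piv t) ≠ 0 := by
  classical
  obtain ⟨S, hS⟩ := RG.H.fin_above (K := K) p (Fact.out : p.Prime).ne_zero
  have hfin : ({t} ∪ {v | Above v p} : Set (Pr K)).Finite :=
    (Set.finite_singleton t).union (S.finite_toSet.subset fun v hv => hS v hv)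
  have hidx := finite_VS (K := K) (p := p) (Set.finite_singleton t)
  have hfi : ((PP K p).subgroupOf (VS p {t})).FiniteIndex := ⟨hidx⟩
  have hq : Finite (↥(VS p ({t} : Set (Pr K))) ⧸ (PP K p).subgroupOf (VS p {t})) :=
    Subgroup.finite_quotient_of_finiteIndex
  have hex : ∀ q : ↥(VS p ({t} : Set (Pr K))) ⧸ (PP K p).subgroupOf (VS p {t}),
      ∃ s : Pr K, ((q.out : ↥(VS p ({t} : Set (Pr K)))) : Kˣ) ∉ PP K p →
        s ∉ ({t} ∪ {v | Above v p} : Set (Pr K)) ∧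
        ((q.out : ↥(VS p ({t} : Set (Pr K)))) : Kˣ) ∉ PU p s := by
    intro q
    by_cases h : ((q.out : ↥(VS p ({t} : Set (Pr K)))) : Kˣ) ∈ PP K p
    · exact ⟨t, fun h' => absurd h h'⟩
    · by_contra hcon
      push Not at hcon
      refine h (mem_PP_of_local hp hζ hfin fun v hv => ?_)
      exact (hcon v).2 hv
  choose s hs using hex
  let T' : Set (Pr K) := {v | ∃ q : ↥(VS p ({t} : Set (Pr K))) ⧸ (PP K p).subgroupOf (VS p {t}),
    ((q.out : ↥(VS p ({t} : Set (Pr K)))) : Kˣ) ∉ PP K p ∧ s q = v}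
  have hT'f : T'.Finite := (Set.finite_range s).subset (by
    rintro v ⟨q, -, rfl⟩
    exact ⟨q, rfl⟩)
  have hT't : t ∉ T' := by
    rintro ⟨q, h1, h2⟩
    exact (hs q h1).1 (h2 ▸ Or.inl rfl)
  refine ⟨T', hT'f, ?_, hT't, ?_⟩
  · rintro v ⟨q, h1, rfl⟩
    exact nm_mod (Fact.out : p.Prime) hζ fun h => (hs q h1).1 (Or.inr h)
  · by_contra hcon
    push Not at hcon
    have hcon2 : ∀ f ∈ GC p T', f t = 0 := fun f hf => by
      rw [GC.off hf hT't, hcon f hf, zero_smul]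
    obtain ⟨x, hx1, hx2, hx3⟩ := exists_bad hT'f hT't hcon2
    have hxV : x ∈ VS p ({t} : Set (Pr K)) := by
      intro v hv
      by_cases hvT : v ∈ T'
      · exact OR2a_dvd (hx1 v hvT)
      · exact hx2 v hvT hv
    have hq1 := QuotientGroup.mk_out_eq_mul ((PP K p).subgroupOf (VS p ({t} : Set (Pr K))))
      ⟨x, hxV⟩
    obtain ⟨⟨h, hh⟩, hh2⟩ := hq1
    have hh3 : ((h : ↥(VS p ({t} : Set (Pr K)))) : Kˣ) ∈ PP K p := hh
    set q : ↥(VS p ({t} : Set (Pr K))) ⧸ (PP K p).subgroupOf (VS p {t}) :=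
      QuotientGroup.mk ⟨x, hxV⟩ with hqd
    have hh4 : ((q.out : ↥(VS p ({t} : Set (Pr K)))) : Kˣ) = x * (h : Kˣ) :=
      congrArg Subtype.val hh2
    have hqP : ((q.out : ↥(VS p ({t} : Set (Pr K)))) : Kˣ) ∉ PP K p := by
      intro h5
      apply hx3
      rw [hh4] at h5
      have h6 : x ∈ PP K p := (mul_mem_cancel_right hh3).1 h5
      exact OR2a_dvd ((le_sup_left : PP K p ≤ PU p t) h6)
    have h7 := hx1 (s q) ⟨q, hqP, rfl⟩
    refine (hs q hqP).2 ?_
    rw [hh4]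
    exact mul_mem h7 ((le_sup_left : PP K p ≤ PU p (s q)) hh3)

omit [NumberField K] in
private theorem OR2b_mul {p : ℕ} (f : Hm K p) (x y : Kˣ) : f.ev (x * y) = f.ev x + f.ev y := by
  unfold Hm.ev
  rw [ofMul_mul, map_add]

omit [NumberField K] in
private theorem OR2b_div {p : ℕ} (f : Hm K p) (x y : Kˣ) : f.ev (x / y) = f.ev x - f.ev y := by
  unfold Hm.ev
  rw [ofMul_div, map_sub]

omit [NumberField K] in
private theorem OR2b_pow {p : ℕ} (f : Hm K p) (x : Kˣ) (n : ℕ) :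
    f.ev (x ^ n) = (n : ZMod p) * f.ev x := by
  unfold Hm.ev
  rw [ofMul_pow, map_nsmul, nsmul_eq_mul]

private theorem OR2b_dec {p : ℕ} [Fact p.Prime] {t : Pr K} (ht : nm t % p = 1) (a : Kˣ) :
    ∃ A B : ℕ, a / (gv p t ^ A * piv t ^ B) ∈ PU p t ∧ ((p : ℤ) ∣ vl t a → B = 0) := by
  have hp : p.Prime := Fact.out
  have hm0 : 0 ≤ vl t a % (p : ℤ) := Int.emod_nonneg _ (by exact_mod_cast hp.ne_zero)
  obtain ⟨k, hk⟩ := unit_mem ht (x := a / piv t ^ (vl t a % (p : ℤ)).toNat) (by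
    rw [RG.H.vl_div, RG.H.vl_pow, vl_piv, mul_one, Int.toNat_of_nonneg hm0]
    exact Int.dvd_self_sub_emod)
  refine ⟨k, (vl t a % (p : ℤ)).toNat, ?_, fun h => ?_⟩
  · rw [div_mul_eq_div_div_swap]
    exact hk
  · rw [Int.emod_eq_zero_of_dvd h]
    rfl

private theorem OR2b_val {p : ℕ} [Fact p.Prime] {t : Pr K} {h : Hm K p} (hh : Kills h t 1)
    {a : Kˣ} {A B : ℕ} (hab : a / (gv p t ^ A * piv t ^ B) ∈ PU p t) :
    h.ev a = (A : ZMod p) * h.ev (gv p t) + (B : ZMod p) * h.ev (piv t) := by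
  have h1 := ev_PU hh hab
  rw [OR2b_div, OR2b_mul, OR2b_pow, OR2b_pow, sub_eq_zero] at h1
  exact h1

private theorem OR2b_mono {p : ℕ} {lam : Pr K → ZMod p} {T T' : Set (Pr K)} (h : T ⊆ T')
    {f : Pr K → Hm K p} {a : Kˣ} (ha : IsKum lam T f a) : IsKum lam T' f a :=
  ⟨fun v hv => ha.1 v fun hv' => hv (h hv'), ha.2.1, fun v hv => ha.2.2 v fun hv' => hv (h hv')⟩

private theorem OR2b_uniq {p : ℕ} [Fact p.Prime] (hp : p ≠ 2) {ζ : K} (hζ : IsPrimitiveRoot ζ p)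
    {lam : Pr K → ZMod p} (hkum : ∀ T : Set (Pr K), T.Finite → (∀ v ∈ T, nm v % p = 1) →
      ∀ f ∈ GC p T, ∃ a : Kˣ, IsKum lam T f a) {T : Set (Pr K)} (hT : T.Finite)
    (hT1 : ∀ v ∈ T, nm v % p = 1) {f : Pr K → Hm K p} {a a' : Kˣ} (ha : IsKum lam T f a)
    (ha' : IsKum lam T f a') : a / a' ∈ PP K p := by
  obtain ⟨b, hb⟩ := hkum T hT hT1 0 (zero_mem _)
  have h1 : a / (a' * b) ∈ PP K p := kum_add hp hζ hT ha' hb (by rw [add_zero]; exact ha)
  have h2 : b / (b * b) ∈ PP K p := kum_add hp hζ hT hb hb (by rw [add_zero]; exact hb)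
  have h3 : a / a' = a / (a' * b) / (b / (b * b)) := by
    rw [div_mul_cancel_left, div_inv_eq_mul, ← div_div, div_mul_cancel]
  rw [h3]
  exact (PP K p).div_mem h1 h2

private theorem OR2b_claim {p : ℕ} [Fact p.Prime] (hp : p ≠ 2) {ζ : K} (hζ : IsPrimitiveRoot ζ p)
    {lam : Pr K → ZMod p} (hkum : ∀ T : Set (Pr K), T.Finite → (∀ v ∈ T, nm v % p = 1) →
      ∀ f ∈ GC p T, ∃ a : Kˣ, IsKum lam T f a) {T : Set (Pr K)} (hT : T.Finite)
    (hT1 : ∀ v ∈ T, nm v % p = 1) {f g : Pr K → Hm K p} (hf : f ∈ GC p T) (hg : g ∈ GC p T)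
    {a : Kˣ} (ha : IsKum lam T f a) {t : Pr K} (ht : t ∈ T) :
    (g t).ev a = - (lam t * cupF p t f g) := by
  have hpp : p.Prime := Fact.out
  have ht1 : nm t % p = 1 := hT1 t ht
  have hab : ¬ Above t p := not_above_of_nm hpp ht1
  have hPPU : PP K p ≤ PU p t := le_sup_left
  obtain ⟨A, B, hAB, hB0⟩ := OR2b_dec ht1 a
  have hfk : Kills (f t) t 1 := hf.2.1 t ht
  have hgk : Kills (g t) t 1 := hg.2.1 t ht
  suffices hs : (A : ZMod p) = lam t * (f t).ev (piv t) ∧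
      (B : ZMod p) = - (lam t * (f t).ev (gv p t)) by
    rw [OR2b_val hgk hAB, hs.1, hs.2, cupF]
    ring
  by_cases hα : (f t).ev (gv p t) = 0
  · have hk0 : Kills (f t) t 0 := (unram_iff' ht1 hfk).2 hα
    have hf' : f ∈ GC p (T \ {t}) := GC.unram hf hk0
    obtain ⟨a', ha'⟩ := hkum (T \ {t}) (hT.subset Set.sdiff_subset) (fun v hv => hT1 v hv.1) f hf'
    have h1 : a / a' ∈ PP K p := OR2b_uniq hp hζ hkum hT hT1 ha (OR2b_mono Set.sdiff_subset ha')
    have htn : t ∉ T \ {t} := fun h => h.2 rfl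
    have h2 : (p : ℤ) ∣ vl t a' := ha'.1 t htn
    have h3 : (p : ℤ) ∣ vl t (a / a') := by
      obtain ⟨y, hy⟩ := RG.H.mem_PP.1 h1
      rw [← hy, RG.H.vl_pow]
      exact dvd_mul_right _ _
    have h4 : (p : ℤ) ∣ vl t a := by
      have h5 := dvd_add h3 h2
      rw [RG.H.vl_div, sub_add_cancel] at h5
      exact h5
    have hB : B = 0 := hB0 h4
    rw [hB, pow_zero, mul_one] at hAB
    have h6 : a' / gv p t ^ A ∈ PU p t := by
      have e : a' / gv p t ^ A = (a / gv p t ^ A) / (a / a') := by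
        rw [div_div_div_comm, div_self', one_div, inv_div]
      rw [e]
      exact (PU p t).div_mem hAB (hPPU h1)
    refine ⟨ha'.2.2 t htn hab A h6, ?_⟩
    rw [hB, hα, mul_zero, neg_zero, Nat.cast_zero]
  · obtain ⟨T', hT'f, hT'1, htT', h, hh, hγ⟩ := exists_unr hp hζ hab
    obtain ⟨b, hb⟩ := hkum T' hT'f hT'1 h hh
    have hU : (T ∪ T').Finite := hT.union hT'f
    have hU1 : ∀ v ∈ T ∪ T', nm v % p = 1 := by
      rintro v (hv | hv)
      · exact hT1 v hv
      · exact hT'1 v hv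
    obtain ⟨c, hc⟩ := hkum (T ∪ T') hU hU1 (f + h)
      (add_mem (GC.mono Set.subset_union_left hf) (GC.mono Set.subset_union_right hh))
    have h1 : c / (a * b) ∈ PP K p := kum_add hp hζ hU (OR2b_mono Set.subset_union_left ha)
      (OR2b_mono Set.subset_union_right hb) hc
    have hk0 : Kills (h t) t 0 := hh.1 t htT'
    have hk1 : Kills (h t) t 1 := fun x hx => hk0 x (RG.H.UU_mono t (Nat.zero_le 1) hx)
    have hh0 : (h t).ev (gv p t) = 0 := (unram_iff' ht1 hk1).1 hk0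
    obtain ⟨C, hC⟩ := unit_mem ht1 (x := b) (hb.1 t htT')
    have hC1 : (C : ZMod p) = lam t * (h t).ev (piv t) := hb.2.2 t htT' hab C hC
    have e1 : (A : ZMod p) * (f t).ev (gv p t) + (B : ZMod p) * (f t).ev (piv t) = 0 := by
      rw [← OR2b_val hfk hAB]
      exact ha.2.1 t
    have hb2 : b / (gv p t ^ C * piv t ^ 0) ∈ PU p t := by
      rw [pow_zero, mul_one]
      exact hC
    have ea : (h t).ev a = (A : ZMod p) * (h t).ev (gv p t) + (B : ZMod p) * (h t).ev (piv t) :=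
      OR2b_val hk1 hAB
    have ebf : (f t).ev b = (C : ZMod p) * (f t).ev (gv p t) +
      ((0 : ℕ) : ZMod p) * (f t).ev (piv t) := OR2b_val hfk hb2
    have ebh : (h t).ev b = 0 := hb.2.1 t
    have e2 : (f t).ev c + (h t).ev c = 0 := hc.2.1 t
    have e3 : (f t).ev c = (f t).ev a + (f t).ev b := by
      have h5 := ev_PU hfk (hPPU h1)
      rw [OR2b_div, OR2b_mul, sub_eq_zero] at h5
      exact h5
    have e4 : (h t).ev c = (h t).ev a + (h t).ev b := by
      have h5 := ev_PU hk1 (hPPU h1)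
      rw [OR2b_div, OR2b_mul, sub_eq_zero] at h5
      exact h5
    rw [e3, e4, ha.2.1 t, ebf, ebh, ea, hh0, hC1] at e2
    have e5 : (h t).ev (piv t) * (lam t * (f t).ev (gv p t) + (B : ZMod p)) = 0 := by
      linear_combination e2
    have e6 : lam t * (f t).ev (gv p t) + (B : ZMod p) = 0 :=
      (mul_eq_zero.1 e5).resolve_left hγ
    have e7 : (B : ZMod p) = - (lam t * (f t).ev (gv p t)) := by
      linear_combination e6
    refine ⟨?_, e7⟩
    rw [e7] at e1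
    have e8 : (f t).ev (gv p t) * ((A : ZMod p) - lam t * (f t).ev (piv t)) = 0 := by
      linear_combination e1
    have e9 := (mul_eq_zero.1 e8).resolve_left hα
    linear_combination e9

open Classical in
theorem reciprocity {p : ℕ} [Fact p.Prime] (hp : p ≠ 2) {ζ : K} (hζ : IsPrimitiveRoot ζ p) :
    ∃ lam : Pr K → ZMod p, (∀ v, nm v % p = 1 → lam v ≠ 0) ∧
      ∀ T : Finset (Pr K), (∀ v ∈ T, nm v % p = 1) → ∀ f ∈ GC p (T : Set (Pr K)),
        ∀ g ∈ GC p (T : Set (Pr K)), ∑ t ∈ T, lam t * cupF p t f g = 0 := by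
  have hpp : p.Prime := Fact.out
  obtain ⟨lam, hlam, hkum⟩ := exists_kum hp hζ
  refine ⟨lam, fun v hv => hlam v (not_above_of_nm hpp hv), ?_⟩
  intro T hT1 f hf g hg
  obtain ⟨a, ha⟩ := hkum (T : Set (Pr K)) T.finite_toSet hT1 f hf
  have h1 : ∑ᶠ v, (g v).ev a = ∑ t ∈ T, (g t).ev a := by
    refine finsum_eq_sum_of_support_subset _ ?_
    intro v hv
    by_contra hvT
    apply hv
    show (g v).ev a = 0
    rw [GC.off hg hvT]
    show (g v).ev (piv v) * ((vl v a : ℤ) : ZMod p) = 0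
    rw [(ZMod.intCast_zmod_eq_zero_iff_dvd _ _).2 (ha.1 v hvT), mul_zero]
  have h2 : ∑ t ∈ T, (g t).ev a = 0 := by
    rw [← h1]
    exact hg.2.2.2 a
  have h3 : ∑ t ∈ T, (g t).ev a = - ∑ t ∈ T, lam t * cupF p t f g := by
    rw [← Finset.sum_neg_distrib]
    exact Finset.sum_congr rfl fun t ht => OR2b_claim hp hζ hkum T.finite_toSet hT1 hf hg ha ht
  rw [h3, neg_eq_zero] at h2
  exact h2

/-- the unramified characters are separated by a set `T` with `VT p T ≤ PP` -/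
theorem sep_GC {p : ℕ} [Fact p.Prime] (hp : p ≠ 2) {ζ : K} (hζ : IsPrimitiveRoot ζ p)
    {T : Set (Pr K)} (hT1 : ∀ v ∈ T, nm v % p = 1) (hV : VT p T ≤ PP K p) {ν : Pr K → Hm K p}
    (hν : ν ∈ GC p ∅) (h : ∀ t ∈ T, ν t = 0) : ν = 0 := by
  obtain ⟨lam, hlam, hkum⟩ := exists_kum hp hζ
  obtain ⟨a, ha⟩ := hkum ∅ Set.finite_empty (fun v hv => absurd hv (Set.notMem_empty v)) ν hν
  refine kum_zero hp hζ hlam Set.finite_empty hν ha (hV ?_)
  refine Subgroup.mem_inf.2 ⟨ha.1, ?_⟩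
  rw [Subgroup.mem_iInf]
  intro t
  rw [Subgroup.mem_iInf]
  intro ht
  refine OR2a_zero (hT1 t ht) (ha.1 t (Set.notMem_empty t))
    (ha.2.2 t (Set.notMem_empty t) (not_above (hT1 t ht))) ?_
  rw [h t ht]
  show lam t * 0 = 0
  rw [mul_zero]

end Pool.Agent.RGK
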