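import Mathlib
import Pool.Agent.Lib.RG.H19
import Pool.Agent.Lib.RG.H20
import Pool.Agent.Lib.RGK.X2
import Pool.Agent.Lib.RGK.X2b
import Pool.Agent.Lib.RGK.X3
import Pool.Agent.Lib.RGK.DK0
import Pool.Agent.Lib.RGK.DK1
import Pool.Agent.Lib.RGK.DK2a
import Pool.Agent.Lib.RGK.DK2c
import Pool.Agent.Lib.RGK.ODefs
import Pool.Agent.Lib.RGK.OR1
import Pool.Agent.Lib.RGK.OR2
import Pool.Agent.Lib.RGK.C00

/-!
RG v5, row OD1: densities if `ζ ∈ K`.

`densB`: as in DK3, with `n = 0` (no class fields; `Fin 0`): `b j`, `j : Fin k`, lifts of a basis of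
`B / PP`; `exists_comp` (with the empty family) gives `E = K(b_1 ^ (1/p), ..)`, and
`finrank K E = p ^ k` (Kummer theory: `Gal(E/K) → (Fin k → ZMod p)`, `σ ↦ (κ_j)`, `σ β_j = ζ ^ κ_j β_j`,
is an injective homomorphism (`gen`, `σ ζ = ζ`); if the image is a proper subspace there is `d ≠ 0` with
`∏ β_j ^ d_j` fixed by all `σ`, so it is in `K` and `∏ b_j ^ d_j ∈ PP K p`, contradiction);
`finrank K (CyclotomicField p K) = 1`. See the proof of `finrank_comp` in DK2b.
`split_comp`, `hasDK_split`, `HasDK.congr`.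

`densI`: choose `lam` and Kummer generators (`exists_kum`); let `f i` be a basis of `Λ` (`finite_GC`), `a i`
the Kummer generator of `f i`; `B' := B ⊔ closure (range a)`. By `kum_add`, `kum_zero` (more generally, the
Kummer generator of `∑ c_i f_i` is `∏ a_i ^ c_i` modulo `PP`), and because `B ∩ VS p T = PP`:
`(PP).relIndex B' = (PP).relIndex B * p ^ (finrank Λ)`. Outside the finite set `T ∪ {v | Above v p}`:
`f i v = 0` iff `a i ∈ PU p v` (third property of `IsKum`, `unit_mem`, `GC.off`). So `DS p Λ B` and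
`DS p ⊥ B'` differ by a finite set: `densB`, `HasDK.congr`.
-/

set_option autoImplicit false

namespace Pool.Agent.RGK

open NumberField IsDedekindDomain
open Pool.Agent.RG (Above IsDec IsInert IsFrob)
open Pool.Agent.RG.H (Pr vl UU PP SU ev below nrm emb NS)

variable {K : Type} [Field K] [NumberField K]

/-- a basis of a finite elementary abelian group -/
private theorem OD1_lin0 {A : Type} [AddCommGroup A] [Finite A] {p : ℕ} [Fact p.Prime]
    [Module (ZMod p) A] : ∃ (k : ℕ) (e : Fin k → A), Nat.card A = p ^ k ∧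
      (∀ a, ∃ c : Fin k → ℕ, a = ∑ j, c j • e j) ∧
      ∀ d : Fin k → ℕ, ∑ j, d j • e j = 0 → ∀ j, p ∣ d j := by
  classical
  have hMF : Module.Finite (ZMod p) A := Module.Finite.of_finite
  let bs := Module.finBasis (ZMod p) A
  refine ⟨Module.finrank (ZMod p) A, bs, ?_, fun a => ⟨fun j => (bs.repr a j).val, ?_⟩,
    fun d hd j => ?_⟩
  · have h1 := Module.natCard_eq_pow_finrank (K := ZMod p) (V := A)
    rwa [Nat.card_zmod] at h1
  · have h2 := bs.sum_repr a
    conv_lhs => rw [← h2]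
    refine Finset.sum_congr rfl fun j _ => ?_
    rw [← Nat.cast_smul_eq_nsmul (ZMod p), ZMod.natCast_zmod_val]
  · have h3 : ∑ j, ((d j : ℕ) : ZMod p) • bs j = 0 := by
      rw [← hd]
      refine Finset.sum_congr rfl fun j _ => ?_
      rw [Nat.cast_smul_eq_nsmul]
    have h4 := Fintype.linearIndependent_iff.1 bs.linearIndependent _ h3
    exact (ZMod.natCast_eq_zero_iff _ _).1 (h4 j)

private theorem OD1_lin {A : Type} [AddCommGroup A] [Finite A] {p : ℕ} [Fact p.Prime]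
    (h : ∀ a : A, p • a = 0) : ∃ (k : ℕ) (e : Fin k → A), Nat.card A = p ^ k ∧
      (∀ a, ∃ c : Fin k → ℕ, a = ∑ j, c j • e j) ∧
      ∀ d : Fin k → ℕ, ∑ j, d j • e j = 0 → ∀ j, p ∣ d j :=
  @OD1_lin0 A _ _ p _ (AddCommGroup.zmodModule h)

/-- Lifts of a basis of `B / P`, a finite elementary abelian `p`-group. -/
private theorem OD1_basis {G : Type} [CommGroup G] {p : ℕ} [Fact p.Prime] (P B : Subgroup G)
    (hpow : ∀ x : G, x ^ p ∈ P) (hfin : P.relIndex B ≠ 0) :
    ∃ (k : ℕ) (b : Fin k → G), (∀ Q : Subgroup G, P ≤ Q → (B ≤ Q ↔ ∀ j, b j ∈ Q)) ∧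
      P.relIndex B = p ^ k ∧ ∀ d : Fin k → ℕ, ∏ j, b j ^ d j ∈ P → ∀ j, p ∣ d j := by
  classical
  have hp : p.Prime := Fact.out
  set N : Subgroup B := P.subgroupOf B with hN
  have hidx : N.index = P.relIndex B := rfl
  have hfinQ : Finite (B ⧸ N) := by
    apply Nat.finite_of_card_ne_zero
    rw [← Subgroup.index_eq_card, hidx]
    exact hfin
  have hexp : ∀ a : Additive (B ⧸ N), p • a = 0 := by
    intro a
    obtain ⟨y, hy⟩ := QuotientGroup.mk'_surjective N (Additive.toMul a)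
    apply Additive.toMul.injective
    rw [toMul_nsmul, ← hy, ← map_pow, toMul_zero]
    exact (QuotientGroup.eq_one_iff _).2 (hpow (y : G))
  have hfinA : Finite (Additive (B ⧸ N)) := hfinQ
  obtain ⟨k, e, hcard, hspan, hind⟩ := OD1_lin hexp
  choose y hy using fun j => QuotientGroup.mk'_surjective N (Additive.toMul (e j))
  have hcoe : ∀ d : Fin k → ℕ, ((∏ j, y j ^ d j : B) : G) = ∏ j, (y j : G) ^ d j := by
    intro d
    simp only [Subgroup.val_finsetProd, Subgroup.coe_pow]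
  have hmap : ∀ d : Fin k → ℕ, QuotientGroup.mk' N (∏ j, y j ^ d j) =
      Additive.toMul (∑ j, d j • e j) := by
    intro d
    rw [map_prod, toMul_sum]
    refine Finset.prod_congr rfl fun j _ => ?_
    rw [map_pow, hy, toMul_nsmul]
  refine ⟨k, fun j => (y j : G), fun Q hQ => ⟨fun h j => h (y j).2, fun h x hx => ?_⟩, ?_, ?_⟩
  · obtain ⟨c, hc⟩ := hspan (Additive.ofMul (QuotientGroup.mk' N ⟨x, hx⟩))
    have h3 := hmap c
    rw [← hc] at h3
    have h4 : QuotientGroup.mk' N (∏ j, y j ^ c j) = QuotientGroup.mk' N ⟨x, hx⟩ := h3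
    have h5 := (QuotientGroup.eq (s := N)).1 h4
    have h6 : (∏ j, (y j : G) ^ c j)⁻¹ * x ∈ P := by
      rw [← hcoe]
      exact h5
    have h7 : x = (∏ j, (y j : G) ^ c j) * ((∏ j, (y j : G) ^ c j)⁻¹ * x) := by
      rw [mul_inv_cancel_left]
    rw [h7]
    exact Q.mul_mem (Q.prod_mem fun j _ => Q.pow_mem (h j) _) (hQ h6)
  · rw [← hidx, Subgroup.index_eq_card]
    exact hcard
  · intro d hd
    have h1 : (∏ j, y j ^ d j : B) ∈ N := by
      rw [hN, Subgroup.mem_subgroupOf, hcoe]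
      exact hd
    have h2 : QuotientGroup.mk' N (∏ j, y j ^ d j) = 1 := (QuotientGroup.eq_one_iff _).2 h1
    rw [hmap] at h2
    exact hind d h2

private def OD1_pw {E : Type} [Field E] {p : ℕ} (ζ : E) (a : ZMod p) : E := ζ ^ a.val

private theorem OD1_add {E : Type} [Field E] {p : ℕ} [Fact p.Prime] {ζ : E} (h : ζ ^ p = 1)
    (a b : ZMod p) : OD1_pw ζ (a + b) = OD1_pw ζ a * OD1_pw ζ b := by
  unfold OD1_pw
  rw [ZMod.val_add, ← pow_add, ← pow_eq_pow_mod _ h]

private theorem OD1_zero {E : Type} [Field E] {p : ℕ} [Fact p.Prime] (ζ : E) :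
    OD1_pw ζ (0 : ZMod p) = 1 := by
  unfold OD1_pw
  rw [ZMod.val_zero, pow_zero]

private theorem OD1_one {E : Type} [Field E] {p : ℕ} [hp : Fact p.Prime] (ζ : E) :
    OD1_pw ζ (1 : ZMod p) = ζ := by
  unfold OD1_pw
  rw [ZMod.val_one'' hp.out.one_lt.ne', pow_one]

private theorem OD1_mul {E : Type} [Field E] {p : ℕ} [Fact p.Prime] {ζ : E} (h : ζ ^ p = 1)
    (a b : ZMod p) : OD1_pw ζ (a * b) = OD1_pw ζ a ^ b.val := by
  unfold OD1_pw
  rw [ZMod.val_mul, ← pow_mul, ← pow_eq_pow_mod _ h]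

private theorem OD1_inj {E : Type} [Field E] {p : ℕ} [Fact p.Prime] {ζ : E}
    (h : IsPrimitiveRoot ζ p) {a b : ZMod p} (hab : OD1_pw ζ a = OD1_pw ζ b) : a = b :=
  ZMod.val_injective p (h.pow_inj (ZMod.val_lt a) (ZMod.val_lt b) hab)

private theorem OD1_ex {E : Type} [Field E] {p : ℕ} [hp : Fact p.Prime] {ζ : E}
    (h : IsPrimitiveRoot ζ p) {z : E} (hz : z ^ p = 1) : ∃ a : ZMod p, z = OD1_pw ζ a := by
  obtain ⟨i, hi, rfl⟩ := h.eq_pow_of_pow_eq_one hz
  refine ⟨(i : ZMod p), ?_⟩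
  unfold OD1_pw
  rw [ZMod.val_natCast_of_lt hi]

private theorem OD1_ne {E : Type} [Field E] {p : ℕ} [hp : Fact p.Prime] {ζ : E}
    (h : ζ ^ p = 1) (a : ZMod p) : OD1_pw ζ a ≠ 0 := by
  unfold OD1_pw
  refine pow_ne_zero _ ?_
  rintro rfl
  rw [zero_pow hp.out.ne_zero] at h
  exact zero_ne_one h

private theorem OD1_prod {E : Type} [Field E] {p : ℕ} [Fact p.Prime] {ζ : E} (h : ζ ^ p = 1)
    {ι : Type} (s : Finset ι) (a : ι → ZMod p) :
    ∏ i ∈ s, OD1_pw ζ (a i) = OD1_pw ζ (∑ i ∈ s, a i) := by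
  classical
  induction s using Finset.induction_on with
  | empty => rw [Finset.prod_empty, Finset.sum_empty, OD1_zero]
  | insert i s hi ih => rw [Finset.prod_insert hi, Finset.sum_insert hi, OD1_add h, ih]

private theorem OD1_card (n p : ℕ) : Nat.card (Fin n → ZMod p) = p ^ n := by
  rw [Nat.card_fun, Nat.card_zmod, Nat.card_fin]

/-- The degree of a Kummer extension. -/
private theorem OD1_deg {K E : Type} [Field K] [NumberField K] [Field E] [NumberField E]
    [Algebra K E] [IsGalois K E] {p n k : ℕ} [Fact p.Prime] {ζ0 : K} (hζ : IsPrimitiveRoot ζ0 p)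
    {T : Set (Pr K)} {ξ : Fin n → Pr K → ZMod p} (hn : n = 0)
    {b : Fin k → Kˣ} {ζ : E} {β : Fin k → Eˣ}
    {θ : Fin n → (E ≃ₐ[K] E) →* Multiplicative (ZMod p)} (h : CompF T ξ b ζ β θ)
    (hb : ∀ d : Fin k → ℕ, ∏ j, b j ^ d j ∈ PP K p → ∀ j, p ∣ d j) :
    Module.finrank K E = p ^ k := by
  classical
  subst hn
  have hp : p.Prime := Fact.out
  have hfin : FiniteDimensional K E := Module.Finite.of_restrictScalars_finite ℚ K E
  have hz := h.prim
  have hz1 : ζ ^ p = 1 := hz.pow_eq_one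
  have hfix : ∀ g : E ≃ₐ[K] E, g ζ = ζ := by
    intro g
    have h1 : IsPrimitiveRoot (algebraMap K E ζ0) p :=
      hζ.map_of_injective (algebraMap K E).injective
    obtain ⟨i, _, hi⟩ := h1.eq_pow_of_pow_eq_one hz1
    rw [← hi, map_pow, AlgEquiv.commutes]
  -- the cocycles
  have hκ' : ∀ (j : Fin k) (g : E ≃ₐ[K] E), ∃ a : ZMod p, g (β j : E) = OD1_pw ζ a * β j := by
    intro j g
    have hb0 : (β j : E) ≠ 0 := (β j).ne_zero
    have hr : (β j : E) ^ p = algebraMap K E (b j) := by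
      rw [← Units.val_pow_eq_pow_val, h.root j, RG.H.emb_val]
    obtain ⟨a, ha⟩ := OD1_ex hz (z := g (β j : E) / β j) (by
      rw [div_pow, ← map_pow, hr, AlgEquiv.commutes, div_self]
      rw [← hr]
      exact pow_ne_zero _ hb0)
    exact ⟨a, by rw [← ha, div_mul_cancel₀ _ hb0]⟩
  choose κ hκ using hκ'
  have hpw : ∀ (g : E ≃ₐ[K] E) (a : ZMod p), g (OD1_pw ζ a) = OD1_pw ζ a := by
    intro g a
    unfold OD1_pw
    rw [map_pow, hfix]
  have hco : ∀ (j : Fin k) (g g' : E ≃ₐ[K] E), κ j (g * g') = κ j g + κ j g' := by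
    intro j g g'
    apply OD1_inj hz
    apply mul_right_cancel₀ (b := (β j : E)) (β j).ne_zero
    rw [← hκ, AlgEquiv.mul_apply, hκ j g', map_mul, hpw, hκ j g, OD1_add hz1]
    ring
  have hκ1 : ∀ j, κ j 1 = 0 := by
    intro j
    apply OD1_inj hz
    apply mul_right_cancel₀ (b := (β j : E)) (β j).ne_zero
    rw [← hκ, OD1_zero, one_mul, AlgEquiv.one_apply]
  -- the homomorphism
  obtain ⟨Ψ, hΨ⟩ : ∃ Ψ : Additive (E ≃ₐ[K] E) →+ (Fin k → ZMod p),
      ∀ g : E ≃ₐ[K] E, Ψ (Additive.ofMul g) = fun j => κ j g := by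
    refine ⟨{ toFun := fun g => fun j => κ j (Additive.toMul g)
              map_zero' := ?_
              map_add' := ?_ }, fun g => rfl⟩
    · ext i
      exact hκ1 i
    · intro g g'
      ext i
      exact hco i _ _
  have hΨi : Function.Injective Ψ := by
    rw [injective_iff_map_eq_zero]
    intro g hg
    have h1 : Ψ (Additive.ofMul (Additive.toMul g)) = 0 := hg
    rw [hΨ] at h1
    have h2 : Additive.toMul g = 1 := by
      refine h.gen _ (hfix _) (fun j => ?_) fun i => i.elim0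
      rw [hκ, congrFun h1 j, Pi.zero_apply, OD1_zero, one_mul]
    exact h2
  have hΨs : Function.Surjective Ψ := by
    by_contra hns
    have hlt : AddSubgroup.toZModSubmodule p Ψ.range < ⊤ := by
      rw [lt_top_iff_ne_top]
      intro htop
      apply hns
      intro y
      have h1 : y ∈ AddSubgroup.toZModSubmodule p Ψ.range := by
        rw [htop]
        exact Submodule.mem_top
      exact h1
    obtain ⟨f, hf0, hf⟩ := Submodule.exists_le_ker_of_lt_top _ hlt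
    obtain ⟨d, hd⟩ : ∃ d : Fin k → ZMod p, ∀ y, f y = ∑ j, y j * d j := by
      refine ⟨fun i => f (fun j => if i = j then 1 else 0), fun x => ?_⟩
      have h1 := LinearMap.pi_apply_eq_sum_univ f x
      exact h1
    have hd0 : ∀ g : E ≃ₐ[K] E, ∑ j, κ j g * d j = 0 := by
      intro g
      have h1 : Ψ (Additive.ofMul g) ∈ AddSubgroup.toZModSubmodule p Ψ.range := ⟨_, rfl⟩
      have h2 : f (Ψ (Additive.ofMul g)) = 0 := hf h1
      rw [hΨ, hd] at h2
      exact h2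
    have hdz : ∀ j, d j = 0 := by
      have hx : (∏ j, (β j : E) ^ (d j).val) ∈ (⊥ : IntermediateField K E) := by
        rw [← IsGalois.fixedField_top, IntermediateField.mem_fixedField_iff]
        intro g _
        rw [map_prod]
        have h1 : ∀ j ∈ (Finset.univ : Finset (Fin k)), g ((β j : E) ^ (d j).val) =
            OD1_pw ζ (κ j g * d j) * (β j : E) ^ (d j).val := by
          intro j _
          rw [map_pow, hκ, mul_pow, OD1_mul hz1]
        rw [Finset.prod_congr rfl h1, Finset.prod_mul_distrib, OD1_prod hz1, hd0 g, OD1_zero,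
          one_mul]
      rw [IntermediateField.mem_bot] at hx
      obtain ⟨y, hy⟩ := hx
      have hxp : (∏ j, (β j : E) ^ (d j).val) ^ p =
          algebraMap K E ((∏ j, b j ^ (d j).val : Kˣ) : K) := by
        rw [← Finset.prod_pow, Units.coe_prod, map_prod]
        refine Finset.prod_congr rfl fun j _ => ?_
        rw [← pow_mul, mul_comm, pow_mul, ← Units.val_pow_eq_pow_val, h.root j, RG.H.emb_val,
          Units.val_pow_eq_pow_val, map_pow]
      rw [← hy, ← map_pow] at hxp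
      have hyB := (algebraMap K E).injective hxp
      have hB1 : (∏ j, b j ^ (d j).val) ∈ PP K p := by
        have hn0 : y ≠ 0 := by
          intro h0
          rw [h0, zero_pow hp.ne_zero] at hyB
          exact Units.ne_zero _ hyB.symm
        refine RG.H.mem_PP.2 ⟨Units.mk0 _ hn0, ?_⟩
        ext
        rw [Units.val_pow_eq_pow_val, Units.val_mk0, hyB]
      intro j
      have h1 := hb (fun j => (d j).val) hB1 j
      rw [← ZMod.natCast_zmod_val (d j)]
      exact (ZMod.natCast_eq_zero_iff _ _).2 h1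
    apply hf0
    ext x
    simp [hd, hdz]
  have hcard2 : Nat.card (E ≃ₐ[K] E) = p ^ k := by
    rw [Nat.card_congr (Additive.ofMul (α := (E ≃ₐ[K] E))),
      Nat.card_congr (Equiv.ofBijective Ψ ⟨hΨi, hΨs⟩), OD1_card]
  rw [← IsGalois.card_aut_eq_finrank, hcard2]

/-- `K(ζ) = K` -/
theorem c0K_one {K : Type} [Field K] [NumberField K] {p : ℕ} [Fact p.Prime] {ζ : K}
    (hζ : IsPrimitiveRoot ζ p) : c0K K p = 1 := by
  have hp : p.Prime := Fact.out
  have : NeZero p := ⟨hp.ne_zero⟩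
  obtain ⟨F₁, hF₁⟩ : ∃ F₁ : IntermediateField K K, F₁ = IntermediateField.adjoin K {ζ} := ⟨_, rfl⟩
  have hc : IsCyclotomicExtension {p} K F₁ := by
    rw [hF₁]
    exact hζ.intermediateField_adjoin_isCyclotomicExtension K
  have h1 : Module.finrank K F₁ = Module.finrank K (CyclotomicField p K) :=
    (IsCyclotomicExtension.algEquiv {p} K F₁ (CyclotomicField p K)).toLinearEquiv.finrank_eq
  have h2 : Module.finrank K F₁ * Module.finrank F₁ K = 1 := by
    rw [Module.finrank_mul_finrank, Module.finrank_self]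
  have h3 : Module.finrank K F₁ = 1 := Nat.eq_one_of_mul_eq_one_right h2
  unfold c0K
  rw [← h1, h3, Nat.cast_one, inv_one]

/-- The density for a family which is independent modulo `p`-th powers. -/
theorem densFam {K : Type} [Field K] [NumberField K] {p k : ℕ} [Fact p.Prime] {ζ : K}
    (hζ : IsPrimitiveRoot ζ p) (b : Fin k → Kˣ)
    (hb : ∀ d : Fin k → ℕ, ∏ j, b j ^ d j ∈ PP K p → ∀ j, p ∣ d j) :
    HasDK {v : Pr K | nm v % p = 1 ∧ ∀ j, b j ∈ PU p v} (((p : ℝ) ^ k)⁻¹) := by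
  classical
  obtain ⟨E, _, _, _, _, ζ', β, θ, hcomp⟩ := exists_comp (T := (∅ : Set (Pr K))) (p := p)
    (fun i : Fin 0 => (i.elim0 : Pr K → ZMod p)) (fun i => i.elim0) b
  have hdeg := OD1_deg hζ rfl hcomp hb
  obtain ⟨F, hF⟩ := split_comp Set.finite_empty hcomp
  have hdk := hasDK_split K E
  rw [hdeg] at hdk
  push_cast at hdk
  refine hdk.congr (F := (F : Set (Pr K))) F.finite_toSet fun v _ hv => ?_
  rw [hF v hv]
  exact ⟨fun h => ⟨h.1, h.2.2⟩, fun h => ⟨h.1, fun i => i.elim0, h.2⟩⟩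

theorem densB {p : ℕ} [Fact p.Prime] {ζ : K} (hζ : IsPrimitiveRoot ζ p) :
    DensB K p := by
  intro B hB hBi
  obtain ⟨k, b, hb1, hb2, hb3⟩ := OD1_basis (p := p) (PP K p) B (fun x => RG.H.mem_PP.2 ⟨x, rfl⟩) hBi
  have h1 := densFam hζ b hb3
  rw [c0K_one hζ, hb2, one_mul]
  push_cast
  refine h1.congr (F := ∅) Set.finite_empty fun v _ _ => ?_
  change nm v % p = 1 ∧ (∀ j, b j ∈ PU p v) ↔
    nm v % p = 1 ∧ (∀ f ∈ (⊥ : Submodule (ZMod p) (Pr K → Hm K p)), f v = 0) ∧ B ≤ PU p v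
  rw [hb1 (PU p v) le_sup_left]
  refine and_congr Iff.rfl ⟨fun h => ⟨fun f hf => ?_, h⟩, fun h => h.2⟩
  rw [(Submodule.mem_bot _).1 hf]
  rfl

private theorem OD1b_neg_cancel {G : Type} [CommGroup G] {P : Subgroup G} {a b c : G}
    (h : c / (a * b) ∈ P) (hc : c ∈ P) : a * b ∈ P := by
  have h1 : c / (c / (a * b)) ∈ P := P.div_mem hc h
  rwa [div_div_cancel] at h1

/-- the subgroup generated by `B` and the Kummer generators of the elements of `Λ` -/
private def OD1b_grp {p : ℕ} [Fact p.Prime] (hp : p ≠ 2) {ζ : K} (hζ : IsPrimitiveRoot ζ p)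
    {lam : Pr K → ZMod p} {T : Set (Pr K)} (hT : T.Finite)
    (hk : ∀ f ∈ GC p T, ∃ a : Kˣ, IsKum lam T f a)
    (Λ : Submodule (ZMod p) (Pr K → Hm K p)) (hΛ : Λ ≤ GC p T) (B : Subgroup Kˣ)
    (hB : PP K p ≤ B) : Subgroup Kˣ where
  carrier := {x | ∃ f ∈ Λ, ∃ a, IsKum lam T f a ∧ x / a ∈ B}
  one_mem' := by
    obtain ⟨a, ha⟩ := hk 0 (GC p T).zero_mem
    have h1 : IsKum lam T (0 + 0) a := by rwa [add_zero]
    have h2 := kum_add hp hζ hT ha ha h1
    refine ⟨0, Λ.zero_mem, a, ha, hB ?_⟩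
    have e : (1 : Kˣ) / a = a / (a * a) := by
      rw [div_mul_cancel_left, one_div]
    rw [e]
    exact h2
  mul_mem' := by
    rintro x y ⟨f, hf, a, ha, hxa⟩ ⟨g, hg, b, hb, hyb⟩
    obtain ⟨c, hc⟩ := hk (f + g) (hΛ (Λ.add_mem hf hg))
    refine ⟨f + g, Λ.add_mem hf hg, c, hc, ?_⟩
    have h1 := hB (kum_add hp hζ hT ha hb hc)
    have e : x * y / c = (x / a) * (y / b) / (c / (a * b)) := by
      rw [div_mul_div_comm, div_div_div_cancel_right]
    rw [e]
    exact B.div_mem (B.mul_mem hxa hyb) h1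
  inv_mem' := by
    rintro x ⟨f, hf, a, ha, hxa⟩
    obtain ⟨b, hb⟩ := hk (-f) (hΛ (Λ.neg_mem hf))
    obtain ⟨c, hc⟩ := hk (f + -f) (hΛ (Λ.add_mem hf (Λ.neg_mem hf)))
    have h0 : c ∈ PP K p := by
      have hc' : IsKum lam T (0 : Pr K → Hm K p) c := by
        rwa [add_neg_cancel] at hc
      have h1 : IsKum lam T (0 + 0) c := by rwa [add_zero]
      have h2 := kum_add hp hζ hT hc' hc' h1
      rw [div_mul_cancel_left] at h2
      exact (PP K p).inv_mem_iff.1 h2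
    have h1 : a * b ∈ PP K p := OD1b_neg_cancel (kum_add hp hζ hT ha hb hc) h0
    refine ⟨-f, Λ.neg_mem hf, b, hb, ?_⟩
    have e : x⁻¹ / b = (x / a)⁻¹ * (a * b)⁻¹ := by
      rw [inv_div, mul_inv, div_eq_mul_inv a x, mul_mul_mul_comm, mul_inv_cancel, one_mul,
        div_eq_mul_inv]
    rw [e]
    exact B.mul_mem (B.inv_mem hxa) (B.inv_mem (hB h1))

private theorem OD1b_eq {p : ℕ} [Fact p.Prime] (hp : p ≠ 2) {ζ : K} (hζ : IsPrimitiveRoot ζ p)
    {lam : Pr K → ZMod p} (hlam : ∀ v, ¬ Above v p → lam v ≠ 0) {T : Set (Pr K)} (hT : T.Finite)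
    (hk : ∀ f ∈ GC p T, ∃ a : Kˣ, IsKum lam T f a) {B : Subgroup Kˣ}
    (hB : PP K p ≤ B) (hBV : ∀ x ∈ B, x ∈ VS p T → x ∈ PP K p) {f g : Pr K → Hm K p}
    (hf : f ∈ GC p T) (hg : g ∈ GC p T) {a b : Kˣ} (ha : IsKum lam T f a)
    (hb : IsKum lam T g b) (h : a / b ∈ B) : f = g := by
  obtain ⟨c, hc⟩ := hk (f - g) ((GC p T).sub_mem hf hg)
  have ha' : IsKum lam T (g + (f - g)) a := by rwa [add_sub_cancel]
  have h1 : a / (b * c) ∈ PP K p := kum_add hp hζ hT hb hc ha'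
  have h2 : c ∈ PP K p := by
    refine hBV c ?_ hc.1
    have h3 : (a / b) / (a / (b * c)) ∈ B := B.div_mem h (hB h1)
    have e : (a / b) / (a / (b * c)) = c := by
      rw [div_div_div_cancel_left, mul_div_cancel_left]
    rwa [e] at h3
  have h3 := kum_zero hp hζ hlam hT ((GC p T).sub_mem hf hg) hc h2
  exact sub_eq_zero.1 h3

private theorem OD1b_rel {p : ℕ} [Fact p.Prime] (hp : p ≠ 2) {ζ : K} (hζ : IsPrimitiveRoot ζ p)
    {lam : Pr K → ZMod p} (hlam : ∀ v, ¬ Above v p → lam v ≠ 0) {T : Set (Pr K)} (hT : T.Finite)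
    (hk : ∀ f ∈ GC p T, ∃ a : Kˣ, IsKum lam T f a)
    (Λ : Submodule (ZMod p) (Pr K → Hm K p)) (hΛ : Λ ≤ GC p T) (B : Subgroup Kˣ)
    (hB : PP K p ≤ B) (hBV : ∀ x ∈ B, x ∈ VS p T → x ∈ PP K p) :
    B.relIndex (OD1b_grp hp hζ hT hk Λ hΛ B hB) = Nat.card Λ := by
  classical
  have hk' := hk
  choose a ha using hk'
  set B' := OD1b_grp hp hζ hT hk Λ hΛ B hB with hB'
  have hmem : ∀ f : Λ, a f.1 (hΛ f.2) ∈ B' := by
    intro f
    refine ⟨f.1, f.2, a f.1 (hΛ f.2), ha f.1 (hΛ f.2), ?_⟩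
    rw [div_self']
    exact B.one_mem
  let φ : Λ → B' ⧸ B.subgroupOf B' := fun f => QuotientGroup.mk ⟨a f.1 (hΛ f.2), hmem f⟩
  have hinj : Function.Injective φ := by
    intro f g hfg
    have h1 := QuotientGroup.eq.1 hfg
    rw [Subgroup.mem_subgroupOf] at h1
    have h2 : (a f.1 (hΛ f.2))⁻¹ * a g.1 (hΛ g.2) ∈ B := h1
    have h3 : a f.1 (hΛ f.2) / a g.1 (hΛ g.2) ∈ B := by
      have h4 := B.inv_mem h2
      rwa [mul_inv_rev, inv_inv, mul_comm, ← div_eq_mul_inv] at h4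
    exact Subtype.ext (OD1b_eq hp hζ hlam hT hk hB hBV (hΛ f.2)
      (hΛ g.2) (ha f.1 (hΛ f.2)) (ha g.1 (hΛ g.2)) h3)
  have hsurj : Function.Surjective φ := by
    intro q
    obtain ⟨⟨x, hx⟩, rfl⟩ := QuotientGroup.mk_surjective q
    obtain ⟨f, hf, b, hb, hxb⟩ := hx
    refine ⟨⟨f, hf⟩, ?_⟩
    refine QuotientGroup.eq.2 ?_
    rw [Subgroup.mem_subgroupOf]
    show (a f (hΛ hf))⁻¹ * x ∈ B
    have h0 : b / a f (hΛ hf) ∈ PP K p := by
      obtain ⟨z, hz⟩ : ∃ z, IsKum lam T (0 : Pr K → Hm K p) z := ⟨_, ha 0 (GC p T).zero_mem⟩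
      have h1 : IsKum lam T (f + 0) b := by rwa [add_zero]
      have h2 : b / (a f (hΛ hf) * z) ∈ PP K p := kum_add hp hζ hT (ha f (hΛ hf)) hz h1
      have hzz : IsKum lam T (0 + 0) z := by rwa [add_zero]
      have h3 := kum_add hp hζ hT hz hz hzz
      rw [div_mul_cancel_left] at h3
      have h4 := (PP K p).inv_mem_iff.1 h3
      have h5 := (PP K p).mul_mem h2 h4
      rwa [← div_div, div_mul_cancel] at h5
    have e : (a f (hΛ hf))⁻¹ * x = (x / b) * (b / a f (hΛ hf)) := by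
      rw [div_mul_div_cancel, div_eq_mul_inv, mul_comm]
    rw [e]
    exact B.mul_mem hxb (hB h0)
  show Nat.card (B' ⧸ B.subgroupOf B') = Nat.card Λ
  exact (Nat.card_eq_of_bijective φ ⟨hinj, hsurj⟩).symm

private theorem OD1b_zero {p : ℕ} [Fact p.Prime] {ζ : K} (hζ : IsPrimitiveRoot ζ p)
    {lam : Pr K → ZMod p} (hlam : ∀ v, ¬ Above v p → lam v ≠ 0) {T : Set (Pr K)}
    {f : Pr K → Hm K p} (hf : f ∈ GC p T) {a : Kˣ} (ha : IsKum lam T f a) {v : Pr K}
    (hvT : v ∉ T) (hv : ¬ Above v p) : f v = 0 ↔ a ∈ PU p v := by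
  have hnm : nm v % p = 1 := nm_mod (Fact.out : p.Prime) hζ hv
  constructor
  · intro h
    obtain ⟨k, hk⟩ := unit_mem hnm (ha.1 v hvT)
    have h1 := ha.2.2 v hvT hv k hk
    rw [h] at h1
    have h2 : (k : ZMod p) = 0 := by
      rw [h1]
      show lam v * 0 = 0
      rw [mul_zero]
    rw [ZMod.natCast_eq_zero_iff] at h2
    obtain ⟨d, rfl⟩ := h2
    have h3 : gv p v ^ (p * d) ∈ PU p v := by
      rw [mul_comm, pow_mul]
      exact (le_sup_left : PP K p ≤ PU p v) (RG.H.mem_PP.2 ⟨_, rfl⟩)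
    have h4 := (PU p v).mul_mem hk h3
    rwa [div_mul_cancel] at h4
  · intro h
    have h1 := ha.2.2 v hvT hv 0 (by rwa [pow_zero, div_one])
    rw [Nat.cast_zero] at h1
    have h2 : (f v).ev (piv v) = 0 := by
      rcases mul_eq_zero.1 h1.symm with h3 | h3
      · exact absurd h3 (hlam v hv)
      · exact h3
    rw [GC.off hf hvT, h2, zero_smul]

theorem densI {p : ℕ} [Fact p.Prime] (hp : p ≠ 2) {ζ : K} (hζ : IsPrimitiveRoot ζ p) :
    DensI K p := by
  classical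
  intro T hT _hT1 Λ hΛ B hB hBi hBV
  obtain ⟨lam, hlam, hex⟩ := exists_kum hp hζ
  have hk : ∀ f ∈ GC p T, ∃ a : Kˣ, IsKum lam T f a := hex T hT _hT1
  set B' := OD1b_grp hp hζ hT hk Λ hΛ B hB with hB'
  have hfin : Finite (GC p T) := finite_GC hT
  have hfinΛ : Finite Λ := Finite.of_injective (Submodule.inclusion hΛ)
    (Submodule.inclusion_injective hΛ)
  have hMf : Module.Finite (ZMod p) Λ := Module.Finite.of_finite
  have hcard : Nat.card Λ = p ^ Module.finrank (ZMod p) Λ := by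
    rw [Module.natCard_eq_pow_finrank (K := ZMod p), Nat.card_zmod]
  have hBB' : B ≤ B' := by
    intro x hx
    obtain ⟨a, ha⟩ := hk 0 (GC p T).zero_mem
    refine ⟨0, Λ.zero_mem, a, ha, ?_⟩
    have h1 : IsKum lam T (0 + 0) a := by rwa [add_zero]
    have h2 := kum_add hp hζ hT ha ha h1
    rw [div_mul_cancel_left] at h2
    rw [div_eq_mul_inv]
    exact B.mul_mem hx (hB h2)
  have hrel : (PP K p).relIndex B' = (PP K p).relIndex B * p ^ Module.finrank (ZMod p) Λ := by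
    rw [← Subgroup.relIndex_mul_relIndex _ _ _ hB hBB', ← hcard,
      OD1b_rel hp hζ hlam hT hk Λ hΛ B hB hBV]
  have hp0 : (p : ℕ) ≠ 0 := (Fact.out : p.Prime).ne_zero
  have hrel0 : (PP K p).relIndex B' ≠ 0 := by
    rw [hrel]
    exact Nat.mul_ne_zero hBi (pow_ne_zero _ hp0)
  have hD := densB hζ B' (hB.trans hBB') hrel0
  have hc : c0K K p * (((p : ℝ) ^ Module.finrank (ZMod p) Λ)⁻¹ *
      (((PP K p).relIndex B : ℕ) : ℝ)⁻¹) = c0K K p * (((PP K p).relIndex B' : ℕ) : ℝ)⁻¹ := by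
    rw [hrel, Nat.cast_mul, Nat.cast_pow, mul_inv, mul_comm (((PP K p).relIndex B : ℕ) : ℝ)⁻¹]
  rw [hc]
  obtain ⟨S, hS⟩ := RG.H.fin_above (K := K) p hp0
  refine HasDK.congr hD (F := T ∪ (S : Set (Pr K))) (hT.union S.finite_toSet) ?_
  intro v _ hv
  rw [Set.mem_union, not_or] at hv
  obtain ⟨hvT, hvS⟩ := hv
  have hvp : ¬ Above v p := fun h => hvS (hS v h)
  constructor
  · rintro ⟨h1, _, h3⟩
    refine ⟨h1, fun f hf => ?_, hBB'.trans h3⟩
    obtain ⟨a, ha⟩ := hk f (hΛ hf)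
    rw [OD1b_zero hζ hlam (hΛ hf) ha hvT hvp]
    apply h3
    refine ⟨f, hf, a, ha, ?_⟩
    rw [div_self']
    exact B.one_mem
  · rintro ⟨h1, h2, h3⟩
    refine ⟨h1, ?_, ?_⟩
    · intro f hf
      rw [Submodule.mem_bot] at hf
      rw [hf]
      rfl
    · rintro x ⟨f, hf, a, ha, hxa⟩
      have h4 := (OD1b_zero hζ hlam (hΛ hf) ha hvT hvp).1 (h2 f hf)
      have h5 := (PU p v).mul_mem (h3 hxa) h4
      rwa [div_mul_cancel] at h5

end Pool.Agent.RGK
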