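import Mathlib
import Pool.Agent.Lib.RG.E10
import Pool.Agent.Lib.RG.E11
import Pool.Agent.Lib.RG.E12
import Pool.Agent.Lib.RG.E13
import Pool.Agent.Lib.RG.E14
import Pool.Agent.Lib.RG.E15
import Pool.Agent.Lib.RG.E01
import Pool.Agent.Lib.RG.E04
import Pool.Agent.Lib.RG.E09
import Pool.Agent.Lib.RG.G01
import Pool.Agent.Lib.RGK.OE1

/-!
RG v5, row OE2: one step of Brauer-Hasse-Noether with the condition at the primes conjugate to `w0`
omitted.

`norm_lgO`: adapt `norm_lg` (`Pool/Agent/Lib/RG/E13.lean`), which reduces to `hasse_cyclic` (E10), which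
reduces to `H.hasse_norm`: now one needs `hasse_omit` (OE1) instead: `K` := the fixed field of `A` in `M`,
`C` := the fixed field of `A1` (as types with number field structures, `Algebra K C`, Galois of degree
`p`; see `e10_fixed`, `exists_fixed_field`), `o` := the prime of `K` below `w0`; a prime `w` of `M` above
`o` is conjugate to `w0` under `A` (`e` : transitivity of the action on the primes above `o`); `o` is
ramified in `C` by `hram` (`e * x` acts on `C` as a nontrivial inert element). `ζ := ι z0 ∈ K`.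
`bhn_stepO`: copy `bhn_step` (`E14.lean`), using `norm_lgO`; the local solution is needed only at the `w`
in question.
-/

set_option autoImplicit false

namespace Pool.Agent.RG.E

open NumberField IsDedekindDomain

/-- the Hasse norm theorem in terms of one automorphism with one inert prime omitted -/
private theorem hasse_cyclicO {p : ℕ} [Fact p.Prime] (hp : p ≠ 2) {L : Type} [Field L] [NumberField L]
    (σ : L ≃+* L) (hσp : ∀ x : L, (⇑σ)^[p] x = x) (hσ : ∃ x : L, σ x ≠ x)
    (ζ : L) (hζ : IsPrimitiveRoot ζ p) (hζσ : σ ζ = ζ)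
    (hunr : ∀ w : HeightOneSpectrum (𝓞 L), Above w p →
      (∀ x : L, w.valuation L (σ x) = w.valuation L x) →
      ∃ x : L, w.valuation L x ≤ 1 ∧ ¬ w.valuation L (σ x - x) < 1)
    (c : L) (hc : c ≠ 0) (hcσ : σ c = c)
    {w0 : HeightOneSpectrum (𝓞 L)} (hw0 : ¬ Above w0 p)
    (hin1 : ∀ x : L, w0.valuation L (σ x) = w0.valuation L x)
    (hin2 : ∀ x : L, w0.valuation L x ≤ 1 → w0.valuation L (σ x - x) < 1)
    (h1 : ∀ w : HeightOneSpectrum (𝓞 L), w ≠ w0 → ¬ Above w p →
      (∀ x : L, w.valuation L (σ x) = w.valuation L x) →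
      ∃ b : L, b ≠ 0 ∧ w.valuation L ((∏ i ∈ Finset.range p, (⇑σ)^[i] b) / c - 1) < 1)
    (h2 : ∀ w : HeightOneSpectrum (𝓞 L), Above w p →
      (∀ x : L, w.valuation L (σ x) = w.valuation L x) →
      ∃ x : L, σ x = x ∧ w.valuation L c = w.valuation L x ^ p) :
    ∃ b : L, ∏ i ∈ Finset.range p, (⇑σ)^[i] b = c := by
  classical
  obtain ⟨K, _, _, _, _, s, hfr, hs, hfix, hfix', hord, hgen⟩ := e10_fixed (p := p) σ hσp hσ
  have hpow : ∀ (n : ℕ) (x : L), (s ^ n) x = (⇑σ)^[n] x := by
    intro n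
    induction n with
    | zero => intro x; rfl
    | succ n ih =>
      intro x
      rw [pow_succ, Function.iterate_succ_apply, AlgEquiv.mul_apply, ih, hs]
  have hpos : 0 < p := (Fact.out : p.Prime).pos
  have hfd : FiniteDimensional K L := Module.finite_of_finrank_pos (by rw [hfr]; exact hpos)
  have hsfin : IsOfFinOrder s := by rw [← orderOf_pos_iff, hord]; exact hpos
  -- the norm as a product of iterates
  have hnorm : ∀ b : L, algebraMap K L (Algebra.norm K b) = ∏ i ∈ Finset.range p, (⇑σ)^[i] b := by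
    intro b
    rw [Algebra.norm_eq_prod_automorphisms]
    symm
    refine Finset.prod_bij (fun i _ => s ^ i) (fun i _ => Finset.mem_univ _) ?_ ?_ ?_
    · intro i hi j hj hij
      refine pow_injOn_Iio_orderOf ?_ ?_ hij
      · rw [hord]; exact Finset.mem_range.1 hi
      · rw [hord]; exact Finset.mem_range.1 hj
    · intro g _
      have hg := hgen g
      rw [mem_zpowers_iff_mem_range_orderOf, hord, Finset.mem_image] at hg
      obtain ⟨i, hi, rfl⟩ := hg
      exact ⟨i, hi, rfl⟩
    · intro i _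
      exact (hpow i b).symm
  obtain ⟨c', hc'⟩ := hfix c hcσ
  obtain ⟨ζ', hζ'⟩ := hfix ζ hζσ
  have hinj : Function.Injective (algebraMap K L) := (algebraMap K L).injective
  have hc'0 : c' ≠ 0 := by
    rintro rfl
    rw [map_zero] at hc'
    exact hc hc'.symm
  have hζK : IsPrimitiveRoot ζ' p := by
    rw [← hζ'] at hζ
    exact hζ.of_map_of_injective hinj
  have hu : ∀ w : HeightOneSpectrum (𝓞 L), Above w p →
      ∀ g : L ≃ₐ[K] L, IsInert w g → g = 1 := by
    intro w hw g hg
    by_contra hne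
    have hgord : orderOf g = p := by
      refine orderOf_eq_prime ?_ hne
      obtain ⟨n, rfl⟩ := Subgroup.mem_zpowers_iff.1 (hgen g)
      rw [← zpow_natCast, ← zpow_mul, mul_comm, zpow_mul, zpow_natCast, ← hord, pow_orderOf_eq_one,
        one_zpow]
    have hcardG : Nat.card (L ≃ₐ[K] L) = p := by
      rw [IsGalois.card_aut_eq_finrank, hfr]
    have htop : Subgroup.zpowers g = ⊤ := by
      apply Subgroup.eq_top_of_card_eq
      rw [Nat.card_zpowers, hgord, hcardG]
    have hsg : s ∈ Subgroup.zpowers g := by rw [htop]; exact Subgroup.mem_top _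
    rw [mem_zpowers_iff_mem_range_orderOf, Finset.mem_image] at hsg
    obtain ⟨n, _, hn⟩ := hsg
    have hsin : IsInert w s := by
      rw [← hn]
      exact e10_inert_pow w g hg n
    obtain ⟨x, hx, hx'⟩ := hunr w hw (fun x => by rw [← hs]; exact hsin.1 x)
    apply hx'
    rw [← hs]
    exact hsin.2 x hx
  have hs1 : s ≠ 1 := by
    intro h
    rw [h, orderOf_one] at hord
    exact (Fact.out : p.Prime).one_lt.ne hord
  set d : Kˣ := Units.mk0 c' hc'0 with hd
  have hmem : d ∈ (H.nrm K L).range := by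
    refine RGK.hasse_omit hp hfr hζK hu (o := H.below w0) (mt (H.above_iff w0 p).2 hw0)
      ⟨w0, rfl, s, ⟨fun x => ?_, fun x hx => ?_⟩, hs1⟩ ?_ ?_
    · have h3 := hin1 x
      rw [← hs] at h3
      exact h3
    · have h3 := hin2 x hx
      rw [← hs] at h3
      exact h3
    · rintro v hvo hvp ⟨w, rfl, hdec⟩
      have hwp : ¬ Above w p := mt (H.above_iff w p).1 hvp
      obtain ⟨b, hb0, hb⟩ := h1 w (fun h => hvo (by rw [h])) hwp
        (fun x => by rw [← hs]; exact hdec s x)
      rw [← hnorm, ← hc', ← map_div₀] at hb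
      obtain ⟨e, he, hev⟩ := H.exists_e_val (K := K) w
      set y : Kˣ := H.nrm K L (Units.mk0 b hb0) / d with hy
      have hyv : (y : K) = Algebra.norm K b / c' := by
        rw [hy, Units.val_div_eq_div_val]
        rfl
      have hy1 : (H.below w : H.Pr K).valuation K ((y : K) - 1) < 1 := by
        have h3 : w.valuation L (algebraMap K L ((y : K) - 1)) < 1 := by
          rw [map_sub, map_one, hyv]
          exact hb
        rw [hev] at h3
        by_contra h4
        exact absurd (one_le_pow₀ (not_lt.1 h4) (n := e)) (not_le.2 h3)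
      have hyU : y ∈ H.UU (H.below w : H.Pr K) 1 := by
        rw [H.mem_UU]
        constructor
        · rw [H.vl_eq_zero]
          have h3 : (y : K) = 1 + ((y : K) - 1) := by ring
          rw [h3]
          exact Valuation.map_one_add_of_lt _ hy1
        · have h3 : (1 : WithZero (Multiplicative ℤ)) =
              WithZero.exp (-((1 : ℕ) : ℤ)) * WithZero.exp 1 := by
            rw [← WithZero.exp_add, Nat.cast_one, neg_add_cancel, WithZero.exp_zero]
          rw [h3] at hy1
          exact (WithZero.lt_mul_exp_iff_le WithZero.exp_ne_zero).1 hy1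
      have hcy : d = H.nrm K L (Units.mk0 b hb0) * y⁻¹ := by
        rw [hy, inv_div, mul_div_cancel]
      rw [hcy]
      exact Subgroup.mul_mem_sup ⟨_, rfl⟩ ((H.UU _ 1).inv_mem hyU)
    · rintro v hvp ⟨w, rfl, hdec⟩
      obtain ⟨x, hx, hxc⟩ := h2 w ((H.above_iff w p).2 hvp)
        (fun x => by rw [← hs]; exact hdec s x)
      obtain ⟨x', rfl⟩ := hfix x hx
      have hx0 : x' ≠ 0 := by
        intro h0
        rw [h0, map_zero, map_zero, zero_pow hpos.ne'] at hxc
        exact hc ((Valuation.zero_iff _).1 hxc)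
      obtain ⟨e, he, hev⟩ := H.exists_e (K := K) w
      have hx2 : H.vl w (H.emb K L d) = p * H.vl w (H.emb K L (Units.mk0 x' hx0)) := by
        have h3 : H.vl w (H.emb K L (Units.mk0 x' hx0) ^ p) =
            p * H.vl w (H.emb K L (Units.mk0 x' hx0)) := H.vl_pow w _ p
        rw [← h3, H.vl_eq_iff]
        change w.valuation L (algebraMap K L c') = _
        rw [hc', hxc, ← H.val_eq, Units.val_pow_eq_pow_val, map_pow]
        rfl
      rw [hev, hev] at hx2
      refine ⟨H.vl (H.below w) (Units.mk0 x' hx0), ?_⟩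
      have he0 : (e : ℤ) ≠ 0 := by omega
      apply mul_left_cancel₀ he0
      rw [hx2]
      ring
  obtain ⟨b, hb⟩ := hmem
  refine ⟨(b : L), ?_⟩
  rw [← hnorm, ← hc']
  have h3 := congrArg (fun z : Kˣ => algebraMap K L (z : K)) hb
  exact h3

variable {M : Type} [Field M] [NumberField M] {E : Type} [Group E] [MulSemiringAction E M]

/-- an element acting trivially on the fixed field of `A₁` is in `A₁` -/
private theorem mem_of_fix [Finite E] {p : ℕ} {Z : Subgroup E} {ι : Z →* Mˣ}
    (hC : Cen p M E Z ι) {A1 : Subgroup E} (hZ : Z ≤ A1) (e : E)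
    (h : ∀ y : M, (∀ g ∈ A1, g • y = y) → e • y = y) : e ∈ A1 := by
  have hfin : Finite A1 := inferInstance
  let f : M ≃ₐ[FixedPoints.subfield A1 M] M :=
    AlgEquiv.ofRingEquiv (f := MulSemiringAction.toRingEquiv E M e) (by
      intro r
      refine h (r : M) fun g hg => ?_
      exact r.2 (⟨g, hg⟩ : A1))
  obtain ⟨x, hx⟩ := FixedPoints.toAlgAut_surjective A1 M f
  have h1 : ∀ y : M, ((x : E)⁻¹ * e) • y = y := by
    intro y
    have h2 : (x : E) • y = e • y := by
      have h3 := congrArg (fun t : M ≃ₐ[FixedPoints.subfield A1 M] M => t y) hx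
      exact h3
    rw [mul_smul, ← h2, inv_smul_smul]
  have h3 := hZ ((hC.ker _).1 h1)
  have h4 := A1.mul_mem x.2 h3
  rwa [mul_inv_cancel_left] at h4

theorem norm_lgO {p : ℕ} [Fact p.Prime] (hp : p ≠ 2) [Finite E] {Z : Subgroup E} {ι : Z →* Mˣ}
    (hC : Cen p M E Z ι) {A A1 : Subgroup E} {e : E} (hS : Step p A A1 e) (hZ : Z ≤ A1)
    (c : Mˣ) (hc : ∀ g ∈ A, g • c = c) {w0 : HeightOneSpectrum (𝓞 M)} (hw0 : ¬ Above w0 p)
    (hram : ∃ x ∈ A1, IsInert w0 (e * x))
    (h1 : ∀ w : HeightOneSpectrum (𝓞 M), ¬ Above w p →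
      (¬ ∃ g ∈ A, ∀ y : M, w.valuation M y = w0.valuation M (g • y)) →
      ∀ x ∈ A1, IsDec w (e * x) →
      ∃ d : Mˣ, (∀ g ∈ A1, g • d = d) ∧ (∏ i ∈ Finset.range p, e ^ i • d) / c ∈ U1 w)
    (h2 : ∀ w : HeightOneSpectrum (𝓞 M), Above w p → ∀ x ∈ A1, IsDec w (e * x) →
      ∃ y : Mˣ, (∀ g ∈ A, g • y = y) ∧ w.valuation M (c : M) = w.valuation M (y : M) ^ p) :
    ∃ d : Mˣ, (∀ g ∈ A1, g • d = d) ∧ ∏ i ∈ Finset.range p, e ^ i • d = c := by
  have hpp : p.Prime := Fact.out
  have heA1 : e ∉ A1 := by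
    have h := hS.min 1 one_pos hpp.one_lt
    rwa [pow_one] at h
  obtain ⟨L, hLf, hLn, j, σ, hj, hjσ⟩ := exists_fixed_field (M := M) A1 e (hS.norm e hS.mem) (by
    intro x hx
    have h := hS.norm e⁻¹ (A.inv_mem hS.mem) x hx
    rwa [inv_inv] at h)
  have hfixj : ∀ x : L, ∀ g ∈ A1, g • j x = j x := fun x => (hj (j x)).2 ⟨x, rfl⟩
  have hiter : ∀ (i : ℕ) (x : L), j ((⇑σ)^[i] x) = e ^ i • j x := by
    intro i
    induction i with
    | zero => intro x; rw [pow_zero, one_smul]; rfl
    | succ i ih =>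
      intro x
      rw [Function.iterate_succ_apply', hjσ, ih, ← mul_smul, ← pow_succ']
  have hσp : ∀ x : L, (⇑σ)^[p] x = x := by
    intro x
    apply j.injective
    rw [hiter]
    exact hfixj x _ hS.pow
  have hσ : ∃ x : L, σ x ≠ x := by
    by_contra hcon
    push Not at hcon
    apply heA1
    refine mem_of_fix hC hZ e fun y hy => ?_
    obtain ⟨x, rfl⟩ := (hj y).1 hy
    rw [← hjσ, hcon]
  -- the root of unity
  have hfinZ : Finite Z := inferInstance
  obtain ⟨z0, hz0⟩ : ∃ z : Z, z ≠ 1 := by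
    have h : 1 < Nat.card Z := by rw [hC.card]; exact hpp.one_lt
    have := Finite.one_lt_card_iff_nontrivial.1 h
    exact exists_ne 1
  have hord : orderOf z0 = p := by
    have h : orderOf z0 ∣ p := by rw [← hC.card]; exact orderOf_dvd_natCard z0
    rcases (Nat.dvd_prime hpp).1 h with h | h
    · exact absurd (orderOf_eq_one_iff.1 h) hz0
    · exact h
  have hζM : IsPrimitiveRoot ((ι z0 : Mˣ) : M) p := by
    have h : orderOf (ι z0) = p := by rw [orderOf_injective ι hC.inj]; exact hord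
    rw [IsPrimitiveRoot.coe_units_iff, ← h]
    exact IsPrimitiveRoot.orderOf _
  obtain ⟨ζ, hζj⟩ : ∃ ζ : L, j ζ = ((ι z0 : Mˣ) : M) := (hj _).1 fun g _ => hC.fix g z0
  have hζ : IsPrimitiveRoot ζ p := by
    refine IsPrimitiveRoot.of_map_of_injective (f := j) ?_ j.injective
    rw [hζj]
    exact hζM
  have hζσ : σ ζ = ζ := by
    apply j.injective
    rw [hjσ, hζj]
    exact hC.fix e z0
  -- decomposition
  have hdec : ∀ (w' : HeightOneSpectrum (𝓞 L)), (∀ x : L, w'.valuation L (σ x) = w'.valuation L x) →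
      ∃ w : HeightOneSpectrum (𝓞 M), Lies j w w' ∧ ∃ x ∈ A1, IsDec w (e * x) := by
    intro w' hw'
    obtain ⟨w, hw⟩ := exists_above j w'
    refine ⟨w, hw, ?_⟩
    obtain ⟨v, hv⟩ := exists_translate w e
    obtain ⟨g, hg, hgx⟩ := conj_sub A1 v w (by
      intro y hy hlt
      obtain ⟨x, rfl⟩ := (hj y).1 hy
      rw [hv, ← hjσ, (hw _).2, hw', ← (hw _).2] at hlt
      exact hlt)
    refine ⟨g⁻¹, A1.inv_mem hg, fun x => ?_⟩
    rw [mul_smul, ← hv, hgx, smul_inv_smul]
  obtain ⟨c', hc'⟩ : ∃ c' : L, j c' = (c : M) := (hj _).1 fun g hg => by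
    rw [← coe_act, hc g (hS.le hg)]
  have hc'0 : c' ≠ 0 := by
    intro h0
    rw [h0, map_zero] at hc'
    exact c.ne_zero hc'.symm
  have hc'σ : σ c' = c' := by
    apply j.injective
    rw [hjσ, hc', ← coe_act, hc e hS.mem]
  have hprodj : ∀ b : L, j (∏ i ∈ Finset.range p, (⇑σ)^[i] b) =
      ∏ i ∈ Finset.range p, e ^ i • j b := by
    intro b
    rw [map_prod]
    exact Finset.prod_congr rfl fun i _ => hiter i b
  have hprodd : ∀ d : Mˣ, ((∏ i ∈ Finset.range p, e ^ i • d : Mˣ) : M) =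
      ∏ i ∈ Finset.range p, e ^ i • (d : M) := by
    intro d
    rw [Units.coe_prod]
    rfl
  obtain ⟨w0', hw0'⟩ := exists_below j w0
  obtain ⟨x0, hx0, hin0⟩ := hram
  have hact : ∀ t : L, j (σ t) = (e * x0) • j t := by
    intro t
    rw [mul_smul, hfixj t x0 hx0, hjσ]
  have hin1 : ∀ t : L, w0'.valuation L (σ t) = w0'.valuation L t := by
    intro t
    by_cases ht : t = 0
    · rw [ht, map_zero]
    · have hvt : w0'.valuation L t ≠ 0 := (Valuation.ne_zero_iff _).2 ht
      have hjt : w0.valuation M (j t) ≠ 0 :=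
        (Valuation.ne_zero_iff _).2 ((map_ne_zero_iff j j.injective).2 ht)
      have h5 : w0.valuation M (j (σ t / t)) = 1 := by
        rw [map_div₀, map_div₀, hact, hin0.1, div_self hjt]
      have h6 : w0'.valuation L (σ t / t) = 1 := by
        refine le_antisymm ((hw0' _).1.1 h5.le) (not_lt.1 fun h => ?_)
        have h7 := (hw0' _).2.2 h
        rw [h5] at h7
        exact lt_irrefl _ h7
      rw [map_div₀, div_eq_one_iff_eq hvt] at h6
      exact h6
  have hin2 : ∀ t : L, w0'.valuation L t ≤ 1 → w0'.valuation L (σ t - t) < 1 := by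
    intro t ht
    rw [← (hw0' _).2, map_sub, hact]
    exact hin0.2 _ ((hw0' t).1.2 ht)
  have hpres : ∀ (w' : HeightOneSpectrum (𝓞 L)),
      (∀ x : L, w'.valuation L (σ x) = w'.valuation L x) → ∀ (k : ℕ) (x : L),
      w'.valuation L ((⇑σ)^[k] x) = w'.valuation L x := by
    intro w' hw' k
    induction k with
    | zero => intro x; rfl
    | succ k ih =>
      intro x
      rw [Function.iterate_succ_apply', hw', ih]
  have hconj : ∀ (w' : HeightOneSpectrum (𝓞 L)),
      (∀ x : L, w'.valuation L (σ x) = w'.valuation L x) → ∀ w : HeightOneSpectrum (𝓞 M),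
      Lies j w w' → (∃ g ∈ A, ∀ y : M, w.valuation M y = w0.valuation M (g • y)) →
      w' = w0' := by
    rintro w' hw' w hw ⟨g, hg, hgv⟩
    refine Lies.unique (j := j) (w₂ := w0) ?_ hw0'
    obtain ⟨k, -, a, ha, hga⟩ := hS.gen g⁻¹ (A.inv_mem hg)
    intro t
    have h5 : w0.valuation M (j t) = w.valuation M (j ((⇑σ)^[k] t)) := by
      rw [hiter, hgv, ← hfixj t a ha, ← mul_smul (e ^ k) a, ← hga, smul_inv_smul]
      rw [hfixj t a ha]
    rw [h5, (hw _).1, (hw _).2, hpres w' hw']
    exact ⟨Iff.rfl, Iff.rfl⟩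
  obtain ⟨b, hb⟩ := hasse_cyclicO hp σ hσp hσ ζ hζ hζσ (by
      intro w' hab hw'
      by_contra hcon
      push Not at hcon
      obtain ⟨w, hw, x, hx, hxd⟩ := hdec w' hw'
      obtain ⟨x', hx', hin⟩ := inert_lift A1 w (e * x) hxd (by
        intro y hy hle
        obtain ⟨t, rfl⟩ := (hj y).1 hy
        rw [mul_smul, hy x hx, ← hjσ, ← map_sub, (hw _).2]
        exact hcon t ((hw t).1.1 hle))
      have h3 := hZ (hC.unr w ((hw.above_iff p).2 hab) _ hin)
      apply heA1
      have h4 := A1.mul_mem (A1.mul_mem h3 (A1.inv_mem hx')) (A1.inv_mem hx)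
      rwa [mul_inv_cancel_right, mul_inv_cancel_right] at h4) c' hc'0 hc'σ
    (mt (hw0'.above_iff p).2 hw0) hin1 hin2 (by
      intro w' hne hab hw'
      obtain ⟨w, hw, x, hx, hxd⟩ := hdec w' hw'
      obtain ⟨d, hd, hdc⟩ := h1 w (fun h => hab ((hw.above_iff p).1 h))
        (fun h => hne (hconj w' hw' w hw h)) x hx hxd
      obtain ⟨b, hbd⟩ : ∃ b : L, j b = (d : M) := (hj _).1 fun g hg => by
        rw [← coe_act, hd g hg]
      refine ⟨b, ?_, ?_⟩
      · intro h0
        rw [h0, map_zero] at hbd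
        exact d.ne_zero hbd.symm
      · rw [← (hw _).2, map_sub, map_div₀, hprodj, hc', map_one, hbd, ← hprodd]
        rw [mem_U1, Units.val_div_eq_div_val] at hdc
        exact hdc) (by
      intro w' hab hw'
      obtain ⟨w, hw, x, hx, hxd⟩ := hdec w' hw'
      obtain ⟨y, hy, hyc⟩ := h2 w ((hw.above_iff p).2 hab) x hx hxd
      obtain ⟨b, hby⟩ : ∃ b : L, j b = (y : M) := (hj _).1 fun g hg => by
        rw [← coe_act, hy g (hS.le hg)]
      have hb0 : b ≠ 0 := by
        intro h0
        rw [h0, map_zero] at hby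
        exact y.ne_zero hby.symm
      refine ⟨b, ?_, ?_⟩
      · apply j.injective
        rw [hjσ, hby, ← coe_act, hy e hS.mem]
      · have hvy : w.valuation M (y : M) ^ p ≠ 0 := pow_ne_zero _ ((Valuation.ne_zero_iff _).2 y.ne_zero)
        have hvb : w'.valuation L b ^ p ≠ 0 := pow_ne_zero _ ((Valuation.ne_zero_iff _).2 hb0)
        have h5 : w.valuation M (j (c' / b ^ p)) = 1 := by
          rw [map_div₀, map_pow, hby, hc', map_div₀, map_pow, hyc, div_self hvy]
        have h6 : w'.valuation L (c' / b ^ p) = 1 := by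
          refine le_antisymm ((hw _).1.1 h5.le) (not_lt.1 fun h => ?_)
          have h7 := (hw _).2.2 h
          rw [h5] at h7
          exact lt_irrefl _ h7
        rw [map_div₀, map_pow, div_eq_one_iff_eq hvb] at h6
        exact h6)
  have hjb : j b ≠ 0 := by
    intro h0
    have hb0 : b = 0 := j.injective (by rw [h0, map_zero])
    apply hc'0
    rw [← hb, hb0]
    refine Finset.prod_eq_zero (Finset.mem_range.2 hpp.pos) ?_
    rfl
  refine ⟨Units.mk0 (j b) hjb, ?_, ?_⟩
  · intro g hg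
    ext
    rw [coe_act, Units.val_mk0]
    exact hfixj b g hg
  · ext
    rw [hprodd, Units.val_mk0, ← hprodj, hb, hc']

theorem bhn_stepO {p : ℕ} [Fact p.Prime] (hp : p ≠ 2) [Finite E] {Z : Subgroup E} {ι : Z →* Mˣ}
    (hC : Cen p M E Z ι) {A A1 : Subgroup E} {e : E} (hS : Step p A A1 e) (hZ : Z ≤ A1)
    {w0 : HeightOneSpectrum (𝓞 M)} (hw0 : ¬ Above w0 p) (hram : ∃ x ∈ A1, IsInert w0 (e * x))
    (hloc : ∀ w : HeightOneSpectrum (𝓞 M), ¬ Above w p →
      (¬ ∃ g ∈ A, ∀ y : M, w.valuation M y = w0.valuation M (g • y)) →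
      ∃ β : E → Mˣ, LocSol ι w β)
    (hb : ∃ b : E → Mˣ, Sol ι A1 b) : ∃ b : E → Mˣ, Sol ι A b := by
  obtain ⟨b1, hb⟩ := hb
  have hn' : ∀ x ∈ A1, e⁻¹ * x * e ∈ A1 := fun x hx => by
    have h := hS.norm e⁻¹ (inv_mem hS.mem) x hx
    rwa [inv_inv] at h
  obtain ⟨m, hm⟩ := exists_rel hC hZ hb e (fun x hx => hS.norm e hS.mem x hx) hn'
  have hfix : ∀ g ∈ A, g • (b1 (e ^ p) / ∏ i ∈ Finset.range p, e ^ i • m) =
      b1 (e ^ p) / ∏ i ∈ Finset.range p, e ^ i • m :=
    fun g hg => obst_fixed hS b1 hb.coc m hm g hg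
  obtain ⟨d, hd1, hd2⟩ := norm_lgO hp hC hS hZ
    (b1 (e ^ p) / ∏ i ∈ Finset.range p, e ^ i • m) hfix hw0 hram (by
      intro w hw hwA x hx hdec
      obtain ⟨β, hβ⟩ := hloc w hw hwA
      obtain ⟨d, hd, hd'⟩ := local_norm hC (hS.change hx) hZ hb
        (rel_change hS b1 hb.coc m hm hx) w hw hβ hdec
      refine ⟨d, hd, ?_⟩
      rw [obst_change hS b1 hb.coc m hm hx,
        Finset.prod_congr rfl (fun i _ => pow_smul_change hS hx d hd i)] at hd'
      exact hd') (by
      intro w hw x hx hdec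
      obtain ⟨y, hy, hy'⟩ := local_val hC (hS.change hx) hb (m * e • b1 x) w hw hdec
      refine ⟨y, hy, ?_⟩
      rw [obst_change hS b1 hb.coc m hm hx] at hy'
      exact hy')
  have hrel : RelOn A1 b1 e (m * d) := by
    intro x hx
    have h := hm x hx
    rw [smul_mul', hd1 _ (hS.norm e hS.mem x hx), ← mul_assoc, h, mul_right_comm]
  have hpow : b1 (e ^ p) = ∏ i ∈ Finset.range p, e ^ i • (m * d) := by
    simp only [smul_mul']
    rw [Finset.prod_mul_distrib, hd2, mul_div_cancel]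
  obtain ⟨b, hb1, hb2⟩ := ext_exact hS b1 hb.coc (m * d) hrel hpow
  refine ⟨b, ⟨hb1, fun z => ?_⟩⟩
  have h := hb2 0 z (hZ z.2)
  rw [pow_zero, one_mul, one_smul, Finset.prod_range_zero, one_mul] at h
  rw [h, hb.res]

end Pool.Agent.RG.E
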