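import Mathlib
import Pool.Agent.Lib.RGK.BDefs

/-!
RG v5, part OE (embedding theorem with the local condition at one prime omitted): definitions.
-/

set_option autoImplicit false

namespace Pool.Agent.RGK

open NumberField IsDedekindDomain
open Pool.Agent.RG (Above IsDec IsInert IsFrob)
open Pool.Agent.RG.H (Pr below)

/-- the fibre product of `π : E → H` and `r : G → H` -/
def FP {E G H : Type} [Group E] [Group G] [Group H] (π : E →* H) (r : G →* H) :
    Subgroup (E × G) :=
  (π.comp (MonoidHom.fst E G)).eqLocus (r.comp (MonoidHom.snd E G))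

theorem mem_FP {E G H : Type} [Group E] [Group G] [Group H] {π : E →* H} {r : G →* H}
    {x : E × G} : x ∈ FP π r ↔ π x.1 = r x.2 := Iff.rfl

/-- the fibre product acts on `M` through the second component -/
instance instFP {E H K M : Type} [Group E] [Group H] [Field K] [Field M] [Algebra K M]
    (π : E →* H) (r : (M ≃ₐ[K] M) →* H) : MulSemiringAction (FP π r) M :=
  MulSemiringAction.compHom M ((MonoidHom.snd E (M ≃ₐ[K] M)).comp (FP π r).subtype)

theorem FP_smul {E H K M : Type} [Group E] [Group H] [Field K] [Field M] [Algebra K M]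
    {π : E →* H} {r : (M ≃ₐ[K] M) →* H} (g : FP π r) (x : M) : g • x = (g : E × (M ≃ₐ[K] M)).2 x :=
  rfl

/-- `z` in the kernel of `π` as an element of the fibre product -/
def FPk {E G H : Type} [Group E] [Group G] [Group H] {π : E →* H} {r : G →* H} (z : π.ker) :
    FP π r :=
  ⟨(z, 1), by rw [mem_FP]; show π z = r 1; rw [map_one]; exact z.2⟩

end Pool.Agent.RGK
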