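import Mathlib
import Pool.Agent.Lib.RG.E15
import Pool.Agent.Lib.RG.E18
import Pool.Agent.Lib.RGK.B1
import Pool.Agent.Lib.RGK.B2
import Pool.Agent.Lib.RGK.B3
import Pool.Agent.Lib.RGK.OEDefs
import Pool.Agent.Lib.RGK.OE2

/-!
RG v5, row OE3: solution over the compositum `M` of `L` and `C`.

Notation: `F := FP π r₁` acts on `M` through the second component, `Z := (range of FPk)` is the central
subgroup of order `p` which acts trivially; `ι' (FPk z) := i₁ (ι z)`. `Cen p M F Z ι'`: `F` is a `p`-group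
(subgroup of `E × Gal(M/K)`, `Gal(M/K)` embeds into `Gal(L/K) × Gal(C/K)`), unramified above `p` (an inert
element of `Gal(M/K)` above `p` restricts to inert elements of `L` and `C`, so it is `1`; hence `x` in `F`
has `x.2 = 1`, `π x.1 = 1`).
Local solutions for `F` at `w ∤ p`, `below w ≠ o`: let `w₁` be the prime of `L` below `w`; for `E` acting on
`L` via `π` one has a local solution `β` at `w₁`: `loc_tame` (from `hloc`) if some inert element is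
nontrivial, `loc_unram` otherwise (E18; see the proof of `bhn` in `EBHN.lean`). The function
`x ↦ i₁ (β x.1)` is a local solution for `F` at `w` (`IsDec`, valuations and `U1` are compatible with
`LiesA i₁ w w₁`; `x.2` restricts to `π x.1` on `L`).
`A1 := {x ∈ F | r₂ x.2 = 1}`, `e := ` an element of `F` with `r₂ e.2 ≠ 1`: `Step p ⊤ A1 e`
(`F → Gal(C/K)` is surjective of order `p`: `F → Gal(M/K)` is surjective as `π` is; `step_of_index`).
Solution over `A1`: apply `bhn_of_local` (E15) to the GROUP `A1` (acting on `M`) with the center `Z` inside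
`A1`; local solutions at `below w ≠ o`: restriction of the above. At `w` above `o`: `Gal(M/K)` has degree
`p ^ k`; `exists_inert_generatorK` (B3): the inertia group of `w` in `Gal(M/K)` is generated by `τ`;
`r₂ τ ≠ 1`, because `o` is ramified in `C` (`exists_inert_liftK`, B2, and conjugation); let `φ` be a
Frobenius at `w` (`exists_frobK`); multiplying by a power of `τ` we may assume `r₂ φ = 1` (an inert times a
Frobenius is a Frobenius); `φ τ φ⁻¹ = τ ^ q`, `q = nm o` (`tame_relationK`). Choose `τ', φ' : E` with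
`π τ' = r₁ τ`, `π φ' = r₁ φ`, so `(τ', τ), (φ', φ) ∈ F`; `φ' τ' φ'⁻¹ = τ' ^ q * z` with `z ∈ π.ker`
central, `z ^ p = 1`; so `t := (τ', τ) ^ p`, `s := (φ', φ)` are in `A1` and
`s t s⁻¹ = ((τ' ^ q z, τ ^ q)) ^ p = t ^ q`. The inert elements in `A1` are the `t ^ k * z`: if `x.2 = τ ^ j`
and `r₂ (x.2) = 1` then `p ∣ j`. Apply `loc_tame` (`q` prime).
Finally `bhn_stepO` with `A := ⊤` and any `w0` above `o` (the `w` not conjugate to `w0` under `⊤` are those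
with `below w ≠ o`: `exists_conjK`, surjectivity of `F → Gal(M/K)`); `hram`: `τ` is inert at `w0`,
`(τ', τ) = e ^ i * x` with `p ∤ i`; choose `e := (τ', τ)` from the beginning.
-/

set_option autoImplicit false
set_option linter.unusedSectionVars false

namespace Pool.Agent.RGK

open NumberField IsDedekindDomain
open Pool.Agent.RG (Above IsDec IsInert IsFrob)
open Pool.Agent.RG.H (Pr below)

namespace OE3aux

open scoped Pool.Agent.RG.E
open Pool.Agent.RG.E (Cen LocSol Sol Step U1 mem_U1)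

section

variable {K L M : Type} [Field K] [Field L] [NumberField L] [Algebra K L]
  [Field M] [NumberField M] [Algebra K M]
  {i₁ : L →ₐ[K] M} {r₁ : (M ≃ₐ[K] M) →* (L ≃ₐ[K] L)} {E : Type} [Group E] {π : E →* (L ≃ₐ[K] L)}

/-- the elements acting trivially -/
def Zz (π : E →* (L ≃ₐ[K] L)) (r₁ : (M ≃ₐ[K] M) →* (L ≃ₐ[K] L)) : Subgroup (FP π r₁) :=
  ((MonoidHom.snd E (M ≃ₐ[K] M)).comp (FP π r₁).subtype).ker

theorem mem_Zz {x : FP π r₁} : x ∈ Zz π r₁ ↔ x.1.2 = 1 := Iff.rfl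

theorem pi_eq (x : FP π r₁) : π x.1.1 = r₁ x.1.2 := x.2

theorem fst_mem (z : Zz π r₁) : z.1.1.1 ∈ π.ker := by
  have h2 : z.1.1.2 = 1 := z.2
  rw [MonoidHom.mem_ker, pi_eq, h2, map_one]

/-- the projection to the kernel of `π` -/
def kk (π : E →* (L ≃ₐ[K] L)) (r₁ : (M ≃ₐ[K] M) →* (L ≃ₐ[K] L)) : Zz π r₁ →* π.ker :=
  (((MonoidHom.fst E (M ≃ₐ[K] M)).comp (FP π r₁).subtype).comp (Zz π r₁).subtype).codRestrict
    π.ker fst_mem

theorem kk_val (z : Zz π r₁) : ((kk π r₁ z : π.ker) : E) = z.1.1.1 := rfl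

/-- the embedding of the kernel -/
def io (i₁ : L →ₐ[K] M) (ι : π.ker →* Lˣ) (r₁ : (M ≃ₐ[K] M) →* (L ≃ₐ[K] L)) : Zz π r₁ →* Mˣ :=
  ((Units.map ((i₁ : L →+* M) : L →* M)).comp ι).comp (kk π r₁)

theorem io_val (ι : π.ker →* Lˣ) (z : Zz π r₁) :
    ((io i₁ ι r₁ z : Mˣ) : M) = i₁ ((ι (kk π r₁ z) : Lˣ) : L) := rfl

theorem smul_i (h₁ : ∀ g x, g (i₁ x) = i₁ (r₁ g x)) (x : FP π r₁) (y : L) :
    x • (i₁ y) = i₁ (π x.1.1 y) := by
  rw [FP_smul, h₁, pi_eq]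

theorem kk_bij : Function.Bijective (kk π r₁) := by
  constructor
  · intro x y hxy
    have h : x.1.1.1 = y.1.1.1 := congrArg Subtype.val hxy
    have hx : x.1.1.2 = 1 := x.2
    have hy : y.1.1.2 = 1 := y.2
    exact Subtype.ext (Subtype.ext (Prod.ext h (hx.trans hy.symm)))
  · intro z
    exact ⟨⟨FPk z, rfl⟩, rfl⟩

theorem kk_FPk (z : π.ker) (h : FPk z ∈ Zz π r₁) : kk π r₁ ⟨FPk z, h⟩ = z := rfl

theorem exists_lift (hπ : Function.Surjective π) (g : M ≃ₐ[K] M) : ∃ x : FP π r₁, x.1.2 = g := by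
  obtain ⟨a, ha⟩ := hπ (r₁ g)
  exact ⟨⟨(a, g), ha⟩, rfl⟩

variable {C : Type} [Field C] [NumberField C] [Algebra K C] [IsGalois K C] [FiniteDimensional K C]
  {i₂ : C →ₐ[K] M} {r₂ : (M ≃ₐ[K] M) →* (C ≃ₐ[K] C)} {p : ℕ}

theorem card_C (hC : Module.finrank K C = p) : Nat.card (C ≃ₐ[K] C) = p := by
  rw [IsGalois.card_aut_eq_finrank, hC]

theorem pow_C (hC : Module.finrank K C = p) (g : C ≃ₐ[K] C) : g ^ p = 1 := by
  rw [← card_C (K := K) (C := C) hC]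
  exact pow_card_eq_one'

theorem pgroup (hgen : ∀ g : M ≃ₐ[K] M, r₁ g = 1 → r₂ g = 1 → g = 1) (hE : IsPGroup p E)
    (hC : Module.finrank K C = p) : IsPGroup p (FP π r₁) := by
  intro x
  obtain ⟨k, hk⟩ := hE x.1.1
  refine ⟨k + 1, ?_⟩
  have h1 : x.1.1 ^ p ^ (k + 1) = 1 := by
    rw [pow_succ, pow_mul, hk, one_pow]
  have h2 : x.1.2 ^ p ^ (k + 1) = 1 := by
    refine hgen _ ?_ ?_
    · rw [map_pow, ← pi_eq, ← map_pow, h1, map_one]
    · rw [map_pow, pow_succ', pow_mul, pow_C hC, one_pow]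
  exact Subtype.ext (Prod.ext h1 h2)

theorem pgroupM (hπ : Function.Surjective π)
    (hgen : ∀ g : M ≃ₐ[K] M, r₁ g = 1 → r₂ g = 1 → g = 1) (hE : IsPGroup p E)
    (hC : Module.finrank K C = p) : IsPGroup p (M ≃ₐ[K] M) := by
  intro g
  obtain ⟨x, hx⟩ := exists_lift (r₁ := r₁) hπ g
  obtain ⟨k, hk⟩ := pgroup (r₁ := r₁) (π := π) hgen hE hC x
  refine ⟨k, ?_⟩
  rw [← hx]
  exact congrArg (fun y : FP π r₁ => y.1.2) hk

end

section

variable {p : ℕ} {K L M C : Type} [Field K] [NumberField K] [Field L] [NumberField L] [Algebra K L]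
  [Field M] [NumberField M] [Algebra K M] [Field C] [NumberField C] [Algebra K C] [IsGalois K C]
  {i₁ : L →ₐ[K] M} {r₁ : (M ≃ₐ[K] M) →* (L ≃ₐ[K] L)} {E : Type} [Group E] {π : E →* (L ≃ₐ[K] L)}
  {i₂ : C →ₐ[K] M} {r₂ : (M ≃ₐ[K] M) →* (C ≃ₐ[K] C)}

theorem cenF (h₁ : ∀ g x, g (i₁ x) = i₁ (r₁ g x)) (h₂ : ∀ g x, g (i₂ x) = i₂ (r₂ g x))
    (hgen : ∀ g, r₁ g = 1 → r₂ g = 1 → g = 1)
    (hE : IsPGroup p E) (hker : π.ker ≤ Subgroup.center E) (hcard : Nat.card π.ker = p)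
    (ι : π.ker →* Lˣ) (hι : Function.Injective ι)
    (hιf : ∀ (σ : L ≃ₐ[K] L) (z : π.ker), σ ((ι z : Lˣ) : L) = ι z)
    (hL : ∀ w : Pr L, Above w p → ∀ σ : L ≃ₐ[K] L, IsInert w σ → σ = 1)
    (hC : Module.finrank K C = p)
    (hCp : ∀ w : Pr C, Above w p → ∀ σ : C ≃ₐ[K] C, IsInert w σ → σ = 1) :
    Cen p M (FP π r₁) (Zz π r₁) (io i₁ ι r₁) where
  pg := pgroup hgen hE hC
  cen := by
    intro z hz
    rw [Subgroup.mem_center_iff]
    intro x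
    have h1 := Subgroup.mem_center_iff.1 (hker (fst_mem ⟨z, hz⟩)) x.1.1
    have h2 : z.1.2 = 1 := hz
    refine Subtype.ext (Prod.ext h1 ?_)
    show x.1.2 * z.1.2 = z.1.2 * x.1.2
    rw [h2, mul_one, one_mul]
  card := by
    rw [← hcard]
    exact Nat.card_congr (Equiv.ofBijective _ kk_bij)
  ker := by
    intro g
    constructor
    · intro h
      exact AlgEquiv.ext fun x => h x
    · intro h x
      have h2 : g.1.2 = 1 := h
      rw [FP_smul, h2]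
      rfl
  inj := by
    intro x y hxy
    apply kk_bij.1
    apply hι
    apply Units.ext
    have h := congrArg Units.val hxy
    rw [io_val, io_val] at h
    exact (i₁ : L →+* M).injective h
  fix := by
    intro g z
    rw [io_val, smul_i h₁, hιf]
  unr := by
    intro w hw g hg
    have hg' : IsInert w g.1.2 := hg
    refine hgen _ ?_ ?_
    · obtain ⟨w₁, hw₁⟩ := RG.exists_below (i₁ : L →+* M) w
      exact hL w₁ ((hw₁.above_iff p).1 hw) _ (IsInert.restrictK hw₁ (h₁ _) hg')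
    · obtain ⟨w₂, hw₂⟩ := RG.exists_below (i₂ : C →+* M) w
      exact hCp w₂ ((hw₂.above_iff p).1 hw) _ (IsInert.restrictK hw₂ (h₂ _) hg')

/-- `E` acts on `L` through `π` -/
@[reducible] def actE (π : E →* (L ≃ₐ[K] L)) : MulSemiringAction E L :=
  MulSemiringAction.compHom L π

theorem cenE (hE : IsPGroup p E) (hker : π.ker ≤ Subgroup.center E) (hcard : Nat.card π.ker = p)
    (ι : π.ker →* Lˣ) (hι : Function.Injective ι)
    (hιf : ∀ (σ : L ≃ₐ[K] L) (z : π.ker), σ ((ι z : Lˣ) : L) = ι z)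
    (hL : ∀ w : Pr L, Above w p → ∀ σ : L ≃ₐ[K] L, IsInert w σ → σ = 1) :
    letI := actE π
    Cen p L E π.ker ι := by
  let := actE π
  refine ⟨hE, hker, hcard, ?_, hι, ?_, ?_⟩
  · intro g
    constructor
    · intro h
      exact AlgEquiv.ext fun x => h x
    · intro h x
      have h2 : π g = 1 := h
      show π g x = x
      rw [h2]
      rfl
  · intro g z
    exact hιf (π g) z
  · intro w hw g hg
    have hg' : IsInert w (π g) := hg
    exact hL w hw _ hg'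

theorem i_val {w : Pr M} {w₁ : Pr L} (hw : LiesA i₁ w w₁) {x : L}
    (hx : w₁.valuation L x = 1) : w.valuation M (i₁ x) = 1 := by
  have h1 : w.valuation M (i₁ x) ≤ 1 := (hw x).1.2 hx.le
  have h2 : ¬ w.valuation M (i₁ x) < 1 := fun h => by
    have h3 : w₁.valuation L x < 1 := (hw x).2.1 h
    rw [hx] at h3
    exact lt_irrefl _ h3
  exact le_antisymm h1 (not_lt.1 h2)

theorem i_U1 {w : Pr M} {w₁ : Pr L} (hw : LiesA i₁ w w₁) {u : Lˣ}
    (hu : u ∈ U1 w₁) : Units.map ((i₁ : L →+* M) : L →* M) u ∈ U1 w := by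
  rw [mem_U1] at hu ⊢
  have h1 : ((Units.map ((i₁ : L →+* M) : L →* M) u : Mˣ) : M) - 1 = i₁ ((u : L) - 1) := by
    rw [map_sub, map_one]
    rfl
  rw [h1]
  exact (hw _).2.2 hu

theorem loc_transport (h₁ : ∀ g x, g (i₁ x) = i₁ (r₁ g x)) (ι : π.ker →* Lˣ) {w : Pr M}
    {w₁ : Pr L} (hw : LiesA i₁ w w₁) {β : E → Lˣ}
    (hβ : letI := actE π; LocSol ι w₁ β) :
    LocSol (io i₁ ι r₁) w
      (fun x : FP π r₁ => Units.map ((i₁ : L →+* M) : L →* M) (β x.1.1)) := by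
  let := actE π
  have hdec : ∀ x : FP π r₁, IsDec w x → IsDec w₁ x.1.1 := by
    intro x hx
    have hx' : IsDec w x.1.2 := hx
    have h2 : IsDec w₁ (r₁ x.1.2) := IsDec.restrictK hw (h₁ _) hx'
    rw [← pi_eq] at h2
    exact h2
  refine ⟨?_, ?_, ?_⟩
  · intro x hx
    exact i_val hw (hβ.unit _ (hdec x hx))
  · intro x y hx hy
    have h := i_U1 hw (hβ.coc _ _ (hdec x hx) (hdec y hy))
    rw [map_div, map_mul] at h
    have h3 : Units.map ((i₁ : L →+* M) : L →* M) (x.1.1 • β y.1.1) =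
        x • Units.map ((i₁ : L →+* M) : L →* M) (β y.1.1) := by
      apply Units.ext
      exact (smul_i h₁ x (β y.1.1 : L)).symm
    rw [h3] at h
    exact h
  · intro z
    have h := i_U1 hw (hβ.res (kk π r₁ z))
    rw [map_div] at h
    exact h

theorem loc_away [Fact p.Prime] [Finite E] (h₁ : ∀ g x, g (i₁ x) = i₁ (r₁ g x))
    (hE : IsPGroup p E) (hker : π.ker ≤ Subgroup.center E) (hcard : Nat.card π.ker = p)
    (ι : π.ker →* Lˣ) (hι : Function.Injective ι)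
    (hιf : ∀ (σ : L ≃ₐ[K] L) (z : π.ker), σ ((ι z : Lˣ) : L) = ι z)
    (hL : ∀ w : Pr L, Above w p → ∀ σ : L ≃ₐ[K] L, IsInert w σ → σ = 1) {o : Pr K}
    (hloc : ∀ w : Pr L, ¬ Above w p → (below w : Pr K) ≠ o →
      (∃ σ : L ≃ₐ[K] L, IsInert w σ ∧ σ ≠ 1) →
      ∃ (q : ℕ) (t s : E), q.Prime ∧ q % p = 1 ∧ Above w q ∧ IsInert w (π t) ∧
        (∀ g : E, IsInert w (π g) → ∃ k : ℤ, ∃ z ∈ π.ker, g = t ^ k * z) ∧ IsFrob w q (π s) ∧
        s * t * s⁻¹ = t ^ q) (w : Pr M) (hw : ¬ Above w p) (ho : (below w : Pr K) ≠ o) :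
    ∃ β : FP π r₁ → Mˣ, LocSol (io i₁ ι r₁) w β := by
  obtain ⟨w₁, hw₁⟩ := RG.exists_below (i₁ : L →+* M) w
  have hb : (below w : Pr K) = below w₁ := LiesA.below_eq hw₁
  have hwp : ¬ Above w₁ p := fun h => hw ((hw₁.above_iff p).2 h)
  let := actE π
  have hCE : Cen p L E π.ker ι := cenE hE hker hcard ι hι hιf hL
  have hex : ∃ β : E → Lˣ, LocSol ι w₁ β := by
    by_cases h : ∃ σ : L ≃ₐ[K] L, IsInert w₁ σ ∧ σ ≠ 1
    · obtain ⟨q, t, s, hq, -, hwq, ht, hI, hs, hst⟩ := hloc w₁ hwp (hb ▸ ho) h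
      exact RG.E.loc_tame hCE w₁ hwp hq hwq ht hI hs hst
    · push Not at h
      exact RG.E.loc_unram hCE w₁ fun g hg => h _ hg
  obtain ⟨β, hβ⟩ := hex
  exact ⟨_, loc_transport h₁ ι hw₁ hβ⟩

end

section

variable {p : ℕ} {M : Type} [Field M] [NumberField M] {F : Type} [Group F] [MulSemiringAction F M]
  {Z : Subgroup F} {ι : Z →* Mˣ}

/-- restriction of `ι` to a subgroup -/
def iS (ι : Z →* Mˣ) {A : Subgroup F} (hZ : Z ≤ A) : Z.subgroupOf A →* Mˣ :=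
  ι.comp (Subgroup.subgroupOfEquivOfLe hZ).toMonoidHom

theorem iS_val {A : Subgroup F} (hZ : Z ≤ A) (z : Z.subgroupOf A) (h : (z.1 : F) ∈ Z) :
    iS ι hZ z = ι ⟨z.1, h⟩ := rfl

theorem cen_sub (hC : Cen p M F Z ι) (A : Subgroup F) (hZ : Z ≤ A) :
    Cen p M A (Z.subgroupOf A) (iS ι hZ) where
  pg := hC.pg.to_subgroup A
  cen := by
    intro z hz
    rw [Subgroup.mem_center_iff]
    intro x
    exact Subtype.ext (Subgroup.mem_center_iff.1 (hC.cen (Subgroup.mem_subgroupOf.1 hz)) x)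
  card := by
    rw [← hC.card]
    exact Nat.card_congr (Subgroup.subgroupOfEquivOfLe hZ).toEquiv
  ker := by
    intro g
    rw [Subgroup.mem_subgroupOf]
    exact hC.ker g
  inj := by
    intro x y hxy
    exact (Subgroup.subgroupOfEquivOfLe hZ).injective (hC.inj hxy)
  fix := by
    intro g z
    exact hC.fix g _
  unr := by
    intro w hw g hg
    exact Subgroup.mem_subgroupOf.2 (hC.unr w hw g hg)

theorem loc_sub {A : Subgroup F} (hZ : Z ≤ A) {w : HeightOneSpectrum (𝓞 M)} {β : F → Mˣ}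
    (hβ : LocSol ι w β) : LocSol (iS ι hZ) w (fun x : A => β x) := by
  refine ⟨?_, ?_, ?_⟩
  · intro g hg
    exact hβ.unit g hg
  · intro g h hg hh
    exact hβ.coc g h hg hh
  · intro z
    exact hβ.res ⟨z.1, Subgroup.mem_subgroupOf.1 z.2⟩

theorem sol_sub {A : Subgroup F} (hZ : Z ≤ A) {b : A → Mˣ} (hb : Sol (iS ι hZ) ⊤ b) :
    ∃ b' : F → Mˣ, Sol ι A b' := by
  classical
  have hv : ∀ (x : F) (hx : x ∈ A), (if h : x ∈ A then b ⟨x, h⟩ else 1) = b ⟨x, hx⟩ :=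
    fun x hx => dif_pos hx
  refine ⟨fun x => if h : x ∈ A then b ⟨x, h⟩ else 1, ?_, ?_⟩
  · intro g hg h hh
    rw [hv _ (A.mul_mem hg hh), hv g hg, hv h hh]
    exact hb.coc ⟨g, hg⟩ (Subgroup.mem_top _) ⟨h, hh⟩ (Subgroup.mem_top _)
  · intro z
    rw [hv z (hZ z.2)]
    exact hb.res ⟨⟨z, hZ z.2⟩, Subgroup.mem_subgroupOf.2 z.2⟩

end

section

variable {p : ℕ} {K L M C : Type} [Field K] [NumberField K] [Field L] [NumberField L] [Algebra K L]
  [Field M] [NumberField M] [Algebra K M] [IsGalois K M] [Field C] [NumberField C] [Algebra K C]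
  [IsGalois K C]
  {i₁ : L →ₐ[K] M} {r₁ : (M ≃ₐ[K] M) →* (L ≃ₐ[K] L)} {E : Type} [Group E] {π : E →* (L ≃ₐ[K] L)}
  {i₂ : C →ₐ[K] M} {r₂ : (M ≃ₐ[K] M) →* (C ≃ₐ[K] C)}

theorem exists_tau [Fact p.Prime] {k : ℕ} (hM : Module.finrank K M = p ^ k)
    (h₂ : ∀ g x, g (i₂ x) = i₂ (r₂ g x)) (hC : Module.finrank K C = p) {o : Pr K}
    (hor : ∃ w : Pr C, (below w : Pr K) = o ∧ ∃ σ : C ≃ₐ[K] C, IsInert w σ ∧ σ ≠ 1)
    (w : Pr M) (hw : ¬ Above w p) (ho : (below w : Pr K) = o) :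
    ∃ τ φ : M ≃ₐ[K] M, (∀ σ : M ≃ₐ[K] M, IsInert w σ ↔ σ ∈ Subgroup.zpowers τ) ∧ r₂ τ ≠ 1 ∧
      r₂ φ = 1 ∧ IsFrob w (nm o) φ ∧ φ * τ * φ⁻¹ = τ ^ nm o := by
  obtain ⟨τ, hτ⟩ := exists_inert_generatorK hM hw
  have hτi : IsInert w τ := (hτ τ).2 (Subgroup.mem_zpowers τ)
  have hτ1 : r₂ τ ≠ 1 := by
    intro hτ1
    obtain ⟨wC, hwC, σ, hσ, hσ1⟩ := hor
    obtain ⟨w₂, hw₂⟩ := RG.exists_below (i₂ : C →+* M) w
    have hb : (below wC : Pr K) = below w₂ := by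
      rw [hwC, ← ho]
      exact LiesA.below_eq hw₂
    obtain ⟨ρ, hρ⟩ := exists_conjK hb
    have h1 := IsInert.conj_toK hρ hσ
    obtain ⟨σ₂, hc, hin⟩ := exists_inert_liftK hw₂ h1
    have h3 : r₂ σ₂ = ρ * σ * ρ⁻¹ := by
      refine AlgEquiv.ext fun x => (i₂ : C →+* M).injective ?_
      show i₂ (r₂ σ₂ x) = i₂ ((ρ * σ * ρ⁻¹) x)
      rw [← h₂, hc]
    obtain ⟨n, hn⟩ := Subgroup.mem_zpowers_iff.1 ((hτ σ₂).1 hin)
    rw [← hn, map_zpow, hτ1, one_zpow] at h3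
    apply hσ1
    have h4 : σ = ρ⁻¹ * (ρ * σ * ρ⁻¹) * ρ := by group
    rw [h4, ← h3]
    group
  obtain ⟨φ0, hφ0⟩ := exists_frobK (K := K) w
  obtain ⟨j, hj⟩ := Subgroup.mem_zpowers_iff.1
    (mem_zpowers_of_prime_card (g' := r₂ φ0) (card_C (K := K) (C := C) hC) hτ1)
  have hin : IsInert w (τ ^ (-j)) := (hτ _).2 (Subgroup.zpow_mem_zpowers τ _)
  have hφ : IsFrob w (nm (below w : Pr K)) (φ0 * τ ^ (-j)) := hφ0.mul_inert hin
  have hrel := tame_relationK hM hw hτi hφ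
  refine ⟨τ, φ0 * τ ^ (-j), hτ, hτ1, ?_, ?_, ?_⟩
  · rw [map_mul, map_zpow, ← hj]
    group
  · rw [← ho]
    exact hφ
  · rw [← ho]
    exact hrel

/-- the subgroup of the elements which act trivially on `C` -/
def A1 (π : E →* (L ≃ₐ[K] L)) (r₁ : (M ≃ₐ[K] M) →* (L ≃ₐ[K] L))
    (r₂ : (M ≃ₐ[K] M) →* (C ≃ₐ[K] C)) : Subgroup (FP π r₁) :=
  (r₂.comp ((MonoidHom.snd E (M ≃ₐ[K] M)).comp (FP π r₁).subtype)).ker

theorem mem_A1 {x : FP π r₁} : x ∈ A1 π r₁ r₂ ↔ r₂ x.1.2 = 1 := Iff.rfl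

theorem Z_le_A1 : Zz π r₁ ≤ A1 π r₁ r₂ := by
  intro x hx
  have h : x.1.2 = 1 := hx
  rw [mem_A1, h, map_one]

theorem above_nm {w : Pr M} {o : Pr K} (ho : (below w : Pr K) = o) : Above w (nm o) := by
  have h1 : RG.Lies (algebraMap K M) w o := (lies_iff_below w o).2 ho
  exact (h1.above_iff _).2 ((RG.G01aux.above_iff_mem o _).2 (Ideal.absNorm_mem _))

/-- the second projection -/
def pr2 (π : E →* (L ≃ₐ[K] L)) (r₁ : (M ≃ₐ[K] M) →* (L ≃ₐ[K] L)) : FP π r₁ →* (M ≃ₐ[K] M) :=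
  (MonoidHom.snd E (M ≃ₐ[K] M)).comp (FP π r₁).subtype

theorem pr2_val (x : FP π r₁) : pr2 π r₁ x = x.1.2 := rfl

theorem loc_o [Fact p.Prime] [Finite E] {k : ℕ} (hM : Module.finrank K M = p ^ k)
    (h₂ : ∀ g x, g (i₂ x) = i₂ (r₂ g x)) (hC : Module.finrank K C = p)
    (hπ : Function.Surjective π) {ι : Zz π r₁ →* Mˣ} (hCen : Cen p M (FP π r₁) (Zz π r₁) ι)
    {o : Pr K} (ho0 : (nm o).Prime)
    (hor : ∃ w : Pr C, (below w : Pr K) = o ∧ ∃ σ : C ≃ₐ[K] C, IsInert w σ ∧ σ ≠ 1)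
    (w : Pr M) (hw : ¬ Above w p) (ho : (below w : Pr K) = o) :
    ∃ β : A1 π r₁ r₂ → Mˣ, LocSol (iS ι (Z_le_A1 (r₂ := r₂))) w β := by
  obtain ⟨τ, φ, hτ, hτ1, hφ1, hφ, hrel⟩ := exists_tau hM h₂ hC hor w hw ho
  obtain ⟨x, hx⟩ := exists_lift (r₁ := r₁) hπ τ
  obtain ⟨y, hy⟩ := exists_lift (r₁ := r₁) hπ φ
  have hτi : IsInert w τ := (hτ τ).2 (Subgroup.mem_zpowers τ)
  have hxp : x ^ p ∈ A1 π r₁ r₂ := by
    rw [mem_A1, ← pr2_val, map_pow, map_pow, pow_C hC]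
  have hyA : y ∈ A1 π r₁ r₂ := by
    rw [mem_A1, hy, hφ1]
  have hcon : y * x ^ p * y⁻¹ = (x ^ p) ^ nm o := by
    have hz : (x ^ nm o)⁻¹ * (y * x * y⁻¹) ∈ Zz π r₁ := by
      rw [mem_Zz, ← pr2_val, map_mul, map_inv, map_pow, map_mul, map_mul, map_inv, pr2_val,
        pr2_val, hx, hy, hrel, inv_mul_cancel]
    have hzp : ((x ^ nm o)⁻¹ * (y * x * y⁻¹)) ^ p = 1 := by
      have h1 : (⟨_, hz⟩ : Zz π r₁) ^ p = 1 := by
        rw [← hCen.card]
        exact pow_card_eq_one'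
      exact congrArg Subtype.val h1
    have hzc := Subgroup.mem_center_iff.1 (hCen.cen hz) (x ^ nm o)
    have h2 : (x ^ nm o * ((x ^ nm o)⁻¹ * (y * x * y⁻¹))) ^ p = (x ^ nm o) ^ p := by
      have h3 : Commute (x ^ nm o) ((x ^ nm o)⁻¹ * (y * x * y⁻¹)) := hzc
      rw [h3.mul_pow, hzp, mul_one]
    rw [mul_inv_cancel_left, conj_pow] at h2
    rw [h2, ← pow_mul, ← pow_mul, mul_comm]
  have hord : orderOf (r₂ τ) = p := orderOf_eq_prime (pow_C hC _) hτ1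
  refine RG.E.loc_tame (cen_sub hCen (A1 π r₁ r₂) Z_le_A1) w hw ho0 (above_nm ho)
    (t := ⟨x ^ p, hxp⟩) (s := ⟨y, hyA⟩) ?_ ?_ ?_ ?_
  · have h1 : IsInert w (τ ^ p) := (hτ _).2 (Subgroup.npow_mem_zpowers τ p)
    have h2 : IsInert w (x ^ p).1.2 := by
      rw [← pr2_val, map_pow, pr2_val, hx]
      exact h1
    exact h2
  · intro g hg
    have hg' : IsInert w (g : FP π r₁).1.2 := hg
    obtain ⟨j, hj⟩ := Subgroup.mem_zpowers_iff.1 ((hτ _).1 hg')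
    have h1 : r₂ (g : FP π r₁).1.2 = 1 := g.2
    rw [← hj, map_zpow, ← orderOf_dvd_iff_zpow_eq_one, hord] at h1
    obtain ⟨m, hm⟩ := h1
    refine ⟨m, (⟨x ^ p, hxp⟩ ^ m)⁻¹ * g, ?_, ?_⟩
    · rw [Subgroup.mem_subgroupOf, mem_Zz, ← pr2_val]
      have h2 : (((⟨x ^ p, hxp⟩ ^ m)⁻¹ * g : A1 π r₁ r₂) : FP π r₁) =
        ((x ^ p) ^ m)⁻¹ * (g : FP π r₁) := by
        simp
      rw [h2, map_mul, map_inv, map_zpow, map_pow, pr2_val, pr2_val, hx, ← hj, hm, zpow_mul,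
        zpow_natCast, inv_mul_cancel]
    · rw [mul_inv_cancel_left]
  · have h2 : IsFrob w (nm o) y.1.2 := by
      rw [hy]
      exact hφ
    exact h2
  · exact Subtype.ext hcon

end

end OE3aux

open OE3aux

theorem sol_FP {p : ℕ} [Fact p.Prime] (hp : p ≠ 2) {K L C M : Type} [Field K] [NumberField K]
    [Field L] [NumberField L] [Algebra K L] [IsGalois K L] [Field C] [NumberField C] [Algebra K C]
    [IsGalois K C] [Field M] [NumberField M] [Algebra K M] [IsGalois K M]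
    {i₁ : L →ₐ[K] M} {i₂ : C →ₐ[K] M} {r₁ : (M ≃ₐ[K] M) →* (L ≃ₐ[K] L)}
    {r₂ : (M ≃ₐ[K] M) →* (C ≃ₐ[K] C)} (h₁ : ∀ g x, g (i₁ x) = i₁ (r₁ g x))
    (h₂ : ∀ g x, g (i₂ x) = i₂ (r₂ g x)) (hs₁ : Function.Surjective r₁)
    (hs₂ : Function.Surjective r₂) (hgen : ∀ g, r₁ g = 1 → r₂ g = 1 → g = 1)
    {E : Type} [Group E] [Finite E] (hE : IsPGroup p E) (π : E →* (L ≃ₐ[K] L))
    (hπ : Function.Surjective π) (hker : π.ker ≤ Subgroup.center E) (hcard : Nat.card π.ker = p)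
    (ι : π.ker →* Lˣ) (hι : Function.Injective ι)
    (hιf : ∀ (σ : L ≃ₐ[K] L) (z : π.ker), σ ((ι z : Lˣ) : L) = ι z)
    (hL : ∀ w : Pr L, Above w p → ∀ σ : L ≃ₐ[K] L, IsInert w σ → σ = 1)
    (hC : Module.finrank K C = p)
    (hCp : ∀ w : Pr C, Above w p → ∀ σ : C ≃ₐ[K] C, IsInert w σ → σ = 1)
    {o : Pr K} (ho0 : (nm o).Prime) (ho1 : nm o % p = 1)
    (hor : ∃ w : Pr C, (below w : Pr K) = o ∧ ∃ σ : C ≃ₐ[K] C, IsInert w σ ∧ σ ≠ 1)
    (hloc : ∀ w : Pr L, ¬ Above w p → (below w : Pr K) ≠ o →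
      (∃ σ : L ≃ₐ[K] L, IsInert w σ ∧ σ ≠ 1) →
      ∃ (q : ℕ) (t s : E), q.Prime ∧ q % p = 1 ∧ Above w q ∧ IsInert w (π t) ∧
        (∀ g : E, IsInert w (π g) → ∃ k : ℤ, ∃ z ∈ π.ker, g = t ^ k * z) ∧ IsFrob w q (π s) ∧
        s * t * s⁻¹ = t ^ q) :
    ∃ b : FP π r₁ → Mˣ,
      (∀ g h : FP π r₁, ((b (g * h) : Mˣ) : M) = b g * (g : E × (M ≃ₐ[K] M)).2 (b h : M)) ∧
      ∀ z : π.ker, ((b (FPk z) : Mˣ) : M) = i₁ (ι z : L) := by
  have hpp : p.Prime := Fact.out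
  have hCen : RG.E.Cen p M (FP π r₁) (Zz π r₁) (io i₁ ι r₁) :=
    cenF h₁ h₂ hgen hE hker hcard ι hι hιf hL hC hCp
  obtain ⟨k, hk⟩ := IsPGroup.iff_card.1 (pgroupM (r₁ := r₁) hπ hgen hE hC)
  have hM : Module.finrank K M = p ^ k := by
    rw [← IsGalois.card_aut_eq_finrank, hk]
  have haway := fun w hw ho => loc_away (r₁ := r₁) (o := o) h₁ hE hker hcard ι hι hιf hL hloc w hw ho
  -- the solution over `A1`
  obtain ⟨b1, hb1⟩ := RG.E.bhn_of_local hp (cen_sub hCen (A1 π r₁ r₂) Z_le_A1) (by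
    intro w hw
    by_cases ho : (below w : Pr K) = o
    · exact loc_o hM h₂ hC hπ hCen ho0 hor w hw ho
    · obtain ⟨β, hβ⟩ := haway w hw ho
      exact ⟨_, loc_sub Z_le_A1 hβ⟩)
  -- the last step
  obtain ⟨w0, hw0⟩ := RG.H.exists_above (L := M) o
  have hw0p : ¬ Above w0 p := by
    intro h
    have h1 : RG.Lies (algebraMap K M) w0 o := (lies_iff_below w0 o).2 hw0
    exact not_above_of_nm hpp ho1 ((h1.above_iff p).1 h)
  obtain ⟨τ, φ, hτ, hτ1, -, -, -⟩ := exists_tau hM h₂ hC hor w0 hw0p hw0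
  obtain ⟨e, he⟩ := exists_lift (r₁ := r₁) hπ τ
  have heA : e ∉ A1 π r₁ r₂ := by
    rw [mem_A1, he]
    exact hτ1
  have hidx : (A1 π r₁ r₂).index = p := by
    unfold A1
    rw [Subgroup.index_ker]
    have hsurj : Function.Surjective
        (r₂.comp ((MonoidHom.snd E (M ≃ₐ[K] M)).comp (FP π r₁).subtype)) := by
      intro c
      obtain ⟨g, hg⟩ := hs₂ c
      obtain ⟨x, hx⟩ := exists_lift (r₁ := r₁) hπ g
      exact ⟨x, by rw [← hg, ← hx]; rfl⟩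
    rw [MonoidHom.range_eq_top.2 hsurj, Subgroup.card_top, card_C hC]
  have hnorm : (A1 π r₁ r₂).Normal := by
    unfold A1
    infer_instance
  have hS : RG.E.Step p ⊤ (A1 π r₁ r₂) e := by
    refine RG.E.step_of_index le_top ?_ ?_ (Subgroup.mem_top e) heA
    · exact hnorm.subgroupOf ⊤
    · change (A1 π r₁ r₂).relIndex ⊤ = p
      rw [Subgroup.relIndex_top_right, hidx]
  obtain ⟨b, hb⟩ := RG.E.bhn_stepO hp hCen hS Z_le_A1 hw0p
    ⟨1, one_mem _, by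
      rw [mul_one]
      have h1 : IsInert w0 e.1.2 := by
        rw [he]
        exact (hτ τ).2 (Subgroup.mem_zpowers τ)
      exact h1⟩
    (by
      intro w hw hcon
      refine haway w hw fun ho => hcon ?_
      obtain ⟨ρ, hρ⟩ := exists_conjK (w := w) (w' := w0) (ho.trans hw0.symm)
      obtain ⟨x, hx⟩ := exists_lift (r₁ := r₁) hπ ρ
      refine ⟨x, Subgroup.mem_top x, fun y => ?_⟩
      rw [FP_smul, hx, hρ])
    (sol_sub Z_le_A1 hb1)
  refine ⟨b, fun g h => ?_, fun z => ?_⟩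
  · rw [hb.coc g (Subgroup.mem_top g) h (Subgroup.mem_top h), Units.val_mul, RG.E.coe_act]
    rfl
  · have h1 := hb.res ⟨FPk z, rfl⟩
    have h2 : b (FPk z) = io i₁ ι r₁ ⟨FPk z, rfl⟩ := h1
    rw [h2]
    rfl

end Pool.Agent.RGK
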