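import Mathlib
import Pool.Agent.Lib.RGK.OEDefs

/-!
RG v5, row OE5: descent of a solution from `M` to `L` (Hilbert 90).

Let `N := {(1, n) | r₁ n = 1} ≤ FP π r₁`; `n ↦ b (1, n)` is a multiplicative cocycle of
`ker r₁ = Gal(M / i₁ L)` (make `M` an algebra over `L` through `i₁`; `M / L` is Galois,
`ker r₁ ≃ (M ≃ₐ[L] M)` by `restrictScalars`) with values in `Mˣ`, so by Hilbert 90
(`groupCohomology.isMulCoboundary₁_of_isMulCocycle₁_of_aut_to_units` or the current name) there is `x : Mˣ`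
with `b (1, n) = n x / x`. Put `b' g := b g * x / g.2 x` for `g ∈ FP`: again a cocycle, `b' = 1` on `N`,
`b' = b` at the `FPk z` (`z` acts trivially). `N` is normal in `FP`; `b' (g n) = b' g * g (b' n) = b' g` and
`b' (n g) = n (b' g)`, with `n g = g n'`, so `n (b' g) = b' g` for all `n ∈ ker r₁`: `b' g ∈ i₁ L`. For
`e : E` choose `g = (e, y) ∈ FP` (`r₁` surjective); `b' g` does not depend on the choice of `y`
(`(e, y)⁻¹ (e, y') ∈ N`): `i₁ (b₀ e) := b' (e, y)`.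
-/

set_option autoImplicit false

namespace Pool.Agent.RGK

open NumberField IsDedekindDomain
open Pool.Agent.RG.H (Pr below)

/-- Hilbert 90 for a finite group of automorphisms -/
private theorem OE5_h90 {K M : Type} [Field K] [Field M] [Algebra K M]
    (H : Subgroup (M ≃ₐ[K] M)) [Finite H] (c : H → Mˣ)
    (hc : ∀ m n : H, ((c (m * n) : Mˣ) : M) = c m * (m : M ≃ₐ[K] M) (c n : M)) :
    ∃ x : Mˣ, ∀ n : H, ((c n : Mˣ) : M) * x = (n : M ≃ₐ[K] M) (x : M) := by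
  classical
  have hfin : Fintype H := Fintype.ofFinite H
  let F : H → (M →* M) := fun n => ((n : M ≃ₐ[K] M) : M →ₐ[K] M).toRingHom.toMonoidHom
  have hF : ∀ (n : H) (m : M), F n m = (n : M ≃ₐ[K] M) m := fun n m => rfl
  have hinj : Function.Injective F := by
    intro m n hmn
    refine Subtype.ext (AlgEquiv.ext fun y => ?_)
    exact DFunLike.congr_fun hmn y
  have hli := (linearIndependent_monoidHom M M).comp F hinj
  have hex : ∃ m : M, ∑ n : H, ((c n : Mˣ) : M) * (n : M ≃ₐ[K] M) m ≠ 0 := by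
    by_contra hcon
    push Not at hcon
    have h1 : ∑ n : H, ((c n : Mˣ) : M) • ((fun f : M →* M => (f : M → M)) ∘ F) n = 0 := by
      funext m
      rw [Finset.sum_apply]
      exact hcon m
    have h2 := Fintype.linearIndependent_iff.1 hli (fun n => ((c n : Mˣ) : M)) h1 1
    exact (c 1).ne_zero h2
  obtain ⟨m, hm⟩ := hex
  set x' : M := ∑ n : H, ((c n : Mˣ) : M) * (n : M ≃ₐ[K] M) m with hx'
  have key : ∀ n : H, ((c n : Mˣ) : M) * (n : M ≃ₐ[K] M) x' = x' := by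
    intro n
    have h1 : ((c n : Mˣ) : M) * (n : M ≃ₐ[K] M) x' =
        ∑ h : H, ((c (n * h) : Mˣ) : M) * ((n * h : H) : M ≃ₐ[K] M) m := by
      rw [hx', map_sum, Finset.mul_sum]
      refine Finset.sum_congr rfl fun h _ => ?_
      rw [hc, map_mul, mul_assoc]
      rfl
    rw [h1]
    exact Fintype.sum_equiv (Equiv.mulLeft n)
      (fun h : H => ((c (n * h) : Mˣ) : M) * ((n * h : H) : M ≃ₐ[K] M) m)
      (fun h : H => ((c h : Mˣ) : M) * (h : M ≃ₐ[K] M) m) (fun h => rfl)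
  refine ⟨(Units.mk0 x' hm)⁻¹, fun n => ?_⟩
  have h1 : (((Units.mk0 x' hm)⁻¹ : Mˣ) : M) = x'⁻¹ := by
    rw [Units.val_inv_eq_inv_val, Units.val_mk0]
  have h2 : (n : M ≃ₐ[K] M) x' ≠ 0 := fun h0 => hm ((map_eq_zero_iff _
    (n : M ≃ₐ[K] M).injective).1 h0)
  rw [h1, map_inv₀]
  refine eq_inv_of_mul_eq_one_left ?_
  calc ((c n : Mˣ) : M) * x'⁻¹ * (n : M ≃ₐ[K] M) x' =
      ((c n : Mˣ) : M) * (n : M ≃ₐ[K] M) x' * x'⁻¹ := by ring
    _ = 1 := by rw [key, mul_inv_cancel₀ hm]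

theorem descend {K L M : Type} [Field K] [NumberField K] [Field L] [NumberField L] [Algebra K L]
    [IsGalois K L] [Field M] [NumberField M] [Algebra K M] [IsGalois K M]
    {i₁ : L →ₐ[K] M} {r₁ : (M ≃ₐ[K] M) →* (L ≃ₐ[K] L)} (h₁ : ∀ g x, g (i₁ x) = i₁ (r₁ g x))
    (hs₁ : Function.Surjective r₁) {E : Type} [Group E] [Finite E] (π : E →* (L ≃ₐ[K] L))
    (ι : π.ker →* Lˣ) (b : FP π r₁ → Mˣ)
    (hb : ∀ g h : FP π r₁, ((b (g * h) : Mˣ) : M) = b g * (g : E × (M ≃ₐ[K] M)).2 (b h : M))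
    (hbι : ∀ z : π.ker, ((b (FPk z) : Mˣ) : M) = i₁ (ι z : L)) :
    ∃ b₀ : E → Lˣ, (∀ e f : E, ((b₀ (e * f) : Lˣ) : L) = b₀ e * π e (b₀ f : L)) ∧
      ∀ z : π.ker, b₀ z = ι z := by
  classical
  have hfdM : FiniteDimensional K M := Module.Finite.of_restrictScalars_finite ℚ K M
  have hfinG : Finite (M ≃ₐ[K] M) := inferInstance
  -- the elements of the kernel
  let nn : r₁.ker → FP π r₁ := fun n => ⟨(1, n), by
    rw [mem_FP]
    change π 1 = r₁ n
    rw [map_one]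
    exact n.2.symm⟩
  have hnn2 : ∀ n : r₁.ker, ((nn n : FP π r₁) : E × (M ≃ₐ[K] M)).2 = n := fun n => rfl
  have hnnmul : ∀ m n : r₁.ker, nn (m * n) = nn m * nn n := by
    intro m n
    refine Subtype.ext (Prod.ext ?_ rfl)
    change (1 : E) = 1 * 1
    rw [one_mul]
  obtain ⟨x, hx⟩ := OE5_h90 r₁.ker (fun n => b (nn n)) (fun m n => by
    rw [hnnmul, hb, hnn2])
  -- the modified cocycle
  let B : FP π r₁ → M := fun g => (b g : M) * x / (g : E × (M ≃ₐ[K] M)).2 (x : M)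
  have hx0 : (x : M) ≠ 0 := x.ne_zero
  have hgx : ∀ g : M ≃ₐ[K] M, g (x : M) ≠ 0 := fun g h0 =>
    hx0 ((map_eq_zero_iff _ g.injective).1 h0)
  have hBmul : ∀ g h : FP π r₁, B (g * h) = B g * (g : E × (M ≃ₐ[K] M)).2 (B h) := by
    intro g h
    change (b (g * h) : M) * x / ((g * h : FP π r₁) : E × (M ≃ₐ[K] M)).2 (x : M) =
      (b g : M) * x / (g : E × (M ≃ₐ[K] M)).2 (x : M) *
        (g : E × (M ≃ₐ[K] M)).2 ((b h : M) * x / (h : E × (M ≃ₐ[K] M)).2 (x : M))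
    have h2 : ((g * h : FP π r₁) : E × (M ≃ₐ[K] M)).2 (x : M) =
      (g : E × (M ≃ₐ[K] M)).2 ((h : E × (M ≃ₐ[K] M)).2 (x : M)) := rfl
    rw [h2, hb, map_div₀, map_mul]
    have k1 := hgx (g : E × (M ≃ₐ[K] M)).2
    have k2 : (g : E × (M ≃ₐ[K] M)).2 ((h : E × (M ≃ₐ[K] M)).2 (x : M)) ≠ 0 := by
      rw [← h2]
      exact hgx _
    field_simp
  have hBn : ∀ n : r₁.ker, B (nn n) = 1 := by
    intro n
    change (b (nn n) : M) * x / (n : M ≃ₐ[K] M) (x : M) = 1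
    rw [hx n]
    exact div_self (hgx _)
  have hBright : ∀ (g : FP π r₁) (n : r₁.ker), B (g * nn n) = B g := by
    intro g n
    rw [hBmul, hBn, map_one, mul_one]
  have hBz : ∀ z : π.ker, B (FPk z) = i₁ (ι z : L) := by
    intro z
    change (b (FPk z) : M) * x / (x : M) = _
    rw [mul_div_assoc, div_self hx0, mul_one, hbι]
  have hBfix : ∀ (g : FP π r₁) (n : r₁.ker), (n : M ≃ₐ[K] M) (B g) = B g := by
    intro g n
    have h1 : B (nn n * g) = (n : M ≃ₐ[K] M) (B g) := by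
      rw [hBmul, hBn, one_mul]
    have hn' : (g : E × (M ≃ₐ[K] M)).2⁻¹ * n * (g : E × (M ≃ₐ[K] M)).2 ∈ r₁.ker := by
      rw [MonoidHom.mem_ker, map_mul, map_mul, MonoidHom.mem_ker.1 n.2, mul_one, ← map_mul,
        inv_mul_cancel, map_one]
    have h2 : nn n * g = g * nn ⟨_, hn'⟩ := by
      refine Subtype.ext (Prod.ext ?_ ?_)
      · change 1 * (g : E × (M ≃ₐ[K] M)).1 = (g : E × (M ≃ₐ[K] M)).1 * 1
        rw [one_mul, mul_one]
      · change (n : M ≃ₐ[K] M) * (g : E × (M ≃ₐ[K] M)).2 = (g : E × (M ≃ₐ[K] M)).2 *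
          ((g : E × (M ≃ₐ[K] M)).2⁻¹ * n * (g : E × (M ≃ₐ[K] M)).2)
        rw [mul_assoc, mul_inv_cancel_left]
    rw [← h1, h2, hBright]
  have hrange : ∀ g : FP π r₁, ∃ y : L, i₁ y = B g := by
    intro g
    have h1 : B g ∈ i₁.fieldRange := by
      rw [← IsGalois.fixedField_fixingSubgroup i₁.fieldRange, IntermediateField.mem_fixedField_iff]
      intro τ hτ
      rw [IntermediateField.mem_fixingSubgroup_iff] at hτ
      have h2 : τ ∈ r₁.ker := by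
        rw [MonoidHom.mem_ker]
        refine AlgEquiv.ext fun y => ?_
        have h3 := hτ (i₁ y) ⟨y, rfl⟩
        rw [h₁] at h3
        exact (i₁ : L →+* M).injective h3
      exact hBfix g ⟨τ, h2⟩
    exact h1
  have hB0 : ∀ g : FP π r₁, B g ≠ 0 := by
    intro g
    exact div_ne_zero (mul_ne_zero (b g).ne_zero hx0) (hgx _)
  -- the choice
  have hch : ∀ e : E, ∃ y : Lˣ, ∀ g : FP π r₁, (g : E × (M ≃ₐ[K] M)).1 = e →
      i₁ (y : L) = B g := by
    intro e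
    obtain ⟨τ, hτ⟩ := hs₁ (π e)
    let g0 : FP π r₁ := ⟨(e, τ), by rw [mem_FP]; exact hτ.symm⟩
    obtain ⟨y, hy⟩ := hrange g0
    have hy0 : y ≠ 0 := by
      rintro rfl
      rw [map_zero] at hy
      exact hB0 g0 hy.symm
    refine ⟨Units.mk0 y hy0, fun g hg => ?_⟩
    rw [Units.val_mk0, hy]
    have hn' : τ⁻¹ * (g : E × (M ≃ₐ[K] M)).2 ∈ r₁.ker := by
      rw [MonoidHom.mem_ker, map_mul, map_inv, hτ]
      have h2 : π (g : E × (M ≃ₐ[K] M)).1 = r₁ (g : E × (M ≃ₐ[K] M)).2 := g.2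
      rw [← h2, hg, inv_mul_cancel]
    have h3 : g = g0 * nn ⟨_, hn'⟩ := by
      refine Subtype.ext (Prod.ext ?_ ?_)
      · change (g : E × (M ≃ₐ[K] M)).1 = e * 1
        rw [hg, mul_one]
      · change (g : E × (M ≃ₐ[K] M)).2 = τ * (τ⁻¹ * (g : E × (M ≃ₐ[K] M)).2)
        rw [mul_inv_cancel_left]
    rw [h3, hBright]
  choose b₀ hb₀ using hch
  have hlift : ∀ e : E, ∃ g : FP π r₁, (g : E × (M ≃ₐ[K] M)).1 = e := by
    intro e
    obtain ⟨τ, hτ⟩ := hs₁ (π e)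
    exact ⟨⟨(e, τ), by rw [mem_FP]; exact hτ.symm⟩, rfl⟩
  refine ⟨b₀, fun e f => ?_, fun z => ?_⟩
  · obtain ⟨g, hg⟩ := hlift e
    obtain ⟨h, hh⟩ := hlift f
    apply (i₁ : L →+* M).injective
    change i₁ _ = i₁ _
    rw [hb₀ (e * f) (g * h) (by
      change (g : E × (M ≃ₐ[K] M)).1 * (h : E × (M ≃ₐ[K] M)).1 = _
      rw [hg, hh]), hBmul, ← hb₀ e g hg, ← hb₀ f h hh, h₁, map_mul]
    have h2 : π (g : E × (M ≃ₐ[K] M)).1 = r₁ (g : E × (M ≃ₐ[K] M)).2 := g.2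
    rw [← h2, hg]
  · refine Units.ext ?_
    apply (i₁ : L →+* M).injective
    change i₁ _ = i₁ _
    rw [hb₀ z (FPk z) rfl, hBz]

end Pool.Agent.RGK
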