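import Mathlib
import Pool.Agent.Lib.RG.EMain
import Pool.Agent.Lib.RGK.B1
import Pool.Agent.Lib.RGK.B2
import Pool.Agent.Lib.RGK.B4
import Pool.Agent.Lib.RGK.E23
import Pool.Agent.Lib.RGK.E24
import Pool.Agent.Lib.RGK.E28
import Pool.Agent.Lib.RGK.EMain
import Pool.Agent.Lib.RGK.OEDefs
import Pool.Agent.Lib.RGK.C00
import Pool.Agent.Lib.RGK.C27
import Pool.Agent.Lib.RGK.GL1
import Pool.Agent.Lib.RGK.OE3
import Pool.Agent.Lib.RGK.OE5

/-!
RG v5, row OE6: the embedding theorem with the local condition at one prime `o` omitted (`ζ ∈ K`).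

As the proof of `embeddingK` (`EMain.lean`), with the first half `emb_MK` replaced as follows: `M := L`
(as `ζ ∈ K`), `ρ := π`, `j := AlgHom.id`, `ζ_M := algebraMap K L ζ`; `b` from `descend` (OE5) and
`sol_FP` (OE3), where `ι := exists_iota`, `C` := the cyclic extension of degree `p` ramified at `o` given by
`CycExt p (B : Set _)` for some finite set `B` with `o ∉ B` (hypothesis `hcyc'`), `M` := the compositum
(`exists_compositumK`). The hypothesis `hloc` of `OE3` for `w` with `below w ≠ o`: by `hunr`, `v := below w`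
is in `T` if some inert `σ ≠ 1`; use `hloc v`, transported to `w` by conjugation: see `local_hypK` (rows
E26 or E21..E24) and its use in `emb_MK`, with the identity instead of `θ` (apply it to the set
`T \ {o}` and the primes `w` with `below w ≠ o`; copy its proof if needed).
Then `emb_NK`, `averaging`, `inj_reduceK`, `remove_allK hcyc` exactly as in `embeddingK`.
-/

set_option autoImplicit false

namespace Pool.Agent.RGK

open NumberField IsDedekindDomain
open Pool.Agent.RG (Above IsDec IsInert IsFrob)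
open Pool.Agent.RG.H (Pr PP below)

/-- the local data at one prime, transported to another prime above the same prime -/
private theorem OE6_loc {K : Type} [Field K] [NumberField K] {L : Type} [Field L] [NumberField L]
    [Algebra K L] [IsGalois K L] {E : Type} [Group E] (π : E →* (L ≃ₐ[K] L))
    (hπ : Function.Surjective π) {w w₀ : Pr L} (hqp : (nm (below w : Pr K)).Prime)
    (hw₀ : (below w₀ : Pr K) = below w) {t₀ s₀ : E}
    (ht₀ : ∀ σ : L ≃ₐ[K] L, IsInert w₀ σ ↔ σ ∈ Subgroup.zpowers (π t₀))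
    (hs₀ : IsFrob w₀ (nm (below w : Pr K)) (π s₀))
    (hrel : s₀ * t₀ * s₀⁻¹ = t₀ ^ nm (below w : Pr K)) :
    ∃ (q : ℕ) (t s : E), q.Prime ∧ nm (below w : Pr K) = q ∧ Above w q ∧ IsInert w (π t) ∧
      (∀ g : E, IsInert w (π g) → ∃ k : ℤ, ∃ z ∈ π.ker, g = t ^ k * z) ∧ IsFrob w q (π s) ∧
      s * t * s⁻¹ = t ^ q := by
  obtain ⟨τ, hτ⟩ := exists_conjK (K := K) (w := w₀) (w' := w) hw₀
  obtain ⟨e, he⟩ := hπ τ
  have hinert₀ : IsInert w₀ (π t₀) := (ht₀ (π t₀)).mpr (Subgroup.mem_zpowers _)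
  have hwq : Above w (nm (below w : Pr K)) := by
    have h3 : RG.Lies (algebraMap K L) w (below w : Pr K) := (lies_iff_below w _).2 rfl
    rw [h3.above_iff]
    unfold Above
    have h4 : ((nm (below w : Pr K) : ℕ) : K) =
        algebraMap (𝓞 K) K ((nm (below w : Pr K) : ℕ) : 𝓞 K) := (map_natCast _ _).symm
    rw [h4, HeightOneSpectrum.valuation_lt_one_iff_mem]
    exact Ideal.absNorm_mem _
  have ht1 : π (e * t₀ * e⁻¹) = τ * π t₀ * τ⁻¹ := by
    rw [map_mul, map_mul, map_inv, he]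
  have hs1 : π (e * s₀ * e⁻¹) = τ * π s₀ * τ⁻¹ := by
    rw [map_mul, map_mul, map_inv, he]
  refine ⟨nm (below w : Pr K), e * t₀ * e⁻¹, e * s₀ * e⁻¹, hqp, rfl, hwq, ?_, ?_, ?_, ?_⟩
  · rw [ht1]
    exact IsInert.conj_toK hτ hinert₀
  · intro g' hg'
    have hτ' : ∀ x, w₀.valuation L (τ⁻¹ x) = w.valuation L x := by
      intro x
      rw [← hτ]
      congr 1
      exact AlgEquiv.apply_symm_apply τ x
    have h2 := IsInert.conj_toK hτ' hg'
    rw [inv_inv, ht₀, Subgroup.mem_zpowers_iff] at h2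
    obtain ⟨k, hk⟩ := h2
    refine ⟨k, (e * t₀ * e⁻¹) ^ (-k) * g', ?_, ?_⟩
    · rw [MonoidHom.mem_ker, map_mul, map_zpow, ht1, zpow_neg]
      rw [conj_zpow, hk]
      group
    · rw [zpow_neg, mul_inv_cancel_left]
  · rw [hs1]
    exact IsFrob.conj_toK hτ hs₀
  · have h3 : e * s₀ * e⁻¹ * (e * t₀ * e⁻¹) * (e * s₀ * e⁻¹)⁻¹ = e * (s₀ * t₀ * s₀⁻¹) * e⁻¹ := by
      group
    rw [h3, hrel]
    rw [conj_pow]

theorem embeddingO_aux (p : ℕ) [Fact p.Prime] (hp : p ≠ 2) (K : Type) [Field K] [NumberField K]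
    {ζ : K} (hζ : IsPrimitiveRoot ζ p)
    (T : Set (Pr K)) (hT : ∀ v ∈ T, (nm v).Prime ∧ nm v % p = 1) (hcyc : CycExt p T)
    {o : Pr K} (ho : o ∈ T) {B : Set (Pr K)} (hB : ∀ v ∈ B, nm v % p = 1) (hoB : o ∉ B)
    (hcyc' : CycExt p B)
    (L : Type) [Field L] [NumberField L] [Algebra K L] [IsGalois K L]
    (E : Type) [Group E] [Finite E] (hE : IsPGroup p E)
    (π : E →* (L ≃ₐ[K] L)) (hπ : Function.Surjective π) (hker : π.ker ≤ Subgroup.center E)
    (hcard : Nat.card π.ker = p) (hunr : UnrOutK T L)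
    (hloc : ∀ v ∈ T, v ≠ o → ∃ w : Pr L, (below w : Pr K) = v ∧ ∃ t s : E,
      (∀ σ : L ≃ₐ[K] L, IsInert w σ ↔ σ ∈ Subgroup.zpowers (π t)) ∧ IsFrob w (nm v) (π s) ∧
      s * t * s⁻¹ = t ^ nm v) :
    ∃ (L' : Type) (_ : Field L') (_ : NumberField L') (_ : Algebra K L') (_ : IsGalois K L')
      (j : L →ₐ[K] L') (ψ : (L' ≃ₐ[K] L') →* E), Function.Injective ψ ∧
      (∀ (g : L' ≃ₐ[K] L') (x : L), g (j x) = j (π (ψ g) x)) ∧ UnrOutK T L' := by
  classical
  have hpp : p.Prime := Fact.out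
  -- roots of unity
  have hζL : IsPrimitiveRoot (algebraMap K L ζ) p :=
    hζ.map_of_injective (algebraMap K L).injective
  obtain ⟨ι, hι, hιk⟩ := RG.exists_iota hζL hcard
  have hιf : ∀ (σ : L ≃ₐ[K] L) (z : π.ker), σ ((ι z : Lˣ) : L) = ι z := by
    intro σ z
    obtain ⟨n, hn⟩ := hιk z
    rw [hn, map_pow, σ.commutes]
  -- the auxiliary cyclic extension
  have hop : ¬ Above o p := not_above_of_nm hpp (hT o ho).2
  obtain ⟨C, _, _, _, _, hC1, hC2, hC3⟩ := hcyc' o hoB hop (hT o ho).2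
  obtain ⟨M, _, _, _, _, i₁, i₂, r₁, r₂, h₁, h₂, hs₁, hs₂, hgen⟩ := exists_compositumK K L C
  have hL : ∀ w : Pr L, Above w p → ∀ σ : L ≃ₐ[K] L, IsInert w σ → σ = 1 := by
    intro w hw σ hσ
    refine hunr w (fun h0 => ?_) σ hσ
    exact not_above_of_nm hpp (hT _ h0).2 ((RG.H.above_iff w p).1 hw)
  have hCp : ∀ w : Pr C, Above w p → ∀ σ : C ≃ₐ[K] C, IsInert w σ → σ = 1 := by
    intro w hw σ hσ
    refine hC2 w (fun h0 => ?_) σ hσ
    have h3 := (RG.H.above_iff (K := K) w p).1 hw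
    rcases h0 with h0 | h0
    · exact not_above_of_nm hpp (hB _ h0) h3
    · rw [Set.mem_singleton_iff] at h0
      rw [h0] at h3
      exact hop h3
  have hor : ∃ w : Pr C, (below w : Pr K) = o ∧ ∃ σ : C ≃ₐ[K] C, IsInert w σ ∧ σ ≠ 1 := by
    unfold UnrAtK at hC3
    push Not at hC3
    exact hC3
  obtain ⟨b, hb, hbι⟩ := sol_FP hp h₁ h₂ hs₁ hs₂ hgen hE π hπ hker hcard ι hι hιf hL hC1 hCp
    (hT o ho).1 (hT o ho).2 hor (by
      intro w _ hwo hσ
      have hv : (below w : Pr K) ∈ T := by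
        by_contra hcon
        obtain ⟨σ, hσ1, hσ2⟩ := hσ
        exact hσ2 (hunr w hcon σ hσ1)
      obtain ⟨hqp, hq1⟩ := hT _ hv
      obtain ⟨w₀, hw₀, t₀, s₀, ht₀, hs₀, hrel⟩ := hloc _ hv hwo
      obtain ⟨q, t, s, k1, k2, k3, k4, k5, k6⟩ := OE6_loc π hπ hqp hw₀ ht₀ hs₀ hrel
      exact ⟨q, t, s, k1, k2 ▸ hq1, k3, k4, k5, k6⟩)
  obtain ⟨b₀, hb₀, hb₀ι⟩ := descend h₁ hs₁ π ι b hb hbι
  -- from here on as in `embeddingK`, with `M = L`
  have hbz : ∀ z ∈ π.ker, ∃ z' : π.ker, (z' : E) = z ∧ b₀ z = ι z' := fun z hz =>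
    ⟨⟨z, hz⟩, rfl, hb₀ι ⟨z, hz⟩⟩
  obtain ⟨N, _, _, _, _, i, ψ, hN, hψ1, hψ2⟩ := emb_NK hp hE (ρ := π)
    (b := fun e => ((b₀ e : Lˣ) : L)) hζL (fun e => (π e).commutes ζ)
    (fun g _ => by
      obtain ⟨e, he⟩ := hπ g
      exact ⟨e, he.symm⟩) hcard (fun w hw e he => hL w hw _ he) (fun e => (b₀ e).ne_zero) hb₀
    (by
      intro z hz h1
      obtain ⟨z', hz', h2⟩ := hbz z hz
      have h3 : b₀ z = 1 := Units.ext h1
      have h5 : z' = 1 := hι (by rw [← h2, h3, map_one])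
      rw [← hz', h5]
      rfl)
    (by
      intro z hz
      obtain ⟨z', hz', h2⟩ := hbz z hz
      have h3 : (ι z') ^ p = 1 := by
        rw [← map_pow]
        have h4 : z' ^ p = 1 := by
          rw [← hcard]
          exact pow_card_eq_one'
        rw [h4, map_one]
      have h5 : (b₀ z) ^ p = 1 := by rw [h2, h3]
      have h6 := congrArg Units.val h5
      rw [Units.val_pow_eq_pow_val, Units.val_one] at h6
      exact h6)
  obtain ⟨r, hr⟩ := exists_restrK i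
  have hζ' : IsPrimitiveRoot (i (algebraMap K L ζ)) p := hζL.map_of_injective i.injective
  have : (fixK K (i (algebraMap K L ζ))).Normal := fixK_normal hζ'
  have hinj : Function.Injective i := i.injective
  have hψr : ∀ x : fixK K (i (algebraMap K L ζ)), π (ψ x) = r x := by
    intro x
    apply AlgEquiv.ext
    intro y
    apply hinj
    rw [← hr]
    exact (hψ1 x y).symm
  obtain ⟨Ψ, hΨ1, hΨ2⟩ := RG.averaging p (N ≃ₐ[K] N) (fixK K (i (algebraMap K L ζ))) hN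
    (fixK_index hζ') E (L ≃ₐ[K] L) hE π hπ hker hcard r ψ hψr
  have hΨ3 : ∀ (g : N ≃ₐ[K] N) (x : L), g (i x) = i (π (Ψ g) x) := by
    intro g x
    rw [hΨ1, hr]
  have hΨ4 : ∀ w : Pr N, Above w p → ∀ g : N ≃ₐ[K] N, IsInert w g → Ψ g = 1 := by
    intro w hw g hg
    refine hΨ2 (RG.inertiaGroup (N ≃ₐ[K] N) w) ?_ g hg
    intro x hx y hy
    obtain ⟨w', hb', hw'⟩ := exists_translateK w y
    have h1 : IsInert w' (y * x * y⁻¹) := IsInert.conj_toK hw' hx
    have h2 : Above w' p := by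
      have h3 := hw' (p : N)
      rw [map_natCast] at h3
      show w'.valuation N (p : N) < 1
      rw [h3]
      exact hw
    exact hψ2 w' h2 ⟨y * x * y⁻¹, hy⟩ h1
  obtain ⟨N₀, _, _, _, _, j₀, Ψ₀, hinj₀, hΨ₀, hunr₀⟩ := inj_reduceK π i Ψ hΨ3
  refine remove_allK hcyc hE π hker hcard hunr j₀ Ψ₀ hinj₀ hΨ₀ fun v hv => hunr₀ v ?_
  intro w hw g hg
  refine hΨ4 w ?_ g hg
  rw [RG.H.above_iff w p (K := K), hw]
  exact hv

/-- the embedding theorem with the local condition at `o` omitted -/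
theorem embeddingO (p : ℕ) [Fact p.Prime] (hp : p ≠ 2) (K : Type) [Field K] [NumberField K]
    {ζ : K} (hζ : IsPrimitiveRoot ζ p)
    (T : Set (Pr K)) (hT : ∀ v ∈ T, (nm v).Prime ∧ nm v % p = 1) (hcyc : CycExt p T)
    (o : Pr K) (ho : o ∈ T)
    (L : Type) [Field L] [NumberField L] [Algebra K L] [IsGalois K L]
    (E : Type) [Group E] [Finite E] (hE : IsPGroup p E)
    (π : E →* (L ≃ₐ[K] L)) (hπ : Function.Surjective π) (hker : π.ker ≤ Subgroup.center E)
    (hcard : Nat.card π.ker = p) (hunr : UnrOutK T L)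
    (hloc : ∀ v ∈ T, v ≠ o → ∃ w : Pr L, (below w : Pr K) = v ∧ ∃ t s : E,
      (∀ σ : L ≃ₐ[K] L, IsInert w σ ↔ σ ∈ Subgroup.zpowers (π t)) ∧ IsFrob w (nm v) (π s) ∧
      s * t * s⁻¹ = t ^ nm v) :
    ∃ (L' : Type) (_ : Field L') (_ : NumberField L') (_ : Algebra K L') (_ : IsGalois K L')
      (j : L →ₐ[K] L') (ψ : (L' ≃ₐ[K] L') →* E), Function.Injective ψ ∧
      (∀ (g : L' ≃ₐ[K] L') (x : L), g (j x) = j (π (ψ g) x)) ∧ UnrOutK T L' := by
  obtain ⟨B, hBf, hBd, hBp, hBV⟩ := exists_aux (K := K) (F := K) (p := p) Fact.out hp hζ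
    (G := {o}) (Set.finite_singleton o)
  have hB1 : ∀ v ∈ B, nm v % p = 1 := fun v hv => nm_mod Fact.out hζ (hBp v hv)
  have hoB : o ∉ B := fun h => Set.disjoint_left.1 hBd h rfl
  have hBV' : VT p B ≤ PP K p := by
    have e : {w : Pr K | (below w : Pr K) ∈ B} = B := by
      ext w
      have hw : (below w : Pr K) = w := by
        ext x
        show x ∈ w.asIdeal.under (𝓞 K) ↔ _
        rfl
      show (below w : Pr K) ∈ B ↔ _
      rw [hw]
    rw [e] at hBV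
    exact hBV
  exact embeddingO_aux p hp K hζ T hT hcyc ho hB1 hoB (cycExt_of_VT hp hBf hB1 hBV') L E hE π hπ
    hker hcard hunr hloc

end Pool.Agent.RGK
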