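import Mathlib
import Pool.Agent.Lib.RG.G12
import Pool.Agent.Lib.RGK.BDefs
import Pool.Agent.Lib.RGK.OE6
import Pool.Agent.Lib.RGK.G01
import Pool.Agent.Lib.RGK.G02
import Pool.Agent.Lib.RGK.G03

/-!
RG v5, row OG4: the lift property with the local condition at one prime `o` omitted (`K` contains the
`p`-th roots of unity): G04 with `embeddingO` instead of `embeddingK`.
-/

set_option autoImplicit false

namespace Pool.Agent.RGK

open NumberField IsDedekindDomain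
open Pool.Agent.RG (Above IsDec IsInert IsFrob Lies)
open Pool.Agent.RG.H (Pr below)

variable {K : Type} [Field K] [NumberField K] {X : Type} [Field X] [Algebra K X]

theorem lift_propertyO {p : ℕ} [Fact p.Prime] (hp : p ≠ 2) {ζ : K} (hζ : IsPrimitiveRoot ζ p)
    {T : Set (Pr K)} {o : Pr K} (ho : o ∈ T)
    (hT : ∀ v ∈ T, (nm v).Prime ∧ nm v % p = 1) (hcyc : CycExt p T)
    (hX : MaxExtK p T X) (x y : {t // t ∈ T ∧ t ≠ o} → (X ≃ₐ[K] X))
    (hxy : ∀ t : {t // t ∈ T ∧ t ≠ o}, InFrK (t : Pr K) (x t) (y t))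
    (E H : Type) [Group E] [Finite E] [Group H] [Finite H] (π : E →* H)
    (hπ : Function.Surjective π) (hker : π.ker ≤ Subgroup.center E) (hcard : Nat.card π.ker = p)
    (φ : (X ≃ₐ[K] X) →* H) (hφ : IsOpen (φ.ker : Set (X ≃ₐ[K] X)))
    (hφs : Function.Surjective φ) (ex ey : {t // t ∈ T ∧ t ≠ o} → E) (hx : ∀ t, π (ex t) = φ (x t))
    (hy : ∀ t, π (ey t) = φ (y t)) 
    (hr : ∀ t : {t // t ∈ T ∧ t ≠ o}, ey t * ex t * (ey t)⁻¹ = ex t ^ nm (t : Pr K)) :
    ∃ ψ : (X ≃ₐ[K] X) →* E, IsOpen (ψ.ker : Set (X ≃ₐ[K] X)) ∧ π.comp ψ = φ := by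
  have hgal := hX.gal
  obtain ⟨L, hL1, hL2, hL3, hL4⟩ := exists_layerK φ.ker hφ
  obtain ⟨θ, hθ⟩ := Pool.Agent.RG.G12_equiv
    (AlgEquiv.restrictNormalHom L : (X ≃ₐ[K] X) →* (L ≃ₐ[K] L)) φ
    (restrict_surjectiveK L) hφs hL3
  have hθ' : ∀ g, θ.symm (φ g) = AlgEquiv.restrictNormalHom L g := fun g => by
    rw [MulEquiv.symm_apply_eq, hθ]
  obtain ⟨k, hk⟩ := hX.deg L
  have hcH : Nat.card H = p ^ k := by
    rw [← Nat.card_congr θ.toEquiv, IsGalois.card_aut_eq_finrank, hk]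
  have hE : IsPGroup p E := by
    refine IsPGroup.of_card (n := k + 1) ?_
    have h1 := Subgroup.card_eq_card_quotient_mul_card_subgroup π.ker
    rw [h1, hcard, Nat.card_congr (QuotientGroup.quotientKerEquivOfSurjective π hπ).toEquiv, hcH,
      pow_succ]
  let π' : E →* (L ≃ₐ[K] L) := θ.symm.toMonoidHom.comp π
  have hπ' : Function.Surjective π' := θ.symm.surjective.comp hπ
  have hker' : π'.ker = π.ker := by
    ext e
    simp [π', MonoidHom.mem_ker]
  obtain ⟨L', hf', hn', ha', hg', j, ψ', hinj, hcomp, hunr⟩ := embeddingO p hp K hζ T hT hcyc o ho L E hE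
    π' hπ' (by rw [hker']; exact hker) (by rw [hker']; exact hcard) (hX.unr L) (by
      intro v hv hvo
      obtain ⟨w, hw1, hw2, hw3⟩ := hxy ⟨v, hv, hvo⟩ L
      have e1 : π' (ex ⟨v, hv, hvo⟩) = AlgEquiv.restrictNormalHom L (x ⟨v, hv, hvo⟩) := by
        change θ.symm (π (ex ⟨v, hv, hvo⟩)) = _
        rw [hx, hθ']
      have e2 : π' (ey ⟨v, hv, hvo⟩) = AlgEquiv.restrictNormalHom L (y ⟨v, hv, hvo⟩) := by
        change θ.symm (π (ey ⟨v, hv, hvo⟩)) = _
        rw [hy, hθ']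
      refine ⟨w, hw1, ex ⟨v, hv, hvo⟩, ey ⟨v, hv, hvo⟩, ?_, ?_, hr ⟨v, hv, hvo⟩⟩
      · rw [e1]
        exact hw2
      · rw [e2]
        exact hw3)
  have hdeg : ∃ k, Module.finrank K L' = p ^ k := by
    have h1 : IsPGroup p (L' ≃ₐ[K] L') := hE.of_injective ψ' hinj
    obtain ⟨n, hn⟩ := IsPGroup.iff_card.1 h1
    exact ⟨n, by rw [← IsGalois.card_aut_eq_finrank, hn]⟩
  obtain ⟨e₀⟩ := hX.max L' hdeg hunr
  -- adjust the embedding
  let ϕ : L →ₐ[K] X := e₀.comp j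
  let h0 : X →ₐ[K] X := AlgHom.liftNormal ϕ X
  have hh0 : ∀ z : L, h0 (z : X) = e₀ (j z) := fun z => by
    have := AlgHom.liftNormal_commutes ϕ X z
    exact this
  have hbij : Function.Bijective h0 := Algebra.IsAlgebraic.algHom_bijective h0
  let g0 : X ≃ₐ[K] X := (AlgEquiv.ofBijective h0 hbij).symm
  have hg0 : ∀ z : L, g0 (e₀ (j z)) = (z : X) := fun z => by
    rw [← hh0 z]
    exact (AlgEquiv.ofBijective h0 hbij).symm_apply_apply (z : X)
  let e : L' →ₐ[K] X := (g0 : X →ₐ[K] X).comp e₀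
  have he : ∀ z : L, e (j z) = (z : X) := hg0
  obtain ⟨r, hr1, hr2, hr3⟩ := exists_restrictK e
  refine ⟨ψ'.comp r, ?_, ?_⟩
  · refine Subgroup.isOpen_mono (H₁ := r.ker) ?_ hr1
    intro g hg
    rw [MonoidHom.mem_ker] at hg ⊢
    rw [MonoidHom.comp_apply, hg, map_one]
  · ext g
    change π (ψ' (r g)) = φ g
    have key : π' (ψ' (r g)) = AlgEquiv.restrictNormalHom L g := by
      refine AlgEquiv.ext fun z => ?_
      have h1 : ((AlgEquiv.restrictNormalHom L g z : L) : X) = g (z : X) :=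
        AlgEquiv.restrictNormal_commutes g L z
      have h2 : g (z : X) = ((π' (ψ' (r g)) z : L) : X) := by
        rw [← he z, hr3, hcomp, he]
      exact Subtype.ext (h2.symm.trans h1.symm)
    have h3 : θ.symm (π (ψ' (r g))) = θ.symm (φ g) := by
      rw [hθ']
      exact key
    exact θ.symm.injective h3

end Pool.Agent.RGK
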