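import Mathlib
import Pool.Agent.Lib.RGK.G07
import Pool.Agent.Lib.RGK.OG4

/-!
RG v5, row OG7: the local data of `GP p T` with one prime omitted (`K` contains the `p`-th roots of unity):
G07 with `lift_propertyO`.
-/

set_option autoImplicit false

namespace Pool.Agent.RGK

open NumberField IsDedekindDomain
open Pool.Agent.RG (Above IsDec IsInert IsFrob Lies maxExtP GP)
open Pool.Agent.RG.H (Pr vl UU PP SU ev below nrm emb NS)

variable {K : Type} [Field K] [NumberField K]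

/-- evaluation of the local component at `t` -/
private def OG7_ev {p : ℕ} (T : Set (Pr K)) (t : Pr K) (z : Kˣ) : GC p T →ₗ[ZMod p] ZMod p where
  toFun F := ((F : Pr K → Hm K p) t).ev z
  map_add' _ _ := rfl
  map_smul' _ _ := rfl

theorem exists_glueO {p : ℕ} [Fact p.Prime] (hp : p ≠ 2) {ζ : K} (hζ : IsPrimitiveRoot ζ p)
    {T : Finset (Pr K)} {o : Pr K} (ho : o ∈ T)
    (hT : ∀ t ∈ T, (nm t).Prime ∧ nm t % p = 1) (hcyc : CycExt p (T : Set (Pr K))) :
    ∃ (k : KL p {t // t ∈ T ∧ t ≠ o} (GP p (T : Set (Pr K))))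
      (e : H1 p (GP p (T : Set (Pr K))) ≃ₗ[ZMod p] GC p (T : Set (Pr K))) 
      (l : {t // t ∈ T ∧ t ≠ o} → ZMod p),
      (∀ t, l t ≠ 0) ∧
      (∀ f g t, cupG k f g t = l t * cupF p (t : Pr K) (e f : Pr K → Hm K p) (e g)) ∧
      (∀ t : {t // t ∈ T ∧ t ≠ o}, InFrK (t : Pr K) (k.x t) (k.y t)) ∧
      ∀ f, ∀ q : Pr K, q ∉ T → ¬ Above q p → ∀ x y : GP p (T : Set (Pr K)), InFrK q x y →
        (e f : Pr K → Hm K p) q = (f : GP p (T : Set (Pr K)) → ZMod p) y • vp p q := by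
  have hpp : p.Prime := Fact.out
  have hX := maxExtK_maxExtP p (T : Set (Pr K))
  have hab : ∀ v ∈ (T : Set (Pr K)), ¬ Above v p := fun v hv => not_above_of_nm hpp (hT v hv).2
  have hex : ∀ t : {t // t ∈ T ∧ t ≠ o}, ∃ x y : GP p (T : Set (Pr K)), InFrK (t : Pr K) x y ∧
      y * x * y⁻¹ = x ^ nm (t : Pr K) := fun t => exists_inFrK hX (hab t t.2.1)
  choose x y hxy htame using hex
  let k : KL p {t // t ∈ T ∧ t ≠ o} (GP p (T : Set (Pr K))) :=
    { x := x
      y := y
      q := fun t => nm (t : Pr K)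
      hq := fun t => (hT t t.2.1).2
      tame := htame
      lift := fun E H _ _ _ _ π hπ hker hcard φ hφ hφs ex ey hx hy hr =>
        lift_propertyO hp hζ (T := (T : Set (Pr K))) ho hT hcyc hX x y hxy E H π hπ hker hcard φ
          hφ hφs ex ey hx hy hr }
  obtain ⟨e, he⟩ := exists_equivE hp T.finite_toSet hab hX
  have key : ∀ t : {t // t ∈ T ∧ t ≠ o}, ∃ l : ZMod p, l ≠ 0 ∧ ∀ f g : H1 p (GP p (T : Set (Pr K))),
      cupG k f g t = l * cupF p (t : Pr K) (e f : Pr K → Hm K p) (e g) := by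
    intro t
    let a : H1 p (GP p (T : Set (Pr K))) →ₗ[ZMod p] ZMod p :=
      { toFun := fun f => (f : GP p (T : Set (Pr K)) → ZMod p) (x t)
        map_add' := fun _ _ => rfl
        map_smul' := fun _ _ => rfl }
    let b : H1 p (GP p (T : Set (Pr K))) →ₗ[ZMod p] ZMod p :=
      { toFun := fun f => (f : GP p (T : Set (Pr K)) → ZMod p) (y t)
        map_add' := fun _ _ => rfl
        map_smul' := fun _ _ => rfl }
    let a' : H1 p (GP p (T : Set (Pr K))) →ₗ[ZMod p] ZMod p :=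
      (OG7_ev (T : Set (Pr K)) (t : Pr K) (gv p (t : Pr K))).comp e.toLinearMap
    let b' : H1 p (GP p (T : Set (Pr K))) →ₗ[ZMod p] ZMod p :=
      (OG7_ev (T : Set (Pr K)) (t : Pr K) (piv (t : Pr K))).comp e.toLinearMap
    have hloc : ∀ f : H1 p (GP p (T : Set (Pr K))), (a f = 0 ↔ a' f = 0) ∧
        (a f = 0 → b f = b' f) := by
      intro f
      obtain ⟨g1, g2⟩ := relE_local hp T.finite_toSet hab hX (e f).2 (he f) t.2.1 (hxy t)
      have g3 := unram_iff' (hT t t.2.1).2 ((e f).2.2.1 (t : Pr K) t.2.1)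
      refine ⟨g1.trans g3, fun h0 => ?_⟩
      have g4 : (e f : Pr K → Hm K p) t = (f : GP p (T : Set (Pr K)) → ZMod p) (y t) •
        vp p (t : Pr K) := g2 h0
      show (f : GP p (T : Set (Pr K)) → ZMod p) (y t) =
        ((e f : Pr K → Hm K p) t).ev (piv (t : Pr K))
      rw [g4]
      show _ = (f : GP p (T : Set (Pr K)) → ZMod p) (y t) *
        ((vl (t : Pr K) (piv (t : Pr K)) : ℤ) : ZMod p)
      rw [vl_piv, Int.cast_one, mul_one]
    obtain ⟨l, hl, h⟩ := triangular a b a' b' (fun f => (hloc f).1) (fun f => (hloc f).2)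
    exact ⟨l, hl, fun f g => h f g⟩
  choose l hl hcup using key
  exact ⟨k, e, l, hl, fun f g t => hcup t f g, hxy, fun f q hq hqp x' y' hxy' =>
    (he f q hq hqp x' y' hxy').2⟩

end Pool.Agent.RGK
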