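import Mathlib
import Pool.Agent.Lib.RG.G14
import Pool.Agent.Lib.RG.RDefs
import Pool.Agent.Lib.RG.R1
import Pool.Agent.Lib.RGK.XDefs
import Pool.Agent.Lib.RGK.X3
import Pool.Agent.Lib.RGK.QK3
import Pool.Agent.Lib.RGK.QK4
import Pool.Agent.Lib.RGK.G01
import Pool.Agent.Lib.RGK.G02
import Pool.Agent.Lib.RGK.MK5
import Pool.Agent.Lib.RGK.ODefs
import Pool.Agent.Lib.RGK.OX5
import Pool.Agent.Lib.RGK.OG7

/-!
RG v5, row OG6: the deterministic criterion if `K` contains the `p`-th roots of unity: MK6 with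
`exists_glueO`.
-/

set_option autoImplicit false

namespace Pool.Agent.RGK

open NumberField IsDedekindDomain
open Pool.Agent.RG (Above IsDec IsInert IsFrob Lies GenBy rankGradient maxExtP GP)
open Pool.Agent.RG.H (Pr vl UU PP SU ev below nrm emb NS)

variable {K : Type} [Field K] [NumberField K]

theorem core_dataO {p : ℕ} [Fact p.Prime] (hp : p ≠ 2) {ζ : K} (hζ : IsPrimitiveRoot ζ p)
    {o : Pr K} {T : Finset (Pr K)} {ν : Pr K → Hm K p} (h : CoreO p o T ν) :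
    Infinite (GP p (T : Set (Pr K))) ∧
    (∀ ε : ℝ, 0 < ε → ∃ (U : Subgroup (GP p (T : Set (Pr K)))) (n : ℕ),
      IsOpen (U : Set (GP p (T : Set (Pr K)))) ∧ GenBy U n ∧ ((n : ℝ) - 1) ≤ ε * U.index) ∧
    (∀ g : GP p (T : Set (Pr K)), g ≠ 1 → ∀ n : ℕ, 0 < n → g ^ n ≠ 1) ∧
    ∀ q : Pr K, q ∉ T → nm q % p = 1 → (∃ f ∈ GC p (T : Set (Pr K)), f q ≠ 0) →
      ∀ x y : GP p (T : Set (Pr K)), InFrK q x y → y ≠ 1 := by
  classical
  have hgal : IsGalois K (maxExtP p (T : Set (Pr K))) := RG.isGalois_maxExtP p _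
  have hX := maxExtK_maxExtP p (T : Set (Pr K))
  have hcyc : CycExt p (T : Set (Pr K)) :=
    cycExt_of_VT hp T.finite_toSet (fun v hv => (h.pr v hv).2) h.vt
  obtain ⟨k, e, l, hl, hc, hI, hF⟩ := exists_glueO hp hζ h.mem_o h.pr hcyc
  have hfin : Finite (GC p (T : Set (Pr K))) := finite_GC T.finite_toSet
  have hfin2 : Finite (H1 p (GP p (T : Set (Pr K)))) := Finite.of_equiv _ e.symm.toEquiv
  have hfin3 : Finite {t // t ∈ T ∧ t ≠ o} :=
    Finite.of_injective (fun t : {t // t ∈ T ∧ t ≠ o} => (⟨t.1, t.2.1⟩ : T)) fun a b hab =>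
      Subtype.ext (congrArg (fun t : T => (t : Pr K)) hab)
  have hfin4 : Fintype {t // t ∈ T ∧ t ≠ o} := Fintype.ofFinite _
  have hcr : CritC (cupG k) ⊤ (e.symm ⟨ν, h.mem⟩) :=
    critC_transfer (fun f g (t : {t // t ∈ T ∧ t ≠ o}) => cupF p (t : Pr K) f g) (cupG k) (GC p (T : Set (Pr K))) e l
      hl (fun f g j => hc f g j) ⟨ν, h.mem⟩ h.crit
  obtain ⟨h1, h2, h3⟩ := rank_gradientK p hp (GP p (T : Set (Pr K)))
    (fun U hN hU => hX.pro_p U hN hU) k _ hcr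
  refine ⟨h1, h2, h3, ?_⟩
  rintro q hq hq1 ⟨f, hf, hfq⟩ x y hxy rfl
  have h4 := hF (e.symm ⟨f, hf⟩) q hq (not_above_of_nm Fact.out hq1) x 1 hxy
  rw [e.apply_symm_apply] at h4
  apply hfq
  have h5 : ((e.symm ⟨f, hf⟩ : H1 p (GP p (T : Set (Pr K)))) :
      GP p (T : Set (Pr K)) → ZMod p) 1 = 0 := by
    have h6 := (e.symm ⟨f, hf⟩).2.1 1 1
    rw [mul_one, left_eq_add] at h6
    exact h6
  rw [h5, zero_smul] at h4
  exact h4

theorem critK_mainO {p : ℕ} [Fact p.Prime] (hp : p ≠ 2) {ζ : K} (hζ : IsPrimitiveRoot ζ p)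
    {S : Finset (Pr K)} (hS : ∀ q ∈ S, nm q % p = 1) (h : CritKO p S) :
    Infinite (GP p (S : Set (Pr K))) ∧ rankGradient (GP p (S : Set (Pr K))) = 0 := by
  classical
  obtain ⟨T, hTS, o, ν, hT, hU⟩ := h
  have hG := coreO_Gset hT S
  obtain ⟨h1, h2, h3, h4⟩ := core_dataO hp hζ hG
  refine mono_K (T := (Gset p T ν S : Set (Pr K))) ?_ S.finite_toSet (fun q hq => hS q hq) ?_ h1
    h2 h3
  · intro q hq
    rw [Finset.mem_coe] at hq ⊢
    unfold Gset at hq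
    rcases Finset.mem_union.1 hq with h5 | h5
    · exact hTS h5
    · exact (Finset.mem_filter.1 h5).1
  · intro q hq hqG
    refine h4 q hqG (hS q hq) ?_
    by_contra hcon
    push Not at hcon
    have h5 : q ∈ Uset p T ν S := by
      unfold Uset
      exact Finset.mem_filter.2 ⟨hq, hqG, hcon⟩
    rw [hU] at h5
    exact absurd h5 (Finset.notMem_empty q)

end Pool.Agent.RGK
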