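import Mathlib
import Pool.Agent.Lib.RGK.X1
import Pool.Agent.Lib.RGK.X2
import Pool.Agent.Lib.RGK.X2b
import Pool.Agent.Lib.RGK.X3
import Pool.Agent.Lib.RGK.X4
import Pool.Agent.Lib.RGK.DK0
import Pool.Agent.Lib.RGK.DK5
import Pool.Agent.Lib.RGK.ODefs

/-!
RG v5, row OD2: steps with prescribed characters (copy and simplify DK5; no condition on Frobenius
elements).

`step_nextO`: `B₁ := VS p T`, `B₀ := {x ∈ VS p T | ∑ t ∈ T, (μ t).ev x = 0}`; the set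
`{q ∈ DS p ⊥ B₀ | ¬ B₁ ≤ PU p q}` (if `B₀ ≠ B₁`) or `DS p ⊥ B₁`.
`step_T0O`: `DS p ⊥ PP \ DS p ⊥ (PP ⊔ closure {x})`.
-/

set_option autoImplicit false

namespace Pool.Agent.RGK

open NumberField IsDedekindDomain
open Pool.Agent.RG.H (Pr vl UU PP SU ev below nrm emb NS)

variable {K : Type} [Field K] [NumberField K]

/-- two functionals on a group -/
private theorem OD2_prop {G : Type} [AddCommGroup G] {p : ℕ} [Fact p.Prime] (V : AddSubgroup G)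
    (κ L : G →+ ZMod p) (h : ∀ x ∈ V, L x = 0 → κ x = 0)
    (h2 : (∀ x ∈ V, L x = 0) ∨ ∃ x ∈ V, κ x ≠ 0) :
    ∃ c : ZMod p, c ≠ 0 ∧ ∀ x ∈ V, κ x = c * L x := by
  rcases h2 with h2 | ⟨x₁, hx₁, hκ⟩
  · exact ⟨1, one_ne_zero, fun x hx => by rw [h2 x hx, mul_zero, h x hx (h2 x hx)]⟩
  · have hL : L x₁ ≠ 0 := fun h0 => hκ (h x₁ hx₁ h0)
    refine ⟨κ x₁ / L x₁, div_ne_zero hκ hL, fun x hx => ?_⟩
    have h3 : L (x - (L x / L x₁).val • x₁) = 0 := by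
      rw [map_sub, map_nsmul, nsmul_eq_mul, ZMod.natCast_zmod_val, div_mul_cancel₀ _ hL, sub_self]
    have h4 := h _ (V.sub_mem hx (V.nsmul_mem hx₁ _)) h3
    rw [map_sub, map_nsmul, nsmul_eq_mul, ZMod.natCast_zmod_val, sub_eq_zero] at h4
    rw [h4]
    field_simp

/-- the arithmetic of the densities -/
private theorem OD2_arith {a b m : ℕ} (ha : 0 < a) (hm : 2 ≤ m) (hb : b = a * m) :
    ((b : ℝ))⁻¹ ≤ ((a : ℝ))⁻¹ - ((b : ℝ))⁻¹ := by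
  have ha' : (0 : ℝ) < a := by exact_mod_cast ha
  have hm' : (2 : ℝ) ≤ m := by exact_mod_cast hm
  have hb' : (b : ℝ) = a * m := by exact_mod_cast hb
  have h1 : ((a : ℝ))⁻¹ = m * ((b : ℝ))⁻¹ := by
    rw [hb']
    field_simp
  have h2 : (0 : ℝ) ≤ ((b : ℝ))⁻¹ := by positivity
  rw [h1]
  nlinarith

theorem hasDK_P1KO {p : ℕ} [Fact p.Prime] (hD : DensB K p) :
    HasDK (P1K (K := K) p) (c0K K p) := by
  have h := hD (PP K p) le_rfl (by rw [Subgroup.relIndex_self]; exact one_ne_zero)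
  rw [Subgroup.relIndex_self, Nat.cast_one, inv_one, mul_one] at h
  have h1 : DS (K := K) p ⊥ (PP K p) = P1K p := by
    ext v
    refine ⟨fun hv => hv.1, fun hv => ⟨hv, fun f hf => ?_, le_sup_left⟩⟩
    rw [Submodule.mem_bot] at hf
    rw [hf]
    rfl
  rwa [h1] at h

/-- the set of the primes with all the conditions -/
private theorem OD2_dens {p : ℕ} [Fact p.Prime] (hD : DensB K p)
    {B₀ B₁ : Subgroup Kˣ} (hB0 : PP K p ≤ B₀) (hB01 : B₀ ≤ B₁)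
    (hB1 : (PP K p).relIndex B₁ ≠ 0) :
    ∃ d : ℝ, (((PP K p).relIndex B₁ : ℕ) : ℝ)⁻¹ ≤ d ∧ ∃ C : Set (Pr K),
      HasDK C (c0K K p * d) ∧ ∀ v ∈ C, v ∈ DS p ⊥ B₀ ∧ (B₀ = B₁ ∨ ¬ B₁ ≤ PU p v) := by
  have hrel := Subgroup.relIndex_mul_relIndex (PP K p) B₀ B₁ hB0 hB01
  have hr0 : (PP K p).relIndex B₀ ≠ 0 := fun h => hB1 (by rw [← hrel, h, zero_mul])
  by_cases hBe : B₀ = B₁
  · subst hBe
    exact ⟨_, le_rfl, _, hD B₀ hB0 hB1, fun v hv => ⟨hv, Or.inl rfl⟩⟩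
  · have h1 := OD2_arith (Nat.pos_of_ne_zero hr0) (m := B₀.relIndex B₁) (by
      have h5 : B₀.relIndex B₁ ≠ 0 := fun h => hB1 (by rw [← hrel, h, mul_zero])
      have h6 : B₀.relIndex B₁ ≠ 1 := fun h =>
        hBe (le_antisymm hB01 (Subgroup.relIndex_eq_one.1 h))
      omega) hrel.symm
    have h2 := (hD B₀ hB0 hr0).diff (hD B₁ (hB0.trans hB01) hB1)
      (fun v hv => ⟨hv.1, hv.2.1, hB01.trans hv.2.2⟩)
    rw [← mul_sub] at h2
    refine ⟨_, h1, _, h2, fun v hv => ⟨hv.1, Or.inr fun h => hv.2 ⟨hv.1.1, hv.1.2.1, h⟩⟩⟩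

theorem step_nextO {p : ℕ} [Fact p.Prime] (hD : DensB K p) {T : Set (Pr K)} (hT : T.Finite)
    (μ : Pr K → Hm K p) (hμ : ∀ t ∈ T, Kills (μ t) t 1) :
    ∃ d : ℝ, (((PP K p).relIndex (VS p T) : ℕ) : ℝ)⁻¹ ≤ d ∧ ∃ A ⊆ P1K (K := K) p,
      HasDK A (c0K K p * d) ∧ ∀ q ∈ A, q ∉ T ∧ (nm q).Prime ∧
        ∃ χ ∈ GC p (insert q T), ¬ Kills (χ q) q 0 ∧ ∀ t ∈ T, χ t = μ t := by
  have hp : p.Prime := Fact.out
  -- the functional given by `μ`
  let L : Hm K p := ∑ t ∈ hT.toFinset, μ t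
  have hL : ∀ x : Kˣ, L.ev x = ∑ t ∈ hT.toFinset, (μ t).ev x := by
    intro x
    show (∑ t ∈ hT.toFinset, μ t) (Additive.ofMul x) = _
    rw [AddMonoidHom.finsetSum_apply]
    rfl
  let V : AddSubgroup (Additive Kˣ) := (VS p T).toAddSubgroup
  have hV : ∀ x : Kˣ, Additive.ofMul x ∈ V ↔ x ∈ VS p T := fun x => Iff.rfl
  let B₀ : Subgroup Kˣ :=
    { carrier := {x | x ∈ VS p T ∧ L (Additive.ofMul x) = 0}
      one_mem' := ⟨(VS p T).one_mem, by rw [ofMul_one, map_zero]⟩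
      mul_mem' := fun {x y} hx hy => ⟨(VS p T).mul_mem hx.1 hy.1, by
        rw [ofMul_mul, map_add, hx.2, hy.2, add_zero]⟩
      inv_mem' := fun {x} hx => ⟨(VS p T).inv_mem hx.1, by
        rw [ofMul_inv, map_neg, hx.2, neg_zero]⟩ }
  have hB₀ : ∀ x : Kˣ, x ∈ B₀ ↔ x ∈ VS p T ∧ L (Additive.ofMul x) = 0 := fun x => Iff.rfl
  have hPP : PP K p ≤ B₀ := by
    intro x hx
    rw [hB₀]
    refine ⟨PP_le_VS T hx, ?_⟩
    obtain ⟨y, rfl⟩ := RG.H.mem_PP.1 hx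
    rw [ofMul_pow, map_nsmul, nsmul_eq_mul, CharP.cast_eq_zero, zero_mul]
  obtain ⟨d, hd, C, hC, hCv⟩ := OD2_dens hD (B₀ := B₀) (B₁ := VS p T) hPP (fun x hx => hx.1)
    (finite_VS hT)
  refine ⟨d, hd, {v | v ∈ C ∧ (nm v).Prime} \ T, fun v hv => (hCv v hv.1.1).1.1,
    hC.prime.diff_finite hT, ?_⟩
  rintro q ⟨⟨hqC, hqp⟩, hqT⟩
  obtain ⟨⟨hq1, hq2, hq3⟩, hq5⟩ := hCv q hqC
  refine ⟨hqT, hqp, ?_⟩
  · -- the character
    obtain ⟨κ, hκ1, hκ2, hκ3⟩ := exists_tame (K := K) hq1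
    have hκV : ∀ x ∈ VS p T, κ (Additive.ofMul x) = 0 → x ∈ PU p q := by
      intro x hx h0
      obtain ⟨k, hk⟩ := unit_mem hq1 (hx q hqT)
      have h1 := ev_PU hκ1 hk
      unfold Hm.ev at h1 hκ2
      rw [ofMul_div, ofMul_pow, map_sub, map_nsmul, hκ2, h0, nsmul_eq_mul, mul_one, zero_sub,
        neg_eq_zero, ZMod.natCast_eq_zero_iff] at h1
      obtain ⟨j, rfl⟩ := h1
      have h2 : gv p q ^ (p * j) ∈ PU p q :=
        (le_sup_left : PP K p ≤ PU p q) (RG.H.mem_PP.2 ⟨gv p q ^ j, by rw [← pow_mul, mul_comm]⟩)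
      have h3 := (PU p q).mul_mem hk h2
      rwa [div_mul_cancel] at h3
    obtain ⟨c', hc', hcL⟩ := OD2_prop V κ L (by
        intro x hx h0
        exact ev_PU hκ1 (hq3 ((hB₀ _).2 ⟨hx, h0⟩)))
      (by
        rcases hq5 with h | h
        · left
          intro x hx
          have h1 : Additive.toMul x ∈ B₀ := by
            rw [h]
            exact hx
          exact ((hB₀ _).1 h1).2
        · right
          obtain ⟨x, hx, hx'⟩ := Set.not_subset.1 h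
          exact ⟨Additive.ofMul x, hx, fun h0 => hx' (hκV x hx h0)⟩)
    obtain ⟨f, hf, hft, c, hfc⟩ := exists_next hT hqT μ hμ ((-c'⁻¹) • κ)
      (by
        intro x hx
        show (-c'⁻¹) * κ.ev x = 0
        rw [hκ1 x hx, mul_zero])
      (by
        intro x hx
        rw [← hL]
        show (-c'⁻¹) * κ (Additive.ofMul x) + L (Additive.ofMul x) = 0
        rw [hcL (Additive.ofMul x) hx, ← mul_assoc, neg_mul, inv_mul_cancel₀ hc', neg_mul, one_mul,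
          neg_add_cancel])
    refine ⟨f, hf, ?_, hft⟩
    rw [unram_iff' hq1 (hf.2.1 q (Set.mem_insert _ _)), hfc]
    show ¬ (-c'⁻¹) * κ.ev (gv p q) + c * ((vl q (gv p q) : ℤ) : ZMod p) = 0
    rw [hκ2, (gv_spec hq1).1, Int.cast_zero, mul_zero, add_zero, mul_one, neg_eq_zero]
    exact inv_ne_zero hc'

private theorem OD2_rel {p : ℕ} [Fact p.Prime] {x : Kˣ} (hx : x ∉ PP K p) :
    (PP K p).relIndex (PP K p ⊔ Subgroup.zpowers x) = p := by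
  have h1 := Subgroup.relIndex_ker (K := PP K p ⊔ Subgroup.zpowers x)
    (QuotientGroup.mk' (PP K p))
  rw [QuotientGroup.ker_mk'] at h1
  rw [h1, Subgroup.map_sup, QuotientGroup.map_mk'_self, bot_sup_eq, MonoidHom.map_zpowers,
    Nat.card_zpowers]
  refine orderOf_eq_prime ?_ ?_
  · rw [← map_pow, QuotientGroup.mk'_apply, QuotientGroup.eq_one_iff]
    exact RG.H.mem_PP.2 ⟨x, rfl⟩
  · rw [QuotientGroup.mk'_apply, Ne, QuotientGroup.eq_one_iff]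
    exact hx

theorem step_T0O {p : ℕ} [Fact p.Prime] (hD : DensB K p) {T : Set (Pr K)} (hT : T.Finite)
    {x : Kˣ} (hx : x ∉ PP K p) :
    ∃ A ⊆ P1K (K := K) p, HasDK A (c0K K p * (1 - (p : ℝ)⁻¹)) ∧
      ∀ q ∈ A, q ∉ T ∧ (nm q).Prime ∧ x ∉ PU p q := by
  have hp : p.Prime := Fact.out
  have hrel := OD2_rel (K := K) hx
  have h0 := hD (PP K p) le_rfl (by rw [Subgroup.relIndex_self]; exact one_ne_zero)
  have h1 := hD (PP K p ⊔ Subgroup.zpowers x) le_sup_left (by rw [hrel]; exact hp.ne_zero)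
  have hd := h0.diff h1 (fun v hv => ⟨hv.1, hv.2.1, le_sup_left⟩)
  rw [hrel, Subgroup.relIndex_self, Nat.cast_one, inv_one, ← mul_sub] at hd
  refine ⟨{v | v ∈ DS p ⊥ (PP K p) \ DS p ⊥ (PP K p ⊔ Subgroup.zpowers x) ∧
    (nm v).Prime} \ T, fun v hv => hv.1.1.1.1, hd.prime.diff_finite hT, ?_⟩
  rintro q ⟨⟨⟨hq1, hq2⟩, hqp⟩, hqT⟩
  refine ⟨hqT, hqp, fun hxq => hq2 ⟨hq1.1, hq1.2.1, sup_le le_sup_left ?_⟩⟩
  rw [Subgroup.zpowers_le]
  exact hxq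

end Pool.Agent.RGK
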