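import Mathlib
import Pool.Agent.Lib.RGK.ODefs
import Pool.Agent.Lib.RGK.X7Defs

/-!
RG v5, part OX (construction of the core if `ζ ∈ K`), definitions.

The primes `s 0, .., s (m - 1)` form `T₀`; then follow `s m = a₀` (the omitted prime), `s (m + 1) = a₁`,
`s (m + 2) = b_A` and `s (m + 3 + t) = b_t` for `t < m`; `χ i` is a character ramified at `s (m + i)`.
-/

set_option autoImplicit false

namespace Pool.Agent.RGK

open NumberField IsDedekindDomain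
open Pool.Agent.RG.H (Pr vl UU PP SU ev below nrm emb NS)

variable {K : Type} [Field K] [NumberField K]

/-- the first `i` primes of `T₀` -/
structure T0O (p : ℕ) (s : ℕ → Pr K) (i : ℕ) : Prop where
  inj : ∀ a < i, ∀ b < i, s a = s b → a = b
  pr : ∀ a < i, (nm (s a)).Prime ∧ nm (s a) % p = 1
  gc : GC p (fst s i) ≤ GC p ∅
  idx : (PP K p).relIndex (VS p ∅) = p ^ i * (PP K p).relIndex (VT p (fst s i))

/-- The condition on the local component `f` at `v = s a` of the character `χ i`, for `a < m + i`. -/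
def LocO {p : ℕ} (m i a : ℕ) (v : Pr K) (f : Hm K p) : Prop :=
  ((i = 0 ∧ a < m) → f = vp p v) ∧
  ((i = 2 ∧ a = m) → f = vp p v) ∧
  ((3 ≤ i ∧ a = i - 3) → ¬ Kills f v 0) ∧
  ((2 ≤ i ∧ a = m + 1) → ∃ y : ZMod p, f = y • vp p v) ∧
  (¬ (i = 0 ∧ a < m) → ¬ (i = 2 ∧ a = m) → ¬ (3 ≤ i ∧ a = i - 3) → ¬ (2 ≤ i ∧ a = m + 1) →
    f = 0)

/-- the configuration up to `s (m + j - 1)`, `χ (j - 1)` -/
structure CfgO (p m : ℕ) (lam : Pr K → ZMod p) (s : ℕ → Pr K)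
    (χ : ℕ → Pr K → Hm K p) (j : ℕ) : Prop where
  inj : ∀ a < m + j, ∀ b < m + j, s a = s b → a = b
  pr : ∀ a < m + j, (nm (s a)).Prime ∧ nm (s a) % p = 1
  mem : ∀ i < j, χ i ∈ GC p (fst s (m + i + 1))
  ram : ∀ i < j, ¬ Kills (χ i (s (m + i))) (s (m + i)) 0
  loc : ∀ i < j, ∀ a < m + i, LocO m i a (s a) (χ i (s a))
  eq2 : 2 < j → lam (s (m + 1)) * cupF p (s (m + 1)) (χ 2) (χ 1) =
    lam (s m) * cupF p (s m) (χ 2) (χ 0)
  eq3 : ∀ t, 3 + t < j → lam (s (m + 1)) * cupF p (s (m + 1)) (χ (3 + t)) (χ 1) =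
    lam (s t) * cupF p (s t) (χ (3 + t)) (χ 0)

end Pool.Agent.RGK
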