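import Mathlib
import Pool.Agent.Lib.RGK.OXDefs
import Pool.Agent.Lib.RGK.X2
import Pool.Agent.Lib.RGK.X3
import Pool.Agent.Lib.RGK.OD2

/-!
RG v5, row OX7: one step of the construction of the configuration (see X7.lean).

Apply `step_nextO` (OD2) to `T := fst s (m + j)` with `μ v` for `v = s a`, `a < m + j`, according to
`LocO m j a`: `vp p v`, or `0`, or a homomorphism `ρ` with `ρ (gv) = 1`, `ρ (piv) = 0`, killing `UU v 1`
(`exists_tame`, X2), and for `2 ≤ j`, `a = m + 1`: `y • vp p v` where `y` is chosen such that `eq2`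
(`j = 2`) resp. `eq3` (`j = 3 + t`) holds: `cupF p v (y • vp) (χ 1) = - (χ 1 v (gv)) * y` for `v = s (m + 1)`
(`vl (gv) = 0`, `vl (piv) = 1`), `(χ 1 v).ev (gv) ≠ 0` as `χ 1` is ramified there (`ram`,
`unram_iff'`), `lam v ≠ 0`. (The cases `a = j - 3 < m` and `a = m + 1` are different because `j < m + 3`.)
The values at the old primes of the new `χ j` are those of `μ`, so `eq2`, `eq3` for `j` are equations about
`μ`; the old equations are not changed by `Function.update` (they only involve `χ i` for `i < j`,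
`s a` for `a < m + j`).
-/

set_option autoImplicit false

namespace Pool.Agent.RGK

open NumberField IsDedekindDomain
open Pool.Agent.RG.H (Pr vl UU PP SU ev below nrm emb NS)

variable {K : Type} [Field K] [NumberField K]

private theorem OX7_mem {v : Pr K} {x : Kˣ} (h : vl v x = 0) : x ∈ UU v 0 :=
  RG.H.H11Aux.mem_A h

private theorem OX7_fin (s : ℕ → Pr K) (n : ℕ) : (fst s n).Finite :=
  (Set.finite_Iio n).image s

private theorem OX7_mono (s : ℕ → Pr K) {n n' : ℕ} (h : n ≤ n') : fst s n ⊆ fst s n' :=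
  Set.image_mono (Set.Iio_subset_Iio h)

private theorem OX7_vp1 (p : ℕ) (v : Pr K) (n : ℕ) : Kills (vp p v) v n := by
  intro x hx
  change ((vl v x : ℤ) : ZMod p) = 0
  rw [hx.1, Int.cast_zero]

private theorem OX7_fst_update {s : ℕ → Pr K} {n n' : ℕ} (h : n' ≤ n) (q : Pr K) :
    fst (Function.update s n q) n' = fst s n' := by
  ext v
  constructor
  · rintro ⟨a, ha, rfl⟩
    rw [Set.mem_Iio] at ha
    rw [Function.update_of_ne (by omega)]
    exact ⟨a, ha, rfl⟩
  · rintro ⟨a, ha, rfl⟩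
    have ha' := Set.mem_Iio.1 ha
    exact ⟨a, ha, by rw [Function.update_of_ne (by omega)]⟩

private theorem OX7_fst_succ {s : ℕ → Pr K} {n : ℕ} (q : Pr K) :
    fst (Function.update s n q) (n + 1) = insert q (fst s n) := by
  ext v
  rw [Set.mem_insert_iff]
  constructor
  · rintro ⟨a, ha, rfl⟩
    rw [Set.mem_Iio] at ha
    rcases eq_or_ne a n with rfl | hne
    · left
      rw [Function.update_self]
    · right
      rw [Function.update_of_ne hne]
      exact ⟨a, by rw [Set.mem_Iio]; omega, rfl⟩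
  · rintro (rfl | ⟨a, ha, rfl⟩)
    · exact ⟨n, by rw [Set.mem_Iio]; omega, by rw [Function.update_self]⟩
    · have ha' := Set.mem_Iio.1 ha
      exact ⟨a, by rw [Set.mem_Iio]; omega, by rw [Function.update_of_ne (by omega)]⟩

private theorem OX7_loc {p : ℕ} [Fact p.Prime] (m j a : ℕ) {v : Pr K} (hv : nm v % p = 1) :
    ∃ f : Hm K p, Kills f v 1 ∧ (¬ (2 ≤ j ∧ a = m + 1) → LocO m j a v f) := by
  by_cases h1 : j = 0 ∧ a < m
  · refine ⟨vp p v, OX7_vp1 p v 1, fun h5 => ⟨fun _ => rfl, fun _ => rfl, fun h => ?_,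
      fun h => absurd h h5, fun h => absurd h1 h⟩⟩
    omega
  · by_cases h2 : j = 2 ∧ a = m
    · refine ⟨vp p v, OX7_vp1 p v 1, fun h5 => ⟨fun _ => rfl, fun _ => rfl, fun h => ?_,
        fun h => absurd h h5, fun _ h => absurd h2 h⟩⟩
      omega
    · by_cases h3 : 3 ≤ j ∧ a = j - 3
      · obtain ⟨f, hf1, hf2, _⟩ := exists_tame (K := K) hv
        refine ⟨f, hf1, fun h5 => ⟨fun h => absurd h h1, fun h => absurd h h2, fun _ hk => ?_,
          fun h => absurd h h5, fun _ _ h => absurd h3 h⟩⟩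
        rw [unram_iff' hv hf1, hf2] at hk
        exact one_ne_zero hk
      · exact ⟨0, fun x _ => rfl, fun h5 => ⟨fun h => absurd h h1, fun h => absurd h h2,
          fun h => absurd h h3, fun h => absurd h h5, fun _ _ _ _ => rfl⟩⟩

private theorem OX7_smul {p : ℕ} (v : Pr K) (y : ZMod p) : Kills (y • vp p v) v 1 := by
  intro x hx
  change y * ((vl v x : ℤ) : ZMod p) = 0
  rw [hx.1, Int.cast_zero, mul_zero]

private theorem OX7_cup {p : ℕ} [Fact p.Prime] {v : Pr K} (hv : nm v % p = 1)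
    {f g : Pr K → Hm K p} {y : ZMod p} (hf : f v = y • vp p v) :
    cupF p v f g = -((g v).ev (gv p v) * y) := by
  have h1 : (f v).ev (gv p v) = y * ((vl v (gv p v) : ℤ) : ZMod p) := by rw [hf]; rfl
  have h2 : (f v).ev (piv v) = y * ((vl v (piv v) : ℤ) : ZMod p) := by rw [hf]; rfl
  rw [(gv_spec hv).1, Int.cast_zero, mul_zero] at h1
  rw [vl_piv, Int.cast_one, mul_one] at h2
  unfold cupF
  rw [h1, h2]
  ring

private theorem OX7_cong {p : ℕ} {v : Pr K} {f f' g : Pr K → Hm K p} (h : f v = f' v) :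
    cupF p v f g = cupF p v f' g := by
  unfold cupF
  rw [h]

theorem cfgO_step {p : ℕ} [Fact p.Prime] (hD : DensB K p) {m : ℕ} {lam : Pr K → ZMod p}
    (hlam : ∀ v, nm v % p = 1 → lam v ≠ 0) {s : ℕ → Pr K} {χ : ℕ → Pr K → Hm K p} {j : ℕ}
    (h : CfgO p m lam s χ j) (hj : j < m + 3) :
    ∃ d : ℝ, (((PP K p).relIndex (VS p (fst s (m + j))) : ℕ) : ℝ)⁻¹ ≤ d ∧
      ∃ A ⊆ P1K (K := K) p, HasDK A (c0K K p * d) ∧ ∀ q ∈ A, ∃ χ' : Pr K → Hm K p,
        CfgO p m lam (Function.update s (m + j) q) (Function.update χ j χ') (j + 1) := by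
  classical
  -- the local components except at `s (m + 1)`
  have hμ : ∃ μ : Pr K → Hm K p, ∀ a < m + j, Kills (μ (s a)) (s a) 1 ∧
      (¬ (2 ≤ j ∧ a = m + 1) → LocO m j a (s a) (μ (s a))) := by
    have h1 : ∀ v : Pr K, ∃ f : Hm K p, ∀ a < m + j, s a = v → Kills f v 1 ∧
        (¬ (2 ≤ j ∧ a = m + 1) → LocO m j a v f) := by
      intro v
      by_cases hv : ∃ a < m + j, s a = v
      · obtain ⟨a, ha, rfl⟩ := hv
        obtain ⟨f, hf1, hf2⟩ := OX7_loc (p := p) m j a (h.pr a ha).2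
        refine ⟨f, fun b hb e => ?_⟩
        rw [h.inj b hb a ha e]
        exact ⟨hf1, hf2⟩
      · exact ⟨0, fun a ha e => absurd ⟨a, ha, e⟩ hv⟩
    choose μ hμ using h1
    exact ⟨μ, fun a ha => hμ (s a) a ha rfl⟩
  obtain ⟨μ₀, hμ₀⟩ := hμ
  -- the local component at `s (m + 1)`
  obtain ⟨b, hb⟩ : ∃ b : ℕ, b = if j = 2 then m else j - 3 := ⟨_, rfl⟩
  obtain ⟨y, hy⟩ : ∃ y : ZMod p, 2 ≤ j → ∀ f : Pr K → Hm K p,
      f (s (m + 1)) = y • vp p (s (m + 1)) →
      lam (s (m + 1)) * cupF p (s (m + 1)) f (χ 1) =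
        lam (s b) * cupF p (s b) μ₀ (χ 0) := by
    by_cases hj2 : 2 ≤ j
    · have hv : nm (s (m + 1)) % p = 1 := (h.pr (m + 1) (by omega)).2
      have hg : (χ 1 (s (m + 1))).ev (gv p (s (m + 1))) ≠ 0 := by
        intro h3
        have hk : Kills (χ 1 (s (m + 1))) (s (m + 1)) 1 :=
          (h.mem 1 (by omega)).2.1 _ ⟨m + 1, by rw [Set.mem_Iio]; omega, rfl⟩
        exact h.ram 1 (by omega) ((unram_iff' hv hk).2 h3)
      have hl := hlam (s (m + 1)) hv
      refine ⟨-(lam (s b) * cupF p (s b) μ₀ (χ 0) /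
        (lam (s (m + 1)) * (χ 1 (s (m + 1))).ev (gv p (s (m + 1))))), fun _ f hf => ?_⟩
      rw [OX7_cup hv hf]
      generalize lam (s b) * cupF p (s b) μ₀ (χ 0) = R
      generalize lam (s (m + 1)) = l at *
      generalize (χ 1 (s (m + 1))).ev (gv p (s (m + 1))) = g at *
      field_simp
      try ring
    · exact ⟨0, fun h3 => absurd h3 hj2⟩
  obtain ⟨μ, hμd⟩ : ∃ μ : Pr K → Hm K p, μ = fun v =>
      if 2 ≤ j ∧ v = s (m + 1) then y • vp p v else μ₀ v := ⟨_, rfl⟩
  have hμ1 : 2 ≤ j → μ (s (m + 1)) = y • vp p (s (m + 1)) := fun hj2 => by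
    rw [hμd]
    exact if_pos ⟨hj2, rfl⟩
  have hμ2 : ∀ a < m + j, ¬ (2 ≤ j ∧ a = m + 1) → μ (s a) = μ₀ (s a) := by
    intro a ha hne
    rw [hμd]
    refine if_neg fun h3 => hne ⟨h3.1, h.inj a ha (m + 1) (by omega) h3.2⟩
  have hμ : ∀ a < m + j, Kills (μ (s a)) (s a) 1 ∧ LocO m j a (s a) (μ (s a)) := by
    intro a ha
    by_cases h5 : 2 ≤ j ∧ a = m + 1
    · obtain ⟨hj2, rfl⟩ := h5
      rw [hμ1 hj2]
      refine ⟨OX7_smul _ _, fun h3 => ?_, fun h3 => ?_, fun h3 => ?_, fun _ => ⟨y, rfl⟩,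
        fun _ _ _ h4 => absurd ⟨hj2, rfl⟩ h4⟩
      · omega
      · omega
      · omega
    · rw [hμ2 a ha h5]
      exact ⟨(hμ₀ a ha).1, (hμ₀ a ha).2 h5⟩
  obtain ⟨d, hd, A, hA, hAd, hq⟩ := step_nextO hD (OX7_fin s (m + j)) μ (by
    rintro _ ⟨a, ha, rfl⟩
    exact (hμ a (Set.mem_Iio.1 ha)).1)
  refine ⟨d, hd, A, hA, hAd, fun q hqA => ?_⟩
  obtain ⟨hqT, hqp, χ', hχ1, hχ2, hχ3⟩ := hq q hqA
  have hsq : Function.update s (m + j) q (m + j) = q := Function.update_self _ _ _
  have hsa : ∀ a, a < m + j → Function.update s (m + j) q a = s a := fun a ha =>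
    Function.update_of_ne (by omega) _ _
  have hχj : Function.update χ j χ' j = χ' := Function.update_self _ _ _
  have hχi : ∀ i, i < j → Function.update χ j χ' i = χ i := fun i hi =>
    Function.update_of_ne (by omega) _ _
  have hqa : ∀ a < m + j, s a ≠ q := fun a ha e => hqT ⟨a, ha, e⟩
  have hχa : ∀ a < m + j, χ' (s a) = μ (s a) := fun a ha => hχ3 (s a) ⟨a, ha, rfl⟩
  -- the new equation
  have hnew : 2 ≤ j → lam (s (m + 1)) * cupF p (s (m + 1)) χ' (χ 1) =
      lam (s b) * cupF p (s b) χ' (χ 0) := by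
    intro hj2
    have hb1 : b < m + j ∧ b ≠ m + 1 := by
      rw [hb]
      split_ifs <;> omega
    rw [hy hj2 χ' ((hχa (m + 1) (by omega)).trans (hμ1 hj2))]
    congr 1
    exact (OX7_cong ((hχa b hb1.1).trans (hμ2 b hb1.1 fun h3 => hb1.2 h3.2))).symm
  refine ⟨χ', ?_, ?_, ?_, ?_, ?_, ?_, ?_⟩
  · intro a ha b hb e
    rcases Nat.lt_or_ge a (m + j) with ha' | ha'
    · rcases Nat.lt_or_ge b (m + j) with hb' | hb'
      · rw [hsa a ha', hsa b hb'] at e
        exact h.inj a ha' b hb' e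
      · have : b = m + j := by omega
        rw [this, hsq, hsa a ha'] at e
        exact absurd e (hqa a ha')
    · have h1 : a = m + j := by omega
      rcases Nat.lt_or_ge b (m + j) with hb' | hb'
      · rw [h1, hsq, hsa b hb'] at e
        exact absurd e.symm (hqa b hb')
      · omega
  · intro a ha
    rcases Nat.lt_or_ge a (m + j) with ha' | ha'
    · rw [hsa a ha']
      exact h.pr a ha'
    · have h1 : a = m + j := by omega
      rw [h1, hsq]
      exact ⟨hqp, hA hqA⟩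
  · intro i hi
    rcases Nat.lt_or_ge i j with hi' | hi'
    · rw [hχi i hi', OX7_fst_update (by omega)]
      exact h.mem i hi'
    · have h1 : i = j := by omega
      rw [h1, hχj, OX7_fst_succ]
      exact hχ1
  · intro i hi
    rcases Nat.lt_or_ge i j with hi' | hi'
    · rw [hχi i hi', hsa _ (by omega)]
      exact h.ram i hi'
    · have h1 : i = j := by omega
      rw [h1, hχj, hsq]
      exact hχ2
  · intro i hi a ha
    rcases Nat.lt_or_ge i j with hi' | hi'
    · rw [hχi i hi', hsa a (by omega)]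
      exact h.loc i hi' a ha
    · have h1 : i = j := by omega
      subst h1
      rw [hχj, hsa a ha, hχa a ha]
      exact (hμ a ha).2
  · intro hj2
    rcases Nat.lt_or_ge 2 j with hj' | hj'
    · rw [hsa _ (by omega), hsa _ (by omega), hχi 2 hj', hχi 1 (by omega), hχi 0 (by omega)]
      exact h.eq2 hj'
    · have h1 : j = 2 := by omega
      subst h1
      rw [if_pos rfl] at hb
      subst hb
      rw [hsa _ (by omega), hsa _ (by omega), hχj, hχi 1 (by omega), hχi 0 (by omega)]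
      exact hnew le_rfl
  · intro t ht
    rcases Nat.lt_or_ge (3 + t) j with hj' | hj'
    · rw [hsa _ (by omega), hsa _ (by omega), hχi _ hj', hχi 1 (by omega), hχi 0 (by omega)]
      exact h.eq3 t hj'
    · have h1 : j = 3 + t := by omega
      have h2 : b = t := by
        rw [hb, if_neg (by omega)]
        omega
      subst h1
      rw [hsa _ (by omega), hsa _ (by omega), hχj, hχi 1 (by omega), hχi 0 (by omega)]
      rw [h2] at hnew
      exact hnew (by omega)

end Pool.Agent.RGK
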