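import Mathlib
import Pool.Agent.Lib.RGK.OXDefs
import Pool.Agent.Lib.RGK.X2
import Pool.Agent.Lib.RGK.X2b
import Pool.Agent.Lib.RGK.X3
import Pool.Agent.Lib.RGK.X6
import Pool.Agent.Lib.RGK.X7a

/-!
RG v5, row OX7a: the steps which build `T₀`; copy X7a.lean (without the condition `split`).
-/

set_option autoImplicit false

namespace Pool.Agent.RGK

open NumberField IsDedekindDomain
open Pool.Agent.RG.H (Pr vl UU PP SU ev below nrm emb NS)

variable {K : Type} [Field K] [NumberField K]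

private theorem OX7a_zero (s : ℕ → Pr K) : fst s 0 = ∅ := by
  unfold fst
  rw [Set.image_eq_empty]
  ext a
  simp

private theorem OX7a_succ (s : ℕ → Pr K) (n : ℕ) : fst s (n + 1) = insert (s n) (fst s n) := by
  unfold fst
  rw [← Set.image_insert_eq]
  congr 1
  ext a
  rw [Set.mem_Iio, Set.mem_insert_iff, Set.mem_Iio]
  omega

private theorem OX7a_fin (s : ℕ → Pr K) (n : ℕ) : (fst s n).Finite :=
  (Set.finite_Iio n).image s

theorem T0O_zero {p : ℕ} [Fact p.Prime] (s : ℕ → Pr K) : T0O p s 0 := by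
  refine ⟨fun a ha => absurd ha (Nat.not_lt_zero a), fun a ha => absurd ha (Nat.not_lt_zero a),
    ?_, ?_⟩
  · rw [OX7a_zero]
  · rw [OX7a_zero, pow_zero, one_mul]
    have h1 : VT p (∅ : Set (Pr K)) = VS p ∅ := by
      unfold VT
      simp
    rw [h1]

theorem T0O_next {p : ℕ} [Fact p.Prime] {s : ℕ → Pr K} {i m : ℕ} (h : T0O p s i)
    (hm : (PP K p).relIndex (VS p ∅) = p ^ m) (hi : i < m) :
    ∃ x ∈ VT p (fst s i), x ∉ PP K p := by
  by_contra hcon
  push Not at hcon
  have h1 : VT p (fst s i) ≤ PP K p := fun x hx => hcon x hx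
  have h2 := h.idx
  rw [Subgroup.relIndex_eq_one.2 h1, hm, mul_one] at h2
  have h3 := Nat.pow_right_injective (Fact.out : p.Prime).two_le h2
  omega

theorem T0O_vt {p : ℕ} [Fact p.Prime] {s : ℕ → Pr K} {m : ℕ} (h : T0O p s m)
    (hm : (PP K p).relIndex (VS p ∅) = p ^ m) : VT p (fst s m) ≤ PP K p := by
  have h2 := h.idx
  rw [hm] at h2
  have h3 : p ^ m * (PP K p).relIndex (VT p (fst s m)) = p ^ m * 1 := by rw [← h2, mul_one]
  exact Subgroup.relIndex_eq_one.1
    (Nat.eq_of_mul_eq_mul_left (pow_pos (Fact.out : p.Prime).pos m) h3)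

private theorem OX7a_upd (s : ℕ → Pr K) (i : ℕ) (q : Pr K) :
    fst (Function.update s i q) (i + 1) = insert q (fst s i) := by
  rw [OX7a_succ, Function.update_self]
  congr 1
  unfold fst
  refine Set.image_congr fun a ha => ?_
  rw [Set.mem_Iio] at ha
  exact Function.update_of_ne ha.ne _ _

theorem T0O_step {p : ℕ} [Fact p.Prime] {s : ℕ → Pr K} {i : ℕ} (h : T0O p s i) {x : Kˣ}
    (hx : x ∈ VT p (fst s i)) {q : Pr K} (hq : q ∉ fst s i) (hq0 : (nm q).Prime)
    (hq1 : nm q % p = 1) (hxq : x ∉ PU p q) :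
    T0O p (Function.update s i q) (i + 1) := by
  have hcase : ∀ a < i + 1, (a = i ∧ Function.update s i q a = q) ∨
      (a < i ∧ Function.update s i q a = s a) := by
    intro a ha
    by_cases hai : a = i
    · left
      rw [hai, Function.update_self]
      exact ⟨rfl, rfl⟩
    · right
      exact ⟨by omega, Function.update_of_ne hai _ _⟩
  have hmem : ∀ a < i, q ≠ s a := fun a ha e => hq ⟨a, ha, e.symm⟩
  refine ⟨?_, ?_, ?_, ?_⟩
  · intro a ha b hb hab
    rcases hcase a ha with ⟨h1, h2⟩ | ⟨h1, h2⟩ <;> rcases hcase b hb with ⟨h3, h4⟩ | ⟨h3, h4⟩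
    · rw [h1, h3]
    · rw [h2, h4] at hab
      exact absurd hab (hmem b h3)
    · rw [h2, h4] at hab
      exact absurd hab.symm (hmem a h1)
    · rw [h2, h4] at hab
      exact h.inj a h1 b h3 hab
  · intro a ha
    rcases hcase a ha with ⟨h1, h2⟩ | ⟨h1, h2⟩
    · rw [h2]
      exact ⟨hq0, hq1⟩
    · rw [h2]
      exact h.pr a h1
  · rw [OX7a_upd]
    exact (GC_le_of_VT hq hq1 hx hxq).trans h.gc
  · rw [OX7a_upd, h.idx, relIndex_VT hq1 hx hxq, pow_succ, mul_assoc]

end Pool.Agent.RGK
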