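import Mathlib
import Pool.Agent.Lib.RGK.QKDefs

/-!
RG v5, row OX8a: the criterion from the table of cup products (pure linear algebra); compare X8a.lean.

Coordinates: `inl t`: `e_t`; `inr (inl 0)`: `e_1`; `inr (inl 1)`: `e_A`; `inr (inr t)`: `e'_t`.
`V := N ⊔ span {a0, a1}`, `U := span {bA} ⊔ span (range β)`, `u := bA + ∑ t, β t`, `v := a0 + a1`.
Span: `c bA a0 = - x e_A`, `c bA a1 = x (e_1 - e_A)`, `c (β t) a1 = r_t (e_1 - e'_t)`,
`c (β t) a0 = r_t (e_t - e'_t)` span everything. Double star: a vanishing combination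
`α c bA v + ∑ z_t c (β t) v + γ c u a0 + c u ν` has the coordinates
`e_1`: `α x + ∑ z_t r_t`, `e_A`: `- 2 α x - γ x`, `e_t`: `r_t (z_t + γ + νs_t(ν))`,
`e'_t`: `- r_t (2 z_t + γ + νs_t(ν))`; so `z_t = 0`, `νs_t(ν) = - γ`, `α x = 0`, `γ = 0`, `ν = 0` (`2 ≠ 0` is
not even needed). So the dimension of the double star is at least `1 + m + 1 + dim N = dim G - 1`.
-/

set_option autoImplicit false

namespace Pool.Agent.RGK

theorem crit_tableO {p : ℕ} [Fact p.Prime] {H : Type} [AddCommGroup H]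
    [Module (ZMod p) H] {m : ℕ}
    (c : H →ₗ[ZMod p] H →ₗ[ZMod p] (Fin m ⊕ Fin 2 ⊕ Fin m → ZMod p)) (halt : ∀ f, c f f = 0)
    (N : Submodule (ZMod p) H) [FiniteDimensional (ZMod p) N] (a0 a1 bA : H) (β : Fin m → H)
    (νs : Fin m → H →ₗ[ZMod p] ZMod p) (hsep : ∀ ν ∈ N, (∀ t, νs t ν = 0) → ν = 0)
    (hind : ∀ ν ∈ N, ∀ (x0 x1 y0 : ZMod p) (z : Fin m → ZMod p),
      ν + x0 • a0 + x1 • a1 + y0 • bA + ∑ t, z t • β t = 0 →
      ν = 0 ∧ x0 = 0 ∧ x1 = 0 ∧ y0 = 0 ∧ ∀ t, z t = 0)
    (x : ZMod p) (hx : x ≠ 0) (r : Fin m → ZMod p) (hr : ∀ t, r t ≠ 0)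
    (hA0 : c bA a0 = Pi.single (Sum.inr (Sum.inl 1)) (-x))
    (hA1 : c bA a1 = Pi.single (Sum.inr (Sum.inl 0)) x + Pi.single (Sum.inr (Sum.inl 1)) (-x))
    (hβ0 : ∀ t, c (β t) a0 = Pi.single (Sum.inl t) (r t) +
      Pi.single (Sum.inr (Sum.inr t)) (-r t))
    (hβ1 : ∀ t, c (β t) a1 = Pi.single (Sum.inr (Sum.inl 0)) (r t) +
      Pi.single (Sum.inr (Sum.inr t)) (-r t))
    (hβν : ∀ t, ∀ ν ∈ N, c (β t) ν = Pi.single (Sum.inl t) (r t * νs t ν) +
      Pi.single (Sum.inr (Sum.inr t)) (-(r t * νs t ν)))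
    (hb : ∀ ν ∈ N, c bA ν = 0) (hνν : ∀ ν ∈ N, ∀ ν' ∈ N, c ν ν' = 0)
    (hνa : ∀ ν ∈ N, c ν a0 = 0 ∧ c ν a1 = 0) (haa : c a0 a1 = 0) :
    CritC (fun f g => c f g)
      (N ⊔ Submodule.span (ZMod p) {a0, a1} ⊔ (Submodule.span (ZMod p) {bA} ⊔
        Submodule.span (ZMod p) (Set.range β))) (a0 + a1) := by
  classical
  have hanti : ∀ f g, c g f = - c f g := by
    intro f g
    have h1 := halt (f + g)
    have h3 : c (f + g) (f + g) = c f f + c g f + (c f g + c g g) := by
      rw [map_add (c (f + g)) f g, map_add c f g, LinearMap.add_apply, LinearMap.add_apply]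
    rw [h3, halt f, halt g, zero_add, add_zero] at h1
    exact eq_neg_of_add_eq_zero_left h1
  set V : Submodule (ZMod p) H := N ⊔ Submodule.span (ZMod p) {a0, a1} with hV
  set U : Submodule (ZMod p) H := Submodule.span (ZMod p) {bA} ⊔
    Submodule.span (ZMod p) (Set.range β) with hU
  have memV : ∀ f ∈ V, ∃ ν ∈ N, ∃ x0 x1 : ZMod p, f = ν + x0 • a0 + x1 • a1 := by
    intro f hf
    obtain ⟨ν, hν, g, hg, rfl⟩ := Submodule.mem_sup.1 hf
    obtain ⟨x0, x1, rfl⟩ := Submodule.mem_span_pair.1 hg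
    exact ⟨ν, hν, x0, x1, by rw [add_assoc]⟩
  have memU : ∀ f ∈ U, ∃ (y0 : ZMod p) (z : Fin m → ZMod p),
      f = y0 • bA + ∑ t, z t • β t := by
    intro f hf
    obtain ⟨g, hg, k, hk, rfl⟩ := Submodule.mem_sup.1 hf
    obtain ⟨y0, rfl⟩ := Submodule.mem_span_singleton.1 hg
    obtain ⟨z, rfl⟩ := (Submodule.mem_span_range_iff_exists_fun (ZMod p)).1 hk
    exact ⟨y0, z, rfl⟩
  have hNV : ∀ ν ∈ N, ν ∈ V := fun ν hν => Submodule.mem_sup_left hν
  have ha0V : a0 ∈ V := Submodule.mem_sup_right (Submodule.subset_span (by simp))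
  have ha1V : a1 ∈ V := Submodule.mem_sup_right (Submodule.subset_span (by simp))
  have hbU : bA ∈ U := Submodule.mem_sup_left (Submodule.subset_span (by simp))
  have hβU : ∀ t, β t ∈ U := fun t => Submodule.mem_sup_right (Submodule.subset_span ⟨t, rfl⟩)
  set v : H := a0 + a1 with hv
  set u : H := bA + ∑ t, β t with hu
  have hvV : v ∈ V := V.add_mem ha0V ha1V
  have huU : u ∈ U := U.add_mem hbU (U.sum_mem fun t _ => hβU t)
  -- the values
  have cAv : c bA v = Pi.single (Sum.inr (Sum.inl 1)) (-x) +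
      (Pi.single (Sum.inr (Sum.inl 0)) x + Pi.single (Sum.inr (Sum.inl 1)) (-x)) := by
    rw [hv, map_add, hA0, hA1]
  have cβv : ∀ t, c (β t) v = (Pi.single (Sum.inl t) (r t) +
      Pi.single (Sum.inr (Sum.inr t)) (-r t)) + (Pi.single (Sum.inr (Sum.inl 0)) (r t) +
      Pi.single (Sum.inr (Sum.inr t)) (-r t)) := by
    intro t
    rw [hv, map_add, hβ0, hβ1]
  have cua : c u a0 = Pi.single (Sum.inr (Sum.inl 1)) (-x) +
      ∑ t, (Pi.single (Sum.inl t) (r t) + Pi.single (Sum.inr (Sum.inr t)) (-r t)) := by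
    rw [hu, map_add, LinearMap.add_apply, hA0, map_sum, LinearMap.sum_apply]
    congr 1
    exact Finset.sum_congr rfl fun t _ => hβ0 t
  have cuν : ∀ ν ∈ N, c u ν = ∑ t, (Pi.single (Sum.inl t) (r t * νs t ν) +
      Pi.single (Sum.inr (Sum.inr t)) (-(r t * νs t ν))) := by
    intro ν hν
    rw [hu, map_add, LinearMap.add_apply, hb ν hν, map_sum, LinearMap.sum_apply, zero_add]
    exact Finset.sum_congr rfl fun t _ => hβν t ν hν
  set St : Submodule (ZMod p) (Fin m ⊕ Fin 2 ⊕ Fin m → ZMod p) := Submodule.span (ZMod p)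
        ({x | ∃ g ∈ V, x = c u g} ∪ {x | ∃ f ∈ U, x = c f v}) with hSt
  have st1 : ∀ g ∈ V, c u g ∈ St := fun g hg => Submodule.subset_span (Or.inl ⟨g, hg, rfl⟩)
  have st2 : ∀ f ∈ U, c f v ∈ St := fun f hf => Submodule.subset_span (Or.inr ⟨f, hf, rfl⟩)
  refine ⟨U, V, by rw [sup_comm], ?_, ?_, ?_, hvV, ?_, u, huU, ?_, ?_⟩
  · rw [Submodule.eq_bot_iff]
    rintro f ⟨hfU, hfV⟩
    obtain ⟨ν, hν, x0, x1, e1⟩ := memV f hfV
    obtain ⟨y0, z, e2⟩ := memU f hfU
    have h3 := hind ν hν x0 x1 (-y0) (fun t => -z t) (by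
      have e3 : ν + x0 • a0 + x1 • a1 + -y0 • bA + ∑ t, -z t • β t =
          (ν + x0 • a0 + x1 • a1) - (y0 • bA + ∑ t, z t • β t) := by
        simp only [neg_smul, Finset.sum_neg_distrib]
        abel
      rw [e3, ← e1, ← e2, sub_self])
    rw [e1, h3.1, h3.2.1, h3.2.2.1]
    simp
  · intro f hf g hg
    obtain ⟨ν, hν, x0, x1, rfl⟩ := memV f hf
    obtain ⟨ν', hν', x0', x1', rfl⟩ := memV g hg
    have haa' : c a1 a0 = 0 := by rw [hanti, haa, neg_zero]
    have e1 : c a0 ν' = 0 := by rw [hanti, (hνa ν' hν').1, neg_zero]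
    have e2 : c a1 ν' = 0 := by rw [hanti, (hνa ν' hν').2, neg_zero]
    simp only [map_add, map_smul, LinearMap.add_apply, LinearMap.smul_apply, hνν ν hν ν' hν',
      (hνa ν hν).1, (hνa ν hν).2, e1, e2, halt, haa, haa', smul_zero, add_zero]
  · rw [eq_top_iff]
    rintro y -
    have hs : ∀ f ∈ U, ∀ g ∈ V, c f g ∈
        Submodule.span (ZMod p) {x | ∃ f ∈ U, ∃ g ∈ V, x = c f g} :=
      fun f hf g hg => Submodule.subset_span ⟨f, hf, g, hg, rfl⟩
    have key : ∀ (j : Fin m ⊕ Fin 2 ⊕ Fin m) (b : ZMod p), b ≠ 0 →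
        (Pi.single j b : Fin m ⊕ Fin 2 ⊕ Fin m → ZMod p) ∈
          Submodule.span (ZMod p) {x | ∃ f ∈ U, ∃ g ∈ V, x = c f g} → ∀ a : ZMod p,
        (Pi.single j a : Fin m ⊕ Fin 2 ⊕ Fin m → ZMod p) ∈
          Submodule.span (ZMod p) {x | ∃ f ∈ U, ∃ g ∈ V, x = c f g} := by
      intro j b hb hmem a
      have h3 := Submodule.smul_mem _ (a * b⁻¹) hmem
      rwa [← Pi.single_smul, smul_eq_mul, mul_assoc, inv_mul_cancel₀ hb, mul_one] at h3
    have kA : ∀ a : ZMod p, (Pi.single (Sum.inr (Sum.inl 1)) a :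
        Fin m ⊕ Fin 2 ⊕ Fin m → ZMod p) ∈
          Submodule.span (ZMod p) {x | ∃ f ∈ U, ∃ g ∈ V, x = c f g} :=
      key _ (-x) (neg_ne_zero.2 hx) (hA0 ▸ hs _ hbU _ ha0V)
    have k1 : ∀ a : ZMod p, (Pi.single (Sum.inr (Sum.inl 0)) a :
        Fin m ⊕ Fin 2 ⊕ Fin m → ZMod p) ∈
          Submodule.span (ZMod p) {x | ∃ f ∈ U, ∃ g ∈ V, x = c f g} := by
      refine key _ x hx ?_
      have h3 := Submodule.sub_mem _ (hs _ hbU _ ha1V) (hs _ hbU _ ha0V)
      rwa [hA1, hA0, add_sub_cancel_right] at h3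
    have k2 : ∀ (t : Fin m) (a : ZMod p), (Pi.single (Sum.inr (Sum.inr t)) a :
        Fin m ⊕ Fin 2 ⊕ Fin m → ZMod p) ∈
          Submodule.span (ZMod p) {x | ∃ f ∈ U, ∃ g ∈ V, x = c f g} := by
      intro t
      refine key _ (-r t) (neg_ne_zero.2 (hr t)) ?_
      have h3 := Submodule.sub_mem _ (hs _ (hβU t) _ ha1V) (k1 (r t))
      rwa [hβ1 t, add_sub_cancel_left] at h3
    have all : ∀ (j : Fin m ⊕ Fin 2 ⊕ Fin m) (a : ZMod p),
        (Pi.single j a : Fin m ⊕ Fin 2 ⊕ Fin m → ZMod p) ∈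
          Submodule.span (ZMod p) {x | ∃ f ∈ U, ∃ g ∈ V, x = c f g} := by
      rintro (t | i | t) a
      · refine key _ (r t) (hr t) ?_ a
        have h3 := Submodule.sub_mem _ (hs _ (hβU t) _ ha0V) (k2 t (-r t))
        rwa [hβ0 t, add_sub_cancel_right] at h3
      · fin_cases i
        · exact k1 a
        · exact kA a
      · exact k2 t a
    rw [← Finset.univ_sum_single y]
    exact Submodule.sum_mem _ fun j _ => all j _
  · intro h
    have h3 := hind 0 N.zero_mem 1 1 0 (fun _ => 0) (by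
      simp only [zero_smul, Finset.sum_const_zero, add_zero, zero_add, one_smul]
      exact h)
    exact one_ne_zero h3.2.1
  · intro h
    have h3 := hind 0 N.zero_mem 0 0 1 (fun _ => 1) (by
      simp only [zero_smul, add_zero, zero_add, one_smul]
      exact h)
    exact one_ne_zero h3.2.2.2.1
  · -- the upper bound for `G`
    have fU1 : Module.finrank (ZMod p) (Submodule.span (ZMod p) {bA}) ≤ 1 := by
      have := finrank_span_finset_le_card (R := ZMod p) ({bA} : Finset H)
      rw [Finset.coe_singleton, Finset.card_singleton] at this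
      exact this
    have fV1 : Module.finrank (ZMod p) (Submodule.span (ZMod p) {a0, a1}) ≤ 2 := by
      have := finrank_span_finset_le_card (R := ZMod p) ({a0, a1} : Finset H)
      rw [Finset.coe_insert, Finset.coe_singleton] at this
      exact this.trans Finset.card_le_two
    have fβ : Module.finrank (ZMod p) (Submodule.span (ZMod p) (Set.range β)) ≤ m := by
      have := finrank_range_le_card (R := ZMod p) β
      rwa [Fintype.card_fin] at this
    have i1 : FiniteDimensional (ZMod p) (Submodule.span (ZMod p) ({bA} : Set H)) :=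
      FiniteDimensional.span_of_finite _ (Set.toFinite _)
    have i2 : FiniteDimensional (ZMod p) (Submodule.span (ZMod p) ({a0, a1} : Set H)) :=
      FiniteDimensional.span_of_finite _ (Set.toFinite _)
    have i3 : FiniteDimensional (ZMod p) (Submodule.span (ZMod p) (Set.range β)) :=
      FiniteDimensional.span_of_finite _ (Set.toFinite _)
    have g1 : Module.finrank (ZMod p) (V ⊔ U : Submodule (ZMod p) H) ≤
        Module.finrank (ZMod p) N + 2 + (1 + m) := by
      refine (Submodule.finrank_add_le_finrank_add_finrank V U).trans (Nat.add_le_add ?_ ?_)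
      · exact (Submodule.finrank_add_le_finrank_add_finrank _ _).trans
          (Nat.add_le_add le_rfl fV1)
      · exact (Submodule.finrank_add_le_finrank_add_finrank _ _).trans (Nat.add_le_add fU1 fβ)
    -- the lower bound for the double star
    let Φ : (ZMod p × (Fin m → ZMod p) × ZMod p × N) →ₗ[ZMod p] St :=
      { toFun := fun q => ⟨q.1 • c bA v + ∑ t, q.2.1 t • c (β t) v +
          q.2.2.1 • c u a0 + c u (q.2.2.2 : H), by
            refine St.add_mem (St.add_mem (St.add_mem ?_ ?_) ?_) ?_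
            · exact St.smul_mem _ (st2 _ hbU)
            · exact St.sum_mem fun t _ => St.smul_mem _ (st2 _ (hβU t))
            · exact St.smul_mem _ (st1 _ ha0V)
            · exact st1 _ (hNV _ q.2.2.2.2)⟩
        map_add' := by
          intro q q'
          apply Subtype.ext
          simp only [Prod.fst_add, Prod.snd_add, Pi.add_apply, add_smul, Finset.sum_add_distrib,
            Submodule.coe_add, map_add]
          abel
        map_smul' := by
          intro a q
          apply Subtype.ext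
          simp only [Prod.smul_fst, Prod.smul_snd, Pi.smul_apply, smul_assoc, ← Finset.smul_sum,
            Submodule.coe_smul, map_smul, RingHom.id_apply, smul_add] }
    have hΦ : Function.Injective Φ := by
      rw [← LinearMap.ker_eq_bot, Submodule.eq_bot_iff]
      rintro ⟨α, z, s, ν, hν⟩ hq
      have hq' : α • c bA v + ∑ t, z t • c (β t) v + s • c u a0 + c u ν = 0 :=
        congrArg Subtype.val (LinearMap.mem_ker.1 hq)
      rw [cAv, cua, cuν ν hν] at hq'
      simp only [cβv] at hq'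
      have q0 := congrFun hq' (Sum.inr (Sum.inl 0))
      have q1 := congrFun hq' (Sum.inr (Sum.inl 1))
      have qt := fun t => congrFun hq' (Sum.inl t)
      have qt' := fun t => congrFun hq' (Sum.inr (Sum.inr t))
      simp [Pi.single_apply, Finset.sum_apply] at q0 q1 qt qt'
      have zz : ∀ t, z t = 0 := by
        intro t
        have h3 := qt' t
        rw [Finset.sum_add_distrib, Finset.sum_ite_eq, if_pos (Finset.mem_univ t)] at h3
        have h4 : z t * r t = 0 := by linear_combination -(qt t) - h3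
        rcases mul_eq_zero.1 h4 with h | h
        · exact h
        · exact absurd h (hr t)
      have αz : α = 0 := by
        have h3 : α * x = 0 := by
          rw [Finset.sum_eq_zero fun t _ => by rw [zz t, zero_mul], add_zero] at q0
          exact q0
        rcases mul_eq_zero.1 h3 with h | h
        · exact h
        · exact absurd h hx
      have sz : s = 0 := by
        rw [αz] at q1
        have h3 : s * x = 0 := by linear_combination -q1
        rcases mul_eq_zero.1 h3 with h | h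
        · exact h
        · exact absurd h hx
      have νz : ν = 0 := by
        refine hsep ν hν fun t => ?_
        have h3 := qt t
        rw [zz t, sz] at h3
        have h4 : r t * νs t ν = 0 := by linear_combination h3
        rcases mul_eq_zero.1 h4 with h | h
        · exact absurd h (hr t)
        · exact h
      subst νz
      subst sz
      subst αz
      have zz' : z = 0 := funext zz
      subst zz'
      rfl
    have g2 := LinearMap.finrank_le_finrank_of_injective hΦ
    rw [Module.finrank_prod, Module.finrank_prod, Module.finrank_prod,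
      Module.finrank_self, Module.finrank_fin_fun] at g2
    change Module.finrank (ZMod p) (V ⊔ U : Submodule (ZMod p) H) ≤
      Module.finrank (ZMod p) St + 1
    omega

end Pool.Agent.RGK
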