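import Mathlib
import Pool.Agent.Lib.RGK.OXDefs
import Pool.Agent.Lib.RGK.X2
import Pool.Agent.Lib.RGK.X3
import Pool.Agent.Lib.RGK.OX7a
import Pool.Agent.Lib.RGK.OX8a

/-!
RG v5, row OX8: a complete configuration gives a core; compare X8.lean.

`T := (Finset.range (m + (m + 3))).image s`, omitted prime `o := s m`. Let
`e : Fin m ⊕ Fin 2 ⊕ Fin m ≃ {t // t ∈ T ∧ t ≠ s m}` be `t ↦ s t`, `i ↦ s (m + 1 + i)`,
`t ↦ s (m + 3 + t)`. Apply `crit_tableO` to `c f g k := lam (e k) * cupF p (e k) f g`; then remove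
the scaling by `lam` and transport along `e`. The missing cup products come from `hrec`.
-/

set_option autoImplicit false

namespace Pool.Agent.RGK

open NumberField IsDedekindDomain
open Pool.Agent.RG.H (Pr vl UU PP SU ev below nrm emb NS)

private theorem CritC_idx_OX8 {p : ℕ} [Fact p.Prime] {H κ κ' : Type} [AddCommGroup H]
    [Module (ZMod p) H] (e : κ ≃ κ') (w : κ → ZMod p) (hw : ∀ k, w k ≠ 0)
    {c : H → H → κ → ZMod p} {c' : H → H → κ' → ZMod p}
    (hcc : ∀ f g k, c f g k = w k * c' f g (e k)) {G : Submodule (ZMod p) H} {v : H}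
    (h : CritC c G v) : CritC c' G v := by
  obtain ⟨U, V, h1, h2, h3, h4, h5, h6, u, hu, hu0, h7⟩ := h
  obtain ⟨E, hE⟩ : ∃ E : (κ' → ZMod p) ≃ₗ[ZMod p] (κ → ZMod p), ∀ f g, E (c' f g) = c f g := by
    refine ⟨{ toFun := fun x k => w k * x (e k)
              invFun := fun y k => (w (e.symm k))⁻¹ * y (e.symm k)
              map_add' := ?_
              map_smul' := ?_
              left_inv := ?_
              right_inv := ?_ }, fun f g => ?_⟩
    · intro x y
      funext k
      simp only [Pi.add_apply]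
      ring
    · intro a x
      funext k
      simp only [Pi.smul_apply, smul_eq_mul, RingHom.id_apply]
      ring
    · intro x
      funext k
      show (w (e.symm k))⁻¹ * (w (e.symm k) * x (e (e.symm k))) = x k
      rw [Equiv.apply_symm_apply, inv_mul_cancel_left₀ (hw _)]
    · intro y
      funext k
      show w k * ((w (e.symm (e k)))⁻¹ * y (e.symm (e k))) = y k
      rw [Equiv.symm_apply_apply, mul_inv_cancel_left₀ (hw _)]
    · funext k
      exact (hcc f g k).symm
  have hE0 : ∀ x, E x = 0 → x = 0 := fun x hx => E.injective (by rw [hx, map_zero])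
  refine ⟨U, V, h1, h2, fun f hf g hg => ?_, ?_, h5, h6, u, hu, hu0, h7.trans ?_⟩
  · exact hE0 _ ((hE f g).trans (h3 f hf g hg))
  · have e1 : {x | ∃ f ∈ U, ∃ g ∈ V, x = c f g} =
        (E : (κ' → ZMod p) →ₗ[ZMod p] (κ → ZMod p)) '' {x | ∃ f ∈ U, ∃ g ∈ V, x = c' f g} := by
      ext x
      constructor
      · rintro ⟨f, hf, g, hg, rfl⟩
        exact ⟨c' f g, ⟨f, hf, g, hg, rfl⟩, hE f g⟩
      · rintro ⟨y, ⟨f, hf, g, hg, rfl⟩, rfl⟩
        exact ⟨f, hf, g, hg, hE f g⟩
    rw [e1, Submodule.span_image] at h4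
    refine Submodule.map_injective_of_injective
      (f := (E : (κ' → ZMod p) →ₗ[ZMod p] (κ → ZMod p))) E.injective ?_
    rw [h4, Submodule.map_top]
    exact (LinearEquiv.range E).symm
  · have e1 : ({x | ∃ g ∈ V, x = c u g} ∪ {x | ∃ f ∈ U, x = c f v}) =
        (E : (κ' → ZMod p) →ₗ[ZMod p] (κ → ZMod p)) ''
          ({x | ∃ g ∈ V, x = c' u g} ∪ {x | ∃ f ∈ U, x = c' f v}) := by
      ext x
      constructor
      · rintro (⟨g, hg, rfl⟩ | ⟨f, hf, rfl⟩)
        · exact ⟨c' u g, Or.inl ⟨g, hg, rfl⟩, hE u g⟩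
        · exact ⟨c' f v, Or.inr ⟨f, hf, rfl⟩, hE f v⟩
      · rintro ⟨y, (⟨g, hg, rfl⟩ | ⟨f, hf, rfl⟩), rfl⟩
        · exact Or.inl ⟨g, hg, hE u g⟩
        · exact Or.inr ⟨f, hf, hE f v⟩
    rw [e1, Submodule.span_image]
    have := LinearEquiv.finrank_map_eq E (Submodule.span (ZMod p)
      ({x | ∃ g ∈ V, x = c' u g} ∪ {x | ∃ f ∈ U, x = c' f v}))
    rw [← this]

variable {K : Type} [Field K] [NumberField K]

/-- the value at `gv` -/
private noncomputable def Xv (p : ℕ) (v : Pr K) : (Pr K → Hm K p) →ₗ[ZMod p] ZMod p where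
  toFun f := (f v).ev (gv p v)
  map_add' _ _ := rfl
  map_smul' _ _ := rfl

/-- the value at `piv` -/
private noncomputable def Yv (p : ℕ) (v : Pr K) : (Pr K → Hm K p) →ₗ[ZMod p] ZMod p where
  toFun f := (f v).ev (piv v)
  map_add' _ _ := rfl
  map_smul' _ _ := rfl

private theorem XY_smul {p : ℕ} [Fact p.Prime] {v : Pr K} (hv : nm v % p = 1)
    {f : Pr K → Hm K p} {c : ZMod p} (h : f v = c • vp p v) : Xv p v f = 0 ∧ Yv p v f = c := by
  constructor
  · show (f v).ev (gv p v) = 0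
    rw [h]
    show c * ((vl v (gv p v) : ℤ) : ZMod p) = 0
    rw [(gv_spec hv).1, Int.cast_zero, mul_zero]
  · show (f v).ev (piv v) = c
    rw [h]
    show c * ((vl v (piv v) : ℤ) : ZMod p) = c
    rw [vl_piv, Int.cast_one, mul_one]

private theorem XY_zero {p : ℕ} {v : Pr K} {f : Pr K → Hm K p} (h : f v = 0) :
    Xv p v f = 0 ∧ Yv p v f = 0 := by
  constructor
  · show (f v).ev (gv p v) = 0
    rw [h]
    rfl
  · show (f v).ev (piv v) = 0
    rw [h]
    rfl

private theorem cup_XY {p : ℕ} (v : Pr K) (f g : Pr K → Hm K p) :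
    cupF p v f g = Xv p v f * Yv p v g - Xv p v g * Yv p v f := rfl

/-- the scaled cup products -/
private noncomputable def cO {κ : Type} (p : ℕ) (lam : Pr K → ZMod p) (q : κ → Pr K) :
    (Pr K → Hm K p) →ₗ[ZMod p] (Pr K → Hm K p) →ₗ[ZMod p] (κ → ZMod p) :=
  LinearMap.mk₂ (ZMod p)
    (fun f g k => lam (q k) * (Xv p (q k) f * Yv p (q k) g - Xv p (q k) g * Yv p (q k) f))
    (fun f f' g => by funext k; simp only [map_add, Pi.add_apply]; ring)
    (fun c f g => by funext k; simp only [map_smul, smul_eq_mul, Pi.smul_apply]; ring)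
    (fun f g g' => by funext k; simp only [map_add, Pi.add_apply]; ring)
    (fun c f g => by funext k; simp only [map_smul, smul_eq_mul, Pi.smul_apply]; ring)

private theorem cO_apply {κ : Type} (p : ℕ) (lam : Pr K → ZMod p) (q : κ → Pr K)
    (f g : Pr K → Hm K p) (k : κ) : cO p lam q f g k = lam (q k) * cupF p (q k) f g := rfl

/-- the indices -/
private def Fx (m : ℕ) : Fin m ⊕ Fin 2 ⊕ Fin m → ℕ
  | Sum.inl t => t
  | Sum.inr (Sum.inl i) => m + 1 + i
  | Sum.inr (Sum.inr t) => m + (3 + t)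

private theorem Fx_lt {m : ℕ} (k : Fin m ⊕ Fin 2 ⊕ Fin m) : Fx m k < m + (m + 3) := by
  rcases k with t | i | t
  · show (t : ℕ) < _
    omega
  · show m + 1 + (i : ℕ) < _
    omega
  · show m + (3 + (t : ℕ)) < _
    omega

private theorem Fx_ne {m : ℕ} (k : Fin m ⊕ Fin 2 ⊕ Fin m) : Fx m k ≠ m := by
  rcases k with t | i | t
  · show (t : ℕ) ≠ _
    omega
  · show m + 1 + (i : ℕ) ≠ _
    omega
  · show m + (3 + (t : ℕ)) ≠ _
    omega

private theorem Fx_inj {m : ℕ} : Function.Injective (Fx m) := by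
  intro k k' h
  rcases k with t | i | t <;> rcases k' with t' | i' | t'
  · have h : (t : ℕ) = t' := h
    rw [Fin.ext h]
  · have h : (t : ℕ) = m + 1 + i' := h
    omega
  · have h : (t : ℕ) = m + (3 + t') := h
    omega
  · have h : m + 1 + (i : ℕ) = t' := h
    omega
  · have h : m + 1 + (i : ℕ) = m + 1 + i' := h
    rw [Fin.ext (by omega : (i : ℕ) = i')]
  · have h : m + 1 + (i : ℕ) = m + (3 + t') := h
    omega
  · have h : m + (3 + (t : ℕ)) = t' := h
    omega
  · have h : m + (3 + (t : ℕ)) = m + 1 + i' := h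
    omega
  · have h : m + (3 + (t : ℕ)) = m + (3 + t') := h
    rw [Fin.ext (by omega : (t : ℕ) = t')]

private theorem Fx_surj {m a : ℕ} (h : a < m + (m + 3)) (hm : a ≠ m) : ∃ k, Fx m k = a := by
  by_cases h1 : a < m
  · exact ⟨Sum.inl ⟨a, h1⟩, rfl⟩
  · by_cases h2 : a < m + 3
    · refine ⟨Sum.inr (Sum.inl ⟨a - m - 1, by omega⟩), ?_⟩
      show m + 1 + (a - m - 1) = a
      omega
    · refine ⟨Sum.inr (Sum.inr ⟨a - m - 3, by omega⟩), ?_⟩
      show m + (3 + (a - m - 3)) = a
      omega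

private theorem fst_succ_OX8 (s : ℕ → Pr K) (n : ℕ) : fst s (n + 1) = insert (s n) (fst s n) := by
  unfold fst
  ext v
  constructor
  · rintro ⟨a, ha, rfl⟩
    have ha : a < n + 1 := ha
    rcases Nat.lt_succ_iff_lt_or_eq.1 ha with h | h
    · exact Or.inr ⟨a, h, rfl⟩
    · exact Or.inl (by rw [h])
  · rintro (rfl | ⟨a, ha, rfl⟩)
    · exact ⟨n, Nat.lt_succ_self n, rfl⟩
    · exact ⟨a, Nat.lt_succ_of_lt ha, rfl⟩

private theorem fst_mono_OX8 (s : ℕ → Pr K) {n n' : ℕ} (h : n ≤ n') : fst s n ⊆ fst s n' := by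
  rintro v ⟨a, ha, rfl⟩
  exact ⟨a, lt_of_lt_of_le ha h, rfl⟩

private theorem X_ram {p : ℕ} [Fact p.Prime] {T : Set (Pr K)} {f : Pr K → Hm K p}
    (hf : f ∈ GC p T) {v : Pr K} (hv : nm v % p = 1) (hvT : v ∈ T) (h : ¬ Kills (f v) v 0) :
    Xv p v f ≠ 0 := fun h0 => h ((unram_iff' hv (hf.2.1 v hvT)).2 h0)

/-- the structure of the space of characters -/
private theorem GC_span_OX8 {p : ℕ} [Fact p.Prime] {m : ℕ} {lam : Pr K → ZMod p} {s : ℕ → Pr K}
    {χ : ℕ → Pr K → Hm K p} (h0 : T0O p s m) {n : ℕ} (h : CfgO p m lam s χ n) (j : ℕ)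
    (hj : j ≤ n) :
    GC p (fst s (m + j)) ≤ GC p ∅ ⊔ Submodule.span (ZMod p) (χ '' Set.Iio j) := by
  induction j with
  | zero => exact h0.gc.trans le_sup_left
  | succ j ih =>
    intro f hf
    have hjn : j < n := hj
    have hv : nm (s (m + j)) % p = 1 := (h.pr (m + j) (by omega)).2
    have hmem := h.mem j hjn
    have hin : s (m + j) ∈ fst s (m + j + 1) := ⟨m + j, Nat.lt_succ_self _, rfl⟩
    have hX := X_ram hmem hv hin (h.ram j hjn)
    set a : ZMod p := Xv p (s (m + j)) f / Xv p (s (m + j)) (χ j) with ha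
    have hf' : f - a • χ j ∈ GC p (fst s (m + j + 1)) :=
      Submodule.sub_mem _ hf (Submodule.smul_mem _ _ hmem)
    have hX' : Xv p (s (m + j)) (f - a • χ j) = 0 := by
      rw [map_sub, map_smul, smul_eq_mul, ha, div_mul_cancel₀ _ hX, sub_self]
    have hk : Kills ((f - a • χ j) (s (m + j))) (s (m + j)) 0 :=
      (unram_iff' hv (hf'.2.1 _ hin)).2 hX'
    have hf'' := GC.unram hf' hk
    have hsub : fst s (m + j + 1) \ {s (m + j)} ⊆ fst s (m + j) := by
      rw [fst_succ_OX8]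
      rintro v ⟨hv1 | hv1, hv2⟩
      · exact absurd hv1 hv2
      · exact hv1
    have hmem2 := ih (by omega) (GC.mono hsub hf'')
    have hle : GC p ∅ ⊔ Submodule.span (ZMod p) (χ '' Set.Iio j) ≤
        GC p ∅ ⊔ Submodule.span (ZMod p) (χ '' Set.Iio (j + 1)) :=
      sup_le_sup_left (Submodule.span_mono (Set.image_mono
        (Set.Iio_subset_Iio (Nat.le_succ j)))) _
    have h3 : a • χ j ∈ GC p ∅ ⊔ Submodule.span (ZMod p) (χ '' Set.Iio (j + 1)) :=
      Submodule.smul_mem _ _ ((le_sup_right :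
        Submodule.span (ZMod p) (χ '' Set.Iio (j + 1)) ≤ _)
          (Submodule.subset_span ⟨j, Nat.lt_succ_self j, rfl⟩))
    have h4 := Submodule.add_mem _ (hle hmem2) h3
    rwa [sub_add_cancel] at h4

open Classical in
private theorem crit_OX8 {p : ℕ} [Fact p.Prime] {m : ℕ} {lam : Pr K → ZMod p}
    (hlam : ∀ v, nm v % p = 1 → lam v ≠ 0)
    (hrec : ∀ T : Finset (Pr K), (∀ v ∈ T, nm v % p = 1) → ∀ f ∈ GC p (T : Set (Pr K)),
      ∀ g ∈ GC p (T : Set (Pr K)), ∑ t ∈ T, lam t * cupF p t f g = 0)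
    {s : ℕ → Pr K} (hsep : ∀ ν ∈ GC p ∅, (∀ t < m, ν (s t) = 0) → ν = 0)
    {χ : ℕ → Pr K → Hm K p} (h0 : T0O p s m) (h : CfgO p m lam s χ (m + 3))
    {T : Finset (Pr K)} (hT : (T : Set (Pr K)) = fst s (m + (m + 3))) :
    CritC (fun f g (t : {t : Pr K // t ∈ T ∧ t ≠ s m}) => cupF p (t : Pr K) f g)
      (GC p (fst s (m + (m + 3)))) (χ 0 + χ 1) := by
  have hmemT : ∀ i < m + 3, χ i ∈ GC p (fst s (m + (m + 3))) := fun i hi =>
    GC.mono (fst_mono_OX8 s (by omega)) (h.mem i hi)
  have hsm : ∀ a < m + (m + 3), nm (s a) % p = 1 := fun a ha => (h.pr a ha).2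
  -- the equivalence
  let q : Fin m ⊕ Fin 2 ⊕ Fin m → Pr K := fun k => s (Fx m k)
  have hqT : ∀ k, q k ∈ T ∧ q k ≠ s m := by
    intro k
    refine ⟨?_, fun h1 => Fx_ne k (h.inj _ (Fx_lt k) _ (by omega) h1)⟩
    rw [← Finset.mem_coe, hT]
    exact ⟨Fx m k, Fx_lt k, rfl⟩
  let e : Fin m ⊕ Fin 2 ⊕ Fin m ≃ {t : Pr K // t ∈ T ∧ t ≠ s m} :=
    Equiv.ofBijective (fun k => ⟨q k, hqT k⟩) (by
      constructor
      · intro k k' hk
        have h1 : s (Fx m k) = s (Fx m k') := congrArg Subtype.val hk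
        exact Fx_inj (h.inj _ (Fx_lt k) _ (Fx_lt k') h1)
      · rintro ⟨t, ht, ht'⟩
        rw [← Finset.mem_coe, hT] at ht
        obtain ⟨a, ha, rfl⟩ := ht
        obtain ⟨k, rfl⟩ := Fx_surj ha (fun h1 => ht' (by rw [h1]))
        exact ⟨k, rfl⟩)
  -- the reciprocity law
  have hR : ∀ n < m + (m + 3), ∀ f ∈ GC p (fst s (n + 1)), ∀ g ∈ GC p (fst s (n + 1)),
      lam (s n) * cupF p (s n) f g = - ∑ a ∈ Finset.range n, lam (s a) * cupF p (s a) f g := by
    intro n hn f hf g hg
    have e1 : (((Finset.range (n + 1)).image s : Finset (Pr K)) : Set (Pr K)) = fst s (n + 1) := by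
      rw [Finset.coe_image, Finset.coe_range]
      rfl
    have h1 := hrec ((Finset.range (n + 1)).image s) (by
      intro v hv
      obtain ⟨a, ha, rfl⟩ := Finset.mem_image.1 hv
      have := Finset.mem_range.1 ha
      exact hsm a (by omega)) f (by rw [e1]; exact hf) g (by rw [e1]; exact hg)
    rw [Finset.sum_image (by
      intro a ha b hb hab
      have h2 := Finset.mem_range.1 ha
      have h3 := Finset.mem_range.1 hb
      exact h.inj a (by omega) b (by omega) hab), Finset.sum_range_succ] at h1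
    linear_combination h1
  -- the local data
  have hN1 : ∀ ν ∈ GC p ∅, ∀ a < m + (m + 3), Xv p (s a) ν = 0 := fun ν hν a ha =>
    (XY_smul (hsm a ha) (GC.off hν (Set.notMem_empty _))).1
  have hC1 : ∀ i < m + 3, ∀ a < m + (m + 3), m + i < a → Xv p (s a) (χ i) = 0 := by
    intro i hi a ha hia
    refine (XY_smul (hsm a ha) (GC.off (h.mem i hi) ?_)).1
    rintro ⟨b, hb, hab⟩
    have hb : b < m + i + 1 := hb
    have := h.inj b (by omega) a ha hab
    omega
  have hC2 : ∀ i < m + 3, Xv p (s (m + i)) (χ i) ≠ 0 := fun i hi =>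
    X_ram (h.mem i hi) (hsm _ (by omega)) ⟨m + i, Nat.lt_succ_self _, rfl⟩ (h.ram i hi)
  have A0 : ∀ a < m, Xv p (s a) (χ 0) = 0 ∧ Yv p (s a) (χ 0) = 1 := fun a ha =>
    XY_smul (hsm _ (by omega))
      (((h.loc 0 (by omega) a (by omega)).1 ⟨rfl, ha⟩).trans (one_smul _ _).symm)
  have A1 : ∀ a < m + 1, Xv p (s a) (χ 1) = 0 ∧ Yv p (s a) (χ 1) = 0 := fun a ha =>
    XY_zero ((h.loc 1 (by omega) a (by omega)).2.2.2.2 (by omega) (by omega) (by omega)
      (by omega))
  have A2 : ∀ a < m, Xv p (s a) (χ 2) = 0 ∧ Yv p (s a) (χ 2) = 0 := fun a ha =>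
    XY_zero ((h.loc 2 (by omega) a (by omega)).2.2.2.2 (by omega) (by omega) (by omega)
      (by omega))
  have A2m : Xv p (s m) (χ 2) = 0 ∧ Yv p (s m) (χ 2) = 1 :=
    XY_smul (hsm _ (by omega))
      (((h.loc 2 (by omega) m (by omega)).2.1 ⟨rfl, rfl⟩).trans (one_smul _ _).symm)
  have A2n : ∀ i < m + 3, 2 ≤ i → Xv p (s (m + 1)) (χ i) = 0 := by
    intro i hi hi2
    obtain ⟨y, hy⟩ := (h.loc i hi (m + 1) (by omega)).2.2.2.1 ⟨hi2, rfl⟩
    exact (XY_smul (hsm _ (by omega)) hy).1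
  have hB1 : ∀ t < m, Xv p (s t) (χ (3 + t)) ≠ 0 := fun t ht =>
    X_ram (hmemT (3 + t) (by omega)) (hsm _ (by omega)) ⟨t, by show t < _; omega, rfl⟩
      ((h.loc (3 + t) (by omega) t (by omega)).2.2.1 ⟨by omega, by omega⟩)
  have hB2 : ∀ t < m, ∀ a < m + (3 + t), a ≠ t → a ≠ m + 1 →
      Xv p (s a) (χ (3 + t)) = 0 ∧ Yv p (s a) (χ (3 + t)) = 0 := fun t ht a ha h1 h2 =>
    XY_zero ((h.loc (3 + t) (by omega) a ha).2.2.2.2 (by omega) (by omega) (by omega)
      (by omega))
  have hB3 : ∀ t < m, ∀ a < m + (m + 3), a ≠ t → a ≠ m + (3 + t) →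
      Xv p (s a) (χ (3 + t)) = 0 := by
    intro t ht a ha h1 h2
    rcases Nat.lt_or_ge a (m + (3 + t)) with h3 | h3
    · by_cases h4 : a = m + 1
      · rw [h4]
        exact A2n (3 + t) (by omega) (by omega)
      · exact (hB2 t ht a h3 h1 h4).1
    · exact hC1 (3 + t) (by omega) a ha (by omega)
  have hX0 : ∀ a < m + (m + 3), a ≠ m → Xv p (s a) (χ 0) = 0 := by
    intro a ha h1
    rcases Nat.lt_or_ge a m with h2 | h2
    · exact (A0 a h2).1
    · exact hC1 0 (by omega) a ha (by omega)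
  have hX1 : ∀ a < m + (m + 3), a ≠ m + 1 → Xv p (s a) (χ 1) = 0 := by
    intro a ha h1
    rcases Nat.lt_or_ge a (m + 1) with h2 | h2
    · exact (A1 a h2).1
    · exact hC1 1 (by omega) a ha (by omega)
  have hX2 : ∀ a < m + (m + 3), a ≠ m + 2 → Xv p (s a) (χ 2) = 0 := by
    intro a ha h1
    rcases Nat.lt_or_ge a m with h2 | h2
    · exact (A2 a h2).1
    · by_cases h3 : a = m
      · rw [h3]; exact A2m.1
      · by_cases h4 : a = m + 1
        · rw [h4]; exact A2n 2 (by omega) le_rfl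
        · exact hC1 2 (by omega) a ha (by omega)
  -- cup products which are zero
  have hz : ∀ (a : ℕ) (f g : Pr K → Hm K p), Xv p (s a) f = 0 → Xv p (s a) g = 0 →
      lam (s a) * cupF p (s a) f g = 0 := by
    intro a f g h1 h2
    rw [cup_XY, h1, h2, zero_mul, zero_mul, sub_self, mul_zero]
  have hz' : ∀ (a : ℕ) (f g : Pr K → Hm K p), Xv p (s a) f = 0 ∧ Yv p (s a) f = 0 →
      lam (s a) * cupF p (s a) f g = 0 := by
    intro a f g h1
    rw [cup_XY, h1.1, h1.2, zero_mul, mul_zero, sub_self, mul_zero]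
  have hz'' : ∀ (a : ℕ) (f g : Pr K → Hm K p), Xv p (s a) g = 0 ∧ Yv p (s a) g = 0 →
      lam (s a) * cupF p (s a) f g = 0 := by
    intro a f g h1
    rw [cup_XY, h1.1, h1.2, zero_mul, mul_zero, sub_self, mul_zero]
  -- the values
  obtain ⟨x, hx⟩ : ∃ x : ZMod p, x = lam (s m) * cupF p (s m) (χ 2) (χ 0) := ⟨_, rfl⟩
  have hx0 : x ≠ 0 := by
    rw [hx, cup_XY, A2m.1, A2m.2, zero_mul, mul_one, zero_sub]
    exact mul_ne_zero (hlam _ (hsm _ (by omega))) (neg_ne_zero.2 (hC2 0 (by omega)))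
  obtain ⟨r, hr⟩ : ∃ r : Fin m → ZMod p, ∀ t : Fin m, r t = lam (s t) * Xv p (s t) (χ (3 + t)) :=
    ⟨_, fun _ => rfl⟩
  have hr0 : ∀ t, r t ≠ 0 := by
    intro t
    rw [hr]
    exact mul_ne_zero (hlam _ (hsm _ (by omega))) (hB1 t t.2)
  have hrc : ∀ (t : Fin m) (g : Pr K → Hm K p), Xv p (s t) g = 0 →
      lam (s t) * cupF p (s t) (χ (3 + t)) g = r t * Yv p (s t) g := by
    intro t g hg
    rw [cup_XY, hg, hr]
    ring
  -- eq2, eq3
  have E2 : lam (s (m + 1)) * cupF p (s (m + 1)) (χ 2) (χ 1) = x := by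
    rw [hx]
    exact h.eq2 (by omega)
  have E3 : ∀ t : Fin m, lam (s (m + 1)) * cupF p (s (m + 1)) (χ (3 + t)) (χ 1) = r t := by
    intro t
    rw [h.eq3 t (by omega), hrc t (χ 0) (A0 t t.2).1, (A0 t t.2).2, mul_one]
  have hN0 : ∀ n, GC (K := K) p ∅ ≤ GC p (fst s n) := fun n => GC.mono (Set.empty_subset _)
  have hMem : ∀ n, ∀ i < m + 3, m + i + 1 ≤ n → χ i ∈ GC p (fst s n) := fun n i hi hin =>
    GC.mono (fst_mono_OX8 s hin) (h.mem i hi)
  -- reciprocity at `s (m + 1)`
  have R1 : ∀ f ∈ GC p (fst s (m + 1)), (∀ a < m, Xv p (s a) f = 0) →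
      lam (s (m + 1)) * cupF p (s (m + 1)) f (χ 1) = 0 := by
    intro f hf hf0
    rw [hR (m + 1) (by omega) f (GC.mono (fst_mono_OX8 s (by omega)) hf) (χ 1)
      (hMem _ 1 (by omega) (by omega)), neg_eq_zero]
    refine Finset.sum_eq_zero fun a ha => hz'' a _ _ (A1 a (Finset.mem_range.1 ha))
  -- reciprocity at `s (m + 2)`
  have R2 : ∀ g ∈ GC p (fst s (m + 2)), (∀ a < m, Xv p (s a) g = 0) →
      lam (s (m + 2)) * cupF p (s (m + 2)) (χ 2) g =
        - (lam (s m) * cupF p (s m) (χ 2) g + lam (s (m + 1)) * cupF p (s (m + 1)) (χ 2) g) := by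
    intro g hg hg0
    rw [hR (m + 2) (by omega) (χ 2) (hMem _ 2 (by omega) (by omega)) g
      (GC.mono (fst_mono_OX8 s (by omega)) hg), Finset.sum_range_succ, Finset.sum_range_succ,
      Finset.sum_eq_zero fun a ha => hz' a _ _ (A2 a (Finset.mem_range.1 ha)), zero_add]
  -- reciprocity at `s (m + (3 + t))`
  have R3 : ∀ (t : Fin m), ∀ g ∈ GC p (fst s (m + 2)), Xv p (s t) g = 0 →
      lam (s (m + (3 + t))) * cupF p (s (m + (3 + t))) (χ (3 + t)) g =
        - (r t * Yv p (s t) g + lam (s (m + 1)) * cupF p (s (m + 1)) (χ (3 + t)) g) := by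
    intro t g hg hg0
    have ht := t.2
    rw [hR (m + (3 + t)) (by omega) (χ (3 + t)) (hMem _ (3 + t) (by omega) (by omega)) g
      (GC.mono (fst_mono_OX8 s (by omega)) hg)]
    congr 1
    have h1 : (t : ℕ) ∈ Finset.range (m + (3 + t)) := Finset.mem_range.2 (by omega)
    have h2 : m + 1 ∈ (Finset.range (m + (3 + t))).erase (t : ℕ) :=
      Finset.mem_erase.2 ⟨by omega, Finset.mem_range.2 (by omega)⟩
    rw [← Finset.add_sum_erase _ _ h1, ← Finset.add_sum_erase _ _ h2,
      Finset.sum_eq_zero fun a ha => ?_, add_zero, hrc t g hg0]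
    have h3 := Finset.mem_erase.1 ha
    have h4 := Finset.mem_erase.1 h3.2
    exact hz' a _ _ (hB2 t t.2 a (Finset.mem_range.1 h4.2) h4.1 h3.1)
  -- the coordinates
  have hcl : ∀ f g (t : Fin m), cO p lam q f g (Sum.inl t) = lam (s t) * cupF p (s t) f g :=
    fun _ _ _ => rfl
  have hc0 : ∀ f g, cO p lam q f g (Sum.inr (Sum.inl 0)) =
      lam (s (m + 1)) * cupF p (s (m + 1)) f g := fun _ _ => rfl
  have hc1 : ∀ f g, cO p lam q f g (Sum.inr (Sum.inl 1)) =
      lam (s (m + 2)) * cupF p (s (m + 2)) f g := fun _ _ => rfl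
  have hcr : ∀ f g (t : Fin m), cO p lam q f g (Sum.inr (Sum.inr t)) =
      lam (s (m + (3 + t))) * cupF p (s (m + (3 + t))) f g := fun _ _ _ => rfl
  have hext : ∀ x y : Fin m ⊕ Fin 2 ⊕ Fin m → ZMod p, (∀ t, x (Sum.inl t) = y (Sum.inl t)) →
      x (Sum.inr (Sum.inl 0)) = y (Sum.inr (Sum.inl 0)) →
      x (Sum.inr (Sum.inl 1)) = y (Sum.inr (Sum.inl 1)) →
      (∀ t, x (Sum.inr (Sum.inr t)) = y (Sum.inr (Sum.inr t))) → x = y := by
    intro x y k1 k2 k3 k6
    funext k
    rcases k with t | i | t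
    · exact k1 t
    · fin_cases i
      · exact k2
      · exact k3
    · exact k6 t
  have hfin : Finite (GC (K := K) p ∅) := finite_GC Set.finite_empty
  have hfd : FiniteDimensional (ZMod p) (GC (K := K) p ∅) := Module.Finite.of_finite
  have key := crit_tableO (cO p lam q) (fun f => by
      funext k
      rw [cO_apply, cup_XY, sub_self, mul_zero]
      rfl) (GC p ∅) (χ 0) (χ 1) (χ 2) (fun t : Fin m => χ (3 + t))
    (fun t => Yv p (s t)) (fun ν hν hν0 => hsep ν hν fun t ht => by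
      have h1 := GC.off hν (Set.notMem_empty (s t))
      have h2 : (ν (s t)).ev (piv (s t)) = 0 := hν0 ⟨t, ht⟩
      rw [h1, h2, zero_smul])
    (by
      intro ν hν x0 x1 y0 z hz1
      have E : ∀ v, Xv p v ν + x0 * Xv p v (χ 0) + x1 * Xv p v (χ 1) + y0 * Xv p v (χ 2) +
          ∑ t : Fin m, z t * Xv p v (χ (3 + t)) = 0 := by
        intro v
        have h1 := congrArg (Xv p v) hz1
        simpa only [map_add, map_smul, map_sum, map_zero, smul_eq_mul] using h1
      have hS : ∀ a < m + 3, m ≤ a → ∑ t : Fin m, z t * Xv p (s a) (χ (3 + t)) = 0 :=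
        fun a ha ha' => Finset.sum_eq_zero fun t _ => by
          rw [hB3 t t.2 a (by omega) (by omega) (by omega), mul_zero]
      have k0 : x0 = 0 := by
        have h1 := E (s m)
        rw [hN1 ν hν m (by omega), hX1 m (by omega) (by omega), hX2 m (by omega) (by omega),
          hS m (by omega) le_rfl, mul_zero, mul_zero, add_zero, add_zero, add_zero,
          zero_add] at h1
        exact (mul_eq_zero.1 h1).resolve_right (hC2 0 (by omega))
      have k1 : x1 = 0 := by
        have h1 := E (s (m + 1))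
        rw [hN1 ν hν (m + 1) (by omega), hX0 (m + 1) (by omega) (by omega),
          hX2 (m + 1) (by omega) (by omega), hS (m + 1) (by omega) (by omega), mul_zero, mul_zero,
          add_zero, add_zero, add_zero, zero_add] at h1
        exact (mul_eq_zero.1 h1).resolve_right (hC2 1 (by omega))
      have k2 : y0 = 0 := by
        have h1 := E (s (m + 2))
        rw [hN1 ν hν (m + 2) (by omega), hX0 (m + 2) (by omega) (by omega),
          hX1 (m + 2) (by omega) (by omega), hS (m + 2) (by omega) (by omega), mul_zero, mul_zero,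
          add_zero, add_zero, add_zero, zero_add] at h1
        exact (mul_eq_zero.1 h1).resolve_right (hC2 2 (by omega))
      have k4 : ∀ t, z t = 0 := by
        intro t
        have ht := t.2
        have h1 := E (s (m + (3 + t)))
        rw [hN1 ν hν _ (by omega), hX0 _ (by omega) (by omega), hX1 _ (by omega) (by omega),
          hX2 _ (by omega) (by omega), mul_zero, mul_zero, mul_zero, add_zero, add_zero, add_zero,
          zero_add, Finset.sum_eq_single t (fun t' _ htt => by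
            have h3 : (t : ℕ) ≠ t' := fun h => htt (Fin.ext h.symm)
            rw [hB3 t' t'.2 _ (by omega) (by omega) (by omega), mul_zero])
            (fun h => absurd (Finset.mem_univ t) h)] at h1
        exact (mul_eq_zero.1 h1).resolve_right (hC2 (3 + t) (by omega))
      refine ⟨?_, k0, k1, k2, k4⟩
      rw [k0, k1, k2, Finset.sum_eq_zero fun t _ => by rw [k4 t, zero_smul]] at hz1
      simpa using hz1)
    x hx0 r hr0
    (by
      refine hext _ _ (fun t => ?_) ?_ ?_ (fun t => ?_)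
      · rw [hcl, hz _ _ _ (A2 t t.2).1 (A0 t t.2).1]; simp
      · rw [hc0, hz _ _ _ (hX2 _ (by omega) (by omega)) (hX0 _ (by omega) (by omega))]; simp
      · rw [hc1, R2 (χ 0) (hMem _ 0 (by omega) (by omega)) fun a ha => (A0 a ha).1, ← hx,
          hz (m + 1) _ _ (hX2 _ (by omega) (by omega)) (hX0 _ (by omega) (by omega)), add_zero]
        simp
      · rw [hcr, hz _ _ _ (hX2 _ (by omega) (by omega)) (hX0 _ (by omega) (by omega))]; simp)
    (by
      refine hext _ _ (fun t => ?_) ?_ ?_ (fun t => ?_)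
      · rw [hcl, hz _ _ _ (A2 t t.2).1 (hX1 _ (by omega) (by omega))]; simp
      · rw [hc0, E2]; simp
      · rw [hc1, R2 (χ 1) (hMem _ 1 (by omega) (by omega)) fun a ha => (A1 a (by omega)).1, E2,
          hz'' m _ _ (A1 m (by omega)), zero_add]
        simp
      · rw [hcr, hz _ _ _ (hX2 _ (by omega) (by omega)) (hX1 _ (by omega) (by omega))]; simp)
    (by
      intro t
      refine hext _ _ (fun t' => ?_) ?_ ?_ (fun t' => ?_)
      · by_cases htt : t' = t
        · subst htt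
          rw [hcl, hrc t' (χ 0) (A0 t' t'.2).1, (A0 t' t'.2).2]; simp
        · have h3 : (t' : ℕ) ≠ t := fun h => htt (Fin.ext h)
          rw [hcl, hz _ _ _ (hB3 t t.2 t' (by omega) h3 (by omega)) (A0 t' t'.2).1]
          simp [Pi.single_apply, htt]
      · rw [hc0, hz _ _ _ (hB3 t t.2 _ (by omega) (by omega) (by omega))
          (hX0 _ (by omega) (by omega))]; simp
      · rw [hc1, hz _ _ _ (hB3 t t.2 _ (by omega) (by omega) (by omega))
          (hX0 _ (by omega) (by omega))]; simp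
      · by_cases htt : t' = t
        · subst htt
          rw [hcr, R3 t' (χ 0) (hMem _ 0 (by omega) (by omega)) (A0 t' t'.2).1, (A0 t' t'.2).2,
            hz (m + 1) _ _ (hB3 t' t'.2 _ (by omega) (by omega) (by omega))
              (hX0 _ (by omega) (by omega))]
          simp
        · have h3 : (t' : ℕ) ≠ t := fun h => htt (Fin.ext h)
          rw [hcr, hz _ _ _ (hB3 t t.2 _ (by omega) (by omega) (by omega))
            (hX0 _ (by omega) (by omega))]
          simp [Pi.single_apply, htt])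
    (by
      intro t
      refine hext _ _ (fun t' => ?_) ?_ ?_ (fun t' => ?_)
      · rw [hcl, hz'' t' _ _ (A1 t' (by omega))]; simp
      · rw [hc0, E3]; simp
      · rw [hc1, hz _ _ _ (hB3 t t.2 _ (by omega) (by omega) (by omega))
          (hX1 _ (by omega) (by omega))]; simp
      · by_cases htt : t' = t
        · subst htt
          rw [hcr, R3 t' (χ 1) (hMem _ 1 (by omega) (by omega)) (A1 t' (by omega)).1,
            (A1 t' (by omega)).2, E3]
          simp
        · have h3 : (t' : ℕ) ≠ t := fun h => htt (Fin.ext h)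
          rw [hcr, hz _ _ _ (hB3 t t.2 _ (by omega) (by omega) (by omega))
            (hX1 _ (by omega) (by omega))]
          simp [Pi.single_apply, htt])
    (by
      intro t ν hν
      refine hext _ _ (fun t' => ?_) ?_ ?_ (fun t' => ?_)
      · by_cases htt : t' = t
        · subst htt
          rw [hcl, hrc t' ν (hN1 ν hν _ (by omega))]; simp
        · have h3 : (t' : ℕ) ≠ t := fun h => htt (Fin.ext h)
          rw [hcl, hz _ _ _ (hB3 t t.2 t' (by omega) h3 (by omega)) (hN1 ν hν _ (by omega))]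
          simp [Pi.single_apply, htt]
      · rw [hc0, hz _ _ _ (hB3 t t.2 _ (by omega) (by omega) (by omega))
          (hN1 ν hν _ (by omega))]; simp
      · rw [hc1, hz _ _ _ (hB3 t t.2 _ (by omega) (by omega) (by omega))
          (hN1 ν hν _ (by omega))]; simp
      · by_cases htt : t' = t
        · subst htt
          rw [hcr, R3 t' ν (hN0 _ hν) (hN1 ν hν _ (by omega)),
            hz (m + 1) _ _ (hB3 t' t'.2 _ (by omega) (by omega) (by omega))
              (hN1 ν hν _ (by omega))]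
          simp
        · have h3 : (t' : ℕ) ≠ t := fun h => htt (Fin.ext h)
          rw [hcr, hz _ _ _ (hB3 t t.2 _ (by omega) (by omega) (by omega))
            (hN1 ν hν _ (by omega))]
          simp [Pi.single_apply, htt])
    (by
      intro ν hν
      refine hext _ _ (fun t => ?_) ?_ ?_ (fun t => ?_)
      · rw [hcl, hz _ _ _ (A2 t t.2).1 (hN1 ν hν _ (by omega))]; simp
      · rw [hc0, hz _ _ _ (hX2 _ (by omega) (by omega)) (hN1 ν hν _ (by omega))]; simp
      · rw [hc1, R2 ν (hN0 _ hν) fun a ha => hN1 ν hν _ (by omega),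
          hz m _ _ A2m.1 (hN1 ν hν _ (by omega)),
          hz (m + 1) _ _ (hX2 _ (by omega) (by omega)) (hN1 ν hν _ (by omega))]
        simp
      · rw [hcr, hz _ _ _ (hX2 _ (by omega) (by omega)) (hN1 ν hν _ (by omega))]; simp)
    (by
      intro ν hν ν' hν'
      funext k
      rw [cO_apply]
      exact hz _ _ _ (hN1 ν hν _ (Fx_lt k)) (hN1 ν' hν' _ (Fx_lt k)))
    (by
      intro ν hν
      constructor
      · funext k
        rw [cO_apply]
        exact hz _ _ _ (hN1 ν hν _ (Fx_lt k)) (hX0 _ (Fx_lt k) (Fx_ne k))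
      · refine hext _ _ (fun t => ?_) ?_ ?_ (fun t => ?_)
        · rw [hcl, hz'' t _ _ (A1 t (by omega))]; simp
        · rw [hc0, R1 ν (hN0 _ hν) fun a ha => hN1 ν hν _ (by omega)]; simp
        · rw [hc1, hz _ _ _ (hN1 ν hν _ (by omega)) (hX1 _ (by omega) (by omega))]; simp
        · rw [hcr, hz _ _ _ (hN1 ν hν _ (by omega)) (hX1 _ (by omega) (by omega))]; simp)
    (by
      refine hext _ _ (fun t => ?_) ?_ ?_ (fun t => ?_)
      · rw [hcl, hz'' t _ _ (A1 t (by omega))]; simp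
      · rw [hc0, R1 (χ 0) (hMem _ 0 (by omega) (by omega)) fun a ha => (A0 a ha).1]; simp
      · rw [hc1, hz _ _ _ (hX0 _ (by omega) (by omega)) (hX1 _ (by omega) (by omega))]; simp
      · rw [hcr, hz _ _ _ (hX0 _ (by omega) (by omega)) (hX1 _ (by omega) (by omega))]; simp)
  have hG : GC p ∅ ⊔ Submodule.span (ZMod p) {χ 0, χ 1} ⊔ (Submodule.span (ZMod p) {χ 2} ⊔
      Submodule.span (ZMod p) (Set.range fun t : Fin m => χ (3 + t))) =
      GC p (fst s (m + (m + 3))) := by
    apply le_antisymm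
    · refine sup_le (sup_le (GC.mono (Set.empty_subset _)) ?_) (sup_le ?_ ?_)
      · rw [Submodule.span_le]
        rintro f (rfl | rfl)
        · exact hmemT 0 (by omega)
        · exact hmemT 1 (by omega)
      · rw [Submodule.span_le]
        rintro f rfl
        exact hmemT 2 (by omega)
      · rw [Submodule.span_le]
        rintro f ⟨t, rfl⟩
        exact hmemT (3 + t) (by omega)
    · refine (GC_span_OX8 h0 h (m + 3) le_rfl).trans (sup_le (le_sup_left.trans le_sup_left) ?_)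
      rw [Submodule.span_le]
      rintro f ⟨i, hi, rfl⟩
      have hi : i < m + 3 := hi
      by_cases h1 : i < 2
      · refine (le_sup_right.trans le_sup_left :
          Submodule.span (ZMod p) {χ 0, χ 1} ≤ _) (Submodule.subset_span ?_)
        interval_cases i
        · exact Or.inl rfl
        · exact Or.inr rfl
      · by_cases h2 : i = 2
        · subst h2
          exact (le_sup_left.trans le_sup_right :
            Submodule.span (ZMod p) {χ 2} ≤ _) (Submodule.subset_span rfl)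
        · refine (le_sup_right.trans le_sup_right :
            Submodule.span (ZMod p) (Set.range fun t : Fin m => χ (3 + t)) ≤ _)
              (Submodule.subset_span ⟨⟨i - 3, by omega⟩, ?_⟩)
          show χ (3 + (i - 3)) = χ i
          rw [show 3 + (i - 3) = i by omega]
  rw [hG] at key
  exact CritC_idx_OX8 e (fun k => lam (q k)) (fun k => hlam _ (hsm _ (Fx_lt k)))
    (fun f g k => rfl) key

open Classical in
theorem core_of_cfgO {p : ℕ} [Fact p.Prime] {m : ℕ}
    (hm : (PP K p).relIndex (VS p ∅) = p ^ m) {lam : Pr K → ZMod p}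
    (hlam : ∀ v, nm v % p = 1 → lam v ≠ 0)
    (hrec : ∀ T : Finset (Pr K), (∀ v ∈ T, nm v % p = 1) → ∀ f ∈ GC p (T : Set (Pr K)),
      ∀ g ∈ GC p (T : Set (Pr K)), ∑ t ∈ T, lam t * cupF p t f g = 0)
    {s : ℕ → Pr K} (hsep : ∀ ν ∈ GC p ∅, (∀ t < m, ν (s t) = 0) → ν = 0)
    {χ : ℕ → Pr K → Hm K p} (h0 : T0O p s m) (h : CfgO p m lam s χ (m + 3)) :
    CoreO p (s m) ((Finset.range (m + (m + 3))).image s) (χ 0 + χ 1) := by
  have hT : (((Finset.range (m + (m + 3))).image s : Finset (Pr K)) : Set (Pr K)) =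
      fst s (m + (m + 3)) := by
    rw [Finset.coe_image, Finset.coe_range]
    rfl
  have hmemT : ∀ i < m + 3, χ i ∈ GC p (fst s (m + (m + 3))) := fun i hi =>
    GC.mono (fst_mono_OX8 s (by omega)) (h.mem i hi)
  refine ⟨?_, ?_, ?_, ?_, ?_⟩
  · exact Finset.mem_image.2 ⟨m, Finset.mem_range.2 (by omega), rfl⟩
  · intro t ht
    obtain ⟨a, ha, rfl⟩ := Finset.mem_image.1 ht
    exact h.pr a (Finset.mem_range.1 ha)
  · refine le_trans ?_ (T0O_vt h0 hm)
    rw [hT]
    unfold VT
    refine inf_le_inf_left _ ?_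
    refine le_iInf₂ fun v hv => iInf₂_le_of_le v (fst_mono_OX8 s (by omega) hv) le_rfl
  · rw [hT]
    exact Submodule.add_mem _ (hmemT 0 (by omega)) (hmemT 1 (by omega))
  · unfold CritFO
    rw [hT]
    exact crit_OX8 hlam hrec hsep h0 h hT

end Pool.Agent.RGK
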