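import Mathlib
import Pool.Agent.Lib.RGK.OXDefs
import Pool.Agent.Lib.RGK.X2b
import Pool.Agent.Lib.RGK.X3
import Pool.Agent.Lib.RGK.X7a
import Pool.Agent.Lib.RGK.X9
import Pool.Agent.Lib.RGK.OR2
import Pool.Agent.Lib.RGK.OD1
import Pool.Agent.Lib.RGK.OD2
import Pool.Agent.Lib.RGK.OX7a
import Pool.Agent.Lib.RGK.OX7
import Pool.Agent.Lib.RGK.OX8

/-!
RG v5, row OX9: the chain which leads to a core; copy X9.lean.

`lam` from `reciprocity` (OR2), `p ^ m = relIndex` (`relIndex_pow`), stages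
`St i S := ∃ s, T0O p s i ∧ ∀ a < i, s a ∈ S` for `i < m`,
`St (m + j) S := ∃ s χ, T0O p s m ∧ CfgO p m lam s χ j ∧ ∀ a < m + j, s a ∈ S`, `n := m + (m + 3)`,
`δ := ((p : ℝ) ^ n * p ^ m)⁻¹ * (1 - (p : ℝ)⁻¹)`; `bound_VS` (X7a). `hD : DensB K p` is `densB hζ` (OD1).
`hsep` for `core_of_cfgO`: `sep_GC` (OR2) for `T := fst s m` (`T0O_vt`).
-/

set_option autoImplicit false

namespace Pool.Agent.RGK

open NumberField IsDedekindDomain
open Pool.Agent.RG.H (Pr vl UU PP SU ev below nrm emb NS)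

variable {K : Type} [Field K] [NumberField K]

private theorem OX9_fst {s s' : ℕ → Pr K} {i : ℕ} (h : ∀ a < i, s a = s' a) :
    fst s i = fst s' i := by
  unfold fst
  exact Set.image_congr fun a ha => h a ha

private theorem OX9_T0 {p : ℕ} {s s' : ℕ → Pr K} {i : ℕ} (hs : ∀ a < i, s a = s' a)
    (h : T0O p s i) : T0O p s' i := by
  have e := OX9_fst hs
  refine ⟨fun a ha b hb hab => h.inj a ha b hb ?_, fun a ha => ?_, ?_, ?_⟩
  · rw [hs a ha, hs b hb]
    exact hab
  · rw [← hs a ha]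
    exact h.pr a ha
  · rw [← e]
    exact h.gc
  · rw [← e]
    exact h.idx

private theorem OX9_cfg0 {p m : ℕ} (lam : Pr K → ZMod p) {s : ℕ → Pr K}
    (χ : ℕ → Pr K → Hm K p) (h : T0O p s m) : CfgO p m lam s χ 0 :=
  ⟨h.inj, h.pr, fun i hi => absurd hi (Nat.not_lt_zero i), fun i hi => absurd hi (Nat.not_lt_zero i),
    fun i hi => absurd hi (Nat.not_lt_zero i), fun hi => absurd hi (Nat.not_lt_zero 2),
    fun t ht => absurd ht (Nat.not_lt_zero (3 + t))⟩

open Classical in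
theorem core_chainO {p : ℕ} [Fact p.Prime] (hp : p ≠ 2) {ζ : K} (hζ : IsPrimitiveRoot ζ p) :
    ∃ (St : ℕ → Finset (Pr K) → Prop) (δ : ℝ) (n : ℕ), 0 < δ ∧
      (∀ S : Finset (Pr K), (∀ v ∈ S, nm v % p = 1) → St 0 S) ∧
      (∀ i < n, ∀ S : Finset (Pr K), (∀ v ∈ S, nm v % p = 1) → St i S →
        ∃ d : ℝ, δ ≤ d ∧ ∃ A ⊆ P1K (K := K) p, HasDK A (c0K K p * d) ∧
          ∀ q ∈ A, q ∉ S → St (i + 1) (insert q S)) ∧
      ∀ S : Finset (Pr K), (∀ v ∈ S, nm v % p = 1) → St n S →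
        ∃ T ⊆ S, ∃ o ν, CoreO p o T ν := by
  classical
  have hpp : p.Prime := Fact.out
  have hp1 : (1 : ℝ) < p := by exact_mod_cast hpp.one_lt
  have hp0 : (0 : ℝ) < p := by linarith
  have hD : DensB K p := densB hζ
  obtain ⟨m, hm⟩ := relIndex_pow K p
  obtain ⟨lam, hlam, hrec⟩ := reciprocity hp hζ
  obtain ⟨v₀, _⟩ := RG.exists_above_prime K hpp
  set n := m + (m + 3) with hn
  set δ : ℝ := ((p : ℝ) ^ n * (p : ℝ) ^ m)⁻¹ * (1 - (p : ℝ)⁻¹) with hδ
  have hinv : 0 < 1 - (p : ℝ)⁻¹ := by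
    have : (p : ℝ)⁻¹ < 1 := inv_lt_one_of_one_lt₀ hp1
    linarith
  have hinv1 : 1 - (p : ℝ)⁻¹ ≤ 1 := by
    have : 0 < (p : ℝ)⁻¹ := inv_pos.2 hp0
    linarith
  have hδ0 : 0 < δ := by positivity
  refine ⟨fun i S => ∃ (s : ℕ → Pr K) (χ : ℕ → Pr K → Hm K p), T0O p s (min i m) ∧
    (m ≤ i → CfgO p m lam s χ (i - m)) ∧ ∀ a < i, s a ∈ S, δ, n, hδ0, ?_, ?_, ?_⟩
  · intro S _
    refine ⟨fun _ => v₀, fun _ => 0, ?_, fun h => ?_, fun a ha => absurd ha (Nat.not_lt_zero a)⟩
    · rw [Nat.zero_min]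
      exact T0O_zero _
    · have h0 : m = 0 := Nat.le_zero.1 h
      subst h0
      exact OX9_cfg0 lam _ (T0O_zero _)
  · rintro i hi S hS ⟨s, χ, hT0, hcfg, hsS⟩
    by_cases him : i < m
    · rw [min_eq_left him.le] at hT0
      obtain ⟨x, hx, hxP⟩ := T0O_next hT0 hm him
      obtain ⟨A, hA, hdA, hAq⟩ := step_T0O hD (T := fst s i) ((Set.finite_Iio i).image s) hxP
      refine ⟨1 - (p : ℝ)⁻¹, ?_, A, hA, hdA, ?_⟩
      · have h2 : ((p : ℝ) ^ n * (p : ℝ) ^ m)⁻¹ ≤ 1 := by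
          apply inv_le_one_of_one_le₀
          exact one_le_mul_of_one_le_of_one_le (one_le_pow₀ hp1.le) (one_le_pow₀ hp1.le)
        rw [hδ]
        exact mul_le_of_le_one_left hinv.le h2
      · intro q hq _
        obtain ⟨h1, h2, h3⟩ := hAq q hq
        have hT0' := T0O_step hT0 hx h1 h2 (hA hq) h3
        refine ⟨Function.update s i q, χ, ?_, fun h => ?_, fun a ha => ?_⟩
        · rw [min_eq_left (Nat.succ_le_of_lt him)]
          exact hT0'
        · have h5 : i + 1 = m := le_antisymm (Nat.succ_le_of_lt him) h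
          rw [h5, Nat.sub_self]
          rw [h5] at hT0'
          exact OX9_cfg0 lam _ hT0'
        · rcases Nat.lt_succ_iff_lt_or_eq.1 ha with h5 | h5
          · rw [Function.update_of_ne h5.ne]
            exact Finset.mem_insert_of_mem (hsS a h5)
          · rw [h5, Function.update_self]
            exact Finset.mem_insert_self _ _
    · push Not at him
      obtain ⟨j, rfl⟩ := Nat.exists_eq_add_of_le him
      rw [min_eq_right him] at hT0
      have hj : j < m + 3 := by omega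
      have hc := hcfg him
      rw [Nat.add_sub_cancel_left] at hc
      obtain ⟨d, hd, A, hA, hdA, hAq⟩ := cfgO_step hD hlam hc hj
      refine ⟨d, le_trans ?_ hd, A, hA, hdA, ?_⟩
      · have h2 := bound_VS (p := p) s (m + j)
        rw [hm] at h2
        have h3 : (PP K p).relIndex (VS p (fst s (m + j))) ≠ 0 :=
          finite_VS ((Set.finite_Iio (m + j)).image s)
        have h4 : (0 : ℝ) < (((PP K p).relIndex (VS p (fst s (m + j))) : ℕ) : ℝ) := by
          exact_mod_cast Nat.pos_of_ne_zero h3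
        have h5 : (((PP K p).relIndex (VS p (fst s (m + j))) : ℕ) : ℝ) ≤
            (p : ℝ) ^ n * (p : ℝ) ^ m := by
          have h6 : (((PP K p).relIndex (VS p (fst s (m + j))) : ℕ) : ℝ) ≤
              (p : ℝ) ^ (m + j) * (p : ℝ) ^ m := by exact_mod_cast h2
          refine h6.trans (mul_le_mul_of_nonneg_right ?_ (by positivity))
          exact pow_le_pow_right₀ hp1.le hi.le
        have h7 : ((p : ℝ) ^ n * (p : ℝ) ^ m)⁻¹ ≤
            (((PP K p).relIndex (VS p (fst s (m + j))) : ℕ) : ℝ)⁻¹ := inv_anti₀ h4 h5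
        calc δ ≤ ((p : ℝ) ^ n * (p : ℝ) ^ m)⁻¹ * 1 :=
              mul_le_mul_of_nonneg_left hinv1 (by positivity)
          _ = ((p : ℝ) ^ n * (p : ℝ) ^ m)⁻¹ := mul_one _
          _ ≤ _ := h7
      · intro q hq _
        obtain ⟨χ', hχ'⟩ := hAq q hq
        refine ⟨Function.update s (m + j) q, Function.update χ j χ', ?_, fun h => ?_, fun a ha => ?_⟩
        · rw [min_eq_right (by omega)]
          refine OX9_T0 (fun a ha => ?_) hT0
          rw [Function.update_of_ne (by omega)]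
        · have h5 : m + j + 1 - m = j + 1 := by omega
          rw [h5]
          exact hχ'
        · rcases Nat.lt_succ_iff_lt_or_eq.1 ha with h5 | h5
          · rw [Function.update_of_ne h5.ne]
            exact Finset.mem_insert_of_mem (hsS a h5)
          · rw [h5, Function.update_self]
            exact Finset.mem_insert_self _ _
  · rintro S hS ⟨s, χ, hT0, hcfg, hsS⟩
    have hmn : m ≤ n := by omega
    rw [min_eq_right hmn] at hT0
    have hc := hcfg hmn
    have h5 : n - m = m + 3 := by omega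
    rw [h5] at hc
    have hsep : ∀ ν ∈ GC (K := K) p ∅, (∀ t < m, ν (s t) = 0) → ν = 0 := by
      intro ν hν h
      refine sep_GC hp hζ (T := fst s m) ?_ (T0O_vt hT0 hm) hν ?_
      · rintro v ⟨a, ha, rfl⟩
        exact (hT0.pr a ha).2
      · rintro v ⟨a, ha, rfl⟩
        exact h a ha
    refine ⟨_, ?_, _, _, core_of_cfgO hm hlam hrec hsep hT0 hc⟩
    intro v hv
    obtain ⟨a, ha, rfl⟩ := Finset.mem_image.1 hv
    exact hsS a (Finset.mem_range.1 ha)

end Pool.Agent.RGK
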