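import Mathlib
import Pool.Agent.Lib.RG.RDefs
import Pool.Agent.Lib.RG.G14
import Pool.Agent.Lib.RGK.MainK
import Pool.Agent.Lib.RGK.OG6
import Pool.Agent.Lib.RGK.OD1
import Pool.Agent.Lib.RGK.ONK3
import Pool.Agent.Lib.RGK.OX9

/-!
RG v5: rank gradient zero for almost all tame sets of primes of an arbitrary number field (`p` odd).
-/

set_option autoImplicit false

namespace Pool.Agent.RGK

open NumberField IsDedekindDomain
open Pool.Agent.RG (GP rankGradient)
open Pool.Agent.RG.H (Pr)

/-- fields which contain a primitive `p`-th root of unity -/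
theorem almost_allO {K : Type} [Field K] [NumberField K] {p : ℕ} [Fact p.Prime] (hp : p ≠ 2)
    {ζ : K} (hζ : IsPrimitiveRoot ζ p) (S : Finset (Pr K)) (hS : ∀ v ∈ S, nm v % p = 1) :
    Filter.Tendsto (fun k => iterProbK p
      (fun S => Infinite (GP p (S : Set (Pr K))) ∧ rankGradient (GP p (S : Set (Pr K))) = 0) k S)
      Filter.atTop (nhds 1) := by
  have hD : DensI K p := densI hp hζ
  obtain ⟨St, δ, n, hδ, h0, hstep, hcore⟩ := core_chainO (K := K) hp hζ
  have hlim := crit_limitO hD hδ h0 hstep hcore S hS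
  have hc := c0K_pos (K := K) (p := p)
  have h1 := hasDK_P1KI hD
  refine tendsto_of_tendsto_of_tendsto_of_le_of_le hlim tendsto_const_nhds ?_ ?_
  · intro k
    exact iterProbK_mono p hc h1 (fun S' hS' hcr => critK_mainO hp hζ hS' hcr) k S hS
  · intro k
    exact (iterProbK_bounds p hc h1 _ k S).2

/-- all number fields -/
theorem almost_all_fields {K : Type} [Field K] [NumberField K] {p : ℕ} [Fact p.Prime]
    (hp : p ≠ 2) (S : Finset (Pr K)) (hS : ∀ v ∈ S, nm v % p = 1) :
    Filter.Tendsto (fun k => iterProbK p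
      (fun S => Infinite (GP p (S : Set (Pr K))) ∧ rankGradient (GP p (S : Set (Pr K))) = 0) k S)
      Filter.atTop (nhds 1) := by
  by_cases h : ∃ ζ : K, IsPrimitiveRoot ζ p
  · obtain ⟨ζ, hζ⟩ := h
    exact almost_allO hp hζ S hS
  · exact almost_allK hp (fun z hz => h ⟨z, hz⟩) S hS

end Pool.Agent.RGK
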